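import Pool.Agent.LLog.Targets

set_option autoImplicit false

/-! LLog KAK: Kakeya maximal estimate in the plane (Cordoba), double counting. -/

namespace Pool.Agent.LLog

open MeasureTheory Set
open scoped ENNReal NNReal
open Pool.Agent.KSP (dot)

namespace KAK_

lemma Nn_pos (t : ℝ) : 0 < Nn t := by unfold Nn; positivity

lemma Nn_sq (t : ℝ) : Nn t ^ 2 = 1 + t ^ 2 := by unfold Nn; exact Real.sq_sqrt (by positivity)

/-- coordinates -/
noncomputable def ro (t : ℝ) (z : ℝ × ℝ) : ℝ × ℝ := (dot z (nv t), dot z (tv t))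

lemma ro_mp (t : ℝ) : MeasurePreserving (ro t) := by
  have hN := Nn_pos t
  have hN2 := Nn_sq t
  have hdet : (!![1 / Nn t, t / Nn t; -t / Nn t, 1 / Nn t] : Matrix (Fin 2) (Fin 2) ℝ).det = 1 := by
    rw [Matrix.det_fin_two_of]
    field_simp
    linarith
  have h1 : LinearMap.det (Matrix.toLin (Module.Basis.finTwoProd ℝ) (Module.Basis.finTwoProd ℝ)
      (!![1 / Nn t, t / Nn t; -t / Nn t, 1 / Nn t] : Matrix (Fin 2) (Fin 2) ℝ)) = 1 := by
    rw [LinearMap.det_toLin, hdet]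
  have h2 : ro t = Matrix.toLin (Module.Basis.finTwoProd ℝ) (Module.Basis.finTwoProd ℝ)
      (!![1 / Nn t, t / Nn t; -t / Nn t, 1 / Nn t] : Matrix (Fin 2) (Fin 2) ℝ) := by
    funext z
    rw [Matrix.toLin_finTwoProd]
    simp only [ro, dot, nv, tv, LinearMap.prod_apply,
      Function.prod]
    ext <;> simp <;> ring
  constructor
  · rw [h2]
    exact (LinearMap.continuous_of_finiteDimensional _).measurable
  · rw [h2]
    have := Measure.map_linearMap_addHaar_eq_smul_addHaar (volume : Measure (ℝ × ℝ))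
      (f := Matrix.toLin (Module.Basis.finTwoProd ℝ) (Module.Basis.finTwoProd ℝ)
      (!![1 / Nn t, t / Nn t; -t / Nn t, 1 / Nn t] : Matrix (Fin 2) (Fin 2) ℝ))
      (by rw [h1]; norm_num)
    rw [this, h1]
    simp

/-- coordinates with origin `p` -/
lemma rp_mp (t : ℝ) (p : ℝ × ℝ) : MeasurePreserving (fun z => ro t (z - p)) :=
  (ro_mp t).comp (measurePreserving_sub_right volume p)

lemma bx_meas (t : ℝ) (x0 : ℝ × ℝ) (A B : ℝ) : MeasurableSet (bx t x0 A B) := by
  have h : bx t x0 A B = (fun z => ro t (z - x0)) ⁻¹' (Ioo (-A) A ×ˢ Ioo (-B) B) := by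
    ext z
    simp only [bx, ro, mem_preimage, mem_prod, mem_Ioo, mem_ofPred_eq, abs_lt]
  rw [h]
  exact (rp_mp t x0).measurable (measurableSet_Ioo.prod measurableSet_Ioo)

lemma bx_vol (t : ℝ) (x0 : ℝ × ℝ) (A B : ℝ) (hA : 0 < A) (hB : 0 < B) :
    volume (bx t x0 A B) = ENNReal.ofReal (4 * A * B) := by
  have h : bx t x0 A B = (fun z => ro t (z - x0)) ⁻¹' (Ioo (-A) A ×ˢ Ioo (-B) B) := by
    ext z
    simp only [bx, ro, mem_preimage, mem_prod, mem_Ioo, mem_ofPred_eq, abs_lt]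
  rw [h, (rp_mp t x0).measure_preimage
    (measurableSet_Ioo.prod measurableSet_Ioo).nullMeasurableSet, Measure.volume_eq_prod,
    Measure.prod_prod, Real.volume_Ioo, Real.volume_Ioo, ← ENNReal.ofReal_mul (by linarith)]
  congr 1
  ring

lemma dec (t t' : ℝ) (w : ℝ × ℝ) (e : ℝ × ℝ) : dot w e =
    dot w (nv t') * dot (nv t') e + dot w (tv t') * dot (tv t') e := by
  have hN := Nn_pos t'
  have hN2 := Nn_sq t'
  simp only [dot, nv, tv]
  field_simp
  rw [hN2]
  ring

lemma al_eq (t t' : ℝ) : dot (nv t) (tv t') = - dot (nv t') (tv t) := by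
  have hN := Nn_pos t
  have hN' := Nn_pos t'
  simp only [dot, nv, tv]
  field_simp
  ring

lemma abs_dot_le {u w : ℝ × ℝ} (hu : dot u u = 1) (hw : dot w w = 1) : |dot u w| ≤ 1 := by
  simp only [dot] at *
  rw [abs_le]
  constructor <;> nlinarith [sq_nonneg (u.1 - w.1), sq_nonneg (u.2 - w.2),
    sq_nonneg (u.1 + w.1), sq_nonneg (u.2 + w.2)]

lemma nn (t : ℝ) : dot (nv t) (nv t) = 1 := by
  have hN := Nn_pos t
  have hN2 := Nn_sq t
  simp only [dot, nv]
  field_simp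
  linarith

lemma tt (t : ℝ) : dot (tv t) (tv t) = 1 := by
  have hN := Nn_pos t
  have hN2 := Nn_sq t
  simp only [dot, tv]
  field_simp
  linarith

lemma coord_le {e : ℝ × ℝ} (he : dot e e = 1) {w : ℝ × ℝ} {B : ℝ} (h1 : |w.1| ≤ B)
    (h2 : |w.2| ≤ B) : |dot w e| ≤ 2 * B := by
  have hB : 0 ≤ B := (abs_nonneg _).trans h1
  simp only [dot] at *
  have e1 : |e.1| ≤ 1 := by rw [abs_le]; constructor <;> nlinarith [sq_nonneg e.2, sq_nonneg (e.1 - 1), sq_nonneg (e.1 + 1)]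
  have e2 : |e.2| ≤ 1 := by rw [abs_le]; constructor <;> nlinarith [sq_nonneg e.1, sq_nonneg (e.2 - 1), sq_nonneg (e.2 + 1)]
  calc |w.1 * e.1 + w.2 * e.2| ≤ |w.1 * e.1| + |w.2 * e.2| := abs_add_le _ _
    _ = |w.1| * |e.1| + |w.2| * |e.2| := by rw [abs_mul, abs_mul]
    _ ≤ B * 1 + B * 1 := by gcongr
    _ = 2 * B := by ring

lemma slice (α c B : ℝ) (hα : α ≠ 0) (hB : 0 < B) :
    volume {u : ℝ | |α * u - c| < B} ≤ ENNReal.ofReal (2 * B / |α|) := by
  have h : {u : ℝ | |α * u - c| < B} ⊆ Metric.ball (c / α) (B / |α|) := by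
    intro u hu
    have hu : |α * u - c| < B := hu
    have ha : 0 < |α| := abs_pos.mpr hα
    rw [Metric.mem_ball, Real.dist_eq, lt_div_iff₀ ha, ← abs_mul]
    have : (u - c / α) * α = α * u - c := by field_simp
    rw [this]
    exact hu
  refine (measure_mono h).trans ?_
  rw [Real.volume_ball]
  apply ENNReal.ofReal_le_ofReal
  rw [mul_div_assoc]

/-- two strips -/
lemma inter_le (t t' : ℝ) (x0 x0' : ℝ × ℝ) (A B : ℝ) (hB : 0 < B)
    (hα : dot (nv t) (tv t') ≠ 0) :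
    volume (bx t x0 A B ∩ bx t' x0' A B) ≤
      ENNReal.ofReal (4 * B ^ 2 / |dot (nv t) (tv t')|) := by
  set α := dot (nv t) (tv t') with hαd
  set γ := dot (tv t) (tv t') with hγ
  set c0 := dot (x0' - x0) (tv t') with hc0
  set S : Set (ℝ × ℝ) := {w | |w.2| < B ∧ |α * w.1 - (c0 - γ * w.2)| < B} with hS
  have hSm : MeasurableSet S := by
    have m1 : MeasurableSet {w : ℝ × ℝ | |w.2| < B} :=
      measurableSet_lt (f := fun w : ℝ × ℝ => |w.2|) (g := fun _ => B) (by fun_prop)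
        measurable_const
    have m2 : MeasurableSet {w : ℝ × ℝ | |α * w.1 - (c0 - γ * w.2)| < B} :=
      measurableSet_lt (f := fun w : ℝ × ℝ => |α * w.1 - (c0 - γ * w.2)|) (g := fun _ => B)
        (by fun_prop) measurable_const
    exact m1.inter m2
  have hsub : bx t x0 A B ∩ bx t' x0' A B ⊆ (fun z => ro t (z - x0)) ⁻¹' S := by
    rintro z ⟨hz, hz'⟩
    refine ⟨hz.2, ?_⟩
    have h := hz'.2
    have hd := dec t t (z - x0) (tv t')
    have : α * (ro t (z - x0)).1 - (c0 - γ * (ro t (z - x0)).2) = dot (z - x0') (tv t') := by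
      have h3 : dot (z - x0') (tv t') = dot (z - x0) (tv t') - dot (x0' - x0) (tv t') := by
        simp only [dot, Prod.fst_sub, Prod.snd_sub]; ring
      rw [h3, hd]
      simp only [ro]
      rw [← hαd, ← hγ, ← hc0]
      ring
    rw [this]
    exact h
  refine (measure_mono hsub).trans ?_
  rw [(rp_mp t x0).measure_preimage hSm.nullMeasurableSet, Measure.volume_eq_prod,
    Measure.prod_apply_symm hSm]
  have h1 : ∀ v : ℝ, volume ((fun x : ℝ => (x, v)) ⁻¹' S) ≤
      (Ioo (-B) B).indicator (fun _ => ENNReal.ofReal (2 * B / |α|)) v := by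
    intro v
    by_cases hv : v ∈ Ioo (-B) B
    · rw [indicator_of_mem hv]
      refine le_trans (measure_mono ?_) (slice α (c0 - γ * v) B hα hB)
      intro u hu
      exact hu.2
    · rw [indicator_of_notMem hv]
      have : (fun x : ℝ => (x, v)) ⁻¹' S = ∅ := by
        ext x
        simp only [mem_preimage, mem_empty_iff_false, iff_false]
        rintro ⟨h3, _⟩
        exact hv (abs_lt.mp h3)
      rw [this, measure_empty]
  refine (lintegral_mono h1).trans ?_
  rw [lintegral_indicator measurableSet_Ioo, setLIntegral_const, Real.volume_Ioo,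
    ← ENNReal.ofReal_mul (by positivity)]
  apply ENNReal.ofReal_le_ofReal
  apply le_of_eq
  ring

/-- geometry of two intersecting boxes -/
lemma geo (t t' : ℝ) (x0 x0' y y' z : ℝ × ℝ) (A B : ℝ)
    (hy : y ∈ bx t x0 A B) (hz : z ∈ bx t x0 A B) (hy' : y' ∈ bx t' x0' A B)
    (hz' : z ∈ bx t' x0' A B) :
    |dot (y' - y) (tv t)| ≤ 2 * A * |dot (nv t) (tv t')| + 4 * B ∧
      |dot (y' - y) (tv t)| ≤ 2 * A + 4 * B ∧ |dot (y' - y) (nv t)| ≤ 4 * A + 2 * B := by
  have hA : 0 < A := (abs_nonneg _).trans_lt hy.1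
  have hB : 0 < B := (abs_nonneg _).trans_lt hy.2
  have sub1 : ∀ (e a b c : ℝ × ℝ), dot (a - c) e = dot (a - b) e + dot (b - c) e := by
    intro e a b c; simp only [dot, Prod.fst_sub, Prod.snd_sub]; ring
  have sub2 : ∀ (e a b c : ℝ × ℝ), dot (a - b) e = dot (a - c) e - dot (b - c) e := by
    intro e a b c; simp only [dot, Prod.fst_sub, Prod.snd_sub]; ring
  have tr : ∀ (e a b c : ℝ × ℝ) (R : ℝ), |dot (a - c) e| < R → |dot (b - c) e| < R →
      |dot (a - b) e| ≤ 2 * R := by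
    intro e a b c R h1 h2
    rw [sub2 e a b c]
    rw [abs_lt] at h1 h2
    rw [abs_le]
    constructor <;> linarith [h1.1, h1.2, h2.1, h2.2]
  have a1 : |dot (y' - z) (nv t')| ≤ 2 * A := tr _ _ _ _ _ hy'.1 hz'.1
  have a2 : |dot (y' - z) (tv t')| ≤ 2 * B := tr _ _ _ _ _ hy'.2 hz'.2
  have a3 : |dot (z - y) (nv t)| ≤ 2 * A := tr _ _ _ _ _ hz.1 hy.1
  have a4 : |dot (z - y) (tv t)| ≤ 2 * B := tr _ _ _ _ _ hz.2 hy.2
  have b1 : |dot (nv t') (tv t)| = |dot (nv t) (tv t')| := by rw [al_eq t' t, abs_neg]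
  have b2 : |dot (tv t') (tv t)| ≤ 1 := abs_dot_le (tt t') (tt t)
  have b3 : |dot (nv t') (nv t)| ≤ 1 := abs_dot_le (nn t') (nn t)
  have b4 : |dot (tv t') (nv t)| ≤ 1 := abs_dot_le (tt t') (nn t)
  have b5 : |dot (nv t) (tv t')| ≤ 1 := abs_dot_le (nn t) (tt t')
  have c1 : |dot (y' - z) (tv t)| ≤ 2 * A * |dot (nv t) (tv t')| + 2 * B := by
    rw [dec t t' (y' - z) (tv t)]
    refine (abs_add_le _ _).trans ?_
    rw [abs_mul, abs_mul, b1]
    have := mul_le_mul a2 b2 (abs_nonneg _) (by linarith)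
    have h2 := mul_le_mul_of_nonneg_right a1 (abs_nonneg (dot (nv t) (tv t')))
    linarith
  have c2 : |dot (y' - z) (nv t)| ≤ 2 * A + 2 * B := by
    rw [dec t t' (y' - z) (nv t)]
    refine (abs_add_le _ _).trans ?_
    rw [abs_mul, abs_mul]
    have h1 := mul_le_mul a1 b3 (abs_nonneg _) (by linarith)
    have h2 := mul_le_mul a2 b4 (abs_nonneg _) (by linarith)
    linarith
  have d1 : |dot (y' - y) (tv t)| ≤ 2 * A * |dot (nv t) (tv t')| + 4 * B := by
    rw [sub1 (tv t) y' z y]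
    refine (abs_add_le _ _).trans ?_
    linarith
  refine ⟨d1, ?_, ?_⟩
  · have := mul_le_mul_of_nonneg_left b5 (by linarith : 0 ≤ 2 * A)
    linarith
  · rw [sub1 (nv t) y' z y]
    refine (abs_add_le _ _).trans ?_
    linarith

/-- the intersection bound -/
lemma inter (t t' : ℝ) (x0 x0' y y' : ℝ × ℝ) (A B : ℝ) (hB : 0 < B) (hAB : B ≤ A)
    (hy : y ∈ bx t x0 (7 * A) (7 * B)) (hy' : y' ∈ bx t' x0' (7 * A) (7 * B))
    (hne : (bx t x0 (7 * A) (7 * B) ∩ bx t' x0' (7 * A) (7 * B)).Nonempty) :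
    volume (bx t x0 (7 * A) (7 * B) ∩ bx t' x0' (7 * A) (7 * B)) ≤
      ENNReal.ofReal (11172 * A / (|dot (y' - y) (tv t)| + B) * B ^ 2) := by
  have hA : 0 < A := hB.trans_le hAB
  obtain ⟨z, hz, hz'⟩ := hne
  obtain ⟨g1, -, -⟩ := geo t t' x0 x0' y y' z _ _ hy hz hy' hz'
  set d := |dot (y' - y) (tv t)| with hd
  have hd0 : 0 ≤ d := abs_nonneg _
  by_cases h : d < 56 * B
  · refine (measure_mono inter_subset_left).trans ?_
    rw [bx_vol t x0 _ _ (by positivity) (by positivity)]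
    apply ENNReal.ofReal_le_ofReal
    rw [div_mul_eq_mul_div, le_div_iff₀ (by positivity)]
    have : 196 * A * B * (d + B) ≤ 196 * A * B * (57 * B) := by
      apply mul_le_mul_of_nonneg_left _ (by positivity)
      linarith
    nlinarith
  · push Not at h
    have hα : 0 < |dot (nv t) (tv t')| := by
      by_contra hc
      have : |dot (nv t) (tv t')| = 0 := le_antisymm (not_lt.mp hc) (abs_nonneg _)
      rw [this] at g1
      linarith
    refine (inter_le t t' x0 x0' _ _ (by positivity) (abs_pos.mp hα)).trans ?_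
    apply ENNReal.ofReal_le_ofReal
    have h1 : d / 28 ≤ A * |dot (nv t) (tv t')| := by linarith
    rw [div_mul_eq_mul_div, div_le_div_iff₀ hα (by positivity)]
    have h2 : d + B ≤ 57 / 56 * d := by linarith
    have h3 : 196 * B ^ 2 * (d + B) ≤ 196 * B ^ 2 * (57 / 56 * d) :=
      mul_le_mul_of_nonneg_left h2 (by positivity)
    have h4 : 11172 * B ^ 2 * (d / 28) ≤ 11172 * B ^ 2 * (A * |dot (nv t) (tv t')|) :=
      mul_le_mul_of_nonneg_left h1 (by positivity)
    nlinarith [mul_nonneg (sq_nonneg B) hd0]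

/-- one dimensional integral -/
lemma oned (M B K : ℝ) (hB : 0 < B) (hM : 0 < M) (hK : 0 ≤ K) :
    ∫⁻ v in Icc (-M) M, ENNReal.ofReal (K / (|v| + B)) ≤
      ENNReal.ofReal (2 * K * Real.log ((M + B) / B)) := by
  have hc : Continuous fun v : ℝ => K / (|v| + B) := by
    refine continuous_const.div (by fun_prop) ?_
    intro v
    have := abs_nonneg v
    linarith
  have hi : ∀ a b : ℝ, IntervalIntegrable (fun v : ℝ => K / (|v| + B)) volume a b :=
    fun a b => hc.intervalIntegrable a b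
  rw [← ofReal_integral_eq_lintegral_ofReal]
  · apply ENNReal.ofReal_le_ofReal
    rw [integral_Icc_eq_integral_Ioc, ← intervalIntegral.integral_of_le (by linarith),
      ← intervalIntegral.integral_add_adjacent_intervals (hi (-M) 0) (hi 0 M)]
    have h1 : ∫ v in (0 : ℝ)..M, K / (|v| + B) = K * Real.log ((M + B) / B) := by
      have h2 : ∫ v in (0 : ℝ)..M, K / (|v| + B) = ∫ v in (0 : ℝ)..M, K * (1 / (v + B)) := by
        apply intervalIntegral.integral_congr
        intro v hv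
        rw [uIcc_of_le hM.le] at hv
        simp only
        rw [abs_of_nonneg hv.1]
        ring
      rw [h2, intervalIntegral.integral_const_mul,
        intervalIntegral.integral_comp_add_right (fun x => 1 / x) B, zero_add,
        integral_one_div_of_pos hB (by linarith)]
    have h3 : ∫ v in (-M)..(0 : ℝ), K / (|v| + B) = ∫ v in (0 : ℝ)..M, K / (|v| + B) := by
      have := intervalIntegral.integral_comp_neg (a := 0) (b := M) (fun v : ℝ => K / (|v| + B))
      simp only [abs_neg, neg_zero] at this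
      rw [this]
    rw [h3, h1]
    apply le_of_eq
    ring
  · exact (hc.integrableOn_Icc (a := -M) (b := M)).integrable
  · exact Filter.Eventually.of_forall fun v => by positivity

/-- Cauchy-Schwarz -/
lemma cs {α : Type*} [MeasurableSpace α] (μ : Measure α) (f g : α → ℝ≥0∞)
    (hf : AEMeasurable f μ) (hg : AEMeasurable g μ) :
    (∫⁻ a, f a * g a ∂μ) ^ 2 ≤ (∫⁻ a, f a ^ 2 ∂μ) * ∫⁻ a, g a ^ 2 ∂μ := by
  have h := ENNReal.lintegral_mul_le_Lp_mul_Lq μ Real.HolderConjugate.two_two hf hg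
  have h2 : ∀ x : ℝ≥0∞, (x ^ (1 / (2 : ℝ))) ^ 2 = x := by
    intro x
    rw [← ENNReal.rpow_natCast, ← ENNReal.rpow_mul]
    norm_num
  calc (∫⁻ a, f a * g a ∂μ) ^ 2
      ≤ ((∫⁻ a, f a ^ (2 : ℝ) ∂μ) ^ (1 / (2 : ℝ)) * (∫⁻ a, g a ^ (2 : ℝ) ∂μ) ^ (1 / (2 : ℝ))) ^ 2 :=
        pow_le_pow_left' h 2
    _ = (∫⁻ a, f a ^ (2 : ℝ) ∂μ) * ∫⁻ a, g a ^ (2 : ℝ) ∂μ := by
        rw [mul_pow, h2, h2]
    _ = (∫⁻ a, f a ^ 2 ∂μ) * ∫⁻ a, g a ^ 2 ∂μ := by
        simp only [ENNReal.rpow_ofNat]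

/-- square of the grid -/
def Sq (B : ℝ) (q : ℤ × ℤ) : Set (ℝ × ℝ) :=
  Ico (B * q.1) (B * (q.1 + 1)) ×ˢ Ico (B * q.2) (B * (q.2 + 1))

lemma Sq_meas (B : ℝ) (q : ℤ × ℤ) : MeasurableSet (Sq B q) :=
  measurableSet_Ico.prod measurableSet_Ico

lemma Sq_vol (B : ℝ) (hB : 0 < B) (q : ℤ × ℤ) : volume (Sq B q) = ENNReal.ofReal (B ^ 2) := by
  rw [Sq, Measure.volume_eq_prod, Measure.prod_prod, Real.volume_Ico, Real.volume_Ico,
    ← ENNReal.ofReal_mul (by nlinarith)]
  congr 1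
  ring

lemma Sq_iff (B : ℝ) (hB : 0 < B) (q : ℤ × ℤ) (y : ℝ × ℝ) :
    y ∈ Sq B q ↔ (⌊y.1 / B⌋ = q.1 ∧ ⌊y.2 / B⌋ = q.2) := by
  simp only [Sq, mem_prod, mem_Ico, Int.floor_eq_iff, le_div_iff₀ hB, div_lt_iff₀ hB, mul_comm B]

/-- overlap of the boxes with a fixed one -/
lemma row (A B : ℝ) (hB : 0 < B) (hAB : B ≤ A) (Q : Finset (ℤ × ℤ)) (y x0 : ℤ × ℤ → ℝ × ℝ)
    (t : ℤ × ℤ → ℝ) (hy : ∀ q ∈ Q, y q ∈ Sq B q)
    (hJ : ∀ q ∈ Q, y q ∈ bx (t q) (x0 q) (7 * A) (7 * B)) (q : ℤ × ℤ) (hq : q ∈ Q) :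
    ∑ q' ∈ Q, volume (bx (t q) (x0 q) (7 * A) (7 * B) ∩ bx (t q') (x0 q') (7 * A) (7 * B)) ≤
      ENNReal.ofReal (23595264 * A ^ 2 * (1 + Real.log (A / B))) := by
  have hA : 0 < A := hB.trans_le hAB
  set G1 : ℝ → ℝ≥0∞ := (Icc (-(44 * A)) (44 * A)).indicator 1 with hG1
  set G2 : ℝ → ℝ≥0∞ := (Icc (-(44 * A)) (44 * A)).indicator
    (fun v => ENNReal.ofReal (3 * 11172 * A / (|v| + B))) with hG2
  have m1 : Measurable G1 := measurable_one.indicator measurableSet_Icc
  have m2 : Measurable G2 := by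
    refine Measurable.indicator ?_ measurableSet_Icc
    fun_prop
  have key : ∀ q' ∈ Q,
      volume (bx (t q) (x0 q) (7 * A) (7 * B) ∩ bx (t q') (x0 q') (7 * A) (7 * B)) ≤
      ∫⁻ z in Sq B q', G1 (ro (t q) (z - y q)).1 * G2 (ro (t q) (z - y q)).2 := by
    intro q' hq'
    by_cases hne : (bx (t q) (x0 q) (7 * A) (7 * B) ∩
      bx (t q') (x0 q') (7 * A) (7 * B)).Nonempty
    · refine (inter _ _ _ _ (y q) (y q') A B hB hAB (hJ q hq) (hJ q' hq') hne).trans ?_
      obtain ⟨z0, hz0, hz0'⟩ := hne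
      obtain ⟨g1, g2, g3⟩ := geo _ _ _ _ _ _ z0 _ _ (hJ q hq) hz0 (hJ q' hq') hz0'
      set d := |dot (y q' - y q) (tv (t q))| with hd
      have hd0 : 0 ≤ d := abs_nonneg _
      rw [ENNReal.ofReal_mul (by positivity), ← Sq_vol B hB q', ← setLIntegral_const]
      apply setLIntegral_mono' (Sq_meas B q')
      intro z hz
      have hyq := hy q' hq'
      have w1 : |(z - y q').1| ≤ B := by
        rw [abs_le, Prod.fst_sub]
        constructor <;> nlinarith [hz.1.1, hz.1.2, hyq.1.1, hyq.1.2]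
      have w2 : |(z - y q').2| ≤ B := by
        rw [abs_le, Prod.snd_sub]
        constructor <;> nlinarith [hz.2.1, hz.2.2, hyq.2.1, hyq.2.2]
      have u1 := coord_le (nn (t q)) w1 w2
      have u2 := coord_le (tt (t q)) w1 w2
      have sub1 : ∀ e : ℝ × ℝ, dot (z - y q) e = dot (z - y q') e + dot (y q' - y q) e := by
        intro e; simp only [dot, Prod.fst_sub, Prod.snd_sub]; ring
      have v1 : |dot (z - y q) (nv (t q))| ≤ 44 * A := by
        rw [sub1]
        refine (abs_add_le _ _).trans ?_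
        linarith
      have v2 : |dot (z - y q) (tv (t q))| ≤ d + 2 * B := by
        rw [sub1]
        refine (abs_add_le _ _).trans ?_
        linarith
      have v3 : |dot (z - y q) (tv (t q))| ≤ 44 * A := by linarith
      have i1 : G1 (ro (t q) (z - y q)).1 = 1 := by
        have hm : (ro (t q) (z - y q)).1 ∈ Icc (-(44 * A)) (44 * A) := abs_le.mp v1
        rw [hG1, indicator_of_mem hm]
        rfl
      have i2 : G2 (ro (t q) (z - y q)).2 =
          ENNReal.ofReal (3 * 11172 * A / (|dot (z - y q) (tv (t q))| + B)) := by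
        have hm : (ro (t q) (z - y q)).2 ∈ Icc (-(44 * A)) (44 * A) := abs_le.mp v3
        rw [hG2, indicator_of_mem hm]
        rfl
      rw [i1, i2, one_mul]
      apply ENNReal.ofReal_le_ofReal
      have hp : 0 ≤ |dot (z - y q) (tv (t q))| := abs_nonneg _
      rw [div_le_div_iff₀ (by positivity) (by positivity)]
      have : 11172 * A * (|dot (z - y q) (tv (t q))| + B) ≤ 11172 * A * (3 * (d + B)) :=
        mul_le_mul_of_nonneg_left (by linarith) (by positivity)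
      linarith
    · rw [not_nonempty_iff_eq_empty.mp hne, measure_empty]
      exact zero_le
  refine (Finset.sum_le_sum key).trans ?_
  rw [← lintegral_biUnion_finset]
  · refine (setLIntegral_le_lintegral _ _).trans ?_
    have h1 := (rp_mp (t q) (y q)).lintegral_comp
      (f := fun w : ℝ × ℝ => G1 w.1 * G2 w.2)
      ((m1.comp measurable_fst).mul (m2.comp measurable_snd))
    rw [h1, Measure.volume_eq_prod, lintegral_prod_mul m1.aemeasurable m2.aemeasurable, hG1, hG2,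
      lintegral_indicator_one measurableSet_Icc, lintegral_indicator measurableSet_Icc,
      Real.volume_Icc]
    refine (mul_le_mul_right (oned (44 * A) B (3 * 11172 * A) hB (by positivity)
      (by positivity)) _).trans ?_
    rw [← ENNReal.ofReal_mul (by linarith)]
    apply ENNReal.ofReal_le_ofReal
    have l1 : Real.log ((44 * A + B) / B) ≤ 4 * (1 + Real.log (A / B)) := by
      have e1 : (44 * A + B) / B ≤ 45 * (A / B) := by
        rw [← mul_div_assoc]
        gcongr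
        linarith
      have e2 : Real.log 45 ≤ 4 := by
        rw [Real.log_le_iff_le_exp (by norm_num)]
        have := Real.exp_one_gt_d9
        have h4 : Real.exp 4 = Real.exp 1 ^ 4 := by
          rw [← Real.exp_nat_mul]; norm_num
        rw [h4]
        calc (45 : ℝ) ≤ 2.7 ^ 4 := by norm_num
          _ ≤ Real.exp 1 ^ 4 := by gcongr; linarith
      have e3 : 0 ≤ Real.log (A / B) := Real.log_nonneg (by rwa [le_div_iff₀ hB, one_mul])
      calc Real.log ((44 * A + B) / B) ≤ Real.log (45 * (A / B)) :=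
            Real.log_le_log (by positivity) e1
        _ = Real.log 45 + Real.log (A / B) := Real.log_mul (by norm_num) (by positivity)
        _ ≤ 4 * (1 + Real.log (A / B)) := by linarith
    have := mul_le_mul_of_nonneg_left l1 (by positivity : 0 ≤ 88 * A * (2 * (3 * 11172 * A)))
    nlinarith
  · intro a ha b hb hab
    rw [Function.onFun, disjoint_left]
    intro z hz hz'
    rw [Sq_iff B hB] at hz hz'
    apply hab
    ext
    · rw [← hz.1, ← hz'.1]
    · rw [← hz.2, ← hz'.2]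
  · exact fun q' _ => Sq_meas B q'

/-- finite version -/
lemma fin (Z : Set (ℝ × ℝ)) (A B β : ℝ) (hZ : MeasurableSet Z) (hB : 0 < B) (hAB : B ≤ A)
    (hβ : 0 < β) (Q : Finset (ℤ × ℤ)) (y x0 : ℤ × ℤ → ℝ × ℝ)
    (t : ℤ × ℤ → ℝ) (hy : ∀ q ∈ Q, y q ∈ Sq B q)
    (hJ : ∀ q ∈ Q, y q ∈ bx (t q) (x0 q) (7 * A) (7 * B))
    (hb : ∀ q ∈ Q, ENNReal.ofReal (A * B * β) ≤
      volume (Z ∩ bx (t q) (x0 q) (7 * A) (7 * B))) :
    (Q.card : ℝ≥0∞) * ENNReal.ofReal (B ^ 2) ≤
      ENNReal.ofReal (23595264 * ((1 + Real.log (A / B)) / β ^ 2)) * volume Z := by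
  have hA : 0 < A := hB.trans_le hAB
  rcases Nat.eq_zero_or_pos Q.card with h0 | h0
  · rw [h0]; simp
  set J : ℤ × ℤ → Set (ℝ × ℝ) := fun q => bx (t q) (x0 q) (7 * A) (7 * B) with hJd
  have hJm : ∀ q, MeasurableSet (J q) := fun q => bx_meas _ _ _ _
  set f : ℝ × ℝ → ℝ≥0∞ := fun z => ∑ q ∈ Q, (J q).indicator 1 z with hf
  have hfm : Measurable f :=
    Finset.measurable_sum _ fun q _ => measurable_one.indicator (hJm q)
  have h1 : (Q.card : ℝ≥0∞) * ENNReal.ofReal (A * B * β) ≤ ∫⁻ z in Z, f z * 1 := by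
    simp only [mul_one, hf]
    rw [lintegral_finsetSum _ fun q _ => measurable_one.indicator (hJm q)]
    rw [← nsmul_eq_mul, ← Finset.sum_const]
    apply Finset.sum_le_sum
    intro q hq
    rw [lintegral_indicator_one (hJm q), Measure.restrict_apply (hJm q), inter_comm]
    exact hb q hq
  have h2 := cs (volume.restrict Z) f (fun _ => 1) hfm.aemeasurable aemeasurable_const
  have h3 : ∫⁻ z, f z ^ 2 = ∑ q ∈ Q, ∑ q' ∈ Q, volume (J q ∩ J q') := by
    have : ∀ z, f z ^ 2 = ∑ q ∈ Q, ∑ q' ∈ Q, (J q ∩ J q').indicator 1 z := by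
      intro z
      rw [sq, hf]
      simp only
      rw [Finset.sum_mul_sum]
      refine Finset.sum_congr rfl fun q _ => Finset.sum_congr rfl fun q' _ => ?_
      rw [inter_indicator_one]
      rfl
    simp_rw [this]
    rw [lintegral_finsetSum _ fun q _ => Finset.measurable_sum _ fun q' _ =>
      measurable_one.indicator ((hJm q).inter (hJm q'))]
    refine Finset.sum_congr rfl fun q _ => ?_
    rw [lintegral_finsetSum _ fun q' _ => measurable_one.indicator ((hJm q).inter (hJm q'))]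
    refine Finset.sum_congr rfl fun q' _ => ?_
    rw [lintegral_indicator_one ((hJm q).inter (hJm q'))]
  have h4 : ∫⁻ z, f z ^ 2 ≤
      (Q.card : ℝ≥0∞) * ENNReal.ofReal (23595264 * A ^ 2 * (1 + Real.log (A / B))) := by
    rw [h3, ← nsmul_eq_mul, ← Finset.sum_const]
    exact Finset.sum_le_sum fun q hq => row A B hB hAB Q y x0 t hy hJ q hq
  have h5 : ((Q.card : ℝ≥0∞) * ENNReal.ofReal (A * B * β)) ^ 2 ≤
      ((Q.card : ℝ≥0∞) * ENNReal.ofReal (23595264 * A ^ 2 * (1 + Real.log (A / B)))) *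
        volume Z := by
    refine (pow_le_pow_left' h1 2).trans (h2.trans ?_)
    gcongr
    · exact (setLIntegral_le_lintegral _ _).trans h4
    · simp
  have hN0 : (Q.card : ℝ≥0∞) ≠ 0 := by exact_mod_cast h0.ne'
  have hNt : (Q.card : ℝ≥0∞) ≠ ⊤ := ENNReal.natCast_ne_top _
  have h6 : (Q.card : ℝ≥0∞) * ENNReal.ofReal (A * B * β) ^ 2 ≤
      ENNReal.ofReal (23595264 * A ^ 2 * (1 + Real.log (A / B))) * volume Z := by
    have h7 : (Q.card : ℝ≥0∞) * ((Q.card : ℝ≥0∞) * ENNReal.ofReal (A * B * β) ^ 2) ≤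
        (Q.card : ℝ≥0∞) * (ENNReal.ofReal (23595264 * A ^ 2 * (1 + Real.log (A / B))) *
          volume Z) := by
      calc _ = ((Q.card : ℝ≥0∞) * ENNReal.ofReal (A * B * β)) ^ 2 := by ring
        _ ≤ _ := h5
        _ = _ := by ring
    calc (Q.card : ℝ≥0∞) * ENNReal.ofReal (A * B * β) ^ 2
        = (Q.card : ℝ≥0∞)⁻¹ * ((Q.card : ℝ≥0∞) * ((Q.card : ℝ≥0∞) *
          ENNReal.ofReal (A * B * β) ^ 2)) := by
          rw [← mul_assoc, ENNReal.inv_mul_cancel hN0 hNt, one_mul]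
      _ ≤ (Q.card : ℝ≥0∞)⁻¹ * ((Q.card : ℝ≥0∞) * (ENNReal.ofReal (23595264 * A ^ 2 *
          (1 + Real.log (A / B))) * volume Z)) := by gcongr
      _ = _ := by rw [← mul_assoc, ENNReal.inv_mul_cancel hN0 hNt, one_mul]
  have e3 : 0 ≤ Real.log (A / B) := Real.log_nonneg (by rwa [le_div_iff₀ hB, one_mul])
  calc (Q.card : ℝ≥0∞) * ENNReal.ofReal (B ^ 2)
      = ENNReal.ofReal (1 / (A ^ 2 * β ^ 2)) *
          ((Q.card : ℝ≥0∞) * ENNReal.ofReal (A * B * β) ^ 2) := by
        rw [← ENNReal.ofReal_pow (by positivity)]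
        have : B ^ 2 = 1 / (A ^ 2 * β ^ 2) * (A * B * β) ^ 2 := by field_simp
        rw [this, ENNReal.ofReal_mul (by positivity)]
        have h9 : (A * B * β) ^ 2 = (A * B * β) ^ 2 := rfl
        ring_nf
    _ ≤ ENNReal.ofReal (1 / (A ^ 2 * β ^ 2)) *
          (ENNReal.ofReal (23595264 * A ^ 2 * (1 + Real.log (A / B))) * volume Z) := by gcongr
    _ = _ := by
        rw [← mul_assoc, ← ENNReal.ofReal_mul (by positivity)]
        congr 2
        field_simp

end KAK_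

open KAK_ in
theorem pKAK : tKAK := by
  refine ⟨23595264, fun Z A B β hZ hB hAB hβ _ => ?_⟩
  set W : Set (ℝ × ℝ) := {y | ∃ t ∈ Icc (-2 : ℝ) 2, ∃ x0, y ∈ bx t x0 (7 * A) (7 * B) ∧
    ENNReal.ofReal (A * B * β) ≤ volume (Z ∩ bx t x0 (7 * A) (7 * B))} with hW
  have hA : 0 < A := hB.trans_le hAB
  have e3 : 0 ≤ Real.log (A / B) := Real.log_nonneg (by rwa [le_div_iff₀ hB, one_mul])
  have hK : ((23595264 : ℝ≥0) : ℝ≥0∞) * ENNReal.ofReal ((1 + Real.log (A / B)) / β ^ 2) =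
      ENNReal.ofReal (23595264 * ((1 + Real.log (A / B)) / β ^ 2)) := by
    rw [ENNReal.ofReal_mul (by norm_num)]
    congr 1
    simp
  rw [hK]
  have hcov : W ⊆ ⋃ q : ℤ × ℤ, W ∩ Sq B q := by
    intro z hz
    exact mem_iUnion.mpr ⟨(⌊z.1 / B⌋, ⌊z.2 / B⌋), hz, (Sq_iff B hB _ _).mpr ⟨rfl, rfl⟩⟩
  refine (measure_mono hcov).trans ((measure_iUnion_le _).trans ?_)
  rw [ENNReal.tsum_eq_iSup_sum]
  refine iSup_le fun s => ?_
  classical
  set Q := s.filter (fun q => (W ∩ Sq B q).Nonempty) with hQ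
  have hex : ∀ q ∈ Q, ∃ y : ℝ × ℝ, ∃ t : ℝ, ∃ x0 : ℝ × ℝ, y ∈ Sq B q ∧
      y ∈ bx t x0 (7 * A) (7 * B) ∧
      ENNReal.ofReal (A * B * β) ≤ volume (Z ∩ bx t x0 (7 * A) (7 * B)) := by
    intro q hq
    obtain ⟨y, ⟨t, -, x0, h1, h2⟩, h3⟩ := (Finset.mem_filter.mp hq).2
    exact ⟨y, t, x0, h3, h1, h2⟩
  choose! y t x0 hy hJ hb using hex
  refine le_trans ?_ (fin Z A B β hZ hB hAB hβ Q y x0 t hy hJ hb)
  calc ∑ q ∈ s, volume (W ∩ Sq B q) = ∑ q ∈ Q, volume (W ∩ Sq B q) := by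
        rw [hQ, Finset.sum_filter]
        refine Finset.sum_congr rfl fun q _ => ?_
        split_ifs with h
        · rfl
        · rw [not_nonempty_iff_eq_empty.mp h, measure_empty]
    _ ≤ ∑ q ∈ Q, ENNReal.ofReal (B ^ 2) := by
        refine Finset.sum_le_sum fun q _ => ?_
        rw [← Sq_vol B hB q]
        exact measure_mono inter_subset_right
    _ = (Q.card : ℝ≥0∞) * ENNReal.ofReal (B ^ 2) := by
        rw [Finset.sum_const, nsmul_eq_mul]

end Pool.Agent.LLog
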