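import Pool.Agent.LLog.Targets
import Pool.Agent.KSP.Base

set_option autoImplicit false

/-! LLG-HAT: Fourier transform of bounded functions supported in a set of finite measure. -/

namespace Pool.Agent.LLog

open MeasureTheory Set FourierTransform
open scoped ENNReal NNReal ComplexConjugate
open Pool.Agent.KSP (ee dot nr Ex Ex1 Bd Bd1 n1 n2 lg V0 ann)
open Pool.Agent.KSP.Base_

namespace HAT_

lemma bf_memLp {g : ℝ × ℝ → ℂ} (hg : Bf g) (p : ℝ≥0∞) : MemLp g p := by
  obtain ⟨hm, ⟨B, hB⟩, hv⟩ := hg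
  refine memLp_of hm hB (S := {x | g x ≠ 0}) (hm (measurableSet_singleton (0 : ℂ)).compl) hv ?_ p
  intro x hx
  by_contra h
  exact hx h

lemma bf_int {g : ℝ × ℝ → ℂ} (hg : Bf g) : Integrable g :=
  memLp_one_iff_integrable.1 (bf_memLp hg 1)

lemma tr_bf_memLp {g : ℝ × ℝ → ℂ} (hg : Bf g) (p : ℝ≥0∞) : MemLp (tr g) p :=
  (bf_memLp hg p).comp_measurePreserving mp

lemma tr_bf_int {g : ℝ × ℝ → ℂ} (hg : Bf g) : Integrable (tr g) :=
  memLp_one_iff_integrable.1 (tr_bf_memLp hg 1)

lemma hat_eq (g : ℝ × ℝ → ℂ) (ξ : ℝ × ℝ) : hat g ξ = Ex g (-ξ) := by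
  rw [hat, Ex]
  congr 1
  funext x
  congr 2
  simp only [dot, Prod.fst_neg, Prod.snd_neg]
  ring

lemma norm_ee (t : ℝ) : ‖ee t‖ = 1 := by
  have h : (2 * Real.pi * Complex.I * (t : ℂ)) = ((2 * Real.pi * t : ℝ) : ℂ) * Complex.I := by
    push_cast
    ring
  rw [ee, h, Complex.norm_exp_ofReal_mul_I]

lemma conj_ee (t : ℝ) : conj (ee t) = ee (-t) := by
  rw [ee, ee, ← Complex.exp_conj]
  congr 1
  simp only [map_mul, Complex.conj_I, Complex.conj_ofReal, map_ofNat, Complex.ofReal_neg]
  ring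

lemma continuous_ee : Continuous ee := by
  unfold ee
  fun_prop

end HAT_

open HAT_

theorem pHAT : tHAT := by
  intro g hg
  have hfun : hat g = fun ξ => Ex g (-ξ) := funext fun ξ => hat_eq g ξ
  have hcont : Continuous (Ex g) := by
    have h1 : Ex g = fun x => (𝓕⁻ (tr g) : P2 → ℂ) (WithLp.toLp 2 x) := by
      funext x
      rw [← Ex_eq]
    rw [h1]
    exact (gen_cont (tr_bf_int hg)).comp (WithLp.prod_continuous_toLp 2 ℝ ℝ)
  refine ⟨?_, ⟨∫ x, ‖g x‖, fun ξ => ?_⟩, ?_, ?_⟩
  · rw [hfun]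
    exact hcont.comp continuous_neg
  · refine (norm_integral_le_integral_norm _).trans_eq ?_
    congr 1
    funext x
    rw [norm_mul, norm_ee, mul_one]
  · have e1 : ∫⁻ ξ, ‖hat g ξ‖ₑ ^ 2 = ∫⁻ ξ, ‖Ex g ξ‖ₑ ^ 2 := by
      rw [hfun]
      exact lintegral_neg_eq_self (fun ξ => ‖Ex g ξ‖ₑ ^ 2)
    rw [e1, ← mp.lintegral_comp_emb memb, ← mp.lintegral_comp_emb memb]
    simp only [Ex_eq]
    exact gen_norm (tr_bf_int hg) (tr_bf_memLp hg 2)
  · intro k hk
    have hki : Integrable k := memLp_one_iff_integrable.1 (bd_memLp hk 1)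
    have hkc : Integrable (fun ξ => conj (k ξ)) := by
      have h := hki.norm
      refine Integrable.mono' h (Complex.continuous_conj.comp_aestronglyMeasurable
        hki.aestronglyMeasurable) (ae_of_all _ fun ξ => ?_)
      exact (RCLike.norm_conj (k ξ)).le
    have hdot : Continuous fun p : (ℝ × ℝ) × (ℝ × ℝ) => ee (-(dot p.1 p.2)) := by
      refine continuous_ee.comp ?_
      unfold dot
      fun_prop
    have hint : Integrable (Function.uncurry fun (x ξ : ℝ × ℝ) =>
        g x * (conj (k ξ) * ee (-(dot x ξ)))) (volume.prod volume) := by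
      have h1 : Integrable (fun p : (ℝ × ℝ) × (ℝ × ℝ) => g p.1 * conj (k p.2))
          (volume.prod volume) := (bf_int hg).mul_prod hkc
      have h2 := h1.mul_bdd (c := 1) hdot.aestronglyMeasurable
        (ae_of_all _ fun p => (norm_ee _).le)
      refine h2.congr (ae_of_all _ fun p => ?_)
      simp only [Function.uncurry]
      ring
    calc ∫ x, g x * conj (Ex k x)
        = ∫ x, ∫ ξ, g x * (conj (k ξ) * ee (-(dot x ξ))) := by
          congr 1
          funext x
          rw [integral_const_mul]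
          congr 1
          rw [Ex, ← integral_conj]
          congr 1
          funext ξ
          rw [map_mul, conj_ee]
      _ = ∫ ξ, ∫ x, g x * (conj (k ξ) * ee (-(dot x ξ))) := integral_integral_swap hint
      _ = ∫ ξ, hat g ξ * conj (k ξ) := by
          congr 1
          funext ξ
          rw [hat, ← integral_mul_const]
          congr 1
          funext x
          ring

end Pool.Agent.LLog
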