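import Pool.Agent.LLog.Targets
import Pool.Agent.KSP.Base
import Pool.Agent.KSP.Conv

set_option autoImplicit false

namespace Pool.Agent.LLog

open MeasureTheory Set
open scoped ENNReal NNReal ComplexConjugate
open Pool.Agent.KSP (ee dot nr Ex Ex1 Bd Bd1 n1 n2 lg V0 ann)

namespace CVK_

open Pool.Agent.KSP.Conv_

theorem conj_ee (t : ℝ) : conj (ee t) = ee (-t) := by
  unfold ee
  rw [← Complex.exp_conj]
  congr 1
  simp only [map_mul, Complex.conj_ofReal, Complex.conj_I, map_ofNat]
  push_cast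
  ring

theorem dot_sub (x y ξ : ℝ × ℝ) : dot (x - y) ξ = dot x ξ - dot y ξ := by
  unfold dot
  simp only [Prod.fst_sub, Prod.snd_sub]
  ring

/-- bounded functions with support of finite measure are integrable -/
theorem bf_int {g : ℝ × ℝ → ℂ} (hg : Bf g) : Integrable g := by
  obtain ⟨hm, ⟨B, hB⟩, hv⟩ := hg
  have hS : MeasurableSet {x | g x ≠ 0} := (hm (measurableSet_singleton 0)).compl
  have h := Pool.Agent.KSP.Base_.memLp_of (μ := volume) hm hB hS hv (by
    intro x hx
    by_contra h
    exact hx h) 1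
  exact memLp_one_iff_integrable.1 h

theorem part1 {μ k : ℝ × ℝ → ℂ} (hμ : Bd μ) (hk : Bd k) (x : ℝ × ℝ) :
    Ex (fun ξ => μ ξ * k ξ) x = ∫ z, Ex μ (x - z) * Ex k z := by
  set k' : ℝ × ℝ → ℂ := fun ξ => conj (k ξ) * ee (-(dot x ξ)) with hk'
  have hk'B : Bd k' := by
    obtain ⟨hm, ⟨B, hB⟩, R, hR⟩ := hk
    refine ⟨?_, ⟨B, fun ξ => ?_⟩, R, fun ξ hξ => hR ξ ?_⟩
    · refine (Complex.continuous_conj.measurable.comp hm).mul ?_
      exact (cont_ee.comp (by unfold dot; fun_prop)).measurable
    · rw [hk']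
      simp only [norm_mul, norm_ee, mul_one, RCLike.norm_conj]
      exact hB ξ
    · intro h
      apply hξ
      simp only [hk', h, map_zero, zero_mul]
  have h1 := (Pool.Agent.KSP.pPo2 μ k' hμ hk'B).2
  have h2 : ∫ ξ, μ ξ * conj (k' ξ) = Ex (fun ξ => μ ξ * k ξ) x := by
    unfold Ex
    apply integral_congr_ae
    refine Filter.Eventually.of_forall fun ξ => ?_
    simp only [hk', map_mul, Complex.conj_conj, conj_ee, neg_neg]
    ring
  have h3 : ∀ y, conj (Ex k' y) = Ex k (x - y) := by
    intro y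
    unfold Ex
    rw [← integral_conj]
    apply integral_congr_ae
    refine Filter.Eventually.of_forall fun ξ => ?_
    simp only [hk', map_mul, Complex.conj_conj, conj_ee, neg_neg]
    rw [dot_sub, sub_eq_add_neg, ee_add]
    ring
  rw [← h2, ← h1]
  rw [← integral_sub_left_eq_self (fun z => Ex μ (x - z) * Ex k z) volume x]
  apply integral_congr_ae
  refine Filter.Eventually.of_forall fun y => ?_
  simp only [h3, sub_sub_cancel]

theorem part2 {μ g : ℝ × ℝ → ℂ} (hμ : Bd μ) (hg : Bf g) (x : ℝ × ℝ) :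
    Ex (fun ξ => μ ξ * hat g ξ) x = ∫ z, Ex μ (x - z) * g z := by
  have hμi := Bd_int hμ
  have hgi := bf_int hg
  have hint : Integrable (fun p : (ℝ × ℝ) × (ℝ × ℝ) => μ p.1 * g p.2)
      ((volume : Measure (ℝ × ℝ)).prod volume) := hμi.mul_prod hgi
  have hint2 : Integrable (fun p : (ℝ × ℝ) × (ℝ × ℝ) =>
      μ p.1 * g p.2 * ee (dot (x - p.2) p.1)) ((volume : Measure (ℝ × ℝ)).prod volume) := by
    refine hint.mul_bdd (c := 1) ?_ ?_
    · refine (cont_ee.comp ?_).aestronglyMeasurable
      unfold dot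
      fun_prop
    · exact Filter.Eventually.of_forall fun p => (norm_ee _).le
  have e1 : Ex (fun ξ => μ ξ * hat g ξ) x = ∫ ξ, ∫ z, μ ξ * g z * ee (dot (x - z) ξ) := by
    unfold Ex hat
    apply integral_congr_ae
    refine Filter.Eventually.of_forall fun ξ => ?_
    simp only
    rw [mul_assoc, ← integral_mul_const, ← integral_const_mul]
    apply integral_congr_ae
    refine Filter.Eventually.of_forall fun z => ?_
    simp only
    rw [dot_sub, sub_eq_add_neg, ee_add]
    ring
  rw [e1, integral_integral_swap hint2]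
  apply integral_congr_ae
  refine Filter.Eventually.of_forall fun z => ?_
  simp only
  unfold Ex
  rw [← integral_mul_const]
  apply integral_congr_ae
  refine Filter.Eventually.of_forall fun ξ => ?_
  simp only
  ring

end CVK_

open CVK_ in
theorem pCVK : tCVK := fun _ hμ => ⟨fun _ hk x => part1 hμ hk x, fun _ hg x => part2 hμ hg x⟩

end Pool.Agent.LLog
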