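import Pool.Agent.LLog.Targets

set_option autoImplicit false

namespace Pool.Agent.LLog

open MeasureTheory Set
open scoped ENNReal NNReal ComplexConjugate
open Pool.Agent.KSP (ee dot nr Ex Ex1 Bd Bd1 n1 n2 lg V0 ann)

namespace YNG_

/-- Cauchy-Schwarz with a weight. -/
theorem cs {α : Type} [MeasurableSpace α] (μ : Measure α) (k g : α → ℝ≥0∞) (hk : Measurable k)
    (hg : Measurable g) : (∫⁻ z, k z * g z ∂μ) ^ 2 ≤ (∫⁻ z, k z ∂μ) * ∫⁻ z, k z * g z ^ 2 ∂μ := by
  have h := ENNReal.lintegral_mul_le_Lp_mul_Lq μ Real.HolderConjugate.two_two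
    (f := fun z => k z ^ (1 / 2 : ℝ)) (g := fun z => k z ^ (1 / 2 : ℝ) * g z)
    (hk.pow_const _).aemeasurable ((hk.pow_const _).mul hg).aemeasurable
  have e1 : ∀ z, (k z ^ (1 / 2 : ℝ)) ^ (2 : ℝ) = k z := by
    intro z
    rw [← ENNReal.rpow_mul]
    norm_num
  have e2 : (∫⁻ z, ((fun z => k z ^ (1 / 2 : ℝ)) * fun z => k z ^ (1 / 2 : ℝ) * g z) z ∂μ) =
      ∫⁻ z, k z * g z ∂μ := by
    apply lintegral_congr
    intro z
    simp only [Pi.mul_apply]
    rw [← mul_assoc, ← ENNReal.rpow_add_of_nonneg _ _ (by norm_num) (by norm_num)]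
    norm_num
  have e3 : (∫⁻ z, (k z ^ (1 / 2 : ℝ)) ^ (2 : ℝ) ∂μ) = ∫⁻ z, k z ∂μ :=
    lintegral_congr fun z => e1 z
  have e4 : (∫⁻ z, (k z ^ (1 / 2 : ℝ) * g z) ^ (2 : ℝ) ∂μ) = ∫⁻ z, k z * g z ^ 2 ∂μ := by
    apply lintegral_congr
    intro z
    rw [ENNReal.mul_rpow_of_nonneg _ _ (by norm_num), e1, ENNReal.rpow_two]
  rw [e2, e3, e4] at h
  calc (∫⁻ z, k z * g z ∂μ) ^ 2
      ≤ ((∫⁻ z, k z ∂μ) ^ (1 / 2 : ℝ) * (∫⁻ z, k z * g z ^ 2 ∂μ) ^ (1 / 2 : ℝ)) ^ 2 := by
        gcongr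
    _ = _ := by
        rw [mul_pow, ← ENNReal.rpow_two, ← ENNReal.rpow_two, ← ENNReal.rpow_mul,
          ← ENNReal.rpow_mul]
        norm_num

end YNG_

open YNG_ in
theorem pYNG : tYNG := by
  intro K g A B R hK hg hA hB hR hABR
  have hKs : ∀ x : ℝ × ℝ, Measurable fun z => K (x - z) := fun x =>
    hK.comp (measurable_const.sub measurable_id)
  have h1 : ∀ x ∈ A, ∫⁻ z in B, K (x - z) ≤ ∫⁻ z in R, K z := by
    intro x hx
    rw [← lintegral_indicator hB, ← lintegral_indicator hR,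
      ← lintegral_sub_left_eq_self (fun z => R.indicator K z) x]
    apply lintegral_mono
    intro z
    by_cases hz : z ∈ B
    · simp only [indicator_of_mem hz, indicator_of_mem (hABR x hx z hz), le_refl]
    · simp only [indicator_of_notMem hz, zero_le]
  have h2 : ∀ z ∈ B, ∫⁻ x in A, K (x - z) ≤ ∫⁻ z in R, K z := by
    intro z hz
    rw [← lintegral_indicator hA, ← lintegral_indicator hR,
      ← lintegral_sub_right_eq_self (fun x => R.indicator K x) z]
    apply lintegral_mono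
    intro x
    by_cases hx : x ∈ A
    · simp only [indicator_of_mem hx, indicator_of_mem (hABR x hx z hz), le_refl]
    · simp only [indicator_of_notMem hx, zero_le]
  have hm : Measurable (Function.uncurry fun x z : ℝ × ℝ => K (x - z) * g z ^ 2) :=
    (hK.comp (measurable_fst.sub measurable_snd)).mul ((hg.comp measurable_snd).pow_const 2)
  calc ∫⁻ x in A, (∫⁻ z in B, K (x - z) * g z) ^ 2
      ≤ ∫⁻ x in A, (∫⁻ z in R, K z) * ∫⁻ z in B, K (x - z) * g z ^ 2 := by
        apply setLIntegral_mono' hA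
        intro x hx
        refine (cs (volume.restrict B) (fun z => K (x - z)) g (hKs x) hg).trans ?_
        exact mul_le_mul' (h1 x hx) le_rfl
    _ = (∫⁻ z in R, K z) * ∫⁻ x in A, ∫⁻ z in B, K (x - z) * g z ^ 2 := by
        apply lintegral_const_mul
        exact hm.lintegral_prod_right'
    _ = (∫⁻ z in R, K z) * ∫⁻ z in B, ∫⁻ x in A, K (x - z) * g z ^ 2 := by
        congr 1
        exact lintegral_lintegral_swap hm.aemeasurable
    _ = (∫⁻ z in R, K z) * ∫⁻ z in B, (∫⁻ x in A, K (x - z)) * g z ^ 2 := by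
        congr 1
        apply lintegral_congr
        intro z
        rw [lintegral_mul_const]
        exact hK.comp (measurable_id.sub measurable_const)
    _ ≤ (∫⁻ z in R, K z) * ∫⁻ z in B, (∫⁻ z in R, K z) * g z ^ 2 := by
        refine mul_le_mul' le_rfl (setLIntegral_mono' hB fun z hz => ?_)
        exact mul_le_mul' (h2 z hz) le_rfl
    _ = (∫⁻ z in R, K z) ^ 2 * ∫⁻ x in B, g x ^ 2 := by
        rw [lintegral_const_mul _ (hg.pow_const 2), sq, mul_assoc]

end Pool.Agent.LLog
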