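import Pool.Agent.LLog.EndEtm
import Pool.Agent.KSP.DS

set_option autoImplicit false

/-! W6: weak type bound for the maximal operator over separated radii. -/

namespace Pool.Agent.LLog

open MeasureTheory FourierTransform Set Filter Topology
open scoped ENNReal NNReal
open Pool.Agent.MBS (E ex T S Sstar et ps mul pm Tstar Pstar MF)
open Pool.Agent.KSP (lg muS IE BdE tPlE)

namespace EDS_

/-- the choice of `m` -/
lemma choose_m {δ : ℝ} (hδ : 0 < δ) (hδ2 : δ ≤ 1 / 2) : ∃ m : ℕ, 1 ≤ m ∧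
    (1 / 2 : ℝ) ^ (m + 1) ≤ δ ∧
    ((lg m : ℕ) : ℝ) ≤ 4 * Real.log (3 + Real.log δ⁻¹) := by
  have h2 : (2 : ℝ) ≤ δ⁻¹ := by
    rw [le_inv_comm₀ two_pos hδ]
    linarith
  obtain ⟨n, hn1, hn2⟩ := exists_nat_pow_near (x := δ⁻¹) (y := 2) (by linarith) one_lt_two
  have hl2 : 0.6931471803 < Real.log 2 := Real.log_two_gt_d9
  set ℓ : ℝ := Real.log δ⁻¹ with hℓ
  have hℓ2 : Real.log 2 ≤ ℓ := Real.log_le_log two_pos h2
  have hm : ((n + 1 : ℕ) : ℝ) ≤ 3 * ℓ := by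
    have h3 : (n : ℝ) * Real.log 2 ≤ ℓ := by
      rw [← Real.log_pow, hℓ]
      exact Real.log_le_log (by positivity) hn1
    push_cast
    nlinarith
  have hlog3 : 1 ≤ Real.log (3 + ℓ) := by
    rw [Real.le_log_iff_exp_le (by linarith)]
    have := Real.exp_one_lt_d9
    linarith
  have hlg : ((lg (n + 1) : ℕ) : ℝ) ≤ 4 * Real.log (3 + ℓ) := by
    unfold KSP.lg
    have h4 : (2 : ℝ) ^ (Nat.log 2 (n + 1)) ≤ ((n + 1 : ℕ) : ℝ) := by
      exact_mod_cast Nat.pow_log_le_self 2 (by omega)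
    have h5 : (Nat.log 2 (n + 1) : ℝ) * Real.log 2 ≤ Real.log (3 * ℓ) := by
      rw [← Real.log_pow]
      exact Real.log_le_log (by positivity) (h4.trans hm)
    have h6 : Real.log (3 * ℓ) ≤ 2 * Real.log (3 + ℓ) := by
      have h7 : Real.log (3 * ℓ) ≤ Real.log ((3 + ℓ) ^ 2) := by
        have hℓ0 : 0 < ℓ := by linarith
        apply Real.log_le_log (by positivity)
        nlinarith
      rwa [Real.log_pow, Nat.cast_ofNat] at h7
    push_cast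
    nlinarith
  refine ⟨n + 1, by omega, ?_, hlg⟩
  have h8 : (2 : ℝ) ^ (n + 1 + 1) * δ ≥ 1 := by
    have h9 : δ⁻¹ * δ = 1 := inv_mul_cancel₀ hδ.ne'
    have h10 : δ⁻¹ ≤ 2 ^ (n + 1 + 1) := hn2.le.trans (by gcongr <;> norm_num)
    nlinarith
  rw [one_div, inv_pow, inv_le_iff_one_le_mul₀ (by positivity)]
  linarith

end EDS_

open Pool.Agent.KSP.Oct_ Pool.Agent.KSP.DS_ EEtm_ in
theorem pDSw (α : ℕ) (hSS : tSSw α) (hP : tPlE) : tDSw α := by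
  obtain ⟨K, hK⟩ := hSS
  obtain ⟨C1, hC1⟩ := MBS.pPdom 2
  obtain ⟨C2, hC2⟩ := MBS.pMF2 2
  refine ⟨16 * (1 + C1 ^ 2 * C2 + K) * 4 ^ α, fun δ A f hδ hδ2 hA hsep hfm hf h2 => ?_⟩
  obtain ⟨m, hm, hmδ, hml⟩ := EDS_.choose_m hδ hδ2
  have hH : Continuous (𝓕 f) := MBS.J8.fourier_cont hf
  have hcount : Countable A := (countable hδ hA hsep).to_subtype
  set X : ℝ≥0∞ := ((lg m : ℕ) : ℝ≥0∞) ^ α with hX
  -- the disjoint pieces
  have hBm : ∀ R : A, Measurable fun x => ‖IE (cut (bm m R) (𝓕 f)) x‖ₑ ^ 2 := fun R =>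
    (hP _ (bm_BdE m (hA R R.2) hH)).1.measurable.enorm.pow_const 2
  have hBs : ∫⁻ x, ∑' R : A, ‖IE (cut (bm m R) (𝓕 f)) x‖ₑ ^ 2 ≤ ∫⁻ x, ‖f x‖ₑ ^ 2 := by
    rw [lintegral_tsum fun R => (hBm R).aemeasurable]
    have h3 : ∀ R : A, ∫⁻ x, ‖IE (cut (bm m R) (𝓕 f)) x‖ₑ ^ 2 =
        ∫⁻ ξ, ‖cut (bm m R) (𝓕 f) ξ‖ₑ ^ 2 := fun R => (hP _ (bm_BdE m (hA R R.2) hH)).2
    simp only [h3]
    rw [← lintegral_tsum fun R : A => ((bm_BdE m (hA R R.2) hH).1.enorm.pow_const 2).aemeasurable,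
      ← MBS.J8.plancherel_sq hf h2]
    refine lintegral_mono fun ξ => ?_
    by_cases hex : ∃ R : A, bm m R ξ ≠ 0
    · obtain ⟨R, hR⟩ := hex
      rw [tsum_eq_single R]
      · unfold cut
        gcongr
        rw [enorm_mul]
        calc _ ≤ 1 * ‖𝓕 f ξ‖ₑ := by
              gcongr
              rw [← ofReal_norm, Complex.norm_real, Real.norm_eq_abs,
                abs_of_nonneg (bm_bd m (hA R R.2) ξ).1]
              exact ENNReal.ofReal_le_one.2 (bm_bd m (hA R R.2) ξ).2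
          _ = _ := one_mul _
      · intro R' hne
        have h4 : bm m R' ξ = 0 := by
          by_contra h5
          rcases lt_or_gt_of_ne (fun h => hne (Subtype.ext h) : (R' : ℝ) ≠ R) with h | h
          · exact KSP.DS_.disj hmδ (hA _ R'.2) (hA _ R.2) (hsep _ R'.2 _ R.2 h) h5 hR
          · exact KSP.DS_.disj hmδ (hA _ R.2) (hA _ R'.2) (hsep _ R.2 _ R'.2 h) hR h5
        unfold cut
        rw [h4]
        simp
    · push Not at hex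
      have h5 : ∀ R : A, ‖cut (bm m R) (𝓕 f) ξ‖ₑ ^ 2 = 0 := by
        intro R
        unfold cut
        rw [hex R]
        simp
      simp only [h5, tsum_zero]
      exact bot_le
  have wB : WK volume (fun x => (∑' R : A, ‖IE (cut (bm m R) (𝓕 f)) x‖ₑ ^ 2) ^ (1 / 2 : ℝ))
      (∫⁻ x, ‖f x‖ₑ ^ 2) := by
    refine WK.of_sq ((Measurable.tsum hBm).pow_const _).aemeasurable ?_
    simp only [rt_sq]
    exact hBs
  -- the smooth part
  have hMF : ∫⁻ x, (C1 * MF (fun y => ‖f y‖ₑ) x) ^ 2 ≤ C1 ^ 2 * C2 * ∫⁻ x, ‖f x‖ₑ ^ 2 := by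
    simp only [mul_pow]
    rw [lintegral_const_mul _ ((MBS.J11.measurable_MF _).pow_const 2), mul_assoc]
    gcongr
    exact hC2 _ hfm.enorm
  have hMm : Measurable fun x => C1 * MF (fun y => ‖f y‖ₑ) x :=
    (MBS.J11.measurable_MF _).const_mul _
  have wM : WK volume (fun x => C1 * MF (fun y => ‖f y‖ₑ) x) (C1 ^ 2 * C2 * ∫⁻ x, ‖f x‖ₑ ^ 2) :=
    WK.of_sq hMm.aemeasurable hMF
  have wZ := hK m f hm hf h2
  have hone : (1 : ℝ≥0∞) ≤ X := by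
    have h3 : 1 ≤ (lg m) ^ α := Nat.one_le_pow _ _ (by unfold KSP.lg; omega)
    rw [hX]
    exact_mod_cast h3
  have hXle : X ≤ 4 ^ α * ENNReal.ofReal (Real.log (3 + Real.log δ⁻¹) ^ α) := by
    rw [hX, ← ENNReal.ofReal_natCast, ← ENNReal.ofReal_pow (by positivity)]
    calc ENNReal.ofReal (((lg m : ℕ) : ℝ) ^ α) ≤
        ENNReal.ofReal ((4 * Real.log (3 + Real.log δ⁻¹)) ^ α) :=
          ENNReal.ofReal_le_ofReal (pow_le_pow_left₀ (by positivity) hml α)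
      _ = _ := by
          rw [mul_pow, ENNReal.ofReal_mul (by positivity), ENNReal.ofReal_pow (by norm_num)]
          norm_num
  refine ((wB.add3 wM wZ)).mono (fun x => ?_) ?_
  · refine iSup₂_le fun R hR => ?_
    rw [KSP.DS_.split m f hf (hA R hR) x]
    refine (enorm_add_le _ _).trans ?_
    refine add_le_add ((enorm_add_le _ _).trans (add_le_add ?_ ?_)) ?_
    · refine le_of_sq ?_
      rw [rt_sq]
      exact ENNReal.le_tsum (f := fun R : A => ‖IE (cut (bm m R) (𝓕 f)) x‖ₑ ^ 2) ⟨R, hR⟩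
    · refine le_trans ?_ (hC1 f hf x)
      unfold MBS.Pstar
      exact le_iSup₂_of_le R (hA R hR) le_rfl
    · exact le_iSup₂_of_le R (hA R hR) le_rfl
  · have h7 : ∫⁻ x, ‖f x‖ₑ ^ 2 ≤ X * ∫⁻ x, ‖f x‖ₑ ^ 2 := by
      calc _ = 1 * ∫⁻ x, ‖f x‖ₑ ^ 2 := (one_mul _).symm
        _ ≤ _ := by gcongr
    calc 16 * ((∫⁻ x, ‖f x‖ₑ ^ 2) + C1 ^ 2 * C2 * (∫⁻ x, ‖f x‖ₑ ^ 2) +
          K * X * ∫⁻ x, ‖f x‖ₑ ^ 2)
        ≤ 16 * (X * (∫⁻ x, ‖f x‖ₑ ^ 2) + C1 ^ 2 * C2 * (X * ∫⁻ x, ‖f x‖ₑ ^ 2) +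
          K * X * ∫⁻ x, ‖f x‖ₑ ^ 2) := by gcongr
      _ = 16 * (1 + C1 ^ 2 * C2 + K) * X * ∫⁻ x, ‖f x‖ₑ ^ 2 := by ring
      _ ≤ 16 * (1 + C1 ^ 2 * C2 + K) *
          (4 ^ α * ENNReal.ofReal (Real.log (3 + Real.log δ⁻¹) ^ α)) *
            ∫⁻ x, ‖f x‖ₑ ^ 2 := by gcongr
      _ = _ := by
          push_cast
          ring

end Pool.Agent.LLog
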