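import Pool.Agent.LLog.EndEtm
import Pool.Agent.KSP.FA0

set_option autoImplicit false

/-! W7: local weak type maximal inequality with the weight `lw2 α`. -/

namespace Pool.Agent.LLog

open MeasureTheory FourierTransform Set Filter Topology
open scoped ENNReal NNReal
open Pool.Agent.MBS (E ex T S Sstar et ps mul pm Tstar Pstar MF)
open Pool.Agent.KSP (lg muS tPt tAH)

namespace EFA0_

open Pool.Agent.KSP.FA0_

lemma lw2_one (α : ℕ) (ξ : E 2) : 1 ≤ lw2 α ξ := one_le_pow₀ (LL_one ξ)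

lemma lw2_meas (α : ℕ) : Measurable (lw2 α) := by
  unfold lw2
  fun_prop

lemma lw2_weight (α k : ℕ) {ξ : E 2} (hξ : ξ ∈ A k) :
    ((lg (k + 1) : ℕ) : ℝ) ^ α ≤ 6 ^ α * lw2 α ξ := by
  have hl2 : (0.6931 : ℝ) < Real.log 2 := by linarith [Real.log_two_gt_d9]
  have hl2' : Real.log 2 < 0.6932 := by linarith [Real.log_two_lt_d9]
  have hL := L_one ξ
  have hLL := LL_one ξ
  unfold lw2
  set L := Real.log (3 + ‖ξ‖) with hLdef
  set LL := Real.log (3 + L) with hLLdef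
  have h1 : (k : ℝ) * Real.log 2 - Real.log 2 ≤ L := by
    have h2 : Real.log ((2 : ℝ) ^ k / 2) ≤ L := by
      apply Real.log_le_log (by positivity)
      have := hξ.1
      rw [zpow_natCast] at this
      linarith
    rwa [Real.log_div (by positivity) (by norm_num), Real.log_pow] at h2
  have hk0 : (0 : ℝ) ≤ k := Nat.cast_nonneg k
  have h3 : (k : ℝ) + 1 ≤ 4 * L := by nlinarith
  have h4 : ((lg (k + 1) : ℕ) : ℝ) ≤ 6 * LL := by
    unfold KSP.lg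
    push_cast
    have h5 : ((2 : ℝ)) ^ (Nat.log 2 (k + 1)) ≤ (k : ℝ) + 1 := by
      have := Nat.pow_log_le_self 2 (x := k + 1) (by omega)
      exact_mod_cast this
    have h6 : (Nat.log 2 (k + 1) : ℝ) * Real.log 2 ≤ Real.log (4 * L) := by
      rw [← Real.log_pow]
      exact Real.log_le_log (by positivity) (h5.trans h3)
    rw [Real.log_mul (by norm_num) (by linarith)] at h6
    have h7 : Real.log 4 = 2 * Real.log 2 := by
      rw [show (4 : ℝ) = 2 ^ 2 by norm_num, Real.log_pow]; norm_num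
    have h8 : Real.log L ≤ LL := Real.log_le_log (by linarith) (by linarith)
    have h9 : (0 : ℝ) ≤ Nat.log 2 (k + 1) := Nat.cast_nonneg _
    nlinarith
  have h10 : (0 : ℝ) ≤ ((lg (k + 1) : ℕ) : ℝ) := Nat.cast_nonneg _
  calc ((lg (k + 1) : ℕ) : ℝ) ^ α ≤ (6 * LL) ^ α := pow_le_pow_left₀ h10 h4 α
    _ = 6 ^ α * LL ^ α := by rw [mul_pow]

lemma pointwise (hPt : tPt) {f : E 2 → ℂ} (hf : Integrable f) (x : E 2) :
    Sstar f x ≤ a0 f + (Pstar f x + (⨆ k, G f k x) +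
      (∑' k, (∑' i, H f k i x) ^ 2) ^ (1 / 2 : ℝ)) := by
  refine iSup₂_le fun R hR => ?_
  rcases le_total R 1 with hR1 | hR1
  · exact (small f hR1 x).trans le_self_add
  · set k := Nat.log 2 ⌊R⌋₊ with hk
    have hlog : Int.log 2 R = (k : ℤ) := Int.log_of_one_le_right 2 hR1
    have hk1 : (2 : ℝ) ^ (k : ℤ) ≤ R := by
      rw [← hlog]; exact Int.zpow_log_le_self (by norm_num) hR
    have hk2 : R ≤ 2 * (2 : ℝ) ^ (k : ℤ) := by
      have := Int.lt_zpow_succ_log_self (b := 2) (by norm_num) R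
      rw [hlog, zpow_add_one₀ (by norm_num)] at this
      push_cast at this
      linarith
    have h2 := ((hPt (k + 1) f hf).1 R x hR)
    refine le_trans ?_ le_add_self
    refine h2.trans ?_
    gcongr
    · exact le_iSup₂_of_le (f := fun (R : ℝ) (_ : 0 < R) => ‖T (pm R) (𝓕 f) x‖ₑ) R hR le_rfl
    · refine le_iSup_of_le k ?_
      exact le_iSup₂_of_le (f := fun (R : ℝ) (_ : R ∈ Icc ((2 : ℝ) ^ (k : ℤ))
        (2 * 2 ^ (k : ℤ))) => ‖T (muS (k + 1) R) (𝓕 f) x‖ₑ) R ⟨hk1, hk2⟩ le_rfl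
    · refine EEtm_.le_of_sq ?_
      rw [EEtm_.rt_sq]
      refine le_trans ?_ (ENNReal.le_tsum (f := fun k => (∑' i, H f k i x) ^ 2) k)
      gcongr with i
      exact le_iSup₂_of_le (f := fun (R : ℝ) (_ : R ∈ Icc ((2 : ℝ) ^ (k : ℤ))
        (2 * 2 ^ (k : ℤ))) => ‖T (mul (i + (k + 1)) R) (𝓕 f) x‖ₑ) R ⟨hk1, hk2⟩ le_rfl

end EFA0_

open Pool.Agent.KSP.FA0_ EFA0_ in
theorem pFA0w (α : ℕ) (hPt : tPt) (hSm : tSmw α) (hAH : tAH) : tFA0w α := by
  obtain ⟨C1, hG⟩ := hSm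
  obtain ⟨C2, hH⟩ := hAH
  obtain ⟨C3, hP⟩ := MBS.pPdom 2
  obtain ⟨C4, hM⟩ := MBS.pMF2 2
  have hVt : volume (Metric.closedBall (0 : E 2) 1) ≠ ⊤ := measure_closedBall_lt_top.ne
  obtain ⟨V, hV⟩ : ∃ V : ℝ≥0, (V : ℝ≥0∞) = volume (Metric.closedBall (0 : E 2) 1) :=
    ⟨_, ENNReal.coe_toNNReal hVt⟩
  refine ⟨4 * (V ^ 2 + 16 * (C3 ^ 2 * C4 + C1 * 6 ^ α * 3 + 8 * C2 * 3)),
    fun f x0 hfm hfi hf2 => ?_⟩
  have hh : Continuous (𝓕 f) := MBS.J8.fourier_cont hfi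
  set w : E 2 → ℝ≥0∞ := fun ξ => ‖𝓕 f ξ‖ₑ ^ 2 * ENNReal.ofReal (lw2 α ξ) with hwdef
  have hhm : Measurable fun ξ => ‖𝓕 f ξ‖ₑ ^ 2 := hh.measurable.enorm.pow_const 2
  have hw : Measurable w := hhm.mul (lw2_meas α).ennreal_ofReal
  have hle : ∀ ξ, ‖𝓕 f ξ‖ₑ ^ 2 ≤ w ξ := by
    intro ξ
    have h1 : (1 : ℝ≥0∞) ≤ ENNReal.ofReal (lw2 α ξ) := by
      rw [← ENNReal.ofReal_one]
      exact ENNReal.ofReal_le_ofReal (lw2_one α ξ)
    calc ‖𝓕 f ξ‖ₑ ^ 2 = ‖𝓕 f ξ‖ₑ ^ 2 * 1 := (mul_one _).symm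
      _ ≤ ‖𝓕 f ξ‖ₑ ^ 2 * ENNReal.ofReal (lw2 α ξ) := by gcongr
  set N := ∫⁻ ξ, w ξ with hN
  have hN2 : ∫⁻ ξ, ‖𝓕 f ξ‖ₑ ^ 2 ≤ N := lintegral_mono hle
  have hvolD : volume (Metric.closedBall x0 1) = V := by
    rw [hV]
    exact Measure.addHaar_closedBall_center _ _ _
  -- the parts
  have p0 : a0 f ^ 2 * volume (Metric.closedBall x0 1) ≤ V ^ 2 * N := by
    rw [hvolD]
    calc a0 f ^ 2 * V ≤ (volume (Metric.closedBall (0 : E 2) 1) * ∫⁻ ξ, ‖𝓕 f ξ‖ₑ ^ 2) * V := by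
          gcongr
          exact a0_sq hfi
      _ ≤ (V * N) * V := by
          rw [← hV]
          gcongr
      _ = V ^ 2 * N := by ring
  have w0 : WK (volume.restrict (Metric.closedBall x0 1)) (fun _ => a0 f) (V ^ 2 * N) := by
    refine (WK.const (a0 f)).mono (fun _ => le_rfl) ?_
    rw [Measure.restrict_apply_univ]
    exact p0
  have hPm : Measurable (Pstar f) := (MBS.pMeas MBS.pTcont MBS.pMulFam 2 f hfi).2.1
  have p1 : ∫⁻ x in Metric.closedBall x0 1, Pstar f x ^ 2 ≤ C3 ^ 2 * C4 * N := by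
    calc ∫⁻ x in Metric.closedBall x0 1, Pstar f x ^ 2 ≤ ∫⁻ x, Pstar f x ^ 2 :=
          setLIntegral_le_lintegral _ _
      _ ≤ ∫⁻ x, (C3 * MF (fun y => ‖f y‖ₑ) x) ^ 2 := by
          gcongr with x
          exact hP f hfi x
      _ = (C3 : ℝ≥0∞) ^ 2 * ∫⁻ x, MF (fun y => ‖f y‖ₑ) x ^ 2 := by
          rw [← lintegral_const_mul' _ _ (by simp)]
          congr 1
          ext x
          ring
      _ ≤ C3 ^ 2 * (C4 * ∫⁻ x, ‖f x‖ₑ ^ 2) := by
          gcongr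
          exact hM _ hfm.enorm
      _ = C3 ^ 2 * C4 * ∫⁻ ξ, ‖𝓕 f ξ‖ₑ ^ 2 := by
          rw [MBS.J8.plancherel_sq hfi hf2]; ring
      _ ≤ _ := by gcongr
  have w1 : WK (volume.restrict (Metric.closedBall x0 1)) (Pstar f) (C3 ^ 2 * C4 * N) :=
    WK.of_sq hPm.aemeasurable p1
  have w2 : WK (volume.restrict (Metric.closedBall x0 1)) (fun x => ⨆ k, G f k x)
      (C1 * 6 ^ α * 3 * N) := by
    refine (WK.iSup fun k : ℕ => (hG (k + 1) ((2 : ℝ) ^ (k : ℤ)) (𝓕 f) (by omega) (by positivity)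
      hh).restrict (Metric.closedBall x0 1)).mono (fun x => le_rfl) ?_
    calc ∑' k : ℕ, C1 * ((lg (k + 1) : ℕ) : ℝ≥0∞) ^ α *
          ∫⁻ ξ in {ξ : E 2 | (2 : ℝ) ^ (k : ℤ) / 2 ≤ ‖ξ‖ ∧ ‖ξ‖ ≤ 2 * 2 ^ (k : ℤ)}, ‖𝓕 f ξ‖ₑ ^ 2
        ≤ ∑' k : ℕ, C1 * 6 ^ α * ∫⁻ ξ in A k, w ξ := by
          refine ENNReal.tsum_le_tsum fun k => ?_
          calc C1 * ((lg (k + 1) : ℕ) : ℝ≥0∞) ^ α * ∫⁻ ξ in A k, ‖𝓕 f ξ‖ₑ ^ 2
              = C1 * ∫⁻ ξ in A k, (((lg (k + 1) : ℕ) : ℝ≥0∞) ^ α) * ‖𝓕 f ξ‖ₑ ^ 2 := by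
                rw [lintegral_const_mul _ hhm]
                ring
            _ ≤ C1 * ∫⁻ ξ in A k, 6 ^ α * w ξ := by
                refine mul_le_mul_right (setLIntegral_mono' (A_meas k) fun ξ hξ => ?_) _
                have h1 := lw2_weight α k hξ
                have h2 : ((lg (k + 1) : ℕ) : ℝ≥0∞) ^ α ≤ 6 ^ α * ENNReal.ofReal (lw2 α ξ) := by
                  have h3 : ((lg (k + 1) : ℕ) : ℝ≥0∞) ^ α =
                      ENNReal.ofReal (((lg (k + 1) : ℕ) : ℝ) ^ α) := by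
                    rw [ENNReal.ofReal_pow (by positivity), ENNReal.ofReal_natCast]
                  have h4 : (6 ^ α : ℝ≥0∞) = ENNReal.ofReal (6 ^ α) := by
                    rw [ENNReal.ofReal_pow (by norm_num)]
                    norm_num
                  rw [h3, h4, ← ENNReal.ofReal_mul (by positivity)]
                  exact ENNReal.ofReal_le_ofReal h1
                calc _ ≤ 6 ^ α * ENNReal.ofReal (lw2 α ξ) * ‖𝓕 f ξ‖ₑ ^ 2 := by gcongr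
                  _ = 6 ^ α * w ξ := by rw [hwdef]; ring
            _ = _ := by
                rw [lintegral_const_mul _ hw]
                ring
      _ = C1 * 6 ^ α * ∑' k : ℕ, ∫⁻ ξ in A k, w ξ := by rw [ENNReal.tsum_mul_left]
      _ ≤ C1 * 6 ^ α * (3 * N) := by
          gcongr
          exact sum_A hw
      _ = _ := by ring
  have p3 : ∑' k, ∫⁻ x in Metric.closedBall x0 1, (∑' i, H f k i x) ^ 2 ≤ 8 * C2 * 3 * N := by
    calc ∑' k, ∫⁻ x in Metric.closedBall x0 1, (∑' i, H f k i x) ^ 2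
        ≤ ∑' k : ℕ, 8 * C2 * ∫⁻ ξ in A k, w ξ := by
          refine ENNReal.tsum_le_tsum fun k => (H_int hH hfi x0 k).trans ?_
          gcongr
          exact hle _
      _ = 8 * C2 * ∑' k : ℕ, ∫⁻ ξ in A k, w ξ := by rw [ENNReal.tsum_mul_left]
      _ ≤ 8 * C2 * (3 * N) := by
          gcongr
          exact sum_A hw
      _ = _ := by ring
  have mH : ∀ k, Measurable fun x => (∑' i, H f k i x) ^ 2 := fun k =>
    (Measurable.tsum fun i => H_m hfi k i).pow_const 2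
  have w3 : WK (volume.restrict (Metric.closedBall x0 1))
      (fun x => (∑' k, (∑' i, H f k i x) ^ 2) ^ (1 / 2 : ℝ)) (8 * C2 * 3 * N) := by
    refine WK.of_sq ((Measurable.tsum mH).pow_const _).aemeasurable ?_
    simp only [EEtm_.rt_sq]
    rw [lintegral_tsum (fun k => (mH k).aemeasurable)]
    exact p3
  refine (w0.add (w1.add3 w2 w3)).mono (fun x => pointwise hPt hfi x) (le_of_eq ?_)
  push_cast
  ring

end Pool.Agent.LLog
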