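import Pool.Agent.LLog.EndEtm
import Pool.Agent.KSP.FA1

set_option autoImplicit false

/-! W8: the local weak type maximal inequality for all `g ∈ L²(lw2 α)` on the Fourier side. -/

namespace Pool.Agent.LLog

open MeasureTheory FourierTransform Set Filter Topology
open scoped ENNReal NNReal SchwartzMap ContDiff
open Pool.Agent.MBS (E ex T S Sstar et ps mul pm Tstar Pstar MF)
open Pool.Agent.KSP (lg BI)

namespace EFA1_

open Pool.Agent.KSP.FA1_ (log_ge ex_norm)

lemma lw2_cont (α : ℕ) : Continuous (lw2 α) := by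
  unfold lw2
  have h1 : Continuous (fun ξ : E 2 => Real.log (3 + ‖ξ‖)) := by
    refine Continuous.log (by fun_prop) (fun x => ?_)
    positivity
  refine Continuous.pow ?_ α
  refine Continuous.log (continuous_const.add h1) (fun x => ?_)
  have := log_ge ‖x‖ (norm_nonneg _)
  linarith

lemma one_le_lw2 (α : ℕ) (ξ : E 2) : 1 ≤ lw2 α ξ := by
  unfold lw2
  have h1 := log_ge ‖ξ‖ (norm_nonneg _)
  exact one_le_pow₀ (log_ge (Real.log (3 + ‖ξ‖)) (by linarith))

/-- the measure with density `lw2 α` -/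
noncomputable def mu (α : ℕ) : Measure (E 2) :=
  volume.withDensity (fun ξ => ENNReal.ofReal (lw2 α ξ))

lemma mu_lf (α : ℕ) : IsLocallyFiniteMeasure (mu α) :=
  IsLocallyFiniteMeasure.withDensity_ofReal (lw2_cont α)

lemma vol_le_mu (α : ℕ) : (volume : Measure (E 2)) ≤ mu α := by
  rw [Measure.le_iff]
  intro s hs
  rw [mu, withDensity_apply _ hs]
  calc volume s = ∫⁻ _ in s, 1 := by simp
    _ ≤ _ := by
      refine setLIntegral_mono' hs fun ξ _ => ?_
      rw [← ENNReal.ofReal_one]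
      exact ENNReal.ofReal_le_ofReal (one_le_lw2 α ξ)

lemma lp_sq (α : ℕ) (g : E 2 → ℂ) (hg : Measurable g) :
    eLpNorm g 2 (mu α) ^ 2 = ∫⁻ ξ, ‖g ξ‖ₑ ^ 2 * ENNReal.ofReal (lw2 α ξ) := by
  rw [eLpNorm_eq_lintegral_rpow_enorm_toReal (by norm_num) (by norm_num)]
  simp only [ENNReal.toReal_ofNat, ENNReal.rpow_ofNat, one_div]
  rw [← ENNReal.rpow_natCast, ← ENNReal.rpow_mul]
  norm_num
  rw [mu, lintegral_withDensity_eq_lintegral_mul _ (by
    exact (ENNReal.measurable_ofReal.comp (lw2_cont α).measurable)) (hg.enorm.pow_const 2)]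
  refine lintegral_congr fun ξ => ?_
  simp only [Pi.mul_apply]
  rw [mul_comm]

lemma int_ex {α : ℕ} {g : E 2 → ℂ} (hg : MemLp g 2 (mu α)) (R : ℝ) (x : E 2) :
    Integrable (fun ξ => g ξ * ex x ξ) (volume.restrict (Metric.closedBall (0 : E 2) R)) := by
  have h1 : MemLp g 2 (volume.restrict (Metric.closedBall (0 : E 2) R)) :=
    (hg.mono_measure (vol_le_mu α)).restrict _
  have : IsFiniteMeasure (volume.restrict (Metric.closedBall (0 : E 2) R)) :=
    ⟨by rw [Measure.restrict_apply_univ]; exact (isCompact_closedBall _ _).measure_lt_top⟩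
  have h2 : Integrable g (volume.restrict (Metric.closedBall (0 : E 2) R)) :=
    h1.integrable (by norm_num)
  refine h2.mul_bdd (c := 1) ?_ ?_
  · exact (Pool.Agent.MBS.J13.ex_cont_right x).aestronglyMeasurable
  · exact Filter.Eventually.of_forall fun ξ => (ex_norm x ξ).le

lemma BI_sub {α : ℕ} {g g' : E 2 → ℂ} (hg : MemLp g 2 (mu α)) (hg' : MemLp g' 2 (mu α)) (R : ℝ)
    (x : E 2) : ‖BI g R x - BI g' R x‖ₑ ≤
      eLpNorm (g - g') 2 (mu α) * volume (Metric.closedBall (0 : E 2) R) ^ (1 / 2 : ℝ) := by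
  unfold KSP.BI
  rw [← integral_sub (int_ex hg R x) (int_ex hg' R x)]
  have hm : AEStronglyMeasurable (g - g') (volume.restrict (Metric.closedBall (0 : E 2) R)) :=
    (((hg.sub hg').mono_measure (vol_le_mu α)).restrict _).1
  calc ‖∫ ξ in Metric.closedBall (0 : E 2) R, (g ξ * ex x ξ - g' ξ * ex x ξ)‖ₑ
      ≤ ∫⁻ ξ in Metric.closedBall (0 : E 2) R, ‖g ξ * ex x ξ - g' ξ * ex x ξ‖ₑ :=
        enorm_integral_le_lintegral_enorm _
    _ = ∫⁻ ξ in Metric.closedBall (0 : E 2) R, ‖(g - g') ξ‖ₑ := by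
        refine lintegral_congr fun ξ => ?_
        rw [← sub_mul, enorm_mul]
        have : ‖ex x ξ‖ₑ = 1 := by rw [← ofReal_norm, ex_norm, ENNReal.ofReal_one]
        rw [this, mul_one, Pi.sub_apply]
    _ = eLpNorm (g - g') 1 (volume.restrict (Metric.closedBall (0 : E 2) R)) :=
        eLpNorm_one_eq_lintegral_enorm.symm
    _ ≤ eLpNorm (g - g') 2 (volume.restrict (Metric.closedBall (0 : E 2) R)) *
        (volume.restrict (Metric.closedBall (0 : E 2) R)) univ ^
          (1 / (1 : ℝ≥0∞).toReal - 1 / (2 : ℝ≥0∞).toReal) :=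
        eLpNorm_le_eLpNorm_mul_rpow_measure_univ (by norm_num) hm
    _ ≤ _ := by
        rw [Measure.restrict_apply_univ]
        refine mul_le_mul' ?_ (le_of_eq ?_)
        · exact eLpNorm_mono_measure _ (Measure.restrict_le_self.trans (vol_le_mu α))
        · norm_num

end EFA1_

open EFA1_ in
theorem pFA1w (α : ℕ) (h : tFA0w α) : tFA1w α := by
  obtain ⟨C, hC⟩ := h
  refine ⟨C + 1, fun g x0 hg => ?_⟩
  by_cases hfin : ∫⁻ ξ, ‖g ξ‖ₑ ^ 2 * ENNReal.ofReal (lw2 α ξ) = ⊤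
  · intro lam
    rw [hfin, ENNReal.mul_top (by simp)]
    exact le_top
  have := mu_lf α
  have hgM : MemLp g 2 (mu α) := by
    refine ⟨hg.aestronglyMeasurable, ?_⟩
    rw [lt_top_iff_ne_top]
    intro h1
    apply hfin
    rw [← lp_sq α g hg, h1]
    simp
  have hex := fun n : ℕ => hgM.exist_eLpNorm_sub_le (by norm_num) (by norm_num)
    (ε := 1 / ((n : ℝ) + 1)) (by positivity)
  choose gn h1 h2 h3 using hex
  have hgn : ∀ n, MemLp (gn n) 2 (mu α) := fun n =>
    (h2 n).continuous.memLp_of_hasCompactSupport (h1 n)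
  let fn : ℕ → 𝓢(E 2, ℂ) := fun n => 𝓕⁻ ((h1 n).toSchwartzMap (h2 n))
  have hF : ∀ n, 𝓕 (fn n : E 2 → ℂ) = gn n := by
    intro n
    rw [← SchwartzMap.fourier_coe]
    show ((𝓕 (𝓕⁻ ((h1 n).toSchwartzMap (h2 n))) : 𝓢(E 2, ℂ)) : E 2 → ℂ) = gn n
    rw [FourierTransform.fourier_fourierInv_eq]
    rfl
  have hfi : ∀ n, Integrable (fn n : E 2 → ℂ) := fun n => (fn n).integrable
  have hS : ∀ n R x, S (fn n) R x = BI (gn n) R x := by
    intro n R x
    unfold MBS.S KSP.BI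
    rw [hF]
  have hlim : ∀ R x, Tendsto (fun n => BI (gn n) R x) atTop (𝓝 (BI g R x)) := by
    intro R x
    rw [tendsto_iff_edist_tendsto_0]
    have hV : volume (Metric.closedBall (0 : E 2) R) ^ (1 / 2 : ℝ) ≠ ⊤ :=
      ENNReal.rpow_ne_top_of_nonneg (by norm_num) (isCompact_closedBall _ _).measure_lt_top.ne
    have hz : Tendsto (fun n : ℕ => ENNReal.ofReal (1 / ((n : ℝ) + 1)) *
        volume (Metric.closedBall (0 : E 2) R) ^ (1 / 2 : ℝ)) atTop (𝓝 0) := by
      have h4 : Tendsto (fun n : ℕ => ENNReal.ofReal (1 / ((n : ℝ) + 1))) atTop (𝓝 0) := by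
        rw [← ENNReal.ofReal_zero]
        exact ENNReal.tendsto_ofReal tendsto_one_div_add_atTop_nhds_zero_nat
      simpa using ENNReal.Tendsto.mul_const h4 (Or.inr hV)
    refine tendsto_of_tendsto_of_tendsto_of_le_of_le tendsto_const_nhds hz (fun n => bot_le)
      (fun n => ?_)
    show edist (BI (gn n) R x) (BI g R x) ≤ _
    rw [edist_comm, edist_eq_enorm_sub]
    exact (BI_sub hgM (hgn n) R x).trans (mul_le_mul' (h3 n) le_rfl)
  have hpt : ∀ x, (⨆ (R : ℝ) (_ : 0 < R), ‖BI g R x‖ₑ) ≤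
      liminf (fun n => Sstar (fn n : E 2 → ℂ) x) atTop := by
    intro x
    refine iSup₂_le fun R hR => ?_
    have h5 : Tendsto (fun n => ‖BI (gn n) R x‖ₑ) atTop (𝓝 ‖BI g R x‖ₑ) := (hlim R x).enorm
    rw [← h5.liminf_eq]
    refine liminf_le_liminf (Eventually.of_forall fun n => ?_)
    rw [← hS n R x]
    exact le_iSup₂ (f := fun (R : ℝ) (_ : 0 < R) => ‖S (fn n) R x‖ₑ) R hR
  have hint : ∀ n, WK (volume.restrict (Metric.closedBall x0 1)) (Sstar (fn n : E 2 → ℂ))
      (C * (eLpNorm g 2 (mu α) + ENNReal.ofReal (1 / ((n : ℝ) + 1))) ^ 2) := by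
    intro n
    refine (hC (fn n) x0 (fn n).continuous.measurable (hfi n) ((fn n).memLp 2)).mono
      (fun _ => le_rfl) ?_
    rw [hF n, ← lp_sq α (gn n) (h2 n).continuous.measurable]
    gcongr
    have h7 : gn n = g - (g - gn n) := by simp
    calc eLpNorm (gn n) 2 (mu α) = eLpNorm (g - (g - gn n)) 2 (mu α) := by rw [← h7]
      _ ≤ eLpNorm g 2 (mu α) + eLpNorm (g - gn n) 2 (mu α) :=
          eLpNorm_sub_le hgM.1 (hgM.sub (hgn n)).1 (by norm_num)
      _ ≤ _ := by gcongr; exact h3 n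
  have hlim2 : Tendsto (fun n : ℕ => (C : ℝ≥0∞) *
      (eLpNorm g 2 (mu α) + ENNReal.ofReal (1 / ((n : ℝ) + 1))) ^ 2) atTop
      (𝓝 (C * (eLpNorm g 2 (mu α)) ^ 2)) := by
    have h4 : Tendsto (fun n : ℕ => ENNReal.ofReal (1 / ((n : ℝ) + 1))) atTop (𝓝 0) := by
      rw [← ENNReal.ofReal_zero]
      exact ENNReal.tendsto_ofReal tendsto_one_div_add_atTop_nhds_zero_nat
    have h5 : Tendsto (fun n : ℕ => eLpNorm g 2 (mu α) + ENNReal.ofReal (1 / ((n : ℝ) + 1))) atTop
        (𝓝 (eLpNorm g 2 (mu α))) := by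
      simpa using tendsto_const_nhds.add h4
    exact ENNReal.Tendsto.const_mul (ENNReal.Tendsto.pow h5) (Or.inr ENNReal.coe_ne_top)
  refine (WK.fatou hint hpt hlim2).mono (fun _ => le_rfl) ?_
  rw [lp_sq α g hg]
  gcongr
  exact le_self_add

end Pool.Agent.LLog
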