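import Pool.Agent.LLog.Targets
import Pool.Agent.KSP.Base
import Pool.Agent.KSP.Conv

set_option autoImplicit false

/-! Orthonormal frames of the plane: the change of variables (helper of FRM and PRD). -/

namespace Pool.Agent.LLog.H21Frame_

open MeasureTheory Set
open scoped ENNReal NNReal ComplexConjugate
open Pool.Agent.KSP (ee dot nr Ex Ex1 Bd Bd1 n1 n2 lg V0 ann)

theorem Nn_pos (t : ℝ) : 0 < Nn t := by
  unfold Nn
  positivity

theorem Nn_sq (t : ℝ) : Nn t ^ 2 = 1 + t ^ 2 := by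
  unfold Nn
  rw [Real.sq_sqrt]
  positivity

theorem one_le_Nn (t : ℝ) : 1 ≤ Nn t := by
  unfold Nn
  rw [Real.one_le_sqrt]
  nlinarith [sq_nonneg t]

theorem abs_le_Nn (t : ℝ) : |t| ≤ Nn t := by
  unfold Nn
  apply Real.abs_le_sqrt
  linarith

/-- The frame map. -/
noncomputable def F (t : ℝ) (P : ℝ × ℝ) : ℝ × ℝ := P.1 • nv t + P.2 • tv t

theorem F_def (t : ℝ) (P : ℝ × ℝ) :
    F t P = (P.1 * (1 / Nn t) + P.2 * (-t / Nn t), P.1 * (t / Nn t) + P.2 * (1 / Nn t)) := by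
  simp [F, nv, tv]

theorem dot_frame (t : ℝ) (x ξ : ℝ × ℝ) :
    dot x ξ = dot x (nv t) * dot ξ (nv t) + dot x (tv t) * dot ξ (tv t) := by
  have h0 := (Nn_pos t).ne'
  have h1 := Nn_sq t
  simp only [dot, nv, tv]
  field_simp
  rw [h1]
  ring

theorem eq_frame (t : ℝ) (x : ℝ × ℝ) : x = dot x (nv t) • nv t + dot x (tv t) • tv t := by
  have h0 := (Nn_pos t).ne'
  have h1 := Nn_sq t
  ext
  · simp only [dot, nv, tv, Prod.fst_add, Prod.smul_fst, smul_eq_mul]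
    field_simp
    rw [h1]
    ring
  · simp only [dot, nv, tv, Prod.snd_add, Prod.smul_snd, smul_eq_mul]
    field_simp
    rw [h1]
    ring

theorem dot_F (t s y : ℝ) :
    dot (s • nv t + y • tv t) (nv t) = s ∧ dot (s • nv t + y • tv t) (tv t) = y := by
  have h0 := (Nn_pos t).ne'
  have h1 := Nn_sq t
  constructor
  · simp only [dot, nv, tv, Prod.fst_add, Prod.smul_fst, Prod.snd_add, Prod.smul_snd, smul_eq_mul]
    field_simp
    rw [h1]
    ring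
  · simp only [dot, nv, tv, Prod.fst_add, Prod.smul_fst, Prod.snd_add, Prod.smul_snd, smul_eq_mul]
    field_simp
    rw [h1]
    ring

theorem dot_F1 (t : ℝ) (P : ℝ × ℝ) : dot (F t P) (nv t) = P.1 := (dot_F t P.1 P.2).1

theorem dot_F2 (t : ℝ) (P : ℝ × ℝ) : dot (F t P) (tv t) = P.2 := (dot_F t P.1 P.2).2

/-- The matrix of the frame map. -/
noncomputable def FL (t : ℝ) : ℝ × ℝ →ₗ[ℝ] ℝ × ℝ :=
  Matrix.toLin (Module.Basis.finTwoProd ℝ) (Module.Basis.finTwoProd ℝ)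
    !![1 / Nn t, -t / Nn t; t / Nn t, 1 / Nn t]

theorem FL_apply (t : ℝ) (P : ℝ × ℝ) : FL t P = F t P := by
  rw [FL, Matrix.toLin_finTwoProd_apply, F_def]
  ext <;> simp only <;> ring

theorem FL_det (t : ℝ) : LinearMap.det (FL t) = 1 := by
  have h0 := (Nn_pos t).ne'
  have h1 := Nn_sq t
  rw [FL, LinearMap.det_toLin, Matrix.det_fin_two_of]
  field_simp
  rw [h1]
  ring

theorem F_cont (t : ℝ) : Continuous (F t) := by
  unfold F
  fun_prop

theorem F_mp (t : ℝ) : MeasurePreserving (F t) := by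
  refine ⟨(F_cont t).measurable, ?_⟩
  ext s hs
  rw [Measure.map_apply (F_cont t).measurable hs]
  have h := Measure.addHaar_preimage_linearMap (volume : Measure (ℝ × ℝ)) (f := FL t)
    (by rw [FL_det]; exact one_ne_zero) s
  rw [FL_det, inv_one, abs_one, ENNReal.ofReal_one, one_mul] at h
  have h2 : (FL t : ℝ × ℝ → ℝ × ℝ) = F t := funext (FL_apply t)
  rw [h2] at h
  exact h

theorem F_inj (t : ℝ) : Function.Injective (F t) := by
  intro P Q h
  ext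
  · rw [← dot_F1 t P, ← dot_F1 t Q, h]
  · rw [← dot_F2 t P, ← dot_F2 t Q, h]

theorem F_surj (t : ℝ) (x : ℝ × ℝ) : F t (dot x (nv t), dot x (tv t)) = x :=
  (eq_frame t x).symm

theorem F_emb (t : ℝ) : MeasurableEmbedding (F t) :=
  (F_cont t).measurableEmbedding (F_inj t)

theorem lint_F (t : ℝ) {G : ℝ × ℝ → ℝ≥0∞} : ∫⁻ x, G x = ∫⁻ P, G (F t P) :=
  ((F_mp t).lintegral_comp_emb (F_emb t) G).symm

theorem int_F (t : ℝ) (G : ℝ × ℝ → ℂ) : ∫ x, G x = ∫ P, G (F t P) :=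
  ((F_mp t).integral_comp (F_emb t) G).symm

theorem abs_dot_nv (t : ℝ) (x : ℝ × ℝ) {R : ℝ} (h1 : |x.1| ≤ R) (h2 : |x.2| ≤ R) :
    |dot x (nv t)| ≤ 2 * R := by
  have h0 := Nn_pos t
  have h3 : |(1 / Nn t)| ≤ 1 := by
    rw [abs_of_pos (by positivity), div_le_one h0]
    exact one_le_Nn t
  have h4 : |t / Nn t| ≤ 1 := by
    rw [abs_div, abs_of_pos h0, div_le_one h0]
    exact abs_le_Nn t
  have hR : 0 ≤ R := (abs_nonneg _).trans h1
  unfold dot nv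
  calc |x.1 * (1 / Nn t) + x.2 * (t / Nn t)| ≤ |x.1 * (1 / Nn t)| + |x.2 * (t / Nn t)| :=
        abs_add_le _ _
    _ = |x.1| * |(1 / Nn t)| + |x.2| * |t / Nn t| := by rw [abs_mul, abs_mul]
    _ ≤ R * 1 + R * 1 := by gcongr
    _ = 2 * R := by ring

theorem abs_dot_tv (t : ℝ) (x : ℝ × ℝ) {R : ℝ} (h1 : |x.1| ≤ R) (h2 : |x.2| ≤ R) :
    |dot x (tv t)| ≤ 2 * R := by
  have h0 := Nn_pos t
  have h3 : |(1 / Nn t)| ≤ 1 := by
    rw [abs_of_pos (by positivity), div_le_one h0]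
    exact one_le_Nn t
  have h4 : |-t / Nn t| ≤ 1 := by
    rw [abs_div, abs_neg, abs_of_pos h0, div_le_one h0]
    exact abs_le_Nn t
  have hR : 0 ≤ R := (abs_nonneg _).trans h1
  unfold dot tv
  calc |x.1 * (-t / Nn t) + x.2 * (1 / Nn t)| ≤ |x.1 * (-t / Nn t)| + |x.2 * (1 / Nn t)| :=
        abs_add_le _ _
    _ = |x.1| * |-t / Nn t| + |x.2| * |1 / Nn t| := by rw [abs_mul, abs_mul]
    _ ≤ R * 1 + R * 1 := by gcongr
    _ = 2 * R := by ring

/-- `Bd` in the frame. -/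
theorem bd_F {h : ℝ × ℝ → ℂ} (hh : Bd h) (t : ℝ) : Bd fun P => h (F t P) := by
  obtain ⟨hm, ⟨B, hB⟩, R, hR⟩ := hh
  refine ⟨hm.comp (F_cont t).measurable, ⟨B, fun P => hB _⟩, 2 * R, fun P hP => ?_⟩
  have h1 := hR _ hP
  have h2 := abs_dot_nv t _ h1.1 h1.2
  have h3 := abs_dot_tv t _ h1.1 h1.2
  rw [dot_F1] at h2
  rw [dot_F2] at h3
  exact ⟨h2, h3⟩

end Pool.Agent.LLog.H21Frame_
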