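import Pool.Agent.LLog.Targets

set_option autoImplicit false

/-! B2: supports and flatness of the multipliers. -/

namespace Pool.Agent.LLog

open MeasureTheory Set
open scoped ENNReal NNReal
open Pool.Agent.KSP (ee dot nr Ex Ex1 Bd Bd1 n1 n2 lg V0 ann)

namespace MUS_

lemma Nn_sq (t : ℝ) : Nn t ^ 2 = 1 + t ^ 2 := Real.sq_sqrt (by positivity)

lemma Nn_pos (t : ℝ) : 0 < Nn t := Real.sqrt_pos.2 (by positivity)

lemma nr_nonneg (ξ : ℝ × ℝ) : 0 ≤ nr ξ := Real.sqrt_nonneg _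

lemma nr_sq0 (ξ : ℝ × ℝ) : nr ξ ^ 2 = ξ.1 ^ 2 + ξ.2 ^ 2 := Real.sq_sqrt (by positivity)

lemma nr_sq (t : ℝ) (ξ : ℝ × ℝ) : nr ξ ^ 2 = dot ξ (nv t) ^ 2 + dot ξ (tv t) ^ 2 := by
  rw [nr_sq0]
  have h1 := Nn_sq t
  have h2 := (Nn_pos t).ne'
  simp only [dot, nv, tv]
  field_simp
  rw [h1]
  ring

lemma u_le (t : ℝ) (ξ : ℝ × ℝ) : dot ξ (nv t) ≤ nr ξ := by
  have h := nr_sq t ξ
  refine le_of_sq_le_sq ?_ (nr_nonneg ξ)
  nlinarith [sq_nonneg (dot ξ (tv t))]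

lemma abs1_le (ξ : ℝ × ℝ) : |ξ.1| ≤ nr ξ := by
  refine abs_le_of_sq_le_sq ?_ (nr_nonneg ξ)
  rw [nr_sq0]
  nlinarith [sq_nonneg ξ.2]

lemma abs2_le (ξ : ℝ × ℝ) : |ξ.2| ≤ nr ξ := by
  refine abs_le_of_sq_le_sq ?_ (nr_nonneg ξ)
  rw [nr_sq0]
  nlinarith [sq_nonneg ξ.1]

/-- the facts on `psR` -/
lemma psR_fact (hP : tPSI) {a m : ℕ} (hm : 0 < m) (ha : 20 ≤ a) (sg : ℝ) (l c : ℕ) :
    Measurable (psR a m sg l c) ∧ (∀ x, 0 ≤ psR a m sg l c x ∧ psR a m sg l c x ≤ 1) ∧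
    (∀ x, (c : ℝ) + 1 / 2 ^ (4 * a) ≤ 4 ^ l * (x - sg) →
      4 ^ l * (x - sg) ≤ c + 1 - 1 / 2 ^ (4 * a) → psR a m sg l c x = 1) ∧
    (∀ x, psR a m sg l c x ≠ 0 → (c : ℝ) + 1 / 2 ^ (4 * a + 1) ≤ 4 ^ l * (x - sg) ∧
      4 ^ l * (x - sg) ≤ c + 1 - 1 / 2 ^ (4 * a + 1)) := by
  have h4 : (0 : ℝ) < 4 ^ l := by positivity
  have he : (1 : ℝ) / 2 ^ (4 * a) = 2 * (1 / 2 ^ (4 * a + 1)) := by
    rw [pow_succ]
    field_simp
  have hsm : (1 : ℝ) / 2 ^ (4 * a + 1) ≤ 1 / 4 := by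
    have h2 : (2 : ℝ) ^ 2 ≤ 2 ^ (4 * a + 1) := pow_le_pow_right₀ (by norm_num) (by omega)
    exact one_div_le_one_div_of_le (by norm_num) (by norm_num at h2 ⊢; exact h2)
  set η : ℝ := 1 / 2 ^ (4 * a + 1) with hη
  have hη0 : 0 < η := by positivity
  obtain ⟨h1, h2, h3, h5, -, -⟩ := hP (40 * m) (sg + (c + η) / 4 ^ l) (sg + (c + 1 - η) / 4 ^ l)
    (η / 4 ^ l) (by omega) (by positivity) (by
      have : sg + (c + 1 - η) / 4 ^ l - (sg + (c + η) / 4 ^ l + 2 * (η / 4 ^ l)) =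
        (1 - 4 * η) / 4 ^ l := by
        field_simp
        ring
      have h6 : 0 ≤ (1 - 4 * η) / 4 ^ l := div_nonneg (by linarith) h4.le
      linarith)
  refine ⟨h1, h2, ?_, ?_⟩
  · intro x hx1 hx2
    rw [he] at hx1 hx2
    refine h3 x ?_ ?_
    · have : (c + 2 * η) / 4 ^ l ≤ x - sg := by
        rw [div_le_iff₀ h4]
        linarith
      have e : sg + (c + η) / 4 ^ l + η / 4 ^ l = sg + (c + 2 * η) / 4 ^ l := by
        field_simp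
        ring
      rw [e]
      linarith
    · have : x - sg ≤ (c + 1 - 2 * η) / 4 ^ l := by
        rw [le_div_iff₀ h4]
        linarith
      have e : sg + (c + 1 - η) / 4 ^ l - η / 4 ^ l = sg + (c + 1 - 2 * η) / 4 ^ l := by
        field_simp
        ring
      rw [e]
      linarith
  · intro x hx
    by_contra hcon
    refine hx (h5 x ?_)
    by_contra hc2
    rw [not_or, not_lt, not_lt] at hc2
    refine hcon ⟨?_, ?_⟩
    · have : (c + η) / 4 ^ l ≤ x - sg := by linarith [hc2.1]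
      rw [div_le_iff₀ h4] at this
      linarith
    · have : x - sg ≤ (c + 1 - η) / 4 ^ l := by linarith [hc2.2]
      rw [le_div_iff₀ h4] at this
      linarith

/-- the facts on `psA` -/
lemma psA_fact (hP : tPSI) {a m : ℕ} (hm : 0 < m) (ha : 20 ≤ a) :
    Measurable (psA a m) ∧ (∀ x, 0 ≤ psA a m x ∧ psA a m x ≤ 1) ∧
    (∀ x, 1 / 2 ^ (4 * a) ≤ x → x ≤ 1 - 1 / 2 ^ (4 * a) → psA a m x = 1) ∧
    (∀ x, psA a m x ≠ 0 → 1 / 2 ^ (4 * a + 1) ≤ x ∧ x ≤ 1 - 1 / 2 ^ (4 * a + 1)) := by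
  have he : (1 : ℝ) / 2 ^ (4 * a) = 2 * (1 / 2 ^ (4 * a + 1)) := by
    rw [pow_succ]
    field_simp
  have hsm : (1 : ℝ) / 2 ^ (4 * a + 1) ≤ 1 / 4 := by
    have h2 : (2 : ℝ) ^ 2 ≤ 2 ^ (4 * a + 1) := pow_le_pow_right₀ (by norm_num) (by omega)
    exact one_div_le_one_div_of_le (by norm_num) (by norm_num at h2 ⊢; exact h2)
  have hη0 : (0 : ℝ) < 1 / 2 ^ (4 * a + 1) := by positivity
  obtain ⟨h1, h2, h3, h5, -, -⟩ := hP (40 * m) (1 / 2 ^ (4 * a + 1)) (1 - 1 / 2 ^ (4 * a + 1))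
    (1 / 2 ^ (4 * a + 1)) (by omega) (by positivity) (by linarith)
  refine ⟨h1, h2, ?_, ?_⟩
  · intro x hx1 hx2
    rw [he] at hx1 hx2
    exact h3 x (by linarith) (by linarith)
  · intro x hx
    by_contra hcon
    refine hx (h5 x ?_)
    by_contra hc2
    rw [not_or, not_lt, not_lt] at hc2
    exact hcon hc2

/-- sizes -/
lemma sizes {a l j c : ℕ} (ha : 20 ≤ a) (hl : 10 * a < l) (hj : l + 8 * a ≤ j + 1) {sg : ℝ}
    (hsg : sg < 1) (hc : c < 2 * 4 ^ l) (h1 : 1 < sg + (c + 1) / 4 ^ l) :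
    (((c / 4 ^ (l - 3 * a) : ℕ) : ℝ) / 4 ^ (3 * a) ≤ (c : ℝ) / 4 ^ l ∧
    ((c : ℝ) + 1) / 4 ^ l ≤ (((c / 4 ^ (l - 3 * a) : ℕ) : ℝ) + 1) / 4 ^ (3 * a)) ∧
    (1 - 1 / 4 ^ (3 * a) < sg + ((c / 4 ^ (l - 3 * a) : ℕ) : ℝ) / 4 ^ (3 * a) ∧
    sg + ((c / 4 ^ (l - 3 * a) : ℕ) : ℝ) / 4 ^ (3 * a) < 3) ∧
    (20 * 2 ^ (4 * a) * 4 ^ l ≤ ((2 : ℝ) ^ j) ^ 2 ∧
    20 * 2 ^ (4 * a) * 4 ^ (3 * a) ≤ ((2 : ℝ) ^ j) ^ 2) ∧ (2 : ℝ) ^ (18 * a) ≤ 2 * 2 ^ j := by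
  have e4 : (4 : ℝ) ^ l = 4 ^ (3 * a) * 4 ^ (l - 3 * a) := by
    rw [← pow_add]
    congr 1
    omega
  have p1 : (0 : ℝ) < 4 ^ (3 * a) := by positivity
  have p2 : (0 : ℝ) < 4 ^ (l - 3 * a) := by positivity
  have p3 : (0 : ℝ) < 4 ^ l := by positivity
  have n1 : c / 4 ^ (l - 3 * a) * 4 ^ (l - 3 * a) ≤ c := Nat.div_mul_le_self _ _
  have n2 : c + 1 ≤ (c / 4 ^ (l - 3 * a) + 1) * 4 ^ (l - 3 * a) := by
    have := Nat.lt_div_mul_add (a := c) (b := 4 ^ (l - 3 * a)) (by positivity)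
    rw [add_mul, one_mul]
    omega
  have r1 : ((c / 4 ^ (l - 3 * a) : ℕ) : ℝ) * 4 ^ (l - 3 * a) ≤ c := by exact_mod_cast n1
  have r2 : (c : ℝ) + 1 ≤ (((c / 4 ^ (l - 3 * a) : ℕ) : ℝ) + 1) * 4 ^ (l - 3 * a) := by
    exact_mod_cast n2
  set c0 : ℝ := ((c / 4 ^ (l - 3 * a) : ℕ) : ℝ) with hc0
  have g1 : c0 / 4 ^ (3 * a) ≤ (c : ℝ) / 4 ^ l := by
    rw [div_le_div_iff₀ p1 p3, e4]
    nlinarith
  have g2 : ((c : ℝ) + 1) / 4 ^ l ≤ (c0 + 1) / 4 ^ (3 * a) := by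
    rw [div_le_div_iff₀ p3 p1, e4]
    nlinarith
  have g3 : (c : ℝ) / 4 ^ l < 2 := by
    rw [div_lt_iff₀ p3]
    exact_mod_cast hc
  have g4 : (20 : ℝ) * 2 ^ (4 * a) * 4 ^ l ≤ ((2 : ℝ) ^ j) ^ 2 := by
    have e1 : (4 : ℝ) ^ l = 2 ^ (2 * l) := by
      rw [pow_mul]
      norm_num
    have e2 : ((2 : ℝ) ^ j) ^ 2 = 2 ^ (2 * j) := by
      rw [← pow_mul, mul_comm]
    rw [e1, e2]
    calc (20 : ℝ) * 2 ^ (4 * a) * 2 ^ (2 * l) ≤ 2 ^ 5 * 2 ^ (4 * a) * 2 ^ (2 * l) := by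
          gcongr
          norm_num
      _ = 2 ^ (5 + 4 * a + 2 * l) := by rw [pow_add, pow_add]
      _ ≤ 2 ^ (2 * j) := pow_le_pow_right₀ (by norm_num) (by omega)
  refine ⟨⟨g1, g2⟩, ⟨?_, by linarith⟩, ⟨g4, ?_⟩, ?_⟩
  · have e5 : (c0 + 1) / 4 ^ (3 * a) = c0 / 4 ^ (3 * a) + 1 / 4 ^ (3 * a) := add_div _ _ _
    rw [e5] at g2
    linarith
  · refine le_trans ?_ g4
    have : (4 : ℝ) ^ (3 * a) ≤ 4 ^ l := pow_le_pow_right₀ (by norm_num) (by omega)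
    gcongr
  · have : (2 : ℝ) * 2 ^ j = 2 ^ (j + 1) := by rw [pow_succ]; ring
    rw [this]
    exact pow_le_pow_right₀ (by norm_num) (by omega)

/-- numbers used below -/
lemma nums {a : ℕ} (ha : 20 ≤ a) {J : ℝ} (hJ0 : 0 < J) (hJ : (2 : ℝ) ^ (18 * a) ≤ 2 * J) :
    (1 : ℝ) / 4 ^ (3 * a) ≤ 1 / 64 ∧ 10 / J ≤ 1 / 2 ^ (4 * a + 1) / 64 ∧
      (1 : ℝ) / 4 ^ (3 * a) ≤ 1 / 2 ^ (4 * a + 1) / 64 := by
  have e4 : (4 : ℝ) ^ (3 * a) = 2 ^ (6 * a) := by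
    have : (4 : ℝ) = 2 ^ 2 := by norm_num
    rw [this, ← pow_mul]
    congr 1
    ring
  refine ⟨?_, ?_, ?_⟩
  · rw [e4]
    refine one_div_le_one_div_of_le (by norm_num) ?_
    calc (64 : ℝ) = 2 ^ 6 := by norm_num
      _ ≤ 2 ^ (6 * a) := pow_le_pow_right₀ (by norm_num) (by omega)
  · rw [div_div, div_le_div_iff₀ hJ0 (by positivity)]
    have h1 : (2 : ℝ) ^ (4 * a + 1) * 64 * 32 ≤ 2 ^ (18 * a) := by
      calc (2 : ℝ) ^ (4 * a + 1) * 64 * 32 = 2 ^ (4 * a + 1 + 11) := by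
            rw [pow_add _ (4 * a + 1)]
            norm_num
            ring
        _ ≤ 2 ^ (18 * a) := pow_le_pow_right₀ (by norm_num) (by omega)
    have h2 : (0 : ℝ) < 2 ^ (4 * a + 1) := by positivity
    nlinarith
  · rw [e4, div_div]
    refine one_div_le_one_div_of_le (by positivity) ?_
    calc (2 : ℝ) ^ (4 * a + 1) * 64 = 2 ^ (4 * a + 1 + 6) := by
          rw [pow_add _ (4 * a + 1)]
          norm_num
      _ ≤ 2 ^ (6 * a) := pow_le_pow_right₀ (by norm_num) (by omega)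

/-- the second coordinate on the support of the angular factor -/
lemma ang (hP : tPSI) {a m : ℕ} (hm : 0 < m) (ha : 20 ≤ a) {sg sl : ℝ} {j p c0 : ℕ}
    (hr : 1 / 2 < sg + (c0 : ℝ) / 4 ^ (3 * a)) (hr3 : sg + (c0 : ℝ) / 4 ^ (3 * a) < 3)
    (ξ : ℝ × ℝ) (hne : anf a m sg sl j p c0 ξ ≠ 0) :
    0 < dot ξ (tv (tp sl j p)) ∧ 2 ^ j * dot ξ (tv (tp sl j p)) < 3 ∧
    1 / 2 ^ (4 * a + 1) * (sg + (c0 : ℝ) / 4 ^ (3 * a)) ≤
      Nn (tp sl j p) ^ 2 * 2 ^ j * dot ξ (tv (tp sl j p)) ∧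
    Nn (tp sl j p) ^ 2 * 2 ^ j * dot ξ (tv (tp sl j p)) ≤
      (1 - 1 / 2 ^ (4 * a + 1)) * (sg + (c0 : ℝ) / 4 ^ (3 * a)) := by
  obtain ⟨-, -, -, h4⟩ := psA_fact hP hm ha
  obtain ⟨h5, h6⟩ := h4 _ hne
  set r0 : ℝ := sg + (c0 : ℝ) / 4 ^ (3 * a) with hr0
  set w : ℝ := dot ξ (tv (tp sl j p)) with hw
  set N2 : ℝ := Nn (tp sl j p) ^ 2 with hN2
  have hN : 1 ≤ N2 := by
    rw [hN2, Nn_sq]
    nlinarith [sq_nonneg (tp sl j p)]
  have hJ : (0 : ℝ) < 2 ^ j := by positivity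
  have hr0p : 0 < r0 := by linarith
  have he : (0 : ℝ) < 1 / 2 ^ (4 * a + 1) := by positivity
  have e1 : N2 * 2 ^ j / r0 * w = N2 * 2 ^ j * w / r0 := by ring
  rw [e1] at h5 h6
  rw [le_div_iff₀ hr0p] at h5
  rw [div_le_iff₀ hr0p] at h6
  have h7 : 0 < N2 * 2 ^ j * w := lt_of_lt_of_le (mul_pos he hr0p) h5
  have h8 : 0 < w := by
    by_contra hcon
    have : N2 * 2 ^ j * w ≤ 0 := mul_nonpos_of_nonneg_of_nonpos (by positivity) (not_lt.1 hcon)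
    linarith
  refine ⟨h8, ?_, h5, h6⟩
  have h9 : 2 ^ j * w ≤ N2 * 2 ^ j * w := by
    have : 0 < 2 ^ j * w := mul_pos hJ h8
    nlinarith
  nlinarith

/-- the difference of `|ξ|` and `ξ · nv` -/
lemma nr_sub {J u w n : ℝ} (hJ : 0 < J) (hn : n ^ 2 = u ^ 2 + w ^ 2)
    (hu : 9 / 10 ≤ u) (hw : 0 ≤ w) (hJw : J * w ≤ 3) : n ≤ u + 5 / J ^ 2 := by
  have h1 : w ^ 2 ≤ 9 / J ^ 2 := by
    rw [le_div_iff₀ (by positivity)]
    nlinarith [mul_nonneg hJ.le hw]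
  have h2 : 0 < 1 / J ^ 2 := by positivity
  have e1 : 5 / J ^ 2 = 5 * (1 / J ^ 2) := by ring
  have e2 : 9 / J ^ 2 = 9 * (1 / J ^ 2) := by ring
  rw [e2] at h1
  rw [e1]
  set d : ℝ := 1 / J ^ 2
  refine le_of_sq_le_sq ?_ (by positivity)
  nlinarith

/-- support of a product of a radial and an angular factor -/
lemma key_supp (hG : tGEO) (hP : tPSI) {a m : ℕ} (hm : 0 < m) (ha : 20 ≤ a) {sg sl : ℝ}
    {j p l c c0 : ℕ} (hsl : 1 ≤ sl) (hsl2 : sl < 2) (hj : 10 ≤ j) (hp : p < 3 * 2 ^ j)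
    (hr : 1 - 1 / 4 ^ (3 * a) < sg + (c0 : ℝ) / 4 ^ (3 * a))
    (hr3 : sg + (c0 : ℝ) / 4 ^ (3 * a) < 3)
    (h1 : (c0 : ℝ) / 4 ^ (3 * a) ≤ (c : ℝ) / 4 ^ l)
    (h2 : ((c : ℝ) + 1) / 4 ^ l ≤ ((c0 : ℝ) + 1) / 4 ^ (3 * a))
    (hJl : 20 * 2 ^ (4 * a) * 4 ^ l ≤ ((2 : ℝ) ^ j) ^ 2) (hJ18 : (2 : ℝ) ^ (18 * a) ≤ 2 * 2 ^ j)
    (ξ : ℝ × ℝ)
    (hne1 : psR a m sg l c (dot ξ (nv (tp sl j p))) ≠ 0) (hne2 : anf a m sg sl j p c0 ξ ≠ 0) :
    cd sg l c ξ ∧ cp sl j p ξ := by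
  have hJ : (0 : ℝ) < 2 ^ j := by positivity
  obtain ⟨k1, k2, k3⟩ := nums ha hJ hJ18
  obtain ⟨w0, w1, w2, w3⟩ := ang hP hm ha (by linarith) hr3 ξ hne2
  obtain ⟨-, -, -, hR⟩ := psR_fact hP hm ha sg l c
  obtain ⟨r1, r2⟩ := hR _ hne1
  have hn := nr_sq (tp sl j p) ξ
  have hn0 := nr_nonneg ξ
  have hul := u_le (tp sl j p) ξ
  obtain ⟨-, -, hcp⟩ := hG sl j p hsl hsl2 hj hp
  set r0 : ℝ := sg + (c0 : ℝ) / 4 ^ (3 * a) with hr0
  set w : ℝ := dot ξ (tv (tp sl j p)) with hw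
  set u : ℝ := dot ξ (nv (tp sl j p)) with hu
  set N2 : ℝ := Nn (tp sl j p) ^ 2 with hN2
  set J : ℝ := 2 ^ j with hJd
  set e : ℝ := 1 / 2 ^ (4 * a + 1) with he
  have he0 : 0 < e := by positivity
  have p4 : (0 : ℝ) < 4 ^ l := by positivity
  have u1 : (c : ℝ) / 4 ^ l < u - sg := by
    rw [div_lt_iff₀ p4]
    linarith
  have u2 : u - sg < ((c : ℝ) + 1) / 4 ^ l := by
    rw [lt_div_iff₀ p4]
    linarith
  have u3 : r0 < u := by linarith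
  have u4 : u < r0 + 1 / 4 ^ (3 * a) := by
    have e5 : ((c0 : ℝ) + 1) / 4 ^ (3 * a) = (c0 : ℝ) / 4 ^ (3 * a) + 1 / 4 ^ (3 * a) :=
      add_div _ _ _
    rw [e5] at h2
    linarith
  have hnu := nr_sub hJ hn (by linarith) w0.le w1.le
  have e1 : (4 : ℝ) ^ l * (5 / J ^ 2) ≤ e / 2 := by
    rw [he]
    have h3 : (4 : ℝ) ^ l * (5 / J ^ 2) = 5 * 4 ^ l / J ^ 2 := by ring
    rw [h3, div_div, div_le_div_iff₀ (by positivity) (by positivity)]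
    have h4 : (2 : ℝ) ^ (4 * a + 1) = 2 * 2 ^ (4 * a) := by rw [pow_succ]; ring
    rw [h4]
    nlinarith
  refine ⟨⟨?_, ?_⟩, ?_⟩
  · have : 4 ^ l * (u - sg) ≤ 4 ^ l * (nr ξ - sg) := by gcongr
    linarith
  · have : 4 ^ l * (nr ξ - sg) ≤ 4 ^ l * (u - sg) + 4 ^ l * (5 / J ^ 2) := by
      rw [← mul_add]
      gcongr
      linarith
    linarith
  · have u5 : 0 < u := by linarith
    refine hcp ξ u5 ?_ ?_
    · have e3 : N2 * J * (w / u) = N2 * J * w / u := by ring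
      rw [e3, lt_div_iff₀ u5]
      have e4 : 3 / J * u < 10 / J := by
        rw [div_mul_eq_mul_div, div_lt_div_iff_of_pos_right hJ]
        linarith
      nlinarith
    · have e3 : N2 * J * (w / u) = N2 * J * w / u := by ring
      rw [e3, div_lt_iff₀ u5]
      have e5 : 3 / J ≤ e := by
        have : 3 / J ≤ 10 / J := by gcongr; norm_num
        linarith
      have e6 : (1 - e) * r0 < (1 - e) * u := by
        have : 0 < 1 - e := by linarith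
        nlinarith
      nlinarith

/-- position in an interval -/
lemma fr_pos {η x : ℝ} {c : ℕ} (h1 : (c : ℝ) ≤ x) (h2 : x < c + 1) (h : fr η x) :
    (c : ℝ) + η ≤ x ∧ x ≤ c + 1 - η := by
  have h3 : ⌊x⌋ = (c : ℤ) := by
    rw [Int.floor_eq_iff]
    exact ⟨by exact_mod_cast h1, by exact_mod_cast h2⟩
  have h4 : Int.fract x = x - c := by
    rw [← Int.self_sub_floor, h3]
    simp
  obtain ⟨h5, h6⟩ := h
  rw [h4] at h5 h6
  constructor <;> linarith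

/-- the code at level `3 a` -/
lemma cd_anc {a l c : ℕ} (hl : 3 * a ≤ l) {x : ℝ}
    (h1 : (c : ℝ) ≤ 4 ^ l * x) (h2 : 4 ^ l * x < c + 1) :
    ((c / 4 ^ (l - 3 * a) : ℕ) : ℝ) ≤ 4 ^ (3 * a) * x ∧
      4 ^ (3 * a) * x < ((c / 4 ^ (l - 3 * a) : ℕ) : ℝ) + 1 := by
  have e4 : (4 : ℝ) ^ l = 4 ^ (3 * a) * 4 ^ (l - 3 * a) := by
    rw [← pow_add]
    congr 1
    omega
  have p2 : (0 : ℝ) < 4 ^ (l - 3 * a) := by positivity
  have n1 : c / 4 ^ (l - 3 * a) * 4 ^ (l - 3 * a) ≤ c := Nat.div_mul_le_self _ _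
  have n2 : c + 1 ≤ (c / 4 ^ (l - 3 * a) + 1) * 4 ^ (l - 3 * a) := by
    have := Nat.lt_div_mul_add (a := c) (b := 4 ^ (l - 3 * a)) (by positivity)
    rw [add_mul, one_mul]
    omega
  have r1 : ((c / 4 ^ (l - 3 * a) : ℕ) : ℝ) * 4 ^ (l - 3 * a) ≤ c := by exact_mod_cast n1
  have r2 : (c : ℝ) + 1 ≤ (((c / 4 ^ (l - 3 * a) : ℕ) : ℝ) + 1) * 4 ^ (l - 3 * a) := by
    exact_mod_cast n2
  rw [e4] at h1 h2
  constructor
  · refine le_of_mul_le_mul_right ?_ p2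
    linarith
  · refine lt_of_mul_lt_mul_right ?_ p2.le
    linarith

lemma meas_dot (v : ℝ × ℝ) : Measurable (fun ξ : ℝ × ℝ => dot ξ v) := by
  have : (fun ξ : ℝ × ℝ => dot ξ v) = fun ξ => ξ.1 * v.1 + ξ.2 * v.2 := rfl
  rw [this]
  fun_prop

end MUS_

open MUS_ in
theorem pMUS (hP : tPSI) (hG : tGEO) : tMUS := by
  intro a m sg sl l j c p hPA hsg0 hsg hsl hsl2 hl hlm hj hjm hc h1 hp
  obtain ⟨ha, hm1, hm2⟩ := hPA
  have hm : 0 < m := by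
    rcases Nat.eq_zero_or_pos m with h | h
    · subst h
      have : 0 < 2 ^ a := by positivity
      omega
    · exact h
  obtain ⟨⟨g1, g2⟩, ⟨g3, g4⟩, ⟨g5, g6⟩, g7⟩ := sizes ha hl hj hsg hc h1
  set c0 : ℕ := c / 4 ^ (l - 3 * a) with hc0
  have hJ : (0 : ℝ) < 2 ^ j := by positivity
  obtain ⟨k1, k2, k3⟩ := nums ha hJ g7
  have hj10 : 10 ≤ j := by omega
  obtain ⟨R1, R2, R3, R4⟩ := psR_fact hP hm ha sg l c
  obtain ⟨S1, S2, S3, S4⟩ := psR_fact hP hm ha sg (3 * a) c0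
  obtain ⟨A1, A2, A3, A4⟩ := psA_fact hP hm ha
  have p4 : (0 : ℝ) < 4 ^ l := by positivity
  have p4' : (0 : ℝ) < 4 ^ (3 * a) := by positivity
  have hang : Measurable (anf a m sg sl j p c0) := by
    have : anf a m sg sl j p c0 = psA a m ∘ fun ξ => Nn (tp sl j p) ^ 2 * 2 ^ j /
        (sg + c0 / 4 ^ (3 * a)) * dot ξ (tv (tp sl j p)) := rfl
    rw [this]
    exact A1.comp ((meas_dot _).const_mul _)
  -- support
  have smu : ∀ ξ, mu a m sg sl l j c p ξ ≠ 0 → cd sg l c ξ ∧ cp sl j p ξ := by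
    intro ξ hξ
    have h2 : psR a m sg l c (dot ξ (nv (tp sl j p))) * anf a m sg sl j p c0 ξ ≠ 0 := by
      intro h
      apply hξ
      show ((psR a m sg l c (dot ξ (nv (tp sl j p))) * anf a m sg sl j p c0 ξ : ℝ) : ℂ) = 0
      rw [h, Complex.ofReal_zero]
    exact key_supp hG hP hm ha hsl hsl2 hj10 hp g3 g4 g1 g2 g5 g7 ξ (left_ne_zero_of_mul h2)
      (right_ne_zero_of_mul h2)
  have snu : ∀ ξ, nu a m sg sl j c0 p ξ ≠ 0 → cd sg (3 * a) c0 ξ ∧ cp sl j p ξ := by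
    intro ξ hξ
    have h2 : psR a m sg (3 * a) c0 (dot ξ (nv (tp sl j p))) * anf a m sg sl j p c0 ξ ≠ 0 := by
      intro h
      apply hξ
      show ((psR a m sg (3 * a) c0 (dot ξ (nv (tp sl j p))) * anf a m sg sl j p c0 ξ : ℝ) : ℂ) = 0
      rw [h, Complex.ofReal_zero]
    exact key_supp hG hP hm ha hsl hsl2 hj10 hp g3 g4 le_rfl le_rfl g6 g7 ξ
      (left_ne_zero_of_mul h2) (right_ne_zero_of_mul h2)
  have bmu : ∀ ξ, ‖mu a m sg sl l j c p ξ‖ ≤ 1 := by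
    intro ξ
    show ‖((psR a m sg l c (dot ξ (nv (tp sl j p))) * anf a m sg sl j p c0 ξ : ℝ) : ℂ)‖ ≤ 1
    rw [Complex.norm_real, Real.norm_eq_abs, abs_mul]
    have h2 := R2 (dot ξ (nv (tp sl j p)))
    have h3 : 0 ≤ anf a m sg sl j p c0 ξ ∧ anf a m sg sl j p c0 ξ ≤ 1 := A2 _
    rw [abs_of_nonneg h2.1, abs_of_nonneg h3.1]
    exact mul_le_one₀ h2.2 h3.1 h3.2
  have bnu : ∀ ξ, ‖nu a m sg sl j c0 p ξ‖ ≤ 1 := by
    intro ξ
    show ‖((psR a m sg (3 * a) c0 (dot ξ (nv (tp sl j p))) * anf a m sg sl j p c0 ξ : ℝ) : ℂ)‖ ≤ 1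
    rw [Complex.norm_real, Real.norm_eq_abs, abs_mul]
    have h2 := S2 (dot ξ (nv (tp sl j p)))
    have h3 : 0 ≤ anf a m sg sl j p c0 ξ ∧ anf a m sg sl j p c0 ξ ≤ 1 := A2 _
    rw [abs_of_nonneg h2.1, abs_of_nonneg h3.1]
    exact mul_le_one₀ h2.2 h3.1 h3.2
  have nrb : ∀ (l' c' : ℕ), ((c' : ℝ) + 1) / 4 ^ l' ≤ ((c0 : ℝ) + 1) / 4 ^ (3 * a) →
      ∀ ξ, cd sg l' c' ξ → nr ξ ≤ 4 := by
    intro l' c' h2 ξ hξ
    have h3 : 4 ^ l' * (nr ξ - sg) < c' + 1 := hξ.2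
    have h4 : nr ξ - sg < ((c' : ℝ) + 1) / 4 ^ l' := by
      rw [lt_div_iff₀ (by positivity)]
      linarith
    have e5 : ((c0 : ℝ) + 1) / 4 ^ (3 * a) = (c0 : ℝ) / 4 ^ (3 * a) + 1 / 4 ^ (3 * a) :=
      add_div _ _ _
    rw [e5] at h2
    linarith
  have mmu : Measurable (mu a m sg sl l j c p) := by
    have : mu a m sg sl l j c p = fun ξ =>
        ((psR a m sg l c (dot ξ (nv (tp sl j p))) * anf a m sg sl j p c0 ξ : ℝ) : ℂ) := rfl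
    rw [this]
    exact Complex.measurable_ofReal.comp ((R1.comp (meas_dot _)).mul hang)
  have mnu : Measurable (nu a m sg sl j c0 p) := by
    have : nu a m sg sl j c0 p = fun ξ =>
        ((psR a m sg (3 * a) c0 (dot ξ (nv (tp sl j p))) * anf a m sg sl j p c0 ξ : ℝ) : ℂ) := rfl
    rw [this]
    exact Complex.measurable_ofReal.comp ((S1.comp (meas_dot _)).mul hang)
  refine ⟨⟨⟨mmu, ⟨1, bmu⟩, 4, ?_⟩, bmu, smu⟩, ⟨⟨mnu, ⟨1, bnu⟩, 4, ?_⟩, bnu, snu⟩, ?_, ?_⟩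
  · intro ξ hξ
    have h2 := nrb l c g2 ξ (smu ξ hξ).1
    exact ⟨(abs1_le ξ).trans h2, (abs2_le ξ).trans h2⟩
  · intro ξ hξ
    have h2 := nrb (3 * a) c0 le_rfl ξ (snu ξ hξ).1
    exact ⟨(abs1_le ξ).trans h2, (abs2_le ξ).trans h2⟩
  · -- flatness
    intro ξ hcd hf1 hf2
    show ((psR a m sg l c (dot ξ (nv (tp sl j p))) * anf a m sg sl j p c0 ξ : ℝ) : ℂ) =
      ((psR a m sg (3 * a) c0 (dot ξ (nv (tp sl j p))) * anf a m sg sl j p c0 ξ : ℝ) : ℂ)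
    by_cases hne : anf a m sg sl j p c0 ξ = 0
    · rw [hne, mul_zero, mul_zero]
    · obtain ⟨w0, w1, w2, w3⟩ := ang hP hm ha (by linarith) g4 ξ hne
      have hn := nr_sq (tp sl j p) ξ
      have hn0 := nr_nonneg ξ
      have hul := u_le (tp sl j p) ξ
      obtain ⟨d1, d2⟩ := fr_pos hcd.1 hcd.2 hf1
      have hanc := cd_anc (a := a) (by omega) hcd.1 hcd.2
      obtain ⟨d3, d4⟩ := fr_pos hanc.1 hanc.2 hf2
      have e3 : (3 : ℝ) / 2 ^ (4 * a + 1) = 3 * (1 / 2 ^ (4 * a + 1)) := by ring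
      have e6 : (1 : ℝ) / 2 ^ (4 * a) = 2 * (1 / 2 ^ (4 * a + 1)) := by
        rw [pow_succ]
        field_simp
      rw [e3] at d1 d2 d3 d4
      have he0 : (0 : ℝ) < 1 / 2 ^ (4 * a + 1) := by positivity
      set w : ℝ := dot ξ (tv (tp sl j p)) with hw
      set u : ℝ := dot ξ (nv (tp sl j p)) with hu
      rcases lt_or_ge u 0 with hu0 | hu0
      · have h2 : psR a m sg l c u = 0 := by
          by_contra hcon
          have h3 := (R4 u hcon).1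
          have h4 : 4 ^ l * (u - sg) < 0 := mul_neg_of_pos_of_neg p4 (by linarith)
          have h5 : (0 : ℝ) ≤ c := Nat.cast_nonneg _
          linarith
        have h2' : psR a m sg (3 * a) c0 u = 0 := by
          by_contra hcon
          have h3 := (S4 u hcon).1
          have h4 : 4 ^ (3 * a) * (u - sg) < 0 := mul_neg_of_pos_of_neg p4' (by linarith)
          have h5 : (0 : ℝ) ≤ c0 := Nat.cast_nonneg _
          linarith
        rw [h2, h2']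
      · have hnr : 9 / 10 ≤ nr ξ := by
          have h3 : (c0 : ℝ) / 4 ^ (3 * a) ≤ nr ξ - sg := by
            rw [div_le_iff₀ p4']
            linarith
          linarith
        have hd : nr ξ ≤ u + 10 / (2 ^ j) ^ 2 := by
          have h3 : (nr ξ - u) * (nr ξ + u) = w ^ 2 := by nlinarith
          have h4 : w ^ 2 ≤ 9 / (2 ^ j) ^ 2 := by
            rw [le_div_iff₀ (by positivity)]
            nlinarith [mul_nonneg hJ.le w0.le]
          have h5 : (nr ξ - u) * (9 / 10) ≤ (nr ξ - u) * (nr ξ + u) :=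
            mul_le_mul_of_nonneg_left (by linarith) (by linarith)
          have e1 : 10 / ((2 : ℝ) ^ j) ^ 2 = 10 * (1 / (2 ^ j) ^ 2) := by ring
          have e2 : 9 / ((2 : ℝ) ^ j) ^ 2 = 9 * (1 / (2 ^ j) ^ 2) := by ring
          rw [e2] at h4
          rw [e1]
          linarith
        have hb : ∀ l' : ℕ, 20 * 2 ^ (4 * a) * (4 : ℝ) ^ l' ≤ ((2 : ℝ) ^ j) ^ 2 →
            (4 : ℝ) ^ l' * (10 / (2 ^ j) ^ 2) ≤ 1 / 2 ^ (4 * a + 1) := by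
          intro l' hl'
          have h3 : (4 : ℝ) ^ l' * (10 / (2 ^ j) ^ 2) = 10 * 4 ^ l' / (2 ^ j) ^ 2 := by ring
          rw [h3, div_le_div_iff₀ (by positivity) (by positivity)]
          have h4 : (2 : ℝ) ^ (4 * a + 1) = 2 * 2 ^ (4 * a) := by rw [pow_succ]; ring
          rw [h4]
          nlinarith
        have q1 : psR a m sg l c u = 1 := by
          refine R3 u ?_ ?_
          · have h3 : 4 ^ l * (nr ξ - sg) ≤ 4 ^ l * (u - sg) + 4 ^ l * (10 / (2 ^ j) ^ 2) := by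
              rw [← mul_add]
              gcongr
              linarith
            have := hb l g5
            linarith
          · have h3 : 4 ^ l * (u - sg) ≤ 4 ^ l * (nr ξ - sg) := by gcongr
            linarith
        have q2 : psR a m sg (3 * a) c0 u = 1 := by
          refine S3 u ?_ ?_
          · have h3 : 4 ^ (3 * a) * (nr ξ - sg) ≤
                4 ^ (3 * a) * (u - sg) + 4 ^ (3 * a) * (10 / (2 ^ j) ^ 2) := by
              rw [← mul_add]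
              gcongr
              linarith
            have := hb (3 * a) g6
            linarith
          · have h3 : 4 ^ (3 * a) * (u - sg) ≤ 4 ^ (3 * a) * (nr ξ - sg) := by gcongr
            linarith
        rw [q1, q2]
  · -- core
    intro ξ hcd hcpξ hf1 hf2 hf3
    show ((psR a m sg l c (dot ξ (nv (tp sl j p))) * anf a m sg sl j p c0 ξ : ℝ) : ℂ) = 1
    obtain ⟨-, hGs, -⟩ := hG sl j p hsl hsl2 hj10 hp
    obtain ⟨G1, G2, G3, G4, G5⟩ := hGs ξ hcpξ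
    obtain ⟨d1, d2⟩ := fr_pos hcd.1 hcd.2 hf1
    have hanc := cd_anc (a := a) (by omega) hcd.1 hcd.2
    obtain ⟨d3, d4⟩ := fr_pos hanc.1 hanc.2 hf2
    obtain ⟨d5, d6⟩ := fr_pos hcpξ.2.1 hcpξ.2.2 hf3
    have hn4 := nrb l c g2 ξ hcd
    have e6 : (1 : ℝ) / 2 ^ (4 * a) = 2 * (1 / 2 ^ (4 * a + 1)) := by
      rw [pow_succ]
      field_simp
    have e7 : (2 : ℝ) / 2 ^ (4 * a) = 4 * (1 / 2 ^ (4 * a + 1)) := by
      rw [pow_succ]
      field_simp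
      norm_num
    rw [e7] at d1 d2 d3 d4 d5 d6
    have he0 : (0 : ℝ) < 1 / 2 ^ (4 * a + 1) := by positivity
    have e4j : (4 : ℝ) ^ j = (2 ^ j) ^ 2 := by
      rw [← pow_mul, mul_comm, pow_mul]
      norm_num
    rw [e4j] at G4
    have hd : nr ξ ≤ dot ξ (nv (tp sl j p)) + 4 / (2 ^ j) ^ 2 := by
      have : nr ξ / (2 ^ j) ^ 2 ≤ 4 / (2 ^ j) ^ 2 := by gcongr
      linarith
    have hb : ∀ l' : ℕ, 20 * 2 ^ (4 * a) * (4 : ℝ) ^ l' ≤ ((2 : ℝ) ^ j) ^ 2 →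
        (4 : ℝ) ^ l' * (4 / (2 ^ j) ^ 2) ≤ 1 / 2 ^ (4 * a + 1) := by
      intro l' hl'
      have h3 : (4 : ℝ) ^ l' * (4 / (2 ^ j) ^ 2) = 4 * 4 ^ l' / (2 ^ j) ^ 2 := by ring
      rw [h3, div_le_div_iff₀ (by positivity) (by positivity)]
      have h4 : (2 : ℝ) ^ (4 * a + 1) = 2 * 2 ^ (4 * a) := by rw [pow_succ]; ring
      rw [h4]
      nlinarith
    have q1 : psR a m sg l c (dot ξ (nv (tp sl j p))) = 1 := by
      refine R3 _ ?_ ?_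
      · have h3 : 4 ^ l * (nr ξ - sg) ≤
            4 ^ l * (dot ξ (nv (tp sl j p)) - sg) + 4 ^ l * (4 / (2 ^ j) ^ 2) := by
          rw [← mul_add]
          gcongr
          linarith
        have := hb l g5
        linarith
      · have h3 : 4 ^ l * (dot ξ (nv (tp sl j p)) - sg) ≤ 4 ^ l * (nr ξ - sg) := by gcongr
        linarith
    have hr1 : sg + (c0 : ℝ) / 4 ^ (3 * a) ≤ dot ξ (nv (tp sl j p)) := by
      have h3 : 4 ^ (3 * a) * (nr ξ - sg) ≤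
          4 ^ (3 * a) * (dot ξ (nv (tp sl j p)) - sg) + 4 ^ (3 * a) * (4 / (2 ^ j) ^ 2) := by
        rw [← mul_add]
        gcongr
        linarith
      have h4 := hb (3 * a) g6
      have h5 : (c0 : ℝ) / 4 ^ (3 * a) ≤ dot ξ (nv (tp sl j p)) - sg := by
        rw [div_le_iff₀ p4']
        linarith
      linarith
    have hr2 : dot ξ (nv (tp sl j p)) ≤ sg + (c0 : ℝ) / 4 ^ (3 * a) + 1 / 4 ^ (3 * a) := by
      have h5 : nr ξ - sg ≤ ((c0 : ℝ) + 1) / 4 ^ (3 * a) := by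
        rw [le_div_iff₀ p4']
        linarith
      have e5 : ((c0 : ℝ) + 1) / 4 ^ (3 * a) = (c0 : ℝ) / 4 ^ (3 * a) + 1 / 4 ^ (3 * a) :=
        add_div _ _ _
      rw [e5] at h5
      linarith
    have q2 : anf a m sg sl j p c0 ξ = 1 := by
      have hr0 : 0 < sg + (c0 : ℝ) / 4 ^ (3 * a) := by linarith
      show psA a m (Nn (tp sl j p) ^ 2 * 2 ^ j / (sg + c0 / 4 ^ (3 * a)) *
        dot ξ (tv (tp sl j p))) = 1
      set w : ℝ := dot ξ (tv (tp sl j p)) with hw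
      set u : ℝ := dot ξ (nv (tp sl j p)) with hu
      set r0 : ℝ := sg + (c0 : ℝ) / 4 ^ (3 * a) with hr0d
      set N2 : ℝ := Nn (tp sl j p) ^ 2 with hN2
      have hu0 : 0 < u := G1
      have e8 : N2 * 2 ^ j / r0 * w = N2 * 2 ^ j * (w / u) * (u / r0) := by
        field_simp
      rw [e8]
      obtain ⟨y1, y2⟩ := abs_le.1 G5
      have hk : 3 / (2 : ℝ) ^ j ≤ 1 / 2 ^ (4 * a + 1) / 64 := by
        refine le_trans ?_ k2
        gcongr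
        norm_num
      set y : ℝ := N2 * 2 ^ j * (w / u) with hy
      set e : ℝ := 1 / 2 ^ (4 * a + 1) with he
      have hel : e ≤ 1 / 4 := by
        rw [he]
        refine one_div_le_one_div_of_le (by norm_num) ?_
        calc (4 : ℝ) = 2 ^ 2 := by norm_num
          _ ≤ 2 ^ (4 * a + 1) := pow_le_pow_right₀ (by norm_num) (by omega)
      have z1 : 1 ≤ u / r0 := by
        rw [le_div_iff₀ hr0]
        linarith
      have z2 : u / r0 ≤ 1 + e / 16 := by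
        rw [div_le_iff₀ hr0]
        nlinarith
      have hy0 : 3 * e ≤ y := by linarith
      have hy1 : y ≤ 1 - 3 * e := by linarith
      refine A3 _ ?_ ?_
      · rw [e6]
        nlinarith
      · rw [e6]
        have h9 : y * (u / r0) ≤ (1 - 3 * e) * (1 + e / 16) := by
          refine mul_le_mul hy1 z2 (by linarith) (by linarith)
        nlinarith
    rw [q1, q2]
    norm_num

end Pool.Agent.LLog
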