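import Pool.Agent.LLog.Targets

set_option autoImplicit false

/-! MP_ee701d_an, LLG-MUK: `L¹` norms and tails of the kernels of the multipliers. -/

namespace Pool.Agent.LLog

open MeasureTheory Set
open scoped ENNReal NNReal
open Pool.Agent.KSP (ee dot nr Ex Ex1 Bd Bd1 n1 n2 lg V0 ann)

namespace MUK_

/-- dilation of `Ex1` -/
lemma ex1_dil (g : ℝ → ℂ) (C s : ℝ) (hC : 0 < C) :
    Ex1 (fun y => g (C * y)) s = ((C⁻¹ : ℝ) : ℂ) * Ex1 g (C⁻¹ * s) := by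
  unfold Pool.Agent.KSP.Ex1
  have h := MeasureTheory.Measure.integral_comp_mul_left
    (fun y => g y * ee (C⁻¹ * s * y)) C
  have h2 : (fun τ : ℝ => g (C * τ) * ee (s * τ)) =
      fun x => (fun y => g y * ee (C⁻¹ * s * y)) (C * x) := by
    funext x
    simp only
    congr 2
    field_simp
  rw [h2, h, abs_of_pos (inv_pos.2 hC)]
  simp

/-- dilation of lower integrals -/
lemma lint_dil (F : ℝ → ℝ≥0∞) (C : ℝ) (hC : 0 < C) :
    ∫⁻ s, F (C⁻¹ * s) = ENNReal.ofReal C * ∫⁻ u, F u := by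
  have hC' : C⁻¹ ≠ 0 := (inv_pos.2 hC).ne'
  have h := (measurableEmbedding_mulLeft₀ hC').lintegral_map (μ := volume) F
  rw [← h, Real.map_volume_mul_left hC', inv_inv, abs_of_pos hC, lintegral_smul_measure]
  rfl

lemma ex1_dil_norm (g : ℝ → ℂ) (C B : ℝ) (hC : 0 < C) :
    ∫⁻ s in {s : ℝ | B < |s|}, ‖Ex1 (fun y => g (C * y)) s‖ₑ =
      ∫⁻ u in {u : ℝ | B / C < |u|}, ‖Ex1 g u‖ₑ := by
  have hm : ∀ b : ℝ, MeasurableSet {s : ℝ | b < |s|} := fun b =>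
    measurableSet_lt measurable_const continuous_abs.measurable
  rw [← lintegral_indicator (hm _), ← lintegral_indicator (hm _)]
  have h1 : ({s : ℝ | B < |s|}.indicator fun s => ‖Ex1 (fun y => g (C * y)) s‖ₑ) =
      fun s => ENNReal.ofReal C⁻¹ *
        ({u : ℝ | B / C < |u|}.indicator fun u => ‖Ex1 g u‖ₑ) (C⁻¹ * s) := by
    funext s
    have hiff : (s ∈ {s : ℝ | B < |s|}) ↔ (C⁻¹ * s ∈ {u : ℝ | B / C < |u|}) := by
      simp only [mem_ofPred_eq, abs_mul, abs_of_pos (inv_pos.2 hC)]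
      rw [div_lt_iff₀ hC]
      constructor
      · intro h
        calc B < |s| := h
          _ = C⁻¹ * |s| * C := by field_simp
      · intro h
        calc B < C⁻¹ * |s| * C := h
          _ = |s| := by field_simp
    by_cases hs : s ∈ {s : ℝ | B < |s|}
    · rw [indicator_of_mem hs, indicator_of_mem (hiff.1 hs), ex1_dil g C s hC, enorm_mul]
      congr 1
      rw [← ofReal_norm, Complex.norm_real, Real.norm_eq_abs,
        abs_of_pos (inv_pos.2 hC)]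
    · rw [indicator_of_notMem hs, indicator_of_notMem (fun h => hs (hiff.2 h)), mul_zero]
  rw [h1, lintegral_const_mul' _ _ ENNReal.ofReal_ne_top,
    lint_dil ({u : ℝ | B / C < |u|}.indicator fun u => ‖Ex1 g u‖ₑ) C hC, ← mul_assoc,
    ← ENNReal.ofReal_mul (inv_pos.2 hC).le, inv_mul_cancel₀ hC.ne']
  simp

lemma ex1_dil_norm' (g : ℝ → ℂ) (C : ℝ) (hC : 0 < C) :
    ∫⁻ s, ‖Ex1 (fun y => g (C * y)) s‖ₑ = ∫⁻ u, ‖Ex1 g u‖ₑ := by
  have h := ex1_dil_norm g C (-1) hC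
  have e1 : {s : ℝ | -1 < |s|} = univ := by
    ext s
    simp only [mem_ofPred_eq, mem_univ, iff_true]
    linarith [abs_nonneg s]
  have e2 : {s : ℝ | -1 / C < |s|} = univ := by
    ext s
    simp only [mem_ofPred_eq, mem_univ, iff_true]
    have : -1 / C < 0 := div_neg_of_neg_of_pos (by norm_num) hC
    linarith [abs_nonneg s]
  rw [e1, e2, Measure.restrict_univ] at h
  exact h

lemma pow_facts (a m : ℕ) (h : PA a m) : (1 : ℝ) ≤ m ∧ (m : ℝ) ≤ 2 ^ a ∧ (80 : ℝ) ≤ 2 ^ a ∧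
    (800 : ℝ) ≤ 2 ^ a ∧ (25 * (a : ℝ) ^ 2) ≤ 2 ^ a ∧ (a : ℝ) ≤ m ∧ (20 : ℝ) ≤ a := by
  obtain ⟨h1, h2, h3⟩ := h
  have k0 : (20 : ℝ) ≤ a := by exact_mod_cast h1
  have hge : ∀ n : ℕ, 20 ≤ n → 25 * n ^ 2 ≤ 2 ^ n := by
    intro n hn
    induction n, hn using Nat.le_induction with
    | base => norm_num
    | succ n hn ih =>
      have e : 2 ^ (n + 1) = 2 * 2 ^ n := by ring
      rw [e]
      nlinarith
  have k5 : 25 * a ^ 2 ≤ 2 ^ a := hge a h1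
  have k4 : 800 ≤ 2 ^ a := by
    have : 25 * 20 ^ 2 ≤ 25 * a ^ 2 := by gcongr
    omega
  have hm : 1 ≤ m := by omega
  have k6 : a ≤ m := by nlinarith
  refine ⟨by exact_mod_cast hm, by exact_mod_cast h2.le, ?_, by exact_mod_cast k4,
    by exact_mod_cast k5, by exact_mod_cast k6, k0⟩
  have : 80 ≤ 2 ^ a := by omega
  exact_mod_cast this

/-- the basic one-dimensional estimate -/
lemma psi_est (hPSI : tPSI) (a m : ℕ) (α β δ : ℝ) (h : PA a m) (hδ : 0 < δ)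
    (h2 : α + 2 * δ ≤ β) (h3 : β - α ≤ 2 ^ (4 * a + 1) * δ) :
    Bd1 (fun ζ => (psi (40 * m) α β δ ζ : ℂ)) ∧
    ∫⁻ s, ‖Ex1 (fun ζ => (psi (40 * m) α β δ ζ : ℂ)) s‖ₑ ≤ ENNReal.ofReal (5 * a) ∧
    ∀ A : ℝ, 40 * m / δ ≤ A → ∫⁻ s in {s : ℝ | A < |s|},
        ‖Ex1 (fun ζ => (psi (40 * m) α β δ ζ : ℂ)) s‖ₑ ≤
      ENNReal.ofReal (1 / 2 ^ (40 * m)) := by
  obtain ⟨f1, f2, f3, f4, f5, f6, f7⟩ := pow_facts a m h
  have hN : 2 ≤ 40 * m := by
    have : 1 ≤ m := by exact_mod_cast f1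
    omega
  obtain ⟨p1, p2, p3, p4, p5, p6⟩ := hPSI (40 * m) α β δ hN hδ h2
  refine ⟨⟨by fun_prop, ⟨1, fun τ => ?_⟩, ⟨max |α| |β|, fun τ hτ => ?_⟩⟩, ?_, ?_⟩
  · rw [Complex.norm_real, Real.norm_eq_abs, abs_of_nonneg (p2 τ).1]
    exact (p2 τ).2
  · have hz : ¬ (τ < α ∨ β < τ) := by
      intro h'
      apply hτ
      simp [p4 τ h']
    push Not at hz
    rw [abs_le]
    constructor
    · have := neg_abs_le α
      have := le_max_left |α| |β|
      linarith [hz.1]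
    · have := le_abs_self β
      have := le_max_right |α| |β|
      linarith [hz.2]
  · refine p6.trans (ENNReal.ofReal_le_ofReal ?_)
    have hba : 0 < β - α := by linarith
    have e1 : ((40 * m : ℕ) : ℝ) * (β - α) / δ ≤ 2 ^ (6 * a) := by
      rw [div_le_iff₀ hδ]
      push_cast
      have e2 : (40 : ℝ) * m * (β - α) ≤ 40 * m * (2 ^ (4 * a + 1) * δ) := by gcongr
      have e3 : (2 : ℝ) ^ (6 * a) = 2 ^ a * 2 ^ a * 2 ^ (4 * a) := by
        rw [← pow_add, ← pow_add]; congr 1; ring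
      have e4 : (2 : ℝ) ^ (4 * a + 1) = 2 * 2 ^ (4 * a) := by rw [pow_succ]; ring
      rw [e3]
      rw [e4] at e2
      have e5 : (80 : ℝ) * m ≤ 2 ^ a * 2 ^ a := mul_le_mul f3 f2 (by positivity) (by positivity)
      have e6 : (0 : ℝ) < 2 ^ (4 * a) * δ := by positivity
      nlinarith
    have e7 : 0 < ((40 * m : ℕ) : ℝ) * (β - α) / δ := by
      have : (0 : ℝ) < ((40 * m : ℕ) : ℝ) := by push_cast; linarith
      positivity
    have e8 := Real.log_le_log e7 e1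
    rw [Real.log_pow] at e8
    push_cast at e8 ⊢
    have := Real.log_two_lt_d9
    nlinarith
  · intro A hA
    refine le_trans (lintegral_mono_set ?_) p5
    intro s hs
    simp only [mem_ofPred_eq] at hs ⊢
    push_cast
    linarith

/-- two-dimensional estimate in a frame -/
lemma frame_est (hPRD : tPRD) (a m : ℕ) (t A B : ℝ) (f1 f2 : ℝ → ℂ) (h : PA a m)
    (h1 : Bd1 f1) (h2 : Bd1 f2) (hA : 0 < A) (hB : 0 < B)
    (e1 : ∫⁻ s, ‖Ex1 f1 s‖ₑ ≤ ENNReal.ofReal (5 * a))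
    (e2 : ∫⁻ s, ‖Ex1 f2 s‖ₑ ≤ ENNReal.ofReal (5 * a))
    (t1 : ∫⁻ s in {s : ℝ | A < |s|}, ‖Ex1 f1 s‖ₑ ≤ ENNReal.ofReal (1 / 2 ^ (40 * m)))
    (t2 : ∫⁻ s in {s : ℝ | B < |s|}, ‖Ex1 f2 s‖ₑ ≤ ENNReal.ofReal (1 / 2 ^ (40 * m))) :
    ∫⁻ z, ‖Ex (fun ξ => f1 (dot ξ (nv t)) * f2 (dot ξ (tv t))) z‖ₑ ≤ 2 ^ a ∧
    ∫⁻ z in {z | ¬ (|dot z (nv t)| ≤ A ∧ |dot z (tv t)| ≤ B)},
      ‖Ex (fun ξ => f1 (dot ξ (nv t)) * f2 (dot ξ (tv t))) z‖ₑ ≤
      ENNReal.ofReal (1 / 2 ^ (30 * m)) := by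
  obtain ⟨g1, g2, g3, g4, g5, g6, g7⟩ := pow_facts a m h
  obtain ⟨p1, p2, p3, p4⟩ := hPRD t A B f1 f2 h1 h2 hA hB
  constructor
  · rw [p3]
    refine (mul_le_mul' e1 e2).trans ?_
    rw [← ENNReal.ofReal_mul (by positivity)]
    have : ((2 : ℝ≥0∞) ^ a) = ENNReal.ofReal (2 ^ a) := by
      rw [ENNReal.ofReal_pow (by norm_num)]
      norm_num
    rw [this]
    apply ENNReal.ofReal_le_ofReal
    nlinarith
  · refine p4.trans ?_
    refine (add_le_add (mul_le_mul' t1 e2) (mul_le_mul' e1 t2)).trans ?_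
    rw [← ENNReal.ofReal_mul (by positivity), ← ENNReal.ofReal_mul (by positivity),
      ← ENNReal.ofReal_add (by positivity) (by positivity)]
    apply ENNReal.ofReal_le_ofReal
    have k1 : (1 : ℝ) / 2 ^ (30 * m) = 2 ^ (10 * m) * (1 / 2 ^ (40 * m)) := by
      have : (2 : ℝ) ^ (40 * m) = 2 ^ (10 * m) * 2 ^ (30 * m) := by
        rw [← pow_add]; congr 1; ring
      rw [this]
      field_simp
    have k2 : (10 : ℝ) * a ≤ 2 ^ (10 * m) := by
      have hm : 1 ≤ m := by exact_mod_cast g1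
      have q1 : (m : ℝ) ≤ 2 ^ m := by
        have := (Nat.lt_two_pow_self (n := m)).le
        exact_mod_cast this
      have q2 : (2 : ℝ) ^ (10 * m) = 2 ^ m * 2 ^ (9 * m) := by rw [← pow_add]; congr 1; ring
      have q3 : (2 : ℝ) ^ 9 ≤ 2 ^ (9 * m) := pow_le_pow_right₀ (by norm_num) (by omega)
      rw [q2]
      have q4 : (10 : ℝ) ≤ 2 ^ (9 * m) := by linarith [show (10 : ℝ) ≤ 2 ^ 9 by norm_num]
      calc (10 : ℝ) * a = a * 10 := by ring
        _ ≤ 2 ^ m * 2 ^ (9 * m) := mul_le_mul (g6.trans q1) q4 (by norm_num) (by positivity)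
    rw [k1]
    have k3 : (0 : ℝ) < 1 / 2 ^ (40 * m) := by positivity
    nlinarith

/-- everything for one multiplier -/
lemma main_est (hPSI : tPSI) (hPRD : tPRD) (a m : ℕ) (sg sl : ℝ) (l0 j c p c0 : ℕ) (h : PA a m)
    (hsg : 0 ≤ sg) (hsg1 : sg < 1) (hsl : 1 ≤ sl) (hsl2 : sl < 2) (hp : p < 3 * 2 ^ j)
    (hr0 : 1 / 2 ≤ sg + c0 / 4 ^ (3 * a)) (hr1 : sg + c0 / 4 ^ (3 * a) ≤ 3)
    (A B : ℝ) (hA : 2 ^ (6 * a) * 4 ^ l0 ≤ A) (hB : 2 ^ (6 * a + j) ≤ B) :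
    ∫⁻ z, ‖Ex (fun ξ => ((psR a m sg l0 c (dot ξ (nv (tp sl j p))) *
        anf a m sg sl j p c0 ξ : ℝ) : ℂ)) z‖ₑ ≤ 2 ^ a ∧
    ∫⁻ z in {z | ¬ (|dot z (nv (tp sl j p))| ≤ A ∧ |dot z (tv (tp sl j p))| ≤ B)},
      ‖Ex (fun ξ => ((psR a m sg l0 c (dot ξ (nv (tp sl j p))) *
        anf a m sg sl j p c0 ξ : ℝ) : ℂ)) z‖ₑ ≤ ENNReal.ofReal (1 / 2 ^ (30 * m)) := by
  obtain ⟨g1, g2, g3, g4, g5, g6, g7⟩ := pow_facts a m h
  set t := tp sl j p with ht
  set C0 : ℝ := Nn t ^ 2 * 2 ^ j / (sg + c0 / 4 ^ (3 * a)) with hC0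
  set η : ℝ := 1 / 2 ^ (4 * a + 1) with hη
  have hηp : 0 < η := by positivity
  have hη1 : 2 ^ (4 * a + 1) * η = 1 := by rw [hη]; field_simp
  have hη4 : η ≤ 1 / 4 := by
    rw [hη]
    apply one_div_le_one_div_of_le (by norm_num)
    calc (4 : ℝ) = 2 ^ 2 := by norm_num
      _ ≤ 2 ^ (4 * a + 1) := pow_le_pow_right₀ (by norm_num) (by have := h.1; omega)
  have hr0p : 0 < sg + (c0 : ℝ) / 4 ^ (3 * a) := by linarith
  have hNn : Nn t ^ 2 = 1 + t ^ 2 := Real.sq_sqrt (by positivity)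
  have ht2 : t ^ 2 ≤ 4 := by
    have hp' : (p : ℝ) / 2 ^ j < 3 := by
      rw [div_lt_iff₀ (by positivity)]
      exact_mod_cast hp
    have hp'' : 0 ≤ (p : ℝ) / 2 ^ j := by positivity
    have : t = p / 2 ^ j - sl := rfl
    nlinarith
  have hC0p : 0 < C0 := by
    rw [hC0, hNn]
    positivity
  have hC0le : C0 ≤ 10 * 2 ^ j := by
    rw [hC0, div_le_iff₀ hr0p, hNn]
    have : (0 : ℝ) < 2 ^ j := by positivity
    nlinarith
  have h4l : (0 : ℝ) < 4 ^ l0 := by positivity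
  -- radial factor
  obtain ⟨r1, r2, r3⟩ := psi_est hPSI a m (sg + (c + η) / 4 ^ l0) (sg + (c + 1 - η) / 4 ^ l0)
    (η / 4 ^ l0) h (by positivity)
    (by
      have : sg + (c + 1 - η) / 4 ^ l0 - (sg + (c + η) / 4 ^ l0 + 2 * (η / 4 ^ l0)) =
        (1 - 4 * η) / 4 ^ l0 := by field_simp; ring
      have h5 : 0 ≤ (1 - 4 * η) / 4 ^ l0 := div_nonneg (by linarith) h4l.le
      linarith)
    (by
      have : sg + (c + 1 - η) / 4 ^ l0 - (sg + (c + η) / 4 ^ l0) = (1 - 2 * η) / 4 ^ l0 := by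
        field_simp; ring
      have e : 2 ^ (4 * a + 1) * (η / 4 ^ l0) = 1 / 4 ^ l0 := by rw [← mul_div_assoc, hη1]
      rw [this, e]
      gcongr
      linarith)
  -- angular factor
  obtain ⟨s1, s2, s3⟩ := psi_est hPSI a m η (1 - η) η h hηp (by linarith)
    (by rw [hη1]; linarith)
  have hdil := ex1_dil_norm' (fun ζ => (psi (40 * m) η (1 - η) η ζ : ℂ)) C0 hC0p
  have hdilB := ex1_dil_norm (fun ζ => (psi (40 * m) η (1 - η) η ζ : ℂ)) C0 B hC0p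
  have s1' : Bd1 (fun y => (psi (40 * m) η (1 - η) η (C0 * y) : ℂ)) := by
    obtain ⟨q1, ⟨b, q2⟩, ⟨R, q3⟩⟩ := s1
    refine ⟨q1.comp (measurable_const_mul C0), ⟨b, fun τ => q2 _⟩, ⟨R / C0, fun τ hτ => ?_⟩⟩
    have := q3 _ hτ
    rw [abs_mul, abs_of_pos hC0p] at this
    rw [le_div_iff₀ hC0p]
    linarith
  have h7 : (40 : ℝ) * m / η ≤ 2 ^ (6 * a) / 10 := by
    have e0 : (40 : ℝ) * m / η = 80 * m * 2 ^ (4 * a) := by
      rw [hη, pow_succ]; field_simp; ring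
    have e3 : (2 : ℝ) ^ (6 * a) = 2 ^ a * 2 ^ a * 2 ^ (4 * a) := by
      rw [← pow_add, ← pow_add]; congr 1; ring
    rw [e0, e3]
    have e5 : (800 : ℝ) * m ≤ 2 ^ a * 2 ^ a := mul_le_mul g4 g2 (by positivity) (by positivity)
    have e6 : (0 : ℝ) < 2 ^ (4 * a) := by positivity
    nlinarith
  have hApos : 0 < A := lt_of_lt_of_le (by positivity) hA
  have hBpos : 0 < B := lt_of_lt_of_le (by positivity) hB
  have key := frame_est hPRD a m t A B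
    (fun ζ => (psi (40 * m) (sg + (c + η) / 4 ^ l0) (sg + (c + 1 - η) / 4 ^ l0)
      (η / 4 ^ l0) ζ : ℂ))
    (fun y => (psi (40 * m) η (1 - η) η (C0 * y) : ℂ)) h r1 s1' hApos hBpos r2
    (by rw [hdil]; exact s2)
    (r3 A (by
      refine le_trans ?_ hA
      rw [div_div_eq_mul_div, mul_div_right_comm]
      gcongr
      refine h7.trans ?_
      have : (0 : ℝ) < 2 ^ (6 * a) := by positivity
      linarith))
    (by
      rw [hdilB]
      apply s3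
      refine h7.trans ?_
      rw [div_le_div_iff₀ (by norm_num) hC0p]
      calc (2 : ℝ) ^ (6 * a) * C0 ≤ 2 ^ (6 * a) * (10 * 2 ^ j) := by gcongr
        _ = 2 ^ (6 * a + j) * 10 := by rw [pow_add]; ring
        _ ≤ B * 10 := by gcongr)
  have hfun : (fun ξ : ℝ × ℝ => ((psR a m sg l0 c (dot ξ (nv t)) *
      anf a m sg sl j p c0 ξ : ℝ) : ℂ)) = fun ξ =>
      (fun ζ => (psi (40 * m) (sg + (c + η) / 4 ^ l0) (sg + (c + 1 - η) / 4 ^ l0)
      (η / 4 ^ l0) ζ : ℂ)) (dot ξ (nv t)) *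
      (fun y => (psi (40 * m) η (1 - η) η (C0 * y) : ℂ)) (dot ξ (tv t)) := by
    funext ξ
    simp only [psR, anf, psA]
    push_cast
    rfl
  rw [hfun]
  exact key

end MUK_

theorem pMUK (hPSI : tPSI) (hPRD : tPRD) : tMUK := by
  intro a m sg sl l j c p h hsg hsg1 hsl hsl2 hl hlm hj hjm hc hcr hp
  obtain ⟨g1, g2, g3, g4, g5, g6, g7⟩ := MUK_.pow_facts a m h
  have ha : 20 ≤ a := h.1
  set c0 : ℕ := c / 4 ^ (l - 3 * a) with hc0
  have h4 : (0 : ℝ) < 4 ^ (3 * a) := by positivity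
  have hsplit : (4 : ℝ) ^ l = 4 ^ (l - 3 * a) * 4 ^ (3 * a) := by
    rw [← pow_add]; congr 1; omega
  have hc0le : (c0 : ℝ) / 4 ^ (3 * a) ≤ c / 4 ^ l := by
    rw [hsplit, div_le_div_iff₀ h4 (by positivity)]
    have : c0 * 4 ^ (l - 3 * a) ≤ c := Nat.div_mul_le_self _ _
    have h' : (c0 : ℝ) * 4 ^ (l - 3 * a) ≤ c := by exact_mod_cast this
    nlinarith
  have hc0ge : ((c : ℝ) + 1) / 4 ^ l ≤ (c0 + 1) / 4 ^ (3 * a) := by
    rw [hsplit, div_le_div_iff₀ (by positivity) h4]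
    have : c < (c0 + 1) * 4 ^ (l - 3 * a) := by
      rw [add_mul, one_mul]
      exact Nat.lt_div_mul_add (by positivity)
    have h' : (c : ℝ) + 1 ≤ (c0 + 1) * 4 ^ (l - 3 * a) := by exact_mod_cast this
    nlinarith
  have hr1 : sg + (c0 : ℝ) / 4 ^ (3 * a) ≤ 3 := by
    have : (c : ℝ) / 4 ^ l < 2 := by
      rw [div_lt_iff₀ (by positivity)]
      exact_mod_cast hc
    linarith
  have hr0 : 1 / 2 ≤ sg + (c0 : ℝ) / 4 ^ (3 * a) := by
    have h2 : (1 : ℝ) / 4 ^ (3 * a) ≤ 1 / 2 := by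
      apply one_div_le_one_div_of_le (by norm_num)
      calc (2 : ℝ) ≤ 4 ^ 1 := by norm_num
        _ ≤ 4 ^ (3 * a) := pow_le_pow_right₀ (by norm_num) (by omega)
    have h3 : ((c0 : ℝ) + 1) / 4 ^ (3 * a) = c0 / 4 ^ (3 * a) + 1 / 4 ^ (3 * a) := by ring
    linarith
  obtain ⟨m1, m2⟩ := MUK_.main_est hPSI hPRD a m sg sl l j c p c0 h hsg hsg1 hsl hsl2 hp hr0 hr1
    (4 ^ l * 2 ^ (6 * a)) (2 ^ (6 * a + j)) (by rw [mul_comm]) le_rfl
  obtain ⟨n1, n2⟩ := MUK_.main_est hPSI hPRD a m sg sl (3 * a) j c0 p c0 h hsg hsg1 hsl hsl2 hp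
    hr0 hr1 (2 ^ (6 * a + j)) (2 ^ (6 * a + j))
    (by
      have : (4 : ℝ) ^ (3 * a) = 2 ^ (6 * a) := by
        rw [show (4 : ℝ) = 2 ^ 2 by norm_num, ← pow_mul]; congr 1; ring
      rw [this, ← pow_add]
      exact pow_le_pow_right₀ (by norm_num) (by omega)) le_rfl
  refine ⟨m1, m2, n1, le_trans (lintegral_mono_set ?_) n2⟩
  intro z hz
  simp only [mem_ofPred_eq] at hz ⊢
  intro hcon
  apply hz
  set t := tp sl j p
  have hN : 0 < Nn t := Real.sqrt_pos.2 (by positivity)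
  have hN2 : Nn t ^ 2 = 1 + t ^ 2 := Real.sq_sqrt (by positivity)
  have hNge : 1 ≤ Nn t := by nlinarith [sq_nonneg t]
  have hNt : |t| ≤ Nn t := by
    apply abs_le_of_sq_le_sq _ hN.le
    nlinarith
  set u := dot z (nv t) with hu
  set v := dot z (tv t) with hv
  have hu' : u * Nn t = z.1 + z.2 * t := by
    rw [hu]
    simp only [Pool.Agent.KSP.dot, nv]
    field_simp
  have hv' : v * Nn t = -z.1 * t + z.2 := by
    rw [hv]
    simp only [Pool.Agent.KSP.dot, tv]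
    field_simp
  have z1 : z.1 = (u - t * v) / Nn t := by
    rw [eq_div_iff hN.ne']
    have : z.1 * Nn t * Nn t = (u - t * v) * Nn t := by
      have e1 : z.1 * Nn t * Nn t = z.1 * (1 + t ^ 2) := by rw [← hN2]; ring
      have e2 : (u - t * v) * Nn t = u * Nn t - t * (v * Nn t) := by ring
      rw [e1, e2, hu', hv']
      ring
    exact mul_right_cancel₀ hN.ne' this
  have z2 : z.2 = (t * u + v) / Nn t := by
    rw [eq_div_iff hN.ne']
    have : z.2 * Nn t * Nn t = (t * u + v) * Nn t := by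
      have e1 : z.2 * Nn t * Nn t = z.2 * (1 + t ^ 2) := by rw [← hN2]; ring
      have e2 : (t * u + v) * Nn t = t * (u * Nn t) + v * Nn t := by ring
      rw [e1, e2, hu', hv']
      ring
    exact mul_right_cancel₀ hN.ne' this
  have hpow : (2 : ℝ) ^ (6 * a + j + 1) = 2 * 2 ^ (6 * a + j) := by rw [pow_succ]; ring
  rw [hpow]
  set P : ℝ := 2 ^ (6 * a + j)
  have hPp : 0 < P := by positivity
  constructor
  · rw [z1, abs_div, abs_of_pos hN, div_le_iff₀ hN]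
    have e1 : |u - t * v| ≤ |u| + |t| * |v| := by
      calc |u - t * v| ≤ |u| + |t * v| := abs_sub _ _
        _ = _ := by rw [abs_mul]
    have e2 : |t| * |v| ≤ Nn t * P := mul_le_mul hNt hcon.2 (abs_nonneg _) hN.le
    nlinarith [hcon.1]
  · rw [z2, abs_div, abs_of_pos hN, div_le_iff₀ hN]
    have e1 : |t * u + v| ≤ |t| * |u| + |v| := by
      calc |t * u + v| ≤ |t * u| + |v| := abs_add_le _ _
        _ = _ := by rw [abs_mul]
    have e2 : |t| * |u| ≤ Nn t * P := mul_le_mul hNt hcon.1 (abs_nonneg _) hN.le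
    nlinarith [hcon.2]

end Pool.Agent.LLog
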