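import Pool.Agent.LLog.Targets
import Pool.Agent.KSP.Base
import Pool.Agent.KSP.Conv

set_option autoImplicit false

/-! Orthogonality of sectors with a band-limited weight. -/

namespace Pool.Agent.LLog

open MeasureTheory Set
open scoped ENNReal NNReal ComplexConjugate
open Pool.Agent.KSP (ee dot nr Ex Ex1 Bd Bd1 n1 n2 lg V0 ann cv pCv pPo2)

namespace SEC_

lemma fr_core {e X : ℝ} {p : ℕ} (h1 : (p : ℝ) ≤ X) (h2 : X < p + 1) (h : fr e X) :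
    (p : ℝ) + e ≤ X ∧ X ≤ p + 1 - e := by
  have hf : ⌊X⌋ = (p : ℤ) := by
    rw [Int.floor_eq_iff]
    exact ⟨by push_cast; exact h1, by push_cast; exact h2⟩
  have hfr : Int.fract X = X - p := by
    rw [Int.fract, hf]
    push_cast
    ring
  obtain ⟨ha, hb⟩ := h
  rw [hfr] at ha hb
  exact ⟨by linarith, by linarith⟩

lemma V0_half {ζ : ℝ × ℝ} (h : ζ ∈ V0) : 1 / 2 ≤ ζ.1 := by
  obtain ⟨h1, h2, _⟩ := h
  have h0 : 0 ≤ ζ.1 := (abs_nonneg _).trans h1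
  have h3 : 1 ≤ ζ.1 ^ 2 + ζ.2 ^ 2 := by
    by_contra hc
    push Not at hc
    have : nr ζ < 1 := by
      rw [nr]
      calc √(ζ.1 ^ 2 + ζ.2 ^ 2) < √1 := Real.sqrt_lt_sqrt (by positivity) hc
        _ = 1 := Real.sqrt_one
    linarith
  have h4 : ζ.2 ^ 2 ≤ ζ.1 ^ 2 := by
    rw [← sq_abs ζ.2]
    exact pow_le_pow_left₀ (abs_nonneg _) h1 2
  nlinarith

lemma slope {e : ℝ} {j : ℕ} {ξ ζ η : ℝ × ℝ} (he : 0 < e) (hξ : ξ ∈ V0) (hζ : ζ ∈ V0)
    (hs : ζ = ξ + η) (h1 : |η.1| ≤ e / 2 ^ j / 2) (h2 : |η.2| ≤ e / 2 ^ j / 2) :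
    |(2 : ℝ) ^ j * (ξ.2 / ξ.1) - 2 ^ j * (ζ.2 / ζ.1)| ≤ 2 * e := by
  have a1 := V0_half hξ
  have a2 := V0_half hζ
  have hξ2 : |ξ.2| ≤ ξ.1 := hξ.1
  have hp : (0 : ℝ) < 2 ^ j := by positivity
  have e1 : ζ.1 = ξ.1 + η.1 := by rw [hs]; rfl
  have e2 : ζ.2 = ξ.2 + η.2 := by rw [hs]; rfl
  have hx : (0 : ℝ) < ξ.1 := by linarith
  have hz : (0 : ℝ) < ζ.1 := by linarith
  have key : (2 : ℝ) ^ j * (ξ.2 / ξ.1) - 2 ^ j * (ζ.2 / ζ.1) =
      2 ^ j * (ξ.2 * η.1 - η.2 * ξ.1) / (ξ.1 * ζ.1) := by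
    have hx' := hx.ne'
    have hz' := hz.ne'
    field_simp
    rw [e1, e2]
    ring
  rw [key, abs_div, abs_mul, abs_of_pos hp, abs_of_pos (mul_pos hx hz), div_le_iff₀ (mul_pos hx hz)]
  have h3 : |ξ.2 * η.1 - η.2 * ξ.1| ≤ ξ.1 * (e / 2 ^ j) := by
    calc |ξ.2 * η.1 - η.2 * ξ.1| ≤ |ξ.2 * η.1| + |η.2 * ξ.1| := abs_sub _ _
      _ = |ξ.2| * |η.1| + |η.2| * ξ.1 := by rw [abs_mul, abs_mul, abs_of_pos hx]
      _ ≤ ξ.1 * (e / 2 ^ j / 2) + (e / 2 ^ j / 2) * ξ.1 := by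
          have hb : 0 ≤ |η.1| := abs_nonneg _
          gcongr
      _ = ξ.1 * (e / 2 ^ j) := by ring
  calc (2 : ℝ) ^ j * |ξ.2 * η.1 - η.2 * ξ.1| ≤ 2 ^ j * (ξ.1 * (e / 2 ^ j)) := by gcongr
    _ = e * ξ.1 := by field_simp
    _ ≤ 2 * e * (ξ.1 * ζ.1) := by
        have : e * ξ.1 * 1 ≤ e * ξ.1 * (2 * ζ.1) :=
          mul_le_mul_of_nonneg_left (by linarith) (by positivity)
        linarith

lemma same {a j p p' : ℕ} {sl : ℝ} {ξ ζ η : ℝ × ℝ} (hξ : ξ ∈ V0) (hζ : ζ ∈ V0)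
    (hs : ζ = ξ + η) (h1 : |η.1| ≤ 1 / 2 ^ (4 * a + j) / 2) (h2 : |η.2| ≤ 1 / 2 ^ (4 * a + j) / 2)
    (c1 : cp sl j p ξ) (c2 : cp sl j p' ζ) (f1 : fr (2 / 2 ^ (4 * a)) (2 ^ j * (ξ.2 / ξ.1 + sl)))
    (f2 : fr (2 / 2 ^ (4 * a)) (2 ^ j * (ζ.2 / ζ.1 + sl))) : p = p' := by
  have hb : (1 : ℝ) / 2 ^ (4 * a + j) = (1 / 2 ^ (4 * a)) / 2 ^ j := by
    rw [pow_add, div_div]
  rw [hb] at h1 h2
  have he : (0 : ℝ) < 1 / 2 ^ (4 * a) := by positivity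
  have hsl := slope (j := j) he hξ hζ hs h1 h2
  obtain ⟨g1, g2⟩ := fr_core c1.2.1 c1.2.2 f1
  obtain ⟨g3, g4⟩ := fr_core c2.2.1 c2.2.2 f2
  have h22 : (2 : ℝ) / 2 ^ (4 * a) = 2 * (1 / 2 ^ (4 * a)) := by ring
  rw [h22] at g1 g2 g3 g4
  rw [abs_le] at hsl
  obtain ⟨s1, s2⟩ := hsl
  by_contra hne
  rcases lt_or_gt_of_ne hne with hlt | hlt
  · have : (p : ℝ) + 1 ≤ p' := by exact_mod_cast hlt
    nlinarith
  · have : (p' : ℝ) + 1 ≤ p := by exact_mod_cast hlt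
    nlinarith

/-- passage to integrals -/
lemma lint_eq {G : ℝ × ℝ → ℝ≥0∞} {F : ℝ × ℝ → ℂ} (hG : ∀ x, G x ≤ 1)
    (hi : Integrable fun x => (G x).toReal * ‖F x‖ ^ 2) :
    ∫⁻ x, G x * ‖F x‖ₑ ^ 2 = ENNReal.ofReal (∫ x, (G x).toReal * ‖F x‖ ^ 2) := by
  rw [ofReal_integral_eq_lintegral_ofReal hi (Filter.Eventually.of_forall fun x => by positivity)]
  refine lintegral_congr fun x => ?_
  have hGt : G x ≠ ⊤ := ne_top_of_le_ne_top ENNReal.one_ne_top (hG x)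
  rw [ENNReal.ofReal_mul ENNReal.toReal_nonneg, ENNReal.ofReal_toReal hGt,
    ENNReal.ofReal_pow (norm_nonneg _), ofReal_norm]

end SEC_

open SEC_ in
theorem pSEC (h : tGK) : tSEC := by
  intro a m j n sl Y u ha hY hv hu
  obtain ⟨_, hG1, _, _, hg⟩ := h a m j Y ha hY
  obtain ⟨g, hgb, hgs, hge⟩ := hg hv
  set G : ℝ × ℝ → ℝ := fun x => (GK a m j Y x).toReal with hGdef
  -- the product functions
  set P : ℕ → ℕ → ℝ × ℝ → ℂ := fun p p' x => (G x : ℂ) * Ex (u p) x * conj (Ex (u p') x) with hP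
  have hPe : ∀ p p', P p p' = fun x => Ex (cv g (u p)) x * conj (Ex (u p') x) := by
    intro p p'
    funext x
    simp only [hP]
    rw [(pCv g (u p) hgb (hu p).1).2.2 x, hge x]
  have hPi : ∀ p p', Integrable (P p p') := by
    intro p p'
    rw [hPe]
    exact (pPo2 _ _ (pCv g (u p) hgb (hu p).1).1 (hu p').1).1
  have hPz : ∀ p p', p ≠ p' → ∫ x, P p p' x = 0 := by
    intro p p' hne
    rw [hPe]
    have e1 := (pPo2 _ _ (pCv g (u p) hgb (hu p).1).1 (hu p').1).2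
    rw [e1]
    have e0 : (fun ξ => cv g (u p) ξ * conj (u p' ξ)) = fun _ => 0 := by
      funext ζ
      by_contra hc
      have hc1 : cv g (u p) ζ ≠ 0 := fun h0 => hc (by rw [h0, zero_mul])
      have hc2 : u p' ζ ≠ 0 := fun h0 => hc (by rw [h0, map_zero, mul_zero])
      obtain ⟨η, hη, hη'⟩ := (pCv g (u p) hgb (hu p).1).2.1 ζ hc1
      obtain ⟨v1, c1, f1⟩ := (hu p).2 _ hη'
      obtain ⟨v2, c2, f2⟩ := (hu p').2 _ hc2
      obtain ⟨b1, b2⟩ := hgs η hη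
      exact hne (same (ξ := ζ - η) (ζ := ζ) (η := η) v1 v2 (by abel) b1 b2 c1 c2 f1 f2)
    rw [e0, integral_zero]
  -- the diagonal
  have hdiag : ∀ p x, P p p x = ((G x * ‖Ex (u p) x‖ ^ 2 : ℝ) : ℂ) := by
    intro p x
    simp only [hP]
    rw [mul_assoc, Complex.mul_conj, Complex.normSq_eq_norm_sq]
    push_cast
    rfl
  have hsum : ∀ x, ((G x * ‖∑ p ∈ Finset.range n, Ex (u p) x‖ ^ 2 : ℝ) : ℂ) =
      ∑ p ∈ Finset.range n, ∑ p' ∈ Finset.range n, P p p' x := by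
    intro x
    have e1 : ((‖∑ p ∈ Finset.range n, Ex (u p) x‖ ^ 2 : ℝ) : ℂ) =
        (∑ p ∈ Finset.range n, Ex (u p) x) * conj (∑ p ∈ Finset.range n, Ex (u p) x) := by
      rw [Complex.mul_conj, Complex.normSq_eq_norm_sq]
    rw [Complex.ofReal_mul, e1, map_sum, Finset.sum_mul_sum, Finset.mul_sum]
    refine Finset.sum_congr rfl fun p _ => ?_
    rw [Finset.mul_sum]
    refine Finset.sum_congr rfl fun p' _ => ?_
    simp only [hP]
    ring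
  have hcR : ∀ (f : ℝ × ℝ → ℝ), Integrable (fun x => (f x : ℂ)) → Integrable f := by
    intro f hf
    exact hf.re
  have hdi : ∀ p, Integrable fun x => G x * ‖Ex (u p) x‖ ^ 2 := by
    intro p
    refine hcR _ ?_
    have : (fun x => ((G x * ‖Ex (u p) x‖ ^ 2 : ℝ) : ℂ)) = P p p := by
      funext x
      exact (hdiag p x).symm
    rw [this]
    exact hPi p p
  have hsi : Integrable fun x => G x * ‖∑ p ∈ Finset.range n, Ex (u p) x‖ ^ 2 := by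
    refine hcR _ ?_
    simp only [hsum]
    exact integrable_finsetSum _ fun p _ => integrable_finsetSum _ fun p' _ => hPi p p'
  have hval : ∫ x, G x * ‖∑ p ∈ Finset.range n, Ex (u p) x‖ ^ 2 =
      ∑ p ∈ Finset.range n, ∫ x, G x * ‖Ex (u p) x‖ ^ 2 := by
    have : ((∫ x, G x * ‖∑ p ∈ Finset.range n, Ex (u p) x‖ ^ 2 : ℝ) : ℂ) =
        ((∑ p ∈ Finset.range n, ∫ x, G x * ‖Ex (u p) x‖ ^ 2 : ℝ) : ℂ) := by
      rw [← integral_complex_ofReal, Complex.ofReal_sum]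
      simp only [hsum]
      rw [integral_finsetSum _ fun p _ => integrable_finsetSum _ fun p' _ => hPi p p']
      refine Finset.sum_congr rfl fun p hp => ?_
      rw [integral_finsetSum _ fun p' _ => hPi p p', Finset.sum_eq_single p]
      · rw [← integral_complex_ofReal]
        exact integral_congr_ae (Filter.Eventually.of_forall fun x => hdiag p x)
      · intro p' _ hne
        exact hPz p p' (Ne.symm hne)
      · intro hc
        exact absurd hp hc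
    exact_mod_cast this
  rw [lint_eq hG1 hsi, hval,
    ENNReal.ofReal_sum_of_nonneg fun p _ => integral_nonneg fun x => by positivity]
  refine le_of_eq (Finset.sum_congr rfl fun p _ => ?_)
  rw [lint_eq hG1 (hdi p)]

end Pool.Agent.LLog
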