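import Pool.Agent.LLog.Targets
import Pool.Agent.LLog.HAT
import Pool.Agent.KSP.Base

set_option autoImplicit false

/-! LLG-DUA: the duality argument. -/

namespace Pool.Agent.LLog

open MeasureTheory Set
open scoped ENNReal NNReal ComplexConjugate
open Pool.Agent.KSP (ee dot nr Ex Ex1 Bd Bd1 n1 n2 lg V0 ann pPl2)
open Pool.Agent.KSP.Base_

namespace DUA_

/-- the Hilbert space of the plane -/
abbrev HH : Type := Lp ℂ 2 (volume : Measure (ℝ × ℝ))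

/-- the class of a function -/
noncomputable def J (a : ℝ × ℝ → ℂ) : HH := open Classical in
  if h : MemLp a 2 (volume : Measure (ℝ × ℝ)) then h.toLp a else 0

lemma J_of {a : ℝ × ℝ → ℂ} (ha : MemLp a 2) : J a = ha.toLp a := by
  simp only [J, ha, dif_pos]

lemma J_add {a b : ℝ × ℝ → ℂ} (ha : MemLp a 2) (hb : MemLp b 2) :
    J (fun x => a x + b x) = J a + J b := by
  have hab : MemLp (fun x => a x + b x) 2 (volume : Measure (ℝ × ℝ)) := ha.add hb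
  rw [J_of ha, J_of hb, J_of hab]
  exact MemLp.toLp_add ha hb

lemma J_sum {ι : Type*} (s : Finset ι) (a : ι → ℝ × ℝ → ℂ) (ha : ∀ i ∈ s, MemLp (a i) 2) :
    MemLp (fun x => ∑ i ∈ s, a i x) 2 (volume : Measure (ℝ × ℝ)) ∧
      J (fun x => ∑ i ∈ s, a i x) = ∑ i ∈ s, J (a i) := by
  classical
  induction s using Finset.induction_on with
  | empty =>
    have h0 : MemLp (fun _ : ℝ × ℝ => (0 : ℂ)) 2 (volume : Measure (ℝ × ℝ)) := MemLp.zero'
    refine ⟨by simp, ?_⟩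
    simp only [Finset.sum_empty]
    rw [J_of h0]
    exact MemLp.toLp_zero h0
  | insert i s hi ih =>
    obtain ⟨h1, h2⟩ := ih fun j hj => ha j (Finset.mem_insert_of_mem hj)
    have h3 := ha i (Finset.mem_insert_self i s)
    simp only [Finset.sum_insert hi]
    refine ⟨h3.add h1, ?_⟩
    rw [J_add h3 h1, h2]

lemma J_inner {a b : ℝ × ℝ → ℂ} (ha : MemLp a 2) (hb : MemLp b 2) :
    inner ℂ (J b) (J a) = ∫ x, a x * conj (b x) := by
  rw [J_of ha, J_of hb, L2.inner_def]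
  refine integral_congr_ae ?_
  filter_upwards [ha.coeFn_toLp, hb.coeFn_toLp] with x h1 h2
  rw [h1, h2, RCLike.inner_apply]

lemma J_norm {a : ℝ × ℝ → ℂ} (ha : MemLp a 2) :
    ∫⁻ x, ‖a x‖ₑ ^ 2 = ENNReal.ofReal (‖J a‖ ^ 2) := by
  have h1 : ∫⁻ x, ‖a x‖ₑ ^ 2 = eLpNorm a 2 (volume : Measure (ℝ × ℝ)) ^ 2 := by
    rw [eLpNorm_eq_lintegral_rpow_enorm_toReal (by norm_num) (by norm_num)]
    simp only [ENNReal.toReal_ofNat, ENNReal.rpow_ofNat]
    rw [← ENNReal.rpow_natCast, ← ENNReal.rpow_mul]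
    norm_num
  rw [J_of ha, Lp.norm_toLp, ← ENNReal.toReal_pow, ENNReal.ofReal_toReal, h1]
  exact ENNReal.pow_ne_top ha.eLpNorm_ne_top

lemma sq_enorm (w : ℝ) (hw : 0 ≤ w) (z : ℂ) :
    ‖((√w : ℝ) : ℂ) * z‖ₑ ^ 2 = ENNReal.ofReal w * ‖z‖ₑ ^ 2 := by
  rw [enorm_mul, mul_pow]
  congr 1
  rw [← ofReal_norm, Complex.norm_real, Real.norm_eq_abs, abs_of_nonneg (Real.sqrt_nonneg w),
    ← ENNReal.ofReal_pow (Real.sqrt_nonneg w), Real.sq_sqrt hw]

lemma bd_mul {a b : ℝ × ℝ → ℂ} (ha : Bd a) (hb : Bd b) : Bd (fun ξ => a ξ * b ξ) := by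
  obtain ⟨h1, ⟨B, hB⟩, -⟩ := ha
  obtain ⟨h3, ⟨B', hB'⟩, R, hR⟩ := hb
  refine ⟨h1.mul h3, ⟨B * B', fun ξ => ?_⟩, R, fun ξ hξ => hR ξ fun h => hξ (by simp [h])⟩
  rw [norm_mul]
  exact mul_le_mul (hB ξ) (hB' ξ) (norm_nonneg _) ((norm_nonneg _).trans (hB ξ))

lemma bd_sum {ι : Type*} (s : Finset ι) (a : ι → ℝ × ℝ → ℂ) (ha : ∀ i ∈ s, Bd (a i)) :
    Bd (fun x => ∑ i ∈ s, a i x) := by
  classical
  induction s using Finset.induction_on with
  | empty =>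
    refine ⟨by simp, ⟨0, by simp⟩, 0, by simp⟩
  | insert i s hi ih =>
    obtain ⟨h1, ⟨B, hB⟩, R, hR⟩ := ih fun j hj => ha j (Finset.mem_insert_of_mem hj)
    obtain ⟨h1', ⟨B', hB'⟩, R', hR'⟩ := ha i (Finset.mem_insert_self i s)
    simp only [Finset.sum_insert hi]
    refine ⟨h1'.add h1, ⟨B' + B, fun ξ => (norm_add_le _ _).trans (add_le_add (hB' ξ) (hB ξ))⟩,
      max R' R, fun ξ hξ => ?_⟩
    have hξ' : a i ξ + ∑ j ∈ s, a j ξ ≠ 0 := hξ
    by_cases h : a i ξ = 0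
    · rw [h, zero_add] at hξ'
      exact ⟨(hR ξ hξ').1.trans (le_max_right _ _), (hR ξ hξ').2.trans (le_max_right _ _)⟩
    · exact ⟨(hR' ξ h).1.trans (le_max_left _ _), (hR' ξ h).2.trans (le_max_left _ _)⟩

lemma Ex_bound {k : ℝ × ℝ → ℂ} (x : ℝ × ℝ) : ‖Ex k x‖ ≤ ∫ ξ, ‖k ξ‖ := by
  refine (norm_integral_le_integral_norm _).trans_eq ?_
  congr 1
  funext ξ
  rw [norm_mul, HAT_.norm_ee, mul_one]

/-- bounded continuous functions times weights -/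
lemma memLp_w {w : ℝ × ℝ → ℝ} (hw : Measurable w) (_hw0 : ∀ x, 0 ≤ w x) (hw1 : ∀ x, w x ≤ 1)
    (hv : volume {x | w x ≠ 0} < ⊤) {E : ℝ × ℝ → ℂ} (hE : Continuous E) {B : ℝ}
    (hB : ∀ x, ‖E x‖ ≤ B) : MemLp (fun x => ((√(w x) : ℝ) : ℂ) * E x) 2 := by
  refine memLp_of (B := B) (S := {x | w x ≠ 0}) ?_ (fun x => ?_)
    (hw (measurableSet_singleton (0 : ℝ)).compl) hv (fun x hx => ?_) 2
  · exact (Complex.measurable_ofReal.comp hw.sqrt).mul hE.measurable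
  · rw [norm_mul, Complex.norm_real, Real.norm_eq_abs, abs_of_nonneg (Real.sqrt_nonneg _)]
    have h1 : √(w x) ≤ 1 := Real.sqrt_le_one.mpr (hw1 x)
    calc √(w x) * ‖E x‖ ≤ 1 * ‖E x‖ := mul_le_mul_of_nonneg_right h1 (norm_nonneg _)
      _ ≤ B := by rw [one_mul]; exact hB x
  · have : w x = 0 := by
      by_contra h
      exact hx h
    simp [this]

lemma bf_w {w : ℝ × ℝ → ℝ} (hw : Measurable w) (hw0 : ∀ x, 0 ≤ w x) (hw1 : ∀ x, w x ≤ 1)
    (hv : volume {x | w x ≠ 0} < ⊤) {E : ℝ × ℝ → ℂ} (hE : Continuous E) {B : ℝ}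
    (hB : ∀ x, ‖E x‖ ≤ B) : Bf (fun x => (w x : ℂ) * E x) := by
  refine ⟨(Complex.measurable_ofReal.comp hw).mul hE.measurable, ⟨B, fun x => ?_⟩, ?_⟩
  · rw [norm_mul, Complex.norm_real, Real.norm_eq_abs, abs_of_nonneg (hw0 x)]
    calc w x * ‖E x‖ ≤ 1 * ‖E x‖ := mul_le_mul_of_nonneg_right (hw1 x) (norm_nonneg _)
      _ ≤ B := by rw [one_mul]; exact hB x
  · refine lt_of_le_of_lt (measure_mono fun x hx => ?_) hv
    intro h
    apply hx
    simp [h]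

/-- the quadratic expansion in a Hilbert space -/
lemma expand {ι κ : Type} [DecidableEq ι] [DecidableEq κ] (I : Finset ι) (V : Finset κ)
    (x : ι → κ → HH) (η : ℝ) (hη : 0 ≤ η)
    (h : ∀ i ∈ I, ∀ j ∈ I, ∀ v ∈ V, ∀ v' ∈ V, i ≠ j → v ≠ v' → ‖inner ℂ (x i v) (x j v')‖ ≤ η) :
    ‖∑ i ∈ I, ∑ v ∈ V, x i v‖ ^ 2 ≤ ∑ i ∈ I, ‖∑ v ∈ V, x i v‖ ^ 2 +
      ∑ v ∈ V, ‖∑ i ∈ I, x i v‖ ^ 2 + (I.card * V.card) ^ 2 * η := by
  set c : ι → ι → κ → κ → ℝ := fun i j v v' => (inner ℂ (x i v) (x j v') : ℂ).re with hc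
  have e1 : ‖∑ i ∈ I, ∑ v ∈ V, x i v‖ ^ 2 = ∑ i ∈ I, ∑ j ∈ I, ∑ v ∈ V, ∑ v' ∈ V, c i j v v' := by
    rw [← inner_self_eq_norm_sq (𝕜 := ℂ), sum_inner]
    simp only [inner_sum, sum_inner, RCLike.re_to_complex, Complex.re_sum, hc]
    refine Finset.sum_congr rfl fun i _ => Finset.sum_congr rfl fun j _ => ?_
    rw [Finset.sum_comm]
  have e2 : ∑ i ∈ I, ‖∑ v ∈ V, x i v‖ ^ 2 =
      ∑ i ∈ I, ∑ j ∈ I, ∑ v ∈ V, ∑ v' ∈ V, if i = j then c i j v v' else 0 := by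
    refine Finset.sum_congr rfl fun i hi => ?_
    rw [Finset.sum_eq_single i]
    · rw [← inner_self_eq_norm_sq (𝕜 := ℂ), sum_inner]
      simp only [inner_sum, RCLike.re_to_complex, Complex.re_sum, hc, if_true]
    · intro j _ hj
      simp [Ne.symm hj]
    · intro h'
      exact absurd hi h'
  have e3 : ∑ v ∈ V, ‖∑ i ∈ I, x i v‖ ^ 2 =
      ∑ i ∈ I, ∑ j ∈ I, ∑ v ∈ V, ∑ v' ∈ V, if v = v' then c i j v v' else 0 := by
    have : ∀ i j, ∑ v ∈ V, ∑ v' ∈ V, (if v = v' then c i j v v' else 0) =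
        ∑ v ∈ V, c i j v v := by
      intro i j
      refine Finset.sum_congr rfl fun v hv => ?_
      rw [Finset.sum_ite_eq, if_pos hv]
    simp only [this]
    have h2 : ∀ v ∈ V, ‖∑ i ∈ I, x i v‖ ^ 2 = ∑ i ∈ I, ∑ j ∈ I, c i j v v := by
      intro v _
      rw [← inner_self_eq_norm_sq (𝕜 := ℂ), sum_inner]
      simp only [inner_sum, RCLike.re_to_complex, Complex.re_sum, hc]
    rw [Finset.sum_congr rfl h2, Finset.sum_comm]
    refine Finset.sum_congr rfl fun i _ => ?_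
    rw [Finset.sum_comm]
  have e4 : 0 ≤ ∑ i ∈ I, ∑ j ∈ I, ∑ v ∈ V, ∑ v' ∈ V, if i = j ∧ v = v' then c i j v v' else 0 := by
    refine Finset.sum_nonneg fun i _ => Finset.sum_nonneg fun j _ => Finset.sum_nonneg fun v _ =>
      Finset.sum_nonneg fun v' _ => ?_
    by_cases h' : i = j ∧ v = v'
    · rw [if_pos h']
      obtain ⟨rfl, rfl⟩ := h'
      have := inner_self_nonneg (𝕜 := ℂ) (x := x i v)
      simpa [hc] using this
    · rw [if_neg h']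
  have e5 : ∑ i ∈ I, ∑ j ∈ I, ∑ v ∈ V, ∑ v' ∈ V, (if i ≠ j ∧ v ≠ v' then c i j v v' else 0) ≤
      (I.card * V.card) ^ 2 * η := by
    calc _ ≤ ∑ i ∈ I, ∑ j ∈ I, ∑ v ∈ V, ∑ v' ∈ V, η := by
          refine Finset.sum_le_sum fun i hi => Finset.sum_le_sum fun j hj =>
            Finset.sum_le_sum fun v hv => Finset.sum_le_sum fun v' hv' => ?_
          by_cases h' : i ≠ j ∧ v ≠ v'
          · rw [if_pos h']
            exact ((Complex.re_le_norm _)).trans (h i hi j hj v hv v' hv' h'.1 h'.2)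
          · rw [if_neg h']
            exact hη
      _ = _ := by
          simp only [Finset.sum_const, nsmul_eq_mul]
          ring
  have e6 : ∑ i ∈ I, ∑ j ∈ I, ∑ v ∈ V, ∑ v' ∈ V, c i j v v' =
      (∑ i ∈ I, ∑ j ∈ I, ∑ v ∈ V, ∑ v' ∈ V, if i = j then c i j v v' else 0) +
      (∑ i ∈ I, ∑ j ∈ I, ∑ v ∈ V, ∑ v' ∈ V, if v = v' then c i j v v' else 0) -
      (∑ i ∈ I, ∑ j ∈ I, ∑ v ∈ V, ∑ v' ∈ V, if i = j ∧ v = v' then c i j v v' else 0) +
      ∑ i ∈ I, ∑ j ∈ I, ∑ v ∈ V, ∑ v' ∈ V, (if i ≠ j ∧ v ≠ v' then c i j v v' else 0) := by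
    simp only [← Finset.sum_add_distrib, ← Finset.sum_sub_distrib]
    refine Finset.sum_congr rfl fun i _ => Finset.sum_congr rfl fun j _ =>
      Finset.sum_congr rfl fun v _ => Finset.sum_congr rfl fun v' _ => ?_
    by_cases h1 : i = j <;> by_cases h2 : v = v' <;> simp [h1, h2]
  rw [e1, e6, ← e2, ← e3]
  linarith

end DUA_

open DUA_

theorem pDUA (hH : tHAT) : tDUA := by
  intro I V μ ω h K ε hh hμ hω hsum hK hfar
  classical
  have hw1 : ∀ i ∈ I, ∀ v ∈ V, ∀ x, ω i v x ≤ 1 := fun i hi v hv x =>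
    (Finset.single_le_sum (fun v' hv' => (hω i hi v' hv').2.1 x) hv).trans (hsum i hi x)
  set E : ℕ × ℕ × ℕ → ℝ × ℝ → ℂ := fun i => Ex (fun ξ => μ i ξ * h ξ) with hE
  have hbd : ∀ i ∈ I, ∀ k, Bd k → Bd (fun ξ => μ i ξ * k ξ) := fun i hi k hk =>
    bd_mul (hμ i hi).1 hk
  have hEc : ∀ i ∈ I, ∀ k, Bd k → Continuous (Ex (fun ξ => μ i ξ * k ξ)) := fun i hi k hk =>
    (pPl2 _ (hbd i hi k hk)).1
  have hml : ∀ i ∈ I, ∀ v ∈ V, ∀ k, Bd k →
      MemLp (fun x => ((√(ω i v x) : ℝ) : ℂ) * Ex (fun ξ => μ i ξ * k ξ) x) 2 :=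
    fun i hi v hv k hk => memLp_w (hω i hi v hv).1 (hω i hi v hv).2.1 (hw1 i hi v hv)
      (hω i hi v hv).2.2 (hEc i hi k hk) Ex_bound
  set u : ℕ × ℕ × ℕ → ℕ × ℕ → ℝ × ℝ → ℂ := fun i v x => (ω i v x : ℂ) * E i x with hu
  have hbf : ∀ i ∈ I, ∀ v ∈ V, Bf (u i v) := fun i hi v hv =>
    bf_w (hω i hi v hv).1 (hω i hi v hv).2.1 (hw1 i hi v hv)
      (hω i hi v hv).2.2 (hEc i hi h hh) Ex_bound
  set g : ℕ × ℕ × ℕ → ℕ × ℕ → ℝ × ℝ → ℂ := fun i v ξ => conj (μ i ξ) * hat (u i v) ξ with hg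
  have hgb : ∀ i ∈ I, ∀ v ∈ V, Bd (g i v) := by
    intro i hi v hv
    obtain ⟨h1, ⟨B, hB⟩, -, -⟩ := hH (u i v) (hbf i hi v hv)
    obtain ⟨⟨m1, -, R, hR⟩, m2⟩ := hμ i hi
    refine ⟨(Complex.continuous_conj.measurable.comp m1).mul h1.measurable, ⟨B, fun ξ => ?_⟩, R,
      fun ξ hξ => hR ξ fun h' => hξ (by simp [hg, h'])⟩
    rw [norm_mul, RCLike.norm_conj]
    calc ‖μ i ξ‖ * ‖hat (u i v) ξ‖ ≤ 1 * ‖hat (u i v) ξ‖ :=
          mul_le_mul_of_nonneg_right (m2 ξ) (norm_nonneg _)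
      _ ≤ B := by rw [one_mul]; exact hB ξ
  -- pairing
  have hpair : ∀ i ∈ I, ∀ v ∈ V, ∀ k, Bd k → inner ℂ (J k) (J (g i v)) =
      inner ℂ (J (fun x => ((√(ω i v x) : ℝ) : ℂ) * Ex (fun ξ => μ i ξ * k ξ) x))
        (J (fun x => ((√(ω i v x) : ℝ) : ℂ) * E i x)) := by
    intro i hi v hv k hk
    rw [J_inner (bd_memLp (hgb i hi v hv) 2) (bd_memLp hk 2),
      J_inner (hml i hi v hv h hh) (hml i hi v hv k hk)]
    have h1 := (hH (u i v) (hbf i hi v hv)).2.2.2 _ (hbd i hi k hk)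
    have h2 : ∫ ξ, g i v ξ * conj (k ξ) = ∫ ξ, hat (u i v) ξ * conj (μ i ξ * k ξ) := by
      congr 1
      funext ξ
      simp only [hg, map_mul]
      ring
    rw [h2, ← h1]
    congr 1
    funext x
    have h3 : ((√(ω i v x) : ℝ) : ℂ) * ((√(ω i v x) : ℝ) : ℂ) = (ω i v x : ℂ) := by
      rw [← Complex.ofReal_mul, Real.mul_self_sqrt ((hω i hi v hv).2.1 x)]
    simp only [hu, map_mul, Complex.conj_ofReal]
    rw [← h3]
    ring
  set α : ℕ × ℕ × ℕ → ℕ × ℕ → HH := fun i v => J (fun x => ((√(ω i v x) : ℝ) : ℂ) * E i x) with hα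
  have hαn : ∀ i ∈ I, ∀ v ∈ V, ∀ k, Bd k → ∫⁻ x, ENNReal.ofReal (ω i v x) *
      ‖Ex (fun ξ => μ i ξ * k ξ) x‖ₑ ^ 2 = ENNReal.ofReal
        (‖J (fun x => ((√(ω i v x) : ℝ) : ℂ) * Ex (fun ξ => μ i ξ * k ξ) x)‖ ^ 2) := by
    intro i hi v hv k hk
    rw [← J_norm (hml i hi v hv k hk)]
    refine lintegral_congr fun x => ?_
    rw [sq_enorm _ ((hω i hi v hv).2.1 x)]
  set N : ℝ := ‖J h‖ ^ 2 with hN
  have hN2 : n2 h = ENNReal.ofReal N := J_norm (bd_memLp hh 2)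
  have hN0 : 0 ≤ N := by positivity
  set A : ℝ := ∑ i ∈ I, ∑ v ∈ V, ‖α i v‖ ^ 2 with hA
  have hA0 : 0 ≤ A := Finset.sum_nonneg fun i _ => Finset.sum_nonneg fun v _ => by positivity
  have hAe : ∑ i ∈ I, ∑ v ∈ V, ∫⁻ x, ENNReal.ofReal (ω i v x) *
      ‖Ex (fun ξ => μ i ξ * h ξ) x‖ₑ ^ 2 = ENNReal.ofReal A := by
    rw [hA, ENNReal.ofReal_sum_of_nonneg fun i _ => Finset.sum_nonneg fun v _ => by positivity]
    refine Finset.sum_congr rfl fun i hi => ?_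
    rw [ENNReal.ofReal_sum_of_nonneg fun v _ => by positivity]
    exact Finset.sum_congr rfl fun v hv => hαn i hi v hv h hh
  set G : HH := ∑ i ∈ I, ∑ v ∈ V, J (g i v) with hG
  -- A as a pairing
  have hAG : A ^ 2 ≤ ‖G‖ ^ 2 * N := by
    have h1 : (A : ℂ) = inner ℂ (J h) G := by
      rw [hG, inner_sum, hA]
      push_cast
      refine Finset.sum_congr rfl fun i hi => ?_
      rw [inner_sum]
      refine Finset.sum_congr rfl fun v hv => ?_
      rw [hpair i hi v hv h hh, inner_self_eq_norm_sq_to_K]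
      norm_cast
    have h2 : A ≤ ‖J h‖ * ‖G‖ := by
      have := norm_inner_le_norm (𝕜 := ℂ) (J h) G
      rw [← h1, Complex.norm_real, Real.norm_eq_abs, abs_of_nonneg hA0] at this
      exact this
    calc A ^ 2 ≤ (‖J h‖ * ‖G‖) ^ 2 := pow_le_pow_left₀ hA0 h2 2
      _ = _ := by rw [hN]; ring
  -- one v
  have hGv : ∀ v ∈ V, ‖∑ i ∈ I, J (g i v)‖ ^ 2 ≤ K * ∑ i ∈ I, ‖α i v‖ ^ 2 := by
    intro v hv
    obtain ⟨m1, m2⟩ := J_sum I (fun i => g i v) fun i hi => bd_memLp (hgb i hi v hv) 2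
    have hk : Bd (fun x => ∑ i ∈ I, g i v x) := bd_sum I (fun i => g i v) fun i hi => hgb i hi v hv
    set k : ℝ × ℝ → ℂ := fun x => ∑ i ∈ I, g i v x with hkdef
    rw [← m2]
    set β : ℕ × ℕ × ℕ → HH := fun i =>
      J (fun x => ((√(ω i v x) : ℝ) : ℂ) * Ex (fun ξ => μ i ξ * k ξ) x) with hβ
    have h1 : ((‖J k‖ ^ 2 : ℝ) : ℂ) = ∑ i ∈ I, inner ℂ (β i) (α i v) := by
      have : inner ℂ (J k) (J k) = ∑ i ∈ I, inner ℂ (β i) (α i v) := by
        conv_lhs => rw [m2]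
        rw [inner_sum, ← m2]
        exact Finset.sum_congr rfl fun i hi => hpair i hi v hv k hk
      rw [← this, inner_self_eq_norm_sq_to_K]
      norm_cast
    have h2 : ‖J k‖ ^ 2 ≤ ∑ i ∈ I, ‖β i‖ * ‖α i v‖ := by
      have h3 : ‖((‖J k‖ ^ 2 : ℝ) : ℂ)‖ = ‖J k‖ ^ 2 := by
        rw [Complex.norm_real, Real.norm_eq_abs, abs_of_nonneg (by positivity)]
      rw [← h3, h1]
      exact (norm_sum_le _ _).trans (Finset.sum_le_sum fun i _ => norm_inner_le_norm _ _)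
    have h4 : ∑ i ∈ I, ‖β i‖ ^ 2 ≤ K * ‖J k‖ ^ 2 := by
      have h5 := hK v hv k hk
      rw [show n2 k = ENNReal.ofReal (‖J k‖ ^ 2) from J_norm m1,
        Finset.sum_congr rfl fun i hi => hαn i hi v hv k hk,
        ← ENNReal.ofReal_sum_of_nonneg fun i _ => by positivity,
        ← ENNReal.ofReal_coe_nnreal, ← ENNReal.ofReal_mul (by positivity)] at h5
      exact (ENNReal.ofReal_le_ofReal_iff (by positivity)).mp h5
    have h6 : (‖J k‖ ^ 2) ^ 2 ≤ K * ‖J k‖ ^ 2 * ∑ i ∈ I, ‖α i v‖ ^ 2 :=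
      calc (‖J k‖ ^ 2) ^ 2 ≤ (∑ i ∈ I, ‖β i‖ * ‖α i v‖) ^ 2 :=
            pow_le_pow_left₀ (by positivity) h2 2
        _ ≤ (∑ i ∈ I, ‖β i‖ ^ 2) * ∑ i ∈ I, ‖α i v‖ ^ 2 := Finset.sum_mul_sq_le_sq_mul_sq _ _ _
        _ ≤ _ := mul_le_mul_of_nonneg_right h4 (Finset.sum_nonneg fun i _ => by positivity)
    rcases eq_or_lt_of_le (show 0 ≤ ‖J k‖ ^ 2 by positivity) with h7 | h7
    · rw [← h7]
      exact mul_nonneg K.2 (Finset.sum_nonneg fun i _ => by positivity)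
    · have h8 : ‖J k‖ ^ 2 * ‖J k‖ ^ 2 ≤ ‖J k‖ ^ 2 * (K * ∑ i ∈ I, ‖α i v‖ ^ 2) := by
        nlinarith [h6]
      exact le_of_mul_le_mul_left h8 h7
  -- one i
  have hSi : ∀ i ∈ I, ‖∑ v ∈ V, J (g i v)‖ ^ 2 ≤ ∑ v ∈ V, ‖α i v‖ ^ 2 := by
    intro i hi
    obtain ⟨m1, m2⟩ := J_sum V (fun v => g i v) fun v hv => bd_memLp (hgb i hi v hv) 2
    have hs : Bf (fun x => ((∑ v ∈ V, ω i v x : ℝ) : ℂ) * E i x) := by
      refine bf_w (Finset.measurable_sum V fun v hv => (hω i hi v hv).1)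
        (fun x => Finset.sum_nonneg fun v hv => (hω i hi v hv).2.1 x) (hsum i hi) ?_
        (hEc i hi h hh) Ex_bound
      refine lt_of_le_of_lt (measure_mono (t := ⋃ v ∈ V, {x | ω i v x ≠ 0}) fun x hx => ?_)
        ((measure_biUnion_finset_le V _).trans_lt
          (ENNReal.sum_lt_top.mpr fun v hv => (hω i hi v hv).2.2))
      by_contra h'
      apply hx
      refine Finset.sum_eq_zero fun v hv => ?_
      by_contra h''
      exact h' (mem_biUnion hv h'')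
    have hadd : ∀ ξ, hat (fun x => ((∑ v ∈ V, ω i v x : ℝ) : ℂ) * E i x) ξ =
        ∑ v ∈ V, hat (u i v) ξ := by
      intro ξ
      unfold hat
      rw [← integral_finsetSum]
      · congr 1
        funext x
        rw [← Finset.sum_mul]
        congr 1
        simp only [hu]
        rw [← Finset.sum_mul]
        push_cast
        rfl
      · intro v hv
        exact (HAT_.bf_int (hbf i hi v hv)).mul_bdd (c := 1)
          ((HAT_.continuous_ee.comp (by unfold dot; fun_prop)).aestronglyMeasurable)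
          (ae_of_all _ fun x => (HAT_.norm_ee _).le)
    have h1 : ENNReal.ofReal (‖∑ v ∈ V, J (g i v)‖ ^ 2) ≤
        ENNReal.ofReal (∑ v ∈ V, ‖α i v‖ ^ 2) := by
      rw [← m2, ← J_norm m1]
      calc ∫⁻ ξ, ‖∑ v ∈ V, g i v ξ‖ₑ ^ 2
          ≤ ∫⁻ ξ, ‖hat (fun x => ((∑ v ∈ V, ω i v x : ℝ) : ℂ) * E i x) ξ‖ₑ ^ 2 := by
            refine lintegral_mono fun ξ => ?_
            have h2 : ∑ v ∈ V, g i v ξ = conj (μ i ξ) *
                hat (fun x => ((∑ v ∈ V, ω i v x : ℝ) : ℂ) * E i x) ξ := by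
              rw [hadd, Finset.mul_sum]
            rw [h2, enorm_mul]
            have h3 : ‖conj (μ i ξ)‖ₑ ≤ 1 := by
              rw [← ofReal_norm, RCLike.norm_conj]
              exact ENNReal.ofReal_le_one.mpr ((hμ i hi).2 ξ)
            exact pow_le_pow_left₀ zero_le ((mul_le_mul_left h3 _).trans_eq (one_mul _)) 2
        _ = ∫⁻ x, ‖((∑ v ∈ V, ω i v x : ℝ) : ℂ) * E i x‖ₑ ^ 2 := (hH _ hs).2.2.1
        _ ≤ ∫⁻ x, ∑ v ∈ V, ENNReal.ofReal (ω i v x) * ‖E i x‖ₑ ^ 2 := by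
            refine lintegral_mono fun x => ?_
            have h0 : 0 ≤ ∑ v ∈ V, ω i v x :=
              Finset.sum_nonneg fun v hv => (hω i hi v hv).2.1 x
            have h2 : ‖((∑ v ∈ V, ω i v x : ℝ) : ℂ)‖ₑ ^ 2 ≤
                ∑ v ∈ V, ENNReal.ofReal (ω i v x) := by
              rw [← ofReal_norm, Complex.norm_real, Real.norm_eq_abs, abs_of_nonneg h0,
                ← ENNReal.ofReal_pow h0,
                ← ENNReal.ofReal_sum_of_nonneg fun v hv => (hω i hi v hv).2.1 x]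
              refine ENNReal.ofReal_le_ofReal ?_
              nlinarith [hsum i hi x]
            rw [enorm_mul, mul_pow, ← Finset.sum_mul]
            exact mul_le_mul_left h2 _
        _ = ∑ v ∈ V, ∫⁻ x, ENNReal.ofReal (ω i v x) * ‖E i x‖ₑ ^ 2 := by
            refine lintegral_finsetSum' V fun v hv => ?_
            exact ((hω i hi v hv).1.ennreal_ofReal.mul
              ((hEc i hi h hh).measurable.enorm.pow_const 2)).aemeasurable
        _ = ENNReal.ofReal (∑ v ∈ V, ‖α i v‖ ^ 2) := by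
            rw [ENNReal.ofReal_sum_of_nonneg fun v _ => by positivity]
            exact Finset.sum_congr rfl fun v hv => hαn i hi v hv h hh
    exact (ENNReal.ofReal_le_ofReal_iff
      (Finset.sum_nonneg fun v _ => by positivity)).mp h1
  -- far terms
  have hfar' : ∀ i ∈ I, ∀ j ∈ I, ∀ v ∈ V, ∀ v' ∈ V, i ≠ j → v ≠ v' →
      ‖inner ℂ (J (g i v)) (J (g j v'))‖ ≤ ε * N := by
    intro i hi j hj v hv v' hv' hij hvv
    rw [J_inner (bd_memLp (hgb j hj v' hv') 2) (bd_memLp (hgb i hi v hv) 2)]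
    have h1 := hfar j hj i hi v' hv' v hv (Ne.symm hij) (Ne.symm hvv)
    rw [hN2, ← ofReal_norm, ← ENNReal.ofReal_coe_nnreal,
      ← ENNReal.ofReal_mul (by positivity)] at h1
    exact (ENNReal.ofReal_le_ofReal_iff (by positivity)).mp h1
  have hexp := expand I V (fun i v => J (g i v)) (ε * N) (by positivity) hfar'
  have hG2 : ‖G‖ ^ 2 ≤ (1 + K) * A + (I.card * V.card) ^ 2 * ε * N := by
    have h1 : ∑ i ∈ I, ‖∑ v ∈ V, J (g i v)‖ ^ 2 ≤ A := Finset.sum_le_sum hSi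
    have h2 : ∑ v ∈ V, ‖∑ i ∈ I, J (g i v)‖ ^ 2 ≤ K * A := by
      rw [hA, Finset.sum_comm, Finset.mul_sum]
      exact Finset.sum_le_sum hGv
    calc ‖G‖ ^ 2 ≤ _ := hexp
      _ ≤ A + K * A + (I.card * V.card) ^ 2 * (ε * N) := by gcongr
      _ = _ := by ring
  have hfin : A ≤ (K + 2 + (I.card * V.card) ^ 2 * ε) * N := by
    set D : ℝ := (I.card * V.card) ^ 2 * ε with hD
    have hD0 : 0 ≤ D := by positivity
    have hK0 : (0 : ℝ) ≤ K := K.2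
    refine le_of_not_gt fun hcon => ?_
    have h1 : A ^ 2 ≤ ((1 + K) * A + D * N) * N := hAG.trans (mul_le_mul_of_nonneg_right hG2 hN0)
    have hA1 : 0 < A := lt_of_le_of_lt (by positivity) hcon
    have h2 : (K + 2 + D) * N * A < A * A := mul_lt_mul_of_pos_right hcon hA1
    have hKN := mul_nonneg hK0 hN0
    have hDN := mul_nonneg hD0 hN0
    have hNA := mul_nonneg hN0 hA0
    have h4 : N ≤ A := by
      have e : (K + 2 + D) * N = K * N + 2 * N + D * N := by ring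
      linarith
    have h5 : D * N * N ≤ D * N * A := mul_le_mul_of_nonneg_left h4 hDN
    have e1 : ((1 + K) * A + D * N) * N = (1 + K) * (N * A) + D * N * N := by ring
    have e2 : (K + 2 + D) * N * A = (1 + K) * (N * A) + N * A + D * N * A := by ring
    have e3 : A ^ 2 = A * A := by ring
    linarith
  rw [hAe, hN2]
  have : ((K : ℝ≥0∞) + 2 + (I.card * V.card) ^ 2 * ε) =
      ENNReal.ofReal (K + 2 + (I.card * V.card) ^ 2 * ε) := by
    rw [ENNReal.ofReal_add (by positivity) (by positivity), ENNReal.ofReal_add (by positivity)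
      (by positivity), ENNReal.ofReal_mul (by positivity), ENNReal.ofReal_pow (by positivity),
      ENNReal.ofReal_mul (by positivity)]
    simp
  rw [this, ← ENNReal.ofReal_mul (by positivity)]
  exact ENNReal.ofReal_le_ofReal hfin

end Pool.Agent.LLog
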