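import Pool.Agent.LLog.Targets
import Pool.Agent.KSP.Base

set_option autoImplicit false

/-! CHD: the children, one radial interval at a time. -/

namespace Pool.Agent.LLog.CHD_

open MeasureTheory Set
open scoped ENNReal NNReal ComplexConjugate
open Pool.Agent.KSP (ee dot nr Ex Ex1 Bd Bd1 n1 n2 lg V0 ann)
open Pool.Agent.KSP.Base_ (bd_memLp)
open Pool.Agent.LLog

lemma isClosed_inn (δ : ℝ) (X : Set (ℝ × ℝ)) : IsClosed (inn δ X) := by
  have : inn δ X = ⋂ y ∈ Xᶜ, {x : ℝ × ℝ | |y.1 - x.1| < δ ∧ |y.2 - x.2| < δ}ᶜ := by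
    ext x
    simp only [inn, mem_ofPred_eq, mem_iInter, mem_compl_iff, not_and]
    constructor
    · intro h y hy h1 h2
      exact hy (h y h1 h2)
    · intro h y h1 h2
      by_contra hy
      exact h y hy h1 h2
  rw [this]
  refine isClosed_biInter (fun y _ => ?_)
  rw [isClosed_compl_iff]
  have c1 : Continuous (fun x : ℝ × ℝ => |y.1 - x.1|) := by fun_prop
  have c2 : Continuous (fun x : ℝ × ℝ => |y.2 - x.2|) := by fun_prop
  exact (isOpen_lt c1 continuous_const).inter (isOpen_lt c2 continuous_const)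

lemma inn_shift {δ η : ℝ} {X : Set (ℝ × ℝ)} {x y : ℝ × ℝ} (hx : x ∈ inn (δ + η) X)
    (h1 : |y.1 - x.1| ≤ η) (h2 : |y.2 - x.2| ≤ η) : y ∈ inn δ X := by
  intro z hz1 hz2
  apply hx z
  · calc |z.1 - x.1| = |(z.1 - y.1) + (y.1 - x.1)| := by ring_nf
      _ ≤ |z.1 - y.1| + |y.1 - x.1| := abs_add_le _ _
      _ < δ + η := by linarith
  · calc |z.2 - x.2| = |(z.2 - y.2) + (y.2 - x.2)| := by ring_nf
      _ ≤ |z.2 - y.2| + |y.2 - x.2| := abs_add_le _ _
      _ < δ + η := by linarith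

lemma inn_subset {δ : ℝ} (hδ : 0 < δ) (X : Set (ℝ × ℝ)) : inn δ X ⊆ X := by
  intro x hx
  exact hx x (by simpa using hδ) (by simpa using hδ)

lemma cont_nr : Continuous nr := by
  unfold nr
  fun_prop

lemma meas_cd (sg : ℝ) (l c : ℕ) : MeasurableSet {ξ : ℝ × ℝ | cd sg l c ξ} := by
  have h1 : Measurable (fun ξ : ℝ × ℝ => (4 : ℝ) ^ l * (nr ξ - sg)) :=
    ((cont_nr.sub continuous_const).const_mul _ |>.measurable)
  exact (measurableSet_le measurable_const h1).inter (measurableSet_lt h1 measurable_const)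

lemma meas_cp (sl : ℝ) (j p : ℕ) : MeasurableSet {ξ : ℝ × ℝ | cp sl j p ξ} := by
  have h1 : Measurable (fun ξ : ℝ × ℝ => (2 : ℝ) ^ j * (ξ.2 / ξ.1 + sl)) :=
    ((measurable_snd.div measurable_fst).add_const _).const_mul _
  exact (measurableSet_lt measurable_const measurable_fst).inter
    ((measurableSet_le measurable_const h1).inter (measurableSet_lt h1 measurable_const))

lemma bd_ind {h : ℝ × ℝ → ℂ} (hh : Bd h) {A : Set (ℝ × ℝ)} (hA : MeasurableSet A) :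
    Bd (A.indicator h) := by
  obtain ⟨hm, ⟨B, hB⟩, R, hR⟩ := hh
  refine ⟨hm.indicator hA, ⟨B, fun ξ => ?_⟩, R, fun ξ hξ => ?_⟩
  · by_cases hξ : ξ ∈ A
    · rw [indicator_of_mem hξ]
      exact hB ξ
    · rw [indicator_of_notMem hξ, norm_zero]
      exact le_trans (norm_nonneg _) (hB ξ)
  · by_cases hξ' : ξ ∈ A
    · rw [indicator_of_mem hξ'] at hξ
      exact hR ξ hξ
    · rw [indicator_of_notMem hξ'] at hξ
      exact absurd rfl hξ

lemma ee_norm (t : ℝ) : ‖ee t‖ = 1 := by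
  unfold ee
  have : (2 * Real.pi * Complex.I * (t : ℂ)) = ((2 * Real.pi * t : ℝ) : ℂ) * Complex.I := by
    push_cast
    ring
  rw [this, Complex.norm_exp_ofReal_mul_I]

lemma ee_meas (x : ℝ × ℝ) : Measurable (fun ξ : ℝ × ℝ => ee (dot x ξ)) := by
  unfold ee dot
  fun_prop

lemma int_Ex {h : ℝ × ℝ → ℂ} (hh : Bd h) (x : ℝ × ℝ) :
    Integrable (fun ξ => h ξ * ee (dot x ξ)) := by
  have h1 : Integrable h := memLp_one_iff_integrable.1 (bd_memLp hh 1)
  exact h1.mul_bdd (c := 1) (ee_meas x).aestronglyMeasurable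
    (ae_of_all _ (fun ξ => (ee_norm _).le))

lemma Ex_sum (S : Finset ℕ) (h : ℕ → ℝ × ℝ → ℂ) (hh : ∀ p ∈ S, Bd (h p)) (x : ℝ × ℝ) :
    Ex (fun ξ => ∑ p ∈ S, h p ξ) x = ∑ p ∈ S, Ex (h p) x := by
  unfold Ex
  rw [← integral_finsetSum S (fun p hp => int_Ex (hh p hp) x)]
  congr 1
  funext ξ
  rw [Finset.sum_mul]

lemma cp_uniq {sl : ℝ} {j p q : ℕ} {ξ : ℝ × ℝ} (h1 : cp sl j p ξ) (h2 : cp sl j q ξ) : p = q := by
  have a1 : (p : ℝ) < q + 1 := lt_of_le_of_lt h1.2.1 h2.2.2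
  have a2 : (q : ℝ) < p + 1 := lt_of_le_of_lt h2.2.1 h1.2.2
  have b1 : p < q + 1 := by exact_mod_cast a1
  have b2 : q < p + 1 := by exact_mod_cast a2
  omega

lemma cd_uniq {sg : ℝ} {l p q : ℕ} {ξ : ℝ × ℝ} (h1 : cd sg l p ξ) (h2 : cd sg l q ξ) : p = q := by
  have a1 : (p : ℝ) < q + 1 := lt_of_le_of_lt h1.1 h2.2
  have a2 : (q : ℝ) < p + 1 := lt_of_le_of_lt h2.1 h1.2
  have b1 : p < q + 1 := by exact_mod_cast a1
  have b2 : q < p + 1 := by exact_mod_cast a2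
  omega

lemma V0_pos {ξ : ℝ × ℝ} (h : ξ ∈ V0) : 0 < ξ.1 := by
  obtain ⟨h1, h2, _⟩ := h
  by_contra hc
  push Not at hc
  have h3 : |ξ.2| ≤ 0 := le_trans h1 hc
  have h4 : ξ.2 = 0 := abs_eq_zero.1 (le_antisymm h3 (abs_nonneg _))
  have h5 : ξ.1 = 0 := le_antisymm hc (le_trans (abs_nonneg _) h1)
  unfold nr at h2
  rw [h4, h5] at h2
  norm_num at h2

lemma decomp {sg sl : ℝ} {l j c : ℕ} {h : ℝ × ℝ → ℂ} (hs1 : 1 ≤ sl) (hs2 : sl < 2)
    (hV : ∀ ξ, h ξ ≠ 0 → ξ ∈ V0) :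
    ({ξ | cd sg l c ξ}.indicator h) = fun ξ => ∑ p ∈ Finset.range (3 * 2 ^ j),
      ({ξ | cd sg l c ξ ∧ cp sl j p ξ}.indicator h) ξ := by
  classical
  funext ξ
  by_cases h0 : h ξ = 0
  · simp [indicator_apply, h0]
  · by_cases hc : cd sg l c ξ
    · have hV' := hV ξ h0
      have hpos := V0_pos hV'
      have hab := abs_le.1 hV'.1
      have hq1 : -1 ≤ ξ.2 / ξ.1 := by
        rw [le_div_iff₀ hpos]
        linarith [hab.1]
      have hq2 : ξ.2 / ξ.1 ≤ 1 := by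
        rw [div_le_one hpos]
        linarith [hab.2]
      have hv0 : 0 ≤ (2 : ℝ) ^ j * (ξ.2 / ξ.1 + sl) := by
        apply mul_nonneg (by positivity)
        linarith
      have hv1 : (2 : ℝ) ^ j * (ξ.2 / ξ.1 + sl) < 3 * 2 ^ j := by
        have : ξ.2 / ξ.1 + sl < 3 := by linarith
        nlinarith [show (0 : ℝ) < 2 ^ j by positivity]
      have hcp : cp sl j ⌊(2 : ℝ) ^ j * (ξ.2 / ξ.1 + sl)⌋₊ ξ :=
        ⟨hpos, Nat.floor_le hv0, Nat.lt_floor_add_one _⟩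
      rw [Finset.sum_eq_single ⌊(2 : ℝ) ^ j * (ξ.2 / ξ.1 + sl)⌋₊]
      · rw [indicator_of_mem (show ξ ∈ {ξ | cd sg l c ξ} from hc),
          indicator_of_mem (show ξ ∈ {ξ | cd sg l c ξ ∧ cp sl j _ ξ} from ⟨hc, hcp⟩)]
      · intro q _ hq
        rw [indicator_of_notMem]
        intro hq'
        exact hq (cp_uniq hq'.2 hcp)
      · intro hn
        exfalso
        apply hn
        rw [Finset.mem_range, Nat.floor_lt hv0]
        push_cast
        exact hv1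
    · rw [indicator_of_notMem (show ξ ∉ {ξ | cd sg l c ξ} from hc), Finset.sum_eq_zero]
      intro p _
      rw [indicator_of_notMem]
      intro hq
      exact hc hq.1

lemma sum_ind_le {A : ℕ → Set (ℝ × ℝ)} {B : Set (ℝ × ℝ)} {ξ : ℝ × ℝ}
    (hP : ∀ p q, ξ ∈ A p → ξ ∈ A q → p = q) (hB : ∀ p, A p ⊆ B) (s : Finset ℕ) (h : ℝ × ℝ → ℂ) :
    ∑ p ∈ s, ‖(A p).indicator h ξ‖ₑ ^ 2 ≤ ‖B.indicator h ξ‖ₑ ^ 2 := by
  classical
  by_cases hx : ∃ p ∈ s, ξ ∈ A p
  · obtain ⟨p, hp, hPp⟩ := hx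
    rw [Finset.sum_eq_single p]
    · rw [indicator_of_mem hPp, indicator_of_mem (hB p hPp)]
    · intro q _ hq
      rw [indicator_of_notMem (fun h' => hq (hP q p h' hPp))]
      simp
    · intro h'
      exact absurd hp h'
  · push Not at hx
    rw [Finset.sum_eq_zero]
    · exact bot_le
    · intro p hp
      rw [indicator_of_notMem (hx p hp)]
      simp

lemma sum_n2 {sg sl : ℝ} {l j : ℕ} {h : ℝ × ℝ → ℂ} (hh : Bd h) (N M : ℕ) :
    ∑ c ∈ Finset.range N, ∑ p ∈ Finset.range M,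
      n2 ({ξ | cd sg l c ξ ∧ cp sl j p ξ}.indicator h) ≤ n2 h := by
  have hm : ∀ c p, MeasurableSet {ξ : ℝ × ℝ | cd sg l c ξ ∧ cp sl j p ξ} := fun c p =>
    (meas_cd sg l c).inter (meas_cp sl j p)
  have hme : ∀ c p, Measurable
      (fun ξ => ‖({ξ | cd sg l c ξ ∧ cp sl j p ξ}.indicator h) ξ‖ₑ ^ 2) := fun c p =>
    ((hh.1.indicator (hm c p)).enorm).pow_const 2
  unfold n2
  have e1 : ∑ c ∈ Finset.range N, ∑ p ∈ Finset.range M,
      ∫⁻ ξ, ‖({ξ | cd sg l c ξ ∧ cp sl j p ξ}.indicator h) ξ‖ₑ ^ 2 =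
      ∫⁻ ξ, ∑ c ∈ Finset.range N, ∑ p ∈ Finset.range M,
        ‖({ξ | cd sg l c ξ ∧ cp sl j p ξ}.indicator h) ξ‖ₑ ^ 2 := by
    rw [lintegral_finsetSum _ (fun c _ => Finset.measurable_fun_sum _ (fun p _ => hme c p))]
    refine Finset.sum_congr rfl (fun c _ => ?_)
    rw [lintegral_finsetSum _ (fun p _ => hme c p)]
  rw [e1]
  refine lintegral_mono (fun ξ => ?_)
  calc ∑ c ∈ Finset.range N, ∑ p ∈ Finset.range M,
        ‖({ξ | cd sg l c ξ ∧ cp sl j p ξ}.indicator h) ξ‖ₑ ^ 2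
      ≤ ∑ c ∈ Finset.range N, ‖({ξ | cd sg l c ξ}.indicator h) ξ‖ₑ ^ 2 :=
        Finset.sum_le_sum (fun c _ => sum_ind_le (fun p q h1 h2 => cp_uniq h1.2 h2.2)
          (fun p ξ hξ => hξ.1) _ h)
    _ ≤ ‖(univ : Set (ℝ × ℝ)).indicator h ξ‖ₑ ^ 2 :=
        sum_ind_le (fun p q h1 h2 => cd_uniq h1 h2) (fun p => subset_univ _) _ h
    _ = ‖h ξ‖ₑ ^ 2 := by rw [indicator_univ]

lemma meas_sa (t L : ℝ) {X : Set (ℝ × ℝ)} (hX : MeasurableSet X) : Measurable (sa t L X) := by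
  unfold sa
  apply Measurable.const_mul
  have h1 : Measurable (fun P : (ℝ × ℝ) × ℝ =>
      (X.indicator (1 : ℝ × ℝ → ℝ≥0∞)) (P.1 + P.2 • nv t)) := by
    have h2 : Measurable (fun P : (ℝ × ℝ) × ℝ => P.1 + P.2 • nv t) := by fun_prop
    exact ((measurable_one.indicator hX).comp h2)
  exact h1.lintegral_prod_right'

lemma frm_meas (t : ℝ) : Measurable (fun P : ℝ × ℝ => P.2 • nv t + P.1 • tv t) := by fun_prop

lemma avgc_le {t L s y : ℝ} (hL : 0 < L) {X : Set (ℝ × ℝ)} {κ : ℝ × ℝ → ℝ≥0∞} {ε : ℝ≥0∞}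
    (hκ : ∀ x, κ x ≤ X.indicator 1 x + ε) :
    avgc L (fun s => κ (s • nv t + y • tv t)) s ≤
      2 * sa t L X (s • nv t + y • tv t) + 2 * ε := by
  unfold avgc sa
  have hsub : Ico (L * ⌊s / L⌋) (L * (⌊s / L⌋ + 1)) ⊆ Icc (s - L) (s + L) := by
    intro u hu
    have h1 := Int.floor_le (s / L)
    have h2 := Int.lt_floor_add_one (s / L)
    rw [le_div_iff₀ hL] at h1
    rw [div_lt_iff₀ hL] at h2
    constructor
    · have := hu.1
      nlinarith
    · have := hu.2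
      nlinarith
  have e1 : ∫⁻ u in Icc (s - L) (s + L), κ (u • nv t + y • tv t) =
      ∫⁻ u in Icc (-L) L, κ ((s • nv t + y • tv t) + u • nv t) := by
    rw [← lintegral_indicator measurableSet_Icc, ← lintegral_indicator measurableSet_Icc,
      ← lintegral_add_left_eq_self _ s]
    congr 1
    funext u
    simp only [indicator_apply, mem_Icc]
    have e2 : (s - L ≤ s + u ∧ s + u ≤ s + L) ↔ (-L ≤ u ∧ u ≤ L) := by
      constructor
      · rintro ⟨h1, h2⟩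
        constructor <;> linarith
      · rintro ⟨h1, h2⟩
        constructor <;> linarith
    have e3 : (s + u) • nv t + y • tv t = (s • nv t + y • tv t) + u • nv t := by
      rw [add_smul]
      abel
    simp only [e2, e3]
  have e4 : ∫⁻ u in Icc (-L) L, κ ((s • nv t + y • tv t) + u • nv t) ≤
      (∫⁻ u in Icc (-L) L, X.indicator 1 ((s • nv t + y • tv t) + u • nv t)) +
        ε * ENNReal.ofReal (2 * L) := by
    calc ∫⁻ u in Icc (-L) L, κ ((s • nv t + y • tv t) + u • nv t)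
        ≤ ∫⁻ u in Icc (-L) L, (X.indicator 1 ((s • nv t + y • tv t) + u • nv t) + ε) :=
          lintegral_mono (fun u => hκ _)
      _ = _ := by
          rw [lintegral_add_right _ measurable_const, lintegral_const, Measure.restrict_apply_univ,
            Real.volume_Icc]
          congr 3
          ring
  have hL0 : ENNReal.ofReal L ≠ 0 := by
    rw [Ne, ENNReal.ofReal_eq_zero]
    linarith
  have hLt : ENNReal.ofReal L ≠ ⊤ := ENNReal.ofReal_ne_top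
  have e5 : (ENNReal.ofReal L)⁻¹ = 2 * (ENNReal.ofReal (2 * L))⁻¹ := by
    rw [ENNReal.ofReal_mul (by norm_num), ENNReal.mul_inv (Or.inl (by simp)) (Or.inl (by simp)),
      ← mul_assoc]
    have : (2 : ℝ≥0∞) * (ENNReal.ofReal 2)⁻¹ = 1 := by
      rw [show ENNReal.ofReal 2 = 2 by simp]
      exact ENNReal.mul_inv_cancel (by simp) (by simp)
    rw [this, one_mul]
  calc (ENNReal.ofReal L)⁻¹ * ∫⁻ u in Ico (L * ⌊s / L⌋) (L * (⌊s / L⌋ + 1)),
        κ (u • nv t + y • tv t)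
      ≤ (ENNReal.ofReal L)⁻¹ * ∫⁻ u in Icc (s - L) (s + L), κ (u • nv t + y • tv t) := by
        gcongr
    _ ≤ (ENNReal.ofReal L)⁻¹ *
        ((∫⁻ u in Icc (-L) L, X.indicator 1 ((s • nv t + y • tv t) + u • nv t)) +
        ε * ENNReal.ofReal (2 * L)) := by
        rw [e1]
        gcongr
    _ = 2 * ((ENNReal.ofReal (2 * L))⁻¹ *
          ∫⁻ u in Icc (-L) L, X.indicator 1 ((s • nv t + y • tv t) + u • nv t)) + 2 * ε := by
        rw [mul_add, e5, mul_assoc]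
        congr 1
        have h1 : (ENNReal.ofReal (2 * L)) ≠ 0 := by
          rw [Ne, ENNReal.ofReal_eq_zero]
          linarith
        calc 2 * (ENNReal.ofReal (2 * L))⁻¹ * (ε * ENNReal.ofReal (2 * L))
            = 2 * ε * ((ENNReal.ofReal (2 * L))⁻¹ * ENNReal.ofReal (2 * L)) := by ring
          _ = 2 * ε := by
              rw [ENNReal.inv_mul_cancel h1 ENNReal.ofReal_ne_top, mul_one]

/-- the estimate for one cap -/
lemma one_cap (hFRM : tFRM) (hGK : tGK) (hGEO : tGEO) {C : ℝ≥0}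
    (hC : ∀ (L b r0 : ℝ) (H : ℝ → ℂ) (κ : ℝ → ℝ≥0∞), 0 < L → 0 < b →
      Bd1 H → (∀ ζ, H ζ ≠ 0 → |ζ - r0| ≤ b) → Measurable κ → (∀ s, κ s ≤ 1) →
      ∫⁻ s, κ s * ‖Ex1 H s‖ₑ ^ 2 ≤ 4 * (∫⁻ s, avgc L κ s * ‖Ex1 H s‖ₑ ^ 2) +
        C * ENNReal.ofReal ((L * b) ^ 2) * n1 H)
    (hPl : Pool.Agent.KSP.tPl2)
    {a m l c p : ℕ} {sg sl : ℝ} {h : ℝ × ℝ → ℂ} {X : Set (ℝ × ℝ)} (hPA : PA a m)
    (hs1 : 1 ≤ sl) (hs2 : sl < 2) (hl : 10 * a < l)
    (hcore : Core a m sg sl h) (hp : p < 3 * 2 ^ (l - 1 + 8 * a)) :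
    ∫⁻ x, GK a m (l - 1 + 8 * a) (inn (2 * de a (l - 1)) X) x *
        ‖Ex ({ξ | cd sg l c ξ ∧ cp sl (l - 1 + 8 * a) p ξ}.indicator h) x‖ₑ ^ 2 ≤
      8 * (∫⁻ x, sa (tp sl (l - 1 + 8 * a) p) (4 ^ l / 4 ^ (2 * a)) (inn (de a (l - 1)) X) x *
        ‖Ex ({ξ | cd sg l c ξ ∧ cp sl (l - 1 + 8 * a) p ξ}.indicator h) x‖ₑ ^ 2) +
      (C + 8) * ENNReal.ofReal (1 / 2 ^ (6 * a)) *
        n2 ({ξ | cd sg l c ξ ∧ cp sl (l - 1 + 8 * a) p ξ}.indicator h) := by
  set j := l - 1 + 8 * a with hj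
  set t := tp sl j p with ht
  set L : ℝ := 4 ^ l / 4 ^ (2 * a) with hL
  set u := ({ξ | cd sg l c ξ ∧ cp sl j p ξ}.indicator h) with hu
  set Y2 := inn (2 * de a (l - 1)) X with hY2
  set X1 := inn (de a (l - 1)) X with hX1
  have hLpos : 0 < L := by positivity
  have ha : 20 ≤ a := hPA.1
  have hubd : Bd u := bd_ind hcore.1 ((meas_cd sg l c).inter (meas_cp sl j p))
  obtain ⟨-, -, hrec, hF, hS⟩ := hFRM t
  obtain ⟨hHs1, hHs2, hHs3, hHs4⟩ := hS u hubd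
  have hY2m : MeasurableSet Y2 := (isClosed_inn _ _).measurableSet
  have hX1m : MeasurableSet X1 := (isClosed_inn _ _).measurableSet
  obtain ⟨hG1, hG2, hG3, hG4, hG5⟩ := hGK a m j Y2 hPA hY2m
  have hEc : Continuous (Ex u) := (hPl u hubd).1
  have hEm : Measurable (fun x => ‖Ex u x‖ₑ ^ 2) := (hEc.measurable.enorm).pow_const 2
  -- the weight outside `X1`
  have hde : (2 : ℝ) ^ (6 * a + j) ≤ de a (l - 1) := by
    unfold de
    apply pow_le_pow_right₀ (by norm_num)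
    omega
  set ε : ℝ≥0∞ := ENNReal.ofReal (2 / 2 ^ (40 * m)) with hε
  have hκ : ∀ x, GK a m j Y2 x ≤ X1.indicator 1 x + ε := by
    intro x
    by_cases hx : x ∈ X1
    · rw [indicator_of_mem hx]
      exact le_trans (hG2 x) (by simp)
    · rw [indicator_of_notMem hx, zero_add]
      apply hG4 x
      rintro y hy ⟨h1, h2⟩
      apply hx
      have hy' : y ∈ inn (de a (l - 1) + de a (l - 1)) X := by
        rw [← two_mul]
        exact hy
      apply inn_shift hy'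
      · rw [abs_sub_comm]
        exact le_trans h1 hde
      · rw [abs_sub_comm]
        exact le_trans h2 hde
  -- the support of the slices
  have hl4 : (4 : ℝ) ^ l * (2 / 4 ^ j) ≤ 1 := by
    have h1 : (4 : ℝ) ^ j = 4 ^ l * 4 ^ (8 * a - 1) := by
      rw [← pow_add]
      congr 1
      omega
    have h2 : (2 : ℝ) ≤ 4 ^ (8 * a - 1) := by
      calc (2 : ℝ) ≤ 4 ^ 1 := by norm_num
        _ ≤ 4 ^ (8 * a - 1) := pow_le_pow_right₀ (by norm_num) (by omega)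
    rw [h1, mul_div_assoc', div_le_one (by positivity)]
    exact mul_le_mul_of_nonneg_left h2 (by positivity)
  have hsupp : ∀ y ζ, Hs t u y ζ ≠ 0 → |ζ - (sg + c / 4 ^ l)| ≤ 1 / 4 ^ l := by
    intro y ζ hζ
    have : ∃ z : ℝ, u (ζ • nv t + z • tv t) ≠ 0 := by
      by_contra hcon
      push Not at hcon
      apply hζ
      unfold Hs
      simp [hcon]
    obtain ⟨z, hz⟩ := this
    set ξ := ζ • nv t + z • tv t with hξ
    have hξm : ξ ∈ {ξ | cd sg l c ξ ∧ cp sl j p ξ} := by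
      by_contra hcon
      apply hz
      rw [hu, indicator_of_notMem hcon]
    have hhξ : h ξ ≠ 0 := by
      rw [hu, indicator_of_mem hξm] at hz
      exact hz
    have hV := (hcore.2 ξ hhξ).1
    obtain ⟨-, g2, -⟩ := hGEO sl j p hs1 hs2 (by omega) hp
    obtain ⟨q1, q2, q3, q4, -⟩ := g2 ξ hξm.2
    have hd : dot ξ (nv t) = ζ := (hrec ζ z).1
    rw [← ht, hd] at q1 q3 q4
    have hn2 : nr ξ < 2 := hV.2.2
    have hn0 : 0 < (4 : ℝ) ^ j := by positivity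
    have q5 : nr ξ / 4 ^ j ≤ 2 / 4 ^ j := by
      apply div_le_div_of_nonneg_right hn2.le hn0.le
    have c1 := hξm.1.1
    have c2 := hξm.1.2
    have h4l : (0 : ℝ) < 4 ^ l := by positivity
    have r1 : (c : ℝ) / 4 ^ l ≤ nr ξ - sg := by
      rw [div_le_iff₀ h4l]
      linarith
    have r2 : nr ξ - sg < (c : ℝ) / 4 ^ l + 1 / 4 ^ l := by
      rw [← add_div, lt_div_iff₀ h4l]
      linarith
    have r3 : (2 : ℝ) / 4 ^ j ≤ 1 / 4 ^ l := by
      rw [le_div_iff₀ h4l]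
      linarith
    rw [abs_le]
    constructor <;> linarith
  -- numbers
  have hnum : (L * (1 / 4 ^ l)) ^ 2 ≤ 1 / 2 ^ (6 * a) := by
    have h1 : L * (1 / 4 ^ l) = 1 / 4 ^ (2 * a) := by
      rw [hL]
      field_simp
    rw [h1, div_pow, one_pow, ← pow_mul, show (4 : ℝ) = 2 ^ 2 by norm_num, ← pow_mul]
    apply one_div_le_one_div_of_le (by positivity)
    apply pow_le_pow_right₀ (by norm_num)
    omega
  have hεle : ε ≤ ENNReal.ofReal (1 / 2 ^ (6 * a)) := by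
    apply ENNReal.ofReal_le_ofReal
    have h1 : a < 2 * m := lt_of_lt_of_le Nat.lt_two_pow_self hPA.2.2
    have h2 : (2 : ℝ) ^ (6 * a) * 2 ≤ 2 ^ (40 * m) := by
      rw [← pow_succ]
      apply pow_le_pow_right₀ (by norm_num)
      omega
    rw [div_le_div_iff₀ (by positivity) (by positivity)]
    linarith
  -- the chain of inequalities
  set F : ℝ × ℝ → ℝ≥0∞ := fun x => (8 * sa t L X1 x + 8 * ε) * ‖Ex u x‖ₑ ^ 2 with hFdef
  have hFm : Measurable F :=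
    (((meas_sa t L hX1m).const_mul _).add_const _).mul hEm
  have hFm2 : Measurable (fun y : ℝ => ∫⁻ s : ℝ, F (s • nv t + y • tv t)) := by
    exact Measurable.lintegral_prod_right' (ν := (volume : Measure ℝ))
      (f := fun P : ℝ × ℝ => F (P.2 • nv t + P.1 • tv t)) (hFm.comp (frm_meas t))
  calc ∫⁻ x, GK a m j Y2 x * ‖Ex u x‖ₑ ^ 2
      = ∫⁻ y : ℝ, ∫⁻ s : ℝ, GK a m j Y2 (s • nv t + y • tv t) *
          ‖Ex u (s • nv t + y • tv t)‖ₑ ^ 2 := hF _ (hG1.mul hEm)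
    _ = ∫⁻ y : ℝ, ∫⁻ s : ℝ, GK a m j Y2 (s • nv t + y • tv t) *
          ‖Ex1 (Hs t u y) s‖ₑ ^ 2 := by
        simp_rw [hHs3]
    _ ≤ ∫⁻ y : ℝ, (4 * (∫⁻ s : ℝ, avgc L (fun s => GK a m j Y2 (s • nv t + y • tv t)) s *
          ‖Ex1 (Hs t u y) s‖ₑ ^ 2) +
          C * ENNReal.ofReal ((L * (1 / 4 ^ l)) ^ 2) * n1 (Hs t u y)) := by
        refine lintegral_mono (fun y => ?_)
        exact hC L (1 / 4 ^ l) (sg + c / 4 ^ l) (Hs t u y)
          (fun s => GK a m j Y2 (s • nv t + y • tv t)) hLpos (by positivity) (hHs1 y) (hsupp y)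
          (hG1.comp (show Measurable (fun s : ℝ => s • nv t + y • tv t) by fun_prop))
          (fun s => hG2 _)
    _ ≤ ∫⁻ y : ℝ, ((∫⁻ s : ℝ, F (s • nv t + y • tv t)) +
          C * ENNReal.ofReal (1 / 2 ^ (6 * a)) * n1 (Hs t u y)) := by
        refine lintegral_mono (fun y => ?_)
        refine add_le_add ?_ ?_
        · rw [← lintegral_const_mul' _ _ (by simp)]
          refine lintegral_mono (fun s => ?_)
          simp only [hFdef]
          rw [hHs3, ← mul_assoc]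
          gcongr
          calc 4 * avgc L (fun s => GK a m j Y2 (s • nv t + y • tv t)) s
              ≤ 4 * (2 * sa t L X1 (s • nv t + y • tv t) + 2 * ε) := by
                gcongr
                exact avgc_le hLpos hκ
            _ = 8 * sa t L X1 (s • nv t + y • tv t) + 8 * ε := by ring
        · gcongr
    _ = (∫⁻ x, F x) + C * ENNReal.ofReal (1 / 2 ^ (6 * a)) * n2 u := by
        rw [lintegral_add_left hFm2, lintegral_const_mul' _ _
          (ENNReal.mul_ne_top ENNReal.coe_ne_top ENNReal.ofReal_ne_top), hHs4, ← hF F hFm]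
    _ = (8 * (∫⁻ x, sa t L X1 x * ‖Ex u x‖ₑ ^ 2) + 8 * ε * n2 u) +
          C * ENNReal.ofReal (1 / 2 ^ (6 * a)) * n2 u := by
        congr 1
        simp only [hFdef, add_mul]
        rw [lintegral_add_right _ (hEm.const_mul _), lintegral_const_mul _ hEm, (hPl u hubd).2]
        congr 1
        simp only [mul_assoc]
        exact lintegral_const_mul' _ _ (by simp)
    _ ≤ (8 * (∫⁻ x, sa t L X1 x * ‖Ex u x‖ₑ ^ 2) +
          8 * ENNReal.ofReal (1 / 2 ^ (6 * a)) * n2 u) +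
          C * ENNReal.ofReal (1 / 2 ^ (6 * a)) * n2 u := by
        gcongr
    _ = 8 * (∫⁻ x, sa t L X1 x * ‖Ex u x‖ₑ ^ 2) +
          (C + 8) * ENNReal.ofReal (1 / 2 ^ (6 * a)) * n2 u := by ring

end Pool.Agent.LLog.CHD_

namespace Pool.Agent.LLog

open MeasureTheory Set
open scoped ENNReal NNReal ComplexConjugate
open Pool.Agent.KSP (ee dot nr Ex Ex1 Bd Bd1 n1 n2 lg V0 ann)
open CHD_

theorem pCHD (hSHT : tSHT) (hFRM : tFRM) (hSEC : tSEC) (hGK : tGK) (hGEO : tGEO) : tCHD := by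
  obtain ⟨C, hC⟩ := hSHT
  refine ⟨2 * (C + 8), ?_⟩
  intro a m l sg sl h X hPA hsg0 hsg1 hsl1 hsl2 hl hlm hcore hX
  have ha : 20 ≤ a := hPA.1
  set j := l - 1 + 8 * a with hj
  have hde : (2 : ℝ) ^ (6 * a + j) ≤ de a (l - 1) := by
    unfold de
    apply pow_le_pow_right₀ (by norm_num)
    omega
  have hdpos : 0 < de a (l - 1) := by
    unfold de
    positivity
  -- one radial interval
  have key : ∀ c ∈ Finset.range (2 * 4 ^ l), ∫⁻ x in inn (3 * de a (l - 1)) (X c),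
        ‖Ex ({ξ | cd sg l c ξ}.indicator h) x‖ₑ ^ 2 ≤
      2 * ∑ p ∈ Finset.range (3 * 2 ^ j),
        (8 * (∫⁻ x, sa (tp sl j p) (4 ^ l / 4 ^ (2 * a)) (inn (de a (l - 1)) (X c)) x *
          ‖Ex ({ξ | cd sg l c ξ ∧ cp sl j p ξ}.indicator h) x‖ₑ ^ 2) +
        (C + 8) * ENNReal.ofReal (1 / 2 ^ (6 * a)) *
          n2 ({ξ | cd sg l c ξ ∧ cp sl j p ξ}.indicator h)) := by
    intro c _
    set Y2 := inn (2 * de a (l - 1)) (X c) with hY2
    have hY2m : MeasurableSet Y2 := (isClosed_inn _ _).measurableSet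
    have hY2f : volume Y2 < ⊤ :=
      lt_of_le_of_lt (measure_mono (inn_subset (by linarith) _)) (hX c).2
    obtain ⟨hG1, hG2, hG3, hG4, hG5⟩ := hGK a m j Y2 hPA hY2m
    have hcd : Bd ({ξ | cd sg l c ξ}.indicator h) := bd_ind hcore.1 (meas_cd sg l c)
    have hEm : Measurable (fun x => ‖Ex ({ξ | cd sg l c ξ}.indicator h) x‖ₑ ^ 2) :=
      ((Pool.Agent.KSP.pPl2 _ hcd).1.measurable.enorm).pow_const 2
    have hub : ∀ p, Bd ({ξ | cd sg l c ξ ∧ cp sl j p ξ}.indicator h) := fun p =>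
      bd_ind hcore.1 ((meas_cd sg l c).inter (meas_cp sl j p))
    have hEx : ∀ x, Ex ({ξ | cd sg l c ξ}.indicator h) x =
        ∑ p ∈ Finset.range (3 * 2 ^ j), Ex ({ξ | cd sg l c ξ ∧ cp sl j p ξ}.indicator h) x := by
      intro x
      rw [decomp (sg := sg) (l := l) (j := j) (c := c) hsl1 hsl2 (fun ξ hξ => (hcore.2 ξ hξ).1)]
      exact Ex_sum _ _ (fun p _ => hub p) x
    calc ∫⁻ x in inn (3 * de a (l - 1)) (X c), ‖Ex ({ξ | cd sg l c ξ}.indicator h) x‖ₑ ^ 2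
        ≤ ∫⁻ x in inn (3 * de a (l - 1)) (X c),
            2 * (GK a m j Y2 x * ‖Ex ({ξ | cd sg l c ξ}.indicator h) x‖ₑ ^ 2) := by
          refine setLIntegral_mono' (isClosed_inn _ _).measurableSet (fun x hx => ?_)
          have h1 : 1 ≤ 2 * GK a m j Y2 x := by
            apply hG3 x
            intro y h1 h2
            have hx' : x ∈ inn (2 * de a (l - 1) + de a (l - 1)) (X c) := by
              rw [show 2 * de a (l - 1) + de a (l - 1) = 3 * de a (l - 1) by ring]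
              exact hx
            exact inn_shift hx' (le_trans h1 hde) (le_trans h2 hde)
          calc ‖Ex ({ξ | cd sg l c ξ}.indicator h) x‖ₑ ^ 2
              = 1 * ‖Ex ({ξ | cd sg l c ξ}.indicator h) x‖ₑ ^ 2 := (one_mul _).symm
            _ ≤ (2 * GK a m j Y2 x) * ‖Ex ({ξ | cd sg l c ξ}.indicator h) x‖ₑ ^ 2 := by gcongr
            _ = _ := by ring
      _ ≤ ∫⁻ x, 2 * (GK a m j Y2 x * ‖Ex ({ξ | cd sg l c ξ}.indicator h) x‖ₑ ^ 2) :=
          setLIntegral_le_lintegral _ _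
      _ = 2 * ∫⁻ x, GK a m j Y2 x * ‖∑ p ∈ Finset.range (3 * 2 ^ j),
            Ex ({ξ | cd sg l c ξ ∧ cp sl j p ξ}.indicator h) x‖ₑ ^ 2 := by
          rw [lintegral_const_mul' _ _ (by simp)]
          simp_rw [hEx]
      _ ≤ 2 * ∑ p ∈ Finset.range (3 * 2 ^ j), ∫⁻ x, GK a m j Y2 x *
            ‖Ex ({ξ | cd sg l c ξ ∧ cp sl j p ξ}.indicator h) x‖ₑ ^ 2 := by
          gcongr
          refine hSEC a m j (3 * 2 ^ j) sl Y2
            (fun p => {ξ | cd sg l c ξ ∧ cp sl j p ξ}.indicator h) hPA hY2m hY2f ?_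
          intro p
          refine ⟨hub p, fun ξ hξ => ?_⟩
          have hξm : ξ ∈ {ξ | cd sg l c ξ ∧ cp sl j p ξ} := by
            by_contra hcon
            exact hξ (indicator_of_notMem hcon _)
          have hhξ : h ξ ≠ 0 := by
            rw [indicator_of_mem hξm] at hξ
            exact hξ
          exact ⟨(hcore.2 ξ hhξ).1, hξm.2, (hcore.2 ξ hhξ).2.2 j (by omega)⟩
      _ ≤ _ := by
          gcongr with p hp
          exact one_cap hFRM hGK hGEO hC Pool.Agent.KSP.pPl2 hPA hsl1 hsl2 hl hcore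
            (Finset.mem_range.1 hp)
  calc ∑ c ∈ Finset.range (2 * 4 ^ l), ∫⁻ x in inn (3 * de a (l - 1)) (X c),
        ‖Ex ({ξ | cd sg l c ξ}.indicator h) x‖ₑ ^ 2
      ≤ ∑ c ∈ Finset.range (2 * 4 ^ l), 2 * ∑ p ∈ Finset.range (3 * 2 ^ j),
        (8 * (∫⁻ x, sa (tp sl j p) (4 ^ l / 4 ^ (2 * a)) (inn (de a (l - 1)) (X c)) x *
          ‖Ex ({ξ | cd sg l c ξ ∧ cp sl j p ξ}.indicator h) x‖ₑ ^ 2) +
        (C + 8) * ENNReal.ofReal (1 / 2 ^ (6 * a)) *
          n2 ({ξ | cd sg l c ξ ∧ cp sl j p ξ}.indicator h)) := Finset.sum_le_sum key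
    _ = 16 * (∑ c ∈ Finset.range (2 * 4 ^ l), ∑ p ∈ Finset.range (3 * 2 ^ j),
          ∫⁻ x, sa (tp sl j p) (4 ^ l / 4 ^ (2 * a)) (inn (de a (l - 1)) (X c)) x *
          ‖Ex ({ξ | cd sg l c ξ ∧ cp sl j p ξ}.indicator h) x‖ₑ ^ 2) +
        2 * (C + 8) * ENNReal.ofReal (1 / 2 ^ (6 * a)) *
          ∑ c ∈ Finset.range (2 * 4 ^ l), ∑ p ∈ Finset.range (3 * 2 ^ j),
            n2 ({ξ | cd sg l c ξ ∧ cp sl j p ξ}.indicator h) := by
        simp only [Finset.sum_add_distrib, Finset.mul_sum, mul_add]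
        congr 1
        · refine Finset.sum_congr rfl (fun c _ => Finset.sum_congr rfl (fun p _ => ?_))
          ring
        · refine Finset.sum_congr rfl (fun c _ => Finset.sum_congr rfl (fun p _ => ?_))
          ring
    _ ≤ ((2 * (C + 8) : ℝ≥0) : ℝ≥0∞) *
          (∑ c ∈ Finset.range (2 * 4 ^ l), ∑ p ∈ Finset.range (3 * 2 ^ j),
          ∫⁻ x, sa (tp sl j p) (4 ^ l / 4 ^ (2 * a)) (inn (de a (l - 1)) (X c)) x *
          ‖Ex ({ξ | cd sg l c ξ ∧ cp sl j p ξ}.indicator h) x‖ₑ ^ 2) +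
        ((2 * (C + 8) : ℝ≥0) : ℝ≥0∞) * ENNReal.ofReal (1 / 2 ^ (6 * a)) * n2 h := by
        have h16 : (16 : ℝ≥0∞) ≤ ((2 * (C + 8) : ℝ≥0) : ℝ≥0∞) := by
          push_cast
          calc (16 : ℝ≥0∞) = 2 * 8 := by norm_num
            _ ≤ 2 * (C + 8) := by
              gcongr
              exact le_add_self
        have h17 : (2 * (C + 8) : ℝ≥0∞) = ((2 * (C + 8) : ℝ≥0) : ℝ≥0∞) := by push_cast; rfl
        rw [h17]
        gcongr
        exact sum_n2 hcore.1 _ _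

end Pool.Agent.LLog
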