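import Pool.Agent.LLog.Targets

set_option autoImplicit false

/-! Levels above the first unpopular node. -/

namespace Pool.Agent.LLog

open MeasureTheory Set
open scoped ENNReal NNReal ComplexConjugate
open Pool.Agent.KSP (ee dot nr Ex Ex1 Bd Bd1 n1 n2 lg V0 ann)

namespace BDJ_

theorem mem_cell {L : ℝ} (hL : 0 < L) (n : ℤ) (s : ℝ) :
    s ∈ Ico (L * n) (L * (n + 1)) ↔ ⌊s / L⌋ = n := by
  rw [Int.floor_eq_iff, mem_Ico, le_div_iff₀ hL, div_lt_iff₀ hL, mul_comm L, mul_comm L]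

/-- decomposition of an integral over cells -/
theorem lint_cells {L : ℝ} (hL : 0 < L) (f : ℝ → ℝ≥0∞) :
    ∫⁻ s, f s = ∑' n : ℤ, ∫⁻ s in Ico (L * n) (L * (n + 1)), f s := by
  have hU : (⋃ n : ℤ, Ico (L * n) (L * (n + 1))) = univ := by
    ext s
    simp only [mem_iUnion, mem_cell hL, mem_univ, iff_true]
    exact ⟨_, rfl⟩
  rw [← setLIntegral_univ, ← hU, lintegral_iUnion (fun n => measurableSet_Ico)]
  intro n n' hn
  rw [Function.onFun, Set.disjoint_left]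
  intro s hs hs'
  rw [mem_cell hL] at hs hs'
  exact hn (hs.symm.trans hs')

/-- the cell of the longer cell -/
theorem floor_mul (L : ℝ) (M : ℕ) (s : ℝ) :
    ⌊s / (L * M)⌋ = ⌊s / L⌋ / (M : ℤ) := by
  rw [← div_div, Int.floor_div_natCast]

theorem cell_sub {L : ℝ} (hL : 0 < L) {M : ℕ} (hM : 0 < M) (n : ℤ) :
    Ico (L * n) (L * (n + 1)) ⊆
      Ico (L * M * ((n / (M : ℤ) : ℤ) : ℝ)) (L * M * (((n / (M : ℤ) : ℤ) : ℝ) + 1)) := by
  intro s hs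
  have hLM : 0 < L * M := by positivity
  rw [mem_cell hL] at hs
  rw [mem_cell hLM, floor_mul L M, hs]

/-- the estimate on unpopular cells -/
theorem cell_bound {L : ℝ} (hL : 0 < L) {M : ℕ} (hM : 0 < M) (g g' : ℝ → ℝ≥0∞)
    (hg : Measurable g) (hgg : ∀ s, g s ≤ g' s) (ρ : ℝ≥0∞) (Φ : ℤ → ℝ≥0∞) :
    ∫⁻ s, (open Classical in if avgc (L * M) g' s < ρ then g s * Φ ⌊s / L⌋ else 0) ≤
      ρ * M * ∫⁻ s, Φ ⌊s / L⌋ := by
  classical
  have hLM : 0 < L * M := by positivity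
  rw [lint_cells hL, lint_cells hL (fun s => Φ ⌊s / L⌋), ← ENNReal.tsum_mul_left]
  refine ENNReal.tsum_le_tsum fun n => ?_
  set N : ℤ := n / (M : ℤ) with hN
  set A : ℝ≥0∞ := (ENNReal.ofReal (L * M))⁻¹ * ∫⁻ t in Ico (L * M * N) (L * M * (N + 1)), g' t
    with hA
  have hav : ∀ s ∈ Ico (L * n) (L * (n + 1)), avgc (L * M) g' s = A := by
    intro s hs
    rw [mem_cell hL] at hs
    unfold avgc
    rw [floor_mul L M, hs]
  have hfl : ∀ s ∈ Ico (L * n) (L * (n + 1)), Φ ⌊s / L⌋ = Φ n := by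
    intro s hs
    rw [mem_cell hL] at hs
    rw [hs]
  have hright : ∫⁻ s in Ico (L * n) (L * (n + 1)), Φ ⌊s / L⌋ = Φ n * ENNReal.ofReal L := by
    rw [setLIntegral_congr_fun measurableSet_Ico hfl, setLIntegral_const, Real.volume_Ico]
    congr 2
    ring
  rw [hright]
  by_cases hAρ : A < ρ
  · have h1 : ∫⁻ s in Ico (L * n) (L * (n + 1)),
        (if avgc (L * M) g' s < ρ then g s * Φ ⌊s / L⌋ else 0) =
        (∫⁻ s in Ico (L * n) (L * (n + 1)), g s) * Φ n := by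
      rw [← lintegral_mul_const _ hg]
      refine setLIntegral_congr_fun measurableSet_Ico fun s hs => ?_
      simp only [hav s hs, hfl s hs, if_pos hAρ]
    rw [h1]
    have h2 : ∫⁻ s in Ico (L * n) (L * (n + 1)), g s ≤ ENNReal.ofReal (L * M) * A := by
      have h3 : ENNReal.ofReal (L * M) * A = ∫⁻ t in Ico (L * M * N) (L * M * (N + 1)), g' t := by
        rw [hA, ← mul_assoc, ENNReal.mul_inv_cancel, one_mul]
        · simpa using hLM
        · exact ENNReal.ofReal_ne_top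
      rw [h3]
      exact (lintegral_mono fun s => hgg s).trans (lintegral_mono_set (cell_sub hL hM n))
    calc (∫⁻ s in Ico (L * n) (L * (n + 1)), g s) * Φ n
        ≤ (ENNReal.ofReal (L * M) * ρ) * Φ n := by
          gcongr
          exact h2.trans (by gcongr)
      _ = ρ * M * (Φ n * ENNReal.ofReal L) := by
          rw [ENNReal.ofReal_mul hL.le, ENNReal.ofReal_natCast]
          ring
  · have h1 : ∫⁻ s in Ico (L * n) (L * (n + 1)),
        (if avgc (L * M) g' s < ρ then g s * Φ ⌊s / L⌋ else 0) = 0 := by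
      rw [setLIntegral_congr_fun (g := fun _ => 0) measurableSet_Ico, lintegral_zero]
      intro s hs
      simp only [hav s hs, if_neg hAρ]
    rw [h1]
    exact zero_le

theorem avgc_measurable (L : ℝ) (g : ℝ → ℝ≥0∞) : Measurable (avgc L g) := by
  have h1 : avgc L g = (fun n : ℤ => (ENNReal.ofReal L)⁻¹ *
      ∫⁻ t in Ico (L * n) (L * (n + 1)), g t) ∘ fun s : ℝ => ⌊s / L⌋ := by
    funext s
    rfl
  rw [h1]
  exact (measurable_of_countable _).comp (Int.measurable_floor.comp (measurable_id.div_const L))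

/-! ### Frequencies -/

/-- the part of `H` in the interval `c` of level `l` -/
noncomputable def pt (sg : ℝ) (H : ℝ → ℂ) (l c : ℕ) : ℝ → ℂ := {ζ : ℝ | cdr sg l c ζ}.indicator H

theorem meas_cdr (sg : ℝ) (l c : ℕ) : MeasurableSet {ζ : ℝ | cdr sg l c ζ} := by
  unfold cdr
  have h1 : Measurable fun r : ℝ => 4 ^ l * (r - sg) := by fun_prop
  exact (measurableSet_le measurable_const h1).inter (measurableSet_lt h1 measurable_const)

theorem pt_bd {H : ℝ → ℂ} (hH : Bd1 H) (sg : ℝ) (l c : ℕ) : Bd1 (pt sg H l c) := by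
  obtain ⟨h1, ⟨B, hB⟩, R, hR⟩ := hH
  refine ⟨h1.indicator (meas_cdr sg l c), ⟨B, fun τ => ?_⟩, R, fun τ hτ => hR τ ?_⟩
  · unfold pt
    exact (norm_indicator_le_norm_self H τ).trans (hB τ)
  · intro h
    apply hτ
    unfold pt
    rw [Set.indicator_apply_eq_zero]
    exact fun _ => h

theorem cdr_eq {sg : ℝ} {l c : ℕ} {ζ : ℝ} (h : cdr sg l c ζ) : c = ⌊4 ^ l * (ζ - sg)⌋₊ := by
  symm
  rw [Nat.floor_eq_iff ((Nat.cast_nonneg c).trans h.1)]
  exact h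

theorem pt_supp {sg : ℝ} {H : ℝ → ℂ} {l l' c : ℕ} (hl : l' ≤ l) {ζ : ℝ}
    (h : pt sg H l c ζ ≠ 0) : |ζ - (sg + c / 4 ^ l)| ≤ 1 / 4 ^ l' := by
  have h1 : cdr sg l c ζ := by
    by_contra hn
    apply h
    unfold pt
    exact Set.indicator_of_notMem (show ζ ∉ {ζ : ℝ | cdr sg l c ζ} from hn) H
  obtain ⟨h2, h3⟩ := h1
  have h4 : (0 : ℝ) < 4 ^ l := by positivity
  have h5 : (c : ℝ) / 4 ^ l ≤ ζ - sg := by
    rw [div_le_iff₀ h4]
    linarith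
  have h6 : ζ - sg < c / 4 ^ l + 1 / 4 ^ l := by
    rw [← add_div, lt_div_iff₀ h4]
    linarith
  have h7 : (1 : ℝ) / 4 ^ l ≤ 1 / 4 ^ l' := by
    apply one_div_le_one_div_of_le (by positivity)
    exact pow_le_pow_right₀ (by norm_num) hl
  rw [abs_le]
  constructor <;> linarith [show (0 : ℝ) < 1 / 4 ^ l' by positivity]

/-- each piece is used at most four times -/
theorem sum_n1 {sg : ℝ} {J : ℕ → ℕ → Finset ℕ} {H : ℝ → ℂ} (hH : Measurable H)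
    (hJ : ∀ l w, ∀ c ∈ J l w, c / 4 = w / 4 ∧ c ≠ w) (l M : ℕ) :
    ∑ w ∈ Finset.range M, ∑ c ∈ J l w, n1 (pt sg H l c) ≤ 4 * n1 H := by
  classical
  unfold n1
  have hm : ∀ c, Measurable fun τ => ‖pt sg H l c τ‖ₑ ^ 2 := fun c =>
    ((hH.indicator (meas_cdr sg l c)).enorm).pow_const 2
  have h1 : ∑ w ∈ Finset.range M, ∑ c ∈ J l w, ∫⁻ τ, ‖pt sg H l c τ‖ₑ ^ 2 =
      ∫⁻ τ, ∑ w ∈ Finset.range M, ∑ c ∈ J l w, ‖pt sg H l c τ‖ₑ ^ 2 := by
    rw [lintegral_finsetSum _ fun w _ => Finset.measurable_sum _ fun c _ => hm c]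
    refine Finset.sum_congr rfl fun w _ => ?_
    rw [lintegral_finsetSum _ fun c _ => hm c]
  rw [h1, ← lintegral_const_mul' _ _ (by norm_num)]
  refine lintegral_mono fun τ => ?_
  set N : ℕ := ⌊4 ^ l * (τ - sg)⌋₊ with hN
  have h2 : ∀ c, ‖pt sg H l c τ‖ₑ ^ 2 ≤ if c = N then ‖H τ‖ₑ ^ 2 else 0 := by
    intro c
    by_cases hc : cdr sg l c τ
    · rw [if_pos (cdr_eq hc)]
      unfold pt
      rw [Set.indicator_of_mem (show τ ∈ {ζ : ℝ | cdr sg l c ζ} from hc)]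
    · unfold pt
      rw [Set.indicator_of_notMem (show τ ∉ {ζ : ℝ | cdr sg l c ζ} from hc)]
      simp
  have h3 : ∀ w, ∑ c ∈ J l w, ‖pt sg H l c τ‖ₑ ^ 2 ≤ if w / 4 = N / 4 then ‖H τ‖ₑ ^ 2 else 0 := by
    intro w
    refine (Finset.sum_le_sum fun c _ => h2 c).trans ?_
    rw [Finset.sum_ite_eq']
    by_cases hw : N ∈ J l w
    · rw [if_pos hw, if_pos (hJ l w N hw).1.symm]
    · rw [if_neg hw]
      exact zero_le
  refine (Finset.sum_le_sum fun w _ => h3 w).trans ?_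
  rw [← Finset.sum_filter, Finset.sum_const, nsmul_eq_mul]
  gcongr
  have h4 : (Finset.range M).filter (fun w => w / 4 = N / 4) ⊆
      Finset.Ico (4 * (N / 4)) (4 * (N / 4) + 4) := by
    intro w hw
    rw [Finset.mem_filter] at hw
    rw [Finset.mem_Ico]
    omega
  have h5 := Finset.card_le_card h4
  rw [Nat.card_Ico] at h5
  have h6 : ((Finset.range M).filter (fun w => w / 4 = N / 4)).card ≤ 4 := by omega
  exact_mod_cast h6

/-- Cauchy-Schwarz for the pieces -/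
theorem Dj_sq {sg : ℝ} {J : ℕ → ℕ → Finset ℕ} {H : ℝ → ℂ}
    (hJ : ∀ l w, ∀ c ∈ J l w, c / 4 = w / 4 ∧ c ≠ w) (l w : ℕ) (s : ℝ) :
    ‖Dj sg J H l w s‖ₑ ^ 2 ≤ 4 * ∑ c ∈ J l w, ‖Ex1 (pt sg H l c) s‖ₑ ^ 2 := by
  have hcard : (J l w).card ≤ 4 := by
    have h4 : J l w ⊆ Finset.Ico (4 * (w / 4)) (4 * (w / 4) + 4) := by
      intro c hc
      have := hJ l w c hc
      rw [Finset.mem_Ico]
      omega
    have h5 := Finset.card_le_card h4
    rw [Nat.card_Ico] at h5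
    omega
  have h1 : ‖Dj sg J H l w s‖ₑ ≤ ∑ c ∈ J l w, ‖Ex1 (pt sg H l c) s‖ₑ := by
    unfold Dj
    exact enorm_sum_le _ _
  have h2 := ENNReal.rpow_sum_le_const_mul_sum_rpow (J l w)
    (fun c => ‖Ex1 (pt sg H l c) s‖ₑ) (p := 2) (by norm_num)
  calc ‖Dj sg J H l w s‖ₑ ^ 2 ≤ (∑ c ∈ J l w, ‖Ex1 (pt sg H l c) s‖ₑ) ^ 2 := by gcongr
    _ = (∑ c ∈ J l w, ‖Ex1 (pt sg H l c) s‖ₑ) ^ (2 : ℝ) := by
        rw [← ENNReal.rpow_natCast]
        norm_num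
    _ ≤ _ := h2
    _ ≤ 4 * ∑ c ∈ J l w, ‖Ex1 (pt sg H l c) s‖ₑ ^ 2 := by
        have h3 : ((J l w).card : ℝ≥0∞) ^ ((2 : ℝ) - 1) ≤ 4 := by
          rw [show (2 : ℝ) - 1 = 1 by norm_num, ENNReal.rpow_one]
          exact_mod_cast hcard
        have h4 : ∀ c, ‖Ex1 (pt sg H l c) s‖ₑ ^ (2 : ℝ) = ‖Ex1 (pt sg H l c) s‖ₑ ^ 2 := by
          intro c
          rw [← ENNReal.rpow_natCast]
          norm_num
        simp only [h4]
        gcongr

theorem chw_meas {e : ℕ} {χ : ℕ → ℝ → ℝ≥0∞} (hχ : ∀ u, Measurable (χ u)) (l w : ℕ) :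
    Measurable (chw e χ l w) := by
  unfold chw
  exact Finset.measurable_sum _ fun u _ => hχ u

theorem div_pow {e l l' : ℕ} (h : l' ≤ l) (h' : l ≤ e) (u : ℕ) :
    u / 4 ^ (e - l') = u / 4 ^ (e - l) / 4 ^ (l - l') := by
  rw [Nat.div_div_eq_div_mul, ← pow_add]
  congr 2
  omega

theorem chw_mono {e l l' : ℕ} (h : l' ≤ l) (h' : l ≤ e) (χ : ℕ → ℝ → ℝ≥0∞) (w : ℕ) (s : ℝ) :
    chw e χ l w s ≤ chw e χ l' (w / 4 ^ (l - l')) s := by
  unfold chw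
  apply Finset.sum_le_sum_of_subset
  intro u hu
  rw [Finset.mem_filter] at hu ⊢
  refine ⟨hu.1, ?_⟩
  rw [div_pow h h', hu.2]

/-- one pair of levels -/
theorem pair {C : ℝ≥0} (hC : ∀ (L b r0 : ℝ) (H : ℝ → ℂ), 0 < L → 0 < b → Bd1 H →
      (∀ ζ, H ζ ≠ 0 → |ζ - r0| ≤ b) → ∃ Φ : ℤ → ℝ≥0∞,
      (∀ s, ‖Ex1 H s‖ₑ ^ 2 ≤ Φ ⌊s / L⌋) ∧
      ∫⁻ s, Φ ⌊s / L⌋ ≤ C * ENNReal.ofReal (1 + (L * b) ^ 2) * n1 H)
    {a e : ℕ} {sg : ℝ} {J : ℕ → ℕ → Finset ℕ} {H : ℝ → ℂ} {χ : ℕ → ℝ → ℝ≥0∞}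
    (hH : Bd1 H) (hJ : ∀ l w, ∀ c ∈ J l w, c / 4 = w / 4 ∧ c ≠ w) (hχ : ∀ u, Measurable (χ u))
    {l l' : ℕ} (hl : l' ≤ l) (hle : l ≤ e) :
    ∃ Ψ : ℝ → ℝ≥0∞, Measurable Ψ ∧
      (∀ s, ∑ u ∈ Finset.range (2 * 4 ^ e), χ u s * (open Classical in
        if avgc (4 ^ (l' + 5 * a)) (chw e χ l' (u / 4 ^ (e - l'))) s <
          ENNReal.ofReal (1 / 2 ^ (20 * a)) then ‖Dj sg J H l (u / 4 ^ (e - l)) s‖ₑ ^ 2 else 0) ≤
        Ψ s) ∧
      ∫⁻ s, Ψ s ≤ 32 * C * ENNReal.ofReal (1 / 2 ^ (10 * a)) * n1 H := by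
  classical
  have hΦ : ∀ c : ℕ, ∃ Φ : ℤ → ℝ≥0∞, (∀ s, ‖Ex1 (pt sg H l c) s‖ₑ ^ 2 ≤ Φ ⌊s / 4 ^ l'⌋) ∧
      ∫⁻ s : ℝ, Φ ⌊s / 4 ^ l'⌋ ≤ 2 * C * n1 (pt sg H l c) := by
    intro c
    obtain ⟨Φ, h1, h2⟩ := hC (4 ^ l') (1 / 4 ^ l') (sg + c / 4 ^ l) (pt sg H l c) (by positivity)
      (by positivity) (pt_bd hH sg l c) (fun ζ hζ => pt_supp hl hζ)
    refine ⟨Φ, h1, h2.trans ?_⟩
    have h3 : (1 : ℝ) + (4 ^ l' * (1 / 4 ^ l')) ^ 2 = 2 := by
      rw [mul_one_div_cancel (by positivity)]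
      norm_num
    rw [h3, mul_comm (C : ℝ≥0∞)]
    gcongr
    norm_num
  choose Φ hΦ1 hΦ2 using hΦ
  set ρ : ℝ≥0∞ := ENNReal.ofReal (1 / 2 ^ (20 * a)) with hρ
  have hLM : (4 : ℝ) ^ (l' + 5 * a) = 4 ^ l' * ((4 ^ (5 * a) : ℕ) : ℝ) := by
    push_cast
    rw [pow_add]
  set F : ℕ → ℝ → ℝ≥0∞ := fun w s =>
    if avgc (4 ^ l' * ((4 ^ (5 * a) : ℕ) : ℝ)) (chw e χ l' (w / 4 ^ (l - l'))) s < ρ then
      4 * ∑ c ∈ J l w, Φ c ⌊s / 4 ^ l'⌋ else 0 with hF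
  have hΦm : ∀ c, Measurable fun s : ℝ => Φ c ⌊s / 4 ^ l'⌋ := fun c =>
    (measurable_of_countable (Φ c)).comp (Int.measurable_floor.comp (measurable_id.div_const _))
  have hset : ∀ w, MeasurableSet {s | avgc (4 ^ l' * ((4 ^ (5 * a) : ℕ) : ℝ))
      (chw e χ l' (w / 4 ^ (l - l'))) s < ρ} := fun w =>
    measurableSet_lt (avgc_measurable _ _) measurable_const
  have hFm : ∀ w, Measurable (F w) := fun w =>
    Measurable.ite (hset w) ((Finset.measurable_sum _ fun c _ => hΦm c).const_mul 4)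
      measurable_const
  refine ⟨fun s => ∑ w ∈ Finset.range (2 * 4 ^ l), chw e χ l w s * F w s,
    Finset.measurable_sum _ fun w _ => (chw_meas hχ l w).mul (hFm w), ?_, ?_⟩
  · intro s
    have h1 : ∀ u ∈ Finset.range (2 * 4 ^ e), χ u s * (if avgc (4 ^ (l' + 5 * a))
        (chw e χ l' (u / 4 ^ (e - l'))) s < ρ then ‖Dj sg J H l (u / 4 ^ (e - l)) s‖ₑ ^ 2 else 0) ≤
        χ u s * F (u / 4 ^ (e - l)) s := by
      intro u _
      gcongr
      simp only [hF]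
      rw [← div_pow hl hle, ← hLM]
      split_ifs
      · refine (Dj_sq hJ l _ s).trans ?_
        gcongr
        exact hΦ1 _ _
      · exact le_rfl
    refine (Finset.sum_le_sum h1).trans (le_of_eq ?_)
    rw [← Finset.sum_fiberwise_of_maps_to (t := Finset.range (2 * 4 ^ l))
      (g := fun u => u / 4 ^ (e - l))]
    · refine Finset.sum_congr rfl fun w _ => ?_
      unfold chw
      rw [Finset.sum_mul]
      refine Finset.sum_congr rfl fun u hu => ?_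
      rw [(Finset.mem_filter.1 hu).2]
    · intro u hu
      rw [Finset.mem_range] at hu ⊢
      rw [Nat.div_lt_iff_lt_mul (by positivity)]
      calc u < 2 * 4 ^ e := hu
        _ = 2 * 4 ^ l * 4 ^ (e - l) := by
          rw [mul_assoc, ← pow_add]
          congr 2
          omega
  · have h0 : ∫⁻ s, ∑ w ∈ Finset.range (2 * 4 ^ l), chw e χ l w s * F w s =
        ∑ w ∈ Finset.range (2 * 4 ^ l), ∫⁻ s, chw e χ l w s * F w s :=
      lintegral_finsetSum _ fun w _ => (chw_meas hχ l w).mul (hFm w)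
    rw [h0]
    have h1 : ∀ w, ∫⁻ s, chw e χ l w s * F w s ≤
        4 * (ρ * ((4 ^ (5 * a) : ℕ) : ℝ≥0∞)) * (2 * C) * ∑ c ∈ J l w, n1 (pt sg H l c) := by
      intro w
      have h2 : ∀ s, chw e χ l w s * F w s = ∑ c ∈ J l w, 4 *
          (if avgc (4 ^ l' * ((4 ^ (5 * a) : ℕ) : ℝ)) (chw e χ l' (w / 4 ^ (l - l'))) s < ρ then
            chw e χ l w s * Φ c ⌊s / 4 ^ l'⌋ else 0) := by
        intro s
        simp only [hF]
        split_ifs
        · rw [← Finset.mul_sum, ← Finset.mul_sum]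
          ring
        · simp
      have hm : ∀ c, Measurable fun s : ℝ =>
          (if avgc (4 ^ l' * ((4 ^ (5 * a) : ℕ) : ℝ)) (chw e χ l' (w / 4 ^ (l - l'))) s < ρ then
            chw e χ l w s * Φ c ⌊s / 4 ^ l'⌋ else 0) := fun c =>
        Measurable.ite (hset w) ((chw_meas hχ l w).mul (hΦm c)) measurable_const
      simp only [h2]
      rw [lintegral_finsetSum _ fun c _ => (hm c).const_mul 4, Finset.mul_sum]
      refine Finset.sum_le_sum fun c _ => ?_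
      rw [lintegral_const_mul _ (hm c), mul_assoc, mul_assoc]
      gcongr
      have h3 := cell_bound (L := 4 ^ l') (by positivity) (M := 4 ^ (5 * a)) (by positivity)
        (chw e χ l w) (chw e χ l' (w / 4 ^ (l - l'))) (chw_meas hχ l w)
        (fun s => chw_mono hl hle χ w s) ρ (Φ c)
      refine h3.trans ?_
      gcongr
      exact hΦ2 c
    refine (Finset.sum_le_sum fun w _ => h1 w).trans ?_
    rw [← Finset.mul_sum]
    refine (mul_le_mul_right (sum_n1 hH.1 hJ l (2 * 4 ^ l)) _).trans (le_of_eq ?_)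
    have h5 : ρ * ((4 ^ (5 * a) : ℕ) : ℝ≥0∞) = ENNReal.ofReal (1 / 2 ^ (10 * a)) := by
      rw [hρ, ← ENNReal.ofReal_natCast, ← ENNReal.ofReal_mul (by positivity)]
      congr 1
      push_cast
      rw [show (4 : ℝ) = 2 ^ 2 by norm_num, ← pow_mul]
      rw [show 20 * a = 10 * a + 2 * (5 * a) by ring, pow_add]
      field_simp
    rw [h5]
    ring

end BDJ_

open BDJ_

theorem pBDJ (hSC : tSC) : tBDJ := by
  obtain ⟨C, hC⟩ := hSC
  refine ⟨32 * C, ?_⟩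
  intro a i e b lam p sg J H χ hH1 hlam hp
  classical
  obtain ⟨ha, hai, hie, hea, hH, hsupp, hJ, hχ, hχ1⟩ := hH1
  have hpair : ∀ k k' : ℕ, ∃ Ψ : ℝ → ℝ≥0∞, k' ≤ k → k ≤ p → Measurable Ψ ∧
      (∀ s, ∑ u ∈ Finset.range (2 * 4 ^ e), χ u s * (
        if avgc (4 ^ ((lam + 7 * a * k') + 5 * a)) (chw e χ (lam + 7 * a * k')
          (u / 4 ^ (e - (lam + 7 * a * k')))) s <
          ENNReal.ofReal (1 / 2 ^ (20 * a)) then
            ‖Dj sg J H (lam + 7 * a * k) (u / 4 ^ (e - (lam + 7 * a * k))) s‖ₑ ^ 2 else 0) ≤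
        Ψ s) ∧
      ∫⁻ s, Ψ s ≤ 32 * C * ENNReal.ofReal (1 / 2 ^ (10 * a)) * n1 H := by
    intro k k'
    by_cases h : k' ≤ k ∧ k ≤ p
    · have h1 : lam + 7 * a * k' ≤ lam + 7 * a * k := by
        have := Nat.mul_le_mul_left (7 * a) h.1
        omega
      have h2 : lam + 7 * a * k ≤ e := by
        have := Nat.mul_le_mul_left (7 * a) h.2
        omega
      obtain ⟨Ψ, h3⟩ := pair (a := a) (sg := sg) hC hH hJ hχ h1 h2
      exact ⟨Ψ, fun _ _ => h3⟩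
    · exact ⟨0, fun h1 h2 => absurd ⟨h1, h2⟩ h⟩
  choose Ψ hΨ using hpair
  have hpt : ∀ s, ∑ u ∈ Finset.range (2 * 4 ^ e), χ u s *
      ∑ k ∈ Finset.Icc 1 p, (if pb a lam e χ k u s then
        ‖Dj sg J H (lam + 7 * a * k) (u / 4 ^ (e - (lam + 7 * a * k))) s‖ₑ ^ 2 else 0) ≤
      ∑ k ∈ Finset.Icc 1 p, ∑ k' ∈ Finset.Icc 1 k, Ψ k k' s := by
    intro s
    simp only [Finset.mul_sum]
    rw [Finset.sum_comm]
    refine Finset.sum_le_sum fun k hk => ?_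
    have hkp := (Finset.mem_Icc.1 hk).2
    refine le_trans ?_ (Finset.sum_le_sum fun k' hk' =>
      (hΨ k k' (Finset.mem_Icc.1 hk').2 hkp).2.1 s)
    rw [Finset.sum_comm]
    refine Finset.sum_le_sum fun u _ => ?_
    rw [← Finset.mul_sum]
    gcongr
    split_ifs with h
    · obtain ⟨k', h1, h2, h3⟩ := h
      refine le_trans (le_of_eq ?_) (Finset.single_le_sum (f := fun k' => (if avgc
        (4 ^ ((lam + 7 * a * k') + 5 * a)) (chw e χ (lam + 7 * a * k')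
          (u / 4 ^ (e - (lam + 7 * a * k')))) s <
          ENNReal.ofReal (1 / 2 ^ (20 * a)) then
            ‖Dj sg J H (lam + 7 * a * k) (u / 4 ^ (e - (lam + 7 * a * k))) s‖ₑ ^ 2 else 0))
        (fun _ _ => zero_le) (Finset.mem_Icc.2 ⟨h1, h2⟩))
      simp only [if_pos h3]
    · exact zero_le
  refine (lintegral_mono hpt).trans ?_
  rw [lintegral_finsetSum _ fun k hk => Finset.measurable_sum _ fun k' hk' =>
    (hΨ k k' (Finset.mem_Icc.1 hk').2 (Finset.mem_Icc.1 hk).2).1]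
  have h1 : ∀ k ∈ Finset.Icc 1 p, ∫⁻ s, ∑ k' ∈ Finset.Icc 1 k, Ψ k k' s ≤
      (p : ℝ≥0∞) * (32 * C * ENNReal.ofReal (1 / 2 ^ (10 * a)) * n1 H) := by
    intro k hk
    have hkp := (Finset.mem_Icc.1 hk).2
    rw [lintegral_finsetSum _ fun k' hk' => (hΨ k k' (Finset.mem_Icc.1 hk').2 hkp).1]
    refine (Finset.sum_le_sum fun k' hk' => (hΨ k k' (Finset.mem_Icc.1 hk').2 hkp).2.2).trans ?_
    rw [Finset.sum_const, Nat.card_Icc, nsmul_eq_mul]
    gcongr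
    omega
  refine (Finset.sum_le_sum h1).trans ?_
  rw [Finset.sum_const, Nat.card_Icc, nsmul_eq_mul]
  have hpa : p ≤ 2 ^ a := by
    by_contra hcon
    have h2 : 2 ^ a + 1 ≤ p := by omega
    have h3 : 7 * a * (2 ^ a + 1) ≤ 7 * a * p := Nat.mul_le_mul_left _ h2
    have h4 : 1 ≤ 7 * a := by omega
    have h5 : 1 * 2 ^ a ≤ 7 * a * 2 ^ a := Nat.mul_le_mul_right _ h4
    rw [mul_add, mul_one] at h3
    omega
  have h2 : ((p + 1 - 1 : ℕ) : ℝ≥0∞) * (p : ℝ≥0∞) * ENNReal.ofReal (1 / 2 ^ (10 * a)) ≤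
      ENNReal.ofReal (1 / 2 ^ (8 * a)) := by
    rw [Nat.add_sub_cancel, ← ENNReal.ofReal_natCast, ← ENNReal.ofReal_mul (by positivity),
      ← ENNReal.ofReal_mul (by positivity)]
    apply ENNReal.ofReal_le_ofReal
    have h3 : (p : ℝ) ≤ 2 ^ a := by exact_mod_cast hpa
    have h4 : (p : ℝ) * p ≤ 2 ^ a * 2 ^ a := by gcongr
    calc (p : ℝ) * p * (1 / 2 ^ (10 * a)) ≤ 2 ^ a * 2 ^ a * (1 / 2 ^ (10 * a)) := by gcongr
      _ = 1 / 2 ^ (8 * a) := by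
        rw [show 10 * a = 8 * a + a + a by ring, pow_add, pow_add]
        field_simp
  calc ((p + 1 - 1 : ℕ) : ℝ≥0∞) * ((p : ℝ≥0∞) * (32 * C * ENNReal.ofReal (1 / 2 ^ (10 * a)) * n1 H))
      = 32 * C * (((p + 1 - 1 : ℕ) : ℝ≥0∞) * (p : ℝ≥0∞) * ENNReal.ofReal (1 / 2 ^ (10 * a))) *
        n1 H := by ring
    _ ≤ 32 * C * ENNReal.ofReal (1 / 2 ^ (8 * a)) * n1 H := by gcongr
    _ = _ := by push_cast; ring

end Pool.Agent.LLog
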