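import Pool.Agent.LLog.Targets

set_option autoImplicit false

/-! LLG-BEL: the weighted martingale inequality on nested cells of the line. -/

open MeasureTheory Set
open scoped ENNReal NNReal

namespace Pool.Agent.LLog

namespace BEL_

/-- the cells of length `L` -/
def cI (L : ℝ) (n : ℤ) : Set ℝ := Ico (L * n) (L * (n + 1))

theorem mem_cI {L : ℝ} (hL : 0 < L) (n : ℤ) (s : ℝ) : s ∈ cI L n ↔ ⌊s / L⌋ = n := by
  rw [Int.floor_eq_iff, le_div_iff₀ hL, div_lt_iff₀ hL, cI, mem_Ico, mul_comm L, mul_comm L]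

theorem meas_cI (L : ℝ) (n : ℤ) : MeasurableSet (cI L n) := measurableSet_Ico

theorem vol_cI (L : ℝ) (n : ℤ) : volume (cI L n) = ENNReal.ofReal L := by
  rw [cI, Real.volume_Ico]
  congr 1
  ring

theorem Ico_split {L : ℝ} (hL : 0 < L) (c : ℤ) (m : ℕ) :
    Ico (L * (c : ℝ)) (L * ((c : ℝ) + ((m + 1 : ℕ) : ℝ))) =
      Ico (L * (c : ℝ)) (L * ((c : ℝ) + (m : ℝ))) ∪ cI L (c + (m : ℤ)) := by
  have h1 : cI L (c + (m : ℤ)) =
      Ico (L * ((c : ℝ) + (m : ℝ))) (L * ((c : ℝ) + ((m + 1 : ℕ) : ℝ))) := by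
    rw [cI]
    push_cast
    rw [add_assoc]
  rw [h1, Ico_union_Ico_eq_Ico]
  · have : (0 : ℝ) ≤ m := Nat.cast_nonneg m
    nlinarith
  · push_cast
    nlinarith

theorem Ico_disj {L : ℝ} (c : ℤ) (m : ℕ) :
    Disjoint (Ico (L * (c : ℝ)) (L * ((c : ℝ) + (m : ℝ)))) (cI L (c + (m : ℤ))) := by
  rw [Set.disjoint_left]
  intro x hx hx'
  rw [cI, mem_Ico] at hx'
  push_cast at hx'
  exact absurd hx.2 (not_lt.2 hx'.1)

theorem lsum {L : ℝ} (hL : 0 < L) (c : ℤ) (f : ℝ → ℝ≥0∞) (m : ℕ) :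
    ∫⁻ s in Ico (L * (c : ℝ)) (L * ((c : ℝ) + (m : ℝ))), f s =
      ∑ i ∈ Finset.range m, ∫⁻ s in cI L (c + (i : ℤ)), f s := by
  induction m with
  | zero => simp
  | succ m ih =>
    rw [Ico_split hL, lintegral_union (meas_cI _ _) (Ico_disj c m), ih, Finset.sum_range_succ]

theorem isum {E : Type} [NormedAddCommGroup E] [NormedSpace ℝ E] {L : ℝ} (hL : 0 < L) (c : ℤ)
    (f : ℝ → E) (m : ℕ) (hf : ∀ i : ℕ, i < m → IntegrableOn f (cI L (c + (i : ℤ)))) :
    IntegrableOn f (Ico (L * (c : ℝ)) (L * ((c : ℝ) + (m : ℝ)))) ∧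
    ∫ s in Ico (L * (c : ℝ)) (L * ((c : ℝ) + (m : ℝ))), f s =
      ∑ i ∈ Finset.range m, ∫ s in cI L (c + (i : ℤ)), f s := by
  induction m with
  | zero => simp
  | succ m ih =>
    obtain ⟨h1, h2⟩ := ih (fun i hi => hf i (hi.trans (Nat.lt_succ_self m)))
    have h3 := hf m (Nat.lt_succ_self m)
    refine ⟨?_, ?_⟩
    · rw [Ico_split hL]
      exact h1.union h3
    · rw [Ico_split hL, setIntegral_union (Ico_disj c m) (meas_cI _ _) h1 h3, h2,
        Finset.sum_range_succ]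

/-- a cell of length `L N` is a union of `N` cells of length `L` -/
theorem cI_mul (L : ℝ) (N : ℕ) (n : ℤ) :
    cI (L * N) n = Ico (L * (((N : ℤ) * n : ℤ) : ℝ)) (L * ((((N : ℤ) * n : ℤ) : ℝ) + (N : ℝ))) := by
  rw [cI]
  push_cast
  congr 1
  · ring
  · ring

/-- the average of `ω` on a cell -/
noncomputable def av (ω : ℝ → ℝ) (L : ℝ) (n : ℤ) : ℝ := L⁻¹ * ∫ s in cI L n, ω s

section

variable {ω : ℝ → ℝ} {ρ : ℝ}

theorem int_om (hm : Measurable ω) (hρ : 0 < ρ) (hω : ∀ s, ρ ≤ ω s ∧ ω s ≤ 1) (L : ℝ) (n : ℤ) :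
    IntegrableOn ω (cI L n) := by
  refine Measure.integrableOn_of_bounded (M := 1) ?_ hm.aestronglyMeasurable ?_
  · rw [vol_cI]
    exact ENNReal.ofReal_ne_top
  · filter_upwards with s
    rw [Real.norm_eq_abs, abs_of_nonneg (hρ.le.trans (hω s).1)]
    exact (hω s).2

theorem vol_real {L : ℝ} (hL : 0 < L) (n : ℤ) : volume.real (cI L n) = L := by
  rw [Measure.real, vol_cI, ENNReal.toReal_ofReal hL.le]

theorem av_le (hm : Measurable ω) (hρ : 0 < ρ) (hω : ∀ s, ρ ≤ ω s ∧ ω s ≤ 1) {L : ℝ}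
    (hL : 0 < L) (n : ℤ) : ρ ≤ av ω L n ∧ av ω L n ≤ 1 := by
  have hc : ∀ c : ℝ, ∫ _ in cI L n, c = L * c := by
    intro c
    rw [setIntegral_const, vol_real hL, smul_eq_mul]
  have hci : ∀ c : ℝ, IntegrableOn (fun _ : ℝ => c) (cI L n) := by
    intro c
    refine integrableOn_const ?_
    rw [vol_cI]
    exact ENNReal.ofReal_ne_top
  constructor
  · have h1 := setIntegral_mono (hci ρ) (int_om hm hρ hω L n) (fun s => (hω s).1)
    rw [hc] at h1
    rw [av, ← div_eq_inv_mul, le_div_iff₀ hL]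
    linarith
  · have h1 := setIntegral_mono (int_om hm hρ hω L n) (hci 1) (fun s => (hω s).2)
    rw [hc] at h1
    rw [av, ← div_eq_inv_mul, div_le_iff₀ hL]
    linarith

theorem lint_om (hm : Measurable ω) (hρ : 0 < ρ) (hω : ∀ s, ρ ≤ ω s ∧ ω s ≤ 1) {L : ℝ}
    (hL : 0 < L) (n : ℤ) :
    ∫⁻ s in cI L n, ENNReal.ofReal (ω s) = ENNReal.ofReal (L * av ω L n) := by
  rw [av, mul_inv_cancel_left₀ hL.ne',
    ofReal_integral_eq_lintegral_ofReal (int_om hm hρ hω L n)]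
  filter_upwards with s
  exact hρ.le.trans (hω s).1

theorem avgc_om (hm : Measurable ω) (hρ : 0 < ρ) (hω : ∀ s, ρ ≤ ω s ∧ ω s ≤ 1) {L : ℝ}
    (hL : 0 < L) (n : ℤ) (s : ℝ) (hs : s ∈ cI L n) :
    avgc L (fun s => ENNReal.ofReal (ω s)) s = ENNReal.ofReal (av ω L n) := by
  rw [mem_cI hL] at hs
  rw [avgc, hs]
  have h1 := lint_om hm hρ hω hL n
  rw [cI] at h1
  rw [h1, ENNReal.ofReal_mul hL.le, ← mul_assoc, ENNReal.inv_mul_cancel, one_mul]
  · simpa using hL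
  · exact ENNReal.ofReal_ne_top

theorem ph_nonneg {u : ℝ} (h0 : 0 < u) (h1 : u ≤ 1) : 0 ≤ ph u := by
  have := Real.log_nonpos h0.le h1
  rw [ph]
  exact mul_nonneg h0.le (by linarith)

theorem le_ph {u : ℝ} (h0 : 0 < u) (h1 : u ≤ 1) : u ≤ ph u := by
  have := Real.log_nonpos h0.le h1
  rw [ph]
  nlinarith

theorem enorm_sq (z : ℂ) : ‖z‖ₑ ^ 2 = ENNReal.ofReal (‖z‖ ^ 2) := by
  rw [← ofReal_norm, ENNReal.ofReal_pow (norm_nonneg z)]

/-- a function that is constant on a cell -/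
theorem const_cell {k : ℕ} {L : ℝ} {D : ℕ → ℝ → ℂ} (hL : 0 < L)
    (hD : ∀ s s' : ℝ, ⌊s / L⌋ = ⌊s' / L⌋ → D k s = D k s') (j : ℤ) (s : ℝ) (hs : s ∈ cI L j) :
    D k s = D k (L * j) := by
  apply hD
  rw [mem_cI hL] at hs
  rw [hs, mul_div_cancel_left₀ _ hL.ne', Int.floor_intCast]

end

theorem claim (hS : tSTP) (N p : ℕ) (L0 ρ : ℝ) (D : ℕ → ℝ → ℂ) (ω : ℝ → ℝ) (hN : 1 ≤ N)
    (hL0 : 0 < L0) (hρ : 0 < ρ) (hm : Measurable ω) (hω : ∀ s, ρ ≤ ω s ∧ ω s ≤ 1)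
    (hD : ∀ k, 1 ≤ k → k ≤ p → ∀ s s' : ℝ,
      ⌊s / (L0 * N ^ (k - 1))⌋ = ⌊s' / (L0 * N ^ (k - 1))⌋ → D k s = D k s')
    (hA : ∀ k, 1 ≤ k → k ≤ p → ∀ s, avgC (L0 * N ^ k) (D k) s = 0) :
    ∀ k, k ≤ p → ∀ (n : ℤ) (M : ℂ),
    ∫⁻ s in cI (L0 * N ^ k) n, ENNReal.ofReal (ω s) * ‖M + ∑ i ∈ Finset.Icc 1 k, D i s‖ₑ ^ 2 ≤
      ENNReal.ofReal (L0 * N ^ k * (ph (av ω (L0 * N ^ k) n) * ‖M‖ ^ 2)) +
      ENNReal.ofReal (4 * (1 + Real.log (1 / ρ)) ^ 2) * ∑ i ∈ Finset.Icc 1 k,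
        ∫⁻ s in cI (L0 * N ^ k) n,
          (avgc (L0 * N ^ (i - 1)) (fun s => ENNReal.ofReal (ω s)) s +
            avgc (L0 * N ^ i) (fun s => ENNReal.ofReal (ω s)) s) * ‖D i s‖ₑ ^ 2 := by
  have hN0 : (0 : ℝ) < N := by exact_mod_cast hN
  intro k
  induction k with
  | zero =>
    intro _ n M
    have hL : 0 < L0 * (N : ℝ) ^ 0 := by positivity
    obtain ⟨ha1, ha2⟩ := av_le hm hρ hω hL n
    have h1 : ∫⁻ s in cI (L0 * (N : ℝ) ^ 0) n,
        ENNReal.ofReal (ω s) * ‖M + ∑ i ∈ Finset.Icc 1 0, D i s‖ₑ ^ 2 =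
        (∫⁻ s in cI (L0 * (N : ℝ) ^ 0) n, ENNReal.ofReal (ω s)) * ‖M‖ₑ ^ 2 := by
      rw [← lintegral_mul_const' _ _ (by simp)]
      simp
    rw [h1, lint_om hm hρ hω hL n, enorm_sq,
      ← ENNReal.ofReal_mul (mul_nonneg hL.le (hρ.le.trans ha1))]
    refine le_trans (ENNReal.ofReal_le_ofReal ?_) le_self_add
    rw [mul_assoc]
    refine mul_le_mul_of_nonneg_left ?_ hL.le
    exact mul_le_mul_of_nonneg_right (le_ph (hρ.trans_le ha1) ha2) (sq_nonneg _)
  | succ k ih =>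
    intro hk n M
    have ih := ih (Nat.le_of_succ_le hk)
    have hLs : L0 * (N : ℝ) ^ (k + 1) = L0 * (N : ℝ) ^ k * N := by rw [pow_succ, mul_assoc]
    have hD' := hD (k + 1) (Nat.le_add_left 1 k) hk
    have hA' := hA (k + 1) (Nat.le_add_left 1 k) hk
    rw [Nat.add_sub_cancel] at hD'
    have hL : 0 < L0 * (N : ℝ) ^ k := by positivity
    have hL' : 0 < L0 * (N : ℝ) ^ (k + 1) := by positivity
    -- abbreviations
    generalize hLdef : L0 * (N : ℝ) ^ k = L at *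
    generalize hLdef' : L0 * (N : ℝ) ^ (k + 1) = L' at *
    set g : ℕ → ℝ → ℝ≥0∞ := fun i s =>
      (avgc (L0 * N ^ (i - 1)) (fun s => ENNReal.ofReal (ω s)) s +
        avgc (L0 * N ^ i) (fun s => ENNReal.ofReal (ω s)) s) * ‖D i s‖ₑ ^ 2 with hg
    set u : ℕ → ℝ := fun i => av ω L ((N : ℤ) * n + (i : ℤ)) with hu
    set d : ℕ → ℂ := fun i => D (k + 1) (L * (((N : ℤ) * n + (i : ℤ) : ℤ) : ℝ)) with hd
    have hub : ∀ i, ρ ≤ u i ∧ u i ≤ 1 := fun i => av_le hm hρ hω hL _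
    have hdc : ∀ (i : ℕ) (s : ℝ), s ∈ cI L ((N : ℤ) * n + (i : ℤ)) → D (k + 1) s = d i :=
      fun i s hs => const_cell hL hD' _ s hs
    have hsub : ∀ (f : ℝ → ℝ≥0∞), ∫⁻ s in cI L' n, f s =
        ∑ i ∈ Finset.range N, ∫⁻ s in cI L ((N : ℤ) * n + (i : ℤ)), f s := by
      intro f
      rw [hLs, cI_mul, lsum hL]
    have hmem : ∀ i : ℕ, i < N → ∀ s, s ∈ cI L ((N : ℤ) * n + (i : ℤ)) → s ∈ cI L' n := by
      intro i hi s hs
      rw [cI, mem_Ico] at hs ⊢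
      rw [hLs]
      have hi' : (i : ℝ) + 1 ≤ N := by exact_mod_cast hi
      have hi0 : (0 : ℝ) ≤ i := Nat.cast_nonneg i
      push_cast at hs
      constructor
      · nlinarith [hs.1]
      · nlinarith [hs.2]
    -- the average
    have hav : av ω L' n = (∑ i ∈ Finset.range N, u i) / N := by
      have h1 := (isum hL ((N : ℤ) * n) ω N (fun i _ => int_om hm hρ hω L _)).2
      rw [← cI_mul, ← hLs] at h1
      have h2 : ∀ i : ℕ, ∫ s in cI L ((N : ℤ) * n + (i : ℤ)), ω s = L * u i := by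
        intro i
        rw [hu]
        simp only [av]
        rw [mul_inv_cancel_left₀ hL.ne']
      rw [av, h1, Finset.sum_congr rfl (fun i _ => h2 i), ← Finset.mul_sum, hLs]
      field_simp
    -- the sum of the increments
    have hdsum : ∑ i ∈ Finset.range N, d i = 0 := by
      have hint : ∀ i : ℕ, i < N → IntegrableOn (D (k + 1)) (cI L ((N : ℤ) * n + (i : ℤ))) := by
        intro i _
        have h1 : IntegrableOn (fun _ : ℝ => d i) (cI L ((N : ℤ) * n + (i : ℤ))) := by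
          refine integrableOn_const ?_
          rw [vol_cI]
          exact ENNReal.ofReal_ne_top
        exact h1.congr_fun (fun s hs => (hdc i s hs).symm) (meas_cI _ _)
      have h1 := (isum hL ((N : ℤ) * n) (D (k + 1)) N hint).2
      rw [← cI_mul, ← hLs] at h1
      have h2 : ∀ i : ℕ, ∫ s in cI L ((N : ℤ) * n + (i : ℤ)), D (k + 1) s = (L : ℂ) * d i := by
        intro i
        rw [setIntegral_congr_fun (meas_cI _ _) (fun s hs => hdc i s hs), setIntegral_const,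
          vol_real hL, Complex.real_smul]
      have h3 := hA' (L' * n)
      rw [avgC, mul_div_cancel_left₀ _ hL'.ne', Int.floor_intCast] at h3
      have h4 : ∫ s in cI L' n, D (k + 1) s = 0 := by
        rcases mul_eq_zero.1 h3 with h | h
        · exfalso
          have : L'⁻¹ = 0 := by exact_mod_cast h
          exact (inv_ne_zero hL'.ne') this
        · exact h
      rw [h4, Finset.sum_congr rfl (fun i _ => h2 i), ← Finset.mul_sum] at h1
      rcases mul_eq_zero.1 h1.symm with h | h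
      · exfalso
        have : L = 0 := by exact_mod_cast h
        exact hL.ne' this
      · exact h
    -- left side
    have hleft : ∫⁻ s in cI L' n,
        ENNReal.ofReal (ω s) * ‖M + ∑ i ∈ Finset.Icc 1 (k + 1), D i s‖ₑ ^ 2 ≤
        ∑ i ∈ Finset.range N, (ENNReal.ofReal (L * (ph (u i) * ‖M + d i‖ ^ 2)) +
          ENNReal.ofReal (4 * (1 + Real.log (1 / ρ)) ^ 2) * ∑ j ∈ Finset.Icc 1 k,
            ∫⁻ s in cI L ((N : ℤ) * n + (i : ℤ)), g j s) := by
      rw [hsub]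
      refine Finset.sum_le_sum fun i _ => ?_
      have h1 : ∫⁻ s in cI L ((N : ℤ) * n + (i : ℤ)),
          ENNReal.ofReal (ω s) * ‖M + ∑ i ∈ Finset.Icc 1 (k + 1), D i s‖ₑ ^ 2 =
          ∫⁻ s in cI L ((N : ℤ) * n + (i : ℤ)),
            ENNReal.ofReal (ω s) * ‖(M + d i) + ∑ i ∈ Finset.Icc 1 k, D i s‖ₑ ^ 2 := by
        refine setLIntegral_congr_fun (meas_cI _ _) fun s hs => ?_
        show _ * _ = _ * _
        rw [Finset.sum_Icc_succ_top (Nat.le_add_left 1 k), hdc i s hs]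
        congr 3
        ring
      rw [h1]
      exact ih _ _
    -- the term `k + 1`
    have hlast : ∫⁻ s in cI L' n, g (k + 1) s =
        ENNReal.ofReal (∑ i ∈ Finset.range N, L * ((av ω L' n + u i) * ‖d i‖ ^ 2)) := by
      have hav0 : 0 < av ω L' n := hρ.trans_le (av_le hm hρ hω hL' n).1
      rw [hsub, ENNReal.ofReal_sum_of_nonneg]
      · refine Finset.sum_congr rfl fun i hi => ?_
        have hu0 : 0 < u i := hρ.trans_le (hub i).1
        have h1 : ∫⁻ s in cI L ((N : ℤ) * n + (i : ℤ)), g (k + 1) s =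
            ∫⁻ _ in cI L ((N : ℤ) * n + (i : ℤ)),
              ENNReal.ofReal ((av ω L' n + u i) * ‖d i‖ ^ 2) := by
          refine setLIntegral_congr_fun (meas_cI _ _) fun s hs => ?_
          show (avgc (L0 * N ^ (k + 1 - 1)) (fun s => ENNReal.ofReal (ω s)) s +
            avgc (L0 * N ^ (k + 1)) (fun s => ENNReal.ofReal (ω s)) s) * ‖D (k + 1) s‖ₑ ^ 2 = _
          rw [Nat.add_sub_cancel, hLdef, hLdef', avgc_om hm hρ hω hL _ s hs,
            avgc_om hm hρ hω hL' n s (hmem i (Finset.mem_range.1 hi) s hs), hdc i s hs, enorm_sq,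
            ← ENNReal.ofReal_add hu0.le hav0.le, ← ENNReal.ofReal_mul (by positivity)]
          congr 1
          ring
        rw [h1, setLIntegral_const, vol_cI, ← ENNReal.ofReal_mul (by positivity)]
        congr 1
        ring
      · intro i _
        have hu0 : 0 < u i := hρ.trans_le (hub i).1
        positivity
    -- the real inequality
    have hreal : ∑ i ∈ Finset.range N, L * (ph (u i) * ‖M + d i‖ ^ 2) ≤
        L' * (ph (av ω L' n) * ‖M‖ ^ 2) + 4 * (1 + Real.log (1 / ρ)) ^ 2 *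
          ∑ i ∈ Finset.range N, L * ((av ω L' n + u i) * ‖d i‖ ^ 2) := by
      have h1 := hS N u d M ρ hN hρ (fun i _ => hub i) hdsum
      rw [← hav] at h1
      rw [← Finset.mul_sum, ← Finset.mul_sum]
      have h2 := mul_le_mul_of_nonneg_left h1 hL'.le
      rw [hLs] at h2 ⊢
      have e1 : L * N * ((∑ i ∈ Finset.range N, ph (u i) * ‖M + d i‖ ^ 2) / N) =
          L * ∑ i ∈ Finset.range N, ph (u i) * ‖M + d i‖ ^ 2 := by
        field_simp
      have e2 : L * N * (ph (av ω (L * N) n) * ‖M‖ ^ 2 + 4 * (1 + Real.log (1 / ρ)) ^ 2 *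
          ((∑ i ∈ Finset.range N, (av ω (L * N) n + u i) * ‖d i‖ ^ 2) / N)) =
          L * N * (ph (av ω (L * N) n) * ‖M‖ ^ 2) + 4 * (1 + Real.log (1 / ρ)) ^ 2 *
          (L * ∑ i ∈ Finset.range N, (av ω (L * N) n + u i) * ‖d i‖ ^ 2) := by
        field_simp
      rw [e1, e2] at h2
      exact h2
    have hpn : ∀ i, 0 ≤ L * (ph (u i) * ‖M + d i‖ ^ 2) := fun i =>
      mul_nonneg hL.le (mul_nonneg (ph_nonneg (hρ.trans_le (hub i).1) (hub i).2) (sq_nonneg _))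
    have hpn' : 0 ≤ L' * (ph (av ω L' n) * ‖M‖ ^ 2) :=
      mul_nonneg hL'.le (mul_nonneg (ph_nonneg (hρ.trans_le (av_le hm hρ hω hL' n).1)
        (av_le hm hρ hω hL' n).2) (sq_nonneg _))
    have hsn : 0 ≤ ∑ i ∈ Finset.range N, L * ((av ω L' n + u i) * ‖d i‖ ^ 2) := by
      refine Finset.sum_nonneg fun i _ => ?_
      have hu0 : 0 < u i := hρ.trans_le (hub i).1
      have hav0 : 0 < av ω L' n := hρ.trans_le (av_le hm hρ hω hL' n).1
      positivity
    refine hleft.trans ?_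
    have h5 : ∑ i ∈ Finset.range N, ENNReal.ofReal (4 * (1 + Real.log (1 / ρ)) ^ 2) *
        ∑ j ∈ Finset.Icc 1 k, ∫⁻ s in cI L ((N : ℤ) * n + (i : ℤ)), g j s =
        ENNReal.ofReal (4 * (1 + Real.log (1 / ρ)) ^ 2) *
          ∑ j ∈ Finset.Icc 1 k, ∫⁻ s in cI L' n, g j s := by
      rw [← Finset.mul_sum, Finset.sum_comm]
      congr 1
      exact Finset.sum_congr rfl fun j _ => (hsub _).symm
    rw [Finset.sum_add_distrib, ← ENNReal.ofReal_sum_of_nonneg (fun i _ => hpn i), h5]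
    show _ ≤ _ + _ * ∑ i ∈ Finset.Icc 1 (k + 1), ∫⁻ s in cI L' n, g i s
    rw [Finset.sum_Icc_succ_top (Nat.le_add_left 1 k), hlast, mul_add, ← add_assoc,
      add_right_comm]
    refine add_le_add ?_ le_rfl
    rw [← ENNReal.ofReal_mul (by positivity), ← ENNReal.ofReal_add hpn' (by positivity)]
    exact ENNReal.ofReal_le_ofReal hreal

end BEL_

open BEL_

theorem pBEL (hS : tSTP) : tBEL := by
  intro N p L0 ρ D ω n hN hL0 hρ hm hω hD hA
  have h := claim hS N p L0 ρ D ω hN hL0 hρ hm hω hD hA p le_rfl n 0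
  simpa [cI] using h

end Pool.Agent.LLog
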