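import Pool.Agent.LLog.BLKc
import Pool.Agent.KSP.Base

set_option autoImplicit false

/-! BLK: one block. -/

namespace Pool.Agent.LLog

open MeasureTheory Set
open scoped ENNReal NNReal ComplexConjugate
open Pool.Agent.KSP (ee dot nr Ex Ex1 Bd Bd1 n1 n2 lg V0 ann)
open Pool.Agent.KSP.V1_ (cont_ee norm_ee meas_nr bd_ind int_bd int_bd1 int_ex)

namespace BLK_

section

variable {a m i e b : ℕ} {sg sl : ℝ} {h : ℝ × ℝ → ℂ} {Y : ℕ → Set (ℝ × ℝ)}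

/-- the error -/
noncomputable def er (m : ℕ) : ℝ≥0∞ := ENNReal.ofReal (2 / 2 ^ (40 * m))

/-- the integrand on the right -/
noncomputable def GG (a m e : ℕ) (sg sl : ℝ) (h : ℝ × ℝ → ℂ) (Y : ℕ → Set (ℝ × ℝ)) (l c p : ℕ)
    (x : ℝ × ℝ) : ℝ≥0∞ :=
  (2 * (sa (tp sl (e + 8 * a) p) (4 ^ (l + 5 * a)) (Xb a l e c Y) x +
    sa (tp sl (e + 8 * a) p) (4 ^ l / 4 ^ (2 * a)) (Xb a l e c Y) x) + 4 * er m) *
  ‖Ex ({ξ | cd sg l c ξ ∧ cp sl (e + 8 * a) p ξ}.indicator h) x‖ₑ ^ 2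

theorem F_meas (hP : KSP.tPl2) (hh : Bd h) (l c j p : ℕ) :
    Measurable fun x => ‖Ex ({ξ | cd sg l c ξ ∧ cp sl j p ξ}.indicator h) x‖ₑ ^ 2 :=
  KSP.V1_.meas_ex hP (bd_ind hh ((cd_meas sg l c).inter (cp_meas sl j p)))

theorem GG_meas (hP : KSP.tPl2) (hh : Bd h) (l c p : ℕ) : Measurable (GG a m e sg sl h Y l c p) := by
  unfold GG
  refine Measurable.mul ?_ (F_meas hP hh l c _ p)
  exact (((sa_meas _ _ (Xb_meas _ _ _ _ _)).add (sa_meas _ _ (Xb_meas _ _ _ _ _))).const_mul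
    _).add_const _

/-- the pieces -/
theorem Pr.Pc_eq (P : Pr a m i e b sg sl h Y) (hF : tFRM) (hE : tGEO) {p : ℕ}
    (hp' : p < 3 * 2 ^ (e + 8 * a)) {l c : ℕ} (hil : i ≤ l) (hle : l ≤ e)
    (hc : c / 4 ^ (l - i) = b) (y s : ℝ) :
    Pc sg (Hs (tp sl (e + 8 * a) p) (hp a i e b sg sl h p) y) l c s =
      Ex ({ξ | cd sg l c ξ ∧ cp sl (e + 8 * a) p ξ}.indicator h)
        (s • nv (tp sl (e + 8 * a) p) + y • tv (tp sl (e + 8 * a) p)) := by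
  have h1 : {ξ | cd sg l c ξ ∧ cp sl (e + 8 * a) p ξ}.indicator h =
      {ξ | cd sg l c ξ}.indicator (hp a i e b sg sl h p) := by
    unfold hp
    rw [indicator_indicator]
    congr 1
    ext ξ
    constructor
    · rintro ⟨h1, h2⟩
      refine ⟨h1, ?_, h2⟩
      have h0 : sg ≤ nr ξ := cdr_le h1
      have e1 := (code_iff (c := c) hle h0).1 h1
      refine (code_iff (c := b) P.ie.le h0).2 ?_
      rw [← hc, ← e1, Nat.div_div_eq_div_mul, ← pow_add]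
      congr 2
      omega
    · rintro ⟨h1, h2⟩
      exact ⟨h1, h2.2⟩
  rw [h1, ((hF _).2.2.2.2 _ (bd_ind (P.hp_bd p) (cd_meas sg l c))).2.2.1 s y,
    slice_ind hF (S := {ζ | cdr sg l c ζ}) (S' := {ξ | cd sg l c ξ})
      (fun ξ hξ => (P.code hE hp' hξ hle c).symm)]
  rfl

/-- the inequality on a line -/
theorem Pr.per_y (P : Pr a m i e b sg sl h Y) (hF : tFRM) (hG : tGK) (hE : tGEO) {C : ℝ≥0}
    (hR : ∀ (a i e b : ℕ) (sg : ℝ) (J : ℕ → ℕ → Finset ℕ) (H : ℝ → ℂ)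
      (χ : ℕ → ℝ → ℝ≥0∞), H1D a i e b sg J H χ →
    ∫⁻ s, ∑ u ∈ Finset.range (2 * 4 ^ e), χ u s *
      ‖∑ l ∈ Finset.Ioc i e, Dj sg J H l (u / 4 ^ (e - l)) s‖ₑ ^ 2 ≤
    C * a ^ 3 * ∑ l ∈ Finset.Ioc i e,
      ∑ c ∈ (Finset.range (2 * 4 ^ l)).filter (fun c => c / 4 ^ (l - i) = b), (∫⁻ s,
      (avgc (4 ^ (l + 5 * a)) (fun s => ∑ w ∈ (Finset.range (2 * 4 ^ l)).filter
          (fun w => w / 4 = c / 4 ∧ w ≠ c), chw e χ l w s) s +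
        avgc (4 ^ l / 4 ^ (2 * a)) (fun s => ∑ w ∈ (Finset.range (2 * 4 ^ l)).filter
          (fun w => w / 4 = c / 4 ∧ w ≠ c), chw e χ l w s) s) * ‖Pc sg H l c s‖ₑ ^ 2) +
    C * ENNReal.ofReal (1 / 2 ^ (2 * a)) * n1 H)
    {J : ℕ → ℕ → Finset ℕ} {W : ℕ → Set ℝ} (hJ : JW sg i e b J W) {p : ℕ}
    (hp' : p < 3 * 2 ^ (e + 8 * a)) (y : ℝ) :
    ∫⁻ s : ℝ, ∑ u ∈ (Finset.range (2 * 4 ^ e)).filter (fun u => u / 4 ^ (e - i) = b),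
      GK a m (e + 8 * a) (inn (2 * de a e) (Y u))
        (s • nv (tp sl (e + 8 * a) p) + y • tv (tp sl (e + 8 * a) p)) *
      ‖Ex ({ξ | nr ξ ∈ W u}.indicator (hp a i e b sg sl h p))
        (s • nv (tp sl (e + 8 * a) p) + y • tv (tp sl (e + 8 * a) p))‖ₑ ^ 2 ≤
    C * a ^ 3 * ∑ l ∈ Finset.Ioc i e,
      ∑ c ∈ (Finset.range (2 * 4 ^ l)).filter (fun c => c / 4 ^ (l - i) = b), (∫⁻ s : ℝ,
        GG a m e sg sl h Y l c p
          (s • nv (tp sl (e + 8 * a) p) + y • tv (tp sl (e + 8 * a) p))) +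
    C * ENNReal.ofReal (1 / 2 ^ (2 * a)) * n1 (Hs (tp sl (e + 8 * a) p) (hp a i e b sg sl h p) y) := by
  classical
  obtain ⟨t, ht⟩ : ∃ t, t = tp sl (e + 8 * a) p := ⟨_, rfl⟩
  have key := hR a i e b sg J _ _ (P.h1d hF hG hE hJ hp' y)
  have hcode := fun (u : ℕ) (hu : u / 4 ^ (e - i) = b) (ξ : ℝ × ℝ)
    (hξ : hp a i e b sg sl h p ξ ≠ 0) => P.W_iff hE hp' hJ hu hξ
  have hPc := fun (l c : ℕ) (h1 : i ≤ l) (h2 : l ≤ e) (h3 : c / 4 ^ (l - i) = b) (s : ℝ) =>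
    P.Pc_eq hF hE hp' h1 h2 h3 y s
  have hsupp : ∀ ζ, Hs (tp sl (e + 8 * a) p) (hp a i e b sg sl h p) y ζ ≠ 0 → cdr sg i b ζ :=
    fun ζ hζ => ((P.h1d hF hG hE hJ hp' y).2.2.2.2.2.1 ζ hζ).1
  rw [← ht] at key hcode hPc hsupp ⊢
  refine (le_of_eq ?_).trans (key.trans ?_)
  · refine lintegral_congr fun s => ?_
    rw [Finset.sum_filter]
    refine Finset.sum_congr rfl fun u _ => ?_
    unfold chi
    by_cases hu : u / 4 ^ (e - i) = b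
    · rw [if_pos hu, if_pos hu]
      congr 3
      have hmW : MeasurableSet {ξ : ℝ × ℝ | nr ξ ∈ W u} := meas_nr (hJ.1 u)
      rw [Dj_sum hJ (((hF _).2.2.2.2 _ (P.hp_bd p)).1 y) hsupp hu,
        ((hF t).2.2.2.2 _ (bd_ind (P.hp_bd p) hmW)).2.2.1 s y,
        slice_ind hF (S := W u) (S' := {ξ | nr ξ ∈ W u}) (fun ξ hξ => hcode u hu ξ hξ)]
    · rw [if_neg hu, if_neg hu, zero_mul]
  · refine add_le_add_left (mul_le_mul_right (Finset.sum_le_sum fun l hl =>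
      Finset.sum_le_sum fun c hc => lintegral_mono fun s => ?_) _) _
    rw [Finset.mem_Ioc] at hl
    rw [Finset.mem_filter] at hc
    unfold GG
    beta_reduce
    rw [hPc l c hl.1.le hl.2 hc.2 s, ← ht]
    refine mul_le_mul_left ?_ _
    have hw : ∀ τ : ℝ, (∑ w ∈ (Finset.range (2 * 4 ^ l)).filter (fun w => w / 4 = c / 4 ∧ w ≠ c),
        chw e (chi a m i e b Y t y) l w (s + τ)) ≤
        (Xb a l e c Y).indicator 1 ((s • nv t + y • tv t) + τ • nv t) + er m := by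
      intro τ
      have h1 := P.weight hG (c := c) hl.2 t y (s + τ)
      have h2 : (s + τ) • nv t + y • tv t = (s • nv t + y • tv t) + τ • nv t := by
        rw [add_smul]
        abel
      rw [h2] at h1
      exact h1
    have h1 := avgc_sa (L := 4 ^ (l + 5 * a)) (by positivity)
      (fun s => ∑ w ∈ (Finset.range (2 * 4 ^ l)).filter (fun w => w / 4 = c / 4 ∧ w ≠ c),
        chw e (chi a m i e b Y t y) l w s) s t (Xb a l e c Y) (s • nv t + y • tv t) (er m) hw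
    have h2 := avgc_sa (L := 4 ^ l / 4 ^ (2 * a)) (by positivity)
      (fun s => ∑ w ∈ (Finset.range (2 * 4 ^ l)).filter (fun w => w / 4 = c / 4 ∧ w ≠ c),
        chw e (chi a m i e b Y t y) l w s) s t (Xb a l e c Y) (s • nv t + y • tv t) (er m) hw
    refine (add_le_add h1 h2).trans (le_of_eq ?_)
    ring

/-- one sector -/
theorem Pr.per_p (P : Pr a m i e b sg sl h Y) (hP : KSP.tPl2) (hF : tFRM) (hG : tGK) (hE : tGEO)
    {C : ℝ≥0}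
    (hR : ∀ (a i e b : ℕ) (sg : ℝ) (J : ℕ → ℕ → Finset ℕ) (H : ℝ → ℂ)
      (χ : ℕ → ℝ → ℝ≥0∞), H1D a i e b sg J H χ →
    ∫⁻ s, ∑ u ∈ Finset.range (2 * 4 ^ e), χ u s *
      ‖∑ l ∈ Finset.Ioc i e, Dj sg J H l (u / 4 ^ (e - l)) s‖ₑ ^ 2 ≤
    C * a ^ 3 * ∑ l ∈ Finset.Ioc i e,
      ∑ c ∈ (Finset.range (2 * 4 ^ l)).filter (fun c => c / 4 ^ (l - i) = b), (∫⁻ s,
      (avgc (4 ^ (l + 5 * a)) (fun s => ∑ w ∈ (Finset.range (2 * 4 ^ l)).filter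
          (fun w => w / 4 = c / 4 ∧ w ≠ c), chw e χ l w s) s +
        avgc (4 ^ l / 4 ^ (2 * a)) (fun s => ∑ w ∈ (Finset.range (2 * 4 ^ l)).filter
          (fun w => w / 4 = c / 4 ∧ w ≠ c), chw e χ l w s) s) * ‖Pc sg H l c s‖ₑ ^ 2) +
    C * ENNReal.ofReal (1 / 2 ^ (2 * a)) * n1 H)
    {J : ℕ → ℕ → Finset ℕ} {W : ℕ → Set ℝ} (hJ : JW sg i e b J W) {p : ℕ}
    (hp' : p < 3 * 2 ^ (e + 8 * a)) :
    ∑ u ∈ (Finset.range (2 * 4 ^ e)).filter (fun u => u / 4 ^ (e - i) = b), ∫⁻ x,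
      GK a m (e + 8 * a) (inn (2 * de a e) (Y u)) x *
      ‖Ex ({ξ | nr ξ ∈ W u}.indicator (hp a i e b sg sl h p)) x‖ₑ ^ 2 ≤
    C * a ^ 3 * ∑ l ∈ Finset.Ioc i e,
      ∑ c ∈ (Finset.range (2 * 4 ^ l)).filter (fun c => c / 4 ^ (l - i) = b), (∫⁻ x,
        GG a m e sg sl h Y l c p x) +
    C * ENNReal.ofReal (1 / 2 ^ (2 * a)) * n2 (hp a i e b sg sl h p) := by
  have hline := fun y => P.per_y hF hG hE hR hJ hp' y
  obtain ⟨t, ht⟩ : ∃ t, t = tp sl (e + 8 * a) p := ⟨_, rfl⟩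
  rw [← ht] at hline
  have hm : ∀ u, Measurable fun x => GK a m (e + 8 * a) (inn (2 * de a e) (Y u)) x *
      ‖Ex ({ξ | nr ξ ∈ W u}.indicator (hp a i e b sg sl h p)) x‖ₑ ^ 2 := fun u =>
    (hG a m (e + 8 * a) _ P.pa (inn_meas _ _)).1.mul
      (KSP.V1_.meas_ex hP (bd_ind (P.hp_bd p) (meas_nr (hJ.1 u))))
  have hcoe : (C : ℝ≥0∞) * (a : ℝ≥0∞) ^ 3 ≠ ⊤ := ENNReal.mul_ne_top ENNReal.coe_ne_top
    (ENNReal.pow_ne_top (ENNReal.natCast_ne_top a))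
  have hsm : ∀ l c, Measurable fun y : ℝ => ∫⁻ s : ℝ, GG a m e sg sl h Y l c p
      (s • nv t + y • tv t) := by
    intro l c
    refine Measurable.lintegral_prod_right' (f := fun q : ℝ × ℝ => GG a m e sg sl h Y l c p
      (q.2 • nv t + q.1 • tv t)) ?_
    exact (GG_meas hP P.core.1 l c p).comp (by fun_prop)
  have hnm : Measurable fun y : ℝ => n1 (Hs t (hp a i e b sg sl h p) y) := by
    unfold n1
    refine Measurable.lintegral_prod_right' (f := fun q : ℝ × ℝ =>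
      ‖Hs t (hp a i e b sg sl h p) q.1 q.2‖ₑ ^ 2) ?_
    exact ((hF t).2.2.2.2 _ (P.hp_bd p)).2.1.enorm.pow_const 2
  rw [← lintegral_finsetSum _ fun u _ => hm u,
    (hF t).2.2.2.1 _ (Finset.measurable_sum _ fun u _ => hm u)]
  refine (lintegral_mono hline).trans (le_of_eq ?_)
  rw [lintegral_add_right _ (hnm.const_mul _), lintegral_const_mul _ hnm,
    ((hF t).2.2.2.2 _ (P.hp_bd p)).2.2.2, lintegral_const_mul' _ _ hcoe,
    lintegral_finsetSum _ fun l _ => Finset.measurable_sum _ fun c _ => hsm l c]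
  congr 2
  refine Finset.sum_congr rfl fun l _ => ?_
  rw [lintegral_finsetSum _ fun c _ => hsm l c]
  refine Finset.sum_congr rfl fun c _ => ?_
  rw [(hF t).2.2.2.1 _ (GG_meas hP P.core.1 l c p)]

/-- all sectors -/
theorem Pr.side (P : Pr a m i e b sg sl h Y) (hP : KSP.tPl2) (hF : tFRM) (hG : tGK) (hE : tGEO)
    (hS : tSEC) {C : ℝ≥0}
    (hR : ∀ (a i e b : ℕ) (sg : ℝ) (J : ℕ → ℕ → Finset ℕ) (H : ℝ → ℂ)
      (χ : ℕ → ℝ → ℝ≥0∞), H1D a i e b sg J H χ →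
    ∫⁻ s, ∑ u ∈ Finset.range (2 * 4 ^ e), χ u s *
      ‖∑ l ∈ Finset.Ioc i e, Dj sg J H l (u / 4 ^ (e - l)) s‖ₑ ^ 2 ≤
    C * a ^ 3 * ∑ l ∈ Finset.Ioc i e,
      ∑ c ∈ (Finset.range (2 * 4 ^ l)).filter (fun c => c / 4 ^ (l - i) = b), (∫⁻ s,
      (avgc (4 ^ (l + 5 * a)) (fun s => ∑ w ∈ (Finset.range (2 * 4 ^ l)).filter
          (fun w => w / 4 = c / 4 ∧ w ≠ c), chw e χ l w s) s +
        avgc (4 ^ l / 4 ^ (2 * a)) (fun s => ∑ w ∈ (Finset.range (2 * 4 ^ l)).filter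
          (fun w => w / 4 = c / 4 ∧ w ≠ c), chw e χ l w s) s) * ‖Pc sg H l c s‖ₑ ^ 2) +
    C * ENNReal.ofReal (1 / 2 ^ (2 * a)) * n1 H)
    {J : ℕ → ℕ → Finset ℕ} {W : ℕ → Set ℝ} (hJ : JW sg i e b J W) :
    ∑ u ∈ (Finset.range (2 * 4 ^ e)).filter (fun u => u / 4 ^ (e - i) = b), ∫⁻ x,
      GK a m (e + 8 * a) (inn (2 * de a e) (Y u)) x *
      ‖Ex ({ξ | cd sg i b ξ ∧ nr ξ ∈ W u}.indicator h) x‖ₑ ^ 2 ≤
    ∑ p ∈ Finset.range (3 * 2 ^ (e + 8 * a)), (C * a ^ 3 * ∑ l ∈ Finset.Ioc i e,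
      ∑ c ∈ (Finset.range (2 * 4 ^ l)).filter (fun c => c / 4 ^ (l - i) = b), (∫⁻ x,
        GG a m e sg sl h Y l c p x) +
    C * ENNReal.ofReal (1 / 2 ^ (2 * a)) * n2 (hp a i e b sg sl h p)) := by
  have h1 : ∀ u, ∫⁻ x, GK a m (e + 8 * a) (inn (2 * de a e) (Y u)) x *
      ‖Ex ({ξ | cd sg i b ξ ∧ nr ξ ∈ W u}.indicator h) x‖ₑ ^ 2 ≤
      ∑ p ∈ Finset.range (3 * 2 ^ (e + 8 * a)), ∫⁻ x,
      GK a m (e + 8 * a) (inn (2 * de a e) (Y u)) x *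
      ‖Ex ({ξ | nr ξ ∈ W u}.indicator (hp a i e b sg sl h p)) x‖ₑ ^ 2 := by
    intro u
    have hmW : MeasurableSet {ξ : ℝ × ℝ | nr ξ ∈ W u} := meas_nr (hJ.1 u)
    have h2 := hS a m (e + 8 * a) (3 * 2 ^ (e + 8 * a)) sl (inn (2 * de a e) (Y u))
      (fun p => {ξ | nr ξ ∈ W u}.indicator (hp a i e b sg sl h p)) P.pa (inn_meas _ _)
      ((measure_mono (inn_sub (by have := de_pos a e; linarith) _)).trans_lt (P.Ym u).2)
      (fun p => ⟨bd_ind (P.hp_bd p) hmW, fun ξ hξ => by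
        have h3 : hp a i e b sg sl h p ξ ≠ 0 := by
          intro h4
          apply hξ
          classical
          rw [indicator_apply, h4, ite_self]
        obtain ⟨k1, k2, k3⟩ := hp_ne h3
        obtain ⟨v1, -, v3⟩ := P.core.2 ξ k1
        exact ⟨v1, k3, v3 _ (by have := P.em; omega)⟩⟩)
    refine le_trans (le_of_eq (lintegral_congr fun x => ?_)) h2
    rw [sector_sum P.sl1 P.sl2 P.core (e + 8 * a) (A := {ξ | cd sg i b ξ ∧ nr ξ ∈ W u})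
      ((cd_meas sg i b).inter hmW)]
    congr 3
    refine Finset.sum_congr rfl fun p _ => ?_
    unfold hp
    rw [indicator_indicator]
    congr 2
    ext ξ
    constructor
    · rintro ⟨⟨h1, h2⟩, h3⟩
      exact ⟨h2, h1, h3⟩
    · rintro ⟨h2, h1, h3⟩
      exact ⟨⟨h1, h2⟩, h3⟩
  refine (Finset.sum_le_sum fun u _ => h1 u).trans ?_
  rw [Finset.sum_comm]
  exact Finset.sum_le_sum fun p hp' =>
    P.per_p hP hF hG hE hR hJ (Finset.mem_range.1 hp')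

theorem GG_int (hP : KSP.tPl2) (hh : Bd h) (l c p : ℕ) :
    ∫⁻ x, GG a m e sg sl h Y l c p x =
      2 * (∫⁻ x, (sa (tp sl (e + 8 * a) p) (4 ^ (l + 5 * a)) (Xb a l e c Y) x +
        sa (tp sl (e + 8 * a) p) (4 ^ l / 4 ^ (2 * a)) (Xb a l e c Y) x) *
        ‖Ex ({ξ | cd sg l c ξ ∧ cp sl (e + 8 * a) p ξ}.indicator h) x‖ₑ ^ 2) +
      4 * er m * n2 ({ξ | cd sg l c ξ ∧ cp sl (e + 8 * a) p ξ}.indicator h) := by
  have hF := F_meas (sg := sg) (sl := sl) hP hh l c (e + 8 * a) p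
  have h1 := (hP _ (bd_ind hh ((cd_meas sg l c).inter (cp_meas sl (e + 8 * a) p)))).2
  have h2 : ∫⁻ x, ‖Ex ({ξ | cd sg l c ξ ∧ cp sl (e + 8 * a) p ξ}.indicator h) x‖ₑ ^ 2 =
    n2 ({ξ | cd sg l c ξ ∧ cp sl (e + 8 * a) p ξ}.indicator h) := h1
  have h3 : (4 * er m : ℝ≥0∞) ≠ ⊤ :=
    ENNReal.mul_ne_top (by norm_num) ENNReal.ofReal_ne_top
  unfold GG
  simp only [add_mul, mul_assoc (2 : ℝ≥0∞)]
  rw [lintegral_add_right _ (hF.const_mul _), lintegral_const_mul' _ _ h3, h2,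
    lintegral_const_mul' _ _ (by norm_num)]

theorem Pr.sum1 (P : Pr a m i e b sg sl h Y) :
    ∑ p ∈ Finset.range (3 * 2 ^ (e + 8 * a)), n2 (hp a i e b sg sl h p) ≤
      n2 ({ξ | cd sg i b ξ}.indicator h) := by
  unfold hp
  refine n2_disj _ (fun p => {ξ | cd sg i b ξ ∧ cp sl (e + 8 * a) p ξ}) _ P.core.1.1
    (fun p => (cd_meas sg i b).inter (cp_meas sl (e + 8 * a) p)) ?_ (fun p _ ξ hξ => hξ.1)
  intro ξ hξ p _ p' _ h1 h2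
  obtain ⟨q, -, hq⟩ := V0_cp P.sl1 P.sl2 (e + 8 * a) (P.core.2 ξ hξ).1
  exact ((hq p).1 h1.2).symm.trans ((hq p').1 h2.2)

theorem Pr.sum2 (P : Pr a m i e b sg sl h Y) {l : ℕ} (hl : i < l ∧ l ≤ e) :
    ∑ c ∈ (Finset.range (2 * 4 ^ l)).filter (fun c => c / 4 ^ (l - i) = b),
      ∑ p ∈ Finset.range (3 * 2 ^ (e + 8 * a)),
        n2 ({ξ | cd sg l c ξ ∧ cp sl (e + 8 * a) p ξ}.indicator h) ≤
      n2 ({ξ | cd sg i b ξ}.indicator h) := by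
  rw [← Finset.sum_product']
  refine n2_disj _ (fun q : ℕ × ℕ => {ξ | cd sg l q.1 ξ ∧ cp sl (e + 8 * a) q.2 ξ}) _ P.core.1.1
    (fun q => (cd_meas sg l q.1).inter (cp_meas sl (e + 8 * a) q.2)) ?_ ?_
  · intro ξ hξ q _ q' _ h1 h2
    obtain ⟨r, -, hr⟩ := V0_cp P.sl1 P.sl2 (e + 8 * a) (P.core.2 ξ hξ).1
    have e1 := (cdr_floor).1 h1.1
    have e2 := (cdr_floor).1 h2.1
    refine Prod.ext ?_ (((hr q.2).1 h1.2).symm.trans ((hr q'.2).1 h2.2))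
    have : (q.1 : ℤ) = q'.1 := e1.symm.trans e2
    exact_mod_cast this
  · intro q hq ξ hξ
    rw [Finset.mem_product, Finset.mem_filter] at hq
    have h0 : sg ≤ nr ξ := cdr_le hξ.1
    have e1 := (code_iff (c := q.1) hl.2 h0).1 hξ.1
    refine (code_iff (c := b) P.ie.le h0).2 ?_
    rw [← hq.1.2, ← e1, Nat.div_div_eq_div_mul, ← pow_add]
    congr 2
    omega

theorem num_nat {a m : ℕ} (h : PA a m) : 8 * a ^ 3 * m * 2 ^ (2 * a) ≤ 2 ^ (40 * m) := by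
  obtain ⟨h1, h2, h3⟩ := h
  have h4 : a < 2 ^ a := Nat.lt_two_pow_self
  have h5 : m < 2 ^ m := Nat.lt_two_pow_self
  have h6 : a ≤ 2 * m := by omega
  have h7 : a ^ 3 ≤ (2 * m) ^ 3 := Nat.pow_le_pow_left h6 3
  have h8 : 2 ^ (2 * a) ≤ (2 * m) ^ 2 := by
    rw [mul_comm, pow_mul]
    exact Nat.pow_le_pow_left h3 2
  have hm : 1 ≤ m := by
    by_contra hc
    have : m = 0 := by omega
    subst this
    have : 0 < 2 ^ a := by positivity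
    omega
  calc 8 * a ^ 3 * m * 2 ^ (2 * a) ≤ 8 * (2 * m) ^ 3 * m * (2 * m) ^ 2 := by gcongr
    _ = 2 ^ 8 * m ^ 6 := by ring
    _ ≤ 2 ^ 8 * (2 ^ m) ^ 6 := by gcongr
    _ = 2 ^ (8 + m * 6) := by rw [← pow_mul, ← pow_add]
    _ ≤ 2 ^ (40 * m) := Nat.pow_le_pow_right (by norm_num) (by omega)

theorem num_enn {a m : ℕ} (h : PA a m) :
    (a : ℝ≥0∞) ^ 3 * (4 * er m) * m ≤ ENNReal.ofReal (1 / 2 ^ (2 * a)) := by
  have h1 : (a : ℝ≥0∞) ^ 3 * (4 * er m) * m =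
      ENNReal.ofReal ((a : ℝ) ^ 3 * (4 * (2 / 2 ^ (40 * m))) * m) := by
    unfold er
    rw [ENNReal.ofReal_mul (by positivity), ENNReal.ofReal_mul (by positivity),
      ENNReal.ofReal_pow (by positivity), ENNReal.ofReal_mul (by positivity),
      ENNReal.ofReal_natCast, ENNReal.ofReal_natCast, ENNReal.ofReal_ofNat]
  rw [h1]
  refine ENNReal.ofReal_le_ofReal ?_
  have h2 : (8 * a ^ 3 * m * 2 ^ (2 * a) : ℝ) ≤ 2 ^ (40 * m) := by exact_mod_cast num_nat h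
  rw [le_div_iff₀ (by positivity)]
  have h3 : (a : ℝ) ^ 3 * (4 * (2 / 2 ^ (40 * m))) * m * 2 ^ (2 * a) =
      (8 * a ^ 3 * m * 2 ^ (2 * a)) / 2 ^ (40 * m) := by ring
  rw [h3, div_le_one (by positivity)]
  exact h2

/-- the left side for one side -/
theorem Pr.side2 (P : Pr a m i e b sg sl h Y) (hP : KSP.tPl2) (hF : tFRM) (hG : tGK) (hE : tGEO)
    (hS : tSEC) {C : ℝ≥0}
    (hR : ∀ (a i e b : ℕ) (sg : ℝ) (J : ℕ → ℕ → Finset ℕ) (H : ℝ → ℂ)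
      (χ : ℕ → ℝ → ℝ≥0∞), H1D a i e b sg J H χ →
    ∫⁻ s, ∑ u ∈ Finset.range (2 * 4 ^ e), χ u s *
      ‖∑ l ∈ Finset.Ioc i e, Dj sg J H l (u / 4 ^ (e - l)) s‖ₑ ^ 2 ≤
    C * a ^ 3 * ∑ l ∈ Finset.Ioc i e,
      ∑ c ∈ (Finset.range (2 * 4 ^ l)).filter (fun c => c / 4 ^ (l - i) = b), (∫⁻ s,
      (avgc (4 ^ (l + 5 * a)) (fun s => ∑ w ∈ (Finset.range (2 * 4 ^ l)).filter
          (fun w => w / 4 = c / 4 ∧ w ≠ c), chw e χ l w s) s +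
        avgc (4 ^ l / 4 ^ (2 * a)) (fun s => ∑ w ∈ (Finset.range (2 * 4 ^ l)).filter
          (fun w => w / 4 = c / 4 ∧ w ≠ c), chw e χ l w s) s) * ‖Pc sg H l c s‖ₑ ^ 2) +
    C * ENNReal.ofReal (1 / 2 ^ (2 * a)) * n1 H)
    {J : ℕ → ℕ → Finset ℕ} {W : ℕ → Set ℝ} (hJ : JW sg i e b J W) :
    ∑ u ∈ (Finset.range (2 * 4 ^ e)).filter (fun u => u / 4 ^ (e - i) = b), ∫⁻ x,
      GK a m (e + 8 * a) (inn (2 * de a e) (Y u)) x *
      ‖Ex ({ξ | cd sg i b ξ ∧ nr ξ ∈ W u}.indicator h) x‖ₑ ^ 2 ≤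
    2 * (C * a ^ 3 * (∑ l ∈ Finset.Ioc i e,
      ∑ c ∈ (Finset.range (2 * 4 ^ l)).filter (fun c => c / 4 ^ (l - i) = b),
      ∑ p ∈ Finset.range (3 * 2 ^ (e + 8 * a)), (∫⁻ x,
        (sa (tp sl (e + 8 * a) p) (4 ^ (l + 5 * a)) (Xb a l e c Y) x +
          sa (tp sl (e + 8 * a) p) (4 ^ l / 4 ^ (2 * a)) (Xb a l e c Y) x) *
        ‖Ex ({ξ | cd sg l c ξ ∧ cp sl (e + 8 * a) p ξ}.indicator h) x‖ₑ ^ 2)) +
    C * ENNReal.ofReal (1 / 2 ^ (2 * a)) * n2 ({ξ | cd sg i b ξ}.indicator h)) := by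
  refine (P.side hP hF hG hE hS hR hJ).trans ?_
  set N := n2 ({ξ | cd sg i b ξ}.indicator h) with hN
  set M := ∑ l ∈ Finset.Ioc i e,
      ∑ c ∈ (Finset.range (2 * 4 ^ l)).filter (fun c => c / 4 ^ (l - i) = b),
      ∑ p ∈ Finset.range (3 * 2 ^ (e + 8 * a)), (∫⁻ x,
        (sa (tp sl (e + 8 * a) p) (4 ^ (l + 5 * a)) (Xb a l e c Y) x +
          sa (tp sl (e + 8 * a) p) (4 ^ l / 4 ^ (2 * a)) (Xb a l e c Y) x) *
        ‖Ex ({ξ | cd sg l c ξ ∧ cp sl (e + 8 * a) p ξ}.indicator h) x‖ₑ ^ 2) with hM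
  have h1 : ∑ p ∈ Finset.range (3 * 2 ^ (e + 8 * a)), ∑ l ∈ Finset.Ioc i e,
      ∑ c ∈ (Finset.range (2 * 4 ^ l)).filter (fun c => c / 4 ^ (l - i) = b), (∫⁻ x,
        GG a m e sg sl h Y l c p x) ≤ 2 * M + 4 * er m * (m * N) := by
    rw [Finset.sum_comm]
    have h2 : ∀ l ∈ Finset.Ioc i e, ∑ p ∈ Finset.range (3 * 2 ^ (e + 8 * a)),
        ∑ c ∈ (Finset.range (2 * 4 ^ l)).filter (fun c => c / 4 ^ (l - i) = b), (∫⁻ x,
        GG a m e sg sl h Y l c p x) ≤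
        2 * (∑ c ∈ (Finset.range (2 * 4 ^ l)).filter (fun c => c / 4 ^ (l - i) = b),
      ∑ p ∈ Finset.range (3 * 2 ^ (e + 8 * a)), (∫⁻ x,
        (sa (tp sl (e + 8 * a) p) (4 ^ (l + 5 * a)) (Xb a l e c Y) x +
          sa (tp sl (e + 8 * a) p) (4 ^ l / 4 ^ (2 * a)) (Xb a l e c Y) x) *
        ‖Ex ({ξ | cd sg l c ξ ∧ cp sl (e + 8 * a) p ξ}.indicator h) x‖ₑ ^ 2)) +
        4 * er m * N := by
      intro l hl
      rw [Finset.mem_Ioc] at hl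
      rw [Finset.sum_comm]
      simp only [GG_int hP P.core.1, Finset.sum_add_distrib, ← Finset.mul_sum]
      exact add_le_add_right (mul_le_mul_right (P.sum2 hl) _) _
    refine (Finset.sum_le_sum h2).trans ?_
    rw [Finset.sum_add_distrib, ← Finset.mul_sum, ← hM, Finset.sum_const, Nat.card_Ioc,
      nsmul_eq_mul]
    refine add_le_add_right ?_ _
    rw [mul_left_comm]
    refine mul_le_mul_right (mul_le_mul_left ?_ _) _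
    have := P.em
    exact_mod_cast (by omega : e - i ≤ m)
  rw [Finset.sum_add_distrib, ← Finset.mul_sum, ← Finset.mul_sum]
  have h2 : (C : ℝ≥0∞) * a ^ 3 * (2 * M + 4 * er m * (m * N)) ≤
      2 * (C * a ^ 3 * M) + C * ENNReal.ofReal (1 / 2 ^ (2 * a)) * N := by
    rw [mul_add]
    refine add_le_add (le_of_eq (by ring)) ?_
    calc (C : ℝ≥0∞) * a ^ 3 * (4 * er m * (m * N)) =
        C * ((a : ℝ≥0∞) ^ 3 * (4 * er m) * m) * N := by ring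
      _ ≤ C * ENNReal.ofReal (1 / 2 ^ (2 * a)) * N :=
        mul_le_mul_left (mul_le_mul_right (num_enn P.pa) _) _
  refine (add_le_add ((mul_le_mul_right h1 _).trans h2) (mul_le_mul_right P.sum1 _)).trans
    (le_of_eq ?_)
  rw [← hN]
  ring

theorem set_left (hie : i ≤ e) {u : ℕ} (hu : u / 4 ^ (e - i) = b) :
    {ξ : ℝ × ℝ | sg + b / 4 ^ i ≤ nr ξ ∧ nr ξ < sg + u / 4 ^ e} =
      {ξ | cd sg i b ξ ∧ nr ξ ∈ {ζ : ℝ | ζ < sg + u / 4 ^ e}} := by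
  have h4 : (0 : ℝ) < 4 ^ i := by positivity
  have h5 : (4 : ℝ) ^ e = 4 ^ i * 4 ^ (e - i) := by rw [← pow_add]; congr 1; omega
  have h6 : u < (b + 1) * 4 ^ (e - i) := by
    exact (Nat.div_lt_iff_lt_mul (by positivity)).1 (by omega)
  have h7 : (u : ℝ) / 4 ^ e ≤ (b + 1) / 4 ^ i := by
    rw [h5, div_le_div_iff₀ (by positivity) h4]
    have : (u : ℝ) ≤ (b + 1) * 4 ^ (e - i) := by exact_mod_cast h6.le
    nlinarith
  ext ξ
  simp only [mem_ofPred_eq, cd, cdr]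
  have e1 : (b : ℝ) ≤ 4 ^ i * (nr ξ - sg) ↔ sg + b / 4 ^ i ≤ nr ξ := by
    rw [← le_sub_iff_add_le', div_le_iff₀ h4, mul_comm]
  have e3 : nr ξ < sg + (b + 1) / 4 ^ i ↔ nr ξ - sg < (b + 1) / 4 ^ i := by
    constructor <;> intro h <;> linarith
  have e2 : 4 ^ i * (nr ξ - sg) < (b : ℝ) + 1 ↔ nr ξ < sg + (b + 1) / 4 ^ i := by
    rw [e3, lt_div_iff₀ h4, mul_comm]
  rw [e1, e2]
  constructor
  · rintro ⟨k1, k2⟩
    exact ⟨⟨k1, by linarith⟩, k2⟩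
  · rintro ⟨⟨k1, -⟩, k2⟩
    exact ⟨k1, k2⟩

theorem set_right (hie : i ≤ e) {u : ℕ} (hu : u / 4 ^ (e - i) = b) :
    {ξ : ℝ × ℝ | sg + (u + 1) / 4 ^ e ≤ nr ξ ∧ nr ξ < sg + (b + 1) / 4 ^ i} =
      {ξ | cd sg i b ξ ∧ nr ξ ∈ {ζ : ℝ | sg + (u + 1) / 4 ^ e ≤ ζ}} := by
  have h4 : (0 : ℝ) < 4 ^ i := by positivity
  have h5 : (4 : ℝ) ^ e = 4 ^ i * 4 ^ (e - i) := by rw [← pow_add]; congr 1; omega
  have h6 : b * 4 ^ (e - i) ≤ u := by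
    rw [← hu]
    exact Nat.div_mul_le_self _ _
  have h7 : (b : ℝ) / 4 ^ i ≤ (u + 1) / 4 ^ e := by
    rw [h5, div_le_div_iff₀ h4 (by positivity)]
    have : (b : ℝ) * 4 ^ (e - i) ≤ u := by exact_mod_cast h6
    nlinarith
  ext ξ
  simp only [mem_ofPred_eq, cd, cdr]
  have e1 : (b : ℝ) ≤ 4 ^ i * (nr ξ - sg) ↔ sg + b / 4 ^ i ≤ nr ξ := by
    rw [← le_sub_iff_add_le', div_le_iff₀ h4, mul_comm]
  have e3 : nr ξ < sg + (b + 1) / 4 ^ i ↔ nr ξ - sg < (b + 1) / 4 ^ i := by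
    constructor <;> intro h <;> linarith
  have e2 : 4 ^ i * (nr ξ - sg) < (b : ℝ) + 1 ↔ nr ξ < sg + (b + 1) / 4 ^ i := by
    rw [e3, lt_div_iff₀ h4, mul_comm]
  rw [e1, e2]
  constructor
  · rintro ⟨k1, k2⟩
    exact ⟨⟨by linarith, k2⟩, k1⟩
  · rintro ⟨⟨-, k1⟩, k2⟩
    exact ⟨k2, k1⟩

end

end BLK_

open BLK_ in
/-- D1 one block -/
theorem pBLK (hR : tRSF) (hF : tFRM) (hS : tSEC) (hG : tGK) (hE : tGEO) : tBLK := by
  obtain ⟨C, hC⟩ := hR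
  refine ⟨8 * C, ?_⟩
  intro a m i e b sg sl h Y hpa hsg0 hsg1 hsl1 hsl2 hai hie hem hcore hYm hYd
  have P : Pr a m i e b sg sl h Y := ⟨hpa, hsg0, hsg1, hsl1, hsl2, hai, hie, hem, hcore, hYm, hYd⟩
  have k1 := P.side2 KSP.pPl2 hF hG hE hS hC (JW_left sg i e b hie.le)
  have k2 := P.side2 KSP.pPl2 hF hG hE hS hC (JW_right sg i e b hie.le)
  have hGm : ∀ u, Measurable (GK a m (e + 8 * a) (inn (2 * de a e) (Y u))) := fun u =>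
    (hG a m (e + 8 * a) _ hpa (inn_meas _ _)).1
  have hint : ∀ u ∈ (Finset.range (2 * 4 ^ e)).filter (fun u => u / 4 ^ (e - i) = b),
      ∫⁻ x in inn (3 * de a e) (Y u),
        (‖Ex ({ξ | sg + b / 4 ^ i ≤ nr ξ ∧ nr ξ < sg + u / 4 ^ e}.indicator h) x‖ₑ ^ 2 +
        ‖Ex ({ξ | sg + (u + 1) / 4 ^ e ≤ nr ξ ∧ nr ξ < sg + (b + 1) / 4 ^ i}.indicator h) x‖ₑ ^ 2) ≤
      2 * (∫⁻ x, GK a m (e + 8 * a) (inn (2 * de a e) (Y u)) x *
        ‖Ex ({ξ | cd sg i b ξ ∧ nr ξ ∈ {ζ : ℝ | ζ < sg + u / 4 ^ e}}.indicator h) x‖ₑ ^ 2) +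
      2 * (∫⁻ x, GK a m (e + 8 * a) (inn (2 * de a e) (Y u)) x *
        ‖Ex ({ξ | cd sg i b ξ ∧ nr ξ ∈ {ζ : ℝ | sg + (u + 1) / 4 ^ e ≤ ζ}}.indicator h) x‖ₑ ^ 2) := by
    intro u hu
    rw [Finset.mem_filter] at hu
    rw [set_left hie.le hu.2, set_right hie.le hu.2]
    have m1 : MeasurableSet {ξ : ℝ × ℝ | cd sg i b ξ ∧ nr ξ ∈ {ζ : ℝ | ζ < sg + u / 4 ^ e}} :=
      (cd_meas sg i b).inter (meas_nr ((JW_left sg i e b hie.le).1 u))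
    have m2 : MeasurableSet {ξ : ℝ × ℝ | cd sg i b ξ ∧
        nr ξ ∈ {ζ : ℝ | sg + (u + 1) / 4 ^ e ≤ ζ}} :=
      (cd_meas sg i b).inter (meas_nr ((JW_right sg i e b hie.le).1 u))
    have f1 := KSP.V1_.meas_ex KSP.pPl2 (bd_ind hcore.1 m1)
    have f2 := KSP.V1_.meas_ex KSP.pPl2 (bd_ind hcore.1 m2)
    have f3 : Measurable fun x => 2 * (GK a m (e + 8 * a) (inn (2 * de a e) (Y u)) x *
        ‖Ex ({ξ | cd sg i b ξ ∧ nr ξ ∈ {ζ : ℝ | ζ < sg + u / 4 ^ e}}.indicator h) x‖ₑ ^ 2) :=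
      ((hGm u).mul f1).const_mul _
    rw [← lintegral_const_mul' _ _ (by norm_num), ← lintegral_const_mul' _ _ (by norm_num),
      ← lintegral_add_left f3]
    refine (setLIntegral_mono' (inn_meas _ _) (fun x hx => ?_)).trans
      (setLIntegral_le_lintegral _ _)
    have h1 := (hG a m (e + 8 * a) (inn (2 * de a e) (Y u)) hpa (inn_meas _ _)).2.2.1 x (by
      intro y h1 h2
      exact inn_move hx (h1.trans (rad_le a e)) (h2.trans (rad_le a e)) (by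
        have := de_pos a e
        linarith))
    calc _ = 1 * (‖Ex ({ξ | cd sg i b ξ ∧ nr ξ ∈ {ζ : ℝ | ζ < sg + u / 4 ^ e}}.indicator h) x‖ₑ ^ 2 +
        ‖Ex ({ξ | cd sg i b ξ ∧ nr ξ ∈ {ζ : ℝ | sg + (u + 1) / 4 ^ e ≤ ζ}}.indicator h) x‖ₑ ^ 2) := by
          rw [one_mul]
      _ ≤ 2 * GK a m (e + 8 * a) (inn (2 * de a e) (Y u)) x *
        (‖Ex ({ξ | cd sg i b ξ ∧ nr ξ ∈ {ζ : ℝ | ζ < sg + u / 4 ^ e}}.indicator h) x‖ₑ ^ 2 +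
        ‖Ex ({ξ | cd sg i b ξ ∧ nr ξ ∈ {ζ : ℝ | sg + (u + 1) / 4 ^ e ≤ ζ}}.indicator h) x‖ₑ ^ 2) :=
          mul_le_mul_left h1 _
      _ = _ := by ring
  refine (Finset.sum_le_sum hint).trans ?_
  rw [Finset.sum_add_distrib, ← Finset.mul_sum, ← Finset.mul_sum]
  refine (add_le_add (mul_le_mul_right k1 _) (mul_le_mul_right k2 _)).trans (le_of_eq ?_)
  rw [ENNReal.coe_mul, ENNReal.coe_ofNat]
  ring

end Pool.Agent.LLog
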