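import Pool.Agent.LLog.Targets

set_option autoImplicit false

/-! Inclusion of boxes of nested tiles. -/

namespace Pool.Agent.LLog

open MeasureTheory Set
open scoped ENNReal NNReal ComplexConjugate
open Pool.Agent.KSP (ee dot nr Ex Ex1 Bd Bd1 n1 n2 lg V0 ann)

namespace BXM_

lemma Nn_sq (t : ℝ) : Nn t ^ 2 = 1 + t ^ 2 := Real.sq_sqrt (by positivity)

lemma Nn_pos (t : ℝ) : 0 < Nn t := Real.sqrt_pos.2 (by positivity)

lemma Nn_one (t : ℝ) : 1 ≤ Nn t := by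
  have h1 := Nn_sq t
  have h2 := Nn_pos t
  nlinarith [sq_nonneg t]

lemma cs (t s : ℝ) : |1 + s * t| ≤ Nn t * Nn s := by
  apply abs_le_of_sq_le_sq _ (mul_nonneg (Nn_pos t).le (Nn_pos s).le)
  rw [mul_pow, Nn_sq, Nn_sq]
  nlinarith [sq_nonneg (s - t)]

lemma turn {z : ℝ × ℝ} {t s A B D : ℝ} (h1 : |dot z (nv t)| ≤ A) (h2 : |dot z (tv t)| ≤ B)
    (hD : |t - s| ≤ D) : |dot z (nv s)| ≤ A + B * D ∧ |dot z (tv s)| ≤ A * D + B := by
  have hN := Nn_pos t
  have hM := Nn_pos s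
  have hN1 := Nn_one t
  have hM1 := Nn_one s
  have hNs := Nn_sq t
  have hNM : 0 < Nn t * Nn s := mul_pos hN hM
  have hNM1 : 1 ≤ Nn t * Nn s := one_le_mul_of_one_le_of_one_le hN1 hM1
  have hc := cs t s
  set P := dot z (nv t) with hP
  set Q := dot z (tv t) with hQ
  have hA : 0 ≤ A := (abs_nonneg _).trans h1
  have hB : 0 ≤ B := (abs_nonneg _).trans h2
  have hDn : 0 ≤ D := (abs_nonneg _).trans hD
  have hP' : P * Nn t = z.1 + t * z.2 := by
    rw [hP, dot, nv]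
    field_simp
  have hQ' : Q * Nn t = -t * z.1 + z.2 := by
    rw [hQ, dot, tv]
    field_simp
  have e1 : dot z (nv s) = (P * (1 + s * t) + Q * (s - t)) / (Nn t * Nn s) := by
    rw [eq_div_iff hNM.ne', dot, nv]
    have : (z.1 * (1 / Nn s, s / Nn s).1 + z.2 * (1 / Nn s, s / Nn s).2) * (Nn t * Nn s) =
        (z.1 + s * z.2) * Nn t := by
      field_simp
    rw [this]
    apply mul_right_cancel₀ hN.ne'
    calc (z.1 + s * z.2) * Nn t * Nn t = (z.1 + s * z.2) * (1 + t ^ 2) := by rw [← hNs]; ring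
      _ = (P * Nn t) * (1 + s * t) + (Q * Nn t) * (s - t) := by rw [hP', hQ']; ring
      _ = _ := by ring
  have e2 : dot z (tv s) = (P * (t - s) + Q * (1 + s * t)) / (Nn t * Nn s) := by
    rw [eq_div_iff hNM.ne', dot, tv]
    have : (z.1 * (-s / Nn s, 1 / Nn s).1 + z.2 * (-s / Nn s, 1 / Nn s).2) * (Nn t * Nn s) =
        (-s * z.1 + z.2) * Nn t := by
      field_simp
    rw [this]
    apply mul_right_cancel₀ hN.ne'
    calc (-s * z.1 + z.2) * Nn t * Nn t = (-s * z.1 + z.2) * (1 + t ^ 2) := by rw [← hNs]; ring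
      _ = (P * Nn t) * (t - s) + (Q * Nn t) * (1 + s * t) := by rw [hP', hQ']; ring
      _ = _ := by ring
  have hs' : |s - t| ≤ D := by rw [abs_sub_comm]; exact hD
  constructor
  · rw [e1, abs_div, abs_of_pos hNM, div_le_iff₀ hNM]
    calc |P * (1 + s * t) + Q * (s - t)| ≤ |P * (1 + s * t)| + |Q * (s - t)| := abs_add_le _ _
      _ = |P| * |1 + s * t| + |Q| * |s - t| := by rw [abs_mul, abs_mul]
      _ ≤ A * (Nn t * Nn s) + B * D * 1 := by
          have := mul_le_mul h1 hc (abs_nonneg _) hA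
          have := mul_le_mul h2 hs' (abs_nonneg _) hB
          linarith
      _ ≤ A * (Nn t * Nn s) + B * D * (Nn t * Nn s) := by gcongr
      _ = (A + B * D) * (Nn t * Nn s) := by ring
  · rw [e2, abs_div, abs_of_pos hNM, div_le_iff₀ hNM]
    calc |P * (t - s) + Q * (1 + s * t)| ≤ |P * (t - s)| + |Q * (1 + s * t)| := abs_add_le _ _
      _ = |P| * |t - s| + |Q| * |1 + s * t| := by rw [abs_mul, abs_mul]
      _ ≤ A * D * 1 + B * (Nn t * Nn s) := by
          have := mul_le_mul h2 hc (abs_nonneg _) hB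
          have := mul_le_mul h1 hD (abs_nonneg _) hA
          linarith
      _ ≤ A * D * (Nn t * Nn s) + B * (Nn t * Nn s) := by gcongr
      _ = (A * D + B) * (Nn t * Nn s) := by ring

/-- nested caps have close directions -/
lemma near {sl : ℝ} {a e e' p p' : ℕ} (he : e ≤ e') (hp : p' / 2 ^ (e' - e) = p) :
    |tp sl (e + 8 * a) p - tp sl (e' + 8 * a) p'| ≤ 1 / 2 ^ (e + 8 * a) := by
  obtain ⟨d, rfl⟩ := Nat.exists_eq_add_of_le he
  rw [Nat.add_sub_cancel_left] at hp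
  have h2 : 0 < 2 ^ d := by positivity
  have l1 : p * 2 ^ d ≤ p' := by
    rw [← hp]
    exact Nat.div_mul_le_self _ _
  have l2 : p' < (p + 1) * 2 ^ d := by
    rw [← hp]
    exact (Nat.div_lt_iff_lt_mul h2).1 (Nat.lt_succ_self _)
  have r1 : (p : ℝ) * 2 ^ d ≤ p' := by exact_mod_cast l1
  have r2 : (p' : ℝ) < (p + 1) * 2 ^ d := by exact_mod_cast l2
  have hpow : (2 : ℝ) ^ (e + d + 8 * a) = 2 ^ (e + 8 * a) * 2 ^ d := by
    rw [← pow_add]
    congr 1
    ring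
  have hX : (0 : ℝ) < 2 ^ (e + 8 * a) := by positivity
  have hY : (0 : ℝ) < 2 ^ d := by positivity
  have key : tp sl (e + 8 * a) p - tp sl (e + d + 8 * a) p' =
      (p * 2 ^ d - p') / (2 ^ (e + 8 * a) * 2 ^ d) := by
    rw [tp, tp, hpow]
    field_simp
    ring
  rw [key, abs_div, abs_of_pos (mul_pos hX hY), div_le_div_iff₀ (mul_pos hX hY) hX, one_mul]
  have : |(p : ℝ) * 2 ^ d - p'| ≤ 2 ^ d := by
    rw [abs_le]
    constructor <;> linarith
  calc |(p : ℝ) * 2 ^ d - p'| * 2 ^ (e + 8 * a) ≤ 2 ^ d * 2 ^ (e + 8 * a) := by gcongr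
    _ = _ := by ring

lemma dot_add_left (x y v : ℝ × ℝ) : dot (x + y) v = dot x v + dot y v := by
  simp only [dot, Prod.fst_add, Prod.snd_add]
  ring

/-- the numbers -/
lemma nums {q m E E' E'' F F' F'' : ℝ} (hq : 2 ^ 20 ≤ q) (hm : 0 < m) (hmq : m < q) (hE : 1 ≤ E)
    (hE1 : E ≤ E') (hE2 : E' ≤ E'') (hF : 1 ≤ F) (hF1 : F ≤ F') (hF2 : F' ≤ F'')
    (hFE : F ≤ 4 * E ^ 2) (hFE' : F' ≤ 4 * E' ^ 2) :
    (F * q ^ 6 + q ^ 14 * E * (2 / (E * q ^ 8))) + (F' * q ^ 6 + q ^ 14 * E' * (1 / (E' * q ^ 8))) <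
      1 / m * (F'' * q ^ 10) ∧
    (F * q ^ 6 * (2 / (E * q ^ 8)) + q ^ 14 * E) +
      (F' * q ^ 6 * (1 / (E' * q ^ 8)) + q ^ 14 * E') < 1 / m * (q ^ 18 * E'') := by
  have hq0 : 0 < q := by linarith [show (0 : ℝ) < 2 ^ 20 by positivity]
  have hq1 : (1000 : ℝ) ≤ q := le_trans (by norm_num) hq
  have hE0 : 0 < E := by linarith
  have hE0' : 0 < E' := by linarith
  have hE0'' : 0 < E'' := by linarith
  have hF0 : 0 < F := by linarith
  have hF0' : 0 < F' := by linarith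
  have hF0'' : 0 < F'' := by linarith
  constructor
  · have s1 : q ^ 14 * E * (2 / (E * q ^ 8)) = 2 * q ^ 6 := by field_simp
    have s2 : q ^ 14 * E' * (1 / (E' * q ^ 8)) = q ^ 6 := by field_simp
    rw [s1, s2]
    have h1 : (F * q ^ 6 + 2 * q ^ 6) + (F' * q ^ 6 + q ^ 6) ≤ 5 * F'' * q ^ 6 := by
      have hq6 : 0 < q ^ 6 := by positivity
      nlinarith
    refine lt_of_le_of_lt h1 ?_
    rw [one_div, ← div_eq_inv_mul, lt_div_iff₀ hm]
    calc 5 * F'' * q ^ 6 * m < 5 * F'' * q ^ 6 * q := by gcongr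
      _ = F'' * q ^ 7 * 5 := by ring
      _ ≤ F'' * q ^ 7 * q ^ 3 := by
          gcongr
          calc (5 : ℝ) ≤ 1000 ^ 3 := by norm_num
            _ ≤ q ^ 3 := by gcongr
      _ = F'' * q ^ 10 := by ring
  · have s1 : F * q ^ 6 * (2 / (E * q ^ 8)) ≤ q ^ 14 * E := by
      rw [mul_div_assoc', div_le_iff₀ (by positivity)]
      calc F * q ^ 6 * 2 ≤ 4 * E ^ 2 * q ^ 6 * 2 := by gcongr
        _ = q ^ 6 * E ^ 2 * 8 := by ring
        _ ≤ q ^ 6 * E ^ 2 * q ^ 16 := by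
            gcongr
            calc (8 : ℝ) ≤ 1000 ^ 16 := by norm_num
              _ ≤ q ^ 16 := by gcongr
        _ = q ^ 14 * E * (E * q ^ 8) := by ring
    have s2 : F' * q ^ 6 * (1 / (E' * q ^ 8)) ≤ q ^ 14 * E' := by
      rw [mul_div_assoc', div_le_iff₀ (by positivity)]
      calc F' * q ^ 6 * 1 ≤ 4 * E' ^ 2 * q ^ 6 * 1 := by gcongr
        _ = q ^ 6 * E' ^ 2 * 4 := by ring
        _ ≤ q ^ 6 * E' ^ 2 * q ^ 16 := by
            gcongr
            calc (4 : ℝ) ≤ 1000 ^ 16 := by norm_num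
              _ ≤ q ^ 16 := by gcongr
        _ = q ^ 14 * E' * (E' * q ^ 8) := by ring
    have hq14 : 0 < q ^ 14 := by positivity
    have h1 : (F * q ^ 6 * (2 / (E * q ^ 8)) + q ^ 14 * E) +
        (F' * q ^ 6 * (1 / (E' * q ^ 8)) + q ^ 14 * E') ≤ 4 * (q ^ 14 * E'') := by
      nlinarith
    refine lt_of_le_of_lt h1 ?_
    rw [one_div, ← div_eq_inv_mul, lt_div_iff₀ hm]
    calc 4 * (q ^ 14 * E'') * m < 4 * (q ^ 14 * E'') * q := by gcongr
      _ = q ^ 15 * E'' * 4 := by ring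
      _ ≤ q ^ 15 * E'' * q ^ 3 := by
          gcongr
          calc (4 : ℝ) ≤ 1000 ^ 3 := by norm_num
            _ ≤ q ^ 3 := by gcongr
      _ = q ^ 18 * E'' := by ring

end BXM_

open BXM_ in
theorem pBXM : tBXM := by
  intro a m sl l l' l'' e e' e'' p p' p'' s' z1 z2 z3 ha _ _ hl hll hll' _ hee hee' _ hle hle' _
    hp hp' _ h1 h2 h3 h4 hs hz
  obtain ⟨ha1, ha2, ha3⟩ := ha
  have hmpos : 0 < m := by
    have : 0 < 2 ^ a := by positivity
    omega
  have hm : (0 : ℝ) < m := by exact_mod_cast hmpos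
  set q : ℝ := 2 ^ a with hq
  have hq20 : (2 : ℝ) ^ 20 ≤ q := pow_le_pow_right₀ (by norm_num) ha1
  have hmq : (m : ℝ) < q := by rw [hq]; exact_mod_cast ha2
  have hpw : ∀ k : ℕ, (2 : ℝ) ^ (k * a) = q ^ k := by
    intro k
    rw [hq, ← pow_mul, Nat.mul_comm]
  set E : ℝ := 2 ^ e
  set E' : ℝ := 2 ^ e'
  set E'' : ℝ := 2 ^ e''
  set F : ℝ := 4 ^ l
  set F' : ℝ := 4 ^ l'
  set F'' : ℝ := 4 ^ l''
  have hE : 1 ≤ E := one_le_pow₀ (by norm_num)
  have hE1 : E ≤ E' := pow_le_pow_right₀ (by norm_num) hee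
  have hE2 : E' ≤ E'' := pow_le_pow_right₀ (by norm_num) hee'
  have hF : 1 ≤ F := one_le_pow₀ (by norm_num)
  have hF1 : F ≤ F' := pow_le_pow_right₀ (by norm_num) (by omega)
  have hF2 : F' ≤ F'' := pow_le_pow_right₀ (by norm_num) hll'
  have four : ∀ k : ℕ, (4 : ℝ) ^ k = (2 ^ k) ^ 2 := by
    intro k
    rw [← pow_mul, Nat.mul_comm, pow_mul]
    norm_num
  have hFE : F ≤ 4 * E ^ 2 := by
    calc F ≤ 4 ^ (e + 1) := pow_le_pow_right₀ (by norm_num) hle
      _ = 4 * E ^ 2 := by rw [pow_succ, four e]; ring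
  have hFE' : F' ≤ 4 * E' ^ 2 := by
    calc F' ≤ 4 ^ (e' + 1) := pow_le_pow_right₀ (by norm_num) hle'
      _ = 4 * E' ^ 2 := by rw [pow_succ, four e']; ring
  obtain ⟨N1, N2⟩ := nums hq20 hm hmq hE hE1 hE2 hF hF1 hF2 hFE hFE'
  -- directions
  have hE0 : 0 < E := by linarith
  have hE0' : 0 < E' := by linarith
  have hq0 : 0 < q := by linarith [show (0 : ℝ) < 2 ^ 20 by positivity]
  have d1 := near (sl := sl) (a := a) hee hp
  have d2 := near (sl := sl) (a := a) hee' hp'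
  rw [pow_add, hpw 8] at d1 d2
  have d3 : |tp sl (e + 8 * a) p - tp sl (e'' + 8 * a) p''| ≤ 2 / (E * q ^ 8) := by
    have t1 := abs_sub_le (tp sl (e + 8 * a) p) (tp sl (e' + 8 * a) p') (tp sl (e'' + 8 * a) p'')
    have t2 : 1 / (E' * q ^ 8) ≤ 1 / (E * q ^ 8) := by gcongr
    have t3 : 2 / (E * q ^ 8) = 1 / (E * q ^ 8) + 1 / (E * q ^ 8) := by ring
    rw [t3]
    exact t1.trans (add_le_add d1 (d2.trans t2))
  rw [hpw 6] at h1 h3
  have hB1 : (2 : ℝ) ^ (6 * a + (e + 8 * a)) = q ^ 14 * E := by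
    rw [show 6 * a + (e + 8 * a) = 14 * a + e by ring, pow_add, hpw 14]
  have hB2 : (2 : ℝ) ^ (6 * a + (e' + 8 * a)) = q ^ 14 * E' := by
    rw [show 6 * a + (e' + 8 * a) = 14 * a + e' by ring, pow_add, hpw 14]
  rw [hB1] at h2
  rw [hB2] at h4
  obtain ⟨u1, u2⟩ := turn h1 h2 d3
  obtain ⟨u3, u4⟩ := turn h3 h4 d2
  obtain ⟨w1, w2⟩ := hz
  rw [sub_zero] at w1 w2
  have hsd : sd a e'' = q ^ 18 * E'' := by
    rw [sd, show e'' + 18 * a = 18 * a + e'' by ring, pow_add, hpw 18]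
  have hbl : F'' * q ^ 10 ≤ bl a e'' l'' := by
    refine le_trans (le_of_eq ?_) (le_max_left _ _)
    rw [pow_add, four (5 * a), hpw 5]
    change F'' * q ^ 10 = F'' * (q ^ 5) ^ 2
    ring
  have hm1 : 0 < 1 / (m : ℝ) := by positivity
  refine ⟨?_, ?_⟩
  · rw [sub_zero, dot_add_left, dot_add_left]
    calc |dot z1 (nv (tp sl (e'' + 8 * a) p'')) + dot z2 (nv (tp sl (e'' + 8 * a) p'')) +
          dot z3 (nv (tp sl (e'' + 8 * a) p''))| ≤
          |dot z1 (nv (tp sl (e'' + 8 * a) p''))| + |dot z2 (nv (tp sl (e'' + 8 * a) p''))| +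
          |dot z3 (nv (tp sl (e'' + 8 * a) p''))| := abs_add_three _ _ _
      _ < 1 / m * (F'' * q ^ 10) + s' * bl a e'' l'' := by linarith
      _ ≤ 1 / m * bl a e'' l'' + s' * bl a e'' l'' := by gcongr
      _ = (s' + 1 / m) * bl a e'' l'' := by ring
  · rw [sub_zero, dot_add_left, dot_add_left]
    calc |dot z1 (tv (tp sl (e'' + 8 * a) p'')) + dot z2 (tv (tp sl (e'' + 8 * a) p'')) +
          dot z3 (tv (tp sl (e'' + 8 * a) p''))| ≤
          |dot z1 (tv (tp sl (e'' + 8 * a) p''))| + |dot z2 (tv (tp sl (e'' + 8 * a) p''))| +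
          |dot z3 (tv (tp sl (e'' + 8 * a) p''))| := abs_add_three _ _ _
      _ < 1 / m * (q ^ 18 * E'') + s' * sd a e'' := by linarith
      _ = (s' + 1 / m) * sd a e'' := by rw [hsd]; ring

end Pool.Agent.LLog
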