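import Pool.Agent.LLog.Targets

set_option autoImplicit false

/-! MP_ee701d_an, weak (2,2) bound: a segment that meets a union of squares often (target CLP). -/

namespace Pool.Agent.LLog

open MeasureTheory Set
open scoped ENNReal NNReal
open Pool.Agent.KSP (dot)

namespace CLP_

theorem Nn_pos (t : ℝ) : 0 < Nn t := Real.sqrt_pos.2 (by positivity)

theorem Nn_sq (t : ℝ) : Nn t ^ 2 = 1 + t ^ 2 := Real.sq_sqrt (by positivity)

/-- the square with index `z` -/
def Sq (a : ℕ) (z0 : ℝ × ℝ) (e : ℕ) (z : ℤ × ℤ) : Set (ℝ × ℝ) := {y | Qx a z0 e y = z}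

theorem sd_pos (a e : ℕ) : 0 < sd a e := by
  unfold sd
  positivity

theorem Sq_eq (a : ℕ) (z0 : ℝ × ℝ) (e : ℕ) (z : ℤ × ℤ) : Sq a z0 e z =
    Ico (z0.1 + z.1 * sd a e) (z0.1 + z.1 * sd a e + sd a e) ×ˢ
      Ico (z0.2 + z.2 * sd a e) (z0.2 + z.2 * sd a e + sd a e) := by
  have hs := sd_pos a e
  ext y
  simp only [Sq, Qx, mem_setOf_eq, mem_prod, mem_Ico]
  rw [Prod.ext_iff]
  have key : ∀ (u v : ℝ) (n : ℤ), ⌊(u - v) / sd a e⌋ = n ↔
      v + n * sd a e ≤ u ∧ u < v + n * sd a e + sd a e := by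
    intro u v n
    rw [Int.floor_eq_iff, le_div_iff₀ hs, div_lt_iff₀ hs]
    constructor
    · rintro ⟨h1, h2⟩
      constructor <;> linarith
    · rintro ⟨h1, h2⟩
      constructor <;> linarith
  exact and_congr (key _ _ _) (key _ _ _)

theorem Sq_meas (a : ℕ) (z0 : ℝ × ℝ) (e : ℕ) (z : ℤ × ℤ) : MeasurableSet (Sq a z0 e z) := by
  rw [Sq_eq]
  exact measurableSet_Ico.prod measurableSet_Ico

theorem Sq_vol (a : ℕ) (z0 : ℝ × ℝ) (e : ℕ) (z : ℤ × ℤ) :
    volume (Sq a z0 e z) = ENNReal.ofReal (sd a e) * ENNReal.ofReal (sd a e) := by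
  rw [Sq_eq, Measure.volume_eq_prod, Measure.prod_prod, Real.volume_Ico, Real.volume_Ico]
  congr 2 <;> ring

theorem Sq_close (a : ℕ) (z0 : ℝ × ℝ) (e : ℕ) (z : ℤ × ℤ) (y y' : ℝ × ℝ) (h : y ∈ Sq a z0 e z)
    (h' : y' ∈ Sq a z0 e z) : |y.1 - y'.1| ≤ sd a e ∧ |y.2 - y'.2| ≤ sd a e := by
  rw [Sq_eq] at h h'
  simp only [mem_prod, mem_Ico] at h h'
  constructor <;> rw [abs_le] <;> constructor <;> linarith [h.1.1, h.1.2, h.2.1, h.2.2, h'.1.1,
    h'.1.2, h'.2.1, h'.2.2]

theorem dot_nv (w : ℝ × ℝ) (t r : ℝ) (hr : 0 < r) (h1 : |w.1| ≤ r) (h2 : |w.2| ≤ r) :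
    |dot w (nv t)| < 2 * r ∧ |dot w (tv t)| < 2 * r := by
  have hN := Nn_pos t
  have hN2 := Nn_sq t
  have h1' : w.1 ^ 2 ≤ r ^ 2 := by
    rw [← sq_abs]
    exact pow_le_pow_left₀ (abs_nonneg _) h1 2
  have h2' : w.2 ^ 2 ≤ r ^ 2 := by
    rw [← sq_abs]
    exact pow_le_pow_left₀ (abs_nonneg _) h2 2
  have e1 : dot w (nv t) = (w.1 + w.2 * t) / Nn t := by
    simp only [dot, nv]
    field_simp
  have e2 : dot w (tv t) = (w.2 - w.1 * t) / Nn t := by
    simp only [dot, tv]
    field_simp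
    ring
  constructor
  · rw [e1]
    apply abs_lt_of_sq_lt_sq _ (by positivity)
    rw [div_pow, div_lt_iff₀ (by positivity), hN2]
    nlinarith [sq_nonneg (w.2 - w.1 * t), sq_nonneg t, sq_nonneg (r * t), mul_pos hr hr,
      mul_le_mul_of_nonneg_right h1' (sq_nonneg t), mul_le_mul_of_nonneg_right h2' (sq_nonneg t)]
  · rw [e2]
    apply abs_lt_of_sq_lt_sq _ (by positivity)
    rw [div_pow, div_lt_iff₀ (by positivity), hN2]
    nlinarith [sq_nonneg (w.1 + w.2 * t), sq_nonneg t, sq_nonneg (r * t), mul_pos hr hr,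
      mul_le_mul_of_nonneg_right h1' (sq_nonneg t), mul_le_mul_of_nonneg_right h2' (sq_nonneg t)]

theorem dot_smul_nv (s t : ℝ) : dot (s • nv t) (nv t) = s ∧ dot (s • nv t) (tv t) = 0 := by
  have hN := Nn_pos t
  have hN2 := Nn_sq t
  simp only [dot, nv, tv, Prod.smul_mk, smul_eq_mul]
  constructor
  · field_simp
    rw [hN2]
  · field_simp
    ring

theorem dot_add (u v w : ℝ × ℝ) : dot (u + v) w = dot u w + dot v w := by
  simp only [dot, Prod.fst_add, Prod.snd_add]
  ring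

/-- the length of the intersection of a line with a square -/
theorem line_sq (a : ℕ) (z0 : ℝ × ℝ) (e : ℕ) (z : ℤ × ℤ) (t : ℝ) (x : ℝ × ℝ) :
    volume {s : ℝ | x + s • nv t ∈ Sq a z0 e z} ≤ ENNReal.ofReal (2 * sd a e) := by
  refine (Real.volume_le_diam _).trans ?_
  apply Metric.ediam_le
  intro s hs s' hs'
  rw [edist_dist, Real.dist_eq]
  apply ENNReal.ofReal_le_ofReal
  obtain ⟨h1, h2⟩ := Sq_close a z0 e z _ _ hs hs'
  have h3 : (x + s • nv t) - (x + s' • nv t) = (s - s') • nv t := by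
    rw [sub_smul]
    abel
  have h4 : |((s - s') • nv t).1| ≤ sd a e := by
    rw [← h3]
    exact h1
  have h5 : |((s - s') • nv t).2| ≤ sd a e := by
    rw [← h3]
    exact h2
  have h6 := (dot_nv _ t (sd a e) (sd_pos a e) h4 h5).1
  rw [(dot_smul_nv (s - s') t).1] at h6
  exact h6.le

end CLP_

open CLP_ in
theorem pCLP : tCLP := by
  classical
  intro a m z0 t L e l X x hPA hl hlm hle hem hL1 hL2 hsat hsa
  have hsd := sd_pos a e
  have hL0 : 0 < L := lt_of_lt_of_le (by positivity) hL1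
  have hbl1 : sd a e ≤ bl a e l := le_max_right _ _
  have hbl2 : L ≤ bl a e l := hL2.trans (le_max_left _ _)
  -- the indices
  set Z : Finset (ℤ × ℤ) := (Finset.Icc ⌊(x.1 - L - z0.1) / sd a e⌋ ⌊(x.1 + L - z0.1) / sd a e⌋ ×ˢ
    Finset.Icc ⌊(x.2 - L - z0.2) / sd a e⌋ ⌊(x.2 + L - z0.2) / sd a e⌋).filter
      (fun z => ∃ s ∈ Icc (-L) L, Qx a z0 e (x + s • nv t) = z ∧ x + s • nv t ∈ X) with hZ
  have hnv : |(nv t).1| ≤ 1 ∧ |(nv t).2| ≤ 1 := by
    have hN := Nn_pos t
    have hN2 := Nn_sq t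
    simp only [nv]
    constructor
    · rw [abs_div, abs_one, abs_of_pos hN, div_le_one hN]
      nlinarith [sq_nonneg t]
    · rw [abs_div, abs_of_pos hN, div_le_one hN]
      exact abs_le_of_sq_le_sq (by nlinarith) hN.le
  have hmem : ∀ s ∈ Icc (-L) L, x + s • nv t ∈ X → Qx a z0 e (x + s • nv t) ∈ Z := by
    intro s hs hX
    have hs' : |s| ≤ L := abs_le.2 hs
    have h1 : |s * (nv t).1| ≤ L := by
      rw [abs_mul]
      calc |s| * |(nv t).1| ≤ L * 1 := mul_le_mul hs' hnv.1 (abs_nonneg _) hL0.le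
        _ = L := mul_one _
    have h2 : |s * (nv t).2| ≤ L := by
      rw [abs_mul]
      calc |s| * |(nv t).2| ≤ L * 1 := mul_le_mul hs' hnv.2 (abs_nonneg _) hL0.le
        _ = L := mul_one _
    rw [abs_le] at h1 h2
    rw [hZ, Finset.mem_filter, Finset.mem_product, Finset.mem_Icc, Finset.mem_Icc]
    refine ⟨⟨⟨?_, ?_⟩, ?_, ?_⟩, s, hs, rfl, hX⟩
    · apply Int.floor_le_floor
      apply div_le_div_of_nonneg_right _ hsd.le
      simp only [Prod.fst_add, Prod.smul_fst, smul_eq_mul]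
      linarith
    · apply Int.floor_le_floor
      apply div_le_div_of_nonneg_right _ hsd.le
      simp only [Prod.fst_add, Prod.smul_fst, smul_eq_mul]
      linarith
    · apply Int.floor_le_floor
      apply div_le_div_of_nonneg_right _ hsd.le
      simp only [Prod.snd_add, Prod.smul_snd, smul_eq_mul]
      linarith
    · apply Int.floor_le_floor
      apply div_le_div_of_nonneg_right _ hsd.le
      simp only [Prod.snd_add, Prod.smul_snd, smul_eq_mul]
      linarith
  -- squares are in the set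
  have hsub : ∀ z ∈ Z, Sq a z0 e z ⊆ X ∩ bx t x (3 * bl a e l) (3 * sd a e) := by
    intro z hz y hy
    rw [hZ, Finset.mem_filter] at hz
    obtain ⟨-, s, hs, hsz, hsX⟩ := hz
    have hs' : |s| ≤ L := abs_le.2 hs
    refine ⟨hsat _ y (hsz.trans (Eq.symm hy)) hsX, ?_⟩
    have hc := Sq_close a z0 e z y (x + s • nv t) hy hsz
    have hd := dot_nv (y - (x + s • nv t)) t (sd a e) hsd hc.1 hc.2
    have he : y - x = (y - (x + s • nv t)) + s • nv t := by abel
    show |dot (y - x) (nv t)| < 3 * bl a e l ∧ |dot (y - x) (tv t)| < 3 * sd a e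
    rw [he, dot_add, dot_add, (dot_smul_nv s t).1, (dot_smul_nv s t).2, add_zero]
    constructor
    · calc |dot (y - (x + s • nv t)) (nv t) + s| ≤ |dot (y - (x + s • nv t)) (nv t)| + |s| :=
            abs_add_le _ _
        _ < 3 * bl a e l := by linarith [hd.1]
    · linarith [hd.2]
  -- lower bound of the volume
  have hvol : (Z.card : ℝ≥0∞) * (ENNReal.ofReal (sd a e) * ENNReal.ofReal (sd a e)) ≤
      volume (X ∩ bx t x (3 * bl a e l) (3 * sd a e)) := by
    have h1 : (⋃ z ∈ Z, Sq a z0 e z) ⊆ X ∩ bx t x (3 * bl a e l) (3 * sd a e) :=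
      iUnion₂_subset hsub
    refine le_trans (le_of_eq ?_) (measure_mono h1)
    rw [measure_biUnion_finset]
    · rw [Finset.sum_congr rfl (fun z _ => Sq_vol a z0 e z), Finset.sum_const, nsmul_eq_mul]
    · intro z _ z' _ hzz
      rw [Function.onFun, Set.disjoint_left]
      intro y hy hy'
      exact hzz (Eq.trans (Eq.symm hy) hy')
    · intro z _
      exact Sq_meas a z0 e z
  -- upper bound of the measure on the line
  have hline : ∫⁻ s in Icc (-L) L, (inn (de a e) X).indicator 1 (x + s • nv t) ≤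
      (Z.card : ℝ≥0∞) * ENNReal.ofReal (2 * sd a e) := by
    have hcont : Measurable (fun s : ℝ => x + s • nv t) := by fun_prop
    have h1 : ∀ s ∈ Icc (-L) L, (inn (de a e) X).indicator (1 : ℝ × ℝ → ℝ≥0∞) (x + s • nv t) ≤
        ∑ z ∈ Z, {s : ℝ | x + s • nv t ∈ Sq a z0 e z}.indicator (1 : ℝ → ℝ≥0∞) s := by
      intro s hs
      by_cases hin : x + s • nv t ∈ inn (de a e) X
      · have hX : x + s • nv t ∈ X := by
          apply hin
          · simp only [sub_self, abs_zero]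
            unfold de
            positivity
          · simp only [sub_self, abs_zero]
            unfold de
            positivity
        rw [indicator_of_mem hin]
        have h2 := Finset.single_le_sum (f := fun z =>
          {s : ℝ | x + s • nv t ∈ Sq a z0 e z}.indicator (1 : ℝ → ℝ≥0∞) s)
          (fun _ _ => zero_le') (hmem s hs hX)
        refine le_trans (le_of_eq ?_) h2
        rw [indicator_of_mem (by rfl)]
        rfl
      · rw [indicator_of_notMem hin]
        exact zero_le'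
    calc ∫⁻ s in Icc (-L) L, (inn (de a e) X).indicator 1 (x + s • nv t) ≤
        ∫⁻ s in Icc (-L) L, ∑ z ∈ Z,
          {s : ℝ | x + s • nv t ∈ Sq a z0 e z}.indicator (1 : ℝ → ℝ≥0∞) s :=
          setLIntegral_mono' measurableSet_Icc h1
      _ ≤ ∫⁻ s, ∑ z ∈ Z, {s : ℝ | x + s • nv t ∈ Sq a z0 e z}.indicator (1 : ℝ → ℝ≥0∞) s :=
          setLIntegral_le_lintegral _ _
      _ = ∑ z ∈ Z, ∫⁻ s, {s : ℝ | x + s • nv t ∈ Sq a z0 e z}.indicator (1 : ℝ → ℝ≥0∞) s := by
          apply lintegral_finset_sum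
          intro z _
          exact measurable_one.indicator (hcont (Sq_meas a z0 e z))
      _ = ∑ z ∈ Z, volume {s : ℝ | x + s • nv t ∈ Sq a z0 e z} := by
          apply Finset.sum_congr rfl
          intro z _
          exact lintegral_indicator_one (hcont (Sq_meas a z0 e z))
      _ ≤ ∑ _z ∈ Z, ENNReal.ofReal (2 * sd a e) :=
          Finset.sum_le_sum (fun z _ => line_sq a z0 e z t x)
      _ = (Z.card : ℝ≥0∞) * ENNReal.ofReal (2 * sd a e) := by
          rw [Finset.sum_const, nsmul_eq_mul]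
  -- the number of squares
  have hcount : 2 * L / 2 ^ a ≤ Z.card * (2 * sd a e) := by
    have h1 : ENNReal.ofReal (1 / 2 ^ a) ≤ (ENNReal.ofReal (2 * L))⁻¹ *
        ((Z.card : ℝ≥0∞) * ENNReal.ofReal (2 * sd a e)) :=
      hsa.trans (mul_le_mul_right hline _)
    have h2 : (ENNReal.ofReal (2 * L))⁻¹ * ((Z.card : ℝ≥0∞) * ENNReal.ofReal (2 * sd a e)) =
        ENNReal.ofReal ((2 * L)⁻¹ * (Z.card * (2 * sd a e))) := by
      rw [ENNReal.ofReal_mul (p := (2 * L)⁻¹) (by positivity),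
        ENNReal.ofReal_inv_of_pos (x := 2 * L) (by positivity),
        ENNReal.ofReal_mul (p := (Z.card : ℝ)) (Nat.cast_nonneg _), ENNReal.ofReal_natCast]
    rw [h2, ENNReal.ofReal_le_ofReal_iff (by positivity)] at h1
    have h3 : 2 * L * (1 / 2 ^ a) ≤ 2 * L * ((2 * L)⁻¹ * (Z.card * (2 * sd a e))) :=
      mul_le_mul_of_nonneg_left h1 (by positivity)
    rw [← mul_assoc (2 * L), mul_inv_cancel₀ (by positivity), one_mul] at h3
    rw [div_eq_mul_one_div]
    exact h3
  have hcard : (1 : ℝ) ≤ Z.card := by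
    have h1 : 0 < 2 * L / 2 ^ a := by positivity
    have h2 : Z.card ≠ 0 := by
      intro h
      rw [h, Nat.cast_zero, zero_mul] at hcount
      linarith
    exact_mod_cast Nat.one_le_iff_ne_zero.2 h2
  refine le_trans ?_ hvol
  rw [← ENNReal.ofReal_mul hsd.le, ← ENNReal.ofReal_natCast, ← ENNReal.ofReal_mul
    (Nat.cast_nonneg _)]
  apply ENNReal.ofReal_le_ofReal
  rw [← mul_assoc, mul_div_right_comm]
  apply mul_le_mul_of_nonneg_right _ hsd.le
  rw [div_le_iff₀ (by positivity)]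
  rcases le_total (4 ^ (l + 5 * a)) (sd a e) with h | h
  · have hb : bl a e l = sd a e := max_eq_right h
    rw [hb]
    have h1 : (1 : ℝ) ≤ 2 ^ (16 * a) := one_le_pow₀ (by norm_num)
    calc sd a e = 1 * sd a e * 1 := by ring
      _ ≤ Z.card * sd a e * 2 ^ (16 * a) := by
        apply mul_le_mul (mul_le_mul_of_nonneg_right hcard hsd.le) h1 (by norm_num) (by positivity)
  · have hb : bl a e l = 4 ^ (l + 5 * a) := max_eq_left h
    rw [hb]
    have h1 : 4 ^ l / 4 ^ (2 * a) / 2 ^ a ≤ Z.card * sd a e := by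
      have h2 : L / 2 ^ a ≤ Z.card * sd a e := by
        have h3 : 2 * L / 2 ^ a = 2 * (L / 2 ^ a) := by ring
        rw [h3] at hcount
        linarith
      exact le_trans (div_le_div_of_nonneg_right hL1 (by positivity)) h2
    calc (4 : ℝ) ^ (l + 5 * a) = 4 ^ l / 4 ^ (2 * a) / 2 ^ a * 2 ^ (15 * a) := by
          rw [pow_add]
          have e1 : (4 : ℝ) ^ (5 * a) = 2 ^ (10 * a) := by
            rw [show (4 : ℝ) = 2 ^ 2 by norm_num, ← pow_mul]
            ring_nf
          have e2 : (4 : ℝ) ^ (2 * a) = 2 ^ (4 * a) := by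
            rw [show (4 : ℝ) = 2 ^ 2 by norm_num, ← pow_mul]
            ring_nf
          have e3 : (2 : ℝ) ^ (15 * a) = 2 ^ (10 * a) * (2 ^ (4 * a) * 2 ^ a) := by
            rw [← pow_add, ← pow_add]
            congr 1
            ring
          rw [e1, e2, e3]
          field_simp
      _ ≤ Z.card * sd a e * 2 ^ (16 * a) := by
          apply mul_le_mul h1 _ (by positivity) (by positivity)
          exact pow_le_pow_right₀ (by norm_num) (by omega)

end Pool.Agent.LLog
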