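import Pool.Agent.LLog.Targets

set_option autoImplicit false

/-! MP_ee701d_an, F11: exceptional points. -/

namespace Pool.Agent.LLog.DRP_

open MeasureTheory Set
open scoped ENNReal NNReal
open Pool.Agent.LLog

theorem sd_pos (a e : ℕ) : 0 < sd a e := by unfold sd; positivity

theorem sq_eq (a : ℕ) (z0 : ℝ × ℝ) (e : ℕ) (z : ℤ × ℤ) : {x | Qx a z0 e x = z} =
    Ico (z0.1 + z.1 * sd a e) (z0.1 + (z.1 + 1) * sd a e) ×ˢ
      Ico (z0.2 + z.2 * sd a e) (z0.2 + (z.2 + 1) * sd a e) := by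
  have hs := sd_pos a e
  ext x
  simp only [Set.mem_ofPred_eq, Qx, Set.mem_prod, Set.mem_Ico, Prod.ext_iff, Int.floor_eq_iff,
    le_div_iff₀ hs, div_lt_iff₀ hs]
  constructor
  · rintro ⟨⟨h1, h2⟩, h3, h4⟩
    refine ⟨⟨by linarith, by linarith⟩, by linarith, by linarith⟩
  · rintro ⟨⟨h1, h2⟩, h3, h4⟩
    refine ⟨⟨by linarith, by linarith⟩, by linarith, by linarith⟩

theorem sq_meas (a : ℕ) (z0 : ℝ × ℝ) (e : ℕ) (z : ℤ × ℤ) :
    MeasurableSet {x | Qx a z0 e x = z} := by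
  rw [sq_eq]
  exact measurableSet_Ico.prod measurableSet_Ico

theorem sq_vol (a : ℕ) (z0 : ℝ × ℝ) (e : ℕ) (z : ℤ × ℤ) :
    volume {x | Qx a z0 e x = z} = ENNReal.ofReal (sd a e ^ 2) := by
  rw [sq_eq, Measure.volume_eq_prod, Measure.prod_prod, Real.volume_Ico, Real.volume_Ico,
    ← ENNReal.ofReal_mul (by ring_nf; exact (sd_pos a e).le)]
  congr 1
  ring

/-- integral of a number of indices -/
theorem int_card {ι : Type*} (S : Finset ι) (M : ι → Set (ℝ × ℝ)) (hM : ∀ i, MeasurableSet (M i)) :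
    ∫⁻ x, ∑ i ∈ S, (M i).indicator (fun _ => (1 : ℝ≥0∞)) x = ∑ i ∈ S, volume (M i) := by
  rw [lintegral_finsetSum]
  · refine Finset.sum_congr rfl fun i _ => ?_
    rw [lintegral_indicator (hM i)]
    simp
  · intro i _
    exact measurable_const.indicator (hM i)

/-- Markov for numbers of indices -/
theorem markov {ι : Type*} (S : Finset ι) (p : ι → ℝ × ℝ → Prop)
    (M : ι → Set (ℝ × ℝ)) (hM : ∀ i, MeasurableSet (M i)) (hp : ∀ i ∈ S, ∀ x, p i x → x ∈ M i)
    [∀ x, DecidablePred (fun i => p i x)] (N : ℕ) :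
    (N : ℝ≥0∞) * volume {x | N < (S.filter (fun i => p i x)).card} ≤
      ∑ i ∈ S, volume (M i) := by
  rw [← int_card S M hM]
  refine le_trans ?_ (mul_meas_ge_le_lintegral (μ := volume)
    (f := fun x => ∑ i ∈ S, (M i).indicator (fun _ => (1 : ℝ≥0∞)) x) ?_ (N : ℝ≥0∞))
  · refine mul_le_mul_right (measure_mono fun x hx => ?_) _
    rw [Set.mem_ofPred_eq] at hx ⊢
    have h1 : ((S.filter (fun i => p i x)).card : ℝ≥0∞) ≤
        ∑ i ∈ S, (M i).indicator (fun _ => (1 : ℝ≥0∞)) x := by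
      rw [Finset.card_filter]
      push_cast
      refine Finset.sum_le_sum fun i hi => ?_
      split_ifs with h
      · rw [Set.indicator_of_mem (hp i hi x h)]
      · exact bot_le
    refine le_trans ?_ h1
    exact_mod_cast hx.le
  · exact Finset.measurable_sum _ fun i _ => measurable_const.indicator (hM i)

theorem log_bound (a l e : ℕ) (ha : 20 ≤ a) (hl : l ≤ 2 ^ a) :
    1 + Real.log (bl a e l / sd a e) ≤ 2 ^ (a + 3) := by
  have hs := sd_pos a e
  have h5 : 5 * a ≤ 2 ^ a := by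
    have : ∀ n : ℕ, 20 ≤ n → 5 * n ≤ 2 ^ n := by
      intro n hn
      induction n, hn using Nat.le_induction with
      | base => norm_num
      | succ n hn ih => rw [pow_succ]; omega
    exact this a ha
  have h5' : (5 : ℝ) * a ≤ 2 ^ a := by exact_mod_cast h5
  have hl' : (l : ℝ) ≤ 2 ^ a := by exact_mod_cast hl
  have hp1 : (1 : ℝ) ≤ 2 ^ a := one_le_pow₀ (by norm_num)
  have h1 : bl a e l / sd a e ≤ 4 ^ (l + 5 * a) := by
    rw [div_le_iff₀ hs, bl]
    have hs1 : 1 ≤ sd a e := by unfold sd; exact one_le_pow₀ (by norm_num)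
    have h41 : (1 : ℝ) ≤ 4 ^ (l + 5 * a) := one_le_pow₀ (by norm_num)
    refine max_le ?_ ?_
    · nlinarith
    · nlinarith
  have hpos : 0 < bl a e l / sd a e := by
    refine div_pos ?_ hs
    unfold bl
    exact lt_max_of_lt_right hs
  have h2 : Real.log (bl a e l / sd a e) ≤ (l + 5 * a) * Real.log 4 := by
    refine (Real.log_le_log hpos h1).trans ?_
    rw [Real.log_pow]
    push_cast
    exact le_rfl
  have h4 : Real.log 4 ≤ 2 := by
    have : Real.log 4 = 2 * Real.log 2 := by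
      rw [show (4 : ℝ) = 2 ^ 2 by norm_num, Real.log_pow]; norm_num
    rw [this]
    have := Real.log_two_lt_d9
    linarith
  have h6 : ((l : ℝ) + 5 * a) * Real.log 4 ≤ (l + 5 * a) * 2 := by
    gcongr
  rw [pow_add]
  norm_num
  linarith

theorem Zt_sub (a : ℕ) (z0 : ℝ × ℝ) (T : Finset Top) (e l b : ℕ) :
    Zt a z0 T e l b = ⋃ t ∈ T.filter (fun t => e ≤ t.1 ∧ l - 1 ≤ t.1 ∧
      t.2.1 / 4 ^ (t.1 - (l - 1)) = b), {x | Qx a z0 t.1 x = t.2.2} := by
  ext x
  simp only [Zt, TX, Finset.mem_filter, Set.mem_ofPred_eq, Set.mem_iUnion, exists_prop]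
  constructor
  · rintro ⟨t, ⟨h1, h2⟩, h3⟩
    exact ⟨t, ⟨h1, h3⟩, h2⟩
  · rintro ⟨t, ⟨h1, h3⟩, h2⟩
    exact ⟨t, ⟨h1, h2⟩, h3⟩

theorem Zt_meas (a : ℕ) (z0 : ℝ × ℝ) (T : Finset Top) (e l b : ℕ) :
    MeasurableSet (Zt a z0 T e l b) := by
  rw [Zt_sub]
  exact Finset.measurableSet_biUnion _ fun t _ => sq_meas a z0 t.1 t.2.2

theorem Zt_sum (a : ℕ) (z0 : ℝ × ℝ) (T : Finset Top) (e l N : ℕ) :
    ∑ b ∈ Finset.range N, volume (Zt a z0 T e l b) ≤ ∑ t ∈ T, ENNReal.ofReal (sd a t.1 ^ 2) := by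
  calc ∑ b ∈ Finset.range N, volume (Zt a z0 T e l b)
      ≤ ∑ b ∈ Finset.range N, ∑ t ∈ T.filter (fun t => t.2.1 / 4 ^ (t.1 - (l - 1)) = b),
          ENNReal.ofReal (sd a t.1 ^ 2) := by
        refine Finset.sum_le_sum fun b _ => ?_
        rw [Zt_sub]
        refine (measure_biUnion_finset_le _ _).trans ?_
        simp only [sq_vol]
        refine Finset.sum_le_sum_of_subset ?_
        intro t ht
        simp only [Finset.mem_filter] at ht ⊢
        exact ⟨ht.1, ht.2.2.2⟩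
    _ = ∑ t ∈ T.filter (fun t => t.2.1 / 4 ^ (t.1 - (l - 1)) ∈ Finset.range N),
          ENNReal.ofReal (sd a t.1 ^ 2) := by
        rw [← Finset.sum_fiberwise_of_maps_to (s := T.filter (fun t =>
          t.2.1 / 4 ^ (t.1 - (l - 1)) ∈ Finset.range N)) (t := Finset.range N)
          (g := fun t => t.2.1 / 4 ^ (t.1 - (l - 1)))]
        · refine Finset.sum_congr rfl fun b hb => ?_
          refine Finset.sum_congr ?_ fun _ _ => rfl
          ext t
          simp only [Finset.mem_filter]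
          constructor
          · rintro ⟨h1, h2⟩
            exact ⟨⟨h1, h2 ▸ hb⟩, h2⟩
          · rintro ⟨⟨h1, _⟩, h2⟩
            exact ⟨h1, h2⟩
        · intro t ht
          exact (Finset.mem_filter.1 ht).2
    _ ≤ ∑ t ∈ T, ENNReal.ofReal (sd a t.1 ^ 2) :=
        Finset.sum_le_sum_of_subset (Finset.filter_subset _ _)

theorem ofReal_two_pow (n : ℕ) : ENNReal.ofReal (2 ^ n) = 2 ^ n := by
  rw [ENNReal.ofReal_pow (by norm_num)]
  norm_num

theorem Zp_vol {C : ℝ≥0} (hC : ∀ (Z : Set (ℝ × ℝ)) (A B β : ℝ), MeasurableSet Z → 0 < B →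
    B ≤ A → 0 < β → β ≤ 1 →
    volume {y | ∃ t ∈ Icc (-2 : ℝ) 2, ∃ x0, y ∈ bx t x0 (7 * A) (7 * B) ∧
      ENNReal.ofReal (A * B * β) ≤ volume (Z ∩ bx t x0 (7 * A) (7 * B))} ≤
    C * ENNReal.ofReal ((1 + Real.log (A / B)) / β ^ 2) * volume Z)
    (a : ℕ) (z0 : ℝ × ℝ) (T : Finset Top) (e l b : ℕ) (ha : 20 ≤ a) (hl : l ≤ 2 ^ a) :
    volume (Zp a z0 T e l b) ≤ C * 2 ^ (33 * a + 3) * volume (Zt a z0 T e l b) := by
  have hs := sd_pos a e
  have h := hC (Zt a z0 T e l b) (bl a e l) (sd a e) (1 / 2 ^ (16 * a)) (Zt_meas a z0 T e l b) hs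
    (le_max_right _ _) (by positivity) (by
      rw [div_le_one (by positivity)]; exact one_le_pow₀ (by norm_num))
  have h2 : ENNReal.ofReal ((1 + Real.log (bl a e l / sd a e)) / (1 / 2 ^ (16 * a)) ^ 2) ≤
      2 ^ (33 * a + 3) := by
    rw [← ofReal_two_pow]
    refine ENNReal.ofReal_le_ofReal ?_
    rw [one_div, inv_pow, div_inv_eq_mul, ← pow_mul]
    calc (1 + Real.log (bl a e l / sd a e)) * 2 ^ (16 * a * 2)
        ≤ 2 ^ (a + 3) * 2 ^ (16 * a * 2) := by
          gcongr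
          exact log_bound a l e ha hl
      _ = 2 ^ (33 * a + 3) := by rw [← pow_add]; congr 1; omega
  calc volume (Zp a z0 T e l b)
      ≤ C * ENNReal.ofReal ((1 + Real.log (bl a e l / sd a e)) / (1 / 2 ^ (16 * a)) ^ 2) *
          volume (Zt a z0 T e l b) := by
        refine le_trans (measure_mono ?_) h
        intro y hy
        obtain ⟨t, ht, x0, h1, h2⟩ := hy
        refine ⟨t, ht, x0, h1, ?_⟩
        rw [mul_one_div]
        exact h2
    _ ≤ _ := by gcongr

theorem fin_arith {C : ℝ≥0} {a : ℕ} {v V : ℝ≥0∞} (hC : 800 * (C + 1) ≤ 2 ^ a) (ha : 20 ≤ a)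
    (h : (2 : ℝ≥0∞) ^ (90 * a) * v ≤ C * 2 ^ (84 * a + 3) * V) : (a + 2) * v ≤ V / 100 := by
  have hq : ((2 : ℝ≥0∞) ^ a) ≠ 0 := by positivity
  have ha2 : ((a : ℝ≥0∞) + 2) ≤ 2 ^ a := by
    have : ∀ n : ℕ, 20 ≤ n → n + 2 ≤ 2 ^ n := by
      intro n hn
      induction n, hn using Nat.le_induction with
      | base => norm_num
      | succ n hn ih => rw [pow_succ]; omega
    exact_mod_cast this a ha
  have h1 : (2 : ℝ≥0∞) ^ (6 * a) * v ≤ 8 * (C + 1) * V := by
    have h84 : ((2 : ℝ≥0∞) ^ (84 * a)) ≠ 0 := by positivity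
    have h84' : ((2 : ℝ≥0∞) ^ (84 * a)) ≠ ⊤ := by finiteness
    rw [← ENNReal.mul_le_mul_iff_right h84 h84']
    calc (2 : ℝ≥0∞) ^ (84 * a) * (2 ^ (6 * a) * v) = 2 ^ (90 * a) * v := by
          rw [← mul_assoc, ← pow_add]; congr 2; omega
      _ ≤ C * 2 ^ (84 * a + 3) * V := h
      _ ≤ (C + 1) * 2 ^ (84 * a + 3) * V := by gcongr; exact le_self_add
      _ = 2 ^ (84 * a) * (8 * (C + 1) * V) := by
          rw [pow_add]; ring
  have hC' : (800 : ℝ≥0∞) * (C + 1) ≤ 2 ^ a := by exact_mod_cast hC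
  have h8 : (8 * ((C : ℝ≥0∞) + 1)) ≠ 0 := by positivity
  have h8' : (8 * ((C : ℝ≥0∞) + 1)) ≠ ⊤ := by finiteness
  rw [ENNReal.le_div_iff_mul_le (Or.inl (by norm_num)) (Or.inl (by norm_num)),
    ← ENNReal.mul_le_mul_iff_right h8 h8']
  calc 8 * ((C : ℝ≥0∞) + 1) * ((a + 2) * v * 100) = 800 * (C + 1) * (a + 2) * v := by ring
    _ ≤ 2 ^ a * 2 ^ a * v := by gcongr
    _ ≤ 2 ^ (6 * a) * v := by
        rw [← pow_add]
        gcongr
        · norm_num
        · omega
    _ ≤ 8 * (C + 1) * V := h1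

end DRP_

open MeasureTheory Set DRP_
open scoped ENNReal NNReal

theorem pDRP (h : tKAK) : tDRP := by
  obtain ⟨C, hC⟩ := h
  obtain ⟨a1, ha1⟩ := pow_unbounded_of_one_lt (800 * (C + 1)) (show (1 : ℝ≥0) < 2 by norm_num)
  refine ⟨max a1 20, fun a m z0 T V hmax hPA hT hsum => ?_⟩
  have ha20 : 20 ≤ a := (le_max_right _ _).trans hmax
  have ham : m < 2 ^ a := hPA.2.1
  have hCa : 800 * (C + 1) ≤ 2 ^ a := ha1.le.trans
    (pow_le_pow_right₀ (by norm_num) ((le_max_left _ _).trans hmax))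
  rw [ofReal_two_pow] at hsum
  constructor
  · have h1 := markov T (fun t x => Qx a z0 t.1 x = t.2.2)
      (fun t => {x | Qx a z0 t.1 x = t.2.2}) (fun t => sq_meas a z0 t.1 t.2.2)
      (fun t _ x hx => hx) (2 ^ (90 * a))
    simp only [sq_vol] at h1
    push_cast at h1
    have h3 : (2 : ℝ≥0∞) ^ (90 * a) * volume {x | 2 ^ (90 * a) < (TX a z0 T x).card} ≤
        ((1 : ℝ≥0) : ℝ≥0∞) * 2 ^ (84 * a + 3) * V := by
      refine le_trans (h1.trans hsum) ?_
      rw [ENNReal.coe_one, one_mul]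
      gcongr
      · norm_num
      · omega
    have h4 := fin_arith (C := 1) (a := a) ?_ ha20 h3
    · refine le_trans ?_ h4
      refine le_mul_of_one_le_left bot_le ?_
      calc (1 : ℝ≥0∞) ≤ 2 := by norm_num
        _ ≤ a + 2 := le_add_self
    · calc (800 : ℝ≥0) * (1 + 1) ≤ 2 ^ 20 := by norm_num
        _ ≤ 2 ^ a := pow_le_pow_right₀ (by norm_num) ha20
  · intro F hF
    classical
    have h1 := markov (F.Lv ×ˢ Finset.range (2 * 4 ^ m))
      (fun P x => x ∈ Zp a z0 T (F.e P.1) P.1 P.2)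
      (fun P => toMeasurable volume (Zp a z0 T (F.e P.1) P.1 P.2))
      (fun P => measurableSet_toMeasurable _ _)
      (fun P _ x hx => subset_toMeasurable _ _ hx) (2 ^ (90 * a))
    simp only [measure_toMeasurable] at h1
    push_cast at h1
    refine fin_arith hCa ha20 (h1.trans ?_)
    rw [Finset.sum_product]
    calc ∑ l ∈ F.Lv, ∑ b ∈ Finset.range (2 * 4 ^ m), volume (Zp a z0 T (F.e l) l b)
        ≤ ∑ l ∈ F.Lv, C * 2 ^ (33 * a + 3) * (2 ^ (50 * a) * V) := by
          refine Finset.sum_le_sum fun l hl => ?_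
          calc ∑ b ∈ Finset.range (2 * 4 ^ m), volume (Zp a z0 T (F.e l) l b)
              ≤ ∑ b ∈ Finset.range (2 * 4 ^ m),
                  C * 2 ^ (33 * a + 3) * volume (Zt a z0 T (F.e l) l b) :=
                Finset.sum_le_sum fun b _ =>
                  Zp_vol hC a z0 T (F.e l) l b ha20 ((hF l hl).2.1.trans ham.le)
            _ = C * 2 ^ (33 * a + 3) * ∑ b ∈ Finset.range (2 * 4 ^ m),
                  volume (Zt a z0 T (F.e l) l b) := by rw [Finset.mul_sum]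
            _ ≤ C * 2 ^ (33 * a + 3) * (2 ^ (50 * a) * V) := by
                gcongr
                exact (Zt_sum a z0 T (F.e l) l _).trans hsum
      _ = F.Lv.card * (C * 2 ^ (33 * a + 3) * (2 ^ (50 * a) * V)) := by
          rw [Finset.sum_const, nsmul_eq_mul]
      _ ≤ 2 ^ a * (C * 2 ^ (33 * a + 3) * (2 ^ (50 * a) * V)) := by
          gcongr
          have hc : F.Lv.card ≤ 2 ^ a := by
            have hsub : F.Lv ⊆ Finset.Ioc 0 m := by
              intro l hl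
              have := hF l hl
              rw [Finset.mem_Ioc]
              omega
            calc F.Lv.card ≤ (Finset.Ioc 0 m).card := Finset.card_le_card hsub
              _ = m := by simp
              _ ≤ 2 ^ a := ham.le
          exact_mod_cast hc
      _ = C * 2 ^ (84 * a + 3) * V := by
          rw [show 84 * a + 3 = a + (33 * a + 3) + 50 * a by ring, pow_add, pow_add]
          ring

end Pool.Agent.LLog
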