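import Pool.Agent.LLog.Targets
import Pool.Agent.KSP.Base
import Pool.Agent.KSP.SobI

set_option autoImplicit false

/-! LLG-EA: demodulated functions are almost constant on short cells, uniformly in the
frequency. -/

namespace Pool.Agent.LLog

open MeasureTheory Set
open scoped ENNReal NNReal ComplexConjugate
open Pool.Agent.KSP (ee dot nr Ex Ex1 Bd Bd1 n1 n2 lg V0 ann)

namespace EA_

/-! ### cells -/

lemma cell_iff {L : ℝ} (hL : 0 < L) (n : ℤ) (s : ℝ) :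
    s ∈ Ico (L * n) (L * (n + 1)) ↔ ⌊s / L⌋ = n := by
  rw [Int.floor_eq_iff, le_div_iff₀ hL, div_lt_iff₀ hL, mem_Ico, mul_comm L, mul_comm L]

lemma cell_mem {L : ℝ} (hL : 0 < L) (s : ℝ) : s ∈ Ico (L * ⌊s / L⌋) (L * (⌊s / L⌋ + 1)) :=
  (cell_iff hL _ s).2 rfl

lemma cell_vol {L : ℝ} (n : ℤ) : volume (Ico (L * (n : ℝ)) (L * (n + 1))) = ENNReal.ofReal L := by
  rw [Real.volume_Ico]
  congr 1
  ring

/-- an integral is the sum of the integrals over the cells -/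
lemma cells {L : ℝ} (hL : 0 < L) (f : ℝ → ℝ≥0∞) :
    ∫⁻ s, f s = ∑' n : ℤ, ∫⁻ s in Ico (L * (n : ℝ)) (L * (n + 1)), f s := by
  rw [← lintegral_iUnion (fun n : ℤ => measurableSet_Ico)]
  · have h : (⋃ n : ℤ, Ico (L * (n : ℝ)) (L * (n + 1))) = univ := by
      rw [eq_univ_iff_forall]
      intro s
      exact mem_iUnion.2 ⟨⌊s / L⌋, cell_mem hL s⟩
    rw [h, setLIntegral_univ]
  · intro i j hij
    rw [Function.onFun, Set.disjoint_left]
    intro s hi hj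
    exact hij (((cell_iff hL i s).1 hi).symm.trans ((cell_iff hL j s).1 hj))

/-- the integral of a function of the cell -/
lemma cells_const {L : ℝ} (hL : 0 < L) (Φ : ℤ → ℝ≥0∞) :
    ∫⁻ s, Φ ⌊s / L⌋ = ∑' n : ℤ, Φ n * ENNReal.ofReal L := by
  rw [cells hL]
  congr 1
  funext n
  have h : ∫⁻ s in Ico (L * (n : ℝ)) (L * (n + 1)), Φ ⌊s / L⌋ =
      ∫⁻ _ in Ico (L * (n : ℝ)) (L * (n + 1)), Φ n := by
    refine setLIntegral_congr_fun measurableSet_Ico ?_
    intro s hs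
    show Φ ⌊s / L⌋ = Φ n
    rw [(cell_iff hL n s).1 hs]
  rw [h, setLIntegral_const, cell_vol]

/-! ### derivatives -/

lemma norm_ee (t : ℝ) : ‖ee t‖ = 1 := by
  have h : (2 * Real.pi * Complex.I * (t : ℂ)) = ((2 * Real.pi * t : ℝ) : ℂ) * Complex.I := by
    push_cast
    ring
  rw [ee, h, Complex.norm_exp_ofReal_mul_I]

lemma continuous_ee : Continuous ee := by
  unfold ee
  fun_prop

lemma der_ee (c s : ℝ) : HasDerivAt (fun s : ℝ => ee (s * c)) (2 * Real.pi * Complex.I * c *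
    ee (s * c)) s := by
  unfold ee
  have h1 : HasDerivAt (fun s : ℝ => ((s * c : ℝ) : ℂ)) (c : ℂ) s := by
    have h2 : HasDerivAt (fun s : ℝ => s * c) c s := by
      simpa using (hasDerivAt_id s).mul_const c
    exact h2.ofReal_comp
  have h3 := (h1.const_mul (2 * Real.pi * Complex.I)).cexp
  refine h3.congr_deriv ?_
  ring

/-- multiplication by `2 π i (τ - r)` -/
noncomputable def dm (r : ℝ) (H : ℝ → ℂ) (τ : ℝ) : ℂ := 2 * Real.pi * Complex.I * (τ - r) * H τ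

lemma norm_c (τ r : ℝ) : ‖(2 * Real.pi * Complex.I * ((τ : ℂ) - r) : ℂ)‖ =
    2 * Real.pi * |τ - r| := by
  rw [← Complex.ofReal_sub, norm_mul, norm_mul, norm_mul, Complex.norm_I, Complex.norm_real,
    Complex.norm_real, Real.norm_eq_abs, Real.norm_eq_abs, abs_of_pos Real.pi_pos]
  simp

lemma dm_bd {r : ℝ} {H : ℝ → ℂ} (hH : Bd1 H) : Bd1 (dm r H) := by
  obtain ⟨hm, ⟨B, hB⟩, R, hR⟩ := hH
  have hB0 : 0 ≤ B := (norm_nonneg _).trans (hB 0)
  refine ⟨?_, ⟨2 * Real.pi * (|R| + |r|) * B, ?_⟩, R, ?_⟩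
  · unfold dm
    fun_prop
  · intro τ
    by_cases h : H τ = 0
    · rw [dm, h, mul_zero, norm_zero]
      positivity
    · have h1 := hR τ h
      rw [dm, norm_mul, norm_c]
      have h2 : |τ - r| ≤ |R| + |r| := (abs_sub _ _).trans (by linarith [le_abs_self R])
      have h3 := hB τ
      have h4 := Real.pi_pos
      gcongr
  · intro τ hτ
    apply hR
    intro h
    apply hτ
    rw [dm, h, mul_zero]

lemma bd_int {H : ℝ → ℂ} (hH : Bd1 H) (s : ℝ) : Integrable (fun τ => H τ * ee (s * τ)) := by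
  have h1 : Integrable H := memLp_one_iff_integrable.1 (Pool.Agent.KSP.Base_.bd1_memLp hH 1)
  refine h1.mono ?_ ?_
  · exact h1.aestronglyMeasurable.mul
      (continuous_ee.comp (by fun_prop : Continuous fun τ : ℝ => s * τ)).aestronglyMeasurable
  · refine Filter.Eventually.of_forall fun τ => ?_
    rw [norm_mul, norm_ee, mul_one]

lemma der_Ex1 {H : ℝ → ℂ} (hH : Bd1 H) (s : ℝ) : HasDerivAt (Ex1 H) (Ex1 (dm 0 H) s) s := by
  have h1 : Integrable (dm 0 H) :=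
    memLp_one_iff_integrable.1 (Pool.Agent.KSP.Base_.bd1_memLp (dm_bd hH) 1)
  have h := hasDerivAt_integral_of_dominated_loc_of_deriv_le (μ := volume) (s := univ)
    (F := fun (s : ℝ) (τ : ℝ) => H τ * ee (s * τ)) (F' := fun s τ => dm 0 H τ * ee (s * τ))
    (x₀ := s) (bound := fun τ => ‖dm 0 H τ‖) Filter.univ_mem
    (Filter.Eventually.of_forall fun s => (bd_int hH s).aestronglyMeasurable) (bd_int hH s)
    (bd_int (dm_bd hH) s).aestronglyMeasurable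
    (Filter.Eventually.of_forall fun τ s _ => by rw [norm_mul, norm_ee, mul_one]) h1.norm
    (Filter.Eventually.of_forall fun τ s _ => by
      have h2 := (der_ee τ s).const_mul (H τ)
      refine h2.congr_deriv ?_
      rw [dm]
      push_cast
      ring)
  exact h.2

lemma Ex1_dm {H : ℝ → ℂ} (hH : Bd1 H) (r s : ℝ) :
    Ex1 (dm 0 H) s = Ex1 (dm r H) s + 2 * Real.pi * Complex.I * r * Ex1 H s := by
  unfold Ex1
  rw [← integral_const_mul, ← integral_add (bd_int (dm_bd hH) s) ((bd_int hH s).const_mul _)]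
  congr 1
  funext τ
  unfold dm
  push_cast
  ring

/-- the demodulated function and its derivative -/
lemma der_G {H : ℝ → ℂ} (hH : Bd1 H) (r0 r s : ℝ) :
    HasDerivAt (fun s => ee (-(r * s)) * Ex1 H s)
      (ee (-(r * s)) * (Ex1 (dm r0 H) s + 2 * Real.pi * Complex.I * (r0 - r) * Ex1 H s)) s := by
  have h1 : HasDerivAt (fun s => ee (-(r * s))) (2 * Real.pi * Complex.I * (-r) *
      ee (-(r * s))) s := by
    have h2 := der_ee (-r) s
    have e : (fun s : ℝ => ee (s * -r)) = fun s => ee (-(r * s)) := by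
      funext s
      congr 1
      ring
    rw [e] at h2
    refine h2.congr_deriv ?_
    have e2 : s * -r = -(r * s) := by ring
    rw [e2]
    push_cast
    ring
  have h3 := h1.mul (der_Ex1 hH s)
  refine h3.congr_deriv ?_
  rw [Ex1_dm hH r0 s]
  ring

lemma sq_add (x y : ℝ≥0∞) : (x + y) ^ 2 ≤ 2 * x ^ 2 + 2 * y ^ 2 := by
  have h := ENNReal.rpow_add_le_mul_rpow_add_rpow x y (p := 2) (by norm_num)
  norm_num at h
  calc (x + y) ^ 2 ≤ 2 * (x ^ 2 + y ^ 2) := by exact_mod_cast h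
    _ = _ := by ring

/-- the majorant of `|G'|²` -/
noncomputable def gg (b r0 : ℝ) (H : ℝ → ℂ) (s : ℝ) : ℝ≥0∞ :=
  2 * ‖Ex1 (dm r0 H) s‖ₑ ^ 2 + 2 * (ENNReal.ofReal (2 * Real.pi * b) ^ 2 * ‖Ex1 H s‖ₑ ^ 2)

lemma norm_dG {b r0 r : ℝ} (H : ℝ → ℂ) (s : ℝ) (hr : |r - r0| ≤ b) :
    ‖ee (-(r * s)) * (Ex1 (dm r0 H) s + 2 * Real.pi * Complex.I * (r0 - r) * Ex1 H s)‖ₑ ^ 2 ≤
      gg b r0 H s := by
  have e1 : ‖ee (-(r * s))‖ₑ = 1 := by
    rw [← ofReal_norm, norm_ee, ENNReal.ofReal_one]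
  rw [enorm_mul, e1, one_mul]
  have h1 : ‖Ex1 (dm r0 H) s + 2 * Real.pi * Complex.I * (r0 - r) * Ex1 H s‖ₑ ≤
      ‖Ex1 (dm r0 H) s‖ₑ + ENNReal.ofReal (2 * Real.pi * b) * ‖Ex1 H s‖ₑ := by
    refine (enorm_add_le _ _).trans ?_
    gcongr
    rw [enorm_mul]
    gcongr
    rw [← ofReal_norm, norm_c]
    apply ENNReal.ofReal_le_ofReal
    rw [abs_sub_comm]
    have := Real.pi_pos
    gcongr
  refine (pow_le_pow_left' h1 2).trans ((sq_add _ _).trans ?_)
  rw [gg, mul_pow]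

lemma gg_int {b r0 : ℝ} {H : ℝ → ℂ} (hH : Bd1 H)
    (hs : ∀ ζ, H ζ ≠ 0 → |ζ - r0| ≤ b) :
    ∫⁻ s, gg b r0 H s ≤ 4 * (ENNReal.ofReal (2 * Real.pi * b) ^ 2 * n1 H) := by
  have c1 : Measurable fun s => ‖Ex1 (dm r0 H) s‖ₑ ^ 2 :=
    ((Pool.Agent.KSP.pPl1 _ (dm_bd hH)).1.enorm.measurable).pow_const 2
  have c2 : Measurable fun s => ‖Ex1 H s‖ₑ ^ 2 :=
    ((Pool.Agent.KSP.pPl1 _ hH).1.enorm.measurable).pow_const 2
  unfold gg
  rw [lintegral_add_left (c1.const_mul 2), lintegral_const_mul _ c1,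
    lintegral_const_mul _ (c2.const_mul _), lintegral_const_mul _ c2,
    (Pool.Agent.KSP.pPl1 _ (dm_bd hH)).2, (Pool.Agent.KSP.pPl1 _ hH).2]
  have h1 : n1 (dm r0 H) ≤ ENNReal.ofReal (2 * Real.pi * b) ^ 2 * n1 H := by
    have hm : Measurable fun τ => ‖H τ‖ₑ ^ 2 := hH.1.enorm.pow_const 2
    rw [n1, n1, ← lintegral_const_mul _ hm]
    refine lintegral_mono fun τ => ?_
    show ‖dm r0 H τ‖ₑ ^ 2 ≤ ENNReal.ofReal (2 * Real.pi * b) ^ 2 * ‖H τ‖ₑ ^ 2
    by_cases h : H τ = 0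
    · rw [dm, h, mul_zero]
      simp
    · rw [dm, enorm_mul, mul_pow]
      gcongr
      rw [← ofReal_norm, norm_c]
      apply ENNReal.ofReal_le_ofReal
      have h3 := hs τ h
      have := Real.pi_pos
      gcongr
  calc 2 * n1 (dm r0 H) + 2 * (ENNReal.ofReal (2 * Real.pi * b) ^ 2 * n1 H) ≤
      2 * (ENNReal.ofReal (2 * Real.pi * b) ^ 2 * n1 H) +
        2 * (ENNReal.ofReal (2 * Real.pi * b) ^ 2 * n1 H) := by gcongr
    _ = 4 * (ENNReal.ofReal (2 * Real.pi * b) ^ 2 * n1 H) := by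
      rw [← add_mul]
      norm_num

/-- oscillation of a `C¹` function on a cell -/
lemma osc (a c : ℝ) (hac : a < c) (G G1 : ℝ → ℂ) (hG1 : Continuous G1)
    (hG : ∀ t, HasDerivAt G (G1 t) t) (s : ℝ) (hs : s ∈ Ico a c) :
    ‖G s - (((c - a)⁻¹ : ℝ) : ℂ) * ∫ t in Ico a c, G t‖ₑ ^ 2 ≤
      ENNReal.ofReal (8 * (c - a)) * ∫⁻ t in Icc a c, ‖G1 t‖ₑ ^ 2 := by
  obtain ⟨M, hM⟩ : ∃ M, M = ENNReal.ofReal (2 * (c - a)) * ∫⁻ t in Icc a c, ‖G1 t‖ₑ ^ 2 :=
    ⟨_, rfl⟩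
  have h1 : ∀ t ∈ Icc a c, ‖G t - G a‖ₑ ^ 2 ≤ M := by
    intro t ht
    have h2 := (Pool.Agent.KSP.pSobI a c 1 (fun t => G t - G a) G1 hac one_pos hG1.continuousOn
      (fun t _ => (hG t).sub_const (G a)) t ht).2
    have h3 : ‖G a - G a‖ₑ = 0 := by rw [sub_self, enorm_zero]
    have h4 : ‖(fun t => G t - G a) a‖ₑ = 0 := h3
    rw [h4] at h2
    rw [hM]
    simpa using h2
  obtain ⟨K, hK⟩ : ∃ K : ℝ≥0∞, K = M ^ (1 / 2 : ℝ) := ⟨_, rfl⟩
  have hK2 : K ^ 2 = M := by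
    rw [hK, ← ENNReal.rpow_natCast, ← ENNReal.rpow_mul]
    norm_num
  have h5 : ∀ t ∈ Icc a c, ‖G t - G a‖ₑ ≤ K := by
    intro t ht
    have h6 := h1 t ht
    rw [← hK2] at h6
    exact le_of_not_gt fun h => absurd h6 (not_le.2 (ENNReal.pow_lt_pow_left two_ne_zero h))
  have hca : 0 < c - a := sub_pos.2 hac
  have hGc : Continuous G := continuous_iff_continuousAt.2 fun t => (hG t).continuousAt
  have hvol : (volume (Ico a c)) = ENNReal.ofReal (c - a) := Real.volume_Ico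
  have hint : IntegrableOn G (Ico a c) :=
    (hGc.continuousOn.integrableOn_compact isCompact_Icc).mono_set Ico_subset_Icc_self
  have e1 : G s - (((c - a)⁻¹ : ℝ) : ℂ) * ∫ t in Ico a c, G t = (G s - G a) -
      (((c - a)⁻¹ : ℝ) : ℂ) * ∫ t in Ico a c, (G t - G a) := by
    rw [integral_sub hint (by
      refine integrableOn_const ?_
      rw [hvol]
      exact ENNReal.ofReal_ne_top)]
    rw [setIntegral_const, Measure.real, hvol, ENNReal.toReal_ofReal hca.le]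
    have hne : ((c - a : ℝ) : ℂ) ≠ 0 := by
      exact_mod_cast hca.ne'
    rw [mul_sub, Complex.real_smul, ← mul_assoc, ← Complex.ofReal_mul, inv_mul_cancel₀ hca.ne',
      Complex.ofReal_one]
    ring
  have h7 : ‖(((c - a)⁻¹ : ℝ) : ℂ) * ∫ t in Ico a c, (G t - G a)‖ₑ ≤ K := by
    rw [enorm_mul]
    have h8 : ‖∫ t in Ico a c, (G t - G a)‖ₑ ≤ K * ENNReal.ofReal (c - a) := by
      refine (enorm_integral_le_lintegral_enorm _).trans ?_
      rw [← hvol, ← setLIntegral_const]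
      exact setLIntegral_mono' measurableSet_Ico fun t ht => h5 t (Ico_subset_Icc_self ht)
    have h9 : ‖(((c - a)⁻¹ : ℝ) : ℂ)‖ₑ = (ENNReal.ofReal (c - a))⁻¹ := by
      rw [← ofReal_norm, Complex.norm_real, Real.norm_eq_abs, abs_of_pos (inv_pos.2 hca),
        ENNReal.ofReal_inv_of_pos hca]
    rw [h9]
    calc (ENNReal.ofReal (c - a))⁻¹ * ‖∫ t in Ico a c, (G t - G a)‖ₑ ≤
        (ENNReal.ofReal (c - a))⁻¹ * (K * ENNReal.ofReal (c - a)) := by gcongr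
      _ = K * ((ENNReal.ofReal (c - a))⁻¹ * ENNReal.ofReal (c - a)) := by ring
      _ = K := by
        rw [ENNReal.inv_mul_cancel (by
          rw [ne_eq, ENNReal.ofReal_eq_zero, not_le]
          exact hca) ENNReal.ofReal_ne_top, mul_one]
  have h10 : ‖G s - (((c - a)⁻¹ : ℝ) : ℂ) * ∫ t in Ico a c, G t‖ₑ ≤ 2 * K := by
    rw [e1]
    refine enorm_sub_le.trans ?_
    rw [two_mul]
    exact add_le_add (h5 s (Ico_subset_Icc_self hs)) h7
  refine (pow_le_pow_left' h10 2).trans ?_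
  rw [mul_pow, hK2, hM, ← mul_assoc]
  apply mul_le_mul_left
  have : ENNReal.ofReal (8 * (c - a)) = 2 ^ 2 * ENNReal.ofReal (2 * (c - a)) := by
    rw [show (8 * (c - a)) = 4 * (2 * (c - a)) by ring, ENNReal.ofReal_mul (by norm_num)]
    norm_num
  exact this.ge

end EA_

open EA_

/-- C4 a demodulated function is almost constant on short cells -/
theorem pEA : tEA := by
  refine ⟨Real.toNNReal (32 * (2 * Real.pi) ^ 2), ?_⟩
  intro L b r0 H hL hb hH hs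
  obtain ⟨Φ, hΦ⟩ : ∃ Φ : ℤ → ℝ≥0∞, Φ = fun n : ℤ => ENNReal.ofReal (8 * L) *
    ∫⁻ t in Ico (L * (n : ℝ)) (L * (n + 1)), gg b r0 H t := ⟨_, rfl⟩
  refine ⟨Φ, ?_, ?_⟩
  · intro r s hr
    obtain ⟨G, hGd⟩ : ∃ G : ℝ → ℂ, G = fun s => ee (-(r * s)) * Ex1 H s := ⟨_, rfl⟩
    obtain ⟨G1, hG1⟩ : ∃ G1 : ℝ → ℂ, G1 = fun s => ee (-(r * s)) * (Ex1 (dm r0 H) s +
      2 * Real.pi * Complex.I * (r0 - r) * Ex1 H s) := ⟨_, rfl⟩
    have hc1 : Continuous G1 := by
      rw [hG1]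
      have k1 := (Pool.Agent.KSP.pPl1 _ (dm_bd (r := r0) hH)).1
      have k2 := (Pool.Agent.KSP.pPl1 _ hH).1
      have k3 : Continuous fun s : ℝ => ee (-(r * s)) :=
        continuous_ee.comp (by fun_prop)
      exact k3.mul (k1.add (continuous_const.mul k2))
    have hder : ∀ t, HasDerivAt G (G1 t) t := by
      intro t
      rw [hGd, hG1]
      exact der_G hH r0 r t
    have e1 : L * ((⌊s / L⌋ : ℝ) + 1) - L * (⌊s / L⌋ : ℝ) = L := by ring
    have h1 := osc (L * (⌊s / L⌋ : ℝ)) (L * ((⌊s / L⌋ : ℝ) + 1)) (by linarith) G G1 hc1 hder s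
      (cell_mem hL s)
    rw [e1] at h1
    have h2 : avgC L G s = ((L⁻¹ : ℝ) : ℂ) * ∫ t in Ico (L * ⌊s / L⌋) (L * (⌊s / L⌋ + 1)), G t :=
      rfl
    show ‖ee (-(r * s)) * Ex1 H s - avgC L (fun s => ee (-(r * s)) * Ex1 H s) s‖ₑ ^ 2 ≤ _
    have h3 : ee (-(r * s)) * Ex1 H s = G s := by rw [hGd]
    rw [h3, ← hGd, h2]
    refine h1.trans ?_
    rw [hΦ]
    refine mul_le_mul_right ?_ _
    rw [restrict_Ico_eq_restrict_Icc]
    refine lintegral_mono fun t => ?_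
    rw [hG1]
    exact norm_dG H t hr
  · rw [cells_const hL]
    have h1 : ∀ n : ℤ, Φ n * ENNReal.ofReal L =
        (ENNReal.ofReal (8 * L) * ENNReal.ofReal L) *
          ∫⁻ t in Ico (L * (n : ℝ)) (L * (n + 1)), gg b r0 H t := by
      intro n
      rw [hΦ]
      ring
    simp only [h1]
    rw [ENNReal.tsum_mul_left, ← cells hL]
    refine (mul_le_mul_right (gg_int hH hs) _).trans ?_
    have e1 : ENNReal.ofReal (2 * Real.pi * b) ^ 2 = ENNReal.ofReal ((2 * Real.pi * b) ^ 2) := by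
      rw [ENNReal.ofReal_pow]
      have := Real.pi_pos
      positivity
    have e2 : (4 : ℝ≥0∞) = ENNReal.ofReal 4 := by norm_num
    have e3 : ((Real.toNNReal (32 * (2 * Real.pi) ^ 2) : ℝ≥0) : ℝ≥0∞) =
        ENNReal.ofReal (32 * (2 * Real.pi) ^ 2) := rfl
    rw [e1, e2, e3, ← mul_assoc, ← mul_assoc, ← ENNReal.ofReal_mul (by positivity),
      ← ENNReal.ofReal_mul (by positivity), ← ENNReal.ofReal_mul (by positivity),
      ← ENNReal.ofReal_mul (by positivity)]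
    apply le_of_eq
    congr 2
    ring

end Pool.Agent.LLog
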