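import Pool.Agent.LLog.Targets
import Pool.Agent.KSP.Base

set_option autoImplicit false

/-!
# LLG-EB: averages over long cells are small, uniformly in the frequency
-/

namespace Pool.Agent.LLog

open MeasureTheory Set
open scoped ENNReal NNReal ComplexConjugate
open Pool.Agent.KSP (ee dot nr Ex Ex1 Bd Bd1 n1 n2 lg V0 ann tPl1 tPo1)

namespace EB_

/-! ### exponentials -/

lemma ee_add (a b : ℝ) : ee (a + b) = ee a * ee b := by
  simp only [ee]
  rw [← Complex.exp_add]
  congr 1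
  push_cast
  ring

lemma ee_neg_conj (a : ℝ) : conj (ee a) = ee (-a) := by
  simp only [ee]
  rw [← Complex.exp_conj]
  congr 1
  simp only [map_mul, Complex.conj_ofReal, Complex.conj_I]
  push_cast
  have : conj (2 : ℂ) = 2 := by
    rw [show (2 : ℂ) = ((2 : ℝ) : ℂ) by norm_num, Complex.conj_ofReal]
  rw [this]
  ring

lemma norm_ee (a : ℝ) : ‖ee a‖ = 1 := by
  simp only [ee]
  rw [show (2 * Real.pi * Complex.I * (a : ℂ)) = ((2 * Real.pi * a : ℝ) : ℂ) * Complex.I by
    push_cast; ring]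
  exact Complex.norm_exp_ofReal_mul_I _

lemma continuous_ee : Continuous ee := by
  unfold ee
  fun_prop

/-! ### cells -/

/-- the cell -/
def I (L : ℝ) (n : ℤ) : Set ℝ := Ico (L * n) (L * (n + 1))

lemma meas_I (L : ℝ) (n : ℤ) : MeasurableSet (I L n) := measurableSet_Ico

lemma mem_I {L : ℝ} (hL : 0 < L) (n : ℤ) (s : ℝ) : s ∈ I L n ↔ ⌊s / L⌋ = n := by
  rw [Int.floor_eq_iff, le_div_iff₀ hL, div_lt_iff₀ hL, I, mem_Ico, mul_comm L, mul_comm L]

lemma vol_I {L : ℝ} (n : ℤ) : volume (I L n) = ENNReal.ofReal L := by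
  rw [I, Real.volume_Ico]
  congr 1
  ring

/-- the indicator function of the cell -/
noncomputable def ci (L : ℝ) (n : ℤ) (s : ℝ) : ℝ := (I L n).indicator 1 s

lemma meas_ci (L : ℝ) (n : ℤ) : Measurable (ci L n) := measurable_one.indicator (meas_I L n)

lemma ci_pos {L : ℝ} {n : ℤ} {s : ℝ} (h : s ∈ I L n) : ci L n s = 1 := by
  unfold ci
  rw [indicator_of_mem h]
  rfl

lemma ci_neg {L : ℝ} {n : ℤ} {s : ℝ} (h : s ∉ I L n) : ci L n s = 0 := by
  unfold ci
  rw [indicator_of_notMem h]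

/-- the error kernel -/
noncomputable def Ps (k : ℝ → ℝ) (L : ℝ) (n : ℤ) (s : ℝ) : ℝ≥0∞ :=
  ∫⁻ t, ENNReal.ofReal (k t) * ‖ci L n s - ci L n (s - t)‖ₑ

lemma meas2 {k : ℝ → ℝ} (hk : Measurable k) (L : ℝ) (n : ℤ) :
    Measurable (fun P : ℝ × ℝ => ENNReal.ofReal (k P.2) * ‖ci L n P.1 - ci L n (P.1 - P.2)‖ₑ) := by
  have h1 : Measurable fun P : ℝ × ℝ => ENNReal.ofReal (k P.2) :=
    (hk.comp measurable_snd).ennreal_ofReal
  have h2 : Measurable fun P : ℝ × ℝ => ci L n P.1 := (meas_ci L n).comp measurable_fst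
  have h3 : Measurable fun P : ℝ × ℝ => ci L n (P.1 - P.2) :=
    (meas_ci L n).comp (measurable_fst.sub measurable_snd)
  exact h1.mul (h2.sub h3).enorm

lemma meas_Ps {k : ℝ → ℝ} (hk : Measurable k) (L : ℝ) (n : ℤ) : Measurable (Ps k L n) :=
  (meas2 hk L n).lintegral_prod_right'

/-- sum over the cells -/
lemma sum_Ps {k : ℝ → ℝ} (hk : Measurable k) (hk1 : ∫⁻ t, ENNReal.ofReal (k t) = 1) {L : ℝ}
    (hL : 0 < L) (s : ℝ) : ∑' n, Ps k L n s ≤ 2 := by
  unfold Ps
  rw [← lintegral_tsum]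
  · have hle : ∀ t, ∑' n, ENNReal.ofReal (k t) * ‖ci L n s - ci L n (s - t)‖ₑ ≤
        ENNReal.ofReal (k t) * 2 := by
      intro t
      rw [ENNReal.tsum_mul_left]
      gcongr
      have h1 : ∀ n : ℤ, ‖ci L n s - ci L n (s - t)‖ₑ ≤
          (if n = ⌊s / L⌋ then 1 else 0) + (if n = ⌊(s - t) / L⌋ then 1 else 0) := by
        intro n
        by_cases h1 : n = ⌊s / L⌋ <;> by_cases h2 : n = ⌊(s - t) / L⌋
        · rw [ci_pos ((mem_I hL n s).2 h1.symm), ci_pos ((mem_I hL n (s - t)).2 h2.symm)]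
          simp
        · rw [ci_pos ((mem_I hL n s).2 h1.symm),
            ci_neg (fun h => h2 ((mem_I hL n (s - t)).1 h).symm), if_pos h1]
          simp
        · rw [ci_neg (fun h => h1 ((mem_I hL n s).1 h).symm),
            ci_pos ((mem_I hL n (s - t)).2 h2.symm), if_pos h2]
          simp
        · rw [ci_neg (fun h => h1 ((mem_I hL n s).1 h).symm),
            ci_neg (fun h => h2 ((mem_I hL n (s - t)).1 h).symm)]
          simp
      refine (ENNReal.tsum_le_tsum h1).trans ?_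
      rw [ENNReal.tsum_add, tsum_ite_eq, tsum_ite_eq]
      norm_num
    refine (lintegral_mono hle).trans ?_
    rw [lintegral_mul_const _ hk.ennreal_ofReal, hk1, one_mul]
  · intro n
    have h1 : Measurable fun t => ENNReal.ofReal (k t) * ‖ci L n s - ci L n (s - t)‖ₑ :=
      (meas2 hk L n).comp (measurable_const.prodMk measurable_id)
    exact h1.aemeasurable

/-- difference of the indicators -/
lemma ci_diff {L : ℝ} (n : ℤ) (s t : ℝ) : ‖ci L n s - ci L n (s - t)‖ₑ ≤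
    (Icc (L * n - |t|) (L * n + |t|)).indicator 1 s +
      (Icc (L * (n + 1) - |t|) (L * (n + 1) + |t|)).indicator 1 s := by
  have hA : ∀ (a : ℝ) (s : ℝ), |s - a| ≤ |t| →
      (1 : ℝ≥0∞) ≤ (Icc (a - |t|) (a + |t|)).indicator 1 s := by
    intro a s h
    rw [abs_le] at h
    rw [indicator_of_mem (by constructor <;> linarith)]
    exact le_rfl
  have habs1 := neg_abs_le t
  have habs2 := le_abs_self t
  by_cases h1 : s ∈ I L n <;> by_cases h2 : s - t ∈ I L n
  · rw [ci_pos h1, ci_pos h2]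
    simp
  · rw [ci_pos h1, ci_neg h2]
    simp only [sub_zero, enorm_one]
    obtain ⟨h3, h4⟩ := h1
    by_cases h5 : L * n ≤ s - t
    · have h6 : L * (n + 1) ≤ s - t := by
        by_contra h6
        exact h2 ⟨h5, not_le.1 h6⟩
      refine le_add_left (hA _ _ ?_)
      rw [abs_le]
      constructor <;> linarith
    · push Not at h5
      refine le_add_right (hA _ _ ?_)
      rw [abs_le]
      constructor <;> linarith
  · rw [ci_neg h1, ci_pos h2]
    simp only [zero_sub, enorm_neg, enorm_one]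
    obtain ⟨h3, h4⟩ := h2
    by_cases h5 : L * n ≤ s
    · have h6 : L * (n + 1) ≤ s := by
        by_contra h6
        exact h1 ⟨h5, not_le.1 h6⟩
      refine le_add_left (hA _ _ ?_)
      rw [abs_le]
      constructor <;> linarith
    · push Not at h5
      refine le_add_right (hA _ _ ?_)
      rw [abs_le]
      constructor <;> linarith
  · rw [ci_neg h1, ci_neg h2]
    simp

/-- integral of the error kernel -/
lemma int_Ps {k : ℝ → ℝ} (hk : Measurable k) (L : ℝ) (n : ℤ) :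
    ∫⁻ s, Ps k L n s ≤ 4 * ∫⁻ t, ENNReal.ofReal (k t) * ‖t‖ₑ := by
  unfold Ps
  rw [lintegral_lintegral_swap (meas2 hk L n).aemeasurable]
  rw [← lintegral_const_mul' _ _ (by norm_num)]
  refine lintegral_mono fun t => ?_
  have hm : Measurable fun s => ‖ci L n s - ci L n (s - t)‖ₑ :=
    ((meas_ci L n).sub ((meas_ci L n).comp (measurable_id.sub_const t))).enorm
  rw [lintegral_const_mul _ hm]
  have h1 : ∫⁻ s, ‖ci L n s - ci L n (s - t)‖ₑ ≤ 4 * ‖t‖ₑ := by
    refine (lintegral_mono fun s => ci_diff n s t).trans ?_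
    rw [lintegral_add_left (measurable_one.indicator measurableSet_Icc),
      lintegral_indicator_one measurableSet_Icc, lintegral_indicator_one measurableSet_Icc,
      Real.volume_Icc, Real.volume_Icc]
    have h2 : ∀ a : ℝ, a + |t| - (a - |t|) = 2 * |t| := fun a => by ring
    rw [h2, h2, ENNReal.ofReal_mul (by norm_num), Real.enorm_eq_ofReal_abs]
    rw [← add_mul]
    gcongr
    norm_num
  calc ENNReal.ofReal (k t) * ∫⁻ s, ‖ci L n s - ci L n (s - t)‖ₑ
      ≤ ENNReal.ofReal (k t) * (4 * ‖t‖ₑ) := by gcongr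
    _ = 4 * (ENNReal.ofReal (k t) * ‖t‖ₑ) := by ring

/-- Cauchy-Schwarz -/
lemma cs {u v : ℝ → ℝ≥0∞} (hu : Measurable u) (hv : Measurable v) :
    (∫⁻ s, u s * v s) ^ 2 ≤ (∫⁻ s, u s) * ∫⁻ s, u s * v s ^ 2 := by
  have h := ENNReal.lintegral_mul_le_Lp_mul_Lq (volume : Measure ℝ)
    (Real.HolderConjugate.two_two) (f := fun s => u s ^ (1 / 2 : ℝ))
    (g := fun s => u s ^ (1 / 2 : ℝ) * v s) (hu.pow_const _).aemeasurable
    ((hu.pow_const _).mul hv).aemeasurable
  have e1 : ∀ x : ℝ≥0∞, x ^ (1 / 2 : ℝ) * x ^ (1 / 2 : ℝ) = x := by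
    intro x
    rw [← ENNReal.rpow_add_of_nonneg _ _ (by norm_num) (by norm_num)]
    norm_num
  have e2 : ∀ x : ℝ≥0∞, (x ^ (1 / 2 : ℝ)) ^ (2 : ℝ) = x := by
    intro x
    rw [← ENNReal.rpow_mul]
    norm_num
  have h1 : ∫⁻ s, u s * v s = ∫⁻ s, ((fun s => u s ^ (1 / 2 : ℝ)) *
      fun s => u s ^ (1 / 2 : ℝ) * v s) s := by
    refine lintegral_congr fun s => ?_
    rw [Pi.mul_apply, ← mul_assoc, e1]
  have h2 : ∫⁻ s, (u s ^ (1 / 2 : ℝ)) ^ (2 : ℝ) = ∫⁻ s, u s := lintegral_congr fun s => e2 _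
  have h3 : ∫⁻ s, (u s ^ (1 / 2 : ℝ) * v s) ^ (2 : ℝ) = ∫⁻ s, u s * v s ^ 2 := by
    refine lintegral_congr fun s => ?_
    rw [ENNReal.mul_rpow_of_nonneg _ _ (by norm_num), e2]
    norm_num
  rw [h2, h3, ← h1] at h
  have h4 := pow_le_pow_left' h 2
  refine h4.trans (le_of_eq ?_)
  have e3 : ∀ x : ℝ≥0∞, (x ^ (1 / (2 : ℝ))) ^ 2 = x := by
    intro x
    rw [← ENNReal.rpow_natCast, ← ENNReal.rpow_mul]
    norm_num
  rw [mul_pow, e3, e3]

/-! ### the kernel -/

/-- first moment of the kernel -/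
lemma mom (hK : tKAP) : ∃ A : ℝ≥0, ∀ d : ℝ, 0 < d →
    ∫⁻ t, ENNReal.ofReal (kap 6 d t) * ‖t‖ₑ ≤ A * ENNReal.ofReal (1 / d) := by
  set g : ℝ → ℝ := fun u => (Real.sinc (Real.pi * u / 6)) ^ 6 with hg
  set J : ℝ := ∫ u, g u with hJ
  have hg0 : ∀ u, 0 ≤ g u := fun u => Even.pow_nonneg (by decide) _
  have hJ0 : 0 ≤ J := integral_nonneg hg0
  have hkap : ∀ d t : ℝ, 0 < d → kap 6 d t = g (d * t) / (d⁻¹ * J) := by
    intro d t hd
    unfold kap
    have e1 : ∀ t : ℝ, Real.sinc (Real.pi * d * t / (6 : ℕ)) ^ 6 = g (d * t) := by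
      intro t
      simp only [hg]
      congr 2
      push_cast
      ring
    rw [e1]
    congr 1
    simp_rw [e1]
    rw [Measure.integral_comp_mul_left g d, abs_of_pos (inv_pos.2 hd), smul_eq_mul]
  have hJ1 : 0 < J := by
    refine lt_of_le_of_ne hJ0 fun h => ?_
    have h1 := (hK 6 1 (by decide) le_rfl one_pos).2.2.1
    have h2 : ∀ t, kap 6 1 t = 0 := by
      intro t
      rw [hkap 1 t one_pos, ← h]
      simp
    simp [h2] at h1
  -- decay
  have hdec : ∀ u : ℝ, g u * |u| ≤ 128 * (1 + u ^ 2)⁻¹ := by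
    intro u
    have hpos : 0 < 1 + u ^ 2 := by positivity
    rw [← div_eq_mul_inv, le_div_iff₀ hpos]
    have hs1 : |Real.sinc (Real.pi * u / 6)| ≤ 1 := Real.abs_sinc_le_one _
    have hg1 : g u ≤ 1 := by
      simp only [hg]
      rw [← Even.pow_abs (by decide : Even 6)]
      exact pow_le_one₀ (abs_nonneg _) hs1
    rcases le_or_gt |u| 1 with hu | hu
    · have h2 : u ^ 2 ≤ 1 := by
        rw [← sq_abs]
        exact pow_le_one₀ (abs_nonneg _) hu
      have h3 : g u * |u| ≤ 1 := mul_le_one₀ hg1 (abs_nonneg _) hu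
      have h4 : 0 ≤ g u * |u| := mul_nonneg (hg0 u) (abs_nonneg _)
      nlinarith
    · have hu0 : 0 < |u| := by linarith
      have hs2 : |Real.sinc (Real.pi * u / 6)| ≤ 2 / |u| := by
        have hne : Real.pi * u / 6 ≠ 0 := by
          have : u ≠ 0 := abs_pos.1 hu0
          positivity
        rw [Real.sinc_of_ne_zero hne, abs_div]
        have h3 : |Real.pi * u / 6| = Real.pi * |u| / 6 := by
          rw [abs_div, abs_mul, abs_of_pos Real.pi_pos, abs_of_pos (by norm_num : (0 : ℝ) < 6)]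
        rw [h3, div_le_div_iff₀ (by positivity) hu0]
        have h4 := Real.abs_sin_le_one (Real.pi * u / 6)
        have h5 := Real.pi_gt_three
        nlinarith
      have hg2 : g u ≤ (2 / |u|) ^ 6 := by
        simp only [hg]
        rw [← Even.pow_abs (by decide : Even 6)]
        exact pow_le_pow_left₀ (abs_nonneg _) hs2 6
      have h6 : g u * |u| * (1 + u ^ 2) ≤ (2 / |u|) ^ 6 * |u| * (1 + u ^ 2) := by gcongr
      refine h6.trans ?_
      rw [div_pow, ← sq_abs u, div_mul_eq_mul_div, div_mul_eq_mul_div, div_le_iff₀ (by positivity)]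
      have h7 : 1 ≤ |u| ^ 2 := one_le_pow₀ hu.le
      have h8 : |u| ≤ |u| ^ 3 := by
        calc |u| = |u| * 1 := (mul_one _).symm
          _ ≤ |u| * |u| ^ 2 := by gcongr
          _ = |u| ^ 3 := by ring
      have h9 : |u| ^ 3 ≤ |u| ^ 6 := pow_le_pow_right₀ hu.le (by norm_num)
      nlinarith
  refine ⟨Real.toNNReal (128 / J * Real.pi), fun d hd => ?_⟩
  have h1 : ∀ t : ℝ, ENNReal.ofReal (kap 6 d t) * ‖t‖ₑ ≤
      ENNReal.ofReal (128 / J * (1 + (d * t) ^ 2)⁻¹) := by
    intro t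
    rw [Real.enorm_eq_ofReal_abs, ← ENNReal.ofReal_mul' (abs_nonneg _), hkap d t hd]
    refine ENNReal.ofReal_le_ofReal ?_
    have h2 := hdec (d * t)
    rw [abs_mul, abs_of_pos hd] at h2
    have h3 : g (d * t) / (d⁻¹ * J) * |t| = (g (d * t) * (d * |t|)) / J := by
      field_simp
    rw [h3, div_mul_eq_mul_div, div_le_div_iff_of_pos_right hJ1]
    exact h2
  refine (lintegral_mono h1).trans ?_
  have hint : Integrable fun t : ℝ => 128 / J * (1 + (d * t) ^ 2)⁻¹ :=
    (integrable_inv_one_add_sq.comp_mul_left' hd.ne').const_mul _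
  rw [← ofReal_integral_eq_lintegral_ofReal hint (ae_of_all _ fun t => by positivity),
    integral_const_mul]
  have h4 : ∫ t : ℝ, (1 + (d * t) ^ 2)⁻¹ = d⁻¹ * Real.pi := by
    have h5 := Measure.integral_comp_mul_left (fun u : ℝ => (1 + u ^ 2)⁻¹) d
    rw [h5, integral_univ_inv_one_add_sq, abs_of_pos (inv_pos.2 hd), smul_eq_mul]
  rw [h4]
  have h6 : (128 / J * (d⁻¹ * Real.pi)) = (128 / J * Real.pi) * (1 / d) := by
    field_simp
  rw [h6, ENNReal.ofReal_mul (by positivity)]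
  rfl

/-! ### the smooth cell -/

/-- Fourier side of the smoothed cell -/
noncomputable def Gf (β : ℝ → ℂ) (L : ℝ) (n : ℤ) (z : ℝ) : ℂ :=
  β z * ∫ t in I L n, ee (-(t * z))

lemma bd_Gf {β : ℝ → ℂ} (hβ : Bd1 β) (L : ℝ) (n : ℤ) : Bd1 (Gf β L n) := by
  obtain ⟨hm, ⟨B, hB⟩, R, hR⟩ := hβ
  refine ⟨?_, ⟨B * (1 * (volume (I L n)).toReal), fun z => ?_⟩, R, fun z hz => ?_⟩
  · have h1 : Continuous fun P : ℝ × ℝ => ee (-(P.2 * P.1)) := by
      have := continuous_ee
      fun_prop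
    have h2 := (h1.stronglyMeasurable.integral_prod_right' (ν := volume.restrict (I L n)))
    exact hm.mul h2.measurable
  · unfold Gf
    rw [norm_mul]
    have h1 : ‖∫ t in I L n, ee (-(t * z))‖ ≤ 1 * (volume (I L n)).toReal := by
      refine norm_setIntegral_le_of_norm_le_const ?_ fun t _ => (norm_ee _).le
      rw [vol_I]
      exact ENNReal.ofReal_lt_top
    exact mul_le_mul (hB z) h1 (norm_nonneg _) ((norm_nonneg _).trans (hB z))
  · refine hR z fun h => hz ?_
    unfold Gf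
    rw [h, zero_mul]

lemma Ex_Gf {β : ℝ → ℂ} (hβ : Bd1 β) (L : ℝ) (n : ℤ) (s : ℝ) :
    Ex1 (Gf β L n) s = ∫ t in I L n, Ex1 β (s - t) := by
  have hint : Integrable β := memLp_one_iff_integrable.1 (Pool.Agent.KSP.Base_.bd1_memLp hβ 1)
  have hfin : IsFiniteMeasure (volume.restrict (I L n)) := by
    refine ⟨?_⟩
    rw [Measure.restrict_apply_univ, vol_I]
    exact ENNReal.ofReal_lt_top
  unfold Ex1 Gf
  have h1 : ∀ z : ℝ, β z * (∫ t in I L n, ee (-(t * z))) * ee (s * z) =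
      ∫ t in I L n, β z * ee ((s - t) * z) := by
    intro z
    rw [← integral_const_mul, ← integral_mul_const]
    refine integral_congr_ae (ae_of_all _ fun t => ?_)
    show β z * ee (-(t * z)) * ee (s * z) = β z * ee ((s - t) * z)
    rw [mul_assoc, ← ee_add]
    congr 2
    ring
  simp_rw [h1]
  refine integral_integral_swap ?_
  have h2 : Integrable (fun P : ℝ × ℝ => β P.1 * (1 : ℂ))
      (volume.prod (volume.restrict (I L n))) := hint.mul_prod (integrable_const 1)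
  refine h2.mono ?_ (ae_of_all _ fun P => ?_)
  · have h3 : Measurable fun P : ℝ × ℝ => ee ((s - P.2) * P.1) := by
      have : Continuous fun P : ℝ × ℝ => ee ((s - P.2) * P.1) := by
        have := continuous_ee
        fun_prop
      exact this.measurable
    exact ((hβ.1.comp measurable_fst).mul h3).aestronglyMeasurable
  · simp only [Function.uncurry, norm_mul, norm_ee, mul_one]
    exact le_rfl

/-- the smoothed cell is near the cell -/
lemma ci_sub {k : ℝ → ℝ} (hk0 : ∀ t, 0 ≤ k t) (hkc : Continuous k)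
    (hk1 : ∫⁻ t, ENNReal.ofReal (k t) = 1) {L : ℝ} (n : ℤ) (s : ℝ) :
    ‖ci L n s - ∫ t in I L n, k (s - t)‖ₑ ≤ Ps k L n s := by
  have hki : Integrable k := by
    refine ⟨hkc.aestronglyMeasurable, ?_⟩
    rw [hasFiniteIntegral_iff_ofReal (ae_of_all _ hk0), hk1]
    exact ENNReal.one_lt_top
  have hk2 : ∫ t, k t = 1 := by
    rw [integral_eq_lintegral_of_nonneg_ae (ae_of_all _ hk0) hkc.aestronglyMeasurable, hk1]
    rfl
  have h1 : ∫ t in I L n, k (s - t) = ∫ t, ci L n (s - t) * k t := by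
    rw [← integral_indicator (meas_I L n),
      ← integral_sub_left_eq_self (fun t => ci L n (s - t) * k t) volume s]
    refine integral_congr_ae (ae_of_all _ fun t => ?_)
    show (I L n).indicator (fun t => k (s - t)) t = ci L n (s - (s - t)) * k (s - t)
    rw [sub_sub_cancel]
    by_cases h : t ∈ I L n
    · rw [indicator_of_mem h, ci_pos h, one_mul]
    · rw [indicator_of_notMem h, ci_neg h, zero_mul]
  have hb : ∀ x : ℝ, ‖ci L n x‖ ≤ 1 := by
    intro x
    by_cases h : x ∈ I L n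
    · rw [ci_pos h]
      simp
    · rw [ci_neg h]
      simp
  have hm : Measurable fun t => ci L n (s - t) := (meas_ci L n).comp (measurable_id.const_sub s)
  have hi2 : Integrable fun t => ci L n (s - t) * k t :=
    hki.bdd_mul hm.aestronglyMeasurable (ae_of_all _ fun t => hb (s - t))
  have h2 : ci L n s - ∫ t in I L n, k (s - t) =
      ∫ t, (ci L n s - ci L n (s - t)) * k t := by
    simp_rw [sub_mul]
    rw [integral_sub (hki.const_mul _) hi2, integral_const_mul, hk2, mul_one, h1]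
  rw [h2]
  refine (enorm_integral_le_lintegral_enorm _).trans ?_
  unfold Ps
  refine lintegral_mono fun t => ?_
  rw [enorm_mul, Real.enorm_of_nonneg (hk0 t), mul_comm]

/-- the integral over a cell -/
lemma cell_bd (hPo : tPo1) {k : ℝ → ℝ} (hk0 : ∀ t, 0 ≤ k t) (hkc : Continuous k)
    (hk1 : ∫⁻ t, ENNReal.ofReal (k t) = 1) {β : ℝ → ℂ} (hβ : Bd1 β) {d : ℝ} (hd : 0 < d)
    (hβs : ∀ z, β z ≠ 0 → |z| ≤ d / 2) (hβk : ∀ t, Ex1 β t = (k t : ℂ)) {H : ℝ → ℂ}
    (hH : Bd1 H) (hHc : Continuous (Ex1 H)) (L : ℝ) (n : ℤ) (r : ℝ)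
    (hr : ∀ z, H z ≠ 0 → d ≤ |z - r|) :
    ‖∫ s in I L n, ee (-(r * s)) * Ex1 H s‖ₑ ≤ ∫⁻ s, Ps k L n s * ‖Ex1 H s‖ₑ := by
  set K : ℝ → ℂ := fun z => Gf β L n (z - r) with hKdef
  have hGb := bd_Gf hβ L n
  have hKb : Bd1 K := by
    obtain ⟨hm, ⟨B, hB⟩, R, hR⟩ := hGb
    refine ⟨hm.comp (measurable_id.sub_const r), ⟨B, fun z => hB _⟩, R + |r|, fun z hz => ?_⟩
    have h1 := hR (z - r) hz
    calc |z| = |(z - r) + r| := by rw [sub_add_cancel]
      _ ≤ |z - r| + |r| := abs_add_le _ _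
      _ ≤ R + |r| := by linarith
  have hEK : ∀ s, conj (Ex1 K s) = ee (-(r * s)) * ((∫ t in I L n, k (s - t) : ℝ) : ℂ) := by
    intro s
    have h1 : Ex1 K s = ee (r * s) * Ex1 (Gf β L n) s := by
      unfold Ex1
      rw [← integral_const_mul,
        ← integral_sub_right_eq_self (fun z => ee (r * s) * (Gf β L n z * ee (s * z))) r]
      refine integral_congr_ae (ae_of_all _ fun z => ?_)
      show Gf β L n (z - r) * ee (s * z) = ee (r * s) * (Gf β L n (z - r) * ee (s * (z - r)))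
      have h2 : ee (s * z) = ee (r * s) * ee (s * (z - r)) := by
        rw [← ee_add]
        congr 1
        ring
      rw [h2]
      ring
    rw [h1, map_mul, ee_neg_conj, Ex_Gf hβ]
    have h3 : ∫ t in I L n, Ex1 β (s - t) = ((∫ t in I L n, k (s - t) : ℝ) : ℂ) := by
      simp_rw [hβk]
      exact integral_ofReal
    rw [h3, Complex.conj_ofReal]
  obtain ⟨hi, he⟩ := hPo H K hH hKb
  have hzero : ∫ z, H z * conj (K z) = 0 := by
    have h1 : ∀ z, H z * conj (K z) = 0 := by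
      intro z
      by_cases h2 : H z = 0
      · rw [h2, zero_mul]
      · have h3 := hr z h2
        have h4 : K z = 0 := by
          by_contra h5
          have h6 : β (z - r) ≠ 0 := by
            intro h7
            apply h5
            simp only [hKdef, Gf, h7, zero_mul]
          have := hβs _ h6
          linarith
        rw [h4, map_zero, mul_zero]
    simp_rw [h1]
    exact integral_zero _ _
  rw [hzero] at he
  have hi1 : Integrable fun s => (ci L n s : ℂ) * (ee (-(r * s)) * Ex1 H s) := by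
    have hc : Continuous fun s => ee (-(r * s)) * Ex1 H s := by
      have := continuous_ee
      fun_prop
    have h1 : IntegrableOn (fun s => ee (-(r * s)) * Ex1 H s) (I L n) :=
      (hc.continuousOn.integrableOn_Icc).mono_set Ico_subset_Icc_self
    have h2 := h1.integrable_indicator (meas_I L n)
    refine h2.congr (ae_of_all _ fun s => ?_)
    show (I L n).indicator (fun s => ee (-(r * s)) * Ex1 H s) s =
      (ci L n s : ℂ) * (ee (-(r * s)) * Ex1 H s)
    by_cases h : s ∈ I L n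
    · rw [indicator_of_mem h, ci_pos h]
      simp
    · rw [indicator_of_notMem h, ci_neg h]
      simp
  have h1 : ∫ s in I L n, ee (-(r * s)) * Ex1 H s =
      ∫ s, (ci L n s : ℂ) * (ee (-(r * s)) * Ex1 H s) := by
    rw [← integral_indicator (meas_I L n)]
    refine integral_congr_ae (ae_of_all _ fun s => ?_)
    show (I L n).indicator (fun s => ee (-(r * s)) * Ex1 H s) s =
      (ci L n s : ℂ) * (ee (-(r * s)) * Ex1 H s)
    by_cases h : s ∈ I L n
    · rw [indicator_of_mem h, ci_pos h]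
      simp
    · rw [indicator_of_notMem h, ci_neg h]
      simp
  have h2 : ∫ s in I L n, ee (-(r * s)) * Ex1 H s =
      ∫ s, ((ci L n s - ∫ t in I L n, k (s - t) : ℝ) : ℂ) * (ee (-(r * s)) * Ex1 H s) := by
    rw [h1, ← sub_zero (∫ s, (ci L n s : ℂ) * (ee (-(r * s)) * Ex1 H s)), ← he,
      ← integral_sub hi1 hi]
    refine integral_congr_ae (ae_of_all _ fun s => ?_)
    show (ci L n s : ℂ) * (ee (-(r * s)) * Ex1 H s) - Ex1 H s * conj (Ex1 K s) = _
    rw [hEK s]
    push_cast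
    ring
  rw [h2]
  refine (enorm_integral_le_lintegral_enorm _).trans (lintegral_mono fun s => ?_)
  have hn : ‖ee (-(r * s))‖ₑ = 1 := by
    rw [← ofReal_norm, norm_ee, ENNReal.ofReal_one]
  rw [enorm_mul, enorm_mul, hn, one_mul]
  gcongr
  have h3 := ci_sub hk0 hkc hk1 (L := L) n s
  have h4 : ‖((ci L n s - ∫ t in I L n, k (s - t) : ℝ) : ℂ)‖ₑ =
      ‖ci L n s - ∫ t in I L n, k (s - t)‖ₑ := by
    rw [← ofReal_norm, ← ofReal_norm, Complex.norm_real]
  rw [h4]
  exact h3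

/-- integral of a function of the cell -/
lemma lint_cell {L : ℝ} (hL : 0 < L) (Φ : ℤ → ℝ≥0∞) :
    ∫⁻ s, Φ ⌊s / L⌋ = ∑' n, Φ n * ENNReal.ofReal L := by
  have h1 : ∀ s, Φ ⌊s / L⌋ = ∑' n, (I L n).indicator (fun _ => Φ n) s := by
    intro s
    rw [tsum_eq_single ⌊s / L⌋]
    · rw [indicator_of_mem ((mem_I hL _ _).2 rfl)]
    · intro n hn
      exact indicator_of_notMem (fun h => hn ((mem_I hL n s).1 h).symm) _
  simp_rw [h1]
  rw [lintegral_tsum fun n => (measurable_const.indicator (meas_I L n)).aemeasurable]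
  refine tsum_congr fun n => ?_
  rw [lintegral_indicator_const (meas_I L n), vol_I]

end EB_

open EB_ in
theorem pEB (hK : tKAP) (hPl : tPl1) (hPo : tPo1) : tEB := by
  obtain ⟨A, hA⟩ := mom hK
  refine ⟨8 * A, fun L d H hL hd _ hH => ?_⟩
  obtain ⟨hk0, hkc, hk1, -, β, hβ, hβs, hβk⟩ := hK 6 d (by decide) le_rfl hd
  obtain ⟨hHc, hHn⟩ := hPl H hH
  set k := kap 6 d with hk
  set Φ : ℤ → ℝ≥0∞ := fun n => ENNReal.ofReal L⁻¹ ^ 2 *
    ((4 * (A * ENNReal.ofReal (1 / d))) * ∫⁻ s, Ps k L n s * ‖Ex1 H s‖ₑ ^ 2) with hΦ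
  refine ⟨Φ, fun r s hr => ?_, ?_⟩
  · have h1 : avgC L (fun s => ee (-(r * s)) * Ex1 H s) s =
        ((L⁻¹ : ℝ) : ℂ) * ∫ t in I L ⌊s / L⌋, ee (-(r * t)) * Ex1 H t := rfl
    rw [h1, enorm_mul, mul_pow]
    have h2 : ‖((L⁻¹ : ℝ) : ℂ)‖ₑ = ENNReal.ofReal L⁻¹ := by
      rw [← ofReal_norm, Complex.norm_real, Real.norm_of_nonneg (by positivity)]
    rw [h2]
    simp only [hΦ]
    gcongr
    have h3 := cell_bd hPo hk0 hkc hk1 hβ hd hβs hβk hH hHc L ⌊s / L⌋ r hr
    refine (pow_le_pow_left' h3 2).trans ?_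
    refine (cs (meas_Ps hkc.measurable L _) hHc.measurable.enorm).trans ?_
    gcongr
    refine (int_Ps hkc.measurable L _).trans ?_
    gcongr
    exact hA d hd
  · rw [lint_cell hL]
    have h1 : ∀ n : ℤ, Φ n * ENNReal.ofReal L =
        (4 * A * ENNReal.ofReal (1 / (L * d))) * ∫⁻ s, Ps k L n s * ‖Ex1 H s‖ₑ ^ 2 := by
      intro n
      have h2 : ENNReal.ofReal L⁻¹ * ENNReal.ofReal L = 1 := by
        rw [← ENNReal.ofReal_mul (by positivity), inv_mul_cancel₀ hL.ne', ENNReal.ofReal_one]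
      have h3 : ENNReal.ofReal (1 / (L * d)) = ENNReal.ofReal L⁻¹ * ENNReal.ofReal (1 / d) := by
        rw [← ENNReal.ofReal_mul (by positivity)]
        congr 1
        field_simp
      rw [h3]
      simp only [hΦ]
      calc ENNReal.ofReal L⁻¹ ^ 2 * ((4 * (A * ENNReal.ofReal (1 / d))) *
            ∫⁻ s, Ps k L n s * ‖Ex1 H s‖ₑ ^ 2) * ENNReal.ofReal L
          = (ENNReal.ofReal L⁻¹ * ENNReal.ofReal L) *
            ((4 * A * (ENNReal.ofReal L⁻¹ * ENNReal.ofReal (1 / d))) *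
              ∫⁻ s, Ps k L n s * ‖Ex1 H s‖ₑ ^ 2) := by ring
        _ = _ := by rw [h2, one_mul]
    simp_rw [h1]
    rw [ENNReal.tsum_mul_left]
    have h4 : ∑' n, ∫⁻ s, Ps k L n s * ‖Ex1 H s‖ₑ ^ 2 ≤ 2 * n1 H := by
      have hmm : ∀ n : ℤ, AEMeasurable (fun s => Ps k L n s * ‖Ex1 H s‖ₑ ^ 2) volume := fun n =>
        ((meas_Ps hkc.measurable L n).mul (hHc.measurable.enorm.pow_const 2)).aemeasurable
      rw [← lintegral_tsum hmm]
      rw [← hHn, ← lintegral_const_mul' _ _ (by norm_num)]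
      refine lintegral_mono fun s => ?_
      rw [ENNReal.tsum_mul_right]
      gcongr
      exact sum_Ps hkc.measurable hk1 hL s
    calc (4 * A * ENNReal.ofReal (1 / (L * d))) * ∑' n, ∫⁻ s, Ps k L n s * ‖Ex1 H s‖ₑ ^ 2
        ≤ (4 * A * ENNReal.ofReal (1 / (L * d))) * (2 * n1 H) := by gcongr
      _ = ((8 * A : ℝ≥0) : ℝ≥0∞) * ENNReal.ofReal (1 / (L * d)) * n1 H := by
        push_cast
        ring

end Pool.Agent.LLog
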