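import Pool.Agent.LLog.EndW
import Pool.Agent.KSP.Etm

set_option autoImplicit false

/-! W3: the multipliers `et(2^m u)` on one octave. -/

namespace Pool.Agent.LLog

open MeasureTheory FourierTransform Set Filter Topology
open scoped ENNReal NNReal
open Pool.Agent.MBS (E ex T S Sstar et ps mul pm Tstar Pstar MF Fam DerR vv)
open Pool.Agent.KSP (lg IE BdE tPlE tSobI)

namespace EEtm_

open Pool.Agent.KSP.Etm_

theorem le_of_sq {a b : ℝ≥0∞} (h : a ^ 2 ≤ b ^ 2) : a ≤ b := by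
  by_contra hc
  exact absurd h (not_le.2 (ENNReal.pow_lt_pow_left two_ne_zero (not_le.1 hc)))

theorem rt_sq (s : ℝ≥0∞) : (s ^ (1 / 2 : ℝ)) ^ 2 = s := by
  rw [← ENNReal.rpow_natCast, ← ENNReal.rpow_mul]; norm_num

section main

variable {m : ℕ} {c : ℝ} {θ : E 2 → ℝ} {h : E 2 → ℂ}

/-- the radii `ρ_k` -/
theorem radii (hP : tPlE) {α : ℕ} {C : ℝ≥0}
    (hK : ∀ (m : ℕ) (c : ℝ) (h : E 2 → ℂ), 1 ≤ m → 0 < c → BdE h →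
      WK volume (fun x => ⨆ k ∈ Finset.range (2 ^ m),
        ‖IE ({ξ : E 2 | c ≤ ‖ξ‖ ∧ ‖ξ‖ < c * (1 + k / 2 ^ m)}.indicator h) x‖ₑ)
      (C * ((lg m : ℕ) : ℝ≥0∞) ^ α * ∫⁻ ξ in {ξ : E 2 | c ≤ ‖ξ‖ ∧ ‖ξ‖ < 2 * c}, ‖h ξ‖ₑ ^ 2))
    (hm : 1 ≤ m) (hc : 0 < c) (hθ : Continuous θ) (hh : Continuous h) :
    WK volume (fun x => ⨆ k ∈ Finset.range (2 ^ m), ‖T (A m θ (c * (1 + k / 2 ^ m))) h x‖ₑ)
      (16 * (2 + C * ((lg m : ℕ) : ℝ≥0∞) ^ α) * ∫⁻ ξ, ‖H c θ h ξ‖ₑ ^ 2) := by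
  have s1 : MeasurableSet {ξ : E 2 | ‖ξ‖ < c} := measurableSet_lt measurable_norm measurable_const
  have s2 : ∀ k : ℕ, MeasurableSet {ξ : E 2 | c ≤ ‖ξ‖ ∧ ‖ξ‖ < c * (1 + k / 2 ^ m)} := fun k =>
    (measurableSet_le measurable_const measurable_norm).inter
      (measurableSet_lt measurable_norm measurable_const)
  have hH := bd_H (θ := θ) (h := h) c hθ hh
  have p1 := hP _ (bdE_indicator hH s1)
  have p3 := fun k => hP _ (bd_G3 m c hθ hh k)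
  have m3 : ∀ k, Measurable (fun x => ‖IE (G3 m c θ h k) x‖ₑ ^ 2) := fun k =>
    ((p3 k).1.enorm.measurable).pow_const 2
  have w1 : WK volume (fun x => ‖IE ({ξ : E 2 | ‖ξ‖ < c}.indicator (H c θ h)) x‖ₑ)
      (∫⁻ ξ, ‖H c θ h ξ‖ₑ ^ 2) := by
    refine WK.of_sq p1.1.enorm.measurable.aemeasurable ?_
    rw [p1.2]
    refine lintegral_mono fun ξ => ?_
    dsimp only
    by_cases hx : ξ ∈ {ξ : E 2 | ‖ξ‖ < c}
    · rw [indicator_of_mem hx]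
    · rw [indicator_of_notMem hx]; simp
  have w2 := hK m c (H c θ h) hm hc hH
  have w3 : WK volume (fun x => (∑ k ∈ Finset.range (2 ^ m),
      ‖IE (G3 m c θ h k) x‖ₑ ^ 2) ^ (1 / 2 : ℝ)) (∫⁻ ξ, ‖H c θ h ξ‖ₑ ^ 2) := by
    refine WK.of_sq ((Finset.measurable_fun_sum _ fun k _ => m3 k).pow_const _).aemeasurable ?_
    simp only [rt_sq]
    rw [lintegral_finsetSum _ fun k _ => m3 k]
    calc ∑ k ∈ Finset.range (2 ^ m), ∫⁻ x, ‖IE (G3 m c θ h k) x‖ₑ ^ 2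
        = ∑ k ∈ Finset.range (2 ^ m), ∫⁻ ξ, ‖G3 m c θ h k ξ‖ₑ ^ 2 :=
          Finset.sum_congr rfl fun k _ => (p3 k).2
      _ = ∫⁻ ξ, ∑ k ∈ Finset.range (2 ^ m), ‖G3 m c θ h k ξ‖ₑ ^ 2 := by
          rw [lintegral_finsetSum _ fun k _ =>
            ((bd_G3 m c hθ hh k).1.enorm.pow_const 2)]
      _ ≤ _ := lintegral_mono fun ξ => G3_sum hc ξ
  refine (w1.add3 w2 w3).mono (fun x => ?_) ?_
  · refine iSup₂_le fun k hk => ?_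
    have hk' : k < 2 ^ m := by simpa using hk
    rw [decomp hc hθ hh hk' x]
    refine ((enorm_add_le _ _).trans (add_le_add_left (enorm_add_le _ _) _)).trans ?_
    gcongr
    · exact le_iSup₂_of_le k hk le_rfl
    · refine le_of_sq ?_
      rw [rt_sq]
      exact Finset.single_le_sum (f := fun k => ‖IE (G3 m c θ h k) x‖ₑ ^ 2)
        (fun _ _ => bot_le) (Finset.mem_range.mpr hk')
  · calc 16 * ((∫⁻ ξ, ‖H c θ h ξ‖ₑ ^ 2) + C * ((lg m : ℕ) : ℝ≥0∞) ^ α *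
          (∫⁻ ξ in {ξ : E 2 | c ≤ ‖ξ‖ ∧ ‖ξ‖ < 2 * c}, ‖H c θ h ξ‖ₑ ^ 2) +
          ∫⁻ ξ, ‖H c θ h ξ‖ₑ ^ 2)
        ≤ 16 * ((∫⁻ ξ, ‖H c θ h ξ‖ₑ ^ 2) + C * ((lg m : ℕ) : ℝ≥0∞) ^ α *
          (∫⁻ ξ, ‖H c θ h ξ‖ₑ ^ 2) + ∫⁻ ξ, ‖H c θ h ξ‖ₑ ^ 2) := by
          gcongr
          exact Measure.restrict_le_self
      _ = _ := by ring

end main

end EEtm_

open Pool.Agent.KSP.Etm_ EEtm_ in
theorem pEtmw (α : ℕ) (hP : tPlE) (hK : tKEw α) (hS : tSobI) : tEtmw α := by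
  obtain ⟨C, hC⟩ := hK
  obtain ⟨B, hB1, hB⟩ := et1_bd
  refine ⟨4 * (8 * (16 * (2 + C)) + (16 * B ^ 2).toNNReal), fun m c θ h hm hc hθ hθ1 hh => ?_⟩
  have hpos : ∀ R ∈ Icc c (2 * c), 0 < R := fun R hR => by linarith [hR.1]
  have hfA := fam_A m hθ
  have hfA1 := fam_A1 m hθ
  have hTa := MBS.pTcont 2 (A m θ) h hfA hh
  have hTa1 := MBS.pTcont 2 (A1 m θ) h hfA1 hh
  have e0 : ∀ R, (fun ξ : E 2 => et (2 ^ m * (1 - ‖ξ‖ ^ 2 / R ^ 2)) * θ ξ) = A m θ R :=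
    fun R => rfl
  simp only [e0]
  rw [← norm_H (θ := θ) (h := h) c]
  set D : E 2 → ℝ≥0∞ := fun x =>
    ENNReal.ofReal (2 * (c / 2 ^ m)) * ∫⁻ r in Icc c (2 * c), ‖T (A1 m θ r) h x‖ₑ ^ 2 with hD
  have hpt : ∀ x, (⨆ R ∈ Icc c (2 * c), ‖T (A m θ R) h x‖ₑ) ^ 2 ≤
      2 * (⨆ k ∈ Finset.range (2 ^ m), ‖T (A m θ (c * (1 + k / 2 ^ m))) h x‖ₑ) ^ 2 + D x := by
    intro x
    refine ptwise hS hc (fun R => T (A m θ R) h x) (fun R => T (A1 m θ R) h x) ?_ fun t ht =>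
      MBS.pTderiv 2 _ _ h hfA hfA1 hh (derR_A m θ) t (hpos t ht) x
    exact hTa1.comp (f := fun R : ℝ => (R, x)) (by fun_prop)
      (fun R hR => ⟨hpos R hR, mem_univ _⟩)
  have hI : ∫⁻ x, ∫⁻ r in Icc c (2 * c), ‖T (A1 m θ r) h x‖ₑ ^ 2 ≤
      ENNReal.ofReal (8 * B ^ 2 * 2 ^ m / c) * ∫⁻ ξ, ‖H c θ h ξ‖ₑ ^ 2 := by
    rw [planch_R hc hfA1 hh, ← lintegral_const_mul' _ _ ENNReal.ofReal_ne_top]
    refine lintegral_mono fun ξ => ?_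
    dsimp only
    refine (mul_le_mul_left (A1_int hB1 hB m hc θ ξ) _).trans ?_
    rw [mul_assoc]
    gcongr
    unfold H
    by_cases hx : ξ ∈ {ξ : E 2 | ‖ξ‖ ≤ 2 * c}
    · rw [indicator_of_mem hx, indicator_of_mem hx, enorm_mul, mul_pow]
      gcongr
      rw [← ofReal_norm, ← ofReal_norm, Complex.norm_real]
    · rw [indicator_of_notMem hx]
      simp
  have hDm : AEMeasurable D := by
    have m1 := (meas_prod (d := 2 * c) hc _ hTa1).lintegral_prod_right'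
    exact m1.const_mul _
  have hDi : ∫⁻ x, D x ≤ ENNReal.ofReal (16 * B ^ 2) * ∫⁻ ξ, ‖H c θ h ξ‖ₑ ^ 2 := by
    rw [hD, lintegral_const_mul' _ _ ENNReal.ofReal_ne_top]
    refine (mul_le_mul_right hI _).trans (le_of_eq ?_)
    rw [← mul_assoc, ← ENNReal.ofReal_mul (by positivity)]
    rw [show 2 * (c / 2 ^ m) * (8 * B ^ 2 * 2 ^ m / c) = 16 * B ^ 2 by field_simp; ring]
  have wD : WK volume (fun x => D x ^ (1 / 2 : ℝ))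
      (ENNReal.ofReal (16 * B ^ 2) * ∫⁻ ξ, ‖H c θ h ξ‖ₑ ^ 2) := by
    refine WK.of_sq (hDm.pow_const _) ?_
    simp only [rt_sq]
    exact hDi
  have w0 := radii (α := α) hP hC hm hc hθ hh
  have hone : (1 : ℝ≥0∞) ≤ ((lg m : ℕ) : ℝ≥0∞) ^ α := by
    have h1 : 1 ≤ (lg m) ^ α := Nat.one_le_pow _ _ (by unfold KSP.lg; omega)
    exact_mod_cast h1
  refine ((w0.add w0).add wD).mono (fun x => le_of_sq ((hpt x).trans ?_)) ?_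
  · set b := ⨆ k ∈ Finset.range (2 ^ m), ‖T (A m θ (c * (1 + k / 2 ^ m))) h x‖ₑ with hb
    calc 2 * b ^ 2 + D x ≤ 2 * b ^ 2 + 2 * b ^ 2 + (4 * b * D x ^ (1 / 2 : ℝ) +
          (D x ^ (1 / 2 : ℝ)) ^ 2) := by
          rw [rt_sq]
          exact add_le_add le_self_add le_add_self
      _ = _ := by ring
  · calc 4 * (4 * (16 * (2 + C * ((lg m : ℕ) : ℝ≥0∞) ^ α) * (∫⁻ ξ, ‖H c θ h ξ‖ₑ ^ 2) +
          16 * (2 + C * ((lg m : ℕ) : ℝ≥0∞) ^ α) * ∫⁻ ξ, ‖H c θ h ξ‖ₑ ^ 2) +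
          ENNReal.ofReal (16 * B ^ 2) * ∫⁻ ξ, ‖H c θ h ξ‖ₑ ^ 2)
        = 4 * (8 * (16 * (2 * 1 + C * ((lg m : ℕ) : ℝ≥0∞) ^ α)) +
          ENNReal.ofReal (16 * B ^ 2) * 1) * ∫⁻ ξ, ‖H c θ h ξ‖ₑ ^ 2 := by ring
      _ ≤ 4 * (8 * (16 * (2 * ((lg m : ℕ) : ℝ≥0∞) ^ α + C * ((lg m : ℕ) : ℝ≥0∞) ^ α)) +
          ENNReal.ofReal (16 * B ^ 2) * ((lg m : ℕ) : ℝ≥0∞) ^ α) *
            ∫⁻ ξ, ‖H c θ h ξ‖ₑ ^ 2 := by
          gcongr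
      _ = _ := by
          have e1 : ((4 * (8 * (16 * (2 + C)) + (16 * B ^ 2).toNNReal) : ℝ≥0) : ℝ≥0∞) =
              4 * (8 * (16 * (2 + C)) + ENNReal.ofReal (16 * B ^ 2)) := by
            push_cast
            rfl
          rw [e1]
          ring

end Pool.Agent.LLog
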