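import Pool.Agent.LLog.EndFA1
import Pool.Agent.KSP.FA2

set_option autoImplicit false

/-! W9, W10: almost everywhere convergence with the weight `lw2 α`. -/

namespace Pool.Agent.LLog

open MeasureTheory FourierTransform Set Filter Topology
open scoped ENNReal NNReal
open Pool.Agent.MBS (E ex T S Sstar et ps mul pm Tstar Pstar MF)
open Pool.Agent.KSP (lg BI)

namespace EFA2_

open Pool.Agent.KSP.FA2_ (intOn BI_cont tr tr_set_meas tr_meas tr_enorm_sq BI_split Mx Mx_meas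
  conv_of_liminf ae_of_discs l2dist)

theorem WK_ae_zero {X : Type} [MeasurableSpace X] {μ : Measure X} {F : X → ℝ≥0∞}
    (h : WK μ F 0) : ∀ᵐ x ∂μ, F x = 0 := by
  rw [ae_iff]
  have hU : {x | ¬ F x = 0} ⊆ ⋃ n : ℕ, {x | (((1 / ((n : ℝ≥0) + 1) : ℝ≥0)) : ℝ≥0∞) < F x} := by
    intro x hx
    have hx0 : F x ≠ 0 := hx
    obtain ⟨n, hn⟩ := ENNReal.exists_inv_nat_lt hx0
    refine mem_iUnion.2 ⟨n, lt_of_le_of_lt ?_ hn⟩
    rw [one_div, ENNReal.coe_inv (by positivity)]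
    push_cast
    exact ENNReal.inv_le_inv.2 le_self_add
  refine measure_mono_null hU (measure_iUnion_null fun n => ?_)
  have h1 := h (1 / ((n : ℝ≥0) + 1))
  have h2 := le_antisymm h1 bot_le
  rcases mul_eq_zero.1 h2 with h3 | h3
  · exfalso
    have h4 : ((1 / ((n : ℝ≥0) + 1) : ℝ≥0) : ℝ≥0∞) = 0 := (pow_eq_zero_iff two_ne_zero).1 h3
    rw [ENNReal.coe_eq_zero] at h4
    have h5 : (0 : ℝ≥0) < 1 / ((n : ℝ≥0) + 1) := by positivity
    exact h5.ne' h4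
  · exact h3

theorem one_le_ofReal_lw2 (α : ℕ) (ξ : E 2) : 1 ≤ ENNReal.ofReal (lw2 α ξ) := by
  rw [← ENNReal.ofReal_one]
  exact ENNReal.ofReal_le_ofReal (EFA1_.one_le_lw2 α ξ)

theorem lint_sq_ne_top {α : ℕ} {g : E 2 → ℂ}
    (hG : ∫⁻ ξ, ‖g ξ‖ₑ ^ 2 * ENNReal.ofReal (lw2 α ξ) ≠ ⊤) : ∫⁻ ξ, ‖g ξ‖ₑ ^ 2 ≠ ⊤ := by
  refine ne_top_of_le_ne_top hG (lintegral_mono fun ξ => ?_)
  calc ‖g ξ‖ₑ ^ 2 = ‖g ξ‖ₑ ^ 2 * 1 := (mul_one _).symm
    _ ≤ _ := mul_le_mul_right (one_le_ofReal_lw2 α ξ) _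

theorem lw2_meas (α : ℕ) : Measurable (fun ξ : E 2 => ENNReal.ofReal (lw2 α ξ)) :=
  ENNReal.measurable_ofReal.comp (EFA1_.lw2_cont α).measurable

theorem tr_lim {α : ℕ} {g : E 2 → ℂ} (hg : Measurable g)
    (hG : ∫⁻ ξ, ‖g ξ‖ₑ ^ 2 * ENNReal.ofReal (lw2 α ξ) ≠ ⊤) :
    Tendsto (fun n : ℕ => ∫⁻ ξ, ‖tr g n ξ‖ₑ ^ 2 * ENNReal.ofReal (lw2 α ξ)) atTop (𝓝 0) := by
  have h := tendsto_lintegral_of_dominated_convergence (μ := (volume : Measure (E 2)))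
    (F := fun (n : ℕ) ξ => ‖tr g n ξ‖ₑ ^ 2 * ENNReal.ofReal (lw2 α ξ)) (f := fun _ => 0)
    (fun ξ => ‖g ξ‖ₑ ^ 2 * ENNReal.ofReal (lw2 α ξ))
    (fun n => ((tr_meas hg n).enorm.pow_const 2).mul (lw2_meas α))
    (fun n => ae_of_all _ fun ξ => mul_le_mul_left (tr_enorm_sq g n ξ) _) hG
    (ae_of_all _ fun ξ => by
      refine tendsto_const_nhds.congr' ?_
      filter_upwards [eventually_ge_atTop ⌈‖ξ‖⌉₊] with n hn
      have h1 : ¬ ((n : ℝ) < ‖ξ‖) := not_lt.2 (Nat.ceil_le.1 hn)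
      have h2 : tr g n ξ = 0 := indicator_of_notMem (by simpa using h1) g
      rw [h2]
      simp)
  simpa using h

theorem liminf_zero {α : ℕ} {g : E 2 → ℂ} (hg : Measurable g)
    (hG : ∫⁻ ξ, ‖g ξ‖ₑ ^ 2 * ENNReal.ofReal (lw2 α ξ) ≠ ⊤) (h : tFA1w α) (x0 : E 2) :
    ∀ᵐ x ∂(volume.restrict (Metric.closedBall x0 1)),
      liminf (fun n : ℕ => Mx (tr g n) x ^ 2) atTop = 0 := by
  obtain ⟨C, hC⟩ := h
  have hlim : Tendsto (fun n : ℕ => (C : ℝ≥0∞) * ∫⁻ ξ, ‖tr g n ξ‖ₑ ^ 2 * ENNReal.ofReal (lw2 α ξ))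
      atTop (𝓝 0) := by
    have := ENNReal.Tendsto.const_mul (tr_lim hg hG) (Or.inr (ENNReal.coe_ne_top (r := C)))
    simpa using this
  have hw : WK (volume.restrict (Metric.closedBall x0 1))
      (fun x => liminf (fun n : ℕ => Mx (tr g n) x) atTop) 0 :=
    WK.fatou (fun n => hC (tr g n) x0 (tr_meas hg n)) (fun x => le_rfl) hlim
  filter_upwards [WK_ae_zero hw] with x hx
  have hmono : Monotone (fun y : ℝ≥0∞ => y ^ 2) := fun a b hab => pow_le_pow_left' hab 2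
  have h6 := hmono.map_liminf_of_continuousAt (F := atTop)
      (fun n => Mx (tr g n) x) (ENNReal.continuous_pow 2).continuousAt
  rw [hx] at h6
  have h7 : (fun y : ℝ≥0∞ => y ^ 2) ∘ (fun n => Mx (tr g n) x) = fun n : ℕ => Mx (tr g n) x ^ 2 :=
    rfl
  rw [h7] at h6
  rw [← h6]
  simp

end EFA2_

open EFA2_ Pool.Agent.KSP.FA2_ in
/-- W9 -/
theorem pFA2w (α : ℕ) (h : tFA1w α) : tFA2w α := by
  intro g hg hG
  refine ae_of_discs fun x0 => ?_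
  filter_upwards [EFA2_.liminf_zero hg hG h x0] with x hx
  exact conv_of_liminf hg (EFA2_.lint_sq_ne_top hG) hx

open Pool.Agent.KSP.FA2_ in
/-- W10 -/
theorem pFA3w (α : ℕ) (h : tFA1w α) : tFA3w α := by
  intro f hf h1 h2 hG
  have hFc : Continuous (𝓕 f) := VectorFourier.fourierIntegral_continuous (V := E 2) (W := E 2)
    Real.continuous_fourierChar (L := innerₗ (E 2)) continuous_inner h1
  have hconv := pFA2w α h (𝓕 f) hFc.measurable hG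
  have hF2 := EFA2_.lint_sq_ne_top hG
  have hm : ∀ n : ℕ, Measurable (fun x => ‖f x - BI (𝓕 f) n x‖ₑ ^ 2) := fun n =>
    ((hf.sub (BI_cont (intOn hFc.measurable hF2 n)).measurable).enorm).pow_const 2
  have hlim : Tendsto (fun n : ℕ => ∫⁻ x, ‖f x - BI (𝓕 f) n x‖ₑ ^ 2) atTop (𝓝 0) := by
    refine tendsto_of_tendsto_of_tendsto_of_le_of_le tendsto_const_nhds
      (EFA2_.tr_lim hFc.measurable hG) (fun _ => zero_le) (fun n => ?_)
    simp only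
    rw [l2dist h1 h2 n]
    refine lintegral_mono fun ξ => ?_
    calc ‖tr (𝓕 f) n ξ‖ₑ ^ 2 = ‖tr (𝓕 f) n ξ‖ₑ ^ 2 * 1 := (mul_one _).symm
      _ ≤ _ := mul_le_mul_right (EFA2_.one_le_ofReal_lw2 α ξ) _
  have hfat : ∫⁻ x, liminf (fun n : ℕ => ‖f x - BI (𝓕 f) n x‖ₑ ^ 2) atTop = 0 := by
    refine le_antisymm ?_ zero_le
    refine le_trans (lintegral_liminf_le hm) ?_
    rw [hlim.liminf_eq]
  have hmeas : Measurable (fun x => liminf (fun n : ℕ => ‖f x - BI (𝓕 f) n x‖ₑ ^ 2) atTop) :=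
    Measurable.liminf hm
  rw [lintegral_eq_zero_iff hmeas] at hfat
  filter_upwards [hconv, hfat] with x hx hx0
  obtain ⟨l, hl⟩ := hx
  have h3 : Tendsto (fun n : ℕ => ‖f x - BI (𝓕 f) n x‖ₑ ^ 2) atTop (𝓝 (‖f x - l‖ₑ ^ 2)) := by
    have h4 : Tendsto (fun n : ℕ => BI (𝓕 f) n x) atTop (𝓝 l) := hl.comp tendsto_natCast_atTop_atTop
    exact ENNReal.Tendsto.pow ((tendsto_const_nhds.sub h4).enorm)
  rw [Pi.zero_apply] at hx0
  rw [h3.liminf_eq] at hx0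
  have h5 : f x - l = 0 := by
    have := pow_eq_zero_iff (two_ne_zero) |>.1 hx0
    simpa using this
  have h6 : l = f x := (sub_eq_zero.1 h5).symm
  rw [← h6]
  exact hl

end Pool.Agent.LLog
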