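import Pool.Agent.LLog.EndW
import Pool.Agent.KSP.K

set_option autoImplicit false

/-! W1: from the right sector to the full octave. -/

namespace Pool.Agent.LLog

open MeasureTheory Set
open scoped ENNReal NNReal
open Pool.Agent.KSP (Ex ann V0 n2 lg Bd nr)

namespace EK_

open Pool.Agent.KSP.K_

theorem M_le (m : ℕ) (h : ℝ × ℝ → ℂ) (x : ℝ × ℝ) :
    M m h x ≤ ⨆ k ∈ Finset.range (4 ^ m), ‖Ex ((ann 1 (1 + k / 4 ^ m)).indicator h) x‖ₑ := by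
  unfold M
  refine iSup₂_le fun k hk => ?_
  have hk' : k < 2 ^ m := Finset.mem_range.1 hk
  have h4 : (4 : ℕ) ^ m = 2 ^ m * 2 ^ m := by
    rw [← mul_pow]
    norm_num
  have hk2 : k * 2 ^ m ∈ Finset.range (4 ^ m) := by
    rw [Finset.mem_range, h4]
    exact Nat.mul_lt_mul_of_pos_right hk' (Nat.two_pow_pos m)
  refine le_iSup₂_of_le (k * 2 ^ m) hk2 (le_of_eq ?_)
  have e : ((k * 2 ^ m : ℕ) : ℝ) / 4 ^ m = (k : ℝ) / 2 ^ m := by
    have h5 : (4 : ℝ) ^ m = 2 ^ m * 2 ^ m := by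
      rw [← mul_pow]
      norm_num
    rw [h5]
    push_cast
    field_simp
  rw [e]

theorem wk_E {m : ℕ} {h : ℝ × ℝ → ℂ} {B : ℝ≥0∞} (hw : WK volume (M m fun ξ => h (E ξ)) B) :
    WK volume (M m h) B := fun lam => by
  refine le_trans (le_of_eq ?_) (hw lam)
  congr 1
  rw [← E_mp.measure_preimage_equiv]
  congr 1
  ext x
  simp only [mem_preimage, mem_ofPred_eq, M_E]

theorem est_r {α : ℕ} {C : ℝ≥0} (hC : ∀ (m : ℕ) (h : ℝ × ℝ → ℂ), 1 ≤ m → Bd h →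
    (∀ ξ, h ξ ≠ 0 → ξ ∈ V0) → WK volume (fun x => ⨆ k ∈ Finset.range (4 ^ m),
      ‖Ex ((ann 1 (1 + k / 4 ^ m)).indicator h) x‖ₑ) (C * ((lg m : ℕ) : ℝ≥0∞) ^ α * n2 h))
    (m : ℕ) (hm : 1 ≤ m) : ∀ (n : ℕ) {h : ℝ × ℝ → ℂ},
    Bd h → (∀ ξ, h ξ ≠ 0 → ∃ η ∈ V0, rE n η = ξ) →
    WK volume (M m h) (C * ((lg m : ℕ) : ℝ≥0∞) ^ α * n2 h) := by
  intro n
  induction n with
  | zero =>
    intro h hh hV
    refine (hC m h hm hh fun ξ hξ => ?_).mono (M_le m h) le_rfl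
    obtain ⟨η, h1, h2⟩ := hV ξ hξ
    rw [← h2]
    exact h1
  | succ n ih =>
    intro h hh hV
    rw [← n2_E]
    refine wk_E (ih (Bd_E hh) fun ξ hξ => ?_)
    obtain ⟨η, h1, h2⟩ := hV _ hξ
    exact ⟨η, h1, E.injective h2⟩

theorem est_add (m : ℕ) {g h : ℝ × ℝ → ℂ} (hg : Bd g) (hh : Bd h) {A B : ℝ≥0∞}
    (h1 : WK volume (M m g) A) (h2 : WK volume (M m h) B) :
    WK volume (M m fun ξ => g ξ + h ξ) (4 * (A + B)) :=
  (h1.add h2).mono (fun x => M_add m hg hh x) le_rfl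

end EK_

open Pool.Agent.KSP.K_ EK_ in
theorem pKw (α : ℕ) (hW : tW α) : tKw α := by
  obtain ⟨C, hC⟩ := hW
  refine ⟨148 * C, fun m h hm hh hsupp => ?_⟩
  change WK volume (M m h) _
  set K : ℝ≥0∞ := C * ((lg m : ℕ) : ℝ≥0∞) ^ α with hK
  -- the four pieces
  set g0 := S0.indicator h with hg0
  set r0 := S0ᶜ.indicator h with hr0
  set g1 := S1.indicator r0 with hg1
  set r1 := S1ᶜ.indicator r0 with hr1
  set g2 := S2.indicator r1 with hg2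
  set r2 := S2ᶜ.indicator r1 with hr2
  have b0 : Bd g0 := Bd_indicator hh mS0
  have c0 : Bd r0 := Bd_indicator hh mS0.compl
  have b1 : Bd g1 := Bd_indicator c0 mS1
  have c1 : Bd r1 := Bd_indicator c0 mS1.compl
  have b2 : Bd g2 := Bd_indicator c1 mS2
  have c2 : Bd r2 := Bd_indicator c1 mS2.compl
  have n0 : n2 g0 ≤ n2 h := n2_indicator _ _
  have k0 : n2 r0 ≤ n2 h := n2_indicator _ _
  have n1 : n2 g1 ≤ n2 h := (n2_indicator _ _).trans k0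
  have k1 : n2 r1 ≤ n2 h := (n2_indicator _ _).trans k0
  have n2' : n2 g2 ≤ n2 h := (n2_indicator _ _).trans k1
  have k2 : n2 r2 ≤ n2 h := (n2_indicator _ _).trans k1
  have e0 : WK volume (M m g0) (K * n2 h) := by
    refine (est_r hC m hm 0 b0 fun ξ hξ => ?_).mono (fun _ => le_rfl) (mul_le_mul_right n0 K)
    obtain ⟨h1, h2⟩ := ind_ne hξ
    obtain ⟨h3, h4⟩ := hsupp ξ h2
    exact ⟨(ξ.1, ξ.2), mem_V0 h3 h4 _ _ rfl h1, rfl⟩
  have e1 : WK volume (M m g1) (K * n2 h) := by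
    refine (est_r hC m hm 1 b1 fun ξ hξ => ?_).mono (fun _ => le_rfl) (mul_le_mul_right n1 K)
    obtain ⟨h1, h2⟩ := ind_ne hξ
    obtain ⟨h3, h4⟩ := ind_ne h2
    obtain ⟨h5, h6⟩ := hsupp ξ h4
    refine ⟨(ξ.2, -ξ.1), mem_V0 h5 h6 _ _ (by ring) ?_, ?_⟩
    · rw [abs_neg]
      exact h1
    · simp only [rE, E_apply, neg_neg]
  have e2 : WK volume (M m g2) (K * n2 h) := by
    refine (est_r hC m hm 2 b2 fun ξ hξ => ?_).mono (fun _ => le_rfl) (mul_le_mul_right n2' K)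
    obtain ⟨h1, h2⟩ := ind_ne hξ
    obtain ⟨h3, h4⟩ := ind_ne h2
    obtain ⟨h3', h4'⟩ := ind_ne h4
    obtain ⟨h5, h6⟩ := hsupp ξ h4'
    refine ⟨(-ξ.1, -ξ.2), mem_V0 h5 h6 _ _ (by ring) ?_, ?_⟩
    · rw [abs_neg]
      exact h1
    · simp only [rE, E_apply, neg_neg]
  have e3 : WK volume (M m r2) (K * n2 h) := by
    refine (est_r hC m hm 3 c2 fun ξ hξ => ?_).mono (fun _ => le_rfl) (mul_le_mul_right k2 K)
    obtain ⟨h1, h2⟩ := ind_ne hξ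
    obtain ⟨h3, h4⟩ := ind_ne h2
    obtain ⟨h3', h4'⟩ := ind_ne h4
    obtain ⟨h5, h6⟩ := hsupp ξ h4'
    have j1 : ¬ |ξ.2| ≤ -ξ.1 := h1
    have j2 : ¬ |ξ.1| ≤ ξ.2 := h3
    have j3 : ¬ |ξ.2| ≤ ξ.1 := h3'
    refine ⟨(-ξ.2, ξ.1), mem_V0 h5 h6 _ _ (by ring) ?_, ?_⟩
    · rcases le_total 0 ξ.1 with p | p <;> rcases le_total 0 ξ.2 with q | q <;>
        simp only [abs_of_nonneg, abs_of_nonpos, p, q] at j1 j2 j3 ⊢ <;> linarith
    · simp only [rE, E_apply, neg_neg]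
  have f2 : WK volume (M m r1) (4 * (K * n2 h + K * n2 h)) := by
    have := EK_.est_add m b2 c2 e2 e3
    rwa [← ind_add] at this
  have f1 : WK volume (M m r0) (4 * (K * n2 h + 4 * (K * n2 h + K * n2 h))) := by
    have := EK_.est_add m b1 c1 e1 f2
    rwa [← ind_add] at this
  have f0 : WK volume (M m h) (4 * (K * n2 h + 4 * (K * n2 h + 4 * (K * n2 h + K * n2 h)))) := by
    have := EK_.est_add m b0 c0 e0 f1
    rwa [← ind_add] at this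
  refine f0.mono (fun _ => le_rfl) (le_of_eq ?_)
  rw [hK]
  push_cast
  ring

end Pool.Agent.LLog
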