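import Pool.Agent.LLog.EndW
import Pool.Agent.KSP.KE

set_option autoImplicit false

/-! W2: transfer to `E 2`, all dilations. -/

namespace Pool.Agent.LLog

open MeasureTheory FourierTransform Set Filter Topology
open scoped ENNReal NNReal
open Pool.Agent.MBS (E ex)
open Pool.Agent.KSP (Ex ann V0 n2 lg Bd nr IE BdE)

namespace EKE_

open Pool.Agent.KSP.KE_

theorem wk_transfer {F : E 2 → ℝ≥0∞} {G : ℝ × ℝ → ℝ≥0∞} {B : ℝ≥0∞} {c : ℝ} (hc : 0 < c)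
    (hFG : ∀ x, F (φ x) = ENNReal.ofReal (c ^ 2) * G (c • x)) (hG : WK volume G B) :
    WK volume F (ENNReal.ofReal (c ^ 2) * B) := fun lam => by
  have hc2 : (0 : ℝ) < c ^ 2 := by positivity
  obtain ⟨d, hd⟩ : ∃ d : ℝ≥0, d = (c ^ 2).toNNReal := ⟨_, rfl⟩
  have hd0 : d ≠ 0 := by
    rw [hd]
    exact (Real.toNNReal_pos.2 hc2).ne'
  have hde : ENNReal.ofReal (c ^ 2) = (d : ℝ≥0∞) := by rw [hd]; rfl
  have hset : (φ : ℝ × ℝ → E 2) ⁻¹' {y | (lam : ℝ≥0∞) < F y} =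
      (fun x : ℝ × ℝ => c • x) ⁻¹' {z | ((lam / d : ℝ≥0) : ℝ≥0∞) < G z} := by
    ext x
    simp only [mem_preimage, mem_ofPred_eq, hFG, hde]
    rw [ENNReal.coe_div hd0, ENNReal.div_lt_iff (Or.inl (by simpa using hd0))
      (Or.inl ENNReal.coe_ne_top), mul_comm]
  have h1 : volume {y : E 2 | (lam : ℝ≥0∞) < F y} =
      volume ((φ : ℝ × ℝ → E 2) ⁻¹' {y | (lam : ℝ≥0∞) < F y}) :=
    (φ_mp.measure_preimage_equiv _).symm
  have h2 : volume ((fun x : ℝ × ℝ => c • x) ⁻¹' {z | ((lam / d : ℝ≥0) : ℝ≥0∞) < G z}) =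
      ENNReal.ofReal ((c ^ 2)⁻¹) * volume {z | ((lam / d : ℝ≥0) : ℝ≥0∞) < G z} := by
    have h3 := Measure.addHaar_preimage_smul (volume : Measure (ℝ × ℝ)) hc.ne'
      {z | ((lam / d : ℝ≥0) : ℝ≥0∞) < G z}
    have h4 : Module.finrank ℝ (ℝ × ℝ) = 2 := by simp
    rw [h4, abs_of_nonneg (by positivity)] at h3
    exact h3
  rw [h1, hset, h2]
  have h5 : (lam : ℝ≥0∞) = d * ((lam / d : ℝ≥0) : ℝ≥0∞) := by
    rw [← ENNReal.coe_mul, mul_div_cancel₀ _ hd0]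
  have h6 : ENNReal.ofReal (c ^ 2) * ENNReal.ofReal ((c ^ 2)⁻¹) = 1 := by
    rw [← ENNReal.ofReal_mul hc2.le, mul_inv_cancel₀ hc2.ne', ENNReal.ofReal_one]
  calc (lam : ℝ≥0∞) ^ 2 * (ENNReal.ofReal ((c ^ 2)⁻¹) *
        volume {z | ((lam / d : ℝ≥0) : ℝ≥0∞) < G z})
      = ENNReal.ofReal (c ^ 2) * (ENNReal.ofReal (c ^ 2) * ENNReal.ofReal ((c ^ 2)⁻¹)) *
        (((lam / d : ℝ≥0) : ℝ≥0∞) ^ 2 * volume {z | ((lam / d : ℝ≥0) : ℝ≥0∞) < G z}) := by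
        nth_rw 1 [h5]
        rw [hde]
        ring
    _ = ENNReal.ofReal (c ^ 2) *
        (((lam / d : ℝ≥0) : ℝ≥0∞) ^ 2 * volume {z | ((lam / d : ℝ≥0) : ℝ≥0∞) < G z}) := by
        rw [h6, mul_one]
    _ ≤ _ := mul_le_mul_right (hG _) _

end EKE_

open Pool.Agent.KSP.KE_ EKE_ in
theorem pKEw (α : ℕ) (hK : tKw α) : tKEw α := by
  obtain ⟨C, hC⟩ := hK
  refine ⟨C, fun m c h hm hc hh => ?_⟩
  obtain ⟨hmeas, ⟨B, hB⟩, -⟩ := hh
  set g : ℝ × ℝ → ℂ := h ∘ φ with hg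
  have hgm : Measurable g := hmeas.comp φ.measurable
  have hgB : ∀ ξ, ‖g ξ‖ ≤ B := fun ξ => hB _
  have hmain := hC m (dl c g) hm (dl_Bd hgm hgB c) (fun ξ hξ => by
    by_contra hcon
    exact hξ (by
      unfold dl
      rw [indicator_of_notMem (show ξ ∉ ann 1 2 from fun h1 => hcon h1)]))
  -- the left side
  have hset : ∀ s : ℝ, ({ξ : E 2 | c ≤ ‖ξ‖ ∧ ‖ξ‖ < c * s}.indicator h) ∘ φ =
      (ann c (c * s)).indicator g := by
    intro s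
    funext ξ
    have hiff : φ ξ ∈ {ξ : E 2 | c ≤ ‖ξ‖ ∧ ‖ξ‖ < c * s} ↔ ξ ∈ ann c (c * s) := by
      simp only [mem_ofPred_eq, φ_norm, ann]
    simp only [Function.comp, hg]
    by_cases h1 : ξ ∈ ann c (c * s)
    · rw [indicator_of_mem h1, indicator_of_mem (hiff.2 h1)]
      rfl
    · rw [indicator_of_notMem h1, indicator_of_notMem (fun h2 => h1 (hiff.1 h2))]
  have hs2 : ∀ k ∈ Finset.range (2 ^ m), (1 + (k : ℝ) / 2 ^ m) ≤ 2 := by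
    intro k hk
    have h1 : (k : ℝ) ≤ 2 ^ m := by
      have := (Finset.mem_range.1 hk).le
      exact_mod_cast this
    have h2 : (k : ℝ) / 2 ^ m ≤ 1 := by
      rw [div_le_one (by positivity)]
      exact h1
    linarith
  have hFG : ∀ x : ℝ × ℝ, (⨆ k ∈ Finset.range (2 ^ m),
      ‖IE ({ξ : E 2 | c ≤ ‖ξ‖ ∧ ‖ξ‖ < c * (1 + k / 2 ^ m)}.indicator h) (φ x)‖ₑ) =
      ENNReal.ofReal (c ^ 2) * (fun z : ℝ × ℝ => ⨆ k ∈ Finset.range (2 ^ m),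
        ‖Ex ((ann 1 (1 + k / 2 ^ m)).indicator (dl c g)) z‖ₑ) (c • x) := by
    intro x
    simp only
    rw [ENNReal.mul_iSup]
    refine iSup_congr fun k => ?_
    rw [ENNReal.mul_iSup]
    refine iSup_congr fun hk => ?_
    rw [IE_φ, hset, Ex_dil g hc (hs2 k hk), enorm_mul]
    congr 1
    rw [← ofReal_norm, Complex.norm_real, Real.norm_of_nonneg (by positivity)]
  -- the right side
  have hR : n2 (dl c g) = ENNReal.ofReal ((c ^ 2)⁻¹) *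
      ∫⁻ ξ in {ξ : E 2 | c ≤ ‖ξ‖ ∧ ‖ξ‖ < 2 * c}, ‖h ξ‖ₑ ^ 2 := by
    have hms : MeasurableSet {ξ : E 2 | c ≤ ‖ξ‖ ∧ ‖ξ‖ < 2 * c} :=
      (measurableSet_le measurable_const measurable_norm).inter
        (measurableSet_lt measurable_norm measurable_const)
    rw [← lintegral_indicator hms, lint_φ, ← lint_smul _ hc]
    unfold n2
    refine lintegral_congr fun z => ?_
    by_cases h1 : z ∈ ann 1 2
    · have h2 : φ (c • z) ∈ {ξ : E 2 | c ≤ ‖ξ‖ ∧ ‖ξ‖ < 2 * c} := by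
        simp only [mem_ofPred_eq, φ_norm, nr_smul c hc]
        exact ⟨by nlinarith [h1.1], by nlinarith [h1.2]⟩
      rw [indicator_of_mem h2]
      unfold dl
      rw [indicator_of_mem h1]
      rfl
    · have h2 : φ (c • z) ∉ {ξ : E 2 | c ≤ ‖ξ‖ ∧ ‖ξ‖ < 2 * c} := by
        simp only [mem_ofPred_eq, φ_norm, nr_smul c hc]
        rintro ⟨h3, h4⟩
        exact h1 ⟨by nlinarith, by nlinarith⟩
      rw [indicator_of_notMem h2]
      unfold dl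
      rw [indicator_of_notMem h1]
      simp
  refine (wk_transfer hc hFG hmain).mono (fun _ => le_rfl) (le_of_eq ?_)
  calc ENNReal.ofReal (c ^ 2) * (C * ((lg m : ℕ) : ℝ≥0∞) ^ α * n2 (dl c g))
      = C * ((lg m : ℕ) : ℝ≥0∞) ^ α * ((ENNReal.ofReal (c ^ 2) * ENNReal.ofReal ((c ^ 2)⁻¹)) *
        ∫⁻ ξ in {ξ : E 2 | c ≤ ‖ξ‖ ∧ ‖ξ‖ < 2 * c}, ‖h ξ‖ₑ ^ 2) := by
        rw [hR]
        ring
    _ = _ := by
        rw [← ENNReal.ofReal_mul (by positivity), mul_inv_cancel₀ (by positivity),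
          ENNReal.ofReal_one, one_mul]

end Pool.Agent.LLog
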