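import Pool.Agent.LLog.EndW
import Pool.Agent.KSP.Sm
import Pool.Agent.KSP.SS

set_option autoImplicit false

/-! W4, W5: the multipliers `muS`, one octave and all octaves. -/

namespace Pool.Agent.LLog

open MeasureTheory FourierTransform Set Filter Topology
open scoped ENNReal NNReal
open Pool.Agent.MBS (E ex T S Sstar et ps mul pm Tstar Pstar MF)
open Pool.Agent.KSP (lg muS tEt0)

open Pool.Agent.KSP.Sm_ in
theorem pSmw (α : ℕ) (h1 : tEtmw α) (h0 : tEt0) : tSmw α := by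
  obtain ⟨C1, hC1⟩ := h1
  obtain ⟨C0, hC0⟩ := h0
  refine ⟨4 * (C1 + C0), fun m c h hm hc hh => ?_⟩
  set I := ∫⁻ ξ in {ξ : E 2 | c / 2 ≤ ‖ξ‖ ∧ ‖ξ‖ ≤ 2 * c}, ‖h ξ‖ₑ ^ 2 with hI
  set A := fun x : E 2 => ⨆ R ∈ Icc c (2 * c),
      ‖T (fun ξ : E 2 => et (2 ^ m * (1 - ‖ξ‖ ^ 2 / R ^ 2)) * th c ξ) h x‖ₑ with hA
  set B := fun x : E 2 => ⨆ R ∈ Icc c (2 * c),
      ‖T (fun ξ : E 2 => et (1 - ‖ξ‖ ^ 2 / R ^ 2) * th c ξ) h x‖ₑ with hB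
  have hBm : Measurable B := by
    have := sup_meas c 1 (by norm_num) hc hh
    simpa only [one_mul] using this
  have b1 : WK volume A (C1 * ((lg m : ℕ) : ℝ≥0∞) ^ α * I) :=
    (hC1 m c (th c) h hm hc (th_cont c) (th_bd c) hh).mono (fun _ => le_rfl)
      (by gcongr; exact weight c hc h)
  have b0 : WK volume B (C0 * I) :=
    WK.of_sq hBm.aemeasurable
      ((hC0 c (th c) h hc (th_cont c) (th_bd c) hh).trans (by gcongr; exact weight c hc h))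
  have hl1 : (1 : ℝ≥0∞) ≤ ((lg m : ℕ) : ℝ≥0∞) ^ α := by
    have : 1 ≤ (lg m) ^ α := Nat.one_le_pow _ _ (by unfold KSP.lg; omega)
    exact_mod_cast this
  refine (b1.add b0).mono (fun x => ?_) ?_
  · refine iSup₂_le fun R hR => ?_
    rw [T_muS m hc hR hh x]
    refine (enorm_sub_le).trans (add_le_add ?_ ?_)
    · exact le_iSup₂_of_le R hR le_rfl
    · exact le_iSup₂_of_le R hR le_rfl
  · calc 4 * (C1 * ((lg m : ℕ) : ℝ≥0∞) ^ α * I + C0 * I)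
        = 4 * (C1 * ((lg m : ℕ) : ℝ≥0∞) ^ α * I + C0 * 1 * I) := by ring
      _ ≤ 4 * (C1 * ((lg m : ℕ) : ℝ≥0∞) ^ α * I + C0 * ((lg m : ℕ) : ℝ≥0∞) ^ α * I) := by gcongr
      _ = _ := by
        push_cast
        ring

open Pool.Agent.KSP.SS_ in
theorem pSSw (α : ℕ) (h : tSmw α) : tSSw α := by
  obtain ⟨C, hC⟩ := h
  refine ⟨C * 3, fun m f hm hf h2 => ?_⟩
  have hmeas : ∀ j : ℤ, MeasurableSet {ξ : E 2 | (2 : ℝ) ^ j / 2 ≤ ‖ξ‖ ∧ ‖ξ‖ ≤ 2 * 2 ^ j} :=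
    fun j => (measurableSet_le measurable_const measurable_norm).inter
      (measurableSet_le measurable_norm measurable_const)
  have hFc := MBS.J8.fourier_cont hf
  have hFm : Measurable (fun ξ => ‖𝓕 f ξ‖ₑ ^ 2) := hFc.measurable.enorm.pow_const 2
  set K : ℝ≥0∞ := C * ((lg m : ℕ) : ℝ≥0∞) ^ α with hK
  refine (WK.iSup fun j : ℤ => hC m ((2 : ℝ) ^ j) (𝓕 f) hm (by positivity) hFc).mono
    (fun x => ?_) ?_
  · refine iSup₂_le fun R hR => ?_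
    have hk1 : (2 : ℝ) ^ (Int.log 2 R) ≤ R := Int.zpow_log_le_self (by norm_num) hR
    have hk2 : R < (2 : ℝ) ^ (Int.log 2 R + 1) := Int.lt_zpow_succ_log_self (by norm_num) R
    rw [zpow_add_one₀ (by norm_num)] at hk2
    refine le_iSup_of_le (Int.log 2 R) ?_
    exact le_iSup₂_of_le R ⟨hk1, by linarith⟩ le_rfl
  · calc ∑' j : ℤ, K * ∫⁻ ξ in {ξ : E 2 | (2 : ℝ) ^ j / 2 ≤ ‖ξ‖ ∧ ‖ξ‖ ≤ 2 * 2 ^ j}, ‖𝓕 f ξ‖ₑ ^ 2
          = K * ∫⁻ ξ, ∑' j : ℤ, ({ξ : E 2 | (2 : ℝ) ^ j / 2 ≤ ‖ξ‖ ∧ ‖ξ‖ ≤ 2 * 2 ^ j}).indicator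
            (fun ξ => ‖𝓕 f ξ‖ₑ ^ 2) ξ := by
          rw [ENNReal.tsum_mul_left, lintegral_tsum]
          · congr 1
            refine tsum_congr fun j => ?_
            rw [lintegral_indicator (hmeas j)]
          · exact fun j => (hFm.indicator (hmeas j)).aemeasurable
      _ ≤ K * ∫⁻ ξ, 3 * ‖𝓕 f ξ‖ₑ ^ 2 := by
          refine mul_le_mul_right (lintegral_mono fun ξ => ?_) _
          have h1 : ∀ j : ℤ, ({ξ : E 2 | (2 : ℝ) ^ j / 2 ≤ ‖ξ‖ ∧ ‖ξ‖ ≤ 2 * 2 ^ j}).indicator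
              (fun ξ => ‖𝓕 f ξ‖ₑ ^ 2) ξ =
              ({j : ℤ | (2 : ℝ) ^ j / 2 ≤ ‖ξ‖ ∧ ‖ξ‖ ≤ 2 * 2 ^ j} : Set ℤ).indicator
                (fun _ => (1 : ℝ≥0∞)) j * ‖𝓕 f ξ‖ₑ ^ 2 := by
            intro j
            by_cases h : (2 : ℝ) ^ j / 2 ≤ ‖ξ‖ ∧ ‖ξ‖ ≤ 2 * 2 ^ j
            · rw [indicator_of_mem (by exact h), indicator_of_mem (by exact h), one_mul]
            · rw [indicator_of_notMem (by exact h), indicator_of_notMem (by exact h), zero_mul]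
          simp only [h1]
          rw [ENNReal.tsum_mul_right]
          exact mul_le_mul_left (MBS.J8.overlap ‖ξ‖) _
      _ = ↑(C * 3) * ((lg m : ℕ) : ℝ≥0∞) ^ α * ∫⁻ x, ‖f x‖ₑ ^ 2 := by
          rw [lintegral_const_mul _ hFm, MBS.J8.plancherel_sq hf h2, ← mul_assoc, hK]
          push_cast
          ring

end Pool.Agent.LLog
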