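import Pool.Agent.KSP.All2
import Pool.Agent.LLog.EndK
import Pool.Agent.LLog.EndKE
import Pool.Agent.LLog.EndEtm
import Pool.Agent.LLog.EndSS
import Pool.Agent.LLog.EndDS
import Pool.Agent.LLog.EndFA0
import Pool.Agent.LLog.EndFA2

set_option autoImplicit false

/-! Everything that follows from the weak type bound `tW α` in the right sector. -/

namespace Pool.Agent.LLog

open Pool.Agent.KSP (pPlE pSobI pEt0 pPt fAH)

theorem eKE {α : ℕ} (h : tW α) : tKEw α := pKEw α (pKw α h)

theorem eSm {α : ℕ} (h : tW α) : tSmw α := pSmw α (pEtmw α pPlE (eKE h) pSobI) (pEt0 pPlE pSobI)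

theorem eSS {α : ℕ} (h : tW α) : tSSw α := pSSw α (eSm h)

/-- separated radii -/
theorem eDS {α : ℕ} (h : tW α) : tDSw α := pDSw α (eSS h) pPlE

theorem eFA0 {α : ℕ} (h : tW α) : tFA0w α := pFA0w α pPt (eSm h) fAH

/-- local maximal inequality -/
theorem eFA1 {α : ℕ} (h : tW α) : tFA1w α := pFA1w α (eFA0 h)

/-- almost everywhere convergence -/
theorem eFA2 {α : ℕ} (h : tW α) : tFA2w α := pFA2w α (eFA1 h)

theorem eFA3 {α : ℕ} (h : tW α) : tFA3w α := pFA3w α (eFA1 h)

end Pool.Agent.LLog
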