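import Pool.Agent.LLog.Targets
import Pool.Agent.KSP.Base

set_option autoImplicit false

/-! MP_ee701d_an, target `tFAR`: functions with far supports are almost orthogonal. -/

namespace Pool.Agent.LLog.FAR_

open MeasureTheory Set
open scoped ENNReal NNReal ComplexConjugate
open Pool.Agent.KSP (ee dot nr Ex Ex1 Bd Bd1 n1 n2 lg V0 ann)

lemma bd_conj {μ : ℝ × ℝ → ℂ} (h : Bd μ) : Bd (fun ξ => conj (μ ξ)) := by
  obtain ⟨hm, ⟨B, hB⟩, R, hR⟩ := h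
  refine ⟨Complex.continuous_conj.measurable.comp hm, ⟨B, fun ξ => ?_⟩, R, fun ξ hξ => hR ξ ?_⟩
  · simpa using hB ξ
  · intro h0
    exact hξ (by simp [h0])

lemma ee_conj (t : ℝ) : conj (ee t) = ee (-t) := by
  unfold ee
  rw [← Complex.exp_conj]
  congr 1
  have h2 : conj (2 : ℂ) = 2 := Complex.conj_ofNat 2
  simp only [map_mul, Complex.conj_I, Complex.conj_ofReal, h2, Complex.ofReal_neg]
  ring

lemma Ex_conj (μ : ℝ × ℝ → ℂ) (w : ℝ × ℝ) :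
    Ex (fun ξ => conj (μ ξ)) w = conj (Ex μ (-w)) := by
  unfold Ex
  rw [← integral_conj]
  refine integral_congr_ae (Filter.Eventually.of_forall fun ξ => ?_)
  have : dot (-w) ξ = -(dot w ξ) := by
    simp only [dot, Prod.fst_neg, Prod.snd_neg]; ring
  simp only [this, map_mul, ee_conj, neg_neg]

/-- the modulus of the kernel -/
noncomputable def Kr (μ : ℝ × ℝ → ℂ) (z : ℝ × ℝ) : ℝ≥0∞ := ‖Ex (fun ξ => conj (μ ξ)) z‖ₑ

lemma Kr_meas {μ : ℝ × ℝ → ℂ} (h : Bd μ) : Measurable (Kr μ) :=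
  (Pool.Agent.KSP.pPl2 _ (bd_conj h)).1.enorm.measurable

lemma Kr_neg (μ : ℝ × ℝ → ℂ) (z : ℝ × ℝ) : Kr μ z = ‖Ex μ (-z)‖ₑ := by
  unfold Kr
  rw [Ex_conj, RCLike.enorm_conj]

lemma Kr_int (μ : ℝ × ℝ → ℂ) (R : Set (ℝ × ℝ)) (hR : MeasurableSet R) (hs : ∀ z ∈ R, -z ∈ R) :
    ∫⁻ z, R.indicator (Kr μ) z = ∫⁻ z in R, ‖Ex μ z‖ₑ := by
  have h1 : ∀ z, R.indicator (Kr μ) z = R.indicator (fun z => ‖Ex μ z‖ₑ) (-z) := by
    intro z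
    by_cases hz : z ∈ R
    · rw [indicator_of_mem hz, indicator_of_mem (hs z hz), Kr_neg]
    · have hz' : -z ∉ R := fun h => hz (by simpa using hs _ h)
      rw [indicator_of_notMem hz, indicator_of_notMem hz']
  simp_rw [h1]
  rw [lintegral_neg_eq_self (fun z => R.indicator (fun z => ‖Ex μ z‖ₑ) z), lintegral_indicator hR]

/-- convolution with the restricted kernel -/
noncomputable def Nr (R : Set (ℝ × ℝ)) (μ u : ℝ × ℝ → ℂ) (x : ℝ × ℝ) : ℝ≥0∞ :=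
  ∫⁻ z, R.indicator (Kr μ) (x - z) * ‖u z‖ₑ

lemma Nr_meas {μ u : ℝ × ℝ → ℂ} {R : Set (ℝ × ℝ)} (hμ : Bd μ) (hu : Measurable u)
    (hR : MeasurableSet R) : Measurable (Nr R μ u) := by
  unfold Nr
  apply Measurable.lintegral_prod_right'
    (f := fun p : (ℝ × ℝ) × (ℝ × ℝ) => R.indicator (Kr μ) (p.1 - p.2) * ‖u p.2‖ₑ)
  exact (((Kr_meas hμ).indicator hR).comp (measurable_fst.sub measurable_snd)).mul
    (hu.comp measurable_snd).enorm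

lemma Nr_sq (hYNG : tYNG) {μ u : ℝ × ℝ → ℂ} {R : Set (ℝ × ℝ)} (hμ : Bd μ) (hu : Measurable u)
    (hR : MeasurableSet R) (hs : ∀ z ∈ R, -z ∈ R) :
    ∫⁻ x, Nr R μ u x ^ 2 ≤ (∫⁻ z in R, ‖Ex μ z‖ₑ) ^ 2 * ∫⁻ x, ‖u x‖ₑ ^ 2 := by
  have h := hYNG (R.indicator (Kr μ)) (fun z => ‖u z‖ₑ) univ univ univ
    ((Kr_meas hμ).indicator hR) hu.enorm MeasurableSet.univ MeasurableSet.univ
    MeasurableSet.univ (fun _ _ _ _ => mem_univ _)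
  simp only [Measure.restrict_univ] at h
  rw [Kr_int μ R hR hs] at h
  exact h

lemma Nr_split {μ u : ℝ × ℝ → ℂ} {R : Set (ℝ × ℝ)} (hμ : Bd μ) (hu : Measurable u)
    (hR : MeasurableSet R) (x : ℝ × ℝ) :
    Nr univ μ u x = Nr R μ u x + Nr Rᶜ μ u x := by
  unfold Nr
  rw [← lintegral_add_left]
  · refine lintegral_congr fun z => ?_
    rw [← add_mul]
    congr 1
    by_cases hz : x - z ∈ R
    · simp [hz]
    · simp [hz]
  · exact (((Kr_meas hμ).indicator hR).comp (measurable_const.sub measurable_id)).mul hu.enorm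

lemma Ex_le (hCVK : tCVK) {μ u : ℝ × ℝ → ℂ} (hμ : Bd μ) (hu : Bf u) (x : ℝ × ℝ) :
    ‖Ex (fun ξ => conj (μ ξ) * hat u ξ) x‖ₑ ≤ Nr univ μ u x := by
  rw [(hCVK _ (bd_conj hμ)).2 u hu x]
  refine (enorm_integral_le_lintegral_enorm _).trans (le_of_eq ?_)
  unfold Nr
  refine lintegral_congr fun z => ?_
  rw [enorm_mul]
  simp [Kr]

lemma bd_prod (hHAT : tHAT) {μ u : ℝ × ℝ → ℂ} (hμ : Bd μ) (hu : Bf u) :
    Bd (fun ξ => conj (μ ξ) * hat u ξ) := by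
  obtain ⟨hm, ⟨B, hB⟩, R, hR⟩ := bd_conj hμ
  obtain ⟨hc, ⟨B', hB'⟩, -, -⟩ := hHAT u hu
  refine ⟨hm.mul hc.measurable, ⟨B * B', fun ξ => ?_⟩, R, fun ξ hξ => hR ξ ?_⟩
  · rw [norm_mul]
    exact mul_le_mul (hB ξ) (hB' ξ) (norm_nonneg _) ((norm_nonneg _).trans (hB ξ))
  · exact left_ne_zero_of_mul hξ

lemma cs {f g : ℝ × ℝ → ℝ≥0∞} (hf : Measurable f) (hg : Measurable g) (a b U V : ℝ≥0∞)
    (h1 : ∫⁻ x, f x ^ 2 ≤ a ^ 2 * U) (h2 : ∫⁻ x, g x ^ 2 ≤ b ^ 2 * V) :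
    ∫⁻ x, f x * g x ≤ a * b * (U + V) := by
  have h := ENNReal.lintegral_mul_le_Lp_mul_Lq (volume : Measure (ℝ × ℝ))
    Real.HolderConjugate.two_two hf.aemeasurable hg.aemeasurable
  simp only [Pi.mul_apply, ENNReal.rpow_two] at h
  refine h.trans ?_
  have h1' : (∫⁻ x, f x ^ 2) ^ (1 / 2 : ℝ) ≤ a * U ^ (1 / 2 : ℝ) := by
    refine (ENNReal.rpow_le_rpow h1 (by norm_num)).trans (le_of_eq ?_)
    rw [ENNReal.mul_rpow_of_nonneg _ _ (by norm_num), ← ENNReal.rpow_two, ← ENNReal.rpow_mul]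
    norm_num
  have h2' : (∫⁻ x, g x ^ 2) ^ (1 / 2 : ℝ) ≤ b * V ^ (1 / 2 : ℝ) := by
    refine (ENNReal.rpow_le_rpow h2 (by norm_num)).trans (le_of_eq ?_)
    rw [ENNReal.mul_rpow_of_nonneg _ _ (by norm_num), ← ENNReal.rpow_two, ← ENNReal.rpow_mul]
    norm_num
  have h3 : U ^ (1 / 2 : ℝ) * V ^ (1 / 2 : ℝ) ≤ U + V := by
    calc U ^ (1 / 2 : ℝ) * V ^ (1 / 2 : ℝ) ≤ (U + V) ^ (1 / 2 : ℝ) * (U + V) ^ (1 / 2 : ℝ) := by
          gcongr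
          · exact le_self_add
          · exact le_add_self
      _ = U + V := by
          rw [← ENNReal.rpow_add_of_nonneg _ _ (by norm_num) (by norm_num)]
          norm_num
  calc (∫⁻ x, f x ^ 2) ^ (1 / 2 : ℝ) * (∫⁻ x, g x ^ 2) ^ (1 / 2 : ℝ)
      ≤ (a * U ^ (1 / 2 : ℝ)) * (b * V ^ (1 / 2 : ℝ)) := mul_le_mul' h1' h2'
    _ = a * b * (U ^ (1 / 2 : ℝ) * V ^ (1 / 2 : ℝ)) := by ring
    _ ≤ a * b * (U + V) := by gcongr

end Pool.Agent.LLog.FAR_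

namespace Pool.Agent.LLog

open MeasureTheory Set
open scoped ENNReal NNReal ComplexConjugate
open Pool.Agent.KSP (ee dot nr Ex Ex1 Bd Bd1 n1 n2 lg V0 ann)
open FAR_

theorem pFAR (hCVK : tCVK) (hHAT : tHAT) (hYNG : tYNG) : tFAR := by
  intro μ1 μ2 u1 u2 R1 R2 hμ1 hμ2 hu1 hu2 hR1 hR2 hs1 hs2 hfar
  have hb1 := bd_prod hHAT hμ1 hu1
  have hb2 := bd_prod hHAT hμ2 hu2
  have hs1' : ∀ z ∈ R1ᶜ, -z ∈ R1ᶜ := fun z hz h => hz (by simpa using hs1 _ h)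
  have hs2' : ∀ z ∈ R2ᶜ, -z ∈ R2ᶜ := fun z hz h => hz (by simpa using hs2 _ h)
  rw [← (Pool.Agent.KSP.pPo2 _ _ hb1 hb2).2]
  have hm1 := hu1.1
  have hm2 := hu2.1
  -- near parts have disjoint supports
  have hnear : ∀ x, Nr R1 μ1 u1 x * Nr R2 μ2 u2 x = 0 := by
    intro x
    by_contra hne
    have hn1 : Nr R1 μ1 u1 x ≠ 0 := left_ne_zero_of_mul hne
    have hn2 : Nr R2 μ2 u2 x ≠ 0 := right_ne_zero_of_mul hne
    have e1 : ∃ z, u1 z ≠ 0 ∧ x - z ∈ R1 := by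
      by_contra hcon
      push Not at hcon
      apply hn1
      unfold Nr
      rw [lintegral_eq_zero_iff' ?_]
      · refine Filter.Eventually.of_forall fun z => ?_
        by_cases hz : u1 z = 0
        · simp [hz]
        · simp [hcon z hz]
      · exact ((((Kr_meas hμ1).indicator hR1).comp (measurable_const.sub measurable_id)).mul
          hm1.enorm).aemeasurable
    have e2 : ∃ z, u2 z ≠ 0 ∧ x - z ∈ R2 := by
      by_contra hcon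
      push Not at hcon
      apply hn2
      unfold Nr
      rw [lintegral_eq_zero_iff' ?_]
      · refine Filter.Eventually.of_forall fun z => ?_
        by_cases hz : u2 z = 0
        · simp [hz]
        · simp [hcon z hz]
      · exact ((((Kr_meas hμ2).indicator hR2).comp (measurable_const.sub measurable_id)).mul
          hm2.enorm).aemeasurable
    obtain ⟨z, hz1, hz2⟩ := e1
    obtain ⟨w, hw1, hw2⟩ := e2
    refine hfar z w (-(x - z)) (x - w) hz1 hw1 (hs1 _ hz2) hw2 ?_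
    abel
  have hpt : ∀ x, ‖Ex (fun ξ => conj (μ1 ξ) * hat u1 ξ) x *
      conj (Ex (fun ξ => conj (μ2 ξ) * hat u2 ξ) x)‖ₑ ≤
      Nr R1ᶜ μ1 u1 x * Nr univ μ2 u2 x + Nr univ μ1 u1 x * Nr R2ᶜ μ2 u2 x := by
    intro x
    rw [enorm_mul, RCLike.enorm_conj]
    refine (mul_le_mul' (Ex_le hCVK hμ1 hu1 x) (Ex_le hCVK hμ2 hu2 x)).trans ?_
    have s1 := Nr_split hμ1 hm1 hR1 x
    have s2 := Nr_split hμ2 hm2 hR2 x
    calc Nr univ μ1 u1 x * Nr univ μ2 u2 x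
        = Nr R1ᶜ μ1 u1 x * Nr univ μ2 u2 x + Nr R1 μ1 u1 x * Nr univ μ2 u2 x := by
          rw [← add_mul, add_comm (Nr R1ᶜ μ1 u1 x), ← s1]
      _ = Nr R1ᶜ μ1 u1 x * Nr univ μ2 u2 x + Nr R1 μ1 u1 x * Nr R2ᶜ μ2 u2 x := by
          congr 1
          rw [s2, mul_add, hnear x, zero_add]
      _ ≤ _ := by
          gcongr
          rw [s1]
          exact le_self_add
  have hsu : ∀ z ∈ (univ : Set (ℝ × ℝ)), -z ∈ (univ : Set (ℝ × ℝ)) := fun _ _ => mem_univ _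
  have c1 : ∫⁻ x, Nr R1ᶜ μ1 u1 x * Nr univ μ2 u2 x ≤
      (∫⁻ z in R1ᶜ, ‖Ex μ1 z‖ₑ) * (∫⁻ z, ‖Ex μ2 z‖ₑ) *
        ((∫⁻ x, ‖u1 x‖ₑ ^ 2) + ∫⁻ x, ‖u2 x‖ₑ ^ 2) := by
    refine cs (Nr_meas hμ1 hm1 hR1.compl) (Nr_meas hμ2 hm2 MeasurableSet.univ) _ _ _ _
      (Nr_sq hYNG hμ1 hm1 hR1.compl hs1') ?_
    have := Nr_sq hYNG hμ2 hm2 MeasurableSet.univ hsu
    rwa [Measure.restrict_univ] at this
  have c2 : ∫⁻ x, Nr univ μ1 u1 x * Nr R2ᶜ μ2 u2 x ≤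
      (∫⁻ z, ‖Ex μ1 z‖ₑ) * (∫⁻ z in R2ᶜ, ‖Ex μ2 z‖ₑ) *
        ((∫⁻ x, ‖u1 x‖ₑ ^ 2) + ∫⁻ x, ‖u2 x‖ₑ ^ 2) := by
    refine cs (Nr_meas hμ1 hm1 MeasurableSet.univ) (Nr_meas hμ2 hm2 hR2.compl) _ _ _ _ ?_
      (Nr_sq hYNG hμ2 hm2 hR2.compl hs2')
    have := Nr_sq hYNG hμ1 hm1 MeasurableSet.univ hsu
    rwa [Measure.restrict_univ] at this
  calc _ ≤ ∫⁻ x, ‖Ex (fun ξ => conj (μ1 ξ) * hat u1 ξ) x *
      conj (Ex (fun ξ => conj (μ2 ξ) * hat u2 ξ) x)‖ₑ := enorm_integral_le_lintegral_enorm _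
    _ ≤ ∫⁻ x, (Nr R1ᶜ μ1 u1 x * Nr univ μ2 u2 x + Nr univ μ1 u1 x * Nr R2ᶜ μ2 u2 x) :=
        lintegral_mono hpt
    _ = (∫⁻ x, Nr R1ᶜ μ1 u1 x * Nr univ μ2 u2 x) + ∫⁻ x, Nr univ μ1 u1 x * Nr R2ᶜ μ2 u2 x :=
        lintegral_add_left ((Nr_meas hμ1 hm1 hR1.compl).mul
          (Nr_meas hμ2 hm2 MeasurableSet.univ)) _
    _ ≤ _ := by
        rw [add_mul]
        exact add_le_add c1 c2

end Pool.Agent.LLog
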