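import Pool.Agent.LLog.Targets

set_option autoImplicit false

namespace Pool.Agent.LLog.FOK_

open MeasureTheory Set
open Pool.Agent.LLog

lemma Qx_mono (a : ℕ) (z0 : ℝ × ℝ) {e e' : ℕ} (h : e ≤ e') {x y : ℝ × ℝ}
    (hxy : Qx a z0 e x = Qx a z0 e y) : Qx a z0 e' x = Qx a z0 e' y := by
  obtain ⟨k, rfl⟩ := Nat.exists_eq_add_of_le h
  have hs : sd a (e + k) = sd a e * ((2 ^ k : ℕ) : ℝ) := by
    unfold sd
    push_cast
    rw [← pow_add]
    congr 1
    omega
  have key : ∀ u : ℝ, ⌊u / sd a (e + k)⌋ = ⌊u / sd a e⌋ / ((2 ^ k : ℕ) : ℤ) := by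
    intro u
    rw [hs, ← div_div, Int.floor_div_natCast]
  unfold Qx at hxy ⊢
  rw [Prod.mk.injEq] at hxy
  rw [key, key, key, key, hxy.1, hxy.2]

lemma Sb_congr (a : ℕ) (z0 : ℝ × ℝ) (T : Finset Top) {e : ℕ} {x y : ℝ × ℝ}
    (hxy : Qx a z0 e x = Qx a z0 e y) (i b : ℕ) :
    Sb (TX a z0 T x) i e b = Sb (TX a z0 T y) i e b := by
  classical
  ext t
  simp only [Sb, TX, Finset.mem_filter]
  constructor
  · rintro ⟨⟨h1, h2⟩, h3, h4⟩
    exact ⟨⟨h1, by rw [← Qx_mono a z0 h3 hxy]; exact h2⟩, h3, h4⟩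
  · rintro ⟨⟨h1, h2⟩, h3, h4⟩
    exact ⟨⟨h1, by rw [Qx_mono a z0 h3 hxy]; exact h2⟩, h3, h4⟩

lemma lt_be (s l : ℕ) (hl : 1 ≤ l) : l ≤ be s l := by
  unfold be bi
  have h := Nat.lt_mul_div_succ (l - 1) (Nat.two_pow_pos s)
  rw [Nat.mul_add, Nat.mul_one] at h
  omega

lemma be_mono (s : ℕ) {l l' : ℕ} (h : l ≤ l') : be s l ≤ be s l' := by
  unfold be bi
  have h1 : (l - 1) / 2 ^ s ≤ (l' - 1) / 2 ^ s := Nat.div_le_div_right (by omega)
  have h2 := Nat.mul_le_mul_left (2 ^ s) h1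
  omega

end Pool.Agent.LLog.FOK_

namespace Pool.Agent.LLog

open Pool.Agent.LLog.FOK_

theorem pFOK : tFOK := by
  classical
  intro a m z0 T pr hPA
  constructor
  · intro s
    refine ⟨?_, ?_, ?_, ?_⟩
    · intro l hl
      simp only [famB, Finset.mem_filter, Finset.mem_Ioc] at hl ⊢
      have := lt_be s l (by omega)
      omega
    · intro l _ l' _ hll
      exact be_mono s hll
    · intro l hl c x y hxy hE
      simp only [famB] at hxy hE ⊢
      unfold EvB at hE ⊢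
      rw [← Sb_congr a z0 T hxy]
      exact hE
    · intro l hl c x hE
      simp only [famB, Finset.mem_filter, Finset.mem_Ioc] at hl hE ⊢
      obtain ⟨t, ht, ht2, _⟩ := hE
      have ht1 := ht.1
      simp only [Sb, Finset.mem_filter] at ht1
      have := lt_be s l (by omega)
      exact ⟨t, ht1.1, ht1.2.1, by omega, ht2⟩
  · refine ⟨?_, ?_, ?_, ?_⟩
    · intro l hl
      simp only [famC, Finset.mem_Ioc] at hl ⊢
      omega
    · intro l _ l' _ hll
      simp only [famC]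
      omega
    · intro l hl c x y hxy hE
      simp only [famC] at hxy hE ⊢
      unfold EvC at hE ⊢
      rw [← Sb_congr a z0 T hxy]
      exact hE
    · intro l hl c x hE
      simp only [famC, Finset.mem_Ioc] at hl hE ⊢
      obtain ⟨t, ht, _⟩ := hE
      have ht1 := ht.1
      simp only [Sb, Finset.mem_filter] at ht1
      exact ⟨t, ht1.1, ht1.2.1, ht1.2.1, ht1.2.2.2⟩

end Pool.Agent.LLog
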