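import Pool.Agent.LLog.H21Frame

set_option autoImplicit false

namespace Pool.Agent.LLog

open MeasureTheory Set
open scoped ENNReal NNReal ComplexConjugate
open Pool.Agent.KSP (ee dot nr Ex Ex1 Bd Bd1 n1 n2 lg V0 ann)

namespace FRM_

open Pool.Agent.KSP.Conv_ H21Frame_

/-- The integrand. -/
theorem meas_int {h : ℝ × ℝ → ℂ} (hh : Bd h) (t : ℝ) :
    Measurable fun p : (ℝ × ℝ) × ℝ => h (p.1.2 • nv t + p.2 • tv t) * ee (p.1.1 * p.2) := by
  refine (hh.1.comp ?_).mul (cont_ee.measurable.comp ?_)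
  · exact ((measurable_snd.comp measurable_fst).smul_const _).add
      (measurable_snd.smul_const _)
  · exact (measurable_fst.comp measurable_fst).mul measurable_snd

theorem meas_Hs {h : ℝ × ℝ → ℂ} (hh : Bd h) (t : ℝ) :
    Measurable fun P : ℝ × ℝ => Hs t h P.1 P.2 :=
  ((meas_int hh t).stronglyMeasurable.integral_prod_right' (ν := (volume : Measure ℝ))).measurable

/-- The slices. -/
theorem slice {h : ℝ × ℝ → ℂ} (hh : Bd h) (t : ℝ) (ζ : ℝ) :
    Bd1 fun z => h (ζ • nv t + z • tv t) := by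
  obtain ⟨hm, ⟨B, hB⟩, R, hR⟩ := bd_F hh t
  refine ⟨hm.comp (measurable_const.prodMk measurable_id), ⟨B, fun z => hB (ζ, z)⟩, R,
    fun z hz => (hR (ζ, z) hz).2⟩

theorem Hs_eq (t : ℝ) (h : ℝ × ℝ → ℂ) (y ζ : ℝ) :
    Hs t h y ζ = Ex1 (fun z => h (ζ • nv t + z • tv t)) y := rfl

theorem bd1_Hs {h : ℝ × ℝ → ℂ} (hh : Bd h) (t y : ℝ) : Bd1 (Hs t h y) := by
  obtain ⟨hm, ⟨B, hB⟩, R, hR⟩ := bd_F hh t
  have hz : ∀ ζ z : ℝ, z ∉ Icc (-R) R → h (ζ • nv t + z • tv t) * ee (y * z) = 0 := by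
    intro ζ z hz
    by_contra hne
    apply hz
    have h1 : h (F t (ζ, z)) ≠ 0 := by
      intro h0
      apply hne
      have h2 : h (ζ • nv t + z • tv t) = 0 := h0
      rw [h2, zero_mul]
    exact abs_le.mp (hR (ζ, z) h1).2
  refine ⟨(meas_Hs hh t).comp (measurable_const.prodMk measurable_id),
    ⟨B * (volume (Icc (-R) R)).toReal, fun ζ => ?_⟩, R, fun ζ hζ => ?_⟩
  · have h1 : Hs t h y ζ = ∫ z in Icc (-R) R, h (ζ • nv t + z • tv t) * ee (y * z) :=
      (setIntegral_eq_integral_of_forall_compl_eq_zero (hz ζ)).symm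
    rw [h1]
    refine norm_setIntegral_le_of_norm_le_const isCompact_Icc.measure_lt_top fun z _ => ?_
    rw [norm_mul, norm_ee, mul_one]
    exact hB (ζ, z)
  · by_contra hcon
    apply hζ
    unfold Hs
    have h1 : (fun z => h (ζ • nv t + z • tv t) * ee (y * z)) = fun _ => 0 := by
      funext z
      have h2 : h (ζ • nv t + z • tv t) = 0 := by
        by_contra hne
        exact hcon (hR (ζ, z) hne).1
      rw [h2, zero_mul]
    rw [h1, integral_zero]

theorem Ex_slice {h : ℝ × ℝ → ℂ} (hh : Bd h) (t s y : ℝ) :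
    Ex h (s • nv t + y • tv t) = Ex1 (Hs t h y) s := by
  unfold Ex
  rw [int_F t]
  have h1 : ∀ P : ℝ × ℝ, dot (s • nv t + y • tv t) (F t P) = s * P.1 + y * P.2 := by
    intro P
    rw [dot_frame t, (dot_F t s y).1, (dot_F t s y).2, dot_F1, dot_F2]
  have hint : Integrable (fun P : ℝ × ℝ => h (F t P) * ee (s * P.1 + y * P.2))
      ((volume : Measure ℝ).prod volume) := by
    refine (Bd_int (bd_F hh t)).mul_bdd (c := 1) ?_ ?_
    · exact (cont_ee.comp (by fun_prop)).aestronglyMeasurable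
    · exact Filter.Eventually.of_forall fun p => (norm_ee _).le
  have h2 : ∫ P, h (F t P) * ee (dot (s • nv t + y • tv t) (F t P)) =
      ∫ P, h (F t P) * ee (s * P.1 + y * P.2) ∂((volume : Measure ℝ).prod volume) := by
    apply integral_congr_ae
    exact Filter.Eventually.of_forall fun P => by simp only [h1]
  rw [h2, integral_prod _ hint]
  unfold Ex1 Hs
  apply integral_congr_ae
  refine Filter.Eventually.of_forall fun ζ => ?_
  simp only
  rw [← integral_mul_const]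
  apply integral_congr_ae
  refine Filter.Eventually.of_forall fun z => ?_
  simp only [ee_add, F]
  ring

theorem norm_slice {h : ℝ × ℝ → ℂ} (hh : Bd h) (t : ℝ) : ∫⁻ y, n1 (Hs t h y) = n2 h := by
  unfold n1
  have hm : Measurable (Function.uncurry fun y ζ : ℝ => ‖Hs t h y ζ‖ₑ ^ 2) :=
    (meas_Hs hh t).enorm.pow_const 2
  rw [lintegral_lintegral_swap hm.aemeasurable]
  have h1 : ∀ ζ, ∫⁻ y, ‖Hs t h y ζ‖ₑ ^ 2 = ∫⁻ z, ‖h (F t (ζ, z))‖ₑ ^ 2 := by
    intro ζ
    exact (Pool.Agent.KSP.pPl1 _ (slice hh t ζ)).2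
  simp only [h1]
  unfold n2
  rw [lint_F t]
  have hm2 : Measurable fun P : ℝ × ℝ => ‖h (F t P)‖ₑ ^ 2 :=
    ((bd_F hh t).1.enorm).pow_const 2
  exact (lintegral_prod _ hm2.aemeasurable).symm

end FRM_

open FRM_ H21Frame_ in
theorem pFRM : tFRM := by
  intro t
  refine ⟨dot_frame t, eq_frame t, dot_F t, ?_, ?_⟩
  · intro G hG
    rw [lint_F t]
    exact lintegral_prod_symm _ (hG.comp (F_cont t).measurable).aemeasurable
  · intro h hh
    exact ⟨bd1_Hs hh t, meas_Hs hh t, Ex_slice hh t, norm_slice hh t⟩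

end Pool.Agent.LLog
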