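import Pool.Agent.LLog.Targets

set_option autoImplicit false

/-!
# MP_ee701d_an, GEO: plane geometry of a cap (direction, curvature)
-/

namespace Pool.Agent.LLog

open MeasureTheory Set
open scoped ENNReal NNReal ComplexConjugate
open Pool.Agent.KSP (ee dot nr Ex Ex1 Bd Bd1 n1 n2 lg V0 ann)

namespace GEO

lemma Nn_sq (t : ℝ) : Nn t ^ 2 = 1 + t ^ 2 := by
  unfold Nn
  exact Real.sq_sqrt (by positivity)

lemma Nn_pos (t : ℝ) : 0 < Nn t := by
  unfold Nn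
  exact Real.sqrt_pos.2 (by positivity)

lemma one_le_Nn (t : ℝ) : 1 ≤ Nn t := by
  unfold Nn
  exact Real.one_le_sqrt.2 (by nlinarith [sq_nonneg t])

lemma dot_nv (t : ℝ) (ξ : ℝ × ℝ) : dot ξ (nv t) = (ξ.1 + t * ξ.2) / Nn t := by
  unfold dot nv
  have := (Nn_pos t).ne'
  field_simp

lemma dot_tv (t : ℝ) (ξ : ℝ × ℝ) : dot ξ (tv t) = (ξ.2 - t * ξ.1) / Nn t := by
  unfold dot tv
  have := (Nn_pos t).ne'
  field_simp
  ring

lemma nr_nonneg (ξ : ℝ × ℝ) : 0 ≤ nr ξ := Real.sqrt_nonneg _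

lemma nr_sq (t : ℝ) (ξ : ℝ × ℝ) : nr ξ ^ 2 = dot ξ (nv t) ^ 2 + dot ξ (tv t) ^ 2 := by
  rw [dot_nv, dot_tv, div_pow, div_pow, Nn_sq]
  unfold nr
  rw [Real.sq_sqrt (by positivity)]
  have : (1 + t ^ 2) ≠ 0 := by positivity
  field_simp
  ring

/-- direct part -/
lemma direct (t P : ℝ) (hP : 1024 ≤ P) (ht1 : -2 ≤ t) (ht2 : t < 2) (ξ : ℝ × ℝ) (hx : 0 < ξ.1)
    (D : ℝ) (hD : ξ.2 / ξ.1 = t + D) (hD0 : 0 ≤ D) (hD1 : P * D < 1) :
    0 < dot ξ (nv t) ∧ 0 ≤ dot ξ (tv t) ∧ dot ξ (nv t) ≤ nr ξ ∧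
      nr ξ ≤ dot ξ (nv t) + nr ξ / P ^ 2 ∧
      |Nn t ^ 2 * P * (dot ξ (tv t) / dot ξ (nv t)) - P * D| ≤ 3 / P := by
  have hP0 : 0 < P := by linarith
  have hNp := Nn_pos t
  have hN1 := one_le_Nn t
  have hy : ξ.2 = ξ.1 * (t + D) := by
    rw [← hD]; field_simp
  have hDs : D < 1 / 1024 := by
    by_contra h
    push Not at h
    have : 1 ≤ P * D := by nlinarith
    linarith
  set K := 1 + t ^ 2 + t * D with hK
  have hKpos : 3 / 4 ≤ K := by nlinarith [sq_nonneg (t + D / 2)]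
  have hnv : dot ξ (nv t) = ξ.1 * K / Nn t := by
    rw [dot_nv, hy, hK]; ring
  have htv : dot ξ (tv t) = ξ.1 * D / Nn t := by
    rw [dot_tv, hy]; ring
  have h1 : 0 < dot ξ (nv t) := by rw [hnv]; positivity
  have h2 : 0 ≤ dot ξ (tv t) := by rw [htv]; positivity
  have hsq := nr_sq t ξ
  have hn0 := nr_nonneg ξ
  have h3 : dot ξ (nv t) ≤ nr ξ := by
    apply le_of_sq_le_sq _ hn0
    rw [hsq]; nlinarith [sq_nonneg (dot ξ (tv t))]
  have hx1 : ξ.1 ≤ nr ξ := by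
    unfold nr
    apply Real.le_sqrt_of_sq_le
    nlinarith [sq_nonneg ξ.2]
  have h4 : dot ξ (tv t) ≤ nr ξ / P := by
    rw [htv, div_le_div_iff₀ hNp hP0]
    have a1 : ξ.1 * D * P ≤ ξ.1 := by nlinarith
    have a2 : ξ.1 ≤ nr ξ * Nn t := by nlinarith
    linarith
  refine ⟨h1, h2, h3, ?_, ?_⟩
  · by_cases hz : nr ξ = 0
    · rw [hz]; simp; exact h1.le
    have hn : 0 < nr ξ := lt_of_le_of_ne hn0 (Ne.symm hz)
    have h5 : dot ξ (tv t) ^ 2 ≤ nr ξ ^ 2 / P ^ 2 := by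
      rw [← div_pow]
      exact pow_le_pow_left₀ h2 h4 2
    have h6 : nr ξ * (nr ξ - dot ξ (nv t)) ≤ nr ξ * (nr ξ / P ^ 2) := by
      have : nr ξ * (nr ξ / P ^ 2) = nr ξ ^ 2 / P ^ 2 := by ring
      rw [this]
      nlinarith
    have h7 := le_of_mul_le_mul_left h6 hn
    linarith
  · have h5 : Nn t ^ 2 * P * (dot ξ (tv t) / dot ξ (nv t)) - P * D = -(P * D * (t * D) / K) := by
      rw [hnv, htv, Nn_sq]
      have hK0 : K ≠ 0 := by positivity
      have : ξ.1 * D / Nn t / (ξ.1 * K / Nn t) = D / K := by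
        field_simp
      rw [this]
      have h8 : 1 + t ^ 2 = K - t * D := by rw [hK]; ring
      rw [h8]
      field_simp
      ring
    rw [h5, abs_neg, abs_div, abs_of_pos (by positivity : 0 < K), div_le_div_iff₀ (by positivity)
      hP0, abs_mul, abs_of_nonneg (by positivity : 0 ≤ P * D), abs_mul, abs_of_nonneg hD0]
    have ht : |t| ≤ 2 := abs_le.2 ⟨ht1, ht2.le⟩
    have a1 : P * D * (|t| * D) * P = (P * D) * (P * D) * |t| := by ring
    rw [a1]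
    have a2 : (P * D) * (P * D) ≤ 1 := by
      have : 0 ≤ P * D := by positivity
      nlinarith
    have a3 : (P * D) * (P * D) * |t| ≤ 1 * 2 := by
      apply mul_le_mul a2 ht (abs_nonneg _) (by norm_num)
    linarith

/-- converse part -/
lemma converse (t P : ℝ) (hP : 1024 ≤ P) (ξ : ℝ × ℝ) (hu : 0 < dot ξ (nv t))
    (h1 : 3 / P < Nn t ^ 2 * P * (dot ξ (tv t) / dot ξ (nv t)))
    (h2 : Nn t ^ 2 * P * (dot ξ (tv t) / dot ξ (nv t)) < 1 - 3 / P) :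
    0 < ξ.1 ∧ 0 ≤ P * (ξ.2 / ξ.1 - t) ∧ P * (ξ.2 / ξ.1 - t) < 1 := by
  have hP0 : 0 < P := by linarith
  have hNp := Nn_pos t
  set u := dot ξ (nv t) with hudef
  set T := dot ξ (tv t) / u with hT
  set y := Nn t ^ 2 * P * T with hy
  have htv : dot ξ (tv t) = u * T := by rw [hT]; field_simp
  have hP3 : 0 < 3 / P := by positivity
  have hy0 : 0 < y := by linarith
  have hu' : u = (ξ.1 + t * ξ.2) / Nn t := dot_nv t ξ
  have htv' : u * T = (ξ.2 - t * ξ.1) / Nn t := by rw [← htv]; exact dot_tv t ξ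
  have e1 : ξ.1 + t * ξ.2 = u * Nn t := by rw [hu']; field_simp
  have e2 : ξ.2 - t * ξ.1 = u * T * Nn t := by rw [htv']; field_simp
  have hN2 := Nn_sq t
  have hT0 : y = (1 + t ^ 2) * P * T := by rw [hy, hN2]
  have hTpos : 0 < T := by
    by_contra h
    push Not at h
    have : (1 + t ^ 2) * P * T ≤ 0 := by
      apply mul_nonpos_of_nonneg_of_nonpos (by positivity) h
    linarith
  -- |t T| ≤ y / (2 P)
  have htT : 2 * P * |t * T| ≤ y := by
    rw [abs_mul, abs_of_pos hTpos, hT0]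
    have : 2 * |t| ≤ 1 + t ^ 2 := by
      nlinarith [sq_nonneg (|t| - 1), sq_abs t]
    have h3 : 0 ≤ P * T := by positivity
    nlinarith
  have hy1 : y < 1 := by linarith
  have htT2 : |t * T| ≤ 1 / 2048 := by
    by_contra h
    push Not at h
    have : 1 ≤ 2 * P * |t * T| := by nlinarith
    linarith
  have hlt := abs_le.1 htT2
  have hden : 0 < 1 - t * T := by linarith [hlt.2]
  have e3 : ξ.1 * (1 + t ^ 2) = u * Nn t * (1 - t * T) := by
    have : ξ.1 * (1 + t ^ 2) = (ξ.1 + t * ξ.2) - t * (ξ.2 - t * ξ.1) := by ring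
    rw [this, e1, e2]; ring
  have hx : 0 < ξ.1 := by
    have h3 : 0 < ξ.1 * (1 + t ^ 2) := by rw [e3]; positivity
    exact (mul_pos_iff_of_pos_right (by positivity)).1 h3
  have e4 : ξ.2 / ξ.1 - t = T * (1 + t ^ 2) / (1 - t * T) := by
    have : ξ.2 / ξ.1 - t = (ξ.2 - t * ξ.1) / ξ.1 := by field_simp
    rw [this, e2, div_eq_div_iff hx.ne' hden.ne']
    have e5 : T * (1 + t ^ 2) * ξ.1 = T * (ξ.1 * (1 + t ^ 2)) := by ring
    rw [e5, e3]; ring
  have e6 : P * (ξ.2 / ξ.1 - t) = y / (1 - t * T) := by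
    rw [e4, hT0]; field_simp
  refine ⟨hx, ?_, ?_⟩
  · rw [e6]; positivity
  · rw [e6, div_lt_one hden]
    -- y < 1 - t T
    have h3 : |t * T| ≤ y / (2 * P) := by
      rw [le_div_iff₀ (by positivity)]; linarith
    have h4 : t * T ≤ |t * T| := le_abs_self _
    have h5 : y / (2 * P) < 3 / P := by
      rw [div_lt_div_iff₀ (by positivity) hP0]
      nlinarith
    linarith

end GEO

open GEO in
theorem pGEO : tGEO := by
  intro sl j p hs1 hs2 hj hp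
  have hPpos : (0 : ℝ) < 2 ^ j := by positivity
  have hP : (1024 : ℝ) ≤ 2 ^ j := by
    calc (1024 : ℝ) = 2 ^ 10 := by norm_num
      _ ≤ 2 ^ j := pow_le_pow_right₀ (by norm_num) hj
  have hpr : (p : ℝ) < 3 * 2 ^ j := by exact_mod_cast hp
  have hp0 : (0 : ℝ) ≤ p := by positivity
  have ht1 : -2 ≤ tp sl j p := by
    unfold tp
    have : 0 ≤ (p : ℝ) / 2 ^ j := by positivity
    linarith
  have ht2 : tp sl j p < 2 := by
    unfold tp
    have : (p : ℝ) / 2 ^ j < 3 := by rw [div_lt_iff₀ hPpos]; exact hpr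
    linarith
  have h4 : (4 : ℝ) ^ j = (2 ^ j) ^ 2 := by
    rw [← pow_mul, mul_comm, pow_mul]; norm_num
  have hid : ∀ ξ : ℝ × ℝ, (2 : ℝ) ^ j * (ξ.2 / ξ.1 - tp sl j p) =
      2 ^ j * (ξ.2 / ξ.1 + sl) - p := by
    intro ξ
    unfold tp
    have : (2 : ℝ) ^ j * ((p : ℝ) / 2 ^ j) = p := by field_simp
    linear_combination -this
  refine ⟨⟨ht1, ht2⟩, ?_, ?_⟩
  · rintro ξ ⟨hx, hc1, hc2⟩
    have hD0 : 0 ≤ ξ.2 / ξ.1 - tp sl j p := by
      have h : 0 ≤ (2 : ℝ) ^ j * (ξ.2 / ξ.1 - tp sl j p) := by rw [hid]; linarith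
      exact nonneg_of_mul_nonneg_right h hPpos
    have hD1 : (2 : ℝ) ^ j * (ξ.2 / ξ.1 - tp sl j p) < 1 := by rw [hid]; linarith
    have h := direct (tp sl j p) (2 ^ j) hP ht1 ht2 ξ hx (ξ.2 / ξ.1 - tp sl j p) (by ring) hD0 hD1
    rw [h4, ← hid ξ]
    exact h
  · intro ξ hu h1 h2
    obtain ⟨hx, ha, hb⟩ := converse (tp sl j p) (2 ^ j) hP ξ hu h1 h2
    rw [hid] at ha hb
    exact ⟨hx, by linarith, by linarith⟩

end Pool.Agent.LLog
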