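import Pool.Agent.LLog.Targets

set_option autoImplicit false

/-! MP_ee701d_an: the weights `GK`. -/

namespace Pool.Agent.LLog

open MeasureTheory Set
open scoped ENNReal NNReal ComplexConjugate
open Pool.Agent.KSP (ee dot nr Ex Ex1 Bd Bd1 n1 n2 lg V0 ann)

namespace GK_

/-- product kernel -/
noncomputable def K2 (k : ℝ → ℝ) (z : ℝ × ℝ) : ℝ≥0∞ := ENNReal.ofReal (k z.1 * k z.2)

lemma K2_eq {k : ℝ → ℝ} (hk : ∀ t, 0 ≤ k t) (z : ℝ × ℝ) :
    K2 k z = ENNReal.ofReal (k z.1) * ENNReal.ofReal (k z.2) :=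
  ENNReal.ofReal_mul (hk _)

lemma K2_meas {k : ℝ → ℝ} (hc : Continuous k) : Measurable (K2 k) := by
  unfold K2
  have : Continuous fun z : ℝ × ℝ => k z.1 * k z.2 := by fun_prop
  exact ENNReal.measurable_ofReal.comp this.measurable

lemma K2_prod {k : ℝ → ℝ} (hk : ∀ t, 0 ≤ k t) (hc : Continuous k) (S T : Set ℝ) :
    ∫⁻ z in S ×ˢ T, K2 k z =
      (∫⁻ t in S, ENNReal.ofReal (k t)) * ∫⁻ t in T, ENNReal.ofReal (k t) := by
  have h1 : Measurable fun t => ENNReal.ofReal (k t) :=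
    ENNReal.measurable_ofReal.comp hc.measurable
  rw [Measure.volume_eq_prod, ← Measure.prod_restrict,
    ← lintegral_prod_mul h1.aemeasurable h1.aemeasurable]
  exact lintegral_congr fun z => K2_eq hk z

lemma K2_one {k : ℝ → ℝ} (hk : ∀ t, 0 ≤ k t) (hc : Continuous k)
    (h1 : ∫⁻ t, ENNReal.ofReal (k t) = 1) : ∫⁻ z, K2 k z = 1 := by
  have := K2_prod hk hc univ univ
  simpa [h1] using this

lemma K2_tail {k : ℝ → ℝ} (hk : ∀ t, 0 ≤ k t) (hc : Continuous k)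
    (h1 : ∫⁻ t, ENNReal.ofReal (k t) = 1) {R ρ : ℝ} {ε : ℝ≥0∞} (hR : R ≤ ρ)
    (h2 : ∫⁻ t in {t : ℝ | R < |t|}, ENNReal.ofReal (k t) ≤ ε) :
    ∫⁻ z in {z : ℝ × ℝ | ¬ (|z.1| ≤ ρ ∧ |z.2| ≤ ρ)}, K2 k z ≤ 2 * ε := by
  have h3 : {z : ℝ × ℝ | ¬ (|z.1| ≤ ρ ∧ |z.2| ≤ ρ)} ⊆
      ({t : ℝ | R < |t|} ×ˢ univ) ∪ (univ ×ˢ {t : ℝ | R < |t|}) := by
    intro z hz
    simp only [mem_ofPred_eq, not_and_or, not_le] at hz
    rcases hz with hz | hz
    · left
      exact ⟨lt_of_le_of_lt hR hz, mem_univ _⟩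
    · right
      exact ⟨mem_univ _, lt_of_le_of_lt hR hz⟩
  calc ∫⁻ z in {z : ℝ × ℝ | ¬ (|z.1| ≤ ρ ∧ |z.2| ≤ ρ)}, K2 k z
      ≤ ∫⁻ z in ({t : ℝ | R < |t|} ×ˢ univ) ∪ (univ ×ˢ {t : ℝ | R < |t|}), K2 k z :=
        lintegral_mono_set h3
    _ ≤ (∫⁻ z in ({t : ℝ | R < |t|} ×ˢ univ), K2 k z) +
          ∫⁻ z in (univ ×ˢ {t : ℝ | R < |t|}), K2 k z := lintegral_union_le _ _ _
    _ ≤ ε + ε := by
        rw [K2_prod hk hc, K2_prod hk hc, Measure.restrict_univ, h1, mul_one, one_mul]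
        exact add_le_add h2 h2
    _ = 2 * ε := (two_mul ε).symm

lemma shift (F : ℝ × ℝ → ℝ≥0∞) (x : ℝ × ℝ) : ∫⁻ y, F (x - y) = ∫⁻ y, F y :=
  lintegral_sub_left_eq_self F x

lemma shift_set {F : ℝ × ℝ → ℝ≥0∞} (x : ℝ × ℝ) (A B : Set (ℝ × ℝ)) (hA : MeasurableSet A)
    (hB : MeasurableSet B) (h : ∀ y ∈ A, x - y ∈ B) :
    ∫⁻ y in A, F (x - y) ≤ ∫⁻ y in B, F y := by
  rw [← lintegral_indicator hA, ← lintegral_indicator hB, ← shift (B.indicator F) x]
  refine lintegral_mono fun y => ?_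
  by_cases hy : y ∈ A
  · rw [indicator_of_mem hy, indicator_of_mem (h y hy)]
  · rw [indicator_of_notMem hy]
    exact zero_le

lemma ee_add (s t : ℝ) : ee (s + t) = ee s * ee t := by
  unfold ee
  rw [← Complex.exp_add]
  congr 1
  push_cast
  ring

lemma Ex_prod (β : ℝ → ℂ) (z : ℝ × ℝ) :
    Ex (fun ξ => β ξ.1 * β ξ.2) z = Ex1 β z.1 * Ex1 β z.2 := by
  unfold Ex Ex1
  rw [Measure.volume_eq_prod, ← integral_prod_mul]
  refine integral_congr_ae (Filter.Eventually.of_forall fun ξ => ?_)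
  simp only [dot]
  rw [ee_add]
  ring

lemma bd_prod {β : ℝ → ℂ} (hβ : Bd1 β) : Bd (fun ξ : ℝ × ℝ => β ξ.1 * β ξ.2) := by
  obtain ⟨hm, ⟨B, hB⟩, ⟨R, hR⟩⟩ := hβ
  refine ⟨(hm.comp measurable_fst).mul (hm.comp measurable_snd), ⟨B * B, fun ξ => ?_⟩,
    ⟨R, fun ξ hξ => ?_⟩⟩
  · rw [norm_mul]
    exact mul_le_mul (hB _) (hB _) (norm_nonneg _) ((norm_nonneg _).trans (hB 0))
  · exact ⟨hR _ (left_ne_zero_of_mul hξ), hR _ (right_ne_zero_of_mul hξ)⟩

lemma bf_ind {Y : Set (ℝ × ℝ)} (hY : MeasurableSet Y) (hv : volume Y < ⊤) :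
    Bf (Y.indicator (fun _ => (1 : ℂ))) := by
  refine ⟨measurable_const.indicator hY, ⟨1, fun x => ?_⟩, ?_⟩
  · by_cases hx : x ∈ Y
    · rw [indicator_of_mem hx]
      simp
    · rw [indicator_of_notMem hx]
      simp
  · refine lt_of_le_of_lt (measure_mono fun x hx => ?_) hv
    by_contra h
    exact hx (indicator_of_notMem h _)

end GK_

open GK_ in
theorem pGK (hKAP : tKAP) (hHAT : tHAT) (hCVK : tCVK) : tGK := by
  intro a m j Y hPA hY
  obtain ⟨ha, hm1, hm2⟩ := hPA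
  have hpow : 2 ^ 20 ≤ 2 ^ a := Nat.pow_le_pow_right (by norm_num) ha
  have hm : 1 ≤ m := by omega
  have hb : (0 : ℝ) < 1 / 2 ^ (4 * a + j) := by positivity
  obtain ⟨h1, h2, h3, h4, β, hβ, hβs, hβE⟩ := hKAP (40 * m) (1 / 2 ^ (4 * a + j))
    ⟨20 * m, by ring⟩ (by omega) hb
  set k : ℝ → ℝ := kap (40 * m) (1 / 2 ^ (4 * a + j)) with hk
  have hGK : ∀ x, GK a m j Y x = ∫⁻ y in Y, K2 k (x - y) := fun x => rfl
  have hR : ((40 * m : ℕ) : ℝ) / (1 / 2 ^ (4 * a + j)) ≤ 2 ^ (6 * a + j) := by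
    have h5 : ((40 * m : ℕ) : ℝ) ≤ 2 ^ (2 * a) := by
      have h6 : 40 * m ≤ 2 ^ (2 * a) := by
        rw [two_mul, pow_add]
        have : 40 * m ≤ 2 ^ a * m := Nat.mul_le_mul_right m (by omega)
        exact this.trans (Nat.mul_le_mul_left _ hm1.le)
      exact_mod_cast h6
    rw [div_div_eq_mul_div, div_one]
    calc ((40 * m : ℕ) : ℝ) * 2 ^ (4 * a + j) ≤ 2 ^ (2 * a) * 2 ^ (4 * a + j) :=
          mul_le_mul_of_nonneg_right h5 (by positivity)
      _ = 2 ^ (6 * a + j) := by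
          rw [← pow_add]
          congr 1
          ring
  have htail := K2_tail h1 h2 h3 hR h4
  have hone := K2_one h1 h2 h3
  have hK2m := K2_meas h2
  have hBm : MeasurableSet {z : ℝ × ℝ | ¬ (|z.1| ≤ (2 : ℝ) ^ (6 * a + j) ∧
      |z.2| ≤ (2 : ℝ) ^ (6 * a + j))} := by
    have h5 : MeasurableSet {z : ℝ × ℝ | |z.1| ≤ (2 : ℝ) ^ (6 * a + j)} :=
      measurableSet_le (by fun_prop) measurable_const
    have h6 : MeasurableSet {z : ℝ × ℝ | |z.2| ≤ (2 : ℝ) ^ (6 * a + j)} :=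
      measurableSet_le (by fun_prop) measurable_const
    exact (h5.inter h6).compl
  have hle1 : ∀ x, GK a m j Y x ≤ 1 := by
    intro x
    rw [hGK, ← hone, ← shift (K2 k) x]
    exact setLIntegral_le_lintegral _ _
  refine ⟨?_, hle1, ?_, ?_, ?_⟩
  · have h5 : Measurable (fun P : (ℝ × ℝ) × (ℝ × ℝ) => K2 k (P.1 - P.2)) :=
      hK2m.comp (measurable_fst.sub measurable_snd)
    exact h5.lintegral_prod_right' (ν := volume.restrict Y)
  · intro x hx
    have h5 : (∫⁻ y in Y, K2 k (x - y)) + ∫⁻ y in Yᶜ, K2 k (x - y) = 1 := by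
      rw [lintegral_add_compl _ hY, shift, hone]
    have h6 : ∫⁻ y in Yᶜ, K2 k (x - y) ≤ 2 * ENNReal.ofReal (1 / 2 ^ (40 * m)) := by
      refine (shift_set x _ _ hY.compl hBm ?_).trans htail
      intro y hy hxy
      apply hy
      refine hx y ?_ ?_
      · rw [abs_sub_comm]
        exact hxy.1
      · rw [abs_sub_comm]
        exact hxy.2
    have h7 : 2 * ENNReal.ofReal (1 / 2 ^ (40 * m)) ≤ ENNReal.ofReal (1 / 2) := by
      rw [← ENNReal.ofReal_ofNat, ← ENNReal.ofReal_mul (by norm_num)]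
      apply ENNReal.ofReal_le_ofReal
      have h8 : (2 : ℝ) ^ 2 ≤ 2 ^ (40 * m) := pow_le_pow_right₀ (by norm_num) (by omega)
      rw [mul_one_div, div_le_div_iff₀ (by positivity) (by norm_num)]
      linarith
    rw [hGK]
    have h8 : (1 : ℝ≥0∞) ≤ (∫⁻ y in Y, K2 k (x - y)) + ENNReal.ofReal (1 / 2) := by
      rw [← h5]
      exact add_le_add le_rfl (h6.trans h7)
    have h9 : ENNReal.ofReal (1 / 2) ≤ ∫⁻ y in Y, K2 k (x - y) := by
      have h10 : ENNReal.ofReal (1 / 2) + ENNReal.ofReal (1 / 2) = 1 := by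
        rw [← ENNReal.ofReal_add (by norm_num) (by norm_num)]
        norm_num
      rw [← h10] at h8
      exact (ENNReal.add_le_add_iff_right ENNReal.ofReal_ne_top).1 h8
    calc (1 : ℝ≥0∞) = 2 * ENNReal.ofReal (1 / 2) := by
          rw [← ENNReal.ofReal_ofNat, ← ENNReal.ofReal_mul (by norm_num)]
          norm_num
      _ ≤ _ := by gcongr
  · intro x hx
    rw [hGK]
    refine ((shift_set x _ _ hY hBm ?_).trans htail).trans (le_of_eq ?_)
    · intro y hy hxy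
      apply hx y hy
      constructor
      · rw [abs_sub_comm]
        exact hxy.1
      · rw [abs_sub_comm]
        exact hxy.2
    · rw [← ENNReal.ofReal_ofNat, ← ENNReal.ofReal_mul (by norm_num), mul_one_div]
  · intro hv
    have hBf := bf_ind hY hv
    have hBd := bd_prod hβ
    obtain ⟨hhc, ⟨B, hhB⟩, -⟩ := hHAT _ hBf
    obtain ⟨-, hC2⟩ := hCVK _ hBd
    refine ⟨fun ξ => β ξ.1 * β ξ.2 * hat (Y.indicator fun _ => (1 : ℂ)) ξ, ?_, ?_, ?_⟩
    · obtain ⟨hm', ⟨B', hB'⟩, ⟨R, hR'⟩⟩ := hBd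
      refine ⟨hm'.mul hhc.measurable, ⟨B' * B, fun ξ => ?_⟩, ⟨R, fun ξ hξ => ?_⟩⟩
      · rw [norm_mul]
        exact mul_le_mul (hB' _) (hhB _) (norm_nonneg _) ((norm_nonneg _).trans (hB' 0))
      · exact hR' ξ (left_ne_zero_of_mul hξ)
    · intro ξ hξ
      have h5 := left_ne_zero_of_mul hξ
      exact ⟨hβs _ (left_ne_zero_of_mul h5), hβs _ (right_ne_zero_of_mul h5)⟩
    · intro x
      rw [hC2 _ hBf x]
      have h5 : ∀ z, Ex (fun ξ : ℝ × ℝ => β ξ.1 * β ξ.2) (x - z) *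
          Y.indicator (fun _ => (1 : ℂ)) z =
          ((Y.indicator (fun z => k (x - z).1 * k (x - z).2) z : ℝ) : ℂ) := by
        intro z
        rw [Ex_prod, hβE, hβE]
        by_cases hz : z ∈ Y
        · rw [indicator_of_mem hz, indicator_of_mem hz]
          push_cast
          ring
        · rw [indicator_of_notMem hz, indicator_of_notMem hz]
          simp
      rw [integral_congr_ae (Filter.Eventually.of_forall h5), integral_complex_ofReal,
        integral_indicator hY, hGK]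
      congr 1
      rw [integral_eq_lintegral_of_nonneg_ae]
      · rfl
      · exact Filter.Eventually.of_forall fun z => mul_nonneg (h1 _) (h1 _)
      · have : Continuous fun z : ℝ × ℝ => k (x - z).1 * k (x - z).2 := by
          simp only [Prod.fst_sub, Prod.snd_sub]
          fun_prop
        exact this.aestronglyMeasurable

end Pool.Agent.LLog
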