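import Pool.Agent.LLog.GOD0
import Pool.Agent.KSP.Base

set_option autoImplicit false

/-! MP_ee701d_an, LLog: the popular part (tGOD). -/

namespace Pool.Agent.LLog

open MeasureTheory Set
open scoped ENNReal NNReal ComplexConjugate
open Pool.Agent.KSP (ee dot nr Ex Ex1 Bd Bd1 n1 n2 lg V0 ann tPl2 pPl2)

namespace GOD_

lemma inn_meas (δ : ℝ) (X : Set (ℝ × ℝ)) : MeasurableSet (inn δ X) := by
  have h1 : (inn δ X)ᶜ = ⋃ y ∈ Xᶜ, {x : ℝ × ℝ | |y.1 - x.1| < δ ∧ |y.2 - x.2| < δ} := by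
    ext x
    simp only [inn, mem_compl_iff, mem_ofPred_eq, mem_iUnion, not_forall]
    constructor
    · rintro ⟨y, h2, h3, h4⟩
      exact ⟨y, h4, h2, h3⟩
    · rintro ⟨y, h4, h2, h3⟩
      exact ⟨y, h2, h3, h4⟩
  have h2 : IsOpen (inn δ X)ᶜ := by
    rw [h1]
    refine isOpen_biUnion fun y _ => ?_
    have c1 : Continuous (fun x : ℝ × ℝ => |y.1 - x.1|) := by fun_prop
    have c2 : Continuous (fun x : ℝ × ℝ => |y.2 - x.2|) := by fun_prop
    exact (isOpen_lt c1 continuous_const).inter (isOpen_lt c2 continuous_const)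
  exact MeasurableSet.of_compl h2.measurableSet

lemma inn_mono {δ : ℝ} {X Y : Set (ℝ × ℝ)} (h : X ⊆ Y) : inn δ X ⊆ inn δ Y :=
  fun _ hx y h1 h2 => h (hx y h1 h2)

lemma sa_mono (t L : ℝ) {X Y : Set (ℝ × ℝ)} (h : X ⊆ Y) (x : ℝ × ℝ) : sa t L X x ≤ sa t L Y x := by
  unfold sa
  refine mul_le_mul_right ?_ _
  refine lintegral_mono fun s => ?_
  exact indicator_le_indicator_of_subset h (fun _ => zero_le) _

lemma vl_meas (sg : ℝ) {h : ℝ × ℝ → ℂ} (hh : Bd h) (i e b u : ℕ) :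
    Measurable (vl sg h i e b u) := by
  unfold vl
  exact (sq_meas (KSP.Block_.bd_ind hh (sh_meas _ _))).add
    (sq_meas (KSP.Block_.bd_ind hh (sh_meas _ _)))

/-- a block at a point -/
lemma blk_pt (a m : ℕ) (sg : ℝ) (z0 : ℝ × ℝ) (T : Finset Top) (pr : Top → ℕ)
    (rr ls : ℝ × ℝ → ℕ) (h : ℝ × ℝ → ℂ)
    (hT : ∀ t ∈ T, t.2.1 < 2 * 4 ^ t.1) (x : ℝ × ℝ)
    (hG : x ∈ Gd a m z0 T pr) (hI : x ∈ IN a m z0) (hrr : rr x < 2 * 4 ^ m) (hls : ls x ≤ m)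
    (s n : ℕ) :
    (open Classical in ∑ u ∈ Finset.range (2 * 4 ^ m), if cnd a m z0 T pr rr ls s n u x then
          vl sg h (n * 2 ^ s) ((n + 1) * 2 ^ s) (rr x / 4 ^ (m - n * 2 ^ s)) u x else 0) ≤
    if 10 * a ≤ n * 2 ^ s ∧ (n + 1) * 2 ^ s ≤ m then
      ∑ b ∈ Finset.range (2 * 4 ^ (n * 2 ^ s)),
        ∑ u ∈ (Finset.range (2 * 4 ^ ((n + 1) * 2 ^ s))).filter
          (fun u => u / 4 ^ ((n + 1) * 2 ^ s - n * 2 ^ s) = b),
          (inn (3 * de a ((n + 1) * 2 ^ s))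
            (Yb a m z0 T pr (n * 2 ^ s) ((n + 1) * 2 ^ s) b u)).indicator
            (vl sg h (n * 2 ^ s) ((n + 1) * 2 ^ s) b u) x
    else 0 := by
  classical
  have hie : n * 2 ^ s ≤ (n + 1) * 2 ^ s := Nat.mul_le_mul_right _ (Nat.le_succ n)
  split_ifs with hc
  · have hb : rr x / 4 ^ (m - n * 2 ^ s) < 2 * 4 ^ (n * 2 ^ s) :=
      anc_lt hrr (hie.trans hc.2)
    refine le_trans ?_ (Finset.single_le_sum (f := fun b =>
      ∑ u ∈ (Finset.range (2 * 4 ^ ((n + 1) * 2 ^ s))).filter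
          (fun u => u / 4 ^ ((n + 1) * 2 ^ s - n * 2 ^ s) = b),
          (inn (3 * de a ((n + 1) * 2 ^ s))
            (Yb a m z0 T pr (n * 2 ^ s) ((n + 1) * 2 ^ s) b u)).indicator
            (vl sg h (n * 2 ^ s) ((n + 1) * 2 ^ s) b u) x) (fun _ _ => zero_le)
      (Finset.mem_range.mpr hb))
    refine le_trans (Finset.sum_le_sum_of_ne_zero (t := (Finset.range (2 * 4 ^ ((n + 1) * 2 ^ s))).filter
          (fun u => u / 4 ^ ((n + 1) * 2 ^ s - n * 2 ^ s) = rr x / 4 ^ (m - n * 2 ^ s))) ?_)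
      (Finset.sum_le_sum fun u _ => ?_)
    · intro u _ hne
      by_cases h1 : cnd a m z0 T pr rr ls s n u x
      · obtain ⟨-, -, t, ht, hu⟩ := h1
        have ht1 := ht.1
        unfold Sb TX at ht1
        simp only [Finset.mem_filter] at ht1
        rw [Finset.mem_filter, Finset.mem_range]
        have hub := div_rel t hie ht1.2.1 ht1.2.2.2
        rw [hu] at hub
        refine ⟨?_, hub⟩
        rw [← hu]
        exact anc_lt (hT t ht1.1.1) ht1.2.1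
      · exact absurd (if_neg h1) hne
    · split_ifs with h1
      · refine le_of_eq (indicator_of_mem ?_ _).symm
        obtain ⟨-, -, t, ht, hu⟩ := h1
        intro y hy1 hy2
        have hd := de_pos a ((n + 1) * 2 ^ s)
        have h2 : Qx a z0 ((n + 1) * 2 ^ s) y = Qx a z0 ((n + 1) * 2 ^ s) x :=
          hI _ hc.2 y (by linarith) (by linarith)
        exact ⟨x, hG, h2.symm, t, ht, hu⟩
      · exact zero_le
  · refine le_of_eq (Finset.sum_eq_zero fun u _ => if_neg ?_)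
    rintro ⟨h1, h2, -⟩
    exact hc ⟨h1, h2.trans hls⟩

/-- children at a point -/
lemma chd_pt (a m : ℕ) (sg : ℝ) (z0 : ℝ × ℝ) (T : Finset Top) (pr : Top → ℕ)
    (b : ℕ) (h : ℝ × ℝ → ℂ) (x : ℝ × ℝ)
    (hG : x ∈ Gd a m z0 T pr) (hI : x ∈ IN a m z0) (l : ℕ) (hl : l ≤ m) :
    (open Classical in ∑ c ∈ Finset.range (2 * 4 ^ l),
        if c / 4 = b ∧ EvC pr (TX a z0 T x) l c then
          ‖Ex ({ξ | cd sg l c ξ}.indicator h) x‖ₑ ^ 2 else 0) ≤
    ∑ c ∈ Finset.range (2 * 4 ^ l),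
      (inn (3 * de a (l - 1)) (XF a z0 (famC a m z0 T pr) (Gd a m z0 T pr) l c)).indicator
        (fun x => ‖Ex ({ξ | cd sg l c ξ}.indicator h) x‖ₑ ^ 2) x := by
  classical
  refine Finset.sum_le_sum fun c _ => ?_
  split_ifs with h1
  · refine le_of_eq (indicator_of_mem (f := fun x => ‖Ex ({ξ | cd sg l c ξ}.indicator h) x‖ₑ ^ 2) ?_).symm
    intro y hy1 hy2
    have hd := de_pos a (l - 1)
    have h2 : Qx a z0 (l - 1) y = Qx a z0 (l - 1) x :=
      hI _ (by omega) y (by linarith) (by linarith)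
    exact ⟨x, hG, h2.symm, h1.2⟩
  · exact zero_le

/-- the sets of a block and of the family -/
lemma Xb_sub (a m : ℕ) (z0 : ℝ × ℝ) (T : Finset Top) (pr : Top → ℕ) (s n b l c : ℕ)
    (hl : l ∈ Finset.Ioc (n * 2 ^ s) ((n + 1) * 2 ^ s)) (hc : c / 4 ^ (l - n * 2 ^ s) = b) :
    Xb a l ((n + 1) * 2 ^ s) c (Yb a m z0 T pr (n * 2 ^ s) ((n + 1) * 2 ^ s) b) ⊆
      inn (de a ((n + 1) * 2 ^ s)) (XF a z0 (famB a m z0 T pr s) (Gd a m z0 T pr) l c) := by
  rw [Finset.mem_Ioc] at hl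
  rintro x ⟨u, hu, h1, h2, h3⟩
  refine inn_mono ?_ h3
  rintro y' ⟨y, hy, hyy, t, ht, htu⟩
  have h2s : 0 < 2 ^ s := by positivity
  have hbi : bi s l = n * 2 ^ s := by
    unfold bi
    rw [mul_comm]
    congr 1
    exact Nat.div_eq_of_lt_le (by omega) (by omega)
  have hbe : be s l = (n + 1) * 2 ^ s := by
    unfold be
    rw [hbi]
    ring
  have ht1 := ht.1
  unfold Sb at ht1
  simp only [Finset.mem_filter] at ht1
  have e1 : t.2.1 / 4 ^ (t.1 - l) = u / 4 ^ ((n + 1) * 2 ^ s - l) := by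
    rw [← htu, Nat.div_div_eq_div_mul, ← pow_add]
    congr 2
    omega
  have e2 : t.2.1 / 4 ^ (t.1 - (l - 1)) = u / 4 ^ ((n + 1) * 2 ^ s - l) / 4 := by
    rw [← e1, Nat.div_div_eq_div_mul, ← pow_succ]
    congr 2
    omega
  refine ⟨y, hy, ?_, ?_⟩
  · change Qx a z0 (be s l) y = Qx a z0 (be s l) y'
    rw [hbe]
    exact hyy
  · change EvB pr (TX a z0 T y) s l c
    refine ⟨t, ?_, ?_, ?_⟩
    · rw [hbe, hbi, hc]
      exact ht
    · rw [e2]
      exact h2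
    · rw [e1]
      exact h1

/-- orthogonality of the radial intervals of one level -/
lemma n2_sum (sg : ℝ) (h : ℝ × ℝ → ℂ) (hh : Bd h) (l : ℕ) (s : Finset ℕ) :
    ∑ c ∈ s, n2 ({ξ | cd sg l c ξ}.indicator h) ≤ n2 h := by
  classical
  unfold n2
  have hm : ∀ c, MeasurableSet {ξ : ℝ × ℝ | cd sg l c ξ} := fun c => by
    rw [cd_eq]
    exact sh_meas _ _
  rw [← lintegral_finsetSum _ (fun c _ => ((hh.1.indicator (hm c)).enorm.pow_const 2))]
  refine lintegral_mono fun ξ => ?_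
  by_cases h1 : ∃ c ∈ s, cd sg l c ξ
  · obtain ⟨c, hc, hcd⟩ := h1
    rw [Finset.sum_eq_single_of_mem c hc]
    · rw [indicator_of_mem (show ξ ∈ {ξ : ℝ × ℝ | cd sg l c ξ} from hcd)]
    · intro c' _ hne
      rw [indicator_of_notMem]
      · simp
      · intro hcd'
        apply hne
        have h2 : cd sg l c' ξ := hcd'
        unfold cd cdr at h2 hcd
        have h3 : (c : ℝ) < c' + 1 := by linarith
        have h4 : (c' : ℝ) < c + 1 := by linarith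
        have h5 : c < c' + 1 := by exact_mod_cast h3
        have h6 : c' < c + 1 := by exact_mod_cast h4
        omega
  · refine le_trans (le_of_eq (Finset.sum_eq_zero fun c hc => ?_)) zero_le
    rw [indicator_of_notMem]
    · simp
    · intro h2
      exact h1 ⟨c, hc, h2⟩

/-- disjoint blocks -/
lemma sum_blocks (a m s : ℕ) (z0 : ℝ × ℝ) (T : Finset Top) (pr : Top → ℕ) (g : ℕ → ℝ≥0∞) :
    (∑ n ∈ Finset.range (m + 1), if 10 * a ≤ n * 2 ^ s ∧ (n + 1) * 2 ^ s ≤ m then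
      ∑ l ∈ Finset.Ioc (n * 2 ^ s) ((n + 1) * 2 ^ s), g l else 0) ≤
    ∑ l ∈ (famB a m z0 T pr s).Lv, g l := by
  classical
  have h2s : 0 < 2 ^ s := by positivity
  have hmap : ∀ l ∈ (famB a m z0 T pr s).Lv, (l - 1) / 2 ^ s ∈ Finset.range (m + 1) := by
    intro l hl
    unfold famB at hl
    simp only [Finset.mem_filter, Finset.mem_Ioc] at hl
    rw [Finset.mem_range]
    have := Nat.div_le_self (l - 1) (2 ^ s)
    omega
  rw [← Finset.sum_fiberwise_of_maps_to hmap]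
  refine Finset.sum_le_sum fun n _ => ?_
  split_ifs with hc
  · refine Finset.sum_le_sum_of_subset fun l hl => ?_
    rw [Finset.mem_Ioc] at hl
    have hd : (l - 1) / 2 ^ s = n := Nat.div_eq_of_lt_le (by omega) (by omega)
    have hbi : bi s l = n * 2 ^ s := by
      unfold bi
      rw [hd, mul_comm]
    have hbe : be s l = (n + 1) * 2 ^ s := by
      unfold be
      rw [hbi]
      ring
    unfold famB
    simp only [Finset.mem_filter, Finset.mem_Ioc]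
    rw [hbi, hbe]
    exact ⟨⟨⟨by omega, by omega⟩, hc⟩, hd⟩
  · exact zero_le

/-- one block after integration -/
lemma blk_int (C1 : ℝ≥0)
    (hB : ∀ (a m i e b : ℕ) (sg sl : ℝ) (h : ℝ × ℝ → ℂ)
    (Y : ℕ → Set (ℝ × ℝ)), PA a m → 0 ≤ sg → sg < 1 → 1 ≤ sl → sl < 2 → 10 * a ≤ i → i < e →
  e ≤ m → Core a m sg sl h → (∀ u, MeasurableSet (Y u) ∧ volume (Y u) < ⊤) →
  (∀ u u', u ≠ u' → Disjoint (Y u) (Y u')) →
  ∑ u ∈ (Finset.range (2 * 4 ^ e)).filter (fun u => u / 4 ^ (e - i) = b),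
      ∫⁻ x in inn (3 * de a e) (Y u),
        (‖Ex ({ξ | sg + b / 4 ^ i ≤ nr ξ ∧ nr ξ < sg + u / 4 ^ e}.indicator h) x‖ₑ ^ 2 +
        ‖Ex ({ξ | sg + (u + 1) / 4 ^ e ≤ nr ξ ∧ nr ξ < sg + (b + 1) / 4 ^ i}.indicator h) x‖ₑ ^ 2) ≤
    C1 * a ^ 3 * (∑ l ∈ Finset.Ioc i e,
      ∑ c ∈ (Finset.range (2 * 4 ^ l)).filter (fun c => c / 4 ^ (l - i) = b),
      ∑ p ∈ Finset.range (3 * 2 ^ (e + 8 * a)), ∫⁻ x,
        (sa (tp sl (e + 8 * a) p) (4 ^ (l + 5 * a)) (Xb a l e c Y) x +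
          sa (tp sl (e + 8 * a) p) (4 ^ l / 4 ^ (2 * a)) (Xb a l e c Y) x) *
        ‖Ex ({ξ | cd sg l c ξ ∧ cp sl (e + 8 * a) p ξ}.indicator h) x‖ₑ ^ 2) +
    C1 * ENNReal.ofReal (1 / 2 ^ (2 * a)) * n2 ({ξ | cd sg i b ξ}.indicator h))
    (a m : ℕ) (sg sl : ℝ) (z0 : ℝ × ℝ) (T : Finset Top) (pr : Top → ℕ) (h : ℝ × ℝ → ℂ)
    (hPA : PA a m) (hsg0 : 0 ≤ sg) (hsg1 : sg < 1) (hsl1 : 1 ≤ sl) (hsl2 : sl < 2)
    (hpr : ∀ t ∈ T, ∀ t' ∈ T, pr t = pr t' → t = t') (hc : Core a m sg sl h) (s n : ℕ)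
    (h1 : 10 * a ≤ n * 2 ^ s) (h2 : (n + 1) * 2 ^ s ≤ m) :
    ∑ b ∈ Finset.range (2 * 4 ^ (n * 2 ^ s)),
        ∑ u ∈ (Finset.range (2 * 4 ^ ((n + 1) * 2 ^ s))).filter
          (fun u => u / 4 ^ ((n + 1) * 2 ^ s - n * 2 ^ s) = b),
          ∫⁻ x in inn (3 * de a ((n + 1) * 2 ^ s))
            (Yb a m z0 T pr (n * 2 ^ s) ((n + 1) * 2 ^ s) b u),
            vl sg h (n * 2 ^ s) ((n + 1) * 2 ^ s) b u x ≤
    C1 * a ^ 3 * (∑ l ∈ Finset.Ioc (n * 2 ^ s) ((n + 1) * 2 ^ s),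
      ∑ c ∈ Finset.range (2 * 4 ^ l),
      ∑ p ∈ Finset.range (3 * 2 ^ (be s l + 8 * a)), ∫⁻ x,
        (sa (tp sl (be s l + 8 * a) p) (4 ^ (l + 5 * a)) (inn (de a (be s l))
          (XF a z0 (famB a m z0 T pr s) (Gd a m z0 T pr) l c)) x +
          sa (tp sl (be s l + 8 * a) p) (4 ^ l / 4 ^ (2 * a)) (inn (de a (be s l))
          (XF a z0 (famB a m z0 T pr s) (Gd a m z0 T pr) l c)) x) *
        ‖Ex ({ξ | cd sg l c ξ ∧ cp sl (be s l + 8 * a) p ξ}.indicator h) x‖ₑ ^ 2) +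
    C1 * ENNReal.ofReal (1 / 2 ^ (2 * a)) * n2 h := by
  classical
  have h2s : 0 < 2 ^ s := by positivity
  have hie : n * 2 ^ s < (n + 1) * 2 ^ s := Nat.mul_lt_mul_of_pos_right (Nat.lt_succ_self n) h2s
  set i := n * 2 ^ s with hi
  set e := (n + 1) * 2 ^ s with he
  have key : ∀ b, ∑ u ∈ (Finset.range (2 * 4 ^ e)).filter (fun u => u / 4 ^ (e - i) = b),
      ∫⁻ x in inn (3 * de a e) (Yb a m z0 T pr i e b u), vl sg h i e b u x ≤
    C1 * a ^ 3 * (∑ l ∈ Finset.Ioc i e,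
      ∑ c ∈ (Finset.range (2 * 4 ^ l)).filter (fun c => c / 4 ^ (l - i) = b),
      ∑ p ∈ Finset.range (3 * 2 ^ (be s l + 8 * a)), ∫⁻ x,
        (sa (tp sl (be s l + 8 * a) p) (4 ^ (l + 5 * a)) (inn (de a (be s l))
          (XF a z0 (famB a m z0 T pr s) (Gd a m z0 T pr) l c)) x +
          sa (tp sl (be s l + 8 * a) p) (4 ^ l / 4 ^ (2 * a)) (inn (de a (be s l))
          (XF a z0 (famB a m z0 T pr s) (Gd a m z0 T pr) l c)) x) *
        ‖Ex ({ξ | cd sg l c ξ ∧ cp sl (be s l + 8 * a) p ξ}.indicator h) x‖ₑ ^ 2) +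
    C1 * ENNReal.ofReal (1 / 2 ^ (2 * a)) * n2 ({ξ | cd sg i b ξ}.indicator h) := by
    intro b
    refine (hB a m i e b sg sl h (Yb a m z0 T pr i e b) hPA hsg0 hsg1 hsl1 hsl2 h1 hie h2 hc
      (fun u => ⟨Yb_meas a m z0 T pr i e b u, Yb_fin a m z0 T pr i e b u⟩)
      (fun u u' => Yb_disj a m z0 T pr hpr i e b u u')).trans ?_
    refine add_le_add (mul_le_mul_right (Finset.sum_le_sum fun l hl => Finset.sum_le_sum
      fun c hcf => ?_) _) le_rfl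
    have hbe : be s l = e := by
      rw [Finset.mem_Ioc] at hl
      unfold be bi
      have hd : (l - 1) / 2 ^ s = n := Nat.div_eq_of_lt_le (by omega) (by omega)
      rw [hd, he]
      ring
    rw [Finset.mem_filter] at hcf
    rw [hbe]
    refine Finset.sum_le_sum fun p _ => lintegral_mono fun x => ?_
    have hs := Xb_sub a m z0 T pr s n b l c hl hcf.2
    exact mul_le_mul_left (add_le_add (sa_mono _ _ hs x) (sa_mono _ _ hs x)) _
  refine (Finset.sum_le_sum fun b _ => key b).trans ?_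
  rw [Finset.sum_add_distrib, ← Finset.mul_sum, ← Finset.mul_sum]
  refine add_le_add (mul_le_mul_right ?_ _) (mul_le_mul_right (n2_sum sg h hc.1 i _) _)
  rw [Finset.sum_comm]
  refine Finset.sum_le_sum fun l hl => ?_
  rw [Finset.mem_Ioc] at hl
  refine le_of_eq (Finset.sum_fiberwise_of_maps_to (fun c hcr => ?_) _)
  rw [Finset.mem_range] at hcr ⊢
  exact anc_lt hcr hl.1.le

lemma small (a m : ℕ) (hPA : PA a m) (k : ℕ) (hk : a ≤ k) :
    ((m + 1 : ℕ) : ℝ≥0∞) * ENNReal.ofReal (1 / 2 ^ k) ≤ 1 := by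
  obtain ⟨ha, hm1, hm2⟩ := hPA
  rw [← ENNReal.ofReal_natCast, ← ENNReal.ofReal_mul (by positivity), ← ENNReal.ofReal_one]
  refine ENNReal.ofReal_le_ofReal ?_
  rw [mul_one_div, div_le_one (by positivity)]
  have h1 : m + 1 ≤ 2 ^ k := hm1.trans_le (Nat.pow_le_pow_right (by norm_num) hk)
  exact_mod_cast h1

/-- all blocks of one size -/
lemma blk_sum (C1 C3 : ℝ≥0) (a m s : ℕ) (hPA : PA a m) (S : ℕ → ℝ≥0∞) (z0 : ℝ × ℝ)
    (T : Finset Top) (pr : Top → ℕ) (g : ℕ → ℝ≥0∞) (N : ℝ≥0∞)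
    (hS : ∀ n, 10 * a ≤ n * 2 ^ s → (n + 1) * 2 ^ s ≤ m → S n ≤
      C1 * a ^ 3 * (∑ l ∈ Finset.Ioc (n * 2 ^ s) ((n + 1) * 2 ^ s), g l) +
        C1 * ENNReal.ofReal (1 / 2 ^ (2 * a)) * N)
    (hg : ∑ l ∈ (famB a m z0 T pr s).Lv, g l ≤ C3 * a ^ 5 * N) :
    (∑ n ∈ Finset.range (m + 1), if 10 * a ≤ n * 2 ^ s ∧ (n + 1) * 2 ^ s ≤ m then S n else 0) ≤
      ((C1 * C3 + C1 : ℝ≥0) : ℝ≥0∞) * a ^ 8 * N := by
  classical
  have ha : 20 ≤ a := hPA.1
  have ha1 : (1 : ℝ≥0∞) ≤ (a : ℝ≥0∞) := by exact_mod_cast (show 1 ≤ a by omega)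
  calc (∑ n ∈ Finset.range (m + 1), if 10 * a ≤ n * 2 ^ s ∧ (n + 1) * 2 ^ s ≤ m then S n else 0)
      ≤ ∑ n ∈ Finset.range (m + 1), (C1 * a ^ 3 * (if 10 * a ≤ n * 2 ^ s ∧ (n + 1) * 2 ^ s ≤ m then
        ∑ l ∈ Finset.Ioc (n * 2 ^ s) ((n + 1) * 2 ^ s), g l else 0) +
        C1 * ENNReal.ofReal (1 / 2 ^ (2 * a)) * N) := by
        refine Finset.sum_le_sum fun n _ => ?_
        split_ifs with hc
        · exact hS n hc.1 hc.2
        · exact zero_le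
    _ = C1 * a ^ 3 * (∑ n ∈ Finset.range (m + 1), if 10 * a ≤ n * 2 ^ s ∧ (n + 1) * 2 ^ s ≤ m then
        ∑ l ∈ Finset.Ioc (n * 2 ^ s) ((n + 1) * 2 ^ s), g l else 0) +
        ((m + 1 : ℕ) : ℝ≥0∞) * ENNReal.ofReal (1 / 2 ^ (2 * a)) * (C1 * N) := by
        rw [Finset.sum_add_distrib, ← Finset.mul_sum, Finset.sum_const, Finset.card_range,
          nsmul_eq_mul]
        ring
    _ ≤ C1 * a ^ 3 * (C3 * a ^ 5 * N) + 1 * (C1 * N) := by
        refine add_le_add (mul_le_mul_right ((sum_blocks a m s z0 T pr g).trans hg) _)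
          (mul_le_mul_left (small a m hPA _ (by omega)) _)
    _ = (C1 * C3) * a ^ 8 * N + C1 * 1 * N := by ring
    _ ≤ (C1 * C3) * a ^ 8 * N + C1 * a ^ 8 * N := by
        gcongr
        exact one_le_pow₀ ha1
    _ = _ := by
        push_cast
        ring

end GOD_

open GOD_ in
theorem pGOD (hT : tTRE) (hB : tBLK) (hC : tCHD) (hP : tPFM) (hF : tFOK) (hU : tUSE) : tGOD := by
  obtain ⟨C1, hB⟩ := hB
  obtain ⟨C2, hC⟩ := hC
  obtain ⟨C3, hP⟩ := hP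
  refine ⟨12864 * (2 * (C1 * C3 + C1) + (C2 * C3 + C2) + 1), ?_⟩
  intro a m sg sl z0 T pr A rr ls h hPA hsg0 hsg1 hsl1 hsl2 hpr hTb hA hAs hrr hls hrr2 hls2 hne hcore
  classical
  have hbd : Bd h := hcore.1
  have ha : 20 ≤ a := hPA.1
  have ha1 : (1 : ℝ≥0∞) ≤ (a : ℝ≥0∞) := by exact_mod_cast (show 1 ≤ a by omega)
  have hcm : ∀ l c, MeasurableSet {ξ : ℝ × ℝ | cd sg l c ξ} := fun l c => by
    rw [cd_eq]
    exact sh_meas _ _
  have hem : ∀ l c, Measurable (fun x => ‖Ex ({ξ | cd sg l c ξ}.indicator h) x‖ₑ ^ 2) :=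
    fun l c => sq_meas (KSP.Block_.bd_ind hbd (hcm l c))
  -- the bounding functions
  let B' : ℕ → ℕ → (ℝ × ℝ) → ℝ≥0∞ := fun s n x =>
    if 10 * a ≤ n * 2 ^ s ∧ (n + 1) * 2 ^ s ≤ m then
      ∑ b ∈ Finset.range (2 * 4 ^ (n * 2 ^ s)),
        ∑ u ∈ (Finset.range (2 * 4 ^ ((n + 1) * 2 ^ s))).filter
          (fun u => u / 4 ^ ((n + 1) * 2 ^ s - n * 2 ^ s) = b),
          (inn (3 * de a ((n + 1) * 2 ^ s))
            (Yb a m z0 T pr (n * 2 ^ s) ((n + 1) * 2 ^ s) b u)).indicator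
            (vl sg h (n * 2 ^ s) ((n + 1) * 2 ^ s) b u) x
    else 0
  let C' : ℕ → (ℝ × ℝ) → ℝ≥0∞ := fun l x => ∑ c ∈ Finset.range (2 * 4 ^ l),
      (inn (3 * de a (l - 1)) (XF a z0 (famC a m z0 T pr) (Gd a m z0 T pr) l c)).indicator
        (fun x => ‖Ex ({ξ | cd sg l c ξ}.indicator h) x‖ₑ ^ 2) x
  let D' : (ℝ × ℝ) → ℝ≥0∞ := fun x => ∑ c ∈ Finset.range (2 * 4 ^ (10 * a)),
    ‖Ex ({ξ | cd sg (10 * a) c ξ}.indicator h) x‖ₑ ^ 2
  have hBm : ∀ s n, Measurable (B' s n) := by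
    intro s n
    by_cases hc : 10 * a ≤ n * 2 ^ s ∧ (n + 1) * 2 ^ s ≤ m
    · simp only [B', if_pos hc]
      exact Finset.measurable_sum _ fun b _ => Finset.measurable_sum _ fun u _ =>
        (vl_meas sg hbd _ _ _ _).indicator (inn_meas _ _)
    · simp only [B', if_neg hc]
      exact measurable_const
  have hCm : ∀ l, Measurable (C' l) := fun l =>
    Finset.measurable_sum _ fun c _ => (hem l c).indicator (inn_meas _ _)
  have hDm : Measurable D' := Finset.measurable_sum _ fun c _ => hem (10 * a) c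
  -- integrals of the bounding functions
  have hBi : ∀ s ∈ Finset.range (a + 1), ∑ n ∈ Finset.range (m + 1), ∫⁻ x, B' s n x ≤
      ((C1 * C3 + C1 : ℝ≥0) : ℝ≥0∞) * a ^ 8 * n2 h := by
    intro s hs
    rw [Finset.mem_range] at hs
    have hPs := hP a m sg sl z0 T (famB a m z0 T pr s) (Gd a m z0 T pr) h hPA hsg0 hsg1 hsl1 hsl2
      ((hF a m z0 T pr hPA).1 s) (fun x hx => hx.1 s (by omega)) hcore
    have hS := blk_sum C1 C3 a m s hPA (fun n =>
      ∑ b ∈ Finset.range (2 * 4 ^ (n * 2 ^ s)),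
        ∑ u ∈ (Finset.range (2 * 4 ^ ((n + 1) * 2 ^ s))).filter
          (fun u => u / 4 ^ ((n + 1) * 2 ^ s - n * 2 ^ s) = b),
          ∫⁻ x in inn (3 * de a ((n + 1) * 2 ^ s))
            (Yb a m z0 T pr (n * 2 ^ s) ((n + 1) * 2 ^ s) b u),
            vl sg h (n * 2 ^ s) ((n + 1) * 2 ^ s) b u x) z0 T pr _ (n2 h)
      (fun n h1 h2 => blk_int C1 hB a m sg sl z0 T pr h hPA hsg0 hsg1 hsl1 hsl2 hpr hcore s n h1 h2)
      hPs
    refine le_trans (le_of_eq (Finset.sum_congr rfl fun n _ => ?_)) hS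
    by_cases hc : 10 * a ≤ n * 2 ^ s ∧ (n + 1) * 2 ^ s ≤ m
    · simp only [B', if_pos hc]
      rw [lintegral_finsetSum _ (fun b _ => Finset.measurable_sum _ fun u _ =>
        (vl_meas sg hbd _ _ _ _).indicator (inn_meas _ _))]
      refine Finset.sum_congr rfl fun b _ => ?_
      rw [lintegral_finsetSum _ (fun u _ => (vl_meas sg hbd _ _ _ _).indicator (inn_meas _ _))]
      exact Finset.sum_congr rfl fun u _ => lintegral_indicator (inn_meas _ _) _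
    · simp only [B', if_neg hc, lintegral_zero]
  have hCi : ∑ l ∈ Finset.Ioc (10 * a) m, ∫⁻ x, C' l x ≤
      ((C2 * C3 + C2 : ℝ≥0) : ℝ≥0∞) * a ^ 5 * n2 h := by
    have hPs := hP a m sg sl z0 T (famC a m z0 T pr) (Gd a m z0 T pr) h hPA hsg0 hsg1 hsl1 hsl2
      ((hF a m z0 T pr hPA).2) (fun x hx => hx.2) hcore
    have hUs := (hU a m z0 T (famC a m z0 T pr) (Gd a m z0 T pr) hPA
      ((hF a m z0 T pr hPA).2) (fun x hx => hx.2)).1
    have h1 : ∀ l ∈ Finset.Ioc (10 * a) m, ∫⁻ x, C' l x ≤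
        C2 * (∑ c ∈ Finset.range (2 * 4 ^ l), ∑ p ∈ Finset.range (3 * 2 ^ (l - 1 + 8 * a)), ∫⁻ x,
          (sa (tp sl (l - 1 + 8 * a) p) (4 ^ (l + 5 * a)) (inn (de a (l - 1))
            (XF a z0 (famC a m z0 T pr) (Gd a m z0 T pr) l c)) x +
          sa (tp sl (l - 1 + 8 * a) p) (4 ^ l / 4 ^ (2 * a)) (inn (de a (l - 1))
            (XF a z0 (famC a m z0 T pr) (Gd a m z0 T pr) l c)) x) *
        ‖Ex ({ξ | cd sg l c ξ ∧ cp sl (l - 1 + 8 * a) p ξ}.indicator h) x‖ₑ ^ 2) +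
        C2 * ENNReal.ofReal (1 / 2 ^ (6 * a)) * n2 h := by
      intro l hl
      have hl' := hl
      rw [Finset.mem_Ioc] at hl'
      have h2 := hC a m l sg sl h (XF a z0 (famC a m z0 T pr) (Gd a m z0 T pr) l) hPA hsg0 hsg1
        hsl1 hsl2 hl'.1 hl'.2 hcore (hUs l hl)
      have h3 : ∫⁻ x, C' l x = ∑ c ∈ Finset.range (2 * 4 ^ l), ∫⁻ x in inn (3 * de a (l - 1))
          (XF a z0 (famC a m z0 T pr) (Gd a m z0 T pr) l c),
          ‖Ex ({ξ | cd sg l c ξ}.indicator h) x‖ₑ ^ 2 := by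
        simp only [C']
        rw [lintegral_finsetSum _ (fun c _ => (hem l c).indicator (inn_meas _ _))]
        exact Finset.sum_congr rfl fun c _ => lintegral_indicator (inn_meas _ _) _
      rw [h3]
      refine h2.trans (add_le_add (mul_le_mul_right (Finset.sum_le_sum fun c _ =>
        Finset.sum_le_sum fun p _ => lintegral_mono fun x => ?_) _) le_rfl)
      exact mul_le_mul_left le_add_self _
    calc ∑ l ∈ Finset.Ioc (10 * a) m, ∫⁻ x, C' l x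
        ≤ C2 * (C3 * a ^ 5 * n2 h) + ((m + 1 : ℕ) : ℝ≥0∞) * ENNReal.ofReal (1 / 2 ^ (6 * a)) *
          (C2 * n2 h) := by
          refine (Finset.sum_le_sum h1).trans ?_
          rw [Finset.sum_add_distrib, ← Finset.mul_sum]
          refine add_le_add (mul_le_mul_right hPs _) ?_
          rw [Finset.sum_const, nsmul_eq_mul]
          have hcard : (((Finset.Ioc (10 * a) m).card : ℕ) : ℝ≥0∞) ≤ ((m + 1 : ℕ) : ℝ≥0∞) := by
            rw [Nat.card_Ioc]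
            exact_mod_cast (show m - 10 * a ≤ m + 1 by omega)
          calc (((Finset.Ioc (10 * a) m).card : ℕ) : ℝ≥0∞) *
                (C2 * ENNReal.ofReal (1 / 2 ^ (6 * a)) * n2 h)
              ≤ ((m + 1 : ℕ) : ℝ≥0∞) * (C2 * ENNReal.ofReal (1 / 2 ^ (6 * a)) * n2 h) :=
                mul_le_mul_left hcard _
            _ = _ := by ring
      _ ≤ C2 * (C3 * a ^ 5 * n2 h) + 1 * (C2 * n2 h) := by
          gcongr
          exact small a m hPA _ (by omega)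
      _ = (C2 * C3) * a ^ 5 * n2 h + C2 * 1 * n2 h := by ring
      _ ≤ (C2 * C3) * a ^ 5 * n2 h + C2 * a ^ 5 * n2 h := by
          gcongr
          exact one_le_pow₀ ha1
      _ = _ := by
          push_cast
          ring
  have hDi : ∫⁻ x, D' x ≤ n2 h := by
    simp only [D']
    rw [lintegral_finsetSum _ (fun c _ => hem (10 * a) c)]
    refine le_trans (le_of_eq (Finset.sum_congr rfl fun c _ => ?_))
      (n2_sum sg h hbd (10 * a) (Finset.range (2 * 4 ^ (10 * a))))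
    exact (pPl2 _ (KSP.Block_.bd_ind hbd (hcm _ _))).2
  -- pointwise
  have hpt : ∀ x ∈ A, ‖Ex ({ξ | sg + (rr x / 4 ^ (m - 10 * a) : ℕ) / 4 ^ (10 * a) ≤ nr ξ ∧
      nr ξ < sg + (rr x / 4 ^ (m - ls x) : ℕ) / 4 ^ (ls x)}.indicator h) x‖ₑ ^ 2 ≤
      (32 * (200 * a + 2) * (a + 2)) * ((∑ s ∈ Finset.range (a + 1),
        ∑ n ∈ Finset.range (m + 1), B' s n x) +
        (∑ l ∈ Finset.Ioc (10 * a) m, C' l x) + D' x) := by
    intro x hx
    refine (ptw hT a m sg z0 T pr rr ls h hPA hpr hbd x (hAs hx).1 (hrr2 x) (hls2 x)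
      (hne x hx)).trans (mul_le_mul_right (add_le_add (add_le_add ?_ ?_) ?_) _)
    · exact Finset.sum_le_sum fun s _ => Finset.sum_le_sum fun n _ =>
        blk_pt a m sg z0 T pr rr ls h hTb x (hAs hx).1 (hAs hx).2 (hrr2 x) (hls2 x).2 s n
    · exact Finset.sum_le_sum fun l hl =>
        chd_pt a m sg z0 T pr _ h x (hAs hx).1 (hAs hx).2 l (Finset.mem_Ioc.mp hl).2
    · exact Finset.single_le_sum (f := fun c =>
        ‖Ex ({ξ | cd sg (10 * a) c ξ}.indicator h) x‖ₑ ^ 2) (fun _ _ => zero_le)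
        (Finset.mem_range.mpr (anc_lt (hrr2 x) ((hls2 x).1.trans (hls2 x).2)))
  refine (setLIntegral_mono' hA hpt).trans ?_
  rw [lintegral_const_mul' _ _ (by finiteness)]
  refine (mul_le_mul_right (setLIntegral_le_lintegral _ _) _).trans ?_
  have hm1 : Measurable (fun x => ∑ s ∈ Finset.range (a + 1), ∑ n ∈ Finset.range (m + 1),
      B' s n x) := Finset.measurable_sum _ fun s _ => Finset.measurable_sum _ fun n _ => hBm s n
  have hm2 : Measurable (fun x => ∑ l ∈ Finset.Ioc (10 * a) m, C' l x) :=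
    Finset.measurable_sum _ fun l _ => hCm l
  have hm12 : Measurable (fun x => (∑ s ∈ Finset.range (a + 1), ∑ n ∈ Finset.range (m + 1),
      B' s n x) + ∑ l ∈ Finset.Ioc (10 * a) m, C' l x) := hm1.add hm2
  rw [lintegral_add_left hm12, lintegral_add_left hm1, lintegral_finsetSum _
    (fun s _ => Finset.measurable_sum _ fun n _ => hBm s n), lintegral_finsetSum _
    (fun l _ => hCm l)]
  have hsum : ∑ s ∈ Finset.range (a + 1), ∫⁻ x, ∑ n ∈ Finset.range (m + 1), B' s n x ≤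
      ((a + 1 : ℕ) : ℝ≥0∞) * (((C1 * C3 + C1 : ℝ≥0) : ℝ≥0∞) * a ^ 8 * n2 h) := by
    refine (Finset.sum_le_sum fun s hs => ?_).trans
      (le_of_eq (by rw [Finset.sum_const, Finset.card_range, nsmul_eq_mul]))
    rw [lintegral_finsetSum _ (fun n _ => hBm s n)]
    exact hBi s hs
  have hN1 : ((a + 1 : ℕ) : ℝ≥0∞) ≤ 2 * a := by exact_mod_cast (show a + 1 ≤ 2 * a by omega)
  have hN2 : (32 * (200 * a + 2) * (a + 2) : ℝ≥0∞) ≤ 12864 * a ^ 2 := by
    have h1 : 32 * (200 * a + 2) * (a + 2) ≤ 12864 * a ^ 2 := by nlinarith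
    exact_mod_cast h1
  calc (32 * (200 * a + 2) * (a + 2) : ℝ≥0∞) * ((∑ s ∈ Finset.range (a + 1),
        ∫⁻ x, ∑ n ∈ Finset.range (m + 1), B' s n x) +
        (∑ l ∈ Finset.Ioc (10 * a) m, ∫⁻ x, C' l x) + ∫⁻ x, D' x)
      ≤ (12864 * a ^ 2) * ((2 * a) * (((C1 * C3 + C1 : ℝ≥0) : ℝ≥0∞) * a ^ 8 * n2 h) +
        ((C2 * C3 + C2 : ℝ≥0) : ℝ≥0∞) * a ^ 5 * n2 h + n2 h) := by
        refine mul_le_mul' hN2 (add_le_add (add_le_add (hsum.trans ?_) hCi) hDi)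
        exact mul_le_mul_left hN1 _
    _ ≤ (12864 * a ^ 2) * ((2 * a) * (((C1 * C3 + C1 : ℝ≥0) : ℝ≥0∞) * a ^ 8 * n2 h) +
        ((C2 * C3 + C2 : ℝ≥0) : ℝ≥0∞) * a ^ 9 * n2 h + a ^ 9 * n2 h) := by
        refine mul_le_mul_right (add_le_add (add_le_add le_rfl ?_) ?_) _
        · exact mul_le_mul_left (mul_le_mul_right (pow_le_pow_right₀ ha1 (by norm_num)) _) _
        · exact le_mul_of_one_le_left zero_le (one_le_pow₀ ha1)
    _ = _ := by
        push_cast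
        ring

end Pool.Agent.LLog
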