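import Pool.Agent.LLog.Targets
import Pool.Agent.KSP.Base

set_option autoImplicit false

/-! LLog-HB: the chain estimate for all functions. -/

namespace Pool.Agent.LLog

open MeasureTheory Set
open scoped ENNReal NNReal ComplexConjugate
open Pool.Agent.KSP (ee dot nr Ex Ex1 Bd Bd1 n1 n2 lg V0 ann)

namespace HB_

open Pool.Agent.KSP.Base_ (bd_memLp)

/-! ### Bounded functions of bounded support -/

lemma bd_mul {f g : ℝ × ℝ → ℂ} (hf : Bd f) (hg : Bd g) : Bd (fun ξ => f ξ * g ξ) := by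
  obtain ⟨hf1, ⟨B, hB⟩, R, hR⟩ := hf
  obtain ⟨hg1, ⟨B', hB'⟩, -⟩ := hg
  refine ⟨hf1.mul hg1, ⟨B * B', fun ξ => ?_⟩, R, fun ξ h => hR ξ (left_ne_zero_of_mul h)⟩
  rw [norm_mul]
  exact mul_le_mul (hB ξ) (hB' ξ) (norm_nonneg _) ((norm_nonneg _).trans (hB ξ))

lemma bd_ind {f : ℝ × ℝ → ℂ} (hf : Bd f) {S : Set (ℝ × ℝ)} (hS : MeasurableSet S) :
    Bd (S.indicator f) := by
  obtain ⟨hf1, ⟨B, hB⟩, R, hR⟩ := hf
  refine ⟨hf1.indicator hS, ⟨B, fun ξ => (norm_indicator_le_norm_self f ξ).trans (hB ξ)⟩, R,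
    fun ξ h => hR ξ fun h0 => h ?_⟩
  by_cases hx : ξ ∈ S
  · rw [indicator_of_mem hx, h0]
  · rw [indicator_of_notMem hx]

lemma bd_zero : Bd (fun _ : ℝ × ℝ => (0 : ℂ)) :=
  ⟨measurable_const, ⟨0, by simp⟩, 0, fun _ h => absurd rfl h⟩

lemma bd_add {f g : ℝ × ℝ → ℂ} (hf : Bd f) (hg : Bd g) : Bd (fun ξ => f ξ + g ξ) := by
  obtain ⟨hf1, ⟨B, hB⟩, R, hR⟩ := hf
  obtain ⟨hg1, ⟨B', hB'⟩, R', hR'⟩ := hg
  refine ⟨hf1.add hg1, ⟨B + B', fun ξ => (norm_add_le _ _).trans (add_le_add (hB ξ) (hB' ξ))⟩,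
    max R R', fun ξ h => ?_⟩
  by_cases h0 : f ξ = 0
  · have h1 : g ξ ≠ 0 := fun h1 => h (by simp [h0, h1])
    exact ⟨(hR' ξ h1).1.trans (le_max_right _ _), (hR' ξ h1).2.trans (le_max_right _ _)⟩
  · exact ⟨(hR ξ h0).1.trans (le_max_left _ _), (hR ξ h0).2.trans (le_max_left _ _)⟩

lemma bd_cmul {f : ℝ × ℝ → ℂ} (c : ℂ) (hf : Bd f) : Bd (fun ξ => c * f ξ) := by
  obtain ⟨hf1, ⟨B, hB⟩, R, hR⟩ := hf
  refine ⟨hf1.const_mul c, ⟨‖c‖ * B, fun ξ => ?_⟩, R, fun ξ h => hR ξ (right_ne_zero_of_mul h)⟩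
  rw [norm_mul]
  exact mul_le_mul_of_nonneg_left (hB ξ) (norm_nonneg _)

lemma bd_sum {ι : Type*} (F : Finset ι) {f : ι → ℝ × ℝ → ℂ} (hf : ∀ i, Bd (f i)) :
    Bd (fun ξ => ∑ i ∈ F, f i ξ) := by
  classical
  induction F using Finset.induction_on with
  | empty => simpa using bd_zero
  | insert i F hi ih =>
    have := bd_add (hf i) ih
    simpa [Finset.sum_insert hi] using this

lemma ee_norm (t : ℝ) : ‖ee t‖ = 1 := by
  unfold ee
  rw [Complex.norm_exp]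
  simp

lemma ee_cont : Continuous ee := by
  unfold ee
  fun_prop

lemma ex_int {f : ℝ × ℝ → ℂ} (hf : Bd f) (x : ℝ × ℝ) :
    Integrable (fun ξ => f ξ * ee (dot x ξ)) := by
  have h1 : Integrable f := memLp_one_iff_integrable.1 (bd_memLp hf 1)
  have hc : Continuous fun ξ : ℝ × ℝ => ee (dot x ξ) := by
    refine ee_cont.comp ?_
    unfold dot
    fun_prop
  refine h1.mul_bdd (c := 1) hc.aestronglyMeasurable (Filter.Eventually.of_forall fun ξ => ?_)
  rw [ee_norm]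

lemma ex_sum {ι : Type*} (F : Finset ι) {f : ι → ℝ × ℝ → ℂ} (hf : ∀ i, Bd (f i)) (x : ℝ × ℝ) :
    Ex (fun ξ => ∑ i ∈ F, f i ξ) x = ∑ i ∈ F, Ex (f i) x := by
  unfold Ex
  rw [← integral_finsetSum _ fun i _ => ex_int (hf i) x]
  refine integral_congr_ae (Filter.Eventually.of_forall fun ξ => ?_)
  simp only [Finset.sum_mul]

/-! ### Elementary inequalities -/

lemma sq_sum_le {ι : Type*} (F : Finset ι) (z : ι → ℂ) :
    ‖∑ i ∈ F, z i‖ₑ ^ 2 ≤ F.card * ∑ i ∈ F, ‖z i‖ₑ ^ 2 := by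
  have h1 : ‖∑ i ∈ F, z i‖₊ ≤ ∑ i ∈ F, ‖z i‖₊ := nnnorm_sum_le _ _
  have h2 : (∑ i ∈ F, ‖z i‖₊) ^ 2 ≤ (F.card : ℝ≥0) * ∑ i ∈ F, ‖z i‖₊ ^ 2 :=
    sq_sum_le_card_mul_sum_sq
  have h3 : ‖∑ i ∈ F, z i‖₊ ^ 2 ≤ (F.card : ℝ≥0) * ∑ i ∈ F, ‖z i‖₊ ^ 2 :=
    (pow_le_pow_left₀ zero_le h1 2).trans h2
  simp only [enorm_eq_nnnorm]
  exact_mod_cast h3

/-- telescoping of differences of a decreasing sequence of sets -/
lemma tele {M : Type*} [AddCommMonoid M] (S : ℕ → Set (ℝ × ℝ)) (hS : ∀ i j, i ≤ j → S j ⊆ S i)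
    (g : ℝ × ℝ → M) (ξ : ℝ × ℝ) (α β : ℕ) (h : α ≤ β) :
    ∑ d ∈ Finset.Ico α β, (S d \ S (d + 1)).indicator g ξ = (S α \ S β).indicator g ξ := by
  induction β, h using Nat.le_induction with
  | base => simp
  | succ β hβ ih =>
    rw [Finset.sum_Ico_succ_top hβ, ih]
    have s1 := hS α β hβ
    have s2 := hS β (β + 1) (Nat.le_succ β)
    by_cases h1 : ξ ∈ S α
    · by_cases h2 : ξ ∈ S β
      · by_cases h3 : ξ ∈ S (β + 1)
        · simp [h1, h2, h3]
        · simp [h1, h2, h3]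
      · have h3 : ξ ∉ S (β + 1) := fun h3 => h2 (s2 h3)
        simp [h1, h2, h3]
    · have h2 : ξ ∉ S β := fun h2 => h1 (s1 h2)
      simp [h1, h2]

/-- increasing enumeration of a finite set -/
lemma enum (A : Finset ℕ) : ∃ lv : ℕ → ℕ, (∀ j < A.card, lv j ∈ A) ∧
    (∀ i j, i < j → j < A.card → lv i < lv j) ∧
    ∀ f : ℕ → ℝ≥0∞, ∑ l ∈ A, f l = ∑ j ∈ Finset.range A.card, f (lv j) := by
  refine ⟨fun j => if h : j < A.card then A.orderEmbOfFin rfl ⟨j, h⟩ else 0, ?_, ?_, ?_⟩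
  · intro j hj
    simp only [dif_pos hj]
    exact A.orderEmbOfFin_mem rfl _
  · intro i j hij hj
    simp only [dif_pos hj, dif_pos (hij.trans hj)]
    exact (A.orderEmbOfFin rfl).strictMono (by simpa using hij)
  · intro f
    rw [Finset.sum_range]
    have h1 : A = (Finset.univ : Finset (Fin A.card)).map (A.orderEmbOfFin rfl).toEmbedding :=
      (Finset.map_orderEmbOfFin_univ A rfl).symm
    conv_lhs => rw [h1]
    rw [Finset.sum_map]
    refine Finset.sum_congr rfl fun i _ => ?_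
    simp

/-! ### Segment averages -/

lemma inn_closed (δ : ℝ) (X : Set (ℝ × ℝ)) : IsClosed (inn δ X) := by
  rw [← isOpen_compl_iff]
  have e : (inn δ X)ᶜ = ⋃ y ∈ Xᶜ, {x : ℝ × ℝ | |y.1 - x.1| < δ ∧ |y.2 - x.2| < δ} := by
    ext x
    simp only [inn, mem_compl_iff, mem_ofPred_eq, not_forall, mem_iUnion, exists_prop]
    constructor
    · rintro ⟨y, h1, h2, h3⟩
      exact ⟨y, h3, h1, h2⟩
    · rintro ⟨y, h3, h1, h2⟩
      exact ⟨y, h1, h2, h3⟩
  rw [e]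
  refine isOpen_biUnion fun y _ => ?_
  have h1 : Continuous fun x : ℝ × ℝ => |y.1 - x.1| := by fun_prop
  have h2 : Continuous fun x : ℝ × ℝ => |y.2 - x.2| := by fun_prop
  exact (isOpen_lt h1 continuous_const).inter (isOpen_lt h2 continuous_const)

lemma sa_meas (t L : ℝ) {X : Set (ℝ × ℝ)} (hX : MeasurableSet X) : Measurable (sa t L X) := by
  unfold sa
  refine Measurable.const_mul ?_ _
  have h : Measurable fun z : (ℝ × ℝ) × ℝ => X.indicator (1 : ℝ × ℝ → ℝ≥0∞) (z.1 + z.2 • nv t) := by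
    refine (measurable_one.indicator hX).comp ?_
    exact (continuous_fst.add (continuous_snd.smul continuous_const)).measurable
  exact h.lintegral_prod_right'

lemma sa_le (t L : ℝ) (X : Set (ℝ × ℝ)) (x : ℝ × ℝ) : sa t L X x ≤ 1 := by
  unfold sa
  have h : ∫⁻ s in Icc (-L) L, X.indicator (1 : ℝ × ℝ → ℝ≥0∞) (x + s • nv t) ≤
      ENNReal.ofReal (2 * L) := by
    calc ∫⁻ s in Icc (-L) L, X.indicator (1 : ℝ × ℝ → ℝ≥0∞) (x + s • nv t)
        ≤ ∫⁻ _ in Icc (-L) L, 1 := lintegral_mono fun s => indicator_le_self' (by simp) _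
      _ = ENNReal.ofReal (2 * L) := by
        rw [lintegral_one, Measure.restrict_apply_univ, Real.volume_Icc]
        congr 1
        ring
  calc (ENNReal.ofReal (2 * L))⁻¹ * _ ≤ (ENNReal.ofReal (2 * L))⁻¹ * ENNReal.ofReal (2 * L) :=
        mul_le_mul_right h _
    _ ≤ 1 := ENNReal.inv_mul_le_one _

/-! ### Intervals -/

lemma cd_meas (sg : ℝ) (l c : ℕ) : MeasurableSet {ξ : ℝ × ℝ | cd sg l c ξ} := by
  have h : Measurable nr := by
    unfold nr
    fun_prop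
  have h2 : Measurable fun ξ : ℝ × ℝ => (4 : ℝ) ^ l * (nr ξ - sg) :=
    (h.sub_const sg).const_mul _
  exact (measurableSet_le measurable_const h2).inter (measurableSet_lt h2 measurable_const)

lemma cdr_anc {sg ρ : ℝ} {l l' c : ℕ} (h : l ≤ l') (hc : cdr sg l' c ρ) :
    cdr sg l (c / 4 ^ (l' - l)) ρ := by
  obtain ⟨h1, h2⟩ := hc
  have hp : (0 : ℝ) < 4 ^ (l' - l) := by positivity
  have e : (4 : ℝ) ^ l' * (ρ - sg) = 4 ^ (l' - l) * (4 ^ l * (ρ - sg)) := by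
    rw [← mul_assoc, ← pow_add, Nat.sub_add_cancel h]
  rw [e] at h1 h2
  have hN : 0 < 4 ^ (l' - l) := by positivity
  have d1 : c / 4 ^ (l' - l) * 4 ^ (l' - l) ≤ c := Nat.div_mul_le_self _ _
  have d2 : c + 1 ≤ (c / 4 ^ (l' - l) + 1) * 4 ^ (l' - l) := by
    have := Nat.lt_div_mul_add (a := c) hN
    nlinarith
  have d1' : ((c / 4 ^ (l' - l) : ℕ) : ℝ) * 4 ^ (l' - l) ≤ c := by exact_mod_cast d1
  have d2' : (c : ℝ) + 1 ≤ (((c / 4 ^ (l' - l) : ℕ) : ℝ) + 1) * 4 ^ (l' - l) := by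
    exact_mod_cast d2
  constructor
  · have : ((c / 4 ^ (l' - l) : ℕ) : ℝ) * 4 ^ (l' - l) ≤ (4 ^ l * (ρ - sg)) * 4 ^ (l' - l) := by
      linarith
    exact le_of_mul_le_mul_right this hp
  · have : (4 ^ l * (ρ - sg)) * 4 ^ (l' - l) <
        (((c / 4 ^ (l' - l) : ℕ) : ℝ) + 1) * 4 ^ (l' - l) := by linarith
    exact lt_of_mul_lt_mul_right this hp.le

lemma cd_chain {sg : ℝ} {m r l l' : ℕ} {ξ : ℝ × ℝ} (h : l ≤ l') (hm : l' ≤ m)
    (hc : cd sg l' (r / 4 ^ (m - l')) ξ) : cd sg l (r / 4 ^ (m - l)) ξ := by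
  have := cdr_anc h hc
  rw [Nat.div_div_eq_div_mul, ← pow_add] at this
  have e : m - l' + (l' - l) = m - l := by omega
  rwa [e] at this

lemma cp_inj {sl : ℝ} {j p p' : ℕ} {ξ : ℝ × ℝ} (h : cp sl j p ξ) (h' : cp sl j p' ξ) :
    p = p' := by
  obtain ⟨-, h1, h2⟩ := h
  obtain ⟨-, h3, h4⟩ := h'
  have a1 : (p : ℝ) < p' + 1 := lt_of_le_of_lt h1 h4
  have a2 : (p' : ℝ) < p + 1 := lt_of_le_of_lt h3 h2
  have b1 : p < p' + 1 := by exact_mod_cast a1
  have b2 : p' < p + 1 := by exact_mod_cast a2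
  omega

/-! ### The functional `chn` -/

/-- the multipliers of level `l` on the chain of `r` -/
def MU (a m : ℕ) (sg sl : ℝ) (e : ℕ → ℕ) (r l : ℕ) : Prop :=
  ∀ p < 3 * 2 ^ (e l + 8 * a), Bd (mu a m sg sl l (e l + 8 * a) (r / 4 ^ (m - l)) p) ∧
    (∀ ξ, ‖mu a m sg sl l (e l + 8 * a) (r / 4 ^ (m - l)) p ξ‖ ≤ 1) ∧
    ∀ ξ, mu a m sg sl l (e l + 8 * a) (r / 4 ^ (m - l)) p ξ ≠ 0 →
      cd sg l (r / 4 ^ (m - l)) ξ ∧ cp sl (e l + 8 * a) p ξ

variable {a m : ℕ} {sg sl : ℝ} {e : ℕ → ℕ} {L : ℕ → ℝ} {X : ℕ → ℕ → Set (ℝ × ℝ)} {r l : ℕ}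

lemma chn_congr (hM : MU a m sg sl e r l) {k k' : ℝ × ℝ → ℂ}
    (h : ∀ ξ, cd sg l (r / 4 ^ (m - l)) ξ → k ξ = k' ξ) :
    chn a m sg sl e L X r l k = chn a m sg sl e L X r l k' := by
  unfold chn
  refine Finset.sum_congr rfl fun p hp => ?_
  have e1 : (fun ξ => mu a m sg sl l (e l + 8 * a) (r / 4 ^ (m - l)) p ξ * k ξ) =
      fun ξ => mu a m sg sl l (e l + 8 * a) (r / 4 ^ (m - l)) p ξ * k' ξ := by
    funext ξ
    by_cases h0 : mu a m sg sl l (e l + 8 * a) (r / 4 ^ (m - l)) p ξ = 0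
    · rw [h0, zero_mul, zero_mul]
    · rw [h ξ ((hM p (Finset.mem_range.1 hp)).2.2 ξ h0).1]
  rw [e1]

lemma ex_meas {f : ℝ × ℝ → ℂ} (hf : Bd f) : Measurable fun x => ‖Ex f x‖ₑ ^ 2 :=
  ((KSP.pPl2 f hf).1.measurable.enorm).pow_const 2

lemma chn_sum (hM : MU a m sg sl e r l) {ι : Type*} (F : Finset ι) {k : ι → ℝ × ℝ → ℂ}
    (hk : ∀ i, Bd (k i)) :
    chn a m sg sl e L X r l (fun ξ => ∑ i ∈ F, k i ξ) ≤
      F.card * ∑ i ∈ F, chn a m sg sl e L X r l (k i) := by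
  unfold chn
  rw [Finset.sum_comm, Finset.mul_sum]
  refine Finset.sum_le_sum fun p hp => ?_
  have hmu := (hM p (Finset.mem_range.1 hp)).1
  have hs := sa_meas (tp sl (e l + 8 * a) p) (L l)
    (inn_closed (de a (e l)) (X l (r / 4 ^ (m - l)))).measurableSet
  have hb : ∀ i, Bd (fun ξ => mu a m sg sl l (e l + 8 * a) (r / 4 ^ (m - l)) p ξ * k i ξ) :=
    fun i => bd_mul hmu (hk i)
  have e1 : (fun ξ => mu a m sg sl l (e l + 8 * a) (r / 4 ^ (m - l)) p ξ * ∑ i ∈ F, k i ξ) =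
      fun ξ => ∑ i ∈ F, mu a m sg sl l (e l + 8 * a) (r / 4 ^ (m - l)) p ξ * k i ξ := by
    funext ξ
    rw [Finset.mul_sum]
  have hsm : ∀ i, Measurable fun x =>
      sa (tp sl (e l + 8 * a) p) (L l) (inn (de a (e l)) (X l (r / 4 ^ (m - l)))) x *
      ‖Ex (fun ξ => mu a m sg sl l (e l + 8 * a) (r / 4 ^ (m - l)) p ξ * k i ξ) x‖ₑ ^ 2 :=
    fun i => hs.mul (ex_meas (hb i))
  rw [e1, ← lintegral_finsetSum _ fun i _ => hsm i,
    ← lintegral_const_mul _ (Finset.measurable_fun_sum _ fun i _ => hsm i)]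
  refine lintegral_mono fun x => ?_
  rw [ex_sum F hb]
  refine (mul_le_mul_right (sq_sum_le F _) _).trans (le_of_eq ?_)
  rw [← Finset.mul_sum]
  ring

lemma chn_le (hM : MU a m sg sl e r l) {k : ℝ × ℝ → ℂ} (hk : Bd k) :
    chn a m sg sl e L X r l k ≤ n2 k := by
  unfold chn
  set μ := fun p => mu a m sg sl l (e l + 8 * a) (r / 4 ^ (m - l)) p with hμ
  calc ∑ p ∈ Finset.range (3 * 2 ^ (e l + 8 * a)), ∫⁻ x,
        sa (tp sl (e l + 8 * a) p) (L l) (inn (de a (e l)) (X l (r / 4 ^ (m - l)))) x *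
        ‖Ex (fun ξ => μ p ξ * k ξ) x‖ₑ ^ 2
      ≤ ∑ p ∈ Finset.range (3 * 2 ^ (e l + 8 * a)), ∫⁻ ξ, ‖μ p ξ * k ξ‖ₑ ^ 2 := by
        refine Finset.sum_le_sum fun p hp => ?_
        have h1 := (KSP.pPl2 _ (bd_mul (hM p (Finset.mem_range.1 hp)).1 hk)).2
        unfold n2 at h1
        rw [← h1]
        refine lintegral_mono fun x => ?_
        exact (mul_le_mul_left (sa_le _ _ _ _) _).trans (le_of_eq (one_mul _))
    _ = ∫⁻ ξ, ∑ p ∈ Finset.range (3 * 2 ^ (e l + 8 * a)), ‖μ p ξ * k ξ‖ₑ ^ 2 := by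
        rw [lintegral_finsetSum]
        intro p hp
        exact ((bd_mul (hM p (Finset.mem_range.1 hp)).1 hk).1.enorm).pow_const 2
    _ ≤ n2 k := by
        unfold n2
        refine lintegral_mono fun ξ => ?_
        by_cases h0 : ∃ p ∈ Finset.range (3 * 2 ^ (e l + 8 * a)), μ p ξ ≠ 0
        · obtain ⟨p, hp, h1⟩ := h0
          rw [Finset.sum_eq_single_of_mem p hp]
          · rw [enorm_mul, mul_pow]
            have h2 : ‖μ p ξ‖ₑ ≤ 1 := by
              have := (hM p (Finset.mem_range.1 hp)).2.1 ξ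
              rw [← ofReal_norm]
              exact ENNReal.ofReal_le_one.2 this
            calc ‖μ p ξ‖ₑ ^ 2 * ‖k ξ‖ₑ ^ 2 ≤ 1 ^ 2 * ‖k ξ‖ₑ ^ 2 :=
                  mul_le_mul_left (pow_le_pow_left₀ zero_le h2 2) _
              _ = ‖k ξ‖ₑ ^ 2 := by simp
          · intro p' hp' hne
            have h3 : μ p' ξ = 0 := by
              by_contra h3
              exact hne (cp_inj ((hM p' (Finset.mem_range.1 hp')).2.2 ξ h3).2
                ((hM p (Finset.mem_range.1 hp)).2.2 ξ h1).2)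
            simp [h3]
        · push Not at h0
          rw [Finset.sum_eq_zero]
          · exact zero_le
          · intro p hp
            simp [h0 p hp]

lemma n2_tele (S : ℕ → Set (ℝ × ℝ)) (hS : ∀ i j, i ≤ j → S j ⊆ S i)
    (hSm : ∀ i, MeasurableSet (S i)) {k : ℝ × ℝ → ℂ} (hk : Bd k) (α β : ℕ) (h : α ≤ β) :
    n2 ((S α \ S β).indicator k) = ∑ d ∈ Finset.Ico α β, n2 ((S d \ S (d + 1)).indicator k) := by
  unfold n2
  rw [← lintegral_finsetSum _ fun d _ =>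
    ((hk.1.indicator ((hSm d).diff (hSm (d + 1)))).enorm).pow_const 2]
  refine lintegral_congr fun ξ => ?_
  have e1 : ∀ T : Set (ℝ × ℝ), ‖T.indicator k ξ‖ₑ ^ 2 = T.indicator (fun ξ => ‖k ξ‖ₑ ^ 2) ξ := by
    intro T
    by_cases hT : ξ ∈ T
    · simp [hT]
    · simp [hT]
  simp only [e1]
  rw [tele S hS _ ξ α β h]

/-- numbers -/
lemma num (a K : ℕ) (ha : 1 ≤ a) (N : ℝ≥0∞) :
    2 * N + 2 * ((4 * K + 1) * (a + 1) ^ 2 * N) ≤ ((34 : ℝ≥0) : ℝ≥0∞) * a ^ 2 * (K + 1) * N := by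
  have h : 2 + 2 * ((4 * K + 1) * (a + 1) ^ 2) ≤ 34 * a ^ 2 * (K + 1) := by
    have h1 : (a + 1) ^ 2 ≤ 4 * a ^ 2 := by nlinarith
    have h2 : (4 * K + 1) * (a + 1) ^ 2 ≤ (4 * K + 1) * (4 * a ^ 2) := Nat.mul_le_mul_left _ h1
    have h3 : 1 ≤ a ^ 2 := Nat.one_le_pow _ _ ha
    nlinarith
  have h' : (2 : ℝ≥0∞) + 2 * ((4 * K + 1) * (a + 1) ^ 2) ≤ 34 * a ^ 2 * (K + 1) := by
    exact_mod_cast h
  calc 2 * N + 2 * ((4 * K + 1) * (a + 1) ^ 2 * N)
      = (2 + 2 * ((4 * K + 1) * (a + 1) ^ 2)) * N := by ring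
    _ ≤ (34 * a ^ 2 * (K + 1)) * N := mul_le_mul_left h' N
    _ = _ := by norm_num

end HB_

open HB_ in
/-- E5 -/
theorem pHB (hHA : tHA) (hRMQ : tRMQ) (hMUS : tMUS) : tHB := by
  classical
  refine ⟨34, ?_⟩
  intro a m K sg sl LL e L X r k hPA hsg0 hsg1 hsl1 hsl2 hCL hX hK hr hk
  obtain ⟨hLL1, hLL2⟩ := hCL
  have ha1 : 1 ≤ a := by have := hPA.1; omega
  set A : Finset ℕ := LL.filter (fun l => adm a sg LL l (r / 4 ^ (m - l))) with hA
  have hAm : ∀ l ∈ A, l ∈ LL ∧ adm a sg LL l (r / 4 ^ (m - l)) := fun l hl => by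
    rw [hA, Finset.mem_filter] at hl
    exact hl
  -- the multipliers
  have hMU : ∀ l ∈ A, MU a m sg sl e r l := by
    intro l hl p hp
    obtain ⟨h1, ζ, hζ1, -, hζ3, -⟩ := hAm l hl
    obtain ⟨q1, q2, q3, q4, -⟩ := hLL1 l h1
    have hc : r / 4 ^ (m - l) < 2 * 4 ^ l := by
      rw [Nat.div_lt_iff_lt_mul (by positivity), mul_assoc, ← pow_add, Nat.add_sub_cancel' q2]
      exact hr
    have hc2 : 1 < sg + ((r / 4 ^ (m - l) : ℕ) + 1) / 4 ^ l := by
      have h4 : (0 : ℝ) < 4 ^ l := by positivity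
      have := hζ3.2
      have h5 : ζ - sg < ((r / 4 ^ (m - l) : ℕ) + 1) / 4 ^ l := by
        rw [lt_div_iff₀ h4]
        linarith
      linarith
    exact (hMUS a m sg sl l (e l + 8 * a) (r / 4 ^ (m - l)) p hPA hsg0 hsg1 hsl1 hsl2 q1 q2
      (by omega) (by omega) hc hc2 hp).1
  obtain ⟨lv, lv1, lv2, lv3⟩ := enum A
  set D := A.card with hD
  have hlm : ∀ j < D, lv j ≤ m := fun j hj => (hLL1 _ (hAm _ (lv1 j hj)).1).2.1
  -- the sets
  set S : ℕ → Set (ℝ × ℝ) := fun d => if d < D then {ξ | cd sg (lv d) (r / 4 ^ (m - lv d)) ξ}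
    else ∅ with hSdef
  have hS1 : ∀ d, d < D → S d = {ξ | cd sg (lv d) (r / 4 ^ (m - lv d)) ξ} := fun d hd => by
    rw [hSdef]
    simp only [if_pos hd]
  have hS2 : S D = ∅ := by
    rw [hSdef]
    simp
  have hSm : ∀ d, MeasurableSet (S d) := by
    intro d
    by_cases hd : d < D
    · rw [hS1 d hd]
      exact cd_meas _ _ _
    · rw [hSdef]
      simp [hd]
  have hSa : ∀ i j, i ≤ j → S j ⊆ S i := by
    intro i j hij
    rcases hij.eq_or_lt with rfl | hij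
    · exact subset_rfl
    by_cases hj : j < D
    · rw [hS1 j hj, hS1 i (hij.trans hj)]
      intro ξ hξ
      exact cd_chain (lv2 i j hij hj).le (hlm j hj) hξ
    · rw [hSdef]
      simp [hj]
  set kk : ℕ → ℝ × ℝ → ℂ := fun d => (S d \ S (d + 1)).indicator k with hkk
  have hkkB : ∀ d, Bd (kk d) := fun d => bd_ind hk ((hSm d).diff (hSm (d + 1)))
  set comb : (ℕ → ℂ) → ℝ × ℝ → ℂ := fun v ξ => ∑ d ∈ Finset.range D, v d * kk d ξ with hcomb
  have hcombB : ∀ v, Bd (comb v) := fun v => bd_sum _ fun d => bd_cmul (v d) (hkkB d)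
  have hcombI : ∀ α β, α ≤ β → β ≤ D →
      comb ((Ico α β).indicator 1) = (S α \ S β).indicator k := by
    intro α β h1 h2
    funext ξ
    rw [← tele S hSa k ξ α β h1, hcomb]
    simp only
    have e1 : ∀ d, (Ico α β).indicator (1 : ℕ → ℂ) d * kk d ξ =
        if d ∈ Finset.Ico α β then kk d ξ else 0 := by
      intro d
      by_cases hd : d ∈ Ico α β
      · have hd' : d ∈ Finset.Ico α β := by simpa using hd
        simp [hd, hd']
      · have hd' : d ∉ Finset.Ico α β := by simpa using hd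
        simp [hd, hd']
    simp only [e1]
    rw [← Finset.sum_filter]
    refine Finset.sum_congr ?_ fun _ _ => rfl
    ext d
    simp only [Finset.mem_filter, Finset.mem_range, Finset.mem_Ico]
    omega
  set q : ℕ → (ℕ → ℂ) → ℝ≥0∞ := fun j v =>
    if j < D then chn a m sg sl e L X r (lv j) (comb v) else 0 with hq
  have hq1 : ∀ j (F : Finset ℕ) (v : ℕ → ℕ → ℂ), q j (∑ i ∈ F, v i) ≤
      F.card * ∑ i ∈ F, q j (v i) := by
    intro j F v
    rw [hq]
    by_cases hj : j < D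
    · simp only [if_pos hj]
      have e1 : comb (∑ i ∈ F, v i) = fun ξ => ∑ i ∈ F, comb (v i) ξ := by
        funext ξ
        rw [hcomb]
        simp only [Finset.sum_apply, Finset.sum_mul]
        rw [Finset.sum_comm]
      rw [e1]
      exact chn_sum (hMU _ (lv1 j hj)) F fun i => hcombB (v i)
    · simp [hj]
  have hq2 : ∀ α β, α < β → β ≤ D → ∑ j ∈ Finset.range α, q j ((Ico α β).indicator 1) ≤
      (4 * K + 1) * ∑ d ∈ Finset.Ico α β, n2 (kk d) := by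
    intro α β h1 h2
    have hα : α < D := by omega
    have hcB : Bd ((S α \ S β).indicator k) := bd_ind hk ((hSm α).diff (hSm β))
    have h3 := hHA a m K sg sl LL e L X r (lv α) ((S α \ S β).indicator k) hPA hsg0 hsg1 hsl1 hsl2
      ⟨hLL1, hLL2⟩ hX hK hr (hAm _ (lv1 α hα)).1 (hAm _ (lv1 α hα)).2 hcB (by
        intro ξ hξ
        have hξ2 : ξ ∈ S α \ S β := by
          by_contra h
          exact hξ (indicator_of_notMem h _)
        have := hξ2.1
        rw [hS1 α hα] at this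
        exact this)
    rw [n2_tele S hSa hSm hk α β h1.le] at h3
    refine le_trans ?_ h3
    have e1 : ∀ j ∈ Finset.range α, q j ((Ico α β).indicator 1) =
        chn a m sg sl e L X r (lv j) ((S α \ S β).indicator k) := by
      intro j hj
      have hjD : j < D := by have := Finset.mem_range.1 hj; omega
      rw [hq]
      simp only [if_pos hjD]
      rw [hcombI α β h1.le h2]
    rw [Finset.sum_congr rfl e1]
    have hinj : Set.InjOn lv (Finset.range α : Set ℕ) := by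
      intro i hi j hj hij
      have hi' : i < α := by simpa using hi
      have hj' : j < α := by simpa using hj
      rcases lt_trichotomy i j with h | h | h
      · exact absurd hij (lv2 i j h (by omega)).ne
      · exact h
      · exact absurd hij (lv2 j i h (by omega)).ne'
    rw [← Finset.sum_image (f := fun l => chn a m sg sl e L X r l ((S α \ S β).indicator k)) hinj]
    refine Finset.sum_le_sum_of_subset ?_
    intro l hl
    obtain ⟨j, hj, rfl⟩ := Finset.mem_image.1 hl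
    have hj' : j < α := Finset.mem_range.1 hj
    exact Finset.mem_filter.2 ⟨(hAm _ (lv1 j (by omega))).1, lv2 j α hj' hα⟩
  have hDa : D ≤ 2 ^ a := by
    have h1 : D ≤ (Finset.Ioc 0 m).card := by
      refine Finset.card_le_card fun l hl => ?_
      obtain ⟨q1, q2, -⟩ := hLL1 l (hAm l hl).1
      exact Finset.mem_Ioc.2 ⟨by omega, q2⟩
    rw [Nat.card_Ioc] at h1
    have := hPA.2.1
    omega
  have hmain := hRMQ D a (4 * K + 1) q (fun d => n2 (kk d)) hDa hq1 hq2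
  have hw : ∑ d ∈ Finset.range D, n2 (kk d) ≤ n2 k := by
    have h1 := n2_tele S hSa hSm hk 0 D (Nat.zero_le _)
    rw [← Finset.range_eq_Ico] at h1
    rw [hkk]
    simp only
    rw [← h1]
    unfold n2
    refine lintegral_mono fun ξ => ?_
    exact pow_le_pow_left₀ zero_le (enorm_indicator_le_enorm_self k ξ) 2
  have hstep : ∀ j ∈ Finset.range D, chn a m sg sl e L X r (lv j) k ≤
      2 * n2 (kk j) + 2 * q j ((Ioo j D).indicator 1) := by
    intro j hj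
    have hjD : j < D := Finset.mem_range.1 hj
    have hM := hMU _ (lv1 j hjD)
    have e1 : (Ioo j D).indicator (1 : ℕ → ℂ) = (Ico (j + 1) D).indicator 1 := by
      congr 1
    have e2 : q j ((Ioo j D).indicator 1) =
        chn a m sg sl e L X r (lv j) ((S (j + 1)).indicator k) := by
      rw [e1, hq]
      simp only [if_pos hjD]
      rw [hcombI (j + 1) D hjD le_rfl, hS2, sdiff_empty]
    set g : Fin 2 → ℝ × ℝ → ℂ := ![kk j, (S (j + 1)).indicator k] with hg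
    have hgB : ∀ i, Bd (g i) := by
      intro i
      fin_cases i
      · exact hkkB j
      · exact bd_ind hk (hSm (j + 1))
    have h1 := chn_sum (L := L) (X := X) hM (Finset.univ : Finset (Fin 2)) hgB
    have h2 : chn a m sg sl e L X r (lv j) k =
        chn a m sg sl e L X r (lv j) (fun ξ => ∑ i, g i ξ) := by
      refine chn_congr hM fun ξ hξ => ?_
      rw [Fin.sum_univ_two]
      show k ξ = (S j \ S (j + 1)).indicator k ξ + (S (j + 1)).indicator k ξ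
      have hξS : ξ ∈ S j := by
        rw [hS1 j hjD]
        exact hξ
      by_cases h3 : ξ ∈ S (j + 1)
      · simp [h3]
      · simp [h3, hξS]
    rw [h2, e2]
    refine h1.trans ?_
    rw [Fin.sum_univ_two]
    simp only [Finset.card_univ, Fintype.card_fin, Nat.cast_ofNat]
    rw [mul_add]
    exact add_le_add (mul_le_mul_right (chn_le hM (hkkB j)) _) le_rfl
  calc ∑ l ∈ A, chn a m sg sl e L X r l k
      = ∑ j ∈ Finset.range D, chn a m sg sl e L X r (lv j) k := lv3 _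
    _ ≤ ∑ j ∈ Finset.range D, (2 * n2 (kk j) + 2 * q j ((Ioo j D).indicator 1)) :=
        Finset.sum_le_sum hstep
    _ = 2 * (∑ j ∈ Finset.range D, n2 (kk j)) +
          2 * ∑ j ∈ Finset.range D, q j ((Ioo j D).indicator 1) := by
        rw [Finset.sum_add_distrib, Finset.mul_sum, Finset.mul_sum]
    _ ≤ 2 * n2 k + 2 * ((4 * K + 1) * (a + 1) ^ 2 * n2 k) := by
        refine add_le_add (mul_le_mul_right hw _) (mul_le_mul_right ?_ _)
        exact hmain.trans (mul_le_mul_right hw _)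
    _ ≤ _ := num a K ha1 _

end Pool.Agent.LLog
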