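import Pool.Agent.LLog.MAV

set_option autoImplicit false

/-! KAP: the kernel `sinc ^ N` -/

namespace Pool.Agent.LLog

open MeasureTheory Set
open scoped ENNReal NNReal ComplexConjugate
open Pool.Agent.KSP (ee dot nr Ex Ex1 Bd Bd1 n1 n2 lg V0 ann)

namespace KAP_

/-- the unnormalised kernel -/
noncomputable def gN (N : ℕ) (b t : ℝ) : ℝ := (Real.sinc (Real.pi * b * t / N)) ^ N

lemma kap_eq (N : ℕ) (b t : ℝ) : kap N b t = gN N b t / ∫ t', gN N b t' := rfl

lemma gN_cont (N : ℕ) (b : ℝ) : Continuous (gN N b) := by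
  unfold gN
  fun_prop

lemma gN_nonneg {N : ℕ} (hN : Even N) (b t : ℝ) : 0 ≤ gN N b t := hN.pow_nonneg _

lemma gN_neg (N : ℕ) (b t : ℝ) : gN N b (-t) = gN N b t := by
  unfold gN
  have : Real.pi * b * -t / N = -(Real.pi * b * t / N) := by ring
  rw [this, Real.sinc_neg]

lemma abs_sinc_le (x : ℝ) (hx : x ≠ 0) : |Real.sinc x| ≤ |x|⁻¹ := by
  rw [Real.sinc_of_ne_zero hx, abs_div, div_eq_mul_inv]
  calc |Real.sin x| * |x|⁻¹ ≤ 1 * |x|⁻¹ :=
        mul_le_mul_of_nonneg_right (Real.abs_sin_le_one x) (inv_nonneg.2 (abs_nonneg _))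
    _ = |x|⁻¹ := one_mul _

lemma gN_abs {N : ℕ} (hN : Even N) (b t : ℝ) :
    gN N b t = |Real.sinc (Real.pi * b * t / N)| ^ N := by
  unfold gN
  rw [hN.pow_abs]

/-- decay -/
lemma gN_decay {N : ℕ} (hN : Even N) (hN6 : 6 ≤ N) {b t : ℝ} (hb : 0 < b) (ht : 0 < t) :
    gN N b t ≤ (N / (Real.pi * b)) ^ N * (t ^ N)⁻¹ := by
  have hN0 : (0 : ℝ) < N := by exact_mod_cast (by omega : 0 < N)
  have hx : 0 < Real.pi * b * t / N := by positivity
  rw [gN_abs hN]
  calc |Real.sinc (Real.pi * b * t / N)| ^ N ≤ (|Real.pi * b * t / N|⁻¹) ^ N :=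
        pow_le_pow_left₀ (abs_nonneg _) (abs_sinc_le _ hx.ne') N
    _ = (N / (Real.pi * b)) ^ N * (t ^ N)⁻¹ := by
        rw [abs_of_pos hx, ← inv_pow, ← mul_pow]
        congr 1
        field_simp

lemma gN_integrable {N : ℕ} (hN : Even N) (hN6 : 6 ≤ N) {b : ℝ} (hb : 0 < b) :
    Integrable (gN N b) := by
  have hN0 : (0 : ℝ) < N := by exact_mod_cast (by omega : 0 < N)
  set C : ℝ := 1 + (N / (Real.pi * b)) ^ 2 with hC
  refine Integrable.mono' (g := fun t => C * (1 + t ^ 2)⁻¹) (integrable_inv_one_add_sq.const_mul C)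
    (gN_cont N b).aestronglyMeasurable (Filter.Eventually.of_forall fun t => ?_)
  rw [Real.norm_eq_abs, abs_of_nonneg (gN_nonneg hN b t), gN_abs hN]
  set s := |Real.sinc (Real.pi * b * t / N)| with hs
  have hs1 : s ≤ 1 := Real.abs_sinc_le_one _
  have hs0 : 0 ≤ s := abs_nonneg _
  have h1 : s ^ N ≤ s ^ 2 := pow_le_pow_of_le_one hs0 hs1 (by omega)
  have h2 : s ^ 2 * t ^ 2 ≤ (N / (Real.pi * b)) ^ 2 := by
    by_cases ht : t = 0
    · rw [ht]
      have : (0 : ℝ) ^ 2 = 0 := by norm_num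
      rw [this, mul_zero]
      positivity
    · have hx : Real.pi * b * t / N ≠ 0 := by
        have := Real.pi_ne_zero
        positivity
      have h3 : s ≤ |Real.pi * b * t / N|⁻¹ := abs_sinc_le _ hx
      have h4 : s * |t| ≤ N / (Real.pi * b) := by
        have h5 : |Real.pi * b * t / N|⁻¹ * |t| = N / (Real.pi * b) := by
          rw [abs_div, abs_mul, abs_mul, abs_of_pos Real.pi_pos, abs_of_pos hb, abs_of_pos hN0]
          have : |t| ≠ 0 := abs_ne_zero.2 ht
          field_simp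
        rw [← h5]
        exact mul_le_mul_of_nonneg_right h3 (abs_nonneg _)
      have h6 := pow_le_pow_left₀ (mul_nonneg hs0 (abs_nonneg t)) h4 2
      rw [mul_pow, sq_abs t] at h6
      exact h6
  have h3 : s ^ 2 ≤ 1 := pow_le_one₀ hs0 hs1
  have h4 : 0 < 1 + t ^ 2 := by positivity
  rw [← div_eq_mul_inv, le_div_iff₀ h4, hC]
  nlinarith

/-- lower bound of the integral -/
lemma lower {N : ℕ} (hN : Even N) (hN6 : 6 ≤ N) {b : ℝ} (hb : 0 < b) :
    1 / (Real.pi * b) ≤ ∫ t, gN N b t := by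
  have hN0 : (0 : ℝ) < N := by exact_mod_cast (by omega : 0 < N)
  have hN1 : (6 : ℝ) ≤ N := by exact_mod_cast hN6
  set r : ℝ := 1 / (Real.pi * b) with hr
  have hπ := Real.pi_pos
  have hr0 : 0 < r := by positivity
  have h1 : ∀ t ∈ Icc (-r) r, (1 / 2 : ℝ) ≤ gN N b t := by
    intro t ht
    rw [gN_abs hN]
    set x : ℝ := |Real.pi * b * t / N| with hx
    have hxN : x ≤ 1 / N := by
      rw [hx, abs_div, abs_mul, abs_mul, abs_of_pos hπ, abs_of_pos hb, abs_of_pos hN0]
      have h2 : |t| ≤ r := abs_le.2 ht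
      have h3 : Real.pi * b * |t| ≤ Real.pi * b * r :=
        mul_le_mul_of_nonneg_left h2 (by positivity)
      have h4 : Real.pi * b * r = 1 := by
        rw [hr]
        field_simp
      rw [h4] at h3
      exact div_le_div_of_nonneg_right h3 hN0.le
    have hx0 : 0 ≤ x := abs_nonneg _
    have hs : 1 - x ^ 2 / 4 ≤ |Real.sinc (Real.pi * b * t / N)| := by
      have h2 : Real.sinc (Real.pi * b * t / N) = Real.sinc x := by
        rw [hx]
        rcases abs_choice (Real.pi * b * t / N) with h | h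
        · rw [h]
        · rw [h, Real.sinc_neg]
      rw [h2]
      rcases hx0.eq_or_lt with h0 | h0
      · rw [← h0, Real.sinc_zero]
        norm_num
      · have hx1 : x ≤ 1 := by
          refine hxN.trans ?_
          rw [div_le_iff₀ hN0]
          linarith
        have h3 := Real.sin_gt_sub_cube h0
        rw [Real.sinc_of_ne_zero h0.ne']
        refine le_trans ?_ (le_abs_self _)
        rw [le_div_iff₀ h0]
        have h4 : 0 < x ^ 3 := by positivity
        have h5 : (1 - x ^ 2 / 4) * x = x - x ^ 3 / 4 := by ring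
        rw [h5]
        linarith
    have h5 : x ^ 2 / 4 ≤ 1 / (4 * N ^ 2) := by
      have := pow_le_pow_left₀ hx0 hxN 2
      rw [div_pow, one_pow] at this
      have h6 : 1 / (4 * (N : ℝ) ^ 2) = 1 / (N : ℝ) ^ 2 / 4 := by
        field_simp
      rw [h6]
      linarith
    have h7 : 1 / (4 * (N : ℝ) ^ 2) ≤ 1 := by
      rw [div_le_one (by positivity)]
      nlinarith
    have h8 : 1 + (N : ℝ) * (-(1 / (4 * (N : ℝ) ^ 2))) ≤ (1 + -(1 / (4 * (N : ℝ) ^ 2))) ^ N :=
      one_add_mul_le_pow (by linarith) N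
    have h9 : (1 / 2 : ℝ) ≤ 1 + (N : ℝ) * (-(1 / (4 * (N : ℝ) ^ 2))) := by
      have : (N : ℝ) * (-(1 / (4 * (N : ℝ) ^ 2))) = -(1 / (4 * N)) := by
        field_simp
      rw [this]
      have h10 : 1 / (4 * (N : ℝ)) ≤ 1 / 2 := by
        rw [div_le_div_iff₀ (by positivity) (by norm_num)]
        linarith
      linarith
    calc (1 / 2 : ℝ) ≤ (1 + -(1 / (4 * (N : ℝ) ^ 2))) ^ N := h9.trans h8
      _ ≤ |Real.sinc (Real.pi * b * t / N)| ^ N := by
        refine pow_le_pow_left₀ (by linarith) ?_ N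
        linarith
  calc r = (1 / 2) * (2 * r) := by ring
    _ = ∫ _ in Icc (-r) r, (1 / 2 : ℝ) := by
      rw [setIntegral_const, smul_eq_mul, Measure.real, Real.volume_Icc,
        ENNReal.toReal_ofReal (by linarith)]
      ring
    _ ≤ ∫ t in Icc (-r) r, gN N b t := by
      refine setIntegral_mono_on (integrableOn_const (by simp))
        (gN_integrable hN hN6 hb).integrableOn measurableSet_Icc h1
    _ ≤ ∫ t, gN N b t :=
      setIntegral_le_integral (gN_integrable hN hN6 hb)
        (Filter.Eventually.of_forall fun t => gN_nonneg hN b t)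

/-- the numerical inequality -/
lemma num {N : ℕ} (hN6 : 6 ≤ N) :
    2 * (Real.pi * (N / (N - 1)) * (Real.pi ^ N)⁻¹) ≤ 1 / 2 ^ N := by
  have hN1 : (6 : ℝ) ≤ N := by exact_mod_cast hN6
  have hπ := Real.pi_gt_three
  have h1 : (N : ℝ) / (N - 1) ≤ 6 / 5 := by
    rw [div_le_div_iff₀ (by linarith) (by norm_num)]
    linarith
  obtain ⟨M, rfl⟩ := Nat.exists_eq_add_of_le hN6
  have h2 : (2 : ℝ) ^ M ≤ Real.pi ^ M := pow_le_pow_left₀ (by norm_num) (by linarith) M
  have h3 : (243 : ℝ) ≤ Real.pi ^ 5 := by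
    have := pow_le_pow_left₀ (by norm_num : (0 : ℝ) ≤ 3) hπ.le 5
    norm_num at this
    exact this
  have h4 : 0 < Real.pi := by linarith
  have h5 : 0 < Real.pi ^ (6 + M) := by positivity
  rw [← mul_assoc, ← div_eq_mul_inv, div_le_div_iff₀ h5 (by positivity), one_mul]
  have h6 : Real.pi ^ (6 + M) = Real.pi * Real.pi ^ 5 * Real.pi ^ M := by ring
  have h7 : (2 : ℝ) ^ (6 + M) = 64 * 2 ^ M := by
    rw [pow_add]
    norm_num
  rw [h6, h7]
  have h8 : 0 < (2 : ℝ) ^ M := by positivity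
  calc 2 * (Real.pi * (((6 + M : ℕ) : ℝ) / (((6 + M : ℕ) : ℝ) - 1))) * (64 * 2 ^ M)
      ≤ 2 * (Real.pi * (6 / 5)) * (64 * 2 ^ M) := by
        gcongr
    _ ≤ Real.pi * 243 * 2 ^ M := by nlinarith [mul_pos h4 h8]
    _ ≤ Real.pi * Real.pi ^ 5 * Real.pi ^ M := by
        gcongr

/-- iterated moving averages -/
lemma iter (hM : tMAV) {w : ℝ} (hw : 0 < w) (k : ℕ) :
    Measurable ((mav w)^[k] ((Icc (-(w / 2)) (w / 2)).indicator fun _ => w⁻¹)) ∧
    (∀ x, |(mav w)^[k] ((Icc (-(w / 2)) (w / 2)).indicator fun _ => w⁻¹) x| ≤ w⁻¹) ∧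
    (∀ x, (mav w)^[k] ((Icc (-(w / 2)) (w / 2)).indicator fun _ => w⁻¹) x ≠ 0 →
      |x| ≤ (k + 1) * (w / 2)) ∧
    ∀ s, Ex1 (fun ζ =>
      (((mav w)^[k] ((Icc (-(w / 2)) (w / 2)).indicator fun _ => w⁻¹) ζ : ℝ) : ℂ)) s =
      ((Real.sinc (Real.pi * w * s) ^ (k + 1) : ℝ) : ℂ) := by
  induction k with
  | zero =>
    simp only [Function.iterate_zero, id_eq]
    refine ⟨measurable_const.indicator measurableSet_Icc, ?_, ?_, ?_⟩
    · intro x
      by_cases hx : x ∈ Icc (-(w / 2)) (w / 2)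
      · rw [indicator_of_mem hx, abs_of_pos (inv_pos.2 hw)]
      · rw [indicator_of_notMem hx, abs_zero]
        exact (inv_pos.2 hw).le
    · intro x hx
      have : x ∈ Icc (-(w / 2)) (w / 2) := by
        by_contra h
        exact hx (indicator_of_notMem h _)
      rw [Nat.cast_zero, zero_add, one_mul]
      exact abs_le.2 this
    · intro s
      unfold Ex1
      have h1 : (fun τ : ℝ => ((((Icc (-(w / 2)) (w / 2)).indicator (fun _ => w⁻¹) τ : ℝ)) : ℂ) *
          ee (s * τ)) = (Icc (-(w / 2)) (w / 2)).indicator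
            fun τ => ((w⁻¹ : ℝ) : ℂ) * ee (s * τ) := by
        funext τ
        by_cases hx : τ ∈ Icc (-(w / 2)) (w / 2)
        · rw [indicator_of_mem hx, indicator_of_mem hx]
        · rw [indicator_of_notMem hx, indicator_of_notMem hx]
          simp
      rw [h1, integral_indicator measurableSet_Icc, integral_Icc_eq_integral_Ioc,
        ← intervalIntegral.integral_of_le (by linarith), intervalIntegral.integral_const_mul,
        MAV_.int_ee]
      have hw' : (w : ℂ) ≠ 0 := Complex.ofReal_ne_zero.2 hw.ne'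
      rw [zero_add, pow_one]
      push_cast
      field_simp
  | succ k ih =>
    obtain ⟨i1, i2, i3, i4⟩ := ih
    have h := hM w ((k + 1) * (w / 2)) _ hw i1 ⟨_, i2⟩ i3
    rw [Function.iterate_succ_apply']
    refine ⟨h.1, h.2.2.1 _ i2, ?_, ?_⟩
    · intro x hx
      have := h.2.1 x hx
      push_cast
      linarith
    · intro s
      rw [h.2.2.2 s, i4 s]
      push_cast
      ring

end KAP_

open KAP_

theorem pKAP (hM : tMAV) : tKAP := by
  intro N b hN hN6 hb
  have hN0 : (0 : ℝ) < N := by exact_mod_cast (by omega : 0 < N)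
  have hN1 : (6 : ℝ) ≤ N := by exact_mod_cast hN6
  have hπ := Real.pi_pos
  have hint := gN_integrable hN hN6 hb
  have hlow := lower hN hN6 hb
  set I : ℝ := ∫ t, gN N b t with hI
  have hI0 : 0 < I := lt_of_lt_of_le (by positivity) hlow
  have hk : ∀ t, kap N b t = gN N b t / I := fun t => kap_eq N b t
  have hk0 : ∀ t, 0 ≤ kap N b t := fun t => by
    rw [hk]
    exact div_nonneg (gN_nonneg hN b t) hI0.le
  have hkc : Continuous (kap N b) := by
    have : kap N b = fun t => gN N b t / I := funext hk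
    rw [this]
    exact (gN_cont N b).div_const I
  have hki : Integrable (kap N b) := by
    have : kap N b = fun t => gN N b t / I := funext hk
    rw [this]
    exact hint.div_const I
  have hkI : ∫ t, kap N b t = 1 := by
    have : (fun t => kap N b t) = fun t => gN N b t / I := funext hk
    rw [this, integral_div, ← hI, div_self hI0.ne']
  refine ⟨hk0, hkc, ?_, ?_, ?_⟩
  · rw [← ofReal_integral_eq_lintegral_ofReal hki (Filter.Eventually.of_forall hk0), hkI,
      ENNReal.ofReal_one]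
  · -- the tail
    set T : ℝ := N / b with hT
    have hT0 : 0 < T := by positivity
    have hset : {t : ℝ | T < |t|} ⊆ Ioi T ∪ Iio (-T) := by
      intro t ht
      rcases lt_abs.1 (show T < |t| from ht) with h | h
      · exact Or.inl h
      · exact Or.inr (show t < -T by linarith)
    -- the bound on the half line
    have hbd : ∀ t ∈ Ioi T, kap N b t ≤
        Real.pi * b * (N / (Real.pi * b)) ^ N * t ^ (-(N : ℝ)) := by
      intro t ht
      have ht0 : 0 < t := hT0.trans ht
      have h1 := gN_decay hN hN6 hb ht0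
      have h2 : 1 / I ≤ Real.pi * b := by
        rw [div_le_iff₀ hI0]
        rw [div_le_iff₀ (by positivity)] at hlow
        linarith
      rw [hk, Real.rpow_neg ht0.le, Real.rpow_natCast]
      calc gN N b t / I = 1 / I * gN N b t := by ring
        _ ≤ (Real.pi * b) * ((N / (Real.pi * b)) ^ N * (t ^ N)⁻¹) :=
          mul_le_mul h2 h1 (gN_nonneg hN b t) (by positivity)
        _ = _ := by ring
    have hneg : -(N : ℝ) < -1 := by linarith
    have hpint : IntegrableOn (fun t : ℝ =>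
        Real.pi * b * (N / (Real.pi * b)) ^ N * t ^ (-(N : ℝ))) (Ioi T) :=
      (integrableOn_Ioi_rpow_of_lt hneg hT0).const_mul _
    have hval : ∫ t in Ioi T, Real.pi * b * (N / (Real.pi * b)) ^ N * t ^ (-(N : ℝ)) =
        Real.pi * (N / (N - 1)) * (Real.pi ^ N)⁻¹ := by
      rw [integral_const_mul, integral_Ioi_rpow_of_lt hneg hT0]
      have h1 : T ^ (-(N : ℝ) + 1) = T / T ^ N := by
        rw [Real.rpow_add hT0, Real.rpow_one, Real.rpow_neg hT0.le, Real.rpow_natCast]
        field_simp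
      rw [h1, hT]
      have h2 : -(N : ℝ) + 1 ≠ 0 := by linarith
      have h3 : (N : ℝ) - 1 ≠ 0 := by linarith
      rw [div_pow, div_pow, mul_pow]
      have h4 : -(N : ℝ) + 1 = -((N : ℝ) - 1) := by ring
      rw [h4]
      field_simp
    have hhalf : ∫⁻ t in Ioi T, ENNReal.ofReal (kap N b t) ≤
        ENNReal.ofReal (Real.pi * (N / (N - 1)) * (Real.pi ^ N)⁻¹) := by
      rw [← hval, ofReal_integral_eq_lintegral_ofReal hpint]
      · exact setLIntegral_mono' measurableSet_Ioi fun t ht =>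
          ENNReal.ofReal_le_ofReal (hbd t ht)
      · filter_upwards [ae_restrict_mem (measurableSet_Ioi (a := T))] with t ht
        exact (hk0 t).trans (hbd t ht)
    have hother : ∫⁻ t in Iio (-T), ENNReal.ofReal (kap N b t) =
        ∫⁻ t in Ioi T, ENNReal.ofReal (kap N b t) := by
      have h1 := (Measure.measurePreserving_neg (volume : Measure ℝ)).setLIntegral_comp_preimage
        (measurableSet_Iio (a := -T)) (f := fun t => ENNReal.ofReal (kap N b t))
        (ENNReal.measurable_ofReal.comp hkc.measurable)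
      rw [← h1]
      have h2 : (Neg.neg ⁻¹' Iio (-T) : Set ℝ) = Ioi T := by
        ext t
        simp
      rw [h2]
      refine lintegral_congr fun t => ?_
      rw [hk, hk, gN_neg]
    calc ∫⁻ t in {t : ℝ | T < |t|}, ENNReal.ofReal (kap N b t)
        ≤ ∫⁻ t in Ioi T ∪ Iio (-T), ENNReal.ofReal (kap N b t) := lintegral_mono_set hset
      _ ≤ (∫⁻ t in Ioi T, ENNReal.ofReal (kap N b t)) +
          ∫⁻ t in Iio (-T), ENNReal.ofReal (kap N b t) := lintegral_union_le _ _ _
      _ ≤ ENNReal.ofReal (Real.pi * (N / (N - 1)) * (Real.pi ^ N)⁻¹) +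
          ENNReal.ofReal (Real.pi * (N / (N - 1)) * (Real.pi ^ N)⁻¹) := by
        rw [hother]
        exact add_le_add hhalf hhalf
      _ = ENNReal.ofReal (2 * (Real.pi * (N / (N - 1)) * (Real.pi ^ N)⁻¹)) := by
        have h5 : 0 ≤ Real.pi * ((N : ℝ) / (N - 1)) * (Real.pi ^ N)⁻¹ := by
          have : 0 ≤ (N : ℝ) - 1 := by linarith
          positivity
        rw [← ENNReal.ofReal_add h5 h5]
        congr 1
        ring
      _ ≤ ENNReal.ofReal (1 / 2 ^ N) := ENNReal.ofReal_le_ofReal (num hN6)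
  · -- the Fourier side
    set w : ℝ := b / N with hw
    have hw0 : 0 < w := by positivity
    obtain ⟨i1, i2, i3, i4⟩ := iter hM hw0 (N - 1)
    set φ : ℝ → ℝ := (mav w)^[N - 1] ((Icc (-(w / 2)) (w / 2)).indicator fun _ => w⁻¹) with hφ
    have hNN : N - 1 + 1 = N := by omega
    have hsup : ∀ ζ : ℝ, ((1 / I : ℝ) : ℂ) * (φ ζ : ℂ) ≠ 0 → |ζ| ≤ b / 2 := by
      intro ζ hζ
      have h1 : φ ζ ≠ 0 := by
        intro h0
        rw [h0] at hζ
        simp at hζ
      have h2 := i3 ζ h1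
      have h3 : (((N - 1 : ℕ) : ℝ) + 1) * (w / 2) = b / 2 := by
        have : ((N - 1 : ℕ) : ℝ) + 1 = N := by exact_mod_cast hNN
        rw [this, hw]
        field_simp
      rwa [h3] at h2
    refine ⟨fun ζ => ((1 / I : ℝ) : ℂ) * (φ ζ : ℂ),
      ⟨(Complex.measurable_ofReal.comp i1).const_mul _, ⟨1 / I * w⁻¹, ?_⟩, ⟨b / 2, hsup⟩⟩, hsup, ?_⟩
    · intro ζ
      rw [norm_mul, Complex.norm_real, Complex.norm_real, Real.norm_eq_abs, Real.norm_eq_abs,
        abs_of_pos (by positivity : 0 < 1 / I)]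
      exact mul_le_mul_of_nonneg_left (i2 ζ) (by positivity)
    · intro t
      have h1 : Ex1 (fun ζ => ((1 / I : ℝ) : ℂ) * (φ ζ : ℂ)) t =
          ((1 / I : ℝ) : ℂ) * Ex1 (fun ζ => (φ ζ : ℂ)) t := by
        unfold Ex1
        rw [← integral_const_mul]
        refine integral_congr_ae (Filter.Eventually.of_forall fun ζ => ?_)
        show ((1 / I : ℝ) : ℂ) * (φ ζ : ℂ) * ee (t * ζ) =
          ((1 / I : ℝ) : ℂ) * ((φ ζ : ℂ) * ee (t * ζ))
        ring
      rw [h1, i4 t, hNN, hk]
      unfold gN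
      have h2 : Real.pi * w * t = Real.pi * b * t / N := by
        rw [hw]
        ring
      rw [h2]
      push_cast
      ring

end Pool.Agent.LLog
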