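import Pool.Agent.LLog.Targets

set_option autoImplicit false

/-! LAM: monotonicity and measurability of the sets of active nodes. -/

namespace Pool.Agent.LLog

open MeasureTheory Set
open scoped ENNReal NNReal ComplexConjugate
open Pool.Agent.KSP (ee dot nr Ex Ex1 Bd Bd1 n1 n2 lg V0 ann)

namespace LAM_

theorem sd_pos (a e : ℕ) : 0 < sd a e := by unfold sd; positivity

theorem bl_pos (a e l : ℕ) : 0 < bl a e l := lt_max_of_lt_right (sd_pos a e)

theorem fac_ge {m l : ℕ} (hl : l ≤ m) : (0 : ℝ) ≤ ((m : ℝ) - l) / m :=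
  div_nonneg (sub_nonneg.2 (Nat.cast_le.2 hl)) (Nat.cast_nonneg m)

theorem dot_cont (w : ℝ × ℝ) : Continuous fun y : ℝ × ℝ => dot y w := by
  unfold dot
  fun_prop

theorem bx_open (t : ℝ) (x0 : ℝ × ℝ) (A B : ℝ) : IsOpen (bx t x0 A B) := by
  unfold bx
  refine IsOpen.inter ?_ ?_
  · exact isOpen_lt (((dot_cont (nv t)).comp (continuous_id.sub continuous_const)).abs)
      continuous_const
  · exact isOpen_lt (((dot_cont (tv t)).comp (continuous_id.sub continuous_const)).abs)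
      continuous_const

theorem mem_bx_sub {t : ℝ} {x x0 : ℝ × ℝ} {A B : ℝ} :
    x ∈ bx t x0 A B ↔ x - x0 ∈ bx t 0 A B := by
  simp [bx]

theorem bx_mono {t : ℝ} {x0 : ℝ × ℝ} {A B A' B' : ℝ} (hA : A ≤ A') (hB : B ≤ B') :
    bx t x0 A B ⊆ bx t x0 A' B' := fun _ hy => ⟨hy.1.trans_le hA, hy.2.trans_le hB⟩

theorem mem_Lam {a m : ℕ} {sl : ℝ} {LL : Finset ℕ} {e : ℕ → ℕ} {L : ℕ → ℝ}
    {X : ℕ → ℕ → Set (ℝ × ℝ)} {l c p : ℕ} {x : ℝ × ℝ} {P : ℕ × ℕ} :
    P ∈ Lam a m sl LL e L X l c p x ↔ (P.1 ∈ LL ∧ P.2 < 2 * 4 ^ m) ∧ l ≤ P.1 ∧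
      P.2 / 4 ^ (P.1 - l) = c ∧
    ∃ p' x', p' / 2 ^ (e P.1 - e l) = p ∧ p' < 3 * 2 ^ (e P.1 + 8 * a) ∧
      ENNReal.ofReal (1 / 2 ^ a) ≤
        sa (tp sl (e P.1 + 8 * a) p') (L P.1) (inn (de a (e P.1)) (X P.1 P.2)) x' ∧
      x ∈ bx (tp sl (e P.1 + 8 * a) p') x' ((2 + (m - l : ℝ) / m) * bl a (e P.1) P.1)
        ((2 + (m - l : ℝ) / m) * sd a (e P.1)) := by
  classical
  unfold Lam
  rw [Finset.mem_filter, Finset.mem_product, Finset.mem_range]

end LAM_

open LAM_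

theorem pLAM (hBXM : tBXM) : tLAM := by
  intro a m sl LL e L X hPA h1 h2 hCL
  have hm : 0 < m := by
    by_contra h0
    have hm0 : m = 0 := by omega
    have := hPA.2.2
    rw [hm0] at this
    simp at this
  have hmR : (0 : ℝ) < m := Nat.cast_pos.2 hm
  refine ⟨fun l hl c p x hp hc hsa => ?_, fun l hl c p P => ?_, ?_⟩
  · have hlm := (hCL.1 l hl).2.1
    rw [mem_Lam]
    refine ⟨⟨hl, lt_of_lt_of_le hc ?_⟩, le_rfl, ?_, p, x, ?_, hp, hsa, ?_⟩
    · exact Nat.mul_le_mul_left 2 (Nat.pow_le_pow_right (by norm_num) hlm)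
    · simp
    · simp
    · have hf := fac_ge hlm
      have h3 := bl_pos a (e l) l
      have h4 := sd_pos a (e l)
      rw [mem_bx_sub, sub_self]
      constructor
      · simp only [sub_self]
        have : dot (0 : ℝ × ℝ) (nv (tp sl (e l + 8 * a) p)) = 0 := by simp [dot]
        rw [this, abs_zero]
        positivity
      · simp only [sub_self]
        have : dot (0 : ℝ × ℝ) (tv (tp sl (e l + 8 * a) p)) = 0 := by simp [dot]
        rw [this, abs_zero]
        positivity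
  · refine IsOpen.measurableSet ?_
    by_cases h : (P.1 ∈ LL ∧ P.2 < 2 * 4 ^ m) ∧ l ≤ P.1 ∧ P.2 / 4 ^ (P.1 - l) = c
    · have hset : {x | P ∈ Lam a m sl LL e L X l c p x} =
          ⋃ (p' : ℕ) (x' : ℝ × ℝ) (_ : p' / 2 ^ (e P.1 - e l) = p ∧
            p' < 3 * 2 ^ (e P.1 + 8 * a) ∧ ENNReal.ofReal (1 / 2 ^ a) ≤
            sa (tp sl (e P.1 + 8 * a) p') (L P.1) (inn (de a (e P.1)) (X P.1 P.2)) x'),
            bx (tp sl (e P.1 + 8 * a) p') x' ((2 + (m - l : ℝ) / m) * bl a (e P.1) P.1)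
              ((2 + (m - l : ℝ) / m) * sd a (e P.1)) := by
        ext x
        simp only [mem_setOf_eq, mem_Lam, mem_iUnion]
        constructor
        · rintro ⟨-, -, -, p', x', q1, q2, q3, q4⟩
          exact ⟨p', x', ⟨q1, q2, q3⟩, q4⟩
        · rintro ⟨p', x', ⟨q1, q2, q3⟩, q4⟩
          exact ⟨h.1, h.2.1, h.2.2, p', x', q1, q2, q3, q4⟩
      rw [hset]
      exact isOpen_iUnion fun p' => isOpen_iUnion fun x' => isOpen_iUnion fun _ => bx_open _ _ _ _
    · have hset : {x | P ∈ Lam a m sl LL e L X l c p x} = ∅ := by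
        ext x
        simp only [mem_setOf_eq, mem_Lam, mem_empty_iff_false, iff_false]
        rintro ⟨q1, q2, q3, -⟩
        exact h ⟨q1, q2, q3⟩
      rw [hset]
      exact isOpen_empty
  · intro l hl l' hl' c c' p p' x x' z1 z2 hll' hc hp hp3 hx b1 b2 b3 b4
    rintro ⟨l'', c''⟩ hP
    rw [mem_Lam] at hP ⊢
    simp only at hP ⊢
    obtain ⟨⟨hl'', hc''⟩, hle, hcc, p'', x'', q1, q2, q3, q4⟩ := hP
    have hlm := hCL.1 l hl
    have hlm' := hCL.1 l' hl'
    have hlm'' := hCL.1 l'' hl''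
    have hgap := hCL.2 l hl l' hl' hll'
    have hee : e l' ≤ e l'' := by
      rcases Nat.eq_or_lt_of_le hle with h | h
      · rw [h]
      · exact (hCL.2 l' hl' l'' hl'' h).2
    have hs' : (0 : ℝ) ≤ 2 + ((m : ℝ) - l') / m := by
      have := fac_ge hlm'.2.1
      linarith
    refine ⟨⟨hl'', hc''⟩, hll'.le.trans hle, ?_, p'', x'', ?_, q2, q3, ?_⟩
    · rw [← hc, ← hcc, Nat.div_div_eq_div_mul, ← pow_add]
      congr 2
      omega
    · rw [← hp, ← q1, Nat.div_div_eq_div_mul, ← pow_add]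
      congr 2
      omega
    · have h5 := hBXM a m sl l l' l'' (e l) (e l') (e l'') p p' p''
        (2 + ((m : ℝ) - l') / m) z1 z2 (x' - x'') hPA h1 h2 hlm.1 hgap.1 hle hlm''.2.1 hgap.2 hee
        hlm''.2.2.2.1 hlm.2.2.1 hlm'.2.2.1 hlm''.2.2.1 hp q1 q2 b1 b2 b3 b4 hs' (mem_bx_sub.1 q4)
      have h6 : z1 + z2 + (x' - x'') = x - x'' := by rw [← hx]; abel
      rw [h6] at h5
      rw [mem_bx_sub]
      have h7 : 2 + ((m : ℝ) - l') / m + 1 / m ≤ 2 + ((m : ℝ) - l) / m := by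
        have h8 : (l : ℝ) + 1 ≤ l' := by exact_mod_cast hll'
        rw [add_assoc, ← add_div]
        have h9 : ((m : ℝ) - l' + 1) / m ≤ ((m : ℝ) - l) / m :=
          div_le_div_of_nonneg_right (by linarith) hmR.le
        linarith
      refine bx_mono ?_ ?_ h5
      · exact mul_le_mul_of_nonneg_right h7 (bl_pos _ _ _).le
      · exact mul_le_mul_of_nonneg_right h7 (sd_pos _ _).le

end Pool.Agent.LLog
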