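import Pool.Agent.LLog.LIN3

set_option autoImplicit false

/-! F17: the linearised estimate on the right sector. -/

namespace Pool.Agent.LLog

open MeasureTheory Set
open scoped ENNReal NNReal
open Pool.Agent.KSP (ee dot nr Ex Ex1 Bd Bd1 n1 n2 lg V0 ann)

namespace LIN_

open Pool.Agent.KSP.K_ (Bd_indicator integrable_Ex measurable_Ex measurable_nr n2_indicator
  measurable_ann)

theorem norm5 (a b c d e : ℂ) : ‖a + b + c + d + e‖ₑ ^ 2 ≤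
    256 * (‖a‖ₑ ^ 2 + ‖b‖ₑ ^ 2 + ‖c‖ₑ ^ 2 + ‖d‖ₑ ^ 2 + ‖e‖ₑ ^ 2) := by
  refine (pow_le_pow_left' ?_ 2).trans (sq5 _ _ _ _ _)
  refine (enorm_add_le _ _).trans (add_le_add ?_ le_rfl)
  refine (enorm_add_le _ _).trans (add_le_add ?_ le_rfl)
  refine (enorm_add_le _ _).trans (add_le_add ?_ le_rfl)
  exact enorm_add_le _ _

/-- the part near the ends of the intervals is negligible -/
theorem small_num {a m : ℕ} (h : PA a m) (ha : lg (2 * m) = a + 1) :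
    ((2 * m : ℕ) : ℝ≥0∞) * ((lg (2 * m) : ℕ) : ℝ≥0∞) ^ 5 * ENNReal.ofReal (16 / 2 ^ (3 * a)) ≤
      32 := by
  obtain ⟨h1, h2, h3⟩ := h
  rw [ha]
  have h4 : (2 * m) * (a + 1) ^ 5 ≤ 2 * 2 ^ (3 * a) := by
    calc (2 * m) * (a + 1) ^ 5 ≤ (2 * 2 ^ a) * 4 ^ a :=
          Nat.mul_le_mul (by omega) (five h1)
      _ = 2 * 2 ^ (3 * a) := by
          rw [show (4 : ℕ) = 2 ^ 2 by norm_num, ← pow_mul, mul_assoc, ← pow_add]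
          congr 2
          ring
  have h5 : (((2 * m : ℕ) : ℝ≥0∞) * (((a + 1 : ℕ)) : ℝ≥0∞) ^ 5) =
      ENNReal.ofReal (((2 * m) * (a + 1) ^ 5 : ℕ) : ℝ) := by
    rw [ENNReal.ofReal_natCast]
    push_cast
    ring
  rw [h5, ← ENNReal.ofReal_mul (by positivity)]
  have h6 : ((((2 * m) * (a + 1) ^ 5 : ℕ) : ℝ)) * (16 / 2 ^ (3 * a)) ≤ 32 := by
    have h7 : ((((2 * m) * (a + 1) ^ 5 : ℕ) : ℝ)) ≤ 2 * 2 ^ (3 * a) := by exact_mod_cast h4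
    calc ((((2 * m) * (a + 1) ^ 5 : ℕ) : ℝ)) * (16 / 2 ^ (3 * a)) ≤
          (2 * 2 ^ (3 * a)) * (16 / 2 ^ (3 * a)) := by gcongr
      _ = 32 := by field_simp; norm_num
  calc _ ≤ ENNReal.ofReal 32 := ENNReal.ofReal_le_ofReal h6
    _ = 32 := by norm_num

theorem big_case {CG CB CR CM : ℝ≥0} {a m : ℕ} (hPA : PA a m) (ham : a = lg m) (hm : 1 ≤ m)
    (hG : ∀ (a m : ℕ) (sg sl : ℝ) (z0 : ℝ × ℝ) (T : Finset Top)
      (pr : Top → ℕ) (A : Set (ℝ × ℝ)) (rr ls : ℝ × ℝ → ℕ) (h : ℝ × ℝ → ℂ), PA a m → 0 ≤ sg →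
      sg < 1 → 1 ≤ sl → sl < 2 → (∀ t ∈ T, ∀ t' ∈ T, pr t = pr t' → t = t') →
      (∀ t ∈ T, t.2.1 < 2 * 4 ^ t.1) →
      MeasurableSet A → A ⊆ Gd a m z0 T pr ∩ IN a m z0 → Measurable rr → Measurable ls →
      (∀ x, rr x < 2 * 4 ^ m) → (∀ x, 10 * a ≤ ls x ∧ ls x ≤ m) →
      (∀ x ∈ A, ∀ l, 10 * a ≤ l → l < ls x →
        (Sb (TX a z0 T x) l l (rr x / 4 ^ (m - l))).Nonempty) → Core a m sg sl h →
      ∫⁻ x in A, ‖Ex ({ξ | sg + (rr x / 4 ^ (m - 10 * a) : ℕ) / 4 ^ (10 * a) ≤ nr ξ ∧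
          nr ξ < sg + (rr x / 4 ^ (m - ls x) : ℕ) / 4 ^ (ls x)}.indicator h) x‖ₑ ^ 2 ≤
        CG * a ^ 11 * n2 h)
    (hB : ∀ (a m : ℕ) (z0 : ℝ × ℝ) (sg : ℝ) (E : Set (ℝ × ℝ))
      (k : ℝ × ℝ → ℕ) (h : ℝ × ℝ → ℂ), PA a m → 0 ≤ sg → sg < 1 → MeasurableSet E →
      volume E < ⊤ → Measurable k → (∀ x, k x < 4 ^ m) → Bd h → (∀ ξ, h ξ ≠ 0 → ξ ∈ V0) →
      ∫⁻ x in E, ‖Ex ({ξ | sg + kc m sg k (lst a m z0 sg E k x) x / 4 ^ (lst a m z0 sg E k x) ≤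
        nr ξ ∧ nr ξ < sg + kc m sg k m x / 4 ^ m}.indicator h) x‖ₑ ^ 2 ≤ CB * n2 h)
    (hR : ∀ (n : ℕ) (R : ℕ → ℝ) (k : ℝ × ℝ → ℕ) (h : ℝ × ℝ → ℂ), 1 ≤ n →
      Monotone R → Measurable k → (∀ x, k x < 2 ^ n) → Bd h →
      ∫⁻ x, ‖Ex ({ξ | nr ξ < R (k x)}.indicator h) x‖ₑ ^ 2 ≤ CR * n ^ 2 * n2 h)
    (hM : ∀ (m : ℕ) (k : ℝ × ℝ → ℕ) (h : ℝ × ℝ → ℂ), 1 ≤ m → Measurable k →
      (∀ x, k x < 4 ^ m) → Bd h → (∀ ξ, h ξ ≠ 0 → ξ ∈ V0) →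
      ∫⁻ x, ‖Ex ((ann 1 (1 + k x / 4 ^ m)).indicator h) x‖ₑ ^ 2 ≤
        CM * ((2 * m : ℕ) : ℝ≥0∞) * ((lg (2 * m) : ℕ) : ℝ≥0∞) ^ 5 * n2 h)
    (hTOP : tTOP) (hPRI : tPRI) (hZ : tZSH) (hS : tSHF)
    (hD : ∀ (z0 : ℝ × ℝ) (T : Finset Top) (V : ℝ≥0),
      (∀ t ∈ T, 10 * a ≤ t.1 ∧ t.1 ≤ m ∧ t.2.1 < 2 * 4 ^ t.1) →
      ∑ t ∈ T, ENNReal.ofReal (sd a t.1 ^ 2) ≤ ENNReal.ofReal (2 ^ (50 * a)) * V →
      volume {x | 2 ^ (90 * a) < (TX a z0 T x).card} ≤ V / 100 ∧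
      ∀ F : Fam, (∀ l ∈ F.Lv, 10 * a < l ∧ l ≤ m ∧ l ≤ F.e l + 1 ∧ F.e l ≤ m) →
        (a + 2) * volume {x | 2 ^ (90 * a) < (open Classical in
          ((F.Lv ×ˢ Finset.range (2 * 4 ^ m)).filter
            (fun P => x ∈ Zp a z0 T (F.e P.1) P.1 P.2)).card)} ≤ V / 100)
    {E : Set (ℝ × ℝ)} {k : ℝ × ℝ → ℕ} {h : ℝ × ℝ → ℂ} (hE : MeasurableSet E)
    (hEf : volume E < ⊤) (hk : Measurable k) (hk4 : ∀ x, k x < 4 ^ m) (hh : Bd h)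
    (hV : ∀ ξ, h ξ ≠ 0 → ξ ∈ V0) :
    ∃ E' ⊆ E, MeasurableSet E' ∧ volume E ≤ 2 * volume E' ∧
      ∫⁻ x in E', ‖Ex ((ann 1 (1 + k x / 4 ^ m)).indicator h) x‖ₑ ^ 2 ≤
        256 * (441 * CR + CG + CB + 1 + 32 * CM) * (a : ℝ≥0∞) ^ 11 * n2 h := by
  -- the shifts
  obtain ⟨sg, sl, sg0, sg1, sl1, sl2, G, hGm, hcore, hsmall⟩ := hS a m h hPA hh hV
  obtain ⟨z0, hz0⟩ := hZ a m E hPA hE hEf
  obtain ⟨T, hT1, hT2, hT3⟩ := hTOP a m z0 sg E k hPA sg0 sg1 hE hEf hk hk4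
  obtain ⟨pr, hpr1, hpr2⟩ := hPRI a m z0 T E hPA hE hEf
  obtain ⟨V, hVE⟩ : ∃ V : ℝ≥0, (V : ℝ≥0∞) = volume E := ⟨_, ENNReal.coe_toNNReal hEf.ne⟩
  obtain ⟨hD1, hD2⟩ := hD z0 T V hT1 (by rw [hVE]; exact hT3)
  rw [hVE] at hD1 hD2
  obtain ⟨E', hE'E, hE'm, hE'G, hvol⟩ := good_subset (D := IN a m z0 ∩ Gd a m z0 T pr) hE hEf
    (vol_bad hz0 hD1 hD2 hpr2)
  refine ⟨E', hE'E, hE'm, hvol, ?_⟩
  have h10 := ten hPA
  -- the two parts of `h`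
  set hc := G.indicator h with hhc
  set hb := Gᶜ.indicator h with hhb
  have hcB : Bd hc := Bd_indicator hh hGm
  have hbB : Bd hb := Bd_indicator hh hGm.compl
  have hcV : ∀ ξ, hc ξ ≠ 0 → ξ ∈ V0 := fun ξ hξ => hV ξ fun h0 => hξ (by
    by_cases h1 : ξ ∈ G
    · rw [hhc, indicator_of_mem h1, h0]
    · rw [hhc, indicator_of_notMem h1])
  have hbV : ∀ ξ, hb ξ ≠ 0 → ξ ∈ V0 := fun ξ hξ => hV ξ fun h0 => hξ (by
    by_cases h1 : ξ ∈ Gᶜ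
    · rw [hhb, indicator_of_mem h1, h0]
    · rw [hhb, indicator_of_notMem h1])
  have hcn : n2 hc ≤ n2 h := n2_indicator _ _
  set rr : ℝ × ℝ → ℕ := kc m sg k m with hrr
  set ls : ℝ × ℝ → ℕ := lst a m z0 sg E k with hls
  have hrm : Measurable rr := kc_meas m sg hk m
  have hlm : Measurable ls := lst_meas a m z0 sg E hk h10
  have hls2 : ∀ x, 10 * a ≤ ls x ∧ ls x ≤ m := fun x => lst_mem h10 z0 sg E k x
  -- the radii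
  set a0 : ℝ × ℝ → ℝ := fun x => sg + (kc m sg k (10 * a) x : ℝ) / 4 ^ (10 * a) with ha0
  set a1 : ℝ × ℝ → ℝ := fun x => sg + (kc m sg k (ls x) x : ℝ) / 4 ^ (ls x) with ha1
  set a2 : ℝ × ℝ → ℝ := fun x => sg + (kc m sg k m x : ℝ) / 4 ^ m with ha2
  set a3 : ℝ × ℝ → ℝ := fun x => 1 + (k x : ℝ) / 4 ^ m with ha3
  have i01 : ∀ x, a0 x ≤ a1 x := fun x => kc_step sg1 k x (hls2 x).1
  have i12 : ∀ x, a1 x ≤ a2 x := fun x => kc_step sg1 k x (hls2 x).2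
  have i23 : ∀ x, a2 x ≤ a3 x := fun x => kc_le sg1 k m x
  -- the pieces
  set p0 : ℝ × ℝ → ℝ≥0∞ := fun x => ‖Ex ((rb (a0 x)).indicator hc) x‖ₑ ^ 2 with hp0
  set p1 : ℝ × ℝ → ℝ≥0∞ := fun x => ‖Ex ((ra (a0 x) (a1 x)).indicator hc) x‖ₑ ^ 2 with hp1
  set p2 : ℝ × ℝ → ℝ≥0∞ := fun x => ‖Ex ((ra (a1 x) (a2 x)).indicator hc) x‖ₑ ^ 2 with hp2
  set p3 : ℝ × ℝ → ℝ≥0∞ := fun x => ‖Ex ((ra (a2 x) (a3 x)).indicator hc) x‖ₑ ^ 2 with hp3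
  set p4 : ℝ × ℝ → ℝ≥0∞ := fun x => ‖Ex ((ann 1 (a3 x)).indicator hb) x‖ₑ ^ 2 with hp4
  have hpt : ∀ x, ‖Ex ((ann 1 (1 + k x / 4 ^ m)).indicator h) x‖ₑ ^ 2 ≤
      256 * (p0 x + p1 x + p2 x + p3 x + p4 x) := by
    intro x
    rw [comp_split hh hGm (measurable_ann 1 _) x, split4 hcB hcV (i01 x) (i12 x) (i23 x) x]
    exact norm5 _ _ _ _ _
  -- measurability
  have mEx : ∀ S : Set (ℝ × ℝ), MeasurableSet S → ∀ g : ℝ × ℝ → ℂ, Bd g →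
      Measurable (Ex (S.indicator g)) := fun S hS g hg => measurable_Ex (hg.1.indicator hS)
  have m0 : Measurable p0 := by
    exact meas_param (g := fun n : ℕ => Ex ((rb (sg + (n : ℝ) / 4 ^ (10 * a))).indicator hc))
      (fun n => mEx _ (rb_meas _) _ hcB) (kc_meas m sg hk (10 * a))
  have e1 : ∀ x, a1 x = sg + ((rr x / 4 ^ (m - ls x) : ℕ) : ℝ) / 4 ^ (ls x) := by
    intro x
    rw [ha1, hrr, kc_div sg k x (hls2 x).2]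
  have e0 : ∀ x, a0 x = sg + ((rr x / 4 ^ (m - 10 * a) : ℕ) : ℝ) / 4 ^ (10 * a) := by
    intro x
    rw [ha0, hrr, kc_div sg k x h10]
  have e2 : ∀ x, a2 x = sg + (rr x : ℝ) / 4 ^ m := fun x => rfl
  have e3 : ∀ x, a3 x = 1 + (k x : ℝ) / 4 ^ m := fun x => rfl
  have m1 : Measurable p1 := by
    have := meas_param (g := fun P : ℕ × ℕ => Ex ((ra (sg + ((P.1 / 4 ^ (m - 10 * a) : ℕ) : ℝ) /
      4 ^ (10 * a)) (sg + ((P.1 / 4 ^ (m - P.2) : ℕ) : ℝ) / 4 ^ P.2)).indicator hc))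
      (fun n => mEx _ (ra_meas _ _) _ hcB) (hrm.prodMk hlm)
    simpa only [hp1, e0, e1] using this
  have m2 : Measurable p2 := by
    have := meas_param (g := fun P : ℕ × ℕ => Ex ((ra (sg + ((P.1 / 4 ^ (m - P.2) : ℕ) : ℝ) /
      4 ^ P.2) (sg + (P.1 : ℝ) / 4 ^ m)).indicator hc))
      (fun n => mEx _ (ra_meas _ _) _ hcB) (hrm.prodMk hlm)
    simpa only [hp2, e1, e2] using this
  have m3 : Measurable p3 := by
    have := meas_param (g := fun P : ℕ × ℕ => Ex ((ra (sg + (P.1 : ℝ) / 4 ^ m)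
      (1 + (P.2 : ℝ) / 4 ^ m)).indicator hc))
      (fun n => mEx _ (ra_meas _ _) _ hcB) (hrm.prodMk hk)
    simpa only [hp3, e2, e3] using this
  -- the estimates
  have hnum : ((20 * a + 1 : ℕ) : ℝ≥0∞) ^ 2 ≤ 441 * (a : ℝ≥0∞) ^ 11 := by
    have h1 : (20 * a + 1) ^ 2 ≤ 441 * a ^ 11 := by
      have ha1 : 1 ≤ a := by have := hPA.1; omega
      calc (20 * a + 1) ^ 2 ≤ (21 * a) ^ 2 := Nat.pow_le_pow_left (by omega) 2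
        _ = 441 * a ^ 2 := by ring
        _ ≤ 441 * a ^ 11 := Nat.mul_le_mul_left _ (Nat.pow_le_pow_right ha1 (by norm_num))
    exact_mod_cast h1
  have hone : (1 : ℝ≥0∞) ≤ (a : ℝ≥0∞) ^ 11 := by
    have h1 : 1 ≤ a ^ 11 := Nat.one_le_pow _ _ (by have := hPA.1; omega)
    exact_mod_cast h1
  have q0 : ∫⁻ x in E', p0 x ≤ 441 * CR * (a : ℝ≥0∞) ^ 11 * n2 h := by
    have h1 := hR (20 * a + 1) (fun n => sg + (n : ℝ) / 4 ^ (10 * a)) (kc m sg k (10 * a)) hc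
      (by omega) (fun i j hij => by
        have : (i : ℝ) ≤ j := by exact_mod_cast hij
        have h4 : (i : ℝ) / 4 ^ (10 * a) ≤ (j : ℝ) / 4 ^ (10 * a) := by gcongr
        simpa using h4) (kc_meas m sg hk (10 * a)) (fun x => by
        have h2 := kc_lt sg0 k hk4 (10 * a) x
        have e : 2 * 4 ^ (10 * a) = 2 ^ (20 * a + 1) := by
          rw [show (4 : ℕ) = 2 ^ 2 by norm_num, ← pow_mul, pow_succ, mul_comm]
          congr 2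
          ring
        rwa [e] at h2) hcB
    calc ∫⁻ x in E', p0 x ≤ ∫⁻ x, p0 x := setLIntegral_le_lintegral _ _
      _ ≤ CR * ((20 * a + 1 : ℕ) : ℝ≥0∞) ^ 2 * n2 hc := h1
      _ ≤ CR * (441 * (a : ℝ≥0∞) ^ 11) * n2 h := by gcongr
      _ = _ := by ring
  have q1 : ∫⁻ x in E', p1 x ≤ CG * (a : ℝ≥0∞) ^ 11 * n2 h := by
    have h1 := hG a m sg sl z0 T pr E' rr ls hc hPA sg0 sg1 sl1 sl2 hpr1
      (fun t ht => (hT1 t ht).2.2) hE'm (fun x hx => ⟨(hE'G hx).2, (hE'G hx).1⟩) hrm hlm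
      (fun x => kc_lt sg0 k hk4 m x) hls2 (fun x hx l hl1 hl2 => by
        have h2 := hT2 l x hl1 (hl2.le.trans (hls2 x).2) (lst_pop hl1 hl2)
        obtain ⟨t, ht, h3, h4⟩ := h2
        refine ⟨t, ?_⟩
        unfold Sb
        rw [Finset.mem_filter]
        refine ⟨ht, h3, h3, ?_⟩
        rw [h4, hrr, kc_div sg k x (hl2.le.trans (hls2 x).2)]) hcore
    refine le_trans (le_of_eq ?_) (h1.trans (by gcongr))
    refine lintegral_congr fun x => ?_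
    simp only [hp1, e0, e1]
    rfl
  have q2 : ∫⁻ x in E', p2 x ≤ CB * (a : ℝ≥0∞) ^ 11 * n2 h := by
    have h1 := hB a m z0 sg E k hc hPA sg0 sg1 hE hEf hk hk4 hcB hcV
    calc ∫⁻ x in E', p2 x ≤ ∫⁻ x in E, p2 x := lintegral_mono_set hE'E
      _ ≤ CB * n2 hc := h1
      _ = CB * 1 * n2 hc := by ring
      _ ≤ CB * (a : ℝ≥0∞) ^ 11 * n2 h := by gcongr
  have q3 : ∫⁻ x in E', p3 x ≤ 1 * (a : ℝ≥0∞) ^ 11 * n2 h := by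
    calc ∫⁻ x in E', p3 x ≤ ∫⁻ x, p3 x := setLIntegral_le_lintegral _ _
      _ ≤ n2 hc := last_piece k hk4 hcB
      _ = 1 * 1 * n2 hc := by ring
      _ ≤ 1 * (a : ℝ≥0∞) ^ 11 * n2 h := by gcongr
  have q4 : ∫⁻ x in E', p4 x ≤ 32 * CM * (a : ℝ≥0∞) ^ 11 * n2 h := by
    have h1 := hM m k hb hm hk hk4 hbB hbV
    have h2 := small_num hPA (by rw [lg_two hm, ← ham])
    calc ∫⁻ x in E', p4 x ≤ ∫⁻ x, p4 x := setLIntegral_le_lintegral _ _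
      _ ≤ CM * ((2 * m : ℕ) : ℝ≥0∞) * ((lg (2 * m) : ℕ) : ℝ≥0∞) ^ 5 * n2 hb := h1
      _ ≤ CM * ((2 * m : ℕ) : ℝ≥0∞) * ((lg (2 * m) : ℕ) : ℝ≥0∞) ^ 5 *
          (ENNReal.ofReal (16 / 2 ^ (3 * a)) * n2 h) := by gcongr
      _ = CM * (((2 * m : ℕ) : ℝ≥0∞) * ((lg (2 * m) : ℕ) : ℝ≥0∞) ^ 5 *
          ENNReal.ofReal (16 / 2 ^ (3 * a))) * 1 * n2 h := by ring
      _ ≤ CM * 32 * (a : ℝ≥0∞) ^ 11 * n2 h := by gcongr
      _ = _ := by ring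
  calc ∫⁻ x in E', ‖Ex ((ann 1 (1 + k x / 4 ^ m)).indicator h) x‖ₑ ^ 2
      ≤ ∫⁻ x in E', 256 * (p0 x + p1 x + p2 x + p3 x + p4 x) := lintegral_mono hpt
    _ = 256 * ((∫⁻ x in E', p0 x) + (∫⁻ x in E', p1 x) + (∫⁻ x in E', p2 x) +
        (∫⁻ x in E', p3 x) + ∫⁻ x in E', p4 x) := by
        have m01 : Measurable fun x => p0 x + p1 x := m0.add m1
        have m012 : Measurable fun x => p0 x + p1 x + p2 x := m01.add m2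
        have m0123 : Measurable fun x => p0 x + p1 x + p2 x + p3 x := m012.add m3
        rw [lintegral_const_mul' _ _ (by norm_num), lintegral_add_left m0123,
          lintegral_add_left m012, lintegral_add_left m01, lintegral_add_left m0]
    _ ≤ 256 * (441 * CR * (a : ℝ≥0∞) ^ 11 * n2 h + CG * (a : ℝ≥0∞) ^ 11 * n2 h +
        CB * (a : ℝ≥0∞) ^ 11 * n2 h + 1 * (a : ℝ≥0∞) ^ 11 * n2 h +
        32 * CM * (a : ℝ≥0∞) ^ 11 * n2 h) := by gcongr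
    _ = _ := by ring

end LIN_

open LIN_ in
theorem pLIN (hG : tGOD) (hTOP : tTOP) (hPRI : tPRI) (hD : tDRP) (hZ : tZSH) (hS : tSHF)
    (hB : tBAD) (hR : tRMG) : tLIN := by
  obtain ⟨CG, hG⟩ := hG
  obtain ⟨b0, hD⟩ := hD
  obtain ⟨CB, hB⟩ := hB
  obtain ⟨CR, hR⟩ := hR
  obtain ⟨CM, hM⟩ := mv4
  set A0 := max 20 b0 with hA0
  set K : ℝ≥0 := CM * ((2 * 2 ^ A0 : ℕ) : ℝ≥0) * ((lg (2 * 2 ^ A0) : ℕ) : ℝ≥0) ^ 5 with hK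
  refine ⟨256 * (441 * CR + CG + CB + 1 + 32 * CM) + K, fun m E k h hm hE hEf hk hk4 hh hV => ?_⟩
  have hlg1 : 1 ≤ lg m := by unfold KSP.lg; omega
  rcases le_or_gt A0 (lg m) with h1 | h1
  · have hPA : PA (lg m) m := PA_lg hm ((le_max_left _ _).trans h1)
    obtain ⟨E', h2, h3, h4, h5⟩ := big_case hPA rfl hm hG hB hR hM hTOP hPRI hZ hS
      (fun z0 T V => hD (lg m) m z0 T V ((le_max_right _ _).trans h1) hPA) hE hEf hk hk4 hh hV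
    refine ⟨E', h2, h3, h4, h5.trans ?_⟩
    gcongr
    push_cast
    exact le_self_add
  · refine ⟨E, le_rfl, hE, ?_, ?_⟩
    · calc volume E = 1 * volume E := (one_mul _).symm
        _ ≤ 2 * volume E := by gcongr; norm_num
    · have hmA : m ≤ 2 ^ A0 := by
        have h2 : m < 2 ^ lg m := Nat.lt_pow_succ_log_self one_lt_two m
        exact h2.le.trans (Nat.pow_le_pow_right (by norm_num) h1.le)
      have hone : (1 : ℝ≥0∞) ≤ ((lg m : ℕ) : ℝ≥0∞) ^ 11 := by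
        have h1 : 1 ≤ (lg m) ^ 11 := Nat.one_le_pow _ _ hlg1
        exact_mod_cast h1
      calc ∫⁻ x in E, ‖Ex ((ann 1 (1 + k x / 4 ^ m)).indicator h) x‖ₑ ^ 2
          ≤ ∫⁻ x, ‖Ex ((ann 1 (1 + k x / 4 ^ m)).indicator h) x‖ₑ ^ 2 :=
            setLIntegral_le_lintegral _ _
        _ ≤ CM * ((2 * m : ℕ) : ℝ≥0∞) * ((lg (2 * m) : ℕ) : ℝ≥0∞) ^ 5 * n2 h :=
            hM m k h hm hk hk4 hh hV
        _ ≤ CM * ((2 * 2 ^ A0 : ℕ) : ℝ≥0∞) * ((lg (2 * 2 ^ A0) : ℕ) : ℝ≥0∞) ^ 5 * n2 h := by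
            have h3 : 2 * m ≤ 2 * 2 ^ A0 := by omega
            have h4 := lg_mono h3
            gcongr
        _ = (K : ℝ≥0∞) * 1 * n2 h := by
            rw [hK]
            push_cast
            ring
        _ ≤ (256 * (441 * CR + CG + CB + 1 + 32 * CM) + K : ℝ≥0) *
            ((lg m : ℕ) : ℝ≥0∞) ^ 11 * n2 h := by
            gcongr
            exact le_add_self

end Pool.Agent.LLog
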