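import Pool.Agent.LLog.Targets
import Pool.Agent.KSP.Base

set_option autoImplicit false

/-! LLG-LOC: sectors can be summed locally. -/

namespace Pool.Agent.LLog

open MeasureTheory Set
open scoped ENNReal NNReal ComplexConjugate
open Pool.Agent.KSP (ee dot nr Ex Ex1 Bd Bd1 n1 n2 lg V0 ann pPl2)
open Pool.Agent.KSP.Base_ (bd_memLp)

namespace LOC_

lemma lint_pow (f : ℝ × ℝ → ℂ) : eLpNorm f 2 ^ 2 = ∫⁻ v, ‖f v‖ₑ ^ 2 := by
  have h := eLpNorm_nnreal_pow_eq_lintegral (f := f) (μ := (volume : Measure (ℝ × ℝ)))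
    (p := (2 : ℝ≥0)) (by norm_num)
  have h2 : ((2 : ℝ≥0) : ℝ≥0∞) = 2 := by norm_num
  have h3 : (((2 : ℝ≥0) : ℝ≥0) : ℝ) = 2 := by norm_num
  rw [h2, h3] at h
  simp only [ENNReal.rpow_two] at h
  exact h

lemma n2_lt {k : ℝ × ℝ → ℂ} (hk : Bd k) : n2 k < ⊤ := by
  rw [n2, ← lint_pow]
  exact ENNReal.pow_lt_top (bd_memLp hk 2).2

lemma ex_memLp {k : ℝ × ℝ → ℂ} (hk : Bd k) : MemLp (Ex k) 2 := by
  refine ⟨(pPl2 k hk).1.aestronglyMeasurable, ?_⟩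
  have h1 : eLpNorm (Ex k) 2 ^ 2 < ⊤ := by
    rw [lint_pow, (pPl2 k hk).2]
    exact n2_lt hk
  by_contra h
  rw [not_lt, top_le_iff] at h
  rw [h] at h1
  simp at h1

lemma norm_ee (t : ℝ) : ‖ee t‖ = 1 := by
  have h : (2 * Real.pi * Complex.I * (t : ℂ)) = ((2 * Real.pi * t : ℝ) : ℂ) * Complex.I := by
    push_cast
    ring
  rw [ee, h, Complex.norm_exp_ofReal_mul_I]

lemma ex_bdd (k : ℝ × ℝ → ℂ) (x : ℝ × ℝ) : ‖Ex k x‖ ≤ ∫ ξ, ‖k ξ‖ := by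
  refine (norm_integral_le_integral_norm _).trans_eq ?_
  congr 1
  funext ξ
  rw [norm_mul, norm_ee, mul_one]

/-- the cut function is admissible -/
lemma bf_ind {k : ℝ × ℝ → ℂ} (hk : Bd k) {X : Set (ℝ × ℝ)} (hX : MeasurableSet X)
    (hv : volume X < ⊤) : Bf (X.indicator (Ex k)) := by
  refine ⟨(pPl2 k hk).1.measurable.indicator hX, ⟨∫ ξ, ‖k ξ‖, fun x => ?_⟩, ?_⟩
  · by_cases hx : x ∈ X
    · rw [indicator_of_mem hx]; exact ex_bdd k x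
    · rw [indicator_of_notMem hx, norm_zero]
      exact integral_nonneg fun _ => norm_nonneg _
  · refine lt_of_le_of_lt (measure_mono fun x hx => ?_) hv
    by_contra h
    exact hx (indicator_of_notMem h _)

lemma isClosed_inn (δ : ℝ) (X : Set (ℝ × ℝ)) : IsClosed (inn δ X) := by
  rw [← isOpen_compl_iff]
  have h : (inn δ X)ᶜ = ⋃ y ∈ Xᶜ, {x : ℝ × ℝ | |y.1 - x.1| < δ ∧ |y.2 - x.2| < δ} := by
    ext x
    simp only [inn, mem_compl_iff, mem_ofPred_eq, mem_iUnion, exists_prop, not_forall]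
    constructor
    · rintro ⟨y, h1, h2, h3⟩; exact ⟨y, h3, h1, h2⟩
    · rintro ⟨y, h3, h1, h2⟩; exact ⟨y, h1, h2, h3⟩
  rw [h]
  refine isOpen_biUnion fun y _ => ?_
  have c1 : Continuous fun x : ℝ × ℝ => |y.1 - x.1| := by fun_prop
  have c2 : Continuous fun x : ℝ × ℝ => |y.2 - x.2| := by fun_prop
  exact (isOpen_lt c1 continuous_const).inter (isOpen_lt c2 continuous_const)

lemma sq_add (a b : ℝ≥0∞) : (a + b) ^ 2 ≤ 2 * a ^ 2 + 2 * b ^ 2 := by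
  have h := ENNReal.rpow_add_le_mul_rpow_add_rpow a b (p := 2) (by norm_num)
  have h1 : (2 : ℝ≥0∞) ^ ((2 : ℝ) - 1) = 2 := by norm_num
  rw [h1, ENNReal.rpow_two, ENNReal.rpow_two, ENNReal.rpow_two, mul_add] at h
  exact h

lemma cp_unique {sl : ℝ} {j p p' : ℕ} {ξ : ℝ × ℝ} (h : cp sl j p ξ) (h' : cp sl j p' ξ) :
    p = p' := by
  obtain ⟨-, h1, h2⟩ := h
  obtain ⟨-, h3, h4⟩ := h'
  have h5 : (p : ℝ) < p' + 1 := lt_of_le_of_lt h1 h4
  have h6 : (p' : ℝ) < p + 1 := lt_of_le_of_lt h3 h2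
  have h7 : p < p' + 1 := by exact_mod_cast h5
  have h8 : p' < p + 1 := by exact_mod_cast h6
  omega

/-- splitting of the convolution -/
lemma split (hC : tCVK) {ν k : ℝ × ℝ → ℂ} (hν : Bd ν) (hk : Bd k) {X : Set (ℝ × ℝ)}
    (hX : MeasurableSet X) (hv : volume X < ⊤) (x : ℝ × ℝ) :
    ‖Ex (fun ξ => ν ξ * k ξ) x‖ₑ ≤ ‖Ex (fun ξ => ν ξ * hat (X.indicator (Ex k)) ξ) x‖ₑ +
      ∫⁻ z in Xᶜ, ‖Ex ν (x - z)‖ₑ * ‖Ex k z‖ₑ := by
  have hint : Integrable (fun z => Ex ν (x - z) * Ex k z) := by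
    have h1 : MemLp (fun z => Ex ν (x - z)) 2 :=
      (ex_memLp hν).comp_measurePreserving (Measure.measurePreserving_sub_left volume x)
    exact MemLp.integrable_mul h1 (ex_memLp hk)
  rw [(hC ν hν).1 k hk x, (hC ν hν).2 _ (bf_ind hk hX hv) x, ← integral_add_compl hX hint]
  have h2 : ∫ z, Ex ν (x - z) * X.indicator (Ex k) z = ∫ z in X, Ex ν (x - z) * Ex k z := by
    rw [← integral_indicator hX]
    congr 1
    funext z
    by_cases hz : z ∈ X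
    · rw [indicator_of_mem hz, indicator_of_mem hz]
    · rw [indicator_of_notMem hz, indicator_of_notMem hz, mul_zero]
  rw [h2]
  refine (enorm_add_le _ _).trans ?_
  gcongr
  refine (enorm_integral_le_lintegral_enorm _).trans_eq ?_
  congr 1
  funext z
  rw [enorm_mul]

/-- multipliers with disjoint supports -/
lemma disj {n j : ℕ} {sl : ℝ} {ν : ℕ → ℝ × ℝ → ℂ} {G : ℝ × ℝ → ℂ} (hm : ∀ p, p < n → Bd (ν p))
    (h1 : ∀ p, p < n → ∀ ξ, ‖ν p ξ‖ ≤ 1) (h2 : ∀ p, p < n → ∀ ξ, ν p ξ ≠ 0 → cp sl j p ξ)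
    (hG : Measurable G) :
    ∑ p ∈ Finset.range n, n2 (fun ξ => ν p ξ * G ξ) ≤ ∫⁻ ξ, ‖G ξ‖ₑ ^ 2 := by
  have h3 : ∑ p ∈ Finset.range n, n2 (fun ξ => ν p ξ * G ξ) =
      ∫⁻ ξ, ∑ p ∈ Finset.range n, ‖ν p ξ * G ξ‖ₑ ^ 2 := by
    rw [lintegral_finsetSum']
    · rfl
    · intro p hp
      exact (((hm p (Finset.mem_range.mp hp)).1.mul hG).enorm.pow_const 2).aemeasurable
  rw [h3]
  refine lintegral_mono fun ξ => ?_
  by_cases hex : ∃ p, p < n ∧ ν p ξ ≠ 0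
  · obtain ⟨p, hp, hpξ⟩ := hex
    rw [Finset.sum_eq_single p]
    · refine pow_le_pow_left' ?_ 2
      rw [enorm_mul]
      have h5 : ‖ν p ξ‖ₑ ≤ 1 := by
        rw [← ofReal_norm, ← ENNReal.ofReal_one]
        exact ENNReal.ofReal_le_ofReal (h1 p hp ξ)
      calc ‖ν p ξ‖ₑ * ‖G ξ‖ₑ ≤ 1 * ‖G ξ‖ₑ := by gcongr
        _ = ‖G ξ‖ₑ := one_mul _
    · intro p' hp' hne
      have h6 : ν p' ξ = 0 := by
        by_contra h7
        exact hne (cp_unique (h2 p' (Finset.mem_range.mp hp') ξ h7) (h2 p hp ξ hpξ))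
      rw [h6, zero_mul]
      simp
    · intro h8
      exact absurd (Finset.mem_range.mpr hp) h8
  · push Not at hex
    rw [Finset.sum_eq_zero]
    · exact zero_le
    · intro p hp
      rw [hex p (Finset.mem_range.mp hp), zero_mul]
      simp

lemma numbers {a m e : ℕ} (h : PA a m) (he : e ≤ m) :
    (3 * 2 ^ (e + 8 * a) : ℝ) * (2 * (1 / 2 ^ (30 * m)) ^ 2) ≤ 1 / 2 ^ m := by
  obtain ⟨h1, h2, h3⟩ := h
  have h4 : 8 * a + 3 ≤ m := by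
    have h5 : ∀ b : ℕ, 20 ≤ b → 16 * b + 6 ≤ 2 ^ b := by
      intro b hb
      induction b, hb using Nat.le_induction with
      | base => norm_num
      | succ b hb ih => rw [pow_succ]; omega
    have := h5 a h1
    omega
  have h6 : (3 * 2 ^ (e + 8 * a) : ℝ) * 2 ≤ 2 ^ (2 * m) := by
    calc (3 * 2 ^ (e + 8 * a) : ℝ) * 2 ≤ 2 ^ 3 * 2 ^ (e + 8 * a) := by
          have : (0 : ℝ) < 2 ^ (e + 8 * a) := by positivity
          nlinarith
      _ = 2 ^ (3 + (e + 8 * a)) := by rw [pow_add 2 3]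
      _ ≤ 2 ^ (2 * m) := pow_le_pow_right₀ (by norm_num) (by omega)
  have h7 : (0 : ℝ) < 2 ^ (30 * m) := by positivity
  calc (3 * 2 ^ (e + 8 * a) : ℝ) * (2 * (1 / 2 ^ (30 * m)) ^ 2)
      = (3 * 2 ^ (e + 8 * a) : ℝ) * 2 * (1 / 2 ^ (60 * m)) := by
        rw [div_pow, one_pow, ← pow_mul, show 30 * m * 2 = 60 * m by ring]
        ring
    _ ≤ 2 ^ (2 * m) * (1 / 2 ^ (60 * m)) := by gcongr
    _ ≤ 1 / 2 ^ m := by
        rw [mul_one_div, div_le_div_iff₀ (by positivity) (by positivity), one_mul, ← pow_add]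
        exact pow_le_pow_right₀ (by norm_num) (by omega)

end LOC_

open LOC_

theorem pLOC (hC : tCVK) (hH : tHAT) (hY : tYNG) (hS : tMUS) (hK : tMUK) : tLOC := by
  intro a m sg sl l e c X k ha hsg0 hsg1 hsl1 hsl2 hl hlm hle hem hc hc1 hX hv hk
  have hj1 : l + 8 * a ≤ e + 8 * a + 1 := by omega
  have hj2 : e + 8 * a ≤ m + 8 * a := by omega
  set j := e + 8 * a with hj
  set ν : ℕ → ℝ × ℝ → ℂ := fun p => nu a m sg sl j (c / 4 ^ (l - 3 * a)) p with hν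
  have hS' : ∀ p, p < 3 * 2 ^ j → Bd (ν p) ∧ (∀ ξ, ‖ν p ξ‖ ≤ 1) ∧
      ∀ ξ, ν p ξ ≠ 0 → cp sl j p ξ := by
    intro p hp
    obtain ⟨-, ⟨h1, h2, h3⟩, -, -⟩ := hS a m sg sl l j c p ha hsg0 hsg1 hsl1 hsl2 hl hlm hj1 hj2
      hc hc1 hp
    exact ⟨h1, h2, fun ξ hξ => (h3 ξ hξ).2⟩
  set g := X.indicator (Ex k) with hg
  have hbf : Bf g := bf_ind hk hX hv
  obtain ⟨hgc, ⟨B, hB⟩, hgn, -⟩ := hH g hbf
  set A := inn (de a e) X with hA
  have hAm : MeasurableSet A := (isClosed_inn _ _).measurableSet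
  set R : Set (ℝ × ℝ) := {z | ¬ (|z.1| ≤ 2 ^ (6 * a + j + 1) ∧ |z.2| ≤ 2 ^ (6 * a + j + 1))}
    with hR
  have hRm : MeasurableSet R := by
    have c1 : Continuous fun z : ℝ × ℝ => |z.1| := by fun_prop
    have c2 : Continuous fun z : ℝ × ℝ => |z.2| := by fun_prop
    exact ((measurableSet_le c1.measurable measurable_const).inter
      (measurableSet_le c2.measurable measurable_const)).compl
  have hAR : ∀ x ∈ A, ∀ z ∈ Xᶜ, x - z ∈ R := by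
    intro x hx z hz hcon
    apply hz
    have hlt : (2 : ℝ) ^ (6 * a + j + 1) < de a e := by
      rw [de]
      have := ha.1
      exact pow_lt_pow_right₀ (by norm_num) (by omega)
    refine hx z ?_ ?_
    · have := hcon.1
      rw [Prod.fst_sub, abs_sub_comm] at this
      exact lt_of_le_of_lt this hlt
    · have := hcon.2
      rw [Prod.snd_sub, abs_sub_comm] at this
      exact lt_of_le_of_lt this hlt
  -- the main terms
  have hBdg : ∀ p, p < 3 * 2 ^ j → Bd (fun ξ => ν p ξ * hat g ξ) := by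
    intro p hp
    obtain ⟨⟨hm, _, R', hR'⟩, h1, -⟩ := hS' p hp
    refine ⟨hm.mul hgc.measurable, ⟨1 * B, fun ξ => ?_⟩, R', fun ξ hξ => hR' ξ ?_⟩
    · rw [norm_mul]
      exact mul_le_mul (h1 ξ) (hB ξ) (norm_nonneg _) zero_le_one
    · exact left_ne_zero_of_mul hξ
  have hmain : ∑ p ∈ Finset.range (3 * 2 ^ j), ∫⁻ x, ‖Ex (fun ξ => ν p ξ * hat g ξ) x‖ₑ ^ 2 ≤
      ∫⁻ x in X, ‖Ex k x‖ₑ ^ 2 := by
    have e1 : ∑ p ∈ Finset.range (3 * 2 ^ j), ∫⁻ x, ‖Ex (fun ξ => ν p ξ * hat g ξ) x‖ₑ ^ 2 =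
        ∑ p ∈ Finset.range (3 * 2 ^ j), n2 (fun ξ => ν p ξ * hat g ξ) :=
      Finset.sum_congr rfl fun p hp => (pPl2 _ (hBdg p (Finset.mem_range.mp hp))).2
    rw [e1]
    refine (disj (sl := sl) (j := j) (fun p hp => (hS' p hp).1) (fun p hp => (hS' p hp).2.1)
      (fun p hp => (hS' p hp).2.2) hgc.measurable).trans ?_
    rw [hgn, ← lintegral_indicator hX]
    refine lintegral_mono fun x => ?_
    by_cases hx : x ∈ X
    · rw [indicator_of_mem hx, hg, indicator_of_mem hx]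
    · rw [hg, indicator_of_notMem hx]
      simp
  -- the tails
  have htail : ∀ p, p < 3 * 2 ^ j →
      ∫⁻ x in A, (∫⁻ z in Xᶜ, ‖Ex (ν p) (x - z)‖ₑ * ‖Ex k z‖ₑ) ^ 2 ≤
        ENNReal.ofReal (1 / 2 ^ (30 * m)) ^ 2 * n2 k := by
    intro p hp
    obtain ⟨-, -, -, h4⟩ := hK a m sg sl l j c p ha hsg0 hsg1 hsl1 hsl2 hl hlm hj1 hj2 hc hc1 hp
    refine (hY (fun z => ‖Ex (ν p) z‖ₑ) (fun z => ‖Ex k z‖ₑ) A Xᶜ R
      (pPl2 _ (hS' p hp).1).1.measurable.enorm (pPl2 _ hk).1.measurable.enorm hAm hX.compl hRm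
      hAR).trans ?_
    gcongr
    exact (setLIntegral_le_lintegral _ _).trans_eq (pPl2 _ hk).2
  -- one cap
  have hone : ∀ p, p < 3 * 2 ^ j →
      ∫⁻ x in A, ‖Ex (fun ξ => ν p ξ * k ξ) x‖ₑ ^ 2 ≤
        2 * (∫⁻ x, ‖Ex (fun ξ => ν p ξ * hat g ξ) x‖ₑ ^ 2) +
          2 * (ENNReal.ofReal (1 / 2 ^ (30 * m)) ^ 2 * n2 k) := by
    intro p hp
    have hmeas : Measurable fun x => 2 * ‖Ex (fun ξ => ν p ξ * hat g ξ) x‖ₑ ^ 2 :=
      ((pPl2 _ (hBdg p hp)).1.measurable.enorm.pow_const 2).const_mul 2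
    calc ∫⁻ x in A, ‖Ex (fun ξ => ν p ξ * k ξ) x‖ₑ ^ 2
        ≤ ∫⁻ x in A, (2 * ‖Ex (fun ξ => ν p ξ * hat g ξ) x‖ₑ ^ 2 +
            2 * (∫⁻ z in Xᶜ, ‖Ex (ν p) (x - z)‖ₑ * ‖Ex k z‖ₑ) ^ 2) := by
          refine lintegral_mono fun x => ?_
          exact (pow_le_pow_left' (split hC (hS' p hp).1 hk hX hv x) 2).trans (sq_add _ _)
      _ = (∫⁻ x in A, 2 * ‖Ex (fun ξ => ν p ξ * hat g ξ) x‖ₑ ^ 2) +
            ∫⁻ x in A, 2 * (∫⁻ z in Xᶜ, ‖Ex (ν p) (x - z)‖ₑ * ‖Ex k z‖ₑ) ^ 2 :=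
          lintegral_add_left hmeas _
      _ ≤ 2 * (∫⁻ x, ‖Ex (fun ξ => ν p ξ * hat g ξ) x‖ₑ ^ 2) +
          2 * (ENNReal.ofReal (1 / 2 ^ (30 * m)) ^ 2 * n2 k) := by
          rw [lintegral_const_mul' _ _ (by norm_num), lintegral_const_mul' _ _ (by norm_num)]
          gcongr
          · exact Measure.restrict_le_self
          · exact htail p hp
  calc ∑ p ∈ Finset.range (3 * 2 ^ j), ∫⁻ x in A, ‖Ex (fun ξ => ν p ξ * k ξ) x‖ₑ ^ 2
      ≤ ∑ p ∈ Finset.range (3 * 2 ^ j),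
          (2 * (∫⁻ x, ‖Ex (fun ξ => ν p ξ * hat g ξ) x‖ₑ ^ 2) +
            2 * (ENNReal.ofReal (1 / 2 ^ (30 * m)) ^ 2 * n2 k)) :=
        Finset.sum_le_sum fun p hp => hone p (Finset.mem_range.mp hp)
    _ = 2 * (∑ p ∈ Finset.range (3 * 2 ^ j),
          ∫⁻ x, ‖Ex (fun ξ => ν p ξ * hat g ξ) x‖ₑ ^ 2) +
          (3 * 2 ^ j : ℕ) * (2 * (ENNReal.ofReal (1 / 2 ^ (30 * m)) ^ 2 * n2 k)) := by
        rw [Finset.sum_add_distrib, ← Finset.mul_sum, Finset.sum_const, Finset.card_range,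
          nsmul_eq_mul]
    _ ≤ 2 * (∫⁻ x in X, ‖Ex k x‖ₑ ^ 2) + ENNReal.ofReal (1 / 2 ^ m) * n2 k := by
        have e4 : ((3 * 2 ^ j : ℕ) : ℝ≥0∞) * (2 * (ENNReal.ofReal (1 / 2 ^ (30 * m)) ^ 2 * n2 k)) =
            ((3 * 2 ^ j : ℕ) : ℝ≥0∞) * (2 * ENNReal.ofReal (1 / 2 ^ (30 * m)) ^ 2) * n2 k := by
          ring
        rw [e4]
        refine add_le_add (mul_le_mul_right hmain 2) (mul_le_mul_left ?_ _)
        have e3 : ((3 * 2 ^ j : ℕ) : ℝ≥0∞) * (2 * ENNReal.ofReal (1 / 2 ^ (30 * m)) ^ 2) =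
            ENNReal.ofReal ((3 * 2 ^ j : ℝ) * (2 * (1 / 2 ^ (30 * m)) ^ 2)) := by
          have a1 : ((3 * 2 ^ j : ℕ) : ℝ≥0∞) = ENNReal.ofReal (3 * 2 ^ j : ℝ) := by
            rw [← ENNReal.ofReal_natCast]
            congr 1
            push_cast
            rfl
          have a2 : (2 : ℝ≥0∞) = ENNReal.ofReal 2 := by simp
          have a3 : ENNReal.ofReal (1 / 2 ^ (30 * m)) ^ 2 =
              ENNReal.ofReal ((1 / 2 ^ (30 * m)) ^ 2) :=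
            (ENNReal.ofReal_pow (by positivity) 2).symm
          rw [a1, a3, a2, ← ENNReal.ofReal_mul (by positivity),
            ← ENNReal.ofReal_mul (by positivity)]
        rw [e3]
        exact ENNReal.ofReal_le_ofReal (numbers ha hem)

end Pool.Agent.LLog
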