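import Pool.Agent.LLog.Targets

set_option autoImplicit false

/-! MAV: moving averages and sinc -/

namespace Pool.Agent.LLog

open MeasureTheory Set
open scoped ENNReal NNReal ComplexConjugate
open Pool.Agent.KSP (ee dot nr Ex Ex1 Bd Bd1 n1 n2 lg V0 ann)

namespace MAV_

/-- the integral of the character -/
lemma int_ee {w : ℝ} (s : ℝ) :
    ∫ u in (-(w / 2))..(w / 2), ee (s * u) = ((w * Real.sinc (Real.pi * w * s) : ℝ) : ℂ) := by
  by_cases hs : s = 0
  · subst hs
    simp only [ee, zero_mul, mul_zero, Complex.ofReal_zero, Complex.exp_zero, Real.sinc_zero,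
      mul_one]
    rw [intervalIntegral.integral_const]
    simp
  by_cases hw : w = 0
  · subst hw
    simp
  have hc : (2 * Real.pi * Complex.I * (s : ℂ)) ≠ 0 := by
    have h1 : (Real.pi : ℂ) ≠ 0 := Complex.ofReal_ne_zero.2 Real.pi_ne_zero
    have h2 : (s : ℂ) ≠ 0 := Complex.ofReal_ne_zero.2 hs
    exact mul_ne_zero (mul_ne_zero (mul_ne_zero two_ne_zero h1) Complex.I_ne_zero) h2
  have h1 : ∀ u : ℝ, ee (s * u) = Complex.exp ((2 * Real.pi * Complex.I * (s : ℂ)) * (u : ℂ)) := by
    intro u
    unfold ee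
    congr 1
    push_cast
    ring
  simp_rw [h1]
  rw [integral_exp_mul_complex hc]
  have hθ : Real.pi * w * s ≠ 0 := mul_ne_zero (mul_ne_zero Real.pi_ne_zero hw) hs
  rw [Real.sinc_of_ne_zero hθ]
  have e1 : (2 * Real.pi * Complex.I * (s : ℂ)) * ((w / 2 : ℝ) : ℂ) =
      ((Real.pi * w * s : ℝ) : ℂ) * Complex.I := by
    push_cast
    ring
  have e2 : (2 * Real.pi * Complex.I * (s : ℂ)) * ((-(w / 2) : ℝ) : ℂ) =
      -((Real.pi * w * s : ℝ) : ℂ) * Complex.I := by
    push_cast
    ring
  rw [e1, e2]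
  have h3 : Complex.exp (((Real.pi * w * s : ℝ) : ℂ) * Complex.I) -
      Complex.exp (-((Real.pi * w * s : ℝ) : ℂ) * Complex.I) =
      2 * Complex.I * ((Real.sin (Real.pi * w * s) : ℝ) : ℂ) := by
    rw [Complex.ofReal_sin, Complex.sin]
    have hI : Complex.I ^ 2 = -1 := Complex.I_sq
    linear_combination (-Complex.exp (-((Real.pi * w * s : ℝ) : ℂ) * Complex.I) +
      Complex.exp (((Real.pi * w * s : ℝ) : ℂ) * Complex.I)) * hI
  rw [h3]
  have hπ : (Real.pi : ℂ) ≠ 0 := Complex.ofReal_ne_zero.2 Real.pi_ne_zero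
  have hs' : (s : ℂ) ≠ 0 := Complex.ofReal_ne_zero.2 hs
  have hw' : (w : ℂ) ≠ 0 := Complex.ofReal_ne_zero.2 hw
  have hI := Complex.I_ne_zero
  push_cast
  field_simp

lemma ee_add (s t : ℝ) : ee (s + t) = ee s * ee t := by
  unfold ee
  rw [← Complex.exp_add]
  congr 1
  push_cast
  ring

lemma norm_ee (t : ℝ) : ‖ee t‖ = 1 := by
  unfold ee
  have : 2 * (Real.pi : ℂ) * Complex.I * (t : ℂ) = ((2 * Real.pi * t : ℝ) : ℂ) * Complex.I := by
    push_cast
    ring
  rw [this, Complex.norm_exp_ofReal_mul_I]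

lemma continuous_ee : Continuous ee := by
  unfold ee
  fun_prop

lemma integrable_of {f : ℝ → ℝ} {R B : ℝ} (hf : Measurable f) (hB : ∀ x, |f x| ≤ B)
    (hR : ∀ x, f x ≠ 0 → |x| ≤ R) : Integrable f := by
  have h1 : f = (Icc (-R) R).indicator f := by
    funext x
    by_cases hx : x ∈ Icc (-R) R
    · rw [indicator_of_mem hx]
    · rw [indicator_of_notMem hx]
      by_contra h0
      exact hx (abs_le.1 (hR x h0))
  rw [h1, integrable_indicator_iff measurableSet_Icc]
  refine Measure.integrableOn_of_bounded (M := B) ?_ hf.aestronglyMeasurable ?_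
  · simp
  · exact Filter.Eventually.of_forall fun x => by
      rw [Real.norm_eq_abs]
      exact hB x

end MAV_

open MAV_

theorem pMAV : tMAV := by
  rintro w R f hw hf ⟨B, hB⟩ hR
  have hint : Integrable f := integrable_of hf hB hR
  have hii : ∀ a b : ℝ, IntervalIntegrable f volume a b := fun a b => hint.intervalIntegrable
  have hprim : Continuous fun b : ℝ => ∫ t in (0 : ℝ)..b, f t :=
    intervalIntegral.continuous_primitive hii 0
  have hmav : ∀ x, mav w f x = w⁻¹ * ((∫ t in (0 : ℝ)..(x + w / 2), f t) -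
      ∫ t in (0 : ℝ)..(x - w / 2), f t) := by
    intro x
    unfold mav
    rw [intervalIntegral.integral_interval_sub_left (hii _ _) (hii _ _)]
  have hcont : Continuous (mav w f) := by
    have : mav w f = fun x => w⁻¹ * ((∫ t in (0 : ℝ)..(x + w / 2), f t) -
      ∫ t in (0 : ℝ)..(x - w / 2), f t) := funext hmav
    rw [this]
    refine continuous_const.mul ((hprim.comp (by fun_prop)).sub (hprim.comp (by fun_prop)))
  refine ⟨hcont.measurable, ?_, ?_, ?_⟩
  · intro x hx
    by_contra hlt
    rw [not_le] at hlt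
    refine hx ?_
    unfold mav
    rw [intervalIntegral.integral_zero_ae, mul_zero]
    refine Filter.Eventually.of_forall fun t ht => ?_
    rw [uIoc_of_le (by linarith)] at ht
    by_contra h0
    have h1 := abs_le.1 (hR t h0)
    have h2 : |x| ≤ R + w / 2 := by
      rw [abs_le]
      constructor <;> linarith [ht.1, ht.2, h1.1, h1.2]
    linarith
  · intro C hC x
    unfold mav
    have h1 := intervalIntegral.norm_integral_le_of_norm_le_const (a := x - w / 2)
      (b := x + w / 2) (f := f) (C := C) (fun t _ => by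
        rw [Real.norm_eq_abs]
        exact hC t)
    have h2 : x + w / 2 - (x - w / 2) = w := by ring
    rw [h2, abs_of_pos hw, Real.norm_eq_abs] at h1
    rw [abs_mul, abs_inv, abs_of_pos hw]
    calc w⁻¹ * |∫ t in (x - w / 2)..(x + w / 2), f t| ≤ w⁻¹ * (C * w) :=
          mul_le_mul_of_nonneg_left h1 (inv_pos.2 hw).le
      _ = C := by field_simp
  · intro s
    -- the substitution
    have h1 : ∀ ζ : ℝ, mav w f ζ = w⁻¹ * ∫ u in (-(w / 2))..(w / 2), f (ζ + u) := by
      intro ζ
      unfold mav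
      rw [intervalIntegral.integral_comp_add_left (fun t => f t) ζ]
      congr 2
    -- Fubini
    set μ₀ : Measure ℝ := volume.restrict (Ioc (-(w / 2)) (w / 2)) with hμ₀
    have hfin : IsFiniteMeasure μ₀ := by
      rw [hμ₀]
      exact ⟨by simp⟩
    have hF : Integrable (Function.uncurry fun (u ζ : ℝ) => (f (ζ + u) : ℂ) * ee (s * ζ))
        (μ₀.prod volume) := by
      have hdom : Integrable (fun z : ℝ × ℝ => (Icc (-(R + w / 2)) (R + w / 2)).indicator
          (fun _ => B) z.2) (μ₀.prod volume) := by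
        have h2 : Integrable ((Icc (-(R + w / 2)) (R + w / 2)).indicator fun _ : ℝ => B) := by
          rw [integrable_indicator_iff measurableSet_Icc]
          exact integrableOn_const (by simp)
        exact h2.comp_snd μ₀
      have hmeas : Measurable (Function.uncurry fun (u ζ : ℝ) =>
          (f (ζ + u) : ℂ) * ee (s * ζ)) := by
        have h2 : Measurable fun z : ℝ × ℝ => f (z.2 + z.1) :=
          hf.comp (measurable_snd.add measurable_fst)
        have h3 : Measurable fun z : ℝ × ℝ => ee (s * z.2) :=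
          continuous_ee.measurable.comp (measurable_snd.const_mul s)
        exact (Complex.measurable_ofReal.comp h2).mul h3
      refine Integrable.mono' hdom hmeas.aestronglyMeasurable ?_
      have hae : ∀ᵐ u ∂μ₀, u ∈ Ioc (-(w / 2)) (w / 2) := ae_restrict_mem measurableSet_Ioc
      have hae2 : ∀ᵐ z ∂(μ₀.prod volume), z.1 ∈ Ioc (-(w / 2)) (w / 2) :=
        (Measure.quasiMeasurePreserving_fst (μ := μ₀) (ν := (volume : Measure ℝ))).ae hae
      filter_upwards [hae2] with z hz
      show ‖(f (z.2 + z.1) : ℂ) * ee (s * z.2)‖ ≤ _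
      rw [norm_mul, norm_ee, mul_one, Complex.norm_real, Real.norm_eq_abs]
      by_cases hm : z.2 ∈ Icc (-(R + w / 2)) (R + w / 2)
      · rw [indicator_of_mem hm]
        exact hB _
      · rw [indicator_of_notMem hm]
        have h0 : f (z.2 + z.1) = 0 := by
          by_contra h0
          have h4 := abs_le.1 (hR _ h0)
          exact hm ⟨by linarith [hz.1, hz.2, h4.1, h4.2], by linarith [hz.1, hz.2, h4.1, h4.2]⟩
        rw [h0, abs_zero]
    have hswap := integral_integral_swap hF
    -- left side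
    have hle : -(w / 2) ≤ w / 2 := by linarith
    have hL : Ex1 (fun ζ => (mav w f ζ : ℂ)) s =
        ((w⁻¹ : ℝ) : ℂ) * ∫ ζ, ∫ u, (f (ζ + u) : ℂ) * ee (s * ζ) ∂μ₀ := by
      unfold Ex1
      rw [← integral_const_mul]
      refine integral_congr_ae (Filter.Eventually.of_forall fun ζ => ?_)
      show (mav w f ζ : ℂ) * ee (s * ζ) =
        ((w⁻¹ : ℝ) : ℂ) * ∫ u, (f (ζ + u) : ℂ) * ee (s * ζ) ∂μ₀
      rw [h1 ζ, integral_mul_const, intervalIntegral.integral_of_le hle, integral_complex_ofReal]
      push_cast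
      ring
    rw [hL, ← hswap]
    have hin : ∀ u : ℝ, ∫ ζ, (f (ζ + u) : ℂ) * ee (s * ζ) =
        ee (s * (-u)) * Ex1 (fun ζ => (f ζ : ℂ)) s := by
      intro u
      unfold Ex1
      rw [← integral_const_mul,
        ← integral_add_right_eq_self (μ := volume)
          (fun ζ : ℝ => ee (s * (-u)) * ((f ζ : ℂ) * ee (s * ζ))) u]
      refine integral_congr_ae (Filter.Eventually.of_forall fun ζ => ?_)
      show (f (ζ + u) : ℂ) * ee (s * ζ) = ee (s * (-u)) * ((f (ζ + u) : ℂ) * ee (s * (ζ + u)))
      have h2 : ee (s * (ζ + u)) = ee (s * ζ) * ee (s * u) := by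
        rw [← ee_add]
        congr 1
        ring
      have h3 : ee (s * (-u)) * ee (s * u) = 1 := by
        rw [← ee_add]
        have : s * (-u) + s * u = 0 := by ring
        rw [this]
        simp [ee]
      rw [h2]
      linear_combination (-(f (ζ + u) : ℂ) * ee (s * ζ)) * h3
    simp_rw [hin]
    rw [integral_mul_const, hμ₀, ← intervalIntegral.integral_of_le hle]
    have h4 : ∫ u in (-(w / 2))..(w / 2), ee (s * (-u)) =
        ((w * Real.sinc (Real.pi * w * s) : ℝ) : ℂ) := by
      rw [← int_ee (w := w) s]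
      have := intervalIntegral.integral_comp_neg (a := -(w / 2)) (b := w / 2)
        (fun u => ee (s * u))
      rw [neg_neg] at this
      exact this
    rw [h4]
    have hw' : (w : ℂ) ≠ 0 := Complex.ofReal_ne_zero.2 hw.ne'
    push_cast
    field_simp

end Pool.Agent.LLog
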