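import Pool.Agent.LLog.Targets

set_option autoImplicit false

/-! MP_ee701d_an, entry MLT: multiplicity of the active nodes above a tile point. -/

namespace Pool.Agent.LLog.MLT_

open MeasureTheory Set
open scoped ENNReal NNReal ComplexConjugate
open Pool.Agent.KSP (ee dot nr Ex Ex1 Bd Bd1 n1 n2 lg V0 ann)
open Pool.Agent.LLog

lemma sa_pos {t L : ℝ} {X : Set (ℝ × ℝ)} {x : ℝ × ℝ} (h : 0 < sa t L X x) :
    ∃ s ∈ Icc (-L) L, x + s • nv t ∈ X := by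
  by_contra hc
  push Not at hc
  have h0 : ∫⁻ s in Icc (-L) L, X.indicator (1 : ℝ × ℝ → ℝ≥0∞) (x + s • nv t) = 0 := by
    rw [setLIntegral_congr_fun (g := fun _ => (0 : ℝ≥0∞)) measurableSet_Icc]
    · simp
    · intro s hs
      exact indicator_of_notMem (hc s hs) _
  unfold sa at h
  rw [h0, mul_zero] at h
  exact lt_irrefl _ h

lemma Nn_ge (t : ℝ) : 1 ≤ Nn t := by
  unfold Nn
  rw [Real.one_le_sqrt]
  nlinarith [sq_nonneg t]

lemma Nn_sq (t : ℝ) : Nn t ^ 2 = 1 + t ^ 2 := by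
  unfold Nn
  exact Real.sq_sqrt (by nlinarith [sq_nonneg t])

lemma abs_le_Nn (t : ℝ) : |t| ≤ Nn t := by
  have h0 : 0 ≤ Nn t := le_trans zero_le_one (Nn_ge t)
  rw [← abs_of_nonneg h0]
  apply sq_le_sq.mp
  rw [Nn_sq]; linarith

lemma nv1 (t : ℝ) : |(nv t).1| ≤ 1 := by
  have h0 : 0 < Nn t := lt_of_lt_of_le zero_lt_one (Nn_ge t)
  change |1 / Nn t| ≤ 1
  rw [abs_div, abs_one, abs_of_pos h0, div_le_one h0]
  exact Nn_ge t

lemma nv2 (t : ℝ) : |(nv t).2| ≤ 1 := by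
  have h0 : 0 < Nn t := lt_of_lt_of_le zero_lt_one (Nn_ge t)
  change |t / Nn t| ≤ 1
  rw [abs_div, abs_of_pos h0, div_le_one h0]
  exact abs_le_Nn t

lemma tv1 (t : ℝ) : |(tv t).1| ≤ 1 := by
  have h0 : 0 < Nn t := lt_of_lt_of_le zero_lt_one (Nn_ge t)
  change |(-t) / Nn t| ≤ 1
  rw [abs_div, abs_neg, abs_of_pos h0, div_le_one h0]
  exact abs_le_Nn t

lemma tv2 (t : ℝ) : |(tv t).2| ≤ 1 := by
  have h0 : 0 < Nn t := lt_of_lt_of_le zero_lt_one (Nn_ge t)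
  change |1 / Nn t| ≤ 1
  rw [abs_div, abs_one, abs_of_pos h0, div_le_one h0]
  exact Nn_ge t

lemma dot_le {z v : ℝ × ℝ} {B : ℝ} (h1 : |z.1| < B) (h2 : |z.2| < B) (v1 : |v.1| ≤ 1)
    (v2 : |v.2| ≤ 1) : |dot z v| < 2 * B := by
  unfold dot
  have a1 : |z.1 * v.1| < B := by
    rw [abs_mul]
    calc |z.1| * |v.1| ≤ |z.1| * 1 := mul_le_mul_of_nonneg_left v1 (abs_nonneg _)
      _ = |z.1| := mul_one _
      _ < B := h1
  have a2 : |z.2 * v.2| < B := by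
    rw [abs_mul]
    calc |z.2| * |v.2| ≤ |z.2| * 1 := mul_le_mul_of_nonneg_left v2 (abs_nonneg _)
      _ = |z.2| := mul_one _
      _ < B := h2
  calc |z.1 * v.1 + z.2 * v.2| ≤ |z.1 * v.1| + |z.2 * v.2| := abs_add_le _ _
    _ < 2 * B := by linarith

lemma nn_le (t t' : ℝ) : |dot (nv t) (nv t')| ≤ 1 := by
  have h0 : 0 < Nn t := lt_of_lt_of_le zero_lt_one (Nn_ge t)
  have h0' : 0 < Nn t' := lt_of_lt_of_le zero_lt_one (Nn_ge t')
  have e : dot (nv t) (nv t') = (1 + t * t') / (Nn t * Nn t') := by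
    unfold dot nv
    field_simp
  rw [e, abs_div, abs_of_pos (mul_pos h0 h0'), div_le_one (mul_pos h0 h0')]
  rw [← abs_of_pos (mul_pos h0 h0')]
  apply sq_le_sq.mp
  rw [mul_pow, Nn_sq, Nn_sq]
  nlinarith [sq_nonneg (t - t')]

lemma nt_le (t t' : ℝ) : |dot (nv t) (tv t')| ≤ |t - t'| := by
  have h0 : 0 < Nn t := lt_of_lt_of_le zero_lt_one (Nn_ge t)
  have h0' : 0 < Nn t' := lt_of_lt_of_le zero_lt_one (Nn_ge t')
  have h1 : 1 ≤ Nn t * Nn t' := one_le_mul_of_one_le_of_one_le (Nn_ge t) (Nn_ge t')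
  have e : dot (nv t) (tv t') = (t - t') / (Nn t * Nn t') := by
    unfold dot nv tv
    field_simp
    ring
  rw [e, abs_div, abs_of_pos (mul_pos h0 h0')]
  exact div_le_self (abs_nonneg _) h1

lemma dot_smul (s : ℝ) (u v : ℝ × ℝ) : dot (s • u) v = s * dot u v := by
  unfold dot
  simp only [Prod.smul_fst, Prod.smul_snd, smul_eq_mul]
  ring

/-- nested caps have close directions -/
lemma tp_close (sl : ℝ) {j j' p p' : ℕ} (hj : j ≤ j') (hp : p' / 2 ^ (j' - j) = p) :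
    |tp sl j p - tp sl j' p'| ≤ 1 / 2 ^ j := by
  have e2 : (2 : ℝ) ^ j' = 2 ^ j * 2 ^ (j' - j) := by
    rw [← pow_add, Nat.add_sub_cancel' hj]
  have hd : (0 : ℝ) < 2 ^ (j' - j) := by positivity
  have hjp : (0 : ℝ) < 2 ^ j := by positivity
  have l1 : p * 2 ^ (j' - j) ≤ p' := by
    rw [← hp]; exact Nat.div_mul_le_self _ _
  have l2 : p' < (p + 1) * 2 ^ (j' - j) := by
    rw [← hp]
    have := Nat.lt_mul_of_div_lt (Nat.lt_succ_self (p' / 2 ^ (j' - j))) (by positivity)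
    simpa [Nat.succ_eq_add_one] using this
  have r1 : (p : ℝ) * 2 ^ (j' - j) ≤ p' := by exact_mod_cast l1
  have r2 : (p' : ℝ) < (p + 1) * 2 ^ (j' - j) := by exact_mod_cast l2
  unfold tp
  have e3 : (p' : ℝ) / 2 ^ j' = (p' / 2 ^ (j' - j)) / 2 ^ j := by
    rw [e2, div_div]; ring_nf
  have r1' : (p : ℝ) ≤ p' / 2 ^ (j' - j) := by rw [le_div_iff₀ hd]; exact r1
  have r2' : (p' : ℝ) / 2 ^ (j' - j) ≤ p + 1 := by rw [div_le_iff₀ hd]; exact r2.le
  rw [e3]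
  have e4 : (p : ℝ) / 2 ^ j - sl - (p' / 2 ^ (j' - j) / 2 ^ j - sl) =
      (p - p' / 2 ^ (j' - j)) / 2 ^ j := by ring
  rw [e4, abs_div, abs_of_pos hjp]
  apply div_le_div_of_nonneg_right _ hjp.le
  rw [abs_le]; constructor <;> linarith

lemma tp_mem {sl : ℝ} {j p : ℕ} (h1 : 1 ≤ sl) (h2 : sl < 2) (hp : p < 3 * 2 ^ j) :
    tp sl j p ∈ Icc (-2 : ℝ) 2 := by
  have hj : (0 : ℝ) < 2 ^ j := by positivity
  have r : (p : ℝ) < 3 * 2 ^ j := by exact_mod_cast hp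
  have r' : (p : ℝ) / 2 ^ j < 3 := by rw [div_lt_iff₀ hj]; exact r
  have r0 : (0 : ℝ) ≤ p / 2 ^ j := by positivity
  unfold tp
  constructor <;> linarith

lemma sd_pos (a e : ℕ) : 0 < sd a e := by unfold sd; positivity

lemma sd_mono {a e e' : ℕ} (h : e ≤ e') : sd a e ≤ sd a e' := by
  unfold sd
  exact pow_le_pow_right₀ (by norm_num) (by omega)

lemma Qx_close {a : ℕ} {z0 : ℝ × ℝ} {e : ℕ} {x y : ℝ × ℝ} (h : Qx a z0 e x = Qx a z0 e y) :
    |(x - y).1| < sd a e ∧ |(x - y).2| < sd a e := by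
  have hs := sd_pos a e
  have h1 := congrArg Prod.fst h
  have h2 := congrArg Prod.snd h
  simp only [Qx] at h1 h2
  have k1 := Int.abs_sub_lt_one_of_floor_eq_floor h1
  have k2 := Int.abs_sub_lt_one_of_floor_eq_floor h2
  constructor
  · have e1 : (x.1 - z0.1) / sd a e - (y.1 - z0.1) / sd a e = (x - y).1 / sd a e := by
      rw [Prod.fst_sub]; ring
    rw [e1, abs_div, abs_of_pos hs, div_lt_one hs] at k1
    exact k1
  · have e1 : (x.2 - z0.2) / sd a e - (y.2 - z0.2) / sd a e = (x - y).2 / sd a e := by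
      rw [Prod.snd_sub]; ring
    rw [e1, abs_div, abs_of_pos hs, div_lt_one hs] at k2
    exact k2

lemma bx_mono {t : ℝ} {x0 : ℝ × ℝ} {A B A' B' : ℝ} (hA : A ≤ A') (hB : B ≤ B') :
    bx t x0 A B ⊆ bx t x0 A' B' := fun _ hy => ⟨lt_of_lt_of_le hy.1 hA, lt_of_lt_of_le hy.2 hB⟩

/-- the good point is in the box -/
lemma box {a l l' e e' p p' : ℕ} {sl L s : ℝ} {z0 x x' y g : ℝ × ℝ} (hl : l ≤ l') (he : e ≤ e')
    (hle : l ≤ e + 1) (ha : 1 ≤ a)
    (hp : p' / 2 ^ (e' - e) = p) (hL : L ≤ 4 ^ (l + 5 * a)) (hs : s ∈ Icc (-L) L)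
    (hy : y = x + s • nv (tp sl (e + 8 * a) p)) (hg : Qx a z0 e g = Qx a z0 e y)
    (hx : x ∈ bx (tp sl (e' + 8 * a) p') x' (3 * bl a e' l') (3 * sd a e')) :
    g ∈ bx (tp sl (e' + 8 * a) p') x' (7 * bl a e' l') (7 * sd a e') := by
  have hsd := sd_pos a e
  have hsd' := sd_pos a e'
  have hss := sd_mono (a := a) he
  have hbs : sd a e' ≤ bl a e' l' := le_max_right _ _
  have hb4 : (4 : ℝ) ^ (l' + 5 * a) ≤ bl a e' l' := le_max_left _ _
  have h4 : (4 : ℝ) ^ (l + 5 * a) ≤ 4 ^ (l' + 5 * a) := pow_le_pow_right₀ (by norm_num) (by omega)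
  have hsa : |s| ≤ 4 ^ (l + 5 * a) := (abs_le.mpr ⟨hs.1, hs.2⟩).trans hL
  have hq := Qx_close hg
  have hcl := tp_close sl (j := e + 8 * a) (j' := e' + 8 * a) (p := p) (p' := p') (by omega)
    (by rw [show e' + 8 * a - (e + 8 * a) = e' - e by omega]; exact hp)
  have hpow : (4 : ℝ) ^ (l + 5 * a) * (1 / 2 ^ (e + 8 * a)) ≤ sd a e := by
    unfold sd
    rw [mul_one_div, div_le_iff₀ (by positivity), ← pow_add,
      show (4 : ℝ) = 2 ^ 2 by norm_num, ← pow_mul]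
    exact pow_le_pow_right₀ (by norm_num) (by omega)
  have dec : ∀ v : ℝ × ℝ, dot (g - x') v =
      dot (g - y) v + s * dot (nv (tp sl (e + 8 * a) p)) v + dot (x - x') v := by
    intro v
    rw [hy, ← dot_smul]
    unfold dot
    simp only [Prod.fst_sub, Prod.snd_sub, Prod.fst_add, Prod.snd_add]
    ring
  constructor
  · rw [dec]
    have b1 := dot_le hq.1 hq.2 (nv1 (tp sl (e' + 8 * a) p')) (nv2 (tp sl (e' + 8 * a) p'))
    have b2 : |s * dot (nv (tp sl (e + 8 * a) p)) (nv (tp sl (e' + 8 * a) p'))| ≤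
        4 ^ (l + 5 * a) := by
      rw [abs_mul]
      calc |s| * |dot (nv (tp sl (e + 8 * a) p)) (nv (tp sl (e' + 8 * a) p'))| ≤ |s| * 1 :=
            mul_le_mul_of_nonneg_left (nn_le _ _) (abs_nonneg _)
        _ ≤ 4 ^ (l + 5 * a) := by rw [mul_one]; exact hsa
    have b3 := hx.1
    calc _ ≤ |dot (g - y) (nv (tp sl (e' + 8 * a) p'))| +
          |s * dot (nv (tp sl (e + 8 * a) p)) (nv (tp sl (e' + 8 * a) p'))| +
          |dot (x - x') (nv (tp sl (e' + 8 * a) p'))| := abs_add_three _ _ _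
      _ < 7 * bl a e' l' := by linarith
  · rw [dec]
    have b1 := dot_le hq.1 hq.2 (tv1 (tp sl (e' + 8 * a) p')) (tv2 (tp sl (e' + 8 * a) p'))
    have b2 : |s * dot (nv (tp sl (e + 8 * a) p)) (tv (tp sl (e' + 8 * a) p'))| ≤ sd a e := by
      rw [abs_mul]
      calc |s| * |dot (nv (tp sl (e + 8 * a) p)) (tv (tp sl (e' + 8 * a) p'))| ≤
          4 ^ (l + 5 * a) * (1 / 2 ^ (e + 8 * a)) :=
            mul_le_mul hsa ((nt_le _ _).trans hcl) (abs_nonneg _) (by positivity)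
        _ ≤ sd a e := hpow
    have b3 := hx.2
    calc _ ≤ |dot (g - y) (tv (tp sl (e' + 8 * a) p'))| +
          |s * dot (nv (tp sl (e + 8 * a) p)) (tv (tp sl (e' + 8 * a) p'))| +
          |dot (x - x') (tv (tp sl (e' + 8 * a) p'))| := abs_add_three _ _ _
      _ < 7 * sd a e' := by linarith

lemma Lam_mem {a m : ℕ} {sl : ℝ} {LL : Finset ℕ} {e : ℕ → ℕ} {L : ℕ → ℝ}
    {X : ℕ → ℕ → Set (ℝ × ℝ)} {l c p : ℕ} {x : ℝ × ℝ} {P : ℕ × ℕ}
    (h : P ∈ Lam a m sl LL e L X l c p x) : P.1 ∈ LL ∧ P.2 < 2 * 4 ^ m ∧ l ≤ P.1 ∧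
    ∃ p' x', p' / 2 ^ (e P.1 - e l) = p ∧ p' < 3 * 2 ^ (e P.1 + 8 * a) ∧
      ENNReal.ofReal (1 / 2 ^ a) ≤
        sa (tp sl (e P.1 + 8 * a) p') (L P.1) (inn (de a (e P.1)) (X P.1 P.2)) x' ∧
      x ∈ bx (tp sl (e P.1 + 8 * a) p') x' ((2 + (m - l : ℝ) / m) * bl a (e P.1) P.1)
        ((2 + (m - l : ℝ) / m) * sd a (e P.1)) := by
  classical
  unfold Lam at h
  rw [Finset.mem_filter, Finset.mem_product, Finset.mem_range] at h
  exact ⟨h.1.1, h.1.2, h.2.1, h.2.2.2⟩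

lemma fac_le (m l : ℕ) : (2 : ℝ) + (m - l : ℝ) / m ≤ 3 := by
  rcases Nat.eq_zero_or_pos m with h | h
  · subst h; simp; norm_num
  · have hm : (0 : ℝ) < m := by exact_mod_cast h
    have : (m - l : ℝ) / m ≤ 1 := by
      rw [div_le_one hm]
      have : (0 : ℝ) ≤ l := by positivity
      linarith
    linarith

/-- each active node is counted -/
lemma node {a m : ℕ} {sl : ℝ} {z0 : ℝ × ℝ} {T : Finset Top} {F : Fam} {G : Set (ℝ × ℝ)}
    {LL : Finset ℕ} {L : ℕ → ℝ} (hC : tCLP) (hPA : PA a m) (s1 : 1 ≤ sl) (s2 : sl < 2)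
    (hF : FOK a m z0 T F) (hLL : LL ⊆ F.Lv) (hCL : CL a m LL F.e L) {l : ℕ} (hl : l ∈ LL)
    {c p : ℕ} {x y g : ℝ × ℝ} {s : ℝ} (hs : s ∈ Icc (-(L l)) (L l))
    (hy : y = x + s • nv (tp sl (F.e l + 8 * a) p)) (hg : Qx a z0 (F.e l) g = Qx a z0 (F.e l) y)
    {P : ℕ × ℕ} (hP : P ∈ Lam a m sl LL F.e L (XF a z0 F G) l c p x) :
    (P.1, P.2 / 4) ∈ F.Lv ×ˢ Finset.range (2 * 4 ^ m) ∧ g ∈ Zp a z0 T (F.e P.1) P.1 (P.2 / 4) := by
  obtain ⟨hPL, hPr, hlP, p', x', hp', hp3, hsa, hx⟩ := Lam_mem hP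
  obtain ⟨c1, c2, c3, c4, c5, c6⟩ := hCL.1 P.1 hPL
  obtain ⟨d1, d2, d3, d4, d5, d6⟩ := hCL.1 l hl
  obtain ⟨f1, f2, f3, f4⟩ := hF
  have he : F.e l ≤ F.e P.1 := by
    rcases Nat.lt_or_eq_of_le hlP with h | h
    · exact (hCL.2 l hl P.1 hPL h).2
    · rw [h]
  have hsat : ∀ y y', Qx a z0 (F.e P.1) y = Qx a z0 (F.e P.1) y' → y ∈ XF a z0 F G P.1 P.2 →
      y' ∈ XF a z0 F G P.1 P.2 := by
    rintro y y' hyy ⟨w, hw, hwy, hwe⟩
    exact ⟨w, hw, hwy.trans hyy, hwe⟩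
  have hsub : XF a z0 F G P.1 P.2 ⊆ Zt a z0 T (F.e P.1) P.1 (P.2 / 4) := by
    rintro w ⟨v, hv, hvw, hve⟩
    exact f4 P.1 (hLL hPL) P.2 w (f3 P.1 (hLL hPL) P.2 v w hvw hve)
  have hvol := hC a m z0 (tp sl (F.e P.1 + 8 * a) p') (L P.1) (F.e P.1) P.1
    (XF a z0 F G P.1 P.2) x' hPA c1 c2 c3 c4 c5 c6 hsat hsa
  have hbl : 0 < bl a (F.e P.1) P.1 := lt_of_lt_of_le (sd_pos a _) (le_max_right _ _)
  have hsd := sd_pos a (F.e P.1)
  have hx3 : x ∈ bx (tp sl (F.e P.1 + 8 * a) p') x' (3 * bl a (F.e P.1) P.1)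
      (3 * sd a (F.e P.1)) :=
    bx_mono (mul_le_mul_of_nonneg_right (fac_le m l) hbl.le)
      (mul_le_mul_of_nonneg_right (fac_le m l) hsd.le) hx
  have hbox := box (z0 := z0) (g := g) hlP he d3 (by have := hPA.1; omega) hp' d6 hs hy hg hx3
  refine ⟨?_, tp sl (F.e P.1 + 8 * a) p', tp_mem s1 s2 hp3, x', hbox, ?_⟩
  · rw [Finset.mem_product, Finset.mem_range]
    exact ⟨hLL hPL, lt_of_le_of_lt (Nat.div_le_self _ _) hPr⟩
  · refine hvol.trans (measure_mono (inter_subset_inter hsub ?_))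
    exact bx_mono (by linarith) (by linarith)

lemma fibre (s : Finset (ℕ × ℕ)) (b : ℕ × ℕ) :
    (s.filter (fun P => (P.1, P.2 / 4) = b)).card ≤ 4 := by
  calc (s.filter (fun P => (P.1, P.2 / 4) = b)).card ≤
        ((Finset.range 4).image (fun i => (b.1, 4 * b.2 + i))).card := by
        apply Finset.card_le_card
        intro P hP
        rw [Finset.mem_filter] at hP
        rw [Finset.mem_image]
        refine ⟨P.2 % 4, Finset.mem_range.mpr (Nat.mod_lt _ (by norm_num)), ?_⟩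
        rw [← hP.2]
        exact Prod.ext rfl (Nat.div_add_mod P.2 4)
    _ ≤ (Finset.range 4).card := Finset.card_image_le
    _ = 4 := Finset.card_range 4

theorem main (hC : tCLP) : tMLT := by
  classical
  intro a m sl z0 T F G LL L hPA s1 s2 hF hG hLL hCL l hl c hc p hp x hsa
  have hpos : 0 < sa (tp sl (F.e l + 8 * a) p) (L l)
      (inn (de a (F.e l)) (XF a z0 F G l c)) x := by
    refine lt_of_lt_of_le ?_ hsa
    rw [ENNReal.ofReal_pos]; positivity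
  obtain ⟨s, hs, hyX⟩ := sa_pos hpos
  have hde : 0 < de a (F.e l) := by unfold de; positivity
  obtain ⟨g, hgG, hgQ, hgE⟩ := hyX (x + s • nv (tp sl (F.e l + 8 * a) p))
    (by rw [sub_self, abs_zero]; exact hde) (by rw [sub_self, abs_zero]; exact hde)
  have hcount := (hG g hgG).2
  have key : (Lam a m sl LL F.e L (XF a z0 F G) l c p x).card ≤ 4 *
      ((F.Lv ×ˢ Finset.range (2 * 4 ^ m)).filter
        (fun P => g ∈ Zp a z0 T (F.e P.1) P.1 P.2)).card := by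
    apply Finset.card_le_mul_card_image_of_maps_to (f := fun P : ℕ × ℕ => (P.1, P.2 / 4))
    · intro P hP
      obtain ⟨h1, h2⟩ := node hC hPA s1 s2 hF hLL hCL hl hs rfl hgQ hP
      rw [Finset.mem_filter]
      exact ⟨h1, h2⟩
    · intro b _
      exact fibre _ b
  calc _ ≤ 4 * ((F.Lv ×ˢ Finset.range (2 * 4 ^ m)).filter
        (fun P => g ∈ Zp a z0 T (F.e P.1) P.1 P.2)).card := key
    _ ≤ 4 * 2 ^ (90 * a) := by
        apply Nat.mul_le_mul_left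
        refine le_trans (le_of_eq ?_) hcount
        congr
    _ = 2 ^ (90 * a + 2) := by rw [pow_add]; ring

end Pool.Agent.LLog.MLT_

namespace Pool.Agent.LLog

/-- F4 multiplicity -/
theorem pMLT (hCLP : tCLP) : tMLT := MLT_.main hCLP

end Pool.Agent.LLog
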