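import Pool.Agent.LLog.Targets
import Pool.Agent.KSP.Base
import Pool.Agent.KSP.V1

set_option autoImplicit false

/-! LLG-PCH: the positive sum for a colouring. -/

namespace Pool.Agent.LLog

open MeasureTheory Set
open scoped ENNReal NNReal ComplexConjugate
open Pool.Agent.KSP (ee dot nr Ex Ex1 Bd Bd1 n1 n2 lg V0 ann)

namespace PCH_

lemma meas_inn (δ : ℝ) (X : Set (ℝ × ℝ)) : MeasurableSet (inn δ X) := by
  have e : (inn δ X)ᶜ = ⋃ y ∈ Xᶜ, {x : ℝ × ℝ | |y.1 - x.1| < δ ∧ |y.2 - x.2| < δ} := by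
    ext x
    simp only [inn, mem_compl_iff, mem_ofPred_eq, mem_iUnion]
    push Not
    constructor
    · rintro ⟨y, h1, h2, h3⟩
      exact ⟨y, h3, h1, h2⟩
    · rintro ⟨y, h3, h1, h2⟩
      exact ⟨y, h1, h2, h3⟩
  have ho : IsOpen (inn δ X)ᶜ := by
    rw [e]
    refine isOpen_iUnion fun y => isOpen_iUnion fun _ => ?_
    have h1 : Continuous fun x : ℝ × ℝ => |y.1 - x.1| := by fun_prop
    have h2 : Continuous fun x : ℝ × ℝ => |y.2 - x.2| := by fun_prop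
    exact (isOpen_lt h1 continuous_const).inter (isOpen_lt h2 continuous_const)
  exact (isOpen_compl_iff.1 ho).measurableSet

lemma inn_sub {δ : ℝ} (hδ : 0 < δ) (X : Set (ℝ × ℝ)) : inn δ X ⊆ X := by
  intro x hx
  exact hx x (by simpa using hδ) (by simpa using hδ)

lemma meas_ind {X : Set (ℝ × ℝ)} (hX : MeasurableSet X) (t : ℝ) :
    Measurable fun P : (ℝ × ℝ) × ℝ => X.indicator (1 : ℝ × ℝ → ℝ≥0∞) (P.1 + P.2 • nv t) := by
  have h1 : Measurable fun P : (ℝ × ℝ) × ℝ => P.1 + P.2 • nv t := by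
    have : Continuous fun P : (ℝ × ℝ) × ℝ => P.1 + P.2 • nv t := by fun_prop
    exact this.measurable
  exact (measurable_one.indicator hX).comp h1

lemma meas_sa (t L : ℝ) {X : Set (ℝ × ℝ)} (hX : MeasurableSet X) : Measurable (sa t L X) := by
  unfold sa
  refine Measurable.const_mul ?_ _
  exact (meas_ind hX t).lintegral_prod_right'

lemma sa_le (t : ℝ) {L : ℝ} (hL : 0 < L) (X : Set (ℝ × ℝ)) (x : ℝ × ℝ) : sa t L X x ≤ 1 := by
  unfold sa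
  have h1 : ∫⁻ s in Icc (-L) L, X.indicator (1 : ℝ × ℝ → ℝ≥0∞) (x + s • nv t) ≤
      ENNReal.ofReal (2 * L) := by
    calc ∫⁻ s in Icc (-L) L, X.indicator (1 : ℝ × ℝ → ℝ≥0∞) (x + s • nv t)
        ≤ ∫⁻ s in Icc (-L) L, (1 : ℝ≥0∞) := by
          refine lintegral_mono fun s => ?_
          exact indicator_le_self' (fun _ _ => zero_le) _ |>.trans (by simp)
      _ = ENNReal.ofReal (2 * L) := by
          rw [lintegral_const, Measure.restrict_apply_univ, Real.volume_Icc, one_mul]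
          congr 1
          ring
  calc (ENNReal.ofReal (2 * L))⁻¹ *
        ∫⁻ s in Icc (-L) L, X.indicator (1 : ℝ × ℝ → ℝ≥0∞) (x + s • nv t)
      ≤ (ENNReal.ofReal (2 * L))⁻¹ * ENNReal.ofReal (2 * L) := by gcongr
    _ = 1 := by
        refine ENNReal.inv_mul_cancel ?_ ENNReal.ofReal_ne_top
        simp only [ne_eq, ENNReal.ofReal_eq_zero, not_le]
        linarith

lemma lint_sa (t : ℝ) {L : ℝ} (hL : 0 < L) {X : Set (ℝ × ℝ)} (hX : MeasurableSet X) :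
    ∫⁻ x, sa t L X x = volume X := by
  unfold sa
  rw [lintegral_const_mul _ (meas_ind hX t).lintegral_prod_right']
  rw [lintegral_lintegral_swap (meas_ind hX t).aemeasurable]
  have h1 : ∀ s : ℝ, ∫⁻ x : ℝ × ℝ, X.indicator (1 : ℝ × ℝ → ℝ≥0∞) (x + s • nv t) = volume X := by
    intro s
    rw [lintegral_add_right_eq_self (fun x => X.indicator (1 : ℝ × ℝ → ℝ≥0∞) x) (s • nv t)]
    exact lintegral_indicator_one hX
  simp only [h1]
  rw [lintegral_const, Measure.restrict_apply_univ, Real.volume_Icc, ← mul_assoc]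
  have h2 : ENNReal.ofReal (L - -L) = ENNReal.ofReal (2 * L) := by
    congr 1
    ring
  rw [h2, mul_assoc, mul_comm (volume X), ← mul_assoc, ENNReal.inv_mul_cancel _
    ENNReal.ofReal_ne_top, one_mul]
  simp only [ne_eq, ENNReal.ofReal_eq_zero, not_le]
  linarith

lemma vol_sa (t : ℝ) {L : ℝ} (hL : 0 < L) {X : Set (ℝ × ℝ)} (hX : MeasurableSet X)
    (hf : volume X < ⊤) {r : ℝ} (hr : 0 < r) :
    volume {x | ENNReal.ofReal r ≤ sa t L X x} < ⊤ := by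
  have h1 := mul_meas_ge_le_lintegral₀ (μ := (volume : Measure (ℝ × ℝ)))
    (meas_sa t L hX).aemeasurable (ENNReal.ofReal r)
  rw [lint_sa t hL hX] at h1
  have h2 : ENNReal.ofReal r ≠ 0 := by simpa using hr
  by_contra h3
  rw [not_lt, top_le_iff] at h3
  rw [h3, ENNReal.mul_top h2] at h1
  exact absurd (lt_of_le_of_lt h1 hf) (lt_irrefl _)

lemma cdr_unique {sg r : ℝ} {l c c' : ℕ} (h : cdr sg l c r) (h' : cdr sg l c' r) : c = c' := by
  have h1 : (c : ℝ) < c' + 1 := lt_of_le_of_lt h.1 h'.2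
  have h2 : (c' : ℝ) < c + 1 := lt_of_le_of_lt h'.1 h.2
  have h3 : c < c' + 1 := by exact_mod_cast h1
  have h4 : c' < c + 1 := by exact_mod_cast h2
  omega

lemma anc {y : ℝ} {b d c : ℕ} (hb : 0 < b) (h1 : (c : ℝ) ≤ (b : ℝ) ^ d * y)
    (h2 : (b : ℝ) ^ d * y < c + 1) :
    ((c / b ^ d : ℕ) : ℝ) ≤ y ∧ y < (c / b ^ d : ℕ) + 1 := by
  have hb' : (0 : ℝ) < (b : ℝ) ^ d := by positivity
  have e1 : c / b ^ d * b ^ d ≤ c := Nat.div_mul_le_self _ _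
  have e2 : c < (c / b ^ d + 1) * b ^ d := by
    rw [Nat.add_mul, one_mul]
    exact Nat.lt_div_mul_add (pow_pos hb d)
  have f1 : ((c / b ^ d : ℕ) : ℝ) * (b : ℝ) ^ d ≤ c := by exact_mod_cast e1
  have f2 : (c : ℝ) + 1 ≤ (((c / b ^ d : ℕ) : ℝ) + 1) * (b : ℝ) ^ d := by exact_mod_cast e2
  constructor
  · by_contra h3
    rw [not_le] at h3
    nlinarith
  · by_contra h3
    rw [not_lt] at h3
    nlinarith

lemma cdr_anc {sg r : ℝ} {l l' c' : ℕ} (hl : l ≤ l') (h : cdr sg l' c' r) :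
    cdr sg l (c' / 4 ^ (l' - l)) r := by
  have e : (4 : ℝ) ^ l' = ((4 : ℕ) : ℝ) ^ (l' - l) * 4 ^ l := by
    push_cast
    rw [← pow_add]
    congr 1
    omega
  refine anc (b := 4) (by norm_num) ?_ ?_
  · rw [← mul_assoc, ← e]
    exact h.1
  · rw [← mul_assoc, ← e]
    exact h.2

lemma cp_unique {sl : ℝ} {ξ : ℝ × ℝ} {j p p' : ℕ} (h : cp sl j p ξ) (h' : cp sl j p' ξ) :
    p = p' := by
  have h1 : (p : ℝ) < p' + 1 := lt_of_le_of_lt h.2.1 h'.2.2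
  have h2 : (p' : ℝ) < p + 1 := lt_of_le_of_lt h'.2.1 h.2.2
  have h3 : p < p' + 1 := by exact_mod_cast h1
  have h4 : p' < p + 1 := by exact_mod_cast h2
  omega

lemma cp_anc {sl : ℝ} {ξ : ℝ × ℝ} {j j' p' : ℕ} (hj : j ≤ j') (h : cp sl j' p' ξ) :
    cp sl j (p' / 2 ^ (j' - j)) ξ := by
  have e : (2 : ℝ) ^ j' = ((2 : ℕ) : ℝ) ^ (j' - j) * 2 ^ j := by
    push_cast
    rw [← pow_add]
    congr 1
    omega
  refine ⟨h.1, anc (b := 2) (by norm_num) ?_ ?_⟩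
  · rw [← mul_assoc, ← e]
    exact h.2.1
  · rw [← mul_assoc, ← e]
    exact h.2.2

lemma adm_lt {a l c : ℕ} {sg : ℝ} {LL : Finset ℕ} (h : adm a sg LL l c) :
    1 < sg + (c + 1) / 4 ^ l := by
  obtain ⟨ζ, h1, -, h2, -⟩ := h
  have h4 : (0 : ℝ) < 4 ^ l := by positivity
  have h3 : ζ - sg < (c + 1) / 4 ^ l := by
    rw [lt_div_iff₀ h4]
    have := h2.2
    linarith
  linarith

open Classical in
/-- the weight of the node `v` at a tile point with value `S` and active set `Λ` -/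
noncomputable def w (r S : ℝ≥0∞) (Λ : Finset (ℕ × ℕ)) (χ : ℕ × ℕ → ℕ) (v : ℕ × ℕ) : ℝ :=
  if (r ≤ S ∧ (Λ.filter (fun v => χ v = 0)).card = 1) ∧ v ∈ Λ ∧ χ v = 0 then S.toReal else 0

lemma w_nonneg (r S : ℝ≥0∞) (Λ : Finset (ℕ × ℕ)) (χ : ℕ × ℕ → ℕ) (v : ℕ × ℕ) :
    0 ≤ w r S Λ χ v := by
  unfold w
  split_ifs
  · exact ENNReal.toReal_nonneg
  · exact le_rfl

lemma w_le (r : ℝ≥0∞) {S : ℝ≥0∞} (Λ : Finset (ℕ × ℕ)) (χ : ℕ × ℕ → ℕ) (v : ℕ × ℕ) :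
    ENNReal.ofReal (w r S Λ χ v) ≤ S := by
  unfold w
  split_ifs
  · exact ENNReal.ofReal_toReal_le
  · simp

lemma w_ne {r S : ℝ≥0∞} {Λ : Finset (ℕ × ℕ)} {χ : ℕ × ℕ → ℕ} {v : ℕ × ℕ} (h : w r S Λ χ v ≠ 0) :
    (r ≤ S ∧ (Λ.filter (fun v => χ v = 0)).card = 1) ∧ v ∈ Λ ∧ χ v = 0 := by
  unfold w at h
  by_contra h'
  exact h (if_neg h')

lemma w_sum {r S : ℝ≥0∞} {Λ V : Finset (ℕ × ℕ)} {χ : ℕ × ℕ → ℕ} (hΛ : Λ ⊆ V) :
    ∑ v ∈ V, w r S Λ χ v =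
      open Classical in if r ≤ S ∧ (Λ.filter (fun v => χ v = 0)).card = 1 then S.toReal else 0 := by
  classical
  by_cases h : r ≤ S ∧ (Λ.filter (fun v => χ v = 0)).card = 1
  · rw [if_pos h]
    have h1 : ∀ v ∈ V, w r S Λ χ v = if v ∈ Λ ∧ χ v = 0 then S.toReal else 0 := by
      intro v _
      unfold w
      by_cases h2 : v ∈ Λ ∧ χ v = 0
      · rw [if_pos ⟨h, h2⟩, if_pos h2]
      · rw [if_neg (fun h3 => h2 h3.2), if_neg h2]
    rw [Finset.sum_congr rfl h1, ← Finset.sum_filter]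
    have h2 : V.filter (fun v => v ∈ Λ ∧ χ v = 0) = Λ.filter (fun v => χ v = 0) := by
      ext v
      simp only [Finset.mem_filter]
      constructor
      · rintro ⟨_, h3⟩
        exact h3
      · rintro h3
        exact ⟨hΛ h3.1, h3⟩
    rw [h2, Finset.sum_const, h.2, one_smul]
  · rw [if_neg h]
    refine Finset.sum_eq_zero fun v _ => ?_
    unfold w
    exact if_neg (fun h2 => h h2.1)

lemma w_sum' {r S : ℝ≥0∞} {Λ V : Finset (ℕ × ℕ)} {χ : ℕ × ℕ → ℕ} (hΛ : Λ ⊆ V) (hS : S ≤ 1) :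
    ∑ v ∈ V, ENNReal.ofReal (w r S Λ χ v) =
      open Classical in if r ≤ S ∧ (Λ.filter (fun v => χ v = 0)).card = 1 then S else 0 := by
  classical
  rw [← ENNReal.ofReal_sum_of_nonneg (fun v _ => w_nonneg r S Λ χ v), w_sum hΛ]
  split_ifs
  · exact ENNReal.ofReal_toReal (ne_top_of_le_ne_top ENNReal.one_ne_top hS)
  · exact ENNReal.ofReal_zero

lemma w_sum_le {r S : ℝ≥0∞} {Λ V : Finset (ℕ × ℕ)} {χ : ℕ × ℕ → ℕ} (hΛ : Λ ⊆ V) (hS : S ≤ 1) :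
    ∑ v ∈ V, w r S Λ χ v ≤ 1 := by
  classical
  rw [w_sum hΛ]
  split_ifs
  · exact ENNReal.toReal_le_of_le_ofReal (by norm_num) (by simpa using hS)
  · norm_num

lemma w_meas {r : ℝ≥0∞} {S : ℝ × ℝ → ℝ≥0∞} {Λ : ℝ × ℝ → Finset (ℕ × ℕ)} {V : Finset (ℕ × ℕ)}
    {χ : ℕ × ℕ → ℕ} (hS : Measurable S) (hV : ∀ x, Λ x ⊆ V)
    (hΛ : ∀ P, MeasurableSet {x | P ∈ Λ x}) (v : ℕ × ℕ) :
    Measurable fun x => w r (S x) (Λ x) χ v := by
  classical
  unfold w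
  refine Measurable.ite ?_ hS.ennreal_toReal measurable_const
  have h1 : Measurable fun x => ((Λ x).filter (fun v => χ v = 0)).card := by
    have e : (fun x => ((Λ x).filter (fun v => χ v = 0)).card) =
        fun x => ∑ P ∈ V.filter (fun v => χ v = 0), if P ∈ Λ x then 1 else 0 := by
      funext x
      rw [← Finset.card_filter]
      congr 1
      ext P
      simp only [Finset.mem_filter]
      constructor
      · rintro ⟨h1, h2⟩
        exact ⟨⟨hV x h1, h2⟩, h1⟩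
      · rintro ⟨⟨_, h2⟩, h1⟩
        exact ⟨h1, h2⟩
    rw [e]
    refine Finset.measurable_sum _ fun P _ => ?_
    exact Measurable.ite (hΛ P) measurable_const measurable_const
  have h2 : MeasurableSet {x | r ≤ S x} := measurableSet_le measurable_const hS
  have h3 : MeasurableSet {x | ((Λ x).filter (fun v => χ v = 0)).card = 1} :=
    h1 (measurableSet_singleton 1)
  exact (h2.inter h3).inter ((hΛ v).inter (MeasurableSet.const _))

lemma ex_bdd (k : ℝ × ℝ → ℂ) : ∃ B : ℝ, ∀ x, ‖Ex k x‖ ≤ B := by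
  refine ⟨∫ ξ, ‖k ξ‖, fun x => ?_⟩
  unfold Ex
  refine (norm_integral_le_integral_norm _).trans (le_of_eq ?_)
  congr 1
  funext ξ
  rw [norm_mul, Pool.Agent.KSP.V1_.norm_ee, mul_one]

lemma bd_mul {μ k : ℝ × ℝ → ℂ} (hμ : Bd μ) (hμ1 : ∀ ξ, ‖μ ξ‖ ≤ 1) (hk : Bd k) :
    Bd (fun ξ => μ ξ * k ξ) := by
  obtain ⟨h1, -, -⟩ := hμ
  obtain ⟨k1, ⟨B, hB⟩, R, hR⟩ := hk
  refine ⟨h1.mul k1, ⟨B, fun ξ => ?_⟩, R, fun ξ hξ => hR ξ (right_ne_zero_of_mul hξ)⟩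
  rw [norm_mul]
  have := norm_nonneg (k ξ)
  have := hμ1 ξ
  have := hB ξ
  nlinarith

lemma n2_mul {μ k : ℝ × ℝ → ℂ} (hμ1 : ∀ ξ, ‖μ ξ‖ ≤ 1) : n2 (fun ξ => μ ξ * k ξ) ≤ n2 k := by
  unfold n2
  refine lintegral_mono fun ξ => ?_
  have h1 : ‖μ ξ‖ₑ ≤ 1 := by
    rw [← ofReal_norm]
    exact ENNReal.ofReal_le_one.2 (hμ1 ξ)
  have h2 : ‖μ ξ * k ξ‖ₑ ≤ ‖k ξ‖ₑ := by
    rw [enorm_mul]
    calc ‖μ ξ‖ₑ * ‖k ξ‖ₑ ≤ 1 * ‖k ξ‖ₑ := by gcongr
      _ = ‖k ξ‖ₑ := one_mul _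
  exact pow_le_pow_left' h2 2

section main

variable (a m : ℕ) (sg sl : ℝ) (LL : Finset ℕ) (e : ℕ → ℕ) (L : ℕ → ℝ)
  (X : ℕ → ℕ → Set (ℝ × ℝ)) (χ : ℕ × ℕ → ℕ)

/-- index set of the tiles -/
noncomputable def II : Finset (ℕ × ℕ × ℕ) :=
  open Classical in
  (LL ×ˢ (Finset.range (2 * 4 ^ m) ×ˢ Finset.range (3 * 2 ^ (m + 8 * a)))).filter
    (fun i => i.2.1 < 2 * 4 ^ i.1 ∧ adm a sg LL i.1 i.2.1 ∧ i.2.2 < 3 * 2 ^ (e i.1 + 8 * a))

/-- the value of the segment average -/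
noncomputable def SS (i : ℕ × ℕ × ℕ) (x : ℝ × ℝ) : ℝ≥0∞ :=
  sa (tp sl (e i.1 + 8 * a) i.2.2) (L i.1) (inn (de a (e i.1)) (X i.1 i.2.1)) x

/-- the multipliers -/
noncomputable def MM (i : ℕ × ℕ × ℕ) : ℝ × ℝ → ℂ := mu a m sg sl i.1 (e i.1 + 8 * a) i.2.1 i.2.2

/-- the weights -/
noncomputable def WW (i : ℕ × ℕ × ℕ) (v : ℕ × ℕ) (x : ℝ × ℝ) : ℝ :=
  w (ENNReal.ofReal (1 / 2 ^ a)) (SS a sl e L X i x) (Lam a m sl LL e L X i.1 i.2.1 i.2.2 x) χ v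

/-- the nodes -/
def VV : Finset (ℕ × ℕ) := LL ×ˢ Finset.range (2 * 4 ^ m)

variable {a m sg sl LL e L X χ}

lemma mem_II (hCL : CL a m LL e L) {i : ℕ × ℕ × ℕ} : i ∈ II a m sg LL e ↔
    i.1 ∈ LL ∧ (i.2.1 < 2 * 4 ^ i.1 ∧ adm a sg LL i.1 i.2.1) ∧
      i.2.2 < 3 * 2 ^ (e i.1 + 8 * a) := by
  classical
  unfold II
  simp only [Finset.mem_filter, Finset.mem_product, Finset.mem_range]
  constructor
  · rintro ⟨⟨h1, h2, h3⟩, h4, h5, h6⟩
    exact ⟨h1, ⟨h4, h5⟩, h6⟩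
  · rintro ⟨h1, ⟨h4, h5⟩, h6⟩
    obtain ⟨-, g2, -, g4, -⟩ := hCL.1 i.1 h1
    refine ⟨⟨h1, lt_of_lt_of_le h4 ?_, lt_of_lt_of_le h6 ?_⟩, h4, h5, h6⟩
    · exact Nat.mul_le_mul_left _ (Nat.pow_le_pow_right (by norm_num) g2)
    · exact Nat.mul_le_mul_left _ (Nat.pow_le_pow_right (by norm_num) (by omega))

lemma sum_II (hCL : CL a m LL e L) (F : ℕ × ℕ × ℕ → ℝ≥0∞) : ∑ i ∈ II a m sg LL e, F i =
    open Classical in ∑ l ∈ LL, ∑ c ∈ (Finset.range (2 * 4 ^ l)).filter (fun c => adm a sg LL l c),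
      ∑ p ∈ Finset.range (3 * 2 ^ (e l + 8 * a)), F (l, c, p) := by
  classical
  rw [Finset.sum_finset_product (II a m sg LL e) LL
    (fun l => (Finset.range (2 * 4 ^ l)).filter (fun c => adm a sg LL l c) ×ˢ
      Finset.range (3 * 2 ^ (e l + 8 * a)))]
  · refine Finset.sum_congr rfl fun l _ => ?_
    rw [Finset.sum_product]
  · intro i
    rw [mem_II hCL]
    simp only [Finset.mem_filter, Finset.mem_product, Finset.mem_range]

lemma L_pos (hCL : CL a m LL e L) {l : ℕ} (hl : l ∈ LL) : 0 < L l := by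
  obtain ⟨-, -, -, -, h5, -⟩ := hCL.1 l hl
  exact lt_of_lt_of_le (by positivity) h5

lemma de_pos (a e : ℕ) : 0 < de a e := by
  unfold de
  positivity

lemma Lam_sub (l c p : ℕ) (x : ℝ × ℝ) : Lam a m sl LL e L X l c p x ⊆ VV m LL := by
  classical
  unfold Lam VV
  exact Finset.filter_subset _ _

lemma SS_le (hCL : CL a m LL e L) {i : ℕ × ℕ × ℕ} (hi : i.1 ∈ LL) (x : ℝ × ℝ) :
    SS a sl e L X i x ≤ 1 := sa_le _ (L_pos hCL hi) _ _

lemma SS_meas (i : ℕ × ℕ × ℕ) : Measurable (SS a sl e L X i) := meas_sa _ _ (meas_inn _ _)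

lemma WW_meas (hLam : tLAM) (hPA : PA a m) (h1 : 1 ≤ sl) (h2 : sl < 2) (hCL : CL a m LL e L)
    {i : ℕ × ℕ × ℕ} (hi : i.1 ∈ LL) (v : ℕ × ℕ) : Measurable (WW a m sl LL e L X χ i v) := by
  obtain ⟨-, g, -⟩ := hLam a m sl LL e L X hPA h1 h2 hCL
  exact w_meas (SS_meas i) (fun x => Lam_sub _ _ _ x) (fun P => g i.1 hi i.2.1 i.2.2 P) v

lemma WW_supp (hCL : CL a m LL e L) (hX : ∀ l c, MeasurableSet (X l c) ∧ volume (X l c) < ⊤)
    {i : ℕ × ℕ × ℕ} (hi : i.1 ∈ LL) (v : ℕ × ℕ) :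
    volume {x | WW a m sl LL e L X χ i v x ≠ 0} < ⊤ := by
  refine lt_of_le_of_lt (measure_mono ?_) (vol_sa (tp sl (e i.1 + 8 * a) i.2.2) (L_pos hCL hi)
    (meas_inn (de a (e i.1)) (X i.1 i.2.1)) (lt_of_le_of_lt (measure_mono (inn_sub (de_pos _ _) _))
      (hX _ _).2) (r := 1 / 2 ^ a) (by positivity))
  intro x hx
  exact (w_ne hx).1.1

lemma mem_Lam {l c p : ℕ} {x : ℝ × ℝ} {v : ℕ × ℕ} (h : v ∈ Lam a m sl LL e L X l c p x) :
    l ≤ v.1 ∧ v.2 / 4 ^ (v.1 - l) = c := by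
  classical
  unfold Lam at h
  exact ⟨(Finset.mem_filter.1 h).2.1, (Finset.mem_filter.1 h).2.2.1⟩

lemma big {a m : ℕ} (hPA : PA a m) : 50 * a ≤ m := by
  obtain ⟨h1, h2, h3⟩ := hPA
  have h4 : ∀ b : ℕ, 20 ≤ b → 100 * b ≤ 2 ^ b := by
    intro b hb
    induction b, hb using Nat.le_induction with
    | base => norm_num
    | succ n hn ih =>
      rw [pow_succ]
      omega
  have := h4 a h1
  omega

lemma idx (hCL : CL a m LL e L) {i : ℕ × ℕ × ℕ} (hi : i ∈ II a m sg LL e) :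
    10 * a < i.1 ∧ i.1 ≤ m ∧ i.1 + 8 * a ≤ e i.1 + 8 * a + 1 ∧ e i.1 + 8 * a ≤ m + 8 * a ∧
      i.2.1 < 2 * 4 ^ i.1 ∧ 1 < sg + (i.2.1 + 1) / 4 ^ i.1 ∧
      i.2.2 < 3 * 2 ^ (e i.1 + 8 * a) := by
  obtain ⟨h1, ⟨h2, h3⟩, h4⟩ := (mem_II hCL).1 hi
  obtain ⟨g1, g2, g3, g4, -⟩ := hCL.1 i.1 h1
  exact ⟨g1, g2, by omega, by omega, h2, adm_lt h3, h4⟩

lemma mus (hMUS : tMUS) (hPA : PA a m) (s0 : 0 ≤ sg) (s1 : sg < 1) (h1 : 1 ≤ sl) (h2 : sl < 2)
    (hCL : CL a m LL e L) {i : ℕ × ℕ × ℕ} (hi : i ∈ II a m sg LL e) :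
    Bd (MM a m sg sl e i) ∧ (∀ ξ, ‖MM a m sg sl e i ξ‖ ≤ 1) ∧
    ∀ ξ, MM a m sg sl e i ξ ≠ 0 → cd sg i.1 i.2.1 ξ ∧ cp sl (e i.1 + 8 * a) i.2.2 ξ := by
  obtain ⟨g1, g2, g3, g4, g5, g6, g7⟩ := idx hCL hi
  exact (hMUS a m sg sl i.1 (e i.1 + 8 * a) i.2.1 i.2.2 hPA s0 s1 h1 h2 g1 g2 g3 g4 g5 g6 g7).1

lemma hyp3 {C : ℝ≥0} {K : ℕ} (hHB : ∀ (r : ℕ) (k : ℝ × ℝ → ℂ), r < 2 * 4 ^ m → Bd k →
      (open Classical in ∑ l ∈ LL.filter (fun l => adm a sg LL l (r / 4 ^ (m - l))),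
        chn a m sg sl e L X r l k) ≤ C * a ^ 2 * (K + 1) * n2 k)
    (hCL : CL a m LL e L) {v : ℕ × ℕ} (hv : v ∈ VV m LL) {k : ℝ × ℝ → ℂ} (hk : Bd k) :
    ∑ i ∈ II a m sg LL e, ∫⁻ x, ENNReal.ofReal (WW a m sl LL e L X χ i v x) *
      ‖Ex (fun ξ => MM a m sg sl e i ξ * k ξ) x‖ₑ ^ 2 ≤ C * a ^ 2 * (K + 1) * n2 k := by
  classical
  have hvm : v.1 ≤ m := by
    have := (Finset.mem_product.1 hv).1
    exact (hCL.1 v.1 this).2.1
  rw [sum_II hCL]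
  by_cases hr : v.2 < 2 * 4 ^ v.1
  · set r : ℕ := v.2 * 4 ^ (m - v.1) with hrdef
    have hr2 : r < 2 * 4 ^ m := by
      have e1 : 2 * 4 ^ m = 2 * 4 ^ v.1 * 4 ^ (m - v.1) := by
        rw [mul_assoc, ← pow_add]
        congr 2
        omega
      rw [e1]
      exact Nat.mul_lt_mul_of_pos_right hr (by positivity)
    refine le_trans ?_ (hHB r k hr2 hk)
    rw [Finset.sum_filter]
    refine Finset.sum_le_sum fun l hl => ?_
    have hlm : l ≤ m := (hCL.1 l hl).2.1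
    have key : ∀ c ∈ (Finset.range (2 * 4 ^ l)).filter (fun c => adm a sg LL l c),
        ∑ p ∈ Finset.range (3 * 2 ^ (e l + 8 * a)),
          ∫⁻ x, ENNReal.ofReal (WW a m sl LL e L X χ (l, c, p) v x) *
            ‖Ex (fun ξ => MM a m sg sl e (l, c, p) ξ * k ξ) x‖ₑ ^ 2 ≤
        if c = r / 4 ^ (m - l) then chn a m sg sl e L X r l k else 0 := by
      intro c _
      by_cases hc : c = r / 4 ^ (m - l)
      · rw [if_pos hc]
        subst hc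
        unfold chn
        refine Finset.sum_le_sum fun p _ => lintegral_mono fun x => ?_
        exact mul_le_mul_left (w_le _ _ _ _) _
      · rw [if_neg hc]
        refine le_of_eq (Finset.sum_eq_zero fun p _ => ?_)
        have hz : ∀ x, WW a m sl LL e L X χ (l, c, p) v x = 0 := by
          intro x
          by_contra hne
          obtain ⟨h1, h2⟩ := mem_Lam (w_ne hne).2.1
          simp only at h1 h2
          apply hc
          rw [← h2, hrdef]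
          have e1 : m - l = (v.1 - l) + (m - v.1) := by omega
          rw [e1, pow_add, Nat.mul_div_mul_right _ _ (by positivity)]
        simp only [hz, ENNReal.ofReal_zero, zero_mul, lintegral_zero]
    refine (Finset.sum_le_sum key).trans ?_
    rw [Finset.sum_ite_eq']
    split_ifs with h1 h2 h2
    · exact le_rfl
    · exact absurd (Finset.mem_filter.1 h1).2 h2
    · exact zero_le
    · exact zero_le
  · refine le_trans (le_of_eq ?_) zero_le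
    refine Finset.sum_eq_zero fun l hl => Finset.sum_eq_zero fun c hc =>
      Finset.sum_eq_zero fun p _ => ?_
    have hz : ∀ x, WW a m sl LL e L X χ (l, c, p) v x = 0 := by
      intro x
      by_contra hne
      obtain ⟨h1, h2⟩ := mem_Lam (w_ne hne).2.1
      simp only at h1 h2
      have hc' : c < 2 * 4 ^ l := Finset.mem_range.1 (Finset.mem_filter.1 hc).1
      have e1 : 2 * 4 ^ v.1 = 2 * 4 ^ l * 4 ^ (v.1 - l) := by
        rw [mul_assoc, ← pow_add]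
        congr 2
        omega
      rw [e1, not_lt] at hr
      have : 2 * 4 ^ l ≤ v.2 / 4 ^ (v.1 - l) := (Nat.le_div_iff_mul_le (by positivity)).2 hr
      omega
    simp only [hz, ENNReal.ofReal_zero, zero_mul, lintegral_zero]

/-- the localised pieces -/
noncomputable def UU (a m : ℕ) (sg sl : ℝ) (LL : Finset ℕ) (e : ℕ → ℕ) (L : ℕ → ℝ)
    (X : ℕ → ℕ → Set (ℝ × ℝ)) (χ : ℕ × ℕ → ℕ) (h : ℝ × ℝ → ℂ) (i : ℕ × ℕ × ℕ) (v : ℕ × ℕ)
    (x : ℝ × ℝ) : ℂ :=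
  WW a m sl LL e L X χ i v x * Ex (fun ξ => MM a m sg sl e i ξ * h ξ) x

lemma WW_le (hCL : CL a m LL e L) {i : ℕ × ℕ × ℕ} (hi : i.1 ∈ LL) (v : ℕ × ℕ) (x : ℝ × ℝ) :
    WW a m sl LL e L X χ i v x ≤ 1 := by
  have h1 : ENNReal.ofReal (WW a m sl LL e L X χ i v x) ≤ 1 :=
    (w_le _ _ _ _).trans (SS_le hCL hi x)
  exact ENNReal.ofReal_le_one.1 h1

lemma WW_nonneg (i : ℕ × ℕ × ℕ) (v : ℕ × ℕ) (x : ℝ × ℝ) : 0 ≤ WW a m sl LL e L X χ i v x :=
  w_nonneg _ _ _ _ _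

lemma UU_bf (hLam : tLAM) (hMUS : tMUS) (hPA : PA a m) (s0 : 0 ≤ sg) (s1 : sg < 1) (h1 : 1 ≤ sl)
    (h2 : sl < 2) (hCL : CL a m LL e L)
    (hX : ∀ l c, MeasurableSet (X l c) ∧ volume (X l c) < ⊤) {h : ℝ × ℝ → ℂ} (hh : Bd h)
    {i : ℕ × ℕ × ℕ} (hi : i ∈ II a m sg LL e) (v : ℕ × ℕ) :
    Bf (UU a m sg sl LL e L X χ h i v) := by
  have hi1 : i.1 ∈ LL := ((mem_II hCL).1 hi).1
  obtain ⟨m1, m2, -⟩ := mus hMUS hPA s0 s1 h1 h2 hCL hi
  have hb := bd_mul m1 m2 hh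
  refine ⟨?_, ?_, ?_⟩
  · exact (Complex.measurable_ofReal.comp (WW_meas hLam hPA h1 h2 hCL hi1 v)).mul
      (Pool.Agent.KSP.pPl2 _ hb).1.measurable
  · obtain ⟨B, hB⟩ := ex_bdd (fun ξ => MM a m sg sl e i ξ * h ξ)
    refine ⟨B, fun x => ?_⟩
    unfold UU
    rw [norm_mul, Complex.norm_real, Real.norm_of_nonneg (WW_nonneg i v x)]
    have g1 := WW_le (X := X) (χ := χ) (sl := sl) hCL hi1 v x
    have g2 := hB x
    have g3 := norm_nonneg (Ex (fun ξ => MM a m sg sl e i ξ * h ξ) x)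
    have g4 : 0 ≤ WW a m sl LL e L X χ i v x := w_nonneg _ _ _ _ _
    nlinarith
  · refine lt_of_le_of_lt (measure_mono ?_) (WW_supp (χ := χ) (sl := sl) hCL hX hi1 v)
    intro x hx hw
    apply hx
    unfold UU
    rw [hw]
    simp

lemma UU_n2 (hMUS : tMUS) (hPA : PA a m) (s0 : 0 ≤ sg) (s1 : sg < 1) (h1 : 1 ≤ sl)
    (h2 : sl < 2) (hCL : CL a m LL e L) {h : ℝ × ℝ → ℂ} (hh : Bd h)
    {i : ℕ × ℕ × ℕ} (hi : i ∈ II a m sg LL e) (v : ℕ × ℕ) :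
    ∫⁻ x, ‖UU a m sg sl LL e L X χ h i v x‖ₑ ^ 2 ≤ n2 h := by
  have hi1 : i.1 ∈ LL := ((mem_II hCL).1 hi).1
  obtain ⟨m1, m2, -⟩ := mus hMUS hPA s0 s1 h1 h2 hCL hi
  refine le_trans ?_ (n2_mul (k := h) m2)
  rw [← (Pool.Agent.KSP.pPl2 _ (bd_mul m1 m2 hh)).2]
  refine lintegral_mono fun x => pow_le_pow_left' ?_ 2
  unfold UU
  rw [enorm_mul]
  have g1 : ‖((WW a m sl LL e L X χ i v x : ℝ) : ℂ)‖ₑ ≤ 1 := by
    rw [← ofReal_norm, Complex.norm_real, Real.norm_of_nonneg (WW_nonneg i v x)]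
    exact ENNReal.ofReal_le_one.2 (WW_le hCL hi1 v x)
  calc _ ≤ 1 * ‖Ex (fun ξ => MM a m sg sl e i ξ * h ξ) x‖ₑ := by gcongr
    _ = _ := one_mul _

lemma num1 {a m : ℕ} (hPA : PA a m) (A : ℝ≥0∞) :
    (ENNReal.ofReal (1 / 2 ^ (30 * m)) * 2 ^ a + 2 ^ a * ENNReal.ofReal (1 / 2 ^ (30 * m))) *
      (A + A) ≤ ENNReal.ofReal (1 / 2 ^ (28 * m)) * A := by
  have hb := big hPA
  have h20 := hPA.1
  have e0 : (2 : ℝ≥0∞) ^ a = ENNReal.ofReal (2 ^ a) := by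
    rw [ENNReal.ofReal_pow (by norm_num)]
    norm_num
  have e1 : (ENNReal.ofReal (1 / 2 ^ (30 * m)) * 2 ^ a +
      2 ^ a * ENNReal.ofReal (1 / 2 ^ (30 * m))) * (A + A) =
      (4 * (ENNReal.ofReal (1 / 2 ^ (30 * m)) * 2 ^ a)) * A := by ring
  rw [e1]
  have e2 : 4 * (ENNReal.ofReal (1 / 2 ^ (30 * m)) * 2 ^ a) =
      ENNReal.ofReal (4 * (1 / 2 ^ (30 * m) * 2 ^ a)) := by
    rw [ENNReal.ofReal_mul (by norm_num), ENNReal.ofReal_mul (by positivity), e0]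
    norm_num
  rw [e2]
  refine mul_le_mul_left (ENNReal.ofReal_le_ofReal ?_) _
  have e3 : (4 : ℝ) * (1 / 2 ^ (30 * m) * 2 ^ a) = 2 ^ (a + 2) / 2 ^ (30 * m) := by
    rw [pow_add]
    ring
  rw [e3, div_le_div_iff₀ (by positivity) (by positivity), one_mul, ← pow_add]
  exact pow_le_pow_right₀ (by norm_num) (by omega)

lemma far_aux (hLam : tLAM) (hMUS : tMUS) (hMUK : tMUK) (hFAR : tFAR) (hPA : PA a m)
    (s0 : 0 ≤ sg) (s1 : sg < 1) (h1 : 1 ≤ sl) (h2 : sl < 2) (hCL : CL a m LL e L)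
    (hX : ∀ l c, MeasurableSet (X l c) ∧ volume (X l c) < ⊤) {h : ℝ × ℝ → ℂ} (hh : Bd h)
    {i j : ℕ × ℕ × ℕ} (hi : i ∈ II a m sg LL e) (hj : j ∈ II a m sg LL e) (hij : i.1 < j.1)
    {v v' : ℕ × ℕ} (hvv : v ≠ v') :
    ‖∫ ξ, conj (MM a m sg sl e i ξ) * hat (UU a m sg sl LL e L X χ h i v) ξ *
      conj (conj (MM a m sg sl e j ξ) * hat (UU a m sg sl LL e L X χ h j v') ξ)‖ₑ ≤
      ENNReal.ofReal (1 / 2 ^ (28 * m)) * n2 h := by
  have hi1 : i.1 ∈ LL := ((mem_II hCL).1 hi).1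
  have hj1 : j.1 ∈ LL := ((mem_II hCL).1 hj).1
  by_cases hex : ∃ ξ, MM a m sg sl e i ξ ≠ 0 ∧ MM a m sg sl e j ξ ≠ 0
  · obtain ⟨ξ, k1, k2⟩ := hex
    obtain ⟨m1, m2, m3⟩ := mus hMUS hPA s0 s1 h1 h2 hCL hi
    obtain ⟨n1', n2', n3⟩ := mus hMUS hPA s0 s1 h1 h2 hCL hj
    obtain ⟨c1, c2⟩ := m3 ξ k1
    obtain ⟨d1, d2⟩ := n3 ξ k2
    have hee : e i.1 ≤ e j.1 := (hCL.2 i.1 hi1 j.1 hj1 hij).2
    have hc : j.2.1 / 4 ^ (j.1 - i.1) = i.2.1 := cdr_unique (cdr_anc hij.le d1) c1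
    have hp : j.2.2 / 2 ^ (e j.1 - e i.1) = i.2.2 := by
      have := cp_unique (cp_anc (j := e i.1 + 8 * a) (by omega) d2) c2
      rwa [Nat.add_sub_add_right] at this
    obtain ⟨g1, g2, g3, g4, g5, g6, g7⟩ := idx hCL hi
    obtain ⟨g1', g2', g3', g4', g5', g6', g7'⟩ := idx hCL hj
    obtain ⟨u1, u2, -, -⟩ := hMUK a m sg sl i.1 (e i.1 + 8 * a) i.2.1 i.2.2 hPA s0 s1 h1 h2
      g1 g2 g3 g4 g5 g6 g7
    obtain ⟨u1', u2', -, -⟩ := hMUK a m sg sl j.1 (e j.1 + 8 * a) j.2.1 j.2.2 hPA s0 s1 h1 h2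
      g1' g2' g3' g4' g5' g6' g7'
    have hmd : ∀ (t A B : ℝ), MeasurableSet {z : ℝ × ℝ | |dot z (nv t)| ≤ A ∧ |dot z (tv t)| ≤ B} := by
      intro t A B
      have q1 : Continuous fun z : ℝ × ℝ => |dot z (nv t)| := by
        unfold dot
        fun_prop
      have q2 : Continuous fun z : ℝ × ℝ => |dot z (tv t)| := by
        unfold dot
        fun_prop
      exact ((isClosed_le q1 continuous_const).inter (isClosed_le q2 continuous_const)).measurableSet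
    have hneg : ∀ z w : ℝ × ℝ, dot (-z) w = -dot z w := by
      intro z w
      unfold dot
      simp only [Prod.fst_neg, Prod.snd_neg]
      ring
    have hsym : ∀ (t A B : ℝ), ∀ z ∈ {z : ℝ × ℝ | |dot z (nv t)| ≤ A ∧ |dot z (tv t)| ≤ B},
        -z ∈ {z : ℝ × ℝ | |dot z (nv t)| ≤ A ∧ |dot z (tv t)| ≤ B} := by
      rintro t A B z ⟨q1, q2⟩
      refine ⟨?_, ?_⟩
      · rw [hneg, abs_neg]
        exact q1
      · rw [hneg, abs_neg]
        exact q2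
    have key := hFAR (MM a m sg sl e i) (MM a m sg sl e j)
      (UU a m sg sl LL e L X χ h i v) (UU a m sg sl LL e L X χ h j v')
      {z | |dot z (nv (tp sl (e i.1 + 8 * a) i.2.2))| ≤ 4 ^ i.1 * 2 ^ (6 * a) ∧
        |dot z (tv (tp sl (e i.1 + 8 * a) i.2.2))| ≤ 2 ^ (6 * a + (e i.1 + 8 * a))}
      {z | |dot z (nv (tp sl (e j.1 + 8 * a) j.2.2))| ≤ 4 ^ j.1 * 2 ^ (6 * a) ∧
        |dot z (tv (tp sl (e j.1 + 8 * a) j.2.2))| ≤ 2 ^ (6 * a + (e j.1 + 8 * a))}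
      m1 n1' (UU_bf hLam hMUS hPA s0 s1 h1 h2 hCL hX hh hi v)
      (UU_bf hLam hMUS hPA s0 s1 h1 h2 hCL hX hh hj v') (hmd _ _ _) (hmd _ _ _) (hsym _ _ _)
      (hsym _ _ _) ?_
    · refine key.trans ?_
      refine le_trans ?_ (num1 hPA (n2 h))
      have w1 := UU_n2 (X := X) (χ := χ) hMUS hPA s0 s1 h1 h2 hCL hh hi v
      have w2 := UU_n2 (X := X) (χ := χ) hMUS hPA s0 s1 h1 h2 hCL hh hj v'
      gcongr
      · exact u2
      · exact u1'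
      · exact u1
      · exact u2'
    · intro x y z1 z2 hx hy hz1 hz2 hxy
      have wx : WW a m sl LL e L X χ i v x ≠ 0 := by
        intro h0
        apply hx
        unfold UU
        rw [h0]
        simp
      have wy : WW a m sl LL e L X χ j v' y ≠ 0 := by
        intro h0
        apply hy
        unfold UU
        rw [h0]
        simp
      obtain ⟨⟨-, x1⟩, x2, x3⟩ := w_ne wx
      obtain ⟨-, y2, y3⟩ := w_ne wy
      have hsub := (hLam a m sl LL e L X hPA h1 h2 hCL).2.2 i.1 hi1 j.1 hj1 i.2.1 j.2.1 i.2.2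
        j.2.2 x y z1 z2 hij hc hp g7' hxy hz1.1 hz1.2 hz2.1 hz2.2
      have m4 := hsub y2
      obtain ⟨a0, ha0⟩ := Finset.card_eq_one.1 x1
      have e1 : v ∈ ({a0} : Finset (ℕ × ℕ)) := by
        rw [← ha0]
        exact Finset.mem_filter.2 ⟨x2, x3⟩
      have e2 : v' ∈ ({a0} : Finset (ℕ × ℕ)) := by
        rw [← ha0]
        exact Finset.mem_filter.2 ⟨m4, y3⟩
      rw [Finset.mem_singleton] at e1 e2
      exact hvv (e1.trans e2.symm)
  · push Not at hex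
    have hz : ∀ ξ, conj (MM a m sg sl e i ξ) * hat (UU a m sg sl LL e L X χ h i v) ξ *
      conj (conj (MM a m sg sl e j ξ) * hat (UU a m sg sl LL e L X χ h j v') ξ) = 0 := by
      intro ξ
      by_cases h0 : MM a m sg sl e i ξ = 0
      · rw [h0]
        simp
      · rw [hex ξ h0]
        simp
    simp only [hz, integral_zero, enorm_zero]
    exact zero_le

lemma far (hLam : tLAM) (hMUS : tMUS) (hMUK : tMUK) (hFAR : tFAR) (hPA : PA a m)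
    (s0 : 0 ≤ sg) (s1 : sg < 1) (h1 : 1 ≤ sl) (h2 : sl < 2) (hCL : CL a m LL e L)
    (hX : ∀ l c, MeasurableSet (X l c) ∧ volume (X l c) < ⊤) {h : ℝ × ℝ → ℂ} (hh : Bd h)
    {i j : ℕ × ℕ × ℕ} (hi : i ∈ II a m sg LL e) (hj : j ∈ II a m sg LL e) (hij : i ≠ j)
    {v v' : ℕ × ℕ} (hvv : v ≠ v') :
    ‖∫ ξ, conj (MM a m sg sl e i ξ) * hat (UU a m sg sl LL e L X χ h i v) ξ *
      conj (conj (MM a m sg sl e j ξ) * hat (UU a m sg sl LL e L X χ h j v') ξ)‖ₑ ≤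
      ENNReal.ofReal (1 / 2 ^ (28 * m)) * n2 h := by
  rcases lt_trichotomy i.1 j.1 with hlt | heq | hgt
  · exact far_aux hLam hMUS hMUK hFAR hPA s0 s1 h1 h2 hCL hX hh hi hj hlt hvv
  · have hz : ∀ ξ, conj (MM a m sg sl e i ξ) * hat (UU a m sg sl LL e L X χ h i v) ξ *
      conj (conj (MM a m sg sl e j ξ) * hat (UU a m sg sl LL e L X χ h j v') ξ) = 0 := by
      intro ξ
      by_cases h0 : MM a m sg sl e i ξ = 0
      · rw [h0]
        simp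
      · by_cases h3 : MM a m sg sl e j ξ = 0
        · rw [h3]
          simp
        · exfalso
          obtain ⟨c1, c2⟩ := (mus hMUS hPA s0 s1 h1 h2 hCL hi).2.2 ξ h0
          obtain ⟨d1, d2⟩ := (mus hMUS hPA s0 s1 h1 h2 hCL hj).2.2 ξ h3
          rw [← heq] at d1 d2
          have e1 := cdr_unique c1 d1
          have e2 := cp_unique c2 d2
          exact hij (Prod.ext heq (Prod.ext e1 e2))
    simp only [hz, integral_zero, enorm_zero]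
    exact zero_le
  · have key := far_aux (χ := χ) hLam hMUS hMUK hFAR hPA s0 s1 h1 h2 hCL hX hh hj hi hgt
      (Ne.symm hvv)
    refine le_trans (le_of_eq ?_) key
    have e1 : ∀ ξ, conj (MM a m sg sl e i ξ) * hat (UU a m sg sl LL e L X χ h i v) ξ *
      conj (conj (MM a m sg sl e j ξ) * hat (UU a m sg sl LL e L X χ h j v') ξ) =
      conj (conj (MM a m sg sl e j ξ) * hat (UU a m sg sl LL e L X χ h j v') ξ *
      conj (conj (MM a m sg sl e i ξ) * hat (UU a m sg sl LL e L X χ h i v) ξ)) := by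
      intro ξ
      simp only [map_mul, Complex.conj_conj]
      ring
    simp only [e1]
    rw [integral_conj, RCLike.enorm_conj]

lemma card_II (hCL : CL a m LL e L) : (II a m sg LL e).card ≤
    m * (2 * 4 ^ m * (3 * 2 ^ (m + 8 * a))) := by
  classical
  unfold II
  refine (Finset.card_filter_le _ _).trans ?_
  rw [Finset.card_product, Finset.card_product, Finset.card_range, Finset.card_range]
  refine Nat.mul_le_mul_right _ ?_
  have h1 : LL ⊆ Finset.Ioc 0 m := by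
    intro l hl
    obtain ⟨g1, g2, -⟩ := hCL.1 l hl
    exact Finset.mem_Ioc.2 ⟨by omega, g2⟩
  simpa using Finset.card_le_card h1

lemma card_VV (hCL : CL a m LL e L) : (VV m LL).card ≤ m * (2 * 4 ^ m) := by
  unfold VV
  rw [Finset.card_product, Finset.card_range]
  refine Nat.mul_le_mul_right _ ?_
  have h1 : LL ⊆ Finset.Ioc 0 m := by
    intro l hl
    obtain ⟨g1, g2, -⟩ := hCL.1 l hl
    exact Finset.mem_Ioc.2 ⟨by omega, g2⟩
  simpa using Finset.card_le_card h1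

lemma num2 (hPA : PA a m) (hCL : CL a m LL e L) :
    ((II a m sg LL e).card * (VV m LL).card : ℝ≥0∞) ^ 2 *
      ENNReal.ofReal (1 / 2 ^ (28 * m)) ≤ 1 := by
  have hb := big hPA
  have h20 := hPA.1
  have hma : m ≤ 2 ^ a := hPA.2.1.le
  have h1 : ((II a m sg LL e).card * (VV m LL).card) ^ 2 ≤ 2 ^ (28 * m) := by
    have e1 : (II a m sg LL e).card * (VV m LL).card ≤
        2 ^ a * (2 * 4 ^ m * (4 * 2 ^ (m + 8 * a))) * (2 ^ a * (2 * 4 ^ m)) := by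
      refine Nat.mul_le_mul ((card_II hCL).trans ?_) ((card_VV hCL).trans ?_)
      · gcongr
        norm_num
      · gcongr
    have e2 : 2 ^ a * (2 * 4 ^ m * (4 * 2 ^ (m + 8 * a))) * (2 ^ a * (2 * 4 ^ m)) =
        2 ^ (5 * m + 10 * a + 4) := by
      have e3 : (4 : ℕ) ^ m = 2 ^ (2 * m) := by
        rw [pow_mul]
        norm_num
      rw [e3]
      have e4 : 5 * m + 10 * a + 4 = a + (1 + 2 * m + (2 + (m + 8 * a))) + (a + (1 + 2 * m)) := by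
        ring
      rw [e4]
      simp only [pow_add]
      ring
    calc _ ≤ (2 ^ (5 * m + 10 * a + 4)) ^ 2 := by
          rw [← e2]
          exact Nat.pow_le_pow_left e1 2
      _ = 2 ^ ((5 * m + 10 * a + 4) * 2) := by rw [← pow_mul]
      _ ≤ 2 ^ (28 * m) := Nat.pow_le_pow_right (by norm_num) (by omega)
  have h2 : ((II a m sg LL e).card * (VV m LL).card : ℝ≥0∞) ^ 2 ≤
      ENNReal.ofReal (2 ^ (28 * m)) := by
    rw [ENNReal.ofReal_pow (by norm_num)]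
    have : ((((II a m sg LL e).card * (VV m LL).card) ^ 2 : ℕ) : ℝ≥0∞) ≤
        ((2 ^ (28 * m) : ℕ) : ℝ≥0∞) := by exact_mod_cast h1
    push_cast at this
    refine this.trans (le_of_eq ?_)
    norm_num
  calc _ ≤ ENNReal.ofReal (2 ^ (28 * m)) * ENNReal.ofReal (1 / 2 ^ (28 * m)) := by gcongr
    _ = 1 := by
      rw [← ENNReal.ofReal_mul (by positivity)]
      rw [mul_one_div_cancel (by positivity)]
      exact ENNReal.ofReal_one

lemma pos_eq (hLam : tLAM) (hPA : PA a m) (h1 : 1 ≤ sl) (h2 : sl < 2) (hCL : CL a m LL e L)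
    (hMUS : tMUS) (s0 : 0 ≤ sg) (s1 : sg < 1) {h : ℝ × ℝ → ℂ} (hh : Bd h) :
    pos a m sg sl LL e L X (fun Λ => (Λ.filter (fun v => χ v = 0)).card = 1) h =
    ∑ i ∈ II a m sg LL e, ∑ v ∈ VV m LL, ∫⁻ x, ENNReal.ofReal (WW a m sl LL e L X χ i v x) *
      ‖Ex (fun ξ => MM a m sg sl e i ξ * h ξ) x‖ₑ ^ 2 := by
  classical
  have e1 : ∀ i ∈ II a m sg LL e, ∑ v ∈ VV m LL,
      ∫⁻ x, ENNReal.ofReal (WW a m sl LL e L X χ i v x) *
        ‖Ex (fun ξ => MM a m sg sl e i ξ * h ξ) x‖ₑ ^ 2 =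
      ∫⁻ x, (if ENNReal.ofReal (1 / 2 ^ a) ≤ SS a sl e L X i x ∧
          ((Lam a m sl LL e L X i.1 i.2.1 i.2.2 x).filter (fun v => χ v = 0)).card = 1 then
        SS a sl e L X i x * ‖Ex (fun ξ => MM a m sg sl e i ξ * h ξ) x‖ₑ ^ 2 else 0) := by
    intro i hi
    have hi1 : i.1 ∈ LL := ((mem_II hCL).1 hi).1
    obtain ⟨m1, m2, -⟩ := mus hMUS hPA s0 s1 h1 h2 hCL hi
    have hb := bd_mul m1 m2 hh
    rw [← lintegral_finsetSum]
    · refine lintegral_congr fun x => ?_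
      rw [← Finset.sum_mul]
      have := w_sum' (r := ENNReal.ofReal (1 / 2 ^ a)) (S := SS a sl e L X i x) (χ := χ)
        (Lam_sub (a := a) (m := m) (sl := sl) (LL := LL) (e := e) (L := L) (X := X)
          i.1 i.2.1 i.2.2 x) (SS_le hCL hi1 x)
      unfold WW
      rw [this]
      by_cases hc : ENNReal.ofReal (1 / 2 ^ a) ≤ SS a sl e L X i x ∧
          ((Lam a m sl LL e L X i.1 i.2.1 i.2.2 x).filter (fun v => χ v = 0)).card = 1
      · rw [if_pos hc, if_pos hc]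
      · rw [if_neg hc, if_neg hc, zero_mul]
    · intro v _
      exact (WW_meas hLam hPA h1 h2 hCL hi1 v).ennreal_ofReal.mul
        ((Pool.Agent.KSP.pPl2 _ hb).1.measurable.enorm.pow_const 2)
  rw [Finset.sum_congr rfl e1, sum_II hCL]
  unfold pos
  refine Finset.sum_congr rfl fun l _ => ?_
  refine Finset.sum_congr rfl fun c _ => ?_
  refine Finset.sum_congr rfl fun p _ => ?_
  refine lintegral_congr fun x => ?_
  unfold SS MM
  congr

end main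

end PCH_

open PCH_ in
theorem pPCH (hDUA : tDUA) (hFAR : tFAR) (hHB : tHB) (hLAM : tLAM) (hMUS : tMUS) (hMUK : tMUK) :
    tPCH := by
  classical
  obtain ⟨C, hC⟩ := hHB
  refine ⟨C + 3, ?_⟩
  intro a m K sg sl LL e L X χ h hPA s0 s1 h1 h2 hCL hX hK hh
  have hHB' : ∀ (r : ℕ) (k : ℝ × ℝ → ℂ), r < 2 * 4 ^ m → Bd k →
      (open Classical in ∑ l ∈ LL.filter (fun l => adm a sg LL l (r / 4 ^ (m - l))),
        chn a m sg sl e L X r l k) ≤ C * a ^ 2 * (K + 1) * n2 k := by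
    intro r k hr hk
    exact hC a m K sg sl LL e L X r k hPA s0 s1 h1 h2 hCL hX (fun x => hK x r hr) hr hk
  rw [pos_eq hLAM hPA h1 h2 hCL hMUS s0 s1 hh]
  have key := hDUA (II a m sg LL e) (VV m LL) (MM a m sg sl e) (WW a m sl LL e L X χ) h
    (C * a ^ 2 * (K + 1)) (Real.toNNReal (1 / 2 ^ (28 * m))) hh
    (fun i hi => ⟨(mus hMUS hPA s0 s1 h1 h2 hCL hi).1, (mus hMUS hPA s0 s1 h1 h2 hCL hi).2.1⟩)
    (fun i hi v _ => ⟨WW_meas hLAM hPA h1 h2 hCL ((mem_II hCL).1 hi).1 v,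
      fun x => WW_nonneg i v x, WW_supp hCL hX ((mem_II hCL).1 hi).1 v⟩)
    (fun i hi x => w_sum_le (Lam_sub _ _ _ x) (SS_le hCL ((mem_II hCL).1 hi).1 x))
    (fun v hv k hk => by
      have := hyp3 (χ := χ) (C := C) (K := K) hHB' hCL hv hk
      push_cast
      exact this)
    (fun i hi j hj v _ v' _ hij hvv =>
      far hLAM hMUS hMUK hFAR hPA s0 s1 h1 h2 hCL hX hh hi hj hij hvv)
  refine key.trans (mul_le_mul_left ?_ _)
  have h3 := num2 (sg := sg) hPA hCL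
  have h4 : (1 : ℝ≥0∞) ≤ a ^ 2 * (K + 1) := by
    have h20 := hPA.1
    have : 1 ≤ a ^ 2 * (K + 1) := Nat.one_le_iff_ne_zero.2 (by positivity)
    exact_mod_cast this
  calc _ ≤ (C * a ^ 2 * (K + 1) + 2 + 1 : ℝ≥0∞) := by
        push_cast
        gcongr
        exact h3
    _ = C * a ^ 2 * (K + 1) + 3 * 1 := by
        rw [add_assoc]
        norm_num
    _ ≤ C * a ^ 2 * (K + 1) + 3 * (a ^ 2 * (K + 1)) := by gcongr
    _ = ((C + 3 : ℝ≥0) : ℝ≥0∞) * a ^ 2 * (K + 1) := by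
        push_cast
        ring

end Pool.Agent.LLog
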