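import Pool.Agent.LLog.Targets
import Pool.Agent.KSP.K

set_option autoImplicit false

/-! MP_ee701d_an, target PFM: positive sum for a family, residue classes modulo `7 a`. -/

namespace Pool.Agent.LLog

open MeasureTheory Set
open scoped ENNReal NNReal ComplexConjugate
open Pool.Agent.KSP (ee dot nr Ex Ex1 Bd Bd1 n1 n2 lg V0 ann)

namespace PFM_

lemma meas_inn (δ : ℝ) (X : Set (ℝ × ℝ)) : MeasurableSet (inn δ X) := by
  have : inn δ X = ⋂ y ∈ Xᶜ, {x : ℝ × ℝ | |y.1 - x.1| < δ ∧ |y.2 - x.2| < δ}ᶜ := by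
    ext x
    simp only [inn, mem_ofPred_eq, mem_iInter, mem_compl_iff, not_and]
    constructor
    · intro h y hy h1 h2
      exact hy (h y h1 h2)
    · intro h y h1 h2
      by_contra hy
      exact h y hy h1 h2
  rw [this]
  apply IsClosed.measurableSet
  apply isClosed_biInter
  intro y _
  apply IsOpen.isClosed_compl
  have c1 : Continuous (fun x : ℝ × ℝ => |y.1 - x.1|) := by fun_prop
  have c2 : Continuous (fun x : ℝ × ℝ => |y.2 - x.2|) := by fun_prop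
  exact (isOpen_lt c1 continuous_const).inter (isOpen_lt c2 continuous_const)

lemma meas_sa (t L : ℝ) {X : Set (ℝ × ℝ)} (hX : MeasurableSet X) : Measurable (sa t L X) := by
  have h : Measurable (fun P : (ℝ × ℝ) × ℝ =>
      X.indicator (1 : ℝ × ℝ → ℝ≥0∞) (P.1 + P.2 • nv t)) := by
    have h1 : Measurable (X.indicator (1 : ℝ × ℝ → ℝ≥0∞)) := measurable_const.indicator hX
    have h2 : Measurable (fun P : (ℝ × ℝ) × ℝ => P.1 + P.2 • nv t) := by fun_prop
    exact h1.comp h2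
  exact (Measurable.lintegral_prod_right' h).const_mul _

lemma meas_cdcp (sg sl : ℝ) (l j c p : ℕ) :
    MeasurableSet {ξ : ℝ × ℝ | cd sg l c ξ ∧ cp sl j p ξ} := by
  have h0 : Measurable nr := by
    unfold nr
    fun_prop
  have h1 : Measurable (fun ξ : ℝ × ℝ => (4:ℝ) ^ l * (nr ξ - sg)) :=
    (h0.sub_const _).const_mul _
  have h2 : Measurable (fun ξ : ℝ × ℝ => (2:ℝ) ^ j * (ξ.2 / ξ.1 + sl)) :=
    ((measurable_snd.div measurable_fst).add_const _).const_mul _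
  exact ((measurableSet_le measurable_const h1).inter (measurableSet_lt h1 measurable_const)).inter
    ((measurableSet_lt measurable_const measurable_fst).inter
      ((measurableSet_le measurable_const h2).inter (measurableSet_lt h2 measurable_const)))

/-- one level of the positive sum -/
noncomputable def S (a : ℕ) (sg sl : ℝ) (e : ℕ → ℕ) (X : ℕ → ℕ → Set (ℝ × ℝ)) (h : ℝ × ℝ → ℂ)
    (L : ℕ → ℝ) (l : ℕ) : ℝ≥0∞ :=
  ∑ c ∈ Finset.range (2 * 4 ^ l), ∑ p ∈ Finset.range (3 * 2 ^ (e l + 8 * a)), ∫⁻ x,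
      sa (tp sl (e l + 8 * a) p) (L l) (inn (de a (e l)) (X l c)) x *
      ‖Ex ({ξ | cd sg l c ξ ∧ cp sl (e l + 8 * a) p ξ}.indicator h) x‖ₑ ^ 2

lemma meas_Ex {h : ℝ × ℝ → ℂ} (hh : Measurable h) (sg sl : ℝ) (l j c p : ℕ) :
    Measurable (fun x => ‖Ex ({ξ | cd sg l c ξ ∧ cp sl j p ξ}.indicator h) x‖ₑ ^ 2) :=
  ((Pool.Agent.KSP.K_.measurable_Ex (hh.indicator (meas_cdcp sg sl l j c p))).enorm).pow_const 2

lemma Lam_congr (a m : ℕ) (sl : ℝ) (LL : Finset ℕ) (e : ℕ → ℕ) (L : ℕ → ℝ)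
    (X Y : ℕ → ℕ → Set (ℝ × ℝ)) (hXY : ∀ l ∈ LL, ∀ c, X l c = Y l c) (l c p : ℕ) (x : ℝ × ℝ) :
    Lam a m sl LL e L X l c p x = Lam a m sl LL e L Y l c p x := by
  classical
  unfold Lam
  apply Finset.filter_congr
  intro P hP
  have hP1 : P.1 ∈ LL := (Finset.mem_product.1 hP).1
  rw [hXY P.1 hP1 P.2]

theorem _root_.Pool.Agent.LLog.pPFM (h1 : tPOS) (h2 : tUSE) (h3 : tMLT) : tPFM := by
  classical
  obtain ⟨C, hC⟩ := h1
  refine ⟨14 * 201 * 91 * C, ?_⟩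
  intro a m sg sl z0 T F G h hPA hsg0 hsg1 hsl1 hsl2 hF hG hCore
  obtain ⟨hU1, hU2⟩ := h2 a m z0 T F G hPA hF hG
  have ha : 20 ≤ a := hPA.1
  -- one residue class
  have key : ∀ (L : ℕ → ℝ), (∀ l, 4 ^ l / 4 ^ (2 * a) ≤ L l ∧ L l ≤ 4 ^ (l + 5 * a)) →
      ∀ ρ : ℕ, ∑ l ∈ F.Lv.filter (fun l => l % (7 * a) = ρ), S a sg sl F.e (XF a z0 F G) h L l ≤
        C * a ^ 2 * ((200 * a : ℕ) + 1) * (90 * a + 2 + 2 : ℕ) * n2 h := by
    intro L hL ρ
    set LL : Finset ℕ := F.Lv.filter (fun l => l % (7 * a) = ρ) with hLL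
    have hsub : LL ⊆ F.Lv := Finset.filter_subset _ _
    have hCL : CL a m LL F.e L := by
      refine ⟨?_, ?_⟩
      · intro l hl
        obtain ⟨q1, q2, q3, q4⟩ := hF.1 l (hsub hl)
        exact ⟨q1, q2, q3, q4, (hL l).1, (hL l).2⟩
      · intro l hl l' hl' hll
        refine ⟨?_, hF.2.1 l (hsub hl) l' (hsub hl') hll.le⟩
        have e1 : l % (7 * a) = ρ := (Finset.mem_filter.1 hl).2
        have e2 : l' % (7 * a) = ρ := (Finset.mem_filter.1 hl').2
        have h4 : 7 * a ∣ l' - l := (Nat.modEq_iff_dvd' hll.le).1 (e1.trans e2.symm)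
        have h5 := Nat.le_of_dvd (by omega) h4
        omega
    set X : ℕ → ℕ → Set (ℝ × ℝ) := fun l c => if l ∈ F.Lv then XF a z0 F G l c else ∅ with hX
    have hXL : ∀ l ∈ LL, ∀ c, X l c = XF a z0 F G l c := by
      intro l hl c
      simp only [hX, if_pos (hsub hl)]
    have hXm : ∀ l c, MeasurableSet (X l c) ∧ volume (X l c) < ⊤ := by
      intro l c
      by_cases hl : l ∈ F.Lv
      · simp only [hX, if_pos hl]
        exact hU1 l hl c
      · simp only [hX, if_neg hl]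
        simp
    have hXu : ∀ x, ∀ r < 2 * 4 ^ m,
        (LL.filter (fun l => x ∈ X l (r / 4 ^ (m - l)))).card ≤ 200 * a := by
      intro x r _
      refine le_trans (Finset.card_le_card ?_) (hU2 x r)
      intro l hl
      rw [Finset.mem_filter] at hl ⊢
      refine ⟨hsub hl.1, ?_⟩
      rw [← hXL l hl.1]
      exact hl.2
    have hXM : ∀ l ∈ LL, ∀ c < 2 * 4 ^ l, ∀ p < 3 * 2 ^ (F.e l + 8 * a), ∀ x,
        ENNReal.ofReal (1 / 2 ^ a) ≤
          sa (tp sl (F.e l + 8 * a) p) (L l) (inn (de a (F.e l)) (X l c)) x →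
        (Lam a m sl LL F.e L X l c p x).card ≤ 2 ^ (90 * a + 2) := by
      intro l hl c hc p hp x hx
      rw [hXL l hl] at hx
      rw [Lam_congr a m sl LL F.e L X (XF a z0 F G) hXL]
      exact h3 a m sl z0 T F G LL L hPA hsl1 hsl2 hF hG hsub hCL l hl c hc p hp x hx
    have hmain := hC a m (200 * a) (2 ^ (90 * a + 2)) sg sl LL F.e L X h hPA hsg0 hsg1 hsl1 hsl2
      hCL hXm hXu hXM hCore
    rw [Nat.log_pow (by norm_num : 1 < 2)] at hmain
    refine le_trans (le_of_eq ?_) hmain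
    apply Finset.sum_congr rfl
    intro l hl
    unfold S
    apply Finset.sum_congr rfl
    intro c _
    rw [hXL l hl]
  have hL1 := key (fun l => 4 ^ (l + 5 * a)) (fun l => by
    refine ⟨?_, le_refl _⟩
    have h1 : (4:ℝ) ^ l / 4 ^ (2 * a) ≤ 4 ^ l := div_le_self (by positivity)
      (one_le_pow₀ (by norm_num))
    exact h1.trans (pow_le_pow_right₀ (by norm_num) (by omega)))
  have hL2 := key (fun l => 4 ^ l / 4 ^ (2 * a)) (fun l => by
    refine ⟨le_refl _, ?_⟩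
    have h1 : (4:ℝ) ^ l / 4 ^ (2 * a) ≤ 4 ^ l := div_le_self (by positivity)
      (one_le_pow₀ (by norm_num))
    exact h1.trans (pow_le_pow_right₀ (by norm_num) (by omega)))
  have hsum : ∑ l ∈ F.Lv, ∑ c ∈ Finset.range (2 * 4 ^ l),
      ∑ p ∈ Finset.range (3 * 2 ^ (F.e l + 8 * a)), ∫⁻ x,
      (sa (tp sl (F.e l + 8 * a) p) (4 ^ (l + 5 * a)) (inn (de a (F.e l)) (XF a z0 F G l c)) x +
      sa (tp sl (F.e l + 8 * a) p) (4 ^ l / 4 ^ (2 * a)) (inn (de a (F.e l)) (XF a z0 F G l c)) x) *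
      ‖Ex ({ξ | cd sg l c ξ ∧ cp sl (F.e l + 8 * a) p ξ}.indicator h) x‖ₑ ^ 2 =
      ∑ l ∈ F.Lv, (S a sg sl F.e (XF a z0 F G) h (fun l => 4 ^ (l + 5 * a)) l +
        S a sg sl F.e (XF a z0 F G) h (fun l => 4 ^ l / 4 ^ (2 * a)) l) := by
    apply Finset.sum_congr rfl
    intro l _
    unfold S
    rw [← Finset.sum_add_distrib]
    apply Finset.sum_congr rfl
    intro c _
    rw [← Finset.sum_add_distrib]
    apply Finset.sum_congr rfl
    intro p _
    simp only [add_mul]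
    rw [lintegral_add_left]
    exact (meas_sa _ _ (meas_inn _ _)).mul (meas_Ex hCore.1.1 sg sl l _ c p)
  rw [hsum]
  have hfib := Finset.sum_fiberwise_of_maps_to (s := F.Lv) (t := Finset.range (7 * a))
    (g := fun l => l % (7 * a))
    (f := fun l => (S a sg sl F.e (XF a z0 F G) h (fun l => 4 ^ (l + 5 * a)) l +
        S a sg sl F.e (XF a z0 F G) h (fun l => 4 ^ l / 4 ^ (2 * a)) l))
    (fun l _ => Finset.mem_range.2 (Nat.mod_lt _ (by omega)))
  rw [← hfib]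
  have hstep : ∀ ρ ∈ Finset.range (7 * a), ∑ l ∈ F.Lv.filter (fun l => l % (7 * a) = ρ),
      (S a sg sl F.e (XF a z0 F G) h (fun l => 4 ^ (l + 5 * a)) l +
        S a sg sl F.e (XF a z0 F G) h (fun l => 4 ^ l / 4 ^ (2 * a)) l) ≤
      2 * (C * a ^ 2 * ((200 * a : ℕ) + 1) * (90 * a + 2 + 2 : ℕ) * n2 h) := by
    intro ρ _
    rw [Finset.sum_add_distrib]
    exact (add_le_add (hL1 ρ) (hL2 ρ)).trans (le_of_eq (two_mul _).symm)
  refine (Finset.sum_le_sum hstep).trans ?_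
  rw [Finset.sum_const, Finset.card_range, nsmul_eq_mul]
  have hnat : 7 * a * (2 * (a ^ 2 * (200 * a + 1) * (90 * a + 2 + 2))) ≤
      14 * 201 * 91 * a ^ 5 := by
    have q1 : 200 * a + 1 ≤ 201 * a := by omega
    have q2 : 90 * a + 2 + 2 ≤ 91 * a := by omega
    calc 7 * a * (2 * (a ^ 2 * (200 * a + 1) * (90 * a + 2 + 2)))
        ≤ 7 * a * (2 * (a ^ 2 * (201 * a) * (91 * a))) := by gcongr
      _ = 14 * 201 * 91 * a ^ 5 := by ring
  have hE : ((7 * a * (2 * (a ^ 2 * (200 * a + 1) * (90 * a + 2 + 2))) : ℕ) : ℝ≥0∞) ≤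
      ((14 * 201 * 91 * a ^ 5 : ℕ) : ℝ≥0∞) := by exact_mod_cast hnat
  calc ((7 * a : ℕ) : ℝ≥0∞) * (2 * (C * a ^ 2 * ((200 * a : ℕ) + 1) *
        (90 * a + 2 + 2 : ℕ) * n2 h))
      = ((7 * a * (2 * (a ^ 2 * (200 * a + 1) * (90 * a + 2 + 2))) : ℕ) : ℝ≥0∞) *
        (C * n2 h) := by
        push_cast
        ring
    _ ≤ ((14 * 201 * 91 * a ^ 5 : ℕ) : ℝ≥0∞) * (C * n2 h) := by gcongr
    _ = ((14 * 201 * 91 * C : ℝ≥0) : ℝ≥0∞) * a ^ 5 * n2 h := by
        push_cast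
        ring

end PFM_

end Pool.Agent.LLog
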