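import Pool.Agent.LLog.Targets
import Pool.Agent.KSP.All1

set_option autoImplicit false

/-! E12: the positive sum. -/

namespace Pool.Agent.LLog

open MeasureTheory Set
open scoped ENNReal NNReal ComplexConjugate
open Pool.Agent.KSP (ee dot nr Ex Ex1 Bd Bd1 n1 n2 lg V0 ann)

namespace POS_

lemma meas_nr : Measurable nr := KSP.MV_.cont_nr.measurable

lemma meas_inn (δ : ℝ) (X : Set (ℝ × ℝ)) : MeasurableSet (inn δ X) := by
  have h : (inn δ X)ᶜ = ⋃ y ∈ Xᶜ, {x : ℝ × ℝ | |y.1 - x.1| < δ ∧ |y.2 - x.2| < δ} := by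
    ext x
    simp only [inn, mem_compl_iff, mem_ofPred_eq, mem_iUnion]
    push Not
    constructor
    · rintro ⟨y, h1, h2, h3⟩
      exact ⟨y, h3, h1, h2⟩
    · rintro ⟨y, h3, h1, h2⟩
      exact ⟨y, h1, h2, h3⟩
  have ho : IsOpen (inn δ X)ᶜ := by
    rw [h]
    refine isOpen_biUnion fun y _ => ?_
    have c1 : Continuous fun x : ℝ × ℝ => |y.1 - x.1| := by fun_prop
    have c2 : Continuous fun x : ℝ × ℝ => |y.2 - x.2| := by fun_prop
    exact (isOpen_lt c1 continuous_const).inter (isOpen_lt c2 continuous_const)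
  exact (isOpen_compl_iff.1 ho).measurableSet

lemma meas_sa (t L : ℝ) {X : Set (ℝ × ℝ)} (hX : MeasurableSet X) : Measurable (sa t L X) := by
  unfold sa
  refine Measurable.const_mul ?_ _
  have hm : Measurable (fun P : (ℝ × ℝ) × ℝ => P.1 + P.2 • nv t) := by fun_prop
  exact Measurable.lintegral_prod_right'
    (f := fun P : (ℝ × ℝ) × ℝ => X.indicator (1 : ℝ × ℝ → ℝ≥0∞) (P.1 + P.2 • nv t))
    ((measurable_one.indicator hX).comp hm)

/-- radial interval and cap -/
def Sc (sg sl : ℝ) (l j : ℕ) (P : ℕ × ℕ) : Set (ℝ × ℝ) :=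
  {ξ | cd sg l P.1 ξ ∧ cp sl j P.2 ξ}

lemma meas_Sc (sg sl : ℝ) (l j : ℕ) (P : ℕ × ℕ) : MeasurableSet (Sc sg sl l j P) := by
  have h1 : Measurable fun ξ : ℝ × ℝ => (4 : ℝ) ^ l * (nr ξ - sg) :=
    (meas_nr.sub_const _).const_mul _
  have h2 : Measurable fun ξ : ℝ × ℝ => (2 : ℝ) ^ j * (ξ.2 / ξ.1 + sl) :=
    ((measurable_snd.div measurable_fst).add_const _).const_mul _
  exact ((measurableSet_le measurable_const h1).inter (measurableSet_lt h1 measurable_const)).inter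
    ((measurableSet_lt measurable_const measurable_fst).inter
      ((measurableSet_le measurable_const h2).inter (measurableSet_lt h2 measurable_const)))

lemma nat_eq {x : ℝ} {p q : ℕ} (h1 : (p : ℝ) ≤ x) (h2 : x < p + 1) (h3 : (q : ℝ) ≤ x)
    (h4 : x < q + 1) : p = q := by
  have h5 : (p : ℝ) < q + 1 := by linarith
  have h6 : (q : ℝ) < p + 1 := by linarith
  have h7 : p < q + 1 := by exact_mod_cast h5
  have h8 : q < p + 1 := by exact_mod_cast h6
  omega

lemma Sc_disj (sg sl : ℝ) (l j : ℕ) {P Q : ℕ × ℕ} (h : P ≠ Q) :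
    Disjoint (Sc sg sl l j P) (Sc sg sl l j Q) := by
  rw [Set.disjoint_left]
  rintro ξ ⟨⟨h1, h2⟩, _, h4, h5⟩ ⟨⟨k1, k2⟩, _, k4, k5⟩
  exact h (Prod.ext (nat_eq h1 h2 k1 k2) (nat_eq h4 h5 k4 k5))

lemma sum_n2 (sg sl : ℝ) (l j : ℕ) (S T : Finset ℕ) (h : ℝ × ℝ → ℂ) :
    ∑ c ∈ S, ∑ p ∈ T, n2 ({ξ | cd sg l c ξ ∧ cp sl j p ξ}.indicator h) ≤ n2 h := by
  have h1 : ∑ c ∈ S, ∑ p ∈ T, n2 ({ξ | cd sg l c ξ ∧ cp sl j p ξ}.indicator h) =
      ∑ P ∈ S ×ˢ T, n2 ((Sc sg sl l j P).indicator h) := by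
    rw [Finset.sum_product]
    rfl
  rw [h1, Finset.sum_congr rfl fun P _ => KSP.BadE_.n2_ind h (meas_Sc sg sl l j P),
    ← lintegral_biUnion_finset]
  · exact setLIntegral_le_lintegral _ _
  · intro v _ w _ hvw
    exact Sc_disj sg sl l j hvw
  · exact fun v _ => meas_Sc _ _ _ _ _

/-- the universe of the sets `Lam` -/
def Un (m : ℕ) (LL : Finset ℕ) : Finset (ℕ × ℕ) := LL ×ˢ Finset.range (2 * 4 ^ m)

lemma Lam_mem (a m : ℕ) (sl : ℝ) (LL : Finset ℕ) (e : ℕ → ℕ) (L : ℕ → ℝ)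
    (X : ℕ → ℕ → Set (ℝ × ℝ)) (l c p : ℕ) (x : ℝ × ℝ) :
    Lam a m sl LL e L X l c p x ∈ (Un m LL).powerset := by
  classical
  rw [Finset.mem_powerset]
  unfold Lam
  exact Finset.filter_subset _ _

lemma meas_Lam {a m : ℕ} {sl : ℝ} {LL : Finset ℕ} {e : ℕ → ℕ} {L : ℕ → ℝ}
    {X : ℕ → ℕ → Set (ℝ × ℝ)} {l c p : ℕ}
    (h : ∀ P, MeasurableSet {x | P ∈ Lam a m sl LL e L X l c p x}) (Λ : Finset (ℕ × ℕ)) :
    MeasurableSet {x | Lam a m sl LL e L X l c p x = Λ} := by
  have he : {x | Lam a m sl LL e L X l c p x = Λ} =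
      ⋂ P : ℕ × ℕ, {x | P ∈ Lam a m sl LL e L X l c p x ↔ P ∈ Λ} := by
    ext x
    simp only [mem_ofPred_eq, mem_iInter]
    exact Finset.ext_iff
  rw [he]
  refine MeasurableSet.iInter fun P => ?_
  by_cases hP : P ∈ Λ
  · have : {x | P ∈ Lam a m sl LL e L X l c p x ↔ P ∈ Λ} =
        {x | P ∈ Lam a m sl LL e L X l c p x} := by
      ext x
      simp [hP]
    rw [this]
    exact h P
  · have : {x | P ∈ Lam a m sl LL e L X l c p x ↔ P ∈ Λ} =
        {x | P ∈ Lam a m sl LL e L X l c p x}ᶜ := by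
      ext x
      simp [hP]
    rw [this]
    exact (h P).compl

lemma ite_any {α : Type} {P : Prop} (i j : Decidable P) (x y : α) :
    @ite α P i x y = @ite α P j x y := by
  rw [Subsingleton.elim i j]

lemma two_pow_ge (a : ℕ) (ha : 20 ≤ a) : 20 * a ≤ 2 ^ a := by
  induction a, ha using Nat.le_induction with
  | base => norm_num
  | succ n hn ih => rw [pow_succ]; omega

section add

variable {a m : ℕ} {sg sl : ℝ} {LL : Finset ℕ} {e : ℕ → ℕ} {L : ℕ → ℝ}
  {X : ℕ → ℕ → Set (ℝ × ℝ)} {h : ℝ × ℝ → ℂ}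

open Classical in
/-- additivity of `pos` in the condition -/
lemma pos_add (hLam : ∀ l ∈ LL, ∀ c p P, MeasurableSet {x | P ∈ Lam a m sl LL e L X l c p x})
    (hF : ∀ l ∈ LL, ∀ c ∈ (Finset.range (2 * 4 ^ l)).filter (fun c => adm a sg LL l c),
      ∀ p ∈ Finset.range (3 * 2 ^ (e l + 8 * a)),
      Measurable fun x => ‖Ex (fun ξ => mu a m sg sl l (e l + 8 * a) c p ξ * h ξ) x‖ₑ ^ 2)
    (Q : Finset (ℕ × ℕ) → Prop) :
    pos a m sg sl LL e L X Q h = ∑ Λ ∈ (Un m LL).powerset,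
      if Q Λ then pos a m sg sl LL e L X (fun Λ' => Λ' = Λ) h else 0 := by
  have key : ∀ l ∈ LL, ∀ c ∈ (Finset.range (2 * 4 ^ l)).filter (fun c => adm a sg LL l c),
      ∀ p ∈ Finset.range (3 * 2 ^ (e l + 8 * a)), (∫⁻ x,
      (if ENNReal.ofReal (1 / 2 ^ a) ≤
          sa (tp sl (e l + 8 * a) p) (L l) (inn (de a (e l)) (X l c)) x ∧
          Q (Lam a m sl LL e L X l c p x) then
        sa (tp sl (e l + 8 * a) p) (L l) (inn (de a (e l)) (X l c)) x *
          ‖Ex (fun ξ => mu a m sg sl l (e l + 8 * a) c p ξ * h ξ) x‖ₑ ^ 2 else 0)) =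
      ∑ Λ ∈ (Un m LL).powerset, if Q Λ then ∫⁻ x,
      (if ENNReal.ofReal (1 / 2 ^ a) ≤
          sa (tp sl (e l + 8 * a) p) (L l) (inn (de a (e l)) (X l c)) x ∧
          Lam a m sl LL e L X l c p x = Λ then
        sa (tp sl (e l + 8 * a) p) (L l) (inn (de a (e l)) (X l c)) x *
          ‖Ex (fun ξ => mu a m sg sl l (e l + 8 * a) c p ξ * h ξ) x‖ₑ ^ 2 else 0) else 0 := by
    intro l hl c hc p hp
    have hsm : Measurable (sa (tp sl (e l + 8 * a) p) (L l) (inn (de a (e l)) (X l c))) :=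
      meas_sa _ _ (meas_inn _ _)
    have hFm := hF l hl c hc p hp
    have hone : ∀ Λ, Measurable fun x =>
        (if ENNReal.ofReal (1 / 2 ^ a) ≤
          sa (tp sl (e l + 8 * a) p) (L l) (inn (de a (e l)) (X l c)) x ∧
          Lam a m sl LL e L X l c p x = Λ then
        sa (tp sl (e l + 8 * a) p) (L l) (inn (de a (e l)) (X l c)) x *
          ‖Ex (fun ξ => mu a m sg sl l (e l + 8 * a) c p ξ * h ξ) x‖ₑ ^ 2 else 0) := by
      intro Λ
      refine Measurable.ite ?_ (hsm.mul hFm) measurable_const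
      exact (measurableSet_le measurable_const hsm).inter (meas_Lam (hLam l hl c p) Λ)
    have hpt : ∀ x, (if ENNReal.ofReal (1 / 2 ^ a) ≤
          sa (tp sl (e l + 8 * a) p) (L l) (inn (de a (e l)) (X l c)) x ∧
          Q (Lam a m sl LL e L X l c p x) then
        sa (tp sl (e l + 8 * a) p) (L l) (inn (de a (e l)) (X l c)) x *
          ‖Ex (fun ξ => mu a m sg sl l (e l + 8 * a) c p ξ * h ξ) x‖ₑ ^ 2 else 0) =
        ∑ Λ ∈ (Un m LL).powerset, if Q Λ then
        (if ENNReal.ofReal (1 / 2 ^ a) ≤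
          sa (tp sl (e l + 8 * a) p) (L l) (inn (de a (e l)) (X l c)) x ∧
          Lam a m sl LL e L X l c p x = Λ then
        sa (tp sl (e l + 8 * a) p) (L l) (inn (de a (e l)) (X l c)) x *
          ‖Ex (fun ξ => mu a m sg sl l (e l + 8 * a) c p ξ * h ξ) x‖ₑ ^ 2 else 0) else 0 := by
      intro x
      rw [Finset.sum_eq_single (Lam a m sl LL e L X l c p x)]
      · by_cases hQ : Q (Lam a m sl LL e L X l c p x)
        · rw [if_pos hQ]
          simp only [hQ, and_true]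
        · rw [if_neg hQ]
          simp only [hQ, and_false, if_false]
      · intro Λ _ hne
        by_cases hQ : Q Λ
        · rw [if_pos hQ, if_neg (fun hh => hne hh.2.symm)]
        · rw [if_neg hQ]
      · intro hh
        exact absurd (Lam_mem a m sl LL e L X l c p x) hh
    rw [lintegral_congr hpt, lintegral_finsetSum _ fun Λ _ => ?_]
    · refine Finset.sum_congr rfl fun Λ _ => ?_
      by_cases hQ : Q Λ
      · simp only [if_pos hQ]
      · simp only [if_neg hQ, lintegral_zero]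
    · by_cases hQ : Q Λ
      · simp only [if_pos hQ]
        exact hone Λ
      · simp only [if_neg hQ]
        exact measurable_const
  unfold pos
  rw [Finset.sum_congr rfl fun l hl => Finset.sum_congr rfl fun c hc =>
    Finset.sum_congr rfl fun p hp => key l hl c hc p hp]
  have swap : ∀ (T : ℕ → ℕ → ℕ → Finset (ℕ × ℕ) → ℝ≥0∞),
      ∑ l ∈ LL, ∑ c ∈ (Finset.range (2 * 4 ^ l)).filter (fun c => adm a sg LL l c),
        ∑ p ∈ Finset.range (3 * 2 ^ (e l + 8 * a)), ∑ Λ ∈ (Un m LL).powerset, T l c p Λ =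
      ∑ Λ ∈ (Un m LL).powerset, ∑ l ∈ LL,
        ∑ c ∈ (Finset.range (2 * 4 ^ l)).filter (fun c => adm a sg LL l c),
        ∑ p ∈ Finset.range (3 * 2 ^ (e l + 8 * a)), T l c p Λ := by
    intro T
    rw [Finset.sum_comm (s := (Un m LL).powerset) (t := LL)]
    refine Finset.sum_congr rfl fun l _ => ?_
    rw [Finset.sum_comm (s := (Un m LL).powerset)]
    refine Finset.sum_congr rfl fun c _ => ?_
    rw [Finset.sum_comm (s := (Un m LL).powerset)]
  rw [swap]
  refine Finset.sum_congr rfl fun Λ _ => ?_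
  by_cases hQ : Q Λ
  · simp only [if_pos hQ]
    refine Finset.sum_congr rfl fun l _ => Finset.sum_congr rfl fun c _ =>
      Finset.sum_congr rfl fun p _ => lintegral_congr fun x => ?_
    exact ite_any _ _ _ _
  · simp only [if_neg hQ, Finset.sum_const_zero]

end add

end POS_

open POS_ in
theorem pPOS (hPCH : tPCH) (hSMP : tSMP) (hMUS : tMUS) (hLAM : tLAM) : tPOS := by
  classical
  obtain ⟨C, hC⟩ := hPCH
  refine ⟨8 * C + 1, fun a m K M sg sl LL e L X h hPA hsg0 hsg1 hsl1 hsl2 hCL hX hK hM hcore => ?_⟩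
  obtain ⟨hL1, hL2, _⟩ := hLAM a m sl LL e L X hPA hsl1 hsl2 hCL
  obtain ⟨hB, hcr⟩ := hcore
  obtain ⟨ha20, hm1, hm2⟩ := hPA
  have h10 : 10 * a ≤ m := by
    have h1 := two_pow_ge a ha20
    omega
  have hPA : PA a m := ⟨ha20, hm1, hm2⟩
  -- admissible intervals
  have hadm : ∀ l ∈ LL, ∀ c ξ, h ξ ≠ 0 → cd sg l c ξ → adm a sg LL l c := by
    intro l hl c ξ hξ hc
    obtain ⟨hV, hr, _⟩ := hcr ξ hξ
    exact ⟨nr ξ, hV.2.1, hV.2.2, hc, hr (3 * a) (by omega), fun l' hl' _ =>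
      hr l' (hCL.1 l' hl').2.1⟩
  have hmus : ∀ l ∈ LL, ∀ c < 2 * 4 ^ l, adm a sg LL l c → ∀ p < 3 * 2 ^ (e l + 8 * a),
      Bd (mu a m sg sl l (e l + 8 * a) c p) ∧
      {ξ | cd sg l c ξ ∧ cp sl (e l + 8 * a) p ξ}.indicator h =
        fun ξ => mu a m sg sl l (e l + 8 * a) c p ξ * h ξ := by
    intro l hl c hc had p hp
    obtain ⟨g1, g2, g3, g4, _, _⟩ := hCL.1 l hl
    obtain ⟨ζ, z1, _, z3, _, _⟩ := had
    have h1 : 1 < sg + ((c : ℝ) + 1) / 4 ^ l := by
      have h2 := z3.2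
      have h3 : ζ - sg < ((c : ℝ) + 1) / 4 ^ l := by
        rw [lt_div_iff₀ (by positivity)]
        linarith
      linarith
    obtain ⟨⟨q1, _, q3⟩, _, _, q4⟩ := hMUS a m sg sl l (e l + 8 * a) c p hPA hsg0 hsg1 hsl1 hsl2 g1
      g2 (by omega) (by omega) hc h1 hp
    refine ⟨q1, ?_⟩
    ext ξ
    by_cases h0 : h ξ = 0
    · rw [h0, mul_zero]
      by_cases hs : ξ ∈ {ξ | cd sg l c ξ ∧ cp sl (e l + 8 * a) p ξ}
      · rw [indicator_of_mem hs, h0]
      · rw [indicator_of_notMem hs]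
    · obtain ⟨_, hr, hj⟩ := hcr ξ h0
      by_cases hs : ξ ∈ {ξ | cd sg l c ξ ∧ cp sl (e l + 8 * a) p ξ}
      · rw [indicator_of_mem hs, q4 ξ hs.1 hs.2 (hr l g2) (hr (3 * a) (by omega))
          (hj _ (by omega)), one_mul]
      · rw [indicator_of_notMem hs]
        have : mu a m sg sl l (e l + 8 * a) c p ξ = 0 := by
          by_contra hne
          exact hs (q3 ξ hne)
        rw [this, zero_mul]
  have hBm : ∀ l ∈ LL, ∀ c < 2 * 4 ^ l, adm a sg LL l c → ∀ p < 3 * 2 ^ (e l + 8 * a),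
      Bd (fun ξ => mu a m sg sl l (e l + 8 * a) c p ξ * h ξ) := by
    intro l hl c hc had p hp
    rw [← (hmus l hl c hc had p hp).2]
    exact KSP.L_.Bd_ind hB (meas_Sc sg sl l (e l + 8 * a) (c, p))
  have hFm : ∀ l ∈ LL, ∀ c ∈ (Finset.range (2 * 4 ^ l)).filter (fun c => adm a sg LL l c),
      ∀ p ∈ Finset.range (3 * 2 ^ (e l + 8 * a)),
      Measurable fun x => ‖Ex (fun ξ => mu a m sg sl l (e l + 8 * a) c p ξ * h ξ) x‖ₑ ^ 2 := by
    intro l hl c hc p hp
    rw [Finset.mem_filter, Finset.mem_range] at hc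
    have hc := (KSP.pPl2 _ (hBm l hl c hc.1 hc.2 p (Finset.mem_range.1 hp))).1
    exact hc.measurable.enorm.pow_const 2
  -- large values of `sa`
  obtain ⟨Q0, hQ0⟩ : ∃ Q0 : Finset (ℕ × ℕ) → Prop, ∀ Λ, Q0 Λ ↔ 1 ≤ Λ.card ∧ Λ.card ≤ M :=
    ⟨_, fun _ => Iff.rfl⟩
  have hlevel : ∀ l ∈ LL, ∑ c ∈ Finset.range (2 * 4 ^ l),
      ∑ p ∈ Finset.range (3 * 2 ^ (e l + 8 * a)), ∫⁻ x,
      sa (tp sl (e l + 8 * a) p) (L l) (inn (de a (e l)) (X l c)) x *
      ‖Ex ({ξ | cd sg l c ξ ∧ cp sl (e l + 8 * a) p ξ}.indicator h) x‖ₑ ^ 2 ≤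
      (∑ c ∈ (Finset.range (2 * 4 ^ l)).filter (fun c => adm a sg LL l c),
        ∑ p ∈ Finset.range (3 * 2 ^ (e l + 8 * a)), ∫⁻ x,
      (if ENNReal.ofReal (1 / 2 ^ a) ≤
          sa (tp sl (e l + 8 * a) p) (L l) (inn (de a (e l)) (X l c)) x ∧
          Q0 (Lam a m sl LL e L X l c p x) then
        sa (tp sl (e l + 8 * a) p) (L l) (inn (de a (e l)) (X l c)) x *
          ‖Ex (fun ξ => mu a m sg sl l (e l + 8 * a) c p ξ * h ξ) x‖ₑ ^ 2 else 0)) +
      ENNReal.ofReal (1 / 2 ^ a) * n2 h := by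
    intro l hl
    rw [← Finset.sum_filter_of_ne (p := fun c => adm a sg LL l c)]
    · calc ∑ c ∈ (Finset.range (2 * 4 ^ l)).filter (fun c => adm a sg LL l c),
            ∑ p ∈ Finset.range (3 * 2 ^ (e l + 8 * a)), ∫⁻ x,
            sa (tp sl (e l + 8 * a) p) (L l) (inn (de a (e l)) (X l c)) x *
            ‖Ex ({ξ | cd sg l c ξ ∧ cp sl (e l + 8 * a) p ξ}.indicator h) x‖ₑ ^ 2
          ≤ ∑ c ∈ (Finset.range (2 * 4 ^ l)).filter (fun c => adm a sg LL l c),
            ∑ p ∈ Finset.range (3 * 2 ^ (e l + 8 * a)), ((∫⁻ x,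
            (if ENNReal.ofReal (1 / 2 ^ a) ≤
              sa (tp sl (e l + 8 * a) p) (L l) (inn (de a (e l)) (X l c)) x ∧
              Q0 (Lam a m sl LL e L X l c p x) then
            sa (tp sl (e l + 8 * a) p) (L l) (inn (de a (e l)) (X l c)) x *
              ‖Ex (fun ξ => mu a m sg sl l (e l + 8 * a) c p ξ * h ξ) x‖ₑ ^ 2 else 0)) +
            ENNReal.ofReal (1 / 2 ^ a) *
              n2 ({ξ | cd sg l c ξ ∧ cp sl (e l + 8 * a) p ξ}.indicator h)) := by
            refine Finset.sum_le_sum fun c hc => Finset.sum_le_sum fun p hp => ?_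
            have hFmp := hFm l hl c hc p hp
            rw [Finset.mem_filter, Finset.mem_range] at hc
            rw [Finset.mem_range] at hp
            have hmu := (hmus l hl c hc.1 hc.2 p hp).2
            have hBmp := hBm l hl c hc.1 hc.2 p hp
            rw [hmu, ← (KSP.pPl2 _ hBmp).2, ← lintegral_const_mul _ hFmp,
              ← lintegral_add_right _ (hFmp.const_mul _)]
            refine lintegral_mono fun x => ?_
            by_cases hs : ENNReal.ofReal (1 / 2 ^ a) ≤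
              sa (tp sl (e l + 8 * a) p) (L l) (inn (de a (e l)) (X l c)) x
            · have hcard : Q0 (Lam a m sl LL e L X l c p x) := by
                rw [hQ0]
                refine ⟨?_, hM l hl c hc.1 p hp x hs⟩
                exact Finset.card_pos.2 ⟨_, hL1 l hl c p x hp hc.1 hs⟩
              simp only [hs, hcard, and_self, if_true]
              exact le_self_add
            · have hs2 := (not_le.1 hs).le
              simp only [hs, false_and, if_false, zero_add]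
              gcongr
        _ = (∑ c ∈ (Finset.range (2 * 4 ^ l)).filter (fun c => adm a sg LL l c),
            ∑ p ∈ Finset.range (3 * 2 ^ (e l + 8 * a)), ∫⁻ x,
            (if ENNReal.ofReal (1 / 2 ^ a) ≤
              sa (tp sl (e l + 8 * a) p) (L l) (inn (de a (e l)) (X l c)) x ∧
              Q0 (Lam a m sl LL e L X l c p x) then
            sa (tp sl (e l + 8 * a) p) (L l) (inn (de a (e l)) (X l c)) x *
              ‖Ex (fun ξ => mu a m sg sl l (e l + 8 * a) c p ξ * h ξ) x‖ₑ ^ 2 else 0)) +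
            ENNReal.ofReal (1 / 2 ^ a) *
              ∑ c ∈ (Finset.range (2 * 4 ^ l)).filter (fun c => adm a sg LL l c),
              ∑ p ∈ Finset.range (3 * 2 ^ (e l + 8 * a)),
              n2 ({ξ | cd sg l c ξ ∧ cp sl (e l + 8 * a) p ξ}.indicator h) := by
            simp only [Finset.sum_add_distrib, Finset.mul_sum]
        _ ≤ _ := by
            gcongr
            exact sum_n2 sg sl l (e l + 8 * a) _ _ h
    · intro c _ hne
      by_contra hna
      apply hne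
      refine Finset.sum_eq_zero fun p _ => ?_
      have h0 : {ξ | cd sg l c ξ ∧ cp sl (e l + 8 * a) p ξ}.indicator h = 0 := by
        ext ξ
        by_cases hs : ξ ∈ {ξ | cd sg l c ξ ∧ cp sl (e l + 8 * a) p ξ}
        · rw [indicator_of_mem hs]
          by_contra hξ
          exact hna (hadm l hl c ξ hξ hs.1)
        · rw [indicator_of_notMem hs]
          rfl
      rw [h0]
      simp [KSP.Ex]
  -- the classes
  have hclass : ∀ k, ∑ Λ ∈ (Un m LL).powerset,
      (if 2 ^ (k + 1) ≤ 2 * Λ.card ∧ Λ.card < 2 ^ (k + 1) then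
        pos a m sg sl LL e L X (fun Λ' => Λ' = Λ) h else 0) ≤
      8 * (C * a ^ 2 * (K + 1) * n2 h) := by
    intro k
    obtain ⟨χ, hχ⟩ := hSMP (Un m LL) (2 ^ (k + 1))
      (fun Λ => pos a m sg sl LL e L X (fun Λ' => Λ' = Λ) h)
      (by rw [pow_succ]; have := Nat.one_le_two_pow (n := k); omega)
    refine hχ.trans ?_
    gcongr
    have h1 := hC a m K sg sl LL e L X χ h hPA hsg0 hsg1 hsl1 hsl2 hCL hX hK hB
    rw [pos_add hL2 hFm] at h1
    refine le_trans (le_of_eq ?_) h1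
    refine Finset.sum_congr rfl fun Λ _ => ?_
    split_ifs <;> rfl
  have hpos : pos a m sg sl LL e L X Q0 h ≤
      (Nat.log 2 M + 1 : ℕ) * (8 * (C * a ^ 2 * (K + 1) * n2 h)) := by
    rw [pos_add hL2 hFm]
    calc ∑ Λ ∈ (Un m LL).powerset,
          (if Q0 Λ then pos a m sg sl LL e L X (fun Λ' => Λ' = Λ) h else 0)
        ≤ ∑ Λ ∈ (Un m LL).powerset, ∑ k ∈ Finset.range (Nat.log 2 M + 1),
          (if 2 ^ (k + 1) ≤ 2 * Λ.card ∧ Λ.card < 2 ^ (k + 1) then
            pos a m sg sl LL e L X (fun Λ' => Λ' = Λ) h else 0) := by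
          refine Finset.sum_le_sum fun Λ _ => ?_
          by_cases hQ : Q0 Λ
          · rw [if_pos hQ]
            rw [hQ0] at hQ
            have hk : Nat.log 2 Λ.card ∈ Finset.range (Nat.log 2 M + 1) := by
              rw [Finset.mem_range]
              have := Nat.log_mono_right (b := 2) hQ.2
              omega
            refine le_trans (le_of_eq ?_) (Finset.single_le_sum (f := fun k =>
              (if 2 ^ (k + 1) ≤ 2 * Λ.card ∧ Λ.card < 2 ^ (k + 1) then
              pos a m sg sl LL e L X (fun Λ' => Λ' = Λ) h else 0)) (fun _ _ => zero_le) hk)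
            have h1 : 2 ^ Nat.log 2 Λ.card ≤ Λ.card :=
              Nat.pow_log_le_self 2 (by have := hQ.1; omega)
            have h2 : Λ.card < 2 ^ (Nat.log 2 Λ.card + 1) :=
              Nat.lt_pow_succ_log_self (by norm_num) _
            have h3 : 2 ^ (Nat.log 2 Λ.card + 1) ≤ 2 * Λ.card := by
              rw [pow_succ]
              omega
            show _ = if 2 ^ (Nat.log 2 Λ.card + 1) ≤ 2 * Λ.card ∧
              Λ.card < 2 ^ (Nat.log 2 Λ.card + 1) then _ else _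
            rw [if_pos ⟨h3, h2⟩]
          · rw [if_neg hQ]
            exact zero_le
      _ = ∑ k ∈ Finset.range (Nat.log 2 M + 1), ∑ Λ ∈ (Un m LL).powerset,
          (if 2 ^ (k + 1) ≤ 2 * Λ.card ∧ Λ.card < 2 ^ (k + 1) then
            pos a m sg sl LL e L X (fun Λ' => Λ' = Λ) h else 0) := Finset.sum_comm
      _ ≤ ∑ _k ∈ Finset.range (Nat.log 2 M + 1), 8 * (C * a ^ 2 * (K + 1) * n2 h) :=
          Finset.sum_le_sum fun k _ => hclass k
      _ = _ := by rw [Finset.sum_const, Finset.card_range, nsmul_eq_mul]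
  have hcardLL : (LL.card : ℝ≥0∞) * ENNReal.ofReal (1 / 2 ^ a) ≤ 1 := by
    have h1 : LL.card ≤ 2 ^ a := by
      have h2 : LL ⊆ Finset.Ioc 0 m := by
        intro l hl
        obtain ⟨g1, g2, _⟩ := hCL.1 l hl
        rw [Finset.mem_Ioc]
        omega
      have h3 := Finset.card_le_card h2
      rw [Nat.card_Ioc] at h3
      omega
    have h4 : (LL.card : ℝ) * (1 / 2 ^ a) ≤ 1 := by
      rw [mul_one_div, div_le_one (by positivity)]
      exact_mod_cast h1
    have h5 := ENNReal.ofReal_le_ofReal h4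
    rwa [ENNReal.ofReal_mul (by positivity), ENNReal.ofReal_natCast, ENNReal.ofReal_one] at h5
  calc ∑ l ∈ LL, ∑ c ∈ Finset.range (2 * 4 ^ l),
      ∑ p ∈ Finset.range (3 * 2 ^ (e l + 8 * a)), ∫⁻ x,
      sa (tp sl (e l + 8 * a) p) (L l) (inn (de a (e l)) (X l c)) x *
      ‖Ex ({ξ | cd sg l c ξ ∧ cp sl (e l + 8 * a) p ξ}.indicator h) x‖ₑ ^ 2
      ≤ pos a m sg sl LL e L X Q0 h + LL.card * (ENNReal.ofReal (1 / 2 ^ a) * n2 h) := by
        refine (Finset.sum_le_sum hlevel).trans (le_of_eq ?_)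
        rw [Finset.sum_add_distrib, Finset.sum_const, nsmul_eq_mul]
        rfl
    _ ≤ (Nat.log 2 M + 1 : ℕ) * (8 * (C * a ^ 2 * (K + 1) * n2 h)) + n2 h := by
        gcongr
        rw [← mul_assoc]
        calc (LL.card : ℝ≥0∞) * ENNReal.ofReal (1 / 2 ^ a) * n2 h ≤ 1 * n2 h := by gcongr
          _ = n2 h := one_mul _
    _ ≤ (Nat.log 2 M + 2 : ℕ) * (8 * (C * a ^ 2 * (K + 1) * n2 h)) +
        (Nat.log 2 M + 2 : ℕ) * (a ^ 2 * (K + 1) * n2 h) := by
        gcongr
        · omega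
        · have h1 : (1 : ℝ≥0∞) ≤ (Nat.log 2 M + 2 : ℕ) * (a ^ 2 * (K + 1)) := by
            have h2 : 1 ≤ (Nat.log 2 M + 2) * (a ^ 2 * (K + 1)) := by
              have : 0 < (Nat.log 2 M + 2) * (a ^ 2 * (K + 1)) := by positivity
              exact this
            exact_mod_cast h2
          calc n2 h = 1 * n2 h := (one_mul _).symm
            _ ≤ (Nat.log 2 M + 2 : ℕ) * (a ^ 2 * (K + 1)) * n2 h := by gcongr
            _ = _ := by ring
    _ = _ := by
        push_cast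
        ring

end Pool.Agent.LLog
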