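import Pool.Agent.LLog.H21Frame

set_option autoImplicit false

namespace Pool.Agent.LLog

open MeasureTheory Set
open scoped ENNReal NNReal ComplexConjugate
open Pool.Agent.KSP (ee dot nr Ex Ex1 Bd Bd1 n1 n2 lg V0 ann)

namespace PRD_

open Pool.Agent.KSP.Conv_ H21Frame_

theorem dot_meas (v : ℝ × ℝ) : Measurable fun ξ : ℝ × ℝ => dot ξ v := by
  unfold dot
  fun_prop

theorem bd {f1 f2 : ℝ → ℂ} (h1 : Bd1 f1) (h2 : Bd1 f2) (t : ℝ) :
    Bd fun ξ => f1 (dot ξ (nv t)) * f2 (dot ξ (tv t)) := by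
  obtain ⟨m1, ⟨B1, hB1⟩, R1, hR1⟩ := h1
  obtain ⟨m2, ⟨B2, hB2⟩, R2, hR2⟩ := h2
  have h0 := Nn_pos t
  have hB10 : 0 ≤ B1 := (norm_nonneg _).trans (hB1 0)
  refine ⟨(m1.comp (dot_meas _)).mul (m2.comp (dot_meas _)), ⟨B1 * B2, fun ξ => ?_⟩, R1 + R2,
    fun ξ hξ => ?_⟩
  · rw [norm_mul]
    gcongr
    · exact hB1 _
    · exact hB2 _
  · have e1 : |dot ξ (nv t)| ≤ R1 := hR1 _ (left_ne_zero_of_mul hξ)
    have e2 : |dot ξ (tv t)| ≤ R2 := hR2 _ (right_ne_zero_of_mul hξ)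
    have h3 : |(1 / Nn t)| ≤ 1 := by
      rw [abs_of_pos (by positivity), div_le_one h0]
      exact one_le_Nn t
    have h4 : |t / Nn t| ≤ 1 := by
      rw [abs_div, abs_of_pos h0, div_le_one h0]
      exact abs_le_Nn t
    have h5 : |-t / Nn t| ≤ 1 := by
      rw [abs_div, abs_neg, abs_of_pos h0, div_le_one h0]
      exact abs_le_Nn t
    have hR10 : 0 ≤ R1 := (abs_nonneg _).trans e1
    have hR20 : 0 ≤ R2 := (abs_nonneg _).trans e2
    have hξe := F_surj t ξ
    rw [F_def] at hξe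
    set a := dot ξ (nv t)
    set b := dot ξ (tv t)
    have x1 : ξ.1 = a * (1 / Nn t) + b * (-t / Nn t) := (congrArg Prod.fst hξe).symm
    have x2 : ξ.2 = a * (t / Nn t) + b * (1 / Nn t) := (congrArg Prod.snd hξe).symm
    constructor
    · rw [x1]
      calc |a * (1 / Nn t) + b * (-t / Nn t)| ≤ |a * (1 / Nn t)| + |b * (-t / Nn t)| :=
            abs_add_le _ _
        _ = |a| * |1 / Nn t| + |b| * |-t / Nn t| := by rw [abs_mul, abs_mul]
        _ ≤ R1 * 1 + R2 * 1 := by gcongr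
        _ = R1 + R2 := by ring
    · rw [x2]
      calc |a * (t / Nn t) + b * (1 / Nn t)| ≤ |a * (t / Nn t)| + |b * (1 / Nn t)| :=
            abs_add_le _ _
        _ = |a| * |t / Nn t| + |b| * |1 / Nn t| := by rw [abs_mul, abs_mul]
        _ ≤ R1 * 1 + R2 * 1 := by gcongr
        _ = R1 + R2 := by ring

theorem ex_prod (f1 f2 : ℝ → ℂ) (t : ℝ) (z : ℝ × ℝ) :
    Ex (fun ξ => f1 (dot ξ (nv t)) * f2 (dot ξ (tv t))) z =
      Ex1 f1 (dot z (nv t)) * Ex1 f2 (dot z (tv t)) := by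
  unfold Ex
  rw [int_F t]
  have h1 : (fun P : ℝ × ℝ => f1 (dot (F t P) (nv t)) * f2 (dot (F t P) (tv t)) *
      ee (dot z (F t P))) = fun P : ℝ × ℝ => (f1 P.1 * ee (dot z (nv t) * P.1)) *
        (f2 P.2 * ee (dot z (tv t) * P.2)) := by
    funext P
    rw [dot_frame t z (F t P), dot_F1, dot_F2, ee_add]
    ring
  rw [h1]
  exact integral_prod_mul (fun s : ℝ => f1 s * ee (dot z (nv t) * s))
    (fun s : ℝ => f2 s * ee (dot z (tv t) * s))

theorem meas_Ex1 {f : ℝ → ℂ} (hf : Bd1 f) : Measurable fun s => ‖Ex1 f s‖ₑ :=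
  (Pool.Agent.KSP.pPl1 f hf).1.measurable.enorm

end PRD_

open PRD_ H21Frame_ in
theorem pPRD (_ : tFRM) : tPRD := by
  intro t A B f1 f2 h1 h2 hA hB
  have m1 := meas_Ex1 h1
  have m2 := meas_Ex1 h2
  have hE : ∀ P : ℝ × ℝ, ‖Ex (fun ξ => f1 (dot ξ (nv t)) * f2 (dot ξ (tv t))) (F t P)‖ₑ =
      ‖Ex1 f1 P.1‖ₑ * ‖Ex1 f2 P.2‖ₑ := by
    intro P
    rw [ex_prod, dot_F1, dot_F2, enorm_mul]
  refine ⟨bd h1 h2 t, ex_prod f1 f2 t, ?_, ?_⟩
  · rw [lint_F t]
    simp only [hE]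
    exact lintegral_prod_mul m1.aemeasurable m2.aemeasurable
  · have hSm : MeasurableSet {z : ℝ × ℝ | ¬ (|dot z (nv t)| ≤ A ∧ |dot z (tv t)| ≤ B)} := by
      apply MeasurableSet.compl
      have d1 := dot_meas (nv t)
      have d2 := dot_meas (tv t)
      exact (measurableSet_le d1.abs measurable_const).inter
        (measurableSet_le d2.abs measurable_const)
    have hA' : MeasurableSet {s : ℝ | A < |s|} := measurableSet_lt measurable_const
      measurable_id.abs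
    have hB' : MeasurableSet {s : ℝ | B < |s|} := measurableSet_lt measurable_const
      measurable_id.abs
    rw [← lintegral_indicator hSm, lint_F t]
    have hle : ∀ P : ℝ × ℝ, ({z : ℝ × ℝ | ¬ (|dot z (nv t)| ≤ A ∧ |dot z (tv t)| ≤ B)}.indicator
        (fun z => ‖Ex (fun ξ => f1 (dot ξ (nv t)) * f2 (dot ξ (tv t))) z‖ₑ) (F t P)) ≤
        {s : ℝ | A < |s|}.indicator (fun s => ‖Ex1 f1 s‖ₑ) P.1 * ‖Ex1 f2 P.2‖ₑ +
        ‖Ex1 f1 P.1‖ₑ * {s : ℝ | B < |s|}.indicator (fun s => ‖Ex1 f2 s‖ₑ) P.2 := by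
      intro P
      by_cases hP : F t P ∈ {z : ℝ × ℝ | ¬ (|dot z (nv t)| ≤ A ∧ |dot z (tv t)| ≤ B)}
      · rw [indicator_of_mem hP, hE]
        simp only [mem_ofPred_eq, dot_F1, dot_F2, not_and_or, not_le] at hP
        rcases hP with hP | hP
        · rw [indicator_of_mem (s := {s : ℝ | A < |s|}) (by exact hP)]
          exact le_self_add
        · rw [indicator_of_mem (s := {s : ℝ | B < |s|}) (by exact hP)]
          exact le_add_self
      · rw [indicator_of_notMem hP]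
        exact zero_le
    refine (lintegral_mono hle).trans ?_
    rw [lintegral_add_left]
    · apply le_of_eq
      congr 1
      · rw [← lintegral_indicator hA']
        exact lintegral_prod_mul (m1.indicator hA').aemeasurable m2.aemeasurable
      · rw [← lintegral_indicator hB']
        exact lintegral_prod_mul m1.aemeasurable (m2.indicator hB').aemeasurable
    · exact ((m1.indicator hA').comp measurable_fst).mul (m2.comp measurable_snd)

end Pool.Agent.LLog
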