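import Pool.Agent.LLog.Targets

set_option autoImplicit false

/-! MP_ee701d_an, `tPRI`: choice of the priority (averaging over the family of `tREC`) -/

namespace Pool.Agent.LLog
namespace PRI_

open MeasureTheory Set
open scoped ENNReal NNReal

/-- ancestors of ancestors -/
theorem dv (rho lam i j : ℕ) (h1 : i ≤ j) (h2 : j ≤ lam) :
    rho / 4 ^ (lam - i) = rho / 4 ^ (lam - j) / 4 ^ (j - i) := by
  rw [Nat.div_div_eq_div_mul, ← pow_add]
  congr 2
  omega

/-- the chain of `(lam, rho)` -/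
noncomputable def Dk (U : Finset Top) (i e : ℕ → ℕ) (lam rho k : ℕ) : Finset Top :=
  open Classical in U.filter (fun t => e k ≤ t.1 ∧ i k ≤ t.1 ∧ i k ≤ lam ∧
    t.2.1 / 4 ^ (t.1 - i k) = rho / 4 ^ (lam - i k))

theorem mem_Dk {U : Finset Top} {i e : ℕ → ℕ} {lam rho k : ℕ} {t : Top} :
    t ∈ Dk U i e lam rho k ↔ t ∈ U ∧ e k ≤ t.1 ∧ i k ≤ t.1 ∧ i k ≤ lam ∧
      t.2.1 / 4 ^ (t.1 - i k) = rho / 4 ^ (lam - i k) := by
  classical
  unfold Dk
  rw [Finset.mem_filter]

theorem Dk_sub (U : Finset Top) {i e : ℕ → ℕ} (hi : Monotone i) (he : Monotone e)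
    (lam rho : ℕ) {k k' : ℕ} (hk : k ≤ k') : Dk U i e lam rho k' ⊆ Dk U i e lam rho k := by
  intro t ht
  rw [mem_Dk] at ht ⊢
  obtain ⟨h1, h2, h3, h4, h5⟩ := ht
  refine ⟨h1, (he hk).trans h2, (hi hk).trans h3, (hi hk).trans h4, ?_⟩
  rw [dv t.2.1 t.1 _ _ (hi hk) h3, dv rho lam _ _ (hi hk) h4, h5]

/-- the events on the chain -/
noncomputable def Ct (pr : Top → ℕ) (U : Finset Top) (i e : ℕ → ℕ) (lam rho n : ℕ) : Finset ℕ :=
  open Classical in (Finset.range n).filter (fun k =>
    ∃ t, Lb pr (Dk U i e lam rho k) t ∧ t ∉ Dk U i e lam rho (k + 1))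

theorem Ct_le (pr : Top → ℕ) (U : Finset Top) {i e : ℕ → ℕ} (hi : Monotone i) (he : Monotone e)
    (lam rho n K : ℕ) (hK : K < (Ct pr U i e lam rho n).card) :
    ∃ ts ∈ U, K ≤ (Ct pr U i e ts.1 ts.2.1 n).card := by
  classical
  have hne : (Ct pr U i e lam rho n).Nonempty := by
    rw [← Finset.card_pos]; omega
  obtain ⟨k0, hk0, hmax⟩ : ∃ k0 ∈ Ct pr U i e lam rho n, ∀ k ∈ Ct pr U i e lam rho n, k ≤ k0 :=
    ⟨_, Finset.max'_mem _ hne, fun k hk => Finset.le_max' _ k hk⟩
  have hk0' := hk0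
  unfold Ct at hk0'
  rw [Finset.mem_filter] at hk0'
  obtain ⟨hk0n, t0, ht0, -⟩ := hk0'
  have hts : t0 ∈ Dk U i e lam rho k0 := ht0.1
  have hU : t0 ∈ U := (mem_Dk.1 hts).1
  refine ⟨t0, hU, ?_⟩
  have heq : ∀ k ≤ k0, Dk U i e lam rho k = Dk U i e t0.1 t0.2.1 k := by
    intro k hk
    obtain ⟨-, -, h3, h4, h5⟩ := mem_Dk.1 (Dk_sub U hi he lam rho hk hts)
    ext t
    rw [mem_Dk, mem_Dk]
    constructor
    · rintro ⟨g1, g2, g3, -, g5⟩
      exact ⟨g1, g2, g3, h3, g5.trans h5.symm⟩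
    · rintro ⟨g1, g2, g3, -, g5⟩
      exact ⟨g1, g2, g3, h4, g5.trans h5⟩
  have hsub : (Ct pr U i e lam rho n).erase k0 ⊆ Ct pr U i e t0.1 t0.2.1 n := by
    intro k hk
    rw [Finset.mem_erase] at hk
    obtain ⟨hne', hk⟩ := hk
    have hlt : k < k0 := lt_of_le_of_ne (hmax k hk) hne'
    unfold Ct at hk ⊢
    rw [Finset.mem_filter] at hk ⊢
    obtain ⟨hkn, t, ht, ht'⟩ := hk
    refine ⟨hkn, t, ?_, ?_⟩
    · rw [← heq k hlt.le]; exact ht
    · rw [← heq (k + 1) hlt]; exact ht'
  have hc := Finset.card_le_card hsub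
  rw [Finset.card_erase_of_mem hk0] at hc
  omega

/-- priorities are injective: the label is unique -/
theorem Lb_unique {pr : Top → ℕ} {U S : Finset Top}
    (hpr : ∀ t ∈ U, ∀ t' ∈ U, pr t = pr t' → t = t') (hS : S ⊆ U) {t t' : Top}
    (h : Lb pr S t) (h' : Lb pr S t') : t = t' :=
  hpr t (hS h.1) t' (hS h'.1) (le_antisymm (h'.2 t h.1) (h.2 t' h'.1))

/-- block events -/
theorem evB_card (pr : Top → ℕ) (U : Finset Top)
    (hpr : ∀ t ∈ U, ∀ t' ∈ U, pr t = pr t' → t = t') (a m s r : ℕ) (Lv : Finset ℕ)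
    (hLv : ∀ l ∈ Lv, 10 * a < l ∧ l ≤ m ∧ be s l ≤ m) :
    (open Classical in (Lv.filter (fun l => EvB pr U s l (r / 4 ^ (m - l)))).card) ≤
      (Ct pr U (fun k => 2 ^ s * k) (fun k => 2 ^ s * (k + 1)) m r m).card := by
  classical
  have hpos : 0 < 2 ^ s := by positivity
  have hbi : ∀ l, bi s l = 2 ^ s * ((l - 1) / 2 ^ s) := fun l => rfl
  have hbe : ∀ l, be s l = 2 ^ s * ((l - 1) / 2 ^ s + 1) := by
    intro l; unfold be; rw [hbi]; ring
  -- what an event says
  have hev : ∀ l ∈ Lv, EvB pr U s l (r / 4 ^ (m - l)) → ∃ t,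
      Lb pr (Dk U (fun k => 2 ^ s * k) (fun k => 2 ^ s * (k + 1)) m r ((l - 1) / 2 ^ s)) t ∧
      t.2.1 / 4 ^ (t.1 - (l - 1)) = r / 4 ^ (m - (l - 1)) ∧
      t.2.1 / 4 ^ (t.1 - l) ≠ r / 4 ^ (m - l) := by
    intro l hl h
    obtain ⟨hl1, hl2, hl3⟩ := hLv l hl
    obtain ⟨t, ht, ht1, ht2⟩ := h
    have hble : bi s l ≤ l := by
      rw [hbi]; exact (Nat.mul_div_le _ _).trans (Nat.sub_le _ _)
    have hset : Sb U (bi s l) (be s l) (r / 4 ^ (m - l) / 4 ^ (l - bi s l)) =
        Dk U (fun k => 2 ^ s * k) (fun k => 2 ^ s * (k + 1)) m r ((l - 1) / 2 ^ s) := by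
      rw [← dv r m (bi s l) l hble hl2]
      ext t
      rw [mem_Dk]
      unfold Sb
      rw [Finset.mem_filter]
      simp only [← hbi, ← hbe]
      constructor
      · rintro ⟨g1, g2, g3, g4⟩; exact ⟨g1, g2, g3, hble.trans hl2, g4⟩
      · rintro ⟨g1, g2, g3, -, g4⟩; exact ⟨g1, g2, g3, g4⟩
    rw [hset] at ht
    refine ⟨t, ht, ?_, ht2⟩
    rw [ht1, dv r m (l - 1) l (Nat.sub_le _ _) hl2]
    have : l - (l - 1) = 1 := by omega
    rw [this, pow_one]
  refine Finset.card_le_card_of_injOn (fun l => (l - 1) / 2 ^ s) ?_ ?_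
  · intro l hl
    rw [Finset.mem_coe, Finset.mem_filter] at hl
    obtain ⟨hl, hE⟩ := hl
    obtain ⟨hl1, hl2, hl3⟩ := hLv l hl
    obtain ⟨t, ht, ht1, ht2⟩ := hev l hl hE
    show (l - 1) / 2 ^ s ∈ _
    unfold Ct
    rw [Finset.mem_coe, Finset.mem_filter, Finset.mem_range]
    refine ⟨lt_of_le_of_lt (Nat.div_le_self _ _) (by omega), t, ht, ?_⟩
    intro hcon
    obtain ⟨-, g2, g3, g4, g5⟩ := mem_Dk.1 hcon
    simp only [← hbe] at g3 g4 g5
    have hlbe : l ≤ be s l := by
      rw [hbe]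
      have h1 := Nat.lt_mul_div_succ (l - 1) hpos
      omega
    apply ht2
    rw [dv t.2.1 t.1 l (be s l) hlbe g3, dv r m l (be s l) hlbe g4, g5]
  · -- injectivity
    have key : ∀ l l', l < l' → l ∈ Lv.filter (fun l => EvB pr U s l (r / 4 ^ (m - l))) →
        l' ∈ Lv.filter (fun l => EvB pr U s l (r / 4 ^ (m - l))) →
        (l - 1) / 2 ^ s ≠ (l' - 1) / 2 ^ s := by
      intro l l' hll hl hl' heq
      rw [Finset.mem_filter] at hl hl'
      obtain ⟨t, ht, ht1, ht2⟩ := hev l hl.1 hl.2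
      obtain ⟨t', ht', ht1', ht2'⟩ := hev l' hl'.1 hl'.2
      obtain ⟨hl1, hl2, hl3⟩ := hLv l hl.1
      obtain ⟨hl1', hl2', hl3'⟩ := hLv l' hl'.1
      rw [← heq] at ht'
      have htt : t = t' := Lb_unique hpr (fun t ht => (mem_Dk.1 ht).1) ht ht'
      subst htt
      obtain ⟨-, g2, -, -, -⟩ := mem_Dk.1 ht'.1
      -- the level of `t` is at least `be s l = be s l' ≥ l'`
      have hbe2 : be s l' ≤ t.1 := by
        rw [hbe, ← heq]; exact g2
      have hlbe : l' ≤ be s l' := by
        rw [hbe]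
        have h1 := Nat.lt_mul_div_succ (l' - 1) hpos
        omega
      apply ht2
      have e1 : l ≤ l' - 1 := by omega
      rw [dv t.2.1 t.1 l (l' - 1) e1 (by omega), dv r m l (l' - 1) e1 (by omega), ht1']
    intro l hl l' hl' heq
    rw [Finset.mem_coe] at hl hl'
    by_contra hne
    rcases lt_or_gt_of_ne hne with h | h
    · exact key l l' h hl hl' heq
    · exact key l' l h hl' hl heq.symm

/-- child events -/
theorem evC_card (pr : Top → ℕ) (U : Finset Top) (a m r : ℕ) :
    (open Classical in ((Finset.Ioc (10 * a) m).filter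
      (fun l => EvC pr U l (r / 4 ^ (m - l)))).card) ≤
      (Ct pr U (fun k => k) (fun k => k) m r m).card := by
  classical
  refine Finset.card_le_card_of_injOn (fun l => l - 1) ?_ ?_
  · intro l hl
    rw [Finset.mem_coe, Finset.mem_filter, Finset.mem_Ioc] at hl
    obtain ⟨⟨hl1, hl2⟩, t, ht, ht2⟩ := hl
    show l - 1 ∈ _
    unfold Ct
    rw [Finset.mem_coe, Finset.mem_filter, Finset.mem_range]
    have hset : Sb U (l - 1) (l - 1) (r / 4 ^ (m - l) / 4) =
        Dk U (fun k => k) (fun k => k) m r (l - 1) := by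
      have h4 : r / 4 ^ (m - l) / 4 = r / 4 ^ (m - (l - 1)) := by
        rw [dv r m (l - 1) l (Nat.sub_le _ _) hl2]
        have : l - (l - 1) = 1 := by omega
        rw [this, pow_one]
      rw [h4]
      ext t
      rw [mem_Dk]
      unfold Sb
      rw [Finset.mem_filter]
      constructor
      · rintro ⟨g1, g2, g3, g4⟩; exact ⟨g1, g2, g3, by omega, g4⟩
      · rintro ⟨g1, g2, g3, -, g4⟩; exact ⟨g1, g2, g3, g4⟩
    rw [hset] at ht
    refine ⟨by omega, t, ht, ?_⟩
    intro hcon
    obtain ⟨-, g2, g3, g4, g5⟩ := mem_Dk.1 hcon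
    have e1 : l - 1 + 1 = l := by omega
    rw [e1] at g3 g4 g5
    exact ht2 ⟨g3, g5⟩
  · intro l hl l' hl' heq
    rw [Finset.mem_coe, Finset.mem_filter, Finset.mem_Ioc] at hl hl'
    simp only at heq
    omega

/-- squares are measurable -/
theorem meas_Q (a : ℕ) (z0 : ℝ × ℝ) (e : ℕ) (z : ℤ × ℤ) :
    MeasurableSet {x : ℝ × ℝ | Qx a z0 e x = z} := by
  have h1 : Measurable (fun x : ℝ × ℝ => (⌊(x.1 - z0.1) / sd a e⌋ : ℤ)) := by
    apply Measurable.floor; fun_prop
  have h2 : Measurable (fun x : ℝ × ℝ => (⌊(x.2 - z0.2) / sd a e⌋ : ℤ)) := by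
    apply Measurable.floor; fun_prop
  exact (h1.prodMk h2) (measurableSet_singleton z)

theorem meas_TX (a : ℕ) (z0 : ℝ × ℝ) (T U : Finset Top) :
    MeasurableSet ((fun x => TX a z0 T x) ⁻¹' {U}) := by
  classical
  by_cases hU : U ⊆ T
  · have : ((fun x => TX a z0 T x) ⁻¹' {U}) =
        ⋂ t ∈ T, (if t ∈ U then {x | Qx a z0 t.1 x = t.2.2} else {x | Qx a z0 t.1 x = t.2.2}ᶜ) := by
      ext x
      simp only [mem_preimage, mem_singleton_iff, mem_iInter]
      constructor
      · intro h t ht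
        by_cases htU : t ∈ U
        · rw [if_pos htU]
          rw [← h] at htU
          unfold TX at htU
          rw [Finset.mem_filter] at htU
          exact htU.2
        · rw [if_neg htU]
          rw [← h] at htU
          unfold TX at htU
          rw [Finset.mem_filter] at htU
          intro hc
          exact htU ⟨ht, hc⟩
      · intro h
        ext t
        unfold TX
        rw [Finset.mem_filter]
        constructor
        · rintro ⟨ht, hq⟩
          have h1 := h t ht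
          by_contra htU
          rw [if_neg htU] at h1
          exact h1 hq
        · intro htU
          have h1 := h t (hU htU)
          rw [if_pos htU] at h1
          exact ⟨hU htU, h1⟩
    rw [this]
    refine Finset.measurableSet_biInter T fun t _ => ?_
    split_ifs
    · exact meas_Q a z0 t.1 t.2.2
    · exact (meas_Q a z0 t.1 t.2.2).compl
  · have : ((fun x => TX a z0 T x) ⁻¹' {U}) = ∅ := by
      ext x
      simp only [mem_preimage, mem_singleton_iff, mem_empty_iff_false, iff_false]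
      intro h
      apply hU
      rw [← h]
      unfold TX
      exact Finset.filter_subset _ _
    rw [this]
    exact MeasurableSet.empty

/-- the bad event for a set of tops -/
def BadU (a m : ℕ) (pr : Top → ℕ) (U : Finset Top) : Prop :=
  U.card ≤ 2 ^ (90 * a) ∧
    ((∃ s ≤ a, ∃ ts ∈ U, 200 * a ≤
      (Ct pr U (fun k => 2 ^ s * k) (fun k => 2 ^ s * (k + 1)) ts.1 ts.2.1 m).card) ∨
    ∃ ts ∈ U, 200 * a ≤ (Ct pr U (fun k => k) (fun k => k) ts.1 ts.2.1 m).card)

theorem bad_count (h : tREC) (a m : ℕ) (T : Finset Top) (ha : 20 ≤ a) :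
    ∃ Ω : Finset (Top → ℕ), Ω.Nonempty ∧
      (∀ pr ∈ Ω, ∀ t ∈ T, ∀ t' ∈ T, pr t = pr t' → t = t') ∧
      ∀ U ⊆ T, (open Classical in (Ω.filter (fun pr => BadU a m pr U)).card) * 100 ≤ Ω.card := by
  classical
  obtain ⟨Ω, hne, hinj, hrec⟩ := h T (2 ^ (90 * a))
  refine ⟨Ω, hne, hinj, ?_⟩
  intro U hU
  by_cases hcard : U.card ≤ 2 ^ (90 * a)
  · -- one type and one top
    have hone : ∀ (i e : ℕ → ℕ), Monotone i → Monotone e → ∀ ts : Top,
        (Ω.filter (fun pr => 200 * a ≤ (Ct pr U i e ts.1 ts.2.1 m).card)).card * 2 ^ (200 * a) ≤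
          4 * (2 ^ (90 * a) + 1) * Ω.card := by
      intro i e hi he ts
      have hsub0 : Dk U i e ts.1 ts.2.1 0 ⊆ U := fun t ht => (mem_Dk.1 ht).1
      have h1 := hrec m (200 * a) (Dk U i e ts.1 ts.2.1) (hsub0.trans hU)
        ((Finset.card_le_card hsub0).trans hcard)
        (fun k => Dk_sub U hi he ts.1 ts.2.1 (Nat.le_succ k))
      have h5 : (Ω.filter (fun pr => 200 * a ≤ (Ct pr U i e ts.1 ts.2.1 m).card)).card * 2 ^ (200 * a) ≤
          4 * (2 ^ (90 * a) + 1) * Ω.card := by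
        refine le_trans (le_of_eq ?_) h1
        congr 2
      exact h5
    have hmi : ∀ s : ℕ, Monotone (fun k => 2 ^ s * k) := fun s x y hxy =>
      Nat.mul_le_mul_left _ hxy
    have hme : ∀ s : ℕ, Monotone (fun k => 2 ^ s * (k + 1)) := fun s x y hxy =>
      Nat.mul_le_mul_left _ (Nat.succ_le_succ hxy)
    have hsub : Ω.filter (fun pr => BadU a m pr U) ⊆
        ((Finset.range (a + 1)).biUnion fun s => U.biUnion fun ts => Ω.filter (fun pr =>
          200 * a ≤ (Ct pr U (fun k => 2 ^ s * k) (fun k => 2 ^ s * (k + 1)) ts.1 ts.2.1 m).card)) ∪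
        U.biUnion fun ts => Ω.filter (fun pr =>
          200 * a ≤ (Ct pr U (fun k => k) (fun k => k) ts.1 ts.2.1 m).card) := by
      intro pr hpr
      rw [Finset.mem_filter] at hpr
      obtain ⟨hpr, -, hb⟩ := hpr
      rw [Finset.mem_union]
      rcases hb with ⟨s, hs, ts, hts, hb⟩ | ⟨ts, hts, hb⟩
      · left
        rw [Finset.mem_biUnion]
        refine ⟨s, Finset.mem_range.2 (by omega), ?_⟩
        rw [Finset.mem_biUnion]
        exact ⟨ts, hts, Finset.mem_filter.2 ⟨hpr, hb⟩⟩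
      · right
        rw [Finset.mem_biUnion]
        exact ⟨ts, hts, Finset.mem_filter.2 ⟨hpr, hb⟩⟩
    have hc : (Ω.filter (fun pr => BadU a m pr U)).card * 2 ^ (200 * a) ≤
        ((a + 2) * 2 ^ (90 * a)) * (4 * (2 ^ (90 * a) + 1) * Ω.card) := by
      have hsum : (Ω.filter (fun pr => BadU a m pr U)).card ≤
          (∑ s ∈ Finset.range (a + 1), ∑ ts ∈ U, (Ω.filter (fun pr =>
            200 * a ≤ (Ct pr U (fun k => 2 ^ s * k) (fun k => 2 ^ s * (k + 1))
              ts.1 ts.2.1 m).card)).card) +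
          ∑ ts ∈ U, (Ω.filter (fun pr =>
            200 * a ≤ (Ct pr U (fun k => k) (fun k => k) ts.1 ts.2.1 m).card)).card := by
        refine (Finset.card_le_card hsub).trans ((Finset.card_union_le _ _).trans ?_)
        apply Nat.add_le_add
        · refine Finset.card_biUnion_le.trans (Finset.sum_le_sum fun s _ => ?_)
          exact Finset.card_biUnion_le
        · exact Finset.card_biUnion_le
      calc (Ω.filter (fun pr => BadU a m pr U)).card * 2 ^ (200 * a)
          ≤ ((∑ s ∈ Finset.range (a + 1), ∑ ts ∈ U, (Ω.filter (fun pr =>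
            200 * a ≤ (Ct pr U (fun k => 2 ^ s * k) (fun k => 2 ^ s * (k + 1))
              ts.1 ts.2.1 m).card)).card) +
          ∑ ts ∈ U, (Ω.filter (fun pr =>
            200 * a ≤ (Ct pr U (fun k => k) (fun k => k) ts.1 ts.2.1 m).card)).card) *
            2 ^ (200 * a) := Nat.mul_le_mul_right _ hsum
        _ = (∑ s ∈ Finset.range (a + 1), ∑ ts ∈ U, (Ω.filter (fun pr =>
            200 * a ≤ (Ct pr U (fun k => 2 ^ s * k) (fun k => 2 ^ s * (k + 1))
              ts.1 ts.2.1 m).card)).card * 2 ^ (200 * a)) +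
          ∑ ts ∈ U, (Ω.filter (fun pr =>
            200 * a ≤ (Ct pr U (fun k => k) (fun k => k) ts.1 ts.2.1 m).card)).card *
            2 ^ (200 * a) := by
            rw [add_mul, Finset.sum_mul, Finset.sum_mul]
            congr 1
            apply Finset.sum_congr rfl
            intro s _
            rw [Finset.sum_mul]
        _ ≤ (∑ s ∈ Finset.range (a + 1), ∑ ts ∈ U, 4 * (2 ^ (90 * a) + 1) * Ω.card) +
          ∑ ts ∈ U, 4 * (2 ^ (90 * a) + 1) * Ω.card := by
            apply Nat.add_le_add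
            · apply Finset.sum_le_sum
              intro s _
              apply Finset.sum_le_sum
              intro ts _
              exact hone _ _ (hmi s) (hme s) ts
            · apply Finset.sum_le_sum
              intro ts _
              exact hone _ _ (fun _ _ h => h) (fun _ _ h => h) ts
        _ = ((a + 2) * U.card) * (4 * (2 ^ (90 * a) + 1) * Ω.card) := by
            simp only [Finset.sum_const, Finset.card_range, smul_eq_mul]
            ring
        _ ≤ _ := by
            apply Nat.mul_le_mul_right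
            apply Nat.mul_le_mul_left
            exact hcard
    -- numbers
    have hnum : 100 * ((a + 2) * 2 ^ (90 * a) * (4 * (2 ^ (90 * a) + 1))) ≤ 2 ^ (200 * a) := by
      have h1 : a + 2 ≤ 2 ^ (a + 1) := by
        have := Nat.lt_two_pow_self (n := a)
        rw [pow_succ]; omega
      have h2 : 2 ^ (90 * a) + 1 ≤ 2 ^ (90 * a + 1) := by
        have : 1 ≤ 2 ^ (90 * a) := Nat.one_le_two_pow
        rw [pow_succ]; omega
      calc 100 * ((a + 2) * 2 ^ (90 * a) * (4 * (2 ^ (90 * a) + 1)))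
          ≤ 2 ^ 7 * (2 ^ (a + 1) * 2 ^ (90 * a) * (2 ^ 2 * 2 ^ (90 * a + 1))) := by
            gcongr
            · norm_num
            · norm_num
        _ = 2 ^ (7 + (a + 1) + 90 * a + 2 + (90 * a + 1)) := by
            simp only [pow_add]; ring
        _ ≤ 2 ^ (200 * a) := Nat.pow_le_pow_right (by norm_num) (by omega)
    have hfin : ((Ω.filter (fun pr => BadU a m pr U)).card * 100) * 2 ^ (200 * a) ≤
        Ω.card * 2 ^ (200 * a) := by
      calc ((Ω.filter (fun pr => BadU a m pr U)).card * 100) * 2 ^ (200 * a)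
          = 100 * ((Ω.filter (fun pr => BadU a m pr U)).card * 2 ^ (200 * a)) := by ring
        _ ≤ 100 * (((a + 2) * 2 ^ (90 * a)) * (4 * (2 ^ (90 * a) + 1) * Ω.card)) :=
            Nat.mul_le_mul_left _ hc
        _ = (100 * ((a + 2) * 2 ^ (90 * a) * (4 * (2 ^ (90 * a) + 1)))) * Ω.card := by ring
        _ ≤ 2 ^ (200 * a) * Ω.card := Nat.mul_le_mul_right _ hnum
        _ = _ := by ring
    exact Nat.le_of_mul_le_mul_right hfin (by positivity)
  · have : Ω.filter (fun pr => BadU a m pr U) = ∅ := by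
      apply Finset.filter_false_of_mem
      intro pr _ hb
      exact hcard hb.1
    rw [this]
    simp

end PRI_

open MeasureTheory Set PRI_
open scoped ENNReal NNReal

/-- F9 -/
theorem pPRI (h : tREC) : tPRI := by
  classical
  intro a m z0 T E hPA hE hEfin
  obtain ⟨Ω, hne, hinj, hcount⟩ := bad_count h a m T hPA.1
  set f : ℝ × ℝ → Finset Top := fun x => TX a z0 T x with hf
  set v : Finset Top → ℝ≥0∞ := fun U => volume (f ⁻¹' {U} ∩ E) with hv
  set B : (Top → ℕ) → Set (ℝ × ℝ) := fun pr =>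
    {x ∈ E | (TX a z0 T x).card ≤ 2 ^ (90 * a) ∧ ∃ r : ℕ, (
      (∃ s ≤ a, 200 * a < ((famB a m z0 T pr s).Lv.filter
        (fun l => (famB a m z0 T pr s).Ev l (r / 4 ^ (m - l)) x)).card) ∨
      200 * a < ((famC a m z0 T pr).Lv.filter
        (fun l => (famC a m z0 T pr).Ev l (r / 4 ^ (m - l)) x)).card)} with hB
  have hTXT : ∀ x, TX a z0 T x ⊆ T := by
    intro x; unfold TX; exact Finset.filter_subset _ _
  -- the bad sets
  have hBsub : ∀ pr ∈ Ω, volume (B pr) ≤
      ∑ U ∈ T.powerset, if BadU a m pr U then v U else 0 := by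
    intro pr hpr
    have hsub : B pr ⊆ ⋃ U ∈ T.powerset.filter (fun U => BadU a m pr U), f ⁻¹' {U} ∩ E := by
      intro x hx
      obtain ⟨hxE, hxc, r, hr⟩ := hx
      have hprU : ∀ t ∈ TX a z0 T x, ∀ t' ∈ TX a z0 T x, pr t = pr t' → t = t' :=
        fun t ht t' ht' => hinj pr hpr t (hTXT x ht) t' (hTXT x ht')
      have hbad : BadU a m pr (TX a z0 T x) := by
        refine ⟨hxc, ?_⟩
        rcases hr with ⟨s, hs, hr⟩ | hr
        · left
          refine ⟨s, hs, ?_⟩
          have h1 := evB_card pr (TX a z0 T x) hprU a m s r (famB a m z0 T pr s).Lv (by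
            intro l hl
            have hl' : l ∈ (Finset.Ioc (10 * a) m).filter
              (fun l => 10 * a ≤ bi s l ∧ be s l ≤ m) := hl
            rw [Finset.mem_filter, Finset.mem_Ioc] at hl'
            exact ⟨hl'.1.1, hl'.1.2, hl'.2.2⟩)
          have h2 : 200 * a < (Ct pr (TX a z0 T x) (fun k => 2 ^ s * k)
              (fun k => 2 ^ s * (k + 1)) m r m).card := by
            refine lt_of_lt_of_le hr (le_trans (le_of_eq ?_) h1)
            congr 1
          exact Ct_le pr _ (fun x y hxy => Nat.mul_le_mul_left _ hxy)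
            (fun x y hxy => Nat.mul_le_mul_left _ (Nat.succ_le_succ hxy)) m r m _ h2
        · right
          have h1 := evC_card pr (TX a z0 T x) a m r
          have h2 : 200 * a < (Ct pr (TX a z0 T x) (fun k => k) (fun k => k) m r m).card := by
            refine lt_of_lt_of_le hr (le_trans (le_of_eq ?_) h1)
            congr 1
          exact Ct_le pr _ (fun _ _ h => h) (fun _ _ h => h) m r m _ h2
      simp only [mem_iUnion]
      exact ⟨TX a z0 T x, Finset.mem_filter.2 ⟨Finset.mem_powerset.2 (hTXT x), hbad⟩, rfl, hxE⟩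
    calc volume (B pr) ≤ volume (⋃ U ∈ T.powerset.filter (fun U => BadU a m pr U),
          f ⁻¹' {U} ∩ E) := measure_mono hsub
      _ ≤ ∑ U ∈ T.powerset.filter (fun U => BadU a m pr U), v U :=
          measure_biUnion_finset_le _ _
      _ = _ := by rw [Finset.sum_filter]
  -- partition of `E`
  have hpart : ∑ U ∈ T.powerset, v U ≤ volume E := by
    have h1 := sum_measure_preimage_singleton (μ := volume.restrict E) T.powerset (f := f)
      (fun U _ => meas_TX a z0 T U)
    have h2 : ∀ U, (volume.restrict E) (f ⁻¹' {U}) = v U := fun U =>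
      Measure.restrict_apply (meas_TX a z0 T U)
    simp only [h2] at h1
    rw [h1]
    calc (volume.restrict E) (f ⁻¹' ↑T.powerset) ≤ (volume.restrict E) univ :=
          measure_mono (subset_univ _)
      _ = volume E := Measure.restrict_apply_univ _
  have hsum : ∑ pr ∈ Ω, volume (B pr) ≤ ∑ _pr ∈ Ω, volume E / 100 := by
    calc ∑ pr ∈ Ω, volume (B pr)
        ≤ ∑ pr ∈ Ω, ∑ U ∈ T.powerset, (if BadU a m pr U then v U else 0) :=
          Finset.sum_le_sum hBsub
      _ = ∑ U ∈ T.powerset, ∑ pr ∈ Ω, (if BadU a m pr U then v U else 0) := Finset.sum_comm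
      _ = ∑ U ∈ T.powerset, ((Ω.filter (fun pr => BadU a m pr U)).card : ℝ≥0∞) * v U := by
          apply Finset.sum_congr rfl
          intro U _
          rw [← Finset.sum_filter, Finset.sum_const, nsmul_eq_mul]
      _ ≤ ∑ U ∈ T.powerset, ((Ω.card : ℝ≥0∞) / 100) * v U := by
          apply Finset.sum_le_sum
          intro U hU
          gcongr
          rw [ENNReal.le_div_iff_mul_le (Or.inl (by norm_num)) (Or.inl (by norm_num))]
          have h1 := hcount U (Finset.mem_powerset.1 hU)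
          have h2 : (((Ω.filter (fun pr => BadU a m pr U)).card * 100 : ℕ) : ℝ≥0∞) ≤
              (Ω.card : ℝ≥0∞) := by exact_mod_cast h1
          simpa using h2
      _ = ((Ω.card : ℝ≥0∞) / 100) * ∑ U ∈ T.powerset, v U := by rw [Finset.mul_sum]
      _ ≤ ((Ω.card : ℝ≥0∞) / 100) * volume E := by gcongr
      _ = ∑ _pr ∈ Ω, volume E / 100 := by
          rw [Finset.sum_const, nsmul_eq_mul, ENNReal.div_eq_inv_mul, ENNReal.div_eq_inv_mul]
          ring
  obtain ⟨pr, hpr, hle⟩ := ENNReal.exists_le_of_sum_le hne hsum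
  refine ⟨pr, hinj pr hpr, ?_⟩
  refine le_trans (le_of_eq ?_) hle
  rw [hB]

end Pool.Agent.LLog
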