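import Pool.Agent.LLog.Targets

set_option autoImplicit false

/-! LLG-PSI: the smooth cutoffs obtained by iterated moving averages. -/

namespace Pool.Agent.LLog

open MeasureTheory Set
open scoped ENNReal NNReal ComplexConjugate
open Pool.Agent.KSP (ee dot nr Ex Ex1 Bd Bd1 n1 n2 lg V0 ann)

namespace PSI_

/-! ### Moving averages -/

lemma mav_mem {w : ℝ} (hw : 0 < w) {f : ℝ → ℝ} (hm : Measurable f)
    (h01 : ∀ x, 0 ≤ f x ∧ f x ≤ 1) (x : ℝ) : 0 ≤ mav w f x ∧ mav w f x ≤ 1 := by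
  have hle : x - w / 2 ≤ x + w / 2 := by linarith
  have hi : IntervalIntegrable f volume (x - w / 2) (x + w / 2) := by
    rw [intervalIntegrable_iff]
    refine Measure.integrableOn_of_bounded (M := 1) (by simp) hm.aestronglyMeasurable ?_
    refine ae_of_all _ fun t => ?_
    rw [Real.norm_eq_abs, abs_of_nonneg (h01 t).1]
    exact (h01 t).2
  constructor
  · refine mul_nonneg (inv_nonneg.2 hw.le) ?_
    exact intervalIntegral.integral_nonneg hle fun t _ => (h01 t).1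
  · have h1 : ∫ t in (x - w / 2)..(x + w / 2), f t ≤ ∫ _t in (x - w / 2)..(x + w / 2), (1 : ℝ) :=
      intervalIntegral.integral_mono_on hle hi intervalIntegrable_const fun t _ => (h01 t).2
    rw [intervalIntegral.integral_const, smul_eq_mul, mul_one] at h1
    have h2 : x + w / 2 - (x - w / 2) = w := by ring
    rw [h2] at h1
    calc mav w f x = w⁻¹ * ∫ t in (x - w / 2)..(x + w / 2), f t := rfl
      _ ≤ w⁻¹ * w := mul_le_mul_of_nonneg_left h1 (inv_nonneg.2 hw.le)
      _ = 1 := inv_mul_cancel₀ hw.ne'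

lemma mav_const {w : ℝ} (hw : 0 < w) {f : ℝ → ℝ} {c x : ℝ}
    (h : ∀ t, x - w / 2 ≤ t → t ≤ x + w / 2 → f t = c) : mav w f x = c := by
  have hle : x - w / 2 ≤ x + w / 2 := by linarith
  have h1 : ∫ t in (x - w / 2)..(x + w / 2), f t = ∫ _t in (x - w / 2)..(x + w / 2), c := by
    refine intervalIntegral.integral_congr fun t ht => ?_
    rw [uIcc_of_le hle] at ht
    exact h t ht.1 ht.2
  rw [mav, h1, intervalIntegral.integral_const, smul_eq_mul]
  have h2 : x + w / 2 - (x - w / 2) = w := by ring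
  rw [h2, inv_mul_cancel_left₀ hw.ne']

lemma iter (hM : tMAV) (w α β : ℝ) (hw : 0 < w) (k : ℕ) :
    Measurable ((mav w)^[k] ((Icc α β).indicator 1)) ∧
    (∃ R, ∀ x, (mav w)^[k] ((Icc α β).indicator 1) x ≠ 0 → |x| ≤ R) ∧
    (∀ x, 0 ≤ (mav w)^[k] ((Icc α β).indicator 1) x ∧
      (mav w)^[k] ((Icc α β).indicator 1) x ≤ 1) ∧
    (∀ x, α + k * (w / 2) ≤ x → x ≤ β - k * (w / 2) →
      (mav w)^[k] ((Icc α β).indicator 1) x = 1) ∧
    (∀ x, (x < α - k * (w / 2) ∨ β + k * (w / 2) < x) →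
      (mav w)^[k] ((Icc α β).indicator 1) x = 0) ∧
    ∀ s, Ex1 (fun ζ => (((mav w)^[k] ((Icc α β).indicator 1) ζ : ℝ) : ℂ)) s =
      (Real.sinc (Real.pi * w * s) : ℂ) ^ k *
        Ex1 (fun ζ => (((Icc α β).indicator (1 : ℝ → ℝ) ζ : ℝ) : ℂ)) s := by
  induction k with
  | zero =>
    simp only [Function.iterate_zero, id_eq]
    refine ⟨measurable_one.indicator measurableSet_Icc, ⟨|α| + |β|, fun x hx => ?_⟩,
      fun x => ?_, fun x h1 h2 => ?_, fun x hx => ?_, fun s => ?_⟩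
    · have hx' : x ∈ Icc α β := by
        by_contra h
        exact hx (indicator_of_notMem h _)
      rw [abs_le]
      constructor
      · have := neg_abs_le α
        have := abs_nonneg β
        linarith [hx'.1]
      · have := le_abs_self β
        have := abs_nonneg α
        linarith [hx'.2]
    · by_cases hx : x ∈ Icc α β
      · rw [indicator_of_mem hx]; simp
      · rw [indicator_of_notMem hx]; simp
    · simp only [Nat.cast_zero, zero_mul, add_zero, sub_zero] at h1 h2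
      rw [indicator_of_mem (show x ∈ Icc α β from ⟨h1, h2⟩), Pi.one_apply]
    · simp only [Nat.cast_zero, zero_mul, add_zero, sub_zero] at hx
      refine indicator_of_notMem (fun h : x ∈ Icc α β => ?_) _
      rcases hx with hx | hx
      · linarith [h.1]
      · linarith [h.2]
    · simp
  | succ k ih =>
    obtain ⟨hm, ⟨R, hR⟩, h01, hone, hzero, hF⟩ := ih
    rw [Function.iterate_succ_apply']
    set f : ℝ → ℝ := (mav w)^[k] ((Icc α β).indicator 1) with hf
    have hb : ∃ B, ∀ x, |f x| ≤ B :=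
      ⟨1, fun x => by rw [abs_of_nonneg (h01 x).1]; exact (h01 x).2⟩
    obtain ⟨m1, m2, -, m4⟩ := hM w R f hw hm hb hR
    refine ⟨m1, ⟨R + w / 2, m2⟩, mav_mem hw hm h01, fun x h1 h2 => ?_, fun x hx => ?_,
      fun s => ?_⟩
    · push_cast at h1 h2
      exact mav_const hw fun t ht1 ht2 => hone t (by linarith) (by linarith)
    · push_cast at hx
      refine mav_const hw fun t ht1 ht2 => hzero t ?_
      rcases hx with hx | hx
      · left; linarith
      · right; linarith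
    · rw [m4 s, hF s, pow_succ]
      ring

/-! ### The Fourier transform of an interval -/

lemma norm_ee (t : ℝ) : ‖ee t‖ = 1 := by
  have h : (2 * Real.pi * Complex.I * (t : ℂ)) = ((2 * Real.pi * t : ℝ) : ℂ) * Complex.I := by
    push_cast
    ring
  rw [ee, h, Complex.norm_exp_ofReal_mul_I]

lemma Ex1_ind (α β s : ℝ) (h : α ≤ β) :
    Ex1 (fun ζ => (((Icc α β).indicator (1 : ℝ → ℝ) ζ : ℝ) : ℂ)) s = ∫ τ in α..β, ee (s * τ) := by
  rw [intervalIntegral.integral_of_le h, ← integral_Icc_eq_integral_Ioc,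
    ← integral_indicator measurableSet_Icc, Ex1]
  congr 1
  funext τ
  by_cases hτ : τ ∈ Icc α β
  · rw [indicator_of_mem hτ, indicator_of_mem hτ]; simp
  · rw [indicator_of_notMem hτ, indicator_of_notMem hτ]; simp

lemma Ex1_ind_le (α β s : ℝ) (h : α ≤ β) :
    ‖Ex1 (fun ζ => (((Icc α β).indicator (1 : ℝ → ℝ) ζ : ℝ) : ℂ)) s‖ ≤ β - α := by
  rw [Ex1_ind α β s h]
  have := intervalIntegral.norm_integral_le_of_norm_le_const (a := α) (b := β)
    (f := fun τ => ee (s * τ)) (C := 1) fun τ _ => (norm_ee _).le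
  rwa [one_mul, abs_of_nonneg (by linarith)] at this

lemma Ex1_ind_le' (α β s : ℝ) (h : α ≤ β) (hs : s ≠ 0) :
    ‖Ex1 (fun ζ => (((Icc α β).indicator (1 : ℝ → ℝ) ζ : ℝ) : ℂ)) s‖ ≤
      1 / (Real.pi * |s|) := by
  rw [Ex1_ind α β s h]
  have hc : (2 * Real.pi * Complex.I * (s : ℂ)) ≠ 0 := by
    simp [Real.pi_ne_zero, hs]
  have h1 : ∫ τ in α..β, ee (s * τ) = (ee (s * β) - ee (s * α)) /
      (2 * Real.pi * Complex.I * (s : ℂ)) := by
    have h2 := integral_exp_mul_complex (a := α) (b := β) hc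
    have h3 : ∀ τ : ℝ, ee (s * τ) = Complex.exp (2 * Real.pi * Complex.I * (s : ℂ) * τ) := by
      intro τ
      rw [ee]
      congr 1
      push_cast
      ring
    simp only [h3]
    exact h2
  rw [h1, norm_div]
  have h4 : ‖(2 * Real.pi * Complex.I * (s : ℂ))‖ = 2 * (Real.pi * |s|) := by
    rw [norm_mul, norm_mul, norm_mul, Complex.norm_I, Complex.norm_real, Complex.norm_real,
      Real.norm_eq_abs, Real.norm_eq_abs, abs_of_pos Real.pi_pos]
    simp
    ring
  have h5 : ‖ee (s * β) - ee (s * α)‖ ≤ 2 := by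
    refine (norm_sub_le _ _).trans ?_
    rw [norm_ee, norm_ee]
    norm_num
  have h6 : 0 < Real.pi * |s| := mul_pos Real.pi_pos (abs_pos.2 hs)
  rw [h4, div_le_div_iff₀ (by linarith) h6]
  nlinarith

lemma sinc_pow_le (N : ℕ) (x : ℝ) (hx : x ≠ 0) : |Real.sinc x| ^ N ≤ (1 / |x|) ^ N := by
  refine pow_le_pow_left₀ (abs_nonneg _) ?_ N
  rw [Real.sinc_of_ne_zero hx, abs_div]
  exact div_le_div_of_nonneg_right (Real.abs_sin_le_one x) (abs_nonneg x)

/-! ### Integrals -/

lemma dbl (S : Set ℝ) (hS : MeasurableSet S) (H : ℝ → ℝ≥0∞) :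
    ∫⁻ s in {s : ℝ | |s| ∈ S}, H |s| ≤ 2 * ∫⁻ s in S, H s := by
  have h0 : MeasurableSet (S ∩ Ici 0) := hS.inter measurableSet_Ici
  have hsub : {s : ℝ | |s| ∈ S} ⊆ (S ∩ Ici 0) ∪ Neg.neg ⁻¹' (S ∩ Ici 0) := by
    intro s hs
    rcases le_total 0 s with h | h
    · left
      rw [mem_ofPred_eq, abs_of_nonneg h] at hs
      exact ⟨hs, h⟩
    · right
      rw [mem_ofPred_eq, abs_of_nonpos h] at hs
      exact ⟨hs, neg_nonneg.2 h⟩
  have e1 : ∫⁻ s in S ∩ Ici 0, H |s| = ∫⁻ s in S ∩ Ici 0, H s := by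
    refine setLIntegral_congr_fun h0 fun s hs => ?_
    rw [abs_of_nonneg hs.2]
  have e2 : ∫⁻ s in Neg.neg ⁻¹' (S ∩ Ici 0), H |s| = ∫⁻ s in S ∩ Ici 0, H |s| := by
    rw [← lintegral_indicator h0, ← lintegral_indicator (measurable_neg h0),
      ← lintegral_neg_eq_self (fun s => (S ∩ Ici 0).indicator (fun s => H |s|) s)]
    congr 1
    funext s
    by_cases hs : -s ∈ S ∩ Ici 0
    · rw [indicator_of_mem hs, indicator_of_mem (show s ∈ Neg.neg ⁻¹' (S ∩ Ici 0) from hs),
        abs_neg]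
    · rw [indicator_of_notMem hs,
        indicator_of_notMem (show s ∉ Neg.neg ⁻¹' (S ∩ Ici 0) from hs)]
  calc ∫⁻ s in {s : ℝ | |s| ∈ S}, H |s|
      ≤ ∫⁻ s in (S ∩ Ici 0) ∪ Neg.neg ⁻¹' (S ∩ Ici 0), H |s| := lintegral_mono_set hsub
    _ ≤ (∫⁻ s in S ∩ Ici 0, H |s|) + ∫⁻ s in Neg.neg ⁻¹' (S ∩ Ici 0), H |s| :=
        lintegral_union_le _ _ _
    _ = 2 * ∫⁻ s in S ∩ Ici 0, H s := by rw [e2, e1, two_mul]
    _ ≤ 2 * ∫⁻ s in S, H s := by
        gcongr
        exact inter_subset_left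

lemma tail_int (N : ℕ) (hN : 2 ≤ N) (c : ℝ) (hc : 0 < c) :
    ∫⁻ s in Ioi c, ENNReal.ofReal (1 / (Real.pi * s) * (c / (Real.pi * s)) ^ N) ≤
      ENNReal.ofReal (1 / 2 ^ (N + 1)) := by
  have hpi := Real.pi_gt_three
  have hpos : 0 < Real.pi := Real.pi_pos
  have hN0 : (0 : ℝ) < N := by
    have : 0 < N := by omega
    exact_mod_cast this
  have ha : (-(N : ℝ) - 1) < -1 := by linarith
  have hfun : ∀ s ∈ Ioi c, 1 / (Real.pi * s) * (c / (Real.pi * s)) ^ N =
      (1 / Real.pi * (c / Real.pi) ^ N) * s ^ (-(N : ℝ) - 1) := by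
    intro s hs
    have hs0 : 0 < s := hc.trans hs
    have h1 : s ^ (-(N : ℝ) - 1) = (s ^ N)⁻¹ * s⁻¹ := by
      rw [Real.rpow_sub hs0, Real.rpow_neg hs0.le, Real.rpow_natCast, Real.rpow_one, div_eq_mul_inv]
    rw [h1, div_pow, div_pow, mul_pow]
    field_simp
  rw [setLIntegral_congr_fun measurableSet_Ioi
    (g := fun s => ENNReal.ofReal ((1 / Real.pi * (c / Real.pi) ^ N) * s ^ (-(N : ℝ) - 1)))
    fun s hs => by simp only [hfun s hs]]
  rw [← ofReal_integral_eq_lintegral_ofReal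
    ((integrableOn_Ioi_rpow_of_lt ha hc).const_mul _)]
  · refine ENNReal.ofReal_le_ofReal ?_
    rw [integral_const_mul, integral_Ioi_rpow_of_lt ha hc]
    have h2 : -c ^ (-(N : ℝ) - 1 + 1) / (-(N : ℝ) - 1 + 1) = (c ^ N)⁻¹ / N := by
      have h3 : (-(N : ℝ) - 1 + 1) = -N := by ring
      rw [h3, Real.rpow_neg hc.le, Real.rpow_natCast, neg_div_neg_eq]
    rw [h2, div_pow]
    have h4 : 1 / Real.pi * (c ^ N / Real.pi ^ N) * ((c ^ N)⁻¹ / N) =
        1 / (Real.pi * N * Real.pi ^ N) := by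
      have : c ^ N ≠ 0 := pow_ne_zero _ hc.ne'
      field_simp
    rw [h4]
    refine one_div_le_one_div_of_le (by positivity) ?_
    rw [pow_succ]
    have h5 : (2 : ℝ) ^ N ≤ Real.pi ^ N := pow_le_pow_left₀ (by norm_num) (by linarith) N
    have h6 : (2 : ℝ) ≤ N := by exact_mod_cast hN
    calc (2 : ℝ) ^ N * 2 = 2 * 2 ^ N := mul_comm _ _
      _ ≤ (Real.pi * N) * Real.pi ^ N := by
          refine mul_le_mul ?_ h5 (by positivity) (by positivity)
          nlinarith
  · filter_upwards [self_mem_ae_restrict measurableSet_Ioi] with s hs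
    have hs0 : 0 < s := hc.trans hs
    positivity

lemma mid_int (c d : ℝ) (hc : 0 < c) (hcd : c ≤ d) :
    ∫⁻ s in Ioc c d, ENNReal.ofReal (1 / (Real.pi * s)) =
      ENNReal.ofReal (1 / Real.pi * Real.log (d / c)) := by
  have hd : 0 < d := hc.trans_le hcd
  have hint : IntegrableOn (fun s : ℝ => 1 / (Real.pi * s)) (Ioc c d) := by
    refine (ContinuousOn.integrableOn_Icc ?_).mono_set Ioc_subset_Icc_self
    refine continuousOn_const.div (by fun_prop) fun s hs => ?_
    exact mul_ne_zero Real.pi_ne_zero (hc.trans_le hs.1).ne'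
  rw [← ofReal_integral_eq_lintegral_ofReal hint]
  · congr 1
    rw [← intervalIntegral.integral_of_le hcd]
    have h1 : ∀ s : ℝ, 1 / (Real.pi * s) = 1 / Real.pi * (1 / s) := fun s => by
      rw [one_div_mul_one_div]
    simp only [h1]
    rw [intervalIntegral.integral_const_mul, integral_one_div_of_pos hc hd]
  · filter_upwards [self_mem_ae_restrict measurableSet_Ioc] with s hs
    have hs0 : 0 < s := hc.trans hs.1
    positivity

end PSI_

open PSI_

theorem pPSI (hM : tMAV) : tPSI := by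
  intro N α β δ hN hδ hαβ
  have hN0 : (0 : ℝ) < N := by
    have : 0 < N := by omega
    exact_mod_cast this
  have hN2 : (2 : ℝ) ≤ N := by exact_mod_cast hN
  have hpi := Real.pi_gt_three
  have hpos : 0 < Real.pi := Real.pi_pos
  have hw : 0 < δ / N := div_pos hδ hN0
  have hNw : (N : ℝ) * (δ / N / 2) = δ / 2 := by
    field_simp
  obtain ⟨p1, -, p3, p4, p5, p6⟩ := iter hM (δ / N) (α + δ / 2) (β - δ / 2) hw N
  rw [hNw] at p4 p5
  have hle : α + δ / 2 ≤ β - δ / 2 := by linarith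
  -- pointwise bounds for the transform
  have hnorm : ∀ s, ‖Ex1 (fun ζ => (psi N α β δ ζ : ℂ)) s‖ =
      |Real.sinc (Real.pi * (δ / N) * s)| ^ N * ‖Ex1 (fun ζ =>
        (((Icc (α + δ / 2) (β - δ / 2)).indicator (1 : ℝ → ℝ) ζ : ℝ) : ℂ)) s‖ := by
    intro s
    have := p6 s
    rw [psi, this, norm_mul, norm_pow, Complex.norm_real, Real.norm_eq_abs]
  have hsinc : ∀ s, |Real.sinc (Real.pi * (δ / N) * s)| ^ N ≤ 1 := fun s =>
    pow_le_one₀ (abs_nonneg _) (Real.abs_sinc_le_one _)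
  have hB1 : ∀ s, ‖Ex1 (fun ζ => (psi N α β δ ζ : ℂ)) s‖ ≤ β - α := by
    intro s
    rw [hnorm]
    refine (mul_le_of_le_one_left (norm_nonneg _) (hsinc s)).trans ?_
    refine (Ex1_ind_le _ _ s hle).trans ?_
    linarith
  have hB2 : ∀ s, s ≠ 0 → ‖Ex1 (fun ζ => (psi N α β δ ζ : ℂ)) s‖ ≤ 1 / (Real.pi * |s|) := by
    intro s hs
    rw [hnorm]
    exact (mul_le_of_le_one_left (norm_nonneg _) (hsinc s)).trans (Ex1_ind_le' _ _ s hle hs)
  have hB3 : ∀ s, s ≠ 0 → ‖Ex1 (fun ζ => (psi N α β δ ζ : ℂ)) s‖ ≤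
      1 / (Real.pi * |s|) * ((N / δ) / (Real.pi * |s|)) ^ N := by
    intro s hs
    rw [hnorm, mul_comm]
    refine mul_le_mul (Ex1_ind_le' _ _ s hle hs) ?_ (by positivity) (by positivity)
    have hx : Real.pi * (δ / N) * s ≠ 0 :=
      mul_ne_zero (mul_ne_zero hpos.ne' hw.ne') hs
    refine (sinc_pow_le N _ hx).trans_eq ?_
    congr 1
    rw [abs_mul, abs_mul, abs_of_pos hpos, abs_of_pos hw]
    have : |s| ≠ 0 := abs_ne_zero.2 hs
    field_simp
  have hc : 0 < (N : ℝ) / δ := div_pos hN0 hδ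
  have htail : ∫⁻ s in {s : ℝ | N / δ < |s|}, ‖Ex1 (fun ζ => (psi N α β δ ζ : ℂ)) s‖ₑ ≤
      ENNReal.ofReal (1 / 2 ^ N) := by
    have hset : {s : ℝ | N / δ < |s|} = {s : ℝ | |s| ∈ Ioi ((N : ℝ) / δ)} := rfl
    have hms : MeasurableSet {s : ℝ | |s| ∈ Ioi ((N : ℝ) / δ)} :=
      measurableSet_Ioi.preimage (measurable_norm (α := ℝ))
    rw [hset]
    calc ∫⁻ s in {s : ℝ | |s| ∈ Ioi ((N : ℝ) / δ)}, ‖Ex1 (fun ζ => (psi N α β δ ζ : ℂ)) s‖ₑ
        ≤ ∫⁻ s in {s : ℝ | |s| ∈ Ioi ((N : ℝ) / δ)}, (fun r : ℝ => ENNReal.ofReal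
            (1 / (Real.pi * r) * ((N / δ) / (Real.pi * r)) ^ N)) |s| := by
          refine setLIntegral_mono' hms fun s hs => ?_
          have hs0 : s ≠ 0 := by
            rintro rfl
            have h : (N : ℝ) / δ < |(0 : ℝ)| := hs
            rw [abs_zero] at h
            linarith
          rw [← ofReal_norm]
          exact ENNReal.ofReal_le_ofReal (hB3 s hs0)
      _ ≤ 2 * ∫⁻ r in Ioi ((N : ℝ) / δ), ENNReal.ofReal
            (1 / (Real.pi * r) * ((N / δ) / (Real.pi * r)) ^ N) :=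
          dbl _ measurableSet_Ioi _
      _ ≤ 2 * ENNReal.ofReal (1 / 2 ^ (N + 1)) := by
          gcongr
          exact tail_int N hN _ hc
      _ = ENNReal.ofReal (1 / 2 ^ N) := by
          have h2 : (2 : ℝ≥0∞) = ENNReal.ofReal 2 := by simp
          rw [h2, ← ENNReal.ofReal_mul (by norm_num)]
          congr 1
          rw [pow_succ]
          field_simp
  refine ⟨p1, p3, fun x h1 h2 => p4 x (by linarith) (by linarith), fun x hx => p5 x ?_, htail, ?_⟩
  · rcases hx with hx | hx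
    · left; linarith
    · right; linarith
  · -- total mass
    have hba : 0 < β - α := by linarith
    set s0 : ℝ := 1 / (β - α) with hs0
    have hs0pos : 0 < s0 := by positivity
    have hs01 : s0 ≤ N / δ := by
      rw [hs0, div_le_div_iff₀ hba hδ]
      nlinarith
    have hratio : N / δ / s0 = N * (β - α) / δ := by
      rw [hs0]
      field_simp
    have hlog : 0 ≤ Real.log (N * (β - α) / δ) := by
      refine Real.log_nonneg ?_
      rw [le_div_iff₀ hδ]
      nlinarith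
    have hcover : (univ : Set ℝ) ⊆ {s : ℝ | |s| ∈ Icc 0 s0} ∪
        ({s : ℝ | |s| ∈ Ioc s0 (N / δ)} ∪ {s : ℝ | N / δ < |s|}) := by
      intro s _
      rcases le_or_gt |s| s0 with h | h
      · left; exact ⟨abs_nonneg s, h⟩
      · right
        rcases le_or_gt |s| (N / δ) with h' | h'
        · left; exact ⟨h, h'⟩
        · right; exact h'
    have hms1 : MeasurableSet {s : ℝ | |s| ∈ Icc 0 s0} :=
      measurableSet_Icc.preimage (measurable_norm (α := ℝ))
    have hms2 : MeasurableSet {s : ℝ | |s| ∈ Ioc s0 (N / δ)} :=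
      measurableSet_Ioc.preimage (measurable_norm (α := ℝ))
    have hA : ∫⁻ s in {s : ℝ | |s| ∈ Icc 0 s0}, ‖Ex1 (fun ζ => (psi N α β δ ζ : ℂ)) s‖ₑ ≤
        ENNReal.ofReal 2 := by
      calc ∫⁻ s in {s : ℝ | |s| ∈ Icc 0 s0}, ‖Ex1 (fun ζ => (psi N α β δ ζ : ℂ)) s‖ₑ
          ≤ ∫⁻ s in {s : ℝ | |s| ∈ Icc 0 s0},
              (fun _ : ℝ => ENNReal.ofReal (β - α)) |s| := by
            refine setLIntegral_mono' hms1 fun s _ => ?_
            rw [← ofReal_norm]
            exact ENNReal.ofReal_le_ofReal (hB1 s)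
        _ ≤ 2 * ∫⁻ _ in Icc 0 s0, ENNReal.ofReal (β - α) :=
            dbl _ measurableSet_Icc _
        _ = ENNReal.ofReal 2 := by
            rw [lintegral_const, Measure.restrict_apply_univ, Real.volume_Icc, sub_zero,
              ← ENNReal.ofReal_mul hba.le]
            have h2 : (2 : ℝ≥0∞) = ENNReal.ofReal 2 := by simp
            have h3 : (β - α) * s0 = 1 := by
              rw [hs0]
              field_simp
            rw [h3, h2, ← ENNReal.ofReal_mul (by norm_num), mul_one]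
    have hB : ∫⁻ s in {s : ℝ | |s| ∈ Ioc s0 (N / δ)},
        ‖Ex1 (fun ζ => (psi N α β δ ζ : ℂ)) s‖ₑ ≤
        ENNReal.ofReal (Real.log (N * (β - α) / δ)) := by
      calc ∫⁻ s in {s : ℝ | |s| ∈ Ioc s0 (N / δ)}, ‖Ex1 (fun ζ => (psi N α β δ ζ : ℂ)) s‖ₑ
          ≤ ∫⁻ s in {s : ℝ | |s| ∈ Ioc s0 (N / δ)},
              (fun r : ℝ => ENNReal.ofReal (1 / (Real.pi * r))) |s| := by
            refine setLIntegral_mono' hms2 fun s hs => ?_
            have hs0' : s ≠ 0 := by
              rintro rfl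
              have h : s0 < |(0 : ℝ)| := hs.1
              rw [abs_zero] at h
              linarith
            rw [← ofReal_norm]
            exact ENNReal.ofReal_le_ofReal (hB2 s hs0')
        _ ≤ 2 * ∫⁻ r in Ioc s0 (N / δ), ENNReal.ofReal (1 / (Real.pi * r)) :=
            dbl _ measurableSet_Ioc _
        _ = ENNReal.ofReal (2 * (1 / Real.pi * Real.log (N * (β - α) / δ))) := by
            rw [mid_int s0 (N / δ) hs0pos hs01, hratio]
            have h2 : (2 : ℝ≥0∞) = ENNReal.ofReal 2 := by simp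
            rw [h2, ← ENNReal.ofReal_mul (by norm_num)]
        _ ≤ ENNReal.ofReal (Real.log (N * (β - α) / δ)) := by
            refine ENNReal.ofReal_le_ofReal ?_
            have h1 : 1 / Real.pi ≤ 1 / 2 :=
              one_div_le_one_div_of_le (by norm_num) (by linarith)
            nlinarith
    calc ∫⁻ s, ‖Ex1 (fun ζ => (psi N α β δ ζ : ℂ)) s‖ₑ
        = ∫⁻ s in (univ : Set ℝ), ‖Ex1 (fun ζ => (psi N α β δ ζ : ℂ)) s‖ₑ := by
          rw [setLIntegral_univ]
      _ ≤ ∫⁻ s in {s : ℝ | |s| ∈ Icc 0 s0} ∪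
          ({s : ℝ | |s| ∈ Ioc s0 (N / δ)} ∪ {s : ℝ | N / δ < |s|}),
            ‖Ex1 (fun ζ => (psi N α β δ ζ : ℂ)) s‖ₑ := lintegral_mono_set hcover
      _ ≤ (∫⁻ s in {s : ℝ | |s| ∈ Icc 0 s0}, ‖Ex1 (fun ζ => (psi N α β δ ζ : ℂ)) s‖ₑ) +
          ((∫⁻ s in {s : ℝ | |s| ∈ Ioc s0 (N / δ)},
            ‖Ex1 (fun ζ => (psi N α β δ ζ : ℂ)) s‖ₑ) +
          ∫⁻ s in {s : ℝ | N / δ < |s|}, ‖Ex1 (fun ζ => (psi N α β δ ζ : ℂ)) s‖ₑ) := by
          refine (lintegral_union_le _ _ _).trans ?_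
          gcongr
          exact lintegral_union_le _ _ _
      _ ≤ ENNReal.ofReal 2 + (ENNReal.ofReal (Real.log (N * (β - α) / δ)) +
          ENNReal.ofReal (1 / 2 ^ N)) := by gcongr
      _ ≤ ENNReal.ofReal (4 + Real.log (N * (β - α) / δ)) := by
          rw [← ENNReal.ofReal_add hlog (by positivity),
            ← ENNReal.ofReal_add (by norm_num) (by positivity)]
          refine ENNReal.ofReal_le_ofReal ?_
          have h1 : (1 : ℝ) / 2 ^ N ≤ 1 := by
            rw [div_le_one (by positivity)]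
            exact one_le_pow₀ (by norm_num)
          linarith

end Pool.Agent.LLog
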