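import Pool.Agent.LLog.Targets

set_option autoImplicit false

/-! MP_ee701d_an, weak (2,2) bound: REC, records of random priorities.

Priorities: all permutations of `T`.  For a decreasing chain `S 0, S 1, ...` the sum over the
permutations of `2 ^ #{i : label of S i not in S (i+1)}` is at most `(card (S 0) + 1) (card T)!`. -/

namespace Pool.Agent.LLog

namespace REC_

open Finset Equiv

variable {X : Type} [Fintype X] [DecidableEq X]

/-- the largest element of `A` is not in `B` -/
def ev (p : X → ℕ) (A B : Finset X) : Prop := ∃ t, t ∈ A ∧ (∀ t' ∈ A, p t' ≤ p t) ∧ t ∉ B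

/-- permutations moving only elements of `A` -/
def G (A : Finset X) : Finset (Perm X) := by
  classical exact univ.filter (fun σ => ∀ t, t ∉ A → σ t = t)

theorem mem_G (A : Finset X) (σ : Perm X) : σ ∈ G A ↔ ∀ t, t ∉ A → σ t = t := by
  simp [G]

theorem one_mem_G (A : Finset X) : (1 : Perm X) ∈ G A := by simp [mem_G]

theorem G_mono {A B : Finset X} (h : A ⊆ B) : G A ⊆ G B := fun σ hσ => by
  rw [mem_G] at hσ ⊢
  exact fun t ht => hσ t (fun h' => ht (h h'))

theorem mul_mem_G {A : Finset X} {σ τ : Perm X} (h1 : σ ∈ G A) (h2 : τ ∈ G A) : σ * τ ∈ G A := by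
  rw [mem_G] at *
  intro t ht
  rw [Perm.mul_apply, h2 t ht, h1 t ht]

theorem inv_mem_G {A : Finset X} {σ : Perm X} (h1 : σ ∈ G A) : σ⁻¹ ∈ G A := by
  rw [mem_G] at *
  intro t ht
  rw [Perm.inv_eq_iff_eq]
  exact (h1 t ht).symm

/-- a permutation in `G A` maps `A` to `A` -/
theorem apply_mem {A : Finset X} {σ : Perm X} (h : σ ∈ G A) {t : X} (ht : t ∈ A) : σ t ∈ A := by
  by_contra h'
  have h2 := (mem_G A σ).1 h (σ t) h'
  exact h' (by rw [σ.injective h2]; exact ht)

/-- averaging over a subgroup -/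
theorem sum_avg (A B : Finset X) (h : B ⊆ A) (f : Perm X → ℕ) :
    (G B).card * ∑ σ ∈ G A, f σ = ∑ σ ∈ G A, ∑ τ ∈ G B, f (σ * τ) := by
  rw [Finset.sum_comm, ← smul_eq_mul, ← Finset.sum_const]
  refine Finset.sum_congr rfl fun τ hτ => ?_
  have hτ' := G_mono h hτ
  refine Finset.sum_bij' (fun σ _ => σ * τ⁻¹) (fun σ _ => σ * τ)
    (fun σ hσ => mul_mem_G hσ (inv_mem_G hτ')) (fun σ hσ => mul_mem_G hσ hτ')
    (fun σ _ => by simp) (fun σ _ => by simp) (fun σ _ => by simp)

theorem ev_mul {A B : Finset X} (h : B ⊆ A) (p : X → ℕ) {τ : Perm X} (hτ : τ ∈ G B)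
    (h1 : ev (p ∘ τ) A B) : ev p A B := by
  obtain ⟨t, ht, hmax, htB⟩ := h1
  have e := (mem_G B τ).1 hτ t htB
  refine ⟨t, ht, fun t' ht' => ?_, htB⟩
  have := hmax (τ⁻¹ t') (apply_mem (inv_mem_G (G_mono h hτ)) ht')
  simpa [Function.comp, e] using this

theorem ev_mul_iff {A B : Finset X} (h : B ⊆ A) (p : X → ℕ) {τ : Perm X} (hτ : τ ∈ G B) :
    ev (p ∘ τ) A B ↔ ev p A B := by
  refine ⟨ev_mul h p hτ, fun h1 => ev_mul h (p ∘ τ) (inv_mem_G hτ) ?_⟩
  have : (p ∘ τ) ∘ (τ⁻¹ : Perm X) = p := by
    funext x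
    simp
  rw [this]
  exact h1

open Classical in
/-- number of permutations for which the largest element of `A` is not in `B` -/
theorem card_ev {A B : Finset X} (h : B ⊆ A) (p : X → ℕ) (hp : Function.Injective p)
    (hA : A.Nonempty) :
    A.card * ((G A).filter (fun σ : Perm X => ev (p ∘ σ) A B)).card ≤ (A.card - B.card) * (G A).card := by
  obtain ⟨m, hm, hmax⟩ := A.exists_max_image p hA
  have hc : ∀ t ∈ A, ∀ t' ∈ A, ((G A).filter (fun σ : Perm X => σ⁻¹ m = t)).card =
      ((G A).filter (fun σ : Perm X => σ⁻¹ m = t')).card := by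
    intro t ht t' ht'
    have hs : swap t t' ∈ G A := by
      rw [mem_G]
      intro x hx
      exact swap_apply_of_ne_of_ne (fun e => hx (e ▸ ht)) (fun e => hx (e ▸ ht'))
    refine Finset.card_bij' (fun σ _ => σ * swap t t') (fun σ _ => σ * swap t t') ?_ ?_ ?_ ?_
    · intro σ hσ
      rw [mem_filter] at hσ ⊢
      refine ⟨mul_mem_G hσ.1 hs, ?_⟩
      rw [mul_inv_rev, Perm.mul_apply, hσ.2, swap_inv, swap_apply_left]
    · intro σ hσ
      rw [mem_filter] at hσ ⊢
      refine ⟨mul_mem_G hσ.1 hs, ?_⟩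
      rw [mul_inv_rev, Perm.mul_apply, hσ.2, swap_inv, swap_apply_right]
    · intro σ _
      simp [mul_assoc]
    · intro σ _
      simp [mul_assoc]
  have htot : (G A).card = ∑ t ∈ A, ((G A).filter (fun σ : Perm X => σ⁻¹ m = t)).card :=
    Finset.card_eq_sum_card_fiberwise (fun σ hσ => apply_mem (inv_mem_G hσ) hm)
  have hcm : ∀ t ∈ A, A.card * ((G A).filter (fun σ : Perm X => σ⁻¹ m = t)).card = (G A).card := by
    intro t ht
    rw [htot, ← smul_eq_mul, ← Finset.sum_const]
    exact Finset.sum_congr rfl fun t' ht' => hc t ht t' ht'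
  have hsub : (G A).filter (fun σ : Perm X => ev (p ∘ σ) A B) ⊆
      (A \ B).biUnion (fun t => (G A).filter (fun σ : Perm X => σ⁻¹ m = t)) := by
    intro σ hσ
    rw [mem_filter] at hσ
    obtain ⟨hσ, t, ht, hmx, htB⟩ := hσ
    rw [mem_biUnion]
    refine ⟨t, mem_sdiff.2 ⟨ht, htB⟩, mem_filter.2 ⟨hσ, ?_⟩⟩
    have h1 : p m ≤ p (σ t) := by
      have := hmx (σ⁻¹ m) (apply_mem (inv_mem_G hσ) hm)
      simpa using this
    have h2 : p (σ t) ≤ p m := hmax _ (apply_mem hσ ht)
    rw [Perm.inv_eq_iff_eq]
    exact (hp (le_antisymm h2 h1)).symm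
  calc A.card * ((G A).filter (fun σ : Perm X => ev (p ∘ σ) A B)).card
      ≤ A.card * ∑ t ∈ A \ B, ((G A).filter (fun σ : Perm X => σ⁻¹ m = t)).card :=
        Nat.mul_le_mul_left _ ((card_le_card hsub).trans card_biUnion_le)
    _ = ∑ t ∈ A \ B, (G A).card := by
        rw [Finset.mul_sum]
        exact Finset.sum_congr rfl fun t ht => hcm t (mem_sdiff.1 ht).1
    _ = (A.card - B.card) * (G A).card := by
        rw [Finset.sum_const, smul_eq_mul, card_sdiff_of_subset h]

open Classical in
/-- number of steps at which the largest element leaves -/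
noncomputable def cnt (p : X → ℕ) (S : ℕ → Finset X) (n : ℕ) : ℕ :=
  ((range n).filter (fun i => ev p (S i) (S (i + 1)))).card

open Classical in
omit [Fintype X] [DecidableEq X] in
theorem cnt_succ (p : X → ℕ) (S : ℕ → Finset X) (n : ℕ) :
    cnt p S (n + 1) = cnt p (fun i => S (i + 1)) n + (if ev p (S 0) (S 1) then 1 else 0) := by
  unfold cnt
  rw [Finset.card_filter, Finset.sum_range_succ', Finset.card_filter]

theorem main (n : ℕ) : ∀ (S : ℕ → Finset X), (∀ i, S (i + 1) ⊆ S i) → ∀ p : X → ℕ,
    Function.Injective p →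
    ∑ σ ∈ G (S 0), 2 ^ cnt (p ∘ σ) S n ≤ ((S 0).card + 1) * (G (S 0)).card := by
  classical
  induction n with
  | zero =>
    intro S _ p _
    simp only [cnt, range_zero, filter_empty, card_empty, pow_zero, sum_const, smul_eq_mul,
      mul_one]
    nlinarith
  | succ n ih =>
    intro S hS p hp
    have h01 : S 1 ⊆ S 0 := hS 0
    rcases (S 0).eq_empty_or_nonempty with h0 | h0
    · have hz : ∀ i, S i = ∅ := by
        intro i
        induction i with
        | zero => exact h0
        | succ i hi => exact subset_empty.1 (hi ▸ hS i)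
      have hc : ∀ q : X → ℕ, cnt q S (n + 1) = 0 := by
        intro q
        unfold cnt
        rw [card_eq_zero, filter_eq_empty_iff]
        rintro i - ⟨t, ht, -⟩
        rw [hz i] at ht
        simp at ht
      simp only [hc, pow_zero, sum_const, smul_eq_mul, mul_one]
      nlinarith
    · have hpos : 0 < (S 0).card := card_pos.2 h0
      have hle : (S 1).card ≤ (S 0).card := card_le_card h01
      have hG1 : 0 < (G (S 1)).card := card_pos.2 ⟨1, one_mem_G _⟩
      set Ev := (G (S 0)).filter (fun σ : Perm X => ev (p ∘ σ) (S 0) (S 1)) with hEv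
      have key : (G (S 1)).card * ∑ σ ∈ G (S 0), 2 ^ cnt (p ∘ σ) S (n + 1) ≤
          (G (S 1)).card * (((S 1).card + 1) * ((G (S 0)).card + Ev.card)) := by
        rw [sum_avg (S 0) (S 1) h01]
        have hin : ∀ σ ∈ G (S 0), ∑ τ ∈ G (S 1), 2 ^ cnt (p ∘ ((σ * τ : Perm X))) S (n + 1) ≤
            (((S 1).card + 1) * (G (S 1)).card) * (1 + if ev (p ∘ σ) (S 0) (S 1) then 1 else 0) := by
          intro σ _
          have e : ∀ τ ∈ G (S 1), 2 ^ cnt (p ∘ ((σ * τ : Perm X))) S (n + 1) =
              2 ^ cnt ((p ∘ σ) ∘ τ) (fun i => S (i + 1)) n *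
                (1 + if ev (p ∘ σ) (S 0) (S 1) then 1 else 0) := by
            intro τ hτ
            have e1 : p ∘ ((σ * τ : Perm X)) = (p ∘ σ) ∘ τ := rfl
            rw [e1, cnt_succ, pow_add]
            congr 1
            simp only [ev_mul_iff h01 (p ∘ σ) hτ]
            split_ifs <;> simp
          rw [Finset.sum_congr rfl e, ← Finset.sum_mul]
          exact Nat.mul_le_mul_right _
            (ih (fun i => S (i + 1)) (fun i => hS (i + 1)) (p ∘ σ) (hp.comp σ.injective))
        refine (Finset.sum_le_sum hin).trans (le_of_eq ?_)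
        rw [← Finset.mul_sum, Finset.sum_add_distrib, ← Finset.card_filter, ← hEv]
        simp only [sum_const, smul_eq_mul, mul_one]
        ring
      have key2 := Nat.le_of_mul_le_mul_left key hG1
      have h3 := card_ev h01 p hp h0
      rw [← hEv] at h3
      obtain ⟨d, hd⟩ : ∃ d, (S 0).card = (S 1).card + d := ⟨_, (Nat.add_sub_cancel' hle).symm⟩
      rw [hd, Nat.add_sub_cancel_left] at h3
      have h4 : (S 0).card * ∑ σ ∈ G (S 0), 2 ^ cnt (p ∘ σ) S (n + 1) ≤
          (S 0).card * (((S 0).card + 1) * (G (S 0)).card) := by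
        refine (Nat.mul_le_mul_left _ key2).trans ?_
        rw [hd]
        have h5 : ((S 1).card + d) * (((S 1).card + 1) * ((G (S 0)).card + Ev.card)) ≤
            ((S 1).card + 1) * ((S 1).card + d) * (G (S 0)).card +
              ((S 1).card + 1) * (d * (G (S 0)).card) := by
          calc ((S 1).card + d) * (((S 1).card + 1) * ((G (S 0)).card + Ev.card))
              = ((S 1).card + 1) * ((S 1).card + d) * (G (S 0)).card +
                ((S 1).card + 1) * (((S 1).card + d) * Ev.card) := by ring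
            _ ≤ _ := Nat.add_le_add_left (Nat.mul_le_mul_left _ h3) _
        refine h5.trans ?_
        have hdd : d ≤ d * d := by
          rcases Nat.eq_zero_or_pos d with h | h
          · simp [h]
          · exact Nat.le_mul_of_pos_left d h
        have h6 : ((S 1).card + 1) * ((S 1).card + d) + ((S 1).card + 1) * d ≤
            ((S 1).card + d) * ((S 1).card + d + 1) := by nlinarith
        calc ((S 1).card + 1) * ((S 1).card + d) * (G (S 0)).card +
              ((S 1).card + 1) * (d * (G (S 0)).card)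
            = (((S 1).card + 1) * ((S 1).card + d) + ((S 1).card + 1) * d) * (G (S 0)).card := by
              ring
          _ ≤ (((S 1).card + d) * ((S 1).card + d + 1)) * (G (S 0)).card :=
              Nat.mul_le_mul_right _ h6
          _ = _ := by ring
      exact Nat.le_of_mul_le_mul_left h4 hpos

/-- the same for all permutations -/
theorem main_all (n : ℕ) (S : ℕ → Finset X) (hS : ∀ i, S (i + 1) ⊆ S i) (p : X → ℕ)
    (hp : Function.Injective p) :
    ∑ σ : Perm X, 2 ^ cnt (p ∘ (σ : X → X)) S n ≤ ((S 0).card + 1) * Fintype.card (Perm X) := by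
  have hu : G (univ : Finset X) = univ := by
    ext σ
    simp [mem_G]
  have hpos : 0 < (G (S 0)).card := card_pos.2 ⟨1, one_mem_G _⟩
  refine Nat.le_of_mul_le_mul_left (c := (G (S 0)).card) ?_ hpos
  have h1 := sum_avg (univ : Finset X) (S 0) (subset_univ _) (fun σ : Perm X => 2 ^ cnt (p ∘ σ) S n)
  rw [hu] at h1
  rw [h1]
  refine (Finset.sum_le_sum fun (σ : Perm X) _ => main n S hS (p ∘ σ) (hp.comp σ.injective)).trans ?_
  simp only [sum_const, smul_eq_mul, Finset.card_univ]
  exact le_of_eq (by ring)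

end REC_

open REC_ Finset in
/-- F8 random priorities: number of records of a decreasing sequence of sets -/
theorem pREC : tREC := by
  classical
  intro T M
  let e := Fintype.equivFin {t // t ∈ T}
  let p : {t // t ∈ T} → ℕ := fun t => (e t).val
  have hp : Function.Injective p := fun a b h => e.injective (Fin.ext h)
  let F : Equiv.Perm {t // t ∈ T} → Top → ℕ := fun σ t => if h : t ∈ T then p (σ ⟨t, h⟩) else 0
  have hF : ∀ (σ : Equiv.Perm {t // t ∈ T}) (t : {t // t ∈ T}), F σ t.1 = p (σ t) := by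
    intro σ t
    simp only [F, dif_pos t.2]
  have hFi : Function.Injective F := by
    intro σ τ h
    ext1 t
    apply hp
    rw [← hF, ← hF, h]
  refine ⟨univ.image F, ⟨F 1, mem_image_of_mem _ (mem_univ _)⟩, ?_, ?_⟩
  · intro pr hpr t ht t' ht' h
    obtain ⟨σ, -, rfl⟩ := mem_image.1 hpr
    have h1 : p (σ ⟨t, ht⟩) = p (σ ⟨t', ht'⟩) := by
      rw [← hF, ← hF]
      exact h
    exact congrArg Subtype.val (σ.injective (hp h1))
  · intro n K S hST hM hS
    have hsub : ∀ i, S i ⊆ T := by
      intro i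
      induction i with
      | zero => exact hST
      | succ i hi => exact (hS i).trans hi
    let S' : ℕ → Finset {t // t ∈ T} := fun i => (S i).subtype (fun t => t ∈ T)
    have hS' : ∀ i, S' (i + 1) ⊆ S' i := by
      intro i t ht
      simp only [S', mem_subtype] at ht ⊢
      exact hS i ht
    have hcard : (S' 0).card ≤ M := by
      refine le_trans ?_ hM
      simp only [S', card_subtype]
      exact card_filter_le _ _
    have hev : ∀ (σ : Equiv.Perm {t // t ∈ T}) (i : ℕ),
        (∃ t, Lb (F σ) (S i) t ∧ t ∉ S (i + 1)) ↔ ev (p ∘ σ) (S' i) (S' (i + 1)) := by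
      intro σ i
      constructor
      · rintro ⟨t, ⟨ht, hmax⟩, ht2⟩
        refine ⟨⟨t, hsub i ht⟩, by simpa [S'] using ht, fun t' ht' => ?_, by simpa [S'] using ht2⟩
        have := hmax t'.1 (by simpa [S'] using ht')
        rw [hF] at this
        have h2 := hF σ ⟨t, hsub i ht⟩
        simp only at h2
        rw [h2] at this
        exact this
      · rintro ⟨t, ht, hmax, ht2⟩
        refine ⟨t.1, ⟨by simpa [S'] using ht, fun t' ht' => ?_⟩, by simpa [S'] using ht2⟩
        have := hmax ⟨t', hsub i ht'⟩ (by simpa [S'] using ht')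
        rw [hF]
        have h2 := hF σ ⟨t', hsub i ht'⟩
        simp only at h2
        rw [h2]
        exact this
    have hcnt : ∀ σ : Equiv.Perm {t // t ∈ T}, ((range n).filter (fun i =>
        ∃ t, Lb (F σ) (S i) t ∧ t ∉ S (i + 1))).card = cnt (p ∘ σ) S' n := by
      intro σ
      unfold cnt
      congr 1
      exact filter_congr fun i _ => hev σ i
    have h1 : ((univ.image F).filter (fun pr => K ≤ ((Finset.range n).filter (fun i =>
        ∃ t, Lb pr (S i) t ∧ t ∉ S (i + 1))).card)).card * 2 ^ K ≤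
        ∑ pr ∈ univ.image F, 2 ^ ((Finset.range n).filter (fun i =>
        ∃ t, Lb pr (S i) t ∧ t ∉ S (i + 1))).card := by
      rw [← smul_eq_mul, ← sum_const]
      refine (sum_le_sum (g := fun pr => 2 ^ ((Finset.range n).filter (fun i =>
        ∃ t, Lb pr (S i) t ∧ t ∉ S (i + 1))).card) fun pr hpr => ?_).trans
        (sum_le_sum_of_subset (filter_subset _ _))
      exact Nat.pow_le_pow_right (by norm_num) (mem_filter.1 hpr).2
    refine h1.trans ?_
    rw [sum_image (fun a _ b _ h => hFi h), card_image_of_injective _ hFi]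
    simp only [hcnt]
    refine (main_all n S' hS' p hp).trans ?_
    rw [Finset.card_univ]
    refine Nat.mul_le_mul_right _ ?_
    omega

end Pool.Agent.LLog
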