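import Pool.Agent.LLog.Targets

set_option autoImplicit false

/-! LLG-RMQ: Rademacher-Menshov for quadratic functionals. -/

namespace Pool.Agent.LLog.RMQ_

open Set
open scoped ENNReal

/-- smallest multiple of `2^s` greater than `j` -/
def xx (s j : ℕ) : ℕ := (j / 2 ^ s + 1) * 2 ^ s

lemma xx_zero (j : ℕ) : xx 0 j = j + 1 := by simp [xx]

lemma lt_xx (s j : ℕ) : j < xx s j := by
  unfold xx
  have h := Nat.div_add_mod j (2 ^ s)
  have h2 : j % 2 ^ s < 2 ^ s := Nat.mod_lt _ (by positivity)
  nlinarith [mul_comm (2 ^ s) (j / 2 ^ s)]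

lemma xx_top {n j : ℕ} (h : j < 2 ^ n) : xx n j = 2 ^ n := by
  simp [xx, Nat.div_eq_of_lt h]

lemma xx_succ (s j : ℕ) :
    xx (s + 1) j = if (j / 2 ^ s) % 2 = 0 then xx s j + 2 ^ s else xx s j := by
  unfold xx
  have h1 : j / 2 ^ (s + 1) = (j / 2 ^ s) / 2 := by
    rw [pow_succ, Nat.div_div_eq_div_mul]
  rw [h1]
  have h2 := Nat.div_add_mod (j / 2 ^ s) 2
  split_ifs with h
  · generalize hb : j / 2 ^ s / 2 = c at *
    have h3 : j / 2 ^ s = 2 * c := by omega
    rw [h3, pow_succ]; ring
  · generalize hb : j / 2 ^ s / 2 = c at *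
    have h3 : j / 2 ^ s = 2 * c + 1 := by omega
    rw [h3, pow_succ]; ring

/-- pieces -/
noncomputable def vv (D s j : ℕ) : ℕ → ℂ :=
  if (j / 2 ^ s) % 2 = 0 then (Ico (xx s j) (min (xx s j + 2 ^ s) D)).indicator 1 else 0

lemma part (D j : ℕ) (n : ℕ) :
    ∑ s ∈ Finset.range n, vv D s j = (Ico (j + 1) (min (xx n j) D)).indicator 1 := by
  induction n with
  | zero =>
    rw [Finset.sum_range_zero, xx_zero]
    funext d
    rw [Pi.zero_apply, indicator_of_notMem]
    simp only [mem_Ico, not_and, not_lt]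
    intro h
    exact (min_le_left _ _).trans h
  | succ n ih =>
    rw [Finset.sum_range_succ, ih, xx_succ]
    unfold vv
    split_ifs with h
    · funext d
      have h1 := lt_xx n j
      have h0 : 0 < 2 ^ n := by positivity
      simp only [Pi.add_apply, indicator, mem_Ico, lt_min_iff, Pi.one_apply]
      by_cases a1 : j + 1 ≤ d <;> by_cases a2 : d < xx n j <;> by_cases a3 : d < D <;>
        by_cases a4 : d < xx n j + 2 ^ n <;> by_cases a5 : xx n j ≤ d <;>
        simp [a1, a2, a3, a4, a5] <;> omega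
    · simp

theorem main (D n : ℕ) (B : ℝ≥0∞) (q : ℕ → (ℕ → ℂ) → ℝ≥0∞) (w : ℕ → ℝ≥0∞) (hD : D ≤ 2 ^ n)
    (hq : ∀ j (F : Finset ℕ) (v : ℕ → ℕ → ℂ), q j (∑ i ∈ F, v i) ≤ F.card * ∑ i ∈ F, q j (v i))
    (hB : ∀ α β, α < β → β ≤ D → ∑ j ∈ Finset.range α, q j ((Ico α β).indicator 1) ≤
      B * ∑ d ∈ Finset.Ico α β, w d) :
    ∑ j ∈ Finset.range D, q j ((Ioo j D).indicator 1) ≤
      B * (n + 1) ^ 2 * ∑ d ∈ Finset.range D, w d := by
  have q0 : ∀ j, q j 0 = 0 := by
    intro j
    have := hq j ∅ (fun _ => 0)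
    simpa using this
  -- one scale
  have hs : ∀ s, ∑ j ∈ Finset.range D, q j (vv D s j) ≤ B * ∑ d ∈ Finset.range D, w d := by
    intro s
    set t : ℕ → ℕ → ℝ≥0∞ := fun j k => if j < k * 2 ^ s ∧ k * 2 ^ s < D then
      q j ((Ico (k * 2 ^ s) (min (k * 2 ^ s + 2 ^ s) D)).indicator 1) else 0 with ht
    have h1 : ∀ j ∈ Finset.range D, q j (vv D s j) ≤ ∑ k ∈ Finset.range D, t j k := by
      intro j hj
      unfold vv
      split_ifs with h
      · by_cases h2 : xx s j < D
        · have h3 : j / 2 ^ s + 1 ∈ Finset.range D := by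
            rw [Finset.mem_range]
            refine lt_of_le_of_lt ?_ h2
            unfold xx
            exact Nat.le_mul_of_pos_right _ (by positivity)
          refine le_trans ?_ (Finset.single_le_sum (f := t j) (fun _ _ => zero_le) h3)
          simp only [ht]
          rw [if_pos ⟨lt_xx s j, h2⟩]
          rfl
        · have : (Ico (xx s j) (min (xx s j + 2 ^ s) D)) = ∅ := by
            rw [Ico_eq_empty]
            simp only [lt_min_iff]
            tauto
          rw [this, indicator_empty]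
          have := q0 j
          have e : (fun _ : ℕ => (0 : ℂ)) = 0 := rfl
          rw [e, q0]
          exact zero_le
      · rw [q0]; exact zero_le
    refine (Finset.sum_le_sum h1).trans ?_
    rw [Finset.sum_comm]
    have h2 : ∀ k ∈ Finset.range D, ∑ j ∈ Finset.range D, t j k ≤
        B * ∑ d ∈ (Finset.range D).filter (fun d => d / 2 ^ s = k), w d := by
      intro k hk
      by_cases h3 : k * 2 ^ s < D
      · have h4 := hB (k * 2 ^ s) (min (k * 2 ^ s + 2 ^ s) D)
          (lt_min (by have : 0 < 2 ^ s := by positivity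
                      omega) h3) (min_le_right _ _)
        have h5 : ∑ j ∈ Finset.range D, t j k = ∑ j ∈ Finset.range (k * 2 ^ s),
            q j ((Ico (k * 2 ^ s) (min (k * 2 ^ s + 2 ^ s) D)).indicator 1) := by
          simp only [ht]
          rw [← Finset.sum_filter]
          congr 1
          ext j
          simp only [Finset.mem_filter, Finset.mem_range]
          constructor
          · rintro ⟨_, h, _⟩; exact h
          · intro h; exact ⟨h.trans h3, h, h3⟩
        rw [h5]
        refine h4.trans ?_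
        refine mul_le_mul_right ?_ _
        refine Finset.sum_le_sum_of_subset ?_
        intro d hd
        rw [Finset.mem_Ico, lt_min_iff] at hd
        rw [Finset.mem_filter, Finset.mem_range]
        refine ⟨hd.2.2, ?_⟩
        refine Nat.div_eq_of_lt_le hd.1 ?_
        rw [add_mul, one_mul]
        exact hd.2.1
      · have : ∑ j ∈ Finset.range D, t j k = 0 := by
          refine Finset.sum_eq_zero ?_
          intro j _
          simp only [ht]
          rw [if_neg (fun h => h3 h.2)]
        rw [this]; exact zero_le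
    refine (Finset.sum_le_sum h2).trans ?_
    rw [← Finset.mul_sum]
    refine mul_le_mul_right ?_ _
    refine le_of_eq ?_
    refine Finset.sum_fiberwise_of_maps_to ?_ w
    intro d hd
    rw [Finset.mem_range] at hd ⊢
    exact lt_of_le_of_lt (Nat.div_le_self _ _) hd
  have h3 : ∀ j ∈ Finset.range D, q j ((Ioo j D).indicator 1) ≤
      (n : ℝ≥0∞) * ∑ s ∈ Finset.range n, q j (vv D s j) := by
    intro j hj
    rw [Finset.mem_range] at hj
    have e : (Ioo j D).indicator (1 : ℕ → ℂ) = ∑ s ∈ Finset.range n, vv D s j := by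
      rw [part, xx_top (hj.trans_le hD), min_eq_right hD]
      rfl
    rw [e]
    have := hq j (Finset.range n) (fun s => vv D s j)
    rwa [Finset.card_range] at this
  refine (Finset.sum_le_sum h3).trans ?_
  rw [← Finset.mul_sum, Finset.sum_comm]
  have h4 : ∑ s ∈ Finset.range n, ∑ j ∈ Finset.range D, q j (vv D s j) ≤
      (n : ℝ≥0∞) * (B * ∑ d ∈ Finset.range D, w d) := by
    refine (Finset.sum_le_sum (fun s _ => hs s)).trans ?_
    rw [Finset.sum_const, Finset.card_range, nsmul_eq_mul]
  calc (n : ℝ≥0∞) * ∑ s ∈ Finset.range n, ∑ j ∈ Finset.range D, q j (vv D s j)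
      ≤ n * (n * (B * ∑ d ∈ Finset.range D, w d)) := by gcongr
    _ ≤ (n + 1) * ((n + 1) * (B * ∑ d ∈ Finset.range D, w d)) := by
        gcongr <;> exact le_self_add
    _ = B * (n + 1) ^ 2 * ∑ d ∈ Finset.range D, w d := by ring

end Pool.Agent.LLog.RMQ_

namespace Pool.Agent.LLog

theorem pRMQ : tRMQ := fun D n B q w hD hq hB => RMQ_.main D n B q w hD hq hB

end Pool.Agent.LLog
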