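import Pool.Agent.LLog.Targets
import Pool.Agent.KSP.Base

set_option autoImplicit false

/-! RSF: assembly of the one-dimensional theorem from BDJ and GDJ. -/

namespace Pool.Agent.LLog.RSF_

open MeasureTheory Set
open scoped ENNReal NNReal ComplexConjugate
open Pool.Agent.KSP (ee dot nr Ex Ex1 Bd Bd1 n1 n2 lg V0 ann)

lemma meas_avgc (L : ℝ) (g : ℝ → ℝ≥0∞) : Measurable (avgc L g) := by
  have h : avgc L g = (fun n : ℤ => (ENNReal.ofReal L)⁻¹ *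
      ∫⁻ t in Ico (L * (n : ℝ)) (L * ((n : ℝ) + 1)), g t) ∘ (fun s : ℝ => ⌊s / L⌋) := rfl
  rw [h]
  exact (measurable_from_top).comp (Int.measurable_floor.comp (measurable_id.div_const L))

lemma avgc_sum {ι : Type*} (L : ℝ) (S : Finset ι) (g : ι → ℝ → ℝ≥0∞)
    (hg : ∀ i ∈ S, Measurable (g i)) (s : ℝ) :
    avgc L (fun s => ∑ i ∈ S, g i s) s = ∑ i ∈ S, avgc L (g i) s := by
  unfold avgc
  rw [lintegral_finsetSum S hg, Finset.mul_sum]

lemma bd1_ind {H : ℝ → ℂ} (hH : Bd1 H) {S : Set ℝ} (hS : MeasurableSet S) :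
    Bd1 (S.indicator H) := by
  obtain ⟨hm, ⟨B, hB⟩, R, hR⟩ := hH
  refine ⟨hm.indicator hS, ⟨B, fun τ => ?_⟩, R, fun τ h => hR τ ?_⟩
  · by_cases h : τ ∈ S
    · rw [indicator_of_mem h]; exact hB τ
    · rw [indicator_of_notMem h, norm_zero]; exact (norm_nonneg _).trans (hB τ)
  · intro h0
    apply h
    by_cases hh : τ ∈ S
    · rw [indicator_of_mem hh, h0]
    · rw [indicator_of_notMem hh]

lemma meas_cdr (sg : ℝ) (l c : ℕ) : MeasurableSet {ζ : ℝ | cdr sg l c ζ} := by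
  unfold cdr
  have h1 : Measurable (fun ζ : ℝ => 4 ^ l * (ζ - sg)) := by fun_prop
  exact (measurableSet_le measurable_const h1).inter (measurableSet_lt h1 measurable_const)

lemma meas_Pc {H : ℝ → ℂ} (hH : Bd1 H) (sg : ℝ) (l c : ℕ) : Measurable (Pc sg H l c) :=
  (KSP.pPl1 _ (bd1_ind hH (meas_cdr sg l c))).1.measurable

lemma meas_Dj {H : ℝ → ℂ} (hH : Bd1 H) (sg : ℝ) (J : ℕ → ℕ → Finset ℕ) (l w : ℕ) :
    Measurable (Dj sg J H l w) := by
  unfold Dj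
  exact Finset.measurable_sum _ fun c _ => meas_Pc hH sg l c

lemma meas_chw {e : ℕ} {χ : ℕ → ℝ → ℝ≥0∞} (hχ : ∀ u, Measurable (χ u)) (l w : ℕ) :
    Measurable (chw e χ l w) := by
  unfold chw
  exact Finset.measurable_sum _ fun c _ => hχ c

lemma meas_pb (a lam e : ℕ) (χ : ℕ → ℝ → ℝ≥0∞) (k u : ℕ) :
    MeasurableSet {s | pb a lam e χ k u s} := by
  have h : {s | pb a lam e χ k u s} = ⋃ k' : ℕ, {s | 1 ≤ k' ∧ k' ≤ k ∧
      avgc (4 ^ (lam + 7 * a * k' + 5 * a))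
        (chw e χ (lam + 7 * a * k') (u / 4 ^ (e - (lam + 7 * a * k')))) s <
          ENNReal.ofReal (1 / 2 ^ (20 * a))} := by
    ext s
    simp only [pb, mem_ofPred_eq, mem_iUnion]
  rw [h]
  refine MeasurableSet.iUnion fun k' => ?_
  by_cases hk : 1 ≤ k' ∧ k' ≤ k
  · have h2 : {s | 1 ≤ k' ∧ k' ≤ k ∧
      avgc (4 ^ (lam + 7 * a * k' + 5 * a))
        (chw e χ (lam + 7 * a * k') (u / 4 ^ (e - (lam + 7 * a * k')))) s <
          ENNReal.ofReal (1 / 2 ^ (20 * a))} = {s |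
      avgc (4 ^ (lam + 7 * a * k' + 5 * a))
        (chw e χ (lam + 7 * a * k') (u / 4 ^ (e - (lam + 7 * a * k')))) s <
          ENNReal.ofReal (1 / 2 ^ (20 * a))} := by
      ext s
      simp only [mem_ofPred_eq]
      exact ⟨fun h => h.2.2, fun h => ⟨hk.1, hk.2, h⟩⟩
    rw [h2]
    exact measurableSet_lt (meas_avgc _ _) measurable_const
  · have h2 : {s | 1 ≤ k' ∧ k' ≤ k ∧
      avgc (4 ^ (lam + 7 * a * k' + 5 * a))
        (chw e χ (lam + 7 * a * k') (u / 4 ^ (e - (lam + 7 * a * k')))) s <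
          ENNReal.ofReal (1 / 2 ^ (20 * a))} = ∅ := by
      ext s
      simp only [mem_ofPred_eq, mem_empty_iff_false, iff_false]
      exact fun h => hk ⟨h.1, h.2.1⟩
    rw [h2]
    exact MeasurableSet.empty

lemma cs {ι : Type*} (S : Finset ι) (x : ι → ℂ) :
    ‖∑ i ∈ S, x i‖ₑ ^ 2 ≤ S.card * ∑ i ∈ S, ‖x i‖ₑ ^ 2 := by
  have h1 : ‖∑ i ∈ S, x i‖ₑ ≤ ∑ i ∈ S, ‖x i‖ₑ := enorm_sum_le S x
  have h2 : ((∑ i ∈ S, ‖x i‖₊) ^ 2 : ℝ≥0) ≤ S.card * ∑ i ∈ S, ‖x i‖₊ ^ 2 :=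
    sq_sum_le_card_mul_sum_sq
  calc ‖∑ i ∈ S, x i‖ₑ ^ 2 ≤ (∑ i ∈ S, ‖x i‖ₑ) ^ 2 := by gcongr
    _ = (((∑ i ∈ S, ‖x i‖₊) ^ 2 : ℝ≥0) : ℝ≥0∞) := by push_cast; rfl
    _ ≤ ((S.card * ∑ i ∈ S, ‖x i‖₊ ^ 2 : ℝ≥0) : ℝ≥0∞) := by exact_mod_cast h2
    _ = _ := by push_cast; rfl

lemma cs2 (x y : ℂ) : ‖x + y‖ₑ ^ 2 ≤ 2 * ‖x‖ₑ ^ 2 + 2 * ‖y‖ₑ ^ 2 := by
  have h := cs (Finset.univ : Finset (Fin 2)) ![x, y]
  simp only [Fin.sum_univ_two, Finset.card_univ, Fintype.card_fin, Matrix.cons_val_zero,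
    Matrix.cons_val_one, Nat.cast_ofNat] at h
  rwa [mul_add] at h

lemma reidx {M : Type*} [AddCommMonoid M] (f : ℕ → M) (i e N : ℕ) (hN : 1 ≤ N) (hi : N ≤ i)
    (hie : i ≤ e) :
    ∑ l ∈ Finset.Ioc i e, f l = ∑ r ∈ Finset.Icc 1 N,
      ∑ k ∈ Finset.Icc 1 ((e - (i + r - N)) / N), f (i + r - N + N * k) := by
  rw [Finset.sum_sigma']
  refine Finset.sum_bij' (fun l _ => (⟨(l - i - 1) % N + 1, (l - i - 1) / N + 1⟩ : (_ : ℕ) × ℕ))
    (fun x _ => i + x.1 - N + N * x.2) ?_ ?_ ?_ ?_ ?_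
  · intro l hl
    rw [Finset.mem_Ioc] at hl
    have h1 := Nat.div_add_mod (l - i - 1) N
    have h2 := Nat.mod_lt (l - i - 1) hN
    rw [Finset.mem_sigma, Finset.mem_Icc, Finset.mem_Icc]
    dsimp only
    refine ⟨⟨by omega, by omega⟩, Nat.le_add_left 1 _, ?_⟩
    rw [Nat.le_div_iff_mul_le (by omega), mul_comm, Nat.mul_add]
    omega
  · intro x hx
    rw [Finset.mem_sigma, Finset.mem_Icc, Finset.mem_Icc] at hx
    obtain ⟨⟨h1, h2⟩, h3, h4⟩ := hx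
    rw [Nat.le_div_iff_mul_le (by omega), mul_comm] at h4
    have h5 : N * 1 ≤ N * x.2 := Nat.mul_le_mul_left _ h3
    rw [Finset.mem_Ioc]
    omega
  · intro l hl
    rw [Finset.mem_Ioc] at hl
    have h1 := Nat.div_add_mod (l - i - 1) N
    have h2 := Nat.mod_lt (l - i - 1) hN
    simp only
    rw [Nat.mul_add]
    omega
  · intro x hx
    rw [Finset.mem_sigma, Finset.mem_Icc, Finset.mem_Icc] at hx
    obtain ⟨⟨h1, h2⟩, h3, h4⟩ := hx
    obtain ⟨r, k⟩ := x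
    simp only at h1 h2 h3 h4 ⊢
    obtain ⟨k', rfl⟩ : ∃ k', k = k' + 1 := ⟨k - 1, by omega⟩
    have h5 : i + r - N + N * (k' + 1) - i - 1 = (r - 1) + N * k' := by
      rw [Nat.mul_add]
      omega
    rw [h5, Nat.add_mul_mod_self_left, Nat.add_mul_div_left _ _ (by omega),
      Nat.mod_eq_of_lt (by omega), Nat.div_eq_of_lt (by omega)]
    congr 1
    · omega
    · simp
  · intro l hl
    rw [Finset.mem_Ioc] at hl
    have h1 := Nat.div_add_mod (l - i - 1) N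
    have h2 := Nat.mod_lt (l - i - 1) hN
    simp only
    rw [Nat.mul_add]
    congr 1
    omega

/-- splitting into unpopular and popular part -/
lemma split (p : ℕ) (P : ℕ → Prop) [DecidablePred P] (F : ℕ → ℂ) :
    ‖∑ k ∈ Finset.Icc 1 p, F k‖ₑ ^ 2 ≤
      2 * p * (∑ k ∈ Finset.Icc 1 p, if P k then ‖F k‖ₑ ^ 2 else 0) +
        2 * ‖∑ k ∈ Finset.Icc 1 p, if P k then 0 else F k‖ₑ ^ 2 := by
  have h1 : ∑ k ∈ Finset.Icc 1 p, F k = (∑ k ∈ Finset.Icc 1 p, if P k then F k else 0) +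
      ∑ k ∈ Finset.Icc 1 p, if P k then 0 else F k := by
    rw [← Finset.sum_add_distrib]
    refine Finset.sum_congr rfl fun k _ => ?_
    split_ifs <;> simp
  rw [h1]
  refine (cs2 _ _).trans ?_
  refine add_le_add ?_ le_rfl
  rw [mul_assoc]
  refine mul_le_mul_right ?_ _
  refine (cs _ _).trans ?_
  rw [Nat.card_Icc, Nat.add_sub_cancel]
  refine mul_le_mul_right ?_ _
  refine Finset.sum_le_sum fun k _ => ?_
  split_ifs <;> simp

lemma card_J {J : ℕ → ℕ → Finset ℕ} (hJ : ∀ l w, ∀ c ∈ J l w, c / 4 = w / 4 ∧ c ≠ w) (l w : ℕ) :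
    (J l w).card ≤ 3 := by
  have h1 : J l w ⊆ (Finset.Icc (4 * (w / 4)) (4 * (w / 4) + 3)).erase w := by
    intro c hc
    have h2 := hJ l w c hc
    rw [Finset.mem_erase, Finset.mem_Icc]
    refine ⟨h2.2, ?_, ?_⟩ <;> omega
  refine (Finset.card_le_card h1).trans ?_
  rw [Finset.card_erase_of_mem, Nat.card_Icc]
  · omega
  · rw [Finset.mem_Icc]
    constructor <;> omega

lemma Pc_zero {sg : ℝ} {H : ℝ → ℂ} {i b l c : ℕ} (hil : i ≤ l)
    (hH : ∀ ζ, H ζ ≠ 0 → cdr sg i b ζ) (hc : c / 4 ^ (l - i) ≠ b) (s : ℝ) :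
    Pc sg H l c s = 0 := by
  have h0 : {ζ : ℝ | cdr sg l c ζ}.indicator H = 0 := by
    funext ζ
    by_cases h : ζ ∈ {ζ : ℝ | cdr sg l c ζ}
    · rw [indicator_of_mem h]
      by_contra h2
      apply hc
      have h3 := hH ζ h2
      have h4 : cdr sg l c ζ := h
      unfold cdr at h3 h4
      have h5 : (4 : ℝ) ^ l = 4 ^ i * 4 ^ (l - i) := by
        rw [← pow_add]
        congr 1
        omega
      rw [h5] at h4
      have h6 : (0 : ℝ) < 4 ^ (l - i) := by positivity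
      have h7 : b * 4 ^ (l - i) ≤ c := by
        have : ((b * 4 ^ (l - i) : ℕ) : ℝ) < (c + 1 : ℕ) := by
          push_cast
          nlinarith [h3.1, h4.2]
        have h8 : b * 4 ^ (l - i) < c + 1 := by exact_mod_cast this
        omega
      have h9 : c < (b + 1) * 4 ^ (l - i) := by
        have : ((c : ℕ) : ℝ) < ((b + 1) * 4 ^ (l - i) : ℕ) := by
          push_cast
          nlinarith [h3.2, h4.1]
        exact_mod_cast this
      rw [Nat.div_eq_iff (by positivity)]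
      constructor
      · exact h7
      · rw [Nat.add_mul] at h9
        have h10 : 0 < 4 ^ (l - i) := by positivity
        omega
    · rw [indicator_of_notMem h]
      rfl
  unfold Pc
  rw [h0]
  unfold KSP.Ex1
  simp

/-- the main term of one level -/
noncomputable def GG (a e : ℕ) (sg : ℝ) (J : ℕ → ℕ → Finset ℕ) (H : ℝ → ℂ) (χ : ℕ → ℝ → ℝ≥0∞)
    (l w : ℕ) : ℝ≥0∞ :=
  ∫⁻ s, (avgc (4 ^ (l + 5 * a)) (chw e χ l w) s + avgc (4 ^ l / 4 ^ (2 * a)) (chw e χ l w) s) *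
    ‖Dj sg J H l w s‖ₑ ^ 2

/-- the right side for one level -/
noncomputable def RR (a i e b : ℕ) (sg : ℝ) (H : ℝ → ℂ) (χ : ℕ → ℝ → ℝ≥0∞) (l : ℕ) : ℝ≥0∞ :=
  ∑ c ∈ (Finset.range (2 * 4 ^ l)).filter (fun c => c / 4 ^ (l - i) = b), ∫⁻ s,
      (avgc (4 ^ (l + 5 * a)) (fun s => ∑ w ∈ (Finset.range (2 * 4 ^ l)).filter
          (fun w => w / 4 = c / 4 ∧ w ≠ c), chw e χ l w s) s +
        avgc (4 ^ l / 4 ^ (2 * a)) (fun s => ∑ w ∈ (Finset.range (2 * 4 ^ l)).filter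
          (fun w => w / 4 = c / 4 ∧ w ≠ c), chw e χ l w s) s) * ‖Pc sg H l c s‖ₑ ^ 2

lemma level {a i e b : ℕ} {sg : ℝ} {J : ℕ → ℕ → Finset ℕ} {H : ℝ → ℂ} {χ : ℕ → ℝ → ℝ≥0∞}
    (hh : H1D a i e b sg J H χ) (l : ℕ) (hl : i < l) :
    ∑ w ∈ Finset.range (2 * 4 ^ l), GG a e sg J H χ l w ≤ 3 * RR a i e b sg H χ l := by
  obtain ⟨ha, hi, hie, hea, hB, hH, hJ, hχ, hs⟩ := hh
  set T : ℕ → ℕ → ℝ≥0∞ := fun w c => ∫⁻ s, (avgc (4 ^ (l + 5 * a)) (chw e χ l w) s +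
    avgc (4 ^ l / 4 ^ (2 * a)) (chw e χ l w) s) * ‖Pc sg H l c s‖ₑ ^ 2 with hT
  have mA : ∀ w, Measurable (fun s => avgc (4 ^ (l + 5 * a)) (chw e χ l w) s +
      avgc (4 ^ l / 4 ^ (2 * a)) (chw e χ l w) s) := fun w =>
    (meas_avgc _ _).add (meas_avgc _ _)
  have mP : ∀ c, Measurable (fun s => ‖Pc sg H l c s‖ₑ ^ 2) := fun c =>
    (meas_Pc hB sg l c).enorm.pow_const 2
  have mM : ∀ w c, Measurable (fun s => (avgc (4 ^ (l + 5 * a)) (chw e χ l w) s +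
      avgc (4 ^ l / 4 ^ (2 * a)) (chw e χ l w) s) * ‖Pc sg H l c s‖ₑ ^ 2) := fun w c =>
    (mA w).mul (mP c)
  have h1 : ∀ w, GG a e sg J H χ l w ≤ 3 * ∑ c ∈ J l w, T w c := by
    intro w
    unfold GG
    have e1 : 3 * ∑ c ∈ J l w, T w c = ∫⁻ s, 3 * ∑ c ∈ J l w,
        (avgc (4 ^ (l + 5 * a)) (chw e χ l w) s +
          avgc (4 ^ l / 4 ^ (2 * a)) (chw e χ l w) s) * ‖Pc sg H l c s‖ₑ ^ 2 := by
      rw [lintegral_const_mul _ (Finset.measurable_sum _ fun c _ => mM w c),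
        lintegral_finsetSum _ (fun c _ => mM w c)]
    rw [e1]
    refine lintegral_mono fun s => ?_
    simp only
    rw [← Finset.mul_sum, mul_left_comm]
    refine mul_le_mul_right ?_ _
    unfold Dj
    refine (cs _ _).trans ?_
    refine mul_le_mul_left ?_ _
    exact_mod_cast card_J hJ l w
  have h2 : ∀ w ∈ Finset.range (2 * 4 ^ l), ∑ c ∈ J l w, T w c ≤
      ∑ c ∈ (Finset.range (2 * 4 ^ l)).filter (fun c => c / 4 ^ (l - i) = b),
        if w / 4 = c / 4 ∧ w ≠ c then T w c else 0 := by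
    intro w hw
    rw [← Finset.sum_filter]
    refine Finset.sum_le_sum_of_ne_zero fun c hc h0 => ?_
    have h3 := hJ l w c hc
    rw [Finset.mem_range] at hw
    rw [Finset.mem_filter, Finset.mem_filter, Finset.mem_range]
    refine ⟨⟨?_, ?_⟩, h3.1.symm, fun h => h3.2 h.symm⟩
    · obtain ⟨l', rfl⟩ : ∃ l', l = l' + 1 := ⟨l - 1, by omega⟩
      rw [pow_succ] at hw ⊢
      omega
    · by_contra h4
      apply h0
      rw [hT]
      simp only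
      have h5 : ∀ s, Pc sg H l c s = 0 := fun s =>
        Pc_zero hl.le (fun ζ hζ => (hH ζ hζ).1) h4 s
      simp [h5]
  calc ∑ w ∈ Finset.range (2 * 4 ^ l), GG a e sg J H χ l w
      ≤ ∑ w ∈ Finset.range (2 * 4 ^ l), 3 *
        ∑ c ∈ (Finset.range (2 * 4 ^ l)).filter (fun c => c / 4 ^ (l - i) = b),
        (if w / 4 = c / 4 ∧ w ≠ c then T w c else 0) :=
        Finset.sum_le_sum fun w hw => (h1 w).trans (mul_le_mul_right (h2 w hw) _)
    _ = 3 * RR a i e b sg H χ l := by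
        rw [← Finset.mul_sum, Finset.sum_comm]
        unfold RR
        congr 1
        refine Finset.sum_congr rfl fun c _ => ?_
        rw [← Finset.sum_filter, hT]
        simp only
        rw [← lintegral_finsetSum _ (fun w _ => mM w c)]
        refine lintegral_congr fun s => ?_
        rw [← Finset.sum_mul, Finset.sum_add_distrib,
          avgc_sum _ _ _ (fun w _ => meas_chw hχ l w), avgc_sum _ _ _ (fun w _ => meas_chw hχ l w)]

/-- numbers -/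
lemma sq_le_two_pow (a : ℕ) (ha : 20 ≤ a) : a ^ 2 ≤ 2 ^ a := by
  induction a, ha using Nat.le_induction with
  | base => norm_num
  | succ n hn ih =>
    rw [pow_succ 2 n]
    nlinarith

lemma main {a i e b : ℕ} {sg : ℝ} {J : ℕ → ℕ → Finset ℕ} {H : ℝ → ℂ} {χ : ℕ → ℝ → ℝ≥0∞}
    {C1 C2 : ℝ≥0} (hh : H1D a i e b sg J H χ)
    (h1 : ∀ (lam p : ℕ), i < lam + 7 * a → lam + 7 * a * p ≤ e →
      ∫⁻ s, ∑ u ∈ Finset.range (2 * 4 ^ e), χ u s *
        ∑ k ∈ Finset.Icc 1 p, (open Classical in if pb a lam e χ k u s then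
          ‖Dj sg J H (lam + 7 * a * k) (u / 4 ^ (e - (lam + 7 * a * k))) s‖ₑ ^ 2 else 0) ≤
      C1 * ENNReal.ofReal (1 / 2 ^ (8 * a)) * n1 H)
    (h2 : ∀ (lam p : ℕ), i < lam + 7 * a → lam + 7 * a * p ≤ e →
      ∫⁻ s, ∑ u ∈ Finset.range (2 * 4 ^ e), χ u s *
        ‖∑ k ∈ Finset.Icc 1 p, (open Classical in if pb a lam e χ k u s then 0 else
          Dj sg J H (lam + 7 * a * k) (u / 4 ^ (e - (lam + 7 * a * k))) s)‖ₑ ^ 2 ≤
      C2 * a ^ 2 * ∑ k ∈ Finset.Icc 1 p, ∑ w ∈ Finset.range (2 * 4 ^ (lam + 7 * a * k)),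
        GG a e sg J H χ (lam + 7 * a * k) w +
      C2 * ENNReal.ofReal (1 / 2 ^ (3 * a)) * n1 H) :
    ∫⁻ s, ∑ u ∈ Finset.range (2 * 4 ^ e), χ u s *
      ‖∑ l ∈ Finset.Ioc i e, Dj sg J H l (u / 4 ^ (e - l)) s‖ₑ ^ 2 ≤
    (7 * a : ℕ) * (2 * 2 ^ a * ((7 * a : ℕ) * (C1 * ENNReal.ofReal (1 / 2 ^ (8 * a)) * n1 H)) +
      2 * (C2 * a ^ 2 * (∑ l ∈ Finset.Ioc i e, ∑ w ∈ Finset.range (2 * 4 ^ l),
        GG a e sg J H χ l w) +
        (7 * a : ℕ) * (C2 * ENNReal.ofReal (1 / 2 ^ (3 * a)) * n1 H))) := by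
  classical
  obtain ⟨ha, hi, hie, hea, hB, hH, hJ, hχ, hs⟩ := hh
  -- notation for the residue classes
  set lam : ℕ → ℕ := fun r => i + r - 7 * a with hlam
  set p : ℕ → ℕ := fun r => (e - lam r) / (7 * a) with hp
  have hlp : ∀ r ∈ Finset.Icc 1 (7 * a), i < lam r + 7 * a ∧ lam r + 7 * a * p r ≤ e ∧
      p r ≤ 2 ^ a := by
    intro r hr
    rw [Finset.mem_Icc] at hr
    have h3 : 7 * a * p r ≤ e - lam r := by
      rw [hp]
      exact Nat.mul_div_le _ _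
    have h4 : lam r = i + r - 7 * a := rfl
    refine ⟨by omega, by omega, ?_⟩
    have h5 : e - lam r ≤ 2 ^ a + 7 * a := by omega
    have h6 : p r ≤ (2 ^ a + 7 * a) / (7 * a) := Nat.div_le_div_right h5
    rw [Nat.add_div_right _ (by omega)] at h6
    have h7 : 2 ^ a / (7 * a) ≤ 2 ^ a / 140 := Nat.div_le_div_left (by omega) (by norm_num)
    have h8 : 2 ^ 20 ≤ 2 ^ a := Nat.pow_le_pow_right (by norm_num) ha
    omega
  -- the two functions
  set A : ℕ → ℝ → ℝ≥0∞ := fun r s => ∑ u ∈ Finset.range (2 * 4 ^ e), χ u s *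
    ∑ k ∈ Finset.Icc 1 (p r), (if pb a (lam r) e χ k u s then
      ‖Dj sg J H (lam r + 7 * a * k) (u / 4 ^ (e - (lam r + 7 * a * k))) s‖ₑ ^ 2 else 0) with hA
  set B : ℕ → ℝ → ℝ≥0∞ := fun r s => ∑ u ∈ Finset.range (2 * 4 ^ e), χ u s *
    ‖∑ k ∈ Finset.Icc 1 (p r), (if pb a (lam r) e χ k u s then 0 else
      Dj sg J H (lam r + 7 * a * k) (u / 4 ^ (e - (lam r + 7 * a * k))) s)‖ₑ ^ 2 with hBB
  have mA : ∀ r, Measurable (A r) := by
    intro r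
    rw [hA]
    refine Finset.measurable_sum _ fun u _ => (hχ u).mul (Finset.measurable_sum _ fun k _ => ?_)
    exact Measurable.ite (meas_pb _ _ _ _ _ _) ((meas_Dj hB _ _ _ _).enorm.pow_const 2)
      measurable_const
  have mB : ∀ r, Measurable (B r) := by
    intro r
    rw [hBB]
    refine Finset.measurable_sum _ fun u _ => (hχ u).mul ?_
    refine Measurable.pow_const (Measurable.enorm (Finset.measurable_sum _ fun k _ => ?_)) 2
    exact Measurable.ite (meas_pb _ _ _ _ _ _) measurable_const (meas_Dj hB _ _ _ _)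
  -- pointwise
  have hpt : ∀ s, ∑ u ∈ Finset.range (2 * 4 ^ e), χ u s *
      ‖∑ l ∈ Finset.Ioc i e, Dj sg J H l (u / 4 ^ (e - l)) s‖ₑ ^ 2 ≤
      ∑ r ∈ Finset.Icc 1 (7 * a), (7 * a : ℕ) * (2 * 2 ^ a * A r s + 2 * B r s) := by
    intro s
    have h3 : ∀ u, χ u s * ‖∑ l ∈ Finset.Ioc i e, Dj sg J H l (u / 4 ^ (e - l)) s‖ₑ ^ 2 ≤
        ∑ r ∈ Finset.Icc 1 (7 * a), (7 * a : ℕ) * (2 * 2 ^ a * (χ u s *
          ∑ k ∈ Finset.Icc 1 (p r), (if pb a (lam r) e χ k u s then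
            ‖Dj sg J H (lam r + 7 * a * k) (u / 4 ^ (e - (lam r + 7 * a * k))) s‖ₑ ^ 2 else 0)) +
          2 * (χ u s * ‖∑ k ∈ Finset.Icc 1 (p r), (if pb a (lam r) e χ k u s then 0 else
      Dj sg J H (lam r + 7 * a * k) (u / 4 ^ (e - (lam r + 7 * a * k))) s)‖ₑ ^ 2)) := by
      intro u
      rw [reidx (fun l => Dj sg J H l (u / 4 ^ (e - l)) s) i e (7 * a) (by omega) hi hie.le]
      refine (mul_le_mul_right (cs _ _) _).trans ?_
      rw [Nat.card_Icc, Nat.add_sub_cancel, Finset.mul_sum, Finset.mul_sum]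
      refine Finset.sum_le_sum fun r hr => ?_
      rw [mul_left_comm]
      refine mul_le_mul_right ?_ _
      refine (mul_le_mul_right (split (p r) (fun k => pb a (lam r) e χ k u s) _) _).trans ?_
      rw [mul_add]
      refine add_le_add ?_ ?_
      · rw [mul_left_comm]
        refine mul_le_mul_left ?_ _
        refine mul_le_mul_right ?_ _
        exact_mod_cast (hlp r hr).2.2
      · rw [mul_left_comm]
    refine (Finset.sum_le_sum fun u _ => h3 u).trans ?_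
    rw [Finset.sum_comm]
    refine Finset.sum_le_sum fun r _ => ?_
    rw [← Finset.mul_sum, Finset.sum_add_distrib, ← Finset.mul_sum, ← Finset.mul_sum]
  refine (lintegral_mono hpt).trans ?_
  have mAB : ∀ r, Measurable (fun s => (7 * a : ℕ) * (2 * 2 ^ a * A r s + 2 * B r s)) := fun r =>
    (((mA r).const_mul _).add ((mB r).const_mul _)).const_mul _
  rw [lintegral_finsetSum _ (fun r _ => mAB r)]
  have h4 : ∀ r, ∫⁻ s, (7 * a : ℕ) * (2 * 2 ^ a * A r s + 2 * B r s) =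
      (7 * a : ℕ) * (2 * 2 ^ a * (∫⁻ s, A r s) + 2 * ∫⁻ s, B r s) := by
    intro r
    have m1 : Measurable (fun s => 2 * 2 ^ a * A r s) := (mA r).const_mul _
    have m2 : Measurable (fun s => 2 * 2 ^ a * A r s + 2 * B r s) := m1.add ((mB r).const_mul _)
    rw [lintegral_const_mul _ m2, lintegral_add_left m1, lintegral_const_mul _ (mA r),
      lintegral_const_mul _ (mB r)]
  have h5 : ∑ l ∈ Finset.Ioc i e, ∑ w ∈ Finset.range (2 * 4 ^ l), GG a e sg J H χ l w =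
      ∑ r ∈ Finset.Icc 1 (7 * a), ∑ k ∈ Finset.Icc 1 (p r),
        ∑ w ∈ Finset.range (2 * 4 ^ (lam r + 7 * a * k)), GG a e sg J H χ (lam r + 7 * a * k) w :=
    reidx (fun l => ∑ w ∈ Finset.range (2 * 4 ^ l), GG a e sg J H χ l w) i e (7 * a)
      (by omega) hi hie.le
  rw [h5]
  rw [Finset.sum_congr rfl fun r _ => h4 r, ← Finset.mul_sum]
  refine mul_le_mul_right ?_ _
  rw [Finset.sum_add_distrib]
  refine add_le_add ?_ ?_
  · rw [← Finset.mul_sum]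
    refine mul_le_mul_right ?_ _
    refine (Finset.sum_le_sum fun r hr => h1 (lam r) (p r) (hlp r hr).1 (hlp r hr).2.1).trans ?_
    rw [Finset.sum_const, Nat.card_Icc, Nat.add_sub_cancel, nsmul_eq_mul]
  · rw [← Finset.mul_sum]
    refine mul_le_mul_right ?_ _
    refine (Finset.sum_le_sum fun r hr => h2 (lam r) (p r) (hlp r hr).1 (hlp r hr).2.1).trans ?_
    rw [Finset.sum_add_distrib, ← Finset.mul_sum, Finset.sum_const, Nat.card_Icc,
      Nat.add_sub_cancel, nsmul_eq_mul]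

end Pool.Agent.LLog.RSF_

namespace Pool.Agent.LLog

open MeasureTheory Set
open scoped ENNReal NNReal ComplexConjugate
open Pool.Agent.KSP (ee dot nr Ex Ex1 Bd Bd1 n1 n2 lg V0 ann)

theorem pRSF (h1 : tBDJ) (h2 : tGDJ) : tRSF := by
  obtain ⟨C1, h1⟩ := h1
  obtain ⟨C2, h2⟩ := h2
  refine ⟨98 * (C1 + C2), fun a i e b sg J H χ hh => ?_⟩
  have ha : 20 ≤ a := hh.1
  refine (RSF_.main (C1 := C1) (C2 := C2) hh (fun lam p => h1 a i e b lam p sg J H χ hh)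
    (fun lam p => h2 a i e b lam p sg J H χ hh)).trans ?_
  have h3 : ∑ l ∈ Finset.Ioc i e, ∑ w ∈ Finset.range (2 * 4 ^ l), RSF_.GG a e sg J H χ l w ≤
      3 * ∑ l ∈ Finset.Ioc i e, RSF_.RR a i e b sg H χ l := by
    rw [Finset.mul_sum]
    refine Finset.sum_le_sum fun l hl => RSF_.level hh l (Finset.mem_Ioc.1 hl).1
  change _ ≤ ((98 * (C1 + C2) : ℝ≥0) : ℝ≥0∞) * a ^ 3 *
    (∑ l ∈ Finset.Ioc i e, RSF_.RR a i e b sg H χ l) +
      ((98 * (C1 + C2) : ℝ≥0) : ℝ≥0∞) * ENNReal.ofReal (1 / 2 ^ (2 * a)) * n1 H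
  set M := ∑ l ∈ Finset.Ioc i e, RSF_.RR a i e b sg H χ l
  have ha2 : (a : ℝ) ^ 2 ≤ 2 ^ a := by exact_mod_cast RSF_.sq_le_two_pow a ha
  have e1 : (a : ℝ≥0∞) ^ 2 * 2 ^ a * ENNReal.ofReal (1 / 2 ^ (8 * a)) ≤
      ENNReal.ofReal (1 / 2 ^ (2 * a)) := by
    have : (a : ℝ≥0∞) ^ 2 * 2 ^ a = ENNReal.ofReal ((a : ℝ) ^ 2 * 2 ^ a) := by
      rw [ENNReal.ofReal_mul (by positivity), ENNReal.ofReal_pow (by positivity),
        ENNReal.ofReal_natCast, ENNReal.ofReal_pow (by positivity)]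
      norm_num
    rw [this, ← ENNReal.ofReal_mul (by positivity)]
    refine ENNReal.ofReal_le_ofReal ?_
    rw [mul_one_div, div_le_div_iff₀ (by positivity) (by positivity), one_mul]
    have h8 : (2 : ℝ) ^ (8 * a) = 2 ^ a * 2 ^ a * 2 ^ (2 * a) * 2 ^ (4 * a) := by
      rw [← pow_add, ← pow_add, ← pow_add]
      congr 1
      ring
    rw [h8]
    have h9 : (1 : ℝ) ≤ 2 ^ (4 * a) := one_le_pow₀ (by norm_num)
    calc (a : ℝ) ^ 2 * 2 ^ a * 2 ^ (2 * a) ≤ 2 ^ a * 2 ^ a * 2 ^ (2 * a) := by gcongr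
      _ = 2 ^ a * 2 ^ a * 2 ^ (2 * a) * 1 := by ring
      _ ≤ _ := by gcongr
  have e2 : (a : ℝ≥0∞) ^ 2 * ENNReal.ofReal (1 / 2 ^ (3 * a)) ≤
      ENNReal.ofReal (1 / 2 ^ (2 * a)) := by
    have : (a : ℝ≥0∞) ^ 2 = ENNReal.ofReal ((a : ℝ) ^ 2) := by
      rw [ENNReal.ofReal_pow (by positivity), ENNReal.ofReal_natCast]
    rw [this, ← ENNReal.ofReal_mul (by positivity)]
    refine ENNReal.ofReal_le_ofReal ?_
    rw [mul_one_div, div_le_div_iff₀ (by positivity) (by positivity), one_mul]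
    have h8 : (2 : ℝ) ^ (3 * a) = 2 ^ a * 2 ^ (2 * a) := by
      rw [← pow_add]
      congr 1
      ring
    rw [h8]
    gcongr
  have e3 : (a : ℝ≥0∞) * (C2 * a ^ 2 * M) ≤ C2 * a ^ 3 * M := by
    apply le_of_eq
    ring
  push_cast
  calc (7 * a : ℝ≥0∞) * (2 * 2 ^ a * (7 * a * (C1 * ENNReal.ofReal (1 / 2 ^ (8 * a)) * n1 H)) +
      2 * (C2 * a ^ 2 * (∑ l ∈ Finset.Ioc i e, ∑ w ∈ Finset.range (2 * 4 ^ l),
        RSF_.GG a e sg J H χ l w) +
        7 * a * (C2 * ENNReal.ofReal (1 / 2 ^ (3 * a)) * n1 H)))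
      ≤ (7 * a : ℝ≥0∞) * (2 * 2 ^ a * (7 * a * (C1 * ENNReal.ofReal (1 / 2 ^ (8 * a)) * n1 H)) +
      2 * (C2 * a ^ 2 * (3 * M) +
        7 * a * (C2 * ENNReal.ofReal (1 / 2 ^ (3 * a)) * n1 H))) := by gcongr
    _ = 98 * C1 * (a ^ 2 * 2 ^ a * ENNReal.ofReal (1 / 2 ^ (8 * a))) * n1 H +
        42 * C2 * a ^ 3 * M + 98 * C2 * (a ^ 2 * ENNReal.ofReal (1 / 2 ^ (3 * a))) * n1 H := by
        ring
    _ ≤ 98 * C1 * ENNReal.ofReal (1 / 2 ^ (2 * a)) * n1 H +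
        98 * (C1 + C2) * a ^ 3 * M + 98 * C2 * ENNReal.ofReal (1 / 2 ^ (2 * a)) * n1 H := by
        have h10 : (42 : ℝ≥0∞) * C2 ≤ 98 * (C1 + C2) := by
          refine mul_le_mul' (by norm_num) le_add_self
        gcongr
    _ = _ := by ring

end Pool.Agent.LLog
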