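import Pool.Agent.LLog.Targets
import Pool.Agent.KSP.Base
import Pool.Agent.KSP.SobI

set_option autoImplicit false

/-! LLG-SC (MP_ee701d_an): suprema over cells of a band-limited function. -/

namespace Pool.Agent.LLog

namespace SC_

open MeasureTheory Set
open scoped ENNReal NNReal
open Pool.Agent.KSP (ee Ex1 Bd1 n1 tPl1 pPl1 pSobI)

lemma norm_ee (t : ℝ) : ‖ee t‖ = 1 := by
  rw [ee, show (2 * Real.pi * Complex.I * (t : ℂ)) = ((2 * Real.pi * t : ℝ) : ℂ) * Complex.I by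
    push_cast; ring]
  exact Complex.norm_exp_ofReal_mul_I _

lemma ee_add (s t : ℝ) : ee (s + t) = ee s * ee t := by
  rw [ee, ee, ee, ← Complex.exp_add]
  congr 1
  push_cast
  ring

lemma cont_ee : Continuous ee := by
  unfold ee
  fun_prop

/-- the shifted function -/
lemma shift_bd {H : ℝ → ℂ} (hH : Bd1 H) {r0 b : ℝ} (hs : ∀ ζ, H ζ ≠ 0 → |ζ - r0| ≤ b) :
    Bd1 (fun τ => H (τ + r0)) ∧ ∀ τ, H (τ + r0) ≠ 0 → |τ| ≤ b := by
  obtain ⟨hm, ⟨B, hB⟩, R, hR⟩ := hH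
  have h1 : ∀ τ, H (τ + r0) ≠ 0 → |τ| ≤ b := fun τ h => by
    have := hs _ h
    rwa [add_sub_cancel_right] at this
  exact ⟨⟨hm.comp (measurable_id.add_const r0), ⟨B, fun τ => hB _⟩, b, h1⟩, h1⟩

lemma shift_ex (H : ℝ → ℂ) (r0 s : ℝ) :
    Ex1 H s = ee (s * r0) * Ex1 (fun τ => H (τ + r0)) s := by
  unfold Ex1
  rw [← integral_add_right_eq_self (fun τ => H τ * ee (s * τ)) r0, ← integral_const_mul]
  refine integral_congr_ae (Filter.Eventually.of_forall fun τ => ?_)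
  have : s * (τ + r0) = s * r0 + s * τ := by ring
  simp only [this, ee_add]
  ring

lemma shift_n1 (H : ℝ → ℂ) (r0 : ℝ) : n1 (fun τ => H (τ + r0)) = n1 H := by
  unfold n1
  exact lintegral_add_right_eq_self (fun τ => ‖H τ‖ₑ ^ 2) r0

/-- the derivative on the Fourier side -/
noncomputable def G1 (G : ℝ → ℂ) (τ : ℝ) : ℂ := 2 * Real.pi * Complex.I * (τ : ℂ) * G τ

lemma norm_G1 (G : ℝ → ℂ) (τ : ℝ) : ‖G1 G τ‖ = 2 * Real.pi * |τ| * ‖G τ‖ := by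
  unfold G1
  simp [abs_of_pos Real.pi_pos]

lemma G1_le {G : ℝ → ℂ} {b : ℝ} (hs : ∀ τ, G τ ≠ 0 → |τ| ≤ b) (τ : ℝ) :
    ‖G1 G τ‖ ≤ 2 * Real.pi * b * ‖G τ‖ := by
  rw [norm_G1]
  by_cases h : G τ = 0
  · simp [h]
  · have := hs τ h
    have hp := Real.pi_pos
    gcongr

lemma G1_bd {G : ℝ → ℂ} (hG : Bd1 G) {b : ℝ} (hb : 0 < b) (hs : ∀ τ, G τ ≠ 0 → |τ| ≤ b) :
    Bd1 (G1 G) := by
  obtain ⟨hm, ⟨B, hB⟩, R, hR⟩ := hG
  have hp := Real.pi_pos
  refine ⟨?_, ⟨2 * Real.pi * b * B, fun τ => (G1_le hs τ).trans ?_⟩, b, fun τ h => hs τ ?_⟩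
  · unfold G1
    fun_prop
  · have := hB τ
    gcongr
  · intro h0
    apply h
    simp [G1, h0]

lemma G1_n1 {G : ℝ → ℂ} {b : ℝ} (hb : 0 < b) (hs : ∀ τ, G τ ≠ 0 → |τ| ≤ b) :
    n1 (G1 G) ≤ ENNReal.ofReal ((2 * Real.pi * b) ^ 2) * n1 G := by
  unfold n1
  rw [← lintegral_const_mul' _ _ ENNReal.ofReal_ne_top]
  refine lintegral_mono fun τ => ?_
  have hp := Real.pi_pos
  have h := G1_le hs τ
  have h2 : ‖G1 G τ‖ₑ ≤ ENNReal.ofReal (2 * Real.pi * b) * ‖G τ‖ₑ := by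
    rw [← ofReal_norm, ← ofReal_norm, ← ENNReal.ofReal_mul (by positivity)]
    exact ENNReal.ofReal_le_ofReal h
  calc ‖G1 G τ‖ₑ ^ 2 ≤ (ENNReal.ofReal (2 * Real.pi * b) * ‖G τ‖ₑ) ^ 2 := by gcongr
    _ = _ := by rw [mul_pow, ENNReal.ofReal_pow (by positivity)]

lemma hasDeriv {G : ℝ → ℂ} (hG : Bd1 G) {b : ℝ} (hb : 0 < b) (hs : ∀ τ, G τ ≠ 0 → |τ| ≤ b)
    (s : ℝ) : HasDerivAt (Ex1 G) (Ex1 (G1 G) s) s := by
  have hGi : Integrable G := memLp_one_iff_integrable.1 (Pool.Agent.KSP.Base_.bd1_memLp hG 1)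
  have hG1 := G1_bd hG hb hs
  have hG1i : Integrable (G1 G) :=
    memLp_one_iff_integrable.1 (Pool.Agent.KSP.Base_.bd1_memLp hG1 1)
  have hc : ∀ x : ℝ, Continuous fun τ : ℝ => ee (x * τ) := fun x =>
    cont_ee.comp (continuous_const.mul continuous_id)
  have hmeas : ∀ x : ℝ, AEStronglyMeasurable (fun τ => G τ * ee (x * τ)) volume := fun x =>
    hGi.aestronglyMeasurable.mul (hc x).aestronglyMeasurable
  have := (hasDerivAt_integral_of_dominated_loc_of_deriv_le (μ := (volume : Measure ℝ))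
    (F := fun x τ => G τ * ee (x * τ)) (F' := fun x τ => G1 G τ * ee (x * τ)) (x₀ := s)
    (s := univ) (bound := fun τ => ‖G1 G τ‖) Filter.univ_mem
    (Filter.Eventually.of_forall hmeas) ?_ ?_ ?_ hG1i.norm ?_).2
  · exact this
  · refine hGi.mono (hmeas s) (Filter.Eventually.of_forall fun τ => ?_)
    simp [norm_ee]
  · exact hG1i.aestronglyMeasurable.mul (hc s).aestronglyMeasurable
  · refine Filter.Eventually.of_forall fun τ x _ => ?_
    rw [norm_mul, norm_ee, mul_one]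
  · refine Filter.Eventually.of_forall fun τ x _ => ?_
    have h1 : HasDerivAt (fun x : ℝ => (2 * Real.pi * Complex.I * ((x * τ : ℝ) : ℂ)))
        (2 * Real.pi * Complex.I * (τ : ℂ)) x := by
      have h2 : HasDerivAt (fun x : ℝ => ((x * τ : ℝ) : ℂ)) (τ : ℂ) x := by
        have h3 : HasDerivAt (fun x : ℝ => x * τ) τ x := by
          simpa using (hasDerivAt_id x).mul_const τ
        exact h3.ofReal_comp
      exact h2.const_mul _
    have h4 := (h1.cexp).const_mul (G τ)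
    have e5 : G1 G τ * ee (x * τ) = G τ * (Complex.exp (2 * Real.pi * Complex.I * ((x * τ : ℝ) : ℂ)) *
        (2 * Real.pi * Complex.I * (τ : ℂ))) := by
      unfold G1 ee
      ring
    rw [e5]
    exact h4

/-- cells -/
lemma floor_eq {L : ℝ} (hL : 0 < L) (s : ℝ) (n : ℤ) :
    ⌊s / L⌋ = n ↔ s ∈ Ico (L * n) (L * (n + 1)) := by
  rw [Int.floor_eq_iff, mem_Ico, le_div_iff₀ hL, div_lt_iff₀ hL, mul_comm L, mul_comm L]

lemma sum_cells {L : ℝ} (hL : 0 < L) (g : ℝ → ℝ≥0∞) :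
    ∫⁻ s, g s = ∑' n : ℤ, ∫⁻ s in Ico (L * n) (L * (n + 1)), g s := by
  rw [← lintegral_iUnion (fun n => measurableSet_Ico)]
  · have : (⋃ n : ℤ, Ico (L * (n : ℝ)) (L * (n + 1))) = univ := by
      refine eq_univ_of_forall fun s => mem_iUnion.2 ⟨⌊s / L⌋, ?_⟩
      exact (floor_eq hL s _).1 rfl
    rw [this, Measure.restrict_univ]
  · intro m n hmn
    rw [Function.onFun, disjoint_left]
    intro s h1 h2
    exact hmn (((floor_eq hL s m).2 h1).symm.trans ((floor_eq hL s n).2 h2))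

lemma vol_cell {L : ℝ} (n : ℤ) :
    (volume : Measure ℝ) (Ico (L * n) (L * (n + 1))) = ENNReal.ofReal L := by
  rw [Real.volume_Ico]
  congr 1
  ring

/-- the general statement: functions of class `C¹` -/
lemma cells {L : ℝ} (hL : 0 < L) {F F1 : ℝ → ℂ} (hF1 : Continuous F1)
    (hF : ∀ t, HasDerivAt F (F1 t) t) : ∃ Φ : ℤ → ℝ≥0∞,
    (∀ s, ‖F s‖ₑ ^ 2 ≤ Φ ⌊s / L⌋) ∧
    ∫⁻ s, Φ ⌊s / L⌋ ≤ 2 * (∫⁻ s, ‖F s‖ₑ ^ 2) + ENNReal.ofReal (L ^ 2) * ∫⁻ s, ‖F1 s‖ₑ ^ 2 := by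
  refine ⟨fun n => ENNReal.ofReal (2 / L) * (∫⁻ r in Ico (L * n) (L * (n + 1)), ‖F r‖ₑ ^ 2) +
    ENNReal.ofReal L * ∫⁻ r in Ico (L * n) (L * (n + 1)), ‖F1 r‖ₑ ^ 2, ?_, ?_⟩
  · intro s
    obtain ⟨n, hn⟩ : ∃ n, n = ⌊s / L⌋ := ⟨_, rfl⟩
    have hs := (floor_eq hL s n).1 hn.symm
    rw [← hn]
    have hab : L * (n : ℝ) < L * (n + 1) := by nlinarith
    have h := (pSobI (L * n) (L * (n + 1)) L⁻¹ F F1 hab (inv_pos.2 hL) hF1.continuousOn
      (fun t _ => hF t) s ⟨hs.1, hs.2.le⟩).1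
    have e1 : (L * (n + 1 : ℝ) - L * n)⁻¹ + L⁻¹ = 2 / L := by
      rw [show L * (n + 1 : ℝ) - L * n = L by ring]
      field_simp
      norm_num
    rw [e1, inv_inv, ← restrict_Ico_eq_restrict_Icc] at h
    exact h
  · rw [sum_cells hL]
    have e : ∀ n : ℤ, ∫⁻ s in Ico (L * n) (L * (n + 1)),
        (ENNReal.ofReal (2 / L) * (∫⁻ r in Ico (L * (⌊s / L⌋ : ℤ)) (L * ((⌊s / L⌋ : ℤ) + 1)),
          ‖F r‖ₑ ^ 2) +
        ENNReal.ofReal L * ∫⁻ r in Ico (L * (⌊s / L⌋ : ℤ)) (L * ((⌊s / L⌋ : ℤ) + 1)), ‖F1 r‖ₑ ^ 2) =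
        2 * (∫⁻ r in Ico (L * n) (L * (n + 1)), ‖F r‖ₑ ^ 2) +
          ENNReal.ofReal (L ^ 2) * ∫⁻ r in Ico (L * n) (L * (n + 1)), ‖F1 r‖ₑ ^ 2 := by
      intro n
      have h1 : ∀ s ∈ Ico (L * (n : ℝ)) (L * (n + 1)), ⌊s / L⌋ = n := fun s hs =>
        (floor_eq hL s n).2 hs
      rw [setLIntegral_congr_fun (g := fun _ => ENNReal.ofReal (2 / L) *
        (∫⁻ r in Ico (L * n) (L * (n + 1)), ‖F r‖ₑ ^ 2) +
        ENNReal.ofReal L * ∫⁻ r in Ico (L * n) (L * (n + 1)), ‖F1 r‖ₑ ^ 2) measurableSet_Ico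
        (fun s hs => by simp only [h1 s hs]), setLIntegral_const, vol_cell, add_mul]
      have a1 : ENNReal.ofReal (2 / L) * ENNReal.ofReal L = 2 := by
        rw [← ENNReal.ofReal_mul (by positivity), div_mul_cancel₀ _ hL.ne']
        norm_num
      have a2 : ENNReal.ofReal L * ENNReal.ofReal L = ENNReal.ofReal (L ^ 2) := by
        rw [← ENNReal.ofReal_mul hL.le, sq]
      rw [mul_right_comm, a1, mul_right_comm, a2]
    rw [tsum_congr e, ENNReal.tsum_add, ENNReal.tsum_mul_left, ENNReal.tsum_mul_left,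
      ← sum_cells hL, ← sum_cells hL]

end SC_

open SC_ MeasureTheory Pool.Agent.KSP in
theorem pSC : tSC := by
  refine ⟨40, fun L b r0 H hL hb hH hs => ?_⟩
  obtain ⟨hG, hsG⟩ := shift_bd hH hs
  have hG1 := G1_bd hG hb hsG
  obtain ⟨Φ, h1, h2⟩ := cells hL (pPl1 _ hG1).1 (hasDeriv hG hb hsG)
  refine ⟨Φ, fun s => ?_, h2.trans ?_⟩
  · rw [shift_ex H r0 s, enorm_mul]
    have : ‖Pool.Agent.KSP.ee (s * r0)‖ₑ = 1 := by
      rw [← ofReal_norm, norm_ee]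
      simp
    rw [this, one_mul]
    exact h1 s
  · rw [(pPl1 _ hG).2, (pPl1 _ hG1).2]
    have h3 := G1_n1 hb hsG
    rw [shift_n1] at h3 ⊢
    have hp := Real.pi_pos
    have hp2 : Real.pi < 3.15 := Real.pi_lt_d2
    calc 2 * n1 H + ENNReal.ofReal (L ^ 2) * n1 (G1 fun τ => H (τ + r0))
        ≤ 2 * n1 H + ENNReal.ofReal (L ^ 2) *
            (ENNReal.ofReal ((2 * Real.pi * b) ^ 2) * n1 H) := by gcongr
      _ = ENNReal.ofReal (2 + L ^ 2 * (2 * Real.pi * b) ^ 2) * n1 H := by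
        rw [ENNReal.ofReal_add (by norm_num) (by positivity), ENNReal.ofReal_mul (by positivity),
          add_mul, mul_assoc (ENNReal.ofReal (L ^ 2))]
        norm_num
      _ ≤ ENNReal.ofReal (40 * (1 + (L * b) ^ 2)) * n1 H := by
        gcongr
        have : L ^ 2 * (2 * Real.pi * b) ^ 2 = 4 * Real.pi ^ 2 * (L * b) ^ 2 := by ring
        rw [this]
        have h4 : 4 * Real.pi ^ 2 ≤ 40 := by nlinarith
        nlinarith [sq_nonneg (L * b)]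
      _ = _ := by
        rw [ENNReal.ofReal_mul (by norm_num)]
        norm_num

end Pool.Agent.LLog
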