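import Pool.Agent.LLog.Targets

set_option autoImplicit false

/-! SHF: shifts on the frequency side. -/

namespace Pool.Agent.LLog

open MeasureTheory Set
open scoped ENNReal NNReal ComplexConjugate
open Pool.Agent.KSP (ee dot nr Ex Ex1 Bd Bd1 n1 n2 lg V0 ann)

namespace ShfAux

lemma fr_neg {η x : ℝ} : fr η (-x) ↔ fr η x := by
  unfold fr
  by_cases h : Int.fract x = 0
  · have h' : Int.fract (-x) = 0 := Int.fract_neg_eq_zero.2 h
    rw [h, h']
  · rw [Int.fract_neg h]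
    constructor <;> rintro ⟨h1, h2⟩ <;> constructor <;> linarith

lemma measurableSet_fr (η : ℝ) : MeasurableSet {x : ℝ | fr η x} := by
  unfold fr
  exact (measurableSet_le measurable_const measurable_fract).inter
    (measurableSet_le measurable_fract measurable_const)

lemma fr_periodic (η : ℝ) (x : ℝ) : fr η (x + 1) ↔ fr η x := by
  unfold fr
  rw [Int.fract_add_one]

/-- the mean of the bad set over one period -/
lemma int_unit {η : ℝ} (hη : 0 < η) (hη2 : η ≤ 1 / 2) :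
    ∫ x in (0 : ℝ)..1, ({x : ℝ | fr η x}ᶜ.indicator 1 : ℝ → ℝ) x ≤ 2 * η := by
  have h0 : ∀ x ∈ Ioc (0 : ℝ) 1, ({x : ℝ | fr η x}ᶜ.indicator 1 : ℝ → ℝ) x ≤
      ((Ioc 0 η ∪ Ioc (1 - η) 1).indicator 1 : ℝ → ℝ) x := by
    intro x hx
    by_cases h : x ∈ {x : ℝ | fr η x}ᶜ
    · rw [indicator_of_mem h]
      have hm : x ∈ Ioc 0 η ∪ Ioc (1 - η) 1 := by
        by_contra hn
        simp only [mem_union, mem_Ioc, not_or, not_and, not_le] at hn
        obtain ⟨h1, h2⟩ := hn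
        have h3 : η < x := h1 hx.1
        have h4 : x ≤ 1 - η := by
          by_contra h5
          push Not at h5
          exact absurd hx.2 (not_le.2 (h2 h5))
        apply h
        have h6 : Int.fract x = x := Int.fract_eq_self.2 ⟨by linarith, by linarith⟩
        show fr η x
        unfold fr
        rw [h6]
        exact ⟨h3.le, h4⟩
      rw [indicator_of_mem hm]
    · rw [indicator_of_notMem h]
      exact indicator_nonneg (fun _ _ => zero_le_one) x
  rw [intervalIntegral.integral_of_le zero_le_one]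
  have hfin : ∀ s : Set ℝ, MeasurableSet s →
      IntegrableOn (s.indicator 1 : ℝ → ℝ) (Ioc (0 : ℝ) 1) := by
    intro s hs
    have : IntegrableOn (fun _ : ℝ => (1 : ℝ)) (Ioc (0 : ℝ) 1) := by
      simp
    exact this.indicator hs
  have hm1 : MeasurableSet ({x : ℝ | fr η x}ᶜ) := (measurableSet_fr η).compl
  have hm2 : MeasurableSet (Ioc 0 η ∪ Ioc (1 - η) 1) := measurableSet_Ioc.union measurableSet_Ioc
  refine (setIntegral_mono_on (hfin _ hm1) (hfin _ hm2) measurableSet_Ioc h0).trans ?_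
  rw [setIntegral_indicator hm2]
  simp only [Pi.one_apply, integral_const, smul_eq_mul, mul_one]
  rw [measureReal_restrict_apply_univ]
  refine (measureReal_mono (inter_subset_right) ?_).trans ?_
  · have : volume (Ioc 0 η ∪ Ioc (1 - η) 1) ≤ volume (Ioc (0 : ℝ) 1 ∪ Ioc (0 : ℝ) 1) := by
      apply measure_mono
      apply union_subset_union
      · exact Ioc_subset_Ioc_right (by linarith)
      · exact Ioc_subset_Ioc_left (by linarith)
    refine ne_top_of_le_ne_top ?_ this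
    simp
  · refine (measureReal_union_le _ _).trans ?_
    rw [Real.volume_real_Ioc_of_le hη.le, Real.volume_real_Ioc_of_le (by linarith)]
    linarith

/-- the measure of the bad shifts -/
lemma vol_bad {η : ℝ} (hη : 0 < η) (hη2 : η ≤ 1 / 2) (K : ℕ) (hK : 1 ≤ K) (y α : ℝ) :
    volume {s : ℝ | s ∈ Ico α (α + 1) ∧ ¬ fr η (K * (y - s))} ≤ ENNReal.ofReal (2 * η) := by
  set f : ℝ → ℝ := ({x : ℝ | fr η x}ᶜ.indicator 1 : ℝ → ℝ) with hf
  have hm1 : MeasurableSet ({x : ℝ | fr η x}ᶜ) := (measurableSet_fr η).compl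
  have hfm : Measurable f := measurable_one.indicator hm1
  have hfb : ∀ x, ‖f x‖ ≤ 1 := by
    intro x
    rw [hf]
    refine (norm_indicator_le_norm_self _ _).trans ?_
    simp
  have hfi : ∀ a b : ℝ, IntervalIntegrable f volume a b := by
    intro a b
    rw [intervalIntegrable_iff]
    exact Integrable.mono' (g := fun _ => (1 : ℝ))
      (intervalIntegrable_iff.1 intervalIntegrable_const) hfm.aestronglyMeasurable
      (Filter.Eventually.of_forall hfb)
  have hper : Function.Periodic f 1 := by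
    intro x
    have hiff : (x + 1 ∈ {x : ℝ | fr η x}ᶜ) ↔ (x ∈ {x : ℝ | fr η x}ᶜ) :=
      not_congr (fr_periodic η x)
    rw [hf]
    by_cases h : x ∈ {x : ℝ | fr η x}ᶜ
    · rw [indicator_of_mem h, indicator_of_mem (hiff.2 h)]
      rfl
    · rw [indicator_of_notMem h, indicator_of_notMem (fun h' => h (hiff.1 h'))]
  have hKR : (0 : ℝ) < K := by exact_mod_cast hK
  have hint : ∫ s in α..(α + 1), f (K * y - K * s) ≤ 2 * η := by
    rw [intervalIntegral.integral_comp_sub_mul f hKR.ne']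
    have e1 : (K : ℝ) * y - K * α = (K * y - K * (α + 1)) + (K : ℤ) • (1 : ℝ) := by
      simp
      ring
    rw [e1, hper.intervalIntegral_add_zsmul_eq (K : ℤ) _ hfi,
      hper.intervalIntegral_add_eq _ 0]
    rw [zero_add, zsmul_eq_mul, smul_eq_mul, ← mul_assoc]
    have e2 : ((K : ℝ))⁻¹ * ((K : ℤ) : ℝ) = 1 := by
      rw [Int.cast_natCast]
      exact inv_mul_cancel₀ hKR.ne'
    rw [e2, one_mul]
    exact int_unit hη hη2
  set S : Set ℝ := {s : ℝ | s ∈ Ico α (α + 1) ∧ ¬ fr η (K * (y - s))} with hS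
  have hmeasT : MeasurableSet {s : ℝ | ¬ fr η (K * (y - s))} := by
    have : Measurable fun s : ℝ => (K : ℝ) * (y - s) := by fun_prop
    exact this hm1
  have hST : S = Ico α (α + 1) ∩ {s : ℝ | ¬ fr η (K * (y - s))} := rfl
  have hfinite : volume S ≠ ⊤ := by
    refine ne_top_of_le_ne_top ?_ (measure_mono (show S ⊆ Ico α (α + 1) from fun s hs => hs.1))
    simp
  have hreal : volume.real S = ∫ s in α..(α + 1), f (K * y - K * s) := by
    rw [intervalIntegral.integral_of_le (by linarith), ← integral_Ico_eq_integral_Ioc]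
    have e3 : ∀ s : ℝ, f (K * y - K * s) =
        ({s : ℝ | ¬ fr η (K * (y - s))}.indicator (fun _ => (1 : ℝ))) s := by
      intro s
      rw [hf, ← mul_sub]
      by_cases h : fr η (K * (y - s))
      · have h1 : (K : ℝ) * (y - s) ∉ {x : ℝ | fr η x}ᶜ := fun h' => h' h
        have h2 : s ∉ {s : ℝ | ¬ fr η (K * (y - s))} := fun h' => h' h
        rw [indicator_of_notMem h1, indicator_of_notMem h2]
      · have h1 : (K : ℝ) * (y - s) ∈ {x : ℝ | fr η x}ᶜ := h
        have h2 : s ∈ {s : ℝ | ¬ fr η (K * (y - s))} := h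
        rw [indicator_of_mem h1, indicator_of_mem h2]
        rfl
    simp_rw [e3]
    rw [setIntegral_indicator hmeasT]
    simp only [integral_const, smul_eq_mul, mul_one]
    rw [measureReal_restrict_apply_univ]
    rfl
  rw [← ENNReal.ofReal_toReal hfinite]
  apply ENNReal.ofReal_le_ofReal
  show volume.real S ≤ 2 * η
  rw [hreal]
  exact hint

/-- choice of a shift -/
lemma choose_shift {η : ℝ} (hη : 0 < η) (hη2 : η ≤ 1 / 2) (w : ℝ × ℝ → ℝ≥0∞) (hw : Measurable w)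
    (g : ℝ × ℝ → ℝ) (hg : Measurable g) (α : ℝ) (N : ℕ) (K : ℕ → ℕ) (hK : ∀ l, 1 ≤ K l) :
    ∃ s ∈ Ico α (α + 1), ∫⁻ ξ in {ξ | ∃ l ≤ N, ¬ fr η (K l * (g ξ - s))}, w ξ ≤
      (N + 1 : ℕ) * ENNReal.ofReal (2 * η) * ∫⁻ ξ, w ξ := by
  have hmS : ∀ l, MeasurableSet {P : ℝ × (ℝ × ℝ) | ¬ fr η (K l * (g P.2 - P.1))} := by
    intro l
    have : Measurable fun P : ℝ × (ℝ × ℝ) => (K l : ℝ) * (g P.2 - P.1) := by fun_prop
    exact this (measurableSet_fr η).compl
  have hmeas : ∀ l, Measurable (fun s : ℝ => ∫⁻ ξ, {ξ | ¬ fr η (K l * (g ξ - s))}.indicator w ξ) := by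
    intro l
    have h1 : Measurable (fun P : ℝ × (ℝ × ℝ) =>
        {P : ℝ × (ℝ × ℝ) | ¬ fr η (K l * (g P.2 - P.1))}.indicator (fun P => w P.2) P) :=
      (hw.comp measurable_snd).indicator (hmS l)
    exact h1.lintegral_prod_right'
  have hbound : ∀ l, ∫⁻ s in Ico α (α + 1), ∫⁻ ξ, {ξ | ¬ fr η (K l * (g ξ - s))}.indicator w ξ ≤
      ENNReal.ofReal (2 * η) * ∫⁻ ξ, w ξ := by
    intro l
    have h1 : Measurable (fun P : ℝ × (ℝ × ℝ) =>
        {P : ℝ × (ℝ × ℝ) | ¬ fr η (K l * (g P.2 - P.1))}.indicator (fun P => w P.2) P) :=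
      (hw.comp measurable_snd).indicator (hmS l)
    rw [lintegral_lintegral_swap (f := fun (s : ℝ) (ξ : ℝ × ℝ) =>
      {ξ | ¬ fr η (K l * (g ξ - s))}.indicator w ξ) h1.aemeasurable]
    rw [← lintegral_const_mul _ hw]
    refine lintegral_mono fun ξ => ?_
    have h2 : ∀ s : ℝ, {ξ | ¬ fr η (K l * (g ξ - s))}.indicator w ξ =
        {s : ℝ | ¬ fr η (K l * (g ξ - s))}.indicator (fun _ => w ξ) s := by
      intro s
      by_cases h : fr η (K l * (g ξ - s))
      · have h3 : ξ ∉ {ξ : ℝ × ℝ | ¬ fr η (K l * (g ξ - s))} := fun h' => h' h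
        have h4 : s ∉ {s : ℝ | ¬ fr η (K l * (g ξ - s))} := fun h' => h' h
        rw [indicator_of_notMem h3, indicator_of_notMem h4]
      · have h3 : ξ ∈ {ξ : ℝ × ℝ | ¬ fr η (K l * (g ξ - s))} := h
        have h4 : s ∈ {s : ℝ | ¬ fr η (K l * (g ξ - s))} := h
        rw [indicator_of_mem h3, indicator_of_mem h4]
    simp_rw [h2]
    have hmT : MeasurableSet {s : ℝ | ¬ fr η (K l * (g ξ - s))} := by
      have : Measurable fun s : ℝ => (K l : ℝ) * (g ξ - s) := by fun_prop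
      exact this (measurableSet_fr η).compl
    rw [lintegral_indicator hmT, lintegral_const, mul_comm]
    refine mul_le_mul_left ?_ _
    rw [Measure.restrict_restrict hmT, Measure.restrict_apply_univ]
    refine le_trans (measure_mono ?_) (vol_bad hη hη2 (K l) (hK l) (g ξ) α)
    rintro s ⟨hs1, hs2⟩
    exact ⟨hs2, hs1⟩
  obtain ⟨s, hs, hle⟩ := exists_le_setLAverage (μ := volume) (s := Ico α (α + 1))
    (f := fun s => ∑ l ∈ Finset.range (N + 1),
      ∫⁻ ξ, {ξ | ¬ fr η (K l * (g ξ - s))}.indicator w ξ) (by simp) (by simp)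
    (Finset.measurable_fun_sum _ fun l _ => hmeas l).aemeasurable
  refine ⟨s, hs, ?_⟩
  have hv : volume (Ico α (α + 1)) = 1 := by simp
  rw [setLAverage_eq, hv, div_one, lintegral_finsetSum _ (fun l _ => hmeas l)] at hle
  have hmN : MeasurableSet {ξ : ℝ × ℝ | ∃ l ≤ N, ¬ fr η (K l * (g ξ - s))} := by
    have : {ξ : ℝ × ℝ | ∃ l ≤ N, ¬ fr η (K l * (g ξ - s))} =
        ⋃ l ∈ Finset.range (N + 1), {ξ : ℝ × ℝ | ¬ fr η (K l * (g ξ - s))} := by
      ext ξ
      simp
    rw [this]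
    refine Finset.measurableSet_biUnion _ fun l _ => ?_
    have : Measurable fun ξ : ℝ × ℝ => (K l : ℝ) * (g ξ - s) := by fun_prop
    exact this (measurableSet_fr η).compl
  calc ∫⁻ ξ in {ξ | ∃ l ≤ N, ¬ fr η (K l * (g ξ - s))}, w ξ
      ≤ ∑ l ∈ Finset.range (N + 1), ∫⁻ ξ, {ξ | ¬ fr η (K l * (g ξ - s))}.indicator w ξ := by
        rw [← lintegral_indicator hmN, ← lintegral_finsetSum]
        · refine lintegral_mono fun ξ => ?_
          by_cases hξ : ξ ∈ {ξ : ℝ × ℝ | ∃ l ≤ N, ¬ fr η (K l * (g ξ - s))}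
          · rw [indicator_of_mem hξ]
            obtain ⟨l, hl, hl2⟩ := hξ
            have h3 : w ξ = {ξ | ¬ fr η (K l * (g ξ - s))}.indicator w ξ := by
              rw [indicator_of_mem]
              exact hl2
            rw [h3]
            exact Finset.single_le_sum
              (f := fun l => {ξ | ¬ fr η (K l * (g ξ - s))}.indicator w ξ)
              (fun i _ => zero_le) (Finset.mem_range.2 (by omega))
          · rw [indicator_of_notMem hξ]
            exact zero_le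
        · intro l _
          refine hw.indicator ?_
          have : Measurable fun ξ : ℝ × ℝ => (K l : ℝ) * (g ξ - s) := by fun_prop
          exact this (measurableSet_fr η).compl
    _ ≤ _ := hle
    _ ≤ ∑ l ∈ Finset.range (N + 1), ENNReal.ofReal (2 * η) * ∫⁻ ξ, w ξ :=
        Finset.sum_le_sum fun l _ => hbound l
    _ = _ := by
        rw [Finset.sum_const, Finset.card_range, nsmul_eq_mul, mul_assoc]

end ShfAux

open ShfAux in
theorem pSHF : tSHF := by
  intro a m h ha hB hV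
  obtain ⟨ha1, ha2, ha3⟩ := ha
  obtain ⟨hm, ⟨B, hBB⟩, R, hR⟩ := hB
  set η : ℝ := 2 / 2 ^ (4 * a) with hη
  have hη0 : 0 < η := by positivity
  have hη2 : η ≤ 1 / 2 := by
    rw [hη, div_le_div_iff₀ (by positivity) (by norm_num)]
    have : (2 : ℝ) ^ 2 ≤ 2 ^ (4 * a) := pow_le_pow_right₀ (by norm_num) (by omega)
    linarith
  have hwm : Measurable (fun ξ : ℝ × ℝ => ‖h ξ‖ₑ ^ 2) := by fun_prop
  have hnr : Measurable nr := by
    unfold Pool.Agent.KSP.nr
    fun_prop
  have hsl : Measurable (fun ξ : ℝ × ℝ => -(ξ.2 / ξ.1)) := by fun_prop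
  obtain ⟨sg, hsg, h1⟩ := choose_shift hη0 hη2 _ hwm nr hnr 0 m (fun l => 4 ^ l)
    (fun l => Nat.one_le_pow _ _ (by norm_num))
  obtain ⟨sl, hsl', h2⟩ := choose_shift hη0 hη2 _ hwm _ hsl 1 (m + 8 * a) (fun l => 2 ^ l)
    (fun l => Nat.one_le_pow _ _ (by norm_num))
  have e1 : ∀ (l : ℕ) (ξ : ℝ × ℝ), fr η (((4 ^ l : ℕ) : ℝ) * (nr ξ - sg)) ↔
      fr η (4 ^ l * (nr ξ - sg)) := by
    intro l ξ
    push_cast
    rfl
  have e2 : ∀ (j : ℕ) (ξ : ℝ × ℝ), fr η (((2 ^ j : ℕ) : ℝ) * (-(ξ.2 / ξ.1) - sl)) ↔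
      fr η (2 ^ j * (ξ.2 / ξ.1 + sl)) := by
    intro j ξ
    have : ((2 ^ j : ℕ) : ℝ) * (-(ξ.2 / ξ.1) - sl) = -(2 ^ j * (ξ.2 / ξ.1 + sl)) := by
      push_cast
      ring
    rw [this, fr_neg]
  simp only [e1] at h1
  simp only [e2] at h2
  set G : Set (ℝ × ℝ) := {ξ | (∀ l ≤ m, fr η (4 ^ l * (nr ξ - sg))) ∧
    ∀ j ≤ m + 8 * a, fr η (2 ^ j * (ξ.2 / ξ.1 + sl))} with hG
  have hGm : MeasurableSet G := by
    have e3 : G = (⋂ l ∈ Finset.range (m + 1), {ξ : ℝ × ℝ | fr η (4 ^ l * (nr ξ - sg))}) ∩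
        ⋂ j ∈ Finset.range (m + 8 * a + 1), {ξ : ℝ × ℝ | fr η (2 ^ j * (ξ.2 / ξ.1 + sl))} := by
      ext ξ
      simp [hG]
    rw [e3]
    refine (Finset.measurableSet_biInter _ fun l _ => ?_).inter
      (Finset.measurableSet_biInter _ fun j _ => ?_)
    · have : Measurable fun ξ : ℝ × ℝ => (4 : ℝ) ^ l * (nr ξ - sg) := by fun_prop
      exact this (measurableSet_fr η)
    · have : Measurable fun ξ : ℝ × ℝ => (2 : ℝ) ^ j * (ξ.2 / ξ.1 + sl) := by fun_prop
      exact this (measurableSet_fr η)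
  refine ⟨sg, sl, hsg.1, by linarith [hsg.2], hsl'.1, by linarith [hsl'.2], G, hGm, ⟨?_, ?_⟩, ?_⟩
  · refine ⟨hm.indicator hGm, ⟨B, fun ξ => ?_⟩, R, fun ξ hξ => hR ξ ?_⟩
    · exact (norm_indicator_le_norm_self _ _).trans (hBB ξ)
    · intro h0
      apply hξ
      by_cases hξG : ξ ∈ G
      · rw [indicator_of_mem hξG, h0]
      · rw [indicator_of_notMem hξG]
  · intro ξ hξ
    have hξG : ξ ∈ G := by
      by_contra hn
      exact hξ (indicator_of_notMem hn _)
    rw [indicator_of_mem hξG] at hξ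
    exact ⟨hV ξ hξ, hξG.1, hξG.2⟩
  · have e4 : n2 (Gᶜ.indicator h) = ∫⁻ ξ in Gᶜ, ‖h ξ‖ₑ ^ 2 := by
      unfold Pool.Agent.KSP.n2
      rw [← lintegral_indicator hGm.compl]
      refine lintegral_congr fun ξ => ?_
      by_cases hξ : ξ ∈ Gᶜ
      · rw [indicator_of_mem hξ, indicator_of_mem hξ]
      · rw [indicator_of_notMem hξ, indicator_of_notMem hξ]
        simp
    rw [e4]
    have e5 : Gᶜ ⊆ {ξ | ∃ l ≤ m, ¬ fr η (4 ^ l * (nr ξ - sg))} ∪
        {ξ | ∃ j ≤ m + 8 * a, ¬ fr η (2 ^ j * (ξ.2 / ξ.1 + sl))} := by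
      intro ξ hξ
      by_contra hn
      simp only [mem_union, mem_ofPred_eq, not_or, not_exists, not_and, not_not] at hn
      exact hξ ⟨hn.1, hn.2⟩
    calc ∫⁻ ξ in Gᶜ, ‖h ξ‖ₑ ^ 2
        ≤ ∫⁻ ξ in {ξ | ∃ l ≤ m, ¬ fr η (4 ^ l * (nr ξ - sg))} ∪
            {ξ | ∃ j ≤ m + 8 * a, ¬ fr η (2 ^ j * (ξ.2 / ξ.1 + sl))}, ‖h ξ‖ₑ ^ 2 :=
          lintegral_mono_set e5
      _ ≤ _ := lintegral_union_le _ _ _
      _ ≤ (m + 1 : ℕ) * ENNReal.ofReal (2 * η) * (∫⁻ ξ, ‖h ξ‖ₑ ^ 2) +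
          (m + 8 * a + 1 : ℕ) * ENNReal.ofReal (2 * η) * ∫⁻ ξ, ‖h ξ‖ₑ ^ 2 := add_le_add h1 h2
      _ = (((m + 1 : ℕ) + (m + 8 * a + 1 : ℕ) : ℝ≥0∞) * ENNReal.ofReal (2 * η)) * n2 h := by
          unfold Pool.Agent.KSP.n2
          ring
      _ ≤ ENNReal.ofReal (16 / 2 ^ (3 * a)) * n2 h := by
          refine mul_le_mul_left ?_ _
          rw [← Nat.cast_add, ← ENNReal.ofReal_natCast, ← ENNReal.ofReal_mul (by positivity)]
          apply ENNReal.ofReal_le_ofReal
          have h8 : 4 * a ≤ 2 ^ a := by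
            have h9 : a - 4 < 2 ^ (a - 4) := Nat.lt_two_pow_self
            have h10 : 2 ^ a = 2 ^ (a - 4) * 16 := by
              rw [show (16 : ℕ) = 2 ^ 4 by norm_num, ← pow_add]
              congr 1
              omega
            omega
          have h11 : (m + 1) + (m + 8 * a + 1) ≤ 4 * 2 ^ a := by omega
          have h12 : (((m + 1) + (m + 8 * a + 1) : ℕ) : ℝ) ≤ 4 * 2 ^ a := by exact_mod_cast h11
          rw [hη]
          have h13 : (2 : ℝ) ^ (4 * a) = 2 ^ (3 * a) * 2 ^ a := by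
            rw [← pow_add]
            congr 1
            ring
          rw [h13]
          have h14 : (0 : ℝ) < 2 ^ (3 * a) := by positivity
          have h15 : (0 : ℝ) < 2 ^ a := by positivity
          calc (((m + 1) + (m + 8 * a + 1) : ℕ) : ℝ) * (2 * (2 / (2 ^ (3 * a) * 2 ^ a)))
              ≤ (4 * 2 ^ a) * (2 * (2 / (2 ^ (3 * a) * 2 ^ a))) :=
                mul_le_mul_of_nonneg_right h12 (by positivity)
            _ = 16 / 2 ^ (3 * a) := by
                field_simp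
                ring

end Pool.Agent.LLog
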