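import Pool.Agent.LLog.Targets
import Pool.Agent.KSP.Base

set_option autoImplicit false

/-! MP_ee701d_an, LLG-SHT: short averages. -/

namespace Pool.Agent.LLog

open MeasureTheory Set
open scoped ENNReal NNReal ComplexConjugate
open Pool.Agent.KSP (ee dot nr Ex Ex1 Bd Bd1 n1 n2 lg V0 ann)

namespace SHT_

/-- the cell number `n` of length `L` -/
def cell (L : ℝ) (n : ℤ) : Set ℝ := Ico (L * n) (L * (n + 1))

lemma mem_cell {L : ℝ} (hL : 0 < L) (n : ℤ) (s : ℝ) : s ∈ cell L n ↔ ⌊s / L⌋ = n := by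
  unfold cell
  rw [mem_Ico, Int.floor_eq_iff, le_div_iff₀ hL, div_lt_iff₀ hL, mul_comm L, mul_comm L]

lemma meas_cell (L : ℝ) (n : ℤ) : MeasurableSet (cell L n) := measurableSet_Ico

lemma vol_cell {L : ℝ} (n : ℤ) : volume (cell L n) = ENNReal.ofReal L := by
  unfold cell
  rw [Real.volume_Ico]
  congr 1
  ring

lemma iUnion_cell {L : ℝ} (hL : 0 < L) : ⋃ n, cell L n = univ := by
  rw [eq_univ_iff_forall]
  intro s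
  rw [mem_iUnion]
  exact ⟨⌊s / L⌋, (mem_cell hL _ s).2 rfl⟩

lemma disj_cell {L : ℝ} (hL : 0 < L) : Pairwise (Function.onFun Disjoint (cell L)) := by
  intro n n' h
  rw [Function.onFun, Set.disjoint_left]
  intro s hs hs'
  exact h (((mem_cell hL _ s).1 hs).symm.trans ((mem_cell hL _ s).1 hs'))

lemma lint_cells {L : ℝ} (hL : 0 < L) (f : ℝ → ℝ≥0∞) :
    ∫⁻ s, f s = ∑' n, ∫⁻ s in cell L n, f s := by
  rw [← lintegral_iUnion (meas_cell L) (disj_cell hL), iUnion_cell hL, Measure.restrict_univ]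

/-- functions of the cell may be integrated against the averages -/
lemma avg_id {L : ℝ} (hL : 0 < L) (κ : ℝ → ℝ≥0∞) (hκ : Measurable κ) (f : ℤ → ℝ≥0∞) :
    ∫⁻ s, κ s * f ⌊s / L⌋ = ∫⁻ s, avgc L κ s * f ⌊s / L⌋ := by
  rw [lint_cells hL, lint_cells hL]
  congr 1
  funext n
  have h1 : ∫⁻ s in cell L n, κ s * f ⌊s / L⌋ = (∫⁻ s in cell L n, κ s) * f n := by
    rw [← lintegral_mul_const _ hκ]
    refine setLIntegral_congr_fun (meas_cell L n) fun s hs => ?_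
    rw [(mem_cell hL n s).1 hs]
  have h2 : ∫⁻ s in cell L n, avgc L κ s * f ⌊s / L⌋ =
      ∫⁻ _ in cell L n, ((ENNReal.ofReal L)⁻¹ * ∫⁻ t in cell L n, κ t) * f n := by
    refine setLIntegral_congr_fun (meas_cell L n) fun s hs => ?_
    rw [avgc, (mem_cell hL n s).1 hs]
    rfl
  have hL0 : ENNReal.ofReal L ≠ 0 := by
    rw [ne_eq, ENNReal.ofReal_eq_zero, not_le]
    exact hL
  rw [h1, h2, setLIntegral_const, vol_cell]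
  have h3 : (ENNReal.ofReal L)⁻¹ * ENNReal.ofReal L = 1 :=
    ENNReal.inv_mul_cancel hL0 ENNReal.ofReal_ne_top
  calc (∫⁻ s in cell L n, κ s) * f n =
      ((ENNReal.ofReal L)⁻¹ * ENNReal.ofReal L) * ((∫⁻ s in cell L n, κ s) * f n) := by
        rw [h3, one_mul]
    _ = _ := by ring

lemma avgc_le_one {L : ℝ} (hL : 0 < L) (κ : ℝ → ℝ≥0∞) (h1 : ∀ s, κ s ≤ 1) (s : ℝ) :
    avgc L κ s ≤ 1 := by
  rw [avgc]
  have hL0 : ENNReal.ofReal L ≠ 0 := by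
    rw [ne_eq, ENNReal.ofReal_eq_zero, not_le]
    exact hL
  have h2 : ∫⁻ t in Ico (L * ⌊s / L⌋) (L * (⌊s / L⌋ + 1)), κ t ≤ ENNReal.ofReal L := by
    refine (lintegral_mono fun t => h1 t).trans ?_
    rw [lintegral_const, one_mul, Measure.restrict_apply_univ]
    exact (vol_cell (L := L) ⌊s / L⌋).le
  refine (mul_le_mul_right h2 _).trans ?_
  rw [ENNReal.inv_mul_cancel hL0 ENNReal.ofReal_ne_top]

lemma meas_avgc (L : ℝ) (κ : ℝ → ℝ≥0∞) : Measurable (avgc L κ) := by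
  have h1 : avgc L κ = (fun n : ℤ => (ENNReal.ofReal L)⁻¹ *
      ∫⁻ t in Ico (L * n) (L * (n + 1)), κ t) ∘ fun s : ℝ => ⌊s / L⌋ := rfl
  rw [h1]
  exact (measurable_of_countable _).comp (Int.measurable_floor.comp (measurable_id.div_const L))

lemma sq_add_le (x y : ℝ≥0∞) : (x + y) ^ 2 ≤ 2 * x ^ 2 + 2 * y ^ 2 := by
  have h := ENNReal.rpow_add_le_mul_rpow_add_rpow x y (p := 2) (by norm_num)
  have e2 : (2 : ℝ) - 1 = 1 := by norm_num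
  rw [e2, ENNReal.rpow_one] at h
  have h2 : ∀ z : ℝ≥0∞, z ^ (2 : ℝ) = z ^ 2 := fun z => by
    rw [← ENNReal.rpow_natCast]
    norm_num
  rw [h2, h2, h2] at h
  rw [← mul_add]
  exact h

lemma sq_le_of (x y : ℂ) : ‖x‖ₑ ^ 2 ≤ 2 * ‖y‖ₑ ^ 2 + 2 * ‖x - y‖ₑ ^ 2 := by
  have h : ‖x‖ₑ ≤ ‖y‖ₑ + ‖x - y‖ₑ := by
    have h1 := enorm_add_le y (x - y)
    rwa [add_sub_cancel] at h1
  exact (pow_le_pow_left' h 2).trans (sq_add_le _ _)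

lemma enorm_ee (t : ℝ) : ‖ee t‖ₑ = 1 := by
  have h : ‖ee t‖ = 1 := by
    rw [ee]
    have h1 : (2 * Real.pi * Complex.I * (t : ℂ) : ℂ) = ((2 * Real.pi * t : ℝ) : ℂ) * Complex.I := by
      push_cast
      ring
    rw [h1, Complex.norm_exp_ofReal_mul_I]
  rw [← ofReal_norm, h, ENNReal.ofReal_one]

end SHT_

open SHT_ in
theorem pSHT (hEA : tEA) : tSHT := by
  obtain ⟨C, hC⟩ := hEA
  refine ⟨6 * C, fun L b r0 H κ hL hb hH hsupp hκ hκ1 => ?_⟩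
  obtain ⟨Φ, hΦ1, hΦ2⟩ := hC L b r0 H hL hb hH hsupp
  have hr0 : |r0 - r0| ≤ b := by rw [sub_self, abs_zero]; exact hb.le
  obtain ⟨GG, hGG⟩ : ∃ GG : ℝ → ℂ, GG = fun s => ee (-(r0 * s)) * Ex1 H s := ⟨_, rfl⟩
  have hΦ : ∀ s, ‖GG s - avgC L GG s‖ₑ ^ 2 ≤ Φ ⌊s / L⌋ := fun s => by
    have := hΦ1 r0 s hr0
    rw [hGG]
    exact this
  have hF : ∀ s, ‖GG s‖ₑ = ‖Ex1 H s‖ₑ := fun s => by
    rw [hGG]
    simp only
    rw [enorm_mul, enorm_ee, one_mul]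
  obtain ⟨A, hA⟩ : ∃ A : ℤ → ℝ≥0∞, ∀ s, ‖avgC L GG s‖ₑ ^ 2 = A ⌊s / L⌋ :=
    ⟨fun n => ‖((L⁻¹ : ℝ) : ℂ) * ∫ t in Ico (L * n) (L * (n + 1)), GG t‖ₑ ^ 2, fun s => rfl⟩
  have hmE : Measurable fun s => ‖Ex1 H s‖ₑ ^ 2 :=
    ((Pool.Agent.KSP.pPl1 H hH).1.measurable.enorm.pow_const 2)
  have hfl : Measurable fun s : ℝ => ⌊s / L⌋ :=
    Int.measurable_floor.comp (measurable_id.div_const L)
  have hmΦ : Measurable fun s : ℝ => Φ ⌊s / L⌋ := (measurable_of_countable Φ).comp hfl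
  have hmA : Measurable fun s : ℝ => A ⌊s / L⌋ := (measurable_of_countable A).comp hfl
  have hma := meas_avgc L κ
  -- first step
  have s1 : ∀ s, κ s * ‖Ex1 H s‖ₑ ^ 2 ≤ 2 * (κ s * A ⌊s / L⌋) + 2 * Φ ⌊s / L⌋ := fun s => by
    have h1 : ‖Ex1 H s‖ₑ ^ 2 ≤ 2 * A ⌊s / L⌋ + 2 * Φ ⌊s / L⌋ := by
      rw [← hF s, ← hA s]
      refine (sq_le_of (GG s) (avgC L GG s)).trans ?_
      gcongr
      exact hΦ s
    calc κ s * ‖Ex1 H s‖ₑ ^ 2 ≤ κ s * (2 * A ⌊s / L⌋ + 2 * Φ ⌊s / L⌋) := by gcongr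
      _ = 2 * (κ s * A ⌊s / L⌋) + 2 * (κ s * Φ ⌊s / L⌋) := by ring
      _ ≤ 2 * (κ s * A ⌊s / L⌋) + 2 * (1 * Φ ⌊s / L⌋) := by
        gcongr
        exact hκ1 s
      _ = _ := by rw [one_mul]
  -- second step
  have s2 : ∀ s, avgc L κ s * A ⌊s / L⌋ ≤
      2 * (avgc L κ s * ‖Ex1 H s‖ₑ ^ 2) + 2 * Φ ⌊s / L⌋ := fun s => by
    have h1 : A ⌊s / L⌋ ≤ 2 * ‖Ex1 H s‖ₑ ^ 2 + 2 * Φ ⌊s / L⌋ := by
      rw [← hF s, ← hA s]
      have h2 := sq_le_of (avgC L GG s) (GG s)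
      have h3 : ‖avgC L GG s - GG s‖ₑ = ‖GG s - avgC L GG s‖ₑ := enorm_sub_rev _ _
      rw [h3] at h2
      refine h2.trans ?_
      gcongr
      exact hΦ s
    calc avgc L κ s * A ⌊s / L⌋ ≤ avgc L κ s * (2 * ‖Ex1 H s‖ₑ ^ 2 + 2 * Φ ⌊s / L⌋) := by gcongr
      _ = 2 * (avgc L κ s * ‖Ex1 H s‖ₑ ^ 2) + 2 * (avgc L κ s * Φ ⌊s / L⌋) := by ring
      _ ≤ 2 * (avgc L κ s * ‖Ex1 H s‖ₑ ^ 2) + 2 * (1 * Φ ⌊s / L⌋) := by
        gcongr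
        exact avgc_le_one hL κ hκ1 s
      _ = _ := by rw [one_mul]
  have i2 : ∫⁻ s, avgc L κ s * A ⌊s / L⌋ ≤
      2 * (∫⁻ s, avgc L κ s * ‖Ex1 H s‖ₑ ^ 2) + 2 * ∫⁻ s, Φ ⌊s / L⌋ := by
    refine (lintegral_mono s2).trans ?_
    have m1 : Measurable fun s => avgc L κ s * ‖Ex1 H s‖ₑ ^ 2 := hma.mul hmE
    rw [lintegral_add_right _ (hmΦ.const_mul 2), lintegral_const_mul 2 m1,
      lintegral_const_mul 2 hmΦ]
  have i1 : ∫⁻ s, κ s * ‖Ex1 H s‖ₑ ^ 2 ≤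
      2 * (∫⁻ s, avgc L κ s * A ⌊s / L⌋) + 2 * ∫⁻ s, Φ ⌊s / L⌋ := by
    refine (lintegral_mono s1).trans ?_
    have m1 : Measurable fun s => κ s * A ⌊s / L⌋ := hκ.mul hmA
    rw [lintegral_add_right _ (hmΦ.const_mul 2), lintegral_const_mul 2 m1,
      lintegral_const_mul 2 hmΦ, avg_id hL κ hκ A]
  calc ∫⁻ s, κ s * ‖Ex1 H s‖ₑ ^ 2 ≤
      2 * (2 * (∫⁻ s, avgc L κ s * ‖Ex1 H s‖ₑ ^ 2) + 2 * ∫⁻ s, Φ ⌊s / L⌋) +
        2 * ∫⁻ s, Φ ⌊s / L⌋ := i1.trans (by gcongr)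
    _ = 4 * (∫⁻ s, avgc L κ s * ‖Ex1 H s‖ₑ ^ 2) + 6 * ∫⁻ s, Φ ⌊s / L⌋ := by ring
    _ ≤ 4 * (∫⁻ s, avgc L κ s * ‖Ex1 H s‖ₑ ^ 2) +
        6 * (C * ENNReal.ofReal ((L * b) ^ 2) * n1 H) := by gcongr
    _ = _ := by
      rw [ENNReal.coe_mul]
      push_cast
      ring

end Pool.Agent.LLog
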