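import Pool.Agent.LLog.Targets

set_option autoImplicit false

/-!
# SMP: random colouring of a finite set
-/

open scoped ENNReal NNReal

namespace Pool.Agent.LLog

namespace SMP_

theorem num {N n : ℕ} (hN : 2 ≤ N) (h1 : N ≤ 2 * n) (h2 : n < N) :
    N ^ n ≤ 8 * (n * (N - 1) ^ (n - 1)) := by
  obtain ⟨M, rfl⟩ : ∃ M, N = M + 1 := ⟨N - 1, by omega⟩
  have hM : 1 ≤ M := by omega
  have hn : 1 ≤ n := by omega
  have hMr : (0 : ℝ) < M := by exact_mod_cast hM
  have e1 : (1 + 1 / (M : ℝ)) ^ M ≤ 3 := by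
    have h3 : 1 + 1 / (M : ℝ) ≤ Real.exp (1 / (M : ℝ)) := by
      have := Real.add_one_le_exp (1 / (M : ℝ))
      linarith
    calc (1 + 1 / (M : ℝ)) ^ M ≤ Real.exp (1 / (M : ℝ)) ^ M :=
          pow_le_pow_left₀ (by positivity) h3 M
      _ = Real.exp 1 := by
          rw [← Real.exp_nat_mul]
          congr 1
          field_simp
      _ ≤ 3 := by
          have := Real.exp_one_lt_d9
          linarith
  have e2 : (1 + 1 / (M : ℝ)) ^ (n - 1) ≤ 3 := by
    refine le_trans (pow_le_pow_right₀ ?_ (by omega)) e1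
    have : (0 : ℝ) ≤ 1 / (M : ℝ) := by positivity
    linarith
  have e3 : ((M : ℝ) + 1) ^ (n - 1) ≤ 3 * (M : ℝ) ^ (n - 1) := by
    have h4 : (M : ℝ) + 1 = M * (1 + 1 / (M : ℝ)) := by
      field_simp
    rw [h4, mul_pow, mul_comm]
    exact mul_le_mul_of_nonneg_right e2 (by positivity)
  have e4 : (M + 1) ^ (n - 1) ≤ 3 * M ^ (n - 1) := by exact_mod_cast e3
  have e5 : (M + 1) ^ n = (M + 1) * (M + 1) ^ (n - 1) := by
    rw [← pow_succ']
    congr 1
    omega
  rw [e5, Nat.add_sub_cancel]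
  calc (M + 1) * (M + 1) ^ (n - 1) ≤ (2 * n) * (3 * M ^ (n - 1)) := Nat.mul_le_mul h1 e4
    _ ≤ 8 * (n * M ^ (n - 1)) := by nlinarith [Nat.zero_le (n * M ^ (n - 1))]

section

variable (U : Finset (ℕ × ℕ)) (k : ℕ)

/-- the colouring given by a function on `U` -/
noncomputable def ext (c : U → Fin (k + 2)) : ℕ × ℕ → ℕ := fun v =>
  open Classical in if h : v ∈ U then (c ⟨v, h⟩ : ℕ) else 1

open Classical in
/-- colourings with `v` the only element of `Λ` of colour `0` -/
noncomputable def A (Λ : Finset (ℕ × ℕ)) (v : U) : Finset (U → Fin (k + 2)) :=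
  Fintype.piFinset fun w => if w = v then {0} else
    if (w : ℕ × ℕ) ∈ Λ then Finset.univ.erase 0 else Finset.univ

open Classical in
/-- the elements of `Λ` in `U` -/
noncomputable def L (Λ : Finset (ℕ × ℕ)) : Finset U := Finset.univ.filter fun w => (w : ℕ × ℕ) ∈ Λ

theorem L_card {Λ : Finset (ℕ × ℕ)} (h : Λ ⊆ U) : (L U Λ).card = Λ.card := by
  classical
  have h1 : (L U Λ).map (Function.Embedding.subtype _) = Λ := by
    ext v
    simp only [L, Finset.mem_map, Finset.mem_filter, Finset.mem_univ, true_and,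
      Function.Embedding.coe_subtype]
    constructor
    · rintro ⟨w, hw, rfl⟩
      exact hw
    · intro hv
      exact ⟨⟨v, h hv⟩, hv, rfl⟩
  rw [← h1, Finset.card_map]
  rw [h1]

theorem A_card {Λ : Finset (ℕ × ℕ)} (h : Λ ⊆ U) {v : U} (hv : v ∈ L U Λ) :
    (A U k Λ v).card = (k + 1) ^ (Λ.card - 1) * (k + 2) ^ (U.card - Λ.card) := by
  classical
  unfold A
  rw [Fintype.card_piFinset]
  rw [← Finset.prod_filter_mul_prod_filter_not Finset.univ (fun w : U => (w : ℕ × ℕ) ∈ Λ)]
  have h1 : ∏ w ∈ Finset.univ.filter (fun w : U => (w : ℕ × ℕ) ∈ Λ),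
      (if w = v then ({0} : Finset (Fin (k + 2))) else
        if (w : ℕ × ℕ) ∈ Λ then Finset.univ.erase 0 else Finset.univ).card =
      (k + 1) ^ (Λ.card - 1) := by
    rw [← Finset.mul_prod_erase _ _ (show v ∈ Finset.univ.filter
      (fun w : U => (w : ℕ × ℕ) ∈ Λ) from hv), if_pos rfl, Finset.card_singleton, one_mul]
    rw [Finset.prod_eq_pow_card (b := k + 1)]
    · rw [Finset.card_erase_of_mem (show v ∈ Finset.univ.filter
        (fun w : U => (w : ℕ × ℕ) ∈ Λ) from hv)]
      have := L_card U h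
      unfold L at this
      rw [this]
    · intro w hw
      rw [Finset.mem_erase, Finset.mem_filter] at hw
      rw [if_neg hw.1, if_pos hw.2.2, Finset.card_erase_of_mem (Finset.mem_univ _),
        Finset.card_univ, Fintype.card_fin]
      rfl
  have h2 : ∏ w ∈ Finset.univ.filter (fun w : U => ¬ (w : ℕ × ℕ) ∈ Λ),
      (if w = v then ({0} : Finset (Fin (k + 2))) else
        if (w : ℕ × ℕ) ∈ Λ then Finset.univ.erase 0 else Finset.univ).card =
      (k + 2) ^ (U.card - Λ.card) := by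
    rw [Finset.prod_eq_pow_card (b := k + 2)]
    · congr 1
      have h3 := Finset.card_filter_add_card_filter_not (s := (Finset.univ : Finset U))
        (fun w : U => (w : ℕ × ℕ) ∈ Λ)
      have h4 := L_card U h
      unfold L at h4
      rw [h4, Finset.card_univ, Fintype.card_coe] at h3
      omega
    · intro w hw
      rw [Finset.mem_filter] at hw
      have hne : w ≠ v := by
        rintro rfl
        unfold L at hv
        rw [Finset.mem_filter] at hv
        exact hw.2 hv.2
      rw [if_neg hne, if_neg hw.2, Finset.card_univ, Fintype.card_fin]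
  rw [h1, h2]

theorem A_good {Λ : Finset (ℕ × ℕ)} (h : Λ ⊆ U) {v : U} (hv : v ∈ L U Λ)
    {c : U → Fin (k + 2)} (hc : c ∈ A U k Λ v) :
    Λ.filter (fun w => ext U k c w = 0) = {(v : ℕ × ℕ)} := by
  classical
  unfold A at hc
  rw [Fintype.mem_piFinset] at hc
  ext w
  rw [Finset.mem_filter, Finset.mem_singleton]
  constructor
  · rintro ⟨hw, h0⟩
    by_contra hne
    have h1 := hc ⟨w, h hw⟩
    have hne' : (⟨w, h hw⟩ : U) ≠ v := fun e => hne (by rw [← e])
    rw [if_neg hne', if_pos hw, Finset.mem_erase] at h1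
    unfold ext at h0
    rw [dif_pos (h hw)] at h0
    exact h1.1 (Fin.ext h0)
  · rintro rfl
    have hvL : (v : ℕ × ℕ) ∈ Λ := by
      unfold L at hv
      rw [Finset.mem_filter] at hv
      exact hv.2
    refine ⟨hvL, ?_⟩
    have h1 := hc v
    rw [if_pos rfl, Finset.mem_singleton] at h1
    unfold ext
    rw [dif_pos v.2]
    have : (⟨(v : ℕ × ℕ), v.2⟩ : U) = v := rfl
    rw [this, h1]
    rfl

open Classical in
/-- colourings with exactly one element of `Λ` of colour `0` -/
noncomputable def G (Λ : Finset (ℕ × ℕ)) : Finset (U → Fin (k + 2)) :=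
  Finset.univ.filter fun c => (Λ.filter (fun w => ext U k c w = 0)).card = 1

theorem G_card {Λ : Finset (ℕ × ℕ)} (h : Λ ⊆ U) (h1 : k + 2 ≤ 2 * Λ.card)
    (h2 : Λ.card < k + 2) :
    Fintype.card (U → Fin (k + 2)) ≤ 8 * (G U k Λ).card := by
  classical
  have hsub : (L U Λ).biUnion (A U k Λ) ⊆ G U k Λ := by
    intro c hc
    rw [Finset.mem_biUnion] at hc
    obtain ⟨v, hv, hcv⟩ := hc
    unfold G
    rw [Finset.mem_filter]
    refine ⟨Finset.mem_univ _, ?_⟩
    have := A_good U k h hv hcv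
    rw [this, Finset.card_singleton]
  have hdis : ((L U Λ : Finset U) : Set U).PairwiseDisjoint (A U k Λ) := by
    intro v hv w hw hvw
    rw [Function.onFun, Finset.disjoint_left]
    intro c hc1 hc2
    have e1 := A_good U k h hv hc1
    have e2 := A_good U k h hw hc2
    have e3 : ({(v : ℕ × ℕ)} : Finset (ℕ × ℕ)) = {(w : ℕ × ℕ)} := by rw [← e1, ← e2]
    exact hvw (Subtype.ext (Finset.singleton_injective e3))
  have hcard : ((L U Λ).biUnion (A U k Λ)).card =
      Λ.card * ((k + 1) ^ (Λ.card - 1) * (k + 2) ^ (U.card - Λ.card)) := by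
    rw [Finset.card_biUnion hdis, Finset.sum_congr rfl fun v hv => A_card U k h hv,
      Finset.sum_const, L_card U h, smul_eq_mul]
  have hle := Finset.card_le_card hsub
  rw [hcard] at hle
  have hnum := num (N := k + 2) (n := Λ.card) (by omega) h1 h2
  have hUL : Λ.card ≤ U.card := Finset.card_le_card h
  have hX : Fintype.card (U → Fin (k + 2)) = (k + 2) ^ Λ.card * (k + 2) ^ (U.card - Λ.card) := by
    rw [Fintype.card_fun, Fintype.card_fin, Fintype.card_coe, ← pow_add]
    congr 1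
    omega
  rw [hX]
  calc (k + 2) ^ Λ.card * (k + 2) ^ (U.card - Λ.card)
      ≤ 8 * (Λ.card * (k + 2 - 1) ^ (Λ.card - 1)) * (k + 2) ^ (U.card - Λ.card) :=
        Nat.mul_le_mul_right _ hnum
    _ = 8 * (Λ.card * ((k + 1) ^ (Λ.card - 1) * (k + 2) ^ (U.card - Λ.card))) := by
        have : k + 2 - 1 = k + 1 := by omega
        rw [this]
        ring
    _ ≤ 8 * (G U k Λ).card := Nat.mul_le_mul_left _ hle

end

end SMP_

open SMP_ in
theorem pSMP : tSMP := by
  intro U N F hN
  classical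
  obtain ⟨k, rfl⟩ : ∃ k, N = k + 2 := ⟨N - 2, by omega⟩
  by_contra hcon
  push Not at hcon
  have hlt : ∀ c ∈ (Finset.univ : Finset (U → Fin (k + 2))),
      8 * (∑ Λ ∈ U.powerset, if (Λ.filter (fun v => ext U k c v = 0)).card = 1 then F Λ else 0) <
      ∑ Λ ∈ U.powerset, if k + 2 ≤ 2 * Λ.card ∧ Λ.card < k + 2 then F Λ else 0 := fun c _ =>
    hcon (ext U k c)
  have h1 := ENNReal.sum_lt_sum_of_nonempty Finset.univ_nonempty hlt
  rw [Finset.sum_const, ← Finset.mul_sum, Finset.sum_comm] at h1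
  refine absurd h1 (not_lt.2 ?_)
  rw [nsmul_eq_mul, Finset.mul_sum, Finset.mul_sum]
  refine Finset.sum_le_sum fun Λ hΛ => ?_
  rw [Finset.mem_powerset] at hΛ
  split_ifs with hc
  · rw [← Finset.sum_filter, Finset.sum_const, nsmul_eq_mul, ← mul_assoc]
    refine mul_le_mul_left ?_ _
    have h2 := G_card U k hΛ hc.1 hc.2
    unfold G at h2
    rw [Finset.card_univ]
    exact_mod_cast h2
  · rw [mul_zero]
    exact zero_le

end Pool.Agent.LLog
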