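import Pool.Agent.LLog.Targets

set_option autoImplicit false

/-! MP_ee701d_an: one step of the Bellman function inequality. -/

namespace Pool.Agent.LLog

namespace StepBel

lemma gap1 {x : ℝ} (hx : 0 < x) : (x - 1) ^ 2 / (2 * (x + 1)) ≤ x * Real.log x - x + 1 := by
  rw [div_le_iff₀ (by positivity)]
  rcases le_total 1 x with h | h
  · have h1 := Real.le_log_one_add_of_nonneg (x := x - 1) (by linarith)
    have e1 : 1 + (x - 1) = x := by ring
    have e2 : x - 1 + 2 = x + 1 := by ring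
    rw [e1, e2, div_le_iff₀ (by positivity)] at h1
    -- 2 (x-1) ≤ log x (x+1)
    have h2 : 2 * (x - 1) * x ≤ Real.log x * (x + 1) * x := mul_le_mul_of_nonneg_right h1 hx.le
    nlinarith [sq_nonneg (x - 1)]
  · have h1 : Real.log x⁻¹ ≤ Real.sinh (Real.log x⁻¹) := by
      rw [Real.self_le_sinh_iff]
      exact Real.log_nonneg ((one_le_inv₀ hx).2 h)
    rw [Real.sinh_log (by positivity), inv_inv, Real.log_inv] at h1
    -- - log x ≤ (x⁻¹ - x) / 2
    have h2 : -Real.log x * x ≤ (1 - x ^ 2) / 2 := by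
      have h3 := mul_le_mul_of_nonneg_right h1 hx.le
      have h4 : (x⁻¹ - x) / 2 * x = (1 - x ^ 2) / 2 := by field_simp
      rwa [h4] at h3
    have h5 : (x - 1) ^ 2 / 2 ≤ x * Real.log x - x + 1 := by nlinarith
    have h6 : 0 ≤ (x - 1) ^ 2 / 2 := by positivity
    nlinarith

lemma gap2 {u v : ℝ} (hu : 0 < u) (hv : 0 < v) :
    (u - v) ^ 2 / (2 * (v + u)) ≤ ph v + (1 - Real.log v) * (u - v) - ph u := by
  have h1 := gap1 (x := u / v) (by positivity)
  have h2 := mul_le_mul_of_nonneg_left h1 hv.le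
  have e1 : v * ((u / v - 1) ^ 2 / (2 * (u / v + 1))) = (u - v) ^ 2 / (2 * (v + u)) := by
    field_simp
    ring
  have e2 : v * (u / v * Real.log (u / v) - u / v + 1) =
      ph v + (1 - Real.log v) * (u - v) - ph u := by
    rw [Real.log_div hu.ne' hv.ne']
    unfold ph
    field_simp
    ring
  rwa [e1, e2] at h2

lemma gap0 {u v : ℝ} (hu : 0 < u) (hv : 0 < v) :
    0 ≤ ph v + (1 - Real.log v) * (u - v) - ph u :=
  le_trans (by positivity) (gap2 hu hv)

lemma lip {ρ u v : ℝ} (hρ : 0 < ρ) (hu : ρ ≤ u) (hu1 : u ≤ 1) (hv : ρ ≤ v) (hv1 : v ≤ 1) :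
    |ph u - ph v| ≤ (1 + Real.log (1 / ρ)) * |u - v| := by
  have hu0 : 0 < u := hρ.trans_le hu
  have hv0 : 0 < v := hρ.trans_le hv
  have key : ∀ w : ℝ, ρ ≤ w → w ≤ 1 → 0 ≤ 1 - Real.log w ∧
      1 - Real.log w ≤ 1 + Real.log (1 / ρ) := by
    intro w hw hw1
    have h1 : Real.log w ≤ 0 := Real.log_nonpos (hρ.le.trans hw) hw1
    have h2 : Real.log ρ ≤ Real.log w := Real.log_le_log hρ hw
    rw [one_div, Real.log_inv]
    constructor <;> linarith
  have h1 := gap0 hu0 hv0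
  have h2 := gap0 hv0 hu0
  obtain ⟨a1, a2⟩ := key u hu hu1
  obtain ⟨b1, b2⟩ := key v hv hv1
  rw [abs_le]
  constructor
  · -- ph v - ph u ≤ (1 - log u) (v - u)
    have h3 : (1 - Real.log u) * (v - u) ≤ (1 + Real.log (1 / ρ)) * |u - v| := by
      calc (1 - Real.log u) * (v - u) ≤ (1 - Real.log u) * |u - v| := by
            refine mul_le_mul_of_nonneg_left ?_ a1
            rw [abs_sub_comm]
            exact le_abs_self _
        _ ≤ _ := mul_le_mul_of_nonneg_right a2 (abs_nonneg _)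
    linarith
  · have h3 : (1 - Real.log v) * (u - v) ≤ (1 + Real.log (1 / ρ)) * |u - v| := by
      calc (1 - Real.log v) * (u - v) ≤ (1 - Real.log v) * |u - v| :=
            mul_le_mul_of_nonneg_left (le_abs_self _) b1
        _ ≤ _ := mul_le_mul_of_nonneg_right b2 (abs_nonneg _)
    linarith

/-- the pointwise inequality -/
lemma point {ρ u v : ℝ} (hρ : 0 < ρ) (hu : ρ ≤ u) (hu1 : u ≤ 1) (hv : ρ ≤ v) (hv1 : v ≤ 1)
    (M d : ℂ) :
    ph u * ‖M + d‖ ^ 2 ≤ (ph v + (1 - Real.log v) * (u - v)) * ‖M‖ ^ 2 +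
      2 * ph v * (M.re * d.re + M.im * d.im) +
      4 * (1 + Real.log (1 / ρ)) ^ 2 * ((v + u) * ‖d‖ ^ 2) := by
  have hu0 : 0 < u := hρ.trans_le hu
  have hv0 : 0 < v := hρ.trans_le hv
  set L := 1 + Real.log (1 / ρ) with hL
  have hL1 : 1 ≤ L := by
    have : 0 ≤ Real.log (1 / ρ) := Real.log_nonneg (by
      rw [le_div_iff₀ hρ]
      linarith)
    linarith
  have hn : ∀ z : ℂ, ‖z‖ ^ 2 = z.re ^ 2 + z.im ^ 2 := by
    intro z
    rw [← Complex.normSq_eq_norm_sq, Complex.normSq_apply]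
    ring
  have hexp : ‖M + d‖ ^ 2 = ‖M‖ ^ 2 + 2 * (M.re * d.re + M.im * d.im) + ‖d‖ ^ 2 := by
    rw [hn, hn, hn, Complex.add_re, Complex.add_im]
    ring
  have hcs : |M.re * d.re + M.im * d.im| ≤ ‖M‖ * ‖d‖ := by
    refine abs_le_of_sq_le_sq ?_ (by positivity)
    rw [mul_pow, hn, hn]
    nlinarith [sq_nonneg (M.re * d.im - M.im * d.re)]
  have hlip := lip hρ hu hu1 hv hv1
  rw [← hL] at hlip
  -- the mixed term
  have hmix : 2 * ((ph u - ph v) * (M.re * d.re + M.im * d.im)) ≤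
      ‖M‖ ^ 2 * ((u - v) ^ 2 / (2 * (v + u))) + 2 * L ^ 2 * ((v + u) * ‖d‖ ^ 2) := by
    have h1 : (ph u - ph v) * (M.re * d.re + M.im * d.im) ≤ (L * |u - v|) * (‖M‖ * ‖d‖) := by
      refine (le_abs_self _).trans ?_
      rw [abs_mul]
      exact mul_le_mul hlip hcs (abs_nonneg _) (by positivity)
    have h2 : 2 * ((L * |u - v|) * (‖M‖ * ‖d‖)) ≤
        ‖M‖ ^ 2 * ((u - v) ^ 2 / (2 * (v + u))) + 2 * L ^ 2 * ((v + u) * ‖d‖ ^ 2) := by
      have hc : 0 < 2 * (v + u) := by positivity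
      have h3 : 0 ≤ (‖M‖ * |u - v| - 2 * (v + u) * (L * ‖d‖)) ^ 2 / (2 * (v + u)) := by
        positivity
      have h4 : (‖M‖ * |u - v| - 2 * (v + u) * (L * ‖d‖)) ^ 2 / (2 * (v + u)) =
          ‖M‖ ^ 2 * (|u - v| ^ 2 / (2 * (v + u))) + 2 * L ^ 2 * ((v + u) * ‖d‖ ^ 2) -
            2 * ((L * |u - v|) * (‖M‖ * ‖d‖)) := by
        field_simp
        ring
      rw [sq_abs] at h4
      linarith
    linarith
  have hgap := mul_le_mul_of_nonneg_left (gap2 hu0 hv0) (sq_nonneg ‖M‖)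
  have hphi : ph u * ‖d‖ ^ 2 ≤ 2 * L ^ 2 * ((v + u) * ‖d‖ ^ 2) := by
    have h1 : ph u ≤ 2 * L ^ 2 * (v + u) := by
      unfold ph
      have h2 : 2 - Real.log u ≤ 1 + L := by
        have : Real.log ρ ≤ Real.log u := Real.log_le_log hρ hu
        rw [hL, one_div, Real.log_inv]
        linarith
      have h3 : (1 : ℝ) + L ≤ 2 * L ^ 2 := by nlinarith
      calc u * (2 - Real.log u) ≤ u * (2 * L ^ 2) := by
            exact mul_le_mul_of_nonneg_left (h2.trans h3) hu0.le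
        _ ≤ 2 * L ^ 2 * (v + u) := by nlinarith [sq_nonneg L]
    calc ph u * ‖d‖ ^ 2 ≤ 2 * L ^ 2 * (v + u) * ‖d‖ ^ 2 :=
          mul_le_mul_of_nonneg_right h1 (sq_nonneg _)
      _ = _ := by ring
  rw [hexp]
  nlinarith

end StepBel

/-- **STP.** -/
theorem pSTP : tSTP := by
  intro n u d M ρ hn hρ hu hd
  have hn' : (0 : ℝ) < n := by exact_mod_cast hn
  set v := (∑ i ∈ Finset.range n, u i) / n with hv
  have hvρ : ρ ≤ v := by
    rw [hv, le_div_iff₀ hn']
    calc ρ * n = ∑ i ∈ Finset.range n, ρ := by simp [mul_comm]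
      _ ≤ _ := Finset.sum_le_sum fun i hi => (hu i (Finset.mem_range.1 hi)).1
  have hv1 : v ≤ 1 := by
    rw [hv, div_le_iff₀ hn']
    calc ∑ i ∈ Finset.range n, u i ≤ ∑ i ∈ Finset.range n, (1 : ℝ) :=
          Finset.sum_le_sum fun i hi => (hu i (Finset.mem_range.1 hi)).2
      _ = _ := by simp
  have hre : ∑ i ∈ Finset.range n, (d i).re = 0 := by
    rw [← Complex.re_sum, hd, Complex.zero_re]
  have him : ∑ i ∈ Finset.range n, (d i).im = 0 := by
    rw [← Complex.im_sum, hd, Complex.zero_im]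
  have hsum : ∑ i ∈ Finset.range n, ph (u i) * ‖M + d i‖ ^ 2 ≤
      n * (ph v * ‖M‖ ^ 2) + 4 * (1 + Real.log (1 / ρ)) ^ 2 *
        ∑ i ∈ Finset.range n, (v + u i) * ‖d i‖ ^ 2 := by
    calc ∑ i ∈ Finset.range n, ph (u i) * ‖M + d i‖ ^ 2
        ≤ ∑ i ∈ Finset.range n, ((ph v + (1 - Real.log v) * (u i - v)) * ‖M‖ ^ 2 +
            2 * ph v * (M.re * (d i).re + M.im * (d i).im) +
            4 * (1 + Real.log (1 / ρ)) ^ 2 * ((v + u i) * ‖d i‖ ^ 2)) :=
          Finset.sum_le_sum fun i hi => StepBel.point hρ (hu i (Finset.mem_range.1 hi)).1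
            (hu i (Finset.mem_range.1 hi)).2 hvρ hv1 M (d i)
      _ = n * (ph v * ‖M‖ ^ 2) + 4 * (1 + Real.log (1 / ρ)) ^ 2 *
            ∑ i ∈ Finset.range n, (v + u i) * ‖d i‖ ^ 2 := by
          have e1 : ∑ i ∈ Finset.range n, (ph v + (1 - Real.log v) * (u i - v)) * ‖M‖ ^ 2 =
              n * (ph v * ‖M‖ ^ 2) := by
            rw [← Finset.sum_mul, Finset.sum_add_distrib, ← Finset.mul_sum, Finset.sum_sub_distrib]
            have : ∑ i ∈ Finset.range n, u i = v * n := by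
              rw [hv]
              field_simp
            rw [this]
            simp
            ring
          have e2 : ∑ i ∈ Finset.range n, 2 * ph v * (M.re * (d i).re + M.im * (d i).im) = 0 := by
            rw [← Finset.mul_sum, Finset.sum_add_distrib, ← Finset.mul_sum, ← Finset.mul_sum, hre,
              him]
            ring
          rw [Finset.sum_add_distrib, Finset.sum_add_distrib, e1, e2, add_zero, ← Finset.mul_sum]
  rw [div_le_iff₀ hn']
  refine hsum.trans (le_of_eq ?_)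
  field_simp

end Pool.Agent.LLog
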