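import Pool.Agent.LLog.Targets

set_option autoImplicit false

/-! MP_ee701d_an: popular pairs and their maximal elements (target F10). -/

namespace Pool.Agent.LLog

namespace TOPx

open MeasureTheory Set
open scoped ENNReal NNReal

lemma sd_pos (a e : ℕ) : 0 < sd a e := by
  unfold sd; positivity

lemma sd_mul (a l d : ℕ) : sd a (l + d) = 2 ^ d * sd a l := by
  unfold sd
  rw [← pow_add]
  congr 1
  ring

/-- nested squares -/
lemma floor_step (a l d : ℕ) (u : ℝ) :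
    ⌊u / sd a (l + d)⌋ = ⌊u / sd a l⌋ / (2 ^ d : ℤ) := by
  have h2 : (0 : ℝ) < 2 ^ d := by positivity
  have hs := sd_pos a l
  have : u / sd a (l + d) = (u / sd a l) / ((2 ^ d : ℕ) : ℝ) := by
    rw [sd_mul]
    push_cast
    field_simp
  rw [this, Int.floor_div_natCast]
  push_cast
  rfl

lemma Qx_step (a : ℕ) (z0 : ℝ × ℝ) (l l' : ℕ) (h : l ≤ l') (x : ℝ × ℝ) :
    Qx a z0 l' x = ((Qx a z0 l x).1 / (2 ^ (l' - l) : ℤ), (Qx a z0 l x).2 / (2 ^ (l' - l) : ℤ)) := by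
  obtain ⟨d, rfl⟩ := Nat.exists_eq_add_of_le h
  have : l + d - l = d := by omega
  rw [this]
  unfold Qx
  simp only [floor_step]

lemma kc_step (m : ℕ) (sg : ℝ) (k : ℝ × ℝ → ℕ) (l l' : ℕ) (h : l ≤ l') (x : ℝ × ℝ) :
    kc m sg k l' x / 4 ^ (l' - l) = kc m sg k l x := by
  obtain ⟨d, rfl⟩ := Nat.exists_eq_add_of_le h
  have : l + d - l = d := by omega
  rw [this]
  unfold kc
  have h4 : (0 : ℝ) < 4 ^ d := by positivity
  have e : (4 : ℝ) ^ l * (1 + k x / 4 ^ m - sg) =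
      (4 ^ (l + d) * (1 + k x / 4 ^ m - sg)) / ((4 ^ d : ℕ) : ℝ) := by
    push_cast
    rw [pow_add]
    field_simp
  rw [e, Nat.floor_div_natCast]

lemma kc_lt (m : ℕ) (sg : ℝ) (k : ℝ × ℝ → ℕ) (l : ℕ) (x : ℝ × ℝ) (h0 : 0 ≤ sg)
    (hk : k x < 4 ^ m) : kc m sg k l x < 2 * 4 ^ l := by
  unfold kc
  have h4 : (0 : ℝ) < 4 ^ m := by positivity
  have h1 : (k x : ℝ) / 4 ^ m < 1 := by
    rw [div_lt_one h4]
    exact_mod_cast hk
  have h5 : (0 : ℝ) < 4 ^ l := by positivity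
  have : (4 : ℝ) ^ l * (1 + k x / 4 ^ m - sg) < ((2 * 4 ^ l : ℕ) : ℝ) := by
    push_cast
    nlinarith
  by_cases hp : 0 ≤ (4 : ℝ) ^ l * (1 + k x / 4 ^ m - sg)
  · exact (Nat.floor_lt hp).2 this
  · rw [Nat.floor_of_nonpos (le_of_lt (not_le.1 hp))]
    positivity

/-- the set of points of a triple -/
def Sq (a m : ℕ) (z0 : ℝ × ℝ) (sg : ℝ) (E : Set (ℝ × ℝ)) (k : ℝ × ℝ → ℕ) (t : Top) :
    Set (ℝ × ℝ) :=
  E ∩ {y | Qx a z0 t.1 y = t.2.2 ∧ kc m sg k t.1 y = t.2.1}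

lemma meas_Qx (a : ℕ) (z0 : ℝ × ℝ) (l : ℕ) : Measurable (Qx a z0 l) := by
  unfold Qx
  refine Measurable.prodMk ?_ ?_
  · exact Int.measurable_floor.comp ((measurable_fst.sub_const _).div_const _)
  · exact Int.measurable_floor.comp ((measurable_snd.sub_const _).div_const _)

lemma meas_kc (m : ℕ) (sg : ℝ) (k : ℝ × ℝ → ℕ) (hk : Measurable k) (l : ℕ) :
    Measurable (kc m sg k l) := by
  unfold kc
  refine Nat.measurable_floor.comp ?_
  have h1 : Measurable (fun x => (k x : ℝ)) := measurable_from_top.comp hk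
  exact ((h1.div_const _).const_add _ |>.sub_const _).const_mul _

lemma meas_Sq (a m : ℕ) (z0 : ℝ × ℝ) (sg : ℝ) (E : Set (ℝ × ℝ)) (k : ℝ × ℝ → ℕ)
    (hE : MeasurableSet E) (hk : Measurable k) (t : Top) :
    MeasurableSet (Sq a m z0 sg E k t) := by
  refine hE.inter ?_
  have h1 : MeasurableSet {y | Qx a z0 t.1 y = t.2.2} :=
    (meas_Qx a z0 t.1) (measurableSet_singleton t.2.2)
  have h2 : MeasurableSet {y | kc m sg k t.1 y = t.2.1} :=
    (meas_kc m sg k hk t.1) (measurableSet_singleton t.2.1)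
  exact h1.inter h2

/-- popular triples -/
def Pp (a m : ℕ) (z0 : ℝ × ℝ) (sg : ℝ) (E : Set (ℝ × ℝ)) (k : ℝ × ℝ → ℕ) : Set Top :=
  {t | 10 * a ≤ t.1 ∧ t.1 ≤ m ∧ Pop a m z0 sg E k t.1 t.2.2 t.2.1}

lemma fin_level (a m : ℕ) (z0 : ℝ × ℝ) (sg : ℝ) (E : Set (ℝ × ℝ)) (k : ℝ × ℝ → ℕ)
    (hE : MeasurableSet E) (hv : volume E < ⊤) (hk : Measurable k) (l : ℕ) :
    {t : Top | t.1 = l ∧ Pop a m z0 sg E k l t.2.2 t.2.1}.Finite := by
  have hpos : (0 : ℝ≥0∞) < ENNReal.ofReal (sd a l ^ 2 / 2 ^ (50 * a)) := by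
    rw [ENNReal.ofReal_pos]
    have := sd_pos a l
    positivity
  have key := Measure.finite_const_le_meas_of_disjoint_iUnion
    (μ := (volume : Measure (ℝ × ℝ))) (ι := ℕ × (ℤ × ℤ)) hpos
    (As := fun p => Sq a m z0 sg E k (l, p))
    (fun p => meas_Sq a m z0 sg E k hE hk (l, p))
    (by
      intro p q hpq
      refine Set.disjoint_left.2 ?_
      rintro y ⟨_, h1, h2⟩ ⟨_, h3, h4⟩
      apply hpq
      simp only at h1 h2 h3 h4
      exact Prod.ext (h2.symm.trans h4) (h1.symm.trans h3))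
    (ne_of_lt (lt_of_le_of_lt (measure_mono (Set.iUnion_subset fun p => inter_subset_left)) hv))
  refine (key.image (fun p : ℕ × (ℤ × ℤ) => ((l, p) : Top))).subset ?_
  rintro ⟨t1, t2⟩ ⟨h1, h2⟩
  simp only at h1 h2
  subst h1
  exact ⟨t2, h2, rfl⟩

lemma fin_Pp (a m : ℕ) (z0 : ℝ × ℝ) (sg : ℝ) (E : Set (ℝ × ℝ)) (k : ℝ × ℝ → ℕ)
    (hE : MeasurableSet E) (hv : volume E < ⊤) (hk : Measurable k) :
    (Pp a m z0 sg E k).Finite := by
  have h : (⋃ l ∈ Finset.range (m + 1),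
      {t : Top | t.1 = l ∧ Pop a m z0 sg E k l t.2.2 t.2.1}).Finite :=
    Set.Finite.biUnion (Finset.finite_toSet _) fun l _ => fin_level a m z0 sg E k hE hv hk l
  refine h.subset ?_
  rintro t ⟨h1, h2, h3⟩
  simp only [Set.mem_iUnion, Finset.mem_range]
  exact ⟨t.1, by omega, rfl, h3⟩

/-- the order of the triples -/
def Le (t t' : Top) : Prop :=
  t.1 ≤ t'.1 ∧ t'.2.1 / 4 ^ (t'.1 - t.1) = t.2.1 ∧
    t'.2.2 = (t.2.2.1 / (2 ^ (t'.1 - t.1) : ℤ), t.2.2.2 / (2 ^ (t'.1 - t.1) : ℤ))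

lemma Le_refl (t : Top) : Le t t := by
  refine ⟨le_rfl, ?_, ?_⟩
  · simp
  · simp

lemma Le_eq (t t' : Top) (h : Le t t') (h1 : t.1 = t'.1) : t = t' := by
  obtain ⟨_, h2, h3⟩ := h
  rw [h1] at h2 h3
  simp only [Nat.sub_self, pow_zero, Nat.div_one, Int.ediv_one] at h2 h3
  exact Prod.ext h1 (Prod.ext h2.symm (by rw [h3]))

lemma Le_trans (t t' t'' : Top) (h : Le t t') (h' : Le t' t'') : Le t t'' := by
  obtain ⟨a1, a2, a3⟩ := h
  obtain ⟨b1, b2, b3⟩ := h'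
  have e : t''.1 - t.1 = (t''.1 - t'.1) + (t'.1 - t.1) := by omega
  refine ⟨a1.trans b1, ?_, ?_⟩
  · rw [e, pow_add, ← Nat.div_div_eq_div_mul, b2, a2]
  · rw [b3, a3, e, pow_add]
    have h2 : (0 : ℤ) ≤ 2 ^ (t'.1 - t.1) := by positivity
    simp only
    rw [Int.ediv_ediv_of_nonneg h2, Int.ediv_ediv_of_nonneg h2, mul_comm]

lemma Le_of_mem (a m : ℕ) (z0 : ℝ × ℝ) (sg : ℝ) (E : Set (ℝ × ℝ)) (k : ℝ × ℝ → ℕ)
    (t t' : Top) (y : ℝ × ℝ) (h : y ∈ Sq a m z0 sg E k t) (h' : y ∈ Sq a m z0 sg E k t')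
    (hl : t.1 ≤ t'.1) : Le t t' := by
  obtain ⟨_, h1, h2⟩ := h
  obtain ⟨_, h3, h4⟩ := h'
  refine ⟨hl, ?_, ?_⟩
  · rw [← h4, ← h2]
    exact kc_step m sg k t.1 t'.1 hl y
  · rw [← h3, ← h1]
    exact Qx_step a z0 t.1 t'.1 hl y

end TOPx

open MeasureTheory Set
open scoped ENNReal NNReal

theorem pTOP : tTOP := by
  classical
  intro a m z0 sg E k _ h0 _ hE hv hk hk4
  set P : Finset Top := (TOPx.fin_Pp a m z0 sg E k hE hv hk).toFinset with hP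
  have hPm : ∀ t, t ∈ P ↔ 10 * a ≤ t.1 ∧ t.1 ≤ m ∧ Pop a m z0 sg E k t.1 t.2.2 t.2.1 := by
    intro t
    rw [hP, Set.Finite.mem_toFinset]
    rfl
  set T : Finset Top := P.filter (fun t => ∀ t' ∈ P, TOPx.Le t t' → t' = t) with hT
  have hTm : ∀ t, t ∈ T ↔ t ∈ P ∧ ∀ t' ∈ P, TOPx.Le t t' → t' = t := by
    intro t
    rw [hT, Finset.mem_filter]
  refine ⟨T, ?_, ?_, ?_⟩
  · intro t ht
    obtain ⟨h1, h2, h3⟩ := (hPm t).1 ((hTm t).1 ht).1
    refine ⟨h1, h2, ?_⟩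
    have hpos : (0 : ℝ≥0∞) < ENNReal.ofReal (sd a t.1 ^ 2 / 2 ^ (50 * a)) := by
      rw [ENNReal.ofReal_pos]
      have := TOPx.sd_pos a t.1
      positivity
    obtain ⟨y, hy⟩ : (E ∩ {y | Qx a z0 t.1 y = t.2.2 ∧ kc m sg k t.1 y = t.2.1}).Nonempty := by
      rw [Set.nonempty_iff_ne_empty]
      intro he
      unfold Pop at h3
      rw [he, measure_empty] at h3
      exact absurd (hpos.trans_le h3) (lt_irrefl _)
    rw [← hy.2.2]
    exact TOPx.kc_lt m sg k t.1 y h0 (hk4 y)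
  · intro l x hl hlm hp
    set p : Top := (l, kc m sg k l x, Qx a z0 l x) with hpd
    have hpP : p ∈ P := (hPm p).2 ⟨hl, hlm, hp⟩
    set F : Finset Top := P.filter (fun t => TOPx.Le p t) with hF
    have hne : F.Nonempty := ⟨p, by rw [hF, Finset.mem_filter]; exact ⟨hpP, TOPx.Le_refl p⟩⟩
    obtain ⟨t, htF, htm⟩ := Finset.exists_max_image F (fun t => t.1) hne
    rw [hF, Finset.mem_filter] at htF
    have htT : t ∈ T := by
      rw [hTm]
      refine ⟨htF.1, ?_⟩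
      intro t' ht' hle
      have h1 : t' ∈ F := by
        rw [hF, Finset.mem_filter]
        exact ⟨ht', TOPx.Le_trans _ _ _ htF.2 hle⟩
      have h2 := htm t' h1
      have h3 : t.1 = t'.1 := le_antisymm hle.1 h2
      exact (TOPx.Le_eq t t' hle h3).symm
    refine ⟨t, ?_, htF.2.1, htF.2.2.1⟩
    unfold TX
    rw [Finset.mem_filter]
    refine ⟨htT, ?_⟩
    rw [TOPx.Qx_step a z0 l t.1 htF.2.1 x, htF.2.2.2]
  · have h1 : ∀ t ∈ T, ENNReal.ofReal (sd a t.1 ^ 2) ≤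
        ENNReal.ofReal (2 ^ (50 * a)) * volume (TOPx.Sq a m z0 sg E k t) := by
      intro t ht
      obtain ⟨_, _, h3⟩ := (hPm t).1 ((hTm t).1 ht).1
      have h4 : sd a t.1 ^ 2 = 2 ^ (50 * a) * (sd a t.1 ^ 2 / 2 ^ (50 * a)) := by
        field_simp
      rw [h4, ENNReal.ofReal_mul (by positivity)]
      exact mul_le_mul_right h3 _
    refine (Finset.sum_le_sum h1).trans ?_
    rw [← Finset.mul_sum]
    refine mul_le_mul_right ?_ _
    have hd : (↑T : Set Top).PairwiseDisjoint (TOPx.Sq a m z0 sg E k) := by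
      intro t ht t' ht' hne
      have ht := (hTm t).1 ht
      have ht' := (hTm t').1 ht'
      refine Set.disjoint_left.2 ?_
      intro y hy hy'
      rcases le_total t.1 t'.1 with hl | hl
      · exact hne (ht.2 t' ht'.1 (TOPx.Le_of_mem a m z0 sg E k t t' y hy hy' hl)).symm
      · exact hne (ht'.2 t ht.1 (TOPx.Le_of_mem a m z0 sg E k t' t y hy' hy hl))
    rw [← measure_biUnion_finset hd (fun t _ => TOPx.meas_Sq a m z0 sg E k hE hk t)]
    exact measure_mono (Set.iUnion₂_subset fun t _ => inter_subset_left)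

end Pool.Agent.LLog
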