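import Pool.Agent.LLog.Targets
import Pool.Agent.KSP.Base

set_option autoImplicit false

/-! LLG-TRA: translations along the direction of a cap are phases. -/

namespace Pool.Agent.LLog

open MeasureTheory Set
open scoped ENNReal NNReal ComplexConjugate
open Pool.Agent.KSP (ee dot nr Ex Ex1 Bd Bd1 n1 n2 lg V0 ann)

namespace TRA_

lemma ee_add (s t : ℝ) : ee (s + t) = ee s * ee t := by
  unfold ee
  rw [← Complex.exp_add]
  congr 1
  push_cast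
  ring

lemma ee_eq (t : ℝ) : ee t = Complex.exp (Complex.I * ((2 * Real.pi * t : ℝ) : ℂ)) := by
  unfold ee
  congr 1
  push_cast
  ring

lemma norm_ee (t : ℝ) : ‖ee t‖ = 1 := by
  rw [ee_eq, mul_comm, Complex.norm_exp_ofReal_mul_I]

lemma ee_sub_one (t : ℝ) : ‖ee t - 1‖ ≤ 2 * Real.pi * |t| := by
  rw [ee_eq]
  refine (Real.norm_exp_I_mul_ofReal_sub_one_le).trans ?_
  rw [Real.norm_eq_abs, abs_mul, abs_of_pos (by positivity : 0 < 2 * Real.pi)]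

lemma cont_ee : Continuous ee := by
  unfold ee
  fun_prop

lemma cont_dot (x : ℝ × ℝ) : Continuous fun ξ : ℝ × ℝ => dot x ξ := by
  unfold dot
  fun_prop

lemma Bd_mul {k g : ℝ × ℝ → ℂ} (hk : Bd k) (hg : Measurable g) {C : ℝ} (hC : ∀ ξ, ‖g ξ‖ ≤ C) :
    Bd (fun ξ => g ξ * k ξ) := by
  obtain ⟨hm, ⟨B, hB⟩, R, hR⟩ := hk
  refine ⟨hg.mul hm, ⟨C * B, fun ξ => ?_⟩, R, fun ξ hξ => hR ξ (right_ne_zero_of_mul hξ)⟩
  rw [norm_mul]
  exact mul_le_mul (hC ξ) (hB ξ) (norm_nonneg _) ((norm_nonneg _).trans (hC ξ))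

lemma Bd_int {k : ℝ × ℝ → ℂ} (hk : Bd k) : Integrable k :=
  memLp_one_iff_integrable.1 (KSP.Base_.bd_memLp hk 1)

lemma Bd_int_ee {k : ℝ × ℝ → ℂ} (hk : Bd k) (y : ℝ × ℝ) :
    Integrable fun ξ => k ξ * ee (dot y ξ) := by
  have h := Bd_int (Bd_mul hk (cont_ee.comp (cont_dot y)).measurable
    (C := 1) fun ξ => (norm_ee _).le)
  refine h.congr (Filter.Eventually.of_forall fun ξ => ?_)
  exact mul_comm _ _

/-! ### Geometry -/

lemma Nn_pos (t : ℝ) : 0 < Nn t := by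
  unfold Nn
  positivity

lemma Nn_sq (t : ℝ) : Nn t ^ 2 = 1 + t ^ 2 := Real.sq_sqrt (by positivity)

lemma nr_sq (ξ : ℝ × ℝ) : nr ξ ^ 2 = ξ.1 ^ 2 + ξ.2 ^ 2 := Real.sq_sqrt (by positivity)

lemma geo {sl : ℝ} {j p : ℕ} {ξ : ℝ × ℝ} (h : cp sl j p ξ) (hn : nr ξ ≤ 3) :
    |dot (nv (tp sl j p)) ξ - nr ξ| ≤ 3 / 4 ^ j := by
  obtain ⟨h0, h1, h2⟩ := h
  set t := tp sl j p with ht
  set u := ξ.2 / ξ.1 with hu
  have h2j : (0 : ℝ) < 2 ^ j := by positivity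
  have hu2 : ξ.2 = u * ξ.1 := by rw [hu]; field_simp
  set δ := u - t with hδ
  have hδ0 : 0 ≤ δ := by
    have : (p : ℝ) / 2 ^ j ≤ u + sl := by rw [div_le_iff₀ h2j]; linarith
    rw [hδ, ht, tp]
    linarith
  have hδ1 : δ ≤ 1 / 2 ^ j := by
    have : u + sl ≤ (p + 1 : ℝ) / 2 ^ j := by rw [le_div_iff₀ h2j]; linarith
    rw [add_div] at this
    rw [hδ, ht, tp]
    linarith
  have hj1 : (1 : ℝ) / 2 ^ j ≤ 1 := by
    rw [div_le_one h2j]
    exact one_le_pow₀ (by norm_num)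
  have hδ2 : δ ≤ 1 := hδ1.trans hj1
  have hu' : u = t + δ := by rw [hδ]; ring
  have hN := Nn_pos t
  have hN2 := Nn_sq t
  have hN1 : 1 ≤ Nn t := by nlinarith [sq_nonneg t]
  have hpos : 0 < 1 + t * u := by
    rw [hu']
    nlinarith [sq_nonneg (t + δ / 2)]
  set A := dot (nv t) ξ with hA
  have hA' : A = ξ.1 * (1 + t * u) / Nn t := by
    rw [hA, dot, nv, hu2]
    ring
  have hA0 : 0 < A := by rw [hA']; positivity
  set W := ξ.1 * δ / Nn t with hW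
  have hAW : A ^ 2 + W ^ 2 = nr ξ ^ 2 := by
    rw [nr_sq, hA', hW, hu2, hu']
    field_simp
    rw [hN2]
    ring
  have hnr0 : 0 < nr ξ := by
    have : 0 < nr ξ ^ 2 := by rw [nr_sq]; positivity
    have h3 : 0 ≤ nr ξ := Real.sqrt_nonneg _
    exact lt_of_le_of_ne h3 (fun h4 => by rw [← h4] at this; simp at this)
  have hWle : W ^ 2 ≤ nr ξ ^ 2 * δ ^ 2 := by
    have h3 : W ≤ ξ.1 * δ := by
      rw [hW, div_le_iff₀ hN]
      have := mul_nonneg h0.le hδ0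
      nlinarith
    have h4 : 0 ≤ W := by positivity
    have h5 : W ^ 2 ≤ (ξ.1 * δ) ^ 2 := by
      exact pow_le_pow_left₀ h4 h3 2
    have h6 : ξ.1 ^ 2 ≤ nr ξ ^ 2 := by rw [nr_sq]; nlinarith [sq_nonneg ξ.2]
    calc W ^ 2 ≤ ξ.1 ^ 2 * δ ^ 2 := by rw [← mul_pow]; exact h5
      _ ≤ nr ξ ^ 2 * δ ^ 2 := by gcongr
  have hAle : A ≤ nr ξ := by
    apply abs_le_of_sq_le_sq' _ hnr0.le |>.2
    nlinarith [sq_nonneg W]
  have hkey : (nr ξ - A) * nr ξ ≤ nr ξ ^ 2 * δ ^ 2 := by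
    nlinarith [mul_nonneg (sub_nonneg.2 hAle) hA0.le]
  have hkey2 : nr ξ - A ≤ nr ξ * δ ^ 2 := by
    have : (nr ξ - A) * nr ξ ≤ (nr ξ * δ ^ 2) * nr ξ := by nlinarith
    exact le_of_mul_le_mul_right this hnr0
  have hδsq : δ ^ 2 ≤ 1 / 4 ^ j := by
    have h3 : δ ^ 2 ≤ (1 / 2 ^ j) ^ 2 := pow_le_pow_left₀ hδ0 hδ1 2
    have h4 : ((1 : ℝ) / 2 ^ j) ^ 2 = 1 / 4 ^ j := by
      rw [div_pow, one_pow, ← pow_mul, mul_comm j 2, pow_mul]
      norm_num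
    rwa [h4] at h3
  rw [abs_sub_comm, abs_of_nonneg (sub_nonneg.2 hAle)]
  calc nr ξ - A ≤ nr ξ * δ ^ 2 := hkey2
    _ ≤ 3 * (1 / 4 ^ j) := by gcongr
    _ = 3 / 4 ^ j := by ring

/-! ### Translation -/

lemma shift {k : ℝ × ℝ → ℂ} (hk : Bd k) (r1 s : ℝ) (v y : ℝ × ℝ) :
    Ex k (y - s • v) = ee (-(s * r1)) *
      (Ex k y + Ex (fun ξ => (ee (-(s * (dot v ξ - r1))) - 1) * k ξ) y) := by
  have hm : Measurable fun ξ : ℝ × ℝ => ee (-(s * (dot v ξ - r1))) - 1 := by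
    have h1 : Continuous fun ξ : ℝ × ℝ => ee (-(s * (dot v ξ - r1))) - 1 :=
      (cont_ee.comp (((cont_dot v).sub continuous_const).const_smul s).neg).sub continuous_const
    exact h1.measurable
  have hb := Bd_mul hk hm (C := 2) fun ξ => by
    refine (norm_sub_le _ _).trans ?_
    rw [norm_ee, norm_one]
    norm_num
  unfold Ex
  rw [← integral_add (Bd_int_ee hk y) (Bd_int_ee hb y), ← integral_const_mul]
  congr 1
  funext ξ
  have h1 : dot (y - s • v) ξ = -(s * r1) + (-(s * (dot v ξ - r1)) + dot y ξ) := by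
    simp only [dot, Prod.fst_sub, Prod.snd_sub, Prod.smul_fst, Prod.smul_snd, smul_eq_mul]
    ring
  rw [h1, ee_add, ee_add]
  ring

lemma enorm_add_sq (x y : ℂ) : ‖x + y‖ₑ ^ 2 ≤ 2 * ‖x‖ₑ ^ 2 + 2 * ‖y‖ₑ ^ 2 := by
  have e : ∀ z : ℂ, ‖z‖ₑ = ENNReal.ofReal ‖z‖ := fun z => (ofReal_norm z).symm
  rw [e, e, e, ← ENNReal.ofReal_pow (norm_nonneg _), ← ENNReal.ofReal_pow (norm_nonneg _),
    ← ENNReal.ofReal_pow (norm_nonneg _)]
  have h2 : (2 : ℝ≥0∞) = ENNReal.ofReal 2 := by simp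
  rw [h2, ← ENNReal.ofReal_mul (by norm_num), ← ENNReal.ofReal_mul (by norm_num),
    ← ENNReal.ofReal_add (by positivity) (by positivity)]
  apply ENNReal.ofReal_le_ofReal
  have h3 := norm_add_le x y
  have h4 := norm_nonneg (x + y)
  nlinarith [sq_nonneg (‖x‖ - ‖y‖), norm_nonneg x, norm_nonneg y]

lemma one_shift (hP : KSP.tPl2) {k : ℝ × ℝ → ℂ} (hk : Bd k) {X : Set (ℝ × ℝ)} (r1 s δ : ℝ)
    (v : ℝ × ℝ) (hδ : 0 ≤ δ) (h : ∀ ξ, k ξ ≠ 0 → |s * (dot v ξ - r1)| ≤ δ) :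
    ∫⁻ y in X, ‖Ex k (y - s • v)‖ₑ ^ 2 ≤
      2 * (∫⁻ y in X, ‖Ex k y‖ₑ ^ 2) + 2 * (ENNReal.ofReal ((2 * Real.pi * δ) ^ 2) * n2 k) := by
  have hm : Measurable fun ξ : ℝ × ℝ => ee (-(s * (dot v ξ - r1))) - 1 := by
    have h1 : Continuous fun ξ : ℝ × ℝ => ee (-(s * (dot v ξ - r1))) - 1 :=
      (cont_ee.comp (((cont_dot v).sub continuous_const).const_smul s).neg).sub continuous_const
    exact h1.measurable
  have hb := Bd_mul hk hm (C := 2) fun ξ => by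
    refine (norm_sub_le _ _).trans ?_
    rw [norm_ee, norm_one]
    norm_num
  set kk : ℝ × ℝ → ℂ := fun ξ => (ee (-(s * (dot v ξ - r1))) - 1) * k ξ with hkk
  have hc := (hP k hk).1
  have hckk := (hP kk hb).1
  have h1 : ∀ y, ‖Ex k (y - s • v)‖ₑ ^ 2 ≤ 2 * ‖Ex k y‖ₑ ^ 2 + 2 * ‖Ex kk y‖ₑ ^ 2 := by
    intro y
    have h2 : ‖Ex k (y - s • v)‖ₑ = ‖Ex k y + Ex kk y‖ₑ := by
      rw [shift hk r1 s v y, enorm_mul]
      have : ‖ee (-(s * r1))‖ₑ = 1 := by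
        rw [← ofReal_norm, norm_ee, ENNReal.ofReal_one]
      rw [this, one_mul]
    rw [h2]
    exact enorm_add_sq _ _
  have h3 : n2 kk ≤ ENNReal.ofReal ((2 * Real.pi * δ) ^ 2) * n2 k := by
    unfold n2
    rw [← lintegral_const_mul' _ _ ENNReal.ofReal_ne_top]
    refine lintegral_mono fun ξ => ?_
    by_cases hξ : k ξ = 0
    · simp [hkk, hξ]
    · have h4 : ‖ee (-(s * (dot v ξ - r1))) - 1‖ ≤ 2 * Real.pi * δ := by
        refine (ee_sub_one _).trans ?_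
        rw [abs_neg]
        exact mul_le_mul_of_nonneg_left (h ξ hξ) (by positivity)
      have h5 : ‖kk ξ‖ₑ = ‖ee (-(s * (dot v ξ - r1))) - 1‖ₑ * ‖k ξ‖ₑ := enorm_mul _ _
      rw [h5, mul_pow, ENNReal.ofReal_pow (by positivity)]
      gcongr
      rw [← ofReal_norm]
      exact ENNReal.ofReal_le_ofReal h4
  calc ∫⁻ y in X, ‖Ex k (y - s • v)‖ₑ ^ 2
      ≤ ∫⁻ y in X, (2 * ‖Ex k y‖ₑ ^ 2 + 2 * ‖Ex kk y‖ₑ ^ 2) := lintegral_mono fun y => h1 y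
    _ = 2 * (∫⁻ y in X, ‖Ex k y‖ₑ ^ 2) + 2 * (∫⁻ y in X, ‖Ex kk y‖ₑ ^ 2) := by
        rw [lintegral_add_left (by fun_prop), lintegral_const_mul' _ _ (by norm_num),
          lintegral_const_mul' _ _ (by norm_num)]
    _ ≤ 2 * (∫⁻ y in X, ‖Ex k y‖ₑ ^ 2) + 2 * n2 kk := by
        gcongr
        rw [← (hP kk hb).2]
        exact setLIntegral_le_lintegral _ _
    _ ≤ _ := by gcongr

/-- Tonelli and translation. -/
lemma swap (hP : KSP.tPl2) {k : ℝ × ℝ → ℂ} (hk : Bd k) {X : Set (ℝ × ℝ)} (hX : MeasurableSet X)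
    (t L : ℝ) : ∫⁻ x, sa t L X x * ‖Ex k x‖ₑ ^ 2 =
      (ENNReal.ofReal (2 * L))⁻¹ * ∫⁻ s in Icc (-L) L, ∫⁻ y in X, ‖Ex k (y - s • nv t)‖ₑ ^ 2 := by
  have hc := (hP k hk).1
  have hind : Measurable (X.indicator (1 : ℝ × ℝ → ℝ≥0∞)) := measurable_one.indicator hX
  have hm : Measurable (fun z : (ℝ × ℝ) × ℝ =>
      X.indicator (1 : ℝ × ℝ → ℝ≥0∞) (z.1 + z.2 • nv t) * ‖Ex k z.1‖ₑ ^ 2) := by
    apply Measurable.mul
    · exact hind.comp (by fun_prop)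
    · exact ((hc.measurable.comp measurable_fst).enorm).pow_const 2
  have h1 : ∀ x, sa t L X x * ‖Ex k x‖ₑ ^ 2 = (ENNReal.ofReal (2 * L))⁻¹ *
      ∫⁻ s in Icc (-L) L, X.indicator (1 : ℝ × ℝ → ℝ≥0∞) (x + s • nv t) * ‖Ex k x‖ₑ ^ 2 := by
    intro x
    rw [sa, mul_assoc, lintegral_mul_const]
    exact hind.comp (by fun_prop)
  simp_rw [h1]
  rw [lintegral_const_mul, lintegral_lintegral_swap]
  · congr 1
    refine lintegral_congr fun s => ?_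
    rw [← lintegral_sub_right_eq_self _ (s • nv t), ← lintegral_indicator hX]
    refine lintegral_congr fun y => ?_
    rw [sub_add_cancel]
    by_cases hy : y ∈ X
    · simp [hy]
    · simp [hy]
  · exact hm.aemeasurable
  · exact Measurable.lintegral_prod_right' hm

end TRA_

open TRA_

theorem pTRA : tTRA := by
  intro a m sg sl l d e c p L X k hPA hsg hsg1 hsl hsl2 hl hld hdm hle hem hp hL hL2 hX hk hks
  have hP := KSP.pPl2
  set t := tp sl (e + 8 * a) p with ht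
  set r1 : ℝ := sg + c / 4 ^ d with hr1
  rw [swap hP hk hX]
  -- the size of the phases
  have ha : 20 ≤ a := hPA.1
  have hphase : ∀ s ∈ Icc (-L) L, ∀ ξ, k ξ ≠ 0 →
      |s * (dot (nv t) ξ - r1)| ≤ 2 / 2 ^ (4 * a) := by
    intro s hs ξ hξ
    obtain ⟨h1, h2, h3⟩ := hks ξ hξ
    have h4 := geo h2 h3
    have h5 : |nr ξ - r1| ≤ 1 / 4 ^ d := by
      obtain ⟨h6, h7⟩ := h1
      have h4d : (0 : ℝ) < 4 ^ d := by positivity
      have h8 : (c : ℝ) / 4 ^ d ≤ nr ξ - sg := by rw [div_le_iff₀ h4d]; linarith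
      have h9 : nr ξ - sg ≤ (c + 1 : ℝ) / 4 ^ d := by rw [le_div_iff₀ h4d]; linarith
      rw [add_div] at h9
      have h10 : (0 : ℝ) ≤ 1 / 4 ^ d := by positivity
      rw [abs_le, hr1]
      constructor <;> linarith
    have h6 : |dot (nv t) ξ - r1| ≤ 3 / 4 ^ (e + 8 * a) + 1 / 4 ^ d := by
      have : dot (nv t) ξ - r1 = (dot (nv t) ξ - nr ξ) + (nr ξ - r1) := by ring
      rw [this]
      exact (abs_add_le _ _).trans (add_le_add h4 h5)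
    have h7 : |s| ≤ 4 ^ (l + 5 * a) := (abs_le.2 ⟨hs.1, hs.2⟩).trans hL2
    rw [abs_mul]
    calc |s| * |dot (nv t) ξ - r1| ≤ 4 ^ (l + 5 * a) * (3 / 4 ^ (e + 8 * a) + 1 / 4 ^ d) := by
          gcongr
      _ = 3 * (4 ^ (l + 5 * a) / 4 ^ (e + 8 * a)) + 4 ^ (l + 5 * a) / 4 ^ d := by ring
      _ ≤ 1 / 2 ^ (4 * a) + 1 / 2 ^ (4 * a) := by
          have e1 : (2 : ℝ) ^ (4 * a) = 4 ^ (2 * a) := by
            rw [show (4 : ℝ) = 2 ^ 2 by norm_num, ← pow_mul]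
            congr 1
            ring
          apply add_le_add
          · have h8 : (4 : ℝ) ^ (l + 5 * a) * (3 * 4 ^ (2 * a)) ≤ 4 ^ (e + 8 * a) := by
              have h9 : (3 : ℝ) ≤ 4 ^ 1 := by norm_num
              calc (4 : ℝ) ^ (l + 5 * a) * (3 * 4 ^ (2 * a))
                  ≤ 4 ^ (l + 5 * a) * (4 ^ 1 * 4 ^ (2 * a)) := by gcongr
                _ = 4 ^ (l + 5 * a + (1 + 2 * a)) := by rw [← pow_add, ← pow_add]
                _ ≤ 4 ^ (e + 8 * a) := pow_le_pow_right₀ (by norm_num) (by omega)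
            rw [e1, ← mul_div_assoc, div_le_div_iff₀ (by positivity) (by positivity)]
            linarith
          · rw [e1, div_le_div_iff₀ (by positivity) (by positivity), one_mul, ← pow_add]
            exact pow_le_pow_right₀ (by norm_num) (by omega)
      _ = 2 / 2 ^ (4 * a) := by ring
  have hδ : (0 : ℝ) ≤ 2 / 2 ^ (4 * a) := by positivity
  have hbound : 2 * ENNReal.ofReal ((2 * Real.pi * (2 / 2 ^ (4 * a))) ^ 2) ≤
      ENNReal.ofReal (1 / 2 ^ (5 * a)) := by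
    have h2 : (2 : ℝ≥0∞) = ENNReal.ofReal 2 := by simp
    rw [h2, ← ENNReal.ofReal_mul (by norm_num)]
    apply ENNReal.ofReal_le_ofReal
    have hpi : Real.pi ^ 2 ≤ 16 := by nlinarith [Real.pi_le_four, Real.pi_pos]
    have h3 : 2 * (2 * Real.pi * (2 / 2 ^ (4 * a))) ^ 2 = 32 * Real.pi ^ 2 / 2 ^ (8 * a) := by
      have : (2 : ℝ) ^ (8 * a) = (2 ^ (4 * a)) ^ 2 := by
        rw [← pow_mul]
        congr 1
        ring
      rw [this]
      field_simp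
      ring
    rw [h3, div_le_div_iff₀ (by positivity) (by positivity), one_mul]
    calc 32 * Real.pi ^ 2 * 2 ^ (5 * a) ≤ 32 * 16 * 2 ^ (5 * a) := by gcongr
      _ = 2 ^ (9 + 5 * a) := by rw [pow_add]; norm_num
      _ ≤ 2 ^ (8 * a) := pow_le_pow_right₀ (by norm_num) (by omega)
  have hmain : ∀ s ∈ Icc (-L) L, ∫⁻ y in X, ‖Ex k (y - s • nv t)‖ₑ ^ 2 ≤
      2 * (∫⁻ x in X, ‖Ex k x‖ₑ ^ 2) + ENNReal.ofReal (1 / 2 ^ (5 * a)) * n2 k := by
    intro s hs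
    refine (one_shift hP hk r1 s _ (nv t) hδ (hphase s hs)).trans ?_
    rw [← mul_assoc]
    gcongr
  have h2L : ENNReal.ofReal (2 * L) ≠ 0 := by
    rw [Ne, ENNReal.ofReal_eq_zero, not_le]
    positivity
  calc (ENNReal.ofReal (2 * L))⁻¹ * ∫⁻ s in Icc (-L) L, ∫⁻ y in X, ‖Ex k (y - s • nv t)‖ₑ ^ 2
      ≤ (ENNReal.ofReal (2 * L))⁻¹ * ∫⁻ s in Icc (-L) L, (2 * (∫⁻ x in X, ‖Ex k x‖ₑ ^ 2) +
          ENNReal.ofReal (1 / 2 ^ (5 * a)) * n2 k) := by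
        exact mul_le_mul_of_nonneg_left (setLIntegral_mono' measurableSet_Icc hmain) zero_le
    _ = (2 * (∫⁻ x in X, ‖Ex k x‖ₑ ^ 2) + ENNReal.ofReal (1 / 2 ^ (5 * a)) * n2 k) := by
        rw [setLIntegral_const, Real.volume_Icc, sub_neg_eq_add, ← two_mul, mul_comm _
          (ENNReal.ofReal (2 * L)), ← mul_assoc, ENNReal.inv_mul_cancel h2L
          ENNReal.ofReal_ne_top, one_mul]

end Pool.Agent.LLog
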