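import Pool.Agent.LLog.Targets

set_option autoImplicit false

/-! MP_ee701d_an: F7, decomposition of the path of a point in the tree of labels (`pTRE`). -/

namespace Pool.Agent.LLog

namespace TREx

open Finset

/-! ### Dyadic blocks -/

/-- squares of the increments over the blocks of length `2^s` contained in `[i,j)` -/
noncomputable def qq (f : ℕ → ℂ) (N s i j : ℕ) : ℝ :=
  ∑ n ∈ range N, if i ≤ n * 2 ^ s ∧ (n + 1) * 2 ^ s ≤ j then
    ‖f ((n + 1) * 2 ^ s) - f (n * 2 ^ s)‖ ^ 2 else 0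

lemma qq_nonneg (f : ℕ → ℂ) (N s i j : ℕ) : 0 ≤ qq f N s i j := by
  unfold qq
  apply sum_nonneg
  intro n _
  split_ifs
  · positivity
  · exact le_refl _

lemma qq_scale (f : ℕ → ℂ) (N s i j : ℕ) :
    qq (fun n => f (2 * n)) N s ((i + 1) / 2) (j / 2) = qq f N (s + 1) i j := by
  unfold qq
  apply sum_congr rfl
  intro n _
  have e1 : 2 * ((n + 1) * 2 ^ s) = (n + 1) * 2 ^ (s + 1) := by ring
  have e2 : 2 * (n * 2 ^ s) = n * 2 ^ (s + 1) := by ring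
  have h1 : ((i + 1) / 2 ≤ n * 2 ^ s ∧ (n + 1) * 2 ^ s ≤ j / 2) ↔
      (i ≤ n * 2 ^ (s + 1) ∧ (n + 1) * 2 ^ (s + 1) ≤ j) := by
    rw [← e1, ← e2]
    constructor
    · rintro ⟨h, h'⟩
      constructor <;> omega
    · rintro ⟨h, h'⟩
      constructor <;> omega
  by_cases hc : i ≤ n * 2 ^ (s + 1) ∧ (n + 1) * 2 ^ (s + 1) ≤ j
  · rw [if_pos (h1.2 hc), if_pos hc]
    simp only [e1, e2]
  · rw [if_neg (fun h => hc (h1.1 h)), if_neg hc]

lemma one_block (f : ℕ → ℂ) (N i j n : ℕ) (h1 : i ≤ n) (h2 : n + 1 ≤ j) (hN : j ≤ N) :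
    ‖f (n + 1) - f n‖ ≤ √(qq f N 0 i j) := by
  apply Real.le_sqrt_of_sq_le
  unfold qq
  have hn : n ∈ range N := mem_range.2 (by omega)
  have := single_le_sum (s := range N) (f := fun n => if i ≤ n * 2 ^ 0 ∧ (n + 1) * 2 ^ 0 ≤ j then
    ‖f ((n + 1) * 2 ^ 0) - f (n * 2 ^ 0)‖ ^ 2 else 0) (fun n _ => by
      split_ifs
      · positivity
      · exact le_refl _) hn
  rw [if_pos (by constructor <;> omega)] at this
  simpa only [pow_zero, mul_one] using this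

lemma block (a : ℕ) : ∀ (f : ℕ → ℂ) (N i j : ℕ), i ≤ j → j < 2 ^ a → j ≤ N →
    ‖f j - f i‖ ≤ 2 * ∑ s ∈ range a, √(qq f N s i j) := by
  induction a with
  | zero =>
    intro f N i j hij hj hN
    have h0 : j = 0 := by
      rw [pow_zero] at hj
      omega
    have h0' : i = 0 := by omega
    subst h0 h0'
    simp
  | succ a ih =>
    intro f N i j hij hj hN
    rcases Nat.eq_or_lt_of_le hij with he | hlt
    · subst he
      rw [sub_self, norm_zero]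
      have : 0 ≤ ∑ s ∈ range (a + 1), √(qq f N s i i) := sum_nonneg fun s _ => Real.sqrt_nonneg _
      linarith
    · have h2 := ih (fun n => f (2 * n)) N ((i + 1) / 2) (j / 2) (by omega)
        (by rw [pow_succ] at hj; omega) (by omega)
      simp only [qq_scale] at h2
      rw [sum_range_succ' (fun s => √(qq f N s i j))]
      have hA : ‖f j - f (2 * (j / 2))‖ ≤ √(qq f N 0 i j) := by
        rcases Nat.even_or_odd' j with ⟨k, hk | hk⟩
        · have : 2 * (j / 2) = j := by omega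
          rw [this, sub_self, norm_zero]
          exact Real.sqrt_nonneg _
        · have h3 : 2 * (j / 2) = j - 1 := by omega
          have h4 : j = (j - 1) + 1 := by omega
          rw [h3]
          have := one_block f N i j (j - 1) (by omega) (by omega) hN
          rwa [← h4] at this
      have hB : ‖f (2 * ((i + 1) / 2)) - f i‖ ≤ √(qq f N 0 i j) := by
        rcases Nat.even_or_odd' i with ⟨k, hk | hk⟩
        · have : 2 * ((i + 1) / 2) = i := by omega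
          rw [this, sub_self, norm_zero]
          exact Real.sqrt_nonneg _
        · have h3 : 2 * ((i + 1) / 2) = i + 1 := by omega
          rw [h3]
          exact one_block f N i j i (le_refl _) (by omega) hN
      have hs : f j - f i = (f j - f (2 * (j / 2))) + (f (2 * (j / 2)) - f (2 * ((i + 1) / 2))) +
          (f (2 * ((i + 1) / 2)) - f i) := by ring
      rw [hs]
      refine (norm_add_le _ _).trans ?_
      have := norm_add_le (f j - f (2 * (j / 2))) (f (2 * (j / 2)) - f (2 * ((i + 1) / 2)))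
      linarith

lemma block_sq (a : ℕ) (f : ℕ → ℂ) (N i j : ℕ) (hij : i ≤ j) (hj : j < 2 ^ a) (hN : j ≤ N) :
    ‖f j - f i‖ ^ 2 ≤ 4 * (a + 1) * ∑ s ∈ range (a + 1), qq f N s i j := by
  have h1 := block a f N i j hij hj hN
  have h2 : (∑ s ∈ range a, √(qq f N s i j)) ^ 2 ≤ a * ∑ s ∈ range a, qq f N s i j := by
    have := sq_sum_le_card_mul_sum_sq (s := range a) (f := fun s => √(qq f N s i j))
    rw [card_range] at this
    refine this.trans (le_of_eq ?_)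
    congr 1
    apply sum_congr rfl
    intro s _
    exact Real.sq_sqrt (qq_nonneg _ _ _ _ _)
  have h3 : ∑ s ∈ range a, qq f N s i j ≤ ∑ s ∈ range (a + 1), qq f N s i j := by
    rw [sum_range_succ]
    have := qq_nonneg f N a i j
    linarith
  have h4 : 0 ≤ ∑ s ∈ range a, qq f N s i j := sum_nonneg fun s _ => qq_nonneg _ _ _ _ _
  have h5 : ‖f j - f i‖ ^ 2 ≤ (2 * ∑ s ∈ range a, √(qq f N s i j)) ^ 2 := by
    apply pow_le_pow_left₀ (norm_nonneg _) h1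
  calc ‖f j - f i‖ ^ 2 ≤ (2 * ∑ s ∈ range a, √(qq f N s i j)) ^ 2 := h5
    _ = 4 * (∑ s ∈ range a, √(qq f N s i j)) ^ 2 := by ring
    _ ≤ 4 * (a * ∑ s ∈ range a, qq f N s i j) := by linarith
    _ ≤ 4 * ((a + 1) * ∑ s ∈ range (a + 1), qq f N s i j) := by
        have : (a : ℝ) * ∑ s ∈ range a, qq f N s i j ≤
            (a + 1) * ∑ s ∈ range (a + 1), qq f N s i j := by
          apply mul_le_mul (by linarith) h3 h4 (by positivity)
        linarith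
    _ = 4 * (a + 1) * ∑ s ∈ range (a + 1), qq f N s i j := by ring

/-- sum of the weights of the blocks contained in `[i,j)` -/
noncomputable def BB (w : ℕ → ℕ → ℝ) (a m i j : ℕ) : ℝ :=
  ∑ s ∈ range (a + 1), ∑ n ∈ range (m + 1),
    if i ≤ n * 2 ^ s ∧ (n + 1) * 2 ^ s ≤ j then w s n else 0

lemma BB_nonneg {w : ℕ → ℕ → ℝ} (hw : ∀ s n, 0 ≤ w s n) (a m i j : ℕ) : 0 ≤ BB w a m i j := by
  unfold BB
  apply sum_nonneg
  intro s _
  apply sum_nonneg
  intro n _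
  split_ifs
  · exact hw _ _
  · exact le_refl _

lemma BB_add {w : ℕ → ℕ → ℝ} (hw : ∀ s n, 0 ≤ w s n) (a m i j k l : ℕ) (h1 : i ≤ k)
    (h2 : j ≤ k) (h3 : j ≤ l) : BB w a m i j + BB w a m k l ≤ BB w a m i l := by
  unfold BB
  rw [← sum_add_distrib]
  apply sum_le_sum
  intro s _
  rw [← sum_add_distrib]
  apply sum_le_sum
  intro n _
  have hp : 0 < 2 ^ s := by positivity
  have hX : n * 2 ^ s < (n + 1) * 2 ^ s := by
    rw [add_mul, one_mul]
    omega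
  have hw' := hw s n
  by_cases hA : i ≤ n * 2 ^ s ∧ (n + 1) * 2 ^ s ≤ j
  · have hB : ¬ (k ≤ n * 2 ^ s ∧ (n + 1) * 2 ^ s ≤ l) := by
      rintro ⟨h, _⟩
      omega
    rw [if_pos hA, if_neg hB, if_pos ⟨hA.1, hA.2.trans h3⟩, add_zero]
  · by_cases hB : k ≤ n * 2 ^ s ∧ (n + 1) * 2 ^ s ≤ l
    · rw [if_neg hA, if_pos hB, if_pos ⟨h1.trans hB.1, hB.2⟩, zero_add]
    · rw [if_neg hA, if_neg hB, add_zero]
      split_ifs
      · exact hw'
      · exact le_refl _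

lemma BB_qq {w : ℕ → ℕ → ℝ} (f : ℕ → ℂ) (a m i j : ℕ)
    (h : ∀ s n, i ≤ n * 2 ^ s → (n + 1) * 2 ^ s ≤ j →
      ‖f ((n + 1) * 2 ^ s) - f (n * 2 ^ s)‖ ^ 2 ≤ w s n) :
    ∑ s ∈ range (a + 1), qq f (m + 1) s i j ≤ BB w a m i j := by
  unfold BB qq
  apply sum_le_sum
  intro s _
  apply sum_le_sum
  intro n _
  by_cases hA : i ≤ n * 2 ^ s ∧ (n + 1) * 2 ^ s ≤ j
  · rw [if_pos hA, if_pos hA]
    exact h s n hA.1 hA.2
  · rw [if_neg hA, if_neg hA]

/-- the hypothesis on a segment starting at `i` -/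
def Seg (Lf Rt : ℕ → ℂ) (w : ℕ → ℕ → ℝ) (ch : ℕ → ℝ) (Ev : ℕ → Prop) (l1 i j : ℕ) : Prop :=
  i ≤ j ∧ j < l1 ∧
  (∀ s n, i ≤ n * 2 ^ s → (n + 1) * 2 ^ s ≤ j →
    ‖Lf ((n + 1) * 2 ^ s) - Lf (n * 2 ^ s)‖ ^ 2 + ‖Rt (n * 2 ^ s) - Rt ((n + 1) * 2 ^ s)‖ ^ 2 ≤
      w s n) ∧
  (‖Lf (j + 1) - Lf j‖ ^ 2 ≤ 4 * ch (j + 1) ∨ ‖Rt j - Lf (j + 1)‖ ^ 2 ≤ 4 * ch (j + 1)) ∧
  (j + 1 < l1 → Ev (j + 1) ∧ ‖Rt (j + 1) - Lf (j + 1)‖ ^ 2 ≤ ch (j + 1))

lemma sq3 (x y z X Y Z : ℝ) (h1 : x ^ 2 ≤ X)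
    (h2 : y ^ 2 ≤ Y) (h3 : z ^ 2 ≤ Z) : (x + y + z) ^ 2 ≤ 3 * (X + Y + Z) := by
  nlinarith [sq_nonneg (x - y), sq_nonneg (y - z), sq_nonneg (x - z)]

lemma seg_bound {Lf Rt : ℕ → ℂ} {w : ℕ → ℕ → ℝ} {ch : ℕ → ℝ} {Ev : ℕ → Prop}
    {a m l1 i j : ℕ} (h1m : l1 ≤ m) (hma : m < 2 ^ a) (hw : ∀ s n, 0 ≤ w s n)
    (hch : ∀ l, 0 ≤ ch l) (h : Seg Lf Rt w ch Ev l1 i j) :
    ‖Lf (j + 1) - Lf i‖ ^ 2 ≤ 12 * (a + 1) * (BB w a m i j + ch (j + 1) + ‖Rt i - Lf i‖ ^ 2) := by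
  obtain ⟨hij, hj, hb, hc, -⟩ := h
  have hL := block_sq a Lf (m + 1) i j hij (by omega) (by omega)
  have hR := block_sq a Rt (m + 1) i j hij (by omega) (by omega)
  have hL' := BB_qq (w := w) Lf a m i j (fun s n h1 h2 => by
    have := hb s n h1 h2
    have h0 : 0 ≤ ‖Rt (n * 2 ^ s) - Rt ((n + 1) * 2 ^ s)‖ ^ 2 := by positivity
    linarith)
  have hR' := BB_qq (w := w) Rt a m i j (fun s n h1 h2 => by
    have := hb s n h1 h2
    have h0 : 0 ≤ ‖Lf ((n + 1) * 2 ^ s) - Lf (n * 2 ^ s)‖ ^ 2 := by positivity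
    rw [norm_sub_rev]
    linarith)
  have hB := BB_nonneg hw a m i j
  have hc0 := hch (j + 1)
  have hd0 : 0 ≤ ‖Rt i - Lf i‖ ^ 2 := by positivity
  have ha0 : (0 : ℝ) ≤ a := Nat.cast_nonneg a
  have hL2 : ‖Lf j - Lf i‖ ^ 2 ≤ 4 * (a + 1) * BB w a m i j :=
    hL.trans (mul_le_mul_of_nonneg_left hL' (by positivity))
  have hR2 : ‖Rt j - Rt i‖ ^ 2 ≤ 4 * (a + 1) * BB w a m i j :=
    hR.trans (mul_le_mul_of_nonneg_left hR' (by positivity))
  have key : ∀ x : ℝ, x ≤ 3 * (‖Rt i - Lf i‖ ^ 2 + 4 * (a + 1) * BB w a m i j +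
      4 * ch (j + 1)) →
      x ≤ 12 * (a + 1) * (BB w a m i j + ch (j + 1) + ‖Rt i - Lf i‖ ^ 2) := by
    intro x hx
    nlinarith [mul_nonneg ha0 hB, mul_nonneg ha0 hc0, mul_nonneg ha0 hd0]
  apply key
  rcases hc with hc | hc
  · have hs : Lf (j + 1) - Lf i = (Lf (j + 1) - Lf j) + (Lf j - Lf i) := by ring
    have hn : ‖Lf (j + 1) - Lf i‖ ≤ 0 + ‖Lf j - Lf i‖ + ‖Lf (j + 1) - Lf j‖ := by
      rw [hs]
      refine (norm_add_le _ _).trans (le_of_eq (by ring))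
    refine (pow_le_pow_left₀ (norm_nonneg _) hn 2).trans ?_
    exact sq3 _ _ _ _ _ _ (by rw [zero_pow two_ne_zero]; exact hd0) hL2 hc
  · have hs : Lf (j + 1) - Lf i = (Rt i - Lf i) + (Rt j - Rt i) - (Rt j - Lf (j + 1)) := by ring
    have hn : ‖Lf (j + 1) - Lf i‖ ≤ ‖Rt i - Lf i‖ + ‖Rt j - Rt i‖ + ‖Rt j - Lf (j + 1)‖ := by
      rw [hs]
      refine (norm_sub_le _ _).trans ?_
      have := norm_add_le (Rt i - Lf i) (Rt j - Rt i)
      linarith
    refine (pow_le_pow_left₀ (norm_nonneg _) hn 2).trans ?_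
    exact sq3 _ _ _ _ _ _ (le_refl _) hR2 hc

lemma cs_step (n x y X Y : ℝ) (hn : 1 ≤ n) (hx : x ^ 2 ≤ X) (hy : y ^ 2 ≤ n * Y) :
    (x + y) ^ 2 ≤ (n + 1) * (X + Y) := by
  have h1 : n * (x + y) ^ 2 ≤ n * ((n + 1) * (X + Y)) := by
    nlinarith [sq_nonneg (n * x - y), mul_nonneg (by linarith : (0 : ℝ) ≤ n)
      (by linarith : 0 ≤ X - x ^ 2), mul_nonneg (mul_nonneg (by linarith : (0 : ℝ) ≤ n)
      (by linarith : (0 : ℝ) ≤ n)) (by linarith : 0 ≤ X - x ^ 2),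
      mul_nonneg (by linarith : (0 : ℝ) ≤ n) (by linarith : 0 ≤ n * Y - y ^ 2)]
  exact le_of_mul_le_mul_left h1 (by linarith)

open Classical in
theorem abs_main (Lf Rt : ℕ → ℂ) (w : ℕ → ℕ → ℝ) (ch : ℕ → ℝ) (Ev : ℕ → Prop)
    (a m l0 l1 : ℕ) (h1m : l1 ≤ m) (hma : m < 2 ^ a) (hw : ∀ s n, 0 ≤ w s n)
    (hch : ∀ l, 0 ≤ ch l)
    (hseg : ∀ i, l0 ≤ i → i < l1 → ∃ j, Seg Lf Rt w ch Ev l1 i j) :
    ∀ k i, l1 - i ≤ k → l0 ≤ i → i ≤ l1 →
      ‖Lf l1 - Lf i‖ ^ 2 ≤ ((((Ioc i m).filter Ev).card : ℕ) + 1 : ℝ) *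
        (12 * (a + 1) * (BB w a m i l1 + 2 * ∑ l ∈ Ioc i m, ch l + ‖Rt i - Lf i‖ ^ 2)) := by
  intro k
  induction k with
  | zero =>
    intro i hk h0 h1
    have : i = l1 := by omega
    subst this
    rw [sub_self, norm_zero, zero_pow two_ne_zero]
    have h2 := BB_nonneg hw a m i i
    have h3 : 0 ≤ ∑ l ∈ Ioc i m, ch l := sum_nonneg fun l _ => hch l
    positivity
  | succ k ih =>
    intro i hk h0 h1
    rcases Nat.eq_or_lt_of_le h1 with he | hlt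
    · exact ih i (by omega) h0 h1
    · obtain ⟨j, hj⟩ := hseg i h0 hlt
      have hb := seg_bound h1m hma hw hch hj
      obtain ⟨hij, hjl, -, -, hnext⟩ := hj
      have h3 : 0 ≤ ∑ l ∈ Ioc i m, ch l := sum_nonneg fun l _ => hch l
      have hd0 : 0 ≤ ‖Rt i - Lf i‖ ^ 2 := by positivity
      have hj1 : j + 1 ∈ Ioc i m := mem_Ioc.2 ⟨by omega, by omega⟩
      have hsub : insert (j + 1) (Ioc (j + 1) m) ⊆ Ioc i m := by
        intro l hl
        rw [mem_insert, mem_Ioc] at hl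
        rw [mem_Ioc]
        omega
      have hnot : j + 1 ∉ Ioc (j + 1) m := by simp
      have hsum : ch (j + 1) + ∑ l ∈ Ioc (j + 1) m, ch l ≤ ∑ l ∈ Ioc i m, ch l := by
        rw [← sum_insert hnot]
        exact sum_le_sum_of_subset_of_nonneg hsub (fun l _ _ => hch l)
      have h3' : 0 ≤ ∑ l ∈ Ioc (j + 1) m, ch l := sum_nonneg fun l _ => hch l
      have hBB := BB_add hw a m i j (j + 1) l1 (by omega) (by omega) (by omega)
      have hB1 := BB_nonneg hw a m i j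
      have hB2 := BB_nonneg hw a m (j + 1) l1
      have hc0 := hch (j + 1)
      have ha0 : (0 : ℝ) ≤ 12 * (a + 1) := by positivity
      rcases Nat.eq_or_lt_of_le (Nat.succ_le_of_lt hjl) with he | hlt2
      · have he' : l1 = j + 1 := by omega
        subst he'
        have hX : (12 * (a + 1) : ℝ) * (BB w a m i j + ch (j + 1) + ‖Rt i - Lf i‖ ^ 2) ≤
            12 * (a + 1) * (BB w a m i (j + 1) + 2 * ∑ l ∈ Ioc i m, ch l +
              ‖Rt i - Lf i‖ ^ 2) := by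
          apply mul_le_mul_of_nonneg_left _ ha0
          linarith
        refine (hb.trans hX).trans ?_
        apply le_mul_of_one_le_left
        · have := BB_nonneg hw a m i (j + 1)
          positivity
        · have : (0 : ℝ) ≤ (((Ioc i m).filter Ev).card : ℕ) := Nat.cast_nonneg _
          linarith
      · have hlt3 : j + 1 < l1 := by omega
        obtain ⟨hEv, hdd⟩ := hnext hlt3
        have hI := ih (j + 1) (by omega) (by omega) (by omega)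
        have hcard : ((Ioc (j + 1) m).filter Ev).card + 1 ≤ ((Ioc i m).filter Ev).card := by
          have hn2 : j + 1 ∉ (Ioc (j + 1) m).filter Ev := by simp
          rw [← card_insert_of_notMem hn2]
          apply card_le_card
          intro l hl
          rw [mem_insert, mem_filter, mem_Ioc] at hl
          rw [mem_filter, mem_Ioc]
          rcases hl with hl | hl
          · subst hl
            exact ⟨⟨by omega, by omega⟩, hEv⟩
          · exact ⟨⟨by omega, by omega⟩, hl.2⟩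
        have hcard' : ((((Ioc (j + 1) m).filter Ev).card : ℕ) : ℝ) + 1 + 1 ≤
            (((Ioc i m).filter Ev).card : ℕ) + 1 := by
          have : ((((Ioc (j + 1) m).filter Ev).card + 1 : ℕ) : ℝ) ≤
            (((Ioc i m).filter Ev).card : ℕ) := by exact_mod_cast hcard
          push_cast at this
          linarith
        have hcs := cs_step ((((Ioc (j + 1) m).filter Ev).card : ℕ) + 1 : ℝ)
          ‖Lf (j + 1) - Lf i‖ ‖Lf l1 - Lf (j + 1)‖ _ _
          (by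
            have : (0 : ℝ) ≤ (((Ioc (j + 1) m).filter Ev).card : ℕ) := Nat.cast_nonneg _
            linarith) hb hI
        have htri : ‖Lf l1 - Lf i‖ ≤ ‖Lf (j + 1) - Lf i‖ + ‖Lf l1 - Lf (j + 1)‖ := by
          have hs : Lf l1 - Lf i = (Lf (j + 1) - Lf i) + (Lf l1 - Lf (j + 1)) := by ring
          rw [hs]
          exact norm_add_le _ _
        refine (pow_le_pow_left₀ (norm_nonneg _) htri 2).trans (hcs.trans ?_)
        have hX : (12 * (a + 1) : ℝ) * (BB w a m i j + ch (j + 1) + ‖Rt i - Lf i‖ ^ 2) +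
            12 * (a + 1) * (BB w a m (j + 1) l1 + 2 * ∑ l ∈ Ioc (j + 1) m, ch l +
              ‖Rt (j + 1) - Lf (j + 1)‖ ^ 2) ≤
            12 * (a + 1) * (BB w a m i l1 + 2 * ∑ l ∈ Ioc i m, ch l + ‖Rt i - Lf i‖ ^ 2) := by
          rw [← mul_add]
          apply mul_le_mul_of_nonneg_left _ ha0
          linarith
        have hX0 : 0 ≤ (12 * (a + 1) : ℝ) * (BB w a m i j + ch (j + 1) + ‖Rt i - Lf i‖ ^ 2) +
            12 * (a + 1) * (BB w a m (j + 1) l1 + 2 * ∑ l ∈ Ioc (j + 1) m, ch l +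
              ‖Rt (j + 1) - Lf (j + 1)‖ ^ 2) := by positivity
        apply mul_le_mul hcard' hX hX0
        have : (0 : ℝ) ≤ (((Ioc i m).filter Ev).card : ℕ) := Nat.cast_nonneg _
        linarith

/-! ### The tree -/

/-- code of level `l` -/
def cc (m r l : ℕ) : ℕ := r / 4 ^ (m - l)

lemma cc_div {m r i l : ℕ} (h1 : i ≤ l) (h2 : l ≤ m) : cc m r l / 4 ^ (l - i) = cc m r i := by
  unfold cc
  rw [Nat.div_div_eq_div_mul, ← pow_add]
  have : m - l + (l - i) = m - i := by omega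
  rw [this]

lemma cc_lt {m r l : ℕ} (hr : r < 2 * 4 ^ m) (hl : l ≤ m) : cc m r l < 2 * 4 ^ l := by
  unfold cc
  rw [Nat.div_lt_iff_lt_mul (by positivity), mul_assoc, ← pow_add]
  have : l + (m - l) = m := by omega
  rwa [this]

/-- left end -/
noncomputable def Lp (S : ℝ → ℂ) (sg : ℝ) (m r l : ℕ) : ℂ := S (sg + (cc m r l : ℕ) / 4 ^ l)

/-- right end -/
noncomputable def Rp (S : ℝ → ℂ) (sg : ℝ) (m r l : ℕ) : ℂ :=
  S (sg + ((cc m r l : ℕ) + 1) / 4 ^ l)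

open Classical in
/-- weight of a block -/
noncomputable def wt (S : ℝ → ℂ) (sg : ℝ) (T : Finset Top) (pr : Top → ℕ) (m r s n : ℕ) : ℝ :=
  ∑ u ∈ Finset.range (2 * 4 ^ m),
      if (∃ t, Lb pr (Sb T (n * 2 ^ s) ((n + 1) * 2 ^ s) (r / 4 ^ (m - n * 2 ^ s))) t ∧
            t.2.1 / 4 ^ (t.1 - (n + 1) * 2 ^ s) = u) then
        ‖S (sg + u / 4 ^ ((n + 1) * 2 ^ s)) -
          S (sg + (r / 4 ^ (m - n * 2 ^ s) : ℕ) / 4 ^ (n * 2 ^ s))‖ ^ 2 +
        ‖S (sg + ((r / 4 ^ (m - n * 2 ^ s) : ℕ) + 1) / 4 ^ (n * 2 ^ s)) -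
          S (sg + (u + 1) / 4 ^ ((n + 1) * 2 ^ s))‖ ^ 2 else 0

open Classical in
/-- sum over the children of level `l` -/
noncomputable def chd (S : ℝ → ℂ) (sg : ℝ) (T : Finset Top) (pr : Top → ℕ) (m r l : ℕ) : ℝ :=
  ∑ c ∈ Finset.range (2 * 4 ^ l),
      if c / 4 = r / 4 ^ (m - (l - 1)) ∧ EvC pr T l c then
        ‖S (sg + (c + 1) / 4 ^ l) - S (sg + c / 4 ^ l)‖ ^ 2 else 0

lemma wt_nonneg (S : ℝ → ℂ) (sg : ℝ) (T : Finset Top) (pr : Top → ℕ) (m r s n : ℕ) :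
    0 ≤ wt S sg T pr m r s n := by
  unfold wt
  apply sum_nonneg
  intro u _
  split_ifs
  · positivity
  · exact le_refl _

lemma chd_nonneg (S : ℝ → ℂ) (sg : ℝ) (T : Finset Top) (pr : Top → ℕ) (m r l : ℕ) :
    0 ≤ chd S sg T pr m r l := by
  unfold chd
  apply sum_nonneg
  intro u _
  split_ifs
  · positivity
  · exact le_refl _

/-- the weight of a block on which the label does not change -/
lemma wt_ge {S : ℝ → ℂ} {sg : ℝ} {T : Finset Top} {pr : Top → ℕ} {m r s n : ℕ}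
    (hr : r < 2 * 4 ^ m) (hm : (n + 1) * 2 ^ s ≤ m) {t : Top}
    (ht : Lb pr (Sb T (n * 2 ^ s) ((n + 1) * 2 ^ s) (cc m r (n * 2 ^ s))) t)
    (hu : t.2.1 / 4 ^ (t.1 - (n + 1) * 2 ^ s) = cc m r ((n + 1) * 2 ^ s)) :
    ‖Lp S sg m r ((n + 1) * 2 ^ s) - Lp S sg m r (n * 2 ^ s)‖ ^ 2 +
      ‖Rp S sg m r (n * 2 ^ s) - Rp S sg m r ((n + 1) * 2 ^ s)‖ ^ 2 ≤ wt S sg T pr m r s n := by
  classical
  unfold wt
  have hmem : cc m r ((n + 1) * 2 ^ s) ∈ Finset.range (2 * 4 ^ m) := by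
    rw [mem_range]
    refine (cc_lt hr hm).trans_le ?_
    apply Nat.mul_le_mul_left
    exact Nat.pow_le_pow_right (by norm_num) hm
  refine le_trans (le_of_eq ?_) (single_le_sum (f := fun u : ℕ =>
      if (∃ t, Lb pr (Sb T (n * 2 ^ s) ((n + 1) * 2 ^ s) (r / 4 ^ (m - n * 2 ^ s))) t ∧
            t.2.1 / 4 ^ (t.1 - (n + 1) * 2 ^ s) = u) then
        ‖S (sg + u / 4 ^ ((n + 1) * 2 ^ s)) -
          S (sg + (r / 4 ^ (m - n * 2 ^ s) : ℕ) / 4 ^ (n * 2 ^ s))‖ ^ 2 +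
        ‖S (sg + ((r / 4 ^ (m - n * 2 ^ s) : ℕ) + 1) / 4 ^ (n * 2 ^ s)) -
          S (sg + (u + 1) / 4 ^ ((n + 1) * 2 ^ s))‖ ^ 2 else 0) (fun u _ => ?_) hmem)
  · rw [if_pos ⟨t, ht, hu⟩]
    rfl
  · split_ifs
    · positivity
    · exact le_refl _

/-- a set of children with events -/
lemma chd_ge {S : ℝ → ℂ} {sg : ℝ} {T : Finset Top} {pr : Top → ℕ} {m r j : ℕ}
    (hr : r < 2 * 4 ^ m) (hj : j + 1 ≤ m) (A : Finset ℕ)
    (hA : ∀ c ∈ A, c / 4 = cc m r j ∧ EvC pr T (j + 1) c) :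
    ∑ c ∈ A, ‖S (sg + (c + 1) / 4 ^ (j + 1)) - S (sg + c / 4 ^ (j + 1))‖ ^ 2 ≤
      chd S sg T pr m r (j + 1) := by
  classical
  unfold chd
  rw [← sum_filter]
  apply sum_le_sum_of_subset_of_nonneg
  · intro c hc
    obtain ⟨h1, h2⟩ := hA c hc
    rw [mem_filter, mem_range]
    refine ⟨?_, ?_, h2⟩
    · have h3 := cc_lt (l := j) hr (by omega)
      rw [pow_succ]
      omega
    · rw [h1]
      simp [cc]
  · intro c _ _
    positivity

lemma tele (g : ℕ → ℂ) {x y : ℕ} (h : x ≤ y) :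
    ∑ c ∈ Ico x y, (g (c + 1) - g c) = g y - g x := by
  exact sum_Ico_sub g h

/-- telescoping over the children -/
lemma child_sum {S : ℝ → ℂ} {sg : ℝ} {T : Finset Top} {pr : Top → ℕ} {m r j x y : ℕ}
    (hr : r < 2 * 4 ^ m) (hj : j + 1 ≤ m) (hxy : x ≤ y) (hy : y ≤ x + 4)
    (hA : ∀ c, x ≤ c → c < y → c / 4 = cc m r j ∧ EvC pr T (j + 1) c) :
    ‖S (sg + y / 4 ^ (j + 1)) - S (sg + x / 4 ^ (j + 1))‖ ^ 2 ≤
      4 * chd S sg T pr m r (j + 1) := by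
  have h1 := tele (fun c => S (sg + c / 4 ^ (j + 1))) hxy
  rw [← h1]
  have h2 : ‖∑ c ∈ Ico x y, (S (sg + ((c + 1 : ℕ) : ℝ) / 4 ^ (j + 1)) -
      S (sg + c / 4 ^ (j + 1)))‖ ≤ ∑ c ∈ Ico x y, ‖S (sg + ((c + 1 : ℕ) : ℝ) / 4 ^ (j + 1)) -
      S (sg + c / 4 ^ (j + 1))‖ := norm_sum_le _ _
  refine (pow_le_pow_left₀ (norm_nonneg _) h2 2).trans ?_
  refine sq_sum_le_card_mul_sum_sq.trans ?_
  have h3 := chd_ge (S := S) (sg := sg) (T := T) (pr := pr) hr hj (Ico x y) (fun c hc => by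
    rw [mem_Ico] at hc
    exact hA c hc.1 hc.2)
  have h4 : ((Ico x y).card : ℝ) ≤ 4 := by
    rw [Nat.card_Ico]
    have : y - x ≤ 4 := by omega
    exact_mod_cast this
  have h5 : ∑ c ∈ Ico x y, ‖S (sg + ((c + 1 : ℕ) : ℝ) / 4 ^ (j + 1)) -
      S (sg + c / 4 ^ (j + 1))‖ ^ 2 ≤ chd S sg T pr m r (j + 1) := by
    refine le_trans (le_of_eq ?_) h3
    apply sum_congr rfl
    intro c _
    push_cast
    rfl
  apply mul_le_mul h4 h5 (sum_nonneg fun c _ => by positivity) (by norm_num)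

theorem seg_exists (m l0 l1 r : ℕ) (sg : ℝ) (T : Finset Top) (pr : Top → ℕ) (S : ℝ → ℂ)
    (h1m : l1 ≤ m) (hr : r < 2 * 4 ^ m)
    (hne : ∀ l, l0 ≤ l → l < l1 → (Sb T l l (cc m r l)).Nonempty) :
    ∀ i, l0 ≤ i → i < l1 → ∃ j, Seg (Lp S sg m r) (Rp S sg m r) (wt S sg T pr m r)
      (chd S sg T pr m r) (fun l => EvC pr T l (cc m r l)) l1 i j := by
  classical
  intro i hi0 hi1
  obtain ⟨t, htS, htmax⟩ := exists_max_image (Sb T i i (cc m r i)) pr (hne i hi0 hi1)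
  have htS' := htS
  unfold Sb at htS'
  rw [mem_filter] at htS'
  obtain ⟨htT, hti, -, htc⟩ := htS'
  -- the maximal level
  let P : ℕ → Prop := fun j => i ≤ j ∧ j < l1 ∧ j ≤ t.1 ∧ t.2.1 / 4 ^ (t.1 - j) = cc m r j
  have hPi : P i := ⟨le_refl _, hi1, hti, htc⟩
  set j := Nat.findGreatest P l1 with hjdef
  have hPj : P j := Nat.findGreatest_spec (P := P) (by omega : i ≤ l1) hPi
  obtain ⟨hij, hjl, hjt, hjc⟩ := hPj
  have hanc : ∀ e, i ≤ e → e ≤ j → t.2.1 / 4 ^ (t.1 - e) = cc m r e := by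
    intro e _ h2
    rw [← cc_div h2 (by omega : j ≤ m), ← hjc, Nat.div_div_eq_div_mul, ← pow_add]
    have : t.1 - j + (j - e) = t.1 - e := by omega
    rw [this]
  have hlab : ∀ i' e', i ≤ i' → i' ≤ e' → e' ≤ j → Lb pr (Sb T i' e' (cc m r i')) t := by
    intro i' e' h1 h2 h3
    constructor
    · unfold Sb
      rw [mem_filter]
      exact ⟨htT, by omega, by omega, hanc i' h1 (by omega)⟩
    · intro t' ht'
      apply htmax
      unfold Sb at ht' ⊢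
      rw [mem_filter] at ht' ⊢
      obtain ⟨ha, hb, hc, hd⟩ := ht'
      refine ⟨ha, by omega, by omega, ?_⟩
      rw [← cc_div h1 (by omega : i' ≤ m), ← hd, Nat.div_div_eq_div_mul, ← pow_add]
      have : t'.1 - i' + (i' - i) = t'.1 - i := by omega
      rw [this]
  have hchild : ∀ c, c / 4 = cc m r j → ¬ (j + 1 ≤ t.1 ∧ t.2.1 / 4 ^ (t.1 - (j + 1)) = c) →
      EvC pr T (j + 1) c := by
    intro c hc hn
    refine ⟨t, ?_, hn⟩
    rw [Nat.add_sub_cancel, hc]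
    exact hlab j j hij (le_refl _) (le_refl _)
  have hj1 : cc m r (j + 1) / 4 = cc m r j := by
    have := cc_div (m := m) (r := r) (Nat.le_succ j) (by omega : j + 1 ≤ m)
    rw [Nat.succ_eq_add_one, Nat.add_sub_cancel_left, pow_one] at this
    exact this
  have hL : Lp S sg m r j = S (sg + ((4 * cc m r j : ℕ) : ℝ) / 4 ^ (j + 1)) := by
    unfold Lp
    congr 2
    push_cast
    rw [pow_succ]
    field_simp
  have hR : Rp S sg m r j = S (sg + ((4 * cc m r j + 4 : ℕ) : ℝ) / 4 ^ (j + 1)) := by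
    unfold Rp
    congr 2
    push_cast
    rw [pow_succ]
    field_simp
  refine ⟨j, hij, hjl, ?_, ?_, ?_⟩
  · intro s n h1 h2
    have hle : n * 2 ^ s ≤ (n + 1) * 2 ^ s := Nat.mul_le_mul_right _ (Nat.le_succ n)
    exact wt_ge hr (by omega) (hlab _ _ h1 hle h2) (hanc _ (h1.trans hle) h2)
  · by_cases hcase : j + 1 ≤ t.1 ∧ t.2.1 / 4 ^ (t.1 - (j + 1)) < cc m r (j + 1)
    · right
      rw [hR]
      apply child_sum hr (by omega) (by omega) (by omega)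
      intro c h1 h2
      have hc4 : c / 4 = cc m r j := by omega
      refine ⟨hc4, hchild c hc4 ?_⟩
      rintro ⟨_, h3⟩
      omega
    · left
      rw [hL]
      apply child_sum hr (by omega) (by omega) (by omega)
      intro c h1 h2
      have hc4 : c / 4 = cc m r j := by omega
      refine ⟨hc4, hchild c hc4 ?_⟩
      rintro ⟨h4, h3⟩
      apply hcase
      exact ⟨h4, by omega⟩
  · intro hlt
    have hnP : ¬ P (j + 1) := by
      intro hP
      have := Nat.le_findGreatest (P := P) (by omega : j + 1 ≤ l1) hP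
      omega
    have hEv : EvC pr T (j + 1) (cc m r (j + 1)) := by
      apply hchild _ hj1
      rintro ⟨h1, h2⟩
      exact hnP ⟨by omega, hlt, h1, h2⟩
    refine ⟨hEv, ?_⟩
    have := chd_ge (S := S) (sg := sg) (T := T) (pr := pr) hr (by omega : j + 1 ≤ m)
      {cc m r (j + 1)} (fun c hc => by
        rw [mem_singleton] at hc
        rw [hc]
        exact ⟨hj1, hEv⟩)
    rw [sum_singleton] at this
    exact this

lemma final_num (a K n B C D : ℝ) (ha : 0 ≤ a) (hK : 0 ≤ K) (hB : 0 ≤ B) (hC : 0 ≤ C)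
    (hD : 0 ≤ D) (hn : 0 ≤ n) (hnK : n ≤ K) :
    (n + 1) * (12 * (a + 1) * (B + 2 * C + D)) ≤ 32 * (K + 2) * (a + 2) * (B + C + D) := by
  have hX : 12 * (a + 1) * (B + 2 * C + D) ≤ 24 * (a + 2) * (B + C + D) := by
    nlinarith [mul_nonneg ha hB, mul_nonneg ha hC, mul_nonneg ha hD]
  have hX0 : 0 ≤ 24 * (a + 2) * (B + C + D) := by positivity
  have h24 : 0 ≤ (K + 2) * ((a + 2) * (B + C + D)) := by positivity
  calc (n + 1) * (12 * (a + 1) * (B + 2 * C + D))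
      ≤ (n + 1) * (24 * (a + 2) * (B + C + D)) :=
        mul_le_mul_of_nonneg_left hX (by positivity)
    _ ≤ (K + 2) * (24 * (a + 2) * (B + C + D)) :=
        mul_le_mul_of_nonneg_right (by linarith) hX0
    _ = 24 * ((K + 2) * ((a + 2) * (B + C + D))) := by ring
    _ ≤ 32 * ((K + 2) * ((a + 2) * (B + C + D))) := by linarith
    _ = 32 * (K + 2) * (a + 2) * (B + C + D) := by ring

end TREx

open TREx in
theorem pTRE : tTRE := by
  classical
  intro a m l0 l1 r K sg T pr S h01 h1m hma hr _ hne hK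
  have hmain := abs_main (Lp S sg m r) (Rp S sg m r) (wt S sg T pr m r) (chd S sg T pr m r)
    (fun l => EvC pr T l (cc m r l)) a m l0 l1 h1m hma
    (fun s n => wt_nonneg S sg T pr m r s n) (fun l => chd_nonneg S sg T pr m r l)
    (seg_exists m l0 l1 r sg T pr S h1m hr hne) (l1 - l0) l0 (le_refl _) (le_refl _) h01
  set B : ℝ := ∑ s ∈ Finset.range (a + 1), ∑ n ∈ Finset.range (m + 1),
      ∑ u ∈ Finset.range (2 * 4 ^ m),
      if l0 ≤ n * 2 ^ s ∧ (n + 1) * 2 ^ s ≤ l1 ∧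
          (∃ t, Lb pr (Sb T (n * 2 ^ s) ((n + 1) * 2 ^ s) (r / 4 ^ (m - n * 2 ^ s))) t ∧
            t.2.1 / 4 ^ (t.1 - (n + 1) * 2 ^ s) = u) then
        ‖S (sg + u / 4 ^ ((n + 1) * 2 ^ s)) -
          S (sg + (r / 4 ^ (m - n * 2 ^ s) : ℕ) / 4 ^ (n * 2 ^ s))‖ ^ 2 +
        ‖S (sg + ((r / 4 ^ (m - n * 2 ^ s) : ℕ) + 1) / 4 ^ (n * 2 ^ s)) -
          S (sg + (u + 1) / 4 ^ ((n + 1) * 2 ^ s))‖ ^ 2 else 0 with hB
  have hBB : BB (wt S sg T pr m r) a m l0 l1 = B := by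
    rw [hB]
    unfold BB
    apply Finset.sum_congr rfl
    intro s _
    apply Finset.sum_congr rfl
    intro n _
    by_cases h : l0 ≤ n * 2 ^ s ∧ (n + 1) * 2 ^ s ≤ l1
    · rw [if_pos h]
      unfold wt
      apply Finset.sum_congr rfl
      intro u _
      by_cases hu : ∃ t, Lb pr (Sb T (n * 2 ^ s) ((n + 1) * 2 ^ s) (r / 4 ^ (m - n * 2 ^ s))) t ∧
            t.2.1 / 4 ^ (t.1 - (n + 1) * 2 ^ s) = u
      · rw [if_pos hu, if_pos ⟨h.1, h.2, hu⟩]
      · rw [if_neg hu, if_neg (fun h' => hu h'.2.2)]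
    · rw [if_neg h]
      symm
      apply Finset.sum_eq_zero
      intro u _
      rw [if_neg (fun h' => h ⟨h'.1, h'.2.1⟩)]
  have hKc : (((Finset.Ioc l0 m).filter (fun l => EvC pr T l (cc m r l))).card : ℝ) ≤ K := by
    exact_mod_cast hK
  have hB0 : 0 ≤ B := by
    rw [← hBB]
    exact BB_nonneg (fun s n => wt_nonneg S sg T pr m r s n) a m l0 l1
  have hC0 : 0 ≤ ∑ l ∈ Finset.Ioc l0 m, chd S sg T pr m r l :=
    Finset.sum_nonneg fun l _ => chd_nonneg S sg T pr m r l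
  have hD0 : 0 ≤ ‖Rp S sg m r l0 - Lp S sg m r l0‖ ^ 2 := by positivity
  rw [hBB] at hmain
  refine le_trans hmain ?_
  change _ ≤ 32 * ((K : ℝ) + 2) * (a + 2) * (B + (∑ l ∈ Finset.Ioc l0 m, chd S sg T pr m r l) +
    ‖Rp S sg m r l0 - Lp S sg m r l0‖ ^ 2)
  have ha0 : (0 : ℝ) ≤ a := Nat.cast_nonneg a
  have hK0 : (0 : ℝ) ≤ K := Nat.cast_nonneg K
  exact final_num a K _ B _ _ ha0 hK0 hB0 hC0 hD0 (Nat.cast_nonneg _) hKc

end Pool.Agent.LLog
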