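import Pool.Agent.LLog.Targets

set_option autoImplicit false

/-! F2: usage of the sets `XF`, measurability -/

namespace Pool.Agent.LLog.USE_

open MeasureTheory Set
open scoped ENNReal NNReal
open Pool.Agent.LLog

lemma sd_pos (a e : ℕ) : 0 < sd a e := by unfold sd; positivity

lemma floor_nest (a e e' : ℕ) (h : e ≤ e') (u : ℝ) :
    ⌊u / sd a e'⌋ = ⌊u / sd a e⌋ / ((2 ^ (e' - e) : ℕ) : ℤ) := by
  rw [← Int.floor_div_natCast]
  congr 1
  unfold sd
  have : (2 : ℝ) ^ (e' + 18 * a) = 2 ^ (e + 18 * a) * 2 ^ (e' - e) := by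
    rw [← pow_add]
    congr 1
    omega
  rw [this]
  push_cast
  field_simp

/-- squares are nested -/
lemma Qx_nest {a : ℕ} {z0 : ℝ × ℝ} {e e' : ℕ} {x y : ℝ × ℝ} (h : e ≤ e')
    (hxy : Qx a z0 e x = Qx a z0 e y) : Qx a z0 e' x = Qx a z0 e' y := by
  unfold Qx at *
  rw [Prod.mk.injEq] at *
  rw [floor_nest a e e' h, floor_nest a e e' h, floor_nest a e e' h, floor_nest a e e' h, hxy.1,
    hxy.2]
  exact ⟨rfl, rfl⟩

lemma measurable_Qx (a : ℕ) (z0 : ℝ × ℝ) (e : ℕ) : Measurable (Qx a z0 e) := by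
  unfold Qx
  apply Measurable.prodMk
  · exact Int.measurable_floor.comp ((measurable_fst.sub_const _).div_const _)
  · exact Int.measurable_floor.comp ((measurable_snd.sub_const _).div_const _)

lemma volume_Qx (a : ℕ) (z0 : ℝ × ℝ) (e : ℕ) (z : ℤ × ℤ) :
    volume {x | Qx a z0 e x = z} < ⊤ := by
  have hs := sd_pos a e
  refine lt_of_le_of_lt (measure_mono (t := Icc (z0.1 + z.1 * sd a e) (z0.1 + (z.1 + 1) * sd a e) ×ˢ
    Icc (z0.2 + z.2 * sd a e) (z0.2 + (z.2 + 1) * sd a e)) ?_) ?_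
  · rintro x hx
    simp only [mem_ofPred_eq, Qx, Prod.ext_iff, Int.floor_eq_iff] at hx
    obtain ⟨⟨h1, h2⟩, h3, h4⟩ := hx
    rw [le_div_iff₀ hs] at h1 h3
    rw [div_lt_iff₀ hs] at h2 h4
    refine ⟨⟨?_, ?_⟩, ?_, ?_⟩ <;> linarith
  · exact (isCompact_Icc.prod isCompact_Icc).measure_lt_top

/-- F2 -/
theorem _root_.Pool.Agent.LLog.pUSE : tUSE := by
  classical
  intro a m z0 T F G hPA hF hG
  obtain ⟨hF1, hF2, hF3, hF4⟩ := hF
  refine ⟨fun l hl c => ⟨?_, ?_⟩, ?_⟩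
  · have : XF a z0 F G l c = (Qx a z0 (F.e l)) ⁻¹' {Q | ∃ y ∈ G, Qx a z0 (F.e l) y = Q ∧
        F.Ev l c y} := rfl
    rw [this]
    exact measurable_Qx a z0 _ (MeasurableSet.of_discrete)
  · have hsub : XF a z0 F G l c ⊆ ⋃ t ∈ T, {x | Qx a z0 t.1 x = t.2.2} := by
      rintro x ⟨y, hy, hyx, hev⟩
      obtain ⟨t, ht, -⟩ := hF4 l hl c x (hF3 l hl c y x hyx hev)
      unfold TX at ht
      rw [Finset.mem_filter] at ht
      simp only [mem_iUnion]
      exact ⟨t, ht.1, ht.2⟩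
    refine lt_of_le_of_lt (measure_mono hsub) ?_
    exact (measure_biUnion_lt_top T.finite_toSet fun t _ => volume_Qx a z0 t.1 t.2.2)
  · intro x r
    rcases (F.Lv.filter (fun l => x ∈ XF a z0 F G l (r / 4 ^ (m - l)))).eq_empty_or_nonempty with
      h0 | h0
    · convert Nat.zero_le _
      rw [Finset.card_eq_zero]
      convert h0
    · set S := F.Lv.filter (fun l => x ∈ XF a z0 F G l (r / 4 ^ (m - l))) with hS
      obtain ⟨hm1, y, hy, hyx, -⟩ := Finset.mem_filter.1 (S.min'_mem h0)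
      have hsub : S ⊆ F.Lv.filter (fun l => F.Ev l (r / 4 ^ (m - l)) y) := by
        intro l hl
        obtain ⟨hl1, y', hy', hyx', hev⟩ := Finset.mem_filter.1 hl
        refine Finset.mem_filter.2 ⟨hl1, ?_⟩
        have hle : F.e (S.min' h0) ≤ F.e l := hF2 _ hm1 _ hl1 (S.min'_le l hl)
        exact hF3 l hl1 _ y' y (hyx'.trans (Qx_nest hle hyx).symm) hev
      have hg := (hG y hy).1 r
      calc (F.Lv.filter (fun l => x ∈ XF a z0 F G l (r / 4 ^ (m - l)))).card ≤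
          (F.Lv.filter (fun l => F.Ev l (r / 4 ^ (m - l)) y)).card := Finset.card_le_card hsub
        _ ≤ 200 * a := by convert hg

end Pool.Agent.LLog.USE_
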