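import Pool.Agent.LLog.Targets
import Pool.Agent.LLog.EndK

set_option autoImplicit false

/-! F19: weak type on the annulus. -/

namespace Pool.Agent.LLog

open MeasureTheory Set
open scoped ENNReal NNReal
open Pool.Agent.KSP (Ex ann V0 n2 lg Bd nr)

namespace WA_

open Pool.Agent.KSP.K_ EK_

theorem est_r {m : ℕ} {K : ℝ≥0∞} (hC : ∀ h : ℝ × ℝ → ℂ, Bd h → (∀ ξ, h ξ ≠ 0 → ξ ∈ V0) →
    WK volume (M m h) (K * n2 h)) : ∀ (n : ℕ) {h : ℝ × ℝ → ℂ},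
    Bd h → (∀ ξ, h ξ ≠ 0 → ∃ η ∈ V0, rE n η = ξ) → WK volume (M m h) (K * n2 h) := by
  intro n
  induction n with
  | zero =>
    intro h hh hV
    refine hC h hh fun ξ hξ => ?_
    obtain ⟨η, h1, h2⟩ := hV ξ hξ
    rw [← h2]
    exact h1
  | succ n ih =>
    intro h hh hV
    rw [← n2_E]
    refine wk_E (ih (Bd_E hh) fun ξ hξ => ?_)
    obtain ⟨η, h1, h2⟩ := hV _ hξ
    exact ⟨η, h1, E.injective h2⟩

theorem four {m : ℕ} {K : ℝ≥0∞} (hC : ∀ h : ℝ × ℝ → ℂ, Bd h → (∀ ξ, h ξ ≠ 0 → ξ ∈ V0) →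
    WK volume (M m h) (K * n2 h)) {h : ℝ × ℝ → ℂ} (hh : Bd h)
    (hsupp : ∀ ξ, h ξ ≠ 0 → 1 ≤ nr ξ ∧ nr ξ < 2) : WK volume (M m h) (148 * K * n2 h) := by
  set g0 := S0.indicator h with hg0
  set r0 := S0ᶜ.indicator h with hr0
  set g1 := S1.indicator r0 with hg1
  set r1 := S1ᶜ.indicator r0 with hr1
  set g2 := S2.indicator r1 with hg2
  set r2 := S2ᶜ.indicator r1 with hr2
  have b0 : Bd g0 := Bd_indicator hh mS0
  have c0 : Bd r0 := Bd_indicator hh mS0.compl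
  have b1 : Bd g1 := Bd_indicator c0 mS1
  have c1 : Bd r1 := Bd_indicator c0 mS1.compl
  have b2 : Bd g2 := Bd_indicator c1 mS2
  have c2 : Bd r2 := Bd_indicator c1 mS2.compl
  have n0 : n2 g0 ≤ n2 h := n2_indicator _ _
  have k0 : n2 r0 ≤ n2 h := n2_indicator _ _
  have n1 : n2 g1 ≤ n2 h := (n2_indicator _ _).trans k0
  have k1 : n2 r1 ≤ n2 h := (n2_indicator _ _).trans k0
  have n2' : n2 g2 ≤ n2 h := (n2_indicator _ _).trans k1
  have k2 : n2 r2 ≤ n2 h := (n2_indicator _ _).trans k1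
  have e0 : WK volume (M m g0) (K * n2 h) := by
    refine (est_r hC 0 b0 fun ξ hξ => ?_).mono (fun _ => le_rfl) (mul_le_mul_right n0 K)
    obtain ⟨h1, h2⟩ := ind_ne hξ
    obtain ⟨h3, h4⟩ := hsupp ξ h2
    exact ⟨(ξ.1, ξ.2), mem_V0 h3 h4 _ _ rfl h1, rfl⟩
  have e1 : WK volume (M m g1) (K * n2 h) := by
    refine (est_r hC 1 b1 fun ξ hξ => ?_).mono (fun _ => le_rfl) (mul_le_mul_right n1 K)
    obtain ⟨h1, h2⟩ := ind_ne hξ
    obtain ⟨h3, h4⟩ := ind_ne h2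
    obtain ⟨h5, h6⟩ := hsupp ξ h4
    refine ⟨(ξ.2, -ξ.1), mem_V0 h5 h6 _ _ (by ring) ?_, ?_⟩
    · rw [abs_neg]
      exact h1
    · simp only [rE, E_apply, neg_neg]
  have e2 : WK volume (M m g2) (K * n2 h) := by
    refine (est_r hC 2 b2 fun ξ hξ => ?_).mono (fun _ => le_rfl) (mul_le_mul_right n2' K)
    obtain ⟨h1, h2⟩ := ind_ne hξ
    obtain ⟨h3, h4⟩ := ind_ne h2
    obtain ⟨h3', h4'⟩ := ind_ne h4
    obtain ⟨h5, h6⟩ := hsupp ξ h4'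
    refine ⟨(-ξ.1, -ξ.2), mem_V0 h5 h6 _ _ (by ring) ?_, ?_⟩
    · rw [abs_neg]
      exact h1
    · simp only [rE, E_apply, neg_neg]
  have e3 : WK volume (M m r2) (K * n2 h) := by
    refine (est_r hC 3 c2 fun ξ hξ => ?_).mono (fun _ => le_rfl) (mul_le_mul_right k2 K)
    obtain ⟨h1, h2⟩ := ind_ne hξ
    obtain ⟨h3, h4⟩ := ind_ne h2
    obtain ⟨h3', h4'⟩ := ind_ne h4
    obtain ⟨h5, h6⟩ := hsupp ξ h4'
    have j1 : ¬ |ξ.2| ≤ -ξ.1 := h1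
    have j2 : ¬ |ξ.1| ≤ ξ.2 := h3
    have j3 : ¬ |ξ.2| ≤ ξ.1 := h3'
    refine ⟨(-ξ.2, ξ.1), mem_V0 h5 h6 _ _ (by ring) ?_, ?_⟩
    · rcases le_total 0 ξ.1 with p | p <;> rcases le_total 0 ξ.2 with q | q <;>
        simp only [abs_of_nonneg, abs_of_nonpos, p, q] at j1 j2 j3 ⊢ <;> linarith
    · simp only [rE, E_apply, neg_neg]
  have f2 : WK volume (M m r1) (4 * (K * n2 h + K * n2 h)) := by
    have := EK_.est_add m b2 c2 e2 e3
    rwa [← ind_add] at this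
  have f1 : WK volume (M m r0) (4 * (K * n2 h + 4 * (K * n2 h + K * n2 h))) := by
    have := EK_.est_add m b1 c1 e1 f2
    rwa [← ind_add] at this
  have f0 : WK volume (M m h) (4 * (K * n2 h + 4 * (K * n2 h + 4 * (K * n2 h + K * n2 h)))) := by
    have := EK_.est_add m b0 c0 e0 f1
    rwa [← ind_add] at this
  refine f0.mono (fun _ => le_rfl) (le_of_eq ?_)
  ring

theorem M_two (m : ℕ) (h : ℝ × ℝ → ℂ) (x : ℝ × ℝ) : M (2 * m) h x =
    ⨆ k ∈ Finset.range (4 ^ m), ‖Ex ((ann 1 (1 + k / 4 ^ m)).indicator h) x‖ₑ := by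
  unfold M
  have e1 : (2 : ℕ) ^ (2 * m) = 4 ^ m := by rw [pow_mul]; norm_num
  have e2 : (2 : ℝ) ^ (2 * m) = 4 ^ m := by rw [pow_mul]; norm_num
  rw [e1, e2]

end WA_

open Pool.Agent.KSP.K_ WA_ in
theorem pWA (hW : tWV) : tWA := by
  obtain ⟨C, hC⟩ := hW
  refine ⟨148 * C, fun m h lam hm hh hsupp => ?_⟩
  have hM : (fun x => ⨆ k ∈ Finset.range (4 ^ m), ‖Ex ((ann 1 (1 + k / 4 ^ m)).indicator h) x‖ₑ) =
      M (2 * m) h := by
    funext x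
    rw [M_two]
  have key : WK volume (M (2 * m) h) (148 * (C * ((lg m : ℕ) : ℝ≥0∞) ^ 11) * n2 h) := by
    refine four (fun g hg hV l => ?_) hh hsupp
    have := hC m g l hm hg hV
    simp only [M_two]
    exact this
  change lam ^ 2 * volume {x | lam < (fun x => ⨆ k ∈ Finset.range (4 ^ m),
    ‖Ex ((ann 1 (1 + k / 4 ^ m)).indicator h) x‖ₑ) x} ≤ _
  rw [hM]
  rcases eq_or_ne lam ⊤ with rfl | hlt
  · have : {x | (⊤ : ℝ≥0∞) < M (2 * m) h x} = ∅ := by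
      ext x
      simp
    rw [this, measure_empty, mul_zero]
    exact bot_le
  · lift lam to ℝ≥0 using hlt
    refine (key lam).trans (le_of_eq ?_)
    push_cast
    ring

end Pool.Agent.LLog
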