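import Pool.Agent.KSP.Targets3

set_option autoImplicit false

/-! Weak type bounds for disc partial sums (MP_ee701d_an), `4^m` radii per octave with a power of
`log m`: from the right sector to `S^*`, exact targets.  The exponent `α` of the logarithm is a
parameter.  Final targets: `tDSw`, `tFA1w`, `tFA2w`, `tFA3w`. -/

namespace Pool.Agent.LLog

open MeasureTheory FourierTransform Set Filter Topology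
open scoped ENNReal NNReal
open Pool.Agent.MBS (E ex T S Sstar et ps mul pm Tstar Pstar MF)
open Pool.Agent.KSP (Ex ann V0 n2 lg Bd nr IE BdE muS BI)

/-- weak `L²` bound: `λ² μ {F > λ} ≤ B` for all `λ` -/
def WK {X : Type} [MeasurableSpace X] (μ : Measure X) (F : X → ℝ≥0∞) (B : ℝ≥0∞) : Prop :=
  ∀ lam : ℝ≥0, (lam : ℝ≥0∞) ^ 2 * μ {x | (lam : ℝ≥0∞) < F x} ≤ B

/-- the weight `(log(3 + log(3 + |ξ|)))^α` -/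
noncomputable def lw2 (α : ℕ) (ξ : E 2) : ℝ := Real.log (3 + Real.log (3 + ‖ξ‖)) ^ α

/-- W0 the hypothesis: right sector, `4^m` radii -/
def tW (α : ℕ) : Prop := ∃ C : ℝ≥0, ∀ (m : ℕ) (h : ℝ × ℝ → ℂ), 1 ≤ m → Bd h →
  (∀ ξ, h ξ ≠ 0 → ξ ∈ V0) →
  WK volume (fun x => ⨆ k ∈ Finset.range (4 ^ m), ‖Ex ((ann 1 (1 + k / 4 ^ m)).indicator h) x‖ₑ)
    (C * ((lg m : ℕ) : ℝ≥0∞) ^ α * n2 h)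

/-- W1 full octave, `2^m` radii -/
def tKw (α : ℕ) : Prop := ∃ C : ℝ≥0, ∀ (m : ℕ) (h : ℝ × ℝ → ℂ), 1 ≤ m → Bd h →
  (∀ ξ, h ξ ≠ 0 → 1 ≤ nr ξ ∧ nr ξ < 2) →
  WK volume (fun x => ⨆ k ∈ Finset.range (2 ^ m), ‖Ex ((ann 1 (1 + k / 2 ^ m)).indicator h) x‖ₑ)
    (C * ((lg m : ℕ) : ℝ≥0∞) ^ α * n2 h)

/-- W2 transfer to `E 2`, all dilations -/
def tKEw (α : ℕ) : Prop := ∃ C : ℝ≥0, ∀ (m : ℕ) (c : ℝ) (h : E 2 → ℂ), 1 ≤ m → 0 < c → BdE h →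
  WK volume (fun x => ⨆ k ∈ Finset.range (2 ^ m),
      ‖IE ({ξ : E 2 | c ≤ ‖ξ‖ ∧ ‖ξ‖ < c * (1 + k / 2 ^ m)}.indicator h) x‖ₑ)
    (C * ((lg m : ℕ) : ℝ≥0∞) ^ α * ∫⁻ ξ in {ξ : E 2 | c ≤ ‖ξ‖ ∧ ‖ξ‖ < 2 * c}, ‖h ξ‖ₑ ^ 2)

/-- W3 the multipliers `et(2^m u)` on one octave -/
def tEtmw (α : ℕ) : Prop := ∃ C : ℝ≥0, ∀ (m : ℕ) (c : ℝ) (θ : E 2 → ℝ) (h : E 2 → ℂ), 1 ≤ m →
  0 < c → Continuous θ → (∀ ξ, 0 ≤ θ ξ ∧ θ ξ ≤ 1) → Continuous h →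
  WK volume (fun x => ⨆ R ∈ Icc c (2 * c),
      ‖T (fun ξ => et (2 ^ m * (1 - ‖ξ‖ ^ 2 / R ^ 2)) * θ ξ) h x‖ₑ)
    (C * ((lg m : ℕ) : ℝ≥0∞) ^ α * ∫⁻ ξ in {ξ : E 2 | ‖ξ‖ ≤ 2 * c}, ‖θ ξ‖ₑ ^ 2 * ‖h ξ‖ₑ ^ 2)

/-- W4 one octave -/
def tSmw (α : ℕ) : Prop := ∃ C : ℝ≥0, ∀ (m : ℕ) (c : ℝ) (h : E 2 → ℂ), 1 ≤ m → 0 < c →
  Continuous h →
  WK volume (fun x => ⨆ R ∈ Icc c (2 * c), ‖T (muS m R) h x‖ₑ)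
    (C * ((lg m : ℕ) : ℝ≥0∞) ^ α * ∫⁻ ξ in {ξ : E 2 | c / 2 ≤ ‖ξ‖ ∧ ‖ξ‖ ≤ 2 * c}, ‖h ξ‖ₑ ^ 2)

/-- W5 all octaves -/
def tSSw (α : ℕ) : Prop := ∃ C : ℝ≥0, ∀ (m : ℕ) (f : E 2 → ℂ), 1 ≤ m → Integrable f →
  MemLp f 2 →
  WK volume (fun x => ⨆ (R : ℝ) (_ : 0 < R), ‖T (muS m R) (𝓕 f) x‖ₑ)
    (C * ((lg m : ℕ) : ℝ≥0∞) ^ α * ∫⁻ x, ‖f x‖ₑ ^ 2)

/-- W6 `δ`-separated radii -/
def tDSw (α : ℕ) : Prop := ∃ C : ℝ≥0, ∀ (δ : ℝ) (A : Set ℝ) (f : E 2 → ℂ), 0 < δ → δ ≤ 1 / 2 →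
  (∀ R ∈ A, 0 < R) → (∀ R ∈ A, ∀ R' ∈ A, R < R' → R + δ * R' ≤ R') →
  Measurable f → Integrable f → MemLp f 2 →
  WK volume (fun x => ⨆ R ∈ A, ‖S f R x‖ₑ)
    (C * ENNReal.ofReal (Real.log (3 + Real.log δ⁻¹) ^ α) * ∫⁻ x, ‖f x‖ₑ ^ 2)

/-- W7 local maximal inequality with the weight `lw2 α` -/
def tFA0w (α : ℕ) : Prop := ∃ C : ℝ≥0, ∀ (f : E 2 → ℂ) (x0 : E 2), Measurable f → Integrable f →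
  MemLp f 2 →
  WK (volume.restrict (Metric.closedBall x0 1)) (Sstar f)
    (C * ∫⁻ ξ, ‖𝓕 f ξ‖ₑ ^ 2 * ENNReal.ofReal (lw2 α ξ))

/-- W8 the same for all `g ∈ L²(lw2 α)` on the Fourier side -/
def tFA1w (α : ℕ) : Prop := ∃ C : ℝ≥0, ∀ (g : E 2 → ℂ) (x0 : E 2), Measurable g →
  WK (volume.restrict (Metric.closedBall x0 1)) (fun x => ⨆ (R : ℝ) (_ : 0 < R), ‖BI g R x‖ₑ)
    (C * ∫⁻ ξ, ‖g ξ‖ₑ ^ 2 * ENNReal.ofReal (lw2 α ξ))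

/-- W9 almost everywhere convergence -/
def tFA2w (α : ℕ) : Prop := ∀ g : E 2 → ℂ, Measurable g →
  ∫⁻ ξ, ‖g ξ‖ₑ ^ 2 * ENNReal.ofReal (lw2 α ξ) ≠ ⊤ →
  ∀ᵐ x, ∃ l : ℂ, Tendsto (fun R : ℝ => BI g R x) atTop (𝓝 l)

/-- W10 the limit is `f` -/
def tFA3w (α : ℕ) : Prop := ∀ f : E 2 → ℂ, Measurable f → Integrable f → MemLp f 2 →
  ∫⁻ ξ, ‖𝓕 f ξ‖ₑ ^ 2 * ENNReal.ofReal (lw2 α ξ) ≠ ⊤ →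
  ∀ᵐ x, Tendsto (fun R : ℝ => S f R x) atTop (𝓝 (f x))

end Pool.Agent.LLog
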