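import Pool.Agent.LLog.Targets
import Pool.Agent.LLog.EndTargets
import Pool.Agent.KSP.K

set_option autoImplicit false

/-! F18: weak type on the right sector, from the linearised estimate. -/

namespace Pool.Agent.LLog

open MeasureTheory Set
open scoped ENNReal NNReal
open Pool.Agent.KSP (Ex ann V0 n2 lg Bd)

theorem pWV (hL : tLIN) : tWV := by
  obtain ⟨C, hC⟩ := hL
  refine ⟨2 * C, fun m h lam hm hh hV => ?_⟩
  set F : ℕ → ℝ × ℝ → ℝ≥0∞ := fun k x => ‖Ex ((ann 1 (1 + k / 4 ^ m)).indicator h) x‖ₑ with hF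
  have hFm : ∀ k, Measurable (F k) := fun k =>
    (KSP.K_.measurable_Ex (hh.1.indicator (KSP.K_.measurable_ann _ _))).enorm
  have hSm : Measurable fun x => ⨆ k ∈ Finset.range (4 ^ m), F k x :=
    Measurable.iSup fun k => Measurable.iSup fun _ => hFm k
  rcases eq_or_ne lam ⊤ with rfl | hlt
  · have : {x | (⊤ : ℝ≥0∞) < ⨆ k ∈ Finset.range (4 ^ m), F k x} = ∅ := by
      ext x
      simp
    change (⊤ : ℝ≥0∞) ^ 2 * volume {x | (⊤ : ℝ≥0∞) < ⨆ k ∈ Finset.range (4 ^ m), F k x} ≤ _
    rw [this, measure_empty, mul_zero]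
    exact bot_le
  set A : Set (ℝ × ℝ) := {x | lam < ⨆ k ∈ Finset.range (4 ^ m), F k x} with hA
  change lam ^ 2 * volume A ≤ _
  have hAm : MeasurableSet A := measurableSet_lt measurable_const hSm
  obtain ⟨k, k1, k2, k3⟩ := KSP.K_.sel F hFm (4 ^ m - 1)
  have hpos : 0 < 4 ^ m := by positivity
  have hk : ∀ x, k x < 4 ^ m := fun x => by have := k2 x; omega
  have hAk : ∀ x ∈ A, lam < F (k x) x := by
    intro x hx
    refine lt_of_lt_of_le hx (iSup₂_le fun i hi => k3 x i ?_)
    have := Finset.mem_range.1 hi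
    omega
  -- the pieces
  set B : ℕ → Set (ℝ × ℝ) := fun R => A ∩ Metric.closedBall 0 R with hB
  have hBbd : ∀ R, lam ^ 2 * volume (B R) ≤ 2 * C * ((lg m : ℕ) : ℝ≥0∞) ^ 11 * n2 h := by
    intro R
    have hBm : MeasurableSet (B R) := hAm.inter Metric.isClosed_closedBall.measurableSet
    have hBf : volume (B R) < ⊤ :=
      lt_of_le_of_lt (measure_mono inter_subset_right) measure_closedBall_lt_top
    obtain ⟨E', hE'B, hE'm, hv, hI⟩ := hC m (B R) k h hm hBm hBf k1 hk hh hV
    calc lam ^ 2 * volume (B R) ≤ lam ^ 2 * (2 * volume E') := by gcongr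
      _ = 2 * ∫⁻ _ in E', lam ^ 2 := by
          rw [lintegral_const, Measure.restrict_apply_univ]
          ring
      _ ≤ 2 * ∫⁻ x in E', ‖Ex ((ann 1 (1 + k x / 4 ^ m)).indicator h) x‖ₑ ^ 2 := by
          gcongr 2 * ?_
          refine setLIntegral_mono' hE'm fun x hx => ?_
          exact pow_le_pow_left' (hAk x (hE'B hx).1).le 2
      _ ≤ 2 * (C * ((lg m : ℕ) : ℝ≥0∞) ^ 11 * n2 h) := by gcongr
      _ = _ := by ring
  have hmono : Monotone B := by
    intro R R' hRR
    exact inter_subset_inter_right _ (Metric.closedBall_subset_closedBall (by exact_mod_cast hRR))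
  have hU : A = ⋃ R, B R := by
    rw [hB, ← inter_iUnion]
    refine (inter_eq_left.2 fun x _ => ?_).symm
    obtain ⟨n, hn⟩ := exists_nat_ge (dist x 0)
    exact mem_iUnion.2 ⟨n, hn⟩
  rw [hU, hmono.measure_iUnion, ENNReal.mul_iSup]
  refine iSup_le fun R => (hBbd R).trans (le_of_eq ?_)
  push_cast
  ring

/-- the hypothesis of the last part of the assembly -/
theorem pW11 (h : tWV) : tW 11 := by
  obtain ⟨C, hC⟩ := h
  exact ⟨C, fun m h hm hh hV lam => hC m h lam hm hh hV⟩

end Pool.Agent.LLog
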