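import Pool.Agent.LLog.Targets

set_option autoImplicit false

/-! # ZSH: random shift of a grid of squares -/

namespace Pool.Agent.LLog

open MeasureTheory Set
open scoped ENNReal NNReal

namespace ZSH_

/-- one coordinate, one level -/
lemma one (u s η : ℝ) (K : ℕ) (hs : 0 < s) (hη : 0 ≤ η) :
    volume {z : ℝ | z ∈ Ico 0 (K * s) ∧
      (Int.fract ((u - z) / s) < η ∨ 1 - η < Int.fract ((u - z) / s))} ≤
      ENNReal.ofReal ((K + 2) * (2 * η * s)) := by
  have hsub : {z : ℝ | z ∈ Ico 0 (K * s) ∧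
      (Int.fract ((u - z) / s) < η ∨ 1 - η < Int.fract ((u - z) / s))} ⊆
      ⋃ j ∈ Finset.Icc (⌊u / s⌋ - K) (⌊u / s⌋ + 1),
        Icc (u - j * s - η * s) (u - j * s + η * s) := by
    rintro z ⟨⟨hz0, hz1⟩, hz⟩
    have hzs0 : 0 ≤ z / s := div_nonneg hz0 hs.le
    have hzs1 : z / s < K := by
      rw [div_lt_iff₀ hs]
      exact hz1
    have ht : (u - z) / s = u / s - z / s := sub_div _ _ _
    have h1 : ⌊(u - z) / s⌋ ≤ ⌊u / s⌋ := Int.floor_le_floor (by rw [ht]; linarith)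
    have h2 : ⌊u / s⌋ - K ≤ ⌊(u - z) / s⌋ := by
      have h3 : ⌊u / s⌋ - (K : ℤ) - 1 < ⌊(u - z) / s⌋ := by
        have h4 := Int.lt_floor_add_one ((u - z) / s)
        have h5 := Int.floor_le (u / s)
        have h6 : ((⌊u / s⌋ - (K : ℤ) - 1 : ℤ) : ℝ) < ((⌊(u - z) / s⌋ : ℤ) : ℝ) := by
          push_cast
          rw [ht] at h4 ⊢
          linarith
        exact_mod_cast h6
      omega
    have h7 := Int.floor_add_fract ((u - z) / s)
    have h8 := Int.fract_nonneg ((u - z) / s)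
    have h9 := Int.fract_lt_one ((u - z) / s)
    have h10 : (u - z) / s * s = u - z := div_mul_cancel₀ _ hs.ne'
    rw [mem_iUnion₂]
    rcases hz with hz | hz
    · refine ⟨⌊(u - z) / s⌋, Finset.mem_Icc.2 ⟨h2, by omega⟩, ?_⟩
      have h11 : (u - z) / s - ⌊(u - z) / s⌋ ≤ η := by linarith
      have h12 : 0 ≤ (u - z) / s - ⌊(u - z) / s⌋ := by linarith
      have h13 := mul_le_mul_of_nonneg_right h11 hs.le
      have h14 := mul_nonneg h12 hs.le
      have h15 : 0 ≤ η * s := mul_nonneg hη hs.le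
      rw [sub_mul, h10] at h13 h14
      constructor
      · linarith
      · linarith
    · refine ⟨⌊(u - z) / s⌋ + 1, Finset.mem_Icc.2 ⟨by omega, by omega⟩, ?_⟩
      have h11 : ((⌊(u - z) / s⌋ : ℝ) + 1) - (u - z) / s ≤ η := by linarith
      have h12 : 0 ≤ ((⌊(u - z) / s⌋ : ℝ) + 1) - (u - z) / s := by linarith
      have h13 := mul_le_mul_of_nonneg_right h11 hs.le
      have h14 := mul_nonneg h12 hs.le
      have h15 : 0 ≤ η * s := mul_nonneg hη hs.le
      rw [sub_mul, h10] at h13 h14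
      push_cast
      constructor
      · linarith
      · linarith
  refine (measure_mono hsub).trans ((measure_biUnion_finset_le _ _).trans ?_)
  have hv : ∀ j : ℤ, volume (Icc (u - j * s - η * s) (u - j * s + η * s)) =
      ENNReal.ofReal (2 * η * s) := by
    intro j
    rw [Real.volume_Icc]
    congr 1
    ring
  have hc : (⌊u / s⌋ + 1 + 1 - (⌊u / s⌋ - (K : ℤ))).toNat = K + 2 := by omega
  rw [Finset.sum_congr rfl fun j _ => hv j, Finset.sum_const, Int.card_Icc, nsmul_eq_mul, hc,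
    ← ENNReal.ofReal_natCast, ← ENNReal.ofReal_mul (by positivity)]
  exact ENNReal.ofReal_le_ofReal (by push_cast; exact le_rfl)

/-- a point away from the ends of its interval -/
lemma floor_eq {u v η : ℝ} (h1 : η ≤ Int.fract u) (h2 : Int.fract u ≤ 1 - η) (hv : |v - u| < η) :
    ⌊v⌋ = ⌊u⌋ := by
  rw [Int.floor_eq_iff]
  have h3 := Int.floor_add_fract u
  have h4 := abs_lt.1 hv
  constructor
  · linarith [h4.1]
  · linarith [h4.2]

/-- the bad set -/
def bad (a m : ℕ) : Set (ℝ × (ℝ × ℝ)) :=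
  ⋃ e ∈ Finset.range (m + 1),
    ({P | Int.fract ((P.2.1 - P.1) / sd a e) < 4 / 2 ^ (3 * a) ∨
        1 - 4 / 2 ^ (3 * a) < Int.fract ((P.2.1 - P.1) / sd a e)} ∪
      {P | Int.fract ((P.2.2 - P.1) / sd a e) < 4 / 2 ^ (3 * a) ∨
        1 - 4 / 2 ^ (3 * a) < Int.fract ((P.2.2 - P.1) / sd a e)})

lemma bad_meas (a m : ℕ) : MeasurableSet (bad a m) := by
  refine Finset.measurableSet_biUnion _ fun e _ => MeasurableSet.union ?_ ?_
  · have h : Measurable fun P : ℝ × (ℝ × ℝ) => Int.fract ((P.2.1 - P.1) / sd a e) := by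
      fun_prop
    exact (measurableSet_lt h measurable_const).union (measurableSet_lt measurable_const h)
  · have h : Measurable fun P : ℝ × (ℝ × ℝ) => Int.fract ((P.2.2 - P.1) / sd a e) := by
      fun_prop
    exact (measurableSet_lt h measurable_const).union (measurableSet_lt measurable_const h)

lemma not_IN {a m : ℕ} {z : ℝ} {x : ℝ × ℝ} (hx : x ∉ IN a m (z, z)) : (z, x) ∈ bad a m := by
  unfold IN at hx
  simp only [mem_ofPred_eq, not_forall] at hx
  obtain ⟨e, he, hx⟩ := hx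
  unfold inn at hx
  simp only [mem_ofPred_eq, not_forall] at hx
  obtain ⟨y, hy1, hy2, hne⟩ := hx
  unfold bad
  refine mem_iUnion₂.2 ⟨e, Finset.mem_range.2 (by omega), ?_⟩
  by_contra hcon
  simp only [mem_union, mem_ofPred_eq, not_or, not_lt] at hcon
  obtain ⟨⟨c1, c2⟩, c3, c4⟩ := hcon
  apply hne
  have hsd : 0 < sd a e := by unfold sd; positivity
  have hde : 4 * de a e = 4 / 2 ^ (3 * a) * sd a e := by
    unfold de sd
    have : (2 : ℝ) ^ (e + 18 * a) = 2 ^ (e + 15 * a) * 2 ^ (3 * a) := by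
      rw [← pow_add]
      congr 1
      ring
    rw [this]
    field_simp
  have key : ∀ p q : ℝ, |q - p| < 4 * de a e →
      |(q - z) / sd a e - (p - z) / sd a e| < 4 / 2 ^ (3 * a) := by
    intro p q h
    have h1 : (q - z) / sd a e - (p - z) / sd a e = (q - p) / sd a e := by ring
    rw [h1, abs_div, abs_of_pos hsd, div_lt_iff₀ hsd, ← hde]
    exact h
  unfold Qx
  rw [Prod.mk.injEq]
  exact ⟨floor_eq c1 c2 (key _ _ hy1), floor_eq c3 c4 (key _ _ hy2)⟩

lemma fibre {a m : ℕ} (h : PA a m) (x : ℝ × ℝ) :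
    volume {z : ℝ | z ∈ Ico 0 (sd a m) ∧ (z, x) ∈ bad a m} ≤ ENNReal.ofReal (sd a m / 100) := by
  obtain ⟨ha, hm, -⟩ := h
  have hlev : ∀ e ∈ Finset.range (m + 1), ∀ u : ℝ,
      volume {z : ℝ | z ∈ Ico 0 (sd a m) ∧
        (Int.fract ((u - z) / sd a e) < 4 / 2 ^ (3 * a) ∨
          1 - 4 / 2 ^ (3 * a) < Int.fract ((u - z) / sd a e))} ≤
        ENNReal.ofReal (24 / 2 ^ (3 * a) * sd a m) := by
    intro e he u
    have hem : e ≤ m := by
      have := Finset.mem_range.1 he
      omega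
    have hsd : 0 < sd a e := by unfold sd; positivity
    have hK : ((2 ^ (m - e) : ℕ) : ℝ) * sd a e = sd a m := by
      unfold sd
      push_cast
      rw [← pow_add]
      congr 1
      omega
    have h1 := one u (sd a e) (4 / 2 ^ (3 * a)) (2 ^ (m - e)) hsd (by positivity)
    rw [hK] at h1
    refine h1.trans (ENNReal.ofReal_le_ofReal ?_)
    have h2 : (1 : ℝ) ≤ ((2 ^ (m - e) : ℕ) : ℝ) := by
      exact_mod_cast Nat.one_le_two_pow
    have h3 : (((2 ^ (m - e) : ℕ) : ℝ) + 2) * (2 * (4 / 2 ^ (3 * a)) * sd a e) ≤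
        (3 * ((2 ^ (m - e) : ℕ) : ℝ)) * (2 * (4 / 2 ^ (3 * a)) * sd a e) :=
      mul_le_mul_of_nonneg_right (by linarith) (by positivity)
    refine h3.trans (le_of_eq ?_)
    rw [← hK]
    ring
  have hsub : {z : ℝ | z ∈ Ico 0 (sd a m) ∧ (z, x) ∈ bad a m} ⊆
      ⋃ e ∈ Finset.range (m + 1), ({z : ℝ | z ∈ Ico 0 (sd a m) ∧
        (Int.fract ((x.1 - z) / sd a e) < 4 / 2 ^ (3 * a) ∨
          1 - 4 / 2 ^ (3 * a) < Int.fract ((x.1 - z) / sd a e))} ∪
        {z : ℝ | z ∈ Ico 0 (sd a m) ∧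
        (Int.fract ((x.2 - z) / sd a e) < 4 / 2 ^ (3 * a) ∨
          1 - 4 / 2 ^ (3 * a) < Int.fract ((x.2 - z) / sd a e))}) := by
    rintro z ⟨hz, hb⟩
    unfold bad at hb
    obtain ⟨e, he, hb⟩ := mem_iUnion₂.1 hb
    refine mem_iUnion₂.2 ⟨e, he, ?_⟩
    rcases hb with hb | hb
    · exact Or.inl ⟨hz, hb⟩
    · exact Or.inr ⟨hz, hb⟩
  refine (measure_mono hsub).trans ((measure_biUnion_finset_le _ _).trans ?_)
  have h1 : ∀ e ∈ Finset.range (m + 1), volume ({z : ℝ | z ∈ Ico 0 (sd a m) ∧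
        (Int.fract ((x.1 - z) / sd a e) < 4 / 2 ^ (3 * a) ∨
          1 - 4 / 2 ^ (3 * a) < Int.fract ((x.1 - z) / sd a e))} ∪
        {z : ℝ | z ∈ Ico 0 (sd a m) ∧
        (Int.fract ((x.2 - z) / sd a e) < 4 / 2 ^ (3 * a) ∨
          1 - 4 / 2 ^ (3 * a) < Int.fract ((x.2 - z) / sd a e))}) ≤
        ENNReal.ofReal (48 / 2 ^ (3 * a) * sd a m) := by
    intro e he
    refine (measure_union_le _ _).trans ((add_le_add (hlev e he _) (hlev e he _)).trans ?_)
    have hsd : 0 < sd a m := by unfold sd; positivity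
    rw [← ENNReal.ofReal_add (by positivity) (by positivity)]
    refine ENNReal.ofReal_le_ofReal (le_of_eq ?_)
    ring
  refine (Finset.sum_le_sum h1).trans ?_
  rw [Finset.sum_const, Finset.card_range, nsmul_eq_mul, ← ENNReal.ofReal_natCast,
    ← ENNReal.ofReal_mul (by positivity)]
  refine ENNReal.ofReal_le_ofReal ?_
  have hsd : 0 < sd a m := by unfold sd; positivity
  have h2 : ((m + 1 : ℕ) : ℝ) ≤ 2 ^ a := by
    have : m + 1 ≤ 2 ^ a := hm
    exact_mod_cast this
  have h3 : (2 : ℝ) ^ (3 * a) = 2 ^ a * 2 ^ (2 * a) := by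
    rw [← pow_add]
    congr 1
    ring
  have h4 : (4800 : ℝ) ≤ 2 ^ (2 * a) := by
    calc (4800 : ℝ) ≤ 2 ^ 40 := by norm_num
      _ ≤ 2 ^ (2 * a) := pow_le_pow_right₀ (by norm_num) (by omega)
  have hpa : (0 : ℝ) < 2 ^ a := by positivity
  have hp2 : (0 : ℝ) < 2 ^ (2 * a) := by positivity
  calc ((m + 1 : ℕ) : ℝ) * (48 / 2 ^ (3 * a) * sd a m)
      ≤ 2 ^ a * (48 / 2 ^ (3 * a) * sd a m) :=
        mul_le_mul_of_nonneg_right h2 (by positivity)
    _ = 48 / 2 ^ (2 * a) * sd a m := by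
        rw [h3]
        field_simp
    _ ≤ 1 / 100 * sd a m := by
        refine mul_le_mul_of_nonneg_right ?_ hsd.le
        rw [div_le_div_iff₀ hp2 (by norm_num)]
        linarith
    _ = sd a m / 100 := by ring

end ZSH_

open ZSH_ in
theorem pZSH : tZSH := by
  intro a m E hPA hE hEf
  have hsd : 0 < sd a m := by unfold sd; positivity
  have hvol : volume (Ico (0 : ℝ) (sd a m)) = ENNReal.ofReal (sd a m) := by
    rw [Real.volume_Ico, sub_zero]
  set f : ℝ → ℝ≥0∞ := fun z => volume {x | x ∈ E ∧ (z, x) ∈ bad a m} with hf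
  have hS : MeasurableSet (((univ : Set ℝ) ×ˢ E) ∩ bad a m) :=
    (MeasurableSet.univ.prod hE).inter (bad_meas a m)
  have hfeq : ∀ z, f z = volume (Prod.mk z ⁻¹' (((univ : Set ℝ) ×ˢ E) ∩ bad a m)) := by
    intro z
    simp only [hf]
    congr 1
    ext x
    simp
  have hfm : Measurable f := by
    have : f = fun z => volume (Prod.mk z ⁻¹' (((univ : Set ℝ) ×ˢ E) ∩ bad a m)) := funext hfeq
    rw [this]
    exact measurable_measure_prodMk_left hS
  obtain ⟨z, -, hz⟩ := exists_le_setLAverage (μ := volume) (s := Ico (0 : ℝ) (sd a m)) (f := f)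
    (by rw [hvol]; simpa using hsd) (by rw [hvol]; exact ENNReal.ofReal_ne_top) hfm.aemeasurable
  refine ⟨(z, z), ?_⟩
  have h1 : volume (E \ IN a m (z, z)) ≤ f z := by
    refine measure_mono fun x hx => ⟨hx.1, not_IN hx.2⟩
  refine h1.trans (hz.trans ?_)
  rw [setLAverage_eq, hvol]
  -- Tonelli
  have h2 : ∫⁻ z in Ico (0 : ℝ) (sd a m), f z ≤ volume E * ENNReal.ofReal (sd a m / 100) := by
    have h3 : ∀ z, f z = ∫⁻ x in E, (bad a m).indicator 1 (z, x) := by
      intro z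
      have h4 : MeasurableSet {x : ℝ × ℝ | (z, x) ∈ bad a m} :=
        measurable_prodMk_left (bad_meas a m)
      have h5 : ∀ x : ℝ × ℝ, (bad a m).indicator (1 : ℝ × (ℝ × ℝ) → ℝ≥0∞) (z, x) =
          {x : ℝ × ℝ | (z, x) ∈ bad a m}.indicator 1 x := fun x => rfl
      simp only [h5]
      rw [lintegral_indicator_one h4, Measure.restrict_apply h4]
      simp only [hf]
      congr 1
      ext x
      simp [and_comm]
    calc ∫⁻ z in Ico (0 : ℝ) (sd a m), f z
        = ∫⁻ z in Ico (0 : ℝ) (sd a m), ∫⁻ x in E, (bad a m).indicator 1 (z, x) := by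
          simp only [h3]
      _ = ∫⁻ x in E, ∫⁻ z in Ico (0 : ℝ) (sd a m), (bad a m).indicator 1 (z, x) := by
          refine lintegral_lintegral_swap ?_
          exact ((measurable_one.indicator (bad_meas a m))).aemeasurable
      _ ≤ ∫⁻ x in E, ENNReal.ofReal (sd a m / 100) := by
          refine lintegral_mono fun x => ?_
          have h4 : MeasurableSet {z : ℝ | (z, x) ∈ bad a m} :=
            measurable_prodMk_right (bad_meas a m)
          have h5 : ∀ z : ℝ, (bad a m).indicator (1 : ℝ × (ℝ × ℝ) → ℝ≥0∞) (z, x) =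
              {z : ℝ | (z, x) ∈ bad a m}.indicator 1 z := fun z => rfl
          simp only [h5]
          rw [lintegral_indicator_one h4, Measure.restrict_apply h4]
          refine le_trans (measure_mono ?_) (fibre hPA x)
          rintro z ⟨hz1, hz2⟩
          exact ⟨hz2, hz1⟩
      _ = volume E * ENNReal.ofReal (sd a m / 100) := by
          rw [setLIntegral_const, mul_comm]
  refine (ENNReal.div_le_div_right h2 _).trans ?_
  have h6 : ENNReal.ofReal (sd a m / 100) = ENNReal.ofReal (sd a m) / 100 := by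
    rw [ENNReal.ofReal_div_of_pos (by norm_num)]
    norm_num
  rw [h6]
  refine ENNReal.div_le_of_le_mul ?_
  rw [div_eq_mul_inv, div_eq_mul_inv]
  refine le_of_eq ?_
  ring

end Pool.Agent.LLog
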