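import Pool.Agent.LLog.BAD
import Pool.Agent.LLog.BDJ
import Pool.Agent.LLog.BEL
import Pool.Agent.LLog.BXM
import Pool.Agent.LLog.CHD
import Pool.Agent.LLog.CLP
import Pool.Agent.LLog.CVK
import Pool.Agent.LLog.DRP
import Pool.Agent.LLog.DUA
import Pool.Agent.LLog.EA
import Pool.Agent.LLog.EB
import Pool.Agent.LLog.FAR
import Pool.Agent.LLog.FOK
import Pool.Agent.LLog.FRM
import Pool.Agent.LLog.GEO
import Pool.Agent.LLog.GK
import Pool.Agent.LLog.GOD
import Pool.Agent.LLog.HA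
import Pool.Agent.LLog.HAT
import Pool.Agent.LLog.HB
import Pool.Agent.LLog.KAK
import Pool.Agent.LLog.KAP
import Pool.Agent.LLog.LAM
import Pool.Agent.LLog.LIN
import Pool.Agent.LLog.LOC
import Pool.Agent.LLog.MAV
import Pool.Agent.LLog.MLT
import Pool.Agent.LLog.MUK
import Pool.Agent.LLog.MUS
import Pool.Agent.LLog.PCH
import Pool.Agent.LLog.PFM
import Pool.Agent.LLog.PRD
import Pool.Agent.LLog.PRI
import Pool.Agent.LLog.PSI
import Pool.Agent.LLog.REC
import Pool.Agent.LLog.RMG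
import Pool.Agent.LLog.RMQ
import Pool.Agent.LLog.RSF
import Pool.Agent.LLog.SC
import Pool.Agent.LLog.SEC
import Pool.Agent.LLog.SHF
import Pool.Agent.LLog.SHT
import Pool.Agent.LLog.SMP
import Pool.Agent.LLog.STP
import Pool.Agent.LLog.TOP
import Pool.Agent.LLog.TRE
import Pool.Agent.LLog.USE
import Pool.Agent.LLog.WA
import Pool.Agent.LLog.WV
import Pool.Agent.LLog.YNG
import Pool.Agent.LLog.ZSH
import Pool.Agent.LLog.BLK
import Pool.Agent.LLog.POS
import Pool.Agent.LLog.GDJ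
import Pool.Agent.LLog.TRA
import Pool.Agent.LLog.EndAll

set_option autoImplicit false

/-! The composition of all parts. -/

namespace Pool.Agent.LLog

open Pool.Agent.KSP (pPl1 pPo1)

theorem aKAP : tKAP := pKAP pMAV

theorem aGK : tGK := pGK aKAP pHAT pCVK

theorem aSEC : tSEC := pSEC aGK

theorem aCHD : tCHD := pCHD (pSHT pEA) pFRM aSEC aGK pGEO

theorem aMUS : tMUS := pMUS (pPSI pMAV) pGEO

theorem aMUK : tMUK := pMUK (pPSI pMAV) (pPRD pFRM)

theorem aLOC : tLOC := pLOC pCVK pHAT pYNG aMUS aMUK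

theorem aLAM : tLAM := pLAM pBXM

theorem aEB : tEB := pEB aKAP pPl1 pPo1

theorem aGDJ : tGDJ := pGDJ (pBEL pSTP) pEA aEB

theorem aBLK : tBLK := pBLK (pRSF (pBDJ pSC) aGDJ) pFRM aSEC aGK pGEO

theorem aPOS : tPOS :=
  pPOS (pPCH (pDUA pHAT) (pFAR pCVK pHAT pYNG) (pHB (pHA aLOC pTRA aMUS) pRMQ aMUS) aLAM aMUS aMUK)
    pSMP aMUS aLAM

theorem aPFM : tPFM := pPFM aPOS pUSE (pMLT pCLP)

theorem aGOD : tGOD := pGOD pTRE aBLK aCHD aPFM pFOK pUSE

theorem aLIN : tLIN :=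
  pLIN aGOD pTOP (pPRI pREC) (pDRP pKAK) pZSH pSHF pBAD pRMG

/-- weak type (2,2) with constant `(log m)^11` for `4^m` radii in an octave -/
theorem fTW : tW 11 := pW11 (pWV aLIN)

theorem fWV : tWV := pWV aLIN

theorem fWA : tWA := pWA fWV

theorem fDSw : tDSw 11 := eDS fTW

theorem fFA1w : tFA1w 11 := eFA1 fTW

theorem fFA2w : tFA2w 11 := eFA2 fTW

theorem fFA3w : tFA3w 11 := eFA3 fTW

end Pool.Agent.LLog
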