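import Pool.Agent.LLog.Targets
import Pool.Agent.KSP.All1

set_option autoImplicit false

/-! F14: the unpopular part. -/

namespace Pool.Agent.LLog

open MeasureTheory Set
open scoped ENNReal NNReal ComplexConjugate
open Pool.Agent.KSP (ee dot nr Ex Ex1 Bd Bd1 n1 n2 lg V0 ann)

namespace BAD_

lemma meas_nr : Measurable nr := KSP.MV_.cont_nr.measurable

/-- the part of an interval of level `j` before the interval `c` of level `j + 1` -/
def St (sg : ℝ) (j c : ℕ) : Set (ℝ × ℝ) :=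
  {ξ | sg + (c / 4 : ℕ) / 4 ^ j ≤ nr ξ ∧ nr ξ < sg + c / 4 ^ (j + 1)}

/-- the interval `b` of level `j` -/
def Tt (sg : ℝ) (j b : ℕ) : Set (ℝ × ℝ) :=
  {ξ | sg + b / 4 ^ j ≤ nr ξ ∧ nr ξ < sg + (b + 1) / 4 ^ j}

lemma meas_St (sg : ℝ) (j c : ℕ) : MeasurableSet (St sg j c) :=
  (measurableSet_le measurable_const meas_nr).inter (measurableSet_lt meas_nr measurable_const)

lemma meas_Tt (sg : ℝ) (j b : ℕ) : MeasurableSet (Tt sg j b) :=
  (measurableSet_le measurable_const meas_nr).inter (measurableSet_lt meas_nr measurable_const)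

lemma step_le (sg : ℝ) (j c : ℕ) :
    sg + (c : ℝ) / 4 ^ (j + 1) ≤ sg + ((c / 4 : ℕ) + 1 : ℝ) / 4 ^ j := by
  have h1 : (c : ℝ) ≤ 4 * ((c / 4 : ℕ) + 1) := by
    exact_mod_cast (by omega : c ≤ 4 * (c / 4 + 1))
  have h2 : (c : ℝ) / 4 ^ (j + 1) ≤ ((c / 4 : ℕ) + 1 : ℝ) / 4 ^ j := by
    rw [pow_succ, div_le_div_iff₀ (by positivity) (by positivity)]
    nlinarith [pow_pos (show (0 : ℝ) < 4 by norm_num) j]
  linarith

lemma step_ge (sg : ℝ) (j c : ℕ) :
    sg + ((c / 4 : ℕ) : ℝ) / 4 ^ j ≤ sg + (c : ℝ) / 4 ^ (j + 1) := by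
  have h1 : 4 * ((c / 4 : ℕ) : ℝ) ≤ c := by
    exact_mod_cast (by omega : 4 * (c / 4) ≤ c)
  have h2 : ((c / 4 : ℕ) : ℝ) / 4 ^ j ≤ (c : ℝ) / 4 ^ (j + 1) := by
    rw [pow_succ, div_le_div_iff₀ (by positivity) (by positivity)]
    nlinarith [pow_pos (show (0 : ℝ) < 4 by norm_num) j]
  linarith

lemma St_sub (sg : ℝ) (j c : ℕ) : St sg j c ⊆ Tt sg j (c / 4) := by
  rintro ξ ⟨h1, h2⟩
  exact ⟨h1, lt_of_lt_of_le h2 (step_le sg j c)⟩

lemma Tt_disj (sg : ℝ) (j : ℕ) {b b' : ℕ} (h : b < b') : Disjoint (Tt sg j b) (Tt sg j b') := by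
  rw [Set.disjoint_left]
  rintro ξ ⟨_, h2⟩ ⟨h3, _⟩
  have h4 : ((b : ℝ) + 1) / 4 ^ j ≤ (b' : ℝ) / 4 ^ j := by
    gcongr
    exact_mod_cast h
  linarith

lemma sum_four (g : ℕ → ℝ≥0∞) (N : ℕ) :
    ∑ c ∈ Finset.range (4 * N), g (c / 4) = 4 * ∑ b ∈ Finset.range N, g b := by
  induction N with
  | zero => simp
  | succ N ih =>
    have h4 : 4 * (N + 1) = 4 * N + 1 + 1 + 1 + 1 := by ring
    rw [h4, Finset.sum_range_succ, Finset.sum_range_succ, Finset.sum_range_succ,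
      Finset.sum_range_succ, ih, Finset.sum_range_succ]
    have e0 : 4 * N / 4 = N := by omega
    have e1 : (4 * N + 1) / 4 = N := by omega
    have e2 : (4 * N + 1 + 1) / 4 = N := by omega
    have e3 : (4 * N + 1 + 1 + 1) / 4 = N := by omega
    rw [e0, e1, e2, e3]
    ring

lemma sum_n2 (sg : ℝ) (j N : ℕ) (h : ℝ × ℝ → ℂ) :
    ∑ c ∈ Finset.range (4 * N), n2 ((St sg j c).indicator h) ≤ 4 * n2 h := by
  have h1 : ∀ c ∈ Finset.range (4 * N), n2 ((St sg j c).indicator h) ≤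
      (fun b => ∫⁻ ξ in Tt sg j b, ‖h ξ‖ₑ ^ 2) (c / 4) := by
    intro c _
    rw [KSP.BadE_.n2_ind h (meas_St sg j c)]
    exact lintegral_mono_set (St_sub sg j c)
  refine (Finset.sum_le_sum h1).trans ?_
  refine (sum_four (fun b => ∫⁻ ξ in Tt sg j b, ‖h ξ‖ₑ ^ 2) N).le.trans ?_
  gcongr
  rw [← lintegral_biUnion_finset]
  · exact setLIntegral_le_lintegral _ _
  · intro v _ w _ hvw
    rcases lt_or_gt_of_ne hvw with h | h
    · exact Tt_disj sg j h
    · exact (Tt_disj sg j h).symm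
  · exact fun v _ => meas_Tt _ _ _

lemma kc_div (m : ℕ) (sg : ℝ) (k : ℝ × ℝ → ℕ) (l d : ℕ) (x : ℝ × ℝ) :
    kc m sg k (l + d) x / 4 ^ d = kc m sg k l x := by
  unfold kc
  rw [← Nat.floor_div_natCast]
  congr 1
  push_cast
  rw [pow_add]
  field_simp

lemma kc_le {m : ℕ} {sg : ℝ} {k : ℝ × ℝ → ℕ} (hsg : sg < 1) (l : ℕ) (x : ℝ × ℝ) :
    sg + (kc m sg k l x : ℝ) / 4 ^ l ≤ 1 + k x / 4 ^ m := by
  have h0 : (0 : ℝ) ≤ k x / 4 ^ m := by positivity
  have h1 : (kc m sg k l x : ℝ) ≤ 4 ^ l * (1 + k x / 4 ^ m - sg) :=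
    Nat.floor_le (mul_nonneg (by positivity) (by linarith))
  have h2 : (kc m sg k l x : ℝ) / 4 ^ l ≤ 1 + k x / 4 ^ m - sg := by
    rw [div_le_iff₀ (by positivity)]
    linarith
  linarith

lemma kx_lt {m : ℕ} {k : ℝ × ℝ → ℕ} {x : ℝ × ℝ} (hk : k x < 4 ^ m) :
    1 + (k x : ℝ) / 4 ^ m < 2 := by
  have : (k x : ℝ) / 4 ^ m < 1 := by
    rw [div_lt_one (by positivity)]
    exact_mod_cast hk
  linarith

lemma kc_lt {m : ℕ} {sg : ℝ} {k : ℝ × ℝ → ℕ} (hsg0 : 0 ≤ sg) (hsg : sg < 1) (l : ℕ)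
    {x : ℝ × ℝ} (hk : k x < 4 ^ m) : kc m sg k l x < 2 * 4 ^ l := by
  have h1 := kc_le (m := m) (k := k) hsg l x
  have h2 := kx_lt hk
  have h3 : (kc m sg k l x : ℝ) / 4 ^ l < 2 := by linarith
  rw [div_lt_iff₀ (by positivity)] at h3
  exact_mod_cast h3

lemma kc_meas (m : ℕ) (sg : ℝ) {k : ℝ × ℝ → ℕ} (hk : Measurable k) (l : ℕ) :
    Measurable (kc m sg k l) := by
  unfold kc
  refine Nat.measurable_floor.comp ?_
  have h1 : Measurable fun x => (k x : ℝ) := measurable_from_top.comp hk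
  exact (((h1.div_const _).const_add _).sub_const _).const_mul _

lemma Qx_meas (a : ℕ) (z0 : ℝ × ℝ) (e : ℕ) : Measurable (Qx a z0 e) := by
  unfold Qx
  exact (Int.measurable_floor.comp ((measurable_fst.sub_const _).div_const _)).prodMk
    (Int.measurable_floor.comp ((measurable_snd.sub_const _).div_const _))

section lst

variable (a m : ℕ) (z0 : ℝ × ℝ) (sg : ℝ) (E : Set (ℝ × ℝ)) (k : ℝ × ℝ → ℕ)

/-- condition in the definition of `lst` -/
def Pc (l : ℕ) (x : ℝ × ℝ) : Prop :=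
  10 * a ≤ l ∧ (¬ Pop a m z0 sg E k l (Qx a z0 l x) (kc m sg k l x) ∨ l = m)

lemma meas_Pc (hk : Measurable k) (l : ℕ) : MeasurableSet {x | Pc a m z0 sg E k l x} := by
  have h : {x | Pc a m z0 sg E k l x} = (fun x => (Qx a z0 l x, kc m sg k l x)) ⁻¹'
      {p : (ℤ × ℤ) × ℕ | 10 * a ≤ l ∧ (¬ Pop a m z0 sg E k l p.1 p.2 ∨ l = m)} := rfl
  rw [h]
  exact ((Qx_meas a z0 l).prodMk (kc_meas m sg hk l)) (Set.to_countable _).measurableSet

lemma lst_spec (h : 10 * a ≤ m) (x : ℝ × ℝ) : Pc a m z0 sg E k (lst a m z0 sg E k x) x :=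
  Nat.sInf_mem (s := {l | Pc a m z0 sg E k l x}) ⟨m, h, Or.inr rfl⟩

lemma lst_le (h : 10 * a ≤ m) (x : ℝ × ℝ) : lst a m z0 sg E k x ≤ m :=
  Nat.sInf_le (s := {l | Pc a m z0 sg E k l x}) ⟨h, Or.inr rfl⟩

lemma meas_lst (hk : Measurable k) (h : 10 * a ≤ m) (l : ℕ) :
    MeasurableSet {x | lst a m z0 sg E k x = l} := by
  have he : {x | lst a m z0 sg E k x = l} = {x | Pc a m z0 sg E k l x} ∩
      ⋂ l' ∈ Finset.range l, {x | Pc a m z0 sg E k l' x}ᶜ := by
    ext x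
    simp only [mem_ofPred_eq, mem_inter_iff, mem_iInter, Finset.mem_range, mem_compl_iff]
    constructor
    · intro hx
      refine ⟨hx ▸ lst_spec a m z0 sg E k h x, fun l' hl' hP => ?_⟩
      have := Nat.sInf_le (s := {l | Pc a m z0 sg E k l x}) hP
      have h2 : lst a m z0 sg E k x ≤ l' := this
      omega
    · rintro ⟨h1, h2⟩
      have h3 : lst a m z0 sg E k x ≤ l := Nat.sInf_le (s := {l | Pc a m z0 sg E k l x}) h1
      by_contra hne
      exact h2 _ (lt_of_le_of_ne h3 hne) (lst_spec a m z0 sg E k h x)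
  rw [he]
  exact (meas_Pc a m z0 sg E k hk l).inter
    (Finset.measurableSet_biInter _ fun l' _ => (meas_Pc a m z0 sg E k hk l').compl)

/-- points of `E` with given `lst` and `kc` -/
def Ff (l j c : ℕ) : Set (ℝ × ℝ) :=
  {x | x ∈ E ∧ lst a m z0 sg E k x = l ∧ kc m sg k (j + 1) x = c}

lemma meas_Ff (hE : MeasurableSet E) (hk : Measurable k) (h : 10 * a ≤ m) (l j c : ℕ) :
    MeasurableSet (Ff a m z0 sg E k l j c) :=
  hE.inter ((meas_lst a m z0 sg E k hk h l).inter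
    ((kc_meas m sg hk (j + 1)) (measurableSet_singleton c)))

lemma sd_pos (e : ℕ) : 0 < sd a e := by unfold sd; positivity

lemma dens (h : 10 * a ≤ m) (l j c : ℕ) (hlm : l < m) (hlj : l ≤ j) (y : ℝ × ℝ) :
    volume (Ff a m z0 sg E k l j c ∩ KSP.sq y (2 ^ l)) ≤
      ENNReal.ofReal (4 ^ l / (2 ^ (14 * a) / 4)) := by
  set B := Ff a m z0 sg E k l j c with hB
  have hone : ∀ z : ℤ × ℤ, volume (B ∩ {x | Qx a z0 l x = z}) ≤
      ENNReal.ofReal (sd a l ^ 2 / 2 ^ (50 * a)) := by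
    intro z
    rcases Set.eq_empty_or_nonempty (B ∩ {x | Qx a z0 l x = z}) with h0 | ⟨x, hx, hz⟩
    · rw [h0, measure_empty]
      exact zero_le
    · obtain ⟨hxE, hxl, hxc⟩ := hx
      have hP := (lst_spec a m z0 sg E k h x).2
      rw [hxl] at hP
      rcases hP with hP | hP
      swap
      · omega
      unfold Pop at hP
      rw [not_le] at hP
      refine le_trans (measure_mono ?_) hP.le
      rintro y ⟨⟨hyE, hyl, hyc⟩, hyz⟩
      refine ⟨hyE, ?_, ?_⟩
      · have e1 : Qx a z0 l y = z := hyz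
        have e2 : Qx a z0 l x = z := hz
        rw [e1, e2]
      · have e3 := kc_div m sg k l (j + 1 - l) y
        have e4 := kc_div m sg k l (j + 1 - l) x
        have e5 : l + (j + 1 - l) = j + 1 := by omega
        rw [e5] at e3 e4
        rw [← e3, ← e4, hyc, hxc]
  set u := ⌊(y.1 - z0.1) / sd a l⌋ with hu
  set v := ⌊(y.2 - z0.2) / sd a l⌋ with hv
  have hr : 0 < sd a l := sd_pos a l
  have hsz : (2 : ℝ) ^ l ≤ sd a l := by
    unfold sd
    exact pow_le_pow_right₀ (by norm_num) (by omega)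
  have hcov : B ∩ KSP.sq y (2 ^ l) ⊆
      (B ∩ {x | Qx a z0 l x = (u, v)}) ∪ (B ∩ {x | Qx a z0 l x = (u + 1, v)}) ∪
        ((B ∩ {x | Qx a z0 l x = (u, v + 1)}) ∪ (B ∩ {x | Qx a z0 l x = (u + 1, v + 1)})) := by
    rintro x ⟨hx, hxs⟩
    obtain ⟨⟨h1, h2⟩, h3, h4⟩ := hxs
    have c1 := KSP.Bad_.floor_two (t := x.1 - z0.1) (y := y.1 - z0.1) hr (by linarith)
      (by linarith)
    have c2 := KSP.Bad_.floor_two (t := x.2 - z0.2) (y := y.2 - z0.2) hr (by linarith)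
      (by linarith)
    have hQ : Qx a z0 l x = (⌊(x.1 - z0.1) / sd a l⌋, ⌊(x.2 - z0.2) / sd a l⌋) := rfl
    rw [← hu] at c1
    rw [← hv] at c2
    rcases c1 with c1 | c1 <;> rcases c2 with c2 | c2
    · exact Or.inl (Or.inl ⟨hx, by show Qx a z0 l x = _; rw [hQ, c1, c2]⟩)
    · exact Or.inr (Or.inl ⟨hx, by show Qx a z0 l x = _; rw [hQ, c1, c2]⟩)
    · exact Or.inl (Or.inr ⟨hx, by show Qx a z0 l x = _; rw [hQ, c1, c2]⟩)
    · exact Or.inr (Or.inr ⟨hx, by show Qx a z0 l x = _; rw [hQ, c1, c2]⟩)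
  set D : ℝ := sd a l ^ 2 / 2 ^ (50 * a) with hD
  have hD0 : 0 ≤ D := by rw [hD]; positivity
  calc volume (B ∩ KSP.sq y (2 ^ l))
      ≤ (volume (B ∩ {x | Qx a z0 l x = (u, v)}) + volume (B ∩ {x | Qx a z0 l x = (u + 1, v)})) +
        (volume (B ∩ {x | Qx a z0 l x = (u, v + 1)}) +
          volume (B ∩ {x | Qx a z0 l x = (u + 1, v + 1)})) :=
        (measure_mono hcov).trans ((measure_union_le _ _).trans
          (add_le_add (measure_union_le _ _) (measure_union_le _ _)))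
    _ ≤ (ENNReal.ofReal D + ENNReal.ofReal D) + (ENNReal.ofReal D + ENNReal.ofReal D) :=
        add_le_add (add_le_add (hone _) (hone _)) (add_le_add (hone _) (hone _))
    _ = ENNReal.ofReal (4 ^ l / (2 ^ (14 * a) / 4)) := by
        rw [← ENNReal.ofReal_add hD0 hD0, ← ENNReal.ofReal_add (by linarith) (by linarith)]
        congr 1
        rw [hD, sd, ← pow_mul, show (l + 18 * a) * 2 = 2 * l + 36 * a by ring, pow_add,
          show 50 * a = 36 * a + 14 * a by ring, pow_add, pow_mul 2 2 l]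
        norm_num
        field_simp
        ring

end lst

lemma Ex_zero (x : ℝ × ℝ) : Ex (0 : ℝ × ℝ → ℂ) x = 0 := by simp [KSP.Ex]

lemma tele (u : ℕ → ℝ) (hu : ∀ j, u j ≤ u (j + 1)) (h : ℝ × ℝ → ℂ) (l d : ℕ) :
    {ξ | u l ≤ nr ξ ∧ nr ξ < u (l + d)}.indicator h =
      ∑ j ∈ Finset.Ico l (l + d), {ξ | u j ≤ nr ξ ∧ nr ξ < u (j + 1)}.indicator h := by
  induction d with
  | zero =>
    simp only [add_zero, Finset.Ico_self, Finset.sum_empty]
    ext ξ
    rw [indicator_of_notMem, Pi.zero_apply]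
    rintro ⟨h1, h2⟩
    linarith
  | succ d ih =>
    rw [← add_assoc, Finset.sum_Ico_succ_top (by omega), ← ih]
    have hm : u l ≤ u (l + d) := by
      have hmono : Monotone u := monotone_nat_of_le_succ hu
      exact hmono (by omega)
    have hs := hu (l + d)
    ext ξ
    rw [Pi.add_apply]
    by_cases c1 : u l ≤ nr ξ
    · by_cases c2 : nr ξ < u (l + d)
      · rw [indicator_of_mem (show ξ ∈ {ξ | u l ≤ nr ξ ∧ nr ξ < u (l + d + 1)} from
            ⟨c1, by linarith⟩), indicator_of_mem (show ξ ∈ {ξ | u l ≤ nr ξ ∧ nr ξ < u (l + d)} from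
            ⟨c1, c2⟩), indicator_of_notMem, add_zero]
        rintro ⟨h1, _⟩
        linarith
      · push Not at c2
        rw [indicator_of_notMem (s := {ξ | u l ≤ nr ξ ∧ nr ξ < u (l + d)})
          (fun hh => absurd hh.2 (not_lt.2 c2)), zero_add]
        by_cases c3 : nr ξ < u (l + d + 1)
        · rw [indicator_of_mem (show ξ ∈ {ξ | u l ≤ nr ξ ∧ nr ξ < u (l + d + 1)} from
            ⟨c1, c3⟩), indicator_of_mem (show ξ ∈ {ξ | u (l + d) ≤ nr ξ ∧ nr ξ < u (l + d + 1)} from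
            ⟨c2, c3⟩)]
        · rw [indicator_of_notMem (fun hh => c3 hh.2), indicator_of_notMem (fun hh => c3 hh.2)]
    · rw [indicator_of_notMem (fun hh => c1 hh.1), indicator_of_notMem (fun hh => c1 hh.1),
        indicator_of_notMem, add_zero]
      rintro ⟨h1, _⟩
      exact c1 (by linarith)

lemma num (a m : ℕ) (hm : m < 2 ^ a) (C : ℝ≥0) :
    (m : ℝ≥0∞) * (m * (m * (C * ((2 * m + 1 : ℕ) : ℝ≥0∞) *
      ENNReal.ofReal (1 / √(2 ^ (14 * a) / 4)) * 4))) ≤ ((16 * C : ℝ≥0) : ℝ≥0∞) := by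
  have hs : √((2 : ℝ) ^ (14 * a) / 4) = 2 ^ (7 * a) / 2 := by
    rw [show (14 * a) = 7 * a * 2 by ring, pow_mul, show (4 : ℝ) = 2 ^ 2 by norm_num,
      ← div_pow, Real.sqrt_sq (by positivity)]
  have hr : (m : ℝ) * (m * (m * (C * ((2 * m + 1 : ℕ) : ℝ) *
      (1 / √(2 ^ (14 * a) / 4)) * 4))) ≤ 16 * C := by
    rw [hs]
    have h1 : (m : ℝ) ≤ 2 ^ a := by exact_mod_cast hm.le
    have h2 : ((2 * m + 1 : ℕ) : ℝ) ≤ 2 * 2 ^ a := by
      exact_mod_cast (by omega : 2 * m + 1 ≤ 2 * 2 ^ a)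
    have h3 : (1 : ℝ) ≤ 2 ^ a := one_le_pow₀ (by norm_num)
    have hC : (0 : ℝ) ≤ C := C.2
    have e1 : (m : ℝ) * (m * (m * (C * ((2 * m + 1 : ℕ) : ℝ) * (1 / (2 ^ (7 * a) / 2)) * 4))) =
        C * (8 * ((m * m * m * ((2 * m + 1 : ℕ) : ℝ)) / 2 ^ (7 * a))) := by
      field_simp
      ring
    have e2 : (m * m * m * ((2 * m + 1 : ℕ) : ℝ)) ≤ 2 * (2 : ℝ) ^ (7 * a) := by
      have e3 : (m * m * m * ((2 * m + 1 : ℕ) : ℝ)) ≤
          (2 ^ a * 2 ^ a * 2 ^ a * (2 * 2 ^ a) : ℝ) := by gcongr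
      refine e3.trans ?_
      have e4 : (2 : ℝ) ^ (7 * a) = (2 ^ a) ^ 7 := by rw [← pow_mul]; ring_nf
      rw [e4]
      have e5 : ((2 : ℝ) ^ a) ^ 4 ≤ (2 ^ a) ^ 7 := pow_le_pow_right₀ h3 (by norm_num)
      nlinarith
    have e6 : (m * m * m * ((2 * m + 1 : ℕ) : ℝ)) / 2 ^ (7 * a) ≤ 2 := by
      rw [div_le_iff₀ (by positivity)]
      exact e2
    rw [e1]
    nlinarith
  have h5 := ENNReal.ofReal_le_ofReal hr
  have h7 : (0 : ℝ) ≤ 1 / √(2 ^ (14 * a) / 4) := by positivity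
  rw [ENNReal.ofReal_mul (by positivity), ENNReal.ofReal_mul (by positivity),
    ENNReal.ofReal_mul (by positivity), ENNReal.ofReal_mul (by positivity),
    ENNReal.ofReal_mul (by positivity), ENNReal.ofReal_mul (by positivity),
    ENNReal.ofReal_mul (by norm_num), ENNReal.ofReal_natCast, ENNReal.ofReal_natCast,
    ENNReal.ofReal_coe_nnreal] at h5
  refine le_trans (le_of_eq ?_) (h5.trans (le_of_eq ?_))
  · norm_num
  · push_cast
    norm_num

end BAD_

open BAD_ in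
theorem pBAD : tBAD := by
  obtain ⟨C, hC⟩ := KSP.fL
  refine ⟨16 * C, fun a m z0 sg E k h hPA hsg0 hsg1 hE hEf hk hk4 hh hsupp => ?_⟩
  obtain ⟨ha20, hm1, hm2⟩ := hPA
  have h10 : 10 * a ≤ m := by
    have h1 : 20 * a ≤ 2 ^ a := by
      clear hm1 hm2
      induction a, ha20 using Nat.le_induction with
      | base => norm_num
      | succ n hn ih => rw [pow_succ]; omega
    omega
  have hFm := meas_Ff a m z0 sg E k hE hk h10
  set K0 : ℝ≥0∞ := C * ((2 * m + 1 : ℕ) : ℝ≥0∞) * ENNReal.ofReal (1 / √(2 ^ (14 * a) / 4)) with hK0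
  -- one piece
  have hone : ∀ l < m, ∀ j, l ≤ j → ∀ c, ∫⁻ x in Ff a m z0 sg E k l j c,
      ‖Ex ((St sg j c).indicator h) x‖ₑ ^ 2 ≤ K0 * n2 ((St sg j c).indicator h) := by
    intro l hl j hlj c
    rcases Set.eq_empty_or_nonempty (Ff a m z0 sg E k l j c) with h0 | ⟨x, hxE, hxl, hxc⟩
    · rw [h0]
      simp
    · have hkc : c / 4 = kc m sg k j x := by
        have := kc_div m sg k j 1 x
        rw [pow_one, hxc] at this
        exact this
      have hr1 : sg + ((c / 4 : ℕ) : ℝ) / 4 ^ j ≤ 2 := by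
        rw [hkc]
        exact (kc_le hsg1 j x).trans (kx_lt (hk4 x)).le
      set ρ : ℝ := max 1 (sg + ((c / 4 : ℕ) : ℝ) / 4 ^ j) with hρ
      have hd : ∀ y, volume (Ff a m z0 sg E k l j c ∩ KSP.sq y (2 ^ (2 * l / 2))) ≤
          ENNReal.ofReal (4 ^ (2 * l / 2) / (2 ^ (14 * a) / 4)) := by
        intro y
        rw [Nat.mul_div_cancel_left l (by norm_num : 0 < 2)]
        exact dens a m z0 sg E k h10 l j c hl hlj y
      have hkey := hC (2 * l) ρ (2 ^ (14 * a) / 4) (Ff a m z0 sg E k l j c)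
        ((St sg j c).indicator h) (le_max_left _ _) (max_le (by norm_num) hr1) (by positivity)
        (hFm l j c) hd (KSP.L_.Bd_ind hh (meas_St sg j c)) (by
          intro ξ hξ
          have h1 : ξ ∈ St sg j c := by
            by_contra hcon
            exact hξ (indicator_of_notMem hcon _)
          have h2 : h ξ ≠ 0 := by
            intro h0
            apply hξ
            rw [indicator_of_mem h1, h0]
          have hV := hsupp ξ h2
          refine ⟨hV, max_le hV.2.1 h1.1, ?_⟩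
          have h3 := (St_sub sg j c h1).2
          have h4 : (1 : ℝ) / 4 ^ j ≤ 1 / 2 ^ (2 * l) := by
            rw [pow_mul, show (2 : ℝ) ^ 2 = 4 by norm_num]
            apply one_div_le_one_div_of_le (by positivity)
            exact pow_le_pow_right₀ (by norm_num) hlj
          have h5 : sg + ((c / 4 : ℕ) : ℝ) / 4 ^ j ≤ ρ := le_max_right _ _
          have h6 : ((c / 4 : ℕ) + 1 : ℝ) / 4 ^ j = ((c / 4 : ℕ) : ℝ) / 4 ^ j + 1 / 4 ^ j := by
            rw [add_div]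
          linarith)
      refine hkey.trans ?_
      rw [hK0]
      gcongr
  -- pointwise bound
  have hpt : ∀ x ∈ E, ‖Ex ({ξ | sg + kc m sg k (lst a m z0 sg E k x) x /
        4 ^ (lst a m z0 sg E k x) ≤ nr ξ ∧ nr ξ < sg + kc m sg k m x / 4 ^ m}.indicator h) x‖ₑ ^ 2 ≤
      ∑ l ∈ Finset.range m, ∑ j ∈ Finset.Ico l m, ∑ c ∈ Finset.range (4 * (2 * 4 ^ j)),
        (Ff a m z0 sg E k l j c).indicator
          (fun x => (m : ℝ≥0∞) * ‖Ex ((St sg j c).indicator h) x‖ₑ ^ 2) x := by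
    intro x hx
    set l := lst a m z0 sg E k x with hl
    have hlm : l ≤ m := lst_le a m z0 sg E k h10 x
    obtain ⟨d, hd⟩ := Nat.exists_eq_add_of_le hlm
    have hdec : {ξ | sg + kc m sg k l x / 4 ^ l ≤ nr ξ ∧
        nr ξ < sg + kc m sg k m x / 4 ^ m}.indicator h =
        ∑ j ∈ Finset.Ico l m, (St sg j (kc m sg k (j + 1) x)).indicator h := by
      have h1 := tele (fun j => sg + kc m sg k j x / 4 ^ j) (fun j => by
        have := step_ge sg j (kc m sg k (j + 1) x)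
        have e := kc_div m sg k j 1 x
        rw [pow_one] at e
        rw [e] at this
        exact this) h l d
      rw [← hd] at h1
      rw [h1]
      refine Finset.sum_congr rfl fun j _ => ?_
      have e := kc_div m sg k j 1 x
      rw [pow_one] at e
      unfold St
      rw [e]
    rcases Nat.eq_or_lt_of_le hlm with hlm' | hlm'
    · have h0 : {ξ | sg + kc m sg k l x / 4 ^ l ≤ nr ξ ∧
          nr ξ < sg + kc m sg k m x / 4 ^ m}.indicator h = 0 := by
        rw [hdec, hlm', Finset.Ico_self, Finset.sum_empty]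
      rw [h0, Ex_zero]
      simp
    · rw [hdec, KSP.L_.Ex_sum _ (fun j => KSP.L_.Bd_ind hh (meas_St sg j _))]
      refine (KSP.MV_.sq_sum_le _ _).trans ?_
      calc ((Finset.Ico l m).card : ℝ≥0∞) *
            ∑ j ∈ Finset.Ico l m, ‖Ex ((St sg j (kc m sg k (j + 1) x)).indicator h) x‖ₑ ^ 2
          ≤ (m : ℝ≥0∞) *
            ∑ j ∈ Finset.Ico l m, ‖Ex ((St sg j (kc m sg k (j + 1) x)).indicator h) x‖ₑ ^ 2 := by
            gcongr
            rw [Nat.card_Ico]
            omega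
        _ = ∑ j ∈ Finset.Ico l m, (m : ℝ≥0∞) *
              ‖Ex ((St sg j (kc m sg k (j + 1) x)).indicator h) x‖ₑ ^ 2 := by
            rw [Finset.mul_sum]
        _ ≤ ∑ j ∈ Finset.Ico l m, ∑ c ∈ Finset.range (4 * (2 * 4 ^ j)),
              (Ff a m z0 sg E k l j c).indicator
                (fun x => (m : ℝ≥0∞) * ‖Ex ((St sg j c).indicator h) x‖ₑ ^ 2) x := by
            refine Finset.sum_le_sum fun j _ => ?_
            have hc : kc m sg k (j + 1) x ∈ Finset.range (4 * (2 * 4 ^ j)) := by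
              rw [Finset.mem_range]
              have := kc_lt hsg0 hsg1 (j + 1) (hk4 x)
              rw [pow_succ] at this
              omega
            refine le_trans (le_of_eq ?_) (Finset.single_le_sum (f := fun c =>
              (Ff a m z0 sg E k l j c).indicator
                (fun x => (m : ℝ≥0∞) * ‖Ex ((St sg j c).indicator h) x‖ₑ ^ 2) x)
              (fun _ _ => zero_le) hc)
            have hmem : x ∈ Ff a m z0 sg E k l j (kc m sg k (j + 1) x) := ⟨hx, rfl, rfl⟩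
            show _ = (Ff a m z0 sg E k l j (kc m sg k (j + 1) x)).indicator _ x
            rw [indicator_of_mem hmem]
        _ ≤ _ := Finset.single_le_sum (f := fun l => ∑ j ∈ Finset.Ico l m,
              ∑ c ∈ Finset.range (4 * (2 * 4 ^ j)), (Ff a m z0 sg E k l j c).indicator
                (fun x => (m : ℝ≥0∞) * ‖Ex ((St sg j c).indicator h) x‖ₑ ^ 2) x)
              (fun _ _ => zero_le) (Finset.mem_range.2 hlm')
  have hmeas : ∀ l j c, Measurable ((Ff a m z0 sg E k l j c).indicator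
      (fun x => (m : ℝ≥0∞) * ‖Ex ((St sg j c).indicator h) x‖ₑ ^ 2)) := by
    intro l j c
    refine Measurable.indicator ?_ (hFm l j c)
    have hc := (KSP.pPl2 _ (KSP.L_.Bd_ind hh (meas_St sg j c))).1
    exact (hc.measurable.enorm.pow_const 2).const_mul _
  calc ∫⁻ x in E, ‖Ex ({ξ | sg + kc m sg k (lst a m z0 sg E k x) x /
        4 ^ (lst a m z0 sg E k x) ≤ nr ξ ∧ nr ξ < sg + kc m sg k m x / 4 ^ m}.indicator h) x‖ₑ ^ 2
      ≤ ∫⁻ x in E, ∑ l ∈ Finset.range m, ∑ j ∈ Finset.Ico l m,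
          ∑ c ∈ Finset.range (4 * (2 * 4 ^ j)), (Ff a m z0 sg E k l j c).indicator
          (fun x => (m : ℝ≥0∞) * ‖Ex ((St sg j c).indicator h) x‖ₑ ^ 2) x :=
        setLIntegral_mono' hE hpt
    _ ≤ ∫⁻ x, ∑ l ∈ Finset.range m, ∑ j ∈ Finset.Ico l m,
          ∑ c ∈ Finset.range (4 * (2 * 4 ^ j)), (Ff a m z0 sg E k l j c).indicator
          (fun x => (m : ℝ≥0∞) * ‖Ex ((St sg j c).indicator h) x‖ₑ ^ 2) x :=
        setLIntegral_le_lintegral _ _
    _ = ∑ l ∈ Finset.range m, ∑ j ∈ Finset.Ico l m, ∑ c ∈ Finset.range (4 * (2 * 4 ^ j)),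
          m * ∫⁻ x in Ff a m z0 sg E k l j c, ‖Ex ((St sg j c).indicator h) x‖ₑ ^ 2 := by
        rw [lintegral_finsetSum _ fun l _ => Finset.measurable_fun_sum _ fun j _ =>
          Finset.measurable_fun_sum _ fun c _ => hmeas l j c]
        refine Finset.sum_congr rfl fun l _ => ?_
        rw [lintegral_finsetSum _ fun j _ => Finset.measurable_fun_sum _ fun c _ => hmeas l j c]
        refine Finset.sum_congr rfl fun j _ => ?_
        rw [lintegral_finsetSum _ fun c _ => hmeas l j c]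
        refine Finset.sum_congr rfl fun c _ => ?_
        rw [lintegral_indicator (hFm l j c), lintegral_const_mul' _ _ (ENNReal.natCast_ne_top m)]
    _ ≤ ∑ l ∈ Finset.range m, ∑ j ∈ Finset.Ico l m, (m : ℝ≥0∞) * (K0 * (4 * n2 h)) := by
        refine Finset.sum_le_sum fun l hl => Finset.sum_le_sum fun j hj => ?_
        rw [← Finset.mul_sum]
        gcongr
        calc ∑ c ∈ Finset.range (4 * (2 * 4 ^ j)), ∫⁻ x in Ff a m z0 sg E k l j c,
              ‖Ex ((St sg j c).indicator h) x‖ₑ ^ 2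
            ≤ ∑ c ∈ Finset.range (4 * (2 * 4 ^ j)), K0 * n2 ((St sg j c).indicator h) :=
              Finset.sum_le_sum fun c _ => hone l (Finset.mem_range.1 hl) j
                (Finset.mem_Ico.1 hj).1 c
          _ = K0 * ∑ c ∈ Finset.range (4 * (2 * 4 ^ j)), n2 ((St sg j c).indicator h) := by
              rw [Finset.mul_sum]
          _ ≤ _ := by
              gcongr
              exact sum_n2 sg j _ h
    _ ≤ ∑ _l ∈ Finset.range m, (m : ℝ≥0∞) * ((m : ℝ≥0∞) * (K0 * (4 * n2 h))) := by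
        refine Finset.sum_le_sum fun l _ => ?_
        rw [Finset.sum_const, nsmul_eq_mul, Nat.card_Ico]
        gcongr
        omega
    _ = (m : ℝ≥0∞) * (m * (m * (K0 * 4))) * n2 h := by
        rw [Finset.sum_const, nsmul_eq_mul, Finset.card_range]
        ring
    _ ≤ _ := by
        gcongr
        exact num a m hm1 C

end Pool.Agent.LLog
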