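import Pool.Agent.LLog.Targets
import Pool.Agent.KSP.V1

set_option autoImplicit false

/-! BLK, part a: preliminaries. -/

namespace Pool.Agent.LLog.BLK_

open MeasureTheory Set
open scoped ENNReal NNReal ComplexConjugate
open Pool.Agent.KSP (ee dot nr Ex Ex1 Bd Bd1 n1 n2 lg V0 ann)

/-! ### Interiors -/

theorem inn_closed (δ : ℝ) (X : Set (ℝ × ℝ)) : IsClosed (inn δ X) := by
  rw [← isOpen_compl_iff]
  have h : (inn δ X)ᶜ = ⋃ y ∈ Xᶜ, {x : ℝ × ℝ | |y.1 - x.1| < δ ∧ |y.2 - x.2| < δ} := by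
    ext x
    simp only [inn, mem_compl_iff, mem_ofPred_eq, mem_iUnion, not_forall, exists_prop]
    constructor
    · rintro ⟨y, h1, h2, h3⟩
      exact ⟨y, h3, h1, h2⟩
    · rintro ⟨y, h3, h1, h2⟩
      exact ⟨y, h1, h2, h3⟩
  rw [h]
  refine isOpen_biUnion fun y _ => ?_
  have h1 : Continuous fun x : ℝ × ℝ => |y.1 - x.1| := by fun_prop
  have h2 : Continuous fun x : ℝ × ℝ => |y.2 - x.2| := by fun_prop
  exact (isOpen_lt h1 continuous_const).inter (isOpen_lt h2 continuous_const)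

theorem inn_meas (δ : ℝ) (X : Set (ℝ × ℝ)) : MeasurableSet (inn δ X) :=
  (inn_closed δ X).measurableSet

theorem inn_sub {δ : ℝ} (hδ : 0 < δ) (X : Set (ℝ × ℝ)) : inn δ X ⊆ X := by
  intro x hx
  exact hx x (by rw [sub_self, abs_zero]; exact hδ) (by rw [sub_self, abs_zero]; exact hδ)

theorem inn_move {δ δ' r : ℝ} {X : Set (ℝ × ℝ)} {x y : ℝ × ℝ} (hx : x ∈ inn δ X)
    (h1 : |y.1 - x.1| ≤ r) (h2 : |y.2 - x.2| ≤ r) (h : r + δ' ≤ δ) : y ∈ inn δ' X := by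
  intro z hz1 hz2
  apply hx z
  · have := abs_sub_le z.1 y.1 x.1
    linarith
  · have := abs_sub_le z.2 y.2 x.2
    linarith

/-! ### Weights -/

theorem GK_union (a m j : ℕ) (S : Finset ℕ) (Y : ℕ → Set (ℝ × ℝ))
    (hm : ∀ u, MeasurableSet (Y u)) (hd : ∀ u u', u ≠ u' → Disjoint (Y u) (Y u')) (x : ℝ × ℝ) :
    ∑ u ∈ S, GK a m j (Y u) x = GK a m j (⋃ u ∈ S, Y u) x := by
  unfold GK
  rw [lintegral_biUnion_finset (fun u _ u' _ h => hd u u' h) (fun u _ => hm u)]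

/-! ### Averages -/

theorem avgc_le {L : ℝ} (hL : 0 < L) (g : ℝ → ℝ≥0∞) (s : ℝ) :
    avgc L g s ≤ (ENNReal.ofReal L)⁻¹ * ∫⁻ τ in Icc (-L) L, g (s + τ) := by
  unfold avgc
  refine mul_le_mul_right ?_ _
  have h1 : Ico (L * ⌊s / L⌋) (L * (⌊s / L⌋ + 1)) ⊆ Icc (s - L) (s + L) := by
    intro t ht
    have h2 := Int.floor_le (s / L)
    have h3 := Int.lt_floor_add_one (s / L)
    rw [le_div_iff₀ hL] at h2
    rw [div_lt_iff₀ hL] at h3
    constructor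
    · nlinarith [ht.1]
    · nlinarith [ht.2]
  refine (lintegral_mono_set h1).trans (le_of_eq ?_)
  have h2 : (fun τ => s + τ) ⁻¹' Icc (s - L) (s + L) = Icc (-L) L := by
    ext τ
    simp only [mem_preimage, mem_Icc]
    constructor
    · rintro ⟨h1, h2⟩
      constructor <;> linarith
    · rintro ⟨h1, h2⟩
      constructor <;> linarith
  rw [← h2]
  exact ((measurePreserving_add_left volume s).setLIntegral_comp_preimage_emb
    (measurableEmbedding_addLeft s) g _).symm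

theorem avgc_sa {L : ℝ} (hL : 0 < L) (g : ℝ → ℝ≥0∞) (s t : ℝ) (X : Set (ℝ × ℝ)) (x : ℝ × ℝ)
    (ε : ℝ≥0∞) (hg : ∀ τ, g (s + τ) ≤ X.indicator 1 (x + τ • nv t) + ε) :
    avgc L g s ≤ 2 * sa t L X x + 2 * ε := by
  refine (avgc_le hL g s).trans ?_
  have h0 : ENNReal.ofReal L ≠ 0 := by simpa using hL
  have h1 : (ENNReal.ofReal L)⁻¹ = 2 * (ENNReal.ofReal (2 * L))⁻¹ := by
    rw [ENNReal.ofReal_mul (by norm_num), ENNReal.ofReal_ofNat,
      ENNReal.mul_inv (Or.inl (by norm_num)) (Or.inl (by norm_num)), ← mul_assoc,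
      ENNReal.mul_inv_cancel (by norm_num) (by norm_num), one_mul]
  calc (ENNReal.ofReal L)⁻¹ * ∫⁻ τ in Icc (-L) L, g (s + τ)
      ≤ (ENNReal.ofReal L)⁻¹ * ∫⁻ τ in Icc (-L) L, (X.indicator 1 (x + τ • nv t) + ε) :=
        mul_le_mul_right (lintegral_mono fun τ => hg τ) _
    _ = (ENNReal.ofReal L)⁻¹ * (∫⁻ τ in Icc (-L) L, X.indicator 1 (x + τ • nv t)) +
        (ENNReal.ofReal L)⁻¹ * (ε * ENNReal.ofReal (2 * L)) := by
        rw [lintegral_add_right _ measurable_const, mul_add, setLIntegral_const, Real.volume_Icc,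
          show L - -L = 2 * L by ring]
    _ = 2 * sa t L X x + 2 * ε := by
        congr 1
        · rw [h1, sa, mul_assoc]
        · rw [ENNReal.ofReal_mul (by norm_num), ENNReal.ofReal_ofNat, mul_left_comm,
            mul_left_comm _ (2 : ℝ≥0∞), ENNReal.inv_mul_cancel h0 ENNReal.ofReal_ne_top, mul_one,
            mul_comm]

theorem sa_meas (t L : ℝ) {X : Set (ℝ × ℝ)} (hX : MeasurableSet X) : Measurable (sa t L X) := by
  unfold sa
  refine Measurable.const_mul ?_ _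
  refine Measurable.lintegral_prod_right' (f := fun q : (ℝ × ℝ) × ℝ =>
    X.indicator (1 : ℝ × ℝ → ℝ≥0∞) (q.1 + q.2 • nv t)) ?_
  exact (measurable_one.indicator hX).comp (by fun_prop)

theorem Xb_meas (a l e c : ℕ) (Y : ℕ → Set (ℝ × ℝ)) : MeasurableSet (Xb a l e c Y) := by
  have h : Xb a l e c Y = ⋃ u ∈ {u : ℕ | u < 2 * 4 ^ e ∧ u / 4 ^ (e - l) ≠ c ∧
      u / 4 ^ (e - l) / 4 = c / 4}, inn (de a e) (Y u) := by
    ext x
    simp only [Xb, mem_ofPred_eq, mem_iUnion, exists_prop]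
    constructor
    · rintro ⟨u, h1, h2, h3, h4⟩
      exact ⟨u, ⟨h1, h2, h3⟩, h4⟩
    · rintro ⟨u, ⟨h1, h2, h3⟩, h4⟩
      exact ⟨u, h1, h2, h3, h4⟩
  rw [h]
  exact MeasurableSet.biUnion (to_countable _) fun u _ => inn_meas _ _

/-! ### Codes -/

theorem code_iff {sg ζ : ℝ} {l e c : ℕ} (hl : l ≤ e) (h0 : sg ≤ ζ) :
    cdr sg l c ζ ↔ ⌊(4 : ℝ) ^ e * (ζ - sg)⌋₊ / 4 ^ (e - l) = c := by
  have h1 : (4 : ℝ) ^ l * (ζ - sg) = (4 : ℝ) ^ e * (ζ - sg) / ((4 ^ (e - l) : ℕ) : ℝ) := by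
    have h2 : (4 : ℝ) ^ e = 4 ^ l * 4 ^ (e - l) := by rw [← pow_add]; congr 1; omega
    rw [h2]
    push_cast
    field_simp
  have h3 : 0 ≤ (4 : ℝ) ^ l * (ζ - sg) := mul_nonneg (by positivity) (by linarith)
  rw [← Nat.floor_div_natCast, ← h1, Nat.floor_eq_iff h3]
  rfl

theorem tele (n u i e : ℕ) (h : n / 4 ^ (e - i) = u / 4 ^ (e - i)) (l : ℕ) (hi : i ≤ l)
    (hl : l ≤ e) :
    (∑ l' ∈ Finset.Ioc i l, if (n / 4 ^ (e - l')) / 4 = (u / 4 ^ (e - l')) / 4 ∧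
      n / 4 ^ (e - l') < u / 4 ^ (e - l') then (1 : ℂ) else 0) =
      if n / 4 ^ (e - l) < u / 4 ^ (e - l) then 1 else 0 := by
  induction l, hi using Nat.le_induction with
  | base =>
    rw [Finset.Ioc_self, Finset.sum_empty, h, if_neg (lt_irrefl _)]
  | succ l hi ih =>
    rw [Finset.sum_Ioc_succ_top (by omega), ih (by omega)]
    have h1 : ∀ n : ℕ, n / 4 ^ (e - (l + 1)) / 4 = n / 4 ^ (e - l) := by
      intro n
      rw [Nat.div_div_eq_div_mul, ← pow_succ]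
      congr 2
      omega
    have h2 := h1 n
    have h3 := h1 u
    rw [h2, h3]
    by_cases c1 : n / 4 ^ (e - l) < u / 4 ^ (e - l)
    · rw [if_pos c1, if_neg (by omega), if_pos (by omega), add_zero]
    · rw [if_neg c1]
      by_cases c2 : n / 4 ^ (e - (l + 1)) < u / 4 ^ (e - (l + 1))
      · rw [if_pos ⟨by omega, c2⟩, if_pos c2, zero_add]
      · rw [if_neg (by tauto), if_neg c2, zero_add]

/-- left siblings -/
def JL (_ w : ℕ) : Finset ℕ := (Finset.range w).filter (fun c => c / 4 = w / 4)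

/-- right siblings -/
def JR (_ w : ℕ) : Finset ℕ := (Finset.range (w + 4)).filter (fun c => w < c ∧ c / 4 = w / 4)

theorem mem_JL (l w c : ℕ) : c ∈ JL l w ↔ c / 4 = w / 4 ∧ c < w := by
  rw [JL, Finset.mem_filter, Finset.mem_range, and_comm]

theorem mem_JR (l w c : ℕ) : c ∈ JR l w ↔ w / 4 = c / 4 ∧ w < c := by
  rw [JR, Finset.mem_filter, Finset.mem_range]
  constructor
  · rintro ⟨h1, h2, h3⟩
    exact ⟨h3.symm, h2⟩
  · rintro ⟨h1, h2⟩
    exact ⟨by omega, h2, h1.symm⟩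

/-- the relation of `J` and `W` -/
def JW (sg : ℝ) (i e b : ℕ) (J : ℕ → ℕ → Finset ℕ) (W : ℕ → Set ℝ) : Prop :=
  open Classical in
  (∀ u, MeasurableSet (W u)) ∧ (∀ l w, ∀ c ∈ J l w, c / 4 = w / 4 ∧ c ≠ w) ∧
  ∀ u, u / 4 ^ (e - i) = b → ∀ ζ, cdr sg i b ζ →
    (∑ l ∈ Finset.Ioc i e, ∑ c ∈ J l (u / 4 ^ (e - l)), if cdr sg l c ζ then (1 : ℂ) else 0) =
      if ζ ∈ W u then 1 else 0

theorem cdr_le {sg ζ : ℝ} {i b : ℕ} (h : cdr sg i b ζ) : sg ≤ ζ := by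
  have h1 : (0 : ℝ) ≤ 4 ^ i * (ζ - sg) := le_trans (Nat.cast_nonneg _) h.1
  have h2 : (0 : ℝ) < 4 ^ i := by positivity
  have h3 := nonneg_of_mul_nonneg_right h1 h2
  linarith

theorem inner_sum {sg ζ : ℝ} {l e : ℕ} (hl : l ≤ e) (h0 : sg ≤ ζ) (S : Finset ℕ) :
    (open Classical in ∑ c ∈ S, if cdr sg l c ζ then (1 : ℂ) else 0) =
      if ⌊(4 : ℝ) ^ e * (ζ - sg)⌋₊ / 4 ^ (e - l) ∈ S then 1 else 0 := by
  classical
  have h1 : ∀ c ∈ S, (if cdr sg l c ζ then (1 : ℂ) else 0) =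
      if ⌊(4 : ℝ) ^ e * (ζ - sg)⌋₊ / 4 ^ (e - l) = c then 1 else 0 := by
    intro c _
    by_cases h : cdr sg l c ζ
    · rw [if_pos h, if_pos ((code_iff hl h0).1 h)]
    · rw [if_neg h, if_neg (fun h' => h ((code_iff hl h0).2 h'))]
  rw [Finset.sum_congr rfl h1, Finset.sum_ite_eq]

theorem JW_left (sg : ℝ) (i e b : ℕ) (hie : i ≤ e) :
    JW sg i e b JL (fun u => {ζ | ζ < sg + u / 4 ^ e}) := by
  classical
  refine ⟨fun u => measurableSet_Iio, ?_, ?_⟩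
  · intro l w c hc
    rw [mem_JL] at hc
    exact ⟨hc.1, hc.2.ne⟩
  · intro u hu ζ hζ
    have h0 := cdr_le hζ
    set n := ⌊(4 : ℝ) ^ e * (ζ - sg)⌋₊ with hn
    have hnb : n / 4 ^ (e - i) = b := (code_iff hie h0).1 hζ
    have h1 : ∀ l ∈ Finset.Ioc i e,
        (∑ c ∈ JL l (u / 4 ^ (e - l)), if cdr sg l c ζ then (1 : ℂ) else 0) =
        if (n / 4 ^ (e - l)) / 4 = (u / 4 ^ (e - l)) / 4 ∧
          n / 4 ^ (e - l) < u / 4 ^ (e - l) then (1 : ℂ) else 0 := by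
      intro l hl
      rw [Finset.mem_Ioc] at hl
      rw [inner_sum hl.2 h0, ← hn]
      simp only [mem_JL]
    rw [Finset.sum_congr rfl h1, tele n u i e (hnb.trans hu.symm) e hie le_rfl, Nat.sub_self,
      pow_zero, Nat.div_one, Nat.div_one]
    have h2 : n < u ↔ ζ ∈ {ζ : ℝ | ζ < sg + u / 4 ^ e} := by
      rw [hn, Nat.floor_lt (mul_nonneg (by positivity) (by linarith)), mem_ofPred_eq]
      have h4 : (0 : ℝ) < 4 ^ e := by positivity
      rw [← sub_lt_iff_lt_add', lt_div_iff₀ h4, mul_comm]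
    by_cases h3 : n < u
    · rw [if_pos h3, if_pos (h2.1 h3)]
    · rw [if_neg h3, if_neg (fun h => h3 (h2.2 h))]

theorem JW_right (sg : ℝ) (i e b : ℕ) (hie : i ≤ e) :
    JW sg i e b JR (fun u => {ζ | sg + (u + 1) / 4 ^ e ≤ ζ}) := by
  classical
  refine ⟨fun u => measurableSet_Ici, ?_, ?_⟩
  · intro l w c hc
    rw [mem_JR] at hc
    exact ⟨hc.1.symm, hc.2.ne'⟩
  · intro u hu ζ hζ
    have h0 := cdr_le hζ
    set n := ⌊(4 : ℝ) ^ e * (ζ - sg)⌋₊ with hn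
    have hnb : n / 4 ^ (e - i) = b := (code_iff hie h0).1 hζ
    have h1 : ∀ l ∈ Finset.Ioc i e,
        (∑ c ∈ JR l (u / 4 ^ (e - l)), if cdr sg l c ζ then (1 : ℂ) else 0) =
        if (u / 4 ^ (e - l)) / 4 = (n / 4 ^ (e - l)) / 4 ∧
          u / 4 ^ (e - l) < n / 4 ^ (e - l) then (1 : ℂ) else 0 := by
      intro l hl
      rw [Finset.mem_Ioc] at hl
      rw [inner_sum hl.2 h0, ← hn]
      simp only [mem_JR]
    rw [Finset.sum_congr rfl h1, tele u n i e (hu.trans hnb.symm) e hie le_rfl, Nat.sub_self,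
      pow_zero, Nat.div_one, Nat.div_one]
    have h2 : u < n ↔ ζ ∈ {ζ : ℝ | sg + (u + 1) / 4 ^ e ≤ ζ} := by
      rw [← Nat.succ_le_iff, hn, Nat.le_floor_iff (mul_nonneg (by positivity) (by linarith)),
        mem_ofPred_eq]
      have h4 : (0 : ℝ) < 4 ^ e := by positivity
      rw [← le_sub_iff_add_le', div_le_iff₀ h4, mul_comm]
      push_cast
      rfl
    by_cases h3 : u < n
    · rw [if_pos h3, if_pos (h2.1 h3)]
    · rw [if_neg h3, if_neg (fun h => h3 (h2.2 h))]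

end Pool.Agent.LLog.BLK_
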