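import Pool.Agent.LLog.BLKa

set_option autoImplicit false

/-! BLK, part b: slices, sectors. -/

namespace Pool.Agent.LLog.BLK_

open MeasureTheory Set
open scoped ENNReal NNReal ComplexConjugate
open Pool.Agent.KSP (ee dot nr Ex Ex1 Bd Bd1 n1 n2 lg V0 ann)
open Pool.Agent.KSP.V1_ (cont_ee norm_ee meas_nr bd_ind int_bd int_bd1 int_ex)

theorem bd1_ind {H : ℝ → ℂ} (hH : Bd1 H) {S : Set ℝ} (hS : MeasurableSet S) :
    Bd1 (S.indicator H) := by
  obtain ⟨hm, ⟨B, hB⟩, R, hR⟩ := hH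
  refine ⟨hm.indicator hS, ⟨B, fun ξ => ?_⟩, R, fun ξ hξ => ?_⟩
  · exact (norm_indicator_le_norm_self H ξ).trans (hB ξ)
  · refine hR ξ fun h0 => hξ ?_
    by_cases hS' : ξ ∈ S
    · rw [Set.indicator_of_mem hS', h0]
    · rw [Set.indicator_of_notMem hS']

theorem int_ex1 {H : ℝ → ℂ} (hH : Bd1 H) (s : ℝ) : Integrable (fun ζ => H ζ * ee (s * ζ)) := by
  refine (int_bd1 hH).mul_bdd (c := 1) ?_ (Filter.Eventually.of_forall fun ξ => (norm_ee _).le)
  exact (cont_ee.comp (by fun_prop)).aestronglyMeasurable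

theorem cdr_meas (sg : ℝ) (l c : ℕ) : MeasurableSet {ζ : ℝ | cdr sg l c ζ} := by
  have h : Measurable fun ζ : ℝ => (4 : ℝ) ^ l * (ζ - sg) := by fun_prop
  exact (measurableSet_le measurable_const h).inter (measurableSet_lt h measurable_const)

theorem cd_meas (sg : ℝ) (l c : ℕ) : MeasurableSet {ξ : ℝ × ℝ | cd sg l c ξ} :=
  meas_nr (cdr_meas sg l c)

theorem cp_meas (sl : ℝ) (j p : ℕ) : MeasurableSet {ξ : ℝ × ℝ | cp sl j p ξ} := by
  have h : Measurable fun ξ : ℝ × ℝ => (2 : ℝ) ^ j * (ξ.2 / ξ.1 + sl) := by fun_prop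
  exact (measurableSet_lt measurable_const measurable_fst).inter
    ((measurableSet_le measurable_const h).inter (measurableSet_lt h measurable_const))

theorem Dj_sum {sg : ℝ} {i e b : ℕ} {J : ℕ → ℕ → Finset ℕ} {W : ℕ → Set ℝ}
    (hJ : JW sg i e b J W) {H : ℝ → ℂ} (hH : Bd1 H) (hs : ∀ ζ, H ζ ≠ 0 → cdr sg i b ζ) {u : ℕ}
    (hu : u / 4 ^ (e - i) = b) (s : ℝ) :
    ∑ l ∈ Finset.Ioc i e, Dj sg J H l (u / 4 ^ (e - l)) s = Ex1 ((W u).indicator H) s := by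
  classical
  have hi : ∀ l c, Integrable (fun ζ => {ζ : ℝ | cdr sg l c ζ}.indicator H ζ * ee (s * ζ)) :=
    fun l c => int_ex1 (bd1_ind hH (cdr_meas sg l c)) s
  unfold Dj Pc Ex1
  calc ∑ l ∈ Finset.Ioc i e, ∑ c ∈ J l (u / 4 ^ (e - l)),
        ∫ ζ, {ζ : ℝ | cdr sg l c ζ}.indicator H ζ * ee (s * ζ)
      = ∑ l ∈ Finset.Ioc i e, ∫ ζ, ∑ c ∈ J l (u / 4 ^ (e - l)),
          {ζ : ℝ | cdr sg l c ζ}.indicator H ζ * ee (s * ζ) :=
        Finset.sum_congr rfl fun l _ => (integral_finsetSum _ fun c _ => hi l c).symm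
    _ = ∫ ζ, ∑ l ∈ Finset.Ioc i e, ∑ c ∈ J l (u / 4 ^ (e - l)),
          {ζ : ℝ | cdr sg l c ζ}.indicator H ζ * ee (s * ζ) :=
        (integral_finsetSum _ fun l _ => integrable_finsetSum _ fun c _ => hi l c).symm
    _ = ∫ ζ, (W u).indicator H ζ * ee (s * ζ) := by
        refine integral_congr_ae (Filter.Eventually.of_forall fun ζ => ?_)
        change (∑ l ∈ Finset.Ioc i e, ∑ c ∈ J l (u / 4 ^ (e - l)),
          {ζ : ℝ | cdr sg l c ζ}.indicator H ζ * ee (s * ζ)) = (W u).indicator H ζ * ee (s * ζ)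
        by_cases h0 : H ζ = 0
        · have h1 : ∀ S : Set ℝ, S.indicator H ζ = 0 := by
            intro S
            rw [indicator_apply, h0, ite_self]
          simp only [h1, zero_mul, Finset.sum_const_zero]
        · have h2 := hJ.2.2 u hu ζ (hs ζ h0)
          have h3 : (∑ l ∈ Finset.Ioc i e, ∑ c ∈ J l (u / 4 ^ (e - l)),
              {ζ : ℝ | cdr sg l c ζ}.indicator H ζ * ee (s * ζ)) =
              (∑ l ∈ Finset.Ioc i e, ∑ c ∈ J l (u / 4 ^ (e - l)),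
                if cdr sg l c ζ then (1 : ℂ) else 0) * (H ζ * ee (s * ζ)) := by
            rw [Finset.sum_mul]
            refine Finset.sum_congr rfl fun l _ => ?_
            rw [Finset.sum_mul]
            refine Finset.sum_congr rfl fun c _ => ?_
            rw [indicator_apply]
            by_cases h4 : cdr sg l c ζ
            · rw [if_pos h4, if_pos (show ζ ∈ {ζ : ℝ | cdr sg l c ζ} from h4), one_mul]
            · rw [if_neg h4, if_neg (show ζ ∉ {ζ : ℝ | cdr sg l c ζ} from h4), zero_mul, zero_mul]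
          rw [h3]
          have h5 : (∑ l ∈ Finset.Ioc i e, ∑ c ∈ J l (u / 4 ^ (e - l)),
              if cdr sg l c ζ then (1 : ℂ) else 0) = if ζ ∈ W u then 1 else 0 := by
            convert h2
          rw [h5, indicator_apply]
          by_cases h4 : ζ ∈ W u
          · rw [if_pos h4, if_pos h4, one_mul]
          · rw [if_neg h4, if_neg h4, zero_mul, zero_mul]

/-! ### Slices -/

theorem slice_ind (hF : tFRM) {t : ℝ} {hp : ℝ × ℝ → ℂ} {S : Set ℝ} {S' : Set (ℝ × ℝ)}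
    (h : ∀ ξ, hp ξ ≠ 0 → (ξ ∈ S' ↔ dot ξ (nv t) ∈ S)) (y : ℝ) :
    Hs t (S'.indicator hp) y = S.indicator (Hs t hp y) := by
  classical
  funext ζ
  have key : ∀ z : ℝ, dot (ζ • nv t + z • tv t) (nv t) = ζ := fun z => ((hF t).2.2.1 ζ z).1
  by_cases hζ : ζ ∈ S
  · rw [indicator_of_mem hζ]
    unfold Hs
    refine integral_congr_ae (Filter.Eventually.of_forall fun z => ?_)
    change S'.indicator hp (ζ • nv t + z • tv t) * ee (y * z) = _
    by_cases h0 : hp (ζ • nv t + z • tv t) = 0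
    · rw [indicator_apply, h0, ite_self]
      exact congrArg (fun v => v * ee (y * z)) h0.symm
    · rw [indicator_of_mem ((h _ h0).2 (by rw [key]; exact hζ))]
  · rw [indicator_of_notMem hζ]
    unfold Hs
    refine integral_eq_zero_of_ae (Filter.Eventually.of_forall fun z => ?_)
    change S'.indicator hp (ζ • nv t + z • tv t) * ee (y * z) = 0
    by_cases h0 : hp (ζ • nv t + z • tv t) = 0
    · rw [indicator_apply, h0, ite_self, zero_mul]
    · rw [indicator_of_notMem, zero_mul]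
      intro h1
      have := (h _ h0).1 h1
      rw [key] at this
      exact hζ this

theorem slice_supp (hF : tFRM) {t : ℝ} {hp : ℝ × ℝ → ℂ} {y ζ : ℝ} (h : Hs t hp y ζ ≠ 0) :
    ∃ ξ, hp ξ ≠ 0 ∧ dot ξ (nv t) = ζ := by
  by_contra hc
  push Not at hc
  apply h
  unfold Hs
  refine integral_eq_zero_of_ae (Filter.Eventually.of_forall fun z => ?_)
  change hp (ζ • nv t + z • tv t) * ee (y * z) = 0
  by_cases h0 : hp (ζ • nv t + z • tv t) = 0
  · rw [h0, zero_mul]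
  · exact absurd ((hF t).2.2.1 ζ z).1 (hc _ h0)

/-! ### Frequencies -/

theorem fr_shift {η X Z : ℝ} (h : fr (2 * η) X) (h1 : Z ≤ X) (h2 : X - Z ≤ η) :
    ⌊Z⌋ = ⌊X⌋ ∧ fr η Z := by
  obtain ⟨a1, a2⟩ := h
  have e1 := Int.self_sub_floor X
  have e0 := Int.fract_lt_one X
  have e2 : ⌊Z⌋ = ⌊X⌋ := by
    rw [Int.floor_eq_iff]
    constructor
    · linarith
    · linarith
  refine ⟨e2, ?_, ?_⟩
  · rw [← Int.self_sub_floor, e2]
    linarith
  · rw [← Int.self_sub_floor, e2]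
    linarith

theorem cdr_floor {sg : ℝ} {l c : ℕ} {r : ℝ} :
    cdr sg l c r ↔ ⌊(4 : ℝ) ^ l * (r - sg)⌋ = (c : ℤ) := by
  rw [Int.floor_eq_iff]
  push_cast
  rfl

/-- the frequency `nr ξ` and its approximation `dot ξ nv` -/
theorem near {a m : ℕ} {sg sl : ℝ} {h : ℝ × ℝ → ℂ} (hE : tGEO) (h1 : 1 ≤ sl) (h2 : sl < 2)
    (ha : 20 ≤ a) (hh : Core a m sg sl h) {e p : ℕ} (hem : e ≤ m) (hp : p < 3 * 2 ^ (e + 8 * a))
    {ξ : ℝ × ℝ} (hξ : h ξ ≠ 0) (hc : cp sl (e + 8 * a) p ξ) {l : ℕ} (hl : l ≤ e) :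
    ⌊(4 : ℝ) ^ l * (dot ξ (nv (tp sl (e + 8 * a) p)) - sg)⌋ = ⌊(4 : ℝ) ^ l * (nr ξ - sg)⌋ ∧
      fr (1 / 2 ^ (4 * a)) ((4 : ℝ) ^ l * (dot ξ (nv (tp sl (e + 8 * a) p)) - sg)) := by
  obtain ⟨-, -, g1, g2, -⟩ := (hE sl (e + 8 * a) p h1 h2 (by omega) hp).2.1 ξ hc
  obtain ⟨v1, v2, -⟩ := hh.2 ξ hξ
  have hn : nr ξ < 2 := v1.2.2
  have h4 : (0 : ℝ) < 4 ^ l := by positivity
  refine fr_shift (X := (4 : ℝ) ^ l * (nr ξ - sg)) ?_ ?_ ?_
  · have := v2 l (hl.trans hem)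
    rwa [mul_one_div]
  · exact mul_le_mul_of_nonneg_left (by linarith) h4.le
  · have e1 : (4 : ℝ) ^ l * (nr ξ - sg) - 4 ^ l * (dot ξ (nv (tp sl (e + 8 * a) p)) - sg) ≤
        4 ^ l * (2 / 4 ^ (e + 8 * a)) := by
      rw [← mul_sub]
      refine mul_le_mul_of_nonneg_left ?_ h4.le
      have : nr ξ / 4 ^ (e + 8 * a) ≤ 2 / 4 ^ (e + 8 * a) :=
        div_le_div_of_nonneg_right hn.le (by positivity)
      linarith
    refine e1.trans ?_
    have e2 : (4 : ℝ) ^ l ≤ 4 ^ e := pow_le_pow_right₀ (by norm_num) hl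
    have e3 : (4 : ℝ) ^ l * (2 / 4 ^ (e + 8 * a)) ≤ 4 ^ e * (2 / 4 ^ (e + 8 * a)) :=
      mul_le_mul_of_nonneg_right e2 (by positivity)
    refine e3.trans ?_
    rw [pow_add]
    have e4 : (4 : ℝ) ^ e * (2 / (4 ^ e * 4 ^ (8 * a))) = 2 / 4 ^ (8 * a) := by
      field_simp
    rw [e4, div_le_div_iff₀ (by positivity) (by positivity), one_mul]
    have e5 : (4 : ℝ) ^ (8 * a) = 2 ^ (16 * a) := by
      rw [show (4 : ℝ) = 2 ^ 2 by norm_num, ← pow_mul]
      congr 1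
      ring
    rw [e5, ← pow_succ']
    exact pow_le_pow_right₀ (by norm_num) (by omega)

/-! ### Sectors -/

theorem V0_cp {sl : ℝ} (h1 : 1 ≤ sl) (h2 : sl < 2) (j : ℕ) {ξ : ℝ × ℝ} (hξ : ξ ∈ V0) :
    ∃ p < 3 * 2 ^ j, ∀ p', cp sl j p' ξ ↔ p = p' := by
  obtain ⟨v1, v2, v3⟩ := hξ
  have hx : 0 < ξ.1 := by
    rcases lt_or_ge 0 ξ.1 with h | h
    · exact h
    · exfalso
      have h3 : ξ.1 = 0 := le_antisymm h ((abs_nonneg _).trans v1)
      have h4 : ξ.2 = 0 := by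
        rw [h3] at v1
        exact abs_nonpos_iff.1 v1
      have h5 : nr ξ = 0 := by
        unfold nr
        rw [h3, h4]
        simp
      linarith
  have h3 : -1 ≤ ξ.2 / ξ.1 := by
    rw [le_div_iff₀ hx]
    linarith [(abs_le.1 v1).1]
  have h4 : ξ.2 / ξ.1 ≤ 1 := by
    rw [div_le_iff₀ hx]
    linarith [(abs_le.1 v1).2]
  have h5 : (0 : ℝ) ≤ 2 ^ j * (ξ.2 / ξ.1 + sl) := mul_nonneg (by positivity) (by linarith)
  refine ⟨⌊(2 : ℝ) ^ j * (ξ.2 / ξ.1 + sl)⌋₊, ?_, ?_⟩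
  · rw [Nat.floor_lt h5]
    push_cast
    have : (0 : ℝ) < 2 ^ j := by positivity
    nlinarith
  · intro p'
    rw [Nat.floor_eq_iff h5]
    exact ⟨fun h => h.2, fun h => ⟨hx, h⟩⟩

theorem sector_sum {a m : ℕ} {sg sl : ℝ} (h1 : 1 ≤ sl) (h2 : sl < 2) {h : ℝ × ℝ → ℂ}
    (hh : Core a m sg sl h) (j : ℕ) {A : Set (ℝ × ℝ)} (hA : MeasurableSet A) (x : ℝ × ℝ) :
    Ex (A.indicator h) x =
      ∑ p ∈ Finset.range (3 * 2 ^ j), Ex ({ξ | ξ ∈ A ∧ cp sl j p ξ}.indicator h) x := by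
  classical
  have hi : ∀ p, Integrable (fun ξ => {ξ | ξ ∈ A ∧ cp sl j p ξ}.indicator h ξ * ee (dot x ξ)) :=
    fun p => int_ex (bd_ind hh.1 (hA.inter (cp_meas sl j p))) x
  unfold Ex
  rw [← integral_finsetSum _ fun p _ => hi p]
  refine integral_congr_ae (Filter.Eventually.of_forall fun ξ => ?_)
  change A.indicator h ξ * ee (dot x ξ) =
    ∑ p ∈ Finset.range (3 * 2 ^ j), {ξ | ξ ∈ A ∧ cp sl j p ξ}.indicator h ξ * ee (dot x ξ)
  by_cases h0 : h ξ = 0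
  · have h3 : ∀ S : Set (ℝ × ℝ), S.indicator h ξ = 0 := by
      intro S
      rw [indicator_apply, h0, ite_self]
    simp only [h3, zero_mul, Finset.sum_const_zero]
  · obtain ⟨p, hp, hpp⟩ := V0_cp h1 h2 j (hh.2 ξ h0).1
    rw [Finset.sum_eq_single_of_mem p (Finset.mem_range.2 hp)]
    · congr 1
      by_cases h3 : ξ ∈ A
      · rw [indicator_of_mem h3, indicator_of_mem (show ξ ∈ {ξ | ξ ∈ A ∧ cp sl j p ξ} from
          ⟨h3, (hpp p).2 rfl⟩)]
      · rw [indicator_of_notMem h3, indicator_of_notMem]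
        exact fun h => h3 h.1
    · intro p' _ hp'
      rw [indicator_of_notMem, zero_mul]
      exact fun h => hp' ((hpp p').1 h.2).symm

theorem n2_disj {ι : Type} (K : Finset ι) (A : ι → Set (ℝ × ℝ)) (B : Set (ℝ × ℝ))
    {h : ℝ × ℝ → ℂ} (hm : Measurable h) (hA : ∀ k, MeasurableSet (A k))
    (hd : ∀ ξ, h ξ ≠ 0 → ∀ k ∈ K, ∀ k' ∈ K, ξ ∈ A k → ξ ∈ A k' → k = k')
    (hB : ∀ k ∈ K, A k ⊆ B) :
    ∑ k ∈ K, n2 ((A k).indicator h) ≤ n2 (B.indicator h) := by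
  classical
  unfold n2
  rw [← lintegral_finsetSum _ fun k _ => (hm.indicator (hA k)).enorm.pow_const 2]
  refine lintegral_mono fun ξ => ?_
  by_cases h0 : h ξ = 0
  · have h3 : ∀ S : Set (ℝ × ℝ), S.indicator h ξ = 0 := by
      intro S
      rw [indicator_apply, h0, ite_self]
    simp [h3]
  · by_cases h1 : ∃ k ∈ K, ξ ∈ A k
    · obtain ⟨k, hk, hk'⟩ := h1
      rw [Finset.sum_eq_single_of_mem k hk]
      · rw [indicator_of_mem hk', indicator_of_mem (hB k hk hk')]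
      · intro k' hk1 hk2
        rw [indicator_of_notMem, enorm_zero, zero_pow two_ne_zero]
        exact fun h => hk2 (hd ξ h0 k hk k' hk1 hk' h).symm
    · push Not at h1
      rw [Finset.sum_eq_zero]
      · exact zero_le
      · intro k hk
        rw [indicator_of_notMem (h1 k hk), enorm_zero, zero_pow two_ne_zero]

end Pool.Agent.LLog.BLK_
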