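import Pool.Agent.LLog.BLKb

set_option autoImplicit false

/-! BLK, part c: one sector. -/

namespace Pool.Agent.LLog.BLK_

open MeasureTheory Set
open scoped ENNReal NNReal ComplexConjugate
open Pool.Agent.KSP (ee dot nr Ex Ex1 Bd Bd1 n1 n2 lg V0 ann)
open Pool.Agent.KSP.V1_ (cont_ee norm_ee meas_nr bd_ind int_bd int_bd1 int_ex)

/-- parameters -/
structure Pr (a m i e b : ℕ) (sg sl : ℝ) (h : ℝ × ℝ → ℂ) (Y : ℕ → Set (ℝ × ℝ)) : Prop where
  pa : PA a m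
  sg0 : 0 ≤ sg
  sg1 : sg < 1
  sl1 : 1 ≤ sl
  sl2 : sl < 2
  ai : 10 * a ≤ i
  ie : i < e
  em : e ≤ m
  core : Core a m sg sl h
  Ym : ∀ u, MeasurableSet (Y u) ∧ volume (Y u) < ⊤
  Yd : ∀ u u', u ≠ u' → Disjoint (Y u) (Y u')

/-- one sector -/
noncomputable def hp (a i e b : ℕ) (sg sl : ℝ) (h : ℝ × ℝ → ℂ) (p : ℕ) : ℝ × ℝ → ℂ :=
  {ξ | cd sg i b ξ ∧ cp sl (e + 8 * a) p ξ}.indicator h

/-- the weights on a line -/
noncomputable def chi (a m i e b : ℕ) (Y : ℕ → Set (ℝ × ℝ)) (t y : ℝ) (u : ℕ) (s : ℝ) : ℝ≥0∞ :=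
  if u / 4 ^ (e - i) = b then
    GK a m (e + 8 * a) (inn (2 * de a e) (Y u)) (s • nv t + y • tv t) else 0

section

variable {a m i e b : ℕ} {sg sl : ℝ} {h : ℝ × ℝ → ℂ} {Y : ℕ → Set (ℝ × ℝ)}

theorem de_pos (a e : ℕ) : 0 < de a e := by
  unfold de
  positivity

theorem rad_le (a e : ℕ) : (2 : ℝ) ^ (6 * a + (e + 8 * a)) ≤ de a e := by
  unfold de
  exact pow_le_pow_right₀ (by norm_num) (by omega)

theorem Pr.disj (P : Pr a m i e b sg sl h Y) (u u' : ℕ) (hu : u ≠ u') :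
    Disjoint (inn (2 * de a e) (Y u)) (inn (2 * de a e) (Y u')) :=
  (P.Yd u u' hu).mono (inn_sub (by have := de_pos a e; linarith) _)
    (inn_sub (by have := de_pos a e; linarith) _)

theorem Pr.hp_bd (P : Pr a m i e b sg sl h Y) (p : ℕ) : Bd (hp a i e b sg sl h p) :=
  bd_ind P.core.1 ((cd_meas sg i b).inter (cp_meas sl (e + 8 * a) p))

theorem hp_ne {p : ℕ} {ξ : ℝ × ℝ} (hξ : hp a i e b sg sl h p ξ ≠ 0) :
    h ξ ≠ 0 ∧ cd sg i b ξ ∧ cp sl (e + 8 * a) p ξ := by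
  classical
  unfold hp at hξ
  by_cases h1 : ξ ∈ {ξ | cd sg i b ξ ∧ cp sl (e + 8 * a) p ξ}
  · rw [indicator_of_mem h1] at hξ
    exact ⟨hξ, h1⟩
  · rw [indicator_of_notMem h1] at hξ
    exact absurd rfl hξ

/-- codes of `nr ξ` and of `dot ξ nv` -/
theorem Pr.code (P : Pr a m i e b sg sl h Y) (hE : tGEO) {p : ℕ} (hp' : p < 3 * 2 ^ (e + 8 * a))
    {ξ : ℝ × ℝ} (hξ : hp a i e b sg sl h p ξ ≠ 0) {l : ℕ} (hl : l ≤ e) (c : ℕ) :
    cdr sg l c (dot ξ (nv (tp sl (e + 8 * a) p))) ↔ cdr sg l c (nr ξ) := by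
  obtain ⟨h1, -, h3⟩ := hp_ne hξ
  rw [cdr_floor, cdr_floor, (near hE P.sl1 P.sl2 P.pa.1 P.core P.em hp' h1 h3 hl).1]

theorem Pr.W_iff (P : Pr a m i e b sg sl h Y) (hE : tGEO) {p : ℕ} (hp' : p < 3 * 2 ^ (e + 8 * a))
    {J : ℕ → ℕ → Finset ℕ} {W : ℕ → Set ℝ} (hJ : JW sg i e b J W) {u : ℕ}
    (hu : u / 4 ^ (e - i) = b) {ξ : ℝ × ℝ} (hξ : hp a i e b sg sl h p ξ ≠ 0) :
    nr ξ ∈ W u ↔ dot ξ (nv (tp sl (e + 8 * a) p)) ∈ W u := by
  classical
  have h1 : cdr sg i b (nr ξ) := (hp_ne hξ).2.1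
  have h2 : cdr sg i b (dot ξ (nv (tp sl (e + 8 * a) p))) := (P.code hE hp' hξ P.ie.le b).2 h1
  have e1 := hJ.2.2 u hu _ h1
  have e2 := hJ.2.2 u hu _ h2
  have e3 : (if nr ξ ∈ W u then (1 : ℂ) else 0) =
      if dot ξ (nv (tp sl (e + 8 * a) p)) ∈ W u then 1 else 0 := by
    have e4 : (∑ l ∈ Finset.Ioc i e, ∑ c ∈ J l (u / 4 ^ (e - l)),
        if cdr sg l c (nr ξ) then (1 : ℂ) else 0) =
        ∑ l ∈ Finset.Ioc i e, ∑ c ∈ J l (u / 4 ^ (e - l)),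
        if cdr sg l c (dot ξ (nv (tp sl (e + 8 * a) p))) then (1 : ℂ) else 0 := by
      refine Finset.sum_congr rfl fun l hl => Finset.sum_congr rfl fun c _ => ?_
      rw [Finset.mem_Ioc] at hl
      have e5 := P.code hE hp' hξ hl.2 c
      by_cases e6 : cdr sg l c (nr ξ)
      · rw [if_pos e6, if_pos (e5.2 e6)]
      · rw [if_neg e6, if_neg (fun h => e6 (e5.1 h))]
    have e5 : (∑ l ∈ Finset.Ioc i e, ∑ c ∈ J l (u / 4 ^ (e - l)),
        if cdr sg l c (nr ξ) then (1 : ℂ) else 0) = if nr ξ ∈ W u then 1 else 0 := by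
      convert e1
    have e6 : (∑ l ∈ Finset.Ioc i e, ∑ c ∈ J l (u / 4 ^ (e - l)),
        if cdr sg l c (dot ξ (nv (tp sl (e + 8 * a) p))) then (1 : ℂ) else 0) =
        if dot ξ (nv (tp sl (e + 8 * a) p)) ∈ W u then 1 else 0 := by
      convert e2
    rw [← e5, ← e6, e4]
  by_cases c1 : nr ξ ∈ W u
  · by_cases c2 : dot ξ (nv (tp sl (e + 8 * a) p)) ∈ W u
    · exact ⟨fun _ => c2, fun _ => c1⟩
    · rw [if_pos c1, if_neg c2] at e3
      exact absurd e3 one_ne_zero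
  · by_cases c2 : dot ξ (nv (tp sl (e + 8 * a) p)) ∈ W u
    · rw [if_neg c1, if_pos c2] at e3
      exact absurd e3 zero_ne_one
    · exact ⟨fun h => absurd h c1, fun h => absurd h c2⟩

theorem Pr.chi_sum (P : Pr a m i e b sg sl h Y) (hG : tGK) (t y s : ℝ) :
    ∑ u ∈ Finset.range (2 * 4 ^ e), chi a m i e b Y t y u s ≤ 1 := by
  unfold chi
  rw [← Finset.sum_filter, GK_union a m (e + 8 * a) _ _ (fun u => inn_meas _ _) P.disj]
  exact (hG a m (e + 8 * a) _ P.pa (Finset.measurableSet_biUnion _ fun u _ => inn_meas _ _)).2.1 _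

theorem Pr.chi_meas (P : Pr a m i e b sg sl h Y) (hG : tGK) (t y : ℝ) (u : ℕ) :
    Measurable (chi a m i e b Y t y u) := by
  unfold chi
  by_cases hu : u / 4 ^ (e - i) = b
  · simp only [if_pos hu]
    exact (hG a m (e + 8 * a) _ P.pa (inn_meas _ _)).1.comp (by fun_prop)
  · simp only [if_neg hu]
    exact measurable_const

theorem Pr.h1d (P : Pr a m i e b sg sl h Y) (hF : tFRM) (hG : tGK) (hE : tGEO)
    {J : ℕ → ℕ → Finset ℕ} {W : ℕ → Set ℝ} (hJ : JW sg i e b J W) {p : ℕ}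
    (hp' : p < 3 * 2 ^ (e + 8 * a)) (y : ℝ) :
    H1D a i e b sg J (Hs (tp sl (e + 8 * a) p) (hp a i e b sg sl h p) y)
      (chi a m i e b Y (tp sl (e + 8 * a) p) y) := by
  have ha := P.pa.1
  refine ⟨ha, by have := P.ai; omega, P.ie, ?_, ((hF _).2.2.2.2 _ (P.hp_bd p)).1 y, ?_, hJ.2.1,
    P.chi_meas hG _ y, P.chi_sum hG _ y⟩
  · have := P.pa.2.1
    have := P.em
    omega
  · intro ζ hζ
    obtain ⟨ξ, h1, h2⟩ := slice_supp hF hζ
    obtain ⟨k1, k2, k3⟩ := hp_ne h1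
    refine ⟨?_, ?_⟩
    · rw [← h2, P.code hE hp' h1 P.ie.le b]
      exact k2
    · intro l _ hl
      rw [← h2]
      exact (near hE P.sl1 P.sl2 ha P.core P.em hp' k1 k3 hl).2

theorem Pr.weight (P : Pr a m i e b sg sl h Y) (hG : tGK) {l c : ℕ} (hle : l ≤ e) (t y s : ℝ) :
    ∑ w ∈ (Finset.range (2 * 4 ^ l)).filter (fun w => w / 4 = c / 4 ∧ w ≠ c),
      chw e (chi a m i e b Y t y) l w s ≤
      (Xb a l e c Y).indicator 1 (s • nv t + y • tv t) + ENNReal.ofReal (2 / 2 ^ (40 * m)) := by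
  classical
  set x := s • nv t + y • tv t with hx
  set S := (Finset.range (2 * 4 ^ e)).filter
    (fun u => u / 4 ^ (e - l) / 4 = c / 4 ∧ u / 4 ^ (e - l) ≠ c) with hS
  have h4 : 2 * 4 ^ e = 4 ^ (e - l) * (2 * 4 ^ l) := by
    have : (4 : ℕ) ^ e = 4 ^ (e - l) * 4 ^ l := by rw [← pow_add]; congr 1; omega
    rw [this]
    ring
  have h1 : ∑ w ∈ (Finset.range (2 * 4 ^ l)).filter (fun w => w / 4 = c / 4 ∧ w ≠ c),
      chw e (chi a m i e b Y t y) l w s = ∑ u ∈ S, chi a m i e b Y t y u s := by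
    rw [← Finset.sum_fiberwise_of_maps_to (s := S)
      (t := (Finset.range (2 * 4 ^ l)).filter (fun w => w / 4 = c / 4 ∧ w ≠ c))
      (g := fun u => u / 4 ^ (e - l))]
    · refine Finset.sum_congr rfl fun w hw => ?_
      unfold chw
      refine Finset.sum_congr ?_ fun _ _ => rfl
      ext u
      rw [Finset.mem_filter] at hw
      simp only [hS, Finset.mem_filter, Finset.mem_range]
      constructor
      · rintro ⟨h1, h2⟩
        exact ⟨⟨h1, by rw [h2]; exact hw.2⟩, h2⟩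
      · rintro ⟨⟨h1, -⟩, h2⟩
        exact ⟨h1, h2⟩
    · intro u hu
      rw [hS, Finset.mem_filter, Finset.mem_range] at hu
      rw [Finset.mem_filter, Finset.mem_range]
      refine ⟨?_, hu.2⟩
      apply Nat.div_lt_of_lt_mul
      rw [← h4]
      exact hu.1
  have h2 : ∑ u ∈ S, chi a m i e b Y t y u s ≤
      ∑ u ∈ S, GK a m (e + 8 * a) (inn (2 * de a e) (Y u)) x := by
    refine Finset.sum_le_sum fun u _ => ?_
    unfold chi
    split_ifs
    · exact le_rfl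
    · exact zero_le
  rw [h1]
  refine h2.trans ?_
  rw [GK_union a m (e + 8 * a) _ _ (fun u => inn_meas _ _) P.disj]
  have h3 := hG a m (e + 8 * a) (⋃ u ∈ S, inn (2 * de a e) (Y u)) P.pa
    (Finset.measurableSet_biUnion _ fun u _ => inn_meas _ _)
  by_cases hxb : x ∈ Xb a l e c Y
  · rw [indicator_of_mem hxb]
    exact (h3.2.1 x).trans le_self_add
  · rw [indicator_of_notMem hxb, zero_add]
    refine h3.2.2.2.1 x ?_
    intro y' hy' hc
    apply hxb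
    simp only [mem_iUnion, exists_prop] at hy'
    obtain ⟨u, hu, hy2⟩ := hy'
    rw [hS, Finset.mem_filter, Finset.mem_range] at hu
    refine ⟨u, hu.1, hu.2.2, hu.2.1, ?_⟩
    refine inn_move (r := de a e) hy2 ?_ ?_ (by linarith)
    · rw [abs_sub_comm]
      exact hc.1.trans (rad_le a e)
    · rw [abs_sub_comm]
      exact hc.2.trans (rad_le a e)

end

end Pool.Agent.LLog.BLK_
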