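import Pool.Agent.KSP.Targets

set_option autoImplicit false

/-! MP_ee701d_an: disc partial sums in the plane, weak (2,2) with a constant polynomial in `log m`
(`4^m` radii per octave).  Definitions.  Proofs: Blueprint.lean.txt.

All parameters are powers of `q = 2^a`, `a = lg m`. -/

namespace Pool.Agent.LLog

open MeasureTheory Set
open scoped ENNReal NNReal ComplexConjugate
open Pool.Agent.KSP (ee dot nr Ex Ex1 Bd Bd1 n1 n2 lg V0 ann)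

/-- admissible sizes: `2^a` is comparable to `m` -/
def PA (a m : ℕ) : Prop := 20 ≤ a ∧ m < 2 ^ a ∧ 2 ^ a ≤ 2 * m

/-! ### Radial intervals, caps, directions -/

/-- `r` is in the radial interval number `c` of level `l`, `[sg + c 4^{-l}, sg + (c+1) 4^{-l})` -/
def cdr (sg : ℝ) (l c : ℕ) (r : ℝ) : Prop :=
  (c : ℝ) ≤ 4 ^ l * (r - sg) ∧ 4 ^ l * (r - sg) < c + 1

/-- the same for `|ξ|` -/
def cd (sg : ℝ) (l c : ℕ) (ξ : ℝ × ℝ) : Prop := cdr sg l c (nr ξ)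

/-- cap number `p` of level `j`: the slope plus `sl` is in `[p 2^{-j}, (p+1) 2^{-j})` -/
def cp (sl : ℝ) (j p : ℕ) (ξ : ℝ × ℝ) : Prop :=
  0 < ξ.1 ∧ (p : ℝ) ≤ 2 ^ j * (ξ.2 / ξ.1 + sl) ∧ 2 ^ j * (ξ.2 / ξ.1 + sl) < p + 1

/-- `x` is at distance `≥ η` from the integers -/
def fr (η x : ℝ) : Prop := η ≤ Int.fract x ∧ Int.fract x ≤ 1 - η

/-- slope of the direction of the cap -/
noncomputable def tp (sl : ℝ) (j p : ℕ) : ℝ := p / 2 ^ j - sl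

noncomputable def Nn (t : ℝ) : ℝ := √(1 + t ^ 2)

/-- unit vector of slope `t` -/
noncomputable def nv (t : ℝ) : ℝ × ℝ := (1 / Nn t, t / Nn t)

/-- the orthogonal unit vector -/
noncomputable def tv (t : ℝ) : ℝ × ℝ := (-t / Nn t, 1 / Nn t)

/-- core functions: nothing near the ends of radial intervals and caps (`2 q^{-4}` relative) -/
def Core (a m : ℕ) (sg sl : ℝ) (h : ℝ × ℝ → ℂ) : Prop :=
  Bd h ∧ ∀ ξ, h ξ ≠ 0 → ξ ∈ V0 ∧ (∀ l ≤ m, fr (2 / 2 ^ (4 * a)) (4 ^ l * (nr ξ - sg))) ∧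
    ∀ j ≤ m + 8 * a, fr (2 / 2 ^ (4 * a)) (2 ^ j * (ξ.2 / ξ.1 + sl))

/-! ### Plane geometry -/

/-- open box with centre `x0`, half length `A` in the direction of slope `t`, half width `B` -/
def bx (t : ℝ) (x0 : ℝ × ℝ) (A B : ℝ) : Set (ℝ × ℝ) :=
  {y | |dot (y - x0) (nv t)| < A ∧ |dot (y - x0) (tv t)| < B}

/-- proportion of the segment `x + s nv t`, `|s| ≤ L`, which lies in `X` -/
noncomputable def sa (t L : ℝ) (X : Set (ℝ × ℝ)) (x : ℝ × ℝ) : ℝ≥0∞ :=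
  (ENNReal.ofReal (2 * L))⁻¹ * ∫⁻ s in Icc (-L) L, X.indicator 1 (x + s • nv t)

/-- points whose open `sup`-norm ball of radius `δ` is contained in `X` (a closed set) -/
def inn (δ : ℝ) (X : Set (ℝ × ℝ)) : Set (ℝ × ℝ) :=
  {x | ∀ y : ℝ × ℝ, |y.1 - x.1| < δ → |y.2 - x.2| < δ → y ∈ X}

/-- side of the squares of level `e` -/
noncomputable def sd (a e : ℕ) : ℝ := 2 ^ (e + 18 * a)

/-- `δ_e` -/
noncomputable def de (a e : ℕ) : ℝ := 2 ^ (e + 15 * a)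

/-- index of the square of level `e` containing `x` -/
noncomputable def Qx (a : ℕ) (z0 : ℝ × ℝ) (e : ℕ) (x : ℝ × ℝ) : ℤ × ℤ :=
  (⌊(x.1 - z0.1) / sd a e⌋, ⌊(x.2 - z0.2) / sd a e⌋)

/-- half length of the boxes -/
noncomputable def bl (a e l : ℕ) : ℝ := max (4 ^ (l + 5 * a)) (sd a e)

/-! ### Tops and labels -/

/-- a top: level, number of its radial interval, index of its square -/
abbrev Top := ℕ × ℕ × (ℤ × ℤ)

/-- the tops whose square contains `x` -/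
noncomputable def TX (a : ℕ) (z0 : ℝ × ℝ) (T : Finset Top) (x : ℝ × ℝ) : Finset Top :=
  open Classical in T.filter (fun t => Qx a z0 t.1 x = t.2.2)

/-- the elements of level `≥ e` inside the interval number `b` of level `i` -/
noncomputable def Sb (S : Finset Top) (i e b : ℕ) : Finset Top :=
  open Classical in S.filter (fun t => e ≤ t.1 ∧ i ≤ t.1 ∧ t.2.1 / 4 ^ (t.1 - i) = b)

/-- `t` has the highest priority in `S` -/
def Lb (pr : Top → ℕ) (S : Finset Top) (t : Top) : Prop := t ∈ S ∧ ∀ t' ∈ S, pr t' ≤ pr t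

/-- first level of the dyadic block of length `2^s` containing `l` -/
def bi (s l : ℕ) : ℕ := 2 ^ s * ((l - 1) / 2 ^ s)

/-- last level of this block -/
def be (s l : ℕ) : ℕ := bi s l + 2 ^ s

/-- block event: for the block of length `2^s` containing `l` and the ancestor of `c`, the label
leaves the chain of `c` exactly at level `l` -/
def EvB (pr : Top → ℕ) (S : Finset Top) (s l c : ℕ) : Prop :=
  ∃ t, Lb pr (Sb S (bi s l) (be s l) (c / 4 ^ (l - bi s l))) t ∧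
    t.2.1 / 4 ^ (t.1 - (l - 1)) = c / 4 ∧ t.2.1 / 4 ^ (t.1 - l) ≠ c

/-- child event: the label of the parent of `c` (level `l - 1`) is not inside `c` -/
def EvC (pr : Top → ℕ) (S : Finset Top) (l c : ℕ) : Prop :=
  ∃ t, Lb pr (Sb S (l - 1) (l - 1) (c / 4)) t ∧ ¬ (l ≤ t.1 ∧ t.2.1 / 4 ^ (t.1 - l) = c)

/-- union of the squares of the tops of level `≥ e` inside the parent `b` (level `l - 1`) -/
def Zt (a : ℕ) (z0 : ℝ × ℝ) (T : Finset Top) (e l b : ℕ) : Set (ℝ × ℝ) :=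
  {x | ∃ t ∈ TX a z0 T x, e ≤ t.1 ∧ l - 1 ≤ t.1 ∧ t.2.1 / 4 ^ (t.1 - (l - 1)) = b}

/-- points in a box which contains a good part of `Zt` -/
def Zp (a : ℕ) (z0 : ℝ × ℝ) (T : Finset Top) (e l b : ℕ) : Set (ℝ × ℝ) :=
  {y | ∃ t ∈ Icc (-2 : ℝ) 2, ∃ x0, y ∈ bx t x0 (7 * bl a e l) (7 * sd a e) ∧
    ENNReal.ofReal (bl a e l * sd a e / 2 ^ (16 * a)) ≤
      volume (Zt a z0 T e l b ∩ bx t x0 (7 * bl a e l) (7 * sd a e))}

/-- points far from the boundary of their squares -/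
def IN (a m : ℕ) (z0 : ℝ × ℝ) : Set (ℝ × ℝ) :=
  {x | ∀ e ≤ m, x ∈ inn (4 * de a e) {y | Qx a z0 e y = Qx a z0 e x}}

/-- number of the level `l` interval of the radius `1 + k(x) 4^{-m}` -/
noncomputable def kc (m : ℕ) (sg : ℝ) (k : ℝ × ℝ → ℕ) (l : ℕ) (x : ℝ × ℝ) : ℕ :=
  ⌊4 ^ l * (1 + k x / 4 ^ m - sg)⌋₊

/-- the square `z` and the radial interval `c` of level `l` are popular -/
def Pop (a m : ℕ) (z0 : ℝ × ℝ) (sg : ℝ) (E : Set (ℝ × ℝ)) (k : ℝ × ℝ → ℕ) (l : ℕ) (z : ℤ × ℤ)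
    (c : ℕ) : Prop :=
  ENNReal.ofReal (sd a l ^ 2 / 2 ^ (50 * a)) ≤
    volume (E ∩ {y | Qx a z0 l y = z ∧ kc m sg k l y = c})

/-- first unpopular level `≥ 10 a` (or `m`) -/
noncomputable def lst (a m : ℕ) (z0 : ℝ × ℝ) (sg : ℝ) (E : Set (ℝ × ℝ)) (k : ℝ × ℝ → ℕ)
    (x : ℝ × ℝ) : ℕ :=
  sInf {l | 10 * a ≤ l ∧ (¬ Pop a m z0 sg E k l (Qx a z0 l x) (kc m sg k l x) ∨ l = m)}

/-- a family of events on levels `Lv`, `e l` is the level of measurability -/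
structure Fam where
  Lv : Finset ℕ
  e : ℕ → ℕ
  Ev : ℕ → ℕ → (ℝ × ℝ) → Prop

/-- the block families -/
noncomputable def famB (a m : ℕ) (z0 : ℝ × ℝ) (T : Finset Top) (pr : Top → ℕ) (s : ℕ) : Fam where
  Lv := (Finset.Ioc (10 * a) m).filter (fun l => 10 * a ≤ bi s l ∧ be s l ≤ m)
  e := be s
  Ev := fun l c x => EvB pr (TX a z0 T x) s l c

/-- the family of children -/
noncomputable def famC (a m : ℕ) (z0 : ℝ × ℝ) (T : Finset Top) (pr : Top → ℕ) : Fam where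
  Lv := Finset.Ioc (10 * a) m
  e := fun l => l - 1
  Ev := fun l c x => EvC pr (TX a z0 T x) l c

/-- usage and multiplicity of a family at `x` -/
def Gf (a m : ℕ) (z0 : ℝ × ℝ) (T : Finset Top) (F : Fam) (x : ℝ × ℝ) : Prop :=
  open Classical in
  (∀ r : ℕ, (F.Lv.filter (fun l => F.Ev l (r / 4 ^ (m - l)) x)).card ≤ 200 * a) ∧
  ((F.Lv ×ˢ Finset.range (2 * 4 ^ m)).filter (fun P => x ∈ Zp a z0 T (F.e P.1) P.1 P.2)).card ≤
    2 ^ (90 * a)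

/-- the properties of a family that are used -/
def FOK (a m : ℕ) (z0 : ℝ × ℝ) (T : Finset Top) (F : Fam) : Prop :=
  (∀ l ∈ F.Lv, 10 * a < l ∧ l ≤ m ∧ l ≤ F.e l + 1 ∧ F.e l ≤ m) ∧
  (∀ l ∈ F.Lv, ∀ l' ∈ F.Lv, l ≤ l' → F.e l ≤ F.e l') ∧
  (∀ l ∈ F.Lv, ∀ c x y, Qx a z0 (F.e l) x = Qx a z0 (F.e l) y → F.Ev l c x → F.Ev l c y) ∧
  ∀ l ∈ F.Lv, ∀ c x, F.Ev l c x → x ∈ Zt a z0 T (F.e l) l (c / 4)

/-- good points -/
def Gd (a m : ℕ) (z0 : ℝ × ℝ) (T : Finset Top) (pr : Top → ℕ) : Set (ℝ × ℝ) :=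
  {x | (∀ s ≤ a, Gf a m z0 T (famB a m z0 T pr s) x) ∧ Gf a m z0 T (famC a m z0 T pr) x}

/-- the hypotheses on a class of levels in the positive sum -/
def CL (a m : ℕ) (LL : Finset ℕ) (e : ℕ → ℕ) (L : ℕ → ℝ) : Prop :=
  (∀ l ∈ LL, 10 * a < l ∧ l ≤ m ∧ l ≤ e l + 1 ∧ e l ≤ m ∧ 4 ^ l / 4 ^ (2 * a) ≤ L l ∧
    L l ≤ 4 ^ (l + 5 * a)) ∧
  ∀ l ∈ LL, ∀ l' ∈ LL, l < l' → l + 7 * a ≤ l' ∧ e l ≤ e l'

/-- the sets of a family: squares of level `e l` which contain a good point with the event -/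
def XF (a : ℕ) (z0 : ℝ × ℝ) (F : Fam) (G : Set (ℝ × ℝ)) (l c : ℕ) : Set (ℝ × ℝ) :=
  {x | ∃ y ∈ G, Qx a z0 (F.e l) y = Qx a z0 (F.e l) x ∧ F.Ev l c y}

/-! ### One dimension -/

/-- average over the cell `[L n, L (n+1))` containing `s` -/
noncomputable def avgc (L : ℝ) (g : ℝ → ℝ≥0∞) (s : ℝ) : ℝ≥0∞ :=
  (ENNReal.ofReal L)⁻¹ * ∫⁻ t in Ico (L * ⌊s / L⌋) (L * (⌊s / L⌋ + 1)), g t

/-- the same for complex functions -/
noncomputable def avgC (L : ℝ) (g : ℝ → ℂ) (s : ℝ) : ℂ :=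
  ((L⁻¹ : ℝ) : ℂ) * ∫ t in Ico (L * ⌊s / L⌋) (L * (⌊s / L⌋ + 1)), g t

/-- `φ(u) = u (2 - log u)` -/
noncomputable def ph (u : ℝ) : ℝ := u * (2 - Real.log u)

/-- frequency piece -/
noncomputable def Pc (sg : ℝ) (H : ℝ → ℂ) (l c : ℕ) (s : ℝ) : ℂ :=
  Ex1 ({ζ : ℝ | cdr sg l c ζ}.indicator H) s

/-- sum of the pieces of level `l` for a node `w` -/
noncomputable def Dj (sg : ℝ) (J : ℕ → ℕ → Finset ℕ) (H : ℝ → ℂ) (l w : ℕ) (s : ℝ) : ℂ :=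
  ∑ c ∈ J l w, Pc sg H l c s

/-- mass of the node `w` of level `l` -/
noncomputable def chw (e : ℕ) (χ : ℕ → ℝ → ℝ≥0∞) (l w : ℕ) (s : ℝ) : ℝ≥0∞ :=
  ∑ u ∈ (Finset.range (2 * 4 ^ e)).filter (fun u => u / 4 ^ (e - l) = w), χ u s

/-- the node of `u` at one of the levels `lam + 7 a k'`, `1 ≤ k' ≤ k`, is unpopular at `s` -/
def pb (a lam e : ℕ) (χ : ℕ → ℝ → ℝ≥0∞) (k u : ℕ) (s : ℝ) : Prop :=
  ∃ k', 1 ≤ k' ∧ k' ≤ k ∧
    avgc (4 ^ (lam + 7 * a * k' + 5 * a))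
      (chw e χ (lam + 7 * a * k') (u / 4 ^ (e - (lam + 7 * a * k')))) s <
        ENNReal.ofReal (1 / 2 ^ (20 * a))

/-! ### Cutoffs and kernels -/

/-- moving average -/
noncomputable def mav (w : ℝ) (f : ℝ → ℝ) (x : ℝ) : ℝ := w⁻¹ * ∫ t in (x - w / 2)..(x + w / 2), f t

/-- smooth cutoff: `1` on `[α + δ, β - δ]`, `0` outside `[α, β]` -/
noncomputable def psi (N : ℕ) (α β δ : ℝ) : ℝ → ℝ :=
  (mav (δ / N))^[N] ((Icc (α + δ / 2) (β - δ / 2)).indicator 1)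

/-- nonnegative kernel of integral `1` with frequencies `|ζ| ≤ b / 2` (`N` even) -/
noncomputable def kap (N : ℕ) (b t : ℝ) : ℝ :=
  (Real.sinc (Real.pi * b * t / N)) ^ N / ∫ t', (Real.sinc (Real.pi * b * t' / N)) ^ N

/-- `1_Y * (kap ⊗ kap)`, frequencies `≤ q^{-4} 2^{-j} / 2` -/
noncomputable def GK (a m j : ℕ) (Y : Set (ℝ × ℝ)) (x : ℝ × ℝ) : ℝ≥0∞ :=
  ∫⁻ y in Y, ENNReal.ofReal (kap (40 * m) (1 / 2 ^ (4 * a + j)) (x.1 - y.1) *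
    kap (40 * m) (1 / 2 ^ (4 * a + j)) (x.2 - y.2))

/-- radial factor of the multipliers, as a function of `ξ · nv` -/
noncomputable def psR (a m : ℕ) (sg : ℝ) (l c : ℕ) : ℝ → ℝ :=
  psi (40 * m) (sg + (c + 1 / 2 ^ (4 * a + 1)) / 4 ^ l)
    (sg + (c + 1 - 1 / 2 ^ (4 * a + 1)) / 4 ^ l) (1 / 2 ^ (4 * a + 1) / 4 ^ l)

/-- angular factor -/
noncomputable def psA (a m : ℕ) : ℝ → ℝ :=
  psi (40 * m) (1 / 2 ^ (4 * a + 1)) (1 - 1 / 2 ^ (4 * a + 1)) (1 / 2 ^ (4 * a + 1))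

/-- the angular part of the multiplier of the cap `p` of level `j`, radii near
`sg + c0 4^{-3a}` -/
noncomputable def anf (a m : ℕ) (sg sl : ℝ) (j p c0 : ℕ) (ξ : ℝ × ℝ) : ℝ :=
  psA a m (Nn (tp sl j p) ^ 2 * 2 ^ j / (sg + c0 / 4 ^ (3 * a)) * dot ξ (tv (tp sl j p)))

/-- multiplier of the radial interval `(l, c)` and the cap `(j, p)` -/
noncomputable def mu (a m : ℕ) (sg sl : ℝ) (l j c p : ℕ) (ξ : ℝ × ℝ) : ℂ :=
  ((psR a m sg l c (dot ξ (nv (tp sl j p))) * anf a m sg sl j p (c / 4 ^ (l - 3 * a)) ξ : ℝ) : ℂ)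

/-- multiplier of the base interval `c0` and the cap `(j, p)` -/
noncomputable def nu (a m : ℕ) (sg sl : ℝ) (j c0 p : ℕ) (ξ : ℝ × ℝ) : ℂ :=
  ((psR a m sg (3 * a) c0 (dot ξ (nv (tp sl j p))) * anf a m sg sl j p c0 ξ : ℝ) : ℂ)

/-- `c` is admissible: it contains a point which is in the core of all its ancestors -/
def adm (a : ℕ) (sg : ℝ) (LL : Finset ℕ) (l c : ℕ) : Prop :=
  ∃ ζ : ℝ, 1 ≤ ζ ∧ ζ < 2 ∧ cdr sg l c ζ ∧ fr (2 / 2 ^ (4 * a)) (4 ^ (3 * a) * (ζ - sg)) ∧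
    ∀ l' ∈ LL, l' < l → fr (2 / 2 ^ (4 * a)) (4 ^ l' * (ζ - sg))

/-! ### Fourier transform of functions of `x` -/

/-- bounded, measurable, of finite measure support -/
def Bf (g : ℝ × ℝ → ℂ) : Prop :=
  Measurable g ∧ (∃ B : ℝ, ∀ x, ‖g x‖ ≤ B) ∧ volume {x | g x ≠ 0} < ⊤

noncomputable def hat (g : ℝ × ℝ → ℂ) (ξ : ℝ × ℝ) : ℂ := ∫ x, g x * ee (-(dot x ξ))

/-- slice of `h`: frequency function on the line `y tv t + ℝ nv t` -/
noncomputable def Hs (t : ℝ) (h : ℝ × ℝ → ℂ) (y ζ : ℝ) : ℂ :=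
  ∫ z, h (ζ • nv t + z • tv t) * ee (y * z)

/-! ### Tile points (positive sum) -/

/-- nodes `(l', c')` that are active above the tile point `(l, c, p, x)` -/
noncomputable def Lam (a m : ℕ) (sl : ℝ) (LL : Finset ℕ) (e : ℕ → ℕ) (L : ℕ → ℝ)
    (X : ℕ → ℕ → Set (ℝ × ℝ)) (l c p : ℕ) (x : ℝ × ℝ) : Finset (ℕ × ℕ) :=
  open Classical in
  (LL ×ˢ Finset.range (2 * 4 ^ m)).filter (fun P => l ≤ P.1 ∧ P.2 / 4 ^ (P.1 - l) = c ∧
    ∃ p' x', p' / 2 ^ (e P.1 - e l) = p ∧ p' < 3 * 2 ^ (e P.1 + 8 * a) ∧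
      ENNReal.ofReal (1 / 2 ^ a) ≤
        sa (tp sl (e P.1 + 8 * a) p') (L P.1) (inn (de a (e P.1)) (X P.1 P.2)) x' ∧
      x ∈ bx (tp sl (e P.1 + 8 * a) p') x' ((2 + (m - l : ℝ) / m) * bl a (e P.1) P.1)
        ((2 + (m - l : ℝ) / m) * sd a (e P.1)))

end Pool.Agent.LLog
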