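import Pool.Agent.LLog.EndTargets

set_option autoImplicit false

/-! Calculus of weak `L²` bounds. -/

namespace Pool.Agent.LLog

open MeasureTheory Set Filter Topology
open scoped ENNReal NNReal

section

variable {X : Type} [MeasurableSpace X] {μ : Measure X}

theorem WK.mono {F G : X → ℝ≥0∞} {A B : ℝ≥0∞} (h : WK μ G A) (hFG : ∀ x, F x ≤ G x)
    (hAB : A ≤ B) : WK μ F B := fun lam =>
  (mul_le_mul_right (measure_mono fun x (hx : (lam : ℝ≥0∞) < F x) => hx.trans_le (hFG x))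
    _).trans ((h lam).trans hAB)

theorem WK.of_sq {F : X → ℝ≥0∞} {B : ℝ≥0∞} (hF : AEMeasurable F μ)
    (h : ∫⁻ x, F x ^ 2 ∂μ ≤ B) : WK μ F B := fun lam => by
  refine le_trans ?_ ((mul_meas_ge_le_lintegral₀ (hF.pow_const 2) ((lam : ℝ≥0∞) ^ 2)).trans h)
  refine mul_le_mul_right (measure_mono fun x (hx : (lam : ℝ≥0∞) < F x) => ?_) _
  exact pow_le_pow_left' hx.le 2

theorem WK.add {F G : X → ℝ≥0∞} {A B : ℝ≥0∞} (hF : WK μ F A) (hG : WK μ G B) :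
    WK μ (fun x => F x + G x) (4 * (A + B)) := fun lam => by
  have h2 : ((lam / 2 : ℝ≥0) : ℝ≥0∞) + ((lam / 2 : ℝ≥0) : ℝ≥0∞) = lam := by
    rw [← ENNReal.coe_add, add_halves]
  have hsub : {x | (lam : ℝ≥0∞) < F x + G x} ⊆
      {x | ((lam / 2 : ℝ≥0) : ℝ≥0∞) < F x} ∪ {x | ((lam / 2 : ℝ≥0) : ℝ≥0∞) < G x} := by
    intro x hx
    by_contra hcon
    rw [mem_union, not_or] at hcon
    have h3 : F x ≤ ((lam / 2 : ℝ≥0) : ℝ≥0∞) := not_lt.1 hcon.1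
    have h4 : G x ≤ ((lam / 2 : ℝ≥0) : ℝ≥0∞) := not_lt.1 hcon.2
    exact absurd (lt_of_lt_of_le (show (lam : ℝ≥0∞) < F x + G x from hx)
      ((add_le_add h3 h4).trans h2.le)) (lt_irrefl _)
  have hl : (lam : ℝ≥0∞) ^ 2 = 4 * ((lam / 2 : ℝ≥0) : ℝ≥0∞) ^ 2 := by
    rw [← h2]
    ring
  calc (lam : ℝ≥0∞) ^ 2 * μ {x | (lam : ℝ≥0∞) < F x + G x}
      ≤ (lam : ℝ≥0∞) ^ 2 * (μ {x | ((lam / 2 : ℝ≥0) : ℝ≥0∞) < F x} +
          μ {x | ((lam / 2 : ℝ≥0) : ℝ≥0∞) < G x}) :=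
        mul_le_mul_right ((measure_mono hsub).trans (measure_union_le _ _)) _
    _ = 4 * (((lam / 2 : ℝ≥0) : ℝ≥0∞) ^ 2 * μ {x | ((lam / 2 : ℝ≥0) : ℝ≥0∞) < F x} +
          ((lam / 2 : ℝ≥0) : ℝ≥0∞) ^ 2 * μ {x | ((lam / 2 : ℝ≥0) : ℝ≥0∞) < G x}) := by
        rw [hl]
        ring
    _ ≤ 4 * (A + B) := mul_le_mul_right (add_le_add (hF _) (hG _)) _

theorem WK.add3 {F G H : X → ℝ≥0∞} {A B C : ℝ≥0∞} (hF : WK μ F A) (hG : WK μ G B)
    (hH : WK μ H C) : WK μ (fun x => F x + G x + H x) (16 * (A + B + C)) :=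
  ((hF.add hG).add hH).mono (fun _ => le_rfl) (by
    calc 4 * (4 * (A + B) + C) = 16 * (A + B) + 4 * C := by ring
      _ ≤ 16 * (A + B) + 16 * C := by gcongr; norm_num
      _ = _ := by ring)

theorem WK.iSup {ι : Type} [Countable ι] {F : ι → X → ℝ≥0∞} {B : ι → ℝ≥0∞}
    (h : ∀ i, WK μ (F i) (B i)) : WK μ (fun x => ⨆ i, F i x) (∑' i, B i) := fun lam => by
  have hU : {x | (lam : ℝ≥0∞) < ⨆ i, F i x} = ⋃ i, {x | (lam : ℝ≥0∞) < F i x} := by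
    ext x
    simp only [mem_ofPred_eq, mem_iUnion, lt_iSup_iff]
  rw [hU]
  calc (lam : ℝ≥0∞) ^ 2 * μ (⋃ i, {x | (lam : ℝ≥0∞) < F i x})
      ≤ (lam : ℝ≥0∞) ^ 2 * ∑' i, μ {x | (lam : ℝ≥0∞) < F i x} :=
        mul_le_mul_right (measure_iUnion_le _) _
    _ = ∑' i, (lam : ℝ≥0∞) ^ 2 * μ {x | (lam : ℝ≥0∞) < F i x} := ENNReal.tsum_mul_left.symm
    _ ≤ ∑' i, B i := ENNReal.tsum_le_tsum fun i => h i lam

theorem WK.restrict {F : X → ℝ≥0∞} {B : ℝ≥0∞} (h : WK μ F B) (s : Set X) :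
    WK (μ.restrict s) F B := fun lam =>
  (mul_le_mul_right (Measure.le_iff'.1 Measure.restrict_le_self _) _).trans (h lam)

theorem WK.const (a : ℝ≥0∞) : WK μ (fun _ => a) (a ^ 2 * μ univ) := fun lam => by
  by_cases h : (lam : ℝ≥0∞) < a
  · exact mul_le_mul' (pow_le_pow_left' h.le 2) (measure_mono (subset_univ _))
  · have : {x : X | (lam : ℝ≥0∞) < a} = ∅ := by
      ext x
      simp [h]
    rw [this, measure_empty, mul_zero]
    exact bot_le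

/-- Fatou -/
theorem WK.fatou {F : X → ℝ≥0∞} {G : ℕ → X → ℝ≥0∞} {A : ℕ → ℝ≥0∞} {B : ℝ≥0∞}
    (h : ∀ n, WK μ (G n) (A n)) (hF : ∀ x, F x ≤ liminf (fun n => G n x) atTop)
    (hA : Tendsto A atTop (𝓝 B)) : WK μ F B := fun lam => by
  have hsub : {x | (lam : ℝ≥0∞) < F x} ⊆ ⋃ N : ℕ, ⋂ n ≥ N, {x | (lam : ℝ≥0∞) < G n x} := by
    intro x hx
    have h1 : (lam : ℝ≥0∞) < liminf (fun n => G n x) atTop := lt_of_lt_of_le hx (hF x)
    have h2 := eventually_lt_of_lt_liminf h1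
    obtain ⟨N, hN⟩ := eventually_atTop.1 h2
    exact mem_iUnion.2 ⟨N, mem_iInter₂.2 fun n hn => hN n hn⟩
  have hmono : Monotone fun N : ℕ => ⋂ n ≥ N, {x | (lam : ℝ≥0∞) < G n x} := by
    intro N M hNM
    exact biInter_mono (fun n (hn : M ≤ n) => hNM.trans hn) fun _ _ => le_rfl
  have h3 : μ {x | (lam : ℝ≥0∞) < F x} ≤
      ⨆ N : ℕ, μ (⋂ n ≥ N, {x | (lam : ℝ≥0∞) < G n x}) := by
    rw [← hmono.measure_iUnion]
    exact measure_mono hsub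
  refine (mul_le_mul_right h3 _).trans ?_
  rw [ENNReal.mul_iSup]
  refine iSup_le fun N => ?_
  refine ge_of_tendsto hA ?_
  filter_upwards [eventually_ge_atTop N] with n hn
  refine le_trans (mul_le_mul_right (measure_mono ?_) _) (h n lam)
  exact fun x hx => (mem_iInter₂.1 hx) n hn

end

end Pool.Agent.LLog
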