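import Pool.Agent.LLog.Targets
import Pool.Agent.KSP.Base

set_option autoImplicit false

/-! LLG-GDJ: levels below the first unpopular node, the main one-dimensional estimate -/

namespace Pool.Agent.LLog

open MeasureTheory Set
open scoped ENNReal NNReal ComplexConjugate
open Pool.Agent.KSP (ee dot nr Ex Ex1 Bd Bd1 n1 n2 lg V0 ann pPl1)

namespace GDJ_

/-! ### Cells -/

theorem floor_of_mem {L t : ℝ} {n : ℤ} (hL : 0 < L) (ht : t ∈ Ico (L * n) (L * (n + 1))) :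
    ⌊t / L⌋ = n := by
  rw [Int.floor_eq_iff]
  constructor
  · rw [le_div_iff₀ hL]
    linarith [ht.1, mul_comm L (n : ℝ)]
  · rw [div_lt_iff₀ hL]
    linarith [ht.2, mul_comm L ((n : ℝ) + 1)]

theorem mem_of_floor {L : ℝ} (hL : 0 < L) (s : ℝ) :
    s ∈ Ico (L * ⌊s / L⌋) (L * (⌊s / L⌋ + 1)) := by
  constructor
  · have h := Int.floor_le (s / L)
    rw [le_div_iff₀ hL] at h
    linarith [mul_comm L (⌊s / L⌋ : ℝ)]
  · have h := Int.lt_floor_add_one (s / L)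
    rw [div_lt_iff₀ hL] at h
    linarith [mul_comm L ((⌊s / L⌋ : ℝ) + 1)]

theorem meas_step {α : Type*} [MeasurableSpace α] (L : ℝ) (F : ℤ → α) :
    Measurable (fun s : ℝ => F ⌊s / L⌋) :=
  (measurable_from_top (f := F)).comp (Int.measurable_floor.comp (measurable_id.div_const L))

theorem avgc_meas (L : ℝ) (g : ℝ → ℝ≥0∞) : Measurable (avgc L g) :=
  meas_step L (fun n : ℤ => (ENNReal.ofReal L)⁻¹ * ∫⁻ t in Ico (L * n) (L * (n + 1)), g t)

theorem avgC_meas (L : ℝ) (g : ℝ → ℂ) : Measurable (avgC L g) :=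
  meas_step L (fun n : ℤ => ((L⁻¹ : ℝ) : ℂ) * ∫ t in Ico (L * n) (L * (n + 1)), g t)

theorem avgc_mono (L : ℝ) {g g' : ℝ → ℝ≥0∞} (h : ∀ s, g s ≤ g' s) (s : ℝ) :
    avgc L g s ≤ avgc L g' s := by
  unfold avgc
  gcongr with t
  exact h t

theorem vol_cell {L : ℝ} (n : ℤ) : volume (Ico (L * n) (L * (n + 1))) = ENNReal.ofReal L := by
  rw [Real.volume_Ico]
  congr 1
  ring

theorem avgc_const {L : ℝ} (hL : 0 < L) (c : ℝ≥0∞) (s : ℝ) : avgc L (fun _ => c) s = c := by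
  unfold avgc
  rw [lintegral_const, Measure.restrict_apply MeasurableSet.univ, univ_inter, vol_cell, mul_comm,
    mul_assoc, ENNReal.mul_inv_cancel (by simpa using hL) ENNReal.ofReal_ne_top, mul_one]

theorem avgc_le_one {L : ℝ} (hL : 0 < L) {g : ℝ → ℝ≥0∞} (h : ∀ s, g s ≤ 1) (s : ℝ) :
    avgc L g s ≤ 1 :=
  (avgc_mono L h s).trans (avgc_const hL 1 s).le

theorem avgc_add (L : ℝ) {g g' : ℝ → ℝ≥0∞} (h : Measurable g) (s : ℝ) :
    avgc L (fun t => g t + g' t) s = avgc L g s + avgc L g' s := by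
  unfold avgc
  rw [lintegral_add_left h, mul_add]

theorem avgc_sum {ι : Type*} (L : ℝ) (S : Finset ι) {g : ι → ℝ → ℝ≥0∞}
    (h : ∀ i, Measurable (g i)) (s : ℝ) :
    avgc L (fun t => ∑ i ∈ S, g i t) s = ∑ i ∈ S, avgc L (g i) s := by
  unfold avgc
  rw [lintegral_finsetSum _ (fun i _ => h i), Finset.mul_sum]

theorem avgc_smul (L : ℝ) {g : ℝ → ℝ≥0∞} (h : Measurable g) (c : ℝ≥0∞) (s : ℝ) :
    avgc L (fun t => c * g t) s = c * avgc L g s := by
  unfold avgc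
  rw [lintegral_const_mul _ h]
  ring

theorem floor_mul (L s : ℝ) (N : ℕ) : ⌊s / (L * N)⌋ = ⌊s / L⌋ / N := by
  rw [← div_div, Int.floor_div_natCast]

/-- tower property -/
theorem avgC_tower {L : ℝ} (hL : 0 < L) {N : ℕ} (hN : 1 ≤ N) {G : ℝ → ℂ} (hG : Continuous G)
    (s : ℝ) : avgC (L * N) (avgC L G) s = avgC (L * N) G s := by
  have hN0 : (0 : ℝ) < N := by exact_mod_cast hN
  set n : ℤ := ⌊s / (L * N)⌋ with hn
  suffices key : ∫ t in Ico (L * N * n) (L * N * (n + 1)), avgC L G t =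
      ∫ t in Ico (L * N * n) (L * N * (n + 1)), G t by
    change (((L * N)⁻¹ : ℝ) : ℂ) * (∫ t in Ico (L * N * n) (L * N * (n + 1)), avgC L G t) =
      (((L * N)⁻¹ : ℝ) : ℂ) * ∫ t in Ico (L * N * n) (L * N * (n + 1)), G t
    rw [key]
  -- the end points of the subcells
  let A : ℕ → ℝ := fun i => L * ((N : ℤ) * n + i : ℤ)
  have hA : ∀ i, A (i + 1) = L * (((N : ℤ) * n + i : ℤ) + 1) := by
    intro i
    simp only [A]
    push_cast
    ring
  have hAle : ∀ i, A i ≤ A (i + 1) := by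
    intro i
    rw [hA]
    simp only [A]
    nlinarith
  have hA0 : A 0 = L * N * n := by simp only [A]; push_cast; ring
  have hAN : A N = L * N * (n + 1) := by simp only [A]; push_cast; ring
  have hcell : ∀ i, ∀ t ∈ Ico (A i) (A (i + 1)), avgC L G t =
      ((L⁻¹ : ℝ) : ℂ) * ∫ u in Ico (A i) (A (i + 1)), G u := by
    intro i t ht
    have h1 : ⌊t / L⌋ = (N : ℤ) * n + i := by
      apply floor_of_mem hL
      rw [← hA]
      exact ht
    unfold avgC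
    rw [h1, ← hA]
  have hico : ∀ (f : ℝ → ℂ) (a b : ℝ), a ≤ b → ∫ t in Ico a b, f t = ∫ t in a..b, f t := by
    intro f a b hab
    rw [intervalIntegral.integral_of_le hab, integral_Ico_eq_integral_Ioo,
      integral_Ioc_eq_integral_Ioo]
  have hle : L * N * n ≤ L * N * (n + 1) := by nlinarith [mul_pos hL hN0]
  rw [hico _ _ _ hle, hico _ _ _ hle, ← hA0, ← hAN]
  have hint : ∀ i < N, IntervalIntegrable (avgC L G) volume (A i) (A (i + 1)) := by
    intro i _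
    rw [intervalIntegrable_iff_integrableOn_Ico_of_le (hAle i)]
    have h1 : IntegrableOn (fun _ : ℝ => ((L⁻¹ : ℝ) : ℂ) * ∫ u in Ico (A i) (A (i + 1)), G u)
        (Ico (A i) (A (i + 1))) volume := by
      apply integrableOn_const
      · rw [Real.volume_Ico]
        exact ENNReal.ofReal_ne_top
      · exact enorm_ne_top
    exact h1.congr_fun (fun t ht => (hcell i t ht).symm) measurableSet_Ico
  rw [← intervalIntegral.sum_integral_adjacent_intervals hint,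
    ← intervalIntegral.sum_integral_adjacent_intervals
      (fun i _ => hG.intervalIntegrable (A i) (A (i + 1)))]
  refine Finset.sum_congr rfl fun i _ => ?_
  rw [← hico _ _ _ (hAle i), ← hico _ _ _ (hAle i),
    setIntegral_congr_fun measurableSet_Ico (hcell i), setIntegral_const]
  have h2 : (volume.real (Ico (A i) (A (i + 1)))) = L := by
    rw [measureReal_def, hA]
    simp only [A]
    rw [vol_cell, ENNReal.toReal_ofReal hL.le]
  rw [h2, Complex.real_smul, ← mul_assoc, ← Complex.ofReal_mul, mul_inv_cancel₀ hL.ne',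
    Complex.ofReal_one, one_mul]

/-- decomposition into cells -/
theorem lintegral_cells {L : ℝ} (hL : 0 < L) (f : ℝ → ℝ≥0∞) :
    ∫⁻ s, f s = ∑' n : ℤ, ∫⁻ s in Ico (L * n) (L * (n + 1)), f s := by
  have h1 : ⋃ n : ℤ, Ico (L * n) (L * ((n : ℝ) + 1)) = (univ : Set ℝ) := by
    rw [eq_univ_iff_forall]
    intro s
    exact mem_iUnion.2 ⟨⌊s / L⌋, mem_of_floor hL s⟩
  have h2 : Pairwise (Function.onFun Disjoint (fun n : ℤ => Ico (L * n) (L * ((n : ℝ) + 1)))) := by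
    intro n n' hne
    rw [Function.onFun, Set.disjoint_left]
    intro s hs hs'
    exact hne ((floor_of_mem hL hs).symm.trans (floor_of_mem hL hs'))
  rw [← lintegral_iUnion (fun n => measurableSet_Ico) h2, h1, Measure.restrict_univ]

/-! ### One node -/

theorem enorm_sq' (z : ℂ) : ‖z‖ₑ ^ 2 = ENNReal.ofReal (‖z‖ ^ 2) := by
  rw [ENNReal.ofReal_pow (norm_nonneg _), ofReal_norm]

theorem sum_sq_le (S : Finset ℕ) (x y : ℕ → ℂ) :
    ‖∑ j ∈ S, x j‖ₑ ^ 2 ≤ 2 * ‖∑ j ∈ S, y j‖ₑ ^ 2 +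
      2 * S.card * ∑ j ∈ S, ‖x j - y j‖ₑ ^ 2 := by
  have h1 : ‖∑ j ∈ S, x j‖ ^ 2 ≤ 2 * ‖∑ j ∈ S, y j‖ ^ 2 +
      2 * S.card * ∑ j ∈ S, ‖x j - y j‖ ^ 2 := by
    have e1 : ∑ j ∈ S, x j = ∑ j ∈ S, y j + ∑ j ∈ S, (x j - y j) := by
      rw [← Finset.sum_add_distrib]
      exact Finset.sum_congr rfl fun j _ => by ring
    have e2 : ‖∑ j ∈ S, (x j - y j)‖ ≤ ∑ j ∈ S, ‖x j - y j‖ := norm_sum_le _ _
    have e3 : (∑ j ∈ S, ‖x j - y j‖) ^ 2 ≤ S.card * ∑ j ∈ S, ‖x j - y j‖ ^ 2 :=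
      sq_sum_le_card_mul_sum_sq
    have e4 : ‖∑ j ∈ S, x j‖ ≤ ‖∑ j ∈ S, y j‖ + ∑ j ∈ S, ‖x j - y j‖ := by
      rw [e1]
      exact (norm_add_le _ _).trans (by linarith)
    have e5 : 0 ≤ ‖∑ j ∈ S, x j‖ := norm_nonneg _
    nlinarith [sq_nonneg (‖∑ j ∈ S, y j‖ - ∑ j ∈ S, ‖x j - y j‖),
      mul_self_le_mul_self e5 e4]
  calc ‖∑ j ∈ S, x j‖ₑ ^ 2 = ENNReal.ofReal (‖∑ j ∈ S, x j‖ ^ 2) := enorm_sq' _
    _ ≤ ENNReal.ofReal (2 * ‖∑ j ∈ S, y j‖ ^ 2 +
      2 * S.card * ∑ j ∈ S, ‖x j - y j‖ ^ 2) := ENNReal.ofReal_le_ofReal h1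
    _ = _ := by
      rw [ENNReal.ofReal_add (by positivity) (by positivity),
        ENNReal.ofReal_mul (by norm_num), ENNReal.ofReal_mul (by positivity),
        ENNReal.ofReal_mul (by norm_num),
        ENNReal.ofReal_sum_of_nonneg (fun i _ => by positivity), enorm_sq']
      simp only [enorm_sq', ENNReal.ofReal_ofNat, ENNReal.ofReal_natCast]

theorem enorm_add_sq_le (x y : ℂ) : ‖x + y‖ₑ ^ 2 ≤ 2 * (‖x‖ₑ ^ 2 + ‖y‖ₑ ^ 2) := by
  have h1 : ‖x + y‖ ^ 2 ≤ 2 * (‖x‖ ^ 2 + ‖y‖ ^ 2) := by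
    have := norm_add_le x y
    have h0 := norm_nonneg (x + y)
    nlinarith [sq_nonneg (‖x‖ - ‖y‖), mul_self_le_mul_self h0 this]
  rw [enorm_sq', enorm_sq', enorm_sq', ← ENNReal.ofReal_add (by positivity) (by positivity)]
  calc _ ≤ ENNReal.ofReal (2 * (‖x‖ ^ 2 + ‖y‖ ^ 2)) := ENNReal.ofReal_le_ofReal h1
    _ = _ := by rw [ENNReal.ofReal_mul (by norm_num)]; simp

/-- the martingale part -/
noncomputable def Dt (L0 : ℝ) (N : ℕ) (G : ℕ → ℝ → ℂ) (j : ℕ) (s : ℝ) : ℂ :=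
  avgC (L0 * N ^ (j - 1)) (G j) s - avgC (L0 * N ^ j) (G j) s

theorem Dt_meas (L0 : ℝ) (N : ℕ) (G : ℕ → ℝ → ℂ) (j : ℕ) : Measurable (Dt L0 N G j) :=
  (avgC_meas _ _).sub (avgC_meas _ _)

theorem pow_step (L0 : ℝ) (N : ℕ) {j : ℕ} (hj : 1 ≤ j) :
    L0 * (N : ℝ) ^ j = L0 * (N : ℝ) ^ (j - 1) * N := by
  obtain ⟨i, rfl⟩ : ∃ i, j = i + 1 := ⟨j - 1, by omega⟩
  rw [Nat.add_sub_cancel, pow_succ]
  ring

theorem avgC_congr_floor {L : ℝ} (G : ℝ → ℂ) {s s' : ℝ} (h : ⌊s / L⌋ = ⌊s' / L⌋) :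
    avgC L G s = avgC L G s' := by
  unfold avgC
  rw [h]

theorem Dt_const (L0 : ℝ) (N : ℕ) (G : ℕ → ℝ → ℂ) {j : ℕ} (hj : 1 ≤ j) {s s' : ℝ}
    (h : ⌊s / (L0 * (N : ℝ) ^ (j - 1))⌋ = ⌊s' / (L0 * (N : ℝ) ^ (j - 1))⌋) :
    Dt L0 N G j s = Dt L0 N G j s' := by
  have h2 : ⌊s / (L0 * (N : ℝ) ^ j)⌋ = ⌊s' / (L0 * (N : ℝ) ^ j)⌋ := by
    rw [pow_step L0 N hj, floor_mul, floor_mul, h]
  unfold Dt
  rw [avgC_congr_floor _ h, avgC_congr_floor _ h2]

theorem avgC_intble {L : ℝ} (hL : 0 < L) (G : ℝ → ℂ) (M : ℝ) (n : ℤ) :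
    IntegrableOn (avgC L G) (Ico (M * n) (M * (n + 1))) volume := by
  -- finitely many values on a bounded set
  have hb : ∃ B : ℝ, ∀ s ∈ Ico (M * n) (M * (n + 1)), ‖avgC L G s‖ ≤ B := by
    let W : Finset ℤ := Finset.Icc ⌊(M * n) / L⌋ ⌊(M * (n + 1)) / L⌋
    let F : ℤ → ℂ := fun n => ((L⁻¹ : ℝ) : ℂ) * ∫ t in Ico (L * n) (L * (n + 1)), G t
    refine ⟨∑ i ∈ W, ‖F i‖, fun s hs => ?_⟩
    have h1 : ⌊s / L⌋ ∈ W := by
      rw [Finset.mem_Icc]
      constructor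
      · exact Int.floor_le_floor (by gcongr; exact hs.1)
      · exact Int.floor_le_floor (by gcongr; exact hs.2.le)
    have h2 : avgC L G s = F ⌊s / L⌋ := rfl
    rw [h2]
    exact Finset.single_le_sum (f := fun i => ‖F i‖) (fun i _ => norm_nonneg _) h1
  obtain ⟨B, hB⟩ := hb
  refine Measure.integrableOn_of_bounded (M := B) ?_ (avgC_meas L G).aestronglyMeasurable ?_
  · rw [Real.volume_Ico]
    exact ENNReal.ofReal_ne_top
  · exact (ae_restrict_iff' measurableSet_Ico).2 (Filter.Eventually.of_forall hB)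

theorem Dt_avg {L0 : ℝ} (hL0 : 0 < L0) {N : ℕ} (hN : 1 ≤ N) {G : ℕ → ℝ → ℂ}
    (hG : ∀ j, Continuous (G j)) {j : ℕ} (hj : 1 ≤ j) (s : ℝ) :
    avgC (L0 * (N : ℝ) ^ j) (Dt L0 N G j) s = 0 := by
  have hN0 : (0 : ℝ) < N := by exact_mod_cast hN
  have hL1 : 0 < L0 * (N : ℝ) ^ (j - 1) := by positivity
  have hL2 : 0 < L0 * (N : ℝ) ^ j := by positivity
  have h1 : avgC (L0 * (N : ℝ) ^ j) (avgC (L0 * (N : ℝ) ^ (j - 1)) (G j)) s =
      avgC (L0 * (N : ℝ) ^ j) (G j) s := by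
    rw [pow_step L0 N hj]
    exact avgC_tower hL1 hN (hG j) s
  have h2 : avgC (L0 * (N : ℝ) ^ j) (avgC (L0 * (N : ℝ) ^ j) (G j)) s =
      avgC (L0 * (N : ℝ) ^ j) (G j) s := by
    have := avgC_tower hL2 le_rfl (hG j) s
    rwa [Nat.cast_one, mul_one] at this
  have h3 : avgC (L0 * (N : ℝ) ^ j) (Dt L0 N G j) s =
      avgC (L0 * (N : ℝ) ^ j) (avgC (L0 * (N : ℝ) ^ (j - 1)) (G j)) s -
        avgC (L0 * (N : ℝ) ^ j) (avgC (L0 * (N : ℝ) ^ j) (G j)) s := by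
    change ((((L0 * (N : ℝ) ^ j)⁻¹ : ℝ)) : ℂ) * (∫ t in Ico _ _,
      (avgC (L0 * (N : ℝ) ^ (j - 1)) (G j) t - avgC (L0 * (N : ℝ) ^ j) (G j) t)) = _
    rw [integral_sub (avgC_intble hL1 _ _ _) (avgC_intble hL2 _ _ _), mul_sub]
    rfl
  rw [h3, h1, h2, sub_self]

/-- the constant of the martingale lemma -/
noncomputable def Kc (ρ : ℝ) : ℝ≥0∞ := ENNReal.ofReal (4 * (1 + Real.log (1 / (ρ / 2))) ^ 2)

/-- one cell -/
theorem cell_bound (hBEL : tBEL) {L0 : ℝ} (hL0 : 0 < L0) {N : ℕ} (hN : 1 ≤ N) {k : ℕ} {ρ : ℝ}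
    (hρ : 0 < ρ) (hρ1 : ρ ≤ 1) {om : ℝ → ℝ≥0∞} (hom : Measurable om) (hom1 : ∀ s, om s ≤ 1)
    {G : ℕ → ℝ → ℂ} (hG : ∀ j, Continuous (G j)) {E : ℕ → ℝ → ℝ≥0∞}
    (herr : ∀ j, 1 ≤ j → j ≤ k → ∀ s, ‖G j s - Dt L0 N G j s‖ₑ ^ 2 ≤ E j s) (n : ℤ) :
    ∫⁻ s in Ico (L0 * N ^ k * n) (L0 * N ^ k * (n + 1)),
      om s * ‖∑ j ∈ Finset.Icc 1 k, Dt L0 N G j s‖ₑ ^ 2 ≤
    ∑ j ∈ Finset.Icc 1 k, ∫⁻ s in Ico (L0 * N ^ k * n) (L0 * N ^ k * (n + 1)),
      2 * Kc ρ * ((avgc (L0 * N ^ (j - 1)) om s + avgc (L0 * N ^ j) om s +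
        2 * ENNReal.ofReal ρ) * (‖G j s‖ₑ ^ 2 + E j s)) := by
  have hN0 : (0 : ℝ) < N := by exact_mod_cast hN
  let ω : ℝ → ℝ := fun s => ((om s).toReal + ρ) / 2
  have hωm : Measurable ω := (hom.ennreal_toReal.add_const ρ).div_const 2
  have htr : ∀ s, (om s).toReal ≤ 1 := by
    intro s
    have := ENNReal.toReal_mono ENNReal.one_ne_top (hom1 s)
    simpa using this
  have hω : ∀ s, ρ / 2 ≤ ω s ∧ ω s ≤ 1 := by
    intro s
    have h0 : 0 ≤ (om s).toReal := ENNReal.toReal_nonneg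
    constructor
    · simp only [ω]; linarith
    · simp only [ω]; linarith [htr s]
  have hωe : ∀ s, 2 * ENNReal.ofReal (ω s) = om s + ENNReal.ofReal ρ := by
    intro s
    have h1 : (2 : ℝ≥0∞) = ENNReal.ofReal 2 := by simp
    rw [h1, ← ENNReal.ofReal_mul (by norm_num)]
    have h2 : 2 * ω s = (om s).toReal + ρ := by simp only [ω]; ring
    rw [h2, ENNReal.ofReal_add ENNReal.toReal_nonneg hρ.le, ENNReal.ofReal_toReal]
    exact ne_top_of_le_ne_top ENNReal.one_ne_top (hom1 s)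
  have havg : ∀ (L : ℝ), 0 < L → ∀ s, 2 * avgc L (fun s => ENNReal.ofReal (ω s)) s =
      avgc L om s + ENNReal.ofReal ρ := by
    intro L hL s
    rw [← avgc_smul L hωm.ennreal_ofReal]
    have h1 : (fun t => 2 * ENNReal.ofReal (ω t)) = fun t => om t + ENNReal.ofReal ρ := by
      funext t
      exact hωe t
    rw [h1, avgc_add L hom, avgc_const hL]
  have hb := hBEL N k L0 (ρ / 2) (Dt L0 N G) ω n hN hL0 (by positivity) hωm hω
    (fun j hj _ s s' h => Dt_const L0 N G hj h) (fun j hj _ s => Dt_avg hL0 hN hG hj s)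
  calc ∫⁻ s in Ico (L0 * N ^ k * n) (L0 * N ^ k * (n + 1)),
      om s * ‖∑ j ∈ Finset.Icc 1 k, Dt L0 N G j s‖ₑ ^ 2
      ≤ ∫⁻ s in Ico (L0 * N ^ k * n) (L0 * N ^ k * (n + 1)),
        2 * (ENNReal.ofReal (ω s) * ‖∑ j ∈ Finset.Icc 1 k, Dt L0 N G j s‖ₑ ^ 2) := by
        apply lintegral_mono
        intro s
        beta_reduce
        rw [← mul_assoc, hωe]
        gcongr
        exact le_self_add
    _ = 2 * ∫⁻ s in Ico (L0 * N ^ k * n) (L0 * N ^ k * (n + 1)),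
        ENNReal.ofReal (ω s) * ‖∑ j ∈ Finset.Icc 1 k, Dt L0 N G j s‖ₑ ^ 2 := by
        rw [lintegral_const_mul]
        exact hωm.ennreal_ofReal.mul
          ((Finset.measurable_sum _ (fun j _ => Dt_meas L0 N G j)).enorm.pow_const 2)
    _ ≤ 2 * (Kc ρ * ∑ j ∈ Finset.Icc 1 k,
        ∫⁻ s in Ico (L0 * N ^ k * n) (L0 * N ^ k * (n + 1)),
        (avgc (L0 * N ^ (j - 1)) (fun s => ENNReal.ofReal (ω s)) s +
          avgc (L0 * N ^ j) (fun s => ENNReal.ofReal (ω s)) s) * ‖Dt L0 N G j s‖ₑ ^ 2) := by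
        gcongr
        exact hb
    _ = ∑ j ∈ Finset.Icc 1 k, ∫⁻ s in Ico (L0 * N ^ k * n) (L0 * N ^ k * (n + 1)),
        Kc ρ * ((avgc (L0 * N ^ (j - 1)) om s + avgc (L0 * N ^ j) om s +
          2 * ENNReal.ofReal ρ) * ‖Dt L0 N G j s‖ₑ ^ 2) := by
        rw [← mul_assoc, mul_comm 2 (Kc ρ), mul_assoc, Finset.mul_sum, Finset.mul_sum]
        refine Finset.sum_congr rfl fun j _ => ?_
        rw [← lintegral_const_mul, ← lintegral_const_mul]
        · apply lintegral_congr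
          intro s
          have e1 := havg (L0 * N ^ (j - 1)) (by positivity) s
          have e2 := havg (L0 * N ^ j) (by positivity) s
          rw [← mul_assoc 2, mul_add 2, e1, e2]
          ring
        · exact ((((avgc_meas _ _).add (avgc_meas _ _)).mul
            ((Dt_meas L0 N G j).enorm.pow_const 2))).const_mul 2
        · exact (((avgc_meas _ _).add (avgc_meas _ _)).mul
            ((Dt_meas L0 N G j).enorm.pow_const 2))
    _ ≤ _ := by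
        refine Finset.sum_le_sum fun j hj => ?_
        obtain ⟨hj1, hj2⟩ := Finset.mem_Icc.1 hj
        apply lintegral_mono
        intro s
        have e1 : ‖Dt L0 N G j s‖ₑ ^ 2 ≤ 2 * (‖G j s‖ₑ ^ 2 + E j s) := by
          have h1 := enorm_add_sq_le (G j s) (-(G j s - Dt L0 N G j s))
          have h2 : G j s + -(G j s - Dt L0 N G j s) = Dt L0 N G j s := by ring
          rw [h2, enorm_neg] at h1
          refine h1.trans ?_
          gcongr
          exact herr j hj1 hj2 s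
        calc Kc ρ * ((avgc (L0 * N ^ (j - 1)) om s + avgc (L0 * N ^ j) om s +
              2 * ENNReal.ofReal ρ) * ‖Dt L0 N G j s‖ₑ ^ 2)
            ≤ Kc ρ * ((avgc (L0 * N ^ (j - 1)) om s + avgc (L0 * N ^ j) om s +
              2 * ENNReal.ofReal ρ) * (2 * (‖G j s‖ₑ ^ 2 + E j s))) := by gcongr
          _ = _ := by ring

/-- one node -/
theorem node_bound (hBEL : tBEL) {L0 : ℝ} (hL0 : 0 < L0) {N : ℕ} (hN : 1 ≤ N) {k : ℕ} {ρ : ℝ}
    (hρ : 0 < ρ) (hρ1 : ρ ≤ 1) {om : ℝ → ℝ≥0∞} (hom : Measurable om) (hom1 : ∀ s, om s ≤ 1)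
    {F : ℤ → ℝ≥0∞} {B : ℝ≥0∞}
    (hpop : ∀ s, om s ≠ 0 → 1 ≤ B * F ⌊s / (L0 * (N : ℝ) ^ k)⌋)
    {G : ℕ → ℝ → ℂ} (hG : ∀ j, Continuous (G j)) {E : ℕ → ℝ → ℝ≥0∞}
    (hE : ∀ j, Measurable (E j))
    (herr : ∀ j, 1 ≤ j → j ≤ k → ∀ s, ‖G j s - Dt L0 N G j s‖ₑ ^ 2 ≤ E j s) :
    ∫⁻ s, om s * ‖∑ j ∈ Finset.Icc 1 k, G j s‖ₑ ^ 2 ≤
    ∑ j ∈ Finset.Icc 1 k, ∫⁻ s, (4 * Kc ρ * ((avgc (L0 * N ^ (j - 1)) om s +
      avgc (L0 * N ^ j) om s + 2 * ENNReal.ofReal ρ * (B * F ⌊s / (L0 * (N : ℝ) ^ k)⌋)) *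
        (‖G j s‖ₑ ^ 2 + E j s)) + 2 * k * (om s * E j s)) := by
  have hN0 : (0 : ℝ) < N := by exact_mod_cast hN
  have hLk : 0 < L0 * (N : ℝ) ^ k := by positivity
  have hDm := Dt_meas L0 N G
  -- the martingale part
  have hmain : ∫⁻ s, om s * ‖∑ j ∈ Finset.Icc 1 k, Dt L0 N G j s‖ₑ ^ 2 ≤
      ∑ j ∈ Finset.Icc 1 k, ∫⁻ s, 2 * Kc ρ * ((avgc (L0 * N ^ (j - 1)) om s +
      avgc (L0 * N ^ j) om s + 2 * ENNReal.ofReal ρ * (B * F ⌊s / (L0 * (N : ℝ) ^ k)⌋)) *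
        (‖G j s‖ₑ ^ 2 + E j s)) := by
    have hmeas : ∀ j, Measurable (fun s => 2 * Kc ρ * ((avgc (L0 * N ^ (j - 1)) om s +
      avgc (L0 * N ^ j) om s + 2 * ENNReal.ofReal ρ * (B * F ⌊s / (L0 * (N : ℝ) ^ k)⌋)) *
        (‖G j s‖ₑ ^ 2 + E j s))) := by
      intro j
      refine Measurable.const_mul ?_ _
      refine Measurable.mul ?_ (((hG j).measurable.enorm.pow_const 2).add (hE j))
      exact ((avgc_meas _ _).add (avgc_meas _ _)).add
        (((meas_step _ F).const_mul B).const_mul _)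
    rw [← lintegral_finsetSum _ (fun j _ => hmeas j), lintegral_cells hLk,
      lintegral_cells hLk (fun s => ∑ j ∈ Finset.Icc 1 k, 2 * Kc ρ * _)]
    refine ENNReal.tsum_le_tsum fun n => ?_
    by_cases hp : 1 ≤ B * F n
    · refine (cell_bound hBEL hL0 hN hρ hρ1 hom hom1 hG herr n).trans ?_
      rw [← lintegral_finsetSum]
      · refine setLIntegral_mono' measurableSet_Ico fun s hs => ?_
        refine Finset.sum_le_sum fun j _ => ?_
        rw [floor_of_mem hLk hs]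
        have h3 : 2 * ENNReal.ofReal ρ ≤ 2 * ENNReal.ofReal ρ * (B * F n) :=
          calc 2 * ENNReal.ofReal ρ = 2 * ENNReal.ofReal ρ * 1 := (mul_one _).symm
            _ ≤ 2 * ENNReal.ofReal ρ * (B * F n) := by gcongr
        generalize 2 * ENNReal.ofReal ρ * (B * F n) = Y at h3 ⊢
        gcongr
      · intro j _
        refine Measurable.const_mul ?_ _
        refine Measurable.mul ?_ (((hG j).measurable.enorm.pow_const 2).add (hE j))
        exact ((avgc_meas _ _).add (avgc_meas _ _)).add_const _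
    · have h0 : ∫⁻ s in Ico (L0 * (N : ℝ) ^ k * n) (L0 * (N : ℝ) ^ k * (n + 1)),
          om s * ‖∑ j ∈ Finset.Icc 1 k, Dt L0 N G j s‖ₑ ^ 2 = 0 := by
        rw [setLIntegral_congr_fun measurableSet_Ico (g := fun _ => 0)]
        · simp
        · intro s hs
          have h1 : om s = 0 := by
            by_contra hne
            apply hp
            have := hpop s hne
            rwa [floor_of_mem hLk hs] at this
          simp only [h1, zero_mul]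
      rw [h0]
      exact zero_le
  calc ∫⁻ s, om s * ‖∑ j ∈ Finset.Icc 1 k, G j s‖ₑ ^ 2
      ≤ ∫⁻ s, (2 * (om s * ‖∑ j ∈ Finset.Icc 1 k, Dt L0 N G j s‖ₑ ^ 2) +
        ∑ j ∈ Finset.Icc 1 k, 2 * k * (om s * E j s)) := by
        apply lintegral_mono
        intro s
        have h1 := sum_sq_le (Finset.Icc 1 k) (fun j => G j s) (fun j => Dt L0 N G j s)
        simp only [Nat.card_Icc, Nat.add_sub_cancel] at h1
        have h2 : ∑ j ∈ Finset.Icc 1 k, ‖G j s - Dt L0 N G j s‖ₑ ^ 2 ≤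
            ∑ j ∈ Finset.Icc 1 k, E j s := by
          refine Finset.sum_le_sum fun j hj => ?_
          obtain ⟨hj1, hj2⟩ := Finset.mem_Icc.1 hj
          exact herr j hj1 hj2 s
        calc om s * ‖∑ j ∈ Finset.Icc 1 k, G j s‖ₑ ^ 2
            ≤ om s * (2 * ‖∑ j ∈ Finset.Icc 1 k, Dt L0 N G j s‖ₑ ^ 2 +
              2 * k * ∑ j ∈ Finset.Icc 1 k, E j s) := by
              gcongr
              refine h1.trans ?_
              gcongr
          _ = _ := by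
              rw [mul_add, Finset.mul_sum, Finset.mul_sum]
              congr 1
              · ring
              · exact Finset.sum_congr rfl fun j _ => by ring
    _ = 2 * (∫⁻ s, om s * ‖∑ j ∈ Finset.Icc 1 k, Dt L0 N G j s‖ₑ ^ 2) +
        ∑ j ∈ Finset.Icc 1 k, ∫⁻ s, 2 * k * (om s * E j s) := by
        rw [lintegral_add_left, lintegral_const_mul, lintegral_finsetSum]
        · exact fun j _ => (hom.mul (hE j)).const_mul _
        · exact hom.mul ((Finset.measurable_sum _ (fun j _ => hDm j)).enorm.pow_const 2)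
        · exact (hom.mul ((Finset.measurable_sum _ (fun j _ => hDm j)).enorm.pow_const 2)).const_mul _
    _ ≤ 2 * (∑ j ∈ Finset.Icc 1 k, ∫⁻ s, 2 * Kc ρ * ((avgc (L0 * N ^ (j - 1)) om s +
      avgc (L0 * N ^ j) om s + 2 * ENNReal.ofReal ρ * (B * F ⌊s / (L0 * (N : ℝ) ^ k)⌋)) *
        (‖G j s‖ₑ ^ 2 + E j s))) + ∑ j ∈ Finset.Icc 1 k, ∫⁻ s, 2 * k * (om s * E j s) := by
        gcongr
    _ = _ := by
        rw [Finset.mul_sum, ← Finset.sum_add_distrib]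
        refine Finset.sum_congr rfl fun j _ => ?_
        have hm1 : Measurable (fun s => 2 * Kc ρ * ((avgc (L0 * N ^ (j - 1)) om s +
          avgc (L0 * N ^ j) om s + 2 * ENNReal.ofReal ρ *
            (B * F ⌊s / (L0 * (N : ℝ) ^ k)⌋)) * (‖G j s‖ₑ ^ 2 + E j s))) := by
          refine Measurable.const_mul ?_ _
          refine Measurable.mul ?_ (((hG j).measurable.enorm.pow_const 2).add (hE j))
          exact ((avgc_meas _ _).add (avgc_meas _ _)).add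
            (((meas_step _ F).const_mul B).const_mul _)
        rw [← lintegral_const_mul _ hm1, ← lintegral_add_left (hm1.const_mul 2)]
        apply lintegral_congr
        intro s
        ring

/-! ### Pieces -/

/-- the part of `H` in the intervals of `J l w` -/
noncomputable def Hn (sg : ℝ) (J : ℕ → ℕ → Finset ℕ) (H : ℝ → ℂ) (l w : ℕ) (ζ : ℝ) : ℂ :=
  ∑ c ∈ J l w, {ζ : ℝ | cdr sg l c ζ}.indicator H ζ

theorem cdr_meas (sg : ℝ) (l c : ℕ) : MeasurableSet {ζ : ℝ | cdr sg l c ζ} := by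
  have hm : Measurable (fun ζ : ℝ => 4 ^ l * (ζ - sg)) := by fun_prop
  exact (measurableSet_le measurable_const hm).inter (measurableSet_lt hm measurable_const)

theorem cdr_unique {sg : ℝ} {l c c' : ℕ} {ζ : ℝ} (h : cdr sg l c ζ) (h' : cdr sg l c' ζ) :
    c = c' := by
  have h1 : (c : ℝ) < c' + 1 := h.1.trans_lt h'.2
  have h2 : (c' : ℝ) < c + 1 := h'.1.trans_lt h.2
  have h3 : c < c' + 1 := by exact_mod_cast h1
  have h4 : c' < c + 1 := by exact_mod_cast h2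
  omega

theorem Hn_cases (sg : ℝ) (J : ℕ → ℕ → Finset ℕ) (H : ℝ → ℂ) (l w : ℕ) (ζ : ℝ) :
    Hn sg J H l w ζ = 0 ∨ (Hn sg J H l w ζ = H ζ ∧ ∃ c ∈ J l w, cdr sg l c ζ) := by
  by_cases h : ∃ c ∈ J l w, cdr sg l c ζ
  · right
    obtain ⟨c, hc, hcd⟩ := h
    refine ⟨?_, c, hc, hcd⟩
    unfold Hn
    rw [Finset.sum_eq_single c]
    · exact indicator_of_mem (by exact hcd) H
    · intro c' _ hne
      exact indicator_of_notMem (s := {ζ : ℝ | cdr sg l c' ζ})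
        (fun h' => hne (cdr_unique h' hcd)) H
    · exact fun h' => absurd hc h'
  · left
    push Not at h
    exact Finset.sum_eq_zero fun c hc =>
      indicator_of_notMem (s := {ζ : ℝ | cdr sg l c ζ}) (h c hc) H

theorem ind_Bd1 {H : ℝ → ℂ} (hH : Bd1 H) {S : Set ℝ} (hS : MeasurableSet S) :
    Bd1 (S.indicator H) := by
  obtain ⟨hm, ⟨B, hB⟩, R, hR⟩ := hH
  refine ⟨hm.indicator hS, ⟨B, fun τ => ?_⟩, R, fun τ hτ => hR τ ?_⟩
  · exact (norm_indicator_le_norm_self H τ).trans (hB τ)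
  · intro h0
    apply hτ
    by_cases h : τ ∈ S
    · rw [indicator_of_mem h, h0]
    · rw [indicator_of_notMem h]

theorem Hn_Bd1 {sg : ℝ} {J : ℕ → ℕ → Finset ℕ} {H : ℝ → ℂ} (hH : Bd1 H) (l w : ℕ) :
    Bd1 (Hn sg J H l w) := by
  obtain ⟨hm, ⟨B, hB⟩, R, hR⟩ := hH
  refine ⟨?_, ⟨B, fun τ => ?_⟩, R, fun τ hτ => ?_⟩
  · exact Finset.measurable_fun_sum _ (fun c _ => hm.indicator (cdr_meas sg l c))
  · rcases Hn_cases sg J H l w τ with h | h
    · rw [h, norm_zero]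
      exact (norm_nonneg _).trans (hB 0)
    · rw [h.1]
      exact hB τ
  · rcases Hn_cases sg J H l w τ with h | h
    · exact absurd h hτ
    · rw [h.1] at hτ
      exact hR τ hτ

theorem norm_ee (t : ℝ) : ‖ee t‖ = 1 := by
  have h : (2 * Real.pi * Complex.I * (t : ℂ)) = ((2 * Real.pi * t : ℝ) : ℂ) * Complex.I := by
    push_cast
    ring
  rw [ee, h, Complex.norm_exp_ofReal_mul_I]

theorem cont_ee : Continuous ee := by
  unfold ee
  fun_prop

theorem Dj_eq {sg : ℝ} {J : ℕ → ℕ → Finset ℕ} {H : ℝ → ℂ} (hH : Bd1 H) (l w : ℕ) (s : ℝ) :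
    Dj sg J H l w s = Ex1 (Hn sg J H l w) s := by
  unfold Dj Pc Ex1 Hn
  rw [← integral_finsetSum]
  · refine integral_congr_ae (Filter.Eventually.of_forall fun τ => ?_)
    simp only [Finset.sum_mul]
  · intro c _
    have h1 : Integrable ({ζ : ℝ | cdr sg l c ζ}.indicator H) :=
      memLp_one_iff_integrable.1 (Pool.Agent.KSP.Base_.bd1_memLp (ind_Bd1 hH (cdr_meas sg l c)) 1)
    refine h1.mul_bdd (c := 1) ?_ ?_
    · exact (cont_ee.comp (continuous_const.mul continuous_id)).aestronglyMeasurable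
    · exact Filter.Eventually.of_forall fun τ => (norm_ee _).le

theorem Dj_cont {sg : ℝ} {J : ℕ → ℕ → Finset ℕ} {H : ℝ → ℂ} (hH : Bd1 H) (l w : ℕ) :
    Continuous (Dj sg J H l w) := by
  have h : Dj sg J H l w = Ex1 (Hn sg J H l w) := funext fun s => Dj_eq hH l w s
  rw [h]
  exact (pPl1 _ (Hn_Bd1 hH l w)).1

theorem Dj_norm {sg : ℝ} {J : ℕ → ℕ → Finset ℕ} {H : ℝ → ℂ} (hH : Bd1 H) (l w : ℕ) :
    ∫⁻ s, ‖Dj sg J H l w s‖ₑ ^ 2 = n1 (Hn sg J H l w) := by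
  have h : Dj sg J H l w = Ex1 (Hn sg J H l w) := funext fun s => Dj_eq hH l w s
  rw [h]
  exact (pPl1 _ (Hn_Bd1 hH l w)).2

/-- the pieces of one level are almost disjoint -/
theorem sum_n1 {sg : ℝ} {J : ℕ → ℕ → Finset ℕ} {H : ℝ → ℂ} (hH : Bd1 H) (l M : ℕ)
    (hJ : ∀ w, ∀ c ∈ J l w, c / 4 = w / 4) :
    ∑ w ∈ Finset.range M, n1 (Hn sg J H l w) ≤ 4 * n1 H := by
  unfold n1
  rw [← lintegral_finsetSum _ (fun w _ => (Hn_Bd1 hH l w).1.enorm.pow_const 2),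
    ← lintegral_const_mul _ (hH.1.enorm.pow_const 2)]
  apply lintegral_mono
  intro ζ
  beta_reduce
  by_cases h : ∃ c, cdr sg l c ζ
  · obtain ⟨c, hc⟩ := h
    have h1 : ∀ w ∈ Finset.range M, ‖Hn sg J H l w ζ‖ₑ ^ 2 ≤
        if w / 4 = c / 4 then ‖H ζ‖ₑ ^ 2 else 0 := by
      intro w _
      rcases Hn_cases sg J H l w ζ with h2 | ⟨h2, c', hc', hcd⟩
      · rw [h2]
        simp
      · have h3 : w / 4 = c / 4 := by
          rw [← hJ w c' hc', cdr_unique hcd hc]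
        rw [if_pos h3, h2]
    refine (Finset.sum_le_sum h1).trans ?_
    rw [← Finset.sum_filter, Finset.sum_const, nsmul_eq_mul]
    have h4 : ((Finset.range M).filter (fun w => w / 4 = c / 4)).card ≤ 4 := by
      have h5 : (Finset.range M).filter (fun w => w / 4 = c / 4) ⊆
          Finset.Ico (4 * (c / 4)) (4 * (c / 4) + 4) := by
        intro w hw
        rw [Finset.mem_filter] at hw
        rw [Finset.mem_Ico]
        omega
      have h6 := Finset.card_le_card h5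
      rw [Nat.card_Ico] at h6
      omega
    gcongr
    exact_mod_cast h4
  · have h1 : ∀ w ∈ Finset.range M, ‖Hn sg J H l w ζ‖ₑ ^ 2 = 0 := by
      intro w _
      rcases Hn_cases sg J H l w ζ with h2 | ⟨h2, c', hc', hcd⟩
      · rw [h2]
        simp
      · exact absurd ⟨c', hcd⟩ h
    rw [Finset.sum_eq_zero h1]
    exact zero_le

theorem gap_of_fr {η x y : ℝ} {c w : ℕ} (hx1 : (c : ℝ) ≤ x) (hx2 : x < c + 1) (hfr : fr η x)
    (hy1 : (w : ℝ) ≤ y) (hy2 : y < w + 1) (hne : c ≠ w) : η ≤ |x - y| := by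
  have hfl : ⌊x⌋ = (c : ℤ) := by
    rw [Int.floor_eq_iff]
    exact ⟨by exact_mod_cast hx1, by exact_mod_cast hx2⟩
  have hf : Int.fract x = x - c := by
    rw [← Int.self_sub_floor, hfl]
    norm_cast
  unfold fr at hfr
  rw [hf] at hfr
  rcases lt_or_gt_of_ne hne with h | h
  · have h1 : (c : ℝ) + 1 ≤ w := by exact_mod_cast h
    rw [abs_sub_comm]
    exact (by linarith [hfr.2] : η ≤ y - x).trans (le_abs_self _)
  · have h1 : (w : ℝ) + 1 ≤ c := by exact_mod_cast h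
    exact (by linarith [hfr.1] : η ≤ x - y).trans (le_abs_self _)

/-- demodulated function -/
noncomputable def GG (sg : ℝ) (J : ℕ → ℕ → Finset ℕ) (H : ℝ → ℂ) (l w : ℕ) (r s : ℝ) : ℂ :=
  ee (-(r * s)) * Dj sg J H l w s

theorem GG_norm (sg : ℝ) (J : ℕ → ℕ → Finset ℕ) (H : ℝ → ℂ) (l w : ℕ) (r s : ℝ) :
    ‖GG sg J H l w r s‖ₑ = ‖Dj sg J H l w s‖ₑ := by
  rw [GG, enorm_mul]
  have : ‖ee (-(r * s))‖ₑ = 1 := by
    rw [← ofReal_norm, norm_ee, ENNReal.ofReal_one]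
  rw [this, one_mul]

theorem GG_cont {sg : ℝ} {J : ℕ → ℕ → Finset ℕ} {H : ℝ → ℂ} (hH : Bd1 H) (l w : ℕ) (r : ℝ) :
    Continuous (GG sg J H l w r) := by
  unfold GG
  exact (cont_ee.comp (by fun_prop)).mul (Dj_cont hH l w)

theorem four_pow (l a : ℕ) : (4 : ℝ) ^ (l + 5 * a) = 4 ^ l * (2 ^ (4 * a) * 2 ^ (6 * a)) := by
  have h : (4 : ℝ) ^ (5 * a) = 2 ^ (4 * a) * 2 ^ (6 * a) := by
    rw [show (4 : ℝ) = 2 ^ 2 by norm_num, ← pow_mul, ← pow_add]
    congr 1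
    ring
  rw [pow_add, h]

/-- the error function of a node -/
theorem err_exists {CA CB : ℝ≥0}
    (hEA : ∀ (L b r0 : ℝ) (H : ℝ → ℂ), 0 < L → 0 < b → Bd1 H →
      (∀ ζ, H ζ ≠ 0 → |ζ - r0| ≤ b) → ∃ Φ : ℤ → ℝ≥0∞,
      (∀ r s, |r - r0| ≤ b →
        ‖ee (-(r * s)) * Ex1 H s - avgC L (fun s => ee (-(r * s)) * Ex1 H s) s‖ₑ ^ 2 ≤
          Φ ⌊s / L⌋) ∧
      ∫⁻ s, Φ ⌊s / L⌋ ≤ CA * ENNReal.ofReal ((L * b) ^ 2) * n1 H)
    (hEB : ∀ (L d : ℝ) (H : ℝ → ℂ), 0 < L → 0 < d → 1 ≤ L * d → Bd1 H →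
      ∃ Φ : ℤ → ℝ≥0∞,
      (∀ r s, (∀ ζ, H ζ ≠ 0 → d ≤ |ζ - r|) →
        ‖avgC L (fun s => ee (-(r * s)) * Ex1 H s) s‖ₑ ^ 2 ≤ Φ ⌊s / L⌋) ∧
      ∫⁻ s, Φ ⌊s / L⌋ ≤ CB * ENNReal.ofReal (1 / (L * d)) * n1 H)
    (a l w : ℕ) (sg : ℝ) (J : ℕ → ℕ → Finset ℕ) (H : ℝ → ℂ) (hH : Bd1 H)
    (hJ : ∀ c ∈ J l w, c / 4 = w / 4 ∧ c ≠ w)
    (hfr : ∀ ζ, H ζ ≠ 0 → fr (1 / 2 ^ (4 * a)) (4 ^ l * (ζ - sg))) :
    ∃ E : ℝ → ℝ≥0∞, Measurable E ∧
      (∀ r s, cdr sg l w r → ‖GG sg J H l w r s - (avgC (4 ^ l / 4 ^ (2 * a))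
        (GG sg J H l w r) s - avgC (4 ^ (l + 5 * a)) (GG sg J H l w r) s)‖ₑ ^ 2 ≤ E s) ∧
      ∫⁻ s, E s ≤ (32 * CA + 2 * CB) * ENNReal.ofReal (1 / 2 ^ (6 * a)) *
        n1 (Hn sg J H l w) := by
  have h4 : (0 : ℝ) < 4 ^ l := by positivity
  have hGe : ∀ r, (fun s => ee (-(r * s)) * Ex1 (Hn sg J H l w) s) = GG sg J H l w r := by
    intro r
    funext s
    rw [GG, Dj_eq hH]
  obtain ⟨Φ, hΦ1, hΦ2⟩ := hEA (4 ^ l / 4 ^ (2 * a)) (4 / 4 ^ l) (sg + w / 4 ^ l)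
    (Hn sg J H l w) (by positivity) (by positivity) (Hn_Bd1 hH l w) (by
      intro ζ hζ
      rcases Hn_cases sg J H l w ζ with h | ⟨-, c, hc, hcd⟩
      · exact absurd h hζ
      · have h1 := (hJ c hc).1
        have h2 : c ≤ w + 3 := by omega
        have h3 : w ≤ c + 3 := by omega
        have h2' : (c : ℝ) ≤ w + 3 := by exact_mod_cast h2
        have h3' : (w : ℝ) ≤ c + 3 := by exact_mod_cast h3
        have h5 : |4 ^ l * (ζ - sg) - w| ≤ 4 := by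
          rw [abs_le]
          constructor <;> linarith [hcd.1, hcd.2]
        have h6 : ζ - (sg + w / 4 ^ l) = (4 ^ l * (ζ - sg) - w) / 4 ^ l := by
          field_simp
          ring
        rw [h6, abs_div, abs_of_pos h4]
        gcongr)
  obtain ⟨Ψ, hΨ1, hΨ2⟩ := hEB (4 ^ (l + 5 * a)) (1 / 2 ^ (4 * a) / 4 ^ l) (Hn sg J H l w)
    (by positivity) (by positivity) (by
      have e1 : (4 : ℝ) ^ (l + 5 * a) * (1 / 2 ^ (4 * a) / 4 ^ l) = 2 ^ (6 * a) := by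
        rw [four_pow]
        field_simp
      rw [e1]
      exact one_le_pow₀ (by norm_num)) (Hn_Bd1 hH l w)
  refine ⟨fun s => 2 * (Φ ⌊s / (4 ^ l / 4 ^ (2 * a))⌋ + Ψ ⌊s / 4 ^ (l + 5 * a)⌋), ?_, ?_, ?_⟩
  · exact ((meas_step _ Φ).add (meas_step _ Ψ)).const_mul 2
  · intro r s hr
    have h1 := hΦ1 r s (by
      have h5 : |4 ^ l * (r - sg) - w| ≤ 4 := by
        rw [abs_le]
        constructor <;> linarith [hr.1, hr.2]
      have h6 : r - (sg + w / 4 ^ l) = (4 ^ l * (r - sg) - w) / 4 ^ l := by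
        field_simp
        ring
      rw [h6, abs_div, abs_of_pos h4]
      gcongr)
    have h2 := hΨ1 r s (by
      intro ζ hζ
      rcases Hn_cases sg J H l w ζ with h | ⟨h, c, hc, hcd⟩
      · exact absurd h hζ
      · rw [h] at hζ
        have h7 := gap_of_fr hcd.1 hcd.2 (hfr ζ hζ) hr.1 hr.2 (hJ c hc).2
        have h8 : ζ - r = (4 ^ l * (ζ - sg) - 4 ^ l * (r - sg)) / 4 ^ l := by
          field_simp
          ring
        rw [h8, abs_div, abs_of_pos h4]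
        gcongr)
    rw [hGe] at h1 h2
    have h3 : GG sg J H l w r s = ee (-(r * s)) * Ex1 (Hn sg J H l w) s :=
      (congrFun (hGe r) s).symm
    rw [← h3] at h1
    have h9 := enorm_add_sq_le (GG sg J H l w r s - avgC (4 ^ l / 4 ^ (2 * a))
      (GG sg J H l w r) s) (avgC (4 ^ (l + 5 * a)) (GG sg J H l w r) s)
    have h10 : GG sg J H l w r s - avgC (4 ^ l / 4 ^ (2 * a)) (GG sg J H l w r) s +
        avgC (4 ^ (l + 5 * a)) (GG sg J H l w r) s = GG sg J H l w r s -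
        (avgC (4 ^ l / 4 ^ (2 * a)) (GG sg J H l w r) s -
          avgC (4 ^ (l + 5 * a)) (GG sg J H l w r) s) := by ring
    rw [h10] at h9
    refine h9.trans ?_
    beta_reduce
    gcongr
  · have hm : Measurable (fun s : ℝ => Φ ⌊s / (4 ^ l / 4 ^ (2 * a))⌋ + Ψ ⌊s / 4 ^ (l + 5 * a)⌋) :=
      (meas_step _ Φ).add (meas_step _ Ψ)
    rw [lintegral_const_mul _ hm, lintegral_add_left (meas_step _ Φ)]
    have e1 : ((4 : ℝ) ^ l / 4 ^ (2 * a) * (4 / 4 ^ l)) ^ 2 = 16 * (1 / 2 ^ (8 * a)) := by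
      have e2 : (4 : ℝ) ^ l / 4 ^ (2 * a) * (4 / 4 ^ l) = 4 * (1 / 2 ^ (4 * a)) := by
        have : (4 : ℝ) ^ (2 * a) = 2 ^ (4 * a) := by
          have : (4 : ℝ) = 2 ^ 2 := by norm_num
          rw [this, ← pow_mul]
          congr 1
          ring
        rw [this]
        field_simp
      rw [e2, mul_pow, div_pow, ← pow_mul, one_pow]
      norm_num
      ring_nf
    have e3 : (16 : ℝ) * (1 / 2 ^ (8 * a)) ≤ 16 * (1 / 2 ^ (6 * a)) := by
      gcongr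
      · norm_num
      · omega
    have e4 : (1 : ℝ) / (4 ^ (l + 5 * a) * (1 / 2 ^ (4 * a) / 4 ^ l)) = 1 / 2 ^ (6 * a) := by
      congr 1
      rw [four_pow]
      field_simp
    rw [e1] at hΦ2
    rw [e4] at hΨ2
    have e5 : ENNReal.ofReal (16 * (1 / 2 ^ (8 * a))) ≤
        16 * ENNReal.ofReal (1 / 2 ^ (6 * a)) := by
      calc ENNReal.ofReal (16 * (1 / 2 ^ (8 * a)))
          ≤ ENNReal.ofReal (16 * (1 / 2 ^ (6 * a))) := ENNReal.ofReal_le_ofReal e3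
        _ = _ := by
          rw [ENNReal.ofReal_mul (by norm_num)]
          norm_num
    have f1 : ∫⁻ s : ℝ, Φ ⌊s / (4 ^ l / 4 ^ (2 * a))⌋ ≤
        CA * (16 * ENNReal.ofReal (1 / 2 ^ (6 * a))) * n1 (Hn sg J H l w) :=
      hΦ2.trans (by gcongr)
    calc 2 * ((∫⁻ s : ℝ, Φ ⌊s / (4 ^ l / 4 ^ (2 * a))⌋) + ∫⁻ s : ℝ, Ψ ⌊s / 4 ^ (l + 5 * a)⌋)
        ≤ 2 * (CA * (16 * ENNReal.ofReal (1 / 2 ^ (6 * a))) * n1 (Hn sg J H l w) +
          CB * ENNReal.ofReal (1 / 2 ^ (6 * a)) * n1 (Hn sg J H l w)) := by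
          gcongr
      _ = (32 * CA + 2 * CB) * ENNReal.ofReal (1 / 2 ^ (6 * a)) * n1 (Hn sg J H l w) := by
          ring

/-! ### The tree -/

theorem pb_mono {a lam e : ℕ} {χ : ℕ → ℝ → ℝ≥0∞} {k k' u : ℕ} {s : ℝ} (h : k ≤ k')
    (hp : pb a lam e χ k u s) : pb a lam e χ k' u s := by
  obtain ⟨i, h1, h2, h3⟩ := hp
  exact ⟨i, h1, h2.trans h, h3⟩

theorem pb_meas (a lam e : ℕ) (χ : ℕ → ℝ → ℝ≥0∞) (k u : ℕ) :
    MeasurableSet {s | pb a lam e χ k u s} := by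
  have h : {s | pb a lam e χ k u s} = ⋃ k' : ℕ, {s | 1 ≤ k' ∧ k' ≤ k ∧
      avgc (4 ^ (lam + 7 * a * k' + 5 * a))
        (chw e χ (lam + 7 * a * k') (u / 4 ^ (e - (lam + 7 * a * k')))) s <
        ENNReal.ofReal (1 / 2 ^ (20 * a))} := by
    ext s
    simp only [pb, mem_ofPred_eq, mem_iUnion]
  rw [h]
  exact MeasurableSet.iUnion fun k' => (MeasurableSet.const (1 ≤ k')).inter
    ((MeasurableSet.const (k' ≤ k)).inter (measurableSet_lt (avgc_meas _ _) measurable_const))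

/-- `χ u` where `k` is the last good index -/
noncomputable def xt (a lam e p : ℕ) (χ : ℕ → ℝ → ℝ≥0∞) (k u : ℕ) (s : ℝ) : ℝ≥0∞ :=
  open Classical in
  if ¬ pb a lam e χ k u s ∧ (k < p → pb a lam e χ (k + 1) u s) then χ u s else 0

/-- mass of the node `v` where `k` is the last good index -/
noncomputable def omf (a lam e p : ℕ) (χ : ℕ → ℝ → ℝ≥0∞) (k v : ℕ) (s : ℝ) : ℝ≥0∞ :=
  ∑ u ∈ (Finset.range (2 * 4 ^ e)).filter (fun u => u / 4 ^ (e - (lam + 7 * a * k)) = v),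
    xt a lam e p χ k u s

theorem xt_le (a lam e p : ℕ) (χ : ℕ → ℝ → ℝ≥0∞) (k u : ℕ) (s : ℝ) :
    xt a lam e p χ k u s ≤ χ u s := by
  unfold xt
  split_ifs
  · exact le_rfl
  · exact zero_le

theorem xt_meas (a lam e p : ℕ) {χ : ℕ → ℝ → ℝ≥0∞} (hχ : ∀ u, Measurable (χ u)) (k u : ℕ) :
    Measurable (xt a lam e p χ k u) := by
  classical
  have hS : MeasurableSet {s | ¬ pb a lam e χ k u s ∧ (k < p → pb a lam e χ (k + 1) u s)} := by
    by_cases h : k < p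
    · have e1 : {s | ¬ pb a lam e χ k u s ∧ (k < p → pb a lam e χ (k + 1) u s)} =
          {s | pb a lam e χ k u s}ᶜ ∩ {s | pb a lam e χ (k + 1) u s} := by
        ext s
        simp [h]
      rw [e1]
      exact (pb_meas a lam e χ k u).compl.inter (pb_meas a lam e χ (k + 1) u)
    · have e1 : {s | ¬ pb a lam e χ k u s ∧ (k < p → pb a lam e χ (k + 1) u s)} =
          {s | pb a lam e χ k u s}ᶜ := by
        ext s
        simp [h]
      rw [e1]
      exact (pb_meas a lam e χ k u).compl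
  have h : xt a lam e p χ k u = fun s => if s ∈ {s | ¬ pb a lam e χ k u s ∧
      (k < p → pb a lam e χ (k + 1) u s)} then χ u s else 0 := by
    funext s
    unfold xt
    simp only [mem_ofPred_eq]
  rw [h]
  exact Measurable.ite hS (hχ u) measurable_const

theorem omf_meas (a lam e p : ℕ) {χ : ℕ → ℝ → ℝ≥0∞} (hχ : ∀ u, Measurable (χ u)) (k v : ℕ) :
    Measurable (omf a lam e p χ k v) :=
  Finset.measurable_fun_sum _ (fun u _ => xt_meas a lam e p hχ k u)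

theorem chw_meas (e : ℕ) {χ : ℕ → ℝ → ℝ≥0∞} (hχ : ∀ u, Measurable (χ u)) (l w : ℕ) :
    Measurable (chw e χ l w) :=
  Finset.measurable_fun_sum _ (fun u _ => hχ u)

theorem chw_le_one {e : ℕ} {χ : ℕ → ℝ → ℝ≥0∞}
    (h1 : ∀ s, ∑ u ∈ Finset.range (2 * 4 ^ e), χ u s ≤ 1) (l w : ℕ) (s : ℝ) :
    chw e χ l w s ≤ 1 :=
  (Finset.sum_le_sum_of_subset (Finset.filter_subset _ _)).trans (h1 s)

theorem omf_le_one {a lam e p : ℕ} {χ : ℕ → ℝ → ℝ≥0∞}
    (h1 : ∀ s, ∑ u ∈ Finset.range (2 * 4 ^ e), χ u s ≤ 1) (k v : ℕ) (s : ℝ) :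
    omf a lam e p χ k v s ≤ 1 :=
  (Finset.sum_le_sum fun u _ => xt_le a lam e p χ k u s).trans
    ((Finset.sum_le_sum_of_subset (Finset.filter_subset _ _)).trans (h1 s))

theorem xt_sum_le (a lam e p : ℕ) (χ : ℕ → ℝ → ℝ≥0∞) (u : ℕ) (s : ℝ) (S : Finset ℕ)
    (hS : ∀ k ∈ S, k ≤ p) : ∑ k ∈ S, xt a lam e p χ k u s ≤ χ u s := by
  classical
  by_cases h : ∃ k ∈ S, ¬ pb a lam e χ k u s ∧ (k < p → pb a lam e χ (k + 1) u s)
  · obtain ⟨k, hk, hg, hl⟩ := h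
    rw [Finset.sum_eq_single k]
    · exact xt_le _ _ _ _ _ _ _ _
    · intro k' hk' hne
      unfold xt
      rw [if_neg]
      rintro ⟨hg', hl'⟩
      rcases lt_or_gt_of_ne hne with h | h
      · exact hg (pb_mono h (hl' (h.trans_le (hS k hk))))
      · exact hg' (pb_mono h (hl (h.trans_le (hS k' hk'))))
    · exact fun h' => absurd hk h'
  · push Not at h
    have : ∀ k ∈ S, xt a lam e p χ k u s = 0 := by
      intro k hk
      unfold xt
      rw [if_neg]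
      rintro ⟨hg, hl⟩
      obtain ⟨h1, h2⟩ := h k hk hg
      exact h2 (hl h1)
    rw [Finset.sum_eq_zero this]
    exact zero_le

theorem node_lt {u l e : ℕ} (hl : l ≤ e) (hu : u < 2 * 4 ^ e) : u / 4 ^ (e - l) < 2 * 4 ^ l := by
  rw [Nat.div_lt_iff_lt_mul (by positivity)]
  have h : 2 * 4 ^ l * 4 ^ (e - l) = 2 * 4 ^ e := by
    rw [mul_assoc, ← pow_add]
    congr 2
    omega
  rw [h]
  exact hu

theorem node_node (u : ℕ) {l l' e : ℕ} (h : l ≤ l') (h' : l' ≤ e) :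
    u / 4 ^ (e - l') / 4 ^ (l' - l) = u / 4 ^ (e - l) := by
  rw [Nat.div_div_eq_div_mul, ← pow_add]
  congr 2
  omega

/-- regrouping -/
theorem regroup {l e : ℕ} (hl : l ≤ e) (f g : ℕ → ℝ≥0∞) :
    ∑ v ∈ Finset.range (2 * 4 ^ l),
      (∑ u ∈ (Finset.range (2 * 4 ^ e)).filter (fun u => u / 4 ^ (e - l) = v), f u) * g v =
    ∑ u ∈ Finset.range (2 * 4 ^ e), f u * g (u / 4 ^ (e - l)) := by
  have hmap : ∀ u ∈ Finset.range (2 * 4 ^ e), u / 4 ^ (e - l) ∈ Finset.range (2 * 4 ^ l) := by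
    intro u hu
    rw [Finset.mem_range] at *
    exact node_lt hl hu
  rw [← Finset.sum_fiberwise_of_maps_to hmap]
  refine Finset.sum_congr rfl fun v _ => ?_
  rw [Finset.sum_mul]
  refine Finset.sum_congr rfl fun u hu => ?_
  rw [(Finset.mem_filter.1 hu).2]

theorem regroup_le {a lam e p j : ℕ} {χ : ℕ → ℝ → ℝ≥0∞} (hχ : ∀ u, Measurable (χ u))
    (hp : lam + 7 * a * p ≤ e) (T : (ℝ → ℝ≥0∞) → ℝ≥0∞)
    (hT : ∀ (S : Finset ℕ) (g : ℕ → ℝ → ℝ≥0∞), (∀ i, Measurable (g i)) →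
      T (fun t => ∑ i ∈ S, g i t) = ∑ i ∈ S, T (g i))
    (hTm : ∀ g g' : ℝ → ℝ≥0∞, (∀ s, g s ≤ g' s) → T g ≤ T g') (X : ℕ → ℝ≥0∞) :
    ∑ k ∈ Finset.Icc j p, ∑ v ∈ Finset.range (2 * 4 ^ (lam + 7 * a * k)),
      T (omf a lam e p χ k v) * X (v / 4 ^ (lam + 7 * a * k - (lam + 7 * a * j))) ≤
    ∑ w ∈ Finset.range (2 * 4 ^ (lam + 7 * a * j)), T (chw e χ (lam + 7 * a * j) w) * X w := by
  by_cases hjp : j ≤ p
  swap
  · rw [Finset.Icc_eq_empty (by omega)]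
    simp
  have hle : ∀ k, k ≤ p → lam + 7 * a * k ≤ e := fun k hk =>
    (Nat.add_le_add_left (Nat.mul_le_mul_left _ hk) _).trans hp
  have h1 : ∀ k ∈ Finset.Icc j p, ∑ v ∈ Finset.range (2 * 4 ^ (lam + 7 * a * k)),
      T (omf a lam e p χ k v) * X (v / 4 ^ (lam + 7 * a * k - (lam + 7 * a * j))) =
      ∑ u ∈ Finset.range (2 * 4 ^ e), T (xt a lam e p χ k u) *
        X (u / 4 ^ (e - (lam + 7 * a * j))) := by
    intro k hk
    obtain ⟨hk1, hk2⟩ := Finset.mem_Icc.1 hk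
    have h2 : ∀ v, T (omf a lam e p χ k v) = ∑ u ∈ (Finset.range (2 * 4 ^ e)).filter
        (fun u => u / 4 ^ (e - (lam + 7 * a * k)) = v), T (xt a lam e p χ k u) := by
      intro v
      exact hT _ _ (fun u => xt_meas a lam e p hχ k u)
    simp only [h2]
    rw [regroup (hle k hk2) (fun u => T (xt a lam e p χ k u))
      (fun v => X (v / 4 ^ (lam + 7 * a * k - (lam + 7 * a * j))))]
    refine Finset.sum_congr rfl fun u _ => ?_
    rw [node_node u (Nat.add_le_add_left (Nat.mul_le_mul_left _ hk1) _) (hle k hk2)]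
  rw [Finset.sum_congr rfl h1, Finset.sum_comm]
  have h3 : ∑ w ∈ Finset.range (2 * 4 ^ (lam + 7 * a * j)),
      T (chw e χ (lam + 7 * a * j) w) * X w =
      ∑ u ∈ Finset.range (2 * 4 ^ e), T (χ u) * X (u / 4 ^ (e - (lam + 7 * a * j))) := by
    have h2 : ∀ v, T (chw e χ (lam + 7 * a * j) v) = ∑ u ∈ (Finset.range (2 * 4 ^ e)).filter
        (fun u => u / 4 ^ (e - (lam + 7 * a * j)) = v), T (χ u) := by
      intro v
      exact hT _ _ hχ
    simp only [h2]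
    exact regroup (hle j hjp) (fun u => T (χ u)) X
  rw [h3]
  refine Finset.sum_le_sum fun u _ => ?_
  rw [← Finset.sum_mul]
  gcongr
  rw [← hT _ _ (fun k => xt_meas a lam e p hχ k u)]
  exact hTm _ _ (fun s => xt_sum_le a lam e p χ u s _ (fun k hk => (Finset.mem_Icc.1 hk).2))

theorem regroup_eq {a lam e p j k : ℕ} {χ : ℕ → ℝ → ℝ≥0∞} (hχ : ∀ u, Measurable (χ u))
    (hp : lam + 7 * a * p ≤ e) (hjk : j ≤ k) (hkp : k ≤ p) (T : (ℝ → ℝ≥0∞) → ℝ≥0∞)
    (hT : ∀ (S : Finset ℕ) (g : ℕ → ℝ → ℝ≥0∞), (∀ i, Measurable (g i)) →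
      T (fun t => ∑ i ∈ S, g i t) = ∑ i ∈ S, T (g i)) (X : ℕ → ℝ≥0∞) :
    ∑ v ∈ Finset.range (2 * 4 ^ (lam + 7 * a * k)),
      T (chw e χ (lam + 7 * a * k) v) * X (v / 4 ^ (lam + 7 * a * k - (lam + 7 * a * j))) =
    ∑ w ∈ Finset.range (2 * 4 ^ (lam + 7 * a * j)), T (chw e χ (lam + 7 * a * j) w) * X w := by
  have hle : ∀ k, k ≤ p → lam + 7 * a * k ≤ e := fun k hk =>
    (Nat.add_le_add_left (Nat.mul_le_mul_left _ hk) _).trans hp
  have h2 : ∀ l v, T (chw e χ l v) = ∑ u ∈ (Finset.range (2 * 4 ^ e)).filter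
      (fun u => u / 4 ^ (e - l) = v), T (χ u) := fun l v => hT _ _ hχ
  simp only [h2]
  rw [regroup (hle k hkp) (fun u => T (χ u))
      (fun v => X (v / 4 ^ (lam + 7 * a * k - (lam + 7 * a * j)))),
    regroup (hle j (hjk.trans hkp)) (fun u => T (χ u)) X]
  refine Finset.sum_congr rfl fun u _ => ?_
  rw [node_node u (Nat.add_le_add_left (Nat.mul_le_mul_left _ hjk) _) (hle k hkp)]

/-- splitting according to the last good index -/
theorem split_last {a lam e p : ℕ} {χ : ℕ → ℝ → ℝ≥0∞} (hp : lam + 7 * a * p ≤ e) (s : ℝ)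
    (D : ℕ → ℕ → ℂ) :
    ∑ u ∈ Finset.range (2 * 4 ^ e), χ u s *
      ‖∑ k ∈ Finset.Icc 1 p, (open Classical in if pb a lam e χ k u s then 0 else
        D k (u / 4 ^ (e - (lam + 7 * a * k))))‖ₑ ^ 2 ≤
    ∑ k ∈ Finset.Icc 1 p, ∑ v ∈ Finset.range (2 * 4 ^ (lam + 7 * a * k)),
      omf a lam e p χ k v s *
        ‖∑ j ∈ Finset.Icc 1 k, D j (v / 4 ^ (lam + 7 * a * k - (lam + 7 * a * j)))‖ₑ ^ 2 := by
  classical
  have hle : ∀ k, k ≤ p → lam + 7 * a * k ≤ e := fun k hk =>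
    (Nat.add_le_add_left (Nat.mul_le_mul_left _ hk) _).trans hp
  have h1 : ∀ k ∈ Finset.Icc 1 p, ∑ v ∈ Finset.range (2 * 4 ^ (lam + 7 * a * k)),
      omf a lam e p χ k v s *
        ‖∑ j ∈ Finset.Icc 1 k, D j (v / 4 ^ (lam + 7 * a * k - (lam + 7 * a * j)))‖ₑ ^ 2 =
      ∑ u ∈ Finset.range (2 * 4 ^ e), xt a lam e p χ k u s *
        ‖∑ j ∈ Finset.Icc 1 k, D j (u / 4 ^ (e - (lam + 7 * a * j)))‖ₑ ^ 2 := by
    intro k hk
    obtain ⟨hk1, hk2⟩ := Finset.mem_Icc.1 hk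
    unfold omf
    rw [regroup (hle k hk2) (fun u => xt a lam e p χ k u s) (fun v => ‖∑ j ∈ Finset.Icc 1 k,
      D j (v / 4 ^ (lam + 7 * a * k - (lam + 7 * a * j)))‖ₑ ^ 2)]
    refine Finset.sum_congr rfl fun u _ => ?_
    congr 3
    refine Finset.sum_congr rfl fun j hj => ?_
    rw [node_node u (Nat.add_le_add_left (Nat.mul_le_mul_left _ (Finset.mem_Icc.1 hj).2) _)
      (hle k hk2)]
  rw [Finset.sum_congr rfl h1, Finset.sum_comm]
  refine Finset.sum_le_sum fun u _ => ?_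
  by_cases hg : ∃ k ∈ Finset.Icc 1 p, ¬ pb a lam e χ k u s
  · -- the last good index
    have hne : ((Finset.Icc 1 p).filter (fun k => ¬ pb a lam e χ k u s)).Nonempty := by
      obtain ⟨k, hk, hk'⟩ := hg
      exact ⟨k, Finset.mem_filter.2 ⟨hk, hk'⟩⟩
    obtain ⟨k, hk, hmax⟩ := Finset.exists_max_image _ (fun k => k) hne
    obtain ⟨hk1, hk2⟩ := Finset.mem_filter.1 hk
    obtain ⟨hk3, hk4⟩ := Finset.mem_Icc.1 hk1
    have hbad : ∀ k', k < k' → k' ≤ p → pb a lam e χ k' u s := by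
      intro k' h1 h2
      by_contra h3
      have := hmax k' (Finset.mem_filter.2 ⟨Finset.mem_Icc.2 ⟨by omega, h2⟩, h3⟩)
      omega
    have hxt : xt a lam e p χ k u s = χ u s := by
      unfold xt
      rw [if_pos ⟨hk2, fun h => hbad (k + 1) (by omega) h⟩]
    have hsum : ∑ k' ∈ Finset.Icc 1 p, (if pb a lam e χ k' u s then 0 else
        D k' (u / 4 ^ (e - (lam + 7 * a * k')))) =
        ∑ j ∈ Finset.Icc 1 k, D j (u / 4 ^ (e - (lam + 7 * a * j))) := by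
      symm
      have hsub : Finset.Icc 1 k ⊆ Finset.Icc 1 p := Finset.Icc_subset_Icc le_rfl hk4
      rw [← Finset.sum_subset hsub]
      · refine Finset.sum_congr rfl fun j hj => ?_
        rw [if_neg]
        exact fun h => hk2 (pb_mono (Finset.mem_Icc.1 hj).2 h)
      · intro k' hk' hn
        rw [if_pos]
        rw [Finset.mem_Icc] at hk' hn
        exact hbad k' (by omega) hk'.2
    calc χ u s * ‖∑ k ∈ Finset.Icc 1 p, (if pb a lam e χ k u s then 0 else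
          D k (u / 4 ^ (e - (lam + 7 * a * k))))‖ₑ ^ 2
        = xt a lam e p χ k u s *
          ‖∑ j ∈ Finset.Icc 1 k, D j (u / 4 ^ (e - (lam + 7 * a * j)))‖ₑ ^ 2 := by
          rw [hsum, hxt]
      _ ≤ _ := Finset.single_le_sum (f := fun k => xt a lam e p χ k u s *
          ‖∑ j ∈ Finset.Icc 1 k, D j (u / 4 ^ (e - (lam + 7 * a * j)))‖ₑ ^ 2)
          (fun i _ => zero_le) hk1
  · push Not at hg
    have h0 : ∑ k ∈ Finset.Icc 1 p, (if pb a lam e χ k u s then 0 else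
        D k (u / 4 ^ (e - (lam + 7 * a * k)))) = 0 :=
      Finset.sum_eq_zero fun k hk => if_pos (hg k hk)
    rw [h0]
    simp

/-! ### Assembly -/

theorem scale1 (a lam j : ℕ) :
    (4 : ℝ) ^ (lam + 5 * a) * ((4 ^ (7 * a) : ℕ) : ℝ) ^ j = 4 ^ (lam + 7 * a * j + 5 * a) := by
  push_cast
  rw [← pow_mul, ← pow_add]
  congr 1
  ring

theorem scale2 (a lam : ℕ) {j : ℕ} (hj : 1 ≤ j) :
    (4 : ℝ) ^ (lam + 5 * a) * ((4 ^ (7 * a) : ℕ) : ℝ) ^ (j - 1) =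
      4 ^ (lam + 7 * a * j) / 4 ^ (2 * a) := by
  obtain ⟨i, rfl⟩ : ∃ i, j = i + 1 := ⟨j - 1, by omega⟩
  rw [Nat.add_sub_cancel, eq_div_iff (by positivity)]
  push_cast
  rw [← pow_mul, ← pow_add, ← pow_add]
  congr 1
  ring

theorem node_cdr (sg : ℝ) (v : ℕ) {l l' : ℕ} (h : l ≤ l') :
    cdr sg l (v / 4 ^ (l' - l)) (sg + v / 4 ^ l') := by
  have h1 : (4 : ℝ) ^ l * (sg + v / 4 ^ l' - sg) = v / 4 ^ (l' - l) := by
    have h2 : (4 : ℝ) ^ l' = 4 ^ l * 4 ^ (l' - l) := by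
      rw [← pow_add]
      congr 1
      omega
    rw [h2]
    field_simp
    ring
  unfold cdr
  rw [h1]
  constructor
  · have := @Nat.cast_div_le ℝ _ _ _ v (4 ^ (l' - l))
    push_cast at this
    exact this
  · rw [div_lt_iff₀ (by positivity)]
    have := Nat.lt_mul_div_succ v (show 0 < 4 ^ (l' - l) by positivity)
    rw [mul_comm] at this
    exact_mod_cast this

/-- the final bound for a node -/
theorem node_final (hBEL : tBEL) {a e lam p : ℕ} {sg : ℝ} {J : ℕ → ℕ → Finset ℕ}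
    {H : ℝ → ℂ} {χ : ℕ → ℝ → ℝ≥0∞} (hH : Bd1 H) (hχ : ∀ u, Measurable (χ u))
    (hχ1 : ∀ s, ∑ u ∈ Finset.range (2 * 4 ^ e), χ u s ≤ 1)
    {E : ℕ → ℕ → ℝ → ℝ≥0∞} (hEm : ∀ j w, Measurable (E j w))
    (hE : ∀ j w, 1 ≤ j → j ≤ p → ∀ r s, cdr sg (lam + 7 * a * j) w r →
      ‖GG sg J H (lam + 7 * a * j) w r s -
        (avgC (4 ^ (lam + 7 * a * j) / 4 ^ (2 * a)) (GG sg J H (lam + 7 * a * j) w r) s -
          avgC (4 ^ (lam + 7 * a * j + 5 * a)) (GG sg J H (lam + 7 * a * j) w r) s)‖ₑ ^ 2 ≤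
        E j w s) {k : ℕ} (v : ℕ) (hk : 1 ≤ k) (hkp : k ≤ p) :
    ∫⁻ s, omf a lam e p χ k v s * ‖∑ j ∈ Finset.Icc 1 k,
      Dj sg J H (lam + 7 * a * j) (v / 4 ^ (lam + 7 * a * k - (lam + 7 * a * j))) s‖ₑ ^ 2 ≤
    ∑ j ∈ Finset.Icc 1 k, ∫⁻ s, (4 * Kc (1 / 2 ^ (30 * a)) *
      ((avgc (4 ^ (lam + 7 * a * j) / 4 ^ (2 * a)) (omf a lam e p χ k v) s +
        avgc (4 ^ (lam + 7 * a * j + 5 * a)) (omf a lam e p χ k v) s +
        2 * ENNReal.ofReal (1 / 2 ^ (30 * a)) * (ENNReal.ofReal (2 ^ (20 * a)) *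
          avgc (4 ^ (lam + 7 * a * k + 5 * a)) (chw e χ (lam + 7 * a * k) v) s)) *
        (‖Dj sg J H (lam + 7 * a * j) (v / 4 ^ (lam + 7 * a * k - (lam + 7 * a * j))) s‖ₑ ^ 2 +
          E j (v / 4 ^ (lam + 7 * a * k - (lam + 7 * a * j))) s)) +
      2 * k * (omf a lam e p χ k v s *
        E j (v / 4 ^ (lam + 7 * a * k - (lam + 7 * a * j))) s)) := by
  set r : ℝ := sg + v / 4 ^ (lam + 7 * a * k) with hr
  have hmono : ∀ j, j ≤ k → lam + 7 * a * j ≤ lam + 7 * a * k := fun j hj =>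
    Nat.add_le_add_left (Nat.mul_le_mul_left _ hj) _
  have hnb := node_bound hBEL (L0 := 4 ^ (lam + 5 * a)) (by positivity) (N := 4 ^ (7 * a))
    (Nat.one_le_pow _ _ (by norm_num)) (k := k) (ρ := 1 / 2 ^ (30 * a)) (by positivity)
    (by
      rw [div_le_one (by positivity)]
      exact one_le_pow₀ (by norm_num))
    (om := omf a lam e p χ k v) (omf_meas a lam e p hχ k v) (omf_le_one hχ1 k v)
    (F := fun n : ℤ => (ENNReal.ofReal (4 ^ (lam + 7 * a * k + 5 * a)))⁻¹ *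
      ∫⁻ t in Ico ((4 : ℝ) ^ (lam + 7 * a * k + 5 * a) * n)
        (4 ^ (lam + 7 * a * k + 5 * a) * (n + 1)), chw e χ (lam + 7 * a * k) v t)
    (B := ENNReal.ofReal (2 ^ (20 * a))) (by
      intro s hs
      rw [scale1]
      change 1 ≤ ENNReal.ofReal (2 ^ (20 * a)) *
        avgc (4 ^ (lam + 7 * a * k + 5 * a)) (chw e χ (lam + 7 * a * k) v) s
      obtain ⟨u, hu, hu0⟩ := Finset.exists_ne_zero_of_sum_ne_zero hs
      rw [Finset.mem_filter] at hu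
      have hpb : ¬ pb a lam e χ k u s := by
        intro h
        apply hu0
        unfold xt
        rw [if_neg]
        exact fun h' => h'.1 h
      have h1 : ENNReal.ofReal (1 / 2 ^ (20 * a)) ≤
          avgc (4 ^ (lam + 7 * a * k + 5 * a)) (chw e χ (lam + 7 * a * k) v) s := by
        by_contra h2
        push Not at h2
        exact hpb ⟨k, hk, le_rfl, by rw [hu.2]; exact h2⟩
      calc (1 : ℝ≥0∞) = ENNReal.ofReal (2 ^ (20 * a)) * ENNReal.ofReal (1 / 2 ^ (20 * a)) := by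
            rw [← ENNReal.ofReal_mul (by positivity), mul_one_div_cancel (by positivity),
              ENNReal.ofReal_one]
        _ ≤ _ := by gcongr)
    (G := fun j => GG sg J H (lam + 7 * a * j)
      (v / 4 ^ (lam + 7 * a * k - (lam + 7 * a * j))) r)
    (fun j => GG_cont hH _ _ _)
    (E := fun j => E j (v / 4 ^ (lam + 7 * a * k - (lam + 7 * a * j))))
    (fun j => hEm _ _) (by
      intro j hj1 hj2 s
      have h1 := hE j (v / 4 ^ (lam + 7 * a * k - (lam + 7 * a * j))) hj1 (hj2.trans hkp) r s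
        (node_cdr sg v (hmono j hj2))
      unfold Dt
      rw [scale2 a lam hj1, scale1]
      exact h1)
  have e1 : ∀ s, ‖∑ j ∈ Finset.Icc 1 k, GG sg J H (lam + 7 * a * j)
      (v / 4 ^ (lam + 7 * a * k - (lam + 7 * a * j))) r s‖ₑ = ‖∑ j ∈ Finset.Icc 1 k,
      Dj sg J H (lam + 7 * a * j) (v / 4 ^ (lam + 7 * a * k - (lam + 7 * a * j))) s‖ₑ := by
    intro s
    unfold GG
    rw [← Finset.mul_sum, enorm_mul]
    have : ‖ee (-(r * s))‖ₑ = 1 := by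
      rw [← ofReal_norm, norm_ee, ENNReal.ofReal_one]
    rw [this, one_mul]
  simp only [e1] at hnb
  refine hnb.trans (le_of_eq ?_)
  refine Finset.sum_congr rfl fun j hj => ?_
  obtain ⟨hj1, hj2⟩ := Finset.mem_Icc.1 hj
  apply lintegral_congr
  intro s
  rw [scale2 a lam hj1, scale1, scale1, GG_norm]
  rfl

/-- pointwise bound, level `j` -/
theorem level_bound {a lam e p j : ℕ} {χ : ℕ → ℝ → ℝ≥0∞} (hχ : ∀ u, Measurable (χ u))
    (hχ1 : ∀ s, ∑ u ∈ Finset.range (2 * 4 ^ e), χ u s ≤ 1)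
    (hp : lam + 7 * a * p ≤ e) (hj : 1 ≤ j) (Q R : ℝ≥0∞) (DD EE : ℕ → ℝ≥0∞) (s : ℝ) :
    ∑ k ∈ Finset.Icc j p, ∑ v ∈ Finset.range (2 * 4 ^ (lam + 7 * a * k)),
      (Q * ((avgc (4 ^ (lam + 7 * a * j) / 4 ^ (2 * a)) (omf a lam e p χ k v) s +
        avgc (4 ^ (lam + 7 * a * j + 5 * a)) (omf a lam e p χ k v) s +
        R * avgc (4 ^ (lam + 7 * a * k + 5 * a)) (chw e χ (lam + 7 * a * k) v) s) *
        (DD (v / 4 ^ (lam + 7 * a * k - (lam + 7 * a * j))) +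
          EE (v / 4 ^ (lam + 7 * a * k - (lam + 7 * a * j))))) +
      2 * k * (omf a lam e p χ k v s * EE (v / 4 ^ (lam + 7 * a * k - (lam + 7 * a * j))))) ≤
    Q * (∑ w ∈ Finset.range (2 * 4 ^ (lam + 7 * a * j)),
      (avgc (4 ^ (lam + 7 * a * j + 5 * a)) (chw e χ (lam + 7 * a * j) w) s +
        avgc (4 ^ (lam + 7 * a * j) / 4 ^ (2 * a)) (chw e χ (lam + 7 * a * j) w) s) * DD w) +
    Q * R * p * (∑ w ∈ Finset.range (2 * 4 ^ (lam + 7 * a * j)), DD w) +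
    (2 * Q + Q * R * p + 2 * p) * ∑ w ∈ Finset.range (2 * 4 ^ (lam + 7 * a * j)), EE w := by
  have hS := regroup_le (j := j) hχ hp
    (fun g => avgc (4 ^ (lam + 7 * a * j) / 4 ^ (2 * a)) g s)
    (fun S g hg => avgc_sum _ S hg s) (fun g g' h => avgc_mono _ h s) (fun w => DD w + EE w)
  have hL := regroup_le (j := j) hχ hp
    (fun g => avgc (4 ^ (lam + 7 * a * j + 5 * a)) g s)
    (fun S g hg => avgc_sum _ S hg s) (fun g g' h => avgc_mono _ h s) (fun w => DD w + EE w)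
  have hO := regroup_le (j := j) hχ hp (fun g => g s) (fun S g hg => rfl)
    (fun g g' h => h s) EE
  have hK : ∀ k ∈ Finset.Icc j p, ∑ v ∈ Finset.range (2 * 4 ^ (lam + 7 * a * k)),
      avgc (4 ^ (lam + 7 * a * k + 5 * a)) (chw e χ (lam + 7 * a * k) v) s *
        (DD (v / 4 ^ (lam + 7 * a * k - (lam + 7 * a * j))) +
          EE (v / 4 ^ (lam + 7 * a * k - (lam + 7 * a * j)))) ≤
      ∑ w ∈ Finset.range (2 * 4 ^ (lam + 7 * a * j)), (DD w + EE w) := by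
    intro k hk
    obtain ⟨hk1, hk2⟩ := Finset.mem_Icc.1 hk
    have h1 := regroup_eq (j := j) (k := k) hχ hp hk1 hk2
      (fun g => avgc (4 ^ (lam + 7 * a * k + 5 * a)) g s)
      (fun S g hg => avgc_sum _ S hg s) (fun w => DD w + EE w)
    refine h1.le.trans (Finset.sum_le_sum fun w _ => ?_)
    calc _ ≤ 1 * (DD w + EE w) := by
          gcongr
          exact avgc_le_one (by positivity) (chw_le_one hχ1 _ _) s
      _ = _ := one_mul _
  beta_reduce at hS hL hO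
  have hKs : ∑ k ∈ Finset.Icc j p, ∑ v ∈ Finset.range (2 * 4 ^ (lam + 7 * a * k)),
      avgc (4 ^ (lam + 7 * a * k + 5 * a)) (chw e χ (lam + 7 * a * k) v) s *
        (DD (v / 4 ^ (lam + 7 * a * k - (lam + 7 * a * j))) +
          EE (v / 4 ^ (lam + 7 * a * k - (lam + 7 * a * j)))) ≤
      p * ∑ w ∈ Finset.range (2 * 4 ^ (lam + 7 * a * j)), (DD w + EE w) := by
    refine (Finset.sum_le_sum hK).trans ?_
    rw [Finset.sum_const, nsmul_eq_mul, Nat.card_Icc]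
    gcongr
    omega
  have hAs : ∑ w ∈ Finset.range (2 * 4 ^ (lam + 7 * a * j)),
      avgc (4 ^ (lam + 7 * a * j) / 4 ^ (2 * a)) (chw e χ (lam + 7 * a * j) w) s *
        (DD w + EE w) ≤ ∑ w ∈ Finset.range (2 * 4 ^ (lam + 7 * a * j)),
      avgc (4 ^ (lam + 7 * a * j) / 4 ^ (2 * a)) (chw e χ (lam + 7 * a * j) w) s * DD w +
      ∑ w ∈ Finset.range (2 * 4 ^ (lam + 7 * a * j)), EE w := by
    rw [← Finset.sum_add_distrib]
    refine Finset.sum_le_sum fun w _ => ?_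
    rw [mul_add]
    gcongr
    calc _ ≤ 1 * EE w := by
          gcongr
          exact avgc_le_one (by positivity) (chw_le_one hχ1 _ _) s
      _ = _ := one_mul _
  have hAl : ∑ w ∈ Finset.range (2 * 4 ^ (lam + 7 * a * j)),
      avgc (4 ^ (lam + 7 * a * j + 5 * a)) (chw e χ (lam + 7 * a * j) w) s *
        (DD w + EE w) ≤ ∑ w ∈ Finset.range (2 * 4 ^ (lam + 7 * a * j)),
      avgc (4 ^ (lam + 7 * a * j + 5 * a)) (chw e χ (lam + 7 * a * j) w) s * DD w +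
      ∑ w ∈ Finset.range (2 * 4 ^ (lam + 7 * a * j)), EE w := by
    rw [← Finset.sum_add_distrib]
    refine Finset.sum_le_sum fun w _ => ?_
    rw [mul_add]
    gcongr
    calc _ ≤ 1 * EE w := by
          gcongr
          exact avgc_le_one (by positivity) (chw_le_one hχ1 _ _) s
      _ = _ := one_mul _
  have hAo : ∑ w ∈ Finset.range (2 * 4 ^ (lam + 7 * a * j)),
      chw e χ (lam + 7 * a * j) w s * EE w ≤
      ∑ w ∈ Finset.range (2 * 4 ^ (lam + 7 * a * j)), EE w := by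
    refine Finset.sum_le_sum fun w _ => ?_
    calc _ ≤ 1 * EE w := by
          gcongr
          exact chw_le_one hχ1 _ _ s
      _ = _ := one_mul _
  calc _ ≤ ∑ k ∈ Finset.Icc j p, ∑ v ∈ Finset.range (2 * 4 ^ (lam + 7 * a * k)),
      (Q * (avgc (4 ^ (lam + 7 * a * j) / 4 ^ (2 * a)) (omf a lam e p χ k v) s *
        (DD (v / 4 ^ (lam + 7 * a * k - (lam + 7 * a * j))) +
          EE (v / 4 ^ (lam + 7 * a * k - (lam + 7 * a * j))))) +
      Q * (avgc (4 ^ (lam + 7 * a * j + 5 * a)) (omf a lam e p χ k v) s *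
        (DD (v / 4 ^ (lam + 7 * a * k - (lam + 7 * a * j))) +
          EE (v / 4 ^ (lam + 7 * a * k - (lam + 7 * a * j))))) +
      Q * R * (avgc (4 ^ (lam + 7 * a * k + 5 * a)) (chw e χ (lam + 7 * a * k) v) s *
        (DD (v / 4 ^ (lam + 7 * a * k - (lam + 7 * a * j))) +
          EE (v / 4 ^ (lam + 7 * a * k - (lam + 7 * a * j))))) +
      2 * p * (omf a lam e p χ k v s *
        EE (v / 4 ^ (lam + 7 * a * k - (lam + 7 * a * j))))) := by
        refine Finset.sum_le_sum fun k hk => Finset.sum_le_sum fun v _ => ?_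
        obtain ⟨hk1, hk2⟩ := Finset.mem_Icc.1 hk
        have e1 : (2 : ℝ≥0∞) * k * (omf a lam e p χ k v s *
            EE (v / 4 ^ (lam + 7 * a * k - (lam + 7 * a * j)))) ≤
            2 * p * (omf a lam e p χ k v s *
            EE (v / 4 ^ (lam + 7 * a * k - (lam + 7 * a * j)))) := by
          gcongr
        refine (add_le_add_right e1 _).trans (le_of_eq ?_)
        ring
    _ = Q * (∑ k ∈ Finset.Icc j p, ∑ v ∈ Finset.range (2 * 4 ^ (lam + 7 * a * k)),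
        avgc (4 ^ (lam + 7 * a * j) / 4 ^ (2 * a)) (omf a lam e p χ k v) s *
        (DD (v / 4 ^ (lam + 7 * a * k - (lam + 7 * a * j))) +
          EE (v / 4 ^ (lam + 7 * a * k - (lam + 7 * a * j))))) +
      Q * (∑ k ∈ Finset.Icc j p, ∑ v ∈ Finset.range (2 * 4 ^ (lam + 7 * a * k)),
        avgc (4 ^ (lam + 7 * a * j + 5 * a)) (omf a lam e p χ k v) s *
        (DD (v / 4 ^ (lam + 7 * a * k - (lam + 7 * a * j))) +
          EE (v / 4 ^ (lam + 7 * a * k - (lam + 7 * a * j))))) +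
      Q * R * (∑ k ∈ Finset.Icc j p, ∑ v ∈ Finset.range (2 * 4 ^ (lam + 7 * a * k)),
        avgc (4 ^ (lam + 7 * a * k + 5 * a)) (chw e χ (lam + 7 * a * k) v) s *
        (DD (v / 4 ^ (lam + 7 * a * k - (lam + 7 * a * j))) +
          EE (v / 4 ^ (lam + 7 * a * k - (lam + 7 * a * j))))) +
      2 * p * (∑ k ∈ Finset.Icc j p, ∑ v ∈ Finset.range (2 * 4 ^ (lam + 7 * a * k)),
        omf a lam e p χ k v s *
        EE (v / 4 ^ (lam + 7 * a * k - (lam + 7 * a * j)))) := by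
        simp only [Finset.sum_add_distrib, Finset.mul_sum]
    _ ≤ Q * (∑ w ∈ Finset.range (2 * 4 ^ (lam + 7 * a * j)),
      avgc (4 ^ (lam + 7 * a * j) / 4 ^ (2 * a)) (chw e χ (lam + 7 * a * j) w) s * DD w +
      ∑ w ∈ Finset.range (2 * 4 ^ (lam + 7 * a * j)), EE w) +
      Q * (∑ w ∈ Finset.range (2 * 4 ^ (lam + 7 * a * j)),
      avgc (4 ^ (lam + 7 * a * j + 5 * a)) (chw e χ (lam + 7 * a * j) w) s * DD w +
      ∑ w ∈ Finset.range (2 * 4 ^ (lam + 7 * a * j)), EE w) +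
      Q * R * (p * ∑ w ∈ Finset.range (2 * 4 ^ (lam + 7 * a * j)), (DD w + EE w)) +
      2 * p * ∑ w ∈ Finset.range (2 * 4 ^ (lam + 7 * a * j)), EE w := by
        gcongr Q * ?_ + Q * ?_ + Q * R * ?_ + 2 * p * ?_
        · exact hS.trans hAs
        · exact hL.trans hAl
        · exact hO.trans hAo
    _ = _ := by
        rw [Finset.sum_add_distrib]
        simp only [add_mul, Finset.sum_add_distrib]
        ring

theorem Kc_le {a : ℕ} (ha : 1 ≤ a) : Kc (1 / 2 ^ (30 * a)) ≤ 3600 * (a : ℝ≥0∞) ^ 2 := by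
  have ha' : (1 : ℝ) ≤ a := by exact_mod_cast ha
  have h1 : (1 : ℝ) / (1 / 2 ^ (30 * a) / 2) = 2 ^ (30 * a + 1) := by
    rw [pow_succ]
    field_simp
  have h2 : Real.log ((2 : ℝ) ^ (30 * a + 1)) = (30 * a + 1) * Real.log 2 := by
    rw [Real.log_pow]
    push_cast
    ring
  have h3 := Real.log_two_lt_d9
  have h4 := Real.log_two_gt_d9
  unfold Kc
  rw [h1, h2]
  have h5 : 4 * (1 + (30 * (a : ℝ) + 1) * Real.log 2) ^ 2 ≤ 3600 * (a : ℝ) ^ 2 := by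
    have h6 : 1 + (30 * (a : ℝ) + 1) * Real.log 2 ≤ 30 * a := by nlinarith
    have h7 : 0 ≤ 1 + (30 * (a : ℝ) + 1) * Real.log 2 := by positivity
    nlinarith [mul_self_le_mul_self h7 h6]
  calc _ ≤ ENNReal.ofReal (3600 * (a : ℝ) ^ 2) := ENNReal.ofReal_le_ofReal h5
    _ = _ := by
      rw [ENNReal.ofReal_mul (by norm_num), ENNReal.ofReal_pow (by positivity),
        ENNReal.ofReal_natCast]
      norm_num

theorem arith_final {X y q Q R CE : ℝ≥0∞} (hXy : X * y = 1) (hy : y ≤ 1) (hq : q ≤ X)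
    (hQ : Q ≤ 14400 * X) (hR : R = 2 * y ^ 10) :
    q * (Q * R * q * 4 + (2 * Q + Q * R * q + 2 * q) * (4 * (CE * y ^ 6))) ≤
      (115200 + 230408 * CE) * y ^ 3 := by
  subst hR
  calc q * (Q * (2 * y ^ 10) * q * 4 +
        (2 * Q + Q * (2 * y ^ 10) * q + 2 * q) * (4 * (CE * y ^ 6)))
      ≤ X * ((14400 * X) * (2 * y ^ 10) * X * 4 +
        (2 * (14400 * X) + (14400 * X) * (2 * y ^ 10) * X + 2 * X) * (4 * (CE * y ^ 6))) := by
        gcongr
    _ = 115200 * (X * y) ^ 3 * y ^ 7 + CE * (115200 * (X * y) ^ 2 * y ^ 4 +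
        115200 * (X * y) ^ 3 * y ^ 13 + 8 * (X * y) ^ 2 * y ^ 4) := by ring
    _ = 115200 * y ^ 7 + CE * (115200 * y ^ 4 + 115200 * y ^ 13 + 8 * y ^ 4) := by
        rw [hXy]
        simp only [one_pow, mul_one]
    _ ≤ 115200 * y ^ 3 + CE * (115200 * y ^ 3 + 115200 * y ^ 3 + 8 * y ^ 3) := by
        have hpw : ∀ n, 3 ≤ n → y ^ n ≤ y ^ 3 := fun n hn =>
          pow_le_pow_right_of_le_one' hy hn
        gcongr 115200 * ?_ + CE * (115200 * ?_ + 115200 * ?_ + 8 * ?_)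
        · exact hpw 7 (by norm_num)
        · exact hpw 4 (by norm_num)
        · exact hpw 13 (by norm_num)
        · exact hpw 4 (by norm_num)
    _ = _ := by ring

theorem lint_three {F1 F2 F3 : ℝ → ℝ≥0∞} (h1 : Measurable F1) (h2 : Measurable F2)
    (h3 : Measurable F3) (c1 c2 c3 : ℝ≥0∞) :
    ∫⁻ s, (c1 * F1 s + c2 * F2 s + c3 * F3 s) =
      c1 * (∫⁻ s, F1 s) + c2 * (∫⁻ s, F2 s) + c3 * ∫⁻ s, F3 s := by
  have e : ∫⁻ s, (c1 * F1 s + c2 * F2 s + c3 * F3 s) =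
      (∫⁻ s, (c1 * F1 s + c2 * F2 s)) + ∫⁻ s, c3 * F3 s :=
    lintegral_add_left ((h1.const_mul c1).add (h2.const_mul c2)) _
  rw [e, lintegral_add_left (h1.const_mul c1), lintegral_const_mul _ h1,
    lintegral_const_mul _ h2, lintegral_const_mul _ h3]

/-- the sum over the nodes and over the levels -/
theorem total_bound (hBEL : tBEL) {a e lam p : ℕ} {sg : ℝ} {J : ℕ → ℕ → Finset ℕ}
    {H : ℝ → ℂ} {χ : ℕ → ℝ → ℝ≥0∞} (hH : Bd1 H) (hχ : ∀ u, Measurable (χ u))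
    (hχ1 : ∀ s, ∑ u ∈ Finset.range (2 * 4 ^ e), χ u s ≤ 1) (hp : lam + 7 * a * p ≤ e)
    {E : ℕ → ℕ → ℝ → ℝ≥0∞} (hEm : ∀ j w, Measurable (E j w))
    (hE : ∀ j w, 1 ≤ j → j ≤ p → ∀ r s, cdr sg (lam + 7 * a * j) w r →
      ‖GG sg J H (lam + 7 * a * j) w r s -
        (avgC (4 ^ (lam + 7 * a * j) / 4 ^ (2 * a)) (GG sg J H (lam + 7 * a * j) w r) s -
          avgC (4 ^ (lam + 7 * a * j + 5 * a)) (GG sg J H (lam + 7 * a * j) w r) s)‖ₑ ^ 2 ≤
        E j w s) :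
    ∫⁻ s, ∑ u ∈ Finset.range (2 * 4 ^ e), χ u s *
      ‖∑ k ∈ Finset.Icc 1 p, (open Classical in if pb a lam e χ k u s then 0 else
        Dj sg J H (lam + 7 * a * k) (u / 4 ^ (e - (lam + 7 * a * k))) s)‖ₑ ^ 2 ≤
    ∑ j ∈ Finset.Icc 1 p, (4 * Kc (1 / 2 ^ (30 * a)) *
      (∑ w ∈ Finset.range (2 * 4 ^ (lam + 7 * a * j)), ∫⁻ s,
        (avgc (4 ^ (lam + 7 * a * j + 5 * a)) (chw e χ (lam + 7 * a * j) w) s +
        avgc (4 ^ (lam + 7 * a * j) / 4 ^ (2 * a)) (chw e χ (lam + 7 * a * j) w) s) *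
          ‖Dj sg J H (lam + 7 * a * j) w s‖ₑ ^ 2) +
      4 * Kc (1 / 2 ^ (30 * a)) *
        (2 * ENNReal.ofReal (1 / 2 ^ (30 * a)) * ENNReal.ofReal (2 ^ (20 * a))) * p *
        (∑ w ∈ Finset.range (2 * 4 ^ (lam + 7 * a * j)),
          ∫⁻ s, ‖Dj sg J H (lam + 7 * a * j) w s‖ₑ ^ 2) +
      (2 * (4 * Kc (1 / 2 ^ (30 * a))) + 4 * Kc (1 / 2 ^ (30 * a)) *
        (2 * ENNReal.ofReal (1 / 2 ^ (30 * a)) * ENNReal.ofReal (2 ^ (20 * a))) * p + 2 * p) *
        ∑ w ∈ Finset.range (2 * 4 ^ (lam + 7 * a * j)), ∫⁻ s, E j w s) := by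
  have hDm : ∀ l w, Measurable (fun s => ‖Dj sg J H l w s‖ₑ ^ 2) := fun l w =>
    (Dj_cont hH l w).measurable.enorm.pow_const 2
  generalize hR : 2 * ENNReal.ofReal (1 / 2 ^ (30 * a)) * ENNReal.ofReal (2 ^ (20 * a)) = R
  generalize hQ : 4 * Kc (1 / 2 ^ (30 * a)) = Q
  -- measurability of the integrand of a node
  have hm1 : ∀ k v j w w', Measurable (fun s =>
      Q * ((avgc (4 ^ (lam + 7 * a * j) / 4 ^ (2 * a)) (omf a lam e p χ k v) s +
        avgc (4 ^ (lam + 7 * a * j + 5 * a)) (omf a lam e p χ k v) s +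
        R * avgc (4 ^ (lam + 7 * a * k + 5 * a)) (chw e χ (lam + 7 * a * k) v) s) *
        (‖Dj sg J H (lam + 7 * a * j) w s‖ₑ ^ 2 + E j w s)) +
      2 * k * (omf a lam e p χ k v s * E j w' s)) := by
    intro k v j w w'
    refine ((((avgc_meas _ _).add (avgc_meas _ _)).add ((avgc_meas _ _).const_mul R)).mul
      ((hDm _ _).add (hEm _ _))).const_mul Q |>.add ?_
    exact ((omf_meas a lam e p hχ k v).mul (hEm _ _)).const_mul _
  calc _ ≤ ∫⁻ s, ∑ k ∈ Finset.Icc 1 p, ∑ v ∈ Finset.range (2 * 4 ^ (lam + 7 * a * k)),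
      omf a lam e p χ k v s * ‖∑ j ∈ Finset.Icc 1 k,
        Dj sg J H (lam + 7 * a * j)
          (v / 4 ^ (lam + 7 * a * k - (lam + 7 * a * j))) s‖ₑ ^ 2 :=
        lintegral_mono fun s => split_last hp s (fun k w => Dj sg J H (lam + 7 * a * k) w s)
    _ = ∑ k ∈ Finset.Icc 1 p, ∑ v ∈ Finset.range (2 * 4 ^ (lam + 7 * a * k)), ∫⁻ s,
      omf a lam e p χ k v s * ‖∑ j ∈ Finset.Icc 1 k,
        Dj sg J H (lam + 7 * a * j)
          (v / 4 ^ (lam + 7 * a * k - (lam + 7 * a * j))) s‖ₑ ^ 2 := by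
        have hm0 : ∀ k v, Measurable (fun s => omf a lam e p χ k v s *
            ‖∑ j ∈ Finset.Icc 1 k, Dj sg J H (lam + 7 * a * j)
              (v / 4 ^ (lam + 7 * a * k - (lam + 7 * a * j))) s‖ₑ ^ 2) := by
          intro k v
          refine (omf_meas a lam e p hχ k v).mul ?_
          exact (Finset.measurable_fun_sum _
            (fun j _ => (Dj_cont hH _ _).measurable)).enorm.pow_const 2
        rw [lintegral_finsetSum _ (fun k _ => Finset.measurable_fun_sum _ (fun v _ => hm0 k v))]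
        exact Finset.sum_congr rfl fun k _ => lintegral_finsetSum _ (fun v _ => hm0 k v)
    _ ≤ ∑ k ∈ Finset.Icc 1 p, ∑ v ∈ Finset.range (2 * 4 ^ (lam + 7 * a * k)),
        ∑ j ∈ Finset.Icc 1 k, ∫⁻ s,
      (Q * ((avgc (4 ^ (lam + 7 * a * j) / 4 ^ (2 * a)) (omf a lam e p χ k v) s +
        avgc (4 ^ (lam + 7 * a * j + 5 * a)) (omf a lam e p χ k v) s +
        R * avgc (4 ^ (lam + 7 * a * k + 5 * a)) (chw e χ (lam + 7 * a * k) v) s) *
        (‖Dj sg J H (lam + 7 * a * j) (v / 4 ^ (lam + 7 * a * k - (lam + 7 * a * j))) s‖ₑ ^ 2 +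
          E j (v / 4 ^ (lam + 7 * a * k - (lam + 7 * a * j))) s)) +
      2 * k * (omf a lam e p χ k v s *
        E j (v / 4 ^ (lam + 7 * a * k - (lam + 7 * a * j))) s)) := by
        refine Finset.sum_le_sum fun k hk => Finset.sum_le_sum fun v _ => ?_
        obtain ⟨hk1, hk2⟩ := Finset.mem_Icc.1 hk
        refine (node_final hBEL hH hχ hχ1 hEm hE v hk1 hk2).trans (le_of_eq ?_)
        simp only [hQ, ← mul_assoc (2 * ENNReal.ofReal (1 / 2 ^ (30 * a))), hR]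
    _ = ∫⁻ s, ∑ j ∈ Finset.Icc 1 p, ∑ k ∈ Finset.Icc j p,
        ∑ v ∈ Finset.range (2 * 4 ^ (lam + 7 * a * k)),
      (Q * ((avgc (4 ^ (lam + 7 * a * j) / 4 ^ (2 * a)) (omf a lam e p χ k v) s +
        avgc (4 ^ (lam + 7 * a * j + 5 * a)) (omf a lam e p χ k v) s +
        R * avgc (4 ^ (lam + 7 * a * k + 5 * a)) (chw e χ (lam + 7 * a * k) v) s) *
        (‖Dj sg J H (lam + 7 * a * j) (v / 4 ^ (lam + 7 * a * k - (lam + 7 * a * j))) s‖ₑ ^ 2 +
          E j (v / 4 ^ (lam + 7 * a * k - (lam + 7 * a * j))) s)) +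
      2 * k * (omf a lam e p χ k v s *
        E j (v / 4 ^ (lam + 7 * a * k - (lam + 7 * a * j))) s)) := by
        rw [lintegral_finsetSum _ (fun j _ => Finset.measurable_fun_sum _ (fun k _ =>
          Finset.measurable_fun_sum _ (fun v _ => hm1 k v j _ _)))]
        have e1 : ∀ j ∈ Finset.Icc 1 p, ∫⁻ s, ∑ k ∈ Finset.Icc j p,
            ∑ v ∈ Finset.range (2 * 4 ^ (lam + 7 * a * k)),
          (Q * ((avgc (4 ^ (lam + 7 * a * j) / 4 ^ (2 * a)) (omf a lam e p χ k v) s +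
            avgc (4 ^ (lam + 7 * a * j + 5 * a)) (omf a lam e p χ k v) s +
            R * avgc (4 ^ (lam + 7 * a * k + 5 * a)) (chw e χ (lam + 7 * a * k) v) s) *
            (‖Dj sg J H (lam + 7 * a * j)
              (v / 4 ^ (lam + 7 * a * k - (lam + 7 * a * j))) s‖ₑ ^ 2 +
              E j (v / 4 ^ (lam + 7 * a * k - (lam + 7 * a * j))) s)) +
          2 * k * (omf a lam e p χ k v s *
            E j (v / 4 ^ (lam + 7 * a * k - (lam + 7 * a * j))) s)) =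
          ∑ k ∈ Finset.Icc j p, ∑ v ∈ Finset.range (2 * 4 ^ (lam + 7 * a * k)), ∫⁻ s,
          (Q * ((avgc (4 ^ (lam + 7 * a * j) / 4 ^ (2 * a)) (omf a lam e p χ k v) s +
            avgc (4 ^ (lam + 7 * a * j + 5 * a)) (omf a lam e p χ k v) s +
            R * avgc (4 ^ (lam + 7 * a * k + 5 * a)) (chw e χ (lam + 7 * a * k) v) s) *
            (‖Dj sg J H (lam + 7 * a * j)
              (v / 4 ^ (lam + 7 * a * k - (lam + 7 * a * j))) s‖ₑ ^ 2 +
              E j (v / 4 ^ (lam + 7 * a * k - (lam + 7 * a * j))) s)) +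
          2 * k * (omf a lam e p χ k v s *
            E j (v / 4 ^ (lam + 7 * a * k - (lam + 7 * a * j))) s)) := by
          intro j _
          rw [lintegral_finsetSum _ (fun k _ =>
            Finset.measurable_fun_sum _ (fun v _ => hm1 k v j _ _))]
          exact Finset.sum_congr rfl fun k _ => lintegral_finsetSum _ (fun v _ => hm1 k v j _ _)
        rw [Finset.sum_congr rfl e1, Finset.sum_congr rfl (fun k _ => Finset.sum_comm)]
        apply Finset.sum_comm'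
        intro k j
        simp only [Finset.mem_Icc]
        omega
    _ ≤ ∫⁻ s, ∑ j ∈ Finset.Icc 1 p,
        (Q * (∑ w ∈ Finset.range (2 * 4 ^ (lam + 7 * a * j)),
      (avgc (4 ^ (lam + 7 * a * j + 5 * a)) (chw e χ (lam + 7 * a * j) w) s +
        avgc (4 ^ (lam + 7 * a * j) / 4 ^ (2 * a)) (chw e χ (lam + 7 * a * j) w) s) *
          ‖Dj sg J H (lam + 7 * a * j) w s‖ₑ ^ 2) +
    Q * R * p * (∑ w ∈ Finset.range (2 * 4 ^ (lam + 7 * a * j)),
      ‖Dj sg J H (lam + 7 * a * j) w s‖ₑ ^ 2) +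
    (2 * Q + Q * R * p + 2 * p) *
      ∑ w ∈ Finset.range (2 * 4 ^ (lam + 7 * a * j)), E j w s) := by
        apply lintegral_mono
        intro s
        refine Finset.sum_le_sum fun j hj => ?_
        exact level_bound hχ hχ1 hp (Finset.mem_Icc.1 hj).1 Q R
          (fun w => ‖Dj sg J H (lam + 7 * a * j) w s‖ₑ ^ 2) (fun w => E j w s) s
    _ = _ := by
        have hm2 : ∀ j, Measurable (fun s => ∑ w ∈ Finset.range (2 * 4 ^ (lam + 7 * a * j)),
            (avgc (4 ^ (lam + 7 * a * j + 5 * a)) (chw e χ (lam + 7 * a * j) w) s +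
            avgc (4 ^ (lam + 7 * a * j) / 4 ^ (2 * a)) (chw e χ (lam + 7 * a * j) w) s) *
            ‖Dj sg J H (lam + 7 * a * j) w s‖ₑ ^ 2) := fun j =>
          Finset.measurable_fun_sum _ (fun w _ =>
            ((avgc_meas _ _).add (avgc_meas _ _)).mul (hDm _ _))
        have hm3 : ∀ j, Measurable (fun s => ∑ w ∈ Finset.range (2 * 4 ^ (lam + 7 * a * j)),
            ‖Dj sg J H (lam + 7 * a * j) w s‖ₑ ^ 2) := fun j =>
          Finset.measurable_fun_sum _ (fun w _ => hDm _ _)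
        have hm4 : ∀ j, Measurable (fun s => ∑ w ∈ Finset.range (2 * 4 ^ (lam + 7 * a * j)),
            E j w s) := fun j => Finset.measurable_fun_sum _ (fun w _ => hEm _ _)
        rw [lintegral_finsetSum]
        · refine Finset.sum_congr rfl fun j _ => ?_
          have e2 := lint_three (hm2 j) (hm3 j) (hm4 j) Q (Q * R * p) (2 * Q + Q * R * p + 2 * p)
          have e3 : ∫⁻ s, ∑ w ∈ Finset.range (2 * 4 ^ (lam + 7 * a * j)),
              (avgc (4 ^ (lam + 7 * a * j + 5 * a)) (chw e χ (lam + 7 * a * j) w) s +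
              avgc (4 ^ (lam + 7 * a * j) / 4 ^ (2 * a)) (chw e χ (lam + 7 * a * j) w) s) *
              ‖Dj sg J H (lam + 7 * a * j) w s‖ₑ ^ 2 =
              ∑ w ∈ Finset.range (2 * 4 ^ (lam + 7 * a * j)), ∫⁻ s,
              (avgc (4 ^ (lam + 7 * a * j + 5 * a)) (chw e χ (lam + 7 * a * j) w) s +
              avgc (4 ^ (lam + 7 * a * j) / 4 ^ (2 * a)) (chw e χ (lam + 7 * a * j) w) s) *
              ‖Dj sg J H (lam + 7 * a * j) w s‖ₑ ^ 2 :=
            lintegral_finsetSum _ (fun w _ =>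
              ((avgc_meas _ _).add (avgc_meas _ _)).mul (hDm _ _))
          rw [e2, e3, lintegral_finsetSum _ (fun w _ => hDm _ _),
            lintegral_finsetSum _ (fun w _ => hEm _ _)]
        · intro j _
          exact (((hm2 j).const_mul Q).add ((hm3 j).const_mul _)).add ((hm4 j).const_mul _)

theorem p_le {a i e lam p : ℕ} (ha : 20 ≤ a) (hei : e - i ≤ 2 ^ a) (hi : i < lam + 7 * a)
    (hp : lam + 7 * a * p ≤ e) : p ≤ 2 ^ a := by
  rcases Nat.eq_zero_or_pos p with h0 | h0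
  · subst h0
    exact Nat.zero_le _
  · obtain ⟨q, rfl⟩ : ∃ q, p = q + 1 := ⟨p - 1, by omega⟩
    have h1 : 7 * a * (q + 1) = 7 * a * q + 7 * a := by ring
    have h2 : q ≤ 7 * a * q := Nat.le_mul_of_pos_left _ (by omega)
    omega

theorem sq_le_pow {a : ℕ} (ha : 20 ≤ a) : a ^ 2 ≤ 2 ^ a := by
  induction a, ha using Nat.le_induction with
  | base => norm_num
  | succ n hn ih =>
    calc (n + 1) ^ 2 ≤ 2 * n ^ 2 := by nlinarith
      _ ≤ 2 * 2 ^ n := by omega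
      _ = 2 ^ (n + 1) := by ring

end GDJ_

open GDJ_

theorem pGDJ (hBEL : tBEL) (hEA : tEA) (hEB : tEB) : tGDJ := by
  obtain ⟨CA, hCA⟩ := hEA
  obtain ⟨CB, hCB⟩ := hEB
  refine ⟨10 ^ 7 * (1 + CA + CB), ?_⟩
  intro a i e b lam p sg J H χ h1D hi hp
  obtain ⟨ha, hai, hie, hei, hH, hHfr, hJ, hχ, hχ1⟩ := h1D
  -- the error functions
  have hex : ∀ j w, ∃ E : ℝ → ℝ≥0∞, Measurable E ∧ (1 ≤ j → j ≤ p →
      (∀ r s, cdr sg (lam + 7 * a * j) w r →
        ‖GG sg J H (lam + 7 * a * j) w r s -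
        (avgC (4 ^ (lam + 7 * a * j) / 4 ^ (2 * a)) (GG sg J H (lam + 7 * a * j) w r) s -
          avgC (4 ^ (lam + 7 * a * j + 5 * a)) (GG sg J H (lam + 7 * a * j) w r) s)‖ₑ ^ 2 ≤
        E s) ∧ ∫⁻ s, E s ≤ (32 * CA + 2 * CB) * ENNReal.ofReal (1 / 2 ^ (6 * a)) *
        n1 (Hn sg J H (lam + 7 * a * j) w)) := by
    intro j w
    by_cases h : 1 ≤ j ∧ j ≤ p
    · have hl1 : i ≤ lam + 7 * a * j := by
        have : 7 * a * 1 ≤ 7 * a * j := Nat.mul_le_mul_left _ h.1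
        omega
      have hl2 : lam + 7 * a * j ≤ e :=
        (Nat.add_le_add_left (Nat.mul_le_mul_left _ h.2) _).trans hp
      obtain ⟨E, h1, h2, h3⟩ := err_exists hCA hCB a (lam + 7 * a * j) w sg J H hH
        (fun c hc => hJ _ _ c hc) (fun ζ hζ => (hHfr ζ hζ).2 _ hl1 hl2)
      exact ⟨E, h1, fun _ _ => ⟨h2, h3⟩⟩
    · exact ⟨fun _ => 0, measurable_const, fun h1 h2 => absurd ⟨h1, h2⟩ h⟩
  choose E hEm hE using hex
  have htot := total_bound hBEL hH hχ hχ1 hp hEm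
    (fun j w h1 h2 => (hE j w h1 h2).1)
  refine htot.trans ?_
  -- the sums of norms
  have hD : ∀ j, ∑ w ∈ Finset.range (2 * 4 ^ (lam + 7 * a * j)),
      ∫⁻ s, ‖Dj sg J H (lam + 7 * a * j) w s‖ₑ ^ 2 ≤ 4 * n1 H := by
    intro j
    simp only [Dj_norm hH]
    exact sum_n1 hH _ _ (fun w c hc => (hJ _ w c hc).1)
  have hEs : ∀ j, 1 ≤ j → j ≤ p → ∑ w ∈ Finset.range (2 * 4 ^ (lam + 7 * a * j)),
      ∫⁻ s, E j w s ≤ (32 * CA + 2 * CB) * ENNReal.ofReal (1 / 2 ^ (6 * a)) * (4 * n1 H) := by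
    intro j h1 h2
    calc _ ≤ ∑ w ∈ Finset.range (2 * 4 ^ (lam + 7 * a * j)),
        (32 * CA + 2 * CB) * ENNReal.ofReal (1 / 2 ^ (6 * a)) *
          n1 (Hn sg J H (lam + 7 * a * j) w) :=
          Finset.sum_le_sum fun w _ => (hE j w h1 h2).2
      _ = (32 * CA + 2 * CB) * ENNReal.ofReal (1 / 2 ^ (6 * a)) *
          ∑ w ∈ Finset.range (2 * 4 ^ (lam + 7 * a * j)),
            n1 (Hn sg J H (lam + 7 * a * j) w) := by rw [Finset.mul_sum]
      _ ≤ _ := by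
          gcongr
          exact sum_n1 hH _ _ (fun w c hc => (hJ _ w c hc).1)
  -- powers of `2^a`
  set X : ℝ≥0∞ := ENNReal.ofReal (2 ^ a) with hX
  set y : ℝ≥0∞ := ENNReal.ofReal (1 / 2 ^ a) with hy
  have hyn : ∀ n : ℕ, ENNReal.ofReal (1 / 2 ^ (n * a)) = y ^ n := by
    intro n
    rw [hy, ← ENNReal.ofReal_pow (by positivity), div_pow, one_pow, ← pow_mul, mul_comm a n]
  have hXy : X * y = 1 := by
    rw [hX, hy, ← ENNReal.ofReal_mul (by positivity), mul_one_div_cancel (by positivity),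
      ENNReal.ofReal_one]
  have hXn : (X : ℝ≥0∞) = ((2 ^ a : ℕ) : ℝ≥0∞) := by
    rw [hX, ← ENNReal.ofReal_natCast]
    push_cast
    rfl
  have hy1 : y ≤ 1 := by
    rw [hy, ← ENNReal.ofReal_one]
    apply ENNReal.ofReal_le_ofReal
    rw [div_le_one (by positivity)]
    exact one_le_pow₀ (by norm_num)
  have hR : 2 * ENNReal.ofReal (1 / 2 ^ (30 * a)) * ENNReal.ofReal (2 ^ (20 * a)) =
      2 * y ^ 10 := by
    rw [← hyn 10, mul_assoc, ← ENNReal.ofReal_mul (by positivity)]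
    congr 2
    rw [show 30 * a = 10 * a + 20 * a by ring, pow_add]
    field_simp
  have hpX : (p : ℝ≥0∞) ≤ X := by
    rw [hXn]
    exact_mod_cast p_le ha hei hi hp
  have ha2 : (a : ℝ≥0∞) ^ 2 ≤ X := by
    rw [hXn]
    exact_mod_cast sq_le_pow ha
  have hK : Kc (1 / 2 ^ (30 * a)) ≤ 3600 * (a : ℝ≥0∞) ^ 2 := Kc_le (by omega)
  have hK' : 4 * Kc (1 / 2 ^ (30 * a)) ≤ 14400 * (a : ℝ≥0∞) ^ 2 := by
    calc _ ≤ 4 * (3600 * (a : ℝ≥0∞) ^ 2) := by gcongr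
      _ = _ := by
        rw [← mul_assoc]
        norm_num
  have hK2 : 4 * Kc (1 / 2 ^ (30 * a)) ≤ 14400 * X := hK'.trans (by gcongr)
  rw [hR, hyn 3]
  rw [hyn 6] at hEs
  generalize 4 * Kc (1 / 2 ^ (30 * a)) = Q at hK' hK2 ⊢
  have har := arith_final (CE := 32 * CA + 2 * CB) hXy hy1 hpX hK2 rfl
  calc _ ≤ ∑ j ∈ Finset.Icc 1 p, (Q *
      (∑ w ∈ Finset.range (2 * 4 ^ (lam + 7 * a * j)), ∫⁻ s,
        (avgc (4 ^ (lam + 7 * a * j + 5 * a)) (chw e χ (lam + 7 * a * j) w) s +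
        avgc (4 ^ (lam + 7 * a * j) / 4 ^ (2 * a)) (chw e χ (lam + 7 * a * j) w) s) *
          ‖Dj sg J H (lam + 7 * a * j) w s‖ₑ ^ 2) +
      Q * (2 * y ^ 10) * p * (4 * n1 H) +
      (2 * Q + Q * (2 * y ^ 10) * p + 2 * p) * ((32 * CA + 2 * CB) * y ^ 6 * (4 * n1 H))) := by
        refine Finset.sum_le_sum fun j hj => ?_
        obtain ⟨hj1, hj2⟩ := Finset.mem_Icc.1 hj
        gcongr Q * _ + Q * (2 * y ^ 10) * p * ?_ +
          (2 * Q + Q * (2 * y ^ 10) * p + 2 * p) * ?_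
        · exact hD j
        · exact hEs j hj1 hj2
    _ = Q * (∑ j ∈ Finset.Icc 1 p, ∑ w ∈ Finset.range (2 * 4 ^ (lam + 7 * a * j)), ∫⁻ s,
        (avgc (4 ^ (lam + 7 * a * j + 5 * a)) (chw e χ (lam + 7 * a * j) w) s +
        avgc (4 ^ (lam + 7 * a * j) / 4 ^ (2 * a)) (chw e χ (lam + 7 * a * j) w) s) *
          ‖Dj sg J H (lam + 7 * a * j) w s‖ₑ ^ 2) +
        p * (Q * (2 * y ^ 10) * p * 4 + (2 * Q + Q * (2 * y ^ 10) * p + 2 * p) *
          (4 * ((32 * CA + 2 * CB) * y ^ 6))) * n1 H := by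
        rw [Finset.sum_add_distrib, Finset.sum_add_distrib, ← Finset.mul_sum, Finset.sum_const,
          Finset.sum_const, Nat.card_Icc, Nat.add_sub_cancel, nsmul_eq_mul, nsmul_eq_mul]
        ring
    _ ≤ (14400 * (a : ℝ≥0∞) ^ 2) * (∑ j ∈ Finset.Icc 1 p,
        ∑ w ∈ Finset.range (2 * 4 ^ (lam + 7 * a * j)), ∫⁻ s,
        (avgc (4 ^ (lam + 7 * a * j + 5 * a)) (chw e χ (lam + 7 * a * j) w) s +
        avgc (4 ^ (lam + 7 * a * j) / 4 ^ (2 * a)) (chw e χ (lam + 7 * a * j) w) s) *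
          ‖Dj sg J H (lam + 7 * a * j) w s‖ₑ ^ 2) +
        ((115200 + 230408 * (32 * CA + 2 * CB)) * y ^ 3) * n1 H := by
        gcongr
    _ ≤ _ := by
        have e1 : (((10 ^ 7 * (1 + CA + CB) : ℝ≥0)) : ℝ≥0∞) = 10 ^ 7 * (1 + CA + CB) := by
          push_cast
          rfl
        rw [e1]
        refine add_le_add (mul_le_mul' ?_ le_rfl) (mul_le_mul' ?_ le_rfl)
        · gcongr
          calc (14400 : ℝ≥0∞) ≤ 10 ^ 7 * 1 := by norm_num
            _ ≤ 10 ^ 7 * (1 + CA + CB) := by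
              gcongr
              rw [add_assoc]
              exact le_self_add
        · gcongr
          calc (115200 : ℝ≥0∞) + 230408 * (32 * CA + 2 * CB) =
              115200 * 1 + 7373056 * CA + 460816 * CB := by ring
            _ ≤ 10 ^ 7 * 1 + 10 ^ 7 * CA + 10 ^ 7 * CB := by
              gcongr <;> norm_num
            _ = _ := by ring

end Pool.Agent.LLog
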