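import Pool.Agent.LLog.Targets
import Pool.Agent.KSP.V2
import Pool.Agent.KSP.Block

set_option autoImplicit false

/-! MP_ee701d_an, LLog: the popular part (tGOD). -/

namespace Pool.Agent.LLog

open MeasureTheory Set
open scoped ENNReal NNReal ComplexConjugate
open Pool.Agent.KSP (ee dot nr Ex Ex1 Bd Bd1 n1 n2 lg V0 ann tPl2)

namespace GOD_

/-- shell -/
def sh (α β : ℝ) : Set (ℝ × ℝ) := {ξ | α ≤ nr ξ ∧ nr ξ < β}

lemma nr_meas : Measurable nr := KSP.Block_.nr_meas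

lemma sh_meas (α β : ℝ) : MeasurableSet (sh α β) :=
  (measurableSet_le measurable_const nr_meas).inter (measurableSet_lt nr_meas measurable_const)

lemma lt_meas (β : ℝ) : MeasurableSet {ξ : ℝ × ℝ | nr ξ < β} :=
  measurableSet_lt nr_meas measurable_const

lemma Sdiff {h : ℝ × ℝ → ℂ} (hh : Bd h) {α β : ℝ} (hab : α ≤ β) (x : ℝ × ℝ) :
    Ex ({ξ | nr ξ < β}.indicator h) x - Ex ({ξ | nr ξ < α}.indicator h) x =
      Ex ((sh α β).indicator h) x := by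
  unfold Ex
  rw [← integral_sub (KSP.Block_.int_ee (KSP.Block_.bd_int (KSP.Block_.bd_ind hh (lt_meas β))) x)
    (KSP.Block_.int_ee (KSP.Block_.bd_int (KSP.Block_.bd_ind hh (lt_meas α))) x)]
  congr 1
  ext ξ
  rw [← sub_mul]
  congr 1
  by_cases h1 : nr ξ < α
  · rw [indicator_of_mem (show ξ ∈ {ξ : ℝ × ℝ | nr ξ < β} from h1.trans_le hab),
      indicator_of_mem (show ξ ∈ {ξ : ℝ × ℝ | nr ξ < α} from h1), sub_self,
      indicator_of_notMem (fun h2 => absurd h1 (not_lt.mpr h2.1))]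
  · by_cases h2 : nr ξ < β
    · rw [indicator_of_mem (show ξ ∈ {ξ : ℝ × ℝ | nr ξ < β} from h2),
        indicator_of_notMem (show ξ ∉ {ξ : ℝ × ℝ | nr ξ < α} from h1), sub_zero,
        indicator_of_mem (show ξ ∈ sh α β from ⟨not_lt.mp h1, h2⟩)]
    · rw [indicator_of_notMem (show ξ ∉ {ξ : ℝ × ℝ | nr ξ < β} from h2),
        indicator_of_notMem (show ξ ∉ {ξ : ℝ × ℝ | nr ξ < α} from h1), sub_zero,
        indicator_of_notMem (fun h3 => h2 h3.2)]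

lemma esq (z : ℂ) : ‖z‖ₑ ^ 2 = ENNReal.ofReal (‖z‖ ^ 2) := by
  rw [ENNReal.ofReal_pow (norm_nonneg _), ofReal_norm]

lemma Ex_meas {h : ℝ × ℝ → ℂ} (hh : Bd h) : Measurable (Ex h) :=
  (KSP.Block_.Ex_cont (KSP.Block_.bd_int hh)).measurable

lemma sq_meas {h : ℝ × ℝ → ℂ} (hh : Bd h) : Measurable (fun x => ‖Ex h x‖ₑ ^ 2) :=
  (Ex_meas hh).enorm.pow_const 2

/-! ### squares -/

lemma sd_pos (a e : ℕ) : 0 < sd a e := by unfold sd; positivity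

lemma de_pos (a e : ℕ) : 0 < de a e := by unfold de; positivity

lemma Qx_meas (a : ℕ) (z0 : ℝ × ℝ) (e : ℕ) : Measurable (Qx a z0 e) := by
  unfold Qx
  exact Measurable.prodMk (Int.measurable_floor.comp (by fun_prop))
    (Int.measurable_floor.comp (by fun_prop))

lemma fl (a e k : ℕ) (y : ℝ) : ⌊y / sd a (e + k)⌋ = ⌊y / sd a e⌋ / ((2 ^ k : ℕ) : ℤ) := by
  rw [← Int.floor_div_natCast]
  congr 1
  unfold sd
  rw [show e + k + 18 * a = (e + 18 * a) + k by ring, pow_add]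
  push_cast
  field_simp

lemma Qx_nest (a : ℕ) (z0 : ℝ × ℝ) {e e' : ℕ} (he : e ≤ e') {x y : ℝ × ℝ}
    (h : Qx a z0 e x = Qx a z0 e y) : Qx a z0 e' x = Qx a z0 e' y := by
  obtain ⟨k, rfl⟩ := Nat.exists_eq_add_of_le he
  unfold Qx at h ⊢
  rw [Prod.mk.injEq] at h ⊢
  exact ⟨by rw [fl, fl, h.1], by rw [fl, fl, h.2]⟩

lemma sat_meas (a : ℕ) (z0 : ℝ × ℝ) (e : ℕ) (X : Set (ℝ × ℝ))
    (hX : ∀ x y, Qx a z0 e x = Qx a z0 e y → x ∈ X → y ∈ X) : MeasurableSet X := by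
  have h1 : X = Qx a z0 e ⁻¹' (Qx a z0 e '' X) := by
    ext x
    constructor
    · intro hx
      exact ⟨x, hx, rfl⟩
    · rintro ⟨y, hy, hxy⟩
      exact hX y x hxy hy
  rw [h1]
  exact Qx_meas a z0 e (MeasurableSet.of_discrete)

lemma Sb_loc (a : ℕ) (z0 : ℝ × ℝ) (T : Finset Top) {i e b : ℕ} {x y : ℝ × ℝ}
    (h : Qx a z0 e x = Qx a z0 e y) :
    Sb (TX a z0 T x) i e b = Sb (TX a z0 T y) i e b := by
  classical
  ext t
  unfold Sb TX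
  simp only [Finset.mem_filter]
  constructor
  · rintro ⟨⟨h1, h2⟩, h3, h4⟩
    exact ⟨⟨h1, by rw [← Qx_nest a z0 h3 h, h2]⟩, h3, h4⟩
  · rintro ⟨⟨h1, h2⟩, h3, h4⟩
    exact ⟨⟨h1, by rw [Qx_nest a z0 h3 h, h2]⟩, h3, h4⟩

lemma Lb_unique {T : Finset Top} {pr : Top → ℕ} (hpr : ∀ t ∈ T, ∀ t' ∈ T, pr t = pr t' → t = t')
    {S : Finset Top} (hS : S ⊆ T) {t t' : Top} (h : Lb pr S t) (h' : Lb pr S t') : t = t' :=
  hpr t (hS h.1) t' (hS h'.1) (le_antisymm (h'.2 t h.1) (h.2 t' h'.1))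

lemma TX_sub (a : ℕ) (z0 : ℝ × ℝ) (T : Finset Top) (x : ℝ × ℝ) : TX a z0 T x ⊆ T := by
  classical
  unfold TX
  exact Finset.filter_subset _ _

lemma Sb_sub (S : Finset Top) (i e b : ℕ) : Sb S i e b ⊆ S := by
  classical
  unfold Sb
  exact Finset.filter_subset _ _

/-! ### the sets of a block -/

/-- squares where the label of the block `(i, e, b)` is inside `u` -/
def Yb (a m : ℕ) (z0 : ℝ × ℝ) (T : Finset Top) (pr : Top → ℕ) (i e b u : ℕ) : Set (ℝ × ℝ) :=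
  {x | ∃ y ∈ Gd a m z0 T pr, Qx a z0 e y = Qx a z0 e x ∧
    ∃ t, Lb pr (Sb (TX a z0 T y) i e b) t ∧ t.2.1 / 4 ^ (t.1 - e) = u}

lemma Yb_sat (a m : ℕ) (z0 : ℝ × ℝ) (T : Finset Top) (pr : Top → ℕ) (i e b u : ℕ)
    (x y : ℝ × ℝ) (h : Qx a z0 e x = Qx a z0 e y) (hx : x ∈ Yb a m z0 T pr i e b u) :
    y ∈ Yb a m z0 T pr i e b u := by
  obtain ⟨w, hw, h1, h2⟩ := hx
  exact ⟨w, hw, h1.trans h, h2⟩

lemma Yb_meas (a m : ℕ) (z0 : ℝ × ℝ) (T : Finset Top) (pr : Top → ℕ) (i e b u : ℕ) :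
    MeasurableSet (Yb a m z0 T pr i e b u) :=
  sat_meas a z0 e _ (Yb_sat a m z0 T pr i e b u)

/-- one square -/
lemma sq_fin (a : ℕ) (z0 : ℝ × ℝ) (e : ℕ) (z : ℤ × ℤ) :
    volume {x : ℝ × ℝ | Qx a z0 e x = z} < ⊤ := by
  have hs := sd_pos a e
  have h1 : {x : ℝ × ℝ | Qx a z0 e x = z} ⊆
      Icc (z0.1 + z.1 * sd a e) (z0.1 + (z.1 + 1) * sd a e) ×ˢ
        Icc (z0.2 + z.2 * sd a e) (z0.2 + (z.2 + 1) * sd a e) := by
    intro x hx
    have hx' : Qx a z0 e x = z := hx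
    unfold Qx at hx'
    rw [Prod.ext_iff] at hx'
    obtain ⟨h1, h2⟩ := hx'
    simp only at h1 h2
    rw [Int.floor_eq_iff] at h1 h2
    rw [le_div_iff₀ hs, div_lt_iff₀ hs] at h1 h2
    refine ⟨⟨by linarith [h1.1], by linarith [h1.2]⟩, ⟨by linarith [h2.1], by linarith [h2.2]⟩⟩
  refine (measure_mono h1).trans_lt ?_
  exact (isCompact_Icc.prod isCompact_Icc).measure_lt_top

lemma Yb_fin (a m : ℕ) (z0 : ℝ × ℝ) (T : Finset Top) (pr : Top → ℕ) (i e b u : ℕ) :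
    volume (Yb a m z0 T pr i e b u) < ⊤ := by
  classical
  have h1 : Yb a m z0 T pr i e b u ⊆ ⋃ t ∈ T, {x : ℝ × ℝ | Qx a z0 t.1 x = t.2.2} := by
    rintro x ⟨y, -, hy, t, ht, -⟩
    have h2 := ht.1
    unfold Sb TX at h2
    simp only [Finset.mem_filter] at h2
    simp only [mem_iUnion]
    exact ⟨t, h2.1.1, by rw [mem_ofPred_eq, ← Qx_nest a z0 h2.2.1 hy]; exact h2.1.2⟩
  refine (measure_mono h1).trans_lt ?_
  refine (measure_biUnion_finset_le T _).trans_lt ?_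
  exact ENNReal.sum_lt_top.mpr fun t _ => sq_fin a z0 t.1 t.2.2

lemma Yb_disj (a m : ℕ) (z0 : ℝ × ℝ) (T : Finset Top) (pr : Top → ℕ)
    (hpr : ∀ t ∈ T, ∀ t' ∈ T, pr t = pr t' → t = t') (i e b u u' : ℕ) (huu : u ≠ u') :
    Disjoint (Yb a m z0 T pr i e b u) (Yb a m z0 T pr i e b u') := by
  rw [Set.disjoint_left]
  rintro x ⟨y, -, hy, t, ht, hu⟩ ⟨y', -, hy', t', ht', hu'⟩
  rw [Sb_loc a z0 T (hy'.trans hy.symm)] at ht'
  have := Lb_unique hpr ((Sb_sub _ _ _ _).trans (TX_sub a z0 T y)) ht ht'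
  subst this
  exact huu (hu.symm.trans hu')

/-! ### pointwise inequality -/

/-- condition of a block term at `x` -/
def cnd (a m : ℕ) (z0 : ℝ × ℝ) (T : Finset Top) (pr : Top → ℕ) (rr ls : ℝ × ℝ → ℕ)
    (s n u : ℕ) (x : ℝ × ℝ) : Prop :=
  10 * a ≤ n * 2 ^ s ∧ (n + 1) * 2 ^ s ≤ ls x ∧
    (∃ t, Lb pr (Sb (TX a z0 T x) (n * 2 ^ s) ((n + 1) * 2 ^ s) (rr x / 4 ^ (m - n * 2 ^ s))) t ∧
      t.2.1 / 4 ^ (t.1 - (n + 1) * 2 ^ s) = u)

/-- value of a block term -/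
noncomputable def vl (sg : ℝ) (h : ℝ × ℝ → ℂ) (i e b u : ℕ) (x : ℝ × ℝ) : ℝ≥0∞ :=
  ‖Ex ({ξ | sg + b / 4 ^ i ≤ nr ξ ∧ nr ξ < sg + u / 4 ^ e}.indicator h) x‖ₑ ^ 2 +
    ‖Ex ({ξ | sg + (u + 1) / 4 ^ e ≤ nr ξ ∧ nr ξ < sg + (b + 1) / 4 ^ i}.indicator h) x‖ₑ ^ 2

lemma ofite (p : Prop) [Decidable p] (t : ℝ) :
    ENNReal.ofReal (if p then t else 0) = if p then ENNReal.ofReal t else 0 := by
  split_ifs <;> simp

lemma div_rel {i e b : ℕ} (t : Top) (hie : i ≤ e) (het : e ≤ t.1)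
    (hb : t.2.1 / 4 ^ (t.1 - i) = b) : (t.2.1 / 4 ^ (t.1 - e)) / 4 ^ (e - i) = b := by
  rw [Nat.div_div_eq_div_mul, ← pow_add, show t.1 - e + (e - i) = t.1 - i by omega, hb]

lemma le_of_div {u b i e : ℕ} (hie : i ≤ e) (h : u / 4 ^ (e - i) = b) (sg : ℝ) :
    sg + (b : ℝ) / 4 ^ i ≤ sg + (u : ℝ) / 4 ^ e ∧
      sg + ((u : ℝ) + 1) / 4 ^ e ≤ sg + ((b : ℝ) + 1) / 4 ^ i := by
  obtain ⟨k, rfl⟩ := Nat.exists_eq_add_of_le hie
  have h4 : (0 : ℝ) < 4 ^ i := by positivity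
  have h4k : (0 : ℝ) < 4 ^ (i + k) := by positivity
  rw [Nat.add_sub_cancel_left] at h
  have h1 : b * 4 ^ k ≤ u := by rw [← h]; exact Nat.div_mul_le_self u _
  have h2 : u + 1 ≤ (b + 1) * 4 ^ k := by
    rw [← h]
    have h5 := Nat.div_add_mod u (4 ^ k)
    have h6 := Nat.mod_lt u (show 0 < 4 ^ k by positivity)
    nlinarith
  have h1' : (b : ℝ) * 4 ^ k ≤ u := by exact_mod_cast h1
  have h2' : (u : ℝ) + 1 ≤ (b + 1) * 4 ^ k := by exact_mod_cast h2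
  constructor
  · have : (b : ℝ) / 4 ^ i ≤ (u : ℝ) / 4 ^ (i + k) := by
      rw [div_le_div_iff₀ h4 h4k, pow_add]
      nlinarith
    linarith
  · have : ((u : ℝ) + 1) / 4 ^ (i + k) ≤ ((b : ℝ) + 1) / 4 ^ i := by
      rw [div_le_div_iff₀ h4k h4, pow_add]
      nlinarith
    linarith

lemma cd_eq (sg : ℝ) (l c : ℕ) :
    {ξ : ℝ × ℝ | cd sg l c ξ} = sh (sg + c / 4 ^ l) (sg + (c + 1) / 4 ^ l) := by
  have h4 : (0 : ℝ) < 4 ^ l := by positivity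
  ext ξ
  simp only [mem_ofPred_eq, cd, cdr, sh]
  constructor
  · rintro ⟨h1, h2⟩
    constructor
    · have : (c : ℝ) / 4 ^ l ≤ nr ξ - sg := by rw [div_le_iff₀ h4]; linarith
      linarith
    · have : nr ξ - sg < ((c : ℝ) + 1) / 4 ^ l := by rw [lt_div_iff₀ h4]; linarith
      linarith
  · rintro ⟨h1, h2⟩
    constructor
    · have : (c : ℝ) / 4 ^ l ≤ nr ξ - sg := by linarith
      rw [div_le_iff₀ h4] at this; linarith
    · have : nr ξ - sg < ((c : ℝ) + 1) / 4 ^ l := by linarith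
      rw [lt_div_iff₀ h4] at this; linarith

/-- difference of `S` at two radii -/
lemma Sd2 {h : ℝ × ℝ → ℂ} (hh : Bd h) {α β : ℝ} (hab : α ≤ β) (x : ℝ × ℝ) :
    ENNReal.ofReal (‖Ex ({ξ | nr ξ < β}.indicator h) x - Ex ({ξ | nr ξ < α}.indicator h) x‖ ^ 2) =
      ‖Ex ({ξ | α ≤ nr ξ ∧ nr ξ < β}.indicator h) x‖ₑ ^ 2 := by
  rw [Sdiff hh hab, esq]
  rfl

lemma anc_lt {r m l : ℕ} (hr : r < 2 * 4 ^ m) (hl : l ≤ m) : r / 4 ^ (m - l) < 2 * 4 ^ l := by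
  rw [Nat.div_lt_iff_lt_mul (by positivity), mul_assoc, ← pow_add, show l + (m - l) = m by omega]
  exact hr

lemma anc_anc (r : ℕ) {m l l' : ℕ} (h1 : l ≤ l') (h2 : l' ≤ m) :
    r / 4 ^ (m - l') / 4 ^ (l' - l) = r / 4 ^ (m - l) := by
  rw [Nat.div_div_eq_div_mul, ← pow_add, show m - l' + (l' - l) = m - l by omega]

lemma ptw (hT : tTRE) (a m : ℕ) (sg : ℝ) (z0 : ℝ × ℝ) (T : Finset Top) (pr : Top → ℕ)
    (rr ls : ℝ × ℝ → ℕ) (h : ℝ × ℝ → ℂ) (hPA : PA a m)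
    (hpr : ∀ t ∈ T, ∀ t' ∈ T, pr t = pr t' → t = t') (hh : Bd h) (x : ℝ × ℝ)
    (hG : x ∈ Gd a m z0 T pr) (hrr : rr x < 2 * 4 ^ m) (hls : 10 * a ≤ ls x ∧ ls x ≤ m)
    (hne : ∀ l, 10 * a ≤ l → l < ls x → (Sb (TX a z0 T x) l l (rr x / 4 ^ (m - l))).Nonempty) :
    ‖Ex ({ξ | sg + (rr x / 4 ^ (m - 10 * a) : ℕ) / 4 ^ (10 * a) ≤ nr ξ ∧
      nr ξ < sg + (rr x / 4 ^ (m - ls x) : ℕ) / 4 ^ (ls x)}.indicator h) x‖ₑ ^ 2 ≤
    (32 * (200 * a + 2) * (a + 2)) * (open Classical in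
      ((∑ s ∈ Finset.range (a + 1), ∑ n ∈ Finset.range (m + 1), ∑ u ∈ Finset.range (2 * 4 ^ m),
        if cnd a m z0 T pr rr ls s n u x then
          vl sg h (n * 2 ^ s) ((n + 1) * 2 ^ s) (rr x / 4 ^ (m - n * 2 ^ s)) u x else 0) +
      (∑ l ∈ Finset.Ioc (10 * a) m, ∑ c ∈ Finset.range (2 * 4 ^ l),
        if c / 4 = rr x / 4 ^ (m - (l - 1)) ∧ EvC pr (TX a z0 T x) l c then
          ‖Ex ({ξ | cd sg l c ξ}.indicator h) x‖ₑ ^ 2 else 0) +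
      ‖Ex ({ξ | cd sg (10 * a) (rr x / 4 ^ (m - 10 * a)) ξ}.indicator h) x‖ₑ ^ 2)) := by
  classical
  obtain ⟨ha, hm1, hm2⟩ := hPA
  have key := hT a m (10 * a) (ls x) (rr x) (200 * a) sg (TX a z0 T x) pr
    (fun ρ => Ex ({ξ | nr ξ < ρ}.indicator h) x) hls.1 hls.2 hm1 hrr
    (fun t ht t' ht' => hpr t (TX_sub a z0 T x ht) t' (TX_sub a z0 T x ht')) hne
    (hG.2.1 (rr x))
  have key2 := ENNReal.ofReal_le_ofReal key
  have hle : sg + ((rr x / 4 ^ (m - 10 * a) : ℕ) : ℝ) / 4 ^ (10 * a) ≤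
      sg + ((rr x / 4 ^ (m - ls x) : ℕ) : ℝ) / 4 ^ (ls x) :=
    (le_of_div hls.1 (anc_anc (rr x) hls.1 hls.2) sg).1
  rw [Sd2 hh hle] at key2
  refine key2.trans ?_
  rw [ENNReal.ofReal_mul (by positivity)]
  refine mul_le_mul' ?_ ?_
  · rw [show (32 * ((200 * a : ℕ) + 2) * (a + 2) : ℝ) = ((32 * (200 * a + 2) * (a + 2) : ℕ) : ℝ) by
      push_cast; ring, ENNReal.ofReal_natCast]
    push_cast
    exact le_refl _
  · refine ENNReal.ofReal_add_le.trans (add_le_add (ENNReal.ofReal_add_le.trans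
      (add_le_add ?_ ?_)) ?_)
    · rw [ENNReal.ofReal_sum_of_nonneg (fun s _ => Finset.sum_nonneg fun n _ =>
        Finset.sum_nonneg fun u _ => by split_ifs <;> positivity)]
      refine Finset.sum_le_sum fun s _ => ?_
      rw [ENNReal.ofReal_sum_of_nonneg (fun n _ =>
        Finset.sum_nonneg fun u _ => by split_ifs <;> positivity)]
      refine Finset.sum_le_sum fun n _ => ?_
      rw [ENNReal.ofReal_sum_of_nonneg (fun u _ => by split_ifs <;> positivity)]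
      refine Finset.sum_le_sum fun u _ => ?_
      rw [ofite]
      refine le_of_le_of_eq ?_ (if_congr (Iff.refl _) rfl rfl)
      by_cases hc : cnd a m z0 T pr rr ls s n u x
      · refine le_trans (le_of_eq (if_pos hc)) (le_trans ?_ (le_of_eq (if_pos hc).symm))
        obtain ⟨h1, h2, t, ht, hu⟩ := hc
        have hie : n * 2 ^ s ≤ (n + 1) * 2 ^ s := Nat.mul_le_mul_right _ (Nat.le_succ n)
        have ht1 := ht.1
        unfold Sb at ht1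
        simp only [Finset.mem_filter] at ht1
        have hub := div_rel t hie ht1.2.1 ht1.2.2.2
        rw [hu] at hub
        obtain ⟨h5, h6⟩ := le_of_div hie hub sg
        refine ENNReal.ofReal_add_le.trans ?_
        unfold vl
        refine add_le_add (le_of_eq ?_) (le_of_eq ?_)
        · exact Sd2 hh h5 x
        · exact Sd2 hh h6 x
      · exact le_trans (le_of_eq (if_neg hc)) zero_le
    · rw [ENNReal.ofReal_sum_of_nonneg (fun s _ => Finset.sum_nonneg fun n _ =>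
        by split_ifs <;> positivity)]
      refine Finset.sum_le_sum fun l _ => ?_
      rw [ENNReal.ofReal_sum_of_nonneg (fun u _ => by split_ifs <;> positivity)]
      refine Finset.sum_le_sum fun c _ => ?_
      split_ifs with hc
      · rw [cd_eq]
        refine le_of_eq (Sd2 hh ?_ x)
        have : (c : ℝ) / 4 ^ l ≤ ((c : ℝ) + 1) / 4 ^ l := by
          apply div_le_div_of_nonneg_right _ (by positivity)
          linarith
        linarith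
      · rw [ENNReal.ofReal_zero]
    · rw [cd_eq]
      refine le_of_eq (Sd2 hh ?_ x)
      have : ((rr x / 4 ^ (m - 10 * a) : ℕ) : ℝ) / 4 ^ (10 * a) ≤
          (((rr x / 4 ^ (m - 10 * a) : ℕ) : ℝ) + 1) / 4 ^ (10 * a) := by
        apply div_le_div_of_nonneg_right _ (by positivity)
        linarith
      linarith

end GOD_

end Pool.Agent.LLog
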