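import Pool.Agent.LLog.Targets
import Pool.Agent.KSP.Base

set_option autoImplicit false

/-! A chain, frequencies deep in the chain. -/

namespace Pool.Agent.LLog

open MeasureTheory Set
open scoped ENNReal NNReal ComplexConjugate
open Pool.Agent.KSP (ee dot nr Ex Ex1 Bd Bd1 n1 n2 lg V0 ann pPl2)

namespace HA_

/-- the interior points of a set form a measurable set -/
lemma inn_meas (δ : ℝ) (X : Set (ℝ × ℝ)) : MeasurableSet (inn δ X) := by
  have h : inn δ X = ⋂ y ∈ Xᶜ, {x : ℝ × ℝ | |y.1 - x.1| < δ ∧ |y.2 - x.2| < δ}ᶜ := by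
    ext x
    simp only [inn, mem_ofPred_eq, mem_iInter, mem_compl_iff]
    constructor
    · intro h y hy hx
      exact hy (h y hx.1 hx.2)
    · intro h y h1 h2
      by_contra hy
      exact h y hy ⟨h1, h2⟩
  rw [h]
  refine IsClosed.measurableSet (isClosed_biInter fun y _ => ?_)
  rw [isClosed_compl_iff]
  refine IsOpen.inter ?_ ?_
  · exact isOpen_lt (f := fun x : ℝ × ℝ => |y.1 - x.1|) (by fun_prop) continuous_const
  · exact isOpen_lt (f := fun x : ℝ × ℝ => |y.2 - x.2|) (by fun_prop) continuous_const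

lemma fr_near {η η' x y : ℝ} (h : fr η x) (hη : 0 ≤ η') (hxy : |y - x| < η - η') : 
    fr η' y := by
  obtain ⟨h1, h2⟩ := h
  rw [abs_lt] at hxy
  have hx := Int.floor_add_fract x
  have hf : ⌊y⌋ = ⌊x⌋ := by
    rw [Int.floor_eq_iff]
    constructor
    · linarith [hxy.1]
    · linarith [hxy.2]
  have e1 : Int.fract y = Int.fract x + (y - x) := by
    unfold Int.fract
    rw [hf]
    ring
  rw [fr, e1]
  constructor
  · linarith [hxy.1]
  · linarith [hxy.2]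

/-- radial codes of the ancestors -/
lemma cdr_anc {sg ζ : ℝ} {l d c : ℕ} (hld : l ≤ d) (h : cdr sg d c ζ) :
    cdr sg l (c / 4 ^ (d - l)) ζ := by
  obtain ⟨h1, h2⟩ := h
  have e1 : (4 : ℝ) ^ d = 4 ^ (d - l) * 4 ^ l := by
    rw [← pow_add]
    congr 1
    omega
  have hp : (0 : ℝ) < 4 ^ (d - l) := by positivity
  have h3 : ((c / 4 ^ (d - l) : ℕ) : ℝ) * 4 ^ (d - l) ≤ c := by
    exact_mod_cast Nat.div_mul_le_self c (4 ^ (d - l))
  have h4 : (c : ℝ) + 1 ≤ (((c / 4 ^ (d - l) : ℕ) : ℝ) + 1) * 4 ^ (d - l) := by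
    have : c < (c / 4 ^ (d - l) + 1) * 4 ^ (d - l) := by
      have := Nat.lt_mul_div_succ c (show 0 < 4 ^ (d - l) by positivity)
      rw [mul_comm]
      exact this
    exact_mod_cast this
  rw [e1] at h1 h2
  constructor
  · by_contra hc
    push Not at hc
    have := mul_lt_mul_of_pos_left hc hp
    nlinarith
  · by_contra hc
    push Not at hc
    have := mul_le_mul_of_nonneg_left hc hp.le
    nlinarith

lemma cdr_near {sg ζ ρ : ℝ} {d c : ℕ} (h1 : cdr sg d c ζ) (h2 : cdr sg d c ρ) :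
    4 ^ d * |ρ - ζ| < 1 := by
  obtain ⟨a1, a2⟩ := h1
  obtain ⟨b1, b2⟩ := h2
  have hp : (0 : ℝ) < 4 ^ d := by positivity
  have : (4 : ℝ) ^ d * |ρ - ζ| = |4 ^ d * (ρ - sg) - 4 ^ d * (ζ - sg)| := by
    rw [← mul_sub, abs_mul, abs_of_pos hp]
    congr 2
    ring
  rw [this, abs_lt]
  constructor <;> linarith

lemma fr_anc {a : ℕ} {sg ζ ρ : ℝ} {d c i : ℕ} (h1 : cdr sg d c ζ) (h2 : cdr sg d c ρ)
    (hi : i + 7 * a ≤ d) (ha : 1 ≤ a) (h : fr (2 / 2 ^ (4 * a)) (4 ^ i * (ζ - sg))) :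
    fr (3 / 2 ^ (4 * a + 1)) (4 ^ i * (ρ - sg)) := by
  refine fr_near h (by positivity) ?_
  have hn := cdr_near h1 h2
  have e1 : (4 : ℝ) ^ i * (ρ - sg) - 4 ^ i * (ζ - sg) = 4 ^ i * (ρ - ζ) := by ring
  rw [e1, abs_mul, abs_of_pos (by positivity : (0 : ℝ) < 4 ^ i)]
  have e2 : (2 : ℝ) / 2 ^ (4 * a) - 3 / 2 ^ (4 * a + 1) = 1 / 2 ^ (4 * a + 1) := by
    rw [pow_succ]
    field_simp
    norm_num
  rw [e2, lt_div_iff₀ (by positivity)]
  refine lt_of_le_of_lt ?_ hn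
  have e3 : (4 : ℝ) ^ d = 4 ^ (d - i) * 4 ^ i := by
    rw [← pow_add]
    congr 1
    omega
  rw [e3]
  have h3 : (2 : ℝ) ^ (4 * a + 1) ≤ 4 ^ (d - i) := by
    have : (4 : ℝ) = 2 ^ 2 := by norm_num
    rw [this, ← pow_mul]
    exact pow_le_pow_right₀ (by norm_num) (by omega)
  have h4 : (0 : ℝ) ≤ 4 ^ i * |ρ - ζ| := by positivity
  nlinarith

/-- sum over disjoint caps -/
lemma caps {ι : Type} (s : Finset ι) (f : ι → ℝ × ℝ → ℂ) (k : ℝ × ℝ → ℂ)
    (hm : ∀ p ∈ s, Measurable (f p)) (hk : Measurable k)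
    (h1 : ∀ p ∈ s, ∀ ξ, ‖f p ξ‖ ≤ 1) (h2 : ∀ p ∈ s, ∀ q ∈ s, ∀ ξ, f p ξ ≠ 0 → f q ξ ≠ 0 → p = q) :
    ∑ p ∈ s, n2 (fun ξ => f p ξ * k ξ) ≤ n2 k := by
  unfold n2
  rw [← lintegral_finsetSum']
  · refine lintegral_mono fun ξ => ?_
    by_cases h : ∃ p ∈ s, f p ξ ≠ 0
    · obtain ⟨p, hp, hf⟩ := h
      rw [Finset.sum_eq_single_of_mem p hp]
      · gcongr
        rw [enorm_mul]
        have : ‖f p ξ‖ₑ ≤ 1 := by
          rw [← ofReal_norm]
          exact ENNReal.ofReal_le_one.mpr (h1 p hp ξ)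
        calc ‖f p ξ‖ₑ * ‖k ξ‖ₑ ≤ 1 * ‖k ξ‖ₑ := by gcongr
          _ = ‖k ξ‖ₑ := one_mul _
      · intro q hq hqp
        have : f q ξ = 0 := by
          by_contra hc
          exact hqp (h2 q hq p hp ξ hc hf)
        simp only [this]
        simp
    · push Not at h
      rw [Finset.sum_eq_zero]
      · exact zero_le
      · intro q hq
        simp only [h q hq]
        simp
  · intro p hp
    exact (((hm p hp).mul hk).enorm.pow_const 2).aemeasurable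

lemma Bd_mul {f k : ℝ × ℝ → ℂ} (hf : Measurable f) (h1 : ∀ ξ, ‖f ξ‖ ≤ 1) (hk : Bd k) :
    Bd (fun ξ => f ξ * k ξ) := by
  obtain ⟨hm, ⟨B, hB⟩, R, hR⟩ := hk
  refine ⟨hf.mul hm, ⟨B, fun ξ => ?_⟩, R, fun ξ hξ => hR ξ ?_⟩
  · rw [norm_mul]
    calc ‖f ξ‖ * ‖k ξ‖ ≤ 1 * B := by
          gcongr
          · exact h1 ξ
          · exact hB ξ
      _ = B := one_mul B
  · exact right_ne_zero_of_mul hξ

lemma numb {a m n : ℕ} (h : PA a m) (hn : n ≤ m) :
    (n : ℝ≥0∞) * (2 * ENNReal.ofReal (1 / 2 ^ m) + ENNReal.ofReal (1 / 2 ^ (5 * a))) ≤ 1 := by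
  obtain ⟨ha, hm, hm2⟩ := h
  have h1 : a + 2 ≤ m := by
    have e1 : 2 ^ a = 4 * 2 ^ (a - 2) := by
      have : a = a - 2 + 2 := by omega
      conv_lhs => rw [this, pow_add]
      ring
    have e2 : a - 2 < 2 ^ (a - 2) := Nat.lt_two_pow_self
    omega
  have e2 : (2 : ℝ≥0∞) * ENNReal.ofReal (1 / 2 ^ m) + ENNReal.ofReal (1 / 2 ^ (5 * a)) =
      ENNReal.ofReal (2 * (1 / 2 ^ m) + 1 / 2 ^ (5 * a)) := by
    rw [ENNReal.ofReal_add (by positivity) (by positivity), ENNReal.ofReal_mul (by norm_num)]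
    norm_num
  have e3 : (n : ℝ≥0∞) = ENNReal.ofReal (n : ℝ) := by simp
  rw [e2, e3, ← ENNReal.ofReal_mul (by positivity), ENNReal.ofReal_le_one]
  have f1 : (1 : ℝ) / 2 ^ m ≤ 1 / 2 ^ (a + 2) := by
    apply one_div_le_one_div_of_le (by positivity)
    exact pow_le_pow_right₀ (by norm_num) h1
  have f2 : (1 : ℝ) / 2 ^ (5 * a) ≤ 1 / 2 ^ (a + 2) := by
    apply one_div_le_one_div_of_le (by positivity)
    exact pow_le_pow_right₀ (by norm_num) (by omega)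
  have f3 : (n : ℝ) ≤ 2 ^ a := by
    exact_mod_cast (hn.trans hm.le)
  calc (n : ℝ) * (2 * (1 / 2 ^ m) + 1 / 2 ^ (5 * a)) ≤
      2 ^ a * (2 * (1 / 2 ^ (a + 2)) + 1 / 2 ^ (a + 2)) := by gcongr
    _ = 3 / 4 := by
        rw [pow_add]
        field_simp
        norm_num
    _ ≤ 1 := by norm_num

lemma cp_unique {sl : ℝ} {j p q : ℕ} {ξ : ℝ × ℝ} (h1 : cp sl j p ξ) (h2 : cp sl j q ξ) :
    p = q := by
  obtain ⟨_, a1, a2⟩ := h1
  obtain ⟨_, b1, b2⟩ := h2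
  have c1 : (p : ℝ) < q + 1 := by linarith
  have c2 : (q : ℝ) < p + 1 := by linarith
  have d1 : p < q + 1 := by exact_mod_cast c1
  have d2 : q < p + 1 := by exact_mod_cast c2
  omega

end HA_

open HA_ in
theorem pHA (hLOC : tLOC) (hTRA : tTRA) (hMUS : tMUS) : tHA := by
  intro a m K sg sl LL e L X r d k hPA hsg0 hsg1 hsl1 hsl2 hCL hX hK hr hd hadm hk hsupp
  obtain ⟨ζ, hζ1, hζ2, hζc, hζ3, hζL⟩ := hadm
  have ha : 20 ≤ a := hPA.1
  obtain ⟨hd1, hd2, hd3, hd4, hd5, hd6⟩ := hCL.1 d hd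
  obtain ⟨hcont, hplan⟩ := pPl2 k hk
  have hone : ∀ l ∈ LL.filter (fun l => l < d), chn a m sg sl e L X r l k ≤
      4 * (∫⁻ x in X l (r / 4 ^ (m - l)), ‖Ex k x‖ₑ ^ 2) +
        (2 * ENNReal.ofReal (1 / 2 ^ m) + ENNReal.ofReal (1 / 2 ^ (5 * a))) * n2 k := by
    intro l hl
    rw [Finset.mem_filter] at hl
    obtain ⟨hlL, hld⟩ := hl
    obtain ⟨hl1, hl2, hl3, hl4, hl5, hl6⟩ := hCL.1 l hlL
    have hgap : l + 7 * a ≤ d := (hCL.2 l hlL d hd hld).1
    obtain ⟨c, hc⟩ : ∃ c, c = r / 4 ^ (m - l) := ⟨_, rfl⟩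
    have hcd : r / 4 ^ (m - d) / 4 ^ (d - l) = c := by
      rw [Nat.div_div_eq_div_mul, ← pow_add, hc]
      congr 2
      omega
    have hcζ : cdr sg l c ζ := by
      rw [← hcd]
      exact cdr_anc hld.le hζc
    have hc1 : c < 2 * 4 ^ l := by
      rw [hc]
      apply Nat.div_lt_of_lt_mul
      calc r < 2 * 4 ^ m := hr
        _ = 4 ^ (m - l) * (2 * 4 ^ l) := by
            have : m = m - l + l := by omega
            conv_lhs => rw [this, pow_add]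
            ring
    have hc2 : 1 < sg + (c + 1) / 4 ^ l := by
      have := hcζ.2
      have hp : (0 : ℝ) < 4 ^ l := by positivity
      have h3 : ζ - sg < (c + 1) / 4 ^ l := by
        rw [lt_div_iff₀ hp]
        linarith
      linarith
    have hM : ∀ p ∈ Finset.range (3 * 2 ^ (e l + 8 * a)), _ := fun p hp =>
      hMUS a m sg sl l (e l + 8 * a) c p hPA hsg0 hsg1 hsl1 hsl2 hl1 hl2 (by omega) (by omega)
        hc1 hc2 (Finset.mem_range.mp hp)
    have hflat : ∀ p ∈ Finset.range (3 * 2 ^ (e l + 8 * a)),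
        (fun ξ => mu a m sg sl l (e l + 8 * a) c p ξ * k ξ) =
        (fun ξ => nu a m sg sl (e l + 8 * a) (c / 4 ^ (l - 3 * a)) p ξ * k ξ) := by
      intro p hp
      funext ξ
      by_cases hkξ : k ξ = 0
      · rw [hkξ, mul_zero, mul_zero]
      · have hξd : cdr sg d (r / 4 ^ (m - d)) (nr ξ) := hsupp ξ hkξ
        have g1 : cd sg l c ξ := by
          rw [← hcd]
          exact cdr_anc hld.le hξd
        rw [(hM p hp).2.2.1 ξ g1 (fr_anc hζc hξd hgap (by omega) (hζL l hlL hld))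
          (fr_anc hζc hξd (by omega) (by omega) hζ3)]
    have hBd : ∀ p ∈ Finset.range (3 * 2 ^ (e l + 8 * a)),
        Bd (fun ξ => nu a m sg sl (e l + 8 * a) (c / 4 ^ (l - 3 * a)) p ξ * k ξ) := fun p hp =>
      Bd_mul (hM p hp).2.1.1.1 (hM p hp).2.1.2.1 hk
    have htra : ∀ p ∈ Finset.range (3 * 2 ^ (e l + 8 * a)),
        ∫⁻ x, sa (tp sl (e l + 8 * a) p) (L l) (inn (de a (e l)) (X l c)) x *
          ‖Ex (fun ξ => nu a m sg sl (e l + 8 * a) (c / 4 ^ (l - 3 * a)) p ξ * k ξ) x‖ₑ ^ 2 ≤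
        2 * (∫⁻ x in inn (de a (e l)) (X l c),
          ‖Ex (fun ξ => nu a m sg sl (e l + 8 * a) (c / 4 ^ (l - 3 * a)) p ξ * k ξ) x‖ₑ ^ 2) +
        ENNReal.ofReal (1 / 2 ^ (5 * a)) *
          n2 (fun ξ => nu a m sg sl (e l + 8 * a) (c / 4 ^ (l - 3 * a)) p ξ * k ξ) := by
      intro p hp
      refine hTRA a m sg sl l d (e l) (r / 4 ^ (m - d)) p (L l) (inn (de a (e l)) (X l c)) _ hPA
        hsg0 hsg1 hsl1 hsl2 hl1 hgap hd2 hl3 hl4 (Finset.mem_range.mp hp) ?_ hl6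
        (inn_meas _ _) (hBd p hp) ?_
      · exact lt_of_lt_of_le (by positivity) hl5
      · intro ξ hξ
        have hkξ : k ξ ≠ 0 := right_ne_zero_of_mul hξ
        have hnξ := left_ne_zero_of_mul hξ
        have hξd : cdr sg d (r / 4 ^ (m - d)) (nr ξ) := hsupp ξ hkξ
        refine ⟨hξd, ((hM p hp).2.1.2.2 ξ hnξ).2, ?_⟩
        have h1 := cdr_near hζc hξd
        have h2 : (1 : ℝ) ≤ 4 ^ d := one_le_pow₀ (by norm_num)
        have h3 : |nr ξ - ζ| < 1 := by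
          have := abs_nonneg (nr ξ - ζ)
          nlinarith
        rw [abs_lt] at h3
        linarith [h3.2]
    have hloc := hLOC a m sg sl l (e l) c (X l c) k hPA hsg0 hsg1 hsl1 hsl2 hl1 hl2 hl3 hl4 hc1
      hc2 (hX l c).1 (hX l c).2 hk
    have hcaps : ∑ p ∈ Finset.range (3 * 2 ^ (e l + 8 * a)),
        n2 (fun ξ => nu a m sg sl (e l + 8 * a) (c / 4 ^ (l - 3 * a)) p ξ * k ξ) ≤ n2 k :=
      caps _ _ k (fun p hp => (hM p hp).2.1.1.1) hk.1 (fun p hp => (hM p hp).2.1.2.1)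
        (fun p hp q hq ξ h1 h2 => cp_unique ((hM p hp).2.1.2.2 ξ h1).2
          ((hM q hq).2.1.2.2 ξ h2).2)
    unfold chn
    rw [← hc]
    calc ∑ p ∈ Finset.range (3 * 2 ^ (e l + 8 * a)), ∫⁻ x,
          sa (tp sl (e l + 8 * a) p) (L l) (inn (de a (e l)) (X l c)) x *
          ‖Ex (fun ξ => mu a m sg sl l (e l + 8 * a) c p ξ * k ξ) x‖ₑ ^ 2
        ≤ ∑ p ∈ Finset.range (3 * 2 ^ (e l + 8 * a)),
          (2 * (∫⁻ x in inn (de a (e l)) (X l c),
            ‖Ex (fun ξ => nu a m sg sl (e l + 8 * a) (c / 4 ^ (l - 3 * a)) p ξ * k ξ) x‖ₑ ^ 2) +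
          ENNReal.ofReal (1 / 2 ^ (5 * a)) *
            n2 (fun ξ => nu a m sg sl (e l + 8 * a) (c / 4 ^ (l - 3 * a)) p ξ * k ξ)) := by
          refine Finset.sum_le_sum fun p hp => ?_
          rw [hflat p hp]
          exact htra p hp
      _ = 2 * (∑ p ∈ Finset.range (3 * 2 ^ (e l + 8 * a)),
          ∫⁻ x in inn (de a (e l)) (X l c),
            ‖Ex (fun ξ => nu a m sg sl (e l + 8 * a) (c / 4 ^ (l - 3 * a)) p ξ * k ξ) x‖ₑ ^ 2) +
          ENNReal.ofReal (1 / 2 ^ (5 * a)) * ∑ p ∈ Finset.range (3 * 2 ^ (e l + 8 * a)),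
            n2 (fun ξ => nu a m sg sl (e l + 8 * a) (c / 4 ^ (l - 3 * a)) p ξ * k ξ) := by
          rw [Finset.sum_add_distrib, ← Finset.mul_sum, ← Finset.mul_sum]
      _ ≤ 2 * (2 * (∫⁻ x in X l c, ‖Ex k x‖ₑ ^ 2) + ENNReal.ofReal (1 / 2 ^ m) * n2 k) +
          ENNReal.ofReal (1 / 2 ^ (5 * a)) * n2 k := by gcongr
      _ = 4 * (∫⁻ x in X l c, ‖Ex k x‖ₑ ^ 2) +
          (2 * ENNReal.ofReal (1 / 2 ^ m) + ENNReal.ofReal (1 / 2 ^ (5 * a))) * n2 k := by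
          ring
  have hsum : ∑ l ∈ LL.filter (fun l => l < d), ∫⁻ x in X l (r / 4 ^ (m - l)), ‖Ex k x‖ₑ ^ 2 ≤
      K * n2 k := by
    have hmeas : Measurable (fun x => ‖Ex k x‖ₑ ^ 2) :=
      hcont.measurable.enorm.pow_const 2
    have h1 : ∀ l ∈ LL.filter (fun l => l < d),
        ∫⁻ x in X l (r / 4 ^ (m - l)), ‖Ex k x‖ₑ ^ 2 =
        ∫⁻ x, (X l (r / 4 ^ (m - l))).indicator (fun x => ‖Ex k x‖ₑ ^ 2) x := fun l _ =>
      (lintegral_indicator (hX l _).1 _).symm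
    rw [Finset.sum_congr rfl h1, ← lintegral_finsetSum']
    · rw [← hplan, ← lintegral_const_mul _ hmeas]
      refine lintegral_mono fun x => ?_
      classical
      have h2 : ∑ l ∈ LL.filter (fun l => l < d),
          (X l (r / 4 ^ (m - l))).indicator (fun x => ‖Ex k x‖ₑ ^ 2) x =
          (((LL.filter (fun l => l < d)).filter (fun l => x ∈ X l (r / 4 ^ (m - l)))).card : ℝ≥0∞) *
            ‖Ex k x‖ₑ ^ 2 := by
        simp only [indicator_apply]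
        rw [← Finset.sum_filter, Finset.sum_const, nsmul_eq_mul]
      simp only at h2 ⊢
      rw [h2]
      gcongr
      refine le_trans (Finset.card_le_card ?_) (hK x)
      intro l hl
      simp only [Finset.mem_filter] at hl ⊢
      exact ⟨hl.1.1, hl.2⟩
    · intro l _
      exact (hmeas.indicator (hX l _).1).aemeasurable
  have hcard : (LL.filter (fun l => l < d)).card ≤ m := by
    calc (LL.filter (fun l => l < d)).card ≤ (Finset.Ioc 0 m).card := by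
          refine Finset.card_le_card fun l hl => ?_
          rw [Finset.mem_filter] at hl
          obtain ⟨h1, h2, _⟩ := hCL.1 l hl.1
          rw [Finset.mem_Ioc]
          omega
      _ = m := by simp
  calc ∑ l ∈ LL.filter (fun l => l < d), chn a m sg sl e L X r l k
      ≤ ∑ l ∈ LL.filter (fun l => l < d),
        (4 * (∫⁻ x in X l (r / 4 ^ (m - l)), ‖Ex k x‖ₑ ^ 2) +
          (2 * ENNReal.ofReal (1 / 2 ^ m) + ENNReal.ofReal (1 / 2 ^ (5 * a))) * n2 k) :=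
        Finset.sum_le_sum hone
    _ = 4 * (∑ l ∈ LL.filter (fun l => l < d),
          ∫⁻ x in X l (r / 4 ^ (m - l)), ‖Ex k x‖ₑ ^ 2) +
        (((LL.filter (fun l => l < d)).card : ℝ≥0∞) *
          (2 * ENNReal.ofReal (1 / 2 ^ m) + ENNReal.ofReal (1 / 2 ^ (5 * a)))) * n2 k := by
        rw [Finset.sum_add_distrib, ← Finset.mul_sum, Finset.sum_const, nsmul_eq_mul, mul_assoc]
    _ ≤ 4 * (K * n2 k) + 1 * n2 k := by
        gcongr
        exact numb hPA hcard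
    _ = (4 * K + 1) * n2 k := by ring

end Pool.Agent.LLog
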