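import Pool.Agent.LLog.Targets
import Pool.Agent.KSP.All1

set_option autoImplicit false

/-! F17, preparations: numbers, the codes `kc`, the level `lst`. -/

namespace Pool.Agent.LLog

open MeasureTheory Set
open scoped ENNReal NNReal
open Pool.Agent.KSP (ee dot nr Ex Ex1 Bd Bd1 n1 n2 lg V0 ann)

namespace LIN_

/-! ### Numbers -/

theorem PA_lg {m : ℕ} (hm : 1 ≤ m) (h : 20 ≤ lg m) : PA (lg m) m := by
  refine ⟨h, ?_, ?_⟩
  · exact Nat.lt_pow_succ_log_self one_lt_two m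
  · unfold KSP.lg
    rw [pow_succ, mul_comm]
    exact Nat.mul_le_mul_left 2 (Nat.pow_log_le_self 2 (by omega))

theorem lg_two {m : ℕ} (hm : 1 ≤ m) : lg (2 * m) = lg m + 1 := by
  unfold KSP.lg
  rw [mul_comm, Nat.log_mul_base one_lt_two (by omega)]

theorem lg_mono {m n : ℕ} (h : m ≤ n) : lg m ≤ lg n := by
  unfold KSP.lg
  exact Nat.add_le_add_right (Nat.log_mono_right h) 1

theorem five {a : ℕ} (ha : 20 ≤ a) : (a + 1) ^ 5 ≤ 4 ^ a := by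
  induction a, ha using Nat.le_induction with
  | base => norm_num
  | succ n hn ih =>
    have h1 : 21 * (n + 1 + 1) ≤ 22 * (n + 1) := by omega
    have h2 : (21 * (n + 1 + 1)) ^ 5 ≤ (22 * (n + 1)) ^ 5 := Nat.pow_le_pow_left h1 5
    rw [mul_pow, mul_pow] at h2
    have h3 : 21 ^ 5 * (n + 1 + 1) ^ 5 ≤ 21 ^ 5 * 4 ^ (n + 1) := by
      calc 21 ^ 5 * (n + 1 + 1) ^ 5 ≤ 22 ^ 5 * (n + 1) ^ 5 := h2
        _ ≤ (21 ^ 5 * 4) * (n + 1) ^ 5 := Nat.mul_le_mul_right _ (by norm_num)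
        _ ≤ (21 ^ 5 * 4) * 4 ^ n := Nat.mul_le_mul_left _ ih
        _ = 21 ^ 5 * 4 ^ (n + 1) := by ring
    exact Nat.le_of_mul_le_mul_left h3 (by norm_num)

theorem ten {a m : ℕ} (h : PA a m) : 10 * a ≤ m := by
  obtain ⟨h1, h2, h3⟩ := h
  have key : ∀ b : ℕ, 20 ≤ b → 20 * b ≤ 2 ^ b := by
    intro b hb
    induction b, hb using Nat.le_induction with
    | base => norm_num
    | succ n hn ih =>
      rw [pow_succ]
      omega
  have := key a h1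
  omega

/-! ### The grid with `4^m` points -/

theorem mv4 : ∃ C : ℝ≥0, ∀ (m : ℕ) (k : ℝ × ℝ → ℕ) (h : ℝ × ℝ → ℂ), 1 ≤ m → Measurable k →
    (∀ x, k x < 4 ^ m) → Bd h → (∀ ξ, h ξ ≠ 0 → ξ ∈ V0) →
    ∫⁻ x, ‖Ex ((ann 1 (1 + k x / 4 ^ m)).indicator h) x‖ₑ ^ 2 ≤
      C * ((2 * m : ℕ) : ℝ≥0∞) * ((lg (2 * m) : ℕ) : ℝ≥0∞) ^ 5 * n2 h := by
  obtain ⟨C, hC⟩ := KSP.fMV
  refine ⟨C, fun m k h hm hk hk4 hh hV => ?_⟩
  have e1 : (4 : ℕ) ^ m = 2 ^ (2 * m) := by rw [pow_mul]; norm_num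
  have e2 : (4 : ℝ) ^ m = 2 ^ (2 * m) := by rw [pow_mul]; norm_num
  rw [e2]
  exact hC (2 * m) k h (by omega) hk (fun x => by rw [← e1]; exact hk4 x) hh hV

/-! ### Codes -/

theorem R_pos {m : ℕ} {sg : ℝ} (h1 : sg < 1) (k : ℕ) : 0 < 1 + (k : ℝ) / 4 ^ m - sg := by
  have : (0 : ℝ) ≤ (k : ℝ) / 4 ^ m := by positivity
  linarith

theorem R_lt {m : ℕ} {sg : ℝ} (h0 : 0 ≤ sg) {k : ℕ} (hk : k < 4 ^ m) :
    1 + (k : ℝ) / 4 ^ m - sg < 2 := by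
  have : (k : ℝ) / 4 ^ m < 1 := by
    rw [div_lt_one (by positivity)]
    exact_mod_cast hk
  linarith

theorem kc_div {m l : ℕ} (sg : ℝ) (k : ℝ × ℝ → ℕ) (x : ℝ × ℝ) (hl : l ≤ m) :
    kc m sg k m x / 4 ^ (m - l) = kc m sg k l x := by
  unfold kc
  rw [← Nat.floor_div_natCast]
  congr 1
  push_cast
  have : (4 : ℝ) ^ m = 4 ^ (m - l) * 4 ^ l := by
    rw [← pow_add, Nat.sub_add_cancel hl]
  rw [this]
  field_simp

theorem kc_le {m : ℕ} {sg : ℝ} (h1 : sg < 1) (k : ℝ × ℝ → ℕ) (l : ℕ) (x : ℝ × ℝ) :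
    sg + (kc m sg k l x : ℝ) / 4 ^ l ≤ 1 + (k x : ℝ) / 4 ^ m := by
  have h2 : (kc m sg k l x : ℝ) ≤ 4 ^ l * (1 + k x / 4 ^ m - sg) :=
    Nat.floor_le (by have := R_pos (m := m) h1 (k x); positivity)
  have h3 : (kc m sg k l x : ℝ) / 4 ^ l ≤ 1 + k x / 4 ^ m - sg := by
    rw [div_le_iff₀ (by positivity)]
    linarith
  linarith

theorem lt_kc {m : ℕ} (sg : ℝ) (k : ℝ × ℝ → ℕ) (l : ℕ) (x : ℝ × ℝ) :
    1 + (k x : ℝ) / 4 ^ m < sg + ((kc m sg k l x : ℝ) + 1) / 4 ^ l := by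
  have h2 : 4 ^ l * (1 + k x / 4 ^ m - sg) < (kc m sg k l x : ℝ) + 1 := Nat.lt_floor_add_one _
  have h3 : 1 + k x / 4 ^ m - sg < ((kc m sg k l x : ℝ) + 1) / 4 ^ l := by
    rw [lt_div_iff₀ (by positivity)]
    linarith
  linarith

theorem kc_lt {m : ℕ} {sg : ℝ} (h0 : 0 ≤ sg) (k : ℝ × ℝ → ℕ) (hk : ∀ x, k x < 4 ^ m) (l : ℕ)
    (x : ℝ × ℝ) : kc m sg k l x < 2 * 4 ^ l := by
  unfold kc
  have h1 := R_lt (sg := sg) h0 (hk x)
  rw [Nat.floor_lt' (by positivity)]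
  push_cast
  have : (0 : ℝ) < 4 ^ l := by positivity
  nlinarith

theorem kc_meas (m : ℕ) (sg : ℝ) {k : ℝ × ℝ → ℕ} (hk : Measurable k) (l : ℕ) :
    Measurable (kc m sg k l) := by
  unfold kc
  refine Nat.measurable_floor.comp ?_
  have : Measurable fun x => ((k x : ℕ) : ℝ) := measurable_from_top.comp hk
  fun_prop

theorem kc_step {m l l' : ℕ} {sg : ℝ} (h1 : sg < 1) (k : ℝ × ℝ → ℕ) (x : ℝ × ℝ) (hl : l ≤ l') :
    sg + (kc m sg k l x : ℝ) / 4 ^ l ≤ sg + (kc m sg k l' x : ℝ) / 4 ^ l' := by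
  have hp := R_pos (m := m) h1 (k x)
  have h2 : (kc m sg k l x : ℝ) ≤ 4 ^ l * (1 + k x / 4 ^ m - sg) :=
    Nat.floor_le (by positivity)
  have e : (4 : ℝ) ^ l' = 4 ^ (l' - l) * 4 ^ l := by
    rw [← pow_add, Nat.sub_add_cancel hl]
  have h3 : kc m sg k l x * 4 ^ (l' - l) ≤ kc m sg k l' x := by
    unfold kc
    refine Nat.le_floor ?_
    push_cast
    rw [e]
    have : (0 : ℝ) < 4 ^ (l' - l) := by positivity
    unfold kc at h2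
    nlinarith
  have h4 : (kc m sg k l x : ℝ) * 4 ^ (l' - l) ≤ kc m sg k l' x := by exact_mod_cast h3
  have h5 : (kc m sg k l x : ℝ) / 4 ^ l ≤ (kc m sg k l' x : ℝ) / 4 ^ l' := by
    rw [div_le_div_iff₀ (by positivity) (by positivity), e]
    have : (0 : ℝ) < 4 ^ l := by positivity
    nlinarith
  linarith

/-! ### Squares -/

theorem Qx_meas (a : ℕ) (z0 : ℝ × ℝ) (e : ℕ) : Measurable (Qx a z0 e) := by
  unfold Qx
  refine Measurable.prodMk ?_ ?_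
  · exact Int.measurable_floor.comp (by fun_prop)
  · exact Int.measurable_floor.comp (by fun_prop)

/-! ### The level `lst` -/

theorem lst_mem {a m : ℕ} (h : 10 * a ≤ m) (z0 : ℝ × ℝ) (sg : ℝ) (E : Set (ℝ × ℝ))
    (k : ℝ × ℝ → ℕ) (x : ℝ × ℝ) :
    10 * a ≤ lst a m z0 sg E k x ∧ lst a m z0 sg E k x ≤ m := by
  have hne : {l | 10 * a ≤ l ∧ (¬ Pop a m z0 sg E k l (Qx a z0 l x) (kc m sg k l x) ∨ l = m)}.Nonempty :=
    ⟨m, h, Or.inr rfl⟩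
  refine ⟨(Nat.sInf_mem hne).1, Nat.sInf_le ⟨h, Or.inr rfl⟩⟩

theorem lst_pop {a m : ℕ} {z0 : ℝ × ℝ} {sg : ℝ} {E : Set (ℝ × ℝ)}
    {k : ℝ × ℝ → ℕ} {x : ℝ × ℝ} {l : ℕ} (h1 : 10 * a ≤ l) (h2 : l < lst a m z0 sg E k x) :
    Pop a m z0 sg E k l (Qx a z0 l x) (kc m sg k l x) := by
  have h3 := Nat.notMem_of_lt_sInf h2
  by_contra hcon
  exact h3 ⟨h1, Or.inl hcon⟩

theorem pop_meas (a m : ℕ) (z0 : ℝ × ℝ) (sg : ℝ) (E : Set (ℝ × ℝ)) {k : ℝ × ℝ → ℕ}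
    (hk : Measurable k) (l : ℕ) :
    MeasurableSet {x | Pop a m z0 sg E k l (Qx a z0 l x) (kc m sg k l x)} := by
  have h1 : Measurable fun x => (Qx a z0 l x, kc m sg k l x) :=
    (Qx_meas a z0 l).prodMk (kc_meas m sg hk l)
  exact h1 (t := {P : (ℤ × ℤ) × ℕ | Pop a m z0 sg E k l P.1 P.2}) (MeasurableSet.of_discrete)

theorem lst_meas (a m : ℕ) (z0 : ℝ × ℝ) (sg : ℝ) (E : Set (ℝ × ℝ)) {k : ℝ × ℝ → ℕ}
    (hk : Measurable k) (h : 10 * a ≤ m) : Measurable (lst a m z0 sg E k) := by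
  refine measurable_to_countable' fun n => ?_
  have key : lst a m z0 sg E k ⁻¹' {n} =
      {x | (10 * a ≤ n ∧ (¬ Pop a m z0 sg E k n (Qx a z0 n x) (kc m sg k n x) ∨ n = m)) ∧
        ∀ l < n, ¬ (10 * a ≤ l ∧ (¬ Pop a m z0 sg E k l (Qx a z0 l x) (kc m sg k l x) ∨ l = m))} := by
    ext x
    simp only [mem_preimage, mem_singleton_iff, mem_ofPred_eq]
    have hne : {l | 10 * a ≤ l ∧
        (¬ Pop a m z0 sg E k l (Qx a z0 l x) (kc m sg k l x) ∨ l = m)}.Nonempty :=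
      ⟨m, h, Or.inr rfl⟩
    constructor
    · rintro rfl
      exact ⟨Nat.sInf_mem hne, fun l hl => Nat.notMem_of_lt_sInf hl⟩
    · rintro ⟨h1, h2⟩
      refine le_antisymm (Nat.sInf_le h1) ?_
      by_contra hcon
      exact h2 _ (not_le.1 hcon) (Nat.sInf_mem hne)
  rw [key]
  have hQ : ∀ l, MeasurableSet {x | 10 * a ≤ l ∧
      (¬ Pop a m z0 sg E k l (Qx a z0 l x) (kc m sg k l x) ∨ l = m)} := by
    intro l
    by_cases h1 : 10 * a ≤ l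
    · by_cases h2 : l = m
      · simp [h2]
      · simp only [h1, h2, true_and, or_false]
        exact (pop_meas a m z0 sg E hk l).compl
    · simp [h1]
  have hT : MeasurableSet {x | ∀ l < n, ¬ (10 * a ≤ l ∧
      (¬ Pop a m z0 sg E k l (Qx a z0 l x) (kc m sg k l x) ∨ l = m))} := by
    have : {x | ∀ l < n, ¬ (10 * a ≤ l ∧
        (¬ Pop a m z0 sg E k l (Qx a z0 l x) (kc m sg k l x) ∨ l = m))} =
        ⋂ l : ℕ, ⋂ _ : l < n, {x | 10 * a ≤ l ∧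
        (¬ Pop a m z0 sg E k l (Qx a z0 l x) (kc m sg k l x) ∨ l = m)}ᶜ := by
      ext x
      simp only [mem_iInter, mem_compl_iff, mem_ofPred_eq]
    rw [this]
    exact MeasurableSet.iInter fun l => MeasurableSet.iInter fun _ => (hQ l).compl
  exact (hQ n).inter hT

end LIN_

end Pool.Agent.LLog
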