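import Pool.Agent.LLog.LIN1

set_option autoImplicit false

/-! F17, the good part of `E`. -/

namespace Pool.Agent.LLog

open MeasureTheory Set
open scoped ENNReal NNReal
open Pool.Agent.KSP (ee dot nr Ex Ex1 Bd Bd1 n1 n2 lg V0 ann)

namespace LIN_

theorem famC_ok (a m : ℕ) (z0 : ℝ × ℝ) (T : Finset Top) (pr : Top → ℕ) :
    ∀ l ∈ (famC a m z0 T pr).Lv, 10 * a < l ∧ l ≤ m ∧ l ≤ (famC a m z0 T pr).e l + 1 ∧
      (famC a m z0 T pr).e l ≤ m := by
  intro l hl
  have h := Finset.mem_Ioc.1 (show l ∈ Finset.Ioc (10 * a) m from hl)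
  refine ⟨h.1, h.2, ?_, ?_⟩
  · show l ≤ l - 1 + 1
    omega
  · show l - 1 ≤ m
    omega

theorem famB_ok (a m : ℕ) (z0 : ℝ × ℝ) (T : Finset Top) (pr : Top → ℕ) (s : ℕ) :
    ∀ l ∈ (famB a m z0 T pr s).Lv, 10 * a < l ∧ l ≤ m ∧ l ≤ (famB a m z0 T pr s).e l + 1 ∧
      (famB a m z0 T pr s).e l ≤ m := by
  intro l hl
  have h := Finset.mem_filter.1 (show l ∈ (Finset.Ioc (10 * a) m).filter
    (fun l => 10 * a ≤ bi s l ∧ be s l ≤ m) from hl)
  have h1 := Finset.mem_Ioc.1 h.1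
  refine ⟨h1.1, h1.2, ?_, h.2.2⟩
  show l ≤ be s l + 1
  unfold be bi
  have h2 := Nat.div_add_mod (l - 1) (2 ^ s)
  have h3 := Nat.mod_lt (l - 1) (Nat.two_pow_pos s)
  omega

theorem vol_bad {a m : ℕ} {z0 : ℝ × ℝ} {T : Finset Top} {pr : Top → ℕ} {E : Set (ℝ × ℝ)}
    (h1 : volume (E \ IN a m z0) ≤ volume E / 100)
    (h2 : volume {x | 2 ^ (90 * a) < (TX a z0 T x).card} ≤ volume E / 100)
    (h3 : ∀ F : Fam, (∀ l ∈ F.Lv, 10 * a < l ∧ l ≤ m ∧ l ≤ F.e l + 1 ∧ F.e l ≤ m) →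
      ((a : ℝ≥0∞) + 2) * volume {x | 2 ^ (90 * a) < (open Classical in
      ((F.Lv ×ˢ Finset.range (2 * 4 ^ m)).filter
        (fun P => x ∈ Zp a z0 T (F.e P.1) P.1 P.2)).card)} ≤ volume E / 100)
    (h4 : volume {x ∈ E | (TX a z0 T x).card ≤ 2 ^ (90 * a) ∧ ∃ r : ℕ, (open Classical in
      (∃ s ≤ a, 200 * a < ((famB a m z0 T pr s).Lv.filter
        (fun l => (famB a m z0 T pr s).Ev l (r / 4 ^ (m - l)) x)).card) ∨
      200 * a < ((famC a m z0 T pr).Lv.filter
        (fun l => (famC a m z0 T pr).Ev l (r / 4 ^ (m - l)) x)).card)} ≤ volume E / 100) :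
    volume (E \ (IN a m z0 ∩ Gd a m z0 T pr)) ≤ 4 * (volume E / 100) := by
  classical
  set v := volume E / 100 with hv
  set B : Fam → Set (ℝ × ℝ) := fun F => {x | 2 ^ (90 * a) <
      ((F.Lv ×ˢ Finset.range (2 * 4 ^ m)).filter
        (fun P => x ∈ Zp a z0 T (F.e P.1) P.1 P.2)).card} with hB
  set N := {x | 2 ^ (90 * a) < (TX a z0 T x).card} with hN
  set P := {x ∈ E | (TX a z0 T x).card ≤ 2 ^ (90 * a) ∧ ∃ r : ℕ,
      (∃ s ≤ a, 200 * a < ((famB a m z0 T pr s).Lv.filter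
        (fun l => (famB a m z0 T pr s).Ev l (r / 4 ^ (m - l)) x)).card) ∨
      200 * a < ((famC a m z0 T pr).Lv.filter
        (fun l => (famC a m z0 T pr).Ev l (r / 4 ^ (m - l)) x)).card} with hP
  have hsub : E \ (IN a m z0 ∩ Gd a m z0 T pr) ⊆ (E \ IN a m z0) ∪ N ∪ P ∪
      ((⋃ s ∈ Finset.range (a + 1), B (famB a m z0 T pr s)) ∪ B (famC a m z0 T pr)) := by
    rintro x ⟨hxE, hx⟩
    by_contra hcon
    simp only [mem_union, not_or] at hcon
    obtain ⟨⟨⟨c1, c2⟩, c3⟩, c4, c5⟩ := hcon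
    apply hx
    have hI : x ∈ IN a m z0 := by
      by_contra h
      exact c1 ⟨hxE, h⟩
    refine ⟨hI, ?_⟩
    have hcard : (TX a z0 T x).card ≤ 2 ^ (90 * a) := not_lt.1 c2
    have hu : ∀ r : ℕ, ¬ ((∃ s ≤ a, 200 * a < ((famB a m z0 T pr s).Lv.filter
        (fun l => (famB a m z0 T pr s).Ev l (r / 4 ^ (m - l)) x)).card) ∨
      200 * a < ((famC a m z0 T pr).Lv.filter
        (fun l => (famC a m z0 T pr).Ev l (r / 4 ^ (m - l)) x)).card) := by
      intro r hr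
      exact c3 ⟨hxE, hcard, r, hr⟩
    constructor
    · intro s hs
      refine ⟨fun r => ?_, ?_⟩
      · by_contra h
        exact hu r (Or.inl ⟨s, hs, not_le.1 h⟩)
      · by_contra h
        exact c4 (mem_biUnion (Finset.mem_coe.2 (Finset.mem_range.2 (Nat.lt_succ_of_le hs)))
          (not_le.1 h))
    · refine ⟨fun r => ?_, ?_⟩
      · by_contra h
        exact hu r (Or.inr (not_le.1 h))
      · by_contra h
        exact c5 (not_le.1 h)
  have hb : ∀ F : Fam, (∀ l ∈ F.Lv, 10 * a < l ∧ l ≤ m ∧ l ≤ F.e l + 1 ∧ F.e l ≤ m) →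
      volume (B F) ≤ v / (a + 2) := by
    intro F hF
    rw [ENNReal.le_div_iff_mul_le (Or.inl (by simp)) (Or.inl (by
      exact ENNReal.add_ne_top.2 ⟨ENNReal.natCast_ne_top _, by simp⟩)), mul_comm]
    exact h3 F hF
  have hs : volume ((⋃ s ∈ Finset.range (a + 1), B (famB a m z0 T pr s)) ∪
      B (famC a m z0 T pr)) ≤ v := by
    calc _ ≤ volume (⋃ s ∈ Finset.range (a + 1), B (famB a m z0 T pr s)) +
          volume (B (famC a m z0 T pr)) := measure_union_le _ _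
      _ ≤ (∑ s ∈ Finset.range (a + 1), volume (B (famB a m z0 T pr s))) +
          volume (B (famC a m z0 T pr)) := by
          gcongr
          exact measure_biUnion_finset_le _ _
      _ ≤ (∑ s ∈ Finset.range (a + 1), v / (a + 2)) + v / (a + 2) := by
          gcongr with s hs
          · exact hb _ (famB_ok a m z0 T pr s)
          · exact hb _ (famC_ok a m z0 T pr)
      _ = ((a : ℝ≥0∞) + 2) * (v / (a + 2)) := by
          rw [Finset.sum_const, Finset.card_range, nsmul_eq_mul]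
          push_cast
          ring
      _ ≤ v := ENNReal.mul_div_le
  calc volume (E \ (IN a m z0 ∩ Gd a m z0 T pr)) ≤ _ := measure_mono hsub
    _ ≤ volume ((E \ IN a m z0) ∪ N ∪ P) + volume ((⋃ s ∈ Finset.range (a + 1),
        B (famB a m z0 T pr s)) ∪ B (famC a m z0 T pr)) := measure_union_le _ _
    _ ≤ (volume (E \ IN a m z0) + volume N + volume P) + v := by
        gcongr
        exact (measure_union_le _ _).trans (add_le_add_left (measure_union_le _ _) _)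
    _ ≤ (v + v + v) + v := by gcongr
    _ = 4 * v := by ring

/-- a measurable subset of the good part -/
theorem good_subset {E D : Set (ℝ × ℝ)} (hE : MeasurableSet E) (hf : volume E < ⊤)
    (h : volume (E \ D) ≤ 4 * (volume E / 100)) :
    ∃ E' ⊆ E, MeasurableSet E' ∧ E' ⊆ D ∧ volume E ≤ 2 * volume E' := by
  refine ⟨E \ toMeasurable volume (E \ D), sdiff_subset,
    hE.diff (measurableSet_toMeasurable _ _), ?_, ?_⟩
  · rintro x ⟨h1, h2⟩
    by_contra h3
    exact h2 (subset_toMeasurable _ _ ⟨h1, h3⟩)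
  · set E' := E \ toMeasurable volume (E \ D) with hE'
    have h1 : volume E ≤ volume E' + volume (E \ D) := by
      calc volume E ≤ volume (E' ∪ toMeasurable volume (E \ D)) := by
            refine measure_mono fun x hx => ?_
            by_cases h : x ∈ toMeasurable volume (E \ D)
            · exact Or.inr h
            · exact Or.inl ⟨hx, h⟩
        _ ≤ _ := (measure_union_le _ _).trans (by rw [measure_toMeasurable])
    have hE'f : volume E' ≠ ⊤ := (lt_of_le_of_lt (measure_mono sdiff_subset) hf).ne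
    have h2 : volume E ≤ volume E' + 4 * (volume E / 100) := h1.trans (by gcongr)
    obtain ⟨V, hV⟩ : ∃ V : ℝ≥0, (V : ℝ≥0∞) = volume E := ⟨_, ENNReal.coe_toNNReal hf.ne⟩
    obtain ⟨W, hW⟩ : ∃ W : ℝ≥0, (W : ℝ≥0∞) = volume E' := ⟨_, ENNReal.coe_toNNReal hE'f⟩
    rw [← hV, ← hW] at h2 ⊢
    have h3 : ((4 * (V / 100) : ℝ≥0) : ℝ≥0∞) = 4 * ((V : ℝ≥0∞) / 100) := by
      rw [ENNReal.coe_mul, ENNReal.coe_div (by norm_num)]
      norm_num
    rw [← h3, ← ENNReal.coe_add, ENNReal.coe_le_coe] at h2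
    rw [show ((2 : ℝ≥0∞) * (W : ℝ≥0∞)) = ((2 * W : ℝ≥0) : ℝ≥0∞) by push_cast; rfl,
      ENNReal.coe_le_coe]
    have h4 : (V : ℝ) ≤ W + 4 * (V / 100) := by exact_mod_cast h2
    have h5 : (0 : ℝ) ≤ V := V.2
    have h6 : (0 : ℝ) ≤ W := W.2
    have h7 : (V : ℝ) ≤ 2 * W := by linarith
    exact_mod_cast h7

end LIN_

end Pool.Agent.LLog
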