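import Pool.Agent.LLog.LIN2
import Pool.Agent.KSP.K

set_option autoImplicit false

/-! F17, pieces of the radial interval. -/

namespace Pool.Agent.LLog

open MeasureTheory Set
open scoped ENNReal NNReal
open Pool.Agent.KSP (ee dot nr Ex Ex1 Bd Bd1 n1 n2 lg V0 ann)

namespace LIN_

open Pool.Agent.KSP.K_ (Bd_indicator integrable_Ex measurable_Ex measurable_nr n2_indicator)

/-- `a ≤ |ξ| < b` -/
def ra (a b : ℝ) : Set (ℝ × ℝ) := {ξ | a ≤ nr ξ ∧ nr ξ < b}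

/-- `|ξ| < b` -/
def rb (b : ℝ) : Set (ℝ × ℝ) := {ξ | nr ξ < b}

theorem ra_meas (a b : ℝ) : MeasurableSet (ra a b) :=
  (measurableSet_le measurable_const measurable_nr).inter
    (measurableSet_lt measurable_nr measurable_const)

theorem rb_meas (b : ℝ) : MeasurableSet (rb b) := measurableSet_lt measurable_nr measurable_const

theorem Ex_add {f g : ℝ × ℝ → ℂ} (hf : Bd f) (hg : Bd g) (x : ℝ × ℝ) :
    Ex (fun ξ => f ξ + g ξ) x = Ex f x + Ex g x := by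
  unfold KSP.Ex
  rw [← integral_add (integrable_Ex hf x) (integrable_Ex hg x)]
  refine integral_congr_ae (Filter.Eventually.of_forall fun ξ => ?_)
  simp only
  ring

theorem rb_split {h : ℝ × ℝ → ℂ} (hh : Bd h) {a b : ℝ} (hab : a ≤ b) (x : ℝ × ℝ) :
    Ex ((rb b).indicator h) x = Ex ((rb a).indicator h) x + Ex ((ra a b).indicator h) x := by
  rw [← Ex_add (Bd_indicator hh (rb_meas a)) (Bd_indicator hh (ra_meas a b))]
  congr 1
  funext ξ
  unfold rb ra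
  by_cases h1 : nr ξ < a
  · have h2 : nr ξ < b := h1.trans_le hab
    have h3 : ¬ a ≤ nr ξ := not_le.2 h1
    simp [indicator, h1, h2, h3]
  · have h3 : a ≤ nr ξ := not_lt.1 h1
    simp [indicator, h1, h3]

theorem ann_eq_rb {h : ℝ × ℝ → ℂ} (hV : ∀ ξ, h ξ ≠ 0 → ξ ∈ V0) (b : ℝ) :
    (ann 1 b).indicator h = (rb b).indicator h := by
  funext ξ
  by_cases h0 : h ξ = 0
  · by_cases h1 : ξ ∈ ann 1 b <;> by_cases h2 : ξ ∈ rb b <;> simp [indicator, h1, h2, h0]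
  · have h1 : 1 ≤ nr ξ := (hV ξ h0).2.1
    unfold KSP.ann rb
    simp [indicator, h1]

theorem split4 {h : ℝ × ℝ → ℂ} (hh : Bd h) (hV : ∀ ξ, h ξ ≠ 0 → ξ ∈ V0) {a0 a1 a2 a3 : ℝ}
    (h1 : a0 ≤ a1) (h2 : a1 ≤ a2) (h3 : a2 ≤ a3) (x : ℝ × ℝ) :
    Ex ((ann 1 a3).indicator h) x = Ex ((rb a0).indicator h) x + Ex ((ra a0 a1).indicator h) x +
      Ex ((ra a1 a2).indicator h) x + Ex ((ra a2 a3).indicator h) x := by
  rw [ann_eq_rb hV, rb_split hh h3, rb_split hh h2, rb_split hh h1]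

theorem comp_split {h : ℝ × ℝ → ℂ} (hh : Bd h) {G S : Set (ℝ × ℝ)} (hG : MeasurableSet G)
    (hS : MeasurableSet S) (x : ℝ × ℝ) :
    Ex (S.indicator h) x = Ex (S.indicator (G.indicator h)) x +
      Ex (S.indicator (Gᶜ.indicator h)) x := by
  rw [← Ex_add (Bd_indicator (Bd_indicator hh hG) hS) (Bd_indicator (Bd_indicator hh hG.compl) hS)]
  congr 1
  funext ξ
  by_cases h1 : ξ ∈ S <;> by_cases h2 : ξ ∈ G <;> simp [indicator, h1, h2]

theorem sq5 (a b c d e : ℝ≥0∞) :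
    (a + b + c + d + e) ^ 2 ≤ 256 * (a ^ 2 + b ^ 2 + c ^ 2 + d ^ 2 + e ^ 2) := by
  have h := KSP.K_.sq_add
  calc (a + b + c + d + e) ^ 2 ≤ 4 * (a + b + c + d) ^ 2 + 4 * e ^ 2 := h _ _
    _ ≤ 4 * (4 * (a + b + c) ^ 2 + 4 * d ^ 2) + 4 * e ^ 2 := by gcongr; exact h _ _
    _ ≤ 4 * (4 * (4 * (a + b) ^ 2 + 4 * c ^ 2) + 4 * d ^ 2) + 4 * e ^ 2 := by
        gcongr; exact h _ _
    _ ≤ 4 * (4 * (4 * (4 * a ^ 2 + 4 * b ^ 2) + 4 * c ^ 2) + 4 * d ^ 2) + 4 * e ^ 2 := by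
        gcongr; exact h _ _
    _ = 256 * a ^ 2 + 256 * b ^ 2 + 64 * c ^ 2 + 16 * d ^ 2 + 4 * e ^ 2 := by ring
    _ ≤ 256 * a ^ 2 + 256 * b ^ 2 + 256 * c ^ 2 + 256 * d ^ 2 + 256 * e ^ 2 := by
        gcongr <;> norm_num
    _ = _ := by ring

theorem meas_param {ι : Type} [Countable ι] [MeasurableSpace ι] [MeasurableSingletonClass ι]
    {g : ι → ℝ × ℝ → ℂ} (hg : ∀ i, Measurable (g i)) {κ : ℝ × ℝ → ι} (hκ : Measurable κ) :
    Measurable fun x => ‖g (κ x) x‖ₑ ^ 2 := by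
  have h1 : Measurable fun p : ι × (ℝ × ℝ) => g p.1 p.2 := measurable_from_prod_countable_right hg
  exact ((h1.comp (hκ.prodMk measurable_id)).enorm).pow_const 2

theorem sum_le_one {ι : Type} [DecidableEq ι] (s : Finset ι) (f : ι → ℝ≥0∞) (M : ℝ≥0∞)
    (hM : ∀ i ∈ s, f i ≤ M) (h1 : ∀ i ∈ s, ∀ j ∈ s, f i ≠ 0 → f j ≠ 0 → i = j) :
    ∑ i ∈ s, f i ≤ M := by
  by_cases h : ∃ i ∈ s, f i ≠ 0
  · obtain ⟨i, hi, hne⟩ := h
    rw [Finset.sum_eq_single_of_mem i hi fun j hj hji => by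
      by_contra hcon
      exact hji (h1 j hj i hi hcon hne)]
    exact hM i hi
  · push Not at h
    rw [Finset.sum_eq_zero h]
    exact bot_le

/-- the last piece -/
theorem last_piece {m : ℕ} {sg : ℝ} (k : ℝ × ℝ → ℕ)
    (hk4 : ∀ x, k x < 4 ^ m) {h : ℝ × ℝ → ℂ} (hh : Bd h) :
    ∫⁻ x, ‖Ex ((ra (sg + kc m sg k m x / 4 ^ m) (1 + k x / 4 ^ m)).indicator h) x‖ₑ ^ 2 ≤
      n2 h := by
  set c : ℕ → ℕ := fun j => ⌊(4 : ℝ) ^ m * (1 + j / 4 ^ m - sg)⌋₊ with hc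
  set A : ℕ → Set (ℝ × ℝ) := fun j => ra (sg + c j / 4 ^ m) (1 + j / 4 ^ m) with hA
  have hpl := fun j => KSP.pPl2 _ (Bd_indicator hh (show MeasurableSet (A j) from ra_meas _ _))
  have hm : ∀ j, Measurable fun x => ‖Ex ((A j).indicator h) x‖ₑ ^ 2 := fun j =>
    ((hpl j).1.measurable.enorm).pow_const 2
  calc ∫⁻ x, ‖Ex ((ra (sg + kc m sg k m x / 4 ^ m) (1 + k x / 4 ^ m)).indicator h) x‖ₑ ^ 2
      ≤ ∫⁻ x, ∑ j ∈ Finset.range (4 ^ m), ‖Ex ((A j).indicator h) x‖ₑ ^ 2 := by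
        refine lintegral_mono fun x => ?_
        exact Finset.single_le_sum (f := fun j => ‖Ex ((A j).indicator h) x‖ₑ ^ 2)
          (fun _ _ => bot_le) (Finset.mem_range.2 (hk4 x))
    _ = ∑ j ∈ Finset.range (4 ^ m), ∫⁻ x, ‖Ex ((A j).indicator h) x‖ₑ ^ 2 :=
        lintegral_finsetSum _ fun j _ => hm j
    _ = ∑ j ∈ Finset.range (4 ^ m), ∫⁻ ξ, ‖(A j).indicator h ξ‖ₑ ^ 2 :=
        Finset.sum_congr rfl fun j _ => (hpl j).2
    _ = ∫⁻ ξ, ∑ j ∈ Finset.range (4 ^ m), ‖(A j).indicator h ξ‖ₑ ^ 2 :=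
        (lintegral_finsetSum _ fun j _ =>
          ((hh.1.indicator (ra_meas _ _)).enorm.pow_const 2)).symm
    _ ≤ n2 h := by
        refine lintegral_mono fun ξ => ?_
        refine sum_le_one _ _ _ (fun j _ => ?_) ?_
        · gcongr
          exact enorm_indicator_le_enorm_self _ _
        · have hmem : ∀ j, ‖(A j).indicator h ξ‖ₑ ^ 2 ≠ 0 → ξ ∈ A j := by
            intro j hj
            by_contra hcon
            exact hj (by rw [indicator_of_notMem hcon]; simp)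
          have key : ∀ i j, i < j → ξ ∈ A i → ξ ∈ A j → False := by
            intro i j hij hi hj
            have h1 : nr ξ < 1 + (i : ℝ) / 4 ^ m := hi.2
            have h2 : sg + (c j : ℝ) / 4 ^ m ≤ nr ξ := hj.1
            have h3 : (4 : ℝ) ^ m * (1 + j / 4 ^ m - sg) < (c j : ℝ) + 1 :=
              Nat.lt_floor_add_one _
            have h4 : (1 : ℝ) + j / 4 ^ m - sg < ((c j : ℝ) + 1) / 4 ^ m := by
              rw [lt_div_iff₀ (by positivity)]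
              linarith
            have h5 : ((i : ℝ) + 1) / 4 ^ m ≤ (j : ℝ) / 4 ^ m := by
              have : ((i : ℝ) + 1) ≤ j := by exact_mod_cast hij
              gcongr
            have e1 : ((c j : ℝ) + 1) / 4 ^ m = (c j : ℝ) / 4 ^ m + 1 / 4 ^ m := by ring
            have e2 : ((i : ℝ) + 1) / 4 ^ m = (i : ℝ) / 4 ^ m + 1 / 4 ^ m := by ring
            linarith
          intro i _ j _ hi hj
          rcases lt_trichotomy i j with h | h | h
          · exact (key i j h (hmem i hi) (hmem j hj)).elim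
          · exact h
          · exact (key j i h (hmem j hj) (hmem i hi)).elim

end LIN_

end Pool.Agent.LLog
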