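import Pool.Agent.LLog.Targets
import Pool.Agent.KSP.MV
import Pool.Agent.KSP.RM

set_option autoImplicit false

/-! LLG-RMG: Rademacher-Menshov for arbitrary radii. -/

namespace Pool.Agent.LLog

open MeasureTheory Set
open scoped ENNReal NNReal ComplexConjugate
open Pool.Agent.KSP (ee dot nr Ex Ex1 Bd Bd1 n1 n2 lg V0 ann tPl2 pPl2)

namespace RMG_

open Pool.Agent.KSP.MV_ (cont_nr ms_ann bd_ind int_Ex)

lemma ms_lt (r : ℝ) : MeasurableSet {ξ : ℝ × ℝ | nr ξ < r} :=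
  measurableSet_lt cont_nr.measurable measurable_const

lemma Ex_sub {h : ℝ × ℝ → ℂ} (hh : Bd h) {a b : ℝ} (hab : a ≤ b) (x : ℝ × ℝ) :
    Ex ({ξ | nr ξ < b}.indicator h) x - Ex ({ξ | nr ξ < a}.indicator h) x =
      Ex ((ann a b).indicator h) x := by
  unfold Ex
  rw [← integral_sub (int_Ex (bd_ind hh (ms_lt b)) x) (int_Ex (bd_ind hh (ms_lt a)) x)]
  congr 1
  funext ξ
  rw [← sub_mul]
  congr 1
  unfold ann
  by_cases h2 : nr ξ < a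
  · have h3 : nr ξ < b := h2.trans_le hab
    have h4 : ¬ a ≤ nr ξ := not_le.2 h2
    simp [indicator, h2, h3, h4]
  · have h3 : a ≤ nr ξ := not_lt.1 h2
    simp [indicator, h2, h3]

/-- the pieces of a fixed scale are disjoint -/
lemma sum_n2 {h : ℝ × ℝ → ℂ} (hh : Bd h) {R : ℕ → ℝ} (hR : Monotone R) (s N : ℕ) :
    ∑ i ∈ Finset.range N, n2 ((ann (R (i * 2 ^ s)) (R ((i + 1) * 2 ^ s))).indicator h) ≤
      n2 h := by
  unfold n2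
  rw [← lintegral_finsetSum _ fun i _ => ?_]
  · refine lintegral_mono fun ξ => ?_
    by_cases hex : ∃ i ∈ Finset.range N, ξ ∈ ann (R (i * 2 ^ s)) (R ((i + 1) * 2 ^ s))
    · obtain ⟨i, hi, hξ⟩ := hex
      have hz : ∀ j ∈ Finset.range N, j ≠ i →
          ‖(ann (R (j * 2 ^ s)) (R ((j + 1) * 2 ^ s))).indicator h ξ‖ₑ ^ 2 = 0 := by
        intro j _ hji
        rw [indicator_of_notMem, enorm_zero, zero_pow two_ne_zero]
        intro hj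
        obtain ⟨h1, h2⟩ := hξ
        obtain ⟨h3, h4⟩ := hj
        rcases lt_or_gt_of_ne hji with hlt | hlt
        · have h5 : R ((j + 1) * 2 ^ s) ≤ R (i * 2 ^ s) :=
            hR (Nat.mul_le_mul_right _ hlt)
          linarith
        · have h5 : R ((i + 1) * 2 ^ s) ≤ R (j * 2 ^ s) :=
            hR (Nat.mul_le_mul_right _ hlt)
          linarith
      rw [Finset.sum_eq_single i hz (fun hi' => absurd hi hi')]
      rw [indicator_of_mem hξ]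
    · have hz : ∀ j ∈ Finset.range N,
          ‖(ann (R (j * 2 ^ s)) (R ((j + 1) * 2 ^ s))).indicator h ξ‖ₑ ^ 2 = 0 := by
        intro j hj
        rw [indicator_of_notMem, enorm_zero, zero_pow two_ne_zero]
        exact fun hm => hex ⟨j, hj, hm⟩
      rw [Finset.sum_eq_zero hz]
      exact zero_le
  · exact ((bd_ind hh (ms_ann _ _)).1.enorm).pow_const 2

/-- pointwise dyadic chaining -/
lemma key (n : ℕ) (P : ℕ → ℂ) (b : ℕ) (hb : b ≤ 2 ^ n) :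
    ‖P b‖ ^ 2 ≤ 2 * ‖P 0‖ ^ 2 + 4 * ((n : ℝ) + 1) *
      ∑ s ∈ Finset.range (n + 1), ∑ i ∈ Finset.range (2 ^ n),
        ‖P ((i + 1) * 2 ^ s) - P (i * 2 ^ s)‖ ^ 2 := by
  obtain ⟨I, hc, hI, hP⟩ := Pool.Agent.KSP.RM_.dyadic n 0 b (Nat.zero_le _) hb
  set S : ℕ × ℕ → ℝ := fun x => ‖P ((x.2 + 1) * 2 ^ x.1) - P (x.2 * 2 ^ x.1)‖ ^ 2 with hS
  have h1 : P b = P 0 + (P b - P 0) := by ring
  have h2 : ‖P b‖ ≤ ‖P 0‖ + ‖P b - P 0‖ := by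
    conv_lhs => rw [h1]
    exact norm_add_le _ _
  have h3 : ‖P b - P 0‖ ^ 2 ≤ 2 * ((n : ℝ) + 1) * ∑ x ∈ I, S x := by
    rw [hP P]
    have h4 : ((I).card : ℝ) ≤ 2 * (n + 1) := by exact_mod_cast hc
    calc ‖∑ x ∈ I, (P ((x.2 + 1) * 2 ^ x.1) - P (x.2 * 2 ^ x.1))‖ ^ 2
        ≤ (∑ x ∈ I, ‖P ((x.2 + 1) * 2 ^ x.1) - P (x.2 * 2 ^ x.1)‖) ^ 2 :=
          pow_le_pow_left₀ (norm_nonneg _) (norm_sum_le _ _) 2
      _ ≤ I.card * ∑ x ∈ I, S x := sq_sum_le_card_mul_sum_sq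
      _ ≤ 2 * ((n : ℝ) + 1) * ∑ x ∈ I, S x :=
          mul_le_mul_of_nonneg_right h4 (Finset.sum_nonneg fun x _ => by positivity)
  have h5 : ∑ x ∈ I, S x ≤ ∑ s ∈ Finset.range (n + 1), ∑ i ∈ Finset.range (2 ^ n),
      ‖P ((i + 1) * 2 ^ s) - P (i * 2 ^ s)‖ ^ 2 := by
    have e : ∑ s ∈ Finset.range (n + 1), ∑ i ∈ Finset.range (2 ^ n),
        ‖P ((i + 1) * 2 ^ s) - P (i * 2 ^ s)‖ ^ 2 =
        ∑ x ∈ Finset.range (n + 1) ×ˢ Finset.range (2 ^ n), S x := by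
      rw [Finset.sum_product]
    rw [e]
    refine Finset.sum_le_sum_of_subset_of_nonneg ?_ fun x _ _ => by positivity
    intro x hx
    obtain ⟨h6, h7, -, -⟩ := hI x hx
    rw [Finset.mem_product, Finset.mem_range, Finset.mem_range]
    exact ⟨h6, h7⟩
  have h6 : ‖P b‖ ^ 2 ≤ 2 * ‖P 0‖ ^ 2 + 2 * ‖P b - P 0‖ ^ 2 := by
    have h7 : ‖P b‖ ^ 2 ≤ (‖P 0‖ + ‖P b - P 0‖) ^ 2 := pow_le_pow_left₀ (norm_nonneg _) h2 2
    nlinarith [sq_nonneg (‖P 0‖ - ‖P b - P 0‖)]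
  have h8 : 2 * ((n : ℝ) + 1) * ∑ x ∈ I, S x ≤ 2 * ((n : ℝ) + 1) *
      ∑ s ∈ Finset.range (n + 1), ∑ i ∈ Finset.range (2 ^ n),
        ‖P ((i + 1) * 2 ^ s) - P (i * 2 ^ s)‖ ^ 2 :=
    mul_le_mul_of_nonneg_left h5 (by positivity)
  calc ‖P b‖ ^ 2 ≤ 2 * ‖P 0‖ ^ 2 + 2 * ‖P b - P 0‖ ^ 2 := h6
    _ ≤ 2 * ‖P 0‖ ^ 2 + 2 * (2 * ((n : ℝ) + 1) *
      ∑ s ∈ Finset.range (n + 1), ∑ i ∈ Finset.range (2 ^ n),
        ‖P ((i + 1) * 2 ^ s) - P (i * 2 ^ s)‖ ^ 2) := by linarith [h3.trans h8]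
    _ = _ := by ring

/-- the same in `ℝ≥0∞` -/
lemma keyE (n : ℕ) (P : ℕ → ℂ) (b : ℕ) (hb : b ≤ 2 ^ n) :
    ‖P b‖ₑ ^ 2 ≤ 2 * ‖P 0‖ₑ ^ 2 + 4 * ((n : ℝ≥0∞) + 1) *
      ∑ s ∈ Finset.range (n + 1), ∑ i ∈ Finset.range (2 ^ n),
        ‖P ((i + 1) * 2 ^ s) - P (i * 2 ^ s)‖ₑ ^ 2 := by
  have h1 := key n P b hb
  have h2 : ‖P b‖₊ ^ 2 ≤ 2 * ‖P 0‖₊ ^ 2 + 4 * ((n : ℝ≥0) + 1) *
      ∑ s ∈ Finset.range (n + 1), ∑ i ∈ Finset.range (2 ^ n),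
        ‖P ((i + 1) * 2 ^ s) - P (i * 2 ^ s)‖₊ ^ 2 := by
    rw [← NNReal.coe_le_coe]
    push_cast
    exact h1
  simp only [enorm_eq_nnnorm]
  exact_mod_cast h2

end RMG_

open RMG_ in
open Pool.Agent.KSP.MV_ (cont_nr ms_ann bd_ind int_Ex) in
/-- F15 -/
theorem pRMG : tRMG := by
  refine ⟨18, ?_⟩
  intro n R k h hn hR _ hk hh
  set P : ℝ × ℝ → ℕ → ℂ := fun x j => Ex ({ξ | nr ξ < R j}.indicator h) x with hP
  have hann : ∀ (x : ℝ × ℝ) (s i : ℕ), P x ((i + 1) * 2 ^ s) - P x (i * 2 ^ s) =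
      Ex ((ann (R (i * 2 ^ s)) (R ((i + 1) * 2 ^ s))).indicator h) x := by
    intro x s i
    exact Ex_sub hh (hR (Nat.mul_le_mul_right _ (Nat.le_succ i))) x
  have hmeas : ∀ g : ℝ × ℝ → ℂ, Bd g → Measurable fun x => ‖Ex g x‖ₑ ^ 2 := fun g hg =>
    ((pPl2 g hg).1.measurable.enorm).pow_const 2
  have hb0 : Bd ({ξ | nr ξ < R 0}.indicator h) := bd_ind hh (ms_lt _)
  have hbs : ∀ s i, Bd ((ann (R (i * 2 ^ s)) (R ((i + 1) * 2 ^ s))).indicator h) := fun s i =>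
    bd_ind hh (ms_ann _ _)
  calc ∫⁻ x, ‖Ex ({ξ | nr ξ < R (k x)}.indicator h) x‖ₑ ^ 2
      ≤ ∫⁻ x, (2 * ‖Ex ({ξ | nr ξ < R 0}.indicator h) x‖ₑ ^ 2 + 4 * ((n : ℝ≥0∞) + 1) *
        ∑ s ∈ Finset.range (n + 1), ∑ i ∈ Finset.range (2 ^ n),
          ‖Ex ((ann (R (i * 2 ^ s)) (R ((i + 1) * 2 ^ s))).indicator h) x‖ₑ ^ 2) := by
        refine lintegral_mono fun x => ?_
        have h1 := keyE n (P x) (k x) (hk x).le
        simp only [hann] at h1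
        exact h1
    _ = 2 * n2 ({ξ | nr ξ < R 0}.indicator h) + 4 * ((n : ℝ≥0∞) + 1) *
        ∑ s ∈ Finset.range (n + 1), ∑ i ∈ Finset.range (2 ^ n),
          n2 ((ann (R (i * 2 ^ s)) (R ((i + 1) * 2 ^ s))).indicator h) := by
        rw [lintegral_add_left ((hmeas _ hb0).const_mul 2), lintegral_const_mul _ (hmeas _ hb0),
          lintegral_const_mul _ (Finset.measurable_sum _ fun s _ =>
            Finset.measurable_sum _ fun i _ => hmeas _ (hbs s i)),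
          lintegral_finsetSum _ fun s _ => Finset.measurable_sum _ fun i _ => hmeas _ (hbs s i)]
        simp only [lintegral_finsetSum _ fun i _ => hmeas _ (hbs _ i)]
        rw [(pPl2 _ hb0).2]
        simp only [(pPl2 _ (hbs _ _)).2]
    _ ≤ 2 * n2 h + 4 * ((n : ℝ≥0∞) + 1) * ∑ s ∈ Finset.range (n + 1), n2 h := by
        gcongr with s hs
        · refine lintegral_mono fun ξ => ?_
          gcongr
          by_cases hx : ξ ∈ {ξ | nr ξ < R 0}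
          · rw [indicator_of_mem hx]
          · rw [indicator_of_notMem hx]
            simp
        · exact sum_n2 hh hR s _
    _ = (2 + 4 * ((n : ℝ≥0∞) + 1) * (n + 1)) * n2 h := by
        rw [Finset.sum_const, Finset.card_range, nsmul_eq_mul]
        push_cast
        ring
    _ ≤ ((18 : ℝ≥0) : ℝ≥0∞) * n ^ 2 * n2 h := by
        gcongr
        have h1 : 2 + 4 * (n + 1) * (n + 1) ≤ 18 * n ^ 2 := by nlinarith
        have h2 : ((2 + 4 * (n + 1) * (n + 1) : ℕ) : ℝ≥0∞) ≤ ((18 * n ^ 2 : ℕ) : ℝ≥0∞) := by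
          exact_mod_cast h1
        push_cast at h2 ⊢
        exact h2

end Pool.Agent.LLog
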