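import Pool.Agent.LLog.Defs

set_option autoImplicit false

/-! MP_ee701d_an, weak (2,2) bound with constant polynomial in `log m`: exact targets.
Proofs: Blueprint.lean.txt. -/

namespace Pool.Agent.LLog

open MeasureTheory Set
open scoped ENNReal NNReal ComplexConjugate
open Pool.Agent.KSP (ee dot nr Ex Ex1 Bd Bd1 n1 n2 lg V0 ann)

/-! ### A. Fourier tools -/

/-- A1 Fourier transform of bounded functions of finite measure support -/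
def tHAT : Prop := ∀ g : ℝ × ℝ → ℂ, Bf g →
  Continuous (hat g) ∧ (∃ B : ℝ, ∀ ξ, ‖hat g ξ‖ ≤ B) ∧
  ∫⁻ ξ, ‖hat g ξ‖ₑ ^ 2 = ∫⁻ x, ‖g x‖ₑ ^ 2 ∧
  ∀ k : ℝ × ℝ → ℂ, Bd k → ∫ x, g x * conj (Ex k x) = ∫ ξ, hat g ξ * conj (k ξ)

/-- A2 convolution representations -/
def tCVK : Prop := ∀ μ : ℝ × ℝ → ℂ, Bd μ →
  (∀ k : ℝ × ℝ → ℂ, Bd k → ∀ x, Ex (fun ξ => μ ξ * k ξ) x = ∫ z, Ex μ (x - z) * Ex k z) ∧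
  ∀ g : ℝ × ℝ → ℂ, Bf g → ∀ x, Ex (fun ξ => μ ξ * hat g ξ) x = ∫ z, Ex μ (x - z) * g z

/-- A3 localised Young inequality -/
def tYNG : Prop := ∀ (K g : ℝ × ℝ → ℝ≥0∞) (A B R : Set (ℝ × ℝ)), Measurable K → Measurable g →
  MeasurableSet A → MeasurableSet B → MeasurableSet R → (∀ x ∈ A, ∀ z ∈ B, x - z ∈ R) →
  ∫⁻ x in A, (∫⁻ z in B, K (x - z) * g z) ^ 2 ≤ (∫⁻ z in R, K z) ^ 2 * ∫⁻ x in B, g x ^ 2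

/-- A4 orthonormal frames, slices -/
def tFRM : Prop := ∀ t : ℝ,
  (∀ x ξ : ℝ × ℝ, dot x ξ = dot x (nv t) * dot ξ (nv t) + dot x (tv t) * dot ξ (tv t)) ∧
  (∀ x : ℝ × ℝ, x = dot x (nv t) • nv t + dot x (tv t) • tv t) ∧
  (∀ s y : ℝ, dot (s • nv t + y • tv t) (nv t) = s ∧ dot (s • nv t + y • tv t) (tv t) = y) ∧
  (∀ G : ℝ × ℝ → ℝ≥0∞, Measurable G → ∫⁻ x, G x = ∫⁻ y : ℝ, ∫⁻ s : ℝ, G (s • nv t + y • tv t)) ∧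
  ∀ h : ℝ × ℝ → ℂ, Bd h → (∀ y, Bd1 (Hs t h y)) ∧ Measurable (fun P : ℝ × ℝ => Hs t h P.1 P.2) ∧
    (∀ s y : ℝ, Ex h (s • nv t + y • tv t) = Ex1 (Hs t h y) s) ∧ ∫⁻ y, n1 (Hs t h y) = n2 h

/-- A5 product kernels -/
def tPRD : Prop := ∀ (t A B : ℝ) (f1 f2 : ℝ → ℂ), Bd1 f1 → Bd1 f2 → 0 < A → 0 < B →
  Bd (fun ξ => f1 (dot ξ (nv t)) * f2 (dot ξ (tv t))) ∧
  (∀ z, Ex (fun ξ => f1 (dot ξ (nv t)) * f2 (dot ξ (tv t))) z =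
    Ex1 f1 (dot z (nv t)) * Ex1 f2 (dot z (tv t))) ∧
  ∫⁻ z, ‖Ex (fun ξ => f1 (dot ξ (nv t)) * f2 (dot ξ (tv t))) z‖ₑ =
    (∫⁻ s, ‖Ex1 f1 s‖ₑ) * ∫⁻ s, ‖Ex1 f2 s‖ₑ ∧
  ∫⁻ z in {z | ¬ (|dot z (nv t)| ≤ A ∧ |dot z (tv t)| ≤ B)},
      ‖Ex (fun ξ => f1 (dot ξ (nv t)) * f2 (dot ξ (tv t))) z‖ₑ ≤
    (∫⁻ s in {s | A < |s|}, ‖Ex1 f1 s‖ₑ) * (∫⁻ s, ‖Ex1 f2 s‖ₑ) +
      (∫⁻ s, ‖Ex1 f1 s‖ₑ) * ∫⁻ s in {s | B < |s|}, ‖Ex1 f2 s‖ₑ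

/-- A6 moving averages on the Fourier side -/
def tMAV : Prop := ∀ (w R : ℝ) (f : ℝ → ℝ), 0 < w → Measurable f → (∃ B, ∀ x, |f x| ≤ B) →
  (∀ x, f x ≠ 0 → |x| ≤ R) →
  Measurable (mav w f) ∧ (∀ x, mav w f x ≠ 0 → |x| ≤ R + w / 2) ∧
  (∀ B, (∀ x, |f x| ≤ B) → ∀ x, |mav w f x| ≤ B) ∧
  ∀ s, Ex1 (fun ζ => (mav w f ζ : ℂ)) s =
    (Real.sinc (Real.pi * w * s) : ℂ) * Ex1 (fun ζ => (f ζ : ℂ)) s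

/-- A7 the cutoffs `psi` -/
def tPSI : Prop := ∀ (N : ℕ) (α β δ : ℝ), 2 ≤ N → 0 < δ → α + 2 * δ ≤ β →
  Measurable (psi N α β δ) ∧ (∀ x, 0 ≤ psi N α β δ x ∧ psi N α β δ x ≤ 1) ∧
  (∀ x, α + δ ≤ x → x ≤ β - δ → psi N α β δ x = 1) ∧
  (∀ x, (x < α ∨ β < x) → psi N α β δ x = 0) ∧
  ∫⁻ s in {s : ℝ | N / δ < |s|}, ‖Ex1 (fun ζ => (psi N α β δ ζ : ℂ)) s‖ₑ ≤
    ENNReal.ofReal (1 / 2 ^ N) ∧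
  ∫⁻ s, ‖Ex1 (fun ζ => (psi N α β δ ζ : ℂ)) s‖ₑ ≤
    ENNReal.ofReal (4 + Real.log (N * (β - α) / δ))

/-- A8 the kernel `kap` -/
def tKAP : Prop := ∀ (N : ℕ) (b : ℝ), Even N → 6 ≤ N → 0 < b →
  (∀ t, 0 ≤ kap N b t) ∧ Continuous (kap N b) ∧ ∫⁻ t, ENNReal.ofReal (kap N b t) = 1 ∧
  ∫⁻ t in {t : ℝ | N / b < |t|}, ENNReal.ofReal (kap N b t) ≤ ENNReal.ofReal (1 / 2 ^ N) ∧
  ∃ β : ℝ → ℂ, Bd1 β ∧ (∀ ζ, β ζ ≠ 0 → |ζ| ≤ b / 2) ∧ ∀ t, Ex1 β t = (kap N b t : ℂ)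

/-- A9 the weights `GK` -/
def tGK : Prop := ∀ (a m j : ℕ) (Y : Set (ℝ × ℝ)), PA a m → MeasurableSet Y →
  Measurable (GK a m j Y) ∧ (∀ x, GK a m j Y x ≤ 1) ∧
  (∀ x, (∀ y : ℝ × ℝ, |y.1 - x.1| ≤ 2 ^ (6 * a + j) → |y.2 - x.2| ≤ 2 ^ (6 * a + j) → y ∈ Y) →
    1 ≤ 2 * GK a m j Y x) ∧
  (∀ x, (∀ y ∈ Y, ¬ (|y.1 - x.1| ≤ 2 ^ (6 * a + j) ∧ |y.2 - x.2| ≤ 2 ^ (6 * a + j))) →
    GK a m j Y x ≤ ENNReal.ofReal (2 / 2 ^ (40 * m))) ∧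
  (volume Y < ⊤ → ∃ g : ℝ × ℝ → ℂ, Bd g ∧
    (∀ ξ, g ξ ≠ 0 → |ξ.1| ≤ 1 / 2 ^ (4 * a + j) / 2 ∧ |ξ.2| ≤ 1 / 2 ^ (4 * a + j) / 2) ∧
    ∀ x, Ex g x = ((GK a m j Y x).toReal : ℂ))

/-! ### B. Geometry of caps, multipliers -/

/-- B1 direction of a cap -/
def tGEO : Prop := ∀ (sl : ℝ) (j p : ℕ), 1 ≤ sl → sl < 2 → 10 ≤ j → p < 3 * 2 ^ j →
  (-2 ≤ tp sl j p ∧ tp sl j p < 2) ∧
  (∀ ξ, cp sl j p ξ → 0 < dot ξ (nv (tp sl j p)) ∧ 0 ≤ dot ξ (tv (tp sl j p)) ∧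
    dot ξ (nv (tp sl j p)) ≤ nr ξ ∧ nr ξ ≤ dot ξ (nv (tp sl j p)) + nr ξ / 4 ^ j ∧
    |Nn (tp sl j p) ^ 2 * 2 ^ j * (dot ξ (tv (tp sl j p)) / dot ξ (nv (tp sl j p))) -
      (2 ^ j * (ξ.2 / ξ.1 + sl) - p)| ≤ 3 / 2 ^ j) ∧
  ∀ ξ, 0 < dot ξ (nv (tp sl j p)) →
    3 / 2 ^ j < Nn (tp sl j p) ^ 2 * 2 ^ j * (dot ξ (tv (tp sl j p)) / dot ξ (nv (tp sl j p))) →
    Nn (tp sl j p) ^ 2 * 2 ^ j * (dot ξ (tv (tp sl j p)) / dot ξ (nv (tp sl j p))) <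
      1 - 3 / 2 ^ j → cp sl j p ξ

/-- B2 supports of the multipliers, flatness -/
def tMUS : Prop := ∀ (a m : ℕ) (sg sl : ℝ) (l j c p : ℕ), PA a m → 0 ≤ sg → sg < 1 → 1 ≤ sl →
  sl < 2 → 10 * a < l → l ≤ m → l + 8 * a ≤ j + 1 → j ≤ m + 8 * a → c < 2 * 4 ^ l →
  1 < sg + (c + 1) / 4 ^ l → p < 3 * 2 ^ j →
  (Bd (mu a m sg sl l j c p) ∧ (∀ ξ, ‖mu a m sg sl l j c p ξ‖ ≤ 1) ∧
    ∀ ξ, mu a m sg sl l j c p ξ ≠ 0 → cd sg l c ξ ∧ cp sl j p ξ) ∧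
  (Bd (nu a m sg sl j (c / 4 ^ (l - 3 * a)) p) ∧
    (∀ ξ, ‖nu a m sg sl j (c / 4 ^ (l - 3 * a)) p ξ‖ ≤ 1) ∧
    ∀ ξ, nu a m sg sl j (c / 4 ^ (l - 3 * a)) p ξ ≠ 0 →
      cd sg (3 * a) (c / 4 ^ (l - 3 * a)) ξ ∧ cp sl j p ξ) ∧
  (∀ ξ, cd sg l c ξ → fr (3 / 2 ^ (4 * a + 1)) (4 ^ l * (nr ξ - sg)) →
    fr (3 / 2 ^ (4 * a + 1)) (4 ^ (3 * a) * (nr ξ - sg)) →
    mu a m sg sl l j c p ξ = nu a m sg sl j (c / 4 ^ (l - 3 * a)) p ξ) ∧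
  ∀ ξ, cd sg l c ξ → cp sl j p ξ → fr (2 / 2 ^ (4 * a)) (4 ^ l * (nr ξ - sg)) →
    fr (2 / 2 ^ (4 * a)) (4 ^ (3 * a) * (nr ξ - sg)) →
    fr (2 / 2 ^ (4 * a)) (2 ^ j * (ξ.2 / ξ.1 + sl)) → mu a m sg sl l j c p ξ = 1

/-- B3 kernels of the multipliers -/
def tMUK : Prop := ∀ (a m : ℕ) (sg sl : ℝ) (l j c p : ℕ), PA a m → 0 ≤ sg → sg < 1 → 1 ≤ sl →
  sl < 2 → 10 * a < l → l ≤ m → l + 8 * a ≤ j + 1 → j ≤ m + 8 * a → c < 2 * 4 ^ l →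
  1 < sg + (c + 1) / 4 ^ l → p < 3 * 2 ^ j →
  ∫⁻ z, ‖Ex (mu a m sg sl l j c p) z‖ₑ ≤ 2 ^ a ∧
  ∫⁻ z in {z | ¬ (|dot z (nv (tp sl j p))| ≤ 4 ^ l * 2 ^ (6 * a) ∧
      |dot z (tv (tp sl j p))| ≤ 2 ^ (6 * a + j))}, ‖Ex (mu a m sg sl l j c p) z‖ₑ ≤
    ENNReal.ofReal (1 / 2 ^ (30 * m)) ∧
  ∫⁻ z, ‖Ex (nu a m sg sl j (c / 4 ^ (l - 3 * a)) p) z‖ₑ ≤ 2 ^ a ∧
  ∫⁻ z in {z | ¬ (|z.1| ≤ 2 ^ (6 * a + j + 1) ∧ |z.2| ≤ 2 ^ (6 * a + j + 1))},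
      ‖Ex (nu a m sg sl j (c / 4 ^ (l - 3 * a)) p) z‖ₑ ≤ ENNReal.ofReal (1 / 2 ^ (30 * m))

/-- B4 sectors are orthogonal with respect to the weights `GK` -/
def tSEC : Prop := ∀ (a m j n : ℕ) (sl : ℝ) (Y : Set (ℝ × ℝ)) (u : ℕ → ℝ × ℝ → ℂ), PA a m →
  MeasurableSet Y → volume Y < ⊤ →
  (∀ p, Bd (u p) ∧ ∀ ξ, u p ξ ≠ 0 → ξ ∈ V0 ∧ cp sl j p ξ ∧
    fr (2 / 2 ^ (4 * a)) (2 ^ j * (ξ.2 / ξ.1 + sl))) →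
  ∫⁻ x, GK a m j Y x * ‖∑ p ∈ Finset.range n, Ex (u p) x‖ₑ ^ 2 ≤
    ∑ p ∈ Finset.range n, ∫⁻ x, GK a m j Y x * ‖Ex (u p) x‖ₑ ^ 2

/-! ### C. Martingale lemma, one dimension -/

/-- C1 one step -/
def tSTP : Prop := ∀ (n : ℕ) (u : ℕ → ℝ) (d : ℕ → ℂ) (M : ℂ) (ρ : ℝ), 0 < n → 0 < ρ →
  (∀ i < n, ρ ≤ u i ∧ u i ≤ 1) → ∑ i ∈ Finset.range n, d i = 0 →
  (∑ i ∈ Finset.range n, ph (u i) * ‖M + d i‖ ^ 2) / n ≤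
    ph ((∑ i ∈ Finset.range n, u i) / n) * ‖M‖ ^ 2 +
      4 * (1 + Real.log (1 / ρ)) ^ 2 *
        ((∑ i ∈ Finset.range n, ((∑ i ∈ Finset.range n, u i) / n + u i) * ‖d i‖ ^ 2) / n)

/-- C2 the martingale lemma on a cell of the line -/
def tBEL : Prop := ∀ (N p : ℕ) (L0 ρ : ℝ) (D : ℕ → ℝ → ℂ) (ω : ℝ → ℝ) (n : ℤ), 1 ≤ N → 0 < L0 →
  0 < ρ → Measurable ω → (∀ s, ρ ≤ ω s ∧ ω s ≤ 1) →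
  (∀ k, 1 ≤ k → k ≤ p → ∀ s s' : ℝ, ⌊s / (L0 * N ^ (k - 1))⌋ = ⌊s' / (L0 * N ^ (k - 1))⌋ →
    D k s = D k s') →
  (∀ k, 1 ≤ k → k ≤ p → ∀ s, avgC (L0 * N ^ k) (D k) s = 0) →
  ∫⁻ s in Ico (L0 * N ^ p * n) (L0 * N ^ p * (n + 1)),
      ENNReal.ofReal (ω s) * ‖∑ k ∈ Finset.Icc 1 p, D k s‖ₑ ^ 2 ≤
    ENNReal.ofReal (4 * (1 + Real.log (1 / ρ)) ^ 2) * ∑ k ∈ Finset.Icc 1 p,
      ∫⁻ s in Ico (L0 * N ^ p * n) (L0 * N ^ p * (n + 1)),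
        (avgc (L0 * N ^ (k - 1)) (fun s => ENNReal.ofReal (ω s)) s +
          avgc (L0 * N ^ k) (fun s => ENNReal.ofReal (ω s)) s) * ‖D k s‖ₑ ^ 2

/-- C3 suprema over cells -/
def tSC : Prop := ∃ C : ℝ≥0, ∀ (L b r0 : ℝ) (H : ℝ → ℂ), 0 < L → 0 < b → Bd1 H →
  (∀ ζ, H ζ ≠ 0 → |ζ - r0| ≤ b) → ∃ Φ : ℤ → ℝ≥0∞,
  (∀ s, ‖Ex1 H s‖ₑ ^ 2 ≤ Φ ⌊s / L⌋) ∧
  ∫⁻ s, Φ ⌊s / L⌋ ≤ C * ENNReal.ofReal (1 + (L * b) ^ 2) * n1 H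

/-- C4 a demodulated function is almost constant on short cells, uniformly in the frequency -/
def tEA : Prop := ∃ C : ℝ≥0, ∀ (L b r0 : ℝ) (H : ℝ → ℂ), 0 < L → 0 < b → Bd1 H →
  (∀ ζ, H ζ ≠ 0 → |ζ - r0| ≤ b) → ∃ Φ : ℤ → ℝ≥0∞,
  (∀ r s, |r - r0| ≤ b →
    ‖ee (-(r * s)) * Ex1 H s - avgC L (fun s => ee (-(r * s)) * Ex1 H s) s‖ₑ ^ 2 ≤ Φ ⌊s / L⌋) ∧
  ∫⁻ s, Φ ⌊s / L⌋ ≤ C * ENNReal.ofReal ((L * b) ^ 2) * n1 H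

/-- C5 averages over long cells are small, uniformly in the frequency -/
def tEB : Prop := ∃ C : ℝ≥0, ∀ (L d : ℝ) (H : ℝ → ℂ), 0 < L → 0 < d → 1 ≤ L * d → Bd1 H →
  ∃ Φ : ℤ → ℝ≥0∞,
  (∀ r s, (∀ ζ, H ζ ≠ 0 → d ≤ |ζ - r|) →
    ‖avgC L (fun s => ee (-(r * s)) * Ex1 H s) s‖ₑ ^ 2 ≤ Φ ⌊s / L⌋) ∧
  ∫⁻ s, Φ ⌊s / L⌋ ≤ C * ENNReal.ofReal (1 / (L * d)) * n1 H

/-- hypotheses of the one-dimensional theorem -/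
def H1D (a i e b : ℕ) (sg : ℝ) (J : ℕ → ℕ → Finset ℕ) (H : ℝ → ℂ) (χ : ℕ → ℝ → ℝ≥0∞) : Prop :=
  20 ≤ a ∧ 7 * a ≤ i ∧ i < e ∧ e - i ≤ 2 ^ a ∧ Bd1 H ∧
  (∀ ζ, H ζ ≠ 0 → cdr sg i b ζ ∧ ∀ l, i ≤ l → l ≤ e → fr (1 / 2 ^ (4 * a)) (4 ^ l * (ζ - sg))) ∧
  (∀ l w, ∀ c ∈ J l w, c / 4 = w / 4 ∧ c ≠ w) ∧
  (∀ u, Measurable (χ u)) ∧ ∀ s, ∑ u ∈ Finset.range (2 * 4 ^ e), χ u s ≤ 1

/-- C6 levels above the first unpopular node -/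
def tBDJ : Prop := ∃ C : ℝ≥0, ∀ (a i e b lam p : ℕ) (sg : ℝ) (J : ℕ → ℕ → Finset ℕ) (H : ℝ → ℂ)
    (χ : ℕ → ℝ → ℝ≥0∞), H1D a i e b sg J H χ → i < lam + 7 * a → lam + 7 * a * p ≤ e →
  ∫⁻ s, ∑ u ∈ Finset.range (2 * 4 ^ e), χ u s *
      ∑ k ∈ Finset.Icc 1 p, (open Classical in if pb a lam e χ k u s then
        ‖Dj sg J H (lam + 7 * a * k) (u / 4 ^ (e - (lam + 7 * a * k))) s‖ₑ ^ 2 else 0) ≤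
    C * ENNReal.ofReal (1 / 2 ^ (8 * a)) * n1 H

/-- C7 levels below the first unpopular node -/
def tGDJ : Prop := ∃ C : ℝ≥0, ∀ (a i e b lam p : ℕ) (sg : ℝ) (J : ℕ → ℕ → Finset ℕ) (H : ℝ → ℂ)
    (χ : ℕ → ℝ → ℝ≥0∞), H1D a i e b sg J H χ → i < lam + 7 * a → lam + 7 * a * p ≤ e →
  ∫⁻ s, ∑ u ∈ Finset.range (2 * 4 ^ e), χ u s *
      ‖∑ k ∈ Finset.Icc 1 p, (open Classical in if pb a lam e χ k u s then 0 else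
        Dj sg J H (lam + 7 * a * k) (u / 4 ^ (e - (lam + 7 * a * k))) s)‖ₑ ^ 2 ≤
    C * a ^ 2 * (∑ k ∈ Finset.Icc 1 p, ∑ w ∈ Finset.range (2 * 4 ^ (lam + 7 * a * k)), ∫⁻ s,
      (avgc (4 ^ (lam + 7 * a * k + 5 * a)) (chw e χ (lam + 7 * a * k) w) s +
        avgc (4 ^ (lam + 7 * a * k) / 4 ^ (2 * a)) (chw e χ (lam + 7 * a * k) w) s) *
        ‖Dj sg J H (lam + 7 * a * k) w s‖ₑ ^ 2) +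
    C * ENNReal.ofReal (1 / 2 ^ (3 * a)) * n1 H

/-- C8 the one-dimensional theorem -/
def tRSF : Prop := ∃ C : ℝ≥0, ∀ (a i e b : ℕ) (sg : ℝ) (J : ℕ → ℕ → Finset ℕ) (H : ℝ → ℂ)
    (χ : ℕ → ℝ → ℝ≥0∞), H1D a i e b sg J H χ →
  ∫⁻ s, ∑ u ∈ Finset.range (2 * 4 ^ e), χ u s *
      ‖∑ l ∈ Finset.Ioc i e, Dj sg J H l (u / 4 ^ (e - l)) s‖ₑ ^ 2 ≤
    C * a ^ 3 * (∑ l ∈ Finset.Ioc i e,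
      ∑ c ∈ (Finset.range (2 * 4 ^ l)).filter (fun c => c / 4 ^ (l - i) = b), ∫⁻ s,
      (avgc (4 ^ (l + 5 * a)) (fun s => ∑ w ∈ (Finset.range (2 * 4 ^ l)).filter
          (fun w => w / 4 = c / 4 ∧ w ≠ c), chw e χ l w s) s +
        avgc (4 ^ l / 4 ^ (2 * a)) (fun s => ∑ w ∈ (Finset.range (2 * 4 ^ l)).filter
          (fun w => w / 4 = c / 4 ∧ w ≠ c), chw e χ l w s) s) * ‖Pc sg H l c s‖ₑ ^ 2) +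
    C * ENNReal.ofReal (1 / 2 ^ (2 * a)) * n1 H

/-- C9 short averages -/
def tSHT : Prop := ∃ C : ℝ≥0, ∀ (L b r0 : ℝ) (H : ℝ → ℂ) (κ : ℝ → ℝ≥0∞), 0 < L → 0 < b →
  Bd1 H → (∀ ζ, H ζ ≠ 0 → |ζ - r0| ≤ b) → Measurable κ → (∀ s, κ s ≤ 1) →
  ∫⁻ s, κ s * ‖Ex1 H s‖ₑ ^ 2 ≤ 4 * (∫⁻ s, avgc L κ s * ‖Ex1 H s‖ₑ ^ 2) +
    C * ENNReal.ofReal ((L * b) ^ 2) * n1 H

/-! ### D. Back to the plane -/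

/-- union of the interiors of the sets `Y u`, `u` a descendant of a sibling of `c` -/
def Xb (a l e c : ℕ) (Y : ℕ → Set (ℝ × ℝ)) : Set (ℝ × ℝ) :=
  {x | ∃ u < 2 * 4 ^ e, u / 4 ^ (e - l) ≠ c ∧ u / 4 ^ (e - l) / 4 = c / 4 ∧ x ∈ inn (de a e) (Y u)}

/-- D1 one block -/
def tBLK : Prop := ∃ C : ℝ≥0, ∀ (a m i e b : ℕ) (sg sl : ℝ) (h : ℝ × ℝ → ℂ)
    (Y : ℕ → Set (ℝ × ℝ)), PA a m → 0 ≤ sg → sg < 1 → 1 ≤ sl → sl < 2 → 10 * a ≤ i → i < e →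
  e ≤ m → Core a m sg sl h → (∀ u, MeasurableSet (Y u) ∧ volume (Y u) < ⊤) →
  (∀ u u', u ≠ u' → Disjoint (Y u) (Y u')) →
  ∑ u ∈ (Finset.range (2 * 4 ^ e)).filter (fun u => u / 4 ^ (e - i) = b),
      ∫⁻ x in inn (3 * de a e) (Y u),
        (‖Ex ({ξ | sg + b / 4 ^ i ≤ nr ξ ∧ nr ξ < sg + u / 4 ^ e}.indicator h) x‖ₑ ^ 2 +
        ‖Ex ({ξ | sg + (u + 1) / 4 ^ e ≤ nr ξ ∧ nr ξ < sg + (b + 1) / 4 ^ i}.indicator h) x‖ₑ ^ 2) ≤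
    C * a ^ 3 * (∑ l ∈ Finset.Ioc i e,
      ∑ c ∈ (Finset.range (2 * 4 ^ l)).filter (fun c => c / 4 ^ (l - i) = b),
      ∑ p ∈ Finset.range (3 * 2 ^ (e + 8 * a)), ∫⁻ x,
        (sa (tp sl (e + 8 * a) p) (4 ^ (l + 5 * a)) (Xb a l e c Y) x +
          sa (tp sl (e + 8 * a) p) (4 ^ l / 4 ^ (2 * a)) (Xb a l e c Y) x) *
        ‖Ex ({ξ | cd sg l c ξ ∧ cp sl (e + 8 * a) p ξ}.indicator h) x‖ₑ ^ 2) +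
    C * ENNReal.ofReal (1 / 2 ^ (2 * a)) * n2 ({ξ | cd sg i b ξ}.indicator h)

/-- D2 the children -/
def tCHD : Prop := ∃ C : ℝ≥0, ∀ (a m l : ℕ) (sg sl : ℝ) (h : ℝ × ℝ → ℂ)
    (X : ℕ → Set (ℝ × ℝ)), PA a m → 0 ≤ sg → sg < 1 → 1 ≤ sl → sl < 2 → 10 * a < l → l ≤ m →
  Core a m sg sl h → (∀ c, MeasurableSet (X c) ∧ volume (X c) < ⊤) →
  ∑ c ∈ Finset.range (2 * 4 ^ l), ∫⁻ x in inn (3 * de a (l - 1)) (X c),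
        ‖Ex ({ξ | cd sg l c ξ}.indicator h) x‖ₑ ^ 2 ≤
    C * (∑ c ∈ Finset.range (2 * 4 ^ l), ∑ p ∈ Finset.range (3 * 2 ^ (l - 1 + 8 * a)), ∫⁻ x,
        sa (tp sl (l - 1 + 8 * a) p) (4 ^ l / 4 ^ (2 * a)) (inn (de a (l - 1)) (X c)) x *
        ‖Ex ({ξ | cd sg l c ξ ∧ cp sl (l - 1 + 8 * a) p ξ}.indicator h) x‖ₑ ^ 2) +
    C * ENNReal.ofReal (1 / 2 ^ (6 * a)) * n2 h

/-! ### E. The positive sum -/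

/-- E1 sectors can be summed locally -/
def tLOC : Prop := ∀ (a m : ℕ) (sg sl : ℝ) (l e c : ℕ) (X : Set (ℝ × ℝ)) (k : ℝ × ℝ → ℂ),
  PA a m → 0 ≤ sg → sg < 1 → 1 ≤ sl → sl < 2 → 10 * a < l → l ≤ m → l ≤ e + 1 → e ≤ m →
  c < 2 * 4 ^ l → 1 < sg + (c + 1) / 4 ^ l → MeasurableSet X → volume X < ⊤ → Bd k →
  ∑ p ∈ Finset.range (3 * 2 ^ (e + 8 * a)), ∫⁻ x in inn (de a e) X,
      ‖Ex (fun ξ => nu a m sg sl (e + 8 * a) (c / 4 ^ (l - 3 * a)) p ξ * k ξ) x‖ₑ ^ 2 ≤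
    2 * (∫⁻ x in X, ‖Ex k x‖ₑ ^ 2) + ENNReal.ofReal (1 / 2 ^ m) * n2 k

/-- E2 translations in the direction of the cap are phases -/
def tTRA : Prop := ∀ (a m : ℕ) (sg sl : ℝ) (l d e c p : ℕ) (L : ℝ) (X : Set (ℝ × ℝ))
    (k : ℝ × ℝ → ℂ), PA a m → 0 ≤ sg → sg < 1 → 1 ≤ sl → sl < 2 → 10 * a < l →
  l + 7 * a ≤ d → d ≤ m → l ≤ e + 1 → e ≤ m → p < 3 * 2 ^ (e + 8 * a) → 0 < L →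
  L ≤ 4 ^ (l + 5 * a) → MeasurableSet X → Bd k →
  (∀ ξ, k ξ ≠ 0 → cd sg d c ξ ∧ cp sl (e + 8 * a) p ξ ∧ nr ξ ≤ 3) →
  ∫⁻ x, sa (tp sl (e + 8 * a) p) L X x * ‖Ex k x‖ₑ ^ 2 ≤
    2 * (∫⁻ x in X, ‖Ex k x‖ₑ ^ 2) + ENNReal.ofReal (1 / 2 ^ (5 * a)) * n2 k

/-- left side of the chain estimate -/
noncomputable def chn (a m : ℕ) (sg sl : ℝ) (e : ℕ → ℕ) (L : ℕ → ℝ) (X : ℕ → ℕ → Set (ℝ × ℝ))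
    (r l : ℕ) (k : ℝ × ℝ → ℂ) : ℝ≥0∞ :=
  ∑ p ∈ Finset.range (3 * 2 ^ (e l + 8 * a)), ∫⁻ x,
    sa (tp sl (e l + 8 * a) p) (L l) (inn (de a (e l)) (X l (r / 4 ^ (m - l)))) x *
    ‖Ex (fun ξ => mu a m sg sl l (e l + 8 * a) (r / 4 ^ (m - l)) p ξ * k ξ) x‖ₑ ^ 2

/-- E3 a chain, frequencies deep in the chain -/
def tHA : Prop := ∀ (a m K : ℕ) (sg sl : ℝ) (LL : Finset ℕ) (e : ℕ → ℕ) (L : ℕ → ℝ)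
    (X : ℕ → ℕ → Set (ℝ × ℝ)) (r d : ℕ) (k : ℝ × ℝ → ℂ), PA a m → 0 ≤ sg → sg < 1 → 1 ≤ sl →
  sl < 2 → CL a m LL e L → (∀ l c, MeasurableSet (X l c) ∧ volume (X l c) < ⊤) →
  (open Classical in ∀ x, (LL.filter (fun l => x ∈ X l (r / 4 ^ (m - l)))).card ≤ K) →
  r < 2 * 4 ^ m → d ∈ LL → adm a sg LL d (r / 4 ^ (m - d)) → Bd k →
  (∀ ξ, k ξ ≠ 0 → cd sg d (r / 4 ^ (m - d)) ξ) →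
  ∑ l ∈ LL.filter (fun l => l < d), chn a m sg sl e L X r l k ≤ (4 * K + 1) * n2 k

/-- E4 Rademacher-Menshov for quadratic functionals -/
def tRMQ : Prop := ∀ (D n : ℕ) (B : ℝ≥0∞) (q : ℕ → (ℕ → ℂ) → ℝ≥0∞) (w : ℕ → ℝ≥0∞), D ≤ 2 ^ n →
  (∀ j (F : Finset ℕ) (v : ℕ → ℕ → ℂ), q j (∑ i ∈ F, v i) ≤ F.card * ∑ i ∈ F, q j (v i)) →
  (∀ α β, α < β → β ≤ D → ∑ j ∈ Finset.range α, q j ((Ico α β).indicator 1) ≤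
    B * ∑ d ∈ Finset.Ico α β, w d) →
  ∑ j ∈ Finset.range D, q j ((Ioo j D).indicator 1) ≤ B * (n + 1) ^ 2 * ∑ d ∈ Finset.range D, w d

/-- E5 the chain estimate for all functions -/
def tHB : Prop := ∃ C : ℝ≥0, ∀ (a m K : ℕ) (sg sl : ℝ) (LL : Finset ℕ) (e : ℕ → ℕ) (L : ℕ → ℝ)
    (X : ℕ → ℕ → Set (ℝ × ℝ)) (r : ℕ) (k : ℝ × ℝ → ℂ), PA a m → 0 ≤ sg → sg < 1 → 1 ≤ sl →
  sl < 2 → CL a m LL e L → (∀ l c, MeasurableSet (X l c) ∧ volume (X l c) < ⊤) →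
  (open Classical in ∀ x, (LL.filter (fun l => x ∈ X l (r / 4 ^ (m - l)))).card ≤ K) →
  r < 2 * 4 ^ m → Bd k →
  (open Classical in ∑ l ∈ LL.filter (fun l => adm a sg LL l (r / 4 ^ (m - l))),
    chn a m sg sl e L X r l k) ≤ C * a ^ 2 * (K + 1) * n2 k

/-- E6 duality -/
def tDUA : Prop := ∀ (I : Finset (ℕ × ℕ × ℕ)) (V : Finset (ℕ × ℕ)) (μ : ℕ × ℕ × ℕ → ℝ × ℝ → ℂ)
    (ω : ℕ × ℕ × ℕ → ℕ × ℕ → ℝ × ℝ → ℝ) (h : ℝ × ℝ → ℂ) (K ε : ℝ≥0), Bd h →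
  (∀ i ∈ I, Bd (μ i) ∧ ∀ ξ, ‖μ i ξ‖ ≤ 1) →
  (∀ i ∈ I, ∀ v ∈ V, Measurable (ω i v) ∧ (∀ x, 0 ≤ ω i v x) ∧ volume {x | ω i v x ≠ 0} < ⊤) →
  (∀ i ∈ I, ∀ x, ∑ v ∈ V, ω i v x ≤ 1) →
  (∀ v ∈ V, ∀ k, Bd k → ∑ i ∈ I, ∫⁻ x, ENNReal.ofReal (ω i v x) *
    ‖Ex (fun ξ => μ i ξ * k ξ) x‖ₑ ^ 2 ≤ K * n2 k) →
  (∀ i ∈ I, ∀ j ∈ I, ∀ v ∈ V, ∀ v' ∈ V, i ≠ j → v ≠ v' →
    ‖∫ ξ, conj (μ i ξ) * hat (fun x => ω i v x * Ex (fun ξ => μ i ξ * h ξ) x) ξ *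
      conj (conj (μ j ξ) * hat (fun x => ω j v' x * Ex (fun ξ => μ j ξ * h ξ) x) ξ)‖ₑ ≤
      ε * n2 h) →
  ∑ i ∈ I, ∑ v ∈ V, ∫⁻ x, ENNReal.ofReal (ω i v x) * ‖Ex (fun ξ => μ i ξ * h ξ) x‖ₑ ^ 2 ≤
    (K + 2 + (I.card * V.card) ^ 2 * ε) * n2 h

/-- E7 far supports -/
def tFAR : Prop := ∀ (μ1 μ2 u1 u2 : ℝ × ℝ → ℂ) (R1 R2 : Set (ℝ × ℝ)), Bd μ1 → Bd μ2 → Bf u1 →
  Bf u2 → MeasurableSet R1 → MeasurableSet R2 → (∀ z ∈ R1, -z ∈ R1) → (∀ z ∈ R2, -z ∈ R2) →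
  (∀ x y z1 z2, u1 x ≠ 0 → u2 y ≠ 0 → z1 ∈ R1 → z2 ∈ R2 → x - y ≠ z1 + z2) →
  ‖∫ ξ, conj (μ1 ξ) * hat u1 ξ * conj (conj (μ2 ξ) * hat u2 ξ)‖ₑ ≤
    ((∫⁻ z in R1ᶜ, ‖Ex μ1 z‖ₑ) * (∫⁻ z, ‖Ex μ2 z‖ₑ) +
      (∫⁻ z, ‖Ex μ1 z‖ₑ) * ∫⁻ z in R2ᶜ, ‖Ex μ2 z‖ₑ) *
    ((∫⁻ x, ‖u1 x‖ₑ ^ 2) + ∫⁻ x, ‖u2 x‖ₑ ^ 2)

/-- E8 boxes of nested tiles -/
def tBXM : Prop := ∀ (a m : ℕ) (sl : ℝ) (l l' l'' e e' e'' p p' p'' : ℕ) (s' : ℝ)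
    (z1 z2 z3 : ℝ × ℝ), PA a m → 1 ≤ sl → sl < 2 → 10 * a < l → l + 7 * a ≤ l' → l' ≤ l'' →
  l'' ≤ m → e ≤ e' → e' ≤ e'' → e'' ≤ m → l ≤ e + 1 → l' ≤ e' + 1 → l'' ≤ e'' + 1 →
  p' / 2 ^ (e' - e) = p → p'' / 2 ^ (e'' - e') = p' → p'' < 3 * 2 ^ (e'' + 8 * a) →
  |dot z1 (nv (tp sl (e + 8 * a) p))| ≤ 4 ^ l * 2 ^ (6 * a) →
  |dot z1 (tv (tp sl (e + 8 * a) p))| ≤ 2 ^ (6 * a + (e + 8 * a)) →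
  |dot z2 (nv (tp sl (e' + 8 * a) p'))| ≤ 4 ^ l' * 2 ^ (6 * a) →
  |dot z2 (tv (tp sl (e' + 8 * a) p'))| ≤ 2 ^ (6 * a + (e' + 8 * a)) → 0 ≤ s' →
  z3 ∈ bx (tp sl (e'' + 8 * a) p'') 0 (s' * bl a e'' l'') (s' * sd a e'') →
  z1 + z2 + z3 ∈ bx (tp sl (e'' + 8 * a) p'') 0 ((s' + 1 / m) * bl a e'' l'')
    ((s' + 1 / m) * sd a e'')

/-- E9 monotonicity and measurability of `Lam` -/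
def tLAM : Prop := ∀ (a m : ℕ) (sl : ℝ) (LL : Finset ℕ) (e : ℕ → ℕ) (L : ℕ → ℝ)
    (X : ℕ → ℕ → Set (ℝ × ℝ)), PA a m → 1 ≤ sl → sl < 2 → CL a m LL e L →
  (∀ l ∈ LL, ∀ c p x, p < 3 * 2 ^ (e l + 8 * a) → c < 2 * 4 ^ l →
    ENNReal.ofReal (1 / 2 ^ a) ≤
      sa (tp sl (e l + 8 * a) p) (L l) (inn (de a (e l)) (X l c)) x →
    (l, c) ∈ Lam a m sl LL e L X l c p x) ∧
  (∀ l ∈ LL, ∀ c p P, MeasurableSet {x | P ∈ Lam a m sl LL e L X l c p x}) ∧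
  ∀ l ∈ LL, ∀ l' ∈ LL, ∀ c c' p p' x x' z1 z2, l < l' → c' / 4 ^ (l' - l) = c →
    p' / 2 ^ (e l' - e l) = p → p' < 3 * 2 ^ (e l' + 8 * a) → x - x' = z1 + z2 →
    |dot z1 (nv (tp sl (e l + 8 * a) p))| ≤ 4 ^ l * 2 ^ (6 * a) →
    |dot z1 (tv (tp sl (e l + 8 * a) p))| ≤ 2 ^ (6 * a + (e l + 8 * a)) →
    |dot z2 (nv (tp sl (e l' + 8 * a) p'))| ≤ 4 ^ l' * 2 ^ (6 * a) →
    |dot z2 (tv (tp sl (e l' + 8 * a) p'))| ≤ 2 ^ (6 * a + (e l' + 8 * a)) →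
    Lam a m sl LL e L X l' c' p' x' ⊆ Lam a m sl LL e L X l c p x

/-- E10 random colours -/
def tSMP : Prop := ∀ (U : Finset (ℕ × ℕ)) (N : ℕ) (F : Finset (ℕ × ℕ) → ℝ≥0∞), 2 ≤ N →
  ∃ χ : ℕ × ℕ → ℕ,
    (∑ Λ ∈ U.powerset, if N ≤ 2 * Λ.card ∧ Λ.card < N then F Λ else 0) ≤
      8 * ∑ Λ ∈ U.powerset, if (Λ.filter (fun v => χ v = 0)).card = 1 then F Λ else 0

/-- left side of the positive sum, for a condition on the tile points -/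
noncomputable def pos (a m : ℕ) (sg sl : ℝ) (LL : Finset ℕ) (e : ℕ → ℕ) (L : ℕ → ℝ)
    (X : ℕ → ℕ → Set (ℝ × ℝ)) (Q : Finset (ℕ × ℕ) → Prop) (h : ℝ × ℝ → ℂ) : ℝ≥0∞ :=
  open Classical in
  ∑ l ∈ LL, ∑ c ∈ (Finset.range (2 * 4 ^ l)).filter (fun c => adm a sg LL l c),
    ∑ p ∈ Finset.range (3 * 2 ^ (e l + 8 * a)), ∫⁻ x,
      (if ENNReal.ofReal (1 / 2 ^ a) ≤
          sa (tp sl (e l + 8 * a) p) (L l) (inn (de a (e l)) (X l c)) x ∧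
          Q (Lam a m sl LL e L X l c p x) then
        sa (tp sl (e l + 8 * a) p) (L l) (inn (de a (e l)) (X l c)) x *
          ‖Ex (fun ξ => mu a m sg sl l (e l + 8 * a) c p ξ * h ξ) x‖ₑ ^ 2 else 0)

/-- E11 the positive sum for a colouring -/
def tPCH : Prop := ∃ C : ℝ≥0, ∀ (a m K : ℕ) (sg sl : ℝ) (LL : Finset ℕ) (e : ℕ → ℕ) (L : ℕ → ℝ)
    (X : ℕ → ℕ → Set (ℝ × ℝ)) (χ : ℕ × ℕ → ℕ) (h : ℝ × ℝ → ℂ), PA a m → 0 ≤ sg → sg < 1 →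
  1 ≤ sl → sl < 2 → CL a m LL e L → (∀ l c, MeasurableSet (X l c) ∧ volume (X l c) < ⊤) →
  (open Classical in
    ∀ x, ∀ r < 2 * 4 ^ m, (LL.filter (fun l => x ∈ X l (r / 4 ^ (m - l)))).card ≤ K) →
  Bd h →
  pos a m sg sl LL e L X (fun Λ => (Λ.filter (fun v => χ v = 0)).card = 1) h ≤
    C * a ^ 2 * (K + 1) * n2 h

/-- E12 the positive sum -/
def tPOS : Prop := ∃ C : ℝ≥0, ∀ (a m K M : ℕ) (sg sl : ℝ) (LL : Finset ℕ) (e : ℕ → ℕ)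
    (L : ℕ → ℝ) (X : ℕ → ℕ → Set (ℝ × ℝ)) (h : ℝ × ℝ → ℂ), PA a m → 0 ≤ sg → sg < 1 →
  1 ≤ sl → sl < 2 → CL a m LL e L → (∀ l c, MeasurableSet (X l c) ∧ volume (X l c) < ⊤) →
  (open Classical in
    ∀ x, ∀ r < 2 * 4 ^ m, (LL.filter (fun l => x ∈ X l (r / 4 ^ (m - l)))).card ≤ K) →
  (∀ l ∈ LL, ∀ c < 2 * 4 ^ l, ∀ p < 3 * 2 ^ (e l + 8 * a), ∀ x,
    ENNReal.ofReal (1 / 2 ^ a) ≤ sa (tp sl (e l + 8 * a) p) (L l) (inn (de a (e l)) (X l c)) x →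
    (Lam a m sl LL e L X l c p x).card ≤ M) →
  Core a m sg sl h →
  ∑ l ∈ LL, ∑ c ∈ Finset.range (2 * 4 ^ l), ∑ p ∈ Finset.range (3 * 2 ^ (e l + 8 * a)), ∫⁻ x,
      sa (tp sl (e l + 8 * a) p) (L l) (inn (de a (e l)) (X l c)) x *
      ‖Ex ({ξ | cd sg l c ξ ∧ cp sl (e l + 8 * a) p ξ}.indicator h) x‖ₑ ^ 2 ≤
    C * a ^ 2 * (K + 1) * (Nat.log 2 M + 2 : ℕ) * n2 h

/-! ### F. Tops, labels, multiplicity -/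

/-- F1 the events are local -/
def tFOK : Prop := ∀ (a m : ℕ) (z0 : ℝ × ℝ) (T : Finset Top) (pr : Top → ℕ), PA a m →
  (∀ s, FOK a m z0 T (famB a m z0 T pr s)) ∧ FOK a m z0 T (famC a m z0 T pr)

/-- F2 usage of the sets `XF` -/
def tUSE : Prop := ∀ (a m : ℕ) (z0 : ℝ × ℝ) (T : Finset Top) (F : Fam) (G : Set (ℝ × ℝ)),
  PA a m → FOK a m z0 T F → (∀ x ∈ G, Gf a m z0 T F x) →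
  (∀ l ∈ F.Lv, ∀ c, MeasurableSet (XF a z0 F G l c) ∧ volume (XF a z0 F G l c) < ⊤) ∧
  (open Classical in
    ∀ x r, (F.Lv.filter (fun l => x ∈ XF a z0 F G l (r / 4 ^ (m - l)))).card ≤ 200 * a)

/-- F3 a segment that meets a union of squares often -/
def tCLP : Prop := ∀ (a m : ℕ) (z0 : ℝ × ℝ) (t L : ℝ) (e l : ℕ) (X : Set (ℝ × ℝ)) (x : ℝ × ℝ),
  PA a m → 10 * a < l → l ≤ m → l ≤ e + 1 → e ≤ m → 4 ^ l / 4 ^ (2 * a) ≤ L →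
  L ≤ 4 ^ (l + 5 * a) → (∀ y y', Qx a z0 e y = Qx a z0 e y' → y ∈ X → y' ∈ X) →
  ENNReal.ofReal (1 / 2 ^ a) ≤ sa t L (inn (de a e) X) x →
  ENNReal.ofReal (bl a e l * sd a e / 2 ^ (16 * a)) ≤
    volume (X ∩ bx t x (3 * bl a e l) (3 * sd a e))

/-- F4 multiplicity -/
def tMLT : Prop := ∀ (a m : ℕ) (sl : ℝ) (z0 : ℝ × ℝ) (T : Finset Top) (F : Fam)
    (G : Set (ℝ × ℝ)) (LL : Finset ℕ) (L : ℕ → ℝ), PA a m → 1 ≤ sl → sl < 2 →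
  FOK a m z0 T F → (∀ x ∈ G, Gf a m z0 T F x) → LL ⊆ F.Lv → CL a m LL F.e L →
  ∀ l ∈ LL, ∀ c < 2 * 4 ^ l, ∀ p < 3 * 2 ^ (F.e l + 8 * a), ∀ x,
    ENNReal.ofReal (1 / 2 ^ a) ≤
      sa (tp sl (F.e l + 8 * a) p) (L l) (inn (de a (F.e l)) (XF a z0 F G l c)) x →
    (Lam a m sl LL F.e L (XF a z0 F G) l c p x).card ≤ 2 ^ (90 * a + 2)

/-- F5 the positive sum for a family -/
def tPFM : Prop := ∃ C : ℝ≥0, ∀ (a m : ℕ) (sg sl : ℝ) (z0 : ℝ × ℝ) (T : Finset Top) (F : Fam)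
    (G : Set (ℝ × ℝ)) (h : ℝ × ℝ → ℂ), PA a m → 0 ≤ sg → sg < 1 → 1 ≤ sl → sl < 2 →
  FOK a m z0 T F → (∀ x ∈ G, Gf a m z0 T F x) → Core a m sg sl h →
  ∑ l ∈ F.Lv, ∑ c ∈ Finset.range (2 * 4 ^ l), ∑ p ∈ Finset.range (3 * 2 ^ (F.e l + 8 * a)), ∫⁻ x,
      (sa (tp sl (F.e l + 8 * a) p) (4 ^ (l + 5 * a)) (inn (de a (F.e l)) (XF a z0 F G l c)) x +
      sa (tp sl (F.e l + 8 * a) p) (4 ^ l / 4 ^ (2 * a)) (inn (de a (F.e l)) (XF a z0 F G l c)) x) *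
      ‖Ex ({ξ | cd sg l c ξ ∧ cp sl (F.e l + 8 * a) p ξ}.indicator h) x‖ₑ ^ 2 ≤
    C * a ^ 5 * n2 h

/-- F6 Kakeya / Cordoba -/
def tKAK : Prop := ∃ C : ℝ≥0, ∀ (Z : Set (ℝ × ℝ)) (A B β : ℝ), MeasurableSet Z → 0 < B →
  B ≤ A → 0 < β → β ≤ 1 →
  volume {y | ∃ t ∈ Icc (-2 : ℝ) 2, ∃ x0, y ∈ bx t x0 (7 * A) (7 * B) ∧
    ENNReal.ofReal (A * B * β) ≤ volume (Z ∩ bx t x0 (7 * A) (7 * B))} ≤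
  C * ENNReal.ofReal ((1 + Real.log (A / B)) / β ^ 2) * volume Z

/-- F7 decomposition of the path of a point -/
def tTRE : Prop := ∀ (a m l0 l1 r K : ℕ) (sg : ℝ) (T : Finset Top) (pr : Top → ℕ) (S : ℝ → ℂ),
  l0 ≤ l1 → l1 ≤ m → m < 2 ^ a → r < 2 * 4 ^ m →
  (∀ t ∈ T, ∀ t' ∈ T, pr t = pr t' → t = t') →
  (∀ l, l0 ≤ l → l < l1 → (Sb T l l (r / 4 ^ (m - l))).Nonempty) →
  (open Classical in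
    ((Finset.Ioc l0 m).filter (fun l => EvC pr T l (r / 4 ^ (m - l)))).card ≤ K) →
  ‖S (sg + (r / 4 ^ (m - l1) : ℕ) / 4 ^ l1) - S (sg + (r / 4 ^ (m - l0) : ℕ) / 4 ^ l0)‖ ^ 2 ≤
    32 * (K + 2) * (a + 2) * (open Classical in
    (∑ s ∈ Finset.range (a + 1), ∑ n ∈ Finset.range (m + 1), ∑ u ∈ Finset.range (2 * 4 ^ m),
      if l0 ≤ n * 2 ^ s ∧ (n + 1) * 2 ^ s ≤ l1 ∧
          (∃ t, Lb pr (Sb T (n * 2 ^ s) ((n + 1) * 2 ^ s) (r / 4 ^ (m - n * 2 ^ s))) t ∧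
            t.2.1 / 4 ^ (t.1 - (n + 1) * 2 ^ s) = u) then
        ‖S (sg + u / 4 ^ ((n + 1) * 2 ^ s)) -
          S (sg + (r / 4 ^ (m - n * 2 ^ s) : ℕ) / 4 ^ (n * 2 ^ s))‖ ^ 2 +
        ‖S (sg + ((r / 4 ^ (m - n * 2 ^ s) : ℕ) + 1) / 4 ^ (n * 2 ^ s)) -
          S (sg + (u + 1) / 4 ^ ((n + 1) * 2 ^ s))‖ ^ 2 else 0) +
    (∑ l ∈ Finset.Ioc l0 m, ∑ c ∈ Finset.range (2 * 4 ^ l),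
      if c / 4 = r / 4 ^ (m - (l - 1)) ∧ EvC pr T l c then
        ‖S (sg + (c + 1) / 4 ^ l) - S (sg + c / 4 ^ l)‖ ^ 2 else 0) +
    ‖S (sg + ((r / 4 ^ (m - l0) : ℕ) + 1) / 4 ^ l0) -
      S (sg + (r / 4 ^ (m - l0) : ℕ) / 4 ^ l0)‖ ^ 2)

/-- F8 random priorities: number of records of a decreasing sequence of sets -/
def tREC : Prop := ∀ (T : Finset Top) (M : ℕ), ∃ Ω : Finset (Top → ℕ), Ω.Nonempty ∧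
  (∀ pr ∈ Ω, ∀ t ∈ T, ∀ t' ∈ T, pr t = pr t' → t = t') ∧
  ∀ (n K : ℕ) (S : ℕ → Finset Top), S 0 ⊆ T → (S 0).card ≤ M → (∀ i, S (i + 1) ⊆ S i) →
    (open Classical in (Ω.filter (fun pr => K ≤ ((Finset.range n).filter (fun i =>
      ∃ t, Lb pr (S i) t ∧ t ∉ S (i + 1))).card)).card) * 2 ^ K ≤ 4 * (M + 1) * Ω.card

/-- F9 choice of the priority -/
def tPRI : Prop := ∀ (a m : ℕ) (z0 : ℝ × ℝ) (T : Finset Top) (E : Set (ℝ × ℝ)), PA a m →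
  MeasurableSet E → volume E < ⊤ → ∃ pr : Top → ℕ,
    (∀ t ∈ T, ∀ t' ∈ T, pr t = pr t' → t = t') ∧
    volume {x ∈ E | (TX a z0 T x).card ≤ 2 ^ (90 * a) ∧ ∃ r : ℕ, (open Classical in
      (∃ s ≤ a, 200 * a < ((famB a m z0 T pr s).Lv.filter
        (fun l => (famB a m z0 T pr s).Ev l (r / 4 ^ (m - l)) x)).card) ∨
      200 * a < ((famC a m z0 T pr).Lv.filter
        (fun l => (famC a m z0 T pr).Ev l (r / 4 ^ (m - l)) x)).card)} ≤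
    volume E / 100

/-- F10 popular pairs and tops -/
def tTOP : Prop := ∀ (a m : ℕ) (z0 : ℝ × ℝ) (sg : ℝ) (E : Set (ℝ × ℝ)) (k : ℝ × ℝ → ℕ),
  PA a m → 0 ≤ sg → sg < 1 → MeasurableSet E → volume E < ⊤ → Measurable k →
  (∀ x, k x < 4 ^ m) → ∃ T : Finset Top,
    (∀ t ∈ T, 10 * a ≤ t.1 ∧ t.1 ≤ m ∧ t.2.1 < 2 * 4 ^ t.1) ∧
    (∀ l x, 10 * a ≤ l → l ≤ m → Pop a m z0 sg E k l (Qx a z0 l x) (kc m sg k l x) →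
      ∃ t ∈ TX a z0 T x, l ≤ t.1 ∧ t.2.1 / 4 ^ (t.1 - l) = kc m sg k l x) ∧
    ∑ t ∈ T, ENNReal.ofReal (sd a t.1 ^ 2) ≤ ENNReal.ofReal (2 ^ (50 * a)) * volume E

/-- F11 exceptional points -/
def tDRP : Prop := ∃ a0 : ℕ, ∀ (a m : ℕ) (z0 : ℝ × ℝ) (T : Finset Top) (V : ℝ≥0∞), a0 ≤ a →
  PA a m → (∀ t ∈ T, 10 * a ≤ t.1 ∧ t.1 ≤ m ∧ t.2.1 < 2 * 4 ^ t.1) →
  ∑ t ∈ T, ENNReal.ofReal (sd a t.1 ^ 2) ≤ ENNReal.ofReal (2 ^ (50 * a)) * V →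
  volume {x | 2 ^ (90 * a) < (TX a z0 T x).card} ≤ V / 100 ∧
  ∀ F : Fam, (∀ l ∈ F.Lv, 10 * a < l ∧ l ≤ m ∧ l ≤ F.e l + 1 ∧ F.e l ≤ m) →
    (a + 2) * volume {x | 2 ^ (90 * a) < (open Classical in
      ((F.Lv ×ˢ Finset.range (2 * 4 ^ m)).filter
        (fun P => x ∈ Zp a z0 T (F.e P.1) P.1 P.2)).card)} ≤ V / 100

/-- F12 shift of the squares -/
def tZSH : Prop := ∀ (a m : ℕ) (E : Set (ℝ × ℝ)), PA a m → MeasurableSet E → volume E < ⊤ →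
  ∃ z0 : ℝ × ℝ, volume (E \ IN a m z0) ≤ volume E / 100

/-- F13 shifts on the frequency side -/
def tSHF : Prop := ∀ (a m : ℕ) (h : ℝ × ℝ → ℂ), PA a m → Bd h → (∀ ξ, h ξ ≠ 0 → ξ ∈ V0) →
  ∃ sg sl : ℝ, 0 ≤ sg ∧ sg < 1 ∧ 1 ≤ sl ∧ sl < 2 ∧ ∃ G : Set (ℝ × ℝ), MeasurableSet G ∧
    Core a m sg sl (G.indicator h) ∧ n2 (Gᶜ.indicator h) ≤ ENNReal.ofReal (16 / 2 ^ (3 * a)) * n2 h

/-- F14 unpopular part -/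
def tBAD : Prop := ∃ C : ℝ≥0, ∀ (a m : ℕ) (z0 : ℝ × ℝ) (sg : ℝ) (E : Set (ℝ × ℝ))
    (k : ℝ × ℝ → ℕ) (h : ℝ × ℝ → ℂ), PA a m → 0 ≤ sg → sg < 1 → MeasurableSet E →
  volume E < ⊤ → Measurable k → (∀ x, k x < 4 ^ m) → Bd h → (∀ ξ, h ξ ≠ 0 → ξ ∈ V0) →
  ∫⁻ x in E, ‖Ex ({ξ | sg + kc m sg k (lst a m z0 sg E k x) x / 4 ^ (lst a m z0 sg E k x) ≤ nr ξ ∧
      nr ξ < sg + kc m sg k m x / 4 ^ m}.indicator h) x‖ₑ ^ 2 ≤ C * n2 h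

/-- F15 Rademacher-Menshov for arbitrary radii -/
def tRMG : Prop := ∃ C : ℝ≥0, ∀ (n : ℕ) (R : ℕ → ℝ) (k : ℝ × ℝ → ℕ) (h : ℝ × ℝ → ℂ), 1 ≤ n →
  Monotone R → Measurable k → (∀ x, k x < 2 ^ n) → Bd h →
  ∫⁻ x, ‖Ex ({ξ | nr ξ < R (k x)}.indicator h) x‖ₑ ^ 2 ≤ C * n ^ 2 * n2 h

/-- F16 the popular part -/
def tGOD : Prop := ∃ C : ℝ≥0, ∀ (a m : ℕ) (sg sl : ℝ) (z0 : ℝ × ℝ) (T : Finset Top)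
    (pr : Top → ℕ) (A : Set (ℝ × ℝ)) (rr ls : ℝ × ℝ → ℕ) (h : ℝ × ℝ → ℂ), PA a m → 0 ≤ sg →
  sg < 1 → 1 ≤ sl → sl < 2 → (∀ t ∈ T, ∀ t' ∈ T, pr t = pr t' → t = t') →
  (∀ t ∈ T, t.2.1 < 2 * 4 ^ t.1) →
  MeasurableSet A → A ⊆ Gd a m z0 T pr ∩ IN a m z0 → Measurable rr → Measurable ls →
  (∀ x, rr x < 2 * 4 ^ m) → (∀ x, 10 * a ≤ ls x ∧ ls x ≤ m) →
  (∀ x ∈ A, ∀ l, 10 * a ≤ l → l < ls x →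
    (Sb (TX a z0 T x) l l (rr x / 4 ^ (m - l))).Nonempty) → Core a m sg sl h →
  ∫⁻ x in A, ‖Ex ({ξ | sg + (rr x / 4 ^ (m - 10 * a) : ℕ) / 4 ^ (10 * a) ≤ nr ξ ∧
      nr ξ < sg + (rr x / 4 ^ (m - ls x) : ℕ) / 4 ^ (ls x)}.indicator h) x‖ₑ ^ 2 ≤
    C * a ^ 11 * n2 h

/-- F17 the linearised estimate on the right sector -/
def tLIN : Prop := ∃ C : ℝ≥0, ∀ (m : ℕ) (E : Set (ℝ × ℝ)) (k : ℝ × ℝ → ℕ) (h : ℝ × ℝ → ℂ),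
  1 ≤ m → MeasurableSet E → volume E < ⊤ → Measurable k → (∀ x, k x < 4 ^ m) → Bd h →
  (∀ ξ, h ξ ≠ 0 → ξ ∈ V0) → ∃ E' ⊆ E, MeasurableSet E' ∧ volume E ≤ 2 * volume E' ∧
  ∫⁻ x in E', ‖Ex ((ann 1 (1 + k x / 4 ^ m)).indicator h) x‖ₑ ^ 2 ≤
    C * ((lg m : ℕ) : ℝ≥0∞) ^ 11 * n2 h

/-- F18 weak type on the right sector -/
def tWV : Prop := ∃ C : ℝ≥0, ∀ (m : ℕ) (h : ℝ × ℝ → ℂ) (lam : ℝ≥0∞), 1 ≤ m → Bd h →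
  (∀ ξ, h ξ ≠ 0 → ξ ∈ V0) →
  lam ^ 2 * volume {x | lam < ⨆ k ∈ Finset.range (4 ^ m),
      ‖Ex ((ann 1 (1 + k / 4 ^ m)).indicator h) x‖ₑ} ≤
    C * ((lg m : ℕ) : ℝ≥0∞) ^ 11 * n2 h

/-- F19 weak type on the annulus -/
def tWA : Prop := ∃ C : ℝ≥0, ∀ (m : ℕ) (h : ℝ × ℝ → ℂ) (lam : ℝ≥0∞), 1 ≤ m → Bd h →
  (∀ ξ, h ξ ≠ 0 → 1 ≤ nr ξ ∧ nr ξ < 2) →
  lam ^ 2 * volume {x | lam < ⨆ k ∈ Finset.range (4 ^ m),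
      ‖Ex ((ann 1 (1 + k / 4 ^ m)).indicator h) x‖ₑ} ≤
    C * ((lg m : ℕ) : ℝ≥0∞) ^ 11 * n2 h

end Pool.Agent.LLog
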